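import Mathlib

set_option autoImplicit false

namespace Pool.Agent.Helper805_nf

open Finset

theorem fe_add {K : Type*} [Field K] {v : ℕ} [NeZero v] (ζ : K) (hζ : ζ ^ v = 1) (s t : ZMod v) :
    ζ ^ (s + t).val = ζ ^ s.val * ζ ^ t.val := by
  rw [ZMod.val_add, ← pow_add]
  exact (pow_eq_pow_mod _ hζ).symm

theorem fe_sum {K : Type*} [Field K] {v : ℕ} [NeZero v] (ζ : K) (hζ : IsPrimitiveRoot ζ v) (a : ZMod v) :
    ∑ t : ZMod v, ζ ^ (a * t).val = if a = 0 then (v : K) else 0 := by
  split_ifs with ha
  · subst ha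
    simp [ZMod.val_zero, ZMod.card]
  · set S := ∑ t : ZMod v, ζ ^ (a * t).val with hS
    have h1 : S * ζ ^ a.val = S := by
      rw [hS, Finset.sum_mul]
      rw [← Equiv.sum_comp (Equiv.addRight (1 : ZMod v)) (fun t => ζ ^ (a * t).val)]
      refine Finset.sum_congr rfl fun t _ => ?_
      rw [← fe_add ζ hζ.pow_eq_one]
      congr 2
      simp [mul_add]
    have h2 : S * (ζ ^ a.val - 1) = 0 := by
      rw [mul_sub, h1]; ring
    rcases mul_eq_zero.mp h2 with h | h
    · exact h
    · exfalso
      have h3 : ζ ^ a.val = 1 := sub_eq_zero.mp h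
      have h4 := (hζ.pow_eq_one_iff_dvd _).mp h3
      have h5 : a.val < v := ZMod.val_lt a
      have h6 : a.val = 0 := Nat.eq_zero_of_dvd_of_lt h4 h5
      exact ha ((ZMod.val_eq_zero a).mp h6)

/-- A1. Fourier detection lemma. -/
theorem fourier_exists {K : Type*} [Field K] {ι : Type*} [Fintype ι] [DecidableEq ι]
    (v : ℕ) [NeZero v] (ζ : K) (hζ : IsPrimitiveRoot ζ v)
    (c : Option (ι × Bool) ≃ ZMod v) (d s : ι → ZMod v)
    (h : ∑ σ : Equiv.Perm (Option (ι × Bool)),
        (if ∀ i, c (σ (some (i, false))) + c (σ (some (i, true))) = s i then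
          ((Equiv.Perm.sign σ : ℤ) : K) * ∏ i, ζ ^ (c (σ (some (i, true))) * d i).val
        else 0) ≠ 0) :
    ∃ x : ι → ZMod v, Function.Injective
      (fun r : Option (ι × Bool) => r.elim (0 : ZMod v) (fun q => x q.1 + if q.2 then d q.1 else 0)) := by
  classical
  by_contra hcon
  push Not at hcon
  apply h
  have hadd := fe_add ζ hζ.pow_eq_one
  have hv : (v : K) ≠ 0 := by
    have := hζ.neZero'
    exact this.out
  let y : (ι → ZMod v) → Option (ι × Bool) → ZMod v := fun x r =>
    r.elim (0 : ZMod v) (fun q => x q.1 + if q.2 then d q.1 else 0)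
  let M : (ι → ZMod v) → Matrix (Option (ι × Bool)) (Option (ι × Bool)) K := fun x =>
    Matrix.of (fun r' r => ζ ^ (c r' * y x r).val)
  have hdet : ∀ x, (M x).det = 0 := by
    intro x
    have hx := hcon x
    rw [Function.not_injective_iff] at hx
    obtain ⟨r1, r2, hr, hne⟩ := hx
    refine Matrix.det_zero_of_column_eq hne ?_
    intro k
    have hr' : y x r1 = y x r2 := hr
    simp only [M, Matrix.of_apply, hr']
  have hS : ∑ x : ι → ZMod v, (∏ i, ζ ^ (-(s i) * x i).val) * (M x).det = 0 := by
    refine Finset.sum_eq_zero fun x _ => ?_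
    rw [hdet x, mul_zero]
  have hexp : ∑ x : ι → ZMod v, (∏ i, ζ ^ (-(s i) * x i).val) * (M x).det
      = (v : K) ^ (Fintype.card ι) * ∑ σ : Equiv.Perm (Option (ι × Bool)),
        (if ∀ i, c (σ (some (i, false))) + c (σ (some (i, true))) = s i then
          ((Equiv.Perm.sign σ : ℤ) : K) * ∏ i, ζ ^ (c (σ (some (i, true))) * d i).val
        else 0) := by
    have e1 : ∀ x : ι → ZMod v, (∏ i, ζ ^ (-(s i) * x i).val) * (M x).det
        = ∑ σ : Equiv.Perm (Option (ι × Bool)), ((Equiv.Perm.sign σ : ℤ) : K) *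
          ∏ i, (ζ ^ (-(s i) * x i).val * (ζ ^ (c (σ (some (i, true))) * (x i + d i)).val
            * ζ ^ (c (σ (some (i, false))) * x i).val)) := by
      intro x
      rw [Matrix.det_apply', Finset.mul_sum]
      refine Finset.sum_congr rfl fun σ _ => ?_
      rw [Fintype.prod_option, Fintype.prod_prod_type]
      simp only [M, y, Matrix.of_apply, Option.elim, mul_zero, ZMod.val_zero, pow_zero, one_mul,
        Fintype.prod_bool, if_true, Bool.false_eq_true, if_false, add_zero]
      rw [Finset.prod_mul_distrib (f := fun i => ζ ^ (-(s i) * x i).val)]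
      ring
    rw [Finset.sum_congr rfl fun x _ => e1 x, Finset.sum_comm, Finset.mul_sum]
    refine Finset.sum_congr rfl fun σ _ => ?_
    rw [← Finset.mul_sum]
    have e2 : ∑ x : ι → ZMod v, ∏ i, (ζ ^ (-(s i) * x i).val * (ζ ^ (c (σ (some (i, true))) * (x i + d i)).val
            * ζ ^ (c (σ (some (i, false))) * x i).val))
        = ∏ i, ∑ t : ZMod v, (ζ ^ (-(s i) * t).val * (ζ ^ (c (σ (some (i, true))) * (t + d i)).val
            * ζ ^ (c (σ (some (i, false))) * t).val)) := by
      rw [Finset.prod_univ_sum]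
      rw [Fintype.piFinset_univ]
    have e3 : ∀ i, ∑ t : ZMod v, (ζ ^ (-(s i) * t).val * (ζ ^ (c (σ (some (i, true))) * (t + d i)).val
            * ζ ^ (c (σ (some (i, false))) * t).val))
        = ζ ^ (c (σ (some (i, true))) * d i).val *
          (if c (σ (some (i, false))) + c (σ (some (i, true))) = s i then (v : K) else 0) := by
      intro i
      have e4 : ∀ t : ZMod v, (ζ ^ (-(s i) * t).val * (ζ ^ (c (σ (some (i, true))) * (t + d i)).val
            * ζ ^ (c (σ (some (i, false))) * t).val))
          = ζ ^ (c (σ (some (i, true))) * d i).val *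
            ζ ^ ((c (σ (some (i, false))) + c (σ (some (i, true))) - s i) * t).val := by
        intro t
        rw [← hadd, ← hadd, ← hadd]
        congr 2
        ring
      rw [Finset.sum_congr rfl fun t _ => e4 t, ← Finset.mul_sum, fe_sum ζ hζ]
      simp only [sub_eq_zero]
    rw [e2, Finset.prod_congr rfl fun i _ => e3 i, Finset.prod_mul_distrib]
    split_ifs with hall
    · rw [Finset.prod_congr rfl fun i _ => if_pos (hall i)]
      rw [Finset.prod_const, Finset.card_univ]
      ring
    · push Not at hall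
      obtain ⟨i, hi⟩ := hall
      rw [Finset.prod_eq_zero (f := fun i => if c (σ (some (i, false))) + c (σ (some (i, true))) = s i
        then (v : K) else 0) (Finset.mem_univ i) (if_neg hi)]
      ring
  rw [hS] at hexp
  exact (mul_eq_zero.mp hexp.symm).resolve_left (pow_ne_zero _ hv)

end Pool.Agent.Helper805_nf
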