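import Pool.Agent.Helper805_nf.Defs

set_option autoImplicit false

namespace Pool.Agent.Helper805_nf

open Finset


theorem zmod_eq_imp (a b : ℕ) (p q : ℤ) (h : (p : ZMod (2 * (a + b) + 1)) = (q : ZMod (2 * (a + b) + 1))) :
    ∃ m : ℤ, p - q = (2 * (a + b) + 1) * m := by
  rw [ZMod.intCast_eq_intCast_iff_dvd_sub] at h
  obtain ⟨m, hm⟩ := h
  refine ⟨-m, ?_⟩
  push_cast at hm
  linear_combination -hm

theorem zmod_inj (a b : ℕ) (p q : ℤ) (h : (p : ZMod (2 * (a + b) + 1)) = (q : ZMod (2 * (a + b) + 1)))
    (h1 : p - q < 2 * (a + b) + 1) (h2 : q - p < 2 * (a + b) + 1) : p = q := by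
  obtain ⟨m, hm⟩ := zmod_eq_imp a b p q h
  have hpos : (0 : ℤ) < 2 * (a + b) + 1 := by positivity
  have hm1 : m < 1 := by
    by_contra hc
    push Not at hc
    nlinarith
  have hm2 : -1 < m := by
    by_contra hc
    push Not at hc
    nlinarith
  have : m = 0 := by omega
  subst this
  linarith

theorem col_range (a b : ℕ) (r : Option ((Fin a ⊕ Fin b) × Bool)) :
    -1 ≤ col a b r ∧ col a b r < 2 * (a + b) := by
  rcases r with _ | ⟨k | k, t⟩
  · simp only [col]; omega
  · have := k.2
    cases t <;> simp only [col] <;> omega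
  · have := k.2
    cases t <;> simp only [col] <;> omega

theorem col_inj (a b : ℕ) (r s : Option ((Fin a ⊕ Fin b) × Bool)) (h : col a b r = col a b s) : r = s := by
  rcases r with _ | ⟨k | k, t⟩ <;> rcases s with _ | ⟨l | l, u⟩
  · rfl
  · have := l.2
    cases u <;> simp only [col] at h <;> omega
  · have := l.2
    cases u <;> simp only [col] at h <;> omega
  · have := k.2
    cases t <;> simp only [col] at h <;> omega
  · have := k.2
    have := l.2
    cases t <;> cases u <;> simp only [col] at h
    · have : k = l := Fin.ext (by omega)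
      rw [this]
    · omega
    · omega
    · have : k = l := Fin.ext (by omega)
      rw [this]
  · have := k.2
    have := l.2
    cases t <;> cases u <;> simp only [col] at h <;> omega
  · have := k.2
    cases t <;> simp only [col] at h <;> omega
  · have := k.2
    have := l.2
    cases t <;> cases u <;> simp only [col] at h <;> omega
  · have := k.2
    have := l.2
    cases t <;> cases u <;> simp only [col] at h
    · have : k = l := Fin.ext (by omega)
      rw [this]
    · omega
    · omega
    · have : k = l := Fin.ext (by omega)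
      rw [this]

theorem ccol_inj (a b : ℕ) (r s : Option ((Fin a ⊕ Fin b) × Bool))
    (h : ((col a b r : ℤ) : ZMod (2 * (a + b) + 1)) = ((col a b s : ℤ) : ZMod (2 * (a + b) + 1))) : r = s := by
  have h1 := col_range a b r
  have h2 := col_range a b s
  exact col_inj a b r s (zmod_inj a b _ _ h (by omega) (by omega))

/-- A2a. The labelling is a bijection onto residues. -/
theorem col_bij (a b : ℕ) : Function.Bijective
    (fun r : Option ((Fin a ⊕ Fin b) × Bool) => ((col a b r : ℤ) : ZMod (2 * (a + b) + 1))) := by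
  have : NeZero (2 * (a + b) + 1) := ⟨by omega⟩
  rw [Fintype.bijective_iff_injective_and_card]
  refine ⟨fun r s h => ccol_inj a b r s h, ?_⟩
  rw [ZMod.card]
  simp [Fintype.card_option, Fintype.card_prod]
  ring

theorem exists_col (a b : ℕ) (σ : Equiv.Perm (Option ((Fin a ⊕ Fin b) × Bool)))
    (h0 : σ none = none) (t : ℤ) (ht : 0 ≤ t) (ht' : t < 2 * (a + b)) :
    (∃ i β, ((col a b (σ (some (Sum.inl i, β))) : ℤ) : ZMod (2 * (a + b) + 1)) = (t : ZMod (2 * (a + b) + 1))) ∨
    (∃ i β, ((col a b (σ (some (Sum.inr i, β))) : ℤ) : ZMod (2 * (a + b) + 1)) = (t : ZMod (2 * (a + b) + 1))) := by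
  obtain ⟨r, hr⟩ := (col_bij a b).2 (t : ZMod (2 * (a + b) + 1))
  have hr' : ((col a b r : ℤ) : ZMod (2 * (a + b) + 1)) = (t : ZMod (2 * (a + b) + 1)) := hr
  obtain ⟨s, rfl⟩ := σ.surjective r
  rcases s with _ | ⟨k | k, u⟩
  · exfalso
    rw [h0] at hr'
    have := zmod_inj a b _ _ hr' (by simp only [col]; omega) (by simp only [col]; omega)
    simp only [col] at this
    omega
  · exact Or.inl ⟨k, u, hr'⟩
  · exact Or.inr ⟨k, u, hr'⟩

theorem sum_col (a b : ℕ) : ∑ r : Option ((Fin a ⊕ Fin b) × Bool), ((col a b r : ℤ) : ZMod (2 * (a + b) + 1)) =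
    -1 + (a * (2 * a - 1) + b * (2 * a - 2)) := by
  rw [Fintype.sum_option, Fintype.sum_prod_type]
  simp only [Fintype.sum_bool, Fintype.sum_sum_type, col]
  have h1 : ∀ x : Fin a, (((a : ℤ) + ((x : ℕ) : ℤ) : ℤ) : ZMod (2 * (a + b) + 1)) +
      (((a : ℤ) - 1 - ((x : ℕ) : ℤ) : ℤ) : ZMod (2 * (a + b) + 1)) = 2 * a - 1 := by
    intro x; push_cast; ring
  have hv : ((2 * (a + b) + 1 : ℕ) : ZMod (2 * (a + b) + 1)) = 0 := ZMod.natCast_self _
  push_cast at hv
  have h2 : ∀ x : Fin b, ((2 * (a : ℤ) + b + ((x : ℕ) : ℤ) : ℤ) : ZMod (2 * (a + b) + 1)) +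
      ((2 * (a : ℤ) + b - 1 - ((x : ℕ) : ℤ) : ℤ) : ZMod (2 * (a + b) + 1)) = 2 * a - 2 := by
    intro x; push_cast; linear_combination hv
  rw [Finset.sum_congr rfl (fun x _ => h1 x), Finset.sum_congr rfl (fun x _ => h2 x)]
  simp
  ring

theorem hole (a b : ℕ) (σ : Equiv.Perm (Option ((Fin a ⊕ Fin b) × Bool)))
    (hA : ∀ i : Fin a, ((col a b (σ (some (Sum.inl i, false))) +
        col a b (σ (some (Sum.inl i, true))) : ℤ) : ZMod (2 * (a + b) + 1)) = ((2 * a - 1 : ℤ) : ZMod (2 * (a + b) + 1)))
    (hB : ∀ i : Fin b, ((col a b (σ (some (Sum.inr i, false))) +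
        col a b (σ (some (Sum.inr i, true))) : ℤ) : ZMod (2 * (a + b) + 1)) = ((2 * a - 2 : ℤ) : ZMod (2 * (a + b) + 1))) :
    σ none = none := by
  have hs := Equiv.sum_comp σ (fun r => ((col a b r : ℤ) : ZMod (2 * (a + b) + 1)))
  rw [sum_col, Fintype.sum_option, Fintype.sum_prod_type] at hs
  simp only [Fintype.sum_bool, Fintype.sum_sum_type] at hs
  have h1 : ∀ x : Fin a, ((col a b (σ (some (Sum.inl x, true))) : ℤ) : ZMod (2 * (a + b) + 1)) +
      ((col a b (σ (some (Sum.inl x, false))) : ℤ) : ZMod (2 * (a + b) + 1)) = 2 * a - 1 := by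
    intro x; have := hA x; push_cast at this; linear_combination this
  have h2 : ∀ x : Fin b, ((col a b (σ (some (Sum.inr x, true))) : ℤ) : ZMod (2 * (a + b) + 1)) +
      ((col a b (σ (some (Sum.inr x, false))) : ℤ) : ZMod (2 * (a + b) + 1)) = 2 * a - 2 := by
    intro x; have := hB x; push_cast at this; linear_combination this
  rw [Finset.sum_congr rfl (fun x _ => h1 x), Finset.sum_congr rfl (fun x _ => h2 x)] at hs
  simp only [Finset.sum_const, Finset.card_univ, Fintype.card_fin, nsmul_eq_mul] at hs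
  apply ccol_inj a b
  have hn : ((col a b none : ℤ) : ZMod (2 * (a + b) + 1)) = -1 := by simp [col]
  rw [hn]
  linear_combination hs

/-- A2. Structure. -/
theorem structure_lemma (a b : ℕ) (σ : Equiv.Perm (Option ((Fin a ⊕ Fin b) × Bool)))
    (hA : ∀ i : Fin a, ((col a b (σ (some (Sum.inl i, false))) +
        col a b (σ (some (Sum.inl i, true))) : ℤ) : ZMod (2 * (a + b) + 1)) = ((2 * a - 1 : ℤ) : ZMod (2 * (a + b) + 1)))
    (hB : ∀ i : Fin b, ((col a b (σ (some (Sum.inr i, false))) +
        col a b (σ (some (Sum.inr i, true))) : ℤ) : ZMod (2 * (a + b) + 1)) = ((2 * a - 2 : ℤ) : ZMod (2 * (a + b) + 1))) :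
    ∃ (π : Equiv.Perm (Fin a)) (ρ : Equiv.Perm (Fin b)) (ε : Fin a → Bool) (δ : Fin b → Bool),
      ∀ r, σ r = blockPerm a b π ρ ε δ r := by
  have h0 := hole a b σ hA hB
  -- the two classes of residues
  let v := 2 * (a + b) + 1
  let SA : Set (ZMod (2 * (a + b) + 1)) := {t | ∃ i β, ((col a b (σ (some (Sum.inl i, β))) : ℤ) : ZMod (2 * (a + b) + 1)) = t}
  let SB : Set (ZMod (2 * (a + b) + 1)) := {t | ∃ i β, ((col a b (σ (some (Sum.inr i, β))) : ℤ) : ZMod (2 * (a + b) + 1)) = t}
  have hv : ((2 * (a + b) + 1 : ℕ) : ZMod (2 * (a + b) + 1)) = 0 := ZMod.natCast_self _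
  push_cast at hv
  have hor : ∀ t : ℤ, 0 ≤ t → t < 2 * (a + b) → (t : ZMod (2 * (a + b) + 1)) ∈ SA ∨ (t : ZMod (2 * (a + b) + 1)) ∈ SB :=
    fun t h1 h2 => exists_col a b σ h0 t h1 h2
  have pA : ∀ t, t ∈ SA → 2 * a - 1 - t ∈ SA := by
    rintro t ⟨i, β, rfl⟩
    have h := hA i
    push_cast at h
    cases β
    · exact ⟨i, true, by linear_combination h⟩
    · exact ⟨i, false, by linear_combination h⟩
  have pB : ∀ t, t ∈ SB → 2 * a - 2 - t ∈ SB := by
    rintro t ⟨i, β, rfl⟩
    have h := hB i
    push_cast at h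
    cases β
    · exact ⟨i, true, by linear_combination h⟩
    · exact ⟨i, false, by linear_combination h⟩
  have dis : ∀ t, t ∈ SA → t ∈ SB → False := by
    rintro t ⟨i, β, h1⟩ ⟨j, γ, h2⟩
    have := σ.injective (ccol_inj a b _ _ (h1.trans h2.symm))
    simp at this
  have nA : (-1 : ZMod (2 * (a + b) + 1)) ∉ SA := by
    rintro ⟨i, β, h1⟩
    have : ((col a b (σ none) : ℤ) : ZMod (2 * (a + b) + 1)) = -1 := by
      rw [h0]; simp [col]
    have := σ.injective (ccol_inj a b _ _ (h1.trans this.symm))
    simp at this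
  have nB : (-1 : ZMod (2 * (a + b) + 1)) ∉ SB := by
    rintro ⟨i, β, h1⟩
    have : ((col a b (σ none) : ℤ) : ZMod (2 * (a + b) + 1)) = -1 := by
      rw [h0]; simp [col]
    have := σ.injective (ccol_inj a b _ _ (h1.trans this.symm))
    simp at this
  have cB : ∀ t : ℕ, t < b → (2 * a + t : ZMod (2 * (a + b) + 1)) ∈ SB ∧ (-2 - t : ZMod (2 * (a + b) + 1)) ∈ SB := by
    intro t
    induction t with
    | zero =>
      intro hb
      have h1 : (2 * a + (0 : ℕ) : ZMod (2 * (a + b) + 1)) ∈ SB := by
        rcases hor (2 * a) (by omega) (by omega) with h | h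
        · exfalso
          apply nA
          have := pA _ h
          convert this using 1
          push_cast; ring
        · convert h using 1
          push_cast; ring
      refine ⟨h1, ?_⟩
      have := pB _ h1
      convert this using 1
      push_cast; ring
    | succ t ih =>
      intro hb
      obtain ⟨ih1, ih2⟩ := ih (by omega)
      have h1 : (2 * a + (t + 1 : ℕ) : ZMod (2 * (a + b) + 1)) ∈ SB := by
        rcases hor (2 * a + (t + 1)) (by omega) (by omega) with h | h
        · exfalso
          apply dis _ _ ih2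
          have := pA _ h
          convert this using 1
          push_cast; ring
        · convert h using 1
          push_cast; ring
      refine ⟨h1, ?_⟩
      have := pB _ h1
      convert this using 1
      push_cast; ring
  have cA : ∀ t : ℕ, t < a → (2 * a - 1 - t : ZMod (2 * (a + b) + 1)) ∈ SA ∧ (t : ZMod (2 * (a + b) + 1)) ∈ SA := by
    intro t
    induction t with
    | zero =>
      intro hb
      have h1 : (2 * a - 1 - (0 : ℕ) : ZMod (2 * (a + b) + 1)) ∈ SA := by
        rcases hor (2 * a - 1) (by omega) (by omega) with h | h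
        · convert h using 1
          push_cast; ring
        · exfalso
          apply nB
          have := pB _ h
          convert this using 1
          push_cast; ring
      refine ⟨h1, ?_⟩
      have := pA _ h1
      convert this using 1
      push_cast; ring
    | succ t ih =>
      intro hb
      obtain ⟨ih1, ih2⟩ := ih (by omega)
      have h1 : (2 * a - 1 - (t + 1 : ℕ) : ZMod (2 * (a + b) + 1)) ∈ SA := by
        rcases hor (2 * a - 1 - (t + 1)) (by omega) (by omega) with h | h
        · convert h using 1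
          push_cast; ring
        · exfalso
          apply dis _ ih2
          have := pB _ h
          convert this using 1
          push_cast; ring
      refine ⟨h1, ?_⟩
      have := pA _ h1
      convert this using 1
      push_cast; ring
  have lA : ∀ (k : Fin a) (β : Bool), ((col a b (some (Sum.inl k, β)) : ℤ) : ZMod (2 * (a + b) + 1)) ∈ SA := by
    intro k β
    obtain ⟨h1, h2⟩ := cA (a - 1 - k) (by have := k.2; omega)
    have hk : ((a - 1 - (k : ℕ) : ℕ) : ZMod (2 * (a + b) + 1)) = a - 1 - (k : ℕ) := by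
      have := k.2
      rw [Nat.cast_sub (by omega), Nat.cast_sub (by omega)]
      simp
    rw [hk] at h1 h2
    cases β
    · simp only [col]; push_cast; exact h2
    · simp only [col]; push_cast; convert h1 using 1; ring
  have lB : ∀ (k : Fin b) (β : Bool), ((col a b (some (Sum.inr k, β)) : ℤ) : ZMod (2 * (a + b) + 1)) ∈ SB := by
    intro k β
    obtain ⟨h1, h2⟩ := cB (b - 1 - k) (by have := k.2; omega)
    have hk : ((b - 1 - (k : ℕ) : ℕ) : ZMod (2 * (a + b) + 1)) = b - 1 - (k : ℕ) := by
      have := k.2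
      rw [Nat.cast_sub (by omega), Nat.cast_sub (by omega)]
      simp
    rw [hk] at h1 h2
    cases β
    · simp only [col]; push_cast; convert h1 using 1; ring
    · simp only [col]; push_cast; convert h2 using 1; linear_combination hv
  have kA : ∀ (i : Fin a) (β : Bool), ∃ (k : Fin a) (γ : Bool), σ (some (Sum.inl i, β)) = some (Sum.inl k, γ) := by
    intro i β
    have hm : ((col a b (σ (some (Sum.inl i, β))) : ℤ) : ZMod (2 * (a + b) + 1)) ∈ SA := ⟨i, β, rfl⟩
    have hne : σ (some (Sum.inl i, β)) ≠ none := by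
      intro h
      rw [← h0] at h
      have := σ.injective h
      simp at this
    generalize σ (some (Sum.inl i, β)) = w at hm hne ⊢
    rcases w with _ | ⟨k | k, t⟩
    · exact absurd rfl hne
    · exact ⟨k, t, rfl⟩
    · exact absurd (lB k t) (fun h => dis _ hm h)
  have kB : ∀ (i : Fin b) (β : Bool), ∃ (k : Fin b) (γ : Bool), σ (some (Sum.inr i, β)) = some (Sum.inr k, γ) := by
    intro i β
    have hm : ((col a b (σ (some (Sum.inr i, β))) : ℤ) : ZMod (2 * (a + b) + 1)) ∈ SB := ⟨i, β, rfl⟩
    have hne : σ (some (Sum.inr i, β)) ≠ none := by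
      intro h
      rw [← h0] at h
      have := σ.injective h
      simp at this
    generalize σ (some (Sum.inr i, β)) = w at hm hne ⊢
    rcases w with _ | ⟨k | k, t⟩
    · exact absurd rfl hne
    · exact absurd (lA k t) (fun h => dis _ h hm)
    · exact ⟨k, t, rfl⟩
  have eA : ∀ i : Fin a, ∃ (k : Fin a) (γ : Bool), ∀ β, σ (some (Sum.inl i, β)) = some (Sum.inl k, xor β γ) := by
    intro i
    obtain ⟨k, γ, h1⟩ := kA i false
    obtain ⟨l, δ, h2⟩ := kA i true
    have h := hA i
    rw [h1, h2] at h
    have hk := k.2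
    have hl := l.2
    have h3 : col a b (some (Sum.inl k, γ)) + col a b (some (Sum.inl l, δ)) = 2 * a - 1 := by
      refine zmod_inj a b _ _ h ?_ ?_
      · cases γ <;> cases δ <;> simp only [col] <;> omega
      · cases γ <;> cases δ <;> simp only [col] <;> omega
    refine ⟨k, γ, fun β => ?_⟩
    have h4 : l = k ∧ δ = !γ := by
      cases γ <;> cases δ <;> simp only [col] at h3 <;> first | omega | exact ⟨Fin.ext (by omega), rfl⟩
    cases β
    · rw [h1]; simp
    · rw [h2, h4.1, h4.2]; simp
  have eB : ∀ i : Fin b, ∃ (k : Fin b) (γ : Bool), ∀ β, σ (some (Sum.inr i, β)) = some (Sum.inr k, xor β γ) := by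
    intro i
    obtain ⟨k, γ, h1⟩ := kB i false
    obtain ⟨l, δ, h2⟩ := kB i true
    have h := hB i
    rw [h1, h2] at h
    have hk := k.2
    have hl := l.2
    have h' : ((col a b (some (Sum.inr k, γ)) + col a b (some (Sum.inr l, δ)) : ℤ) : ZMod (2 * (a + b) + 1)) =
        ((4 * a + 2 * b - 1 : ℤ) : ZMod (2 * (a + b) + 1)) := by
      rw [h]
      push_cast
      linear_combination -hv
    have h3 : col a b (some (Sum.inr k, γ)) + col a b (some (Sum.inr l, δ)) = 4 * a + 2 * b - 1 := by
      refine zmod_inj a b _ _ h' ?_ ?_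
      · cases γ <;> cases δ <;> simp only [col] <;> omega
      · cases γ <;> cases δ <;> simp only [col] <;> omega
    refine ⟨k, γ, fun β => ?_⟩
    have h4 : l = k ∧ δ = !γ := by
      cases γ <;> cases δ <;> simp only [col] at h3 <;> first | omega | exact ⟨Fin.ext (by omega), rfl⟩
    cases β
    · rw [h1]; simp
    · rw [h2, h4.1, h4.2]; simp
  choose π ε hπ using eA
  choose ρ δ hρ using eB
  have iπ : Function.Injective π := by
    intro i j hij
    have h : σ (some (Sum.inl i, false)) = σ (some (Sum.inl j, xor (ε i) (ε j))) := by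
      rw [hπ, hπ, hij]
      cases ε i <;> cases ε j <;> rfl
    have := σ.injective h
    simp at this
    exact this.1
  have iρ : Function.Injective ρ := by
    intro i j hij
    have h : σ (some (Sum.inr i, false)) = σ (some (Sum.inr j, xor (δ i) (δ j))) := by
      rw [hρ, hρ, hij]
      cases δ i <;> cases δ j <;> rfl
    have := σ.injective h
    simp at this
    exact this.1
  refine ⟨Equiv.ofBijective π (Finite.injective_iff_bijective.1 iπ),
    Equiv.ofBijective ρ (Finite.injective_iff_bijective.1 iρ), ε, δ, fun r => ?_⟩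
  rcases r with _ | ⟨k | k, t⟩
  · exact h0
  · exact hπ k t
  · exact hρ k t

end Pool.Agent.Helper805_nf
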