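import Pool.Agent.Helper805_nf.A1
import Pool.Agent.Helper805_nf.A2

set_option autoImplicit false

namespace Pool.Agent.Helper805_nf

open Finset




/-- the flip permutation of `Bool` -/
def flipB (t : Bool) : Equiv.Perm Bool := if t then Equiv.swap false true else 1

theorem flipB_apply (t s : Bool) : flipB t s = xor s t := by
  cases t <;> cases s <;> simp [flipB]

theorem flipB_sign (t : Bool) : Equiv.Perm.sign (flipB t) = if t then -1 else 1 := by
  cases t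
  · simp [flipB]
  · simp only [flipB, if_true]
    exact Equiv.Perm.sign_swap (by decide)

/-- block permutation as a permutation -/
def bpE (a b : ℕ) (π : Equiv.Perm (Fin a)) (ρ : Equiv.Perm (Fin b)) (ε : Fin a → Bool)
    (δ : Fin b → Bool) : Equiv.Perm (Option ((Fin a ⊕ Fin b) × Bool)) :=
  Equiv.optionCongr ((Equiv.prodCongrLeft (fun _ : Bool => (Equiv.sumCongr π ρ))) *
    (Equiv.prodCongrRight (fun i => flipB (Sum.elim ε δ i))) : Equiv.Perm ((Fin a ⊕ Fin b) × Bool))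

theorem bpE_apply (a b : ℕ) (π : Equiv.Perm (Fin a)) (ρ : Equiv.Perm (Fin b)) (ε : Fin a → Bool)
    (δ : Fin b → Bool) (r : Option ((Fin a ⊕ Fin b) × Bool)) :
    bpE a b π ρ ε δ r = blockPerm a b π ρ ε δ r := by
  rcases r with _ | ⟨k | k, t⟩
  · rfl
  · simp [bpE, blockPerm, flipB_apply]
  · simp [bpE, blockPerm, flipB_apply]

theorem bpE_sign (a b : ℕ) (π : Equiv.Perm (Fin a)) (ρ : Equiv.Perm (Fin b)) (ε : Fin a → Bool)
    (δ : Fin b → Bool) :
    ((Equiv.Perm.sign (bpE a b π ρ ε δ) : ℤˣ) : ℤ) =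
      (∏ i, (if ε i then (-1 : ℤ) else 1)) * ∏ j, (if δ j then (-1 : ℤ) else 1) := by
  unfold bpE
  rw [Equiv.optionCongr_sign, Equiv.Perm.sign_mul, Equiv.Perm.sign_prodCongrLeft,
    Equiv.Perm.sign_prodCongrRight]
  simp only [Fintype.prod_bool, Int.units_mul_self, one_mul, flipB_sign, Fintype.prod_sum_type,
    Sum.elim_inl, Sum.elim_inr]
  push_cast
  congr 1 <;> apply Finset.prod_congr rfl <;> intro i _ <;> split_ifs <;> simp [*]

theorem zeta_pow_val {K : Type*} [Field K] (v : ℕ) [NeZero v] (ζ : K) (hζ : IsPrimitiveRoot ζ v)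
    (m : ℤ) : ζ ^ ((m : ZMod v)).val = ζ ^ m := by
  have h1 : (((m : ZMod v).val : ℤ)) ≡ m [ZMOD v] := by
    rw [← ZMod.intCast_eq_intCast_iff]
    simp
  have h0 : ζ ≠ 0 := hζ.ne_zero (NeZero.ne v)
  rw [← zpow_natCast]
  obtain ⟨k, hk⟩ := (Int.modEq_iff_dvd.1 h1)
  have h2 : m = ((m : ZMod v).val : ℤ) + v * k := by linarith
  conv_rhs => rw [h2]
  rw [zpow_add₀ h0, zpow_mul, zpow_natCast ζ v, hζ.pow_eq_one, one_zpow, mul_one]

theorem sum_flip {K : Type*} [Field K] {n : ℕ} (g : Fin n → Bool → K) :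
    ∑ ε : Fin n → Bool, ∏ k, g k (ε k) = ∏ k, (g k true + g k false) := by
  have h := Finset.prod_univ_sum (fun _ : Fin n => (Finset.univ : Finset Bool)) g
  rw [Fintype.piFinset_univ] at h
  rw [← h]
  simp

/-- the factor of one index -/
noncomputable def gf {K : Type*} [Field K] (η : K) (N : ℤ) (m : ℕ) (dk : ℕ) (t : Bool) : K :=
  (if t then (-1 : K) else 1) * (η ^ (N * dk) *
    (if t then (η⁻¹) ^ (m * dk) else η ^ (m * dk)))

theorem gf_sum {K : Type*} [Field K] (η : K) (N : ℤ) (m : ℕ) (dk : ℕ) :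
    gf η N m dk true + gf η N m dk false = η ^ (N * dk) * (η ^ (m * dk) - (η⁻¹) ^ (m * dk)) := by
  simp only [gf, if_true, Bool.false_eq_true, if_false]
  ring

theorem hterm {K : Type*} [Field K] (a b : ℕ) (η : K)
    (hζ : IsPrimitiveRoot (η ^ 2) (2 * (a + b) + 1)) (h0 : η ≠ 0)
    (d : Fin a → ℕ) (e : Fin b → ℕ) (π : Equiv.Perm (Fin a)) (ρ : Equiv.Perm (Fin b))
    (ε : Fin a → Bool) (δ : Fin b → Bool) :
    (((Equiv.Perm.sign (bpE a b π ρ ε δ) : ℤˣ) : ℤ) : K) *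
        ∏ i, (η ^ 2) ^ (((col a b (bpE a b π ρ ε δ (some (i, true))) : ℤ) :
          ZMod (2 * (a + b) + 1)) * ((Sum.elim d e i : ℕ) : ZMod (2 * (a + b) + 1))).val =
        (∏ k, gf η (2 * (a : ℤ) - 1) (2 * (π k : ℕ) + 1) (d k) (ε k)) *
        (∏ k, gf η (4 * (a : ℤ) + 2 * b - 1) (2 * (ρ k : ℕ) + 1) (e k) (δ k)) := by
  rw [bpE_sign, Fintype.prod_sum_type]
  have hl : ∀ k : Fin a, (η ^ 2) ^ (((col a b (bpE a b π ρ ε δ (some (Sum.inl k, true))) : ℤ) :
      ZMod (2 * (a + b) + 1)) * ((Sum.elim d e (Sum.inl k) : ℕ) : ZMod (2 * (a + b) + 1))).val =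
      η ^ ((2 * (a : ℤ) - 1) * d k) *
      (if ε k then (η⁻¹) ^ ((2 * (π k : ℕ) + 1) * d k) else η ^ ((2 * (π k : ℕ) + 1) * d k)) := by
    intro k
    rw [Sum.elim_inl, ← Int.cast_natCast, ← Int.cast_mul, zeta_pow_val _ _ hζ, bpE_apply,
      ← zpow_natCast η 2, ← zpow_mul]
    cases hε : ε k
    · simp only [blockPerm, hε, Bool.xor_false, col, Bool.false_eq_true, if_false]
      rw [← zpow_natCast η, ← zpow_add₀ h0]
      congr 1
      push_cast
      ring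
    · simp only [blockPerm, hε, Bool.xor_self, col, if_true]
      rw [inv_pow, ← zpow_natCast η, ← zpow_neg, ← zpow_add₀ h0]
      congr 1
      push_cast
      ring
  have hr : ∀ k : Fin b, (η ^ 2) ^ (((col a b (bpE a b π ρ ε δ (some (Sum.inr k, true))) : ℤ) :
      ZMod (2 * (a + b) + 1)) * ((Sum.elim d e (Sum.inr k) : ℕ) : ZMod (2 * (a + b) + 1))).val =
      η ^ ((4 * (a : ℤ) + 2 * b - 1) * e k) *
      (if δ k then (η⁻¹) ^ ((2 * (ρ k : ℕ) + 1) * e k) else η ^ ((2 * (ρ k : ℕ) + 1) * e k)) := by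
    intro k
    rw [Sum.elim_inr, ← Int.cast_natCast, ← Int.cast_mul, zeta_pow_val _ _ hζ, bpE_apply,
      ← zpow_natCast η 2, ← zpow_mul]
    cases hε : δ k
    · simp only [blockPerm, hε, Bool.xor_false, col, Bool.false_eq_true, if_false]
      rw [← zpow_natCast η, ← zpow_add₀ h0]
      congr 1
      push_cast
      ring
    · simp only [blockPerm, hε, Bool.xor_self, col, if_true]
      rw [inv_pow, ← zpow_natCast η, ← zpow_neg, ← zpow_add₀ h0]
      congr 1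
      push_cast
      ring
  rw [Finset.prod_congr rfl (fun k _ => hl k), Finset.prod_congr rfl (fun k _ => hr k)]
  simp only [gf, Finset.prod_mul_distrib]
  have e1 : ((∏ i, (if ε i then (-1 : ℤ) else 1) : ℤ) : K) = ∏ i, (if ε i then (-1 : K) else 1) := by
    rw [Int.cast_prod]
    exact Finset.prod_congr rfl (fun i _ => by split_ifs <;> simp)
  have e2 : ((∏ i, (if δ i then (-1 : ℤ) else 1) : ℤ) : K) = ∏ i, (if δ i then (-1 : K) else 1) := by
    rw [Int.cast_prod]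
    exact Finset.prod_congr rfl (fun i _ => by split_ifs <;> simp)
  rw [Int.cast_mul, e1, e2]
  ring

/-- A3. Two-mode lemma. -/
theorem two_mode {K : Type*} [Field K] (a b : ℕ) (η : K) (hη : IsPrimitiveRoot η (2 * (a + b) + 1))
    (d : Fin a → ℕ) (e : Fin b → ℕ)
    (hA : ∑ σ : Equiv.Perm (Fin a), ∏ i, (η ^ ((2 * (σ i : ℕ) + 1) * d i) - (η⁻¹) ^ ((2 * (σ i : ℕ) + 1) * d i)) ≠ 0)
    (hB : ∑ σ : Equiv.Perm (Fin b), ∏ i, (η ^ ((2 * (σ i : ℕ) + 1) * e i) - (η⁻¹) ^ ((2 * (σ i : ℕ) + 1) * e i)) ≠ 0) :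
    ∃ x : Fin a ⊕ Fin b → ZMod (2 * (a + b) + 1), Function.Injective
      (fun r : Option ((Fin a ⊕ Fin b) × Bool) => r.elim (0 : ZMod (2 * (a + b) + 1))
        (fun q => x q.1 + if q.2 then ((Sum.elim d e q.1 : ℕ) : ZMod (2 * (a + b) + 1)) else 0)) := by
  have hζ : IsPrimitiveRoot (η ^ 2) (2 * (a + b) + 1) := by
    apply hη.pow_of_coprime
    rw [Nat.coprime_comm, Nat.coprime_two_right]
    exact ⟨a + b, by ring⟩
  have h0 : η ≠ 0 := hη.ne_zero (by omega)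
  refine fourier_exists (2 * (a + b) + 1) (η ^ 2) hζ (Equiv.ofBijective _ (col_bij a b))
    (fun i => ((Sum.elim d e i : ℕ) : ZMod (2 * (a + b) + 1)))
    (Sum.elim (fun _ => ((2 * a - 1 : ℤ) : ZMod (2 * (a + b) + 1)))
      (fun _ => ((2 * a - 2 : ℤ) : ZMod (2 * (a + b) + 1)))) ?_
  rw [← Finset.sum_filter]
  -- phases
  set PA : K := ∏ i : Fin a, η ^ ((2 * (a : ℤ) - 1) * d i) with hPA
  set PB : K := ∏ i : Fin b, η ^ ((4 * (a : ℤ) + 2 * b - 1) * e i) with hPB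
  have hPA0 : PA ≠ 0 := Finset.prod_ne_zero_iff.2 (fun i _ => zpow_ne_zero _ h0)
  have hPB0 : PB ≠ 0 := Finset.prod_ne_zero_iff.2 (fun i _ => zpow_ne_zero _ h0)
  have key : ∑ p : (Equiv.Perm (Fin a) × Equiv.Perm (Fin b)) × ((Fin a → Bool) × (Fin b → Bool)),
      (((Equiv.Perm.sign (bpE a b p.1.1 p.1.2 p.2.1 p.2.2) : ℤˣ) : ℤ) : K) *
        ∏ i, (η ^ 2) ^ (((col a b (bpE a b p.1.1 p.1.2 p.2.1 p.2.2 (some (i, true))) : ℤ) :
          ZMod (2 * (a + b) + 1)) * ((Sum.elim d e i : ℕ) : ZMod (2 * (a + b) + 1))).val =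
      (PA * PB) * ((∑ σ : Equiv.Perm (Fin a), ∏ i, (η ^ ((2 * (σ i : ℕ) + 1) * d i) - (η⁻¹) ^ ((2 * (σ i : ℕ) + 1) * d i))) *
        (∑ σ : Equiv.Perm (Fin b), ∏ i, (η ^ ((2 * (σ i : ℕ) + 1) * e i) - (η⁻¹) ^ ((2 * (σ i : ℕ) + 1) * e i)))) := by
    rw [Fintype.sum_prod_type]
    have h1 : ∀ q : Equiv.Perm (Fin a) × Equiv.Perm (Fin b),
        ∑ y : (Fin a → Bool) × (Fin b → Bool),
          (((Equiv.Perm.sign (bpE a b q.1 q.2 y.1 y.2) : ℤˣ) : ℤ) : K) *
        ∏ i, (η ^ 2) ^ (((col a b (bpE a b q.1 q.2 y.1 y.2 (some (i, true))) : ℤ) :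
          ZMod (2 * (a + b) + 1)) * ((Sum.elim d e i : ℕ) : ZMod (2 * (a + b) + 1))).val =
        (PA * ∏ i, (η ^ ((2 * (q.1 i : ℕ) + 1) * d i) - (η⁻¹) ^ ((2 * (q.1 i : ℕ) + 1) * d i))) *
        (PB * ∏ i, (η ^ ((2 * (q.2 i : ℕ) + 1) * e i) - (η⁻¹) ^ ((2 * (q.2 i : ℕ) + 1) * e i))) := by
      rintro ⟨π, ρ⟩
      rw [Fintype.sum_prod_type]
      simp only [hterm a b η hζ h0 d e]
      simp_rw [← Finset.mul_sum, ← Finset.sum_mul]
      rw [sum_flip (fun k t => gf η (2 * (a : ℤ) - 1) (2 * (π k : ℕ) + 1) (d k) t),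
        sum_flip (fun k t => gf η (4 * (a : ℤ) + 2 * b - 1) (2 * (ρ k : ℕ) + 1) (e k) t)]
      simp only [gf_sum, Finset.prod_mul_distrib, hPA, hPB]
    rw [Finset.sum_congr rfl (fun q _ => h1 q), Fintype.sum_prod_type]
    simp_rw [← Finset.mul_sum, ← Finset.sum_mul, ← Finset.mul_sum]
    ring
  have hsum : ∑ σ ∈ Finset.univ.filter (fun σ : Equiv.Perm (Option ((Fin a ⊕ Fin b) × Bool)) =>
        ∀ i, (Equiv.ofBijective _ (col_bij a b)) (σ (some (i, false))) +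
          (Equiv.ofBijective _ (col_bij a b)) (σ (some (i, true))) =
          (Sum.elim (fun _ => ((2 * a - 1 : ℤ) : ZMod (2 * (a + b) + 1)))
      (fun _ => ((2 * a - 2 : ℤ) : ZMod (2 * (a + b) + 1))) i)),
          ((Equiv.Perm.sign σ : ℤ) : K) *
            ∏ i, (η ^ 2) ^ ((Equiv.ofBijective _ (col_bij a b)) (σ (some (i, true))) *
              ((Sum.elim d e i : ℕ) : ZMod (2 * (a + b) + 1))).val =
      ∑ p : (Equiv.Perm (Fin a) × Equiv.Perm (Fin b)) × ((Fin a → Bool) × (Fin b → Bool)),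
      (((Equiv.Perm.sign (bpE a b p.1.1 p.1.2 p.2.1 p.2.2) : ℤˣ) : ℤ) : K) *
        ∏ i, (η ^ 2) ^ (((col a b (bpE a b p.1.1 p.1.2 p.2.1 p.2.2 (some (i, true))) : ℤ) :
          ZMod (2 * (a + b) + 1)) * ((Sum.elim d e i : ℕ) : ZMod (2 * (a + b) + 1))).val := by
    symm
    apply Finset.sum_nbij (fun p => bpE a b p.1.1 p.1.2 p.2.1 p.2.2)
    · rintro ⟨⟨π, ρ⟩, ⟨ε, δ⟩⟩ _
      simp only [Finset.mem_filter, Finset.mem_univ, true_and]
      intro i
      simp only [Equiv.ofBijective_apply, bpE_apply]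
      rcases i with k | k
      · simp only [blockPerm, Sum.elim_inl]
        rw [← Int.cast_add]
        congr 1
        cases hε : ε k <;> simp [col] <;> ring
      · simp only [blockPerm, Sum.elim_inr]
        rw [← Int.cast_add, ZMod.intCast_eq_intCast_iff, Int.modEq_iff_dvd]
        refine ⟨-1, ?_⟩
        cases hδ : δ k <;> simp [col] <;> ring
    · rintro ⟨⟨π, ρ⟩, ⟨ε, δ⟩⟩ _ ⟨⟨π', ρ'⟩, ⟨ε', δ'⟩⟩ _ h
      simp only at h
      have h1 : ∀ r, blockPerm a b π ρ ε δ r = blockPerm a b π' ρ' ε' δ' r := by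
        intro r
        rw [← bpE_apply, ← bpE_apply, h]
      have h2 : ∀ k, π k = π' k ∧ ε k = ε' k := by
        intro k
        have := h1 (some (Sum.inl k, false))
        simpa [blockPerm] using this
      have h3 : ∀ k, ρ k = ρ' k ∧ δ k = δ' k := by
        intro k
        have := h1 (some (Sum.inr k, false))
        simpa [blockPerm] using this
      simp only [Prod.mk.injEq]
      exact ⟨⟨Equiv.ext fun k => (h2 k).1, Equiv.ext fun k => (h3 k).1⟩,
        ⟨funext fun k => (h2 k).2, funext fun k => (h3 k).2⟩⟩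
    · intro σ hσ
      simp only [Finset.coe_filter, Finset.mem_univ, true_and, Set.mem_ofPred_eq,
        Equiv.ofBijective_apply] at hσ
      obtain ⟨π, ρ, ε, δ, h⟩ := structure_lemma a b σ
        (fun i => by have := hσ (Sum.inl i); push_cast; push_cast at this; exact this)
        (fun i => by have := hσ (Sum.inr i); push_cast; push_cast at this; exact this)
      refine ⟨⟨⟨π, ρ⟩, ⟨ε, δ⟩⟩, by simp, ?_⟩
      ext1 r
      simp only [bpE_apply, h]
    · rintro ⟨⟨π, ρ⟩, ⟨ε, δ⟩⟩ _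
      rfl
  rw [hsum, key]
  exact mul_ne_zero (mul_ne_zero hPA0 hPB0) (mul_ne_zero hA hB)

end Pool.Agent.Helper805_nf
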