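import Mathlib

set_option autoImplicit false

namespace Pool.Agent.Helper805_nf

open Finset

theorem leibniz_identity (p : ℕ) [Fact p.Prime] (M s : ℕ) (hs : 1 ≤ s) (hsM : s ≤ M) (a : ℚ_[p]) :
    a / (((s + 1 : ℕ) : ℚ_[p]) * ((M + 1).choose (s + 1) : ℚ_[p]))
      = a / ((s : ℚ_[p]) * (M.choose s : ℚ_[p])) - a / ((s : ℚ_[p]) * ((M + 1).choose s : ℚ_[p])) := by
  have h1 : ((M + 1 : ℕ) : ℚ_[p]) * (M.choose s : ℚ_[p])
      = ((M + 1).choose (s + 1) : ℚ_[p]) * ((s + 1 : ℕ) : ℚ_[p]) := by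
    have := Nat.add_one_mul_choose_eq M s
    exact_mod_cast this
  have h2 : (M.choose s : ℚ_[p]) * ((M + 1 : ℕ) : ℚ_[p])
      = ((M + 1).choose s : ℚ_[p]) * ((M + 1 - s : ℕ) : ℚ_[p]) := by
    have := Nat.choose_mul_succ_eq M s
    exact_mod_cast this
  have hc0 : (M.choose s : ℚ_[p]) ≠ 0 := by
    exact_mod_cast (Nat.choose_pos hsM).ne'
  have hc1 : ((M + 1).choose s : ℚ_[p]) ≠ 0 := by
    exact_mod_cast (Nat.choose_pos (by omega : s ≤ M + 1)).ne'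
  have hc2 : ((M + 1).choose (s + 1) : ℚ_[p]) ≠ 0 := by
    exact_mod_cast (Nat.choose_pos (by omega : s + 1 ≤ M + 1)).ne'
  have hs0 : (s : ℚ_[p]) ≠ 0 := by
    exact_mod_cast (by omega : s ≠ 0)
  have hs1 : ((s + 1 : ℕ) : ℚ_[p]) ≠ 0 := by
    exact_mod_cast (by omega : s + 1 ≠ 0)
  have hM1 : ((M + 1 : ℕ) : ℚ_[p]) ≠ 0 := by
    exact_mod_cast (by omega : M + 1 ≠ 0)
  have hsub : ((M + 1 - s : ℕ) : ℚ_[p]) = ((M + 1 : ℕ) : ℚ_[p]) - (s : ℚ_[p]) := by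
    rw [Nat.cast_sub (by omega)]
  rw [hsub] at h2
  have e1 : ((s + 1 : ℕ) : ℚ_[p]) * ((M + 1).choose (s + 1) : ℚ_[p])
      = ((M + 1 : ℕ) : ℚ_[p]) * (M.choose s : ℚ_[p]) := by
    rw [h1]; ring
  rw [e1, div_sub_div _ _ (mul_ne_zero hs0 hc0) (mul_ne_zero hs0 hc1),
    div_eq_div_iff (mul_ne_zero hM1 hc0)
      (mul_ne_zero (mul_ne_zero hs0 hc0) (mul_ne_zero hs0 hc1))]
  have e2 : ((M + 1).choose s : ℚ_[p]) * (s : ℚ_[p])
      = ((M + 1).choose s : ℚ_[p]) * ((M + 1 : ℕ) : ℚ_[p])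
        - (M.choose s : ℚ_[p]) * ((M + 1 : ℕ) : ℚ_[p]) := by
    rw [h2]; ring
  linear_combination (a * (s : ℚ_[p]) * (M.choose s : ℚ_[p])) * e2

/-- B1. Leibniz triangle bound. -/
theorem leibniz_norm (p k : ℕ) [Fact p.Prime] (m s : ℕ) (hs : 1 ≤ s) (hsm : s ≤ m) (hm : m < p ^ k) :
    ‖((p : ℚ_[p]) ^ k) / ((s : ℚ_[p]) * (m.choose s : ℚ_[p]))‖ ≤ (p : ℝ)⁻¹ := by
  have hp : 1 < (p : ℝ) := by exact_mod_cast (Fact.out : p.Prime).one_lt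
  have hp0 : 0 < (p : ℝ) := by linarith
  induction s, hs using Nat.le_induction generalizing m with
  | base =>
    rw [Nat.choose_one_right, Nat.cast_one, one_mul, norm_div, norm_pow, Padic.norm_p]
    have hnd : ¬ ‖((m : ℤ) : ℚ_[p])‖ ≤ (p : ℝ) ^ (-(k : ℤ)) := by
      rw [Padic.norm_int_le_pow_iff_dvd]
      intro hd
      have hd' : p ^ k ∣ m := by exact_mod_cast hd
      exact absurd (Nat.le_of_dvd (by omega) hd') (by omega)
    rw [Padic.norm_le_pow_iff_norm_lt_pow_add_one, not_lt] at hnd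
    have hm' : (p : ℝ) ^ (-(k : ℤ) + 1) ≤ ‖(m : ℚ_[p])‖ := by
      simpa using hnd
    have hpos : 0 < (p : ℝ) ^ (-(k : ℤ) + 1) := zpow_pos hp0 _
    have hmpos : 0 < ‖(m : ℚ_[p])‖ := lt_of_lt_of_le hpos hm'
    rw [div_le_iff₀ hmpos]
    calc ((p : ℝ)⁻¹) ^ k = (p : ℝ)⁻¹ * (p : ℝ) ^ (-(k : ℤ) + 1) := by
          rw [zpow_add₀ hp0.ne', zpow_one, zpow_neg, zpow_natCast, inv_pow]
          field_simp
      _ ≤ (p : ℝ)⁻¹ * ‖(m : ℚ_[p])‖ := by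
          exact mul_le_mul_of_nonneg_left hm' (by positivity)
  | succ s hs ih =>
    obtain ⟨M, rfl⟩ : ∃ M, m = M + 1 := ⟨m - 1, by omega⟩
    rw [leibniz_identity p M s hs (by omega)]
    have h1 := ih M (by omega) (by omega)
    have h2 := ih (M + 1) (by omega) hm
    rw [sub_eq_add_neg]
    refine le_trans (Padic.nonarchimedean _ _) (max_le h1 ?_)
    rw [norm_neg]
    exact h2

end Pool.Agent.Helper805_nf
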