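import Pool.Agent.Helper805_nf.Defs

set_option autoImplicit false
set_option linter.unusedSectionVars false

namespace Pool.Agent.Helper805_nf

open Finset

section

variable {R : Type*} [CommRing R] {ι κ : Type*} [DecidableEq ι] [Fintype κ] [DecidableEq κ]

/-- the functions with the value `j` forbidden -/
def injDel (f : ι → κ → R) (j : κ) : ι → κ → R := fun i k => if k = j then 0 else f i k

theorem injDel_comm (f : ι → κ → R) (j k : κ) : injDel (injDel f j) k = injDel (injDel f k) j := by
  funext i l
  simp only [injDel]
  split_ifs <;> rfl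

theorem injSum_empty (f : ι → κ → R) : injSum f ∅ = 1 := by
  rw [injSum]
  have : ∀ g : (∅ : Finset ι) ↪ κ, ∏ i : (∅ : Finset ι), f i (g i) = 1 := fun g => by
    rw [Finset.univ_eq_empty, Finset.prod_empty]
  rw [Finset.sum_congr rfl fun g _ => this g, Finset.sum_const, Finset.card_univ,
    Fintype.card_embedding_eq]
  simp

/-- choosing the image of one label first -/
theorem injSum_insert (f : ι → κ → R) {A : Finset ι} {b : ι} (hb : b ∉ A) :
    injSum f (insert b A) = ∑ j, f b j * injSum (injDel f j) A := by
  classical
  let e : {i // i ∈ insert b A} ≃ Option {i // i ∈ A} := Finset.subtypeInsertEquivOption hb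
  let E : ({i // i ∈ insert b A} ↪ κ) ≃ Σ g : {i // i ∈ A} ↪ κ, ↥(Set.range g)ᶜ :=
    (Equiv.embeddingCongr e (Equiv.refl κ)).trans (Function.Embedding.optionEmbeddingEquiv _ _)
  have h1 : ∀ p : Σ g : {i // i ∈ A} ↪ κ, ↥(Set.range g)ᶜ,
      ∏ i : {i // i ∈ insert b A}, f i (E.symm p i) = f b p.2 * ∏ i : {i // i ∈ A}, f i (p.1 i) := by
    rintro ⟨g, j⟩
    have hE : ∀ o, E.symm ⟨g, j⟩ (e.symm o) = (g.optionElim j.1 j.2) o := by
      intro o
      change (g.optionElim j.1 j.2) (e (e.symm o)) = _
      rw [e.apply_symm_apply]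
    rw [← Equiv.prod_comp e.symm, Fintype.prod_option, hE]
    congr 1
    refine Finset.prod_congr rfl fun i _ => ?_
    rw [hE]
    rfl
  have h2 : injSum f (insert b A) = ∑ p : Σ g : {i // i ∈ A} ↪ κ, ↥(Set.range g)ᶜ,
      f b p.2 * ∏ i : {i // i ∈ A}, f i (p.1 i) := by
    rw [injSum, ← Equiv.sum_comp E.symm]
    exact Finset.sum_congr rfl fun p _ => h1 p
  rw [h2, Fintype.sum_sigma]
  have h3 : ∀ g : {i // i ∈ A} ↪ κ, ∑ j : ↥(Set.range g)ᶜ, f b j * ∏ i : {i // i ∈ A}, f i (g i) =
      ∑ j, f b j * ∏ i : {i // i ∈ A}, injDel f j i (g i) := by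
    intro g
    rw [← Finset.sum_subset (Finset.subset_univ (Finset.univ.filter fun j => j ∉ Set.range g))]
    · rw [Finset.sum_subtype (Finset.univ.filter fun j => j ∉ Set.range g)
        (p := fun j => j ∈ (Set.range g)ᶜ) (by simp)]
      refine Finset.sum_congr rfl fun j _ => ?_
      congr 1
      refine Finset.prod_congr rfl fun i _ => ?_
      rw [injDel, if_neg]
      intro h
      exact j.2 ⟨i, h⟩
    · intro j _ hj
      rw [Finset.mem_filter, not_and, not_not] at hj
      obtain ⟨i, hi⟩ := hj (Finset.mem_univ _)
      have : ∏ i : {i // i ∈ A}, injDel f j i (g i) = 0 :=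
        Finset.prod_eq_zero (Finset.mem_univ i) (by rw [injDel, if_pos hi])
      rw [this, mul_zero]
  rw [Finset.sum_congr rfl fun g _ => h3 g, Finset.sum_comm]
  refine Finset.sum_congr rfl fun j _ => ?_
  rw [injSum, Finset.mul_sum]

theorem injSum_insert' (f : ι → κ → R) {A : Finset ι} {b : ι} (hb : b ∈ A) :
    injSum f A = ∑ j, f b j * injSum (injDel f j) (A.erase b) := by
  conv_lhs => rw [← Finset.insert_erase hb]
  exact injSum_insert f (Finset.notMem_erase b A)

/-- either the value `j` is avoided, or it is taken once -/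
theorem injSum_split (A : Finset ι) : ∀ (f : ι → κ → R) (j : κ),
    injSum f A = injSum (injDel f j) A + ∑ a ∈ A, f a j * injSum (injDel f j) (A.erase a) := by
  classical
  induction A using Finset.induction_on with
  | empty => intro f j; simp [injSum_empty]
  | insert b A hb ih =>
    intro f j
    rw [injSum_insert f hb, injSum_insert (injDel f j) hb, Finset.sum_insert hb,
      Finset.erase_insert hb]
    have h1 : ∀ a ∈ A, f a j * injSum (injDel f j) ((insert b A).erase a) =
        ∑ k, f a j * (injDel f j b k * injSum (injDel (injDel f j) k) (A.erase a)) := by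
      intro a ha
      have hab : b ≠ a := fun h => hb (h ▸ ha)
      have h2 : (insert b A).erase a = insert b (A.erase a) := by
        rw [Finset.erase_insert_of_ne hab]
      rw [h2, injSum_insert _ (fun h => hb (Finset.mem_of_mem_erase h)), Finset.mul_sum]
    rw [Finset.sum_congr rfl h1, Finset.sum_comm]
    have h3 : ∀ k, f b k * injSum (injDel f k) A =
        injDel f j b k * injSum (injDel (injDel f j) k) A +
        (if k = j then f b j * injSum (injDel f j) A else 0) +
        ∑ a ∈ A, f a j * (injDel f j b k * injSum (injDel (injDel f j) k) (A.erase a)) := by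
      intro k
      by_cases hk : k = j
      · subst hk
        have h4 : injDel f k b k = 0 := by rw [injDel, if_pos rfl]
        rw [h4, if_pos rfl]
        simp
      · have h4 : injDel f j b k = f b k := by rw [injDel, if_neg hk]
        rw [h4, if_neg hk, add_zero, ih (injDel f k) j, injDel_comm f k j, mul_add,
          Finset.mul_sum]
        congr 1
        refine Finset.sum_congr rfl fun a _ => ?_
        have h5 : injDel f k a j = f a j := by rw [injDel, if_neg (Ne.symm hk)]
        rw [h5]
        ring
    rw [Finset.sum_congr rfl fun k _ => h3 k, Finset.sum_add_distrib, Finset.sum_add_distrib,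
      Finset.sum_ite_eq' Finset.univ j, if_pos (Finset.mem_univ _), add_assoc]

/-- the sets containing `a` -/
theorem injSum_reindex (A : Finset ι) {a : ι} (ha : a ∈ A) (G : Finset ι → R) :
    ∑ S ∈ A.powerset.filter (fun S => a ∈ S), G S =
      ∑ S ∈ (A.erase a).powerset, G (insert a S) := by
  classical
  refine Finset.sum_bij' (fun S _ => S.erase a) (fun S _ => insert a S) ?_ ?_ ?_ ?_ ?_
  · intro S hS
    rw [Finset.mem_filter, Finset.mem_powerset] at hS
    rw [Finset.mem_powerset]
    exact Finset.erase_subset_erase a hS.1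
  · intro S hS
    rw [Finset.mem_powerset] at hS
    rw [Finset.mem_filter, Finset.mem_powerset]
    exact ⟨Finset.insert_subset ha (hS.trans (Finset.erase_subset a A)),
      Finset.mem_insert_self a S⟩
  · intro S hS
    rw [Finset.mem_filter] at hS
    exact Finset.insert_erase hS.2
  · intro S hS
    rw [Finset.mem_powerset] at hS
    exact Finset.erase_insert fun h => Finset.notMem_erase a A (hS h)
  · intro S hS
    rw [Finset.mem_filter] at hS
    rw [Finset.insert_erase hS.2]

/-- inclusion-exclusion for the sum with one value forbidden -/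
theorem injSum_del (f : ι → κ → R) (j : κ) (A : Finset ι) :
    injSum (injDel f j) A = ∑ S ∈ A.powerset,
      (-1 : R) ^ S.card * (S.card.factorial : R) * (∏ i ∈ S, f i j) * injSum f (A \ S) := by
  classical
  induction A using Finset.strongInduction with
  | H A ih =>
    set T : Finset ι → R := fun S =>
      (-1 : R) ^ S.card * (S.card.factorial : R) * (∏ i ∈ S, f i j) * injSum f (A \ S) with hT
    set W : Finset ι → R := fun S =>
      (-1 : R) ^ (S.card - 1) * ((S.card - 1).factorial : R) * (∏ i ∈ S, f i j) *
        injSum f (A \ S) with hW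
    have h1 : injSum (injDel f j) A =
        injSum f A - ∑ a ∈ A, f a j * injSum (injDel f j) (A.erase a) :=
      eq_sub_of_add_eq (injSum_split A f j).symm
    have h2 : ∀ a ∈ A, f a j * injSum (injDel f j) (A.erase a) =
        ∑ S ∈ A.powerset.filter (fun S => a ∈ S), W S := by
      intro a ha
      rw [ih _ (Finset.erase_ssubset ha), Finset.mul_sum, injSum_reindex A ha]
      refine Finset.sum_congr rfl fun S hS => ?_
      rw [Finset.mem_powerset] at hS
      have haS : a ∉ S := fun h => Finset.notMem_erase a A (hS h)
      have h3 : A \ insert a S = A.erase a \ S := by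
        ext i
        simp only [Finset.mem_sdiff, Finset.mem_insert, Finset.mem_erase]
        tauto
      simp only [hW]
      rw [h3, Finset.card_insert_of_notMem haS, Finset.prod_insert haS, Nat.add_sub_cancel]
      ring
    have h4 : ∑ a ∈ A, ∑ S ∈ A.powerset.filter (fun S => a ∈ S), W S =
        ∑ S ∈ A.powerset, ∑ _a ∈ S, W S := by
      refine Finset.sum_comm' ?_
      intro a S
      rw [Finset.mem_filter, Finset.mem_powerset]
      constructor
      · rintro ⟨_, h6, h7⟩
        exact ⟨h7, h6⟩
      · rintro ⟨h7, h6⟩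
        exact ⟨h6 h7, h6, h7⟩
    have h5 : ∀ S ∈ A.powerset, T S = (if S = ∅ then injSum f A else 0) - ∑ _a ∈ S, W S := by
      intro S _
      rw [Finset.sum_const, nsmul_eq_mul]
      by_cases hS : S = ∅
      · subst hS
        simp [hT]
      · rw [if_neg hS]
        obtain ⟨m, hm⟩ : ∃ m, S.card = m + 1 :=
          ⟨S.card - 1, by have := Finset.card_pos.mpr (Finset.nonempty_iff_ne_empty.mpr hS); omega⟩
        simp only [hT, hW, hm, Nat.add_sub_cancel, Nat.factorial_succ]
        push_cast
        ring
    rw [h1, Finset.sum_congr rfl h2, h4]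
    have h6 : ∑ S ∈ A.powerset, T S = injSum f A - ∑ S ∈ A.powerset, ∑ _a ∈ S, W S := by
      rw [Finset.sum_congr rfl h5, Finset.sum_sub_distrib, Finset.sum_ite_eq',
        if_pos (Finset.empty_mem_powerset A)]
    exact h6.symm

end

/-- B2. Recursion for injection sums. -/
theorem injSum_rec {R : Type*} [CommRing R] {ι κ : Type*} [DecidableEq ι] [Fintype κ] [DecidableEq κ] (f : ι → κ → R)
    (B : Finset ι) (b : ι) (hb : b ∈ B) :
    injSum f B = ∑ S ∈ B.powerset.filter (fun S => b ∈ S),
      (-1 : R) ^ (S.card - 1) * ((S.card - 1).factorial : R) * (∑ j : κ, ∏ i ∈ S, f i j) * injSum f (B \ S) := by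
  classical
  rw [injSum_insert' f hb, injSum_reindex B hb]
  simp only [injSum_del]
  simp only [Finset.mul_sum, Finset.sum_mul]
  rw [Finset.sum_comm]
  refine Finset.sum_congr rfl fun S hS => ?_
  rw [Finset.mem_powerset] at hS
  have haS : b ∉ S := fun h => Finset.notMem_erase b B (hS h)
  refine Finset.sum_congr rfl fun j _ => ?_
  have h3 : B \ insert b S = B.erase b \ S := by
    ext i
    simp only [Finset.mem_sdiff, Finset.mem_insert, Finset.mem_erase]
    tauto
  rw [h3, Finset.card_insert_of_notMem haS, Finset.prod_insert haS, Nat.add_sub_cancel]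
  ring

end Pool.Agent.Helper805_nf
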