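import Pool.Agent.Helper805_nf.Defs

set_option autoImplicit false

namespace Pool.Agent.Helper805_nf

open Finset

theorem restr_inj {n : ℕ} (B : Finset (Fin n)) (σ : Equiv.Perm (Fin n)) :
    Function.Injective (fun i : B => σ i.1) := fun _ _ h => Subtype.ext (σ.injective h)

/-- restriction of a permutation to a finite set, as an embedding -/
def restr {n : ℕ} (B : Finset (Fin n)) (σ : Equiv.Perm (Fin n)) : B ↪ Fin n :=
  ⟨fun i => σ i.1, restr_inj B σ⟩

theorem restr_apply {n : ℕ} (B : Finset (Fin n)) (σ : Equiv.Perm (Fin n)) (i : B) :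
    restr B σ i = σ i.1 := rfl

theorem exists_ext {n : ℕ} (B : Finset (Fin n)) (g : B ↪ Fin n) :
    ∃ σ : Equiv.Perm (Fin n), restr B σ = g := by
  classical
  let e : {x : Fin n // x ∈ B} ≃ {y : Fin n // y ∈ Set.range g} := Equiv.ofInjective g g.injective
  refine ⟨e.extendSubtype, ?_⟩
  ext i
  have := Equiv.extendSubtype_apply_of_mem e i.1 i.2
  rw [restr_apply, this]
  rfl

theorem card_fix {n : ℕ} (B : Finset (Fin n)) :
    Fintype.card {f : Equiv.Perm (Fin n) // ∀ a, ¬ (a ∉ B) → f a = a} = (n - B.card).factorial := by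
  classical
  rw [← Fintype.card_congr (Equiv.Perm.subtypeEquivSubtypePerm (fun a : Fin n => a ∉ B)), Fintype.card_perm]
  congr 1
  rw [Fintype.card_subtype_compl]
  simp

theorem card_fiber {n : ℕ} (B : Finset (Fin n)) (g : B ↪ Fin n) :
    (univ.filter (fun σ : Equiv.Perm (Fin n) => restr B σ = g)).card = (n - B.card).factorial := by
  classical
  obtain ⟨σ₀, h₀⟩ := exists_ext B g
  rw [← card_fix B, ← Fintype.card_subtype]
  apply Fintype.card_congr
  refine ⟨fun σ => ⟨σ₀⁻¹ * σ.1, ?_⟩, fun τ => ⟨σ₀ * τ.1, ?_⟩, ?_, ?_⟩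
  · intro a ha
    have ha' : a ∈ B := not_not.mp ha
    have h1 : restr B σ.1 = restr B σ₀ := by rw [σ.2, h₀]
    have h2 : (restr B σ.1) ⟨a, ha'⟩ = (restr B σ₀) ⟨a, ha'⟩ := by rw [h1]
    rw [restr_apply, restr_apply] at h2
    simp [h2]
  · rw [← h₀]
    ext i
    have := τ.2 i.1 (by simp)
    rw [restr_apply, restr_apply, Equiv.Perm.mul_apply, this]
  · intro σ
    ext x
    simp
  · intro τ
    ext x
    simp

/-- B3. Expansion of the full permutation sum around constants. -/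
theorem permSum_expand {R : Type*} [CommRing R] (n : ℕ) (δ : Fin n → Fin n → R) (c : Fin n → R) :
    ∑ σ : Equiv.Perm (Fin n), ∏ i, (c i + δ i (σ i)) =
      ∑ B : Finset (Fin n), ((n - B.card).factorial : R) * (∏ i ∈ Bᶜ, c i) * injSum δ B := by
  classical
  have h1 : ∀ σ : Equiv.Perm (Fin n), ∏ i, (c i + δ i (σ i)) =
      ∑ B : Finset (Fin n), (∏ i ∈ Bᶜ, c i) * ∏ i : B, δ i (restr B σ i) := by
    intro σ
    have h2 : ∏ i, (c i + δ i (σ i)) = ∏ i, (δ i (σ i) + c i) :=
      Finset.prod_congr rfl (fun i _ => add_comm _ _)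
    rw [h2, Fintype.prod_add]
    refine Finset.sum_congr rfl fun B _ => ?_
    rw [mul_comm]
    congr 1
    rw [← Finset.prod_coe_sort B (fun i => δ i (σ i))]
    rfl
  simp_rw [h1]
  rw [Finset.sum_comm]
  refine Finset.sum_congr rfl fun B _ => ?_
  rw [← Finset.mul_sum]
  have h3 : ∑ σ : Equiv.Perm (Fin n), ∏ i : B, δ i (restr B σ i) =
      ∑ g : B ↪ Fin n, ∑ σ ∈ univ.filter (fun σ : Equiv.Perm (Fin n) => restr B σ = g),
        ∏ i : B, δ i (restr B σ i) :=
    (Finset.sum_fiberwise (s := univ) (g := restr B)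
      (f := fun σ => ∏ i : B, δ i (restr B σ i))).symm
  rw [h3, injSum, Finset.mul_sum, Finset.mul_sum]
  refine Finset.sum_congr rfl fun g _ => ?_
  have h4 : ∑ σ ∈ univ.filter (fun σ : Equiv.Perm (Fin n) => restr B σ = g),
        ∏ i : B, δ i (restr B σ i) =
      ∑ σ ∈ univ.filter (fun σ : Equiv.Perm (Fin n) => restr B σ = g),
        ∏ i : B, δ i (g i) := by
    refine Finset.sum_congr rfl fun σ hσ => ?_
    rw [(Finset.mem_filter.mp hσ).2]
  rw [h4, Finset.sum_const, card_fiber, nsmul_eq_mul]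
  ring

end Pool.Agent.Helper805_nf
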