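import Pool.Agent.Helper805_nf.B1
import Pool.Agent.Helper805_nf.B2

set_option autoImplicit false

namespace Pool.Agent.Helper805_nf

open Finset




/-- B4. p-adic bound for injection sums. -/
theorem injSum_padic (p k n : ℕ) [Fact p.Prime] (hp2 : p ≠ 2) (δ : Fin n → Fin n → ℂ)
    (θ : Finset (Fin n) → ℤ)
    (hθ : ∀ S : Finset (Fin n), S.Nonempty → ∑ j : Fin n, ∏ i ∈ S, δ i j = ((p : ℂ) ^ k / 2) * (θ S : ℂ))
    (B : Finset (Fin n)) :
    ∃ q : ℚ, (q : ℂ) = injSum δ B ∧ ∀ m : ℕ, B.card ≤ m → m < p ^ k →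
      ‖(((m - B.card).factorial : ℚ_[p]) * (q : ℚ_[p])) / (m.factorial : ℚ_[p])‖ ≤ (if B.Nonempty then (p : ℝ)⁻¹ else 1) := by
  classical
  have hp0 : (p : ℝ)⁻¹ ≤ 1 := by
    have h1 : (1 : ℝ) ≤ p := by exact_mod_cast (Fact.out : p.Prime).one_lt.le
    exact inv_le_one_of_one_le₀ h1
  have hpp : (0 : ℝ) ≤ (p : ℝ)⁻¹ := by positivity
  induction B using Finset.strongInduction with
  | H B ih =>
  rcases B.eq_empty_or_nonempty with rfl | hB
  · refine ⟨1, ?_, fun m _ _ => ?_⟩
    · have : injSum δ ∅ = 1 := by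
        unfold injSum
        have h1 : ∀ g : ((∅ : Finset (Fin n)) ↪ Fin n),
            (∏ i : (∅ : Finset (Fin n)), δ i (g i)) = 1 := fun g => by
          apply Finset.prod_eq_one
          rintro ⟨i, hi⟩
          simp at hi
        rw [Finset.sum_congr rfl (fun g _ => h1 g)]
        rw [Finset.sum_const, Finset.card_univ, Fintype.card_embedding_eq]
        simp
      rw [this]
      simp
    · have hm : (m.factorial : ℚ_[p]) ≠ 0 := by exact_mod_cast m.factorial_ne_zero
      simp [hm]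
  · obtain ⟨b, hb⟩ := hB
    have hsub : ∀ S ∈ B.powerset.filter (fun S => b ∈ S), ∃ q : ℚ, (q : ℂ) = injSum δ (B \ S) ∧
        ∀ m : ℕ, (B \ S).card ≤ m → m < p ^ k →
        ‖(((m - (B \ S).card).factorial : ℚ_[p]) * (q : ℚ_[p])) / (m.factorial : ℚ_[p])‖ ≤ 1 := by
      intro S hS
      rw [Finset.mem_filter, Finset.mem_powerset] at hS
      have hlt : B \ S ⊂ B := by
        refine Finset.ssubset_iff_subset_ne.2 ⟨Finset.sdiff_subset, fun h => ?_⟩
        have : b ∈ B \ S := by rw [h]; exact hb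
        exact (Finset.mem_sdiff.1 this).2 hS.2
      obtain ⟨q, hq, hq'⟩ := ih _ hlt
      refine ⟨q, hq, fun m h1 h2 => (hq' m h1 h2).trans ?_⟩
      split_ifs
      · exact hp0
      · exact le_rfl
    choose! Q hQ1 hQ2 using hsub
    refine ⟨∑ S ∈ B.powerset.filter (fun S => b ∈ S),
      (-1 : ℚ) ^ (S.card - 1) * ((S.card - 1).factorial : ℚ) * ((p : ℚ) ^ k / 2 * (θ S : ℚ)) * Q S,
      ?_, fun m hm1 hm2 => ?_⟩
    · rw [injSum_rec δ B b hb]
      push_cast
      refine Finset.sum_congr rfl fun S hS => ?_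
      rw [hQ1 S hS]
      rw [Finset.mem_filter] at hS
      rw [hθ S ⟨b, hS.2⟩]
    · rw [if_pos ⟨b, hb⟩]
      push_cast
      rw [Finset.mul_sum, Finset.sum_div]
      refine IsUltrametricDist.norm_sum_le_of_forall_le_of_nonneg hpp fun S hS => ?_
      have h3 := hQ2 S hS
      rw [Finset.mem_filter, Finset.mem_powerset] at hS
      have hs1 : 1 ≤ S.card := Finset.card_pos.2 ⟨b, hS.2⟩
      have hst : S.card ≤ B.card := Finset.card_le_card hS.1
      have hcard : (B \ S).card = B.card - S.card := Finset.card_sdiff_of_subset hS.1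
      have h4 := h3 (m - S.card) (by omega) (by omega)
      rw [hcard, show m - S.card - (B.card - S.card) = m - B.card by omega] at h4
      have h5 := leibniz_norm p k m S.card hs1 (by omega) hm2
      have hfac : (m.choose S.card : ℚ_[p]) * (S.card.factorial : ℚ_[p]) *
          ((m - S.card).factorial : ℚ_[p]) = (m.factorial : ℚ_[p]) := by
        exact_mod_cast Nat.choose_mul_factorial_mul_factorial (show S.card ≤ m by omega)
      have hsf : (S.card.factorial : ℚ_[p]) = (S.card : ℚ_[p]) * ((S.card - 1).factorial : ℚ_[p]) := by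
        obtain ⟨s, hs⟩ : ∃ s, S.card = s + 1 := ⟨S.card - 1, by omega⟩
        rw [hs, Nat.factorial_succ]
        push_cast
        rfl
      have n1 : (m.factorial : ℚ_[p]) ≠ 0 := by exact_mod_cast m.factorial_ne_zero
      have n2 : ((m - S.card).factorial : ℚ_[p]) ≠ 0 := by
        exact_mod_cast (m - S.card).factorial_ne_zero
      have n3 : (S.card : ℚ_[p]) ≠ 0 := by
        have : S.card ≠ 0 := by omega
        exact_mod_cast this
      have n4 : (m.choose S.card : ℚ_[p]) ≠ 0 := by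
        have : m.choose S.card ≠ 0 := (Nat.choose_pos (by omega)).ne'
        exact_mod_cast this
      have n5 : ((S.card - 1).factorial : ℚ_[p]) ≠ 0 := by
        exact_mod_cast (S.card - 1).factorial_ne_zero
      have key : ((m - B.card).factorial : ℚ_[p]) * ((-1 : ℚ_[p]) ^ (S.card - 1) *
          ((S.card - 1).factorial : ℚ_[p]) * ((p : ℚ_[p]) ^ k / 2 * (θ S : ℚ_[p])) *
          ((Q S : ℚ) : ℚ_[p])) / (m.factorial : ℚ_[p]) =
          (-1 : ℚ_[p]) ^ (S.card - 1) * ((θ S : ℤ) : ℚ_[p]) * (2 : ℚ_[p])⁻¹ *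
          ((((p : ℚ_[p]) ^ k) / ((S.card : ℚ_[p]) * (m.choose S.card : ℚ_[p]))) *
          ((((m - B.card).factorial : ℚ_[p]) * ((Q S : ℚ) : ℚ_[p])) /
            ((m - S.card).factorial : ℚ_[p]))) := by
        rw [← hfac, hsf]
        field_simp
      have h2n : ‖(2 : ℚ_[p])‖ = 1 := by
        have : ‖((2 : ℕ) : ℚ_[p])‖ = 1 := by
          rw [Padic.norm_natCast_eq_one_iff]
          exact (Nat.coprime_primes (Fact.out : p.Prime) Nat.prime_two).2 hp2
        exact_mod_cast this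
      rw [key, norm_mul, norm_mul, norm_mul, norm_mul, norm_pow, norm_neg, norm_one, one_pow,
        norm_inv, h2n, inv_one, mul_one, one_mul]
      have hθ1 : ‖((θ S : ℤ) : ℚ_[p])‖ ≤ 1 := Padic.norm_int_le_one _
      calc ‖((θ S : ℤ) : ℚ_[p])‖ * (‖((p : ℚ_[p]) ^ k) / ((S.card : ℚ_[p]) *
            (m.choose S.card : ℚ_[p]))‖ * ‖(((m - B.card).factorial : ℚ_[p]) *
            ((Q S : ℚ) : ℚ_[p])) / ((m - S.card).factorial : ℚ_[p])‖) ≤ 1 * ((p : ℝ)⁻¹ * 1) :=
          mul_le_mul hθ1 (mul_le_mul h5 h4 (norm_nonneg _) hpp) (by positivity) zero_le_one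
        _ = (p : ℝ)⁻¹ := by ring


end Pool.Agent.Helper805_nf
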