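import Mathlib

set_option autoImplicit false

namespace Pool.Agent.Helper805_nf

open Finset


/-- the product in the target, as a function on the integers -/
noncomputable def B5F {n : ℕ} (η : ℂ) (d : Fin n → ℕ) (S : Finset (Fin n)) (y : ℤ) : ℂ :=
  ∏ i ∈ S, ((∑ t ∈ Finset.range (d i), η ^ (y * ((d i : ℤ) - 1 - 2 * (t : ℤ)))) - (d i : ℂ))

theorem B5_char (v : ℕ) (hv : 0 < v) (η : ℂ) (hη : IsPrimitiveRoot η v) (c : ℤ) :
    ∃ θ : ℤ, ∑ y ∈ Finset.range v, η ^ ((y : ℤ) * c) = (v : ℂ) * (θ : ℂ) := by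
  have e : ∀ y : ℕ, η ^ ((y : ℤ) * c) = (η ^ c) ^ y := by
    intro y
    rw [mul_comm, zpow_mul, zpow_natCast]
  by_cases hc : (v : ℤ) ∣ c
  · refine ⟨1, ?_⟩
    have h1 : η ^ c = 1 := (hη.zpow_eq_one_iff_dvd c).2 hc
    rw [Finset.sum_congr rfl (fun y _ => by rw [e y, h1, one_pow])]
    simp
  · refine ⟨0, ?_⟩
    have h1 : η ^ c ≠ 1 := fun h => hc ((hη.zpow_eq_one_iff_dvd c).1 h)
    have h2 : (η ^ c) ^ v = 1 := by
      rw [← zpow_natCast, ← zpow_mul, mul_comm, zpow_mul, zpow_natCast, hη.pow_eq_one, one_zpow]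
    rw [Finset.sum_congr rfl (fun y _ => e y), geom_sum_eq h1, h2]
    simp

theorem B5_int {n : ℕ} (v : ℕ) (hv : 0 < v) (η : ℂ) (hη : IsPrimitiveRoot η v) (d : Fin n → ℕ)
    (S : Finset (Fin n)) : ∀ c : ℤ,
    ∃ θ : ℤ, ∑ y ∈ Finset.range v, η ^ ((y : ℤ) * c) * B5F η d S (y : ℤ) = (v : ℂ) * (θ : ℂ) := by
  have h0 : η ≠ 0 := hη.ne_zero hv.ne'
  induction S using Finset.induction_on with
  | empty =>
    intro c
    unfold B5F
    simp only [Finset.prod_empty, mul_one]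
    exact B5_char v hv η hη c
  | insert i S hi ih =>
    intro c
    choose θ hθ using ih
    refine ⟨(∑ t ∈ Finset.range (d i), θ (c + ((d i : ℤ) - 1 - 2 * (t : ℤ)))) - d i * θ c, ?_⟩
    have e : ∀ y : ℕ, η ^ ((y : ℤ) * c) * B5F η d (insert i S) (y : ℤ) =
        (∑ t ∈ Finset.range (d i),
          η ^ ((y : ℤ) * (c + ((d i : ℤ) - 1 - 2 * (t : ℤ)))) * B5F η d S (y : ℤ)) -
        (d i : ℂ) * (η ^ ((y : ℤ) * c) * B5F η d S (y : ℤ)) := by
      intro y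
      unfold B5F
      rw [Finset.prod_insert hi, ← Finset.sum_mul]
      simp only [mul_add, zpow_add₀ h0]
      rw [← Finset.mul_sum]
      ring
    rw [Finset.sum_congr rfl (fun y _ => e y), Finset.sum_sub_distrib, Finset.sum_comm,
      Finset.sum_congr rfl (fun t _ => hθ _), ← Finset.mul_sum, ← Finset.mul_sum, hθ]
    push_cast
    ring

theorem B5_periodic {n : ℕ} (v : ℕ) (hv : 0 < v) (η : ℂ) (hη : IsPrimitiveRoot η v)
    (d : Fin n → ℕ) (S : Finset (Fin n)) (y : ℤ) : B5F η d S (y + v) = B5F η d S y := by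
  have h0 : η ≠ 0 := hη.ne_zero hv.ne'
  unfold B5F
  apply Finset.prod_congr rfl
  intro i _
  congr 1
  apply Finset.sum_congr rfl
  intro t _
  rw [add_mul, zpow_add₀ h0, zpow_mul η (v : ℤ), zpow_natCast, hη.pow_eq_one, one_zpow, mul_one]

theorem B5_neg {n : ℕ} (η : ℂ) (d : Fin n → ℕ) (S : Finset (Fin n)) (y : ℤ) :
    B5F η d S (-y) = B5F η d S y := by
  unfold B5F
  apply Finset.prod_congr rfl
  intro i _
  congr 1
  rw [← Finset.sum_range_reflect]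
  apply Finset.sum_congr rfl
  intro t ht
  rw [Finset.mem_range] at ht
  congr 1
  have : ((d i - 1 - t : ℕ) : ℤ) = (d i : ℤ) - 1 - t := by omega
  rw [this]
  ring

theorem B5_zero {n : ℕ} (η : ℂ) (d : Fin n → ℕ) (S : Finset (Fin n)) (hS : S.Nonempty) :
    B5F η d S 0 = 0 := by
  obtain ⟨i, hi⟩ := hS
  unfold B5F
  apply Finset.prod_eq_zero hi
  simp

theorem B5_split (n : ℕ) (f : ℤ → ℂ) : ∑ y ∈ Finset.range (2 * n + 1), f (y : ℤ) =
    f 0 + ∑ j ∈ Finset.range n, f (2 * (j : ℤ) + 1) + ∑ j ∈ Finset.range n, f (2 * (j : ℤ) + 2) := by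
  induction n with
  | zero => simp
  | succ n ih =>
    have : 2 * (n + 1) + 1 = 2 * n + 1 + 1 + 1 := by ring
    rw [this, Finset.sum_range_succ, Finset.sum_range_succ, ih, Finset.sum_range_succ,
      Finset.sum_range_succ]
    push_cast
    ring

/-- B5. Integrality of power sums. -/
theorem powerSum_int (n : ℕ) (η : ℂ) (hη : IsPrimitiveRoot η (2 * n + 1)) (d : Fin n → ℕ) (S : Finset (Fin n))
    (hS : S.Nonempty) :
    ∃ θ : ℤ, ∑ j : Fin n, ∏ i ∈ S,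
      ((∑ t ∈ Finset.range (d i), η ^ ((2 * ((j : ℕ) : ℤ) + 1) * ((d i : ℤ) - 1 - 2 * (t : ℤ)))) - (d i : ℂ)) =
        (((2 * n + 1 : ℕ) : ℂ) / 2) * (θ : ℂ) := by
  obtain ⟨θ, hθ⟩ := B5_int (2 * n + 1) (by omega) η hη d S 0
  refine ⟨θ, ?_⟩
  have h1 : ∑ y ∈ Finset.range (2 * n + 1), B5F η d S (y : ℤ) = ((2 * n + 1 : ℕ) : ℂ) * (θ : ℂ) := by
    rw [← hθ]
    apply Finset.sum_congr rfl
    intro y _
    rw [mul_zero, zpow_zero, one_mul]
  rw [B5_split, B5_zero η d S hS, zero_add] at h1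
  have h2 : ∑ j ∈ Finset.range n, B5F η d S (2 * (j : ℤ) + 2) =
      ∑ j ∈ Finset.range n, B5F η d S (2 * (j : ℤ) + 1) := by
    rw [← Finset.sum_range_reflect]
    apply Finset.sum_congr rfl
    intro j hj
    rw [Finset.mem_range] at hj
    rw [← B5_neg, ← B5_periodic (2 * n + 1) (by omega) η hη]
    congr 1
    have : ((n - 1 - j : ℕ) : ℤ) = (n : ℤ) - 1 - j := by omega
    rw [this]
    push_cast
    ring
  rw [h2] at h1
  have h3 : ∑ j : Fin n, ∏ i ∈ S,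
      ((∑ t ∈ Finset.range (d i), η ^ ((2 * ((j : ℕ) : ℤ) + 1) * ((d i : ℤ) - 1 - 2 * (t : ℤ)))) - (d i : ℂ)) =
      ∑ j ∈ Finset.range n, B5F η d S (2 * (j : ℤ) + 1) := by
    rw [Finset.sum_range]
    rfl
  rw [h3]
  linear_combination h1 / 2

end Pool.Agent.Helper805_nf
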