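import Pool.Agent.Helper805_nf.B3
import Pool.Agent.Helper805_nf.B4
import Pool.Agent.Helper805_nf.B5

set_option autoImplicit false

namespace Pool.Agent.Helper805_nf

open Finset





theorem b6_geom (z : ℂ) (hz : z ≠ 0) (d : ℕ) :
    z ^ d - (z⁻¹) ^ d = (z - z⁻¹) * ∑ t ∈ Finset.range d, z ^ ((d : ℤ) - 1 - 2 * (t : ℤ)) := by
  have h1 : ∀ t ∈ Finset.range d, (z - z⁻¹) * z ^ ((d : ℤ) - 1 - 2 * (t : ℤ)) =
      z ^ ((d : ℤ) - 2 * (t : ℤ)) - z ^ ((d : ℤ) - 2 * ((t + 1 : ℕ) : ℤ)) := by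
    intro t _
    rw [sub_mul]
    congr 1
    · nth_rewrite 1 [← zpow_one z]
      rw [← zpow_add₀ hz]
      congr 1; ring
    · rw [← zpow_neg_one, ← zpow_add₀ hz]
      congr 1; push_cast; ring
  rw [Finset.mul_sum, Finset.sum_congr rfl h1,
    Finset.sum_range_sub' (fun t : ℕ => z ^ ((d : ℤ) - 2 * (t : ℤ)))]
  have e0 : z ^ ((d : ℤ) - 2 * ((0 : ℕ) : ℤ)) = z ^ d := by
    rw [Nat.cast_zero, mul_zero, sub_zero, zpow_natCast]
  have e1 : z ^ ((d : ℤ) - 2 * (d : ℤ)) = (z⁻¹) ^ d := by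
    rw [show (d : ℤ) - 2 * (d : ℤ) = -(d : ℤ) by ring, zpow_neg, zpow_natCast, inv_pow]
  rw [e0, e1]

theorem b6_ne (n : ℕ) (η : ℂ) (hη : IsPrimitiveRoot η (2 * n + 1)) (j : Fin n) :
    η ^ (2 * (j : ℕ) + 1) - (η ^ (2 * (j : ℕ) + 1))⁻¹ ≠ 0 := by
  intro h
  have hη0 : η ≠ 0 := hη.ne_zero (by omega)
  have h1 : η ^ (2 * (j : ℕ) + 1) ≠ 0 := pow_ne_zero _ hη0
  have h2 : η ^ (2 * (2 * (j : ℕ) + 1)) = 1 := by
    rw [two_mul (2 * (j : ℕ) + 1), pow_add]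
    nth_rewrite 2 [sub_eq_zero.mp h]
    exact mul_inv_cancel₀ h1
  have h3 := hη.dvd_of_pow_eq_one _ h2
  have h4 : Nat.Coprime (2 * n + 1) 2 := by
    rw [Nat.coprime_two_right]
    exact ⟨n, rfl⟩
  have h5 := h4.dvd_of_dvd_mul_left h3
  have h6 := Nat.le_of_dvd (by omega) h5
  have := j.2
  omega

theorem b6_injSum_empty {R : Type*} [CommRing R] {ι κ : Type*} [DecidableEq ι] [Fintype κ]
    [DecidableEq κ] (f : ι → κ → R) : injSum f (∅ : Finset ι) = 1 := by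
  unfold injSum
  have h : ∀ g : ((∅ : Finset ι) : Type _) ↪ κ, ∏ i : ((∅ : Finset ι) : Type _), f i (g i) = 1 := by
    intro g
    exact Finset.prod_eq_one fun i _ => absurd i.2 (Finset.notMem_empty _)
  simp only [h, Finset.sum_const, Finset.card_univ, nsmul_eq_mul, mul_one]
  rw [Fintype.card_embedding_eq]
  simp

/-- B6. The full permutation sum is nonzero for unit labels and prime power order. -/
theorem unit_permSum_ne_zero (p k n : ℕ) (hp : p.Prime) (hv : 2 * n + 1 = p ^ k) (η : ℂ)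
    (hη : IsPrimitiveRoot η (2 * n + 1)) (d : Fin n → ℕ) (hd : ∀ i, ¬ p ∣ d i) :
    ∑ σ : Equiv.Perm (Fin n), ∏ i,
      (η ^ ((2 * (σ i : ℕ) + 1) * d i) - (η⁻¹) ^ ((2 * (σ i : ℕ) + 1) * d i)) ≠ 0 := by
  classical
  rcases Nat.eq_zero_or_pos n with rfl | hn
  · simp
  have hη0 : η ≠ 0 := hη.ne_zero (by omega)
  have := Fact.mk hp
  have hp2 : p ≠ 2 := by
    rintro rfl
    rcases Nat.eq_zero_or_pos k with rfl | hk
    · rw [pow_zero] at hv; omega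
    · have h1 : 2 ∣ 2 ^ k := dvd_pow_self 2 hk.ne'
      rw [← hv] at h1
      omega
  obtain ⟨H, hH⟩ : ∃ H : Fin n → Fin n → ℂ, H = fun (i j : Fin n) => ∑ t ∈ Finset.range (d i),
      η ^ ((2 * ((j : ℕ) : ℤ) + 1) * ((d i : ℤ) - 1 - 2 * (t : ℤ))) := ⟨_, rfl⟩
  obtain ⟨δ, hδ⟩ : ∃ δ : Fin n → Fin n → ℂ, δ = fun (i j : Fin n) => H i j - (d i : ℂ) := ⟨_, rfl⟩
  have hfac : ∀ (i j : Fin n), η ^ ((2 * (j : ℕ) + 1) * d i) - (η⁻¹) ^ ((2 * (j : ℕ) + 1) * d i) =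
      (η ^ (2 * (j : ℕ) + 1) - (η ^ (2 * (j : ℕ) + 1))⁻¹) * H i j := by
    intro i j
    have h1 := b6_geom (η ^ (2 * (j : ℕ) + 1)) (pow_ne_zero _ hη0) (d i)
    rw [← pow_mul, ← inv_pow, ← pow_mul] at h1
    rw [h1, ← inv_pow, hH]
    congr 1
    refine Finset.sum_congr rfl fun t _ => ?_
    rw [← zpow_natCast η, ← zpow_mul]
    push_cast
    rfl
  have hsum : ∑ σ : Equiv.Perm (Fin n), ∏ i,
      (η ^ ((2 * (σ i : ℕ) + 1) * d i) - (η⁻¹) ^ ((2 * (σ i : ℕ) + 1) * d i)) =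
      (∏ j : Fin n, (η ^ (2 * (j : ℕ) + 1) - (η ^ (2 * (j : ℕ) + 1))⁻¹)) *
        ∑ σ : Equiv.Perm (Fin n), ∏ i, H i (σ i) := by
    rw [Finset.mul_sum]
    refine Finset.sum_congr rfl fun σ _ => ?_
    rw [← Equiv.prod_comp σ (fun j : Fin n =>
      (η ^ (2 * (j : ℕ) + 1) - (η ^ (2 * (j : ℕ) + 1))⁻¹)), ← Finset.prod_mul_distrib]
    exact Finset.prod_congr rfl fun i _ => hfac i (σ i)
  rw [hsum]
  refine mul_ne_zero (Finset.prod_ne_zero_iff.mpr fun j _ => b6_ne n η hη j) ?_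
  have hQ : ∑ σ : Equiv.Perm (Fin n), ∏ i, H i (σ i) =
      ∑ B : Finset (Fin n), ((n - B.card).factorial : ℂ) * (∏ i ∈ Bᶜ, (d i : ℂ)) *
        injSum δ B := by
    rw [← permSum_expand]
    refine Finset.sum_congr rfl fun σ _ => Finset.prod_congr rfl fun i _ => ?_
    rw [hδ]; ring
  -- the integers `θ`
  have hθex : ∀ S : Finset (Fin n), ∃ θ : ℤ, S.Nonempty →
      ∑ j : Fin n, ∏ i ∈ S, δ i j = ((p : ℂ) ^ k / 2) * (θ : ℂ) := by
    intro S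
    by_cases hS : S.Nonempty
    · obtain ⟨θ, hθ⟩ := powerSum_int n η hη d S hS
      refine ⟨θ, fun _ => ?_⟩
      have h1 : ((2 * n + 1 : ℕ) : ℂ) = (p : ℂ) ^ k := by rw [hv]; push_cast; rfl
      rw [← h1, hδ, hH]
      exact hθ
    · exact ⟨0, fun h => absurd h hS⟩
  choose θ hθ using hθex
  have hq := fun B : Finset (Fin n) => injSum_padic p k n hp2 δ θ hθ B
  choose q hq1 hq2 using hq
  have hnk : n < p ^ k := by omega
  have hq3 : ∀ B : Finset (Fin n), ‖(((n - B.card).factorial : ℚ_[p]) * (q B : ℚ_[p])) /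
      (n.factorial : ℚ_[p])‖ ≤ (if B.Nonempty then (p : ℝ)⁻¹ else 1) := fun B =>
    hq2 B n (by simpa using B.card_le_univ) hnk
  have hq0 : q ∅ = 1 := by
    have h1 := hq1 ∅
    rw [b6_injSum_empty] at h1
    exact_mod_cast h1
  intro h0
  rw [hQ] at h0
  have hr : ∑ B : Finset (Fin n), ((n - B.card).factorial : ℚ) * (∏ i ∈ Bᶜ, (d i : ℚ)) * q B = 0 := by
    have h1 : ((∑ B : Finset (Fin n), ((n - B.card).factorial : ℚ) * (∏ i ∈ Bᶜ, (d i : ℚ)) *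
        q B : ℚ) : ℂ) = 0 := by
      push_cast
      rw [← h0]
      refine Finset.sum_congr rfl fun B _ => ?_
      rw [hq1]
    exact_mod_cast h1
  have hrp : ∑ B : Finset (Fin n), ((n - B.card).factorial : ℚ_[p]) * (∏ i ∈ Bᶜ, (d i : ℚ_[p])) *
      (q B : ℚ_[p]) = 0 := by
    have h1 := congrArg (fun x : ℚ => (x : ℚ_[p])) hr
    push_cast at h1
    exact h1
  have hnf : (n.factorial : ℚ_[p]) ≠ 0 := by exact_mod_cast n.factorial_ne_zero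
  have hrp2 : ∑ B : Finset (Fin n), (∏ i ∈ Bᶜ, (d i : ℚ_[p])) *
      ((((n - B.card).factorial : ℚ_[p]) * (q B : ℚ_[p])) / (n.factorial : ℚ_[p])) = 0 := by
    have h1 : ∑ B : Finset (Fin n), (∏ i ∈ Bᶜ, (d i : ℚ_[p])) *
        ((((n - B.card).factorial : ℚ_[p]) * (q B : ℚ_[p])) / (n.factorial : ℚ_[p])) =
        (∑ B : Finset (Fin n), ((n - B.card).factorial : ℚ_[p]) * (∏ i ∈ Bᶜ, (d i : ℚ_[p])) *
          (q B : ℚ_[p])) / (n.factorial : ℚ_[p]) := by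
      rw [Finset.sum_div]
      refine Finset.sum_congr rfl fun B _ => ?_
      ring
    rw [h1, hrp, zero_div]
  rw [← Finset.add_sum_erase _ _ (Finset.mem_univ (∅ : Finset (Fin n)))] at hrp2
  have hfirst : (∏ i ∈ (∅ : Finset (Fin n))ᶜ, (d i : ℚ_[p])) *
      ((((n - (∅ : Finset (Fin n)).card).factorial : ℚ_[p]) * (q ∅ : ℚ_[p])) /
        (n.factorial : ℚ_[p])) = ∏ i : Fin n, (d i : ℚ_[p]) := by
    rw [hq0, Finset.card_empty, Nat.sub_zero, Rat.cast_one, mul_one, div_self hnf, mul_one,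
      Finset.compl_empty]
  rw [hfirst] at hrp2
  have hnorm1 : ‖∏ i : Fin n, (d i : ℚ_[p])‖ = 1 := by
    rw [norm_prod]
    refine Finset.prod_eq_one fun i _ => ?_
    rw [Padic.norm_natCast_eq_one_iff]
    exact (Nat.Prime.coprime_iff_not_dvd hp).mpr (hd i)
  have hrest : ‖∑ B ∈ Finset.univ.erase (∅ : Finset (Fin n)), (∏ i ∈ Bᶜ, (d i : ℚ_[p])) *
      ((((n - B.card).factorial : ℚ_[p]) * (q B : ℚ_[p])) / (n.factorial : ℚ_[p]))‖ ≤
      (p : ℝ)⁻¹ := by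
    refine IsUltrametricDist.norm_sum_le_of_forall_le_of_nonneg (by positivity) fun B hB => ?_
    have hBne : B.Nonempty := Finset.nonempty_iff_ne_empty.mpr (Finset.ne_of_mem_erase hB)
    have h1 := hq3 B
    rw [if_pos hBne] at h1
    rw [norm_mul]
    have h2 : ‖∏ i ∈ Bᶜ, (d i : ℚ_[p])‖ ≤ 1 := by
      rw [norm_prod]
      refine Finset.prod_le_one (fun i _ => norm_nonneg _) fun i _ => ?_
      exact_mod_cast Padic.norm_int_le_one (p := p) (d i : ℤ)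
    calc _ ≤ 1 * (p : ℝ)⁻¹ := mul_le_mul h2 h1 (norm_nonneg _) zero_le_one
      _ = _ := one_mul _
  have h1 : ∏ i : Fin n, (d i : ℚ_[p]) = -∑ B ∈ Finset.univ.erase (∅ : Finset (Fin n)),
      (∏ i ∈ Bᶜ, (d i : ℚ_[p])) *
      ((((n - B.card).factorial : ℚ_[p]) * (q B : ℚ_[p])) / (n.factorial : ℚ_[p])) :=
    eq_neg_of_add_eq_zero_left hrp2
  rw [h1, norm_neg] at hnorm1
  rw [hnorm1] at hrest
  have h2 : (p : ℝ)⁻¹ < 1 := inv_lt_one_of_one_lt₀ (by exact_mod_cast hp.one_lt)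
  linarith


end Pool.Agent.Helper805_nf
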