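import Mathlib

set_option autoImplicit false

namespace Pool.Agent.Helper805_nf

open Finset


/-- the Chebyshev type polynomials -/
noncomputable def chebP (K : Type*) [Field K] : ℕ → Polynomial K
  | 0 => 1
  | 1 => Polynomial.X + 1
  | j + 2 => Polynomial.X * chebP K (j + 1) - chebP K j

theorem chebP_deg (K : Type*) [Field K] : ∀ j : ℕ, (chebP K j).Monic ∧ (chebP K j).natDegree = j
  | 0 => ⟨Polynomial.monic_one, Polynomial.natDegree_one⟩
  | 1 => by
    have h : chebP K 1 = Polynomial.X + Polynomial.C 1 := by rw [chebP, Polynomial.C_1]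
    rw [h]
    exact ⟨Polynomial.monic_X_add_C 1, Polynomial.natDegree_X_add_C 1⟩
  | j + 2 => by
    obtain ⟨h1, h2⟩ := chebP_deg K (j + 1)
    obtain ⟨h3, h4⟩ := chebP_deg K j
    have h5 : (Polynomial.X * chebP K (j + 1)).Monic := Polynomial.monic_X.mul h1
    have h6 : (Polynomial.X * chebP K (j + 1)).natDegree = j + 2 := by
      rw [Polynomial.monic_X.natDegree_mul h1, Polynomial.natDegree_X, h2]
      omega
    have h7 : (chebP K j).natDegree < (Polynomial.X * chebP K (j + 1)).natDegree := by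
      rw [h6, h4]
      omega
    rw [chebP]
    exact ⟨h5.sub_of_left (Polynomial.degree_lt_degree h7),
      (Polynomial.natDegree_sub_eq_left_of_natDegree_lt h7).trans h6⟩

theorem chebP_eval {K : Type*} [Field K] {z : K} (hz : z ≠ 0) : ∀ j : ℕ,
    z ^ (2 * j + 1) - z⁻¹ ^ (2 * j + 1) = (z - z⁻¹) * (chebP K j).eval (z ^ 2 + z⁻¹ ^ 2)
  | 0 => by simp [chebP]
  | 1 => by
    simp only [chebP, Polynomial.eval_add, Polynomial.eval_X, Polynomial.eval_one]
    have h4 : z * z⁻¹ = 1 := mul_inv_cancel₀ hz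
    generalize z⁻¹ = y at *
    linear_combination (z - y) * h4
  | j + 2 => by
    have h1 := chebP_eval hz (j + 1)
    have h2 := chebP_eval hz j
    rw [chebP, Polynomial.eval_sub, Polynomial.eval_mul, Polynomial.eval_X]
    have h3 : (z - z⁻¹) * ((z ^ 2 + z⁻¹ ^ 2) * (chebP K (j + 1)).eval (z ^ 2 + z⁻¹ ^ 2) -
        (chebP K j).eval (z ^ 2 + z⁻¹ ^ 2)) =
        (z ^ 2 + z⁻¹ ^ 2) * (z ^ (2 * (j + 1) + 1) - z⁻¹ ^ (2 * (j + 1) + 1)) -
          (z ^ (2 * j + 1) - z⁻¹ ^ (2 * j + 1)) := by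
      rw [h1, h2]
      ring
    rw [h3]
    have h4 : z * z⁻¹ = 1 := mul_inv_cancel₀ hz
    have e1 : z ^ (2 * (j + 2) + 1) = z ^ 4 * z ^ (2 * j + 1) := by ring
    have e2 : z⁻¹ ^ (2 * (j + 2) + 1) = z⁻¹ ^ 4 * z⁻¹ ^ (2 * j + 1) := by ring
    have e3 : z ^ (2 * (j + 1) + 1) = z ^ 2 * z ^ (2 * j + 1) := by ring
    have e4 : z⁻¹ ^ (2 * (j + 1) + 1) = z⁻¹ ^ 2 * z⁻¹ ^ (2 * j + 1) := by ring
    rw [e1, e2, e3, e4]
    generalize z ^ (2 * j + 1) = p
    generalize z⁻¹ ^ (2 * j + 1) = q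
    generalize z⁻¹ = y at *
    linear_combination (-(z * y + 1) * p + (z * y + 1) * q) * h4

/-- the determinant is nonzero in every field -/
theorem det_cheb_ne_zero {K : Type*} [Field K] (n a : ℕ) (η : K)
    (hη : IsPrimitiveRoot η (2 * n + 1)) (d : Fin a → ℕ) (hd : ∀ i, 1 ≤ d i ∧ d i ≤ n)
    (hinj : Function.Injective d) :
    (Matrix.of fun i j : Fin a => (η ^ d i) ^ (2 * (j : ℕ) + 1) -
      (η ^ d i)⁻¹ ^ (2 * (j : ℕ) + 1)).det ≠ 0 := by
  have hη0 : η ≠ 0 := hη.ne_zero (by omega)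
  have hz : ∀ i, η ^ d i ≠ 0 := fun i => pow_ne_zero _ hη0
  have h1 : (Matrix.of fun i j : Fin a => (η ^ d i) ^ (2 * (j : ℕ) + 1) -
      (η ^ d i)⁻¹ ^ (2 * (j : ℕ) + 1)) =
      Matrix.of fun i j : Fin a => (η ^ d i - (η ^ d i)⁻¹) *
        (Matrix.of fun i j : Fin a => (chebP K j).eval ((η ^ d i) ^ 2 + (η ^ d i)⁻¹ ^ 2)) i j := by
    ext i j
    exact chebP_eval (hz i) j
  rw [h1, Matrix.det_mul_column]
  have h2 := Matrix.det_eval_matrixOfPolynomials_eq_det_vandermonde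
    (fun i : Fin a => (η ^ d i) ^ 2 + (η ^ d i)⁻¹ ^ 2) (fun j : Fin a => chebP K j)
    (fun j => (chebP_deg K j).2) (fun j => (chebP_deg K j).1)
  rw [← h2]
  refine mul_ne_zero (Finset.prod_ne_zero_iff.2 fun i _ => ?_) ?_
  · intro h
    have h3 : (η ^ d i) ^ 2 = 1 := by
      have h4 : η ^ d i = (η ^ d i)⁻¹ := sub_eq_zero.1 h
      calc (η ^ d i) ^ 2 = η ^ d i * η ^ d i := by ring
        _ = η ^ d i * (η ^ d i)⁻¹ := by rw [← h4]
        _ = 1 := mul_inv_cancel₀ (hz i)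
    rw [← pow_mul] at h3
    have := hd i
    exact hη.pow_ne_one_of_pos_of_lt (by omega) (by omega) h3
  · rw [Matrix.det_vandermonde_ne_zero_iff]
    intro i k hik
    by_contra hne
    have hdne : d i ≠ d k := fun h => hne (hinj h)
    simp only at hik
    set z := η ^ d i with hzd
    set w := η ^ d k with hwd
    have hz0 : z ≠ 0 := hz i
    have hw0 : w ≠ 0 := hz k
    have h5 : (z * w - (z * w)⁻¹) * (z * w⁻¹ - w * z⁻¹) = 0 := by
      have : (z * w - (z * w)⁻¹) * (z * w⁻¹ - w * z⁻¹) =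
          (z ^ 2 + z⁻¹ ^ 2) - (w ^ 2 + w⁻¹ ^ 2) := by
        field_simp
        ring
      rw [this, hik, sub_self]
    rcases mul_eq_zero.1 h5 with h | h
    · have h6 : (z * w) ^ 2 = 1 := by
        have h4 : z * w = (z * w)⁻¹ := sub_eq_zero.1 h
        calc (z * w) ^ 2 = (z * w) * (z * w) := by ring
          _ = (z * w) * (z * w)⁻¹ := by rw [← h4]
          _ = 1 := mul_inv_cancel₀ (mul_ne_zero hz0 hw0)
      rw [hzd, hwd, ← pow_add, ← pow_mul] at h6
      have h7 := hη.dvd_of_pow_eq_one _ h6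
      have h8 : Nat.Coprime (2 * n + 1) 2 := Nat.coprime_two_right.2 ⟨n, rfl⟩
      have h9 := h8.dvd_of_dvd_mul_right h7
      have h10 := Nat.le_of_dvd (by have := (hd i).1; omega) h9
      have := hd i
      have := hd k
      omega
    · have h6 : z ^ 2 = w ^ 2 := by
        have h4 : z * w⁻¹ = w * z⁻¹ := sub_eq_zero.1 h
        field_simp at h4
        exact h4
      rw [hzd, hwd, ← pow_mul, ← pow_mul] at h6
      have hi := hd i
      have hk := hd k
      have h7 := hη.pow_inj (i := d i * 2) (j := d k * 2) (by omega) (by omega) h6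
      omega

/-- C1. In characteristic two the permutation sum is nonzero for distinct labels. -/
theorem distinct_permSum_ne_zero {K : Type*} [Field K] [CharP K 2] (n a : ℕ) (han : a ≤ n) (η : K)
    (hη : IsPrimitiveRoot η (2 * n + 1)) (d : Fin a → ℕ) (hd : ∀ i, 1 ≤ d i ∧ d i ≤ n) (hinj : Function.Injective d) :
    ∑ σ : Equiv.Perm (Fin a), ∏ i,
      (η ^ ((2 * (σ i : ℕ) + 1) * d i) - (η⁻¹) ^ ((2 * (σ i : ℕ) + 1) * d i)) ≠ 0 := by
  have h := det_cheb_ne_zero n a η hη d hd hinj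
  rw [← Matrix.det_transpose, Matrix.det_apply'] at h
  intro h0
  apply h
  rw [← h0]
  refine Finset.sum_congr rfl fun σ _ => ?_
  have h1 : ((Equiv.Perm.sign σ : ℤ) : K) = 1 := by
    rcases Int.units_eq_one_or (Equiv.Perm.sign σ) with h2 | h2
    · rw [h2]
      simp
    · rw [h2]
      have h3 : (2 : K) = 0 := CharTwo.two_eq_zero
      push_cast
      linear_combination h3 * (-1 : K)
  rw [h1, one_mul]
  refine Finset.prod_congr rfl fun i _ => ?_
  change (η ^ d i) ^ (2 * ((σ i : Fin a) : ℕ) + 1) - (η ^ d i)⁻¹ ^ (2 * ((σ i : Fin a) : ℕ) + 1) = _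
  rw [← inv_pow, ← pow_mul, ← pow_mul, mul_comm (d i)]


end Pool.Agent.Helper805_nf
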