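import Mathlib

set_option autoImplicit false

namespace Pool.Agent.Helper805_nf

open Finset

/-- The column labelling for the two-mode functional. -/
def col (a b : ℕ) : Option ((Fin a ⊕ Fin b) × Bool) → ℤ
  | none => -1
  | some (Sum.inl k, false) => a - 1 - (k : ℕ)
  | some (Sum.inl k, true) => a + (k : ℕ)
  | some (Sum.inr k, false) => 2 * a + b - 1 - (k : ℕ)
  | some (Sum.inr k, true) => 2 * a + b + (k : ℕ)

/-- The permutation with given block permutations and flips. -/
def blockPerm (a b : ℕ) (π : Equiv.Perm (Fin a)) (ρ : Equiv.Perm (Fin b)) (ε : Fin a → Bool)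
    (δ : Fin b → Bool) : Option ((Fin a ⊕ Fin b) × Bool) → Option ((Fin a ⊕ Fin b) × Bool)
  | none => none
  | some (Sum.inl k, t) => some (Sum.inl (π k), xor t (ε k))
  | some (Sum.inr k, t) => some (Sum.inr (ρ k), xor t (δ k))

/-- Sum over injections of a finite set of labels. -/
noncomputable def injSum {R : Type*} [CommRing R] {ι κ : Type*} [DecidableEq ι] [Fintype κ] [DecidableEq κ]
    (f : ι → κ → R) (B : Finset ι) : R :=
  ∑ g : B ↪ κ, ∏ i : B, f i (g i)

end Pool.Agent.Helper805_nf
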