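import Mathlib

set_option autoImplicit false

namespace Pool.Agent.Helper805_nf

open Finset

/-- Values of the rows. -/
noncomputable def rowVal {K : Type*} [Field K] {r : ℕ} (t : Fin r → K) : Option (Fin r × Bool) → K
  | none => 1
  | some (i, false) => t i
  | some (i, true) => (t i)⁻¹

/-- Positions of the free vertex and of the dimers. -/
def colPos {r n : ℕ} (y : Fin r → Fin n) : Option (Fin r × Bool) → ℕ
  | none => 0
  | some (i, false) => (y i : ℕ) + (i : ℕ) + 1
  | some (i, true) => (y i : ℕ) + (i : ℕ) + 2

/-- The dimer determinant. -/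
noncomputable def dimDet {K : Type*} [Field K] {r n : ℕ} (t : Fin r → K) (y : Fin r → Fin n) : K :=
  Matrix.det (Matrix.of fun a b : Option (Fin r × Bool) => rowVal t a ^ colPos y b)

/-- The subpermanent of the label rows over the columns not in `J`. -/
noncomputable def subPer {K : Type*} [Field K] {n r m : ℕ} (ζ : K) (e : Fin m → ℕ) (J : Fin r → Fin n) : K :=
  ∑ g : Fin m ↪ Fin n, if (∀ b i, g b ≠ J i) then
    ∏ b, (ζ ^ (((g b : ℕ) + 1) * e b) - (ζ⁻¹) ^ (((g b : ℕ) + 1) * e b)) else 0

/-- Multiplication by the linear form with coefficients `c` in the square-free algebra. -/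
def lop {K : Type*} [Field K] {ι : Type*} [DecidableEq ι] (c : ι → K) (f : Finset ι → K) : Finset ι → K :=
  fun A => ∑ j ∈ A, c j * f (A.erase j)

end Pool.Agent.Helper805_nf
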