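import Mathlib
import Pool.Agent.Helper805_nf.Defs

set_option autoImplicit false

namespace Pool.Agent.Helper805_nf

open Finset

/-- The quotient of `z ^ d - z ^ (-d)` by `z - z ^ (-1)`. -/
noncomputable def rho {K : Type*} [Field K] (z : K) (d : ℕ) : K :=
  ∑ s ∈ Finset.range d, z ^ ((d : ℤ) - 1 - 2 * (s : ℤ))

/-- The deletion sum of a finite set of labels at the distinguished column. -/
noncomputable def delSum {K : Type*} [CommRing K] {m : ℕ} (g : Fin m → K) (J : Finset (Fin m) → K)
    (E : Finset (Fin m)) : K :=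
  ∑ A ∈ E.powerset, (-1 : K) ^ A.card * (A.card.factorial : K) * (∏ i ∈ A, g i) * J (E \ A)

end Pool.Agent.Helper805_nf
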