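import Mathlib
import Pool.Agent.Helper805_nf.Defs
import Pool.Agent.Helper805_nf.Defs3

set_option autoImplicit false

namespace Pool.Agent.Helper805_nf

open Finset

/-- Functions of an exponent `j` prime to `p` given by a polynomial in `ζ ^ j` whose coefficients have
norm at most one, divisible by the power `N` of `ζ ^ j - 1`. -/
def OrdF {K : Type*} [NormedField K] (p : ℕ) (ζ : K) (N : ℕ) (G : ℕ → K) : Prop :=
  ∃ Q : Polynomial K, (∀ k, ‖Q.coeff k‖ ≤ 1) ∧
    ∀ j : ℕ, ¬ p ∣ j → G j = (ζ ^ j - 1) ^ N * Q.eval (ζ ^ j)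

/-- The exponent of `p` guaranteed in a sum over the units of a function of order `N`. -/
def vO (p N : ℕ) : ℕ := if N < p then 1 else 2 + (N - p) / (p * (p - 1))

/-- The order of a row of weight `g`. -/
def oG (p g : ℕ) : ℕ := if g = 0 then 2 else p * g - 1

/-- The sum over permutations for rows evaluated at the exponents `2, ..., m + 1`. -/
noncomputable def perT {K : Type*} [CommRing K] {m : ℕ} (r : Fin m → ℕ → K) : K :=
  ∑ π : Equiv.Perm (Fin m), ∏ i, r i ((π i : ℕ) + 2)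

/-- Finite differences of `rho` in the label. -/
noncomputable def fdRow {K : Type*} [Field K] (ζ : K) (p δ l : ℕ) (a : ℕ) : K :=
  ∑ i ∈ Finset.range (l + 1), (-1 : K) ^ (l - i) * (l.choose i : K) * rho (ζ ^ a) (δ + p * i)

/-- Admissible rows of weight `g` with constant part `c`. -/
def RowOK {K : Type*} [NormedField K] (p : ℕ) (ζ : K) (t : ℝ) (g : ℕ) (c : K) (r : ℕ → K) : Prop :=
  ‖c‖ ≤ 1 ∧ (1 ≤ g → c = 0) ∧ OrdF p ζ (oG p g) (fun j => r j - c) ∧
    (∀ j j' : ℕ, p ^ 2 ∣ j + j' → r j = r j') ∧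
    ∀ j : ℕ, p ∣ j → ¬ p ^ 2 ∣ j → ‖r j - c‖ ≤ t ^ (2 * p) ∧ (1 ≤ g → r j = 0)

/-- Estimates for a function of finite sets of rows. -/
def NBound {K : Type*} [NormedField K] {m : ℕ} (p q : ℕ) (τ : ℝ) (g : Fin m → ℕ)
    (J : Finset (Fin m) → K) : Prop :=
  ∀ (y : ℕ) (A : Finset (Fin m)), y + A.card < p ^ 2 →
    (‖(y.factorial : K) * J A‖ * τ ≤ ‖((y + A.card).factorial : K)‖ * τ ^ (∑ i ∈ A, g i)) ∧
    (¬ (y % p = p - 1 ∧ (y + A.card) % p = 0) →
      ‖(y.factorial : K) * J A‖ ≤ ‖((y + A.card).factorial : K)‖ * τ ^ (∑ i ∈ A, g i)) ∧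
    (q ≤ (y + A.card) % p → ¬ (p ∣ ∑ i ∈ A, g i ∧ A.card ≤ ∑ i ∈ A, g i) →
      ‖(y.factorial : K) * J A‖ ≤ ‖((y + A.card).factorial : K)‖ * τ ^ (∑ i ∈ A, g i + 1)) ∧
    ((y + A.card) % p = p - 1 → y % p ≠ p - 1 →
      ‖(y.factorial : K) * J A‖ ≤ ‖((y + A.card).factorial : K)‖ * τ ^ (∑ i ∈ A, g i + (p - 2)))

/-- The linear form of a row. -/
noncomputable def linF {K : Type*} [CommRing K] (m : ℕ) (r : ℕ → K) : MvPolynomial (Fin m) K :=
  ∑ j : Fin m, MvPolynomial.C (r ((j : ℕ) + 2)) * MvPolynomial.X j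

/-- The second base `p` coordinate of a label in its class. -/
def cval (p q x : ℕ) : ℕ := if x % p ≤ q then x / p else p - 1 - x / p

/-- The list `L` is the list of edge lengths of a near 1-factor on `2 n + 1` vertices. -/
def Realizable (n : ℕ) (L : Multiset ℕ) : Prop :=
  ∃ g : Fin n ⊕ Fin n → Fin (2 * n + 1), Function.Injective g ∧
    Multiset.map
      (fun i : Fin n =>
        min (Int.natAbs (((g (Sum.inl i) : ℕ) : ℤ) - ((g (Sum.inr i) : ℕ) : ℤ)))
          (2 * n + 1 - Int.natAbs (((g (Sum.inl i) : ℕ) : ℤ) - ((g (Sum.inr i) : ℕ) : ℤ))))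
      (Finset.univ : Finset (Fin n)).val = L

end Pool.Agent.Helper805_nf
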