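import Mathlib
import Pool.Agent.Helper805_nf.Defs4

set_option autoImplicit false

namespace Pool.Agent.Helper805_nf

open Finset

/-- The quadratic character modulo three. -/
def chi3 (e : ℕ) : ℤ := if e % 3 = 0 then 0 else if e % 3 = 1 then 1 else -1

end Pool.Agent.Helper805_nf
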