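import Mathlib
import Pool.Agent.Helper805_nf.Defs4

set_option autoImplicit false

namespace Pool.Agent.Helper805_nf

open Finset

/-- The class of `x` modulo `m` up to sign, for odd `m`. -/
def clm (m x : ℕ) : ℕ := if 2 * (x % m) < m then x % m else m - x % m

/-- The sign with `sgm m x * x` congruent to `clm m x` modulo `m`. -/
def sgm (m x : ℕ) : ℤ := if 2 * (x % m) < m then 1 else -1

/-- The exponent with all entries one. -/
noncomputable def oneE (a : ℕ) : Fin a →₀ ℕ := Finsupp.equivFunOnFinite.symm (fun _ => 1)

/-- The linear form with given coefficients. -/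
noncomputable def lf {k : Type*} [CommRing k] {a : ℕ} (z : Fin a → k) : MvPolynomial (Fin a) k :=
  ∑ l, MvPolynomial.C (z l) * MvPolynomial.X l

end Pool.Agent.Helper805_nf
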