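import Mathlib

set_option autoImplicit false

namespace Pool.Agent.Helper805_nf

open Finset


/-- the two circular distances -/
lemma circ_dist (n : ℕ) (y : ZMod (2 * n + 1)) (l : ℕ) (h1 : 1 ≤ l) (h2 : l ≤ n) :
    min (Int.natAbs ((y.val : ℤ) - ((y + (l : ZMod (2 * n + 1))).val : ℤ)))
      (2 * n + 1 - Int.natAbs ((y.val : ℤ) - ((y + (l : ZMod (2 * n + 1))).val : ℤ))) = l := by
  have hy : y.val < 2 * n + 1 := ZMod.val_lt y
  have hl : ((l : ZMod (2 * n + 1))).val = l := by
    rw [ZMod.val_natCast, Nat.mod_eq_of_lt (by omega)]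
  rw [ZMod.val_add, hl]
  rcases Nat.lt_or_ge (y.val + l) (2 * n + 1) with h | h
  · rw [Nat.mod_eq_of_lt h]
    omega
  · have h3 : (y.val + l) % (2 * n + 1) = y.val + l - (2 * n + 1) := by
      rw [Nat.mod_eq_sub_mod h, Nat.mod_eq_of_lt (by omega)]
    rw [h3]
    omega

/-- F. From a placement to a near 1-factor in the format of the problem. -/
theorem placement_to_factor (n : ℕ) (L : Multiset ℕ) (hL : ∀ x ∈ L, 1 ≤ x ∧ x ≤ n) {ι : Type*} [Fintype ι]
    (hι : Fintype.card ι = n) (lab : ι → ℕ) (hlab : Multiset.map lab (Finset.univ : Finset ι).val = L)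
    (x : ι → ZMod (2 * n + 1))
    (hx : Function.Injective (fun r : ι × Bool => x r.1 + if r.2 then ((lab r.1 : ℕ) : ZMod (2 * n + 1)) else 0)) :
    ∃ g : Fin n ⊕ Fin n → Fin (2 * n + 1), Function.Injective g ∧
      Multiset.map
        (fun i : Fin n =>
          min (Int.natAbs (((g (Sum.inl i) : ℕ) : ℤ) - ((g (Sum.inr i) : ℕ) : ℤ)))
            (2 * n + 1 - Int.natAbs (((g (Sum.inl i) : ℕ) : ℤ) - ((g (Sum.inr i) : ℕ) : ℤ))))
        (Finset.univ : Finset (Fin n)).val = L := by
  classical
  let f : Fin n ≃ ι := (Fintype.equivFinOfCardEq hι).symm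
  let y : Fin n ⊕ Fin n → ZMod (2 * n + 1) :=
    Sum.elim (fun i => x (f i)) (fun i => x (f i) + ((lab (f i) : ℕ) : ZMod (2 * n + 1)))
  have hy : Function.Injective y := by
    rintro (i | i) (j | j) h
    · have h1 := @hx (f i, false) (f j, false) (by simpa [y] using h)
      rw [Prod.mk.injEq] at h1
      exact congrArg Sum.inl (f.injective h1.1)
    · have h1 := @hx (f i, false) (f j, true) (by simpa [y] using h)
      rw [Prod.mk.injEq] at h1
      exact absurd h1.2 (by simp)
    · have h1 := @hx (f i, true) (f j, false) (by simpa [y] using h)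
      rw [Prod.mk.injEq] at h1
      exact absurd h1.2 (by simp)
    · have h1 := @hx (f i, true) (f j, true) (by simpa [y] using h)
      rw [Prod.mk.injEq] at h1
      exact congrArg Sum.inr (f.injective h1.1)
  refine ⟨fun s => ⟨(y s).val, ZMod.val_lt _⟩, ?_, ?_⟩
  · intro a b h
    apply hy
    exact ZMod.val_injective _ (congrArg Fin.val h)
  · have h1 : ∀ i : Fin n, 1 ≤ lab (f i) ∧ lab (f i) ≤ n := by
      intro i
      apply hL
      rw [← hlab]
      exact Multiset.mem_map_of_mem _ (Finset.mem_univ _)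
    have h2 : Multiset.map (fun i : Fin n => lab (f i)) (Finset.univ : Finset (Fin n)).val = L := by
      rw [← hlab]
      have h3 : (Finset.univ : Finset ι) = (Finset.univ : Finset (Fin n)).map f.toEmbedding := by
        simp
      rw [h3, Finset.map_val, Multiset.map_map]
      rfl
    rw [← h2]
    refine Multiset.map_congr rfl ?_
    intro i _
    exact circ_dist n (x (f i)) (lab (f i)) (h1 i).1 (h1 i).2



end Pool.Agent.Helper805_nf
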