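import Mathlib
import Pool.Agent.Helper805_nf.Defs7

set_option autoImplicit false

namespace Pool.Agent.Helper805_nf

open Finset




theorem q1a_dvd (m x : ℕ) (hm : 0 < m) : (m : ℤ) ∣ sgm m x * (x : ℤ) - (clm m x : ℤ) := by
  have h := Nat.div_add_mod x m
  have hlt := Nat.mod_lt x hm
  unfold sgm clm
  split_ifs with h0
  · refine ⟨((x / m : ℕ) : ℤ), ?_⟩
    have h' : ((m * (x / m) + x % m : ℕ) : ℤ) = (x : ℤ) := by rw [h]
    push_cast at h' ⊢
    linarith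
  · refine ⟨-((x / m : ℕ) : ℤ) - 1, ?_⟩
    have h' : ((m * (x / m) + x % m : ℕ) : ℤ) = (x : ℤ) := by rw [h]
    rw [Nat.cast_sub hlt.le]
    push_cast at h' ⊢
    linarith

theorem q1a_sg (m x : ℕ) : sgm m x = 1 ∨ sgm m x = -1 := by
  unfold sgm
  split_ifs
  · left; rfl
  · right; rfl

theorem class_inj (m p n : ℕ) (hp : p.Prime) (hpm : ¬ p ∣ m) (hn : 2 * n + 1 = m * p) (j j' : ℕ)
    (h1 : 1 ≤ j) (h2 : j ≤ n) (h3 : 1 ≤ j') (h4 : j' ≤ n) (hc : clm m j = clm m j')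
    (hs : ((sgm m j * (j : ℤ) : ℤ) : ZMod p) = ((sgm m j' * (j' : ℤ) : ℤ) : ZMod p)) : j = j' := by
  have hm : 0 < m := by
    rcases Nat.eq_zero_or_pos m with h | h
    · subst h; simp at hn
    · exact h
  have hmd : (m : ℤ) ∣ sgm m j * (j : ℤ) - sgm m j' * (j' : ℤ) := by
    have a := q1a_dvd m j hm
    have b := q1a_dvd m j' hm
    rw [hc] at a
    have := dvd_sub a b
    simpa using this
  have hpd : (p : ℤ) ∣ sgm m j * (j : ℤ) - sgm m j' * (j' : ℤ) := by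
    have := (ZMod.intCast_eq_intCast_iff_dvd_sub _ _ _).1 hs.symm
    exact this
  have hcop : IsCoprime (m : ℤ) (p : ℤ) := by
    rw [Nat.isCoprime_iff_coprime]
    exact ((Nat.Prime.coprime_iff_not_dvd hp).2 hpm).symm
  have hmp : (m : ℤ) * (p : ℤ) ∣ sgm m j * (j : ℤ) - sgm m j' * (j' : ℤ) := hcop.mul_dvd hmd hpd
  have hmp' : (m : ℤ) * (p : ℤ) = 2 * n + 1 := by exact_mod_cast hn.symm
  rw [hmp'] at hmp
  have hzero : sgm m j * (j : ℤ) - sgm m j' * (j' : ℤ) = 0 := by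
    apply Int.eq_zero_of_abs_lt_dvd hmp
    rw [abs_lt]
    have a1 : (1 : ℤ) ≤ j := by exact_mod_cast h1
    have a2 : (j : ℤ) ≤ n := by exact_mod_cast h2
    have a3 : (1 : ℤ) ≤ j' := by exact_mod_cast h3
    have a4 : (j' : ℤ) ≤ n := by exact_mod_cast h4
    rcases q1a_sg m j with e | e <;> rcases q1a_sg m j' with e' | e' <;> rw [e, e'] <;> constructor <;> linarith
  have a1 : (1 : ℤ) ≤ j := by exact_mod_cast h1
  have a3 : (1 : ℤ) ≤ j' := by exact_mod_cast h3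
  have : (j : ℤ) = j' := by
    rcases q1a_sg m j with e | e <;> rcases q1a_sg m j' with e' | e' <;> rw [e, e'] at hzero <;> linarith
  exact_mod_cast this

end Pool.Agent.Helper805_nf
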