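import Mathlib
import Pool.Agent.Helper805_nf.Defs7
import Pool.Agent.Helper805_nf.Q1a

set_option autoImplicit false

namespace Pool.Agent.Helper805_nf

open Finset





theorem q1b_clm_mem (m r j : ℕ) (hr : m = 2 * r + 1) (hj : ¬ m ∣ j) :
    clm m j ∈ Finset.Icc 1 r := by
  have h1 : j % m ≠ 0 := fun h => hj (Nat.dvd_of_mod_eq_zero h)
  have h2 : j % m < m := Nat.mod_lt _ (by omega)
  rw [Finset.mem_Icc]
  unfold clm
  split_ifs with h <;> omega

theorem q1b_small (m r j : ℕ) (hr : m = 2 * r + 1) (hj : j ≤ r) :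
    clm m j = j ∧ sgm m j = 1 := by
  have h2 : j % m = j := Nat.mod_eq_of_lt (by omega)
  unfold clm sgm
  rw [h2, if_pos (by omega), if_pos (by omega)]
  exact ⟨rfl, rfl⟩

theorem q1b_card (m p n r : ℕ) (hp : p.Prime) (hn : 2 * n + 1 = m * p) (hr : m = 2 * r + 1) :
    ((Finset.Icc 1 n).filter (fun j => ¬ m ∣ j)).card = r * p := by
  have hodd : p % 2 = 1 := by
    by_contra h
    have h0 : p % 2 = 0 := by omega
    obtain ⟨q, hq⟩ := Nat.dvd_of_mod_eq_zero h0
    rw [hq] at hn
    have : m * (2 * q) = 2 * (m * q) := by ring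
    omega
  obtain ⟨q, hq⟩ : ∃ q, p = 2 * q + 1 := ⟨p / 2, by omega⟩
  have h1 : n = q * m + r := by
    have : m * p = 2 * (q * m) + m := by rw [hq]; ring
    omega
  have h2 : n / m = q := by
    rw [h1, add_comm, Nat.add_mul_div_right _ _ (by omega), Nat.div_eq_of_lt (by omega), zero_add]
  have h3 : (Finset.Icc 1 n) = Finset.Ioc 0 n := by
    ext x; simp only [Finset.mem_Icc, Finset.mem_Ioc]; omega
  have h4 := Nat.Ioc_filter_dvd_card_eq_div n m
  have h5 := Finset.card_filter_add_card_filter_not (s := Finset.Ioc 0 n) (fun j => m ∣ j)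
  rw [h4, Nat.card_Ioc, h2] at h5
  rw [h3]
  have h6 : r * p = 2 * (r * q) + r := by rw [hq]; ring
  have h7 : q * m = 2 * (r * q) + q := by rw [hr]; ring
  omega

theorem q1b_zmod {R : Type*} [CommMonoid R] (p : ℕ) [NeZero p] (F : ZMod p → R) :
    ∏ x : ZMod p, F x = ∏ i ∈ Finset.range p, F (i : ZMod p) := by
  apply Finset.prod_nbij' (fun x : ZMod p => x.val) (fun i : ℕ => (i : ZMod p))
  · intro x _
    exact Finset.mem_range.2 (ZMod.val_lt x)
  · intro i _
    exact Finset.mem_univ _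
  · intro x _
    exact ZMod.natCast_zmod_val x
  · intro i hi
    exact ZMod.val_cast_of_lt (Finset.mem_range.1 hi)
  · intro x _
    rw [ZMod.natCast_zmod_val x]

theorem class_prod {R : Type*} [CommMonoid R] (m p n r : ℕ) (hp : p.Prime) (hpm : ¬ p ∣ m)
    (hn : 2 * n + 1 = m * p) (hr : m = 2 * r + 1) (G : ℕ → ZMod p → R) :
    ∏ j ∈ (Finset.Icc (r + 1) n).filter (fun j => ¬ m ∣ j), G (clm m j) ((sgm m j * (j : ℤ) : ℤ) : ZMod p) =
      ∏ c ∈ Finset.Icc 1 r, ∏ x ∈ (Finset.range p).filter (fun x => ¬ x ≡ c [MOD p]), G c (x : ZMod p) := by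
  classical
  have hne : NeZero p := ⟨hp.ne_zero⟩
  have hrn : r ≤ n := by
    have h2 := hp.two_le
    have h3 : m * 1 ≤ m * p := Nat.mul_le_mul_left m (by omega)
    omega
  set S := (Finset.Icc 1 n).filter (fun j => ¬ m ∣ j) with hS
  set T := Finset.Icc 1 r ×ˢ (Finset.univ : Finset (ZMod p)) with hT
  set φ : ℕ → ℕ × ZMod p := fun j => (clm m j, ((sgm m j * (j : ℤ) : ℤ) : ZMod p)) with hφ
  set G' : ℕ × ZMod p → R := fun y => if y.2 = (y.1 : ZMod p) then 1 else G y.1 y.2 with hG'
  have hmaps : ∀ j ∈ S, φ j ∈ T := by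
    intro j hj
    rw [hS, Finset.mem_filter] at hj
    rw [hT, Finset.mem_product]
    exact ⟨q1b_clm_mem m r j hr hj.2, Finset.mem_univ _⟩
  have hinj : Set.InjOn φ (S : Set ℕ) := by
    intro j hj j' hj' hjj
    rw [Finset.mem_coe, hS, Finset.mem_filter, Finset.mem_Icc] at hj hj'
    have h1 := congrArg Prod.fst hjj
    have h2 := congrArg Prod.snd hjj
    exact class_inj m p n hp hpm hn j j' hj.1.1 hj.1.2 hj'.1.1 hj'.1.2 h1 h2
  have himg : S.image φ = T := by
    apply Finset.eq_of_subset_of_card_le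
    · intro y hy
      obtain ⟨j, hj, rfl⟩ := Finset.mem_image.1 hy
      exact hmaps j hj
    · rw [Finset.card_image_of_injOn hinj, hS, q1b_card m p n r hp hn hr, hT, Finset.card_product]
      simp [ZMod.card]
  have hsmall : ∀ j, j ≤ r → φ j = (j, (j : ZMod p)) := by
    intro j hj
    obtain ⟨h1, h2⟩ := q1b_small m r j hr hj
    simp only [hφ]
    rw [h1, h2]
    simp
  have hsplit : S = (Finset.Icc 1 r).filter (fun j => ¬ m ∣ j) ∪
      (Finset.Icc (r + 1) n).filter (fun j => ¬ m ∣ j) := by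
    rw [hS, ← Finset.filter_union]
    congr 1
    ext x
    simp only [Finset.mem_Icc, Finset.mem_union]
    omega
  have hdisj : Disjoint ((Finset.Icc 1 r).filter (fun j => ¬ m ∣ j))
      ((Finset.Icc (r + 1) n).filter (fun j => ¬ m ∣ j)) := by
    rw [Finset.disjoint_left]
    intro x hx hx'
    rw [Finset.mem_filter, Finset.mem_Icc] at hx hx'
    omega
  have e1 : ∏ j ∈ (Finset.Icc (r + 1) n).filter (fun j => ¬ m ∣ j),
      G (clm m j) ((sgm m j * (j : ℤ) : ℤ) : ZMod p) = ∏ j ∈ S, G' (φ j) := by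
    rw [hsplit, Finset.prod_union hdisj]
    have e2 : ∏ j ∈ (Finset.Icc 1 r).filter (fun j => ¬ m ∣ j), G' (φ j) = 1 := by
      apply Finset.prod_eq_one
      intro j hj
      rw [Finset.mem_filter, Finset.mem_Icc] at hj
      rw [hsmall j hj.1.2]
      simp [hG']
    rw [e2, one_mul]
    apply Finset.prod_congr rfl
    intro j hj
    have hj0 := hj
    rw [Finset.mem_filter, Finset.mem_Icc] at hj
    have hjS : j ∈ S := by
      rw [hsplit]; exact Finset.mem_union_right _ hj0
    have hnot : (φ j).2 ≠ ((φ j).1 : ZMod p) := by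
      intro heq
      have hc := q1b_clm_mem m r j hr hj.2
      rw [Finset.mem_Icc] at hc
      have hcS : clm m j ∈ S := by
        rw [hS, Finset.mem_filter, Finset.mem_Icc]
        refine ⟨⟨hc.1, hc.2.trans hrn⟩, ?_⟩
        intro hd
        have := Nat.le_of_dvd hc.1 hd
        omega
      have h3 : φ (clm m j) = φ j := by
        rw [hsmall _ hc.2]
        exact Prod.ext rfl heq.symm
      have h4 := hinj hcS hjS h3
      omega
    simp only [hG']
    rw [if_neg hnot]
  rw [e1, ← Finset.prod_image (f := G') hinj, himg, hT, Finset.prod_product]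
  apply Finset.prod_congr rfl
  intro c _
  rw [q1b_zmod p, Finset.prod_filter]
  apply Finset.prod_congr rfl
  intro x _
  simp only [hG']
  by_cases hx : x ≡ c [MOD p]
  · rw [if_pos ((ZMod.natCast_eq_natCast_iff x c p).2 hx), if_neg (not_not.2 hx)]
  · rw [if_neg (fun h => hx ((ZMod.natCast_eq_natCast_iff x c p).1 h)), if_pos hx]


end Pool.Agent.Helper805_nf
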