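import Mathlib
import Pool.Agent.Helper805_nf.Defs7

set_option autoImplicit false

namespace Pool.Agent.Helper805_nf

open Finset




theorem q2_cond_iff {a : ℕ} (f : Fin a → Fin a) :
    (∑ j, Finsupp.single (f j) 1 : Fin a →₀ ℕ) = oneE a ↔ Function.Bijective f := by
  have hval : ∀ i : Fin a, (∑ j, Finsupp.single (f j) 1 : Fin a →₀ ℕ) i =
      (Finset.univ.filter (fun j => f j = i)).card := by
    intro i
    rw [Finsupp.finsetSum_apply, Finset.card_filter]
    apply Finset.sum_congr rfl
    intro j _
    rw [Finsupp.single_apply]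
  have hone : ∀ i : Fin a, oneE a i = 1 := by
    intro i
    simp [oneE]
  constructor
  · intro h
    have hs : Function.Surjective f := by
      intro i
      have h1 : (Finset.univ.filter (fun j => f j = i)).card = 1 := by
        rw [← hval, h, hone]
      obtain ⟨j, hj⟩ := Finset.card_pos.1 (by rw [h1]; exact one_pos)
      exact ⟨j, (Finset.mem_filter.1 hj).2⟩
    exact ⟨Finite.injective_iff_surjective.2 hs, hs⟩
  · intro h
    ext i
    rw [hval, hone]
    obtain ⟨j, hj⟩ := h.2 i
    rw [Finset.card_eq_one]
    refine ⟨j, ?_⟩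
    ext j'
    simp only [Finset.mem_filter, Finset.mem_univ, true_and, Finset.mem_singleton]
    constructor
    · intro h'
      exact h.1 (h'.trans hj.symm)
    · rintro rfl
      exact hj

theorem perm_coeff {R : Type*} [CommRing R] (a : ℕ) (M : Fin a → Fin a → R) :
    ∑ π : Equiv.Perm (Fin a), ∏ i, M i (π i) =
      MvPolynomial.coeff (oneE a) (∏ j, lf (fun i => M i j)) := by
  classical
  have h1 : (∏ j, lf (fun i => M i j) : MvPolynomial (Fin a) R) =
      ∑ f : Fin a → Fin a, MvPolynomial.C (∏ j, M (f j) j) *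
        MvPolynomial.monomial (∑ j, Finsupp.single (f j) 1) 1 := by
    simp only [lf]
    rw [Finset.prod_univ_sum, Fintype.piFinset_univ]
    apply Finset.sum_congr rfl
    intro f _
    rw [Finset.prod_mul_distrib, map_prod]
    congr 1
    rw [MvPolynomial.monomial_sum_one]
    rfl
  rw [h1, MvPolynomial.coeff_sum]
  simp only [MvPolynomial.coeff_C_mul, MvPolynomial.coeff_monomial]
  have h2 : ∑ π : Equiv.Perm (Fin a), ∏ i, M i (π i) =
      ∑ π : Equiv.Perm (Fin a), ∏ j, M (π j) j := by
    rw [← Equiv.sum_comp (Equiv.inv (Equiv.Perm (Fin a)))]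
    apply Finset.sum_congr rfl
    intro π _
    rw [← Equiv.prod_comp π]
    apply Finset.prod_congr rfl
    intro j _
    simp
  rw [h2]
  apply Finset.sum_of_injOn (fun π : Equiv.Perm (Fin a) => (π : Fin a → Fin a))
  · intro π _ σ _ h
    exact Equiv.coe_fn_injective h
  · intro π _
    simp
  · intro f _ hf
    rw [if_neg, mul_zero]
    intro h
    apply hf
    have hb := (q2_cond_iff f).1 h
    exact ⟨Equiv.ofBijective f hb, by simp, rfl⟩
  · intro π _
    rw [if_pos ((q2_cond_iff π).2 π.bijective), mul_one]


end Pool.Agent.Helper805_nf
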