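import Mathlib
import Pool.Agent.Helper805_nf.Defs7

set_option autoImplicit false

namespace Pool.Agent.Helper805_nf

open Finset



/-- the exponent with all entries `m` -/
noncomputable def q3_top (r m : ℕ) : Fin r →₀ ℕ := Finsupp.equivFunOnFinite.symm (fun _ => m)

theorem q3_top_apply (r m : ℕ) (c : Fin r) : q3_top r m c = m := rfl

/-- the ideal of the `p`-th powers of the variables -/
noncomputable def q3_J (k : Type*) [Field k] (r p : ℕ) : Ideal (MvPolynomial (Fin r) k) :=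
  Ideal.span (Set.range fun c : Fin r => (MvPolynomial.X c : MvPolynomial (Fin r) k) ^ p)

/-- the linear substitution -/
noncomputable def q3_phi {k : Type*} [Field k] {r : ℕ} (T : Matrix (Fin r) (Fin r) k) :
    MvPolynomial (Fin r) k →ₐ[k] MvPolynomial (Fin r) k :=
  MvPolynomial.aeval (fun i => lf (T i))

theorem q3_coeff_J {k : Type*} [Field k] (r p : ℕ) (hp : 1 ≤ p) (P : MvPolynomial (Fin r) k)
    (hP : P ∈ q3_J k r p) : MvPolynomial.coeff (q3_top r (p - 1)) P = 0 := by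
  rw [q3_J, Ideal.mem_span_range_iff_exists_fun] at hP
  obtain ⟨h, rfl⟩ := hP
  rw [MvPolynomial.coeff_sum]
  refine Finset.sum_eq_zero fun c _ => ?_
  rw [MvPolynomial.X_pow_eq_monomial, MvPolynomial.coeff_mul_monomial', if_neg]
  intro hle
  have h1 := hle c
  rw [Finsupp.single_eq_same, q3_top_apply] at h1
  omega

theorem q3_mono_mem {k : Type*} [Field k] (r p : ℕ) (d : Fin r →₀ ℕ) (c : Fin r) (h : p ≤ d c)
    (x : k) : MvPolynomial.monomial d x ∈ q3_J k r p := by
  have h1 : MvPolynomial.monomial d x =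
      MvPolynomial.monomial (d - Finsupp.single c p) x * (MvPolynomial.X c) ^ p := by
    rw [MvPolynomial.X_pow_eq_monomial, MvPolynomial.monomial_mul, mul_one]
    congr 2
    rw [tsub_add_cancel_of_le]
    rw [Finsupp.single_le_iff]
    exact h
  rw [h1]
  exact Ideal.mul_mem_left _ _ (Ideal.subset_span ⟨c, rfl⟩)

theorem q3_exists_big (r p : ℕ) (hp : 1 ≤ p) (d : Fin r →₀ ℕ) (hd : d ≠ q3_top r (p - 1))
    (hs : ∑ c, d c = r * (p - 1)) : ∃ c, p ≤ d c := by
  by_contra hcon
  push Not at hcon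
  have h1 : ∀ c ∈ (Finset.univ : Finset (Fin r)), d c ≤ p - 1 := fun c _ => by
    have := hcon c
    omega
  have h2 : ∑ c : Fin r, d c = ∑ _c : Fin r, (p - 1) := by
    rw [hs, Finset.sum_const, Finset.card_univ, Fintype.card_fin, smul_eq_mul]
  have h3 := (Finset.sum_eq_sum_iff_of_le h1).1 h2
  apply hd
  ext c
  rw [h3 c (Finset.mem_univ c), q3_top_apply]

theorem q3_decomp {k : Type*} [Field k] (r p : ℕ) (hp : 1 ≤ p) (P : MvPolynomial (Fin r) k)
    (hP : P.IsHomogeneous (r * (p - 1))) :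
    P - MvPolynomial.monomial (q3_top r (p - 1)) (MvPolynomial.coeff (q3_top r (p - 1)) P)
      ∈ q3_J k r p := by
  have h1 : P - MvPolynomial.monomial (q3_top r (p - 1)) (MvPolynomial.coeff (q3_top r (p - 1)) P)
      = ∑ d ∈ P.support.erase (q3_top r (p - 1)), MvPolynomial.monomial d (MvPolynomial.coeff d P) := by
    by_cases h : q3_top r (p - 1) ∈ P.support
    · rw [sub_eq_iff_eq_add', Finset.add_sum_erase P.support
        (fun d => MvPolynomial.monomial d (MvPolynomial.coeff d P)) h]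
      exact MvPolynomial.as_sum P
    · rw [Finset.erase_eq_of_notMem h, MvPolynomial.notMem_support_iff.1 h, map_zero, sub_zero]
      exact MvPolynomial.as_sum P
  rw [h1]
  refine Ideal.sum_mem _ fun d hd => ?_
  rw [Finset.mem_erase, MvPolynomial.mem_support_iff] at hd
  have h2 := hP hd.2
  have h3 : ∑ c, d c = r * (p - 1) := by
    rw [← h2, Finsupp.weight_apply, Finsupp.sum_fintype _ _ (fun _ => by simp)]
    simp
  obtain ⟨c, hc⟩ := q3_exists_big r p hp d hd.1 h3
  exact q3_mono_mem r p d c hc _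

theorem q3_lf_hom {k : Type*} [Field k] {a : ℕ} (z : Fin a → k) : (lf z).IsHomogeneous 1 := by
  unfold lf
  refine MvPolynomial.IsHomogeneous.sum _ _ _ fun l _ => ?_
  have h := (MvPolynomial.isHomogeneous_C (Fin a) (z l)).mul (MvPolynomial.isHomogeneous_X k l)
  rwa [zero_add] at h

theorem q3_prod_hom {k : Type*} [Field k] {r : ℕ} (p : ℕ) (T : Matrix (Fin r) (Fin r) k) :
    (∏ i, (lf (T i)) ^ (p - 1)).IsHomogeneous (r * (p - 1)) := by
  have h : ∑ _i : Fin r, 1 * (p - 1) = r * (p - 1) := by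
    rw [Finset.sum_const, Finset.card_univ, Fintype.card_fin, smul_eq_mul, one_mul]
  rw [← h]
  exact MvPolynomial.IsHomogeneous.prod _ _ _ fun i _ => (q3_lf_hom (T i)).pow (p - 1)

theorem q3_lf_pow {k : Type*} [Field k] (p : ℕ) (hp : p.Prime) [CharP k p] {a : ℕ}
    (z : Fin a → k) : (lf z) ^ p = ∑ l, MvPolynomial.C (z l ^ p) * MvPolynomial.X l ^ p := by
  have : Fact p.Prime := ⟨hp⟩
  have : ExpChar (MvPolynomial (Fin a) k) p := inferInstance
  unfold lf
  rw [sum_pow_char]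
  refine Finset.sum_congr rfl fun l _ => ?_
  rw [mul_pow, map_pow]

theorem q3_phi_J {k : Type*} [Field k] (p : ℕ) (hp : p.Prime) [CharP k p] {r : ℕ}
    (T : Matrix (Fin r) (Fin r) k) (P : MvPolynomial (Fin r) k) (hP : P ∈ q3_J k r p) :
    q3_phi T P ∈ q3_J k r p := by
  rw [q3_J, Ideal.mem_span_range_iff_exists_fun] at hP
  obtain ⟨h, rfl⟩ := hP
  rw [map_sum]
  refine Ideal.sum_mem _ fun c _ => ?_
  rw [map_mul]
  refine Ideal.mul_mem_left _ _ ?_
  rw [map_pow, q3_phi, MvPolynomial.aeval_X, q3_lf_pow p hp]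
  refine Ideal.sum_mem _ fun l _ => ?_
  exact Ideal.mul_mem_left _ _ (Ideal.subset_span ⟨l, rfl⟩)

theorem q3_U {k : Type*} [Field k] (r m : ℕ) :
    (MvPolynomial.monomial (q3_top r m) (1 : k)) = ∏ c, MvPolynomial.X c ^ m := by
  have h := MvPolynomial.monomial_eq (s := q3_top r m) (a := (1 : k))
  rw [h, map_one, one_mul, Finsupp.prod_fintype]
  · rfl
  · intro i
    exact pow_zero _

theorem q3_phi_U {k : Type*} [Field k] {r : ℕ} (m : ℕ) (T : Matrix (Fin r) (Fin r) k) :
    q3_phi T (MvPolynomial.monomial (q3_top r m) (1 : k)) = ∏ c, (lf (T c)) ^ m := by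
  rw [q3_U, map_prod]
  refine Finset.prod_congr rfl fun c _ => ?_
  rw [map_pow, q3_phi, MvPolynomial.aeval_X]

theorem q3_phi_phi {k : Type*} [Field k] {r : ℕ} (S T : Matrix (Fin r) (Fin r) k)
    (h : S * T = 1) (P : MvPolynomial (Fin r) k) : q3_phi T (q3_phi S P) = P := by
  have h1 : (q3_phi T).comp (q3_phi S) = AlgHom.id k _ := by
    refine MvPolynomial.algHom_ext fun i => ?_
    rw [AlgHom.comp_apply, AlgHom.id_apply]
    rw [q3_phi, q3_phi, MvPolynomial.aeval_X]
    unfold lf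
    rw [map_sum]
    have h2 : ∀ c, (MvPolynomial.aeval fun i => ∑ l, MvPolynomial.C (T i l) * MvPolynomial.X l)
        (MvPolynomial.C (S i c) * MvPolynomial.X c : MvPolynomial (Fin r) k)
        = ∑ l, MvPolynomial.C (S i c * T c l) * MvPolynomial.X l := by
      intro c
      rw [map_mul, MvPolynomial.aeval_X, MvPolynomial.aeval_C, MvPolynomial.algebraMap_eq,
        Finset.mul_sum]
      refine Finset.sum_congr rfl fun l _ => ?_
      rw [map_mul, mul_assoc]
    rw [Finset.sum_congr rfl fun c _ => h2 c, Finset.sum_comm]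
    have h3 : ∀ l, ∑ c, MvPolynomial.C (S i c * T c l) * (MvPolynomial.X l : MvPolynomial (Fin r) k)
        = if l = i then MvPolynomial.X i else 0 := by
      intro l
      rw [← Finset.sum_mul, ← map_sum]
      have h4 : ∑ c, S i c * T c l = (S * T) i l := (Matrix.mul_apply).symm
      rw [h4, h, Matrix.one_apply]
      by_cases hl : l = i
      · rw [if_pos hl, if_pos hl.symm, map_one, one_mul, hl]
      · rw [if_neg hl, if_neg (Ne.symm hl), map_zero, zero_mul]
    rw [Finset.sum_congr rfl fun l _ => h3 l, Finset.sum_ite_eq' Finset.univ i, if_pos (Finset.mem_univ i)]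
  exact congrArg (fun f => f P) h1 |>.trans rfl

theorem q3_kappa {k : Type*} [Field k] (p : ℕ) (hp : p.Prime) [CharP k p] {r : ℕ}
    (S : Matrix (Fin r) (Fin r) k) (hS : IsUnit S.det) :
    MvPolynomial.coeff (q3_top r (p - 1)) (∏ c, (lf (S c)) ^ (p - 1)) ≠ 0 := by
  intro h0
  have hp1 : 1 ≤ p := hp.one_lt.le
  have h1 := q3_decomp r p hp1 _ (q3_prod_hom p S)
  rw [h0, map_zero, sub_zero] at h1
  have h2 := q3_phi_J p hp S⁻¹ _ h1
  rw [← q3_phi_U, q3_phi_phi S S⁻¹ (Matrix.mul_nonsing_inv S hS)] at h2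
  have h3 := q3_coeff_J r p hp1 _ h2
  rw [MvPolynomial.coeff_monomial, if_pos rfl] at h3
  exact one_ne_zero h3

theorem q3_coeff_zero {k : Type*} [Field k] (p : ℕ) (hp : p.Prime) [CharP k p] {a : ℕ}
    (z : Fin a → k) (G : MvPolynomial (Fin a) k) :
    MvPolynomial.coeff (oneE a) (G * (lf z) ^ p) = 0 := by
  rw [q3_lf_pow p hp, Finset.mul_sum, MvPolynomial.coeff_sum]
  refine Finset.sum_eq_zero fun l _ => ?_
  rw [← mul_assoc, MvPolynomial.X_pow_eq_monomial, MvPolynomial.coeff_mul_monomial', if_neg]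
  intro hle
  have h1 := hle l
  rw [Finsupp.single_eq_same] at h1
  have h2 : oneE a l = 1 := rfl
  have h3 := hp.two_le
  omega

theorem socle_transfer {k : Type*} [Field k] (p : ℕ) (hp : p.Prime) [CharP k p] (r : ℕ)
    (S : Matrix (Fin r) (Fin r) k) (hS : IsUnit S.det) :
    ∃ κ : k, κ ≠ 0 ∧ ∀ (a : ℕ) (z : Fin r → Fin a → k) (G : MvPolynomial (Fin a) k),
      MvPolynomial.coeff (oneE a) (G * ∏ i, (∑ c, MvPolynomial.C (S i c) * lf (z c)) ^ (p - 1)) =
        κ * MvPolynomial.coeff (oneE a) (G * ∏ c, (lf (z c)) ^ (p - 1)) := by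
  have hp1 : 1 ≤ p := hp.one_lt.le
  refine ⟨MvPolynomial.coeff (q3_top r (p - 1)) (∏ c, (lf (S c)) ^ (p - 1)),
    q3_kappa p hp S hS, ?_⟩
  intro a z G
  set κ := MvPolynomial.coeff (q3_top r (p - 1)) (∏ c, (lf (S c)) ^ (p - 1)) with hκ
  have h1 := q3_decomp r p hp1 _ (q3_prod_hom p S)
  rw [← hκ, q3_J, Ideal.mem_span_range_iff_exists_fun] at h1
  obtain ⟨h, hh⟩ := h1
  have h2 : ∏ c, (lf (S c)) ^ (p - 1) = MvPolynomial.C κ * ∏ c, MvPolynomial.X c ^ (p - 1)
      + ∑ c, h c * MvPolynomial.X c ^ p := by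
    rw [hh, ← q3_U, MvPolynomial.C_mul_monomial, mul_one]
    ring
  have h3 := congrArg (MvPolynomial.aeval (fun c => lf (z c)) : MvPolynomial (Fin r) k →ₐ[k]
    MvPolynomial (Fin a) k) h2
  rw [map_prod, map_add, map_mul, map_prod, map_sum, MvPolynomial.aeval_C,
    MvPolynomial.algebraMap_eq] at h3
  have h4 : ∀ i, (MvPolynomial.aeval (fun c => lf (z c)) : MvPolynomial (Fin r) k →ₐ[k]
      MvPolynomial (Fin a) k) ((lf (S i)) ^ (p - 1))
      = (∑ c, MvPolynomial.C (S i c) * lf (z c)) ^ (p - 1) := by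
    intro i
    rw [map_pow]
    congr 1
    rw [lf, map_sum]
    refine Finset.sum_congr rfl fun c _ => ?_
    rw [map_mul, MvPolynomial.aeval_C, MvPolynomial.algebraMap_eq, MvPolynomial.aeval_X]
  have h5 : ∀ c, (MvPolynomial.aeval (fun c => lf (z c)) : MvPolynomial (Fin r) k →ₐ[k]
      MvPolynomial (Fin a) k) (MvPolynomial.X c ^ (p - 1)) = (lf (z c)) ^ (p - 1) := by
    intro c
    rw [map_pow, MvPolynomial.aeval_X]
  have h6 : ∀ c, (MvPolynomial.aeval (fun c => lf (z c)) : MvPolynomial (Fin r) k →ₐ[k]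
      MvPolynomial (Fin a) k) (h c * MvPolynomial.X c ^ p)
      = (MvPolynomial.aeval (fun c => lf (z c)) (h c)) * (lf (z c)) ^ p := by
    intro c
    rw [map_mul, map_pow, MvPolynomial.aeval_X]
  rw [Finset.prod_congr rfl fun i _ => h4 i, Finset.prod_congr rfl fun i _ => h5 i,
    Finset.sum_congr rfl fun i _ => h6 i] at h3
  rw [h3, mul_add, MvPolynomial.coeff_add, Finset.mul_sum, MvPolynomial.coeff_sum,
    Finset.sum_eq_zero, add_zero]
  · rw [mul_left_comm, MvPolynomial.coeff_C_mul]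
  · intro c _
    rw [← mul_assoc]
    exact q3_coeff_zero p hp _ _

end Pool.Agent.Helper805_nf
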