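import Mathlib
import Pool.Agent.Helper805_nf.Defs7

set_option autoImplicit false

namespace Pool.Agent.Helper805_nf

open Finset

theorem q4_geom {k : Type*} [Field k] (z u : k) (hzu : z * u = 1) (r : ℕ) :
    z ^ r * (1 + ∑ c ∈ range r, (z ^ (c + 1) + u ^ (c + 1))) = ∑ i ∈ range (2 * r + 1), z ^ i := by
  induction r with
  | zero => simp
  | succ r ih =>
    have h1 : z ^ (r + 1) * u ^ (r + 1) = 1 := by
      rw [← mul_pow, hzu, one_pow]
    have h2 : ∑ i ∈ range (2 * (r + 1) + 1), z ^ i =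
        z * (∑ i ∈ range (2 * r + 1), z ^ i) + 1 + z ^ (2 * r + 2) := by
      rw [show 2 * (r + 1) + 1 = (2 * r + 2) + 1 by ring, Finset.sum_range_succ,
        Finset.sum_range_succ' _ (2 * r + 1), pow_zero, Finset.mul_sum]
      simp only [pow_succ']
    rw [h2, ← ih, Finset.sum_range_succ]
    have h3 : z ^ (r + 1) * (1 + (∑ c ∈ range r, (z ^ (c + 1) + u ^ (c + 1)) +
        (z ^ (r + 1) + u ^ (r + 1)))) = z * (z ^ r * (1 + ∑ c ∈ range r, (z ^ (c + 1) + u ^ (c + 1)))) +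
        z ^ (r + 1) * z ^ (r + 1) + z ^ (r + 1) * u ^ (r + 1) := by
      ring
    rw [h3, h1]
    ring

theorem q4_T {k : Type*} [Field k] (z u : k) (hzu : z * u = 1) (r : ℕ) (hz : z ^ (2 * r + 1) = 1)
    (hz1 : z ≠ 1) : 1 + ∑ c ∈ range r, (z ^ (c + 1) + u ^ (c + 1)) = 0 := by
  have h1 := q4_geom z u hzu r
  have h2 : ∑ i ∈ range (2 * r + 1), z ^ i = 0 := by
    have h3 := geom_sum_mul z (2 * r + 1)
    rw [hz, sub_self] at h3
    rcases mul_eq_zero.1 h3 with h | h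
    · exact h
    · exact absurd (sub_eq_zero.1 h) hz1
  rw [h2] at h1
  have hz0 : z ≠ 0 := left_ne_zero_of_mul_eq_one hzu
  rcases mul_eq_zero.1 h1 with h | h
  · exact absurd h (pow_ne_zero _ hz0)
  · exact h

theorem q4_B {k : Type*} [Field k] (z u : k) (hzu : z * u = 1) (r : ℕ) :
    (z - 1) * ∑ i ∈ range r, (((i + 1 : ℕ) : k)) * (z ^ (i + 1) - u ^ (i + 1)) =
      (r : k) * z ^ (r + 1) + ((r : k) + 1) * u ^ r -
        (1 + ∑ c ∈ range r, (z ^ (c + 1) + u ^ (c + 1))) := by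
  induction r with
  | zero => simp
  | succ r ih =>
    rw [Finset.sum_range_succ, mul_add, ih, Finset.sum_range_succ]
    have h1 : z * u ^ (r + 1) = u ^ r := by
      rw [pow_succ', ← mul_assoc, hzu, one_mul]
    push_cast
    have h2 : (z - 1) * (((r : k) + 1) * (z ^ (r + 1) - u ^ (r + 1))) =
        ((r : k) + 1) * (z ^ (r + 1 + 1) - z * u ^ (r + 1) - z ^ (r + 1) + u ^ (r + 1)) := by
      ring
    rw [h2, h1]
    ring

theorem sine_matrix {k : Type*} [Field k] (m r : ℕ) (hr : m = 2 * r + 1) (hmk : (m : k) ≠ 0) (ω : k)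
    (hω : IsPrimitiveRoot ω m) :
    IsUnit (Matrix.of (fun i c : Fin r => ω ^ (((i : ℕ) + 1) * ((c : ℕ) + 1)) -
      (ω⁻¹) ^ (((i : ℕ) + 1) * ((c : ℕ) + 1)))).det ∧
    ∃ w : Fin r → k, (∀ c, w c ≠ 0) ∧ ∀ i : Fin r, (((i : ℕ) + 1 : ℕ) : k) =
      ∑ c : Fin r, (ω ^ (((i : ℕ) + 1) * ((c : ℕ) + 1)) - (ω⁻¹) ^ (((i : ℕ) + 1) * ((c : ℕ) + 1))) * w c := by
  have hm0 : m ≠ 0 := by omega
  have hω0 : ω ≠ 0 := hω.ne_zero hm0
  have hωm : ω ^ m = 1 := hω.pow_eq_one
  set S : Matrix (Fin r) (Fin r) k := Matrix.of (fun i c : Fin r => ω ^ (((i : ℕ) + 1) * ((c : ℕ) + 1)) -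
      (ω⁻¹) ^ (((i : ℕ) + 1) * ((c : ℕ) + 1))) with hS
  have hSe : ∀ i c : Fin r, S i c = ω ^ (((i : ℕ) + 1) * ((c : ℕ) + 1)) -
      (ω⁻¹) ^ (((i : ℕ) + 1) * ((c : ℕ) + 1)) := fun i c => rfl
  have hωa : ∀ a : ℕ, (ω ^ a) ^ (2 * r + 1) = 1 := by
    intro a
    rw [← hr, ← pow_mul, mul_comm, pow_mul, hωm, one_pow]
  have hne1 : ∀ a : ℕ, 0 < a → a < m → ω ^ a ≠ 1 := fun a h0 h1 =>
    hω.pow_ne_one_of_pos_of_lt h0.ne' h1
  have hinv : ∀ a : ℕ, ω ^ a * (ω⁻¹) ^ a = 1 := by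
    intro a
    rw [← mul_pow, mul_inv_cancel₀ hω0, one_pow]
  have hSS : S * S = -((m : k) • (1 : Matrix (Fin r) (Fin r) k)) := by
    ext i j
    rw [Matrix.mul_apply, Matrix.neg_apply, Matrix.smul_apply, smul_eq_mul]
    set x : k := ω ^ ((i : ℕ) + 1) with hx
    set y : k := ω ^ ((j : ℕ) + 1) with hy
    set x' : k := (ω⁻¹) ^ ((i : ℕ) + 1) with hx'
    set y' : k := (ω⁻¹) ^ ((j : ℕ) + 1) with hy'
    have hxx : x * x' = 1 := hinv _
    have hyy : y * y' = 1 := hinv _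
    have hterm : ∀ c : Fin r, S i c * S c j =
        ((x * y) ^ ((c : ℕ) + 1) + (x' * y') ^ ((c : ℕ) + 1)) -
          ((x * y') ^ ((c : ℕ) + 1) + (x' * y) ^ ((c : ℕ) + 1)) := by
      intro c
      rw [hSe, hSe, pow_mul, pow_mul, mul_comm ((c : ℕ) + 1) ((j : ℕ) + 1), pow_mul, pow_mul,
        mul_pow, mul_pow, mul_pow, mul_pow]
      ring
    rw [Finset.sum_congr rfl (fun c _ => hterm c), Finset.sum_sub_distrib,
      Fin.sum_univ_eq_sum_range (fun c => (x * y) ^ (c + 1) + (x' * y') ^ (c + 1)) r,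
      Fin.sum_univ_eq_sum_range (fun c => (x * y') ^ (c + 1) + (x' * y) ^ (c + 1)) r]
    have e1 : 1 + ∑ c ∈ range r, ((x * y) ^ (c + 1) + (x' * y') ^ (c + 1)) = 0 := by
      refine q4_T _ _ ?_ r ?_ ?_
      · calc x * y * (x' * y') = (x * x') * (y * y') := by ring
          _ = 1 := by rw [hxx, hyy, one_mul]
      · rw [mul_pow, hx, hy, hωa, hωa, one_mul]
      · rw [hx, hy, ← pow_add]
        have := i.2
        have := j.2
        exact hne1 _ (by omega) (by omega)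
    by_cases hij : i = j
    · subst hij
      have e2 : ∀ c ∈ range r, (x * y') ^ (c + 1) + (x' * y) ^ (c + 1) = 2 := by
        intro c _
        have g1 : x * y' = 1 := hxx
        have g2 : x' * y = 1 := by
          rw [mul_comm]
          exact hyy
        rw [g1, g2, one_pow]
        norm_num
      rw [Finset.sum_congr rfl e2, Finset.sum_const, card_range, Matrix.one_apply_eq, mul_one,
        nsmul_eq_mul]
      have e3 : ((m : ℕ) : k) = 2 * (r : k) + 1 := by
        rw [hr]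
        push_cast
        ring
      rw [e3]
      linear_combination e1
    · have e2 : 1 + ∑ c ∈ range r, ((x * y') ^ (c + 1) + (x' * y) ^ (c + 1)) = 0 := by
        refine q4_T _ _ ?_ r ?_ ?_
        · calc x * y' * (x' * y) = (x * x') * (y * y') := by ring
            _ = 1 := by rw [hxx, hyy, one_mul]
        · have g1 : y' ^ (2 * r + 1) = 1 := by
            rw [hy', ← pow_mul, inv_pow, mul_comm, pow_mul, ← hr, hωm, one_pow, inv_one]
          rw [mul_pow, g1, mul_one, hx, hωa]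
        · intro h
          have g1 : x = y := by
            have : x * y' * y = 1 * y := by rw [h]
            rw [mul_assoc, mul_comm y' y, hyy, mul_one, one_mul] at this
            exact this
          rw [hx, hy] at g1
          have := i.2
          have := j.2
          have g2 := hω.pow_inj (by omega) (by omega) g1
          exact hij (Fin.ext (by omega))
      rw [Matrix.one_apply_ne hij, mul_zero, neg_zero]
      linear_combination e1 - e2
  have hright : S * (-((m : k)⁻¹ • S)) = 1 := by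
    rw [Matrix.mul_neg, Matrix.mul_smul, hSS, smul_neg, neg_neg, smul_smul, inv_mul_cancel₀ hmk,
      one_smul]
  refine ⟨Matrix.isUnit_det_of_right_inverse hright, ?_⟩
  refine ⟨Matrix.mulVec (-((m : k)⁻¹ • S)) (fun i : Fin r => (((i : ℕ) + 1 : ℕ) : k)), ?_, ?_⟩
  · intro c hc
    have hz1 : ω ^ ((c : ℕ) + 1) ≠ 1 := hne1 _ (by omega) (by have := c.2; omega)
    have hval : Matrix.mulVec (-((m : k)⁻¹ • S)) (fun i : Fin r => (((i : ℕ) + 1 : ℕ) : k)) c =
        -((m : k)⁻¹ * ∑ i ∈ range r, (((i + 1 : ℕ) : k)) *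
          ((ω ^ ((c : ℕ) + 1)) ^ (i + 1) - ((ω⁻¹) ^ ((c : ℕ) + 1)) ^ (i + 1))) := by
      rw [Matrix.mulVec, dotProduct, Finset.mul_sum, ← Finset.sum_neg_distrib,
        ← Fin.sum_univ_eq_sum_range (fun i => -((m : k)⁻¹ * ((((i + 1 : ℕ) : k)) *
          ((ω ^ ((c : ℕ) + 1)) ^ (i + 1) - ((ω⁻¹) ^ ((c : ℕ) + 1)) ^ (i + 1))))) r]
      refine Finset.sum_congr rfl fun i _ => ?_
      rw [Matrix.neg_apply, Matrix.smul_apply, smul_eq_mul, hSe, pow_mul, pow_mul]
      ring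
    rw [hval, neg_eq_zero, mul_eq_zero] at hc
    rcases hc with hc | hc
    · exact inv_ne_zero hmk hc
    · have hB := q4_B (ω ^ ((c : ℕ) + 1)) ((ω⁻¹) ^ ((c : ℕ) + 1)) (hinv _) r
      rw [hc, mul_zero, q4_T _ _ (hinv _) r (hωa _) hz1, sub_zero] at hB
      set z : k := ω ^ ((c : ℕ) + 1) with hz
      set u : k := (ω⁻¹) ^ ((c : ℕ) + 1) with hu
      have hzr : u ^ r = z ^ (r + 1) := by
        have g1 : z ^ (r + 1) * z ^ r = 1 := by
          rw [← pow_add, show r + 1 + r = 2 * r + 1 by ring]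
          exact hωa _
        have g2 : z ^ r * u ^ r = 1 := by
          rw [← mul_pow, hz, hu, hinv, one_pow]
        calc u ^ r = (z ^ (r + 1) * z ^ r) * u ^ r := by rw [g1, one_mul]
          _ = z ^ (r + 1) * (z ^ r * u ^ r) := by ring
          _ = z ^ (r + 1) := by rw [g2, mul_one]
      rw [hzr] at hB
      have e3 : ((m : ℕ) : k) = 2 * (r : k) + 1 := by
        rw [hr]
        push_cast
        ring
      have h4 : (m : k) * z ^ (r + 1) = 0 := by
        rw [e3]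
        linear_combination -hB
      rcases mul_eq_zero.1 h4 with h | h
      · exact hmk h
      · exact pow_ne_zero _ (pow_ne_zero _ hω0) h
  · intro i
    have h1 : Matrix.mulVec S (Matrix.mulVec (-((m : k)⁻¹ • S))
        (fun i : Fin r => (((i : ℕ) + 1 : ℕ) : k))) = (fun i : Fin r => (((i : ℕ) + 1 : ℕ) : k)) := by
      rw [Matrix.mulVec_mulVec, hright, Matrix.one_mulVec]
    have h2 := congrFun h1 i
    rw [← h2]
    rfl

end Pool.Agent.Helper805_nf
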