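import Mathlib
import Pool.Agent.Helper805_nf.Defs7

set_option autoImplicit false

namespace Pool.Agent.Helper805_nf

open Finset



/-- The indicator exponent of a set of variables. -/
noncomputable def q6_ind {a : ℕ} (A : Finset (Fin a)) : Fin a →₀ ℕ :=
  Finsupp.equivFunOnFinite.symm (fun l => if l ∈ A then 1 else 0)

theorem q6_ind_apply {a : ℕ} (A : Finset (Fin a)) (l : Fin a) :
    q6_ind A l = if l ∈ A then 1 else 0 := rfl

theorem q6_ind_univ (a : ℕ) : oneE a = q6_ind (Finset.univ : Finset (Fin a)) := by
  ext l; simp [q6_ind, oneE]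

theorem q6_coeff_mul {k : Type*} [CommRing k] {a : ℕ} (A : Finset (Fin a))
    (F G : MvPolynomial (Fin a) k) :
    MvPolynomial.coeff (q6_ind A) (F * G) =
      ∑ D ∈ A.powerset, MvPolynomial.coeff (q6_ind D) F * MvPolynomial.coeff (q6_ind (A \ D)) G := by
  classical
  rw [MvPolynomial.coeff_mul]
  symm
  apply Finset.sum_nbij' (i := fun D => (q6_ind D, q6_ind (A \ D))) (j := fun p => p.1.support)
  · intro D hD
    rw [Finset.mem_powerset] at hD
    rw [Finset.HasAntidiagonal.mem_antidiagonal]
    ext l
    simp only [Finsupp.add_apply, q6_ind_apply, Finset.mem_sdiff]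
    by_cases h1 : l ∈ A
    · by_cases h2 : l ∈ D <;> simp [h1, h2]
    · have h2 : l ∉ D := fun h => h1 (hD h)
      simp [h1, h2]
  · intro p hp
    rw [Finset.HasAntidiagonal.mem_antidiagonal] at hp
    rw [Finset.mem_powerset]
    intro l hl
    have := DFunLike.congr_fun hp l
    simp only [Finsupp.add_apply, q6_ind_apply] at this
    rw [Finsupp.mem_support_iff] at hl
    by_contra h
    rw [if_neg h] at this
    omega
  · intro D hD
    ext l
    rw [Finsupp.mem_support_iff, q6_ind_apply]
    by_cases h : l ∈ D <;> simp [h]
  · intro p hp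
    rw [Finset.HasAntidiagonal.mem_antidiagonal] at hp
    apply Prod.ext
    · ext l
      have := DFunLike.congr_fun hp l
      simp only [Finsupp.add_apply, q6_ind_apply] at this
      change p.1 l + p.2 l = _ at this
      rw [q6_ind_apply]
      by_cases h : p.1 l = 0
      · rw [if_neg (by rw [Finsupp.mem_support_iff]; exact fun h' => h' h), h]
      · rw [if_pos (Finsupp.mem_support_iff.2 h)]
        split_ifs at this <;> omega
    · ext l
      have := DFunLike.congr_fun hp l
      simp only [Finsupp.add_apply, q6_ind_apply] at this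
      change p.1 l + p.2 l = _ at this
      rw [q6_ind_apply]
      by_cases h : p.1 l = 0
      · rw [h, zero_add] at this
        rw [this]
        by_cases hA : l ∈ A
        · rw [if_pos hA, if_pos]
          rw [Finset.mem_sdiff, Finsupp.mem_support_iff]
          exact ⟨hA, fun h' => h' h⟩
        · rw [if_neg hA, if_neg]
          rw [Finset.mem_sdiff]
          exact fun h' => hA h'.1
      · rw [if_neg]
        · split_ifs at this <;> omega
        · rw [Finset.mem_sdiff, Finsupp.mem_support_iff]
          exact fun h' => h'.2 h
  · intro D hD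
    rfl

theorem q6_coeff_lf {k : Type*} [CommRing k] {a : ℕ} (z : Fin a → k) (A : Finset (Fin a)) :
    MvPolynomial.coeff (q6_ind A) (lf z) = if A.card = 1 then ∏ l ∈ A, z l else 0 := by
  classical
  unfold lf
  rw [MvPolynomial.coeff_sum]
  have h1 : ∀ l : Fin a, MvPolynomial.coeff (q6_ind A) (MvPolynomial.C (z l) * MvPolynomial.X l : MvPolynomial (Fin a) k) =
      if A = {l} then z l else 0 := by
    intro l
    rw [MvPolynomial.coeff_C_mul, MvPolynomial.coeff_X]
    have : (Finsupp.single l 1 = q6_ind A) ↔ A = {l} := by
      constructor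
      · intro h
        ext x
        have := DFunLike.congr_fun h x
        rw [q6_ind_apply, Finsupp.single_apply] at this
        rw [Finset.mem_singleton]
        by_cases hx : x ∈ A
        · rw [if_pos hx] at this
          split_ifs at this with h2
          simp [hx, h2]
        · rw [if_neg hx] at this
          split_ifs at this with h2
          simp only [hx, false_iff]
          exact fun h => h2 h.symm
      · intro h
        ext x
        rw [q6_ind_apply, Finsupp.single_apply, h]
        by_cases hx : l = x
        · simp [hx]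
        · rw [if_neg hx, if_neg (fun h => hx (Finset.mem_singleton.1 h).symm)]
    by_cases hA : A = {l}
    · rw [if_pos (this.2 hA), if_pos hA, mul_one]
    · rw [if_neg (fun h => hA (this.1 h)), if_neg hA, mul_zero]
  rw [Finset.sum_congr rfl (fun l _ => h1 l)]
  split_ifs with hc
  · obtain ⟨x, rfl⟩ := Finset.card_eq_one.1 hc
    rw [Finset.prod_singleton, Finset.sum_eq_single x]
    · rw [if_pos rfl]
    · intro b _ hb
      rw [if_neg]
      intro h
      exact hb (Finset.singleton_inj.1 h).symm
    · intro h; exact absurd (Finset.mem_univ x) h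
  · apply Finset.sum_eq_zero
    intro l _
    rw [if_neg]
    rintro rfl
    exact hc (Finset.card_singleton l)

theorem q6_coeff_lf_pow {k : Type*} [CommRing k] {a : ℕ} (z : Fin a → k) (s : ℕ) :
    ∀ A : Finset (Fin a), MvPolynomial.coeff (q6_ind A) (lf z ^ s) =
      if A.card = s then (s.factorial : k) * ∏ l ∈ A, z l else 0 := by
  classical
  induction s with
  | zero =>
    intro A
    rw [pow_zero, MvPolynomial.coeff_one]
    by_cases hA : A = ∅
    · subst hA
      have : (0 : Fin a →₀ ℕ) = q6_ind ∅ := by ext l; simp [q6_ind_apply]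
      rw [if_pos this]; simp
    · have h1 : A.card ≠ 0 := fun h => hA (Finset.card_eq_zero.1 h)
      rw [if_neg h1, if_neg]
      intro h
      apply hA
      ext l
      have := DFunLike.congr_fun h l
      rw [q6_ind_apply] at this
      simp only [Finset.notMem_empty, iff_false]
      intro hl
      rw [if_pos hl] at this
      simp at this
  | succ s ih =>
    intro A
    rw [pow_succ, q6_coeff_mul]
    have h1 : ∀ D ∈ A.powerset, MvPolynomial.coeff (q6_ind D) (lf z ^ s) * MvPolynomial.coeff (q6_ind (A \ D)) (lf z) =
        if D.card = s ∧ (A \ D).card = 1 then (s.factorial : k) * ∏ l ∈ A, z l else 0 := by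
      intro D hD
      rw [Finset.mem_powerset] at hD
      rw [ih, q6_coeff_lf]
      by_cases hc1 : D.card = s
      · by_cases hc2 : (A \ D).card = 1
        · rw [if_pos hc1, if_pos hc2, if_pos ⟨hc1, hc2⟩, mul_assoc, mul_comm (∏ l ∈ D, z l),
            Finset.prod_sdiff hD]
        · rw [if_neg hc2, mul_zero, if_neg (fun h => hc2 h.2)]
      · rw [if_neg hc1, zero_mul, if_neg (fun h => hc1 h.1)]
    rw [Finset.sum_congr rfl h1]
    split_ifs with hA
    · have h2 : ∀ D ∈ A.powerset, (if D.card = s ∧ (A \ D).card = 1 then (s.factorial : k) * ∏ l ∈ A, z l else 0) =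
          if D.card = s then (s.factorial : k) * ∏ l ∈ A, z l else 0 := by
        intro D hD
        rw [Finset.mem_powerset] at hD
        by_cases hc1 : D.card = s
        · rw [if_pos hc1, if_pos]
          refine ⟨hc1, ?_⟩
          rw [Finset.card_sdiff_of_subset hD, hA, hc1]; omega
        · rw [if_neg hc1, if_neg (fun h => hc1 h.1)]
      rw [Finset.sum_congr rfl h2, ← Finset.sum_filter, ← Finset.powersetCard_eq_filter,
        Finset.sum_const, Finset.card_powersetCard, hA, Nat.choose_succ_self_right, nsmul_eq_mul,
        Nat.factorial_succ]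
      push_cast
      ring
    · apply Finset.sum_eq_zero
      intro D hD
      rw [Finset.mem_powerset] at hD
      rw [if_neg]
      rintro ⟨hc1, hc2⟩
      rw [Finset.card_sdiff_of_subset hD] at hc2
      apply hA
      have := Finset.card_le_card hD
      omega

/-- Product of the restricted coefficients over a set. -/
theorem q6_prod_restr {k : Type*} [CommRing k] {a : ℕ} (cls : Fin a → ℕ) (c : ℕ) (z : Fin a → k)
    (A : Finset (Fin a)) :
    (∏ l ∈ A, (if cls l = c then z l else 0)) =
      if (∀ l ∈ A, cls l = c) then ∏ l ∈ A, z l else 0 := by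
  classical
  split_ifs with h
  · exact Finset.prod_congr rfl (fun l hl => if_pos (h l hl))
  · push Not at h
    obtain ⟨l, hl, hc⟩ := h
    exact Finset.prod_eq_zero hl (if_neg hc)

theorem q6_coeff_cls_pow {k : Type*} [CommRing k] {a : ℕ} (cls : Fin a → ℕ) (c : ℕ) (z : Fin a → k)
    (s : ℕ) (A : Finset (Fin a)) :
    MvPolynomial.coeff (q6_ind A) (lf (fun l => if cls l = c then z l else 0) ^ s) =
      if A.card = s ∧ (∀ l ∈ A, cls l = c) then (s.factorial : k) * ∏ l ∈ A, z l else 0 := by
  rw [q6_coeff_lf_pow, q6_prod_restr]
  by_cases h1 : A.card = s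
  · by_cases h2 : (∀ l ∈ A, cls l = c)
    · rw [if_pos h1, if_pos h2, if_pos ⟨h1, h2⟩]
    · rw [if_pos h1, if_neg h2, if_neg (fun h => h2 h.2), mul_zero]
  · rw [if_neg h1, if_neg (fun h => h1 h.1)]


/-- The key formula at an arbitrary indicator exponent. -/
theorem q6_key {k : Type*} [Field k] (s a : ℕ) (cls : Fin a → ℕ) (ε β : Fin a → k) (w : ℕ → k)
    (C : Finset ℕ) : 0 ∉ C → ∀ (t : ℕ) (A : Finset (Fin a)),
    MvPolynomial.coeff (q6_ind A) ((lf (fun l => if cls l = 0 then β l else 0)) ^ t *
      ∏ c ∈ C, (lf (fun l => if cls l = c then ε l else 0) +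
        MvPolynomial.C (w c) * lf (fun l => if cls l = 0 then β l else 0)) ^ s) =
      if A.card = t + s * C.card ∧ (∀ l ∈ A, cls l = 0 ∨ cls l ∈ C) then
      (((A.filter (fun l => cls l = 0)).card.factorial : k) * (∏ l ∈ A.filter (fun l => cls l = 0), β l) *
        ∏ c ∈ C, (((A.filter (fun l => cls l = c)).card.factorial : k) *
          (s.choose (A.filter (fun l => cls l = c)).card : k) *
          (w c) ^ (s - (A.filter (fun l => cls l = c)).card) *
          ∏ l ∈ A.filter (fun l => cls l = c), ε l)) else 0 := by
  classical
  induction C using Finset.induction_on with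
  | empty =>
    intro _ t A
    rw [Finset.prod_empty, mul_one, q6_coeff_cls_pow]
    by_cases h : A.card = t ∧ ∀ l ∈ A, cls l = 0
    · rw [if_pos h, if_pos]
      · have : A.filter (fun l => cls l = 0) = A := Finset.filter_true_of_mem h.2
        rw [this, h.1, Finset.prod_empty, mul_one]
      · simp only [Finset.card_empty, mul_zero, add_zero]
        exact ⟨h.1, fun l hl => Or.inl (h.2 l hl)⟩
    · rw [if_neg h, if_neg]
      rintro ⟨h1, h2⟩
      apply h
      simp only [Finset.card_empty, mul_zero, add_zero, Finset.notMem_empty, or_false] at h1 h2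
      exact ⟨h1, h2⟩
  | insert c' C hc' ih =>
    intro h0 t A
    have hc0 : c' ≠ 0 := fun h => h0 (by rw [h]; exact Finset.mem_insert_self _ _)
    have h0C : 0 ∉ C := fun h => h0 (Finset.mem_insert_of_mem h)
    rw [Finset.prod_insert hc']
    set B : MvPolynomial (Fin a) k := lf (fun l => if cls l = 0 then β l else 0) with hB
    set T : MvPolynomial (Fin a) k := lf (fun l => if cls l = c' then ε l else 0) with hT
    set P : MvPolynomial (Fin a) k := ∏ c ∈ C, (lf (fun l => if cls l = c then ε l else 0) +
        MvPolynomial.C (w c) * B) ^ s with hP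
    have e1 : B ^ t * ((T + MvPolynomial.C (w c') * B) ^ s * P) =
        ∑ j ∈ Finset.range (s + 1), MvPolynomial.C ((s.choose j : k) * (w c') ^ (s - j)) * (T ^ j * (B ^ (t + (s - j)) * P)) := by
      rw [add_pow, Finset.sum_mul, Finset.mul_sum]
      apply Finset.sum_congr rfl
      intro j _
      rw [mul_pow, ← MvPolynomial.C_pow, MvPolynomial.C_mul, pow_add, map_natCast]
      ring
    rw [e1, MvPolynomial.coeff_sum]
    have e2 : ∀ j ∈ Finset.range (s + 1),
        MvPolynomial.coeff (q6_ind A) (MvPolynomial.C ((s.choose j : k) * (w c') ^ (s - j)) *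
          (T ^ j * (B ^ (t + (s - j)) * P))) =
        (if j = (A.filter (fun l => cls l = c')).card then
          (((s.choose j : k) * (w c') ^ (s - j)) * (((A.filter (fun l => cls l = c')).card.factorial : k) *
            (∏ l ∈ A.filter (fun l => cls l = c'), ε l) *
            MvPolynomial.coeff (q6_ind (A \ A.filter (fun l => cls l = c'))) (B ^ (t + (s - j)) * P))) else 0) := by
      intro j _
      rw [MvPolynomial.coeff_C_mul, q6_coeff_mul, Finset.sum_eq_single (A.filter (fun l => cls l = c'))]
      · rw [hT, q6_coeff_cls_pow]
        by_cases hj : j = (A.filter (fun l => cls l = c')).card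
        · rw [if_pos ⟨hj.symm, fun l hl => (Finset.mem_filter.1 hl).2⟩, if_pos hj]
          conv_lhs => rw [hj]
          conv_rhs => rw [hj]
        · rw [if_neg (fun h => hj h.1.symm), if_neg hj, zero_mul, mul_zero]
      · intro D hD hne
        rw [Finset.mem_powerset] at hD
        rw [hT, q6_coeff_cls_pow]
        by_cases h1 : D.card = j ∧ ∀ l ∈ D, cls l = c'
        · rw [ih h0C, if_neg (c := (A \ D).card = _ ∧ _), mul_zero]
          rintro ⟨_, h2⟩
          apply hne
          apply Finset.Subset.antisymm
          · intro l hl
            exact Finset.mem_filter.2 ⟨hD hl, h1.2 l hl⟩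
          · intro l hl
            rw [Finset.mem_filter] at hl
            by_contra hlD
            rcases h2 l (Finset.mem_sdiff.2 ⟨hl.1, hlD⟩) with h3 | h3
            · exact hc0 (hl.2 ▸ h3)
            · exact hc' (hl.2 ▸ h3)
        · rw [if_neg h1, zero_mul]
      · intro h
        exact absurd (Finset.mem_powerset.2 (Finset.filter_subset _ _)) h
    rw [Finset.sum_congr rfl e2, Finset.sum_ite_eq' (Finset.range (s+1)) (A.filter (fun l => cls l = c')).card]
    set N := (A.filter (fun l => cls l = c')).card with hN
    have hNA : N + (A \ A.filter (fun l => cls l = c')).card = A.card := by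
      rw [Finset.card_sdiff_of_subset (Finset.filter_subset _ _), ← hN]
      have := Finset.card_le_card (Finset.filter_subset (fun l => cls l = c') A)
      omega
    have hf : ∀ c, c ≠ c' → (A \ A.filter (fun l => cls l = c')).filter (fun l => cls l = c) =
        A.filter (fun l => cls l = c) := by
      intro c hc
      ext l
      simp only [Finset.mem_filter, Finset.mem_sdiff, not_and]
      constructor
      · rintro ⟨⟨h1, _⟩, h2⟩
        exact ⟨h1, h2⟩
      · rintro ⟨h1, h2⟩
        exact ⟨⟨h1, fun _ h3 => hc (h2.symm.trans h3)⟩, h2⟩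
    rw [Finset.card_insert_of_notMem hc']
    by_cases hNs : N ∈ Finset.range (s + 1)
    · rw [if_pos hNs, ih h0C]
      rw [Finset.mem_range] at hNs
      by_cases hcond : A.card = t + s * (C.card + 1) ∧ (∀ l ∈ A, cls l = 0 ∨ cls l ∈ insert c' C)
      · rw [if_pos hcond, if_pos, Finset.prod_insert hc']
        · rw [hf 0 (fun h => hc0 h.symm)]
          have : ∀ c ∈ C, ((((A \ A.filter (fun l => cls l = c')).filter (fun l => cls l = c)).card.factorial : k) *
            (s.choose ((A \ A.filter (fun l => cls l = c')).filter (fun l => cls l = c)).card : k) *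
            (w c) ^ (s - ((A \ A.filter (fun l => cls l = c')).filter (fun l => cls l = c)).card) *
            ∏ l ∈ (A \ A.filter (fun l => cls l = c')).filter (fun l => cls l = c), ε l) =
            (((A.filter (fun l => cls l = c)).card.factorial : k) *
            (s.choose (A.filter (fun l => cls l = c)).card : k) *
            (w c) ^ (s - (A.filter (fun l => cls l = c)).card) *
            ∏ l ∈ A.filter (fun l => cls l = c), ε l) := by
            intro c hc
            rw [hf c (fun h => hc' (h ▸ hc))]
          rw [Finset.prod_congr rfl this, ← hN]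
          ring
        · refine ⟨?_, ?_⟩
          · have := hcond.1
            rw [mul_add, mul_one] at this
            omega
          · intro l hl
            rw [Finset.mem_sdiff, Finset.mem_filter, not_and] at hl
            rcases hcond.2 l hl.1 with h | h
            · exact Or.inl h
            · rw [Finset.mem_insert] at h
              rcases h with h | h
              · exact absurd h (hl.2 hl.1)
              · exact Or.inr h
      · rw [if_neg hcond, if_neg, mul_zero, mul_zero]
        rintro ⟨h1, h2⟩
        apply hcond
        refine ⟨?_, ?_⟩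
        · rw [mul_add, mul_one]
          omega
        · intro l hl
          by_cases hl' : cls l = c'
          · right; rw [hl']; exact Finset.mem_insert_self _ _
          · rcases h2 l (Finset.mem_sdiff.2 ⟨hl, fun h => hl' (Finset.mem_filter.1 h).2⟩) with h | h
            · exact Or.inl h
            · exact Or.inr (Finset.mem_insert_of_mem h)
    · rw [if_neg hNs, Finset.prod_insert hc', ← hN]
      rw [Finset.mem_range, not_lt] at hNs
      have : s.choose N = 0 := Nat.choose_eq_zero_of_lt (by omega)
      rw [this]
      simp

theorem beta_top {k : Type*} [Field k] (s q r a W : ℕ) (cls : Fin a → ℕ) (ε β : Fin a → k) (w : ℕ → k)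
    (hcls : ∀ l, cls l ≤ r) (hcard : ∀ c ∈ Finset.Icc 1 r, (Finset.univ.filter (fun l => cls l = c)).card ≤ s)
    (hW : (Finset.univ.filter (fun l => cls l = 0)).card = W)
    (hq : W = q + ∑ c ∈ Finset.Icc 1 r, (s - (Finset.univ.filter (fun l => cls l = c)).card)) :
    (∀ (e : ℕ) (H : MvPolynomial (Fin a) k), W < e →
      MvPolynomial.coeff (oneE a) ((lf (fun l => if cls l = 0 then β l else 0)) ^ e * H) = 0) ∧
    MvPolynomial.coeff (oneE a) ((lf (fun l => if cls l = 0 then β l else 0)) ^ q *
      ∏ c ∈ Finset.Icc 1 r, (lf (fun l => if cls l = c then ε l else 0) +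
        MvPolynomial.C (w c) * lf (fun l => if cls l = 0 then β l else 0)) ^ s) =
      (W.factorial : k) * (∏ l ∈ Finset.univ.filter (fun l => cls l = 0), β l) *
        ∏ c ∈ Finset.Icc 1 r, (((Finset.univ.filter (fun l => cls l = c)).card.factorial : k) *
          (s.choose (Finset.univ.filter (fun l => cls l = c)).card : k) *
          (w c) ^ (s - (Finset.univ.filter (fun l => cls l = c)).card) *
          ∏ l ∈ Finset.univ.filter (fun l => cls l = c), ε l) := by
  classical
  rw [q6_ind_univ]
  constructor
  · intro e H he
    rw [q6_coeff_mul]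
    apply Finset.sum_eq_zero
    intro D _
    rw [q6_coeff_cls_pow, if_neg, zero_mul]
    rintro ⟨h1, h2⟩
    have : D ⊆ Finset.univ.filter (fun l => cls l = 0) := fun l hl =>
      Finset.mem_filter.2 ⟨Finset.mem_univ l, h2 l hl⟩
    have := Finset.card_le_card this
    omega
  · rw [q6_key s a cls ε β w (Finset.Icc 1 r) (by simp) q Finset.univ, if_pos, hW]
    refine ⟨?_, ?_⟩
    · have h1 : ∑ c ∈ Finset.range (r + 1), (Finset.univ.filter (fun l => cls l = c)).card =
          (Finset.univ : Finset (Fin a)).card := by
        symm
        apply Finset.card_eq_sum_card_fiberwise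
        intro l _
        simp only [Finset.coe_range, Set.mem_Iio]
        have := hcls l
        omega
      have h2 : Finset.range (r + 1) = insert 0 (Finset.Icc 1 r) := by
        ext x
        simp only [Finset.mem_range, Finset.mem_insert, Finset.mem_Icc]
        omega
      rw [h2, Finset.sum_insert (by simp), hW] at h1
      rw [← h1, hq, add_assoc, ← Finset.sum_add_distrib]
      have h3 : ∀ c ∈ Finset.Icc 1 r, (s - (Finset.univ.filter (fun l => cls l = c)).card) +
          (Finset.univ.filter (fun l => cls l = c)).card = s := fun c hc =>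
        Nat.sub_add_cancel (hcard c hc)
      rw [Finset.sum_congr rfl h3, Finset.sum_const, smul_eq_mul, mul_comm s]
    · intro l _
      by_cases h : cls l = 0
      · exact Or.inl h
      · right
        rw [Finset.mem_Icc]
        have := hcls l
        omega

end Pool.Agent.Helper805_nf
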