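import Mathlib
import Pool.Agent.Helper805_nf.Defs7

set_option autoImplicit false

namespace Pool.Agent.Helper805_nf

open Finset



theorem q7_poly (p : ℕ) [Fact p.Prime] :
    ∏ y ∈ (Finset.univ : Finset (ZMod p)).erase 0,
      (Polynomial.X - Polynomial.C y : Polynomial (ZMod p)) = Polynomial.X ^ (p - 1) - 1 := by
  have hp : 1 < p := (Fact.out : p.Prime).one_lt
  have hcard : Fintype.card (ZMod p) = p := ZMod.card p
  have hroots : (Polynomial.X ^ p - Polynomial.X : Polynomial (ZMod p)).roots =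
      Finset.univ.val := by
    have := FiniteField.roots_X_pow_card_sub_X (ZMod p)
    rwa [hcard] at this
  have hdeg : (Polynomial.X ^ p - Polynomial.X : Polynomial (ZMod p)).natDegree = p :=
    FiniteField.X_pow_card_sub_X_natDegree_eq (ZMod p) hp
  have hmonic : (Polynomial.X ^ p - Polynomial.X : Polynomial (ZMod p)).Monic := by
    apply Polynomial.monic_X_pow_sub
    rw [Polynomial.degree_X]
    exact_mod_cast hp
  have hprod := Polynomial.prod_multiset_X_sub_C_of_monic_of_roots_card_eq hmonic (by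
    rw [hroots, hdeg]
    simp [hcard])
  rw [hroots] at hprod
  have h1 : ∏ y : ZMod p, (Polynomial.X - Polynomial.C y : Polynomial (ZMod p)) =
      Polynomial.X ^ p - Polynomial.X := hprod
  rw [← Finset.mul_prod_erase Finset.univ _ (Finset.mem_univ (0 : ZMod p))] at h1
  rw [Polynomial.C_0, sub_zero] at h1
  have h2 : (Polynomial.X ^ p - Polynomial.X : Polynomial (ZMod p)) =
      Polynomial.X * (Polynomial.X ^ (p - 1) - 1) := by
    rw [mul_sub, mul_one, ← pow_succ', Nat.sub_add_cancel hp.le]
  rw [h2] at h1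
  exact mul_left_cancel₀ Polynomial.X_ne_zero h1

theorem q7_field {K : Type*} [Field K] (p : ℕ) [Fact p.Prime] (g : ZMod p →+* K) (a b : K)
    (hb : b ≠ 0) :
    ∏ y ∈ (Finset.univ : Finset (ZMod p)).erase 0, (a - g y * b) = a ^ (p - 1) - b ^ (p - 1) := by
  have h := congrArg (Polynomial.eval₂ g (a / b)) (q7_poly p)
  rw [Polynomial.eval₂_finsetProd] at h
  simp only [Polynomial.eval₂_sub, Polynomial.eval₂_X, Polynomial.eval₂_C, Polynomial.eval₂_pow,
    Polynomial.eval₂_one] at h
  have hcard : ((Finset.univ : Finset (ZMod p)).erase 0).card = p - 1 := by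
    rw [Finset.card_erase_of_mem (Finset.mem_univ _), Finset.card_univ, ZMod.card]
  calc ∏ y ∈ (Finset.univ : Finset (ZMod p)).erase 0, (a - g y * b)
      = ∏ y ∈ (Finset.univ : Finset (ZMod p)).erase 0, ((a / b - g y) * b) := by
        apply Finset.prod_congr rfl
        intro y _
        rw [sub_mul, div_mul_cancel₀ _ hb]
    _ = (∏ y ∈ (Finset.univ : Finset (ZMod p)).erase 0, (a / b - g y)) * b ^ (p - 1) := by
        rw [Finset.prod_mul_distrib, Finset.prod_const, hcard]
    _ = ((a / b) ^ (p - 1) - 1) * b ^ (p - 1) := by rw [h]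
    _ = a ^ (p - 1) - b ^ (p - 1) := by
        rw [sub_mul, one_mul, div_pow, div_mul_cancel₀ _ (pow_ne_zero _ hb)]

theorem q7_mv (p : ℕ) [Fact p.Prime] :
    ∏ y ∈ (Finset.univ : Finset (ZMod p)).erase 0,
      (MvPolynomial.X 0 - MvPolynomial.C y * MvPolynomial.X 1 : MvPolynomial (Fin 2) (ZMod p)) =
      MvPolynomial.X 0 ^ (p - 1) - MvPolynomial.X 1 ^ (p - 1) := by
  let D := MvPolynomial (Fin 2) (ZMod p)
  let K := FractionRing D
  have hinj : Function.Injective (algebraMap D K) := IsFractionRing.injective D K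
  apply hinj
  have hb : algebraMap D K (MvPolynomial.X 1) ≠ 0 := by
    intro h
    rw [← map_zero (algebraMap D K)] at h
    exact MvPolynomial.X_ne_zero (R := ZMod p) (1 : Fin 2) (hinj h)
  have h := q7_field p ((algebraMap D K).comp MvPolynomial.C)
    (algebraMap D K (MvPolynomial.X 0)) (algebraMap D K (MvPolynomial.X 1)) hb
  rw [map_prod]
  simp only [map_sub, map_mul, map_pow]
  exact h

theorem q7_ring {R : Type*} [CommRing R] (p : ℕ) [Fact p.Prime] (g : ZMod p →+* R) (a b : R) :
    ∏ y ∈ (Finset.univ : Finset (ZMod p)).erase 0, (a - g y * b) = a ^ (p - 1) - b ^ (p - 1) := by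
  have h := congrArg (MvPolynomial.eval₂Hom g ![a, b]) (q7_mv p)
  rw [map_prod] at h
  simpa using h

theorem type_prod {R : Type*} [CommRing R] (p : ℕ) (hp : p.Prime) [CharP R p] (A B : R) (u : ℕ) :
    ∏ x ∈ (Finset.range p).filter (fun x => ¬ x ≡ u [MOD p]), (A + (x : R) * B) =
      (A + (u : R) * B) ^ (p - 1) - B ^ (p - 1) := by
  have : Fact p.Prime := ⟨hp⟩
  rw [← q7_ring p (ZMod.castHom (dvd_refl p) R) (A + (u : R) * B) B]
  symm
  refine Finset.prod_bij (fun (y : ZMod p) _ => ((u : ZMod p) - y).val) ?_ ?_ ?_ ?_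
  · intro y hy
    rw [Finset.mem_filter, Finset.mem_range]
    refine ⟨ZMod.val_lt _, ?_⟩
    intro h
    rw [← ZMod.natCast_eq_natCast_iff, ZMod.natCast_zmod_val] at h
    have : y = 0 := by
      have h2 : (u : ZMod p) - y = (u : ZMod p) - 0 := by rw [h, sub_zero]
      exact sub_right_injective h2
    exact (Finset.mem_erase.mp hy).1 this
  · intro y hy z hz h
    have h2 := ZMod.val_injective p h
    exact sub_right_injective h2
  · intro x hx
    rw [Finset.mem_filter, Finset.mem_range] at hx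
    refine ⟨(u : ZMod p) - (x : ZMod p), ?_, ?_⟩
    · rw [Finset.mem_erase]
      refine ⟨?_, Finset.mem_univ _⟩
      intro h
      apply hx.2
      rw [← ZMod.natCast_eq_natCast_iff]
      exact (sub_eq_zero.mp h).symm
    · rw [sub_sub_cancel, ZMod.val_cast_of_lt hx.1]
  · intro y hy
    have h1 : ((((u : ZMod p) - y).val : ℕ) : R) =
        ZMod.castHom (dvd_refl p) R ((((u : ZMod p) - y).val : ℕ) : ZMod p) := by
      rw [map_natCast]
    rw [h1, ZMod.natCast_zmod_val, map_sub, map_natCast]
    ring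

end Pool.Agent.Helper805_nf
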