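import Mathlib
import Pool.Agent.Helper805_nf.Defs7

set_option autoImplicit false

namespace Pool.Agent.Helper805_nf

open Finset



theorem q8_sign (m x : ℕ) : sgm m x = 1 ∨ sgm m x = -1 := by
  unfold sgm
  split_ifs <;> simp

theorem q8_modeq (m x : ℕ) (hm : 0 < m) :
    (m : ℤ) ∣ sgm m x * (x : ℤ) - (clm m x : ℤ) := by
  have hlt : x % m < m := Nat.mod_lt _ hm
  have hx : (x : ℤ) = (m : ℤ) * ((x / m : ℕ) : ℤ) + ((x % m : ℕ) : ℤ) := by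
    exact_mod_cast (Nat.div_add_mod x m).symm
  unfold sgm clm
  split_ifs with h
  · refine ⟨((x / m : ℕ) : ℤ), ?_⟩
    linarith
  · refine ⟨-((x / m : ℕ) : ℤ) - 1, ?_⟩
    rw [Nat.cast_sub hlt.le]
    linear_combination (-1 : ℤ) * hx

theorem q8_zero (m x : ℕ) (hm : 0 < m) : clm m x = 0 ↔ m ∣ x := by
  have hlt : x % m < m := Nat.mod_lt _ hm
  unfold clm
  rw [Nat.dvd_iff_mod_eq_zero]
  split_ifs with h
  · exact Iff.rfl
  · constructor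
    · intro h'
      omega
    · intro h'
      omega

theorem q8_lt (m x : ℕ) (hm : Odd m) : 2 * clm m x < m := by
  obtain ⟨c, hc⟩ := hm
  have hlt : x % m < m := Nat.mod_lt _ (by omega)
  unfold clm
  split_ifs with h
  · exact h
  · omega

theorem q8_zpow {k : Type*} [Field k] (m : ℕ) (ω : k) (hω : IsPrimitiveRoot ω m)
    (h0 : ω ≠ 0) (x y : ℤ) (h : (m : ℤ) ∣ x - y) : ω ^ x = ω ^ y := by
  obtain ⟨c, hc⟩ := h
  have hx : x = (m : ℤ) * c + y := by linarith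
  rw [hx, zpow_add₀ h0, zpow_mul, zpow_natCast, hω.pow_eq_one, one_zpow, one_mul]

theorem entry_signs {k : Type*} [Field k] (m : ℕ) (hm : Odd m) (ω : k) (hω : IsPrimitiveRoot ω m) (j d : ℕ) :
    ω ^ (j * d) - (ω⁻¹) ^ (j * d) = ((sgm m j * sgm m d : ℤ) : k) *
      (ω ^ (clm m j * clm m d) - (ω⁻¹) ^ (clm m j * clm m d)) ∧
    (clm m j = 0 ↔ m ∣ j) ∧ 2 * clm m j < m ∧ (sgm m j = 1 ∨ sgm m j = -1) ∧
    (m : ℤ) ∣ sgm m j * (j : ℤ) - (clm m j : ℤ) := by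
  have hm0 : 0 < m := hm.pos
  have hω0 : ω ≠ 0 := hω.ne_zero hm0.ne'
  refine ⟨?_, q8_zero m j hm0, q8_lt m j hm, q8_sign m j, q8_modeq m j hm0⟩
  have hj := q8_modeq m j hm0
  have hd := q8_modeq m d hm0
  -- sgm j * sgm d * (j d) ≡ clm j * clm d
  have key : (m : ℤ) ∣ (sgm m j * sgm m d) * ((j * d : ℕ) : ℤ) - ((clm m j * clm m d : ℕ) : ℤ) := by
    obtain ⟨a, ha⟩ := hj
    obtain ⟨b, hb⟩ := hd
    refine ⟨a * (sgm m d * d) + (clm m j) * b, ?_⟩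
    push_cast
    linear_combination (sgm m d * (d : ℤ)) * ha + (clm m j : ℤ) * hb
  have e1 : ω ^ (j * d) = ω ^ (((j * d : ℕ)) : ℤ) := (zpow_natCast _ _).symm
  have e2 : (ω⁻¹) ^ (j * d) = ω ^ (-((j * d : ℕ) : ℤ)) := by
    rw [zpow_neg, zpow_natCast, inv_pow]
  have e3 : ω ^ (clm m j * clm m d) = ω ^ ((clm m j * clm m d : ℕ) : ℤ) := (zpow_natCast _ _).symm
  have e4 : (ω⁻¹) ^ (clm m j * clm m d) = ω ^ (-((clm m j * clm m d : ℕ) : ℤ)) := by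
    rw [zpow_neg, zpow_natCast, inv_pow]
  rw [e1, e2, e3, e4]
  have hs : sgm m j * sgm m d = 1 ∨ sgm m j * sgm m d = -1 := by
    rcases q8_sign m j with h1 | h1 <;> rcases q8_sign m d with h2 | h2 <;> rw [h1, h2] <;> simp
  rcases hs with hs | hs
  · rw [hs] at key ⊢
    rw [one_mul] at key
    rw [q8_zpow m ω hω hω0 _ _ key, q8_zpow m ω hω hω0 (-((j * d : ℕ) : ℤ)) (-((clm m j * clm m d : ℕ) : ℤ))]
    · simp
    · obtain ⟨c, hc⟩ := key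
      exact ⟨-c, by linarith⟩
  · rw [hs] at key ⊢
    rw [q8_zpow m ω hω hω0 ((j * d : ℕ) : ℤ) (-((clm m j * clm m d : ℕ) : ℤ)),
      q8_zpow m ω hω hω0 (-((j * d : ℕ) : ℤ)) (((clm m j * clm m d : ℕ) : ℤ))]
    · push_cast
      ring
    · obtain ⟨c, hc⟩ := key
      exact ⟨c, by linarith⟩
    · obtain ⟨c, hc⟩ := key
      exact ⟨-c, by linarith⟩

end Pool.Agent.Helper805_nf
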