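import Mathlib
import Pool.Agent.Helper805_nf.Defs7
import Pool.Agent.Helper805_nf.Q1b
import Pool.Agent.Helper805_nf.Q2
import Pool.Agent.Helper805_nf.Q3
import Pool.Agent.Helper805_nf.Q4
import Pool.Agent.Helper805_nf.Q6
import Pool.Agent.Helper805_nf.Q7
import Pool.Agent.Helper805_nf.Q8

set_option autoImplicit false

namespace Pool.Agent.Helper805_nf

open Finset













theorem q10_lf_add {k : Type*} [CommRing k] {a : ℕ} (z1 z2 : Fin a → k) :
    lf z1 + lf z2 = lf (fun l => z1 l + z2 l) := by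
  unfold lf
  rw [← Finset.sum_add_distrib]
  refine Finset.sum_congr rfl fun l _ => ?_
  rw [map_add]
  ring

theorem q10_lf_smul {k : Type*} [CommRing k] {a : ℕ} (s : k) (z : Fin a → k) :
    MvPolynomial.C s * lf z = lf (fun l => s * z l) := by
  unfold lf
  rw [Finset.mul_sum]
  refine Finset.sum_congr rfl fun l _ => ?_
  rw [map_mul]
  ring

theorem q10_lf_sum {k : Type*} [CommRing k] {a : ℕ} {ι : Type*} (s : Finset ι) (z : ι → Fin a → k) :
    ∑ i ∈ s, lf (z i) = lf (fun l => ∑ i ∈ s, z i l) := by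
  unfold lf
  rw [Finset.sum_comm]
  refine Finset.sum_congr rfl fun l _ => ?_
  rw [map_sum, Finset.sum_mul]

/-- the linear form of the class zero -/
noncomputable def q10B {k : Type*} [Field k] (m : ℕ) {a : ℕ} (e : Fin a → ℕ) : MvPolynomial (Fin a) k :=
  lf (fun l => if clm m (e l) = 0 then (e l : k) else 0)

/-- the linear form of a nonzero class -/
noncomputable def q10T {k : Type*} [Field k] (m : ℕ) {a : ℕ} (e : Fin a → ℕ) (c : ℕ) :
    MvPolynomial (Fin a) k :=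
  lf (fun l => if clm m (e l) = c then ((sgm m (e l) : ℤ) : k) else 0)

/-- the form of the class of a column -/
noncomputable def q10A {k : Type*} [Field k] (m r : ℕ) (ω : k) {a : ℕ} (e : Fin a → ℕ) (d : ℕ) :
    MvPolynomial (Fin a) k :=
  ∑ c ∈ Finset.Icc 1 r, MvPolynomial.C (ω ^ (d * c) - (ω⁻¹) ^ (d * c)) * q10T m e c

theorem q10_A_zero {k : Type*} [Field k] (m r : ℕ) (ω : k) {a : ℕ} (e : Fin a → ℕ) :
    q10A m r ω e 0 = 0 := by
  unfold q10A
  refine Finset.sum_eq_zero fun c _ => ?_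
  simp

theorem q10_col {k : Type*} [Field k] (m r : ℕ) (hr : m = 2 * r + 1) (ω : k)
    (hω : IsPrimitiveRoot ω m) {a : ℕ} (e : Fin a → ℕ) (κ : ℕ) :
    lf (fun l => if m ∣ e l then ((κ * e l : ℕ) : k) else ω ^ (κ * e l) - (ω⁻¹) ^ (κ * e l)) =
      MvPolynomial.C (κ : k) * q10B m e + MvPolynomial.C ((sgm m κ : ℤ) : k) * q10A m r ω e (clm m κ) := by
  have hm : Odd m := ⟨r, hr⟩
  unfold q10A q10B q10T
  simp only [q10_lf_smul, q10_lf_sum, q10_lf_add]
  congr 1
  ext l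
  obtain ⟨h1, h2, h3, h4, h5⟩ := entry_signs (k := k) m hm ω hω κ (e l)
  obtain ⟨-, g2, g3, g4, -⟩ := entry_signs (k := k) m hm ω hω (e l) 1
  by_cases hl : m ∣ e l
  · have h0 : clm m (e l) = 0 := g2.2 hl
    rw [if_pos hl, h0, if_pos rfl]
    have : ∑ i ∈ Finset.Icc 1 r, (ω ^ (clm m κ * i) - ω⁻¹ ^ (clm m κ * i)) *
        (if (0 : ℕ) = i then ((sgm m (e l) : ℤ) : k) else 0) = 0 := by
      refine Finset.sum_eq_zero fun c hc => ?_
      rw [Finset.mem_Icc] at hc
      rw [if_neg (by omega), mul_zero]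
    rw [this]
    push_cast
    ring
  · have h0 : clm m (e l) ≠ 0 := fun h => hl (g2.1 h)
    rw [if_neg hl, if_neg h0, mul_zero, zero_add]
    have hmem : clm m (e l) ∈ Finset.Icc 1 r := by
      rw [Finset.mem_Icc]; omega
    have : ∑ i ∈ Finset.Icc 1 r, (ω ^ (clm m κ * i) - ω⁻¹ ^ (clm m κ * i)) *
        (if clm m (e l) = i then ((sgm m (e l) : ℤ) : k) else 0) =
        (ω ^ (clm m κ * clm m (e l)) - ω⁻¹ ^ (clm m κ * clm m (e l))) * ((sgm m (e l) : ℤ) : k) := by
      rw [Finset.sum_eq_single_of_mem _ hmem]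
      · rw [if_pos rfl]
      · intro b _ hb
        rw [if_neg (fun h => hb h.symm), mul_zero]
    rw [this, h1]
    push_cast
    ring

theorem q10_expand {R ι : Type*} [CommRing R] (s : Finset ι) (u : ι → R) (b : R) :
    ∃ H : R, ∏ i ∈ s, (u i - b) = ∏ i ∈ s, u i + b * H := by
  classical
  induction s using Finset.induction_on with
  | empty => exact ⟨0, by simp⟩
  | insert i s hi ih =>
    obtain ⟨H, hH⟩ := ih
    refine ⟨u i * H - ∏ i ∈ s, u i - b * H, ?_⟩
    rw [Finset.prod_insert hi, Finset.prod_insert hi, hH]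
    ring

theorem q10_cast_ne {k : Type*} [Field k] (p : ℕ) [CharP k p] (x : ℕ) (h : ¬ p ∣ x) : (x : k) ≠ 0 :=
  fun h0 => h ((CharP.cast_eq_zero_iff k p x).1 h0)

theorem q10_sgm_ne {k : Type*} [Field k] (m x : ℕ) : ((sgm m x : ℤ) : k) ≠ 0 := by
  unfold sgm
  split_ifs <;> simp

theorem q10_sgm_sq {k : Type*} [Field k] (m x : ℕ) :
    ((sgm m x : ℤ) : k) * ((sgm m x : ℤ) : k) = 1 := by
  unfold sgm
  split_ifs <;> simp

theorem q10_mult_eq (m r q n : ℕ) (hr : m = 2 * r + 1) (hn : n = m * q + r) :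
    (Finset.Icc (r + 1) n).filter (fun κ => m ∣ κ) = (Finset.Icc 1 q).image (fun i => m * i) := by
  ext x
  simp only [Finset.mem_filter, Finset.mem_Icc, Finset.mem_image]
  constructor
  · rintro ⟨⟨h1, h2⟩, i, rfl⟩
    refine ⟨i, ⟨?_, ?_⟩, rfl⟩
    · rcases Nat.eq_zero_or_pos i with h | h
      · subst h; omega
      · exact h
    · by_contra hcon
      have : m * (q + 1) ≤ m * i := Nat.mul_le_mul_left m (by omega)
      have h3 : m * (q + 1) = m * q + m := by ring
      omega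
  · rintro ⟨i, ⟨h1, h2⟩, rfl⟩
    have h3 : m * 1 ≤ m * i := Nat.mul_le_mul_left m h1
    have h4 : m * i ≤ m * q := Nat.mul_le_mul_left m h2
    exact ⟨⟨by omega, by omega⟩, dvd_mul_right m i⟩

theorem q10_prod {k : Type*} [Field k] (p : ℕ) (hp : p.Prime) [CharP k p] (m r q n a : ℕ)
    (hpm : ¬ p ∣ m) (hr : m = 2 * r + 1) (hq : p = 2 * q + 1) (hn : n = r * p + q) (ha : a + r = n) (ω : k)
    (hω : IsPrimitiveRoot ω m) (e : Fin a → ℕ) :
    ∃ K : k, K ≠ 0 ∧ ∏ j : Fin a, lf (fun l => if m ∣ e l then ((((j : ℕ) + (r + 1)) * e l : ℕ) : k)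
      else ω ^ (((j : ℕ) + (r + 1)) * e l) - (ω⁻¹) ^ (((j : ℕ) + (r + 1)) * e l)) =
      MvPolynomial.C K * (q10B m e ^ q * ∏ c ∈ Finset.Icc 1 r,
        ((q10A m r ω e c + (c : MvPolynomial (Fin a) k) * q10B m e) ^ (p - 1) - q10B m e ^ (p - 1))) := by
  have hnq : n = m * q + r := by rw [hn, hq, hr]; ring
  have hn2 : 2 * n + 1 = m * p := by rw [hn, hq, hr]; ring
  set f : ℕ → MvPolynomial (Fin a) k := fun κ => MvPolynomial.C (κ : k) * q10B m e +
    MvPolynomial.C ((sgm m κ : ℤ) : k) * q10A m r ω e (clm m κ) with hf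
  have h1 : ∏ j : Fin a, lf (fun l => if m ∣ e l then ((((j : ℕ) + (r + 1)) * e l : ℕ) : k)
      else ω ^ (((j : ℕ) + (r + 1)) * e l) - (ω⁻¹) ^ (((j : ℕ) + (r + 1)) * e l)) =
      ∏ κ ∈ Finset.Icc (r + 1) n, f κ := by
    have h2 : ∏ j : Fin a, lf (fun l => if m ∣ e l then ((((j : ℕ) + (r + 1)) * e l : ℕ) : k)
      else ω ^ (((j : ℕ) + (r + 1)) * e l) - (ω⁻¹) ^ (((j : ℕ) + (r + 1)) * e l)) =
      ∏ j : Fin a, f ((j : ℕ) + (r + 1)) :=
      Finset.prod_congr rfl fun j _ => q10_col m r hr ω hω e _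
    rw [h2, Fin.prod_univ_eq_prod_range (fun i => f (i + (r + 1))) a]
    have h3 : Finset.Icc (r + 1) n = Finset.Ico (r + 1) (n + 1) := by
      ext x; simp only [Finset.mem_Icc, Finset.mem_Ico]; omega
    rw [h3, Finset.prod_Ico_eq_prod_range]
    have h4 : n + 1 - (r + 1) = a := by omega
    rw [h4]
    exact Finset.prod_congr rfl fun i _ => by rw [add_comm]
  have hK1 : ∏ κ ∈ (Finset.Icc (r + 1) n).filter (fun κ => m ∣ κ), f κ =
      MvPolynomial.C (∏ κ ∈ (Finset.Icc (r + 1) n).filter (fun κ => m ∣ κ), (κ : k)) * q10B m e ^ q := by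
    have hcard : ((Finset.Icc (r + 1) n).filter (fun κ => m ∣ κ)).card = q := by
      rw [q10_mult_eq m r q n hr hnq, Finset.card_image_of_injective, Nat.card_Icc]
      · omega
      · intro x y hxy
        exact Nat.eq_of_mul_eq_mul_left (by omega) hxy
    rw [map_prod]
    conv_rhs => rw [← hcard]
    rw [← Finset.prod_const, ← Finset.prod_mul_distrib]
    refine Finset.prod_congr rfl fun κ hκ => ?_
    rw [Finset.mem_filter] at hκ
    obtain ⟨-, g2, -, -, -⟩ := entry_signs (k := k) m ⟨r, hr⟩ ω hω κ 1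
    rw [hf]
    dsimp only
    rw [g2.2 hκ.2, q10_A_zero, mul_zero, add_zero]
  have hK2 : ∏ κ ∈ (Finset.Icc (r + 1) n).filter (fun κ => ¬ m ∣ κ), f κ =
      MvPolynomial.C (∏ κ ∈ (Finset.Icc (r + 1) n).filter (fun κ => ¬ m ∣ κ), ((sgm m κ : ℤ) : k)) *
        ∏ c ∈ Finset.Icc 1 r, ((q10A m r ω e c + (c : MvPolynomial (Fin a) k) * q10B m e) ^ (p - 1) -
          q10B m e ^ (p - 1)) := by
    have h5 := class_prod m p n r hp hpm hn2 hr (fun (c : ℕ) (x : ZMod p) => q10A m r ω e c +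
      MvPolynomial.C (ZMod.castHom (dvd_refl p) k x) * q10B m e)
    have h6 : ∏ c ∈ Finset.Icc 1 r, ∏ x ∈ (Finset.range p).filter (fun x => ¬ x ≡ c [MOD p]),
        (q10A m r ω e c + MvPolynomial.C (ZMod.castHom (dvd_refl p) k (x : ZMod p)) * q10B m e) =
        ∏ c ∈ Finset.Icc 1 r, ((q10A m r ω e c + (c : MvPolynomial (Fin a) k) * q10B m e) ^ (p - 1) -
          q10B m e ^ (p - 1)) := by
      refine Finset.prod_congr rfl fun c _ => ?_
      rw [← type_prod p hp (q10A m r ω e c) (q10B m e) c]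
      refine Finset.prod_congr rfl fun x _ => ?_
      rw [map_natCast, map_natCast]
    rw [← h6, ← h5, map_prod, ← Finset.prod_mul_distrib]
    refine Finset.prod_congr rfl fun κ _ => ?_
    rw [hf]
    dsimp only
    have h9 : ZMod.castHom (dvd_refl p) k ((sgm m κ * (κ : ℤ) : ℤ) : ZMod p) =
        ((sgm m κ : ℤ) : k) * (κ : k) := by
      rw [map_intCast]
      push_cast
      ring
    have h7 := q10_sgm_sq (k := k) m κ
    have h8 : (MvPolynomial.C ((sgm m κ : ℤ) : k) : MvPolynomial (Fin a) k) *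
        MvPolynomial.C ((sgm m κ : ℤ) : k) = 1 := by
      rw [← map_mul, h7, map_one]
    rw [h9, map_mul]
    linear_combination (-(MvPolynomial.C (κ : k) * q10B m e)) * h8
  refine ⟨(∏ κ ∈ (Finset.Icc (r + 1) n).filter (fun κ => m ∣ κ), (κ : k)) *
    ∏ κ ∈ (Finset.Icc (r + 1) n).filter (fun κ => ¬ m ∣ κ), ((sgm m κ : ℤ) : k), ?_, ?_⟩
  · refine mul_ne_zero (Finset.prod_ne_zero_iff.2 fun κ hκ => ?_)
      (Finset.prod_ne_zero_iff.2 fun κ _ => q10_sgm_ne m κ)
    rw [q10_mult_eq m r q n hr hnq, Finset.mem_image] at hκ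
    obtain ⟨i, hi, rfl⟩ := hκ
    rw [Finset.mem_Icc] at hi
    refine q10_cast_ne p _ fun hd => ?_
    rcases (Nat.Prime.dvd_mul hp).1 hd with h | h
    · exact hpm h
    · have := Nat.le_of_dvd (by omega) h
      omega
  · rw [h1, ← Finset.prod_filter_mul_prod_filter_not (Finset.Icc (r + 1) n) (fun κ => m ∣ κ) f, hK1, hK2,
      map_mul]
    ring

theorem q10_prod_fin {R : Type*} [CommMonoid R] (r : ℕ) (g : ℕ → R) :
    ∏ c ∈ Finset.Icc 1 r, g c = ∏ i : Fin r, g ((i : ℕ) + 1) := by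
  rw [Fin.prod_univ_eq_prod_range (fun i => g (i + 1)) r]
  have h3 : Finset.Icc 1 r = Finset.Ico 1 (r + 1) := by
    ext x; simp only [Finset.mem_Icc, Finset.mem_Ico]; omega
  rw [h3, Finset.prod_Ico_eq_prod_range, Nat.add_sub_cancel]
  exact Finset.prod_congr rfl fun i _ => by rw [add_comm]

theorem q10_sum_fin {R : Type*} [AddCommMonoid R] (r : ℕ) (g : ℕ → R) :
    ∑ c ∈ Finset.Icc 1 r, g c = ∑ i : Fin r, g ((i : ℕ) + 1) := by
  rw [Fin.sum_univ_eq_sum_range (fun i => g (i + 1)) r]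
  have h3 : Finset.Icc 1 r = Finset.Ico 1 (r + 1) := by
    ext x; simp only [Finset.mem_Icc, Finset.mem_Ico]; omega
  rw [h3, Finset.sum_Ico_eq_sum_range, Nat.add_sub_cancel]
  exact Finset.sum_congr rfl fun i _ => by rw [add_comm]

theorem q10_choose {k : Type*} [Field k] (p : ℕ) (hp : p.Prime) [CharP k p] (N : ℕ) (h : N ≤ p - 1) :
    (N.factorial : k) ≠ 0 ∧ ((p - 1).choose N : k) ≠ 0 := by
  have hp1 : 1 < p := hp.one_lt
  refine ⟨q10_cast_ne p _ fun hd => ?_, q10_cast_ne p _ fun hd => ?_⟩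
  · have := (Nat.Prime.dvd_factorial hp).1 hd
    omega
  · have h1 := Nat.choose_mul_factorial_mul_factorial h
    have h2 : p ∣ (p - 1).factorial := by
      rw [← h1, mul_assoc]
      exact Dvd.dvd.mul_right hd _
    have := (Nat.Prime.dvd_factorial hp).1 h2
    omega

theorem beta_perm {k : Type*} [Field k] (p : ℕ) (hp : p.Prime) [CharP k p] (m r q n a : ℕ)
    (hpm : ¬ p ∣ m) (hr : m = 2 * r + 1) (hq : p = 2 * q + 1) (hn : n = r * p + q) (ha : a + r = n) (ω : k)
    (hω : IsPrimitiveRoot ω m) (e : Fin a → ℕ) (he : ∀ l, 1 ≤ e l ∧ e l ≤ n)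
    (hcard : ∀ c ∈ Finset.Icc 1 r, (Finset.univ.filter (fun l => clm m (e l) = c)).card ≤ p - 1)
    (hW : (Finset.univ.filter (fun l => clm m (e l) = 0)).card ≤ p - 1) :
    ∑ π : Equiv.Perm (Fin a), ∏ l, (if m ∣ e l then ((((π l : ℕ) + (r + 1)) * e l : ℕ) : k)
      else ω ^ (((π l : ℕ) + (r + 1)) * e l) - (ω⁻¹) ^ (((π l : ℕ) + (r + 1)) * e l)) ≠ 0 := by
  have hp1 : 1 < p := hp.one_lt
  have hm : Odd m := ⟨r, hr⟩
  have hq1 : 1 ≤ q := by omega
  have hmk : (m : k) ≠ 0 := q10_cast_ne p m hpm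
  obtain ⟨hdet, w, hw0, hw⟩ := sine_matrix (k := k) m r hr hmk ω hω
  obtain ⟨K, hK, hprod⟩ := q10_prod p hp m r q n a hpm hr hq hn ha ω hω e
  have hpc := perm_coeff a (fun l j : Fin a => (if m ∣ e l then ((((j : ℕ) + (r + 1)) * e l : ℕ) : k)
      else ω ^ (((j : ℕ) + (r + 1)) * e l) - (ω⁻¹) ^ (((j : ℕ) + (r + 1)) * e l)))
  rw [hpc, hprod]
  clear hpc hprod
  set S : Matrix (Fin r) (Fin r) k := Matrix.of (fun i c : Fin r => ω ^ (((i : ℕ) + 1) * ((c : ℕ) + 1)) -
      (ω⁻¹) ^ (((i : ℕ) + 1) * ((c : ℕ) + 1))) with hS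
  obtain ⟨κ, hκ, htr⟩ := socle_transfer p hp r S hdet
  set w' : ℕ → k := fun c => if h : c - 1 < r then w ⟨c - 1, h⟩ else 1 with hw'
  have hw'0 : ∀ c, w' c ≠ 0 := by
    intro c
    rw [hw']
    dsimp only
    split_ifs with h
    · exact hw0 _
    · exact one_ne_zero
  have hw'1 : ∀ c : Fin r, w' ((c : ℕ) + 1) = w c := by
    intro c
    rw [hw']
    dsimp only
    rw [dif_pos (show (c : ℕ) + 1 - 1 < r by rw [Nat.add_sub_cancel]; exact c.2)]
    congr 1
  -- the classes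
  have hcls : ∀ l, clm m (e l) ≤ r := by
    intro l
    obtain ⟨-, -, g3, -, -⟩ := entry_signs (k := k) m hm ω hω (e l) 1
    omega
  have hfib : (Finset.univ.filter (fun l : Fin a => clm m (e l) = 0)).card +
      ∑ c ∈ Finset.Icc 1 r, (Finset.univ.filter (fun l : Fin a => clm m (e l) = c)).card = a := by
    have h1 := Finset.card_eq_sum_card_fiberwise (s := (Finset.univ : Finset (Fin a)))
      (t := Finset.range (r + 1)) (f := fun l => clm m (e l)) (fun l _ => by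
        simp only [Finset.coe_range, Set.mem_Iio]
        have := hcls l
        omega)
    rw [Finset.card_univ, Fintype.card_fin, Finset.sum_range_succ'] at h1
    have h2 := q10_sum_fin r (fun c => (Finset.univ.filter (fun l : Fin a => clm m (e l) = c)).card)
    rw [Fin.sum_univ_eq_sum_range (fun i => (Finset.univ.filter
      (fun l : Fin a => clm m (e l) = i + 1)).card) r] at h2
    rw [h2]
    omega
  have hWq : (Finset.univ.filter (fun l : Fin a => clm m (e l) = 0)).card = q +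
      ∑ c ∈ Finset.Icc 1 r, ((p - 1) - (Finset.univ.filter (fun l : Fin a => clm m (e l) = c)).card) := by
    have h1 : ∑ c ∈ Finset.Icc 1 r, ((p - 1) - (Finset.univ.filter
        (fun l : Fin a => clm m (e l) = c)).card) + ∑ c ∈ Finset.Icc 1 r,
          (Finset.univ.filter (fun l : Fin a => clm m (e l) = c)).card = r * (p - 1) := by
      rw [← Finset.sum_add_distrib]
      have : ∀ c ∈ Finset.Icc 1 r, (p - 1) - (Finset.univ.filter
        (fun l : Fin a => clm m (e l) = c)).card + (Finset.univ.filter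
        (fun l : Fin a => clm m (e l) = c)).card = p - 1 := fun c hc => Nat.sub_add_cancel (hcard c hc)
      rw [Finset.sum_congr rfl this, Finset.sum_const, Nat.card_Icc, Nat.add_sub_cancel, smul_eq_mul]
    have h2 : r * p = r * (p - 1) + r := by
      obtain ⟨p', rfl⟩ : ∃ p', p = p' + 1 := ⟨p - 1, by omega⟩
      rw [Nat.add_sub_cancel]; ring
    omega
  obtain ⟨hb1, hb2⟩ := beta_top (k := k) (p - 1) q r a _ (fun l => clm m (e l))
    (fun l => ((sgm m (e l) : ℤ) : k)) (fun l => (e l : k)) w' hcls hcard rfl hWq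
  -- the factors
  have hU : ∀ i : Fin r, q10A m r ω e ((i : ℕ) + 1) + (((i : ℕ) + 1 : ℕ) : MvPolynomial (Fin a) k) *
      q10B m e = ∑ c, MvPolynomial.C (S i c) * lf (fun l => (if clm m (e l) = (c : ℕ) + 1 then
        ((sgm m (e l) : ℤ) : k) else 0) + w c * (if clm m (e l) = 0 then (e l : k) else 0)) := by
    intro i
    have h1 : (((i : ℕ) + 1 : ℕ) : MvPolynomial (Fin a) k) =
        MvPolynomial.C ((((i : ℕ) + 1 : ℕ) : k)) := by rw [map_natCast]
    rw [h1, hw i, map_sum, Finset.sum_mul]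
    unfold q10A
    rw [q10_sum_fin, ← Finset.sum_add_distrib]
    refine Finset.sum_congr rfl fun c _ => ?_
    rw [← q10_lf_add, ← q10_lf_smul, hS, Matrix.of_apply, map_mul]
    unfold q10T q10B
    ring
  rw [q10_prod_fin]
  obtain ⟨H, hH⟩ := q10_expand (Finset.univ : Finset (Fin r))
    (fun i : Fin r => (q10A m r ω e ((i : ℕ) + 1) + (((i : ℕ) + 1 : ℕ) : MvPolynomial (Fin a) k) *
      q10B m e) ^ (p - 1)) (q10B m e ^ (p - 1))
  rw [hH]
  have hsplit : MvPolynomial.C K * (q10B m e ^ q * (∏ i : Fin r, (q10A m r ω e ((i : ℕ) + 1) +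
      (((i : ℕ) + 1 : ℕ) : MvPolynomial (Fin a) k) * q10B m e) ^ (p - 1) + q10B m e ^ (p - 1) * H)) =
      MvPolynomial.C K * (q10B m e ^ q * ∏ i : Fin r, (q10A m r ω e ((i : ℕ) + 1) +
      (((i : ℕ) + 1 : ℕ) : MvPolynomial (Fin a) k) * q10B m e) ^ (p - 1)) +
      MvPolynomial.C K * (q10B m e ^ (q + (p - 1)) * H) := by
    rw [pow_add]; ring
  rw [hsplit, MvPolynomial.coeff_add, MvPolynomial.coeff_C_mul, MvPolynomial.coeff_C_mul]
  have hz : MvPolynomial.coeff (oneE a) (q10B m e ^ (q + (p - 1)) * H) = 0 :=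
    hb1 (q + (p - 1)) H (by omega)
  rw [hz, mul_zero, add_zero]
  refine mul_ne_zero hK ?_
  simp only [hU]
  rw [htr]
  refine mul_ne_zero hκ ?_
  have hfin : q10B m e ^ q * ∏ c : Fin r, (lf (fun l => (if clm m (e l) = (c : ℕ) + 1 then
        ((sgm m (e l) : ℤ) : k) else 0) + w c * (if clm m (e l) = 0 then (e l : k) else 0))) ^ (p - 1) =
      (lf (fun l => if clm m (e l) = 0 then (e l : k) else 0)) ^ q *
      ∏ c ∈ Finset.Icc 1 r, (lf (fun l => if clm m (e l) = c then ((sgm m (e l) : ℤ) : k) else 0) +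
        MvPolynomial.C (w' c) * lf (fun l => if clm m (e l) = 0 then (e l : k) else 0)) ^ (p - 1) := by
    rw [q10_prod_fin]
    congr 1
    refine Finset.prod_congr rfl fun c _ => ?_
    rw [hw'1, q10_lf_smul, q10_lf_add]
  rw [hfin, hb2]
  refine mul_ne_zero (mul_ne_zero (q10_choose p hp _ hW).1 (Finset.prod_ne_zero_iff.2 fun l hl => ?_))
    (Finset.prod_ne_zero_iff.2 fun c hc => ?_)
  · rw [Finset.mem_filter] at hl
    obtain ⟨-, g2, -, -, -⟩ := entry_signs (k := k) m hm ω hω (e l) 1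
    have hml : m ∣ e l := g2.1 hl.2
    refine q10_cast_ne p _ fun hd => ?_
    have hcop : Nat.Coprime m p := ((Nat.Prime.coprime_iff_not_dvd hp).2 hpm).symm
    have h1 : m * p ∣ e l := hcop.mul_dvd_of_dvd_of_dvd hml hd
    have h2 := Nat.le_of_dvd (he l).1 h1
    have h3 : 2 * n + 1 = m * p := by rw [hn, hq, hr]; ring
    have := (he l).2
    omega
  · obtain ⟨c1, c2⟩ := q10_choose (k := k) p hp _ (hcard c hc)
    refine mul_ne_zero (mul_ne_zero (mul_ne_zero c1 c2) (pow_ne_zero _ (hw'0 c))) ?_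
    exact Finset.prod_ne_zero_iff.2 fun l _ => q10_sgm_ne m _



end Pool.Agent.Helper805_nf
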