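import Mathlib
import Pool.Agent.Helper805_nf.Defs7

set_option autoImplicit false

namespace Pool.Agent.Helper805_nf

open Finset

theorem q11a_der {F : Type*} [Field F] (x : F) (n : ℕ) :
    Polynomial.derivative ((Polynomial.X - Polynomial.C x) ^ n) * (Polynomial.X - Polynomial.C x) =
      Polynomial.C (n : F) * (Polynomial.X - Polynomial.C x) ^ n := by
  cases n with
  | zero => simp
  | succ m =>
    rw [Polynomial.derivative_X_sub_C_pow]
    simp only [Nat.add_sub_cancel]
    rw [mul_assoc, ← pow_succ]

theorem gap_split {F : Type*} [Field F] (p : ℕ) (hp : p.Prime) [CharP F p] (A H : Polynomial F) (hA : A ≠ 0)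
    (hH : H ≠ 0) (hW : Polynomial.derivative A * H = A * Polynomial.derivative H) (x : F)
    (hlt : H.rootMultiplicity x < p) : H.rootMultiplicity x ≤ A.rootMultiplicity x := by
  obtain ⟨A1, hA1, hA1'⟩ := Polynomial.exists_eq_pow_rootMultiplicity_mul_and_not_dvd A hA x
  obtain ⟨H1, hH1, hH1'⟩ := Polynomial.exists_eq_pow_rootMultiplicity_mul_and_not_dvd H hH x
  generalize A.rootMultiplicity x = s at *
  generalize H.rootMultiplicity x = v at *
  subst hA1 hH1
  rw [Polynomial.dvd_iff_isRoot] at hA1' hH1'
  have d1 := q11a_der x s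
  have d2 := q11a_der x v
  rw [Polynomial.derivative_mul, Polynomial.derivative_mul] at hW
  have key : (Polynomial.X - Polynomial.C x) ^ (s + v) *
      ((Polynomial.C (s : F) - Polynomial.C (v : F)) * A1 * H1 +
        (Polynomial.X - Polynomial.C x) *
          (Polynomial.derivative A1 * H1 - A1 * Polynomial.derivative H1)) = 0 := by
    rw [pow_add]
    linear_combination (Polynomial.X - Polynomial.C x) * hW -
      (A1 * (Polynomial.X - Polynomial.C x) ^ v * H1) * d1 +
      (H1 * (Polynomial.X - Polynomial.C x) ^ s * A1) * d2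
  have hY : (Polynomial.X - Polynomial.C x) ^ (s + v) ≠ 0 := pow_ne_zero _ (Polynomial.X_sub_C_ne_zero x)
  have h0 := (mul_eq_zero.1 key).resolve_left hY
  have h1 := congrArg (Polynomial.eval x) h0
  simp only [Polynomial.eval_add, Polynomial.eval_mul, Polynomial.eval_sub, Polynomial.eval_C,
    Polynomial.eval_X, sub_self, zero_mul, add_zero, Polynomial.eval_zero] at h1
  have h2 : (s : F) - (v : F) = 0 := by
    rcases mul_eq_zero.1 h1 with h | h
    · exact (mul_eq_zero.1 h).resolve_right hA1'
    · exact absurd h hH1'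
  by_contra hcon
  push Not at hcon
  have h3 : ((v - s : ℕ) : F) = 0 := by
    rw [Nat.cast_sub hcon.le]
    linear_combination -h2
  have h4 := (CharP.cast_eq_zero_iff F p (v - s)).1 h3
  have h5 := Nat.le_of_dvd (by omega) h4
  omega

end Pool.Agent.Helper805_nf
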