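import Mathlib
import Pool.Agent.Helper805_nf.Defs7

set_option autoImplicit false

namespace Pool.Agent.Helper805_nf

open Finset


theorem q11b_A {F : Type*} [Field F] [DecidableEq F] (T : Finset F) (H : Polynomial F) (a : ℕ)
    (h : ∀ x ∈ T, (H * ∏ y ∈ T.erase x, (1 + Polynomial.C y * Polynomial.X)).coeff a = 0) :
    ∀ n : ℕ, ∀ U ⊆ T, U.card = n + 1 →
      (H * (Polynomial.X ^ n * ∏ y ∈ T \ U, (1 + Polynomial.C y * Polynomial.X))).coeff a = 0 := by
  intro n
  induction n with
  | zero =>
    intro U hU hc
    obtain ⟨x, rfl⟩ := Finset.card_eq_one.mp hc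
    have := h x (hU (by simp))
    rw [Finset.sdiff_singleton_eq_erase]
    simpa using this
  | succ n ih =>
    intro U hU hc
    obtain ⟨x, hx, x', hx', hne⟩ := Finset.one_lt_card.mp (by omega : 1 < U.card)
    have h1 := ih (U.erase x) ((Finset.erase_subset _ _).trans hU)
      (by rw [Finset.card_erase_of_mem hx]; omega)
    have h2 := ih (U.erase x') ((Finset.erase_subset _ _).trans hU)
      (by rw [Finset.card_erase_of_mem hx']; omega)
    have e1 : ∀ z ∈ U, T \ (U.erase z) = insert z (T \ U) := by
      intro z hz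
      ext w
      simp only [Finset.mem_sdiff, Finset.mem_erase, Finset.mem_insert]
      constructor
      · rintro ⟨hw, hw2⟩
        by_cases hwz : w = z
        · exact Or.inl hwz
        · exact Or.inr ⟨hw, fun hh => hw2 ⟨hwz, hh⟩⟩
      · rintro (rfl | ⟨hw, hw2⟩)
        · exact ⟨hU hz, fun hh => hh.1 rfl⟩
        · exact ⟨hw, fun hh => hw2 hh.2⟩
    rw [e1 x hx, Finset.prod_insert (by simp [hx])] at h1
    rw [e1 x' hx', Finset.prod_insert (by simp [hx'])] at h2
    have h3 : (H * (Polynomial.X ^ n * ((1 + Polynomial.C x * Polynomial.X) *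
        ∏ y ∈ T \ U, (1 + Polynomial.C y * Polynomial.X)))
        - H * (Polynomial.X ^ n * ((1 + Polynomial.C x' * Polynomial.X) *
        ∏ y ∈ T \ U, (1 + Polynomial.C y * Polynomial.X)))).coeff a = 0 := by
      rw [Polynomial.coeff_sub, h1, h2, sub_zero]
    have h4 : (H * (Polynomial.X ^ n * ((1 + Polynomial.C x * Polynomial.X) *
        ∏ y ∈ T \ U, (1 + Polynomial.C y * Polynomial.X)))
        - H * (Polynomial.X ^ n * ((1 + Polynomial.C x' * Polynomial.X) *
        ∏ y ∈ T \ U, (1 + Polynomial.C y * Polynomial.X))))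
        = Polynomial.C (x - x') * (H * (Polynomial.X ^ (n + 1) *
          ∏ y ∈ T \ U, (1 + Polynomial.C y * Polynomial.X))) := by
      rw [Polynomial.C_sub]; ring
    rw [h4, Polynomial.coeff_C_mul] at h3
    rcases mul_eq_zero.mp h3 with h5 | h5
    · exact absurd (sub_eq_zero.mp h5) hne
    · exact h5

theorem q11b_deg {F : Type*} [Field F] [DecidableEq F] (T : Finset F) :
    (∏ y ∈ T, (1 + Polynomial.C y * Polynomial.X)).natDegree ≤ T.card := by
  refine (Polynomial.natDegree_prod_le _ _).trans ?_
  have : ∀ y ∈ T, (1 + Polynomial.C y * Polynomial.X : Polynomial F).natDegree ≤ 1 := by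
    intro y _
    compute_degree
  calc ∑ i ∈ T, (1 + Polynomial.C i * Polynomial.X : Polynomial F).natDegree
      ≤ ∑ i ∈ T, 1 := Finset.sum_le_sum this
    _ = T.card := by simp

theorem q11b_zero {F : Type*} [Field F] [DecidableEq F] (T : Finset F) :
    (∏ y ∈ T, (1 + Polynomial.C y * Polynomial.X)).coeff 0 = 1 := by
  rw [Polynomial.coeff_zero_eq_eval_zero, Polynomial.eval_prod]
  apply Finset.prod_eq_one
  intro y _
  simp

theorem q11b_zeroH {F : Type*} [Field F] [DecidableEq F] (T : Finset F) (μ : F → ℕ) :
    (∏ y ∈ T, (1 + Polynomial.C y * Polynomial.X) ^ μ y).coeff 0 = 1 := by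
  rw [Polynomial.coeff_zero_eq_eval_zero, Polynomial.eval_prod]
  apply Finset.prod_eq_one
  intro y _
  simp

theorem q11b_B {F : Type*} [Field F] [DecidableEq F] (T : Finset F) (H : Polynomial F) (a : ℕ)
    (h : ∀ x ∈ T, (H * ∏ y ∈ T.erase x, (1 + Polynomial.C y * Polynomial.X)).coeff a = 0) :
    ∀ s : ℕ, ∀ t : ℕ, t + s + 1 = T.card → (H * Polynomial.X ^ t).coeff a = 0 := by
  intro s
  induction s using Nat.strong_induction_on with
  | _ s ih =>
    intro t ht
    obtain ⟨U, hU, hUc⟩ := Finset.exists_subset_card_eq (s := T) (n := t + 1) (by omega)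
    have h1 := q11b_A T H a h t U hU hUc
    have hd : (∏ y ∈ T \ U, (1 + Polynomial.C y * Polynomial.X)).natDegree ≤ s := by
      refine (q11b_deg (T \ U)).trans ?_
      rw [Finset.card_sdiff_of_subset hU]
      omega
    have hz := q11b_zero (T \ U)
    set q := ∏ y ∈ T \ U, (1 + Polynomial.C y * Polynomial.X) with hq
    have h2 : H * (Polynomial.X ^ t * q) = ∑ j ∈ Finset.range (s + 1),
        Polynomial.C (q.coeff j) * (H * Polynomial.X ^ (t + j)) := by
      conv_lhs => rw [q.as_sum_range_C_mul_X_pow' (n := s + 1) (by omega)]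
      rw [Finset.mul_sum, Finset.mul_sum]
      apply Finset.sum_congr rfl
      intro j _
      rw [pow_add]; ring
    rw [h2, Finset.sum_range_succ', Polynomial.coeff_add, Polynomial.finsetSum_coeff] at h1
    rw [Finset.sum_eq_zero] at h1
    · rw [zero_add, hz] at h1
      simpa using h1
    · intro j hj
      rw [Polynomial.coeff_C_mul]
      have := Finset.mem_range.mp hj
      rw [ih (s - (j + 1)) (by omega) (t + (j + 1)) (by omega), mul_zero]

theorem gap_ode {F : Type*} [Field F] [DecidableEq F] (T : Finset F) (μ : F → ℕ) (a : ℕ)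
    (h : ∀ x ∈ T, ((∏ y ∈ T, (1 + Polynomial.C y * Polynomial.X) ^ μ y) *
      ∏ y ∈ T.erase x, (1 + Polynomial.C y * Polynomial.X)).coeff a = 0) :
    T.card ≤ a ∧ ∃ A : Polynomial F, A ≠ 0 ∧ A.natDegree + T.card ≤ a ∧
      Polynomial.derivative A * (∏ y ∈ T, (1 + Polynomial.C y * Polynomial.X) ^ μ y) =
        A * Polynomial.derivative (∏ y ∈ T, (1 + Polynomial.C y * Polynomial.X) ^ μ y) := by
  have hB := q11b_B T _ a h
  have hz := q11b_zeroH T μ
  set Q : Polynomial F := ∑ y ∈ T, Polynomial.C ((μ y : F) * y) *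
    ∏ z ∈ T.erase y, (1 + Polynomial.C z * Polynomial.X) with hQdef
  set P : Polynomial F := ∏ y ∈ T, (1 + Polynomial.C y * Polynomial.X) with hPdef
  have hHQ : Polynomial.derivative (∏ y ∈ T, (1 + Polynomial.C y * Polynomial.X) ^ μ y) * P =
      (∏ y ∈ T, (1 + Polynomial.C y * Polynomial.X) ^ μ y) * Q := by
    rw [Polynomial.derivative_prod_finset, hQdef, Finset.sum_mul, Finset.mul_sum]
    apply Finset.sum_congr rfl
    intro y hy
    rw [hPdef, ← Finset.mul_prod_erase T _ hy,
      ← Finset.mul_prod_erase T (fun y => (1 + Polynomial.C y * Polynomial.X : Polynomial F) ^ μ y) hy]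
    rw [Polynomial.derivative_pow]
    have e1 : Polynomial.derivative (1 + Polynomial.C y * Polynomial.X : Polynomial F) =
        Polynomial.C y := by simp
    rw [e1]
    rcases Nat.eq_zero_or_pos (μ y) with hm | hm
    · rw [hm]; simp
    · obtain ⟨m, hm2⟩ : ∃ m, μ y = m + 1 := ⟨μ y - 1, by omega⟩
      rw [hm2]
      simp only [Nat.add_sub_cancel, Polynomial.C_mul, pow_succ]
      ring
  set H : Polynomial F := ∏ y ∈ T, (1 + Polynomial.C y * Polynomial.X) ^ μ y with hHdef
  have hDa : T.card ≤ a := by
    by_contra hcon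
    have := hB (T.card - a - 1) a (by omega)
    rw [Polynomial.coeff_mul_X_pow', if_pos (le_refl a), Nat.sub_self, hz] at this
    exact one_ne_zero this
  have hgap : ∀ j, a - T.card < j → j ≤ a → H.coeff j = 0 := by
    intro j hj hja
    have := hB (T.card - (a - j) - 1) (a - j) (by omega)
    rw [Polynomial.coeff_mul_X_pow', if_pos (by omega)] at this
    rwa [show a - (a - j) = j by omega] at this
  refine ⟨hDa, ?_⟩
  set A : Polynomial F := ∑ j ∈ Finset.range (a - T.card + 1),
    Polynomial.C (H.coeff j) * Polynomial.X ^ j with hAdef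
  have hAc : ∀ j, A.coeff j = if j ≤ a - T.card then H.coeff j else 0 := by
    intro j
    rw [hAdef, Polynomial.finsetSum_coeff]
    simp only [Polynomial.coeff_C_mul, Polynomial.coeff_X_pow, mul_ite, mul_one, mul_zero]
    rw [Finset.sum_ite_eq]
    simp [Finset.mem_range]
  have hA0 : A ≠ 0 := by
    intro h0
    have := hAc 0
    rw [h0, if_pos (Nat.zero_le _), hz] at this
    simp at this
  have hAd : A.natDegree ≤ a - T.card := by
    rw [Polynomial.natDegree_le_iff_coeff_eq_zero]
    intro N hN
    rw [hAc, if_neg (by omega)]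
  have hdiv : Polynomial.X ^ (a + 1) ∣ H - A := by
    rw [Polynomial.X_pow_dvd_iff]
    intro d hd
    rw [Polynomial.coeff_sub, hAc]
    by_cases hd2 : d ≤ a - T.card
    · rw [if_pos hd2, sub_self]
    · rw [if_neg hd2, sub_zero]
      exact hgap d (by omega) (by omega)
  have hP0 : P ≠ 0 := by
    intro h0
    have := q11b_zero T
    rw [← hPdef, h0] at this
    simp at this
  have hPd : P.natDegree ≤ T.card := q11b_deg T
  refine ⟨A, hA0, by omega, ?_⟩
  have hkey : Polynomial.derivative A * P = A * Q := by
    obtain ⟨B, hB2⟩ := hdiv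
    have hdvd : Polynomial.X ^ a ∣ Polynomial.derivative A * P - A * Q := by
      have e : Polynomial.derivative A * P - A * Q =
          -(Polynomial.derivative (H - A) * P - (H - A) * Q) := by
        rw [Polynomial.derivative_sub]
        linear_combination hHQ
      rw [e, hB2, Polynomial.derivative_mul, Polynomial.derivative_X_pow]
      simp only [Nat.add_sub_cancel]
      refine Dvd.intro (-((Polynomial.C ((a + 1 : ℕ) : F) * B + Polynomial.X * Polynomial.derivative B) * P
        - Polynomial.X * B * Q)) ?_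
      rw [pow_succ]
      ring
    by_contra hne
    have hne2 : Polynomial.derivative A * P - A * Q ≠ 0 := sub_ne_zero.mpr hne
    have hlt : (Polynomial.derivative A * P - A * Q).degree < (a : WithBot ℕ) := by
      have hAdeg : A.degree ≤ ((a - T.card : ℕ) : WithBot ℕ) :=
        Polynomial.degree_le_of_natDegree_le hAd
      have hPdeg : P.degree ≤ (T.card : WithBot ℕ) := Polynomial.degree_le_of_natDegree_le hPd
      have hsum : ((a - T.card : ℕ) : WithBot ℕ) + (T.card : WithBot ℕ) = (a : WithBot ℕ) := by
        rw [← Nat.cast_add]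
        congr 1
        omega
      have hQdeg : Q.degree < (T.card : WithBot ℕ) := by
        rw [hQdef]
        by_cases hT : T.card = 0
        · rw [Finset.card_eq_zero] at hT
          rw [hT]
          simp
        · rw [Polynomial.degree_lt_iff_coeff_zero]
          intro m hm
          rw [Polynomial.finsetSum_coeff]
          apply Finset.sum_eq_zero
          intro y hy
          rw [Polynomial.coeff_C_mul, Polynomial.coeff_eq_zero_of_natDegree_lt, mul_zero]
          refine lt_of_le_of_lt (q11b_deg (T.erase y)) ?_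
          rw [Finset.card_erase_of_mem hy]
          omega
      refine lt_of_le_of_lt (Polynomial.degree_sub_le _ _) (max_lt ?_ ?_)
      · rw [Polynomial.degree_mul, ← hsum]
        have h1 : (Polynomial.derivative A).degree < A.degree := Polynomial.degree_derivative_lt hA0
        refine lt_of_lt_of_le ?_ (add_le_add hAdeg hPdeg)
        have hPb : P.degree ≠ ⊥ := by
          rw [Ne, Polynomial.degree_eq_bot]; exact hP0
        exact WithBot.add_lt_add_right hPb h1
      · rw [Polynomial.degree_mul, ← hsum]
        have hAb : A.degree ≠ ⊥ := by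
          rw [Ne, Polynomial.degree_eq_bot]; exact hA0
        refine lt_of_lt_of_le (WithBot.add_lt_add_left hAb hQdeg) ?_
        gcongr
    have hge : (a : WithBot ℕ) ≤ (Polynomial.derivative A * P - A * Q).degree := by
      have := Polynomial.degree_le_of_dvd hdvd hne2
      rwa [Polynomial.degree_X_pow] at this
    exact absurd hlt (not_lt.mpr hge)
  have : (Polynomial.derivative A * H) * P = (A * Polynomial.derivative H) * P := by
    linear_combination H * hkey - A * hHQ
  exact mul_right_cancel₀ hP0 this


end Pool.Agent.Helper805_nf
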