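import Mathlib
import Pool.Agent.Helper805_nf.Defs7
import Pool.Agent.Helper805_nf.Q11a
import Pool.Agent.Helper805_nf.Q11b

set_option autoImplicit false

namespace Pool.Agent.Helper805_nf

open Finset



theorem q11_ne {F : Type*} [Field F] (y : F) :
    (1 + Polynomial.C y * Polynomial.X : Polynomial F) ≠ 0 := by
  intro h
  have := congrArg (fun q : Polynomial F => q.eval 0) h
  simp at this

theorem q11_H {F : Type*} [Field F] (T : Finset F) (μ : F → ℕ) :
    (∏ y ∈ T, (1 + Polynomial.C y * Polynomial.X : Polynomial F) ^ μ y) ≠ 0 :=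
  Finset.prod_ne_zero_iff.2 fun y _ => pow_ne_zero _ (q11_ne y)

/-- the product over the multiset with one element removed -/
theorem q11_prod {F : Type*} [Field F] [DecidableEq F] (S : Multiset F) (x : F)
    (hx : x ∈ S.toFinset) :
    ((S.erase x).map (fun y => 1 + Polynomial.C y * Polynomial.X)).prod =
      (∏ y ∈ S.toFinset, (1 + Polynomial.C y * Polynomial.X : Polynomial F) ^ (S.count y - 1)) *
        ∏ y ∈ S.toFinset.erase x, (1 + Polynomial.C y * Polynomial.X) := by
  classical
  rw [Finset.prod_multiset_map_count]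
  have h1 : ∏ y ∈ (S.erase x).toFinset,
      (1 + Polynomial.C y * Polynomial.X : Polynomial F) ^ (S.erase x).count y =
      ∏ y ∈ S.toFinset, (1 + Polynomial.C y * Polynomial.X : Polynomial F) ^ (S.erase x).count y := by
    apply Finset.prod_subset
    · intro y hy
      rw [Multiset.mem_toFinset] at hy ⊢
      exact Multiset.mem_of_mem_erase hy
    · intro y _ hy
      rw [Multiset.mem_toFinset] at hy
      rw [Multiset.count_eq_zero_of_notMem hy, pow_zero]
  rw [h1, ← Finset.mul_prod_erase _ _ hx, ← Finset.mul_prod_erase _ _ hx, mul_assoc,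
    ← Finset.prod_mul_distrib, Multiset.count_erase_self]
  congr 1
  apply Finset.prod_congr rfl
  intro y hy
  have hyx := Finset.ne_of_mem_erase hy
  have hyT := Finset.mem_of_mem_erase hy
  rw [Multiset.count_erase_of_ne hyx, ← pow_succ]
  congr 1
  have : 0 < S.count y := Multiset.count_pos.2 (Multiset.mem_toFinset.1 hyT)
  omega

/-- the multiplicity of the root of one factor -/
theorem q11_mult {F : Type*} [Field F] [DecidableEq F] (T : Finset F) (μ : F → ℕ) (y : F)
    (hy : y ∈ T) (hy0 : y ≠ 0) :
    (∏ z ∈ T, (1 + Polynomial.C z * Polynomial.X : Polynomial F) ^ μ z).rootMultiplicity (-y⁻¹) =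
      μ y := by
  classical
  have hH := q11_H T μ
  rw [← Finset.mul_prod_erase _ _ hy] at hH ⊢
  rw [Polynomial.rootMultiplicity_mul hH]
  have h1 : (1 + Polynomial.C y * Polynomial.X : Polynomial F) =
      Polynomial.C y * (Polynomial.X - Polynomial.C (-y⁻¹)) := by
    rw [mul_sub, ← Polynomial.C_mul]
    have : y * -y⁻¹ = -1 := by field_simp
    rw [this]
    simp
    ring
  have h2 : ((1 + Polynomial.C y * Polynomial.X : Polynomial F) ^ μ y).rootMultiplicity (-y⁻¹) =
      μ y := by
    rw [h1, mul_pow, Polynomial.rootMultiplicity_mul, Polynomial.rootMultiplicity_X_sub_C_pow,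
      ← Polynomial.C_pow, Polynomial.rootMultiplicity_C, zero_add]
    exact mul_ne_zero (pow_ne_zero _ (Polynomial.C_ne_zero.2 hy0))
      (pow_ne_zero _ (Polynomial.X_sub_C_ne_zero _))
  have h3 : (∏ z ∈ T.erase y, (1 + Polynomial.C z * Polynomial.X : Polynomial F) ^
      μ z).rootMultiplicity (-y⁻¹) = 0 := by
    apply Polynomial.rootMultiplicity_eq_zero
    rw [Polynomial.IsRoot, Polynomial.eval_prod]
    apply Finset.prod_ne_zero_iff.2
    intro z hz
    rw [Polynomial.eval_pow]
    apply pow_ne_zero
    simp only [Polynomial.eval_add, Polynomial.eval_one, Polynomial.eval_mul, Polynomial.eval_C,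
      Polynomial.eval_X]
    intro h
    apply Finset.ne_of_mem_erase hz
    field_simp at h
    linear_combination -h
  rw [h2, h3, add_zero]

theorem q11_count {F : Type*} [DecidableEq F] (s : Multiset F) (Z : Finset F) :
    ∑ z ∈ Z, s.count z ≤ Multiset.card s := by
  calc ∑ z ∈ Z, s.count z ≤ ∑ z ∈ Z ∪ s.toFinset, s.count z :=
        Finset.sum_le_sum_of_subset Finset.subset_union_left
    _ = Multiset.card s := Multiset.sum_count_eq_card fun a ha =>
        Finset.mem_union_right _ (Multiset.mem_toFinset.2 ha)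

theorem erase_coeff {F : Type*} [Field F] [DecidableEq F] (p : ℕ) (hp : p.Prime) [CharP F p] (a : ℕ)
    (S : Multiset F) (hcard : Multiset.card S = p + a) (hcount : ∀ x, S.count x ≤ p) :
    ∃ x ∈ S, (((S.erase x).map (fun y => 1 + Polynomial.C y * Polynomial.X)).prod).coeff a ≠ 0 := by
  classical
  by_contra hcon
  push Not at hcon
  set T := S.toFinset with hT
  set μ : F → ℕ := fun y => S.count y - 1 with hμ
  obtain ⟨hTa, A, hA, hdeg, hW⟩ := gap_ode T μ a (by
    intro x hx
    rw [← hcon x (Multiset.mem_toFinset.1 hx), q11_prod S x hx])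
  have hH := q11_H T μ
  have hp1 : 1 ≤ p := hp.one_lt.le
  -- lower bound of the multiplicities
  have hm : ∀ y ∈ T.erase 0, μ y ≤ A.rootMultiplicity (-y⁻¹) := by
    intro y hy
    have h1 := q11_mult T μ y (Finset.mem_of_mem_erase hy) (Finset.ne_of_mem_erase hy)
    have h2 := gap_split p hp A _ hA hH hW (-y⁻¹) (by
      rw [h1, hμ]
      have := hcount y
      simp only
      omega)
    rwa [h1] at h2
  have hinj : Set.InjOn (fun y : F => -y⁻¹) (T.erase 0 : Finset F) := by
    intro y _ z _ h
    exact inv_injective (neg_injective h)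
  have h1 : ∑ y ∈ T.erase 0, μ y ≤ A.natDegree := by
    calc ∑ y ∈ T.erase 0, μ y ≤ ∑ y ∈ T.erase 0, A.roots.count (-y⁻¹) :=
          Finset.sum_le_sum fun y hy => by rw [Polynomial.count_roots]; exact hm y hy
      _ = ∑ z ∈ (T.erase 0).image (fun y : F => -y⁻¹), A.roots.count z :=
          (Finset.sum_image (f := fun z => A.roots.count z) hinj).symm
      _ ≤ Multiset.card A.roots := q11_count _ _
      _ ≤ A.natDegree := Polynomial.card_roots' A
  have h2 : ∑ y ∈ T, (μ y + 1) = p + a := by
    rw [← hcard, ← Multiset.toFinset_sum_count_eq S]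
    apply Finset.sum_congr rfl
    intro y hy
    have : 0 < S.count y := Multiset.count_pos.2 (Multiset.mem_toFinset.1 hy)
    simp only [hμ]
    omega
  rw [Finset.sum_add_distrib, Finset.sum_const, smul_eq_mul, mul_one] at h2
  have h3 : ∑ y ∈ T, μ y ≤ ∑ y ∈ T.erase 0, μ y + (p - 1) := by
    by_cases h0 : (0 : F) ∈ T
    · rw [← Finset.sum_erase_add _ _ h0]
      have := hcount 0
      have h4 : μ 0 ≤ p - 1 := by simp only [hμ]; omega
      omega
    · rw [Finset.erase_eq_of_notMem h0]
      omega
  omega

end Pool.Agent.Helper805_nf
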