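import Mathlib
import Pool.Agent.Helper805_nf.Defs7
import Pool.Agent.Helper805_nf.C1

set_option autoImplicit false

namespace Pool.Agent.Helper805_nf

open Finset



/-- the integral polynomial whose value at `η` is the permutation sum -/
noncomputable def q12_poly (n a : ℕ) (d : Fin a → ℕ) : Polynomial ℤ :=
  ∑ σ : Equiv.Perm (Fin a), ∏ i,
    ((Polynomial.X : Polynomial ℤ) ^ ((2 * (σ i : ℕ) + 1) * d i) - Polynomial.X ^ (2 * n * ((2 * (σ i : ℕ) + 1) * d i)))

theorem q12_inv {K : Type*} [Field K] (n : ℕ) (η : K) (hη : IsPrimitiveRoot η (2 * n + 1)) :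
    η⁻¹ = η ^ (2 * n) := by
  have h0 : η ≠ 0 := hη.ne_zero (by omega)
  have h1 : η ^ (2 * n) * η = 1 := by
    rw [← pow_succ]; exact hη.pow_eq_one
  exact (eq_inv_of_mul_eq_one_left h1).symm

theorem q12_aeval {K : Type*} [Field K] (n a : ℕ) (η : K)
    (hη : IsPrimitiveRoot η (2 * n + 1)) (d : Fin a → ℕ) :
    Polynomial.aeval η (q12_poly n a d) = ∑ σ : Equiv.Perm (Fin a), ∏ i,
      (η ^ ((2 * (σ i : ℕ) + 1) * d i) - (η⁻¹) ^ ((2 * (σ i : ℕ) + 1) * d i)) := by
  unfold q12_poly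
  rw [map_sum]
  refine Finset.sum_congr rfl fun σ _ => ?_
  rw [map_prod]
  refine Finset.prod_congr rfl fun i _ => ?_
  rw [map_sub, map_pow, map_pow, Polynomial.aeval_X, q12_inv n η hη, ← pow_mul]

theorem distinct_permSum_char_zero {K : Type*} [Field K] [CharZero K] (n a : ℕ) (han : a ≤ n) (η : K)
    (hη : IsPrimitiveRoot η (2 * n + 1)) (d : Fin a → ℕ) (hd : ∀ i, 1 ≤ d i ∧ d i ≤ n) (hinj : Function.Injective d) :
    ∑ σ : Equiv.Perm (Fin a), ∏ i,
      (η ^ ((2 * (σ i : ℕ) + 1) * d i) - (η⁻¹) ^ ((2 * (σ i : ℕ) + 1) * d i)) ≠ 0 := by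
  intro h0
  have hv : 0 < 2 * n + 1 := by omega
  have hint : IsIntegral ℤ η := hη.isIntegral hv
  have hae : Polynomial.aeval η (q12_poly n a d) = 0 := by rw [q12_aeval n a η hη d]; exact h0
  have hdvd : Polynomial.cyclotomic (2 * n + 1) ℤ ∣ q12_poly n a d := by
    rw [Polynomial.cyclotomic_eq_minpoly hη hv]
    exact minpoly.isIntegrallyClosed_dvd hint hae
  have : Fact (Nat.Prime 2) := ⟨Nat.prime_two⟩
  obtain ⟨L, _, _, _⟩ : ∃ (L : Type) (_ : Field L), CharP L 2 ∧ IsAlgClosed L :=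
    ⟨AlgebraicClosure (ZMod 2), inferInstance, inferInstance, inferInstance⟩
  have hne : ((2 * n + 1 : ℕ) : L) ≠ 0 := by
    intro h
    have h2 := (CharP.cast_eq_zero_iff L 2 (2 * n + 1)).1 h
    omega
  have : NeZero ((2 * n + 1 : ℕ) : L) := ⟨hne⟩
  obtain ⟨η', hη'⟩ := IsAlgClosed.exists_root (Polynomial.cyclotomic (2 * n + 1) L) (by
    rw [Polynomial.degree_cyclotomic]
    have := Nat.totient_pos.2 hv
    exact_mod_cast this.ne')
  have hprim : IsPrimitiveRoot η' (2 * n + 1) := (Polynomial.isRoot_cyclotomic_iff).1 hη'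
  obtain ⟨g, hg⟩ := hdvd
  have hz : Polynomial.aeval η' (q12_poly n a d) = 0 := by
    rw [hg, map_mul]
    have h1 : Polynomial.aeval η' (Polynomial.cyclotomic (2 * n + 1) ℤ) = 0 := by
      rw [Polynomial.aeval_def, Polynomial.eval₂_eq_eval_map, Polynomial.map_cyclotomic]
      exact hη'
    rw [h1, zero_mul]
  rw [q12_aeval n a η' hprim d] at hz
  exact distinct_permSum_ne_zero n a han η' hprim d hd hinj hz


end Pool.Agent.Helper805_nf
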