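import Pool.Agent.Helper805_nf.A3
import Pool.Agent.Helper805_nf.B6
import Pool.Agent.Helper805_nf.C1
import Pool.Agent.Helper805_nf.F

set_option autoImplicit false

namespace Pool.Agent.Helper805_nf

open Finset

theorem two_mode_factor {K : Type*} [Field K] (a b n : ℕ) (hab : a + b = n) (η : K)
    (hη : IsPrimitiveRoot η (2 * n + 1)) (d : Fin a → ℕ) (e : Fin b → ℕ)
    (hA : ∑ σ : Equiv.Perm (Fin a), ∏ i, (η ^ ((2 * (σ i : ℕ) + 1) * d i) - (η⁻¹) ^ ((2 * (σ i : ℕ) + 1) * d i)) ≠ 0)
    (hB : ∑ σ : Equiv.Perm (Fin b), ∏ i, (η ^ ((2 * (σ i : ℕ) + 1) * e i) - (η⁻¹) ^ ((2 * (σ i : ℕ) + 1) * e i)) ≠ 0)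
    (L : Multiset ℕ) (hL : ∀ x ∈ L, 1 ≤ x ∧ x ≤ n)
    (hlab : Multiset.map d (Finset.univ : Finset (Fin a)).val + Multiset.map e (Finset.univ : Finset (Fin b)).val = L) :
    ∃ g : Fin n ⊕ Fin n → Fin (2 * n + 1), Function.Injective g ∧
      Multiset.map
        (fun i : Fin n =>
          min (Int.natAbs (((g (Sum.inl i) : ℕ) : ℤ) - ((g (Sum.inr i) : ℕ) : ℤ)))
            (2 * n + 1 - Int.natAbs (((g (Sum.inl i) : ℕ) : ℤ) - ((g (Sum.inr i) : ℕ) : ℤ))))
        (Finset.univ : Finset (Fin n)).val = L := by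
  subst hab
  obtain ⟨x, hx⟩ := two_mode a b η hη d e hA hB
  refine placement_to_factor (a + b) L hL (ι := Fin a ⊕ Fin b) (by simp) (Sum.elim d e) ?_ x ?_
  · rw [← hlab, ← Finset.univ_disjSum_univ]
    simp [Finset.disjSum, Multiset.disjSum, Function.comp_def]
  · intro r r' h
    exact Option.some_injective _ (hx (by simpa using h))

theorem exists_enum (L : Multiset ℕ) (a : ℕ) (ha : Multiset.card L = a) :
    ∃ d : Fin a → ℕ, Multiset.map d (Finset.univ : Finset (Fin a)).val = L := by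
  subst ha
  induction L using Quotient.inductionOn with
  | h l =>
    refine ⟨fun i => l.get (Fin.cast (by simp) i), ?_⟩
    change Multiset.map (fun i : Fin l.length => l.get (Fin.cast (by simp) i)) (Finset.univ : Finset (Fin l.length)).val = _
    rw [Fin.univ_def]
    change ((List.map (fun i : Fin l.length => l.get (Fin.cast (by simp) i)) (List.finRange l.length) : List ℕ) : Multiset ℕ) = (l : Multiset ℕ)
    congr 1
    exact List.map_get_finRange l

theorem T1 (p k n : ℕ) (hp : p.Prime) (hv : 2 * n + 1 = p ^ k) (L : Multiset ℕ) (hcard : Multiset.card L = n)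
    (hL : ∀ x ∈ L, 1 ≤ x ∧ x ≤ n) (hcop : ∀ x ∈ L, ¬ p ∣ x) :
    ∃ g : Fin n ⊕ Fin n → Fin (2 * n + 1), Function.Injective g ∧
      Multiset.map
        (fun i : Fin n =>
          min (Int.natAbs (((g (Sum.inl i) : ℕ) : ℤ) - ((g (Sum.inr i) : ℕ) : ℤ)))
            (2 * n + 1 - Int.natAbs (((g (Sum.inl i) : ℕ) : ℤ) - ((g (Sum.inr i) : ℕ) : ℤ))))
        (Finset.univ : Finset (Fin n)).val = L := by
  obtain ⟨d, hd⟩ := exists_enum L n hcard
  have hdL : ∀ i, d i ∈ L := by
    intro i
    rw [← hd]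
    exact Multiset.mem_map_of_mem d (Finset.mem_univ i)
  have hη := Complex.isPrimitiveRoot_exp (2 * n + 1) (by omega)
  refine two_mode_factor n 0 n rfl _ hη d Fin.elim0
    (unit_permSum_ne_zero p k n hp hv _ hη d (fun i => hcop _ (hdL i))) (by simp) L hL (by simp [hd])

theorem T2 (n : ℕ) (L : Multiset ℕ) (hcard : Multiset.card L = n)
    (hL : ∀ x ∈ L, 1 ≤ x ∧ x ≤ n) (hmult : ∀ x, L.count x ≤ 2) :
    ∃ g : Fin n ⊕ Fin n → Fin (2 * n + 1), Function.Injective g ∧
      Multiset.map
        (fun i : Fin n =>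
          min (Int.natAbs (((g (Sum.inl i) : ℕ) : ℤ) - ((g (Sum.inr i) : ℕ) : ℤ)))
            (2 * n + 1 - Int.natAbs (((g (Sum.inl i) : ℕ) : ℤ) - ((g (Sum.inr i) : ℕ) : ℤ))))
        (Finset.univ : Finset (Fin n)).val = L := by
  classical
  have hle : L.dedup ≤ L := Multiset.dedup_le L
  have hsum : L.dedup + (L - L.dedup) = L := by
    rw [add_comm]; exact Multiset.sub_add_cancel hle
  have hnd1 : L.dedup.Nodup := Multiset.nodup_dedup L
  have hnd2 : (L - L.dedup).Nodup := by
    rw [Multiset.nodup_iff_count_le_one]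
    intro x
    rw [Multiset.count_sub]
    have h2 := hmult x
    by_cases hx : x ∈ L
    · have : Multiset.count x L.dedup = 1 := Multiset.count_eq_one_of_mem hnd1 (Multiset.mem_dedup.2 hx)
      omega
    · have : Multiset.count x L = 0 := Multiset.count_eq_zero.2 hx
      omega
  have hc : Multiset.card L.dedup + Multiset.card (L - L.dedup) = n := by
    rw [← Multiset.card_add, hsum, hcard]
  obtain ⟨d, hd⟩ := exists_enum L.dedup _ rfl
  obtain ⟨e, he⟩ := exists_enum (L - L.dedup) _ rfl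
  have hdi : Function.Injective d := by
    rw [← hd] at hnd1
    intro i j hij
    exact Multiset.inj_on_of_nodup_map hnd1 i (Finset.mem_univ i) j (Finset.mem_univ j) hij
  have hei : Function.Injective e := by
    rw [← he] at hnd2
    intro i j hij
    exact Multiset.inj_on_of_nodup_map hnd2 i (Finset.mem_univ i) j (Finset.mem_univ j) hij
  have hdL : ∀ i, 1 ≤ d i ∧ d i ≤ n := by
    intro i
    apply hL
    apply Multiset.subset_of_le hle
    rw [← hd]
    exact Multiset.mem_map_of_mem d (Finset.mem_univ i)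
  have heL : ∀ i, 1 ≤ e i ∧ e i ≤ n := by
    intro i
    apply hL
    apply Multiset.subset_of_le (Multiset.sub_le_self L L.dedup)
    rw [← he]
    exact Multiset.mem_map_of_mem e (Finset.mem_univ i)
  let K := AlgebraicClosure (ZMod 2)
  have : CharP K 2 := inferInstance
  have : NeZero ((2 * n + 1 : ℕ) : K) := by
    constructor
    have h2 : (2 : K) = 0 := CharTwo.two_eq_zero
    rw [Nat.cast_add, Nat.cast_mul, Nat.cast_ofNat, h2]
    simp
  obtain ⟨η, hη⟩ := HasEnoughRootsOfUnity.exists_primitiveRoot K (2 * n + 1)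
  exact two_mode_factor _ _ n hc η hη d e
    (distinct_permSum_ne_zero n _ (by omega) η hη d hdL hdi)
    (distinct_permSum_ne_zero n _ (by omega) η hη e heL hei) L hL (by rw [hd, he, hsum])

end Pool.Agent.Helper805_nf
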