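import Mathlib
import Pool.Agent.Helper805_nf.Defs7
import Pool.Agent.Helper805_nf.T

set_option autoImplicit false

namespace Pool.Agent.Helper805_nf

open Finset



theorem q13_pow {K : Type*} [Field K] {n s m : ℕ} {ζ : K} (h1 : ζ ^ (2 * n + 1) = 1)
    (hm : m + s = n) : (ζ ^ (n + 1)) ^ (2 * s + 1) = (ζ ^ m)⁻¹ := by
  have h2 : (ζ ^ (n + 1)) ^ (2 * s + 1) = ζ ^ (n + s + 1) := by
    rw [← pow_mul, show (n + 1) * (2 * s + 1) = (2 * n + 1) * s + (n + s + 1) by ring, pow_add,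
      pow_mul, h1, one_pow, one_mul]
  rw [h2]
  refine eq_inv_of_mul_eq_one_left ?_
  rw [← pow_add, show n + s + 1 + m = 2 * n + 1 by omega, h1]

theorem two_mode_cols {K : Type*} [Field K] (a b n : ℕ) (hab : a + b = n) (ζ : K)
    (hζ : IsPrimitiveRoot ζ (2 * n + 1)) (d : Fin a → ℕ) (e : Fin b → ℕ)
    (hA : ∑ π : Equiv.Perm (Fin a), ∏ i, (ζ ^ (((π i : ℕ) + (b + 1)) * d i) -
      (ζ⁻¹) ^ (((π i : ℕ) + (b + 1)) * d i)) ≠ 0)
    (hB : ∀ η : K, IsPrimitiveRoot η (2 * n + 1) → ∑ σ : Equiv.Perm (Fin b), ∏ i,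
      (η ^ ((2 * (σ i : ℕ) + 1) * e i) - (η⁻¹) ^ ((2 * (σ i : ℕ) + 1) * e i)) ≠ 0)
    (L : Multiset ℕ) (hL : ∀ x ∈ L, 1 ≤ x ∧ x ≤ n)
    (hlab : Multiset.map d (Finset.univ : Finset (Fin a)).val + Multiset.map e (Finset.univ : Finset (Fin b)).val = L) :
    Realizable n L := by
  have hcop : (n + 1).Coprime (2 * n + 1) := by
    have h : 2 * n + 1 = n + (n + 1) := by ring
    rw [h, Nat.coprime_add_self_right]
    exact (Nat.coprime_self_add_left (m := n) (n := 1)).2 (Nat.coprime_one_left n)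
  have hη : IsPrimitiveRoot (ζ ^ (n + 1)) (2 * n + 1) := hζ.pow_of_coprime (n + 1) hcop
  have h1 : ζ ^ (2 * n + 1) = 1 := hζ.pow_eq_one
  refine two_mode_factor a b n hab (ζ ^ (n + 1)) hη d e ?_ (hB _ hη) L hL hlab
  have key : ∀ σ : Equiv.Perm (Fin a), ∏ i, ((ζ ^ (n + 1)) ^ ((2 * (σ i : ℕ) + 1) * d i) -
      ((ζ ^ (n + 1))⁻¹) ^ ((2 * (σ i : ℕ) + 1) * d i)) =
      (-1) ^ a * ∏ i, (ζ ^ (((Fin.rev (σ i) : ℕ) + (b + 1)) * d i) -
      (ζ⁻¹) ^ (((Fin.rev (σ i) : ℕ) + (b + 1)) * d i)) := by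
    intro σ
    have h2 : ((-1 : K)) ^ a = ∏ _i : Fin a, (-1 : K) := by
      rw [Finset.prod_const, Finset.card_univ, Fintype.card_fin]
    rw [h2, ← Finset.prod_mul_distrib]
    refine Finset.prod_congr rfl fun i _ => ?_
    have hs : ((σ i : Fin a) : ℕ) < a := (σ i).isLt
    have hr : (Fin.rev (σ i) : ℕ) = a - ((σ i : ℕ) + 1) := Fin.val_rev _
    have hm : (Fin.rev (σ i) : ℕ) + (b + 1) + (σ i : ℕ) = n := by
      rw [hr]; omega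
    have e1 : (ζ ^ (n + 1)) ^ ((2 * (σ i : ℕ) + 1) * d i) =
        (ζ ^ (((Fin.rev (σ i) : ℕ) + (b + 1)) * d i))⁻¹ := by
      rw [pow_mul, q13_pow h1 hm, inv_pow, pow_mul ζ]
    rw [inv_pow (ζ ^ (n + 1)), e1, inv_pow ζ, inv_inv]
    ring
  rw [Finset.sum_congr rfl fun σ _ => key σ, ← Finset.mul_sum]
  refine mul_ne_zero (pow_ne_zero a (neg_ne_zero.2 one_ne_zero)) ?_
  have hsum := Fintype.sum_equiv (Equiv.mulLeft (Fin.revPerm : Equiv.Perm (Fin a)))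
    (fun σ : Equiv.Perm (Fin a) => ∏ i, (ζ ^ (((Fin.rev (σ i) : ℕ) + (b + 1)) * d i) -
      (ζ⁻¹) ^ (((Fin.rev (σ i) : ℕ) + (b + 1)) * d i)))
    (fun π : Equiv.Perm (Fin a) => ∏ i, (ζ ^ (((π i : ℕ) + (b + 1)) * d i) -
      (ζ⁻¹) ^ (((π i : ℕ) + (b + 1)) * d i))) (fun σ => rfl)
  rw [hsum]
  exact hA

end Pool.Agent.Helper805_nf
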