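import Pool.Agent.Helper805_nf.Defs3

set_option autoImplicit false

namespace Pool.Agent.Helper805_nf

open Finset


theorem norm_nat_facts {K : Type*} [NormedField K] [IsUltrametricDist K] (p : ℕ) (hp : p.Prime)
    (hpn : ‖(p : K)‖ = (p : ℝ)⁻¹) (a : ℕ) :
    ‖(a : K)‖ ≤ 1 ∧ (¬ p ∣ a → ‖(a : K)‖ = 1) ∧ (p ∣ a → ‖(a : K)‖ ≤ (p : ℝ)⁻¹) := by
  have h1 : ∀ n : ℕ, ‖(n : K)‖ ≤ 1 := fun n => IsUltrametricDist.norm_natCast_le_one K n
  have h1z : ∀ n : ℤ, ‖(n : K)‖ ≤ 1 := fun n => IsUltrametricDist.norm_intCast_le_one K n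
  refine ⟨h1 a, ?_, ?_⟩
  · intro hpa
    by_contra hne
    have hlt : ‖(a : K)‖ < 1 := lt_of_le_of_ne (h1 a) hne
    have hcop : IsCoprime (a : ℤ) (p : ℤ) := by
      have := (Nat.Prime.coprime_iff_not_dvd hp).2 hpa
      exact (Nat.isCoprime_iff_coprime.2 this).symm
    obtain ⟨u, v, huv⟩ := hcop
    have hK : (u : K) * (a : K) + (v : K) * (p : K) = 1 := by
      have := congrArg (fun z : ℤ => (z : K)) huv
      push_cast at this
      exact this
    have hplt : ‖(p : K)‖ < 1 := by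
      rw [hpn]
      apply inv_lt_one_of_one_lt₀
      exact_mod_cast hp.one_lt
    have ha : ‖(u : K) * (a : K)‖ < 1 := by
      rw [norm_mul]
      calc ‖(u : K)‖ * ‖(a : K)‖ ≤ 1 * ‖(a : K)‖ :=
            mul_le_mul_of_nonneg_right (h1z u) (norm_nonneg _)
        _ < 1 := by rw [one_mul]; exact hlt
    have hb : ‖(v : K) * (p : K)‖ < 1 := by
      rw [norm_mul]
      calc ‖(v : K)‖ * ‖(p : K)‖ ≤ 1 * ‖(p : K)‖ :=
            mul_le_mul_of_nonneg_right (h1z v) (norm_nonneg _)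
        _ < 1 := by rw [one_mul]; exact hplt
    have hc : ‖(u : K) * (a : K) + (v : K) * (p : K)‖ < 1 :=
      lt_of_le_of_lt (IsUltrametricDist.norm_add_le_max _ _) (max_lt ha hb)
    rw [hK, norm_one] at hc
    exact lt_irrefl _ hc
  · rintro ⟨b, rfl⟩
    rw [Nat.cast_mul, norm_mul, hpn]
    calc (p : ℝ)⁻¹ * ‖(b : K)‖ ≤ (p : ℝ)⁻¹ * 1 :=
          mul_le_mul_of_nonneg_left (h1 b) (by positivity)
      _ = (p : ℝ)⁻¹ := mul_one _


end Pool.Agent.Helper805_nf
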