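import Pool.Agent.Helper805_nf.Defs3

set_option autoImplicit false

namespace Pool.Agent.Helper805_nf

open Finset


theorem rho_mul {K : Type*} [Field K] (z : K) (hz : z ≠ 0) (d : ℕ) :
    (z - z⁻¹) * rho z d = z ^ d - (z⁻¹) ^ d := by
  unfold rho
  rw [Finset.mul_sum]
  have h : ∀ s ∈ Finset.range d, (z - z⁻¹) * z ^ ((d : ℤ) - 1 - 2 * (s : ℤ)) =
      z ^ ((d : ℤ) - 2 * (s : ℤ)) - z ^ ((d : ℤ) - 2 * ((s + 1 : ℕ) : ℤ)) := by
    intro s _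
    have e1 : z ^ ((d : ℤ) - 2 * (s : ℤ)) = z * z ^ ((d : ℤ) - 1 - 2 * (s : ℤ)) := by
      rw [← zpow_one_add₀ hz]
      congr 1
      ring
    have e2 : z ^ ((d : ℤ) - 2 * ((s + 1 : ℕ) : ℤ)) = z⁻¹ * z ^ ((d : ℤ) - 1 - 2 * (s : ℤ)) := by
      rw [← zpow_neg_one, ← zpow_add₀ hz]
      congr 1
      push_cast
      ring
    rw [e1, e2]
    ring
  rw [Finset.sum_congr rfl h, Finset.sum_range_sub' (fun s : ℕ => z ^ ((d : ℤ) - 2 * (s : ℤ)))]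
  have e3 : (d : ℤ) - 2 * ((0 : ℕ) : ℤ) = d := by simp
  have e4 : (d : ℤ) - 2 * (d : ℤ) = -d := by ring
  rw [e3, e4, zpow_natCast, zpow_neg, zpow_natCast, inv_pow]

end Pool.Agent.Helper805_nf
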