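import Mathlib
import Pool.Agent.Helper805_nf.Defs7
import Pool.Agent.Helper805_nf.Y1
import Pool.Agent.Helper805_nf.Y3

set_option autoImplicit false

namespace Pool.Agent.Helper805_nf

open Finset






/-- The closed unit ball of an ultrametric field. -/
def q14_O (K : Type) [NormedField K] [IsUltrametricDist K] : Subring K where
  carrier := {x | ‖x‖ ≤ 1}
  mul_mem' := by
    intro a b ha hb
    simp only [Set.mem_ofPred_eq, norm_mul] at *
    exact mul_le_one₀ ha (norm_nonneg b) hb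
  one_mem' := by simp
  add_mem' := by
    intro a b ha hb
    exact (IsUltrametricDist.norm_add_le_max a b).trans (max_le ha hb)
  zero_mem' := by simp
  neg_mem' := by
    intro a ha
    simpa using ha

theorem q14_mem {K : Type} [NormedField K] [IsUltrametricDist K] (x : K) :
    x ∈ q14_O K ↔ ‖x‖ ≤ 1 := Iff.rfl

/-- The open unit ball as an ideal. -/
def q14_P (K : Type) [NormedField K] [IsUltrametricDist K] : Ideal (q14_O K) where
  carrier := {x | ‖(x : K)‖ < 1}
  add_mem' := by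
    intro a b ha hb
    simp only [Set.mem_ofPred_eq] at *
    exact lt_of_le_of_lt (IsUltrametricDist.norm_add_le_max (a : K) (b : K)) (max_lt ha hb)
  zero_mem' := by simp
  smul_mem' := by
    intro c x hx
    simp only [Set.mem_ofPred_eq, smul_eq_mul, Subring.coe_mul, norm_mul] at *
    exact lt_of_le_of_lt (mul_le_of_le_one_left (norm_nonneg _) c.2) hx

theorem q14_memP {K : Type} [NormedField K] [IsUltrametricDist K] (x : q14_O K) :
    x ∈ q14_P K ↔ ‖(x : K)‖ < 1 := Iff.rfl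

theorem q14_max (K : Type) [NormedField K] [IsUltrametricDist K] : (q14_P K).IsMaximal := by
  rw [Ideal.isMaximal_iff]
  refine ⟨?_, ?_⟩
  · rw [q14_memP]
    simp
  · intro J x hJ hx hxJ
    rw [q14_memP, not_lt] at hx
    have h1 : ‖(x : K)‖ = 1 := le_antisymm x.2 hx
    have h0 : (x : K) ≠ 0 := by
      intro h
      rw [h, norm_zero] at h1
      exact zero_ne_one h1
    have hy : (x : K)⁻¹ ∈ q14_O K := by
      rw [q14_mem, norm_inv, h1, inv_one]
    have := J.mul_mem_left ⟨(x : K)⁻¹, hy⟩ hxJ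
    have he : (⟨(x : K)⁻¹, hy⟩ : q14_O K) * x = 1 := by
      apply Subtype.ext
      simp [h0]
    rwa [he] at this

/-- The heart: the product over `l`. -/
theorem q14_prod {K : Type} [NormedField K] [IsUltrametricDist K] {k : Type} [Field k]
    (φ : q14_O K →+* k) (m : ℕ) (z x : q14_O K) (zi xi : q14_O K) (hz : z * zi = 1) (hx : x * xi = 1)
    (hxk : φ x = 1) (hzx : ∀ j, m ∣ j → z ^ j = x ^ j) (a : ℕ) (j : Fin a → ℕ) (c : Fin a → Prop)
    [DecidablePred c] (hc : ∀ l, c l → m ∣ j l) :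
    ∃ G : q14_O K, ∏ l, (z ^ (j l) - zi ^ (j l)) = (x - xi) ^ (Finset.univ.filter c).card * G ∧
      φ G = ∏ l, (if c l then ((j l : ℕ) : k) else φ z ^ (j l) - (φ z)⁻¹ ^ (j l)) := by
  classical
  have hzi : φ zi = (φ z)⁻¹ := by
    apply eq_inv_of_mul_eq_one_right
    rw [← map_mul, hz, map_one]
  have hxi : φ xi = 1 := by
    have : φ x * φ xi = 1 := by rw [← map_mul, hx, map_one]
    rwa [hxk, one_mul] at this
  have hzxi : ∀ j, m ∣ j → zi ^ j = xi ^ j := by
    intro j hj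
    have h1 : z ^ j * zi ^ j = 1 := by rw [← mul_pow, hz, one_pow]
    have h2 : x ^ j * xi ^ j = 1 := by rw [← mul_pow, hx, one_pow]
    rw [hzx j hj] at h1
    calc zi ^ j = (x ^ j * xi ^ j) * zi ^ j := by rw [h2, one_mul]
      _ = (x ^ j * zi ^ j) * xi ^ j := by ring
      _ = xi ^ j := by rw [h1, one_mul]
  refine ⟨∏ l, (if c l then ∑ i ∈ range (j l), x ^ i * xi ^ (j l - 1 - i) else z ^ (j l) - zi ^ (j l)),
    ?_, ?_⟩
  · have h1 : (x - xi) ^ (Finset.univ.filter c).card = ∏ l : Fin a, (if c l then (x - xi) else 1) := by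
      rw [Finset.prod_ite]
      simp
    rw [h1, ← Finset.prod_mul_distrib]
    apply Finset.prod_congr rfl
    intro l _
    by_cases h : c l
    · rw [if_pos h, if_pos h, hzx _ (hc l h), hzxi _ (hc l h), mul_comm,
        (Commute.all x xi).geom_sum₂_mul]
    · rw [if_neg h, if_neg h, one_mul]
  · rw [map_prod]
    apply Finset.prod_congr rfl
    intro l _
    by_cases h : c l
    · rw [if_pos h, if_pos h, map_sum]
      simp [hxk, hxi]
    · rw [if_neg h, if_neg h, map_sub, map_pow, map_pow, hzi]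

theorem residue_transfer {K : Type} [NormedField K] [IsUltrametricDist K] (p : ℕ) (hp : p.Prime)
    (hpn : ‖(p : K)‖ = (p : ℝ)⁻¹) (m n : ℕ) (hpm : ¬ p ∣ m) (hn : 2 * n + 1 = m * p) (ζ : K)
    (hζ : IsPrimitiveRoot ζ (2 * n + 1)) :
    ∃ (k : Type) (_ : Field k) (_ : CharP k p) (ω : k), IsPrimitiveRoot ω m ∧
      ∀ (a : ℕ) (e κ : Fin a → ℕ),
        ((∑ π : Equiv.Perm (Fin a), ∏ l, (if m ∣ κ (π l) then ((κ (π l) * e l : ℕ) : k)
          else ω ^ (κ (π l) * e l) - (ω⁻¹) ^ (κ (π l) * e l)) ≠ 0 ∨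
        ∑ π : Equiv.Perm (Fin a), ∏ l, (if m ∣ e l then ((κ (π l) * e l : ℕ) : k)
          else ω ^ (κ (π l) * e l) - (ω⁻¹) ^ (κ (π l) * e l)) ≠ 0) →
        ∑ π : Equiv.Perm (Fin a), ∏ l, (ζ ^ (κ (π l) * e l) - (ζ⁻¹) ^ (κ (π l) * e l)) ≠ 0) := by
  classical
  haveI hPm : (q14_P K).IsMaximal := q14_max K
  have hp0 : 0 < p := hp.pos
  have hm0 : 0 < m := by
    rcases Nat.eq_zero_or_pos m with h | h
    · rw [h] at hn; omega
    · exact h
  have hvpos : 2 * n + 1 ≠ 0 := by omega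
  have hp2 : ¬ p ∣ 2 := by
    intro h
    have h2 : p = 2 := (Nat.prime_dvd_prime_iff_eq hp Nat.prime_two).1 h
    rw [h2] at hn
    omega
  have hco : Nat.Coprime m p := ((Nat.Prime.coprime_iff_not_dvd hp).2 hpm).symm
  have hζ0 : ζ ≠ 0 := hζ.ne_zero hvpos
  have hζn : ‖ζ‖ = 1 := by
    have h1 : ‖ζ‖ ^ (2 * n + 1) = 1 := by rw [← norm_pow, hζ.pow_eq_one, norm_one]
    exact (pow_eq_one_iff_of_nonneg (norm_nonneg _) hvpos).1 h1
  let z : q14_O K := ⟨ζ, by rw [q14_mem, hζn]⟩
  let zi : q14_O K := ⟨ζ⁻¹, by rw [q14_mem, norm_inv, hζn, inv_one]⟩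
  have hzzi : z * zi = 1 := Subtype.ext (by simp [z, zi, hζ0])
  let k := q14_O K ⧸ q14_P K
  letI : Field k := Ideal.Quotient.field (q14_P K)
  let φ : q14_O K →+* k := Ideal.Quotient.mk (q14_P K)
  have hφ0 : ∀ y : q14_O K, φ y = 0 ↔ ‖(y : K)‖ < 1 := by
    intro y
    show Ideal.Quotient.mk (q14_P K) y = 0 ↔ _
    rw [Ideal.Quotient.eq_zero_iff_mem]
    exact q14_memP y
  have hchar : CharP k p := by
    rw [CharP.charP_iff_prime_eq_zero hp]
    have h1 : ((p : ℕ) : k) = φ ((p : ℕ) : q14_O K) := (map_natCast φ p).symm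
    rw [h1, hφ0]
    have h2 : (((p : ℕ) : q14_O K) : K) = (p : K) := by simp
    rw [h2, hpn]
    exact inv_lt_one_of_one_lt₀ (by exact_mod_cast hp.one_lt)
  haveI := hchar
  haveI : Fact p.Prime := ⟨hp⟩
  have hfrob : ∀ y : k, y ^ p = 1 → y = 1 := by
    intro y hy
    have h1 : (y - 1) ^ p = 0 := by
      rw [sub_pow_char, hy, one_pow, sub_self]
    have h2 := pow_eq_zero_iff hp.ne_zero |>.1 h1
    exact sub_eq_zero.1 h2
  have hzv : z ^ (m * p) = 1 := by
    apply Subtype.ext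
    have : ζ ^ (m * p) = 1 := by rw [← hn]; exact hζ.pow_eq_one
    simpa [z] using this
  have hω : IsPrimitiveRoot (φ z) m := by
    rw [IsPrimitiveRoot.iff hm0]
    refine ⟨?_, ?_⟩
    · apply hfrob
      rw [← pow_mul, ← map_pow, hzv, map_one]
    · intro i hi0 him hi1
      obtain ⟨M, rfl⟩ : ∃ M, m = M + 1 := ⟨m - 1, by omega⟩
      have hx : IsPrimitiveRoot (ζ ^ p) (M + 1) := by
        apply hζ.pow (by omega)
        rw [hn, mul_comm]
      have hprod := hx.prod_one_sub_pow_eq_order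
      have hnorm : ‖((M : K) + 1)‖ = 1 := by
        have := (norm_nat_facts p hp hpn (M + 1)).2.1 hpm
        push_cast at this
        exact this
      rw [← hprod, norm_prod] at hnorm
      have hle : ∀ j ∈ range M, ‖1 - (ζ ^ p) ^ (j + 1)‖ ≤ 1 := by
        intro j _
        have h1 : (1 - z ^ (p * (j + 1)) : q14_O K) ∈ (⊤ : Subring (q14_O K)) := trivial
        have h2 := (1 - z ^ (p * (j + 1)) : q14_O K).2
        rw [q14_mem] at h2
        simpa [z, pow_mul] using h2
      have hlt : ‖1 - (ζ ^ p) ^ i‖ < 1 := by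
        have h1 : φ (1 - z ^ (p * i)) = 0 := by
          rw [map_sub, map_one, map_pow, mul_comm p i, pow_mul, hi1, one_pow, sub_self]
        rw [hφ0] at h1
        simpa [z, pow_mul] using h1
      have hmem : i - 1 ∈ range M := by
        rw [mem_range]; omega
      have hcontra : ∏ j ∈ range M, ‖1 - (ζ ^ p) ^ (j + 1)‖ < 1 := by
        rw [← Finset.mul_prod_erase _ _ hmem]
        have h3 : i - 1 + 1 = i := by omega
        rw [h3]
        calc ‖1 - (ζ ^ p) ^ i‖ * ∏ x ∈ (range M).erase (i - 1), ‖1 - (ζ ^ p) ^ (x + 1)‖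
            ≤ ‖1 - (ζ ^ p) ^ i‖ * 1 := by
              apply mul_le_mul_of_nonneg_left _ (norm_nonneg _)
              apply Finset.prod_le_one
              · intro j _; exact norm_nonneg _
              · intro j hj; exact hle j (Finset.mem_of_mem_erase hj)
          _ < 1 := by rw [mul_one]; exact hlt
      rw [hnorm] at hcontra
      exact lt_irrefl _ hcontra
  obtain ⟨r0, hr0m, hr0p⟩ := Nat.chineseRemainder hco 0 1
  have hmr : m ∣ r0 := (Nat.modEq_zero_iff_dvd).1 hr0m
  let x : q14_O K := z ^ r0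
  let xi : q14_O K := zi ^ r0
  have hxxi : x * xi = 1 := by
    show z ^ r0 * zi ^ r0 = 1
    rw [← mul_pow, hzzi, one_pow]
  have hxk : φ x = 1 := by
    apply hfrob
    rw [← map_pow]
    have : x ^ p = 1 := by
      show (z ^ r0) ^ p = 1
      obtain ⟨c, rfl⟩ := hmr
      have : (m * c) * p = (m * p) * c := by ring
      rw [← pow_mul, this, pow_mul, hzv, one_pow]
    rw [this, map_one]
  have hzx : ∀ j, m ∣ j → z ^ j = x ^ j := by
    intro j hj
    show z ^ j = (z ^ r0) ^ j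
    rw [← pow_mul]
    apply pow_eq_pow_of_modEq (n := m * p) _ hzv
    rw [← Nat.modEq_and_modEq_iff_modEq_mul hco]
    refine ⟨?_, ?_⟩
    · have h1 : j ≡ 0 [MOD m] := (Nat.modEq_zero_iff_dvd).2 hj
      have h2 : r0 * j ≡ 0 [MOD m] := (Nat.modEq_zero_iff_dvd).2 (Dvd.dvd.mul_left hj r0)
      exact h1.trans h2.symm
    · have h1 : r0 * j ≡ 1 * j [MOD p] := Nat.ModEq.mul_right j hr0p
      rw [one_mul] at h1
      exact h1.symm
  have hϖ : ((x - xi : q14_O K) : K) ≠ 0 := by
    intro h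
    have h1 : ζ ^ r0 = (ζ⁻¹) ^ r0 := by
      have : ((x - xi : q14_O K) : K) = ζ ^ r0 - (ζ⁻¹) ^ r0 := by simp [x, xi, z, zi]
      rw [this] at h
      exact sub_eq_zero.1 h
    have h2 : ζ ^ (2 * r0) = 1 := by
      rw [two_mul, pow_add]
      nth_rewrite 2 [h1]
      rw [← mul_pow, mul_inv_cancel₀ hζ0, one_pow]
    rw [hζ.pow_eq_one_iff_dvd, hn] at h2
    have h3 : p ∣ 2 * r0 := (Dvd.intro_left m rfl).trans h2
    rcases (Nat.Prime.dvd_mul hp).1 h3 with h4 | h4
    · exact hp2 h4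
    · have h5 : r0 ≡ 0 [MOD p] := (Nat.modEq_zero_iff_dvd).2 h4
      have h6 : 1 ≡ 0 [MOD p] := hr0p.symm.trans h5
      exact hp.one_lt.ne' (Nat.dvd_one.1 ((Nat.modEq_zero_iff_dvd).1 h6))
  -- general transfer
  have key : ∀ (a t : ℕ) (e κ : Fin a → ℕ) (c : Equiv.Perm (Fin a) → Fin a → Prop)
      (_ : ∀ π, DecidablePred (c π)) (_ : ∀ π l, c π l → m ∣ κ (π l) * e l)
      (_ : ∀ π, (Finset.univ.filter (c π)).card = t),
      ∑ π : Equiv.Perm (Fin a), ∏ l, (if c π l then ((κ (π l) * e l : ℕ) : k)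
          else (φ z) ^ (κ (π l) * e l) - ((φ z)⁻¹) ^ (κ (π l) * e l)) ≠ 0 →
      ∑ π : Equiv.Perm (Fin a), ∏ l, (ζ ^ (κ (π l) * e l) - (ζ⁻¹) ^ (κ (π l) * e l)) ≠ 0 := by
    intro a t e κ c hdec hc ht hne hzero
    apply hne
    have hG : ∀ π : Equiv.Perm (Fin a), ∃ G : q14_O K,
        ∏ l, (z ^ (κ (π l) * e l) - zi ^ (κ (π l) * e l)) = (x - xi) ^ t * G ∧
        φ G = ∏ l, (if c π l then ((κ (π l) * e l : ℕ) : k)
          else (φ z) ^ (κ (π l) * e l) - ((φ z)⁻¹) ^ (κ (π l) * e l)) := by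
      intro π
      have := q14_prod φ m z x zi xi hzzi hxxi hxk hzx a (fun l => κ (π l) * e l) (c π) (hc π)
      rw [ht π] at this
      exact this
    choose G hG1 hG2 using hG
    have hsum : (x - xi) ^ t * ∑ π, G π = 0 := by
      rw [Finset.mul_sum, ← Finset.sum_congr rfl (fun π _ => hG1 π)]
      apply Subtype.ext
      have h7 : ((∑ π : Equiv.Perm (Fin a), ∏ l, (z ^ (κ (π l) * e l) - zi ^ (κ (π l) * e l)) :
          q14_O K) : K) = ∑ π : Equiv.Perm (Fin a), ∏ l, (ζ ^ (κ (π l) * e l) -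
            (ζ⁻¹) ^ (κ (π l) * e l)) := by
        push_cast
        rfl
      rw [h7, hzero]
      rfl
    have hsum2 : ∑ π, G π = 0 := by
      have h1 : ((x - xi) ^ t : q14_O K) ≠ 0 := by
        apply pow_ne_zero
        intro h
        apply hϖ
        rw [h]
        rfl
      exact (mul_eq_zero.1 hsum).resolve_left h1
    rw [← Finset.sum_congr rfl (fun π _ => hG2 π), ← map_sum, hsum2, map_zero]
  refine ⟨k, inferInstance, hchar, φ z, hω, ?_⟩
  intro a e κ h
  rcases h with h | h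
  · refine key a (Finset.univ.filter (fun i => m ∣ κ i)).card e κ (fun π l => m ∣ κ (π l))
      (fun π => inferInstance) (fun π l hl => Dvd.dvd.mul_right hl _) ?_ h
    intro π
    apply Finset.card_bij (fun l _ => π l)
    · intro l hl
      simpa using hl
    · intro l _ l' _ hll
      exact π.injective hll
    · intro i hi
      exact ⟨π.symm i, by simpa using hi, by simp⟩
  · exact key a (Finset.univ.filter (fun l => m ∣ e l)).card e κ (fun π l => m ∣ e l)
      (fun π => inferInstance) (fun π l hl => Dvd.dvd.mul_left hl _) (fun π => rfl) h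



end Pool.Agent.Helper805_nf
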