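import Mathlib
import Pool.Agent.Helper805_nf.Defs7

set_option autoImplicit false

namespace Pool.Agent.Helper805_nf

open Finset



/-- The exponent indicator of a set. -/
noncomputable def q5_one {a : ℕ} (A : Finset (Fin a)) : Fin a →₀ ℕ :=
  Finsupp.equivFunOnFinite.symm (fun l => if l ∈ A then 1 else 0)

theorem q5_one_apply {a : ℕ} (A : Finset (Fin a)) (l : Fin a) :
    q5_one A l = if l ∈ A then 1 else 0 := by
  simp [q5_one]

theorem q5_coeff_mul {k : Type*} [CommRing k] {a : ℕ} (A : Finset (Fin a))
    (F G : MvPolynomial (Fin a) k) :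
    MvPolynomial.coeff (q5_one A) (F * G) =
      ∑ B ∈ A.powerset, MvPolynomial.coeff (q5_one B) F * MvPolynomial.coeff (q5_one (A \ B)) G := by
  rw [MvPolynomial.coeff_mul]
  symm
  refine Finset.sum_nbij' (fun B => (q5_one B, q5_one (A \ B)))
    (fun x => Finset.univ.filter (fun l => x.1 l = 1)) ?_ ?_ ?_ ?_ ?_
  · intro B hB
    rw [Finset.mem_powerset] at hB
    rw [Finset.HasAntidiagonal.mem_antidiagonal]
    ext l
    simp only [Finsupp.add_apply, q5_one_apply, Finset.mem_sdiff]
    by_cases h1 : l ∈ B
    · simp [h1, hB h1]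
    · simp [h1]
  · intro x hx
    rw [Finset.HasAntidiagonal.mem_antidiagonal] at hx
    rw [Finset.mem_powerset]
    intro l hl
    have h1 := (Finset.mem_filter.1 hl).2
    have h2 := DFunLike.congr_fun hx l
    rw [Finsupp.add_apply, q5_one_apply, h1] at h2
    by_contra h3
    rw [if_neg h3] at h2
    omega
  · intro B hB
    ext l
    simp only [Finset.mem_filter, Finset.mem_univ, true_and, q5_one_apply]
    by_cases h1 : l ∈ B <;> simp [h1]
  · intro x hx
    rw [Finset.HasAntidiagonal.mem_antidiagonal] at hx
    have h0 : ∀ l, x.1 l + x.2 l = if l ∈ A then 1 else 0 := by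
      intro l
      have h2 := DFunLike.congr_fun hx l
      rw [Finsupp.add_apply, q5_one_apply] at h2
      exact h2
    ext l
    · have := h0 l
      simp only [q5_one_apply, Finset.mem_filter, Finset.mem_univ, true_and]
      split_ifs at this ⊢ <;> omega
    · have := h0 l
      simp only [q5_one_apply, Finset.mem_sdiff, Finset.mem_filter, Finset.mem_univ, true_and]
      by_cases hA : l ∈ A
      · rw [if_pos hA] at this
        by_cases hx1 : x.1 l = 1
        · rw [if_neg (fun h => h.2 hx1)]; omega
        · rw [if_pos ⟨hA, hx1⟩]; omega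
      · rw [if_neg hA] at this
        rw [if_neg (fun h => hA h.1)]; omega
  · intro B hB
    rfl

theorem q5_coeff_lf {k : Type*} [CommRing k] {a : ℕ} (z : Fin a → k) (A : Finset (Fin a)) :
    MvPolynomial.coeff (q5_one A) (lf z) = if A.card = 1 then ∏ l ∈ A, z l else 0 := by
  have h1 : ∀ l : Fin a, (Finsupp.single l 1 : Fin a →₀ ℕ) = q5_one A ↔ A = {l} := by
    intro l
    constructor
    · intro h
      ext m
      have h2 := DFunLike.congr_fun h m
      rw [q5_one_apply, Finsupp.single_apply] at h2
      rw [Finset.mem_singleton]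
      by_cases hm : m ∈ A
      · rw [if_pos hm] at h2
        split_ifs at h2 with h3
        exact ⟨fun _ => h3.symm, fun _ => hm⟩
      · rw [if_neg hm] at h2
        split_ifs at h2 with h3
        · exact ⟨fun h => absurd h hm, fun h => absurd h.symm h3⟩
    · intro h
      ext m
      rw [q5_one_apply, Finsupp.single_apply, h]
      simp only [Finset.mem_singleton, eq_comm]
  unfold lf
  rw [MvPolynomial.coeff_sum]
  simp only [MvPolynomial.coeff_C_mul, MvPolynomial.coeff_X, h1]
  split_ifs with hc
  · obtain ⟨l, hl⟩ := Finset.card_eq_one.1 hc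
    subst hl
    simp [Finset.sum_ite_eq]
  · apply Finset.sum_eq_zero
    intro l _
    rw [if_neg (fun h => hc (by rw [h]; exact Finset.card_singleton l)), mul_zero]

theorem q5_coeff_lf_pow {k : Type*} [CommRing k] {a : ℕ} (z : Fin a → k) (s : ℕ) :
    ∀ A : Finset (Fin a), MvPolynomial.coeff (q5_one A) (lf z ^ s) =
      if A.card = s then (s.factorial : k) * ∏ l ∈ A, z l else 0 := by
  induction s with
  | zero =>
    intro A
    rw [pow_zero, MvPolynomial.coeff_one]
    by_cases h : A = ∅
    · subst h
      rw [if_pos, if_pos]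
      · simp
      · simp
      · ext l
        simp [q5_one_apply]
    · rw [if_neg, if_neg]
      · intro hc
        exact h (Finset.card_eq_zero.1 hc)
      · intro hc
        apply h
        ext l
        have := DFunLike.congr_fun hc l
        rw [q5_one_apply] at this
        constructor
        · intro hl
          rw [if_pos hl] at this
          simp at this
        · intro hl
          simp at hl
  | succ s ih =>
    intro A
    rw [pow_succ, q5_coeff_mul]
    have h1 : ∀ B ∈ A.powerset, MvPolynomial.coeff (q5_one B) (lf z ^ s) *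
        MvPolynomial.coeff (q5_one (A \ B)) (lf z) =
        if (B.card = s ∧ A.card = s + 1) then (s.factorial : k) * ∏ l ∈ A, z l else 0 := by
      intro B hB
      rw [Finset.mem_powerset] at hB
      rw [ih B, q5_coeff_lf]
      have hc : (A \ B).card + B.card = A.card := Finset.card_sdiff_add_card_eq_card hB
      have hp : (∏ l ∈ A \ B, z l) * ∏ l ∈ B, z l = ∏ l ∈ A, z l := Finset.prod_sdiff hB
      by_cases h2 : B.card = s
      · by_cases h3 : A.card = s + 1
        · rw [if_pos h2, if_pos (by omega), if_pos ⟨h2, h3⟩, ← hp]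
          ring
        · rw [if_neg (by omega : ¬ (A \ B).card = 1), mul_zero]
          exact (if_neg (fun h : B.card = s ∧ A.card = s + 1 => h3 h.2)).symm
      · rw [if_neg h2, zero_mul]
        exact (if_neg (fun h : B.card = s ∧ A.card = s + 1 => h2 h.1)).symm
    rw [Finset.sum_congr rfl h1]
    by_cases h3 : A.card = s + 1
    · rw [if_pos h3]
      simp only [h3, and_true]
      rw [← Finset.sum_filter, Finset.sum_const]
      have h4 : (A.powerset.filter (fun B => B.card = s)) = A.powersetCard s := by
        ext B
        simp [Finset.mem_powersetCard]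
      rw [h4, Finset.card_powersetCard, h3, Nat.choose_succ_self_right, Nat.factorial_succ, nsmul_eq_mul]
      push_cast
      ring
    · rw [if_neg h3]
      apply Finset.sum_eq_zero
      intro B _
      rw [if_neg (fun h => h3 h.2)]

/-- The class sum. -/
noncomputable def q5_S {k : Type*} [CommRing k] {a : ℕ} (s : ℕ) (cls : Fin a → ℕ) (ε β : Fin a → k)
    (c : ℕ) (A : Finset (Fin a)) : k :=
  ∑ E ∈ (A.filter (fun l => cls l = c)).powersetCard s,
    (∏ l ∈ E, ε l) * ∏ l ∈ (A.filter (fun l => cls l = c)) \ E, β l

theorem q5_main {k : Type*} [CommRing k] (s q a : ℕ) (cls : Fin a → ℕ) (ε β : Fin a → k) (r : ℕ) :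
    ∀ A : Finset (Fin a), MvPolynomial.coeff (q5_one A) ((lf β) ^ q *
      ∏ c ∈ Finset.Icc 1 r, (lf (fun l => if cls l = c then ε l else 0)) ^ s) =
      if A.card = q + r * s then
      (q.factorial : k) * ((s.factorial : k)) ^ r *
        (∏ l ∈ A.filter (fun l => ¬ (1 ≤ cls l ∧ cls l ≤ r)), β l) *
        ∏ c ∈ Finset.Icc 1 r, q5_S s cls ε β c A else 0 := by
  induction r with
  | zero =>
    intro A
    have h1 : A.filter (fun l => ¬ (1 ≤ cls l ∧ cls l ≤ 0)) = A := by
      apply Finset.filter_true_of_mem
      intro l _
      omega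
    rw [h1]
    simp [q5_coeff_lf_pow]
  | succ r ih =>
    intro A
    rw [Finset.prod_Icc_succ_top (by omega), ← mul_assoc, mul_comm, q5_coeff_mul]
    have h1 : ∀ E ∈ A.powerset, MvPolynomial.coeff (q5_one E)
          ((lf (fun l => if cls l = r + 1 then ε l else 0)) ^ s) *
        MvPolynomial.coeff (q5_one (A \ E)) ((lf β) ^ q *
          ∏ c ∈ Finset.Icc 1 r, (lf (fun l => if cls l = c then ε l else 0)) ^ s) =
        if E ∈ (A.filter (fun l => cls l = r + 1)).powersetCard s then
          (if A.card = q + (r + 1) * s then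
          (q.factorial : k) * ((s.factorial : k)) ^ (r + 1) *
          (∏ l ∈ A.filter (fun l => ¬ (1 ≤ cls l ∧ cls l ≤ r + 1)), β l) *
          (∏ c ∈ Finset.Icc 1 r, q5_S s cls ε β c A) *
          ((∏ l ∈ E, ε l) * ∏ l ∈ (A.filter (fun l => cls l = r + 1)) \ E, β l) else 0) else 0 := by
      intro E hE
      rw [Finset.mem_powerset] at hE
      rw [q5_coeff_lf_pow, ih]
      have hc : (A \ E).card + E.card = A.card := Finset.card_sdiff_add_card_eq_card hE
      by_cases h2 : E ∈ (A.filter (fun l => cls l = r + 1)).powersetCard s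
      · rw [if_pos h2]
        rw [Finset.mem_powersetCard] at h2
        rw [if_pos h2.2]
        have h3 : (A \ E).card = q + r * s ↔ A.card = q + (r + 1) * s := by
          rw [← hc, h2.2]
          constructor
          · intro h; rw [h]; ring
          · intro h
            have : (r + 1) * s = r * s + s := by ring
            omega
        by_cases h4 : A.card = q + (r + 1) * s
        · rw [if_pos h4, if_pos (h3.2 h4)]
          have h5 : ∏ l ∈ E, (if cls l = r + 1 then ε l else 0) = ∏ l ∈ E, ε l := by
            apply Finset.prod_congr rfl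
            intro l hl
            rw [if_pos (Finset.mem_filter.1 (h2.1 hl)).2]
          have h6 : ∏ c ∈ Finset.Icc 1 r, q5_S s cls ε β c (A \ E) =
              ∏ c ∈ Finset.Icc 1 r, q5_S s cls ε β c A := by
            apply Finset.prod_congr rfl
            intro c hcc
            have hcr := (Finset.mem_Icc.1 hcc).2
            have h7 : (A \ E).filter (fun l => cls l = c) = A.filter (fun l => cls l = c) := by
              ext l
              simp only [Finset.mem_filter, Finset.mem_sdiff]
              constructor
              · rintro ⟨⟨h8, -⟩, h9⟩; exact ⟨h8, h9⟩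
              · rintro ⟨h8, h9⟩
                refine ⟨⟨h8, fun hl => ?_⟩, h9⟩
                have := (Finset.mem_filter.1 (h2.1 hl)).2
                omega
            unfold q5_S
            rw [h7]
          have h8 : ∏ l ∈ (A \ E).filter (fun l => ¬ (1 ≤ cls l ∧ cls l ≤ r)), β l =
              (∏ l ∈ A.filter (fun l => ¬ (1 ≤ cls l ∧ cls l ≤ r + 1)), β l) *
              ∏ l ∈ (A.filter (fun l => cls l = r + 1)) \ E, β l := by
            rw [← Finset.prod_union]
            · apply Finset.prod_congr _ (fun _ _ => rfl)
              ext l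
              simp only [Finset.mem_filter, Finset.mem_sdiff, Finset.mem_union]
              constructor
              · rintro ⟨⟨h9, h10⟩, h11⟩
                by_cases h12 : cls l = r + 1
                · exact Or.inr ⟨⟨h9, h12⟩, h10⟩
                · exact Or.inl ⟨h9, by omega⟩
              · rintro (⟨h9, h10⟩ | ⟨⟨h9, h10⟩, h11⟩)
                · refine ⟨⟨h9, fun hl => ?_⟩, by omega⟩
                  have := (Finset.mem_filter.1 (h2.1 hl)).2
                  omega
                · exact ⟨⟨h9, h11⟩, by omega⟩
            · rw [Finset.disjoint_left]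
              intro l hl1 hl2
              simp only [Finset.mem_filter, Finset.mem_sdiff] at hl1 hl2
              omega
          rw [h5, h6, h8]
          ring
        · rw [if_neg h4, if_neg (fun h => h4 (h3.1 h)), mul_zero]
      · rw [if_neg h2]
        by_cases h3 : E.card = s
        · have h4 : ∃ l ∈ E, cls l ≠ r + 1 := by
            by_contra h5
            push Not at h5
            apply h2
            rw [Finset.mem_powersetCard]
            exact ⟨fun l hl => Finset.mem_filter.2 ⟨hE hl, h5 l hl⟩, h3⟩
          obtain ⟨l, hl1, hl2⟩ := h4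
          rw [if_pos h3, Finset.prod_eq_zero hl1 (if_neg hl2), mul_zero, zero_mul]
        · rw [if_neg h3, zero_mul]
    rw [Finset.sum_congr rfl h1]
    rw [← Finset.sum_filter]
    have h2 : A.powerset.filter (fun E => E ∈ (A.filter (fun l => cls l = r + 1)).powersetCard s) =
        (A.filter (fun l => cls l = r + 1)).powersetCard s := by
      ext E
      simp only [Finset.mem_filter, Finset.mem_powerset, Finset.mem_powersetCard]
      constructor
      · rintro ⟨-, h⟩; exact h
      · intro h
        exact ⟨h.1.trans (Finset.filter_subset _ _), h⟩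
    rw [h2]
    by_cases h4 : A.card = q + (r + 1) * s
    · simp only [if_pos h4]
      rw [← Finset.mul_sum, Finset.prod_Icc_succ_top (by omega : 1 ≤ r + 1), mul_assoc _ (∏ c ∈ Finset.Icc 1 r, q5_S s cls ε β c A)]
      rfl
    · simp only [if_neg h4, Finset.sum_const_zero]

theorem q5_poly {k : Type*} [CommRing k] {a : ℕ} (s : ℕ) (ε β : Fin a → k) (D : Finset (Fin a))
    (hD : s ≤ D.card) :
    (∏ l ∈ D, (Polynomial.C (ε l) + Polynomial.C (β l) * Polynomial.X)).coeff (D.card - s) =
      ∑ E ∈ D.powersetCard s, (∏ l ∈ E, ε l) * ∏ l ∈ D \ E, β l := by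
  rw [Finset.prod_add, Polynomial.finsetSum_coeff]
  have h1 : ∀ E ∈ D.powerset, ((∏ i ∈ E, Polynomial.C (ε i)) *
      ∏ i ∈ D \ E, (Polynomial.C (β i) * Polynomial.X)).coeff (D.card - s) =
      if E.card = s then (∏ l ∈ E, ε l) * ∏ l ∈ D \ E, β l else 0 := by
    intro E hE
    rw [Finset.mem_powerset] at hE
    have hc : (D \ E).card + E.card = D.card := Finset.card_sdiff_add_card_eq_card hE
    rw [Finset.prod_mul_distrib, Finset.prod_const, ← map_prod, ← map_prod, ← mul_assoc, ← map_mul,
      Polynomial.coeff_C_mul_X_pow]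
    by_cases h2 : E.card = s
    · rw [if_pos h2, if_pos (by omega)]
    · rw [if_neg h2, if_neg (by omega)]
  rw [Finset.sum_congr rfl h1, ← Finset.sum_filter]
  apply Finset.sum_congr _ (fun _ _ => rfl)
  ext E
  simp [Finset.mem_powersetCard]

theorem alpha_top {k : Type*} [Field k] (s q r a : ℕ) (cls : Fin a → ℕ) (ε β : Fin a → k)
    (hcls : ∀ l, cls l ≤ r) (hcard : ∀ c ∈ Finset.Icc 1 r, s ≤ (Finset.univ.filter (fun l => cls l = c)).card)
    (hq : q = (Finset.univ.filter (fun l => cls l = 0)).card +
      ∑ c ∈ Finset.Icc 1 r, ((Finset.univ.filter (fun l => cls l = c)).card - s)) :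
    MvPolynomial.coeff (oneE a) ((lf β) ^ q *
      ∏ c ∈ Finset.Icc 1 r, (lf (fun l => if cls l = c then ε l else 0)) ^ s) =
      (q.factorial : k) * ((s.factorial : k)) ^ r * (∏ l ∈ Finset.univ.filter (fun l => cls l = 0), β l) *
        ∏ c ∈ Finset.Icc 1 r, (∏ l ∈ Finset.univ.filter (fun l => cls l = c),
          (Polynomial.C (ε l) + Polynomial.C (β l) * Polynomial.X)).coeff
            ((Finset.univ.filter (fun l => cls l = c)).card - s) := by
  have h0 : oneE a = q5_one Finset.univ := by
    ext l
    simp [oneE, q5_one]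
  rw [h0, q5_main]
  have h1 : (Finset.univ : Finset (Fin a)).card = q + r * s := by
    have h2 : (Finset.univ : Finset (Fin a)).card =
        ∑ c ∈ Finset.range (r + 1), (Finset.univ.filter (fun l => cls l = c)).card := by
      apply Finset.card_eq_sum_card_fiberwise
      intro l _
      simpa [Nat.lt_succ_iff] using hcls l
    rw [h2, Finset.sum_range_succ', hq]
    have h3 : ∀ g : ℕ → ℕ, ∑ c ∈ Finset.range r, g (c + 1) = ∑ c ∈ Finset.Icc 1 r, g c := by
      intro g
      rw [Finset.range_eq_Ico, Finset.sum_Ico_add' g 0 r 1]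
      apply Finset.sum_congr _ (fun _ _ => rfl)
      ext x
      simp only [Finset.mem_Ico, Finset.mem_Icc]
      omega
    rw [h3 (fun c => (Finset.univ.filter (fun l => cls l = c)).card)]
    have h4 : ∑ c ∈ Finset.Icc 1 r, (Finset.univ.filter (fun l => cls l = c)).card =
        ∑ c ∈ Finset.Icc 1 r, ((Finset.univ.filter (fun l => cls l = c)).card - s) + r * s := by
      have h5 : r * s = ∑ c ∈ Finset.Icc 1 r, s := by simp
      rw [h5, ← Finset.sum_add_distrib]
      apply Finset.sum_congr rfl
      intro c hc
      have := hcard c hc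
      omega
    rw [h4]
    ring
  rw [if_pos h1]
  have h2 : (Finset.univ.filter (fun l => ¬ (1 ≤ cls l ∧ cls l ≤ r))) =
      Finset.univ.filter (fun l => cls l = 0) := by
    ext l
    have := hcls l
    simp only [Finset.mem_filter, Finset.mem_univ, true_and]
    omega
  rw [h2]
  congr 1
  apply Finset.prod_congr rfl
  intro c hc
  rw [q5_poly s ε β _ (hcard c hc)]
  rfl

end Pool.Agent.Helper805_nf
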