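import Mathlib
import Pool.Agent.Helper805_nf.Defs7
import Pool.Agent.Helper805_nf.Q1b
import Pool.Agent.Helper805_nf.Q2
import Pool.Agent.Helper805_nf.Q3
import Pool.Agent.Helper805_nf.Q4
import Pool.Agent.Helper805_nf.Q5
import Pool.Agent.Helper805_nf.Q8

set_option autoImplicit false

namespace Pool.Agent.Helper805_nf

open Finset












/-- helper: values of range p not congruent to c -/
theorem j9_card (p c : ℕ) (hp : 0 < p) :
    ((Finset.range p).filter (fun x => ¬ x ≡ c [MOD p])).card = p - 1 := by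
  have h : (Finset.range p).filter (fun x => ¬ x ≡ c [MOD p]) = (Finset.range p).erase (c % p) := by
    ext x
    simp only [Finset.mem_filter, Finset.mem_range, Finset.mem_erase]
    constructor
    · rintro ⟨h1, h2⟩
      refine ⟨?_, h1⟩
      intro h
      apply h2
      rw [h]; exact Nat.mod_modEq c p
    · rintro ⟨h1, h2⟩
      refine ⟨h2, ?_⟩
      intro h
      apply h1
      rw [← Nat.mod_eq_of_lt h2]; exact h
  rw [h, Finset.card_erase_of_mem (Finset.mem_range.mpr (Nat.mod_lt _ hp)), Finset.card_range]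

/-- helper: number of multiples of m -/
theorem j9_count (m r q n : ℕ) (hr : m = 2 * r + 1) (hn : n = q * m + r) :
    ((Finset.Icc (r + 1) n).filter (fun j => m ∣ j)).card = q := by
  have h1 : (Finset.Icc (r + 1) n).filter (fun j => m ∣ j) =
      (Finset.Ioc 0 n).filter (fun j => m ∣ j) := by
    ext x
    simp only [Finset.mem_filter, Finset.mem_Icc, Finset.mem_Ioc]
    constructor
    · rintro ⟨⟨h1, h2⟩, h3⟩; exact ⟨⟨by omega, h2⟩, h3⟩
    · rintro ⟨⟨h1, h2⟩, h3⟩
      have := Nat.le_of_dvd h1 h3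
      exact ⟨⟨by omega, h2⟩, h3⟩
  rw [h1, Nat.Ioc_filter_dvd_card_eq_div]
  rw [hn]
  have h2 : r < m := by omega
  rw [mul_comm, Nat.mul_add_div (by omega), Nat.div_eq_of_lt h2, add_zero]

/-- helper: product over Fin a as product over an interval -/
theorem j9_prod {R : Type*} [CommMonoid R] (a r n : ℕ) (ha : a + r = n) (f : ℕ → R) :
    ∏ j : Fin a, f ((j : ℕ) + (r + 1)) = ∏ j ∈ Finset.Icc (r + 1) n, f j := by
  rw [Fin.prod_univ_eq_prod_range (fun i => f (i + (r + 1))) a]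
  have h : Finset.Icc (r + 1) n = Finset.Ico (r + 1) (n + 1) := by
    ext x; simp only [Finset.mem_Icc, Finset.mem_Ico]; omega
  rw [h, Finset.prod_Ico_eq_prod_range]
  have h2 : n + 1 - (r + 1) = a := by omega
  rw [h2]
  refine Finset.prod_congr rfl fun i _ => ?_
  rw [add_comm]

/-- helper: product over Icc 1 r as product over Fin r -/
theorem j9_prodIcc {R : Type*} [CommMonoid R] (r : ℕ) (f : ℕ → R) :
    ∏ j ∈ Finset.Icc 1 r, f j = ∏ j : Fin r, f ((j : ℕ) + 1) := by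
  rw [Fin.prod_univ_eq_prod_range (fun i => f (i + 1)) r]
  have h : Finset.Icc 1 r = Finset.Ico 1 (r + 1) := by
    ext x; simp only [Finset.mem_Icc, Finset.mem_Ico]; omega
  rw [h, Finset.prod_Ico_eq_prod_range]
  refine Finset.prod_congr (by simp) fun i _ => ?_
  rw [add_comm]

theorem alpha_perm {k : Type*} [Field k] (p : ℕ) (hp : p.Prime) [CharP k p] (m r q n a : ℕ)
    (hpm : ¬ p ∣ m) (hr : m = 2 * r + 1) (hq : p = 2 * q + 1) (hn : n = r * p + q) (ha : a + r = n) (ω : k)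
    (hω : IsPrimitiveRoot ω m) (e : Fin a → ℕ) (he : ∀ l, 1 ≤ e l ∧ e l ≤ n)
    (hcard : ∀ c ∈ Finset.Icc 1 r, p - 1 ≤ (Finset.univ.filter (fun l => clm m (e l) = c)).card)
    (hc : ∀ c ∈ Finset.Icc 1 r, (∏ l ∈ Finset.univ.filter (fun l => clm m (e l) = c),
      (Polynomial.C ((sgm m (e l) : ℤ) : k) + Polynomial.C ((e l : ℕ) : k) * Polynomial.X)).coeff
        ((Finset.univ.filter (fun l => clm m (e l) = c)).card - (p - 1)) ≠ 0) :
    ∑ π : Equiv.Perm (Fin a), ∏ l, (if m ∣ (π l : ℕ) + (r + 1) then ((((π l : ℕ) + (r + 1)) * e l : ℕ) : k)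
      else ω ^ (((π l : ℕ) + (r + 1)) * e l) - (ω⁻¹) ^ (((π l : ℕ) + (r + 1)) * e l)) ≠ 0 := by
  classical
  have hp0 : 0 < p := hp.pos
  have hm : Odd m := ⟨r, hr⟩
  have hnm : n = q * m + r := by rw [hn, hq, hr]; ring
  have hmp : 2 * n + 1 = m * p := by rw [hn, hq, hr]; ring
  have hmk : (m : k) ≠ 0 := by
    rw [Ne, CharP.cast_eq_zero_iff k p]; exact hpm
  have hcop : Nat.Coprime m p := ((Nat.Prime.coprime_iff_not_dvd hp).mpr hpm).symm
  have hnz : ∀ x : ℕ, m ∣ x → 1 ≤ x → x ≤ n → (x : k) ≠ 0 := by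
    intro x h1 h2 h3 h4
    rw [CharP.cast_eq_zero_iff k p] at h4
    have h5 : m * p ∣ x := hcop.mul_dvd_of_dvd_of_dvd h1 h4
    have h6 := Nat.le_of_dvd (by omega) h5
    omega
  obtain ⟨B, hB⟩ : ∃ B : MvPolynomial (Fin a) k, B = lf (fun l => (e l : k)) := ⟨_, rfl⟩
  obtain ⟨A, hA⟩ : ∃ A : ℕ → MvPolynomial (Fin a) k, A = fun c => lf (fun l =>
    ((sgm m (e l) : ℤ) : k) * (ω ^ (c * clm m (e l)) - (ω⁻¹) ^ (c * clm m (e l)))) := ⟨_, rfl⟩
  have hform1 : ∀ κ : ℕ, m ∣ κ → lf (a := a) (fun l => if m ∣ κ then ((κ * e l : ℕ) : k) else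
      ω ^ (κ * e l) - (ω⁻¹) ^ (κ * e l)) = MvPolynomial.C (κ : k) * B := by
    intro κ h
    simp only [h, if_true, hB, lf, Finset.mul_sum]
    refine Finset.sum_congr rfl fun l _ => ?_
    rw [Nat.cast_mul, MvPolynomial.C_mul, mul_assoc]
  have hform2 : ∀ κ : ℕ, ¬ m ∣ κ → lf (a := a) (fun l => if m ∣ κ then ((κ * e l : ℕ) : k) else
      ω ^ (κ * e l) - (ω⁻¹) ^ (κ * e l)) =
        MvPolynomial.C ((sgm m κ : ℤ) : k) * A (clm m κ) := by
    intro κ h
    simp only [h, if_false, hA, lf, Finset.mul_sum]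
    refine Finset.sum_congr rfl fun l _ => ?_
    rw [(entry_signs m hm ω hω κ (e l)).1, Int.cast_mul, MvPolynomial.C_mul, MvPolynomial.C_mul,
      MvPolynomial.C_mul]
    ring
  have hsum := perm_coeff a (fun (l j : Fin a) => if m ∣ (j : ℕ) + (r + 1) then
      ((((j : ℕ) + (r + 1)) * e l : ℕ) : k)
      else ω ^ (((j : ℕ) + (r + 1)) * e l) - (ω⁻¹) ^ (((j : ℕ) + (r + 1)) * e l))
  rw [hsum]
  rw [j9_prod a r n ha (fun κ => lf (a := a) (fun l => if m ∣ κ then ((κ * e l : ℕ) : k) else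
      ω ^ (κ * e l) - (ω⁻¹) ^ (κ * e l)))]
  rw [← Finset.prod_filter_mul_prod_filter_not (Finset.Icc (r + 1) n) (fun j => m ∣ j)]
  rw [Finset.prod_congr rfl (fun κ hκ => hform1 κ (Finset.mem_filter.mp hκ).2)]
  rw [Finset.prod_congr (s₁ := (Finset.Icc (r + 1) n).filter (fun j => ¬ m ∣ j)) rfl
    (fun κ hκ => hform2 κ (Finset.mem_filter.mp hκ).2)]
  rw [Finset.prod_mul_distrib, Finset.prod_mul_distrib, Finset.prod_const, j9_count m r q n hr hnm]
  rw [class_prod m p n r hp hpm hmp hr (fun c _ => A c)]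
  have hA2 : ∏ c ∈ Finset.Icc 1 r, ∏ x ∈ (Finset.range p).filter (fun x => ¬ x ≡ c [MOD p]),
      (fun (c : ℕ) (_ : ZMod p) => A c) c (x : ZMod p) = ∏ i : Fin r, (A ((i : ℕ) + 1)) ^ (p - 1) := by
    rw [← j9_prodIcc r (fun i => (A i) ^ (p - 1))]
    refine Finset.prod_congr rfl fun c _ => ?_
    simp only [Finset.prod_const, j9_card p c hp0]
  rw [hA2]
  obtain ⟨hS, -⟩ := sine_matrix m r hr hmk ω hω
  obtain ⟨κ0, hκ0, hst⟩ := socle_transfer p hp r _ hS
  obtain ⟨z, hz⟩ : ∃ z : Fin r → Fin a → k, z = fun (c : Fin r) (l : Fin a) =>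
    if clm m (e l) = (c : ℕ) + 1 then ((sgm m (e l) : ℤ) : k) else 0 := ⟨_, rfl⟩
  have hA3 : ∀ i : Fin r, A ((i : ℕ) + 1) = ∑ c, MvPolynomial.C
      ((Matrix.of (fun i c : Fin r => ω ^ (((i : ℕ) + 1) * ((c : ℕ) + 1)) -
      (ω⁻¹) ^ (((i : ℕ) + 1) * ((c : ℕ) + 1)))) i c) * lf (z c) := by
    intro i
    simp only [hA, lf, Finset.mul_sum]
    rw [Finset.sum_comm]
    refine Finset.sum_congr rfl fun l _ => ?_
    simp only [← mul_assoc, ← MvPolynomial.C_mul, ← Finset.sum_mul, ← map_sum]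
    congr 2
    simp only [hz, Matrix.of_apply, mul_ite, mul_zero]
    by_cases h0 : clm m (e l) = 0
    · rw [h0]
      simp
    · have h1 : 2 * clm m (e l) < m := (entry_signs m hm ω hω (e l) 0).2.2.1
      have h2 : clm m (e l) - 1 < r := by omega
      rw [Finset.sum_eq_single (⟨clm m (e l) - 1, h2⟩ : Fin r)]
      · have h3 : clm m (e l) - 1 + 1 = clm m (e l) := by omega
        simp only [h3, if_true]
        ring
      · intro c _ hc'
        rw [if_neg]
        intro h4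
        apply hc'
        apply Fin.ext
        simp only
        omega
      · intro h5
        exact absurd (Finset.mem_univ _) h5
  rw [Finset.prod_congr rfl (fun i _ => congrArg (fun y => y ^ (p - 1)) (hA3 i))]
  obtain ⟨K1, hK1⟩ : ∃ K1 : k, K1 = ∏ j ∈ (Finset.Icc (r + 1) n).filter (fun j => m ∣ j), (j : k) :=
    ⟨_, rfl⟩
  obtain ⟨K2, hK2⟩ : ∃ K2 : k, K2 = ∏ j ∈ (Finset.Icc (r + 1) n).filter (fun j => ¬ m ∣ j),
    ((sgm m j : ℤ) : k) := ⟨_, rfl⟩
  rw [← map_prod, ← map_prod, ← hK1, ← hK2]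
  have hK1' : K1 ≠ 0 := by
    rw [hK1, Finset.prod_ne_zero_iff]
    intro j hj
    rw [Finset.mem_filter, Finset.mem_Icc] at hj
    exact hnz j hj.2 (by omega) hj.1.2
  have hK2' : K2 ≠ 0 := by
    rw [hK2, Finset.prod_ne_zero_iff]
    intro j hj
    rcases (entry_signs m hm ω hω j 0).2.2.2.1 with h | h <;> rw [h] <;> simp
  have hre : (MvPolynomial.C K1 * B ^ q) * (MvPolynomial.C K2 *
      ∏ i : Fin r, (∑ c, MvPolynomial.C
      ((Matrix.of (fun i c : Fin r => ω ^ (((i : ℕ) + 1) * ((c : ℕ) + 1)) -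
      (ω⁻¹) ^ (((i : ℕ) + 1) * ((c : ℕ) + 1)))) i c) * lf (z c)) ^ (p - 1)) =
      (MvPolynomial.C (K1 * K2) * B ^ q) * ∏ i : Fin r, (∑ c, MvPolynomial.C
      ((Matrix.of (fun i c : Fin r => ω ^ (((i : ℕ) + 1) * ((c : ℕ) + 1)) -
      (ω⁻¹) ^ (((i : ℕ) + 1) * ((c : ℕ) + 1)))) i c) * lf (z c)) ^ (p - 1) := by
    rw [MvPolynomial.C_mul]; ring
  rw [hre, hst a z (MvPolynomial.C (K1 * K2) * B ^ q), mul_assoc, MvPolynomial.coeff_C_mul]
  have hT : ∏ c : Fin r, (lf (z c)) ^ (p - 1) = ∏ c ∈ Finset.Icc 1 r,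
      (lf (fun l => if clm m (e l) = c then ((sgm m (e l) : ℤ) : k) else 0)) ^ (p - 1) := by
    rw [j9_prodIcc r (fun c => (lf (fun l => if clm m (e l) = c then
      ((sgm m (e l) : ℤ) : k) else 0)) ^ (p - 1))]
    simp only [hz]
  have hcls : ∀ l : Fin a, clm m (e l) ≤ r := by
    intro l
    have h1 : 2 * clm m (e l) < m := (entry_signs m hm ω hω (e l) 0).2.2.1
    omega
  have hcount : q = (Finset.univ.filter (fun l : Fin a => clm m (e l) = 0)).card +
      ∑ c ∈ Finset.Icc 1 r, ((Finset.univ.filter (fun l : Fin a => clm m (e l) = c)).card - (p - 1)) := by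
    have h1 : a = ∑ c ∈ Finset.range (r + 1),
        (Finset.univ.filter (fun l : Fin a => clm m (e l) = c)).card := by
      have h2 := Finset.card_eq_sum_card_fiberwise (s := (Finset.univ : Finset (Fin a)))
        (t := Finset.range (r + 1)) (f := fun l => clm m (e l))
        (fun l _ => by
          simp only [Finset.coe_range, Set.mem_Iio]
          have := hcls l
          omega)
      simpa using h2
    have h3 : Finset.range (r + 1) = insert 0 (Finset.Icc 1 r) := by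
      ext x; simp only [Finset.mem_range, Finset.mem_insert, Finset.mem_Icc]; omega
    rw [h3, Finset.sum_insert (by simp)] at h1
    have h4 : ∑ c ∈ Finset.Icc 1 r, (Finset.univ.filter (fun l : Fin a => clm m (e l) = c)).card =
        ∑ c ∈ Finset.Icc 1 r, ((Finset.univ.filter (fun l : Fin a => clm m (e l) = c)).card - (p - 1)) +
          r * (p - 1) := by
      have h5 : r * (p - 1) = ∑ c ∈ Finset.Icc 1 r, (p - 1) := by
        rw [Finset.sum_const, Nat.card_Icc]; simp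
      rw [h5, ← Finset.sum_add_distrib]
      refine Finset.sum_congr rfl fun c hc' => ?_
      have := hcard c hc'
      omega
    have h6 : r * (p - 1) + r = r * p := by
      obtain ⟨p', rfl⟩ : ∃ p', p = p' + 1 := ⟨p - 1, by omega⟩
      simp; ring
    omega
  rw [hT, hB]
  rw [alpha_top (p - 1) q r a (fun l => clm m (e l)) (fun l => ((sgm m (e l) : ℤ) : k))
    (fun l => (e l : k)) hcls hcard hcount]
  have hfac : ∀ x : ℕ, x < p → ((x.factorial : ℕ) : k) ≠ 0 := by
    intro x hx h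
    rw [CharP.cast_eq_zero_iff k p, hp.dvd_factorial] at h
    omega
  refine mul_ne_zero hκ0 (mul_ne_zero (mul_ne_zero hK1' hK2') ?_)
  refine mul_ne_zero (mul_ne_zero (mul_ne_zero (hfac q (by omega))
    (pow_ne_zero _ (hfac (p - 1) (by omega)))) ?_) ?_
  · rw [Finset.prod_ne_zero_iff]
    intro l hl
    have h1 : clm m (e l) = 0 := (Finset.mem_filter.mp hl).2
    exact hnz (e l) ((entry_signs m hm ω hω (e l) 0).2.1.mp h1) (he l).1 (he l).2
  · rw [Finset.prod_ne_zero_iff]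
    intro c hc'
    exact hc c hc'



end Pool.Agent.Helper805_nf
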