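import Mathlib
import Pool.Agent.Helper805_nf.Defs6

set_option autoImplicit false

namespace Pool.Agent.Helper805_nf

open Finset

theorem r1_root (K : Type) [Field K] [IsAlgClosed K] [CharZero K] (N : ℕ) (hN : 0 < N) :
    ∃ ζ : K, IsPrimitiveRoot ζ N := by
  have : NeZero ((N : ℕ) : K) := ⟨by exact_mod_cast hN.ne'⟩
  have hd : (Polynomial.cyclotomic N K).degree ≠ 0 := by
    rw [Polynomial.degree_cyclotomic]
    have := Nat.totient_pos.2 hN
    exact_mod_cast this.ne'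
  obtain ⟨ζ, hζ⟩ := IsAlgClosed.exists_root (Polynomial.cyclotomic N K) hd
  exact ⟨ζ, Polynomial.isRoot_cyclotomic_iff.1 hζ⟩

theorem field_exists (p N : ℕ) (hp : p.Prime) (hN : 0 < N) :
    ∃ (K : Type) (_ : NormedField K) (_ : IsUltrametricDist K) (ζ : K),
      ‖(p : K)‖ = (p : ℝ)⁻¹ ∧ IsPrimitiveRoot ζ N := by
  have : Fact p.Prime := ⟨hp⟩
  obtain ⟨ζ, hζ⟩ := r1_root (PadicAlgCl p) N hN
  refine ⟨PadicAlgCl p, inferInstance, inferInstance, ζ, ?_, hζ⟩
  have h := PadicAlgCl.norm_extends p (p : ℚ_[p])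
  rw [Padic.norm_p] at h
  rw [← h]
  congr 1

end Pool.Agent.Helper805_nf
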