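import Mathlib
import Pool.Agent.Helper805_nf.Defs7
import Pool.Agent.Helper805_nf.Q11
import Pool.Agent.Helper805_nf.Q12
import Pool.Agent.Helper805_nf.Q13
import Pool.Agent.Helper805_nf.Q14
import Pool.Agent.Helper805_nf.Q1a
import Pool.Agent.Helper805_nf.Q8
import Pool.Agent.Helper805_nf.Q9
import Pool.Agent.Helper805_nf.R1
import Pool.Agent.Helper805_nf.Y1

set_option autoImplicit false

namespace Pool.Agent.Helper805_nf

open Finset














theorem q15_charZero {K : Type*} [NormedField K] [IsUltrametricDist K] (p : ℕ) (hp : p.Prime)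
    (hpn : ‖(p : K)‖ = (p : ℝ)⁻¹) : CharZero K := by
  apply charZero_of_inj_zero
  intro N hN
  by_contra hne
  obtain ⟨j, u, hu, hNu⟩ := Nat.exists_eq_pow_mul_and_not_dvd hne p hp.ne_one
  have h1 := (norm_nat_facts (K := K) p hp hpn u).2.1 hu
  have h2 : ‖(N : K)‖ = ((p : ℝ)⁻¹) ^ j := by
    rw [hNu]
    push_cast
    rw [norm_mul, norm_pow, hpn, h1, mul_one]
  rw [hN, norm_zero] at h2
  have hp0 : (0 : ℝ) < (p : ℝ)⁻¹ := by
    have : (0 : ℝ) < p := by exact_mod_cast hp.pos
    positivity
  have := pow_pos hp0 j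
  linarith

theorem q15_sgm_sq (m x : ℕ) : sgm m x * sgm m x = 1 := by
  unfold sgm
  split_ifs <;> norm_num

theorem q15_enum (M : Multiset ℕ) (a : ℕ) (ha : Multiset.card M = a) :
    ∃ e : Fin a → ℕ, Multiset.map e (Finset.univ : Finset (Fin a)).val = M := by
  subst ha
  induction M using Quotient.inductionOn with
  | h l =>
    refine ⟨fun i => l.get i, ?_⟩
    rw [Fin.univ_val_map]
    simp

/-- The coefficient statement for one class. -/
theorem q15_class (m p n : ℕ) (hp : p.Prime) (hpm : ¬ p ∣ m) (hn : 2 * n + 1 = m * p)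
    (L : Multiset ℕ) (hL : ∀ x ∈ L, 1 ≤ x ∧ x ≤ n) (hmult : ∀ x, L.count x ≤ p)
    (k : Type*) [Field k] [CharP k p] (c : ℕ)
    (hc : p ≤ Multiset.card (L.filter (fun x => clm m x = c))) :
    ∃ d ∈ L, clm m d = c ∧
      ((((L.filter (fun x => clm m x = c)).erase d).map
        (fun x => (Polynomial.C ((sgm m x : ℤ) : k) + Polynomial.C ((x : ℕ) : k) * Polynomial.X))).prod).coeff
        (Multiset.card (L.filter (fun x => clm m x = c)) - p) ≠ 0 := by
  classical
  set Lc := L.filter (fun x => clm m x = c) with hLc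
  have hLcL : Lc ≤ L := Multiset.filter_le _ _
  have hmem : ∀ x ∈ Lc, x ∈ L ∧ clm m x = c := by
    intro x hx
    exact Multiset.mem_filter.mp hx
  let f : ℕ → k := fun x => ((sgm m x * (x : ℤ) : ℤ) : k)
  have hinj : ∀ x ∈ Lc, ∀ y ∈ Lc, f x = f y → x = y := by
    intro x hx y hy hxy
    obtain ⟨hxL, hxc⟩ := hmem x hx
    obtain ⟨hyL, hyc⟩ := hmem y hy
    apply class_inj m p n hp hpm hn x y (hL x hxL).1 (hL x hxL).2 (hL y hyL).1 (hL y hyL).2
      (hxc.trans hyc.symm)
    rw [ZMod.intCast_eq_intCast_iff]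
    exact (CharP.intCast_eq_intCast k p).mp hxy
  obtain ⟨y, hy, hcoef⟩ := erase_coeff (F := k) p hp (Multiset.card Lc - p) (Lc.map f)
    (by rw [Multiset.card_map]; omega)
    (by
      intro y
      rw [Multiset.count_map]
      by_cases hex : ∃ x ∈ Lc, y = f x
      · obtain ⟨x, hx, hxy⟩ := hex
        have : Lc.filter (fun a => y = f a) ≤ L.filter (fun a => x = a) := by
          rw [Multiset.le_filter]
          refine ⟨(Multiset.filter_le _ _).trans hLcL, ?_⟩
          intro z hz
          obtain ⟨hz1, hz2⟩ := Multiset.mem_filter.mp hz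
          exact hinj x hx z hz1 (hxy.symm.trans hz2)
        refine (Multiset.card_le_card this).trans ?_
        rw [← Multiset.count_eq_card_filter_eq]
        exact hmult x
      · have : Lc.filter (fun a => y = f a) = 0 := by
          rw [Multiset.filter_eq_nil]
          intro z hz hz2
          exact hex ⟨z, hz, hz2⟩
        rw [this]
        simp)
  obtain ⟨d, hd, rfl⟩ := Multiset.mem_map.mp hy
  refine ⟨d, (hmem d hd).1, (hmem d hd).2, ?_⟩
  rw [← Multiset.map_erase_of_mem f Lc hd, Multiset.map_map] at hcoef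
  have hprod : ((Lc.erase d).map
        (fun x => (Polynomial.C ((sgm m x : ℤ) : k) + Polynomial.C ((x : ℕ) : k) * Polynomial.X))).prod
      = Polynomial.C (((Lc.erase d).map (fun x => ((sgm m x : ℤ) : k))).prod) *
        ((Lc.erase d).map ((fun y => 1 + Polynomial.C y * Polynomial.X) ∘ f)).prod := by
    have h1 : Polynomial.C (((Lc.erase d).map (fun x => ((sgm m x : ℤ) : k))).prod)
        = ((Lc.erase d).map (fun x => Polynomial.C ((sgm m x : ℤ) : k))).prod := by
      rw [map_multiset_prod, Multiset.map_map]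
      rfl
    rw [h1, ← Multiset.prod_map_mul]
    congr 1
    apply Multiset.map_congr rfl
    intro x _
    have h2 : ((x : ℕ) : k) = ((sgm m x : ℤ) : k) * f x := by
      have h3 : ((x : ℤ) : k) = ((sgm m x * (sgm m x * (x : ℤ)) : ℤ) : k) := by
        rw [← mul_assoc, q15_sgm_sq, one_mul]
      have h4 : ((x : ℕ) : k) = ((x : ℤ) : k) := by push_cast; rfl
      rw [h4, h3]
      simp only [f]
      push_cast
      ring
    simp only [Function.comp]
    rw [h2, Polynomial.C_mul]
    ring
  rw [hprod, Polynomial.coeff_C_mul]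
  refine mul_ne_zero ?_ hcoef
  rw [Ne, Multiset.prod_eq_zero_iff]
  intro h0
  obtain ⟨x, _, hx⟩ := Multiset.mem_map.mp h0
  have h5 : ((sgm m x : ℤ) : k) * ((sgm m x : ℤ) : k) = 1 := by
    have := q15_sgm_sq m x
    rw [← Int.cast_mul, this]
    simp
  rw [hx] at h5
  simp at h5

theorem one_sided_alpha (m p n : ℕ) (hp : p.Prime) (hpm : ¬ p ∣ m) (hn : 2 * n + 1 = m * p)
    (L : Multiset ℕ) (hcard : Multiset.card L = n) (hL : ∀ x ∈ L, 1 ≤ x ∧ x ≤ n)
    (hc : ∀ c, 1 ≤ c → 2 * c < m → p ≤ Multiset.card (L.filter (fun x => clm m x = c)))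
    (hmult : ∀ x, L.count x ≤ p) : Realizable n L := by
  classical
  have hodd : Odd (m * p) := ⟨n, hn.symm⟩
  obtain ⟨hmo, hpo⟩ := Nat.odd_mul.mp hodd
  obtain ⟨r, hr⟩ := hmo
  obtain ⟨q, hq⟩ := hpo
  have hnr : n = r * p + q := by
    have h1 : 2 * n + 1 = 2 * (r * p) + p := by
      rw [hn, hr]; ring
    omega
  have hrn : r ≤ n := by
    have : r * 1 ≤ r * p := Nat.mul_le_mul_left r hp.one_le
    omega
  obtain ⟨K, _, _, ζ, hpn, hζ⟩ := field_exists p (2 * n + 1) hp (by omega)
  have : CharZero K := q15_charZero p hp hpn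
  obtain ⟨k, _, _, ω, hω, htr⟩ := residue_transfer (K := K) p hp hpn m n hpm hn ζ hζ
  -- the chosen labels
  have hex : ∀ i : Fin r, ∃ d ∈ L, clm m d = (i : ℕ) + 1 ∧
      ((((L.filter (fun x => clm m x = (i : ℕ) + 1)).erase d).map
        (fun x => (Polynomial.C ((sgm m x : ℤ) : k) + Polynomial.C ((x : ℕ) : k) * Polynomial.X))).prod).coeff
        (Multiset.card (L.filter (fun x => clm m x = (i : ℕ) + 1)) - p) ≠ 0 := by
    intro i
    apply q15_class m p n hp hpm hn L hL hmult k
    apply hc
    · omega
    · have := i.2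
      omega
  choose d hdL hdc hdcoef using hex
  have hdinj : Function.Injective d := by
    intro i j hij
    have h1 := hdc i
    have h2 := hdc j
    rw [hij] at h1
    apply Fin.ext
    omega
  set D : Multiset ℕ := Multiset.map d (Finset.univ : Finset (Fin r)).val with hD
  have hDnodup : D.Nodup := by
    rw [hD]
    exact Multiset.Nodup.map hdinj Finset.univ.nodup
  have hDL : D ≤ L := by
    rw [Multiset.le_iff_subset hDnodup]
    intro x hx
    rw [hD] at hx
    obtain ⟨i, _, rfl⟩ := Multiset.mem_map.mp hx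
    exact hdL i
  have hDcard : Multiset.card D = r := by
    rw [hD, Multiset.card_map]
    simp
  have hLD : Multiset.card (L - D) = n - r := by
    rw [Multiset.card_sub hDL, hcard, hDcard]
  obtain ⟨e, he⟩ := q15_enum (L - D) (n - r) hLD
  have heL : ∀ l, 1 ≤ e l ∧ e l ≤ n := by
    intro l
    apply hL
    have h1 : e l ∈ L - D := by
      rw [← he]
      exact Multiset.mem_map_of_mem e (Finset.mem_univ l)
    exact Multiset.mem_of_le (Multiset.sub_le_self _ _) h1
  -- the classes of the remaining list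
  have hcls : ∀ i : Fin r, Multiset.map e ((Finset.univ.filter (fun l => clm m (e l) = (i : ℕ) + 1)).val)
      = (L.filter (fun x => clm m x = (i : ℕ) + 1)).erase (d i) := by
    intro i
    have h1 : Multiset.map e ((Finset.univ.filter (fun l => clm m (e l) = (i : ℕ) + 1)).val)
        = (L - D).filter (fun x => clm m x = (i : ℕ) + 1) := by
      rw [← he, Multiset.filter_map, Finset.filter_val]
      rfl
    have h2 : D.filter (fun x => clm m x = (i : ℕ) + 1) = {d i} := by
      rw [Multiset.Nodup.ext (hDnodup.filter _) (Multiset.nodup_singleton _)]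
      intro x
      rw [Multiset.mem_filter, Multiset.mem_singleton]
      constructor
      · rintro ⟨hx, hxc⟩
        rw [hD] at hx
        obtain ⟨j, _, rfl⟩ := Multiset.mem_map.mp hx
        have h3 := hdc j
        have h4 : j = i := by
          apply Fin.ext
          omega
        rw [h4]
      · rintro rfl
        refine ⟨?_, hdc i⟩
        rw [hD]
        exact Multiset.mem_map_of_mem d (Finset.mem_univ i)
    rw [h1, Multiset.filter_sub, h2, Multiset.sub_singleton]
  have hclscard : ∀ i : Fin r, (Finset.univ.filter (fun l => clm m (e l) = (i : ℕ) + 1)).card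
      = Multiset.card (L.filter (fun x => clm m x = (i : ℕ) + 1)) - 1 := by
    intro i
    have h1 := congrArg Multiset.card (hcls i)
    rw [Multiset.card_map, Multiset.card_erase_of_mem
      (Multiset.mem_filter.mpr ⟨hdL i, hdc i⟩)] at h1
    exact h1
  have hNp : ∀ i : Fin r, p ≤ Multiset.card (L.filter (fun x => clm m x = (i : ℕ) + 1)) := by
    intro i
    apply hc
    · omega
    · have := i.2
      omega
  have hA0 := alpha_perm (k := k) p hp m r q n (n - r) hpm hr hq hnr (by omega) ω hω e heL
    (by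
      intro c hc1
      rw [Finset.mem_Icc] at hc1
      have h1 := hclscard ⟨c - 1, by omega⟩
      have h2 := hNp ⟨c - 1, by omega⟩
      have h3 : c - 1 + 1 = c := by omega
      simp only [h3] at h1 h2
      rw [h1]
      omega)
    (by
      intro c hc1
      rw [Finset.mem_Icc] at hc1
      have h1 := hclscard ⟨c - 1, by omega⟩
      have h2 := hNp ⟨c - 1, by omega⟩
      have h4 := hcls ⟨c - 1, by omega⟩
      have h5 := hdcoef ⟨c - 1, by omega⟩
      have h3 : c - 1 + 1 = c := by omega
      simp only [h3] at h1 h2 h4 h5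
      rw [h1]
      have h6 : Multiset.card (L.filter (fun x => clm m x = c)) - 1 - (p - 1)
          = Multiset.card (L.filter (fun x => clm m x = c)) - p := by
        have := hp.one_le
        omega
      rw [h6]
      rw [← h4, Multiset.map_map] at h5
      exact h5)
  refine two_mode_cols (n - r) r n (by omega) ζ hζ e d ?_ ?_ L hL ?_
  · exact htr (n - r) e (fun i => (i : ℕ) + (r + 1)) (Or.inl hA0)
  · intro η hη
    exact distinct_permSum_char_zero n r hrn η hη d (fun i => hL _ (hdL i)) hdinj
  · rw [he, ← hD]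
    exact tsub_add_cancel_of_le hDL


end Pool.Agent.Helper805_nf
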