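import Mathlib
import Pool.Agent.Helper805_nf.Defs7
import Pool.Agent.Helper805_nf.Q10
import Pool.Agent.Helper805_nf.Q12
import Pool.Agent.Helper805_nf.Q13
import Pool.Agent.Helper805_nf.Q14
import Pool.Agent.Helper805_nf.Q8
import Pool.Agent.Helper805_nf.R1
import Pool.Agent.Helper805_nf.Y1

set_option autoImplicit false

namespace Pool.Agent.Helper805_nf

open Finset












theorem q16_enum (a : ℕ) (S : Multiset ℕ) (h : Multiset.card S = a) :
    ∃ e : Fin a → ℕ, Multiset.map e (Finset.univ : Finset (Fin a)).val = S := by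
  subst h
  refine ⟨fun i => S.toList.get (Fin.cast (by simp) i), ?_⟩
  rw [Fin.univ_val_map]
  conv_rhs => rw [← Multiset.coe_toList S]
  congr 1
  apply List.ext_get
  · simp
  · intro n h1 h2
    simp

theorem q16_filter_card (a : ℕ) (e : Fin a → ℕ) (P : ℕ → Prop) [DecidablePred P] :
    Multiset.card ((Multiset.map e (Finset.univ : Finset (Fin a)).val).filter P)
      = (Finset.univ.filter (fun l => P (e l))).card := by
  rw [Multiset.filter_map, Multiset.card_map]
  rfl

theorem q16_count (r : ℕ) (f : ℕ → ℕ) (L : Multiset ℕ) (h : ∀ x ∈ L, f x ≤ r) :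
    ∑ c ∈ Finset.range (r + 1), Multiset.card (L.filter (fun x => f x = c)) = Multiset.card L := by
  induction L using Multiset.induction_on with
  | empty => simp
  | cons x L ih =>
    have ih' := ih (fun y hy => h y (Multiset.mem_cons_of_mem hy))
    have hx : f x ≤ r := h x (Multiset.mem_cons_self x L)
    rw [Multiset.card_cons, ← ih']
    have : ∀ c, Multiset.card ((x ::ₘ L).filter (fun x => f x = c))
        = Multiset.card (L.filter (fun x => f x = c)) + (if f x = c then 1 else 0) := by
      intro c
      by_cases hc : f x = c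
      · rw [Multiset.filter_cons_of_pos (p := fun x => f x = c) L hc, Multiset.card_cons, if_pos hc]
      · rw [Multiset.filter_cons_of_neg (p := fun x => f x = c) L hc, if_neg hc, add_zero]
    rw [Finset.sum_congr rfl fun c _ => this c, Finset.sum_add_distrib, Finset.sum_ite_eq,
      if_pos (Finset.mem_range.mpr (by omega))]

theorem q16_charZero {K : Type} [NormedField K] [IsUltrametricDist K] (p : ℕ) (hp : p.Prime)
    (hpn : ‖(p : K)‖ = (p : ℝ)⁻¹) : CharZero K := by
  apply charZero_of_inj_zero
  intro n hn
  by_contra h0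
  obtain ⟨j, u, hu, hnu⟩ := Nat.exists_eq_pow_mul_and_not_dvd h0 p hp.ne_one
  have h1 : ‖(n : K)‖ = ((p : ℝ)⁻¹) ^ j := by
    rw [hnu]
    push_cast
    rw [norm_mul, norm_pow, hpn, (norm_nat_facts p hp hpn u).2.1 hu, mul_one]
  rw [hn, norm_zero] at h1
  have : (0 : ℝ) < ((p : ℝ)⁻¹) ^ j := by
    have : (0 : ℝ) < p := by exact_mod_cast hp.pos
    positivity
  linarith

theorem one_sided_beta (m p n : ℕ) (hp : p.Prime) (hpm : ¬ p ∣ m) (hn : 2 * n + 1 = m * p)
    (L : Multiset ℕ) (hcard : Multiset.card L = n) (hL : ∀ x ∈ L, 1 ≤ x ∧ x ≤ n)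
    (hc : ∀ c, 1 ≤ c → 2 * c < m → Multiset.card (L.filter (fun x => clm m x = c)) ≤ p)
    (hW : Multiset.card (L.filter (fun x => m ∣ x)) < p) : Realizable n L := by
  classical
  have hodd : Odd (m * p) := ⟨n, by omega⟩
  obtain ⟨hmo, hpo⟩ := Nat.odd_mul.mp hodd
  obtain ⟨r, hr⟩ := hmo
  obtain ⟨q, hq⟩ := hpo
  have hq1 : 1 ≤ q := by
    have := hp.two_le
    omega
  have hnr : n = r * p + q := by
    have : 2 * n + 1 = 2 * (r * p + q) + 1 := by
      rw [hn, hr]
      have : (2 * r + 1) * p = 2 * (r * p) + p := by ring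
      rw [this]
      omega
    omega
  have hrn : r ≤ n := by
    have : r * 1 ≤ r * p := Nat.mul_le_mul_left r hp.pos
    omega
  have hmpos : 0 < m := by omega
  obtain ⟨K, hK1, hK2, ζ, hpn, hζ⟩ := field_exists p (2 * n + 1) hp (by omega)
  have : CharZero K := q16_charZero p hp hpn
  obtain ⟨k, hk1, hk2, ω, hω, htr⟩ := residue_transfer p hp hpn m n hpm hn ζ hζ
  -- clm facts
  have hclm : ∀ x, 2 * clm m x < m := by
    intro x
    exact (entry_signs m ⟨r, hr⟩ ω hω x 0).2.2.1
  have hclm0 : ∀ x, clm m x = 0 ↔ m ∣ x := by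
    intro x
    exact (entry_signs m ⟨r, hr⟩ ω hω x 0).2.1
  have hcnt := q16_count r (clm m) L (fun x _ => by have := hclm x; omega)
  have hW' : Multiset.card (L.filter (fun x => clm m x = 0)) < p := by
    have : L.filter (fun x => clm m x = 0) = L.filter (fun x => m ∣ x) :=
      Multiset.filter_congr (fun x _ => hclm0 x)
    rw [this]
    exact hW
  -- existence of the labels
  have hex : ∀ i : Fin r, ∃ x ∈ L, clm m x = (i : ℕ) + 1 := by
    intro i
    by_contra hne
    push Not at hne
    have hz : Multiset.card (L.filter (fun x => clm m x = (i : ℕ) + 1)) = 0 := by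
      rw [Multiset.card_eq_zero, Multiset.filter_eq_nil]
      intro x hx
      exact hne x hx
    have hi := i.isLt
    have hb : ∑ c ∈ Finset.range (r + 1), Multiset.card (L.filter (fun x => clm m x = c))
        ≤ (p - 1) + (r - 1) * p := by
      have hsub : ({0, (i : ℕ) + 1} : Finset ℕ) ⊆ Finset.range (r + 1) := by
        intro c hc'
        simp only [Finset.mem_insert, Finset.mem_singleton] at hc'
        rw [Finset.mem_range]
        omega
      rw [← Finset.sum_sdiff hsub, Finset.sum_pair (by omega), hz]
      have h1 : ∑ c ∈ Finset.range (r + 1) \ {0, (i : ℕ) + 1},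
          Multiset.card (L.filter (fun x => clm m x = c)) ≤ (r - 1) * p := by
        have h2 : ∀ c ∈ Finset.range (r + 1) \ {0, (i : ℕ) + 1},
            Multiset.card (L.filter (fun x => clm m x = c)) ≤ p := by
          intro c hc'
          simp only [Finset.mem_sdiff, Finset.mem_range, Finset.mem_insert,
            Finset.mem_singleton, not_or] at hc'
          exact hc c (by omega) (by omega)
        have h3 := Finset.sum_le_card_nsmul _ _ _ h2
        rw [Finset.card_sdiff_of_subset hsub, Finset.card_range, Finset.card_pair (by omega),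
          smul_eq_mul] at h3
        have : r + 1 - 2 = r - 1 := by omega
        rwa [this] at h3
      omega
    rw [hcnt, hcard, hnr] at hb
    have h4 : r * p = (r - 1) * p + p := by
      obtain ⟨s, hs⟩ : ∃ s, r = s + 1 := ⟨r - 1, by omega⟩
      rw [hs]
      simp only [Nat.add_sub_cancel]
      ring
    have := hp.pos
    omega
  choose dd hddL hddc using hex
  have hinj : Function.Injective dd := by
    intro i j hij
    have h1 := hddc i
    have h2 := hddc j
    rw [hij] at h1
    apply Fin.ext
    omega
  set D : Multiset ℕ := Multiset.map dd (Finset.univ : Finset (Fin r)).val with hD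
  have hDn : D.Nodup := Multiset.Nodup.map hinj Finset.univ.nodup
  have hDL : D ≤ L := by
    rw [Multiset.le_iff_subset hDn]
    intro x hx
    rw [hD, Multiset.mem_map] at hx
    obtain ⟨i, _, rfl⟩ := hx
    exact hddL i
  have hDcard : Multiset.card D = r := by simp [hD]
  have hScard : Multiset.card (L - D) = n - r := by
    rw [Multiset.card_sub hDL, hcard, hDcard]
  obtain ⟨e, he⟩ := q16_enum (n - r) (L - D) hScard
  have hsum : Multiset.map e (Finset.univ : Finset (Fin (n - r))).val + D = L := by
    rw [he]
    exact Multiset.sub_add_cancel hDL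
  have heL : ∀ l, e l ∈ L := by
    intro l
    rw [← hsum]
    apply Multiset.mem_add.mpr
    left
    exact Multiset.mem_map_of_mem e (Finset.mem_univ l)
  have hfil : ∀ c, (Finset.univ.filter (fun l => clm m (e l) = c)).card
      + Multiset.card (D.filter (fun x => clm m x = c))
      = Multiset.card (L.filter (fun x => clm m x = c)) := by
    intro c
    rw [← q16_filter_card (n - r) e (fun x => clm m x = c), ← Multiset.card_add,
      ← Multiset.filter_add, hsum]
  have hcard' : ∀ c ∈ Finset.Icc 1 r,
      (Finset.univ.filter (fun l => clm m (e l) = c)).card ≤ p - 1 := by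
    intro c hc'
    rw [Finset.mem_Icc] at hc'
    have h1 := hfil c
    have h2 := hc c hc'.1 (by omega)
    have h3 : 0 < Multiset.card (D.filter (fun x => clm m x = c)) := by
      rw [Multiset.card_pos_iff_exists_mem]
      refine ⟨dd ⟨c - 1, by omega⟩, ?_⟩
      rw [Multiset.mem_filter]
      refine ⟨?_, ?_⟩
      · rw [hD]
        exact Multiset.mem_map_of_mem dd (Finset.mem_val.mpr (Finset.mem_univ _))
      · rw [hddc]
        show c - 1 + 1 = c
        omega
    omega
  have hW'' : (Finset.univ.filter (fun l => clm m (e l) = 0)).card ≤ p - 1 := by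
    have h1 := hfil 0
    omega
  have hbeta := beta_perm (k := k) p hp m r q n (n - r) hpm hr hq hnr (by omega) ω hω e
    (fun l => hL _ (heL l)) hcard' hW''
  have hA := htr (n - r) e (fun i => (i : ℕ) + (r + 1)) (Or.inr hbeta)
  exact two_mode_cols (n - r) r n (by omega) ζ hζ e dd hA
    (fun η hη => distinct_permSum_char_zero n r hrn η hη dd (fun i => hL _ (hddL i)) hinj)
    L hL hsum

end Pool.Agent.Helper805_nf
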