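import Mathlib
import Pool.Agent.Helper805_nf.Defs7
import Pool.Agent.Helper805_nf.Q15
import Pool.Agent.Helper805_nf.Q16

set_option autoImplicit false

namespace Pool.Agent.Helper805_nf

open Finset






theorem q17_iff (m c x : ℕ) (h1 : 1 ≤ c) (h2 : 2 * c < m) :
    (x % m = c ∨ x % m = m - c) ↔ clm m x = c := by
  have hr : x % m < m := Nat.mod_lt _ (by omega)
  unfold clm
  split_ifs with h <;> omega

theorem q17_filter (m c : ℕ) (L : Multiset ℕ) (h1 : 1 ≤ c) (h2 : 2 * c < m) :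
    L.filter (fun x => x % m = c ∨ x % m = m - c) = L.filter (fun x => clm m x = c) :=
  Multiset.filter_congr fun x _ => q17_iff m c x h1 h2

theorem one_sided (m p n : ℕ) (hp : p.Prime) (hpm : ¬ p ∣ m) (hn : 2 * n + 1 = m * p)
    (L : Multiset ℕ) (hcard : Multiset.card L = n) (hL : ∀ x ∈ L, 1 ≤ x ∧ x ≤ n)
    (h : ((∀ c, 1 ≤ c → 2 * c < m → p ≤ Multiset.card (L.filter (fun x => x % m = c ∨ x % m = m - c))) ∧
        ∀ x, L.count x ≤ p) ∨
      ((∀ c, 1 ≤ c → 2 * c < m → Multiset.card (L.filter (fun x => x % m = c ∨ x % m = m - c)) ≤ p) ∧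
        Multiset.card (L.filter (fun x => m ∣ x)) < p)) : Realizable n L := by
  rcases h with ⟨h1, h2⟩ | ⟨h1, h2⟩
  · refine one_sided_alpha m p n hp hpm hn L hcard hL (fun c hc1 hc2 => ?_) h2
    rw [← q17_filter m c L hc1 hc2]
    exact h1 c hc1 hc2
  · refine one_sided_beta m p n hp hpm hn L hcard hL (fun c hc1 hc2 => ?_) h2
    rw [← q17_filter m c L hc1 hc2]
    exact h1 c hc1 hc2


end Pool.Agent.Helper805_nf
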