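import Mathlib
import Pool.Agent.Helper805_nf.Defs6
import Pool.Agent.Helper805_nf.A1
import Pool.Agent.Helper805_nf.F

set_option autoImplicit false

namespace Pool.Agent.Helper805_nf

open Finset






/-- the flip permutation of `Bool` -/
def r10_flipB (t : Bool) : Equiv.Perm Bool := if t then Equiv.swap false true else 1

theorem r10_flipB_apply (t s : Bool) : r10_flipB t s = xor s t := by
  cases t <;> cases s <;> simp [r10_flipB]

theorem r10_flipB_sign (t : Bool) : Equiv.Perm.sign (r10_flipB t) = if t then -1 else 1 := by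
  cases t
  · simp [r10_flipB]
  · simp only [r10_flipB, if_true]
    exact Equiv.Perm.sign_swap (by decide)

/-- the permutation with given row permutation and flips -/
def r10_bp (m : ℕ) (π : Equiv.Perm (Fin m)) (ε : Fin m → Bool) (δ : Bool) :
    Option ((Fin m ⊕ Fin 1) × Bool) → Option ((Fin m ⊕ Fin 1) × Bool)
  | none => none
  | some (Sum.inl k, t) => some (Sum.inl (π k), xor t (ε k))
  | some (Sum.inr k, t) => some (Sum.inr k, xor t δ)

/-- block permutation as a permutation -/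
def r10_E (m : ℕ) (π : Equiv.Perm (Fin m)) (ε : Fin m → Bool) (δ : Bool) :
    Equiv.Perm (Option ((Fin m ⊕ Fin 1) × Bool)) :=
  Equiv.optionCongr ((Equiv.prodCongrLeft (fun _ : Bool => (Equiv.sumCongr π (1 : Equiv.Perm (Fin 1))))) *
    (Equiv.prodCongrRight (fun i => r10_flipB (Sum.elim ε (fun _ => δ) i))) :
      Equiv.Perm ((Fin m ⊕ Fin 1) × Bool))

theorem r10_E_apply (m : ℕ) (π : Equiv.Perm (Fin m)) (ε : Fin m → Bool) (δ : Bool)
    (r : Option ((Fin m ⊕ Fin 1) × Bool)) : r10_E m π ε δ r = r10_bp m π ε δ r := by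
  rcases r with _ | ⟨k | k, t⟩
  · rfl
  · simp [r10_E, r10_bp, r10_flipB_apply]
  · simp [r10_E, r10_bp, r10_flipB_apply]

theorem r10_E_sign (m : ℕ) (π : Equiv.Perm (Fin m)) (ε : Fin m → Bool) (δ : Bool) :
    ((Equiv.Perm.sign (r10_E m π ε δ) : ℤˣ) : ℤ) =
      (∏ i, (if ε i then (-1 : ℤ) else 1)) * (if δ then (-1 : ℤ) else 1) := by
  unfold r10_E
  rw [Equiv.optionCongr_sign, Equiv.Perm.sign_mul, Equiv.Perm.sign_prodCongrLeft,
    Equiv.Perm.sign_prodCongrRight]
  simp only [Fintype.prod_bool, Int.units_mul_self, one_mul, r10_flipB_sign, Fintype.prod_sum_type,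
    Sum.elim_inl, Sum.elim_inr, Finset.univ_unique, Finset.prod_singleton]
  push_cast
  congr 1
  · apply Finset.prod_congr rfl
    intro i _
    split_ifs <;> simp [*]
  · split_ifs <;> simp [*]

theorem r10_zeta_pow_val {K : Type*} [Field K] (v : ℕ) [NeZero v] (ζ : K) (hζ : IsPrimitiveRoot ζ v)
    (m : ℤ) : ζ ^ ((m : ZMod v)).val = ζ ^ m := by
  have h1 : (((m : ZMod v).val : ℤ)) ≡ m [ZMOD v] := by
    rw [← ZMod.intCast_eq_intCast_iff]
    simp
  have h0 : ζ ≠ 0 := hζ.ne_zero (NeZero.ne v)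
  rw [← zpow_natCast]
  obtain ⟨k, hk⟩ := (Int.modEq_iff_dvd.1 h1)
  have h2 : m = ((m : ZMod v).val : ℤ) + v * k := by linarith
  conv_rhs => rw [h2]
  rw [zpow_add₀ h0, zpow_mul, zpow_natCast ζ v, hζ.pow_eq_one, one_zpow, mul_one]

theorem r10_sum_flip {K : Type*} [Field K] {n : ℕ} (g : Fin n → Bool → K) :
    ∑ ε : Fin n → Bool, ∏ k, g k (ε k) = ∏ k, (g k true + g k false) := by
  have h := Finset.prod_univ_sum (fun _ : Fin n => (Finset.univ : Finset Bool)) g
  rw [Fintype.piFinset_univ] at h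
  rw [← h]
  simp

/-- the column labels, as integers -/
def r10_col (n m : ℕ) (κ : Fin m → Fin n) : Option ((Fin m ⊕ Fin 1) × Bool) → ℤ
  | none => -1
  | some (Sum.inl k, false) => -(((κ k : ℕ) : ℤ) + 1)
  | some (Sum.inl k, true) => ((κ k : ℕ) : ℤ) + 1
  | some (Sum.inr _, false) => 0
  | some (Sum.inr _, true) => 1

theorem r10_inj (n : ℕ) (p q : ℤ) (h : (p : ZMod (2 * n + 1)) = (q : ZMod (2 * n + 1)))
    (h1 : p - q < 2 * n + 1) (h2 : q - p < 2 * n + 1) : p = q := by
  rw [ZMod.intCast_eq_intCast_iff_dvd_sub] at h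
  obtain ⟨m, hm⟩ := h
  push_cast at hm
  have hm1 : m < 1 := by
    by_contra hc
    push Not at hc
    nlinarith
  have hm2 : -1 < m := by
    by_contra hc
    push Not at hc
    nlinarith
  have : m = 0 := by omega
  subst this
  linarith

theorem r10_col_range (n m : ℕ) (hn : m + 1 = n) (κ : Fin m → Fin n)
    (r : Option ((Fin m ⊕ Fin 1) × Bool)) :
    -(n : ℤ) ≤ r10_col n m κ r ∧ r10_col n m κ r ≤ n := by
  rcases r with _ | ⟨k | k, t⟩
  · simp only [r10_col]; omega
  · have := (κ k).2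
    cases t <;> simp only [r10_col] <;> omega
  · cases t <;> simp only [r10_col] <;> omega

theorem r10_col_inj (n m : ℕ) (κ : Fin m → Fin n) (hκ : Function.Injective κ)
    (hκ0 : ∀ i, (κ i : ℕ) ≠ 0) (r s : Option ((Fin m ⊕ Fin 1) × Bool))
    (h : r10_col n m κ r = r10_col n m κ s) : r = s := by
  have key : ∀ k l : Fin m, (κ k : ℕ) = (κ l : ℕ) → k = l := fun k l hkl => hκ (Fin.ext hkl)
  rcases r with _ | ⟨k | k, t⟩ <;> rcases s with _ | ⟨l | l, u⟩
  · rfl
  · have := hκ0 l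
    cases u <;> simp only [r10_col] at h <;> omega
  · cases u <;> simp only [r10_col] at h <;> omega
  · have := hκ0 k
    cases t <;> simp only [r10_col] at h <;> omega
  · have := hκ0 k
    have := hκ0 l
    cases t <;> cases u <;> simp only [r10_col] at h
    · rw [key k l (by omega)]
    · omega
    · omega
    · rw [key k l (by omega)]
  · have := hκ0 k
    cases t <;> cases u <;> simp only [r10_col] at h <;> omega
  · cases t <;> simp only [r10_col] at h <;> omega
  · have := hκ0 l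
    cases t <;> cases u <;> simp only [r10_col] at h <;> omega
  · rw [Subsingleton.elim k l]
    cases t <;> cases u <;> simp only [r10_col] at h <;> first | rfl | omega

theorem r10_ccol_inj (n m : ℕ) (hn : m + 1 = n) (κ : Fin m → Fin n) (hκ : Function.Injective κ)
    (hκ0 : ∀ i, (κ i : ℕ) ≠ 0) (r s : Option ((Fin m ⊕ Fin 1) × Bool))
    (h : ((r10_col n m κ r : ℤ) : ZMod (2 * n + 1)) = ((r10_col n m κ s : ℤ) : ZMod (2 * n + 1))) :
    r = s := by
  have h1 := r10_col_range n m hn κ r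
  have h2 := r10_col_range n m hn κ s
  exact r10_col_inj n m κ hκ hκ0 r s (r10_inj n _ _ h (by omega) (by omega))

theorem r10_col_bij (n m : ℕ) (hn : m + 1 = n) (κ : Fin m → Fin n) (hκ : Function.Injective κ)
    (hκ0 : ∀ i, (κ i : ℕ) ≠ 0) : Function.Bijective
    (fun r : Option ((Fin m ⊕ Fin 1) × Bool) => ((r10_col n m κ r : ℤ) : ZMod (2 * n + 1))) := by
  rw [Fintype.bijective_iff_injective_and_card]
  refine ⟨fun r s h => r10_ccol_inj n m hn κ hκ hκ0 r s h, ?_⟩
  rw [ZMod.card]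
  simp [Fintype.card_option, Fintype.card_prod]
  omega

theorem r10_structure (n m : ℕ) (hn : m + 1 = n) (κ : Fin m → Fin n) (hκ : Function.Injective κ)
    (hκ0 : ∀ i, (κ i : ℕ) ≠ 0) (σ : Equiv.Perm (Option ((Fin m ⊕ Fin 1) × Bool)))
    (hA : ∀ i : Fin m, ((r10_col n m κ (σ (some (Sum.inl i, false))) : ℤ) : ZMod (2 * n + 1)) +
        ((r10_col n m κ (σ (some (Sum.inl i, true))) : ℤ) : ZMod (2 * n + 1)) = 0)
    (hB : ∀ i : Fin 1, ((r10_col n m κ (σ (some (Sum.inr i, false))) : ℤ) : ZMod (2 * n + 1)) +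
        ((r10_col n m κ (σ (some (Sum.inr i, true))) : ℤ) : ZMod (2 * n + 1)) = 1) :
    ∃ (π : Equiv.Perm (Fin m)) (ε : Fin m → Bool) (δ : Bool),
      ∀ r, σ r = r10_bp m π ε δ r := by
  have h0 : σ none = none := by
    have hs := Equiv.sum_comp σ (fun r => ((r10_col n m κ r : ℤ) : ZMod (2 * n + 1)))
    rw [Fintype.sum_option, Fintype.sum_option, Fintype.sum_prod_type, Fintype.sum_prod_type] at hs
    simp only [Fintype.sum_bool, Fintype.sum_sum_type] at hs
    have h1 : ∀ x : Fin m, ((r10_col n m κ (σ (some (Sum.inl x, true))) : ℤ) : ZMod (2 * n + 1)) +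
        ((r10_col n m κ (σ (some (Sum.inl x, false))) : ℤ) : ZMod (2 * n + 1)) = 0 := by
      intro x; exact (add_comm _ _).trans (hA x)
    have h2 : ∀ x : Fin 1, ((r10_col n m κ (σ (some (Sum.inr x, true))) : ℤ) : ZMod (2 * n + 1)) +
        ((r10_col n m κ (σ (some (Sum.inr x, false))) : ℤ) : ZMod (2 * n + 1)) = 1 := by
      intro x; exact (add_comm _ _).trans (hB x)
    rw [Finset.sum_congr rfl (fun x _ => h1 x), Finset.sum_congr rfl (fun x _ => h2 x)] at hs
    have h3 : ∀ x : Fin m, ((r10_col n m κ (some (Sum.inl x, true)) : ℤ) : ZMod (2 * n + 1)) +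
        ((r10_col n m κ (some (Sum.inl x, false)) : ℤ) : ZMod (2 * n + 1)) = 0 := by
      intro x; simp [r10_col]
    have h4 : ∀ x : Fin 1, ((r10_col n m κ (some (Sum.inr x, true)) : ℤ) : ZMod (2 * n + 1)) +
        ((r10_col n m κ (some (Sum.inr x, false)) : ℤ) : ZMod (2 * n + 1)) = 1 := by
      intro x; simp [r10_col]
    rw [Finset.sum_congr rfl (fun x _ => h3 x), Finset.sum_congr rfl (fun x _ => h4 x)] at hs
    apply r10_ccol_inj n m hn κ hκ hκ0
    exact add_right_cancel hs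
  have hc : ∀ x y, ((r10_col n m κ (σ x) : ℤ) : ZMod (2 * n + 1)) =
      ((r10_col n m κ (σ y) : ℤ) : ZMod (2 * n + 1)) → x = y := fun x y h =>
    σ.injective (r10_ccol_inj n m hn κ hκ hκ0 _ _ h)
  have hA' : ∀ (i : Fin m) (β : Bool), ((r10_col n m κ (σ (some (Sum.inl i, !β))) : ℤ) : ZMod (2 * n + 1)) =
      -((r10_col n m κ (σ (some (Sum.inl i, β))) : ℤ) : ZMod (2 * n + 1)) := by
    intro i β
    cases β
    · have := hA i
      simp only [Bool.not_false]
      linear_combination this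
    · have := hA i
      simp only [Bool.not_true]
      linear_combination this
  have kA : ∀ (i : Fin m) (β : Bool), ∃ (k : Fin m) (γ : Bool), σ (some (Sum.inl i, β)) = some (Sum.inl k, γ) := by
    intro i β
    have hne : σ (some (Sum.inl i, β)) ≠ none := by
      intro h
      rw [← h0] at h
      have := σ.injective h
      simp at this
    have hp := hA' i β
    rcases hw : σ (some (Sum.inl i, β)) with _ | ⟨k | k, t⟩
    · exact absurd hw hne
    · exact ⟨k, t, rfl⟩
    · exfalso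
      rw [hw] at hp
      cases t
      · have h1 := hc (some (Sum.inl i, !β)) (some (Sum.inl i, β)) (by rw [hp, hw]; simp [r10_col])
        cases β <;> simp at h1
      · have h1 := hc (some (Sum.inl i, !β)) none (by rw [hp, h0]; simp [r10_col])
        simp at h1
  have eA : ∀ i : Fin m, ∃ (k : Fin m) (γ : Bool), ∀ β, σ (some (Sum.inl i, β)) = some (Sum.inl k, xor β γ) := by
    intro i
    obtain ⟨k, γ, h1⟩ := kA i false
    have h2 := hA' i false
    have h3 : σ (some (Sum.inl i, true)) = some (Sum.inl k, !γ) := by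
      apply r10_ccol_inj n m hn κ hκ hκ0
      rw [Bool.not_false] at h2
      rw [h2, h1]
      cases γ <;> simp [r10_col]
    refine ⟨k, γ, fun β => ?_⟩
    cases β
    · rw [h1]; simp
    · rw [h3]; simp
  choose π ε hπ using eA
  have iπ : Function.Injective π := by
    intro i j hij
    have h : σ (some (Sum.inl i, false)) = σ (some (Sum.inl j, xor (ε i) (ε j))) := by
      rw [hπ, hπ, hij]
      cases ε i <;> cases ε j <;> rfl
    have := σ.injective h
    simp at this
    exact this.1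
  have sπ : Function.Surjective π := Finite.injective_iff_surjective.1 iπ
  have kB : ∀ (i : Fin 1) (β : Bool), ∃ γ : Bool, σ (some (Sum.inr i, β)) = some (Sum.inr i, γ) := by
    intro i β
    rcases hw : σ (some (Sum.inr i, β)) with _ | ⟨k | k, t⟩
    · rw [← h0] at hw
      have := σ.injective hw
      simp at this
    · exfalso
      obtain ⟨j, hj⟩ := sπ k
      have h1 : σ (some (Sum.inl j, xor t (ε j))) = some (Sum.inl k, t) := by
        rw [hπ, hj]
        cases t <;> cases ε j <;> rfl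
      rw [← hw] at h1
      have := σ.injective h1
      simp at this
    · exact ⟨t, by rw [Subsingleton.elim i k]⟩
  obtain ⟨δ, hδ⟩ := kB 0 false
  have hδ' : σ (some (Sum.inr 0, true)) = some (Sum.inr 0, !δ) := by
    obtain ⟨γ, hγ⟩ := kB 0 true
    have hne : δ ≠ γ := by
      intro h
      rw [← h, ← hδ] at hγ
      have := σ.injective hγ
      simp at this
    rw [hγ]
    cases δ <;> cases γ <;> simp_all
  refine ⟨Equiv.ofBijective π (Finite.injective_iff_bijective.1 iπ), ε, δ, fun r => ?_⟩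
  rcases r with _ | ⟨k | k, t⟩
  · exact h0
  · exact hπ k t
  · rw [Subsingleton.elim k 0]
    cases t
    · rw [hδ]; simp [r10_bp]
    · rw [hδ']; simp [r10_bp]

theorem r10_hterm {K : Type*} [Field K] (n m : ℕ) (κ : Fin m → Fin n) (ζ : K)
    (hζ : IsPrimitiveRoot ζ (2 * n + 1)) (d : ℕ) (e : Fin m → ℕ) (π : Equiv.Perm (Fin m))
    (ε : Fin m → Bool) (δ : Bool) :
    (((Equiv.Perm.sign (r10_E m π ε δ) : ℤˣ) : ℤ) : K) *
        ∏ i, ζ ^ (((r10_col n m κ (r10_E m π ε δ (some (i, true))) : ℤ) :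
          ZMod (2 * n + 1)) * ((Sum.elim e (fun _ => d) i : ℕ) : ZMod (2 * n + 1))).val =
        (∏ k, (if ε k then (-1 : K) * (ζ⁻¹) ^ (((κ (π k) : ℕ) + 1) * e k)
          else ζ ^ (((κ (π k) : ℕ) + 1) * e k))) * (if δ then -1 else ζ ^ d) := by
  rw [r10_E_sign, Fintype.prod_sum_type]
  have hl : ∀ k : Fin m, ζ ^ (((r10_col n m κ (r10_E m π ε δ (some (Sum.inl k, true))) : ℤ) :
      ZMod (2 * n + 1)) * ((Sum.elim e (fun _ : Fin 1 => d) (Sum.inl k) : ℕ) : ZMod (2 * n + 1))).val =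
      (if ε k then (ζ⁻¹) ^ (((κ (π k) : ℕ) + 1) * e k) else ζ ^ (((κ (π k) : ℕ) + 1) * e k)) := by
    intro k
    rw [Sum.elim_inl, ← Int.cast_natCast, ← Int.cast_mul, r10_zeta_pow_val _ _ hζ, r10_E_apply]
    cases hε : ε k
    · simp only [r10_bp, hε, Bool.xor_false, r10_col, Bool.false_eq_true, if_false]
      rw [← zpow_natCast ζ]
      push_cast
      rfl
    · simp only [r10_bp, hε, Bool.xor_self, r10_col, if_true]
      rw [inv_pow, ← zpow_natCast ζ, ← zpow_neg, neg_mul]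
      push_cast
      rfl
  have hr : ζ ^ (((r10_col n m κ (r10_E m π ε δ (some (Sum.inr 0, true))) : ℤ) :
      ZMod (2 * n + 1)) * ((Sum.elim e (fun _ : Fin 1 => d) (Sum.inr 0) : ℕ) : ZMod (2 * n + 1))).val =
      (if δ then 1 else ζ ^ d) := by
    rw [Sum.elim_inr, ← Int.cast_natCast, ← Int.cast_mul, r10_zeta_pow_val _ _ hζ, r10_E_apply]
    cases hδ : δ
    · simp only [r10_bp, Bool.xor_false, r10_col, Bool.false_eq_true, if_false]
      rw [one_mul, zpow_natCast]
    · simp only [r10_bp, Bool.xor_self, r10_col, if_true]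
      rw [zero_mul, zpow_zero]
  rw [Finset.prod_congr rfl (fun k _ => hl k)]
  simp only [Finset.univ_unique, Finset.prod_singleton, Fin.default_eq_zero]
  rw [hr]
  have e1 : ((∏ i, (if ε i then (-1 : ℤ) else 1) : ℤ) : K) = ∏ i, (if ε i then (-1 : K) else 1) := by
    rw [Int.cast_prod]
    exact Finset.prod_congr rfl (fun i _ => by split_ifs <;> simp)
  have e2 : (((if δ then (-1 : ℤ) else 1) : ℤ) : K) = if δ then (-1 : K) else 1 := by
    split_ifs <;> simp
  rw [Int.cast_mul, e1, e2]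
  have e3 : (∏ k, (if ε k then (-1 : K) * (ζ⁻¹) ^ (((κ (π k) : ℕ) + 1) * e k)
          else ζ ^ (((κ (π k) : ℕ) + 1) * e k))) =
      (∏ i, (if ε i then (-1 : K) else 1)) *
        ∏ k, (if ε k then (ζ⁻¹) ^ (((κ (π k) : ℕ) + 1) * e k) else ζ ^ (((κ (π k) : ℕ) + 1) * e k)) := by
    rw [← Finset.prod_mul_distrib]
    exact Finset.prod_congr rfl (fun i _ => by split_ifs <;> ring)
  rw [e3]
  cases δ <;> simp <;> ring

theorem r10_exists {K : Type*} [Field K] (n m : ℕ) (hn : m + 1 = n) (ζ : K)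
    (hζ : IsPrimitiveRoot ζ (2 * n + 1)) (d : ℕ) (hd : ¬ (2 * n + 1) ∣ d) (e : Fin m → ℕ)
    (κ : Fin m → Fin n) (hκ : Function.Injective κ) (hκ0 : ∀ i, (κ i : ℕ) ≠ 0)
    (hper : ∑ π : Equiv.Perm (Fin m), ∏ b, (ζ ^ (((κ (π b) : ℕ) + 1) * e b) -
      (ζ⁻¹) ^ (((κ (π b) : ℕ) + 1) * e b)) ≠ 0) :
    ∃ x : Fin m ⊕ Fin 1 → ZMod (2 * n + 1), Function.Injective
      (fun r : Option ((Fin m ⊕ Fin 1) × Bool) => r.elim (0 : ZMod (2 * n + 1))
        (fun q => x q.1 + if q.2 then ((Sum.elim e (fun _ => d) q.1 : ℕ) : ZMod (2 * n + 1)) else 0)) := by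
  refine fourier_exists (2 * n + 1) ζ hζ (Equiv.ofBijective _ (r10_col_bij n m hn κ hκ hκ0))
    (fun i => ((Sum.elim e (fun _ => d) i : ℕ) : ZMod (2 * n + 1)))
    (Sum.elim (fun _ => 0) (fun _ => 1)) ?_
  rw [← Finset.sum_filter]
  have key : ∑ p : Equiv.Perm (Fin m) × ((Fin m → Bool) × Bool),
      (((Equiv.Perm.sign (r10_E m p.1 p.2.1 p.2.2) : ℤˣ) : ℤ) : K) *
        ∏ i, ζ ^ (((r10_col n m κ (r10_E m p.1 p.2.1 p.2.2 (some (i, true))) : ℤ) :
          ZMod (2 * n + 1)) * ((Sum.elim e (fun _ => d) i : ℕ) : ZMod (2 * n + 1))).val =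
      (∑ π : Equiv.Perm (Fin m), ∏ b, (ζ ^ (((κ (π b) : ℕ) + 1) * e b) -
      (ζ⁻¹) ^ (((κ (π b) : ℕ) + 1) * e b))) * (ζ ^ d - 1) := by
    rw [Fintype.sum_prod_type, Finset.sum_mul]
    refine Finset.sum_congr rfl fun π _ => ?_
    rw [Fintype.sum_prod_type]
    simp only [r10_hterm n m κ ζ hζ d e]
    simp_rw [← Finset.mul_sum, ← Finset.sum_mul]
    rw [r10_sum_flip (fun k t => if t then (-1 : K) * (ζ⁻¹) ^ (((κ (π k) : ℕ) + 1) * e k)
          else ζ ^ (((κ (π k) : ℕ) + 1) * e k))]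
    simp only [if_true, Bool.false_eq_true, if_false, Fintype.sum_bool]
    congr 1
    · refine Finset.prod_congr rfl fun k _ => ?_
      ring
    · ring
  have hsum : ∑ σ ∈ Finset.univ.filter (fun σ : Equiv.Perm (Option ((Fin m ⊕ Fin 1) × Bool)) =>
        ∀ i, (Equiv.ofBijective _ (r10_col_bij n m hn κ hκ hκ0)) (σ (some (i, false))) +
          (Equiv.ofBijective _ (r10_col_bij n m hn κ hκ hκ0)) (σ (some (i, true))) =
          (Sum.elim (fun _ => (0 : ZMod (2 * n + 1))) (fun _ => 1) : Fin m ⊕ Fin 1 → ZMod (2 * n + 1)) i),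
          ((Equiv.Perm.sign σ : ℤ) : K) *
            ∏ i, ζ ^ ((Equiv.ofBijective _ (r10_col_bij n m hn κ hκ hκ0)) (σ (some (i, true))) *
              ((Sum.elim e (fun _ => d) i : ℕ) : ZMod (2 * n + 1))).val =
      ∑ p : Equiv.Perm (Fin m) × ((Fin m → Bool) × Bool),
      (((Equiv.Perm.sign (r10_E m p.1 p.2.1 p.2.2) : ℤˣ) : ℤ) : K) *
        ∏ i, ζ ^ (((r10_col n m κ (r10_E m p.1 p.2.1 p.2.2 (some (i, true))) : ℤ) :
          ZMod (2 * n + 1)) * ((Sum.elim e (fun _ => d) i : ℕ) : ZMod (2 * n + 1))).val := by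
    symm
    apply Finset.sum_nbij (fun p => r10_E m p.1 p.2.1 p.2.2)
    · rintro ⟨π, ⟨ε, δ⟩⟩ _
      simp only [Finset.mem_filter, Finset.mem_univ, true_and]
      intro i
      simp only [Equiv.ofBijective_apply, r10_E_apply]
      rcases i with k | k
      · simp only [r10_bp, Sum.elim_inl]
        cases hε : ε k <;> simp [r10_col]
      · simp only [r10_bp, Sum.elim_inr]
        cases δ <;> simp [r10_col]
    · rintro ⟨π, ⟨ε, δ⟩⟩ _ ⟨π', ⟨ε', δ'⟩⟩ _ h
      simp only at h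
      have h1 : ∀ r, r10_bp m π ε δ r = r10_bp m π' ε' δ' r := by
        intro r
        rw [← r10_E_apply, ← r10_E_apply, h]
      have h2 : ∀ k, π k = π' k ∧ ε k = ε' k := by
        intro k
        have := h1 (some (Sum.inl k, false))
        simpa [r10_bp] using this
      have h3 : δ = δ' := by
        have := h1 (some (Sum.inr 0, false))
        simpa [r10_bp] using this
      simp only [Prod.mk.injEq]
      exact ⟨Equiv.ext fun k => (h2 k).1, funext fun k => (h2 k).2, h3⟩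
    · intro σ hσ
      simp only [Finset.coe_filter, Finset.mem_univ, true_and, Set.mem_ofPred_eq,
        Equiv.ofBijective_apply] at hσ
      obtain ⟨π, ε, δ, h⟩ := r10_structure n m hn κ hκ hκ0 σ
        (fun i => hσ (Sum.inl i))
        (fun i => hσ (Sum.inr i))
      refine ⟨⟨π, ⟨ε, δ⟩⟩, by simp, ?_⟩
      ext1 r
      simp only [r10_E_apply, h]
    · rintro ⟨π, ⟨ε, δ⟩⟩ _
      rfl
  rw [hsum, key]
  refine mul_ne_zero hper ?_
  rw [sub_ne_zero]
  intro h
  exact hd ((hζ.pow_eq_one_iff_dvd d).1 h)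

theorem exchange_single {K : Type*} [Field K] (n m : ℕ) (hn : m + 1 = n) (ζ : K)
    (hζ : IsPrimitiveRoot ζ (2 * n + 1)) (d : ℕ) (hd : ¬ (2 * n + 1) ∣ d) (e : Fin m → ℕ)
    (κ : Fin m → Fin n) (hκ : Function.Injective κ) (hκ0 : ∀ i, (κ i : ℕ) ≠ 0)
    (hper : ∑ π : Equiv.Perm (Fin m), ∏ b, (ζ ^ (((κ (π b) : ℕ) + 1) * e b) -
      (ζ⁻¹) ^ (((κ (π b) : ℕ) + 1) * e b)) ≠ 0)
    (L : Multiset ℕ) (hL : ∀ x ∈ L, 1 ≤ x ∧ x ≤ n)
    (hlab : Multiset.map e (Finset.univ : Finset (Fin m)).val + {d} = L) :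
    Realizable n L := by
  obtain ⟨x, hx⟩ := r10_exists n m hn ζ hζ d hd e κ hκ hκ0 hper
  refine placement_to_factor n L hL (ι := Fin m ⊕ Fin 1) (by simp [hn]) (Sum.elim e (fun _ => d))
    ?_ x ?_
  · rw [← hlab, ← Finset.univ_disjSum_univ, Finset.val_disjSum, Multiset.disjSum, Multiset.map_add,
      Multiset.map_map, Multiset.map_map]
    congr 1
  · intro r s h
    have h1 := @hx (some r) (some s) h
    exact Option.some_injective _ h1


end Pool.Agent.Helper805_nf
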