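import Pool.Agent.Helper805_nf.Defs3

set_option autoImplicit false

namespace Pool.Agent.Helper805_nf

open Finset



theorem a4_rec {K : Type*} [Field K] (z : K) (hz : z ≠ 0) (d : ℕ) :
    rho z (d + 2) = (z + z⁻¹) * rho z (d + 1) - rho z d := by
  have h1 : rho z (d + 2) = z * rho z (d + 1) + z ^ (-((d : ℤ) + 1)) := by
    unfold rho
    rw [Finset.sum_range_succ _ (d + 1), Finset.mul_sum]
    congr 1
    · apply Finset.sum_congr rfl
      intro s _
      rw [← zpow_one_add₀ hz]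
      congr 1
      push_cast
      ring
    · congr 1
      push_cast
      ring
  have h2 : z⁻¹ * rho z (d + 1) = rho z d + z ^ (-((d : ℤ) + 1)) := by
    unfold rho
    rw [Finset.mul_sum, Finset.sum_range_succ]
    congr 1
    · apply Finset.sum_congr rfl
      intro s _
      rw [← zpow_neg_one, ← zpow_add₀ hz]
      congr 1
      push_cast
      ring
    · rw [← zpow_neg_one, ← zpow_add₀ hz]
      congr 1
      push_cast
      ring
  rw [h1, add_mul, h2]
  ring

theorem a4_choose (d : ℕ) : (d + 3).choose 3 + (d + 1).choose 3 = 2 * (d + 2).choose 3 + (d + 1) := by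
  have e1 : (d + 3).choose 3 = (d + 2).choose 2 + (d + 2).choose 3 := Nat.choose_succ_succ' (d + 2) 2
  have e2 : (d + 2).choose 3 = (d + 1).choose 2 + (d + 1).choose 3 := Nat.choose_succ_succ' (d + 1) 2
  have e3 : (d + 2).choose 2 = (d + 1).choose 1 + (d + 1).choose 2 := Nat.choose_succ_succ' (d + 1) 1
  have e4 : (d + 1).choose 1 = d + 1 := Nat.choose_one_right _
  omega

theorem a4_bound {K : Type*} [NormedField K] [IsUltrametricDist K] (z : K) (hz : ‖z‖ = 1)
    (d : ℕ) :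
    ‖rho z d - (d : K) - (((d + 1).choose 3 : ℕ) : K) * (z + z⁻¹ - 2)‖ ≤ ‖z + z⁻¹ - 2‖ ^ 2 ∧
    ‖rho z (d + 1) - ((d + 1 : ℕ) : K) - (((d + 2).choose 3 : ℕ) : K) * (z + z⁻¹ - 2)‖ ≤
      ‖z + z⁻¹ - 2‖ ^ 2 := by
  have hz0 : z ≠ 0 := by
    intro h
    rw [h, norm_zero] at hz
    exact zero_ne_one hz
  have hzi : ‖z⁻¹‖ = 1 := by rw [norm_inv, hz, inv_one]
  have hzz : ‖z + z⁻¹‖ ≤ 1 := by
    refine (IsUltrametricDist.norm_add_le_max z z⁻¹).trans ?_
    rw [hz, hzi, max_self]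
  induction d with
  | zero =>
    constructor
    · have e : rho z 0 - ((0 : ℕ) : K) - (((0 + 1).choose 3 : ℕ) : K) * (z + z⁻¹ - 2) = 0 := by
        have hc : (0 + 1).choose 3 = 0 := by decide
        rw [hc]
        simp [rho]
      rw [e, norm_zero]
      positivity
    · have e : rho z (0 + 1) - ((0 + 1 : ℕ) : K) - (((0 + 2).choose 3 : ℕ) : K) * (z + z⁻¹ - 2)
          = 0 := by
        have hc : (0 + 2).choose 3 = 0 := by decide
        rw [hc]
        simp [rho]
      rw [e, norm_zero]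
      positivity
  | succ d ih =>
    obtain ⟨ih1, ih2⟩ := ih
    refine ⟨ih2, ?_⟩
    set X := z + z⁻¹ - 2 with hX
    have hzX : z + z⁻¹ = X + 2 := by rw [hX]; ring
    have hc : (((d + 3).choose 3 : ℕ) : K) + (((d + 1).choose 3 : ℕ) : K) =
        2 * (((d + 2).choose 3 : ℕ) : K) + ((d : K) + 1) := by
      have := congrArg (fun n : ℕ => (n : K)) (a4_choose d)
      push_cast at this
      exact this
    have key : rho z (d + 1 + 1) - ((d + 1 + 1 : ℕ) : K) - (((d + 1 + 2).choose 3 : ℕ) : K) * X =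
        (z + z⁻¹) * (rho z (d + 1) - ((d + 1 : ℕ) : K) - (((d + 2).choose 3 : ℕ) : K) * X) +
        (-(rho z d - (d : K) - (((d + 1).choose 3 : ℕ) : K) * X) +
          (((d + 2).choose 3 : ℕ) : K) * X ^ 2) := by
      have h := a4_rec z hz0 d
      rw [show d + 1 + 1 = d + 2 from rfl, show d + 1 + 2 = d + 3 from rfl, h, hzX]
      push_cast
      linear_combination (-X) * hc
    rw [key]
    refine (IsUltrametricDist.norm_add_le_max _ _).trans (max_le ?_ ?_)
    · rw [norm_mul]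
      calc ‖z + z⁻¹‖ * _ ≤ 1 * ‖X‖ ^ 2 := mul_le_mul hzz ih2 (norm_nonneg _) zero_le_one
        _ = ‖X‖ ^ 2 := one_mul _
    · refine (IsUltrametricDist.norm_add_le_max _ _).trans (max_le ?_ ?_)
      · rw [norm_neg]
        exact ih1
      · rw [norm_mul, norm_pow]
        have hn := IsUltrametricDist.norm_natCast_le_one K ((d + 2).choose 3)
        calc _ ≤ 1 * ‖X‖ ^ 2 := mul_le_mul_of_nonneg_right hn (by positivity)
          _ = ‖X‖ ^ 2 := one_mul _

theorem rho_taylor {K : Type*} [NormedField K] [IsUltrametricDist K] (z : K) (hz : ‖z‖ = 1) (d : ℕ) :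
    ‖rho z d - (d : K)‖ ≤ ‖z - 1‖ ^ 2 ∧
      ‖rho z d - (d : K) - (((d + 1).choose 3 : ℕ) : K) * (z + z⁻¹ - 2)‖ ≤ ‖z - 1‖ ^ 4 ∧
      ‖z + z⁻¹ - 2‖ = ‖z - 1‖ ^ 2 := by
  have hz0 : z ≠ 0 := by
    intro h
    rw [h, norm_zero] at hz
    exact zero_ne_one hz
  have hX : ‖z + z⁻¹ - 2‖ = ‖z - 1‖ ^ 2 := by
    have e : z + z⁻¹ - 2 = (z - 1) ^ 2 * z⁻¹ := by
      field_simp
      ring
    rw [e, norm_mul, norm_pow, norm_inv, hz, inv_one, mul_one]
  have h1 : ‖z - 1‖ ≤ 1 := by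
    have := IsUltrametricDist.norm_add_le_max z (-1)
    rw [hz, norm_neg, norm_one, max_self, ← sub_eq_add_neg] at this
    exact this
  have hb := (a4_bound z hz d).1
  have h4 : ‖z + z⁻¹ - 2‖ ^ 2 = ‖z - 1‖ ^ 4 := by
    rw [hX]
    ring
  refine ⟨?_, ?_, hX⟩
  · have e : rho z d - (d : K) = (rho z d - (d : K) - (((d + 1).choose 3 : ℕ) : K) *
        (z + z⁻¹ - 2)) + (((d + 1).choose 3 : ℕ) : K) * (z + z⁻¹ - 2) := by ring
    rw [e]
    refine (IsUltrametricDist.norm_add_le_max _ _).trans (max_le ?_ ?_)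
    · refine hb.trans ?_
      rw [h4]
      exact pow_le_pow_of_le_one (norm_nonneg _) h1 (by norm_num)
    · rw [norm_mul, hX]
      have hn := IsUltrametricDist.norm_natCast_le_one K ((d + 1).choose 3)
      calc _ ≤ 1 * ‖z - 1‖ ^ 2 := mul_le_mul_of_nonneg_right hn (by positivity)
        _ = ‖z - 1‖ ^ 2 := one_mul _
  · rw [← h4]
    exact hb


end Pool.Agent.Helper805_nf
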