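import Mathlib
import Pool.Agent.Helper805_nf.Defs6
import Pool.Agent.Helper805_nf.Y1
import Pool.Agent.Helper805_nf.Y3
import Pool.Agent.Helper805_nf.Y4

set_option autoImplicit false

namespace Pool.Agent.Helper805_nf

open Finset






/-- helper -/
theorem r2_norm_one {K : Type*} [NormedField K] (x : K) (n : ℕ) (hn : n ≠ 0) (h : x ^ n = 1) :
    ‖x‖ = 1 := by
  have h1 : ‖x‖ ^ n = 1 := by rw [← norm_pow, h, norm_one]
  exact (pow_eq_one_iff_of_nonneg (norm_nonneg x) hn).1 h1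

/-- helper -/
theorem r2_pow_sub_one {K : Type*} [NormedField K] [IsUltrametricDist K] (x : K) (hx : ‖x‖ = 1)
    (k : ℕ) : ‖x ^ k - 1‖ ≤ ‖x - 1‖ := by
  induction k with
  | zero => simp
  | succ k ih =>
    have e : x ^ (k + 1) - 1 = x * (x ^ k - 1) + (x - 1) := by ring
    rw [e]
    refine (IsUltrametricDist.norm_add_le_max _ _).trans (max_le ?_ le_rfl)
    rw [norm_mul, hx, one_mul]
    exact ih

/-- helper -/
theorem r2_pow_sub_one_eq {K : Type*} [NormedField K] [IsUltrametricDist K] (p : ℕ) (hp : p.Prime)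
    (x : K) (hx : x ^ p = 1) (k : ℕ) (hk : ¬ p ∣ k) : ‖x ^ k - 1‖ = ‖x - 1‖ := by
  have hx1 : ‖x‖ = 1 := r2_norm_one x p hp.ne_zero hx
  refine le_antisymm (r2_pow_sub_one x hx1 k) ?_
  have hco : Nat.Coprime k p := ((Nat.Prime.coprime_iff_not_dvd hp).2 hk).symm
  obtain ⟨l, _, hl⟩ := Nat.exists_mul_mod_eq_one_of_coprime hco hp.one_lt
  have e : x = (x ^ k) ^ l := by
    rw [← pow_mul, ← Nat.div_add_mod (k * l) p, hl, pow_add, pow_mul, hx, one_pow, one_mul, pow_one]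
  have hxk : ‖x ^ k‖ = 1 := by rw [norm_pow, hx1, one_pow]
  calc ‖x - 1‖ = ‖(x ^ k) ^ l - 1‖ := by rw [← e]
    _ ≤ ‖x ^ k - 1‖ := r2_pow_sub_one _ hxk l

theorem three_norms {K : Type*} [NormedField K] [IsUltrametricDist K] (p q n : ℕ) (hp : p.Prime)
    (hq : p = 2 * q + 1) (h5 : 5 ≤ p) (hn : n = 3 * q + 1) (hpn : ‖(p : K)‖ = (p : ℝ)⁻¹) (ζ : K)
    (hζ : IsPrimitiveRoot ζ (2 * n + 1)) :
    ∃ (τ : ℝ) (ϖ θ : K), 0 < τ ∧ τ < 1 ∧ ‖ϖ‖ = τ ∧ ‖θ‖ = 1 ∧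
      (∀ k : ℕ, 3 ∣ k → ‖ζ ^ k - (ζ⁻¹) ^ k - (k : K) * ϖ‖ ≤ τ ^ 2) ∧
      (∀ k : ℕ, ‖ζ ^ k - (ζ⁻¹) ^ k - (chi3 k : K) * θ‖ ≤ τ) := by
  have hv : 2 * n + 1 = 3 * p := by omega
  rw [hv] at hζ
  have h3p : ¬ p ∣ 3 := by
    intro h
    have := Nat.le_of_dvd (by norm_num) h
    omega
  have hp3 : ¬ 3 ∣ p := by
    intro h
    rcases (Nat.dvd_prime hp).1 h with h | h <;> omega
  have h2p : ¬ p ∣ 2 := by
    intro h
    have := Nat.le_of_dvd (by norm_num) h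
    omega
  -- the exponents
  obtain ⟨a, ha⟩ : ∃ a : ℕ, (a = 1 ∨ a = 2) ∧ (a * p) % 3 = 1 := by
    have : p % 3 = 1 ∨ p % 3 = 2 := by omega
    rcases this with h | h
    · exact ⟨1, Or.inl rfl, by omega⟩
    · exact ⟨2, Or.inr rfl, by omega⟩
  obtain ⟨ha12, ha3⟩ := ha
  obtain ⟨m, hm⟩ : ∃ m : ℕ, 3 * m + a * p = 3 * p + 1 := by
    refine ⟨(3 * p + 1 - a * p) / 3, ?_⟩
    rcases ha12 with rfl | rfl <;> omega
  have hζ0 : ζ ^ (3 * p) = 1 := hζ.pow_eq_one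
  have hpz : 0 < 3 * p := by omega
  have hr3 : IsPrimitiveRoot (ζ ^ 3) p := hζ.pow hpz rfl
  have hrp : IsPrimitiveRoot (ζ ^ p) 3 := hζ.pow hpz (mul_comm 3 p)
  have hmp : Nat.Coprime m p := by
    refine ((Nat.Prime.coprime_iff_not_dvd hp).2 ?_).symm
    rintro ⟨c, rfl⟩
    have h1 : p ∣ 3 * p + 1 := by
      rw [← hm]
      exact ⟨3 * c + a, by ring⟩
    have h2 : p ∣ 1 := (Nat.dvd_add_right (Dvd.intro_left 3 rfl)).1 h1
    have := Nat.le_of_dvd (by norm_num) h2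
    omega
  have ha3' : Nat.Coprime a 3 := by
    rcases ha12 with rfl | rfl <;> decide
  set ξ : K := (ζ ^ 3) ^ m with hξdef
  set ω : K := (ζ ^ p) ^ a with hωdef
  have hξ : IsPrimitiveRoot ξ p := hr3.pow_of_coprime m hmp
  have hω : IsPrimitiveRoot ω 3 := hrp.pow_of_coprime a ha3'
  have hprod : ζ = ω * ξ := by
    rw [hξdef, hωdef, ← pow_mul, ← pow_mul, ← pow_add]
    rw [show p * a + 3 * m = 3 * p + 1 by rw [← hm]; ring, pow_add, hζ0, one_mul, pow_one]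
  have hξn : ‖ξ‖ = 1 := r2_norm_one ξ p hp.ne_zero hξ.pow_eq_one
  have hωn : ‖ω‖ = 1 := r2_norm_one ω 3 (by norm_num) hω.pow_eq_one
  have hξ0 : ξ ≠ 0 := by
    intro h
    rw [h, norm_zero] at hξn
    exact zero_ne_one hξn
  have hω0 : ω ≠ 0 := by
    intro h
    rw [h, norm_zero] at hωn
    exact zero_ne_one hωn
  -- the norm of xi - 1
  have hτp : ‖ξ - 1‖ ^ (p - 1) = (p : ℝ)⁻¹ := by
    obtain ⟨r, hr⟩ : ∃ r, p = r + 1 := ⟨p - 1, by omega⟩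
    have hξ' : IsPrimitiveRoot ξ (r + 1) := by rw [← hr]; exact hξ
    have h1 := hξ'.prod_one_sub_pow_eq_order
    have h2 : ‖∏ k ∈ Finset.range r, (1 - ξ ^ (k + 1))‖ = ‖ξ - 1‖ ^ r := by
      rw [norm_prod, Finset.prod_congr rfl (g := fun _ => ‖ξ - 1‖), Finset.prod_const,
        Finset.card_range]
      intro k hk
      rw [Finset.mem_range] at hk
      rw [norm_sub_rev]
      refine r2_pow_sub_one_eq p hp ξ hξ.pow_eq_one (k + 1) ?_
      intro h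
      have := Nat.le_of_dvd (by omega) h
      omega
    have h3 : p - 1 = r := by omega
    rw [h3, ← h2, h1, ← hpn, hr]
    push_cast
    rfl
  have hp0 : (0 : ℝ) < (p : ℝ)⁻¹ := by
    have : (0 : ℝ) < p := by exact_mod_cast hp.pos
    positivity
  have hτ0 : 0 < ‖ξ - 1‖ := by
    rw [norm_pos_iff, sub_ne_zero]
    intro h
    rw [h, sub_self, norm_zero, zero_pow (by omega)] at hτp
    exact hp0.ne hτp
  have hτ1 : ‖ξ - 1‖ < 1 := by
    by_contra h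
    push Not at h
    have h1 : 1 ≤ ‖ξ - 1‖ ^ (p - 1) := one_le_pow₀ h
    rw [hτp] at h1
    have h2 : (p : ℝ)⁻¹ < 1 := by
      apply inv_lt_one_of_one_lt₀
      exact_mod_cast hp.one_lt
    linarith
  have hω3 : ω ^ 3 = 1 := hω.pow_eq_one
  have hω1 : ω ≠ 1 := hω.ne_one (by norm_num)
  have hωi : ω⁻¹ = ω ^ 2 := by
    rw [inv_eq_iff_eq_inv, eq_comm, inv_eq_iff_eq_inv]
    field_simp
    linear_combination hω3
  have hω2 : ω ^ 2 + ω + 1 = 0 := by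
    have : (ω - 1) * (ω ^ 2 + ω + 1) = 0 := by linear_combination hω3
    rcases mul_eq_zero.1 this with h | h
    · exact absurd (sub_eq_zero.1 h) hω1
    · exact h
  set τ : ℝ := ‖ξ - 1‖ with hτdef
  have hprodinv : ζ⁻¹ = ω⁻¹ * ξ⁻¹ := by rw [hprod, mul_inv]
  refine ⟨τ, ξ - ξ⁻¹, ω - ω⁻¹, hτ0, hτ1, ?_, ?_, ?_, ?_⟩
  · have e : ξ - ξ⁻¹ = ξ⁻¹ * (ξ ^ 2 - 1) := by
      field_simp
    rw [e, norm_mul, norm_inv, hξn, inv_one, one_mul]
    exact r2_pow_sub_one_eq p hp ξ hξ.pow_eq_one 2 h2p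
  · have e : (ω - ω⁻¹) ^ 2 = -((3 : ℕ) : K) := by
      rw [hωi]
      push_cast
      linear_combination (ω - 2) * hω3 + hω2
    have h1 : ‖ω - ω⁻¹‖ ^ 2 = 1 := by
      rw [← norm_pow, e, norm_neg]
      exact (norm_nat_facts p hp hpn 3).2.1 h3p
    exact (pow_eq_one_iff_of_nonneg (norm_nonneg _) (by norm_num)).1 h1
  · rintro k ⟨c, rfl⟩
    have e1 : ζ ^ (3 * c) = ξ ^ (3 * c) := by
      rw [hprod, mul_pow, pow_mul ω, hω3, one_pow, one_mul]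
    have e2 : (ζ⁻¹) ^ (3 * c) = (ξ⁻¹) ^ (3 * c) := by
      rw [inv_pow, inv_pow, e1]
    rw [e1, e2, ← rho_mul ξ hξ0 (3 * c)]
    have e3 : (ξ - ξ⁻¹) * rho ξ (3 * c) - ((3 * c : ℕ) : K) * (ξ - ξ⁻¹) =
        ξ⁻¹ * (ξ ^ 2 - 1) * (rho ξ (3 * c) - ((3 * c : ℕ) : K)) := by
      field_simp
    rw [e3, norm_mul, norm_mul, norm_inv, hξn, inv_one, one_mul]
    have h1 : ‖ξ ^ 2 - 1‖ ≤ 1 := (r2_pow_sub_one ξ hξn 2).trans hτ1.le
    have h2 := (rho_taylor ξ hξn (3 * c)).1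
    calc ‖ξ ^ 2 - 1‖ * ‖rho ξ (3 * c) - ((3 * c : ℕ) : K)‖ ≤ 1 * τ ^ 2 := by
          exact mul_le_mul h1 h2 (norm_nonneg _) zero_le_one
      _ = τ ^ 2 := one_mul _
  · intro k
    have hchi : ω ^ k - (ω⁻¹) ^ k = (chi3 k : K) * (ω - ω⁻¹) := by
      have hk := Nat.div_add_mod k 3
      have hωk : ω ^ k = ω ^ (k % 3) := by
        conv_lhs => rw [← hk, pow_add, pow_mul, hω3, one_pow, one_mul]
      have hωk' : (ω⁻¹) ^ k = (ω⁻¹) ^ (k % 3) := by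
        rw [inv_pow, inv_pow, hωk]
      rw [hωk, hωk']
      unfold chi3
      have h3 : k % 3 = 0 ∨ k % 3 = 1 ∨ k % 3 = 2 := by omega
      rcases h3 with h | h | h
      · simp [h]
      · simp [h]
      · rw [h]
        norm_num
        rw [← inv_pow, hωi]
        linear_combination (-ω) * hω3
    have e : ζ ^ k - (ζ⁻¹) ^ k - (chi3 k : K) * (ω - ω⁻¹) =
        ω ^ k * (ξ ^ k - 1) - (ω⁻¹) ^ k * ((ξ⁻¹) ^ k - 1) := by
      rw [← hchi, hprodinv, mul_pow]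
      nth_rewrite 1 [hprod]
      rw [mul_pow]
      ring
    rw [e, sub_eq_add_neg]
    refine (IsUltrametricDist.norm_add_le_max _ _).trans (max_le ?_ ?_)
    · rw [norm_mul, norm_pow, hωn, one_pow, one_mul]
      exact r2_pow_sub_one ξ hξn k
    · rw [norm_neg, norm_mul, norm_pow, norm_inv, hωn, inv_one, one_pow, one_mul]
      have hξin : ‖ξ⁻¹‖ = 1 := by rw [norm_inv, hξn, inv_one]
      refine (r2_pow_sub_one ξ⁻¹ hξin k).trans ?_
      have e4 : ξ⁻¹ - 1 = -(ξ⁻¹ * (ξ - 1)) := by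
        field_simp
        ring
      rw [e4, norm_neg, norm_mul, hξin, one_mul]

end Pool.Agent.Helper805_nf
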