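import Mathlib
import Pool.Agent.Helper805_nf.Defs6
import Pool.Agent.Helper805_nf.Y1

set_option autoImplicit false

namespace Pool.Agent.Helper805_nf

open Finset



theorem r3_int {K : Type*} [NormedField K] [IsUltrametricDist K] (p : ℕ) (hp : p.Prime)
    (hpn : ‖(p : K)‖ = (p : ℝ)⁻¹) (z : ℤ) : ‖(z : K)‖ = ‖((z.natAbs : ℕ) : K)‖ := by
  rcases Int.natAbs_eq z with h | h
  · conv_lhs => rw [h]
    rw [Int.cast_natCast]
  · conv_lhs => rw [h]
    rw [Int.cast_neg, norm_neg, Int.cast_natCast]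

theorem r3_prod {K : Type*} [NormedField K] [IsUltrametricDist K] {ι : Type*} [DecidableEq ι]
    (x y : ι → K) (s : Finset ι) (hx : ∀ i, ‖x i‖ ≤ 1) (hy : ∀ i, ‖y i‖ ≤ 1)
    (h : ∀ i, ‖x i - y i‖ < 1) : ‖∏ i ∈ s, x i‖ ≤ 1 ∧ ‖∏ i ∈ s, x i - ∏ i ∈ s, y i‖ < 1 := by
  induction s using Finset.induction_on with
  | empty => simp
  | insert a s ha ih =>
    rw [Finset.prod_insert ha, Finset.prod_insert ha]
    refine ⟨?_, ?_⟩
    · rw [norm_mul]
      exact mul_le_one₀ (hx a) (norm_nonneg _) ih.1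
    · have e : x a * ∏ i ∈ s, x i - y a * ∏ i ∈ s, y i =
          (x a - y a) * ∏ i ∈ s, x i + y a * (∏ i ∈ s, x i - ∏ i ∈ s, y i) := by ring
      rw [e]
      refine lt_of_le_of_lt (IsUltrametricDist.norm_add_le_max _ _) (max_lt ?_ ?_)
      · rw [norm_mul]
        exact lt_of_le_of_lt (mul_le_of_le_one_right (norm_nonneg _) ih.1) (h a)
      · rw [norm_mul]
        exact lt_of_le_of_lt (mul_le_of_le_one_left (norm_nonneg _) (hy a)) ih.2

theorem r3_sum {K : Type*} [NormedField K] [IsUltrametricDist K] {ι : Type*} [DecidableEq ι]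
    (u : ι → K) (s : Finset ι) (h : ∀ i, ‖u i‖ < 1) : ‖∑ i ∈ s, u i‖ < 1 := by
  induction s using Finset.induction_on with
  | empty => simp
  | insert a s ha ih =>
    rw [Finset.sum_insert ha]
    exact lt_of_le_of_lt (IsUltrametricDist.norm_add_le_max _ _) (max_lt (h a) ih)

theorem perm_lead {K : Type*} [NormedField K] [IsUltrametricDist K] (p : ℕ) (hp : p.Prime)
    (hpn : ‖(p : K)‖ = (p : ℝ)⁻¹) {m : ℕ} (f : Fin m → Fin m → K) (α β : Fin m → K) (hα : ∀ i, α i ≠ 0)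
    (hβ : ∀ j, β j ≠ 0) (M : Fin m → Fin m → ℤ)
    (h : ∀ i j, ‖f i j - α i * β j * (M i j : K)‖ < ‖α i * β j‖)
    (hM : ∑ π : Equiv.Perm (Fin m), ∏ i, ((M i (π i) : ℤ) : ZMod p) ≠ 0) :
    ∑ π : Equiv.Perm (Fin m), ∏ i, f i (π i) ≠ 0 := by
  classical
  have hint : ∀ z : ℤ, ‖(z : K)‖ ≤ 1 := fun z => by
    rw [r3_int p hp hpn]
    exact (norm_nat_facts p hp hpn _).1
  set g : Fin m → Fin m → K := fun i j => f i j / (α i * β j) with hg
  have hab : ∀ i j, α i * β j ≠ 0 := fun i j => mul_ne_zero (hα i) (hβ j)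
  have hgM : ∀ i j, ‖g i j - (M i j : K)‖ < 1 := by
    intro i j
    have e : g i j - (M i j : K) = (f i j - α i * β j * (M i j : K)) / (α i * β j) := by
      show f i j / (α i * β j) - (M i j : K) = _
      rw [sub_div, mul_div_cancel_left₀ _ (hab i j)]
    rw [e, norm_div, div_lt_one (norm_pos_iff.mpr (hab i j))]
    exact h i j
  have hg1 : ∀ i j, ‖g i j‖ ≤ 1 := by
    intro i j
    have e : g i j = (g i j - (M i j : K)) + (M i j : K) := by ring
    rw [e]
    exact (IsUltrametricDist.norm_add_le_max _ _).trans (max_le (hgM i j).le (hint _))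
  have hf : ∀ i j, f i j = α i * β j * g i j := by
    intro i j
    show f i j = α i * β j * (f i j / (α i * β j))
    rw [mul_div_cancel₀ _ (hab i j)]
  have hS : ∑ π : Equiv.Perm (Fin m), ∏ i, f i (π i) =
      (∏ i, α i) * (∏ j, β j) * ∑ π : Equiv.Perm (Fin m), ∏ i, g i (π i) := by
    rw [Finset.mul_sum]
    refine Finset.sum_congr rfl fun π _ => ?_
    have e1 : ∏ i, β (π i) = ∏ j, β j := Equiv.prod_comp π β
    rw [← e1, ← Finset.prod_mul_distrib, ← Finset.prod_mul_distrib]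
    exact Finset.prod_congr rfl fun i _ => hf i (π i)
  rw [hS]
  refine mul_ne_zero (mul_ne_zero (Finset.prod_ne_zero_iff.mpr fun i _ => hα i)
    (Finset.prod_ne_zero_iff.mpr fun i _ => hβ i)) ?_
  intro hG
  set P : ℤ := ∑ π : Equiv.Perm (Fin m), ∏ i, M i (π i) with hP
  have hPz : ((P : ℤ) : ZMod p) ≠ 0 := by
    rw [hP]
    push_cast
    exact hM
  have hPd : ¬ p ∣ P.natAbs := by
    intro hd
    apply hPz
    rw [ZMod.intCast_zmod_eq_zero_iff_dvd]
    exact Int.natCast_dvd.mpr hd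
  have hP1 : ‖(P : K)‖ = 1 := by
    rw [r3_int p hp hpn]
    exact (norm_nat_facts p hp hpn _).2.1 hPd
  have hd : ‖∑ π : Equiv.Perm (Fin m), (∏ i, g i (π i) - ∏ i, (M i (π i) : K))‖ < 1 := by
    refine r3_sum _ _ fun π => ?_
    exact (r3_prod (fun i => g i (π i)) (fun i => (M i (π i) : K)) Finset.univ
      (fun i => hg1 i _) (fun i => hint _) (fun i => hgM i _)).2
  rw [Finset.sum_sub_distrib, hG, zero_sub, norm_neg] at hd
  have e2 : ∑ π : Equiv.Perm (Fin m), ∏ i, (M i (π i) : K) = (P : K) := by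
    rw [hP]
    push_cast
    rfl
  rw [e2, hP1] at hd
  exact lt_irrefl _ hd


end Pool.Agent.Helper805_nf
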