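import Mathlib
import Pool.Agent.Helper805_nf.Defs6

set_option autoImplicit false

namespace Pool.Agent.Helper805_nf

open Finset

theorem r4_card (m a : ℕ) (ha : a ≤ m) (A : Finset (Fin m)) (hA : A.card = a) :
    (Finset.univ.filter (fun π : Equiv.Perm (Fin m) => ∀ i, (i ∈ A ↔ (π i : ℕ) < a))).card =
      a.factorial * (m - a).factorial := by
  classical
  have hB : Fintype.card {x : Fin m // (x : ℕ) < a} = a := by
    rw [Fintype.card_subtype]
    have : (Finset.univ.filter (fun x : Fin m => (x : ℕ) < a)).card = a := by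
      rw [Fin.card_filter_val_lt]
      exact min_eq_right ha
    exact this
  have hA' : Fintype.card {x : Fin m // x ∈ A} = a := by
    rw [Fintype.card_coe]; exact hA
  have hBc : Fintype.card {x : Fin m // ¬ (x : ℕ) < a} = m - a := by
    rw [Fintype.card_subtype_compl, hB, Fintype.card_fin]
  have hAc : Fintype.card {x : Fin m // ¬ x ∈ A} = m - a := by
    rw [Fintype.card_subtype_compl, hA', Fintype.card_fin]
  have e1 : {x : Fin m // x ∈ A} ≃ {x : Fin m // (x : ℕ) < a} :=
    Fintype.equivOfCardEq (hA'.trans hB.symm)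
  have e2 : {x : Fin m // ¬ x ∈ A} ≃ {x : Fin m // ¬ (x : ℕ) < a} :=
    Fintype.equivOfCardEq (hAc.trans hBc.symm)
  rw [← Fintype.card_subtype]
  let E : {π : Equiv.Perm (Fin m) // ∀ i, (i ∈ A ↔ (π i : ℕ) < a)} ≃
      ({x : Fin m // x ∈ A} ≃ {x : Fin m // (x : ℕ) < a}) ×
      ({x : Fin m // ¬ x ∈ A} ≃ {x : Fin m // ¬ (x : ℕ) < a}) :=
    { toFun := fun π => (π.1.subtypeEquiv (fun i => π.2 i),
        π.1.subtypeEquiv (fun i => not_congr (π.2 i)))
      invFun := fun e => ⟨Equiv.subtypeCongr e.1 e.2, by
        intro i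
        by_cases h : i ∈ A
        · have : Equiv.subtypeCongr e.1 e.2 i = (e.1 ⟨i, h⟩ : Fin m) := by
            simp [Equiv.subtypeCongr, Equiv.sumCompl_symm_apply_of_pos, h]
          rw [this]
          exact ⟨fun _ => (e.1 ⟨i, h⟩).2, fun _ => h⟩
        · have : Equiv.subtypeCongr e.1 e.2 i = (e.2 ⟨i, h⟩ : Fin m) := by
            simp [Equiv.subtypeCongr, Equiv.sumCompl_symm_apply_of_neg, h]
          rw [this]
          exact ⟨fun h' => absurd h' h, fun h' => absurd h' (e.2 ⟨i, h⟩).2⟩⟩
      left_inv := by
        intro π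
        apply Subtype.ext
        apply Equiv.ext
        intro i
        by_cases h : i ∈ A
        · simp [Equiv.subtypeCongr, Equiv.sumCompl_symm_apply_of_pos, h]
        · simp [Equiv.subtypeCongr, Equiv.sumCompl_symm_apply_of_neg, h]
      right_inv := by
        intro e
        apply Prod.ext
        · apply Equiv.ext
          intro x
          apply Subtype.ext
          simp [Equiv.subtypeCongr, Equiv.sumCompl_symm_apply_of_pos, x.2]
        · apply Equiv.ext
          intro x
          apply Subtype.ext
          simp [Equiv.subtypeCongr, Equiv.sumCompl_symm_apply_of_neg, x.2] }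
  rw [Fintype.card_congr E, Fintype.card_prod, Fintype.card_equiv e1, Fintype.card_equiv e2, hA', hAc]

theorem two_type_perm {R : Type*} [CommRing R] (m a : ℕ) (ha : a ≤ m) (x y : Fin m → R) :
    ∑ π : Equiv.Perm (Fin m), ∏ i, (if (π i : ℕ) < a then x i else y i) =
      (a.factorial : R) * ((m - a).factorial : R) *
        (∏ i, (Polynomial.C (y i) + Polynomial.C (x i) * Polynomial.X)).coeff a := by
  classical
  have hR : (∏ i, (Polynomial.C (y i) + Polynomial.C (x i) * Polynomial.X)).coeff a =
      ∑ A ∈ Finset.powersetCard a (Finset.univ : Finset (Fin m)),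
        (∏ i ∈ A, x i) * ∏ i ∈ Finset.univ \ A, y i := by
    have h1 : (∏ i, (Polynomial.C (y i) + Polynomial.C (x i) * Polynomial.X)) =
        ∏ i : Fin m, (Polynomial.C (x i) * Polynomial.X + Polynomial.C (y i)) :=
      Finset.prod_congr rfl (fun i _ => add_comm _ _)
    rw [h1, Finset.prod_add, Polynomial.finsetSum_coeff]
    have h2 : ∀ t ∈ (Finset.univ : Finset (Fin m)).powerset,
        ((∏ i ∈ t, (Polynomial.C (x i) * Polynomial.X)) *
          ∏ i ∈ Finset.univ \ t, Polynomial.C (y i)).coeff a =
        if t.card = a then (∏ i ∈ t, x i) * ∏ i ∈ Finset.univ \ t, y i else 0 := by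
      intro t _
      rw [Finset.prod_mul_distrib, Finset.prod_const, ← map_prod, ← map_prod]
      have h3 : Polynomial.C (∏ i ∈ t, x i) * Polynomial.X ^ t.card *
          Polynomial.C (∏ i ∈ Finset.univ \ t, y i) =
          Polynomial.C ((∏ i ∈ t, x i) * ∏ i ∈ Finset.univ \ t, y i) *
            Polynomial.X ^ t.card := by
        rw [map_mul]; ring
      rw [h3, Polynomial.coeff_C_mul_X_pow]
      by_cases h : t.card = a
      · simp [h]
      · have h' : ¬ a = t.card := fun e => h e.symm
        simp [h, h']
    rw [Finset.sum_congr rfl h2, ← Finset.sum_filter]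
    apply Finset.sum_congr _ (fun _ _ => rfl)
    ext t
    simp [Finset.mem_powersetCard]
  rw [hR]
  have hmaps : ∀ π ∈ (Finset.univ : Finset (Equiv.Perm (Fin m))),
      Finset.univ.filter (fun i => (π i : ℕ) < a) ∈
        Finset.powersetCard a (Finset.univ : Finset (Fin m)) := by
    intro π _
    rw [Finset.mem_powersetCard]
    refine ⟨Finset.subset_univ _, ?_⟩
    have h1 : (Finset.univ.filter (fun i => (π i : ℕ) < a)).card =
        (Finset.univ.filter (fun i : Fin m => (i : ℕ) < a)).card := by
      apply Finset.card_bij (fun i _ => π i)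
      · intro i hi
        simpa using hi
      · intro i _ j _ h
        exact π.injective h
      · intro j hj
        refine ⟨π.symm j, ?_, by simp⟩
        simpa using hj
    rw [h1, Fin.card_filter_val_lt]
    exact min_eq_right ha
  rw [← Finset.sum_fiberwise_of_maps_to hmaps, Finset.mul_sum]
  apply Finset.sum_congr rfl
  intro A hA
  rw [Finset.mem_powersetCard] at hA
  have h4 : ∀ π ∈ Finset.univ.filter (fun π : Equiv.Perm (Fin m) =>
      Finset.univ.filter (fun i => (π i : ℕ) < a) = A),
      ∏ i, (if (π i : ℕ) < a then x i else y i) =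
        (∏ i ∈ A, x i) * ∏ i ∈ Finset.univ \ A, y i := by
    intro π hπ
    rw [Finset.mem_filter] at hπ
    have h5 := hπ.2
    rw [Finset.prod_ite, h5]
    congr 1
    apply Finset.prod_congr _ (fun _ _ => rfl)
    rw [← h5]
    ext i
    simp
  rw [Finset.sum_congr rfl h4, Finset.sum_const, nsmul_eq_mul]
  have h6 : (Finset.univ.filter (fun π : Equiv.Perm (Fin m) =>
      Finset.univ.filter (fun i => (π i : ℕ) < a) = A)) =
      Finset.univ.filter (fun π : Equiv.Perm (Fin m) => ∀ i, (i ∈ A ↔ (π i : ℕ) < a)) := by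
    ext π
    simp only [Finset.mem_filter, Finset.mem_univ, true_and]
    constructor
    · intro h i
      rw [← h]
      simp
    · intro h
      ext i
      simp [h i]
  rw [h6, r4_card m a ha A hA.2]
  push_cast
  ring

end Pool.Agent.Helper805_nf
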