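import Mathlib
import Pool.Agent.Helper805_nf.Defs6
import Pool.Agent.Helper805_nf.R2
import Pool.Agent.Helper805_nf.R3
import Pool.Agent.Helper805_nf.R4
import Pool.Agent.Helper805_nf.Y1

set_option autoImplicit false

namespace Pool.Agent.Helper805_nf

open Finset







theorem r11_chi3_mul (a b : ℕ) : chi3 (a * b) = chi3 a * chi3 b := by
  have ha : a % 3 = 0 ∨ a % 3 = 1 ∨ a % 3 = 2 := by omega
  have hb : b % 3 = 0 ∨ b % 3 = 1 ∨ b % 3 = 2 := by omega
  unfold chi3
  rcases ha with ha | ha | ha <;> rcases hb with hb | hb | hb <;> simp [Nat.mul_mod, ha, hb]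

theorem r11_coeff_zero {R : Type*} [CommRing R] (m q : ℕ) (hmq : m < q) (x y : Fin m → R) :
    (∏ i, (Polynomial.C (y i) + Polynomial.C (x i) * Polynomial.X)).coeff q = 0 := by
  apply Polynomial.coeff_eq_zero_of_natDegree_lt
  refine lt_of_le_of_lt (Polynomial.natDegree_prod_le _ _) ?_
  refine lt_of_le_of_lt (Finset.sum_le_card_nsmul _ _ 1 ?_) ?_
  · intro i _
    rw [add_comm]
    exact Polynomial.natDegree_linear_le
  · simpa using hmq

/-- the column map as a natural number -/
def r11_col (p q m c : ℕ) : ℕ :=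
  if c < q then 3 * c + 2 else ((c - q) + (p - (m - q))) + ((c - q) + (p - (m - q))) / 2

theorem r11_col_lt (p q n m c : ℕ) (hq : p = 2 * q + 1) (hn : n = 3 * q + 1) (hm : m < n) (hc : c < m) :
    r11_col p q m c < n := by
  unfold r11_col
  split_ifs with h <;> omega

theorem r11_col_ne (p q n m c : ℕ) (hq : p = 2 * q + 1) (hn : n = 3 * q + 1) (hm : m < n) (hc : c < m) :
    r11_col p q m c ≠ 0 := by
  unfold r11_col
  split_ifs with h <;> omega

theorem r11_col_inj (p q n m c d : ℕ) (hq : p = 2 * q + 1) (hn : n = 3 * q + 1) (hm : m < n) (hc : c < m)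
    (hd : d < m) (h : r11_col p q m c = r11_col p q m d) : c = d := by
  unfold r11_col at h
  split_ifs at h with h1 h2 h2 <;> omega

theorem r11_col_mod (p q m c : ℕ) (hcq : q ≤ c) : (r11_col p q m c + 1) % 3 ≠ 0 := by
  unfold r11_col
  rw [if_neg (by omega)]
  omega

theorem r11_chi_norm {K : Type*} [NormedField K] (a : ℕ) (h : a % 3 ≠ 0) : ‖((chi3 a : ℤ) : K)‖ = 1 := by
  unfold chi3
  rw [if_neg h]
  split_ifs <;> simp

theorem three_lead {K : Type*} [NormedField K] [IsUltrametricDist K] (p q n : ℕ) (hp : p.Prime)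
    (hq : p = 2 * q + 1) (h5 : 5 ≤ p) (hn : n = 3 * q + 1) (hpn : ‖(p : K)‖ = (p : ℝ)⁻¹) (ζ : K)
    (hζ : IsPrimitiveRoot ζ (2 * n + 1)) (m : ℕ) (hm : m < n) (e : Fin m → ℕ)
    (hc : (∏ i, (Polynomial.C ((chi3 (e i) : ℤ) : ZMod p) +
      Polynomial.C ((e i : ℕ) : ZMod p) * Polynomial.X)).coeff q ≠ 0) :
    ∃ κ : Fin m → Fin n, Function.Injective κ ∧ (∀ i, (κ i : ℕ) ≠ 0) ∧
      ∑ π : Equiv.Perm (Fin m), ∏ b, (ζ ^ (((κ (π b) : ℕ) + 1) * e b) -
        (ζ⁻¹) ^ (((κ (π b) : ℕ) + 1) * e b)) ≠ 0 := by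
  have hqm : q ≤ m := by
    by_contra hlt
    exact hc (r11_coeff_zero m q (by omega) _ _)
  obtain ⟨τ, ϖ, θ, hτ0, hτ1, hϖ, hθ, h3, hgen⟩ := three_norms p q n hp hq h5 hn hpn ζ hζ
  let κ : Fin m → Fin n := fun c => ⟨r11_col p q m c, r11_col_lt p q n m c hq hn hm c.2⟩
  have hκ : ∀ c : Fin m, ((κ c : Fin n) : ℕ) = r11_col p q m c := fun c => rfl
  refine ⟨κ, ?_, ?_, ?_⟩
  · intro c d hcd
    have : r11_col p q m c = r11_col p q m d := by
      have := congrArg Fin.val hcd
      simpa [hκ] using this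
    exact Fin.ext (r11_col_inj p q n m c d hq hn hm c.2 d.2 this)
  · intro c
    rw [hκ]
    exact r11_col_ne p q n m c hq hn hm c.2
  · have hp3 : ∀ c : ℕ, c < q → ¬ p ∣ 3 * (c + 1) := by
      intro c hcq hdvd
      rcases (Nat.Prime.dvd_mul hp).1 hdvd with h | h
      · have := Nat.le_of_dvd (by norm_num) h
        omega
      · have := Nat.le_of_dvd (by omega) h
        omega
    have hlow : ∀ c : Fin m, (c : ℕ) < q → ((κ c : Fin n) : ℕ) + 1 = 3 * ((c : ℕ) + 1) := by
      intro c hcq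
      rw [hκ]
      unfold r11_col
      rw [if_pos hcq]
      ring
    have hthree : ∀ c : Fin m, (c : ℕ) < q → ‖((((κ c : Fin n) : ℕ) + 1 : ℕ) : K)‖ = 1 := by
      intro c hcq
      rw [hlow c hcq]
      exact (norm_nat_facts p hp hpn _).2.1 (hp3 _ hcq)
    let β : Fin m → K := fun c => if (c : ℕ) < q then ((((κ c : Fin n) : ℕ) + 1 : ℕ) : K) * ϖ
      else ((chi3 (((κ c : Fin n) : ℕ) + 1) : ℤ) : K) * θ
    let M : Fin m → Fin m → ℤ := fun i c => if (c : ℕ) < q then (e i : ℤ) else chi3 (e i)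
    have hβn1 : ∀ c : Fin m, (c : ℕ) < q → ‖β c‖ = τ := by
      intro c hcq
      simp only [β, if_pos hcq]
      rw [norm_mul, hthree c hcq, hϖ, one_mul]
    have hβn2 : ∀ c : Fin m, ¬ (c : ℕ) < q → ‖β c‖ = 1 := by
      intro c hcq
      simp only [β, if_neg hcq]
      rw [norm_mul, hθ, r11_chi_norm, one_mul]
      rw [hκ]
      exact r11_col_mod p q m c (by omega)
    have hmain := perm_lead (K := K) p hp hpn
      (fun i c => ζ ^ ((((κ c : Fin n) : ℕ) + 1) * e i) - (ζ⁻¹) ^ ((((κ c : Fin n) : ℕ) + 1) * e i))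
      (fun _ => 1) β (fun _ => one_ne_zero) ?_ M ?_ ?_
    · exact hmain
    · intro c h0
      by_cases hcq : (c : ℕ) < q
      · have := hβn1 c hcq
        rw [h0, norm_zero] at this
        exact hτ0.ne this
      · have := hβn2 c hcq
        rw [h0, norm_zero] at this
        exact zero_ne_one this
    · intro i c
      simp only [one_mul]
      by_cases hcq : (c : ℕ) < q
      · rw [hβn1 c hcq]
        have h := h3 ((((κ c : Fin n) : ℕ) + 1) * e i) (by rw [hlow c hcq, mul_assoc]; exact dvd_mul_right _ _)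
        have heq : (((((κ c : Fin n) : ℕ) + 1) * e i : ℕ) : K) * ϖ = β c * (M i c : K) := by
          simp only [β, M, if_pos hcq]
          push_cast
          ring
        rw [heq] at h
        refine lt_of_le_of_lt h ?_
        nlinarith
      · rw [hβn2 c hcq]
        have h := hgen ((((κ c : Fin n) : ℕ) + 1) * e i)
        have heq : ((chi3 ((((κ c : Fin n) : ℕ) + 1) * e i) : ℤ) : K) * θ = β c * (M i c : K) := by
          simp only [β, M, if_neg hcq]
          rw [r11_chi3_mul]
          push_cast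
          ring
        rw [heq] at h
        exact lt_of_le_of_lt h hτ1
    · have htt := two_type_perm (R := ZMod p) m q hqm (fun i => ((e i : ℕ) : ZMod p))
        (fun i => ((chi3 (e i) : ℤ) : ZMod p))
      have hsum : ∑ π : Equiv.Perm (Fin m), ∏ i, ((M i (π i) : ℤ) : ZMod p) =
          ∑ π : Equiv.Perm (Fin m), ∏ i, (if ((π i : Fin m) : ℕ) < q then ((e i : ℕ) : ZMod p)
            else ((chi3 (e i) : ℤ) : ZMod p)) := by
        refine Finset.sum_congr rfl fun π _ => Finset.prod_congr rfl fun i _ => ?_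
        simp only [M]
        split_ifs <;> simp
      rw [hsum, htt]
      haveI : Fact p.Prime := ⟨hp⟩
      refine mul_ne_zero (mul_ne_zero ?_ ?_) hc
      · intro h0
        rw [ZMod.natCast_eq_zero_iff] at h0
        have := (Nat.Prime.dvd_factorial hp).1 h0
        omega
      · intro h0
        rw [ZMod.natCast_eq_zero_iff] at h0
        have := (Nat.Prime.dvd_factorial hp).1 h0
        omega


end Pool.Agent.Helper805_nf
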