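import Pool.Agent.Helper805_nf.Defs3

set_option autoImplicit false

namespace Pool.Agent.Helper805_nf

open Finset


theorem a18_step {F : Type*} [Field F] (M : ℕ) (hM : 1 ≤ M) (a : F) (g : Polynomial F)
    (hg : g.coeff (M - 1) = 0) :
    ((Polynomial.X + Polynomial.C a) * g) /ₘ (Polynomial.X ^ M : Polynomial F) =
      (Polynomial.X + Polynomial.C a) * (g /ₘ (Polynomial.X ^ M : Polynomial F)) := by
  have hmon : (Polynomial.X ^ M : Polynomial F).Monic := Polynomial.monic_X_pow M
  have hdeg : (Polynomial.X ^ M : Polynomial F).degree = (M : WithBot ℕ) := Polynomial.degree_X_pow M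
  set T := g /ₘ (Polynomial.X ^ M : Polynomial F) with hT
  set R := g %ₘ (Polynomial.X ^ M : Polynomial F) with hR
  have hRT : R + Polynomial.X ^ M * T = g := Polynomial.modByMonic_add_div g _
  have hRd : R.degree < (M : WithBot ℕ) := by
    rw [← hdeg]; exact Polynomial.degree_modByMonic_lt g hmon
  have hRc : R.coeff (M - 1) = 0 := by
    have h1 : g.coeff (M - 1) = R.coeff (M - 1) := by
      rw [← hRT, Polynomial.coeff_add, Polynomial.coeff_X_pow_mul']
      have : ¬ (M ≤ M - 1) := by omega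
      simp [this]
    rw [← h1]; exact hg
  have hRd2 : ((Polynomial.X + Polynomial.C a) * R).degree < (M : WithBot ℕ) := by
    rw [Polynomial.degree_lt_iff_coeff_zero]
    intro m hm
    rw [Polynomial.degree_lt_iff_coeff_zero] at hRd
    rw [add_mul, Polynomial.coeff_add, Polynomial.coeff_C_mul]
    obtain ⟨k, rfl⟩ : ∃ k, m = k + 1 := ⟨m - 1, by omega⟩
    rw [Polynomial.coeff_X_mul, hRd (k + 1) hm]
    by_cases hk : M ≤ k
    · rw [hRd k hk]; simp
    · have : k = M - 1 := by omega
      rw [this, hRc]; simp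
  have := (Polynomial.div_modByMonic_unique (f := (Polynomial.X + Polynomial.C a) * g)
    ((Polynomial.X + Polynomial.C a) * T) ((Polynomial.X + Polynomial.C a) * R) hmon
    ⟨by rw [← hRT]; ring, by rw [hdeg]; exact hRd2⟩).1
  exact this

theorem a18_ind {F : Type*} [Field F] (M μ : ℕ) (hM : 1 ≤ M) (a : F) (Ψ : Polynomial F)
    (h : ∀ r, 1 ≤ r → r ≤ μ → ((Polynomial.X + Polynomial.C a) ^ (μ - r) * Ψ).coeff (M - 1) = 0) :
    ∀ i, i ≤ μ → (((Polynomial.X + Polynomial.C a) ^ i * Ψ) /ₘ (Polynomial.X ^ M : Polynomial F)) =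
      (Polynomial.X + Polynomial.C a) ^ i * (Ψ /ₘ (Polynomial.X ^ M : Polynomial F)) := by
  intro i
  induction i with
  | zero => intro _; simp
  | succ i ih =>
    intro hi
    have h1 := h (μ - i) (by omega) (by omega)
    have h2 : μ - (μ - i) = i := by omega
    rw [h2] at h1
    rw [pow_succ', mul_assoc, a18_step M hM a _ h1, ih (by omega), ← mul_assoc]

theorem top_div {F : Type*} [Field F] (M μ : ℕ) (hM : 1 ≤ M) (a : F) (Ψ : Polynomial F)
    (h : ∀ r, 1 ≤ r → r ≤ μ → ((Polynomial.X + Polynomial.C a) ^ (μ - r) * Ψ).coeff (M - 1) = 0) :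
    (Polynomial.X + Polynomial.C a) ^ μ ∣
      (((Polynomial.X + Polynomial.C a) ^ μ * Ψ) /ₘ (Polynomial.X ^ M : Polynomial F)) := by
  rw [a18_ind M μ hM a Ψ h μ le_rfl]
  exact dvd_mul_right _ _


end Pool.Agent.Helper805_nf
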