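import Mathlib
import Pool.Agent.Helper805_nf.Defs6
import Pool.Agent.Helper805_nf.Y18

set_option autoImplicit false

namespace Pool.Agent.Helper805_nf

open Finset

theorem r12_split {F : Type*} [DecidableEq F] (S : Multiset F) (c : F) (r : ℕ) (hr : r ≤ S.count c) :
    S - Multiset.replicate r c = Multiset.replicate (S.count c - r) c + S.filter (fun x => x ≠ c) := by
  ext x
  rw [Multiset.count_sub, Multiset.count_add, Multiset.count_replicate, Multiset.count_replicate,
    Multiset.count_filter]
  by_cases hx : x = c
  · subst hx; simp
  · simp [hx, Ne.symm hx]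

theorem removal_poly {F : Type*} [Field F] [DecidableEq F] (S : Multiset F) (a : ℕ)
    (h : a < Multiset.card S) :
    ∃ c ∈ S, ∃ r, 1 ≤ r ∧ r ≤ S.count c ∧
      (((S - Multiset.replicate r c).map (fun x => Polynomial.X + Polynomial.C x)).prod).coeff a ≠ 0 := by
  classical
  by_contra hcon
  push Not at hcon
  have hmonic : (((S.map (fun x => Polynomial.X + Polynomial.C x)).prod : Polynomial F)).Monic := by
    apply Polynomial.monic_multiset_prod_of_monic
    intro x _
    exact Polynomial.monic_X_add_C x
  have hdeg : ((S.map (fun x => Polynomial.X + Polynomial.C x)).prod : Polynomial F).natDegree = Multiset.card S := by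
    rw [Polynomial.natDegree_multiset_prod_of_monic]
    · simp
    · intro f hf
      obtain ⟨x, _, rfl⟩ := Multiset.mem_map.1 hf
      exact Polynomial.monic_X_add_C x
  set F0 : Polynomial F := (S.map (fun x => Polynomial.X + Polynomial.C x)).prod with hF0
  set T : Polynomial F := F0 /ₘ (Polynomial.X ^ (a + 1) : Polynomial F) with hT
  have hXm : ((Polynomial.X ^ (a + 1) : Polynomial F)).Monic := Polynomial.monic_X_pow _
  have hTdeg : T.natDegree = Multiset.card S - (a + 1) := by
    rw [hT, Polynomial.natDegree_divByMonic _ hXm, hdeg, Polynomial.natDegree_X_pow]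
  have hT0 : T ≠ 0 := by
    intro h0
    rw [hT, Polynomial.divByMonic_eq_zero_iff hXm] at h0
    rw [Polynomial.degree_X_pow, Polynomial.degree_eq_natDegree hmonic.ne_zero, hdeg] at h0
    have : Multiset.card S < a + 1 := by exact_mod_cast h0
    omega
  have hdiv : ∀ c ∈ S, (Polynomial.X + Polynomial.C c) ^ (S.count c) ∣ T := by
    intro c hc
    have hsplit0 := r12_split S c 0 (Nat.zero_le _)
    have hF0' : F0 = (Polynomial.X + Polynomial.C c) ^ (S.count c) *
        ((S.filter (fun x => x ≠ c)).map (fun x => Polynomial.X + Polynomial.C x)).prod := by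
      rw [hF0]
      have h1 : S = Multiset.replicate (S.count c) c + S.filter (fun x => x ≠ c) := by
        have := hsplit0
        simpa using this
      conv_lhs => rw [h1]
      rw [Multiset.map_add, Multiset.prod_add, Multiset.map_replicate, Multiset.prod_replicate]
    rw [hT, hF0']
    apply top_div (a + 1) (S.count c) (by omega)
    intro r hr1 hr2
    have h2 := hcon c hc r hr1 hr2
    rw [r12_split S c r hr2, Multiset.map_add, Multiset.prod_add, Multiset.map_replicate,
      Multiset.prod_replicate] at h2
    simpa using h2
  have hle : S.map (fun c => -c) ≤ T.roots := by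
    rw [Multiset.le_iff_count]
    intro x
    have hcount : (S.map (fun c => -c)).count x = S.count (-x) := by
      have := Multiset.count_map_eq_count' (fun c : F => -c) S neg_injective (-x)
      simpa using this
    rw [hcount]
    rcases Nat.eq_zero_or_pos (S.count (-x)) with h0 | h0
    · rw [h0]; exact Nat.zero_le _
    · have hm : -x ∈ S := Multiset.count_pos.1 h0
      have h3 := hdiv (-x) hm
      rw [Polynomial.count_roots, Polynomial.le_rootMultiplicity_iff hT0]
      have h4 : (Polynomial.X + Polynomial.C (-x) : Polynomial F) = Polynomial.X - Polynomial.C x := by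
        rw [Polynomial.C_neg]; ring
      rw [h4] at h3
      exact h3
  have h5 := Multiset.card_le_card hle
  rw [Multiset.card_map] at h5
  have h6 := Polynomial.card_roots' T
  omega

end Pool.Agent.Helper805_nf
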