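import Mathlib
import Pool.Agent.Helper805_nf.Defs6
import Pool.Agent.Helper805_nf.R12

set_option autoImplicit false

namespace Pool.Agent.Helper805_nf

open Finset



theorem r13a_sq {x : ℕ} (hx : ¬ 3 ∣ x) : chi3 x * chi3 x = 1 := by
  unfold chi3
  rw [if_neg (by omega)]
  split_ifs <;> norm_num

theorem r13a_mod {x : ℕ} (hx : ¬ 3 ∣ x) : (3 : ℤ) ∣ chi3 x * x - 1 := by
  unfold chi3
  rw [if_neg (by omega)]
  split_ifs with h
  · rw [one_mul]; omega
  · rw [neg_one_mul]; omega

theorem r13a_abs {x : ℕ} (hx : ¬ 3 ∣ x) : |chi3 x * x| = x := by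
  unfold chi3
  rw [if_neg (by omega)]
  split_ifs with h
  · rw [one_mul, Nat.abs_cast]
  · rw [neg_one_mul, abs_neg, Nat.abs_cast]

theorem r13a_inj {p n x y : ℕ} [Fact p.Prime] (hn : 2 * n + 1 = 3 * p) (h5 : 5 ≤ p)
    (hx : 1 ≤ x ∧ x ≤ n) (hy : 1 ≤ y ∧ y ≤ n) (hx3 : ¬ 3 ∣ x) (hy3 : ¬ 3 ∣ y) (hxp : ¬ p ∣ x) (hyp : ¬ p ∣ y)
    (h : ((chi3 x : ℤ) : ZMod p) * ((x : ℕ) : ZMod p)⁻¹ = ((chi3 y : ℤ) : ZMod p) * ((y : ℕ) : ZMod p)⁻¹) : x = y := by
  have hx0 : ((x : ℕ) : ZMod p) ≠ 0 := by
    rw [Ne, ZMod.natCast_eq_zero_iff]; exact hxp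
  have hy0 : ((y : ℕ) : ZMod p) ≠ 0 := by
    rw [Ne, ZMod.natCast_eq_zero_iff]; exact hyp
  have h1 : ((chi3 x : ℤ) : ZMod p) * (y : ZMod p) = ((chi3 y : ℤ) : ZMod p) * (x : ZMod p) := by
    field_simp at h
    linear_combination h
  have hsx : ((chi3 x : ℤ) : ZMod p) * ((chi3 x : ℤ) : ZMod p) = 1 := by
    have := congrArg (fun t : ℤ => (t : ZMod p)) (r13a_sq hx3)
    push_cast at this
    exact this
  have hsy : ((chi3 y : ℤ) : ZMod p) * ((chi3 y : ℤ) : ZMod p) = 1 := by
    have := congrArg (fun t : ℤ => (t : ZMod p)) (r13a_sq hy3)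
    push_cast at this
    exact this
  have h2 : ((chi3 y : ℤ) : ZMod p) * (y : ZMod p) = ((chi3 x : ℤ) : ZMod p) * (x : ZMod p) := by
    calc ((chi3 y : ℤ) : ZMod p) * (y : ZMod p)
        = (((chi3 x : ℤ) : ZMod p) * ((chi3 x : ℤ) : ZMod p)) * (((chi3 y : ℤ) : ZMod p) * (y : ZMod p)) := by
          rw [hsx, one_mul]
      _ = ((chi3 x : ℤ) : ZMod p) * ((chi3 y : ℤ) : ZMod p) * (((chi3 x : ℤ) : ZMod p) * (y : ZMod p)) := by ring
      _ = ((chi3 x : ℤ) : ZMod p) * ((chi3 y : ℤ) : ZMod p) * (((chi3 y : ℤ) : ZMod p) * (x : ZMod p)) := by rw [h1]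
      _ = (((chi3 y : ℤ) : ZMod p) * ((chi3 y : ℤ) : ZMod p)) * (((chi3 x : ℤ) : ZMod p) * (x : ZMod p)) := by ring
      _ = _ := by rw [hsy, one_mul]
  have h3 : (p : ℤ) ∣ chi3 x * x - chi3 y * y := by
    rw [← ZMod.intCast_zmod_eq_zero_iff_dvd, Int.cast_sub, Int.cast_mul, Int.cast_mul]
    push_cast
    rw [h2, sub_self]
  have h4 : (3 : ℤ) ∣ chi3 x * x - chi3 y * y := by
    have e : chi3 x * x - chi3 y * y = (chi3 x * x - 1) - (chi3 y * y - 1) := by ring
    rw [e]
    exact dvd_sub (r13a_mod hx3) (r13a_mod hy3)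
  have hp : p.Prime := Fact.out
  have hco : IsCoprime (3 : ℤ) (p : ℤ) := by
    have : Nat.Coprime 3 p := by
      rw [Nat.coprime_primes Nat.prime_three hp]; omega
    exact_mod_cast (Nat.isCoprime_iff_coprime.2 this)
  have h5' : (3 : ℤ) * p ∣ chi3 x * x - chi3 y * y := hco.mul_dvd h4 h3
  have h6 : chi3 x * x - chi3 y * y = 0 := by
    apply Int.eq_zero_of_abs_lt_dvd h5'
    have a1 := r13a_abs hx3
    have a2 := r13a_abs hy3
    have a3 := abs_sub (chi3 x * (x : ℤ)) (chi3 y * y)
    have a4 : (2 : ℤ) * n + 1 = 3 * p := by exact_mod_cast hn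
    have a5 : (x : ℤ) ≤ n := by exact_mod_cast hx.2
    have a6 : (y : ℤ) ≤ n := by exact_mod_cast hy.2
    linarith
  have h7 : |chi3 x * (x : ℤ)| = |chi3 y * (y : ℤ)| := by
    rw [sub_eq_zero.1 h6]
  rw [r13a_abs hx3, r13a_abs hy3] at h7
  exact_mod_cast h7

theorem removal_labels (p q n : ℕ) (hp : p.Prime) (hq : p = 2 * q + 1) (h5 : 5 ≤ p) (hn : n = 3 * q + 1)
    (L : Multiset ℕ) (hcard : Multiset.card L = n) (hL : ∀ x ∈ L, 1 ≤ x ∧ x ≤ n)
    (hW : Multiset.card (L.filter (fun x => 3 ∣ x)) ≤ q) (hM : Multiset.card (L.filter (fun x => p ∣ x)) < p) :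
    ∃ d ∈ L, Nat.Coprime d (2 * n + 1) ∧ ∃ r, 1 ≤ r ∧ r ≤ L.count d ∧
      (((L - Multiset.replicate r d).map (fun x => Polynomial.C ((chi3 x : ℤ) : ZMod p) +
        Polynomial.C ((x : ℕ) : ZMod p) * Polynomial.X)).prod).coeff q ≠ 0 := by
  classical
  have : Fact p.Prime := ⟨hp⟩
  have hn3 : 2 * n + 1 = 3 * p := by omega
  have h3p : ¬ 3 ∣ p := by
    intro h
    have := (Nat.prime_dvd_prime_iff_eq Nat.prime_three hp).1 h
    omega
  -- the only multiple of `p`
  have hmul : ∀ x ∈ L, p ∣ x → x = p := by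
    intro x hx hpx
    obtain ⟨k, hk⟩ := hpx
    have h1 := hL x hx
    have hk1 : 1 ≤ k := by
      rcases Nat.eq_zero_or_pos k with h0 | h0
      · rw [h0, mul_zero] at hk; omega
      · exact h0
    have hk2 : k < 2 := by
      by_contra hcon
      have : p * 2 ≤ p * k := Nat.mul_le_mul_left p (by omega)
      omega
    have : k = 1 := by omega
    rw [hk, this, mul_one]
  set A := L.filter (fun x => 3 ∣ x) with hA
  set B := L.filter (fun x => p ∣ x) with hB
  set U := (L.filter (fun x => ¬ 3 ∣ x)).filter (fun x => ¬ p ∣ x) with hU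
  have hB' : (L.filter (fun x => ¬ 3 ∣ x)).filter (fun x => p ∣ x) = B := by
    rw [hB, Multiset.filter_filter]
    apply Multiset.filter_congr
    intro x hx
    constructor
    · exact fun h => h.1
    · intro h
      refine ⟨h, ?_⟩
      rw [hmul x hx h]
      exact h3p
  have hdec : L = A + (B + U) := by
    conv_lhs => rw [← Multiset.filter_add_not (fun x => 3 ∣ x) L]
    rw [← hA]
    congr 1
    conv_lhs => rw [← Multiset.filter_add_not (fun x => p ∣ x) (L.filter (fun x => ¬ 3 ∣ x))]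
    rw [hB']
  have hUm : ∀ x ∈ U, x ∈ L ∧ ¬ 3 ∣ x ∧ ¬ p ∣ x := by
    intro x hx
    rw [hU, Multiset.mem_filter, Multiset.mem_filter] at hx
    exact ⟨hx.1.1, hx.1.2, hx.2⟩
  have hcU : Multiset.card A + (Multiset.card B + Multiset.card U) = n := by
    rw [← hcard]
    conv_rhs => rw [hdec]
    rw [Multiset.card_add, Multiset.card_add]
  set c : ℕ → ZMod p := fun x => ((chi3 x : ℤ) : ZMod p) * ((x : ℕ) : ZMod p)⁻¹ with hc
  set a := q - Multiset.card A with ha
  obtain ⟨c0, hc0, r, hr1, hr2, hr3⟩ := removal_poly (U.map c) a (by rw [Multiset.card_map]; omega)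
  rw [Multiset.mem_map] at hc0
  obtain ⟨d, hdU, rfl⟩ := hc0
  obtain ⟨hdL, hd3, hdp⟩ := hUm d hdU
  have hrU : r ≤ U.count d := by
    rw [Multiset.count_map] at hr2
    refine hr2.trans (le_of_eq ?_)
    rw [← Multiset.countP_eq_card_filter, Multiset.count]
    apply Multiset.countP_congr rfl
    intro x hx
    obtain ⟨hxL, hx3, hxp⟩ := hUm x hx
    rw [eq_iff_iff]
    constructor
    · intro h
      exact r13a_inj hn3 h5 (hL d hdL) (hL x hxL) hd3 hx3 hdp hxp h
    · intro h
      rw [h]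
  have hrep : Multiset.replicate r d ≤ U := Multiset.le_count_iff_replicate_le.1 hrU
  set U' := U - Multiset.replicate r d with hU'
  have hUU : U = U' + Multiset.replicate r d := (tsub_add_cancel_of_le hrep).symm
  have hLr : L - Multiset.replicate r d = A + (B + U') := by
    have e : L = (A + (B + U')) + Multiset.replicate r d := by
      rw [hdec, add_assoc, add_assoc, ← hUU]
    conv_lhs => rw [e]
    exact add_tsub_cancel_right _ _
  have hSr : U.map c - Multiset.replicate r (c d) = U'.map c := by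
    conv_lhs => rw [hUU]
    rw [Multiset.map_add, Multiset.map_replicate]
    exact add_tsub_cancel_right _ _
  refine ⟨d, hdL, ?_, r, hr1, ?_, ?_⟩
  · rw [hn3]
    apply Nat.Coprime.mul_right
    · exact ((Nat.Prime.coprime_iff_not_dvd Nat.prime_three).2 hd3).symm
    · exact ((Nat.Prime.coprime_iff_not_dvd hp).2 hdp).symm
  · refine hrU.trans ?_
    exact Multiset.count_le_of_le d ((Multiset.filter_le _ _).trans (Multiset.filter_le _ _))
  · rw [hSr, Multiset.map_map] at hr3
    rw [hLr, Multiset.map_add, Multiset.map_add, Multiset.prod_add, Multiset.prod_add]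
    have pA : ∀ A' : Multiset ℕ, (∀ x ∈ A', x ∈ L ∧ 3 ∣ x) → ∃ t : ZMod p, t ≠ 0 ∧
        (A'.map (fun x => Polynomial.C ((chi3 x : ℤ) : ZMod p) +
        Polynomial.C ((x : ℕ) : ZMod p) * Polynomial.X)).prod = Polynomial.C t * Polynomial.X ^ (Multiset.card A') := by
      intro A'
      induction A' using Multiset.induction_on with
      | empty => intro _; exact ⟨1, one_ne_zero, by simp⟩
      | cons x A' ih =>
        intro h
        obtain ⟨t, ht, ht2⟩ := ih (fun y hy => h y (Multiset.mem_cons_of_mem hy))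
        obtain ⟨hxL, hx3⟩ := h x (Multiset.mem_cons_self x A')
        refine ⟨(x : ZMod p) * t, mul_ne_zero ?_ ht, ?_⟩
        · rw [Ne, ZMod.natCast_eq_zero_iff]
          intro hpx
          rw [hmul x hxL hpx] at hx3
          exact h3p hx3
        · rw [Multiset.map_cons, Multiset.prod_cons, ht2, Multiset.card_cons]
          have h0 : chi3 x = 0 := by
            unfold chi3
            rw [if_pos (by omega)]
          rw [h0, Int.cast_zero, Polynomial.C_0, zero_add, Polynomial.C_mul, pow_succ]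
          ring
    have pB : ∀ B' : Multiset ℕ, (∀ x ∈ B', x ∈ L ∧ p ∣ x) → ∃ t : ZMod p, t ≠ 0 ∧
        (B'.map (fun x => Polynomial.C ((chi3 x : ℤ) : ZMod p) +
        Polynomial.C ((x : ℕ) : ZMod p) * Polynomial.X)).prod = Polynomial.C t := by
      intro B'
      induction B' using Multiset.induction_on with
      | empty => intro _; exact ⟨1, one_ne_zero, by simp⟩
      | cons x B' ih =>
        intro h
        obtain ⟨t, ht, ht2⟩ := ih (fun y hy => h y (Multiset.mem_cons_of_mem hy))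
        obtain ⟨hxL, hxp⟩ := h x (Multiset.mem_cons_self x B')
        have hx3 : ¬ 3 ∣ x := by
          rw [hmul x hxL hxp]; exact h3p
        refine ⟨((chi3 x : ℤ) : ZMod p) * t, mul_ne_zero ?_ ht, ?_⟩
        · intro h0
          have h1 := congrArg (fun t : ℤ => (t : ZMod p)) (r13a_sq hx3)
          push_cast at h1
          rw [h0, mul_zero] at h1
          exact zero_ne_one h1
        · rw [Multiset.map_cons, Multiset.prod_cons, ht2]
          have h0 : ((x : ℕ) : ZMod p) = 0 := (ZMod.natCast_eq_zero_iff x p).2 hxp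
          rw [h0, Polynomial.C_0, zero_mul, add_zero, Polynomial.C_mul]
    have pU : ∀ V : Multiset ℕ, (∀ x ∈ V, ¬ p ∣ x) → ∃ t : ZMod p, t ≠ 0 ∧
        (V.map (fun x => Polynomial.C ((chi3 x : ℤ) : ZMod p) +
        Polynomial.C ((x : ℕ) : ZMod p) * Polynomial.X)).prod = Polynomial.C t *
          (V.map ((fun x => Polynomial.X + Polynomial.C x) ∘ c)).prod := by
      intro V
      induction V using Multiset.induction_on with
      | empty => intro _; exact ⟨1, one_ne_zero, by simp⟩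
      | cons x V ih =>
        intro h
        obtain ⟨t, ht, ht2⟩ := ih (fun y hy => h y (Multiset.mem_cons_of_mem hy))
        have hxp := h x (Multiset.mem_cons_self x V)
        have hx0 : ((x : ℕ) : ZMod p) ≠ 0 := by
          rw [Ne, ZMod.natCast_eq_zero_iff]; exact hxp
        refine ⟨(x : ZMod p) * t, mul_ne_zero hx0 ht, ?_⟩
        rw [Multiset.map_cons, Multiset.prod_cons, ht2, Multiset.map_cons, Multiset.prod_cons]
        have e : ((chi3 x : ℤ) : ZMod p) = (x : ZMod p) * c x := by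
          rw [hc]
          field_simp
        have e' : (Polynomial.C ((chi3 x : ℤ) : ZMod p) : Polynomial (ZMod p)) =
            Polynomial.C (x : ZMod p) * Polynomial.C (c x) := by
          rw [← Polynomial.C_mul, ← e]
        have e3 : Polynomial.C ((x : ZMod p) * t) = Polynomial.C (x : ZMod p) * Polynomial.C t := Polynomial.C_mul
        rw [e', Function.comp_apply, e3]
        generalize (V.map ((fun x => Polynomial.X + Polynomial.C x) ∘ c)).prod = P
        generalize c x = cx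
        ring
    obtain ⟨t1, ht1, e1⟩ := pA A (fun x hx => by
      rw [hA, Multiset.mem_filter] at hx; exact hx)
    obtain ⟨t2, ht2, e2⟩ := pB B (fun x hx => by
      rw [hB, Multiset.mem_filter] at hx; exact hx)
    obtain ⟨t3, ht3, e3⟩ := pU U' (fun x hx =>
      (hUm x (Multiset.mem_of_le (Multiset.sub_le_self _ _) hx)).2.2)
    rw [e1, e2, e3]
    have e4 : Polynomial.C t1 * Polynomial.X ^ (Multiset.card A) * (Polynomial.C t2 * (Polynomial.C t3 *
        (U'.map ((fun x => Polynomial.X + Polynomial.C x) ∘ c)).prod)) =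
        Polynomial.C (t1 * t2 * t3) * ((U'.map ((fun x => Polynomial.X + Polynomial.C x) ∘ c)).prod *
          Polynomial.X ^ (Multiset.card A)) := by
      rw [Polynomial.C_mul, Polynomial.C_mul]
      ring
    have e5 : q = a + Multiset.card A := by omega
    rw [e4, Polynomial.coeff_C_mul]
    conv_lhs => rw [e5]
    rw [Polynomial.coeff_mul_X_pow]
    exact mul_ne_zero (mul_ne_zero (mul_ne_zero ht1 ht2) ht3) hr3

end Pool.Agent.Helper805_nf
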