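import Mathlib
import Pool.Agent.Helper805_nf.Defs6

set_option autoImplicit false

namespace Pool.Agent.Helper805_nf

open Finset


theorem r13b_deg (p : ℕ) [Fact p.Prime] (a b : ZMod p) (hb : b ≠ 0) :
    (Polynomial.C a + Polynomial.C b * Polynomial.X).natDegree = 1 := by
  rw [add_comm]
  exact Polynomial.natDegree_linear hb

theorem r13b_prod (p : ℕ) [Fact p.Prime] (R : Multiset ℕ) (hR : ∀ x ∈ R, ¬ p ∣ x) :
    ((R.map (fun x => Polynomial.C ((chi3 x : ℤ) : ZMod p) +
        Polynomial.C ((x : ℕ) : ZMod p) * Polynomial.X)).prod).coeff (Multiset.card R) ≠ 0 := by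
  have hx : ∀ x ∈ R, (Polynomial.C ((chi3 x : ℤ) : ZMod p) +
        Polynomial.C ((x : ℕ) : ZMod p) * Polynomial.X).natDegree = 1 := by
    intro x hxR
    apply r13b_deg
    rw [Ne, ZMod.natCast_eq_zero_iff]
    exact hR x hxR
  have h0 : (0 : Polynomial (ZMod p)) ∉ R.map (fun x => Polynomial.C ((chi3 x : ℤ) : ZMod p) +
        Polynomial.C ((x : ℕ) : ZMod p) * Polynomial.X) := by
    intro h
    rw [Multiset.mem_map] at h
    obtain ⟨x, hxR, he⟩ := h
    have := hx x hxR
    rw [he] at this
    simp at this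
  have hd : ((R.map (fun x => Polynomial.C ((chi3 x : ℤ) : ZMod p) +
        Polynomial.C ((x : ℕ) : ZMod p) * Polynomial.X)).prod).natDegree = Multiset.card R := by
    rw [Polynomial.natDegree_multiset_prod _ h0, Multiset.map_map]
    have : R.map (Polynomial.natDegree ∘ fun x => Polynomial.C ((chi3 x : ℤ) : ZMod p) +
        Polynomial.C ((x : ℕ) : ZMod p) * Polynomial.X) = R.map (fun _ => 1) := by
      apply Multiset.map_congr rfl
      intro x hxR
      exact hx x hxR
    rw [this]
    simp
  have hne : (R.map (fun x => Polynomial.C ((chi3 x : ℤ) : ZMod p) +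
        Polynomial.C ((x : ℕ) : ZMod p) * Polynomial.X)).prod ≠ 0 :=
    Multiset.prod_ne_zero h0
  rw [← hd]
  exact Polynomial.leadingCoeff_ne_zero.2 hne

theorem removal_p (p q n : ℕ) (hp : p.Prime) (hq : p = 2 * q + 1) (h5 : 5 ≤ p) (hn : n = 3 * q + 1)
    (L : Multiset ℕ) (hcard : Multiset.card L = n) (hL : ∀ x ∈ L, 1 ≤ x ∧ x ≤ n)
    (hM : Multiset.card (L.filter (fun x => p ∣ x)) = p) :
    p ∈ L ∧ (((L - {p}).map (fun x => Polynomial.C ((chi3 x : ℤ) : ZMod p) +
        Polynomial.C ((x : ℕ) : ZMod p) * Polynomial.X)).prod).coeff q ≠ 0 := by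
  have : Fact p.Prime := ⟨hp⟩
  have h1 : L.filter (fun x => p ∣ x) = Multiset.replicate p p := by
    rw [Multiset.eq_replicate]
    refine ⟨hM, fun x hx => ?_⟩
    rw [Multiset.mem_filter] at hx
    obtain ⟨hxL, k, hk⟩ := hx
    obtain ⟨hx1, hx2⟩ := hL x hxL
    have hk1 : k = 1 := by
      rcases Nat.lt_or_ge k 2 with h | h
      · interval_cases k
        · omega
        · rfl
      · exfalso
        have : p * 2 ≤ p * k := Nat.mul_le_mul_left p h
        omega
    rw [hk, hk1, mul_one]
  have hsplit : L = Multiset.replicate p p + L.filter (fun x => ¬ p ∣ x) := by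
    conv_lhs => rw [← Multiset.filter_add_not (fun x => p ∣ x) L]
    rw [h1]
  have hcR : Multiset.card (L.filter (fun x => ¬ p ∣ x)) = q := by
    have := congrArg Multiset.card hsplit
    rw [Multiset.card_add, Multiset.card_replicate, hcard] at this
    omega
  have hp1 : p = (p - 1) + 1 := by omega
  have hcons : L = {p} + (Multiset.replicate (p - 1) p + L.filter (fun x => ¬ p ∣ x)) := by
    rw [← add_assoc]
    have : ({p} : Multiset ℕ) + Multiset.replicate (p - 1) p = Multiset.replicate p p := by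
      rw [Multiset.singleton_add, ← Multiset.replicate_succ, ← hp1]
    rw [this]
    exact hsplit
  refine ⟨?_, ?_⟩
  · have : p ∈ L.filter (fun x => p ∣ x) := by
      rw [h1, Multiset.mem_replicate]
      exact ⟨hp.ne_zero, rfl⟩
    exact (Multiset.mem_filter.1 this).1
  · have hsub : L - {p} = Multiset.replicate (p - 1) p + L.filter (fun x => ¬ p ∣ x) := by
      conv_lhs => rw [hcons]
      rw [add_tsub_cancel_left]
    rw [hsub, Multiset.map_add, Multiset.prod_add, Multiset.map_replicate, Multiset.prod_replicate]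
    have hp0 : ((p : ℕ) : ZMod p) = 0 := ZMod.natCast_self p
    rw [hp0, Polynomial.C_0, zero_mul, add_zero, ← Polynomial.C_pow, Polynomial.coeff_C_mul]
    refine mul_ne_zero (pow_ne_zero _ ?_) ?_
    · have h3 : ¬ p % 3 = 0 := by
        intro h
        have h3 : 3 ∣ p := Nat.dvd_of_mod_eq_zero h
        rw [Nat.prime_dvd_prime_iff_eq Nat.prime_three hp] at h3
        omega
      unfold chi3
      rw [if_neg h3]
      split_ifs
      · simp
      · simp
    · have := r13b_prod p (L.filter (fun x => ¬ p ∣ x)) (fun x hx => (Multiset.mem_filter.1 hx).2)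
      rw [hcR] at this
      exact this

end Pool.Agent.Helper805_nf
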