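import Pool.Agent.Helper805_nf.X7a
import Pool.Agent.Helper805_nf.F

set_option autoImplicit false

namespace Pool.Agent.Helper805_nf

open Finset







theorem exf_pow {K : Type*} [Field K] {v : ℕ} {z : K} (hz : z ^ v = 1) {a b : ℕ}
    (hab : ((a : ℕ) : ZMod v) = ((b : ℕ) : ZMod v)) : z ^ a = z ^ b := by
  have h1 : a % v = b % v := (ZMod.natCast_eq_natCast_iff a b v).mp hab
  rw [pow_eq_pow_mod a hz, pow_eq_pow_mod b hz, h1]

theorem exf_per {K : Type*} [Field K] {n m r : ℕ} (κ : Fin m → Fin n)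
    (hκ : Function.Injective κ) (J : Fin r → Fin n) (hJ : ∀ j, (∃ i, J i = j) ↔ ¬ ∃ b, κ b = j)
    (f : Fin m → Fin n → K) :
    (∑ g : Fin m ↪ Fin n, if (∀ b i, g b ≠ J i) then ∏ b, f b (g b) else 0) =
      ∑ π : Equiv.Perm (Fin m), ∏ b, f b (κ (π b)) := by
  classical
  rw [← Finset.sum_filter]
  symm
  refine Finset.sum_bij (fun (π : Equiv.Perm (Fin m)) _ => π.toEmbedding.trans ⟨κ, hκ⟩)
    ?_ ?_ ?_ ?_
  · intro π _
    rw [Finset.mem_filter]
    refine ⟨Finset.mem_univ _, fun b i hbi => ?_⟩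
    have h1 := (hJ (J i)).mp ⟨i, rfl⟩
    exact h1 ⟨π b, hbi⟩
  · intro π _ π' _ h
    ext b
    have h1 := DFunLike.congr_fun h b
    have h2 : κ (π b) = κ (π' b) := h1
    rw [hκ h2]
  · intro g hg
    have hg' := (Finset.mem_filter.mp hg).2
    have h1 : ∀ b, ∃ a, κ a = g b := by
      intro b
      by_contra hcon
      obtain ⟨i, hi⟩ := (hJ (g b)).mpr hcon
      exact hg' b i hi.symm
    choose s hs using h1
    have hsinj : Function.Injective s := by
      intro a b hab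
      apply g.injective
      rw [← hs a, ← hs b, hab]
    refine ⟨Equiv.ofBijective s (Finite.injective_iff_bijective.mp hsinj), Finset.mem_univ _, ?_⟩
    ext b
    have : κ (s b) = g b := hs b
    exact congrArg Fin.val this
  · intro π _
    rfl

theorem exchange_factor {K : Type*} [Field K] (n r m : ℕ) (hn : m + r = n) (ζ : K)
    (hζ : IsPrimitiveRoot ζ (2 * n + 1)) (d : ℕ) (hd : Nat.Coprime d (2 * n + 1)) (e : Fin m → ℕ)
    (κ : Fin m → Fin n) (hκ : Function.Injective κ)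
    (hper : ∑ π : Equiv.Perm (Fin m), ∏ b, (ζ ^ (((κ (π b) : ℕ) + 1) * e b) -
      (ζ⁻¹) ^ (((κ (π b) : ℕ) + 1) * e b)) ≠ 0)
    (L : Multiset ℕ) (hL : ∀ x ∈ L, 1 ≤ x ∧ x ≤ n)
    (hlab : Multiset.map e (Finset.univ : Finset (Fin m)).val + Multiset.replicate r d = L) :
    ∃ g : Fin n ⊕ Fin n → Fin (2 * n + 1), Function.Injective g ∧
      Multiset.map
        (fun i : Fin n =>
          min (Int.natAbs (((g (Sum.inl i) : ℕ) : ℤ) - ((g (Sum.inr i) : ℕ) : ℤ)))
            (2 * n + 1 - Int.natAbs (((g (Sum.inl i) : ℕ) : ℤ) - ((g (Sum.inr i) : ℕ) : ℤ))))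
        (Finset.univ : Finset (Fin n)).val = L := by
  classical
  have hζ' : IsPrimitiveRoot (ζ ^ d) (2 * n + 1) := hζ.pow_of_coprime d hd
  obtain ⟨u, hu⟩ : ∃ u : (ZMod (2 * n + 1))ˣ, (u : ZMod (2 * n + 1)) = (d : ZMod (2 * n + 1)) :=
    ⟨ZMod.unitOfCoprime d hd, ZMod.coe_unitOfCoprime d hd⟩
  obtain ⟨e', he'⟩ : ∃ e' : Fin m → ZMod (2 * n + 1), ∀ b, e' b = ((u⁻¹ : (ZMod (2 * n + 1))ˣ) :
    ZMod (2 * n + 1)) * (e b : ZMod (2 * n + 1)) := ⟨_, fun _ => rfl⟩
  have hde : ∀ b, (d : ZMod (2 * n + 1)) * e' b = (e b : ZMod (2 * n + 1)) := by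
    intro b
    rw [he', ← hu, ← mul_assoc, Units.mul_inv, one_mul]
  -- the exponents
  have hexp : ∀ (z : K), z ^ (2 * n + 1) = 1 → ∀ (j : ℕ) (b : Fin m),
      (z ^ d) ^ ((j + 1) * (e' b).val) = z ^ ((j + 1) * e b) := by
    intro z hz j b
    rw [← pow_mul]
    apply exf_pow hz
    push_cast
    rw [ZMod.natCast_val, ZMod.cast_id', id, ← hde b]
    ring
  have hz1 : ζ ^ (2 * n + 1) = 1 := hζ.pow_eq_one
  have hz2 : (ζ⁻¹) ^ (2 * n + 1) = 1 := by rw [inv_pow, hz1, inv_one]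
  -- the complement of the range
  have hcard : (Finset.univ \ Finset.univ.image κ : Finset (Fin n)).card = r := by
    rw [Finset.card_sdiff_of_subset (Finset.subset_univ _), Finset.card_image_of_injective _ hκ,
      Finset.card_univ, Finset.card_univ, Fintype.card_fin, Fintype.card_fin]
    omega
  obtain ⟨J, hJdef⟩ : ∃ J : Fin r ↪o Fin n, J = Finset.orderEmbOfFin _ hcard := ⟨_, rfl⟩
  have hJ : ∀ j, (∃ i, J i = j) ↔ ¬ ∃ b, κ b = j := by
    intro j
    have h1 : (∃ i, J i = j) ↔ j ∈ Set.range J := Iff.rfl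
    rw [h1, hJdef, Finset.range_orderEmbOfFin]
    simp
  have hP : subPer (ζ ^ d) (fun b => (e' b).val) J ≠ 0 := by
    have h1 : subPer (ζ ^ d) (fun b => (e' b).val) J =
        ∑ π : Equiv.Perm (Fin m), ∏ b, (ζ ^ (((κ (π b) : ℕ) + 1) * e b) -
          (ζ⁻¹) ^ (((κ (π b) : ℕ) + 1) * e b)) := by
      rw [← exf_per κ hκ J hJ (fun b j => ζ ^ (((j : ℕ) + 1) * e b) -
        (ζ⁻¹) ^ (((j : ℕ) + 1) * e b))]
      unfold subPer
      refine Finset.sum_congr rfl fun g _ => ?_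
      have h2 : ∀ b, (ζ ^ d) ^ (((g b : ℕ) + 1) * (e' b).val) -
          ((ζ ^ d)⁻¹) ^ (((g b : ℕ) + 1) * (e' b).val) =
          ζ ^ (((g b : ℕ) + 1) * e b) - (ζ⁻¹) ^ (((g b : ℕ) + 1) * e b) := by
        intro b
        rw [hexp ζ hz1, ← inv_pow, hexp ζ⁻¹ hz2]
      simp only [h2]
    rw [h1]
    exact hper
  obtain ⟨x, y, hxy⟩ := exchange_one n r m hn (ζ ^ d) hζ' e' J hP
  refine placement_to_factor n L hL (ι := Fin m ⊕ Fin r) (by simp [hn]) (Sum.elim e fun _ => d) ?_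
    (Sum.elim (fun b => (d : ZMod (2 * n + 1)) * x b)
      (fun i => (d : ZMod (2 * n + 1)) * (((y i : ℕ) + (i : ℕ) + 1 : ℕ) : ZMod (2 * n + 1)))) ?_
  · rw [← hlab, ← Finset.univ_disjSum_univ]
    change Multiset.map _ (Multiset.disjSum _ _) = _
    rw [Multiset.disjSum, Multiset.map_add, Multiset.map_map, Multiset.map_map]
    congr 1
    have h1 : (Sum.elim e fun _ : Fin r => d) ∘ Sum.inr = fun _ : Fin r => d := by
      funext i; rfl
    rw [h1, Multiset.map_const']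
    simp
  · obtain ⟨enc, henc⟩ : ∃ enc : (Fin m ⊕ Fin r) × Bool → (Fin m × Bool) ⊕ Option (Fin r × Bool),
        ∀ q, enc q = Sum.elim (fun b => Sum.inl (b, q.2)) (fun i => Sum.inr (some (i, q.2))) q.1 :=
      ⟨_, fun _ => rfl⟩
    have hencinj : Function.Injective enc := by
      rintro ⟨q, s⟩ ⟨q', s'⟩ h
      rw [henc, henc] at h
      rcases q with b | i <;> rcases q' with b' | i' <;> simp at h ⊢ <;> exact h
    have hmul : Function.Injective (fun z : ZMod (2 * n + 1) => (d : ZMod (2 * n + 1)) * z) := by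
      intro z z' h
      simp only at h
      rw [← hu] at h
      exact u.isUnit.mul_left_cancel h
    have hall := (hmul.comp hxy).comp hencinj
    have heq : (fun r_1 : (Fin m ⊕ Fin r) × Bool =>
        (Sum.elim (fun b => (d : ZMod (2 * n + 1)) * x b)
          (fun i => (d : ZMod (2 * n + 1)) * (((y i : ℕ) + (i : ℕ) + 1 : ℕ) : ZMod (2 * n + 1)))
            r_1.1) +
          if r_1.2 then (((Sum.elim e fun _ => d) r_1.1 : ℕ) : ZMod (2 * n + 1)) else 0) =
        ((fun z : ZMod (2 * n + 1) => (d : ZMod (2 * n + 1)) * z) ∘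
          (Sum.elim (fun q : Fin m × Bool => x q.1 + if q.2 then e' q.1 else 0)
            (fun a => ((colPos y a : ℕ) : ZMod (2 * n + 1))))) ∘ enc := by
      funext ⟨q, s⟩
      simp only [Function.comp, henc]
      rcases q with b | i <;> rcases s with _ | _
      · simp
      · simp only [Sum.elim_inl, if_true]
        rw [mul_add, hde]
      · simp [colPos]
      · simp only [Sum.elim_inr, if_true, colPos]
        push_cast
        ring
    rw [heq]
    exact hall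


end Pool.Agent.Helper805_nf
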