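import Mathlib
import Pool.Agent.Helper805_nf.Defs6
import Pool.Agent.Helper805_nf.R1
import Pool.Agent.Helper805_nf.R10
import Pool.Agent.Helper805_nf.R11
import Pool.Agent.Helper805_nf.R13a
import Pool.Agent.Helper805_nf.R13b
import Pool.Agent.Helper805_nf.X7

set_option autoImplicit false

namespace Pool.Agent.Helper805_nf

open Finset










/-- enumeration of a multiset -/
theorem r14_enum (S : Multiset ℕ) (m : ℕ) (h : Multiset.card S = m) :
    ∃ e : Fin m → ℕ, Multiset.map e (Finset.univ : Finset (Fin m)).val = S := by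
  obtain rfl : S.toList.length = m := by rw [Multiset.length_toList, h]
  refine ⟨S.toList.get, ?_⟩
  rw [Fin.univ_val_map, List.ofFn_get]
  exact Multiset.coe_toList S

/-- the product over the enumeration -/
theorem r14_prod {p : ℕ} (S : Multiset ℕ) (m : ℕ) (e : Fin m → ℕ)
    (he : Multiset.map e (Finset.univ : Finset (Fin m)).val = S) :
    (∏ i, (Polynomial.C ((chi3 (e i) : ℤ) : ZMod p) +
      Polynomial.C ((e i : ℕ) : ZMod p) * Polynomial.X)) =
    ((S.map (fun x => Polynomial.C ((chi3 x : ℤ) : ZMod p) +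
        Polynomial.C ((x : ℕ) : ZMod p) * Polynomial.X)).prod) := by
  rw [← he, Multiset.map_map]
  rfl

theorem three_light (p q n : ℕ) (hp : p.Prime) (hq : p = 2 * q + 1) (h5 : 5 ≤ p) (hn : n = 3 * q + 1)
    (L : Multiset ℕ) (hcard : Multiset.card L = n) (hL : ∀ x ∈ L, 1 ≤ x ∧ x ≤ n)
    (hW : Multiset.card (L.filter (fun x => 3 ∣ x)) ≤ q) (hM : Multiset.card (L.filter (fun x => p ∣ x)) ≤ p) :
    Realizable n L := by
  have hp0 := hp.pos
  obtain ⟨K, _, _, ζ, hpn, hζ⟩ := field_exists p (2 * n + 1) hp (by omega)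
  rcases Nat.lt_or_ge (Multiset.card (L.filter (fun x => p ∣ x))) p with hlt | hge
  · obtain ⟨d, -, hd, r, hr1, hrc, hc⟩ := removal_labels p q n hp hq h5 hn L hcard hL hW hlt
    have hle : Multiset.replicate r d ≤ L := Multiset.le_count_iff_replicate_le.1 hrc
    have hrn : r ≤ n := by
      have := Multiset.card_le_card hle
      rwa [Multiset.card_replicate, hcard] at this
    have hcS : Multiset.card (L - Multiset.replicate r d) = n - r := by
      rw [Multiset.card_sub hle, hcard, Multiset.card_replicate]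
    obtain ⟨e, he⟩ := r14_enum _ _ hcS
    have hc' : (∏ i, (Polynomial.C ((chi3 (e i) : ℤ) : ZMod p) +
      Polynomial.C ((e i : ℕ) : ZMod p) * Polynomial.X)).coeff q ≠ 0 := by
      rw [r14_prod _ _ e he]; exact hc
    obtain ⟨κ, hκ, -, hper⟩ := three_lead p q n hp hq h5 hn hpn ζ hζ (n - r) (by omega) e hc'
    refine exchange_factor n r (n - r) (by omega) ζ hζ d hd e κ hκ hper L hL ?_
    rw [he]
    exact Multiset.sub_add_cancel hle
  · obtain ⟨hpL, hc⟩ := removal_p p q n hp hq h5 hn L hcard hL (le_antisymm hM hge)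
    have hle : ({p} : Multiset ℕ) ≤ L := Multiset.singleton_le.2 hpL
    have hcS : Multiset.card (L - {p}) = n - 1 := by
      rw [Multiset.card_sub hle, hcard, Multiset.card_singleton]
    obtain ⟨e, he⟩ := r14_enum _ _ hcS
    have hc' : (∏ i, (Polynomial.C ((chi3 (e i) : ℤ) : ZMod p) +
      Polynomial.C ((e i : ℕ) : ZMod p) * Polynomial.X)).coeff q ≠ 0 := by
      rw [r14_prod _ _ e he]; exact hc
    obtain ⟨κ, hκ, hκ0, hper⟩ := three_lead p q n hp hq h5 hn hpn ζ hζ (n - 1) (by omega) e hc'
    refine exchange_single n (n - 1) (by omega) ζ hζ p ?_ e κ hκ hκ0 hper L hL ?_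
    · intro hdvd
      have := Nat.le_of_dvd hp0 hdvd
      omega
    · rw [he]
      exact Multiset.sub_add_cancel hle


end Pool.Agent.Helper805_nf
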