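import Mathlib
import Pool.Agent.Helper805_nf.Defs6

set_option autoImplicit false

namespace Pool.Agent.Helper805_nf

open Finset


theorem r5_count (m W : ℕ) (H T : Finset (Fin m)) (hH : H.card = W) (hT : T.card = W) :
    (univ.filter (fun π : Equiv.Perm (Fin m) => H.image π = T)).card =
      W.factorial * (m - W).factorial := by
  classical
  let f : Fin m → Bool := fun i => decide (i ∈ T)
  let e : {i // i ∈ H} ≃ {i // i ∈ T} := Fintype.equivOfCardEq (by simp [hH, hT])
  let σ : Equiv.Perm (Fin m) := e.extendSubtype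
  have hσ : ∀ i, i ∈ H ↔ σ i ∈ T := by
    intro i
    constructor
    · intro hi
      exact e.extendSubtype_mem i hi
    · intro hi
      by_contra hne
      exact e.extendSubtype_not_mem i hne hi
  have h1 := DomMulAct.stabilizer_card f
  have h2 : Fintype.card {a // f a = true} = W := by
    rw [Fintype.card_subtype]
    simp [f, hT]
  have h3 : Fintype.card {a // f a = false} = m - W := by
    have h4 := Fintype.card_subtype_compl (fun a => f a = true)
    rw [Fintype.card_fin, h2] at h4
    rw [← h4]
    apply Fintype.card_congr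
    apply Equiv.subtypeEquivRight
    intro a
    simp
  rw [Fintype.prod_bool, h2, h3] at h1
  rw [← h1, Fintype.card_subtype]
  apply Finset.card_bij (fun (π : Equiv.Perm (Fin m)) _ => π * σ⁻¹)
  · intro π hπ
    rw [mem_filter] at hπ ⊢
    refine ⟨mem_univ _, ?_⟩
    funext i
    have hi : (π * σ⁻¹) i = π (σ⁻¹ i) := rfl
    have h5 : i ∈ T ↔ σ⁻¹ i ∈ H := by
      rw [hσ]
      simp
    have h6 : π (σ⁻¹ i) ∈ T ↔ σ⁻¹ i ∈ H := by
      rw [← hπ.2, mem_image]
      constructor
      · rintro ⟨a, ha, hae⟩
        rw [← π.injective hae]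
        exact ha
      · intro h
        exact ⟨_, h, rfl⟩
    simp only [Function.comp, f, hi]
    rw [decide_eq_decide, h6, h5]
  · intro π _ π' _ h
    exact mul_right_cancel h
  · intro g hg
    rw [mem_filter] at hg
    refine ⟨g * σ, ?_, by simp⟩
    rw [mem_filter]
    refine ⟨mem_univ _, ?_⟩
    have hg2 : ∀ i, g i ∈ T ↔ i ∈ T := by
      intro i
      have := congrFun hg.2 i
      simp only [Function.comp, f, decide_eq_decide] at this
      exact this
    apply Finset.eq_of_subset_of_card_le
    · intro j hj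
      rw [mem_image] at hj
      obtain ⟨i, hi, rfl⟩ := hj
      have : (g * σ) i = g (σ i) := rfl
      rw [this, hg2, ← hσ]
      exact hi
    · rw [Finset.card_image_of_injective _ (g * σ).injective, hH, hT]

theorem r5_coeff {R : Type*} [CommRing R] (m W : ℕ) (x : Fin m → R) :
    (∏ j, (1 + Polynomial.C (x j) * Polynomial.X)).coeff W =
      ∑ T ∈ powersetCard W (univ : Finset (Fin m)), ∏ j ∈ T, x j := by
  classical
  rw [Finset.prod_one_add, Polynomial.finset_sum_coeff, Finset.powersetCard_eq_filter,
    Finset.sum_filter]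
  apply Finset.sum_congr rfl
  intro T _
  rw [Finset.prod_mul_distrib, Finset.prod_const, ← map_prod, Polynomial.coeff_C_mul,
    Polynomial.coeff_X_pow]
  by_cases h : T.card = W
  · rw [if_pos h, if_pos h.symm, mul_one]
  · rw [if_neg h, if_neg (fun h' => h h'.symm), mul_zero]

theorem heavy_light_perm {R : Type*} [CommRing R] (m W : ℕ) (H : Finset (Fin m)) (hH : H.card = W)
    (c x : Fin m → R) :
    ∑ π : Equiv.Perm (Fin m), ∏ i, (c i * (if i ∈ H then x (π i) else 1)) =
      (∏ i, c i) * (W.factorial : R) * ((m - W).factorial : R) *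
        (∏ j, (1 + Polynomial.C (x j) * Polynomial.X)).coeff W := by
  classical
  have h1 : ∀ π : Equiv.Perm (Fin m), ∏ i, (c i * (if i ∈ H then x (π i) else 1)) =
      (∏ i, c i) * ∏ j ∈ H.image π, x j := by
    intro π
    rw [Finset.prod_mul_distrib, Finset.prod_image (fun a _ b _ h => π.injective h)]
    congr 1
    rw [Finset.prod_ite_mem, univ_inter]
  rw [Finset.sum_congr rfl (fun π _ => h1 π), ← Finset.mul_sum, r5_coeff]
  have h2 : ∑ π : Equiv.Perm (Fin m), ∏ j ∈ H.image π, x j =
      ∑ T ∈ powersetCard W (univ : Finset (Fin m)),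
        ∑ π ∈ univ.filter (fun π : Equiv.Perm (Fin m) => H.image π = T), ∏ j ∈ H.image π, x j := by
    symm
    apply Finset.sum_fiberwise_of_maps_to
    intro π _
    rw [mem_powersetCard]
    exact ⟨subset_univ _, by rw [Finset.card_image_of_injective _ π.injective, hH]⟩
  have h3 : ∀ T ∈ powersetCard W (univ : Finset (Fin m)),
      ∑ π ∈ univ.filter (fun π : Equiv.Perm (Fin m) => H.image π = T), ∏ j ∈ H.image π, x j =
        ((W.factorial * (m - W).factorial : ℕ) : R) * ∏ j ∈ T, x j := by
    intro T hT
    rw [mem_powersetCard] at hT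
    rw [Finset.sum_congr rfl (g := fun _ => ∏ j ∈ T, x j)]
    · rw [Finset.sum_const, r5_count m W H T hH hT.2, nsmul_eq_mul]
    · intro π hπ
      rw [(mem_filter.1 hπ).2]
  rw [h2, Finset.sum_congr rfl h3, ← Finset.mul_sum]
  push_cast
  ring


end Pool.Agent.Helper805_nf
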