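import Mathlib
import Pool.Agent.Helper805_nf.Defs6

set_option autoImplicit false

namespace Pool.Agent.Helper805_nf

open Finset

theorem r6_prod_erase (p : ℕ) [Fact p.Prime] :
    ∏ c ∈ (Finset.univ : Finset (ZMod p)).erase 0,
      ((1 : Polynomial (ZMod p)) + Polynomial.C c * Polynomial.X) = 1 - Polynomial.X ^ (p - 1) := by
  have hp : p.Prime := Fact.out
  have hp1 : 1 ≤ p - 1 := by have := hp.two_le; omega
  rw [← sub_eq_zero]
  apply Polynomial.eq_zero_of_natDegree_lt_card_of_eval_eq_zero' _ (Finset.univ : Finset (ZMod p))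
  · intro x _
    simp only [Polynomial.eval_sub, Polynomial.eval_prod, Polynomial.eval_add, Polynomial.eval_one,
      Polynomial.eval_mul, Polynomial.eval_C, Polynomial.eval_X, Polynomial.eval_pow]
    by_cases hx : x = 0
    · subst hx
      rw [zero_pow (by omega)]
      simp
    · have h1 : ∏ c ∈ (Finset.univ : Finset (ZMod p)).erase 0, (1 + c * x) = 0 := by
        apply Finset.prod_eq_zero (i := -x⁻¹)
        · simp [hx]
        · field_simp
          ring
      rw [h1, ZMod.pow_card_sub_one_eq_one hx]
      ring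
  · have h1 : (∏ c ∈ (Finset.univ : Finset (ZMod p)).erase 0,
      ((1 : Polynomial (ZMod p)) + Polynomial.C c * Polynomial.X)).natDegree ≤ p - 1 := by
      refine (Polynomial.natDegree_prod_le _ _).trans ?_
      refine (Finset.sum_le_card_nsmul _ _ 1 fun c _ => ?_).trans ?_
      · compute_degree
      · rw [Finset.card_erase_of_mem (Finset.mem_univ _), Finset.card_univ, ZMod.card]
        simp
    have h2 : ((1 : Polynomial (ZMod p)) - Polynomial.X ^ (p - 1)).natDegree ≤ p - 1 := by
      compute_degree
    have h3 := Polynomial.natDegree_sub_le_of_le h1 h2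
    rw [Finset.card_univ, ZMod.card]
    simp only [max_self] at h3
    omega

theorem r6_prod_range (p : ℕ) (hp : p.Prime) (h5 : 5 ≤ p) :
    (∏ i ∈ Finset.range (p - 1), ((1 : Polynomial (ZMod p)) +
      Polynomial.C (((3 * (i + 1) + 1 : ℕ) : ZMod p)) * Polynomial.X)) * (1 + Polynomial.X) =
      1 - Polynomial.X ^ (p - 1) := by
  have : Fact p.Prime := ⟨hp⟩
  rw [← r6_prod_erase p]
  have h0 : (1 : Polynomial (ZMod p)) + Polynomial.X =
      1 + Polynomial.C (((3 * ((p - 1) + 1) + 1 : ℕ) : ZMod p)) * Polynomial.X := by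
    have : (p - 1) + 1 = p := by omega
    rw [this]
    simp
  rw [h0, ← Finset.prod_range_succ (fun i : ℕ => ((1 : Polynomial (ZMod p)) +
      Polynomial.C (((3 * (i + 1) + 1 : ℕ) : ZMod p)) * Polynomial.X))]
  have h1 : (p - 1) + 1 = p := by omega
  rw [h1]
  have h2 : ∏ c ∈ (Finset.univ : Finset (ZMod p)).erase 0,
      ((1 : Polynomial (ZMod p)) + Polynomial.C c * Polynomial.X) =
      ∏ c : ZMod p, ((1 : Polynomial (ZMod p)) + Polynomial.C c * Polynomial.X) := by
    apply Finset.prod_erase
    simp
  rw [h2]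
  have hinj : Set.InjOn (fun i : ℕ => ((3 * (i + 1) + 1 : ℕ) : ZMod p)) (Finset.range p) := by
    intro i hi j hj hij
    simp only [Finset.coe_range, Set.mem_Iio] at hi hj
    simp only [Nat.cast_add, Nat.cast_mul, Nat.cast_ofNat, Nat.cast_one, add_left_inj] at hij
    have h3 : ((3 : ℕ) : ZMod p) ≠ 0 := by
      intro h
      rw [ZMod.natCast_eq_zero_iff] at h
      have := Nat.le_of_dvd (by norm_num) h
      omega
    have h4 : ((3 : ℕ) : ZMod p) * ((i : ZMod p) - j) = 0 := by
      push_cast
      linear_combination hij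
    have h5 : (i : ZMod p) = j := by
      rcases mul_eq_zero.mp h4 with h | h
      · exact absurd h h3
      · exact sub_eq_zero.mp h
    rw [ZMod.natCast_eq_natCast_iff] at h5
    exact Nat.ModEq.eq_of_lt_of_lt h5 hi hj
  have himg : (Finset.range p).image (fun i : ℕ => ((3 * (i + 1) + 1 : ℕ) : ZMod p)) =
      Finset.univ := by
    apply Finset.eq_univ_of_card
    rw [Finset.card_image_of_injOn hinj, Finset.card_range, ZMod.card]
  rw [← himg, Finset.prod_image hinj]

theorem esymm_shift (p : ℕ) (hp : p.Prime) (h5 : 5 ≤ p) (W : ℕ) (hW : W + 2 ≤ p) :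
    (∏ i ∈ Finset.range (p - 1), ((1 : Polynomial (ZMod p)) +
      Polynomial.C (((3 * (i + 1) + 1 : ℕ) : ZMod p)) * Polynomial.X)).coeff W ≠ 0 := by
  have : Fact p.Prime := ⟨hp⟩
  have key := r6_prod_range p hp h5
  set P : Polynomial (ZMod p) := ∏ i ∈ Finset.range (p - 1), ((1 : Polynomial (ZMod p)) +
      Polynomial.C (((3 * (i + 1) + 1 : ℕ) : ZMod p)) * Polynomial.X) with hP
  have h0 : P.coeff 0 = 1 := by
    have := congrArg (fun q => Polynomial.coeff q 0) key
    simp only [mul_add, mul_one, Polynomial.coeff_add, Polynomial.mul_coeff_zero,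
      Polynomial.coeff_X_zero, mul_zero, add_zero, Polynomial.coeff_sub, Polynomial.coeff_one_zero,
      Polynomial.coeff_X_pow] at this
    rw [if_neg (by omega)] at this
    simpa using this
  have hstep : ∀ W, W + 1 + 2 ≤ p → P.coeff (W + 1) = - P.coeff W := by
    intro W hW
    have := congrArg (fun q => Polynomial.coeff q (W + 1)) key
    simp only [mul_add, mul_one, Polynomial.coeff_add, Polynomial.coeff_mul_X,
      Polynomial.coeff_sub, Polynomial.coeff_one, Polynomial.coeff_X_pow] at this
    rw [if_neg (by omega), if_neg (by omega)] at this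
    linear_combination this
  have hall : ∀ W, W + 2 ≤ p → P.coeff W = (-1) ^ W := by
    intro W
    induction W with
    | zero => intro _; simpa using h0
    | succ n ih =>
      intro hn
      rw [hstep n hn, ih (by omega), pow_succ]
      ring
  rw [hall W hW]
  exact pow_ne_zero _ (neg_ne_zero.mpr one_ne_zero)

end Pool.Agent.Helper805_nf
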