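import Mathlib
import Pool.Agent.Helper805_nf.Defs6
import Pool.Agent.Helper805_nf.R2
import Pool.Agent.Helper805_nf.R3
import Pool.Agent.Helper805_nf.R5
import Pool.Agent.Helper805_nf.R6

set_option autoImplicit false

namespace Pool.Agent.Helper805_nf

open Finset







theorem r7_chi3_mul (j e : ℕ) : chi3 ((3 * (j + 1) + 1) * e) = chi3 e := by
  have h : ((3 * (j + 1) + 1) * e) % 3 = e % 3 := by
    have : (3 * (j + 1) + 1) * e = e + 3 * ((j + 1) * e) := by ring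
    rw [this, Nat.add_mul_mod_self_left]
  unfold chi3
  rw [h]

theorem r7_chi3_ne {p : ℕ} (hp : p.Prime) {e : ℕ} (he : ¬ 3 ∣ e) :
    ((chi3 e : ℤ) : ZMod p) ≠ 0 := by
  have := Fact.mk hp
  have h0 : e % 3 ≠ 0 := fun h => he (Nat.dvd_of_mod_eq_zero h)
  unfold chi3
  rw [if_neg h0]
  split_ifs
  · simp
  · simp

theorem r7_e_ne {p q n : ℕ} (hp : p.Prime) (hq : p = 2 * q + 1) (h5 : 5 ≤ p)
    (hn : n = 3 * q + 1) {e : ℕ} (h1 : 1 ≤ e) (h2 : e ≤ n) (h3 : 3 ∣ e) :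
    ((e : ℕ) : ZMod p) ≠ 0 := by
  rw [Ne, ZMod.natCast_eq_zero_iff]
  obtain ⟨a, rfl⟩ := h3
  intro h
  rcases hp.dvd_mul.1 h with h | h
  · have := Nat.le_of_dvd (by norm_num) h
    omega
  · have := Nat.le_of_dvd (by omega) h
    omega

theorem r7_fact_ne {p : ℕ} (hp : p.Prime) {k : ℕ} (hk : k < p) :
    ((k.factorial : ℕ) : ZMod p) ≠ 0 := by
  rw [Ne, ZMod.natCast_eq_zero_iff, hp.dvd_factorial]
  omega

theorem fold_A_ne {K : Type*} [NormedField K] [IsUltrametricDist K] (p q n : ℕ) (hp : p.Prime)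
    (hq : p = 2 * q + 1) (h5 : 5 ≤ p) (hn : n = 3 * q + 1) (hpn : ‖(p : K)‖ = (p : ℝ)⁻¹) (ζ : K)
    (hζ : IsPrimitiveRoot ζ (2 * n + 1)) (m : ℕ) (hm : m + 1 = p) (e : Fin m → ℕ)
    (he : ∀ i, 1 ≤ e i ∧ e i ≤ n) (hl : ∃ i, ¬ 3 ∣ e i) :
    ∑ π : Equiv.Perm (Fin m), ∏ i, (ζ ^ ((3 * ((π i : ℕ) + 1) + 1) * e i) -
      (ζ⁻¹) ^ ((3 * ((π i : ℕ) + 1) + 1) * e i)) ≠ 0 := by
  have := Fact.mk hp
  obtain ⟨τ, ϖ, θ, hτ0, hτ1, hϖ, hθ, hA, hB⟩ := three_norms p q n hp hq h5 hn hpn ζ hζ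
  have hϖ0 : ϖ ≠ 0 := by
    rw [← norm_ne_zero_iff, hϖ]
    exact hτ0.ne'
  have hθ0 : θ ≠ 0 := by
    rw [← norm_ne_zero_iff, hθ]
    exact one_ne_zero
  set H : Finset (Fin m) := Finset.univ.filter (fun i => 3 ∣ e i) with hH
  have hW : H.card + 2 ≤ p := by
    obtain ⟨i, hi⟩ := hl
    have h1 : H.card < (Finset.univ : Finset (Fin m)).card := by
      refine Finset.card_lt_card (Finset.ssubset_univ_iff.2 fun h => hi ?_)
      have h2 : i ∈ H := by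
        rw [h]
        exact Finset.mem_univ i
      exact (Finset.mem_filter.1 h2).2
    rw [Finset.card_univ, Fintype.card_fin] at h1
    omega
  refine perm_lead p hp hpn (fun i j : Fin m => ζ ^ ((3 * ((j : ℕ) + 1) + 1) * e i) -
      (ζ⁻¹) ^ ((3 * ((j : ℕ) + 1) + 1) * e i)) (fun i => if 3 ∣ e i then ϖ else θ) (fun _ => 1)
      (fun i => ?_) (fun _ => one_ne_zero)
      (fun i j => if 3 ∣ e i then (((3 * ((j : ℕ) + 1) + 1) * e i : ℕ) : ℤ) else chi3 (e i))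
      (fun i j => ?_) ?_
  · show (if 3 ∣ e i then ϖ else θ) ≠ 0
    split_ifs
    · exact hϖ0
    · exact hθ0
  · show ‖ζ ^ ((3 * ((j : ℕ) + 1) + 1) * e i) - (ζ⁻¹) ^ ((3 * ((j : ℕ) + 1) + 1) * e i) -
      (if 3 ∣ e i then ϖ else θ) * 1 *
        (((if 3 ∣ e i then (((3 * ((j : ℕ) + 1) + 1) * e i : ℕ) : ℤ) else chi3 (e i)) : ℤ) : K)‖ <
      ‖(if 3 ∣ e i then ϖ else θ) * 1‖
    rw [mul_one]
    by_cases h : 3 ∣ e i
    · rw [if_pos h, if_pos h, hϖ]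
      refine lt_of_le_of_lt ?_ (show τ ^ 2 < τ by nlinarith)
      have h1 := hA ((3 * ((j : ℕ) + 1) + 1) * e i) (h.mul_left _)
      rw [Int.cast_natCast, mul_comm ϖ]
      exact h1
    · rw [if_neg h, if_neg h, hθ]
      refine lt_of_le_of_lt ?_ hτ1
      have h1 := hB ((3 * ((j : ℕ) + 1) + 1) * e i)
      rw [r7_chi3_mul] at h1
      rw [mul_comm θ]
      exact h1
  · have h1 := heavy_light_perm (R := ZMod p) m H.card H rfl
      (fun i => if 3 ∣ e i then ((e i : ℕ) : ZMod p) else ((chi3 (e i) : ℤ) : ZMod p))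
      (fun j => ((3 * ((j : ℕ) + 1) + 1 : ℕ) : ZMod p))
    have h2 : ∑ π : Equiv.Perm (Fin m), ∏ i, (((if 3 ∣ e i then
        (((3 * (((π i : Fin m) : ℕ) + 1) + 1) * e i : ℕ) : ℤ) else chi3 (e i) : ℤ)) : ZMod p) =
        ∑ π : Equiv.Perm (Fin m), ∏ i, ((if 3 ∣ e i then ((e i : ℕ) : ZMod p) else
          ((chi3 (e i) : ℤ) : ZMod p)) *
          (if i ∈ H then ((3 * (((π i : Fin m) : ℕ) + 1) + 1 : ℕ) : ZMod p) else 1)) := by
      refine Finset.sum_congr rfl fun π _ => Finset.prod_congr rfl fun i _ => ?_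
      have h3 : i ∈ H ↔ 3 ∣ e i := by
        rw [hH, Finset.mem_filter]
        exact ⟨fun h => h.2, fun h => ⟨Finset.mem_univ i, h⟩⟩
      by_cases h : 3 ∣ e i
      · rw [if_pos h, if_pos h, if_pos (h3.2 h), Int.cast_natCast, Nat.cast_mul, mul_comm]
      · rw [if_neg h, if_neg h, if_neg (fun h4 => h (h3.1 h4)), mul_one]
    show ∑ π : Equiv.Perm (Fin m), ∏ i, (((if 3 ∣ e i then
        (((3 * (((π i : Fin m) : ℕ) + 1) + 1) * e i : ℕ) : ℤ) else chi3 (e i) : ℤ)) : ZMod p) ≠ 0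
    rw [h2, h1]
    refine mul_ne_zero (mul_ne_zero (mul_ne_zero ?_ ?_) ?_) ?_
    · rw [Finset.prod_ne_zero_iff]
      intro i _
      split_ifs with h
      · exact r7_e_ne hp hq h5 hn (he i).1 (he i).2 h
      · exact r7_chi3_ne hp h
    · exact r7_fact_ne hp (by omega)
    · exact r7_fact_ne hp (by omega)
    · have h4 := esymm_shift p hp h5 H.card hW
      have h5' : p - 1 = m := by omega
      rw [h5', ← Fin.prod_univ_eq_prod_range (fun i => ((1 : Polynomial (ZMod p)) +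
        Polynomial.C (((3 * (i + 1) + 1 : ℕ) : ZMod p)) * Polynomial.X)) m] at h4
      exact h4

end Pool.Agent.Helper805_nf
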