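import Mathlib
import Pool.Agent.Helper805_nf.Defs6
import Pool.Agent.Helper805_nf.R2
import Pool.Agent.Helper805_nf.R3

set_option autoImplicit false

namespace Pool.Agent.Helper805_nf

open Finset





/-- a natural number between `1` and `p - 1` is not zero modulo `p` -/
lemma r8_cast_ne (p a : ℕ) (h1 : 1 ≤ a) (h2 : a < p) : ((a : ℕ) : ZMod p) ≠ 0 := by
  intro h
  have h3 := (ZMod.natCast_eq_zero_iff a p).mp h
  exact absurd (Nat.le_of_dvd (by omega) h3) (by omega)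

theorem fold_B_ne {K : Type*} [NormedField K] [IsUltrametricDist K] (p q n : ℕ) (hp : p.Prime)
    (hq : p = 2 * q + 1) (h5 : 5 ≤ p) (hn : n = 3 * q + 1) (hpn : ‖(p : K)‖ = (p : ℝ)⁻¹) (ζ : K)
    (hζ : IsPrimitiveRoot ζ (2 * n + 1)) (b : Fin q → ℕ)
    (hb : ∀ i, 1 ≤ b i ∧ b i ≤ n) (h3 : ∀ i, 3 ∣ b i) :
    ∑ π : Equiv.Perm (Fin q), ∏ i, (ζ ^ ((3 * ((π i : ℕ) + 1)) * b i) -
      (ζ⁻¹) ^ ((3 * ((π i : ℕ) + 1)) * b i)) ≠ 0 := by
  obtain ⟨τ, ϖ, θ, hτ0, hτ1, hϖ, -, h1, -⟩ := three_norms p q n hp hq h5 hn hpn ζ hζ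
  haveI : Fact p.Prime := ⟨hp⟩
  have hϖ0 : ϖ ≠ 0 := by
    intro h
    rw [h, norm_zero] at hϖ
    exact hτ0.ne hϖ
  refine perm_lead p hp hpn
    (fun i j : Fin q => ζ ^ ((3 * ((j : ℕ) + 1)) * b i) - (ζ⁻¹) ^ ((3 * ((j : ℕ) + 1)) * b i))
    (fun _ => ϖ) (fun _ => 1) (fun _ => hϖ0) (fun _ => one_ne_zero)
    (fun i j => (((3 * ((j : ℕ) + 1)) * b i : ℕ) : ℤ)) ?_ ?_
  · intro i j
    have h2 := h1 ((3 * ((j : ℕ) + 1)) * b i) (Dvd.dvd.mul_right (Dvd.intro _ rfl) _)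
    have h4 : ϖ * (1 : K) * (((((3 * ((j : ℕ) + 1)) * b i : ℕ) : ℤ)) : K) =
        (((3 * ((j : ℕ) + 1)) * b i : ℕ) : K) * ϖ := by
      rw [Int.cast_natCast, mul_one, mul_comm]
    have h5 : ‖ϖ * (1 : K)‖ = τ := by rw [mul_one, hϖ]
    show ‖ζ ^ ((3 * ((j : ℕ) + 1)) * b i) - (ζ⁻¹) ^ ((3 * ((j : ℕ) + 1)) * b i) -
      ϖ * (1 : K) * (((((3 * ((j : ℕ) + 1)) * b i : ℕ) : ℤ)) : K)‖ < ‖ϖ * (1 : K)‖
    rw [h4, h5]
    refine h2.trans_lt ?_
    nlinarith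
  · have hA : ∀ π : Equiv.Perm (Fin q),
        ∏ i, (((((3 * ((π i : ℕ) + 1)) * b i : ℕ) : ℤ)) : ZMod p) =
          (∏ j : Fin q, ((3 * ((j : ℕ) + 1) : ℕ) : ZMod p)) * ∏ i, ((b i : ℕ) : ZMod p) := by
      intro π
      rw [← Equiv.prod_comp π (fun j : Fin q => ((3 * ((j : ℕ) + 1) : ℕ) : ZMod p)),
        ← Finset.prod_mul_distrib]
      refine Finset.prod_congr rfl fun i _ => ?_
      rw [Int.cast_natCast]
      push_cast
      ring
    show ∑ π : Equiv.Perm (Fin q), ∏ i, (((((3 * ((π i : ℕ) + 1)) * b i : ℕ) : ℤ)) : ZMod p) ≠ 0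
    rw [Finset.sum_congr rfl fun π _ => hA π, Finset.sum_const, Finset.card_univ, Fintype.card_perm,
      Fintype.card_fin, nsmul_eq_mul]
    have hqp : q < p := by omega
    refine mul_ne_zero ?_ (mul_ne_zero ?_ ?_)
    · intro h
      have h6 := (ZMod.natCast_eq_zero_iff _ p).mp h
      have h7 := (Nat.Prime.dvd_factorial hp).mp h6
      omega
    · refine Finset.prod_ne_zero_iff.mpr fun j _ => ?_
      have hj := j.isLt
      rw [Nat.cast_mul]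
      exact mul_ne_zero (r8_cast_ne p 3 (by norm_num) (by omega))
        (r8_cast_ne p ((j : ℕ) + 1) (by omega) (by omega))
    · refine Finset.prod_ne_zero_iff.mpr fun i _ => ?_
      obtain ⟨a, ha⟩ := h3 i
      have hbi := hb i
      rw [ha, Nat.cast_mul]
      exact mul_ne_zero (r8_cast_ne p 3 (by norm_num) (by omega))
        (r8_cast_ne p a (by omega) (by omega))

end Pool.Agent.Helper805_nf
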