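import Mathlib
import Pool.Agent.Helper805_nf.Defs6
import Pool.Agent.Helper805_nf.A1
import Pool.Agent.Helper805_nf.F

set_option autoImplicit false

namespace Pool.Agent.Helper805_nf

open Finset






/-- r9: index type -/
abbrev r9_I (q : ℕ) : Type := (Fin (2 * q) ⊕ Fin q) ⊕ Unit

/-- r9: the labelling -/
def r9_col (q : ℕ) (r : ℤ) : Option (r9_I q × Bool) → ℤ
  | none => -1
  | some (Sum.inl (Sum.inl i), true) => 3 * ((i : ℕ) : ℤ) + 4
  | some (Sum.inl (Sum.inl i), false) => -(3 * ((i : ℕ) : ℤ) + 4)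
  | some (Sum.inl (Sum.inr i), true) => r + 3 * (((i : ℕ) : ℤ) + 1)
  | some (Sum.inl (Sum.inr i), false) => r - 3 * (((i : ℕ) : ℤ) + 1)
  | some (Sum.inr _, true) => 1
  | some (Sum.inr _, false) => r

theorem r9_vdvd (q : ℕ) (x y : ℤ)
    (h : (x : ZMod (2 * (3 * q + 1) + 1)) = (y : ZMod (2 * (3 * q + 1) + 1))) :
    (6 * (q : ℤ) + 3) ∣ x - y := by
  rw [ZMod.intCast_eq_intCast_iff_dvd_sub] at h
  obtain ⟨m, hm⟩ := h
  refine ⟨-m, ?_⟩
  push_cast at hm
  linear_combination -hm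

theorem r9_of_vdvd (q : ℕ) (x y : ℤ) (h : (6 * (q : ℤ) + 3) ∣ x - y) :
    (x : ZMod (2 * (3 * q + 1) + 1)) = (y : ZMod (2 * (3 * q + 1) + 1)) := by
  rw [ZMod.intCast_eq_intCast_iff_dvd_sub]
  obtain ⟨m, hm⟩ := h
  refine ⟨-m, ?_⟩
  push_cast
  linear_combination -hm

theorem r9_three {q : ℕ} {x : ℤ} (h : (6 * (q : ℤ) + 3) ∣ x) : (3 : ℤ) ∣ x :=
  dvd_trans ⟨2 * q + 1, by ring⟩ h

theorem r9_wdvd {q : ℕ} {x : ℤ} (h : (6 * (q : ℤ) + 3) ∣ x) : (2 * (q : ℤ) + 1) ∣ x :=
  dvd_trans ⟨3, by ring⟩ h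

theorem r9_zero {q : ℕ} {x : ℤ} (h : (6 * (q : ℤ) + 3) ∣ x) (h1 : x < 6 * q + 3)
    (h2 : -(6 * (q : ℤ) + 3) < x) : x = 0 :=
  Int.eq_zero_of_abs_lt_dvd h (abs_lt.2 ⟨h2, h1⟩)

theorem r9_combine {q : ℕ} (h3 : ¬ 3 ∣ 2 * q + 1) {x : ℤ} (h1 : (3 : ℤ) ∣ x)
    (h2 : (2 * (q : ℤ) + 1) ∣ x) : (6 * (q : ℤ) + 3) ∣ x := by
  have hc : IsCoprime (3 : ℤ) (2 * (q : ℤ) + 1) := by
    have h : Nat.Coprime 3 (2 * q + 1) := (Nat.Prime.coprime_iff_not_dvd Nat.prime_three).2 h3
    have := Nat.isCoprime_iff_coprime.2 h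
    push_cast at this
    exact this
  have := hc.mul_dvd h1 h2
  have e : 6 * (q : ℤ) + 3 = 3 * (2 * (q : ℤ) + 1) := by ring
  rw [e]
  exact this

theorem r9_inj (q : ℕ) (r : ℤ) (h3r : (3 : ℤ) ∣ r) (x y : Option (r9_I q × Bool))
    (h : ((r9_col q r x : ℤ) : ZMod (2 * (3 * q + 1) + 1)) =
      ((r9_col q r y : ℤ) : ZMod (2 * (3 * q + 1) + 1))) : x = y := by
  have hd := r9_vdvd q _ _ h
  have h3 := r9_three hd
  rcases x with _ | ⟨(i | i) | u, s⟩ <;> rcases y with _ | ⟨(j | j) | u', t⟩ <;>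
    (try cases s) <;> (try cases t) <;> simp only [r9_col] at hd h3 <;>
    first
      | rfl
      | (exfalso; omega)
      | (have hi := i.2
         have hj := j.2
         have h0 := r9_zero hd (by omega) (by omega)
         first
           | (exfalso; omega)
           | (have : i = j := Fin.ext (by omega)
              rw [this]))
      | (have hi := i.2
         have h0 := r9_zero hd (by omega) (by omega)
         exfalso; omega)
      | (have hj := j.2
         have h0 := r9_zero hd (by omega) (by omega)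
         exfalso; omega)

theorem r9_bij (q : ℕ) (r : ℤ) (h3r : (3 : ℤ) ∣ r) : Function.Bijective
    (fun x : Option (r9_I q × Bool) => ((r9_col q r x : ℤ) : ZMod (2 * (3 * q + 1) + 1))) := by
  rw [Fintype.bijective_iff_injective_and_card]
  refine ⟨fun x y h => r9_inj q r h3r x y h, ?_⟩
  rw [ZMod.card]
  simp only [Fintype.card_option, Fintype.card_prod, Fintype.card_sum, Fintype.card_fin,
    Fintype.card_unit, Fintype.card_bool]
  omega


theorem r9_hole {ι A : Type*} [Fintype ι] [AddCommGroup A] (c : Option (ι × Bool) → A)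
    (hc : Function.Injective c) (s : ι → A)
    (hid : ∀ i, c (some (i, false)) + c (some (i, true)) = s i)
    (σ : Equiv.Perm (Option (ι × Bool)))
    (hσ : ∀ i, c (σ (some (i, false))) + c (σ (some (i, true))) = s i) : σ none = none := by
  have hs := Equiv.sum_comp σ c
  rw [Fintype.sum_option, Fintype.sum_option, Fintype.sum_prod_type, Fintype.sum_prod_type] at hs
  simp only [Fintype.sum_bool] at hs
  have h1 : ∀ x : ι, c (σ (some (x, true))) + c (σ (some (x, false))) = s x := by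
    intro x; rw [add_comm]; exact hσ x
  have h2 : ∀ x : ι, c (some (x, true)) + c (some (x, false)) = s x := by
    intro x; rw [add_comm]; exact hid x
  rw [Finset.sum_congr rfl (fun x _ => h1 x), Finset.sum_congr rfl (fun x _ => h2 x)] at hs
  exact hc (add_right_cancel hs)

/-- r9: sums of the rows -/
def r9_s (q : ℕ) (r : ℤ) : r9_I q → ℤ
  | Sum.inl (Sum.inl _) => 0
  | Sum.inl (Sum.inr _) => 2 * r
  | Sum.inr _ => 1 + r

theorem r9_id (q : ℕ) (r : ℤ) (i : r9_I q) :
    r9_col q r (some (i, false)) + r9_col q r (some (i, true)) = r9_s q r i := by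
  rcases i with (i | i) | i <;> simp only [r9_col, r9_s] <;> ring

/-- r9: all the multiples of three other than `r` are in the rows `B` -/
theorem r9_inB (q : ℕ) (h3 : ¬ 3 ∣ 2 * q + 1) (r : ℤ) (h3r : (3 : ℤ) ∣ r)
    (hwr : (2 * (q : ℤ) + 1) ∣ r - 1) (InA InB : ℤ → Prop)
    (F1 : ∀ t : ℤ, 3 ∣ t → ¬ (6 * (q : ℤ) + 3) ∣ t - r → InA t ∨ InB t)
    (F2 : ∀ t, InA t → InA (-t)) (F3 : ∀ t, InB t → InB (2 * r - t))
    (F4 : ∀ t, InA t → InB t → False) (F5 : ¬ InA 0)
    (F6 : ∀ s t : ℤ, (6 * (q : ℤ) + 3) ∣ s - t → InB s → InB t) :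
    ∀ t : ℤ, (3 : ℤ) ∣ t → ¬ (2 * (q : ℤ) + 1) ∣ t - 1 → InB t := by
  have hcop : IsCoprime (2 * (q : ℤ) + 1) r := by
    obtain ⟨k, hk⟩ := hwr
    exact ⟨-k, 1, by linear_combination hk⟩
  have claim : ∀ i : ℕ, i < q → InB (-(2 * (i : ℤ) * r)) ∧ InB (2 * ((i : ℤ) + 1) * r) := by
    intro i
    induction i with
    | zero =>
      intro hq
      have h0 : InB 0 := by
        rcases F1 0 (dvd_zero 3) (by
          intro h
          have h' : (2 * (q : ℤ) + 1) ∣ r := by
            have := r9_wdvd h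
            rwa [zero_sub, dvd_neg] at this
          have h1 : (2 * (q : ℤ) + 1) ∣ 1 := by
            have := dvd_sub h' hwr
            have e : r - (r - 1) = 1 := by ring
            rwa [e] at this
          have := Int.le_of_dvd one_pos h1
          omega) with h | h
        · exact absurd h F5
        · exact h
      refine ⟨by simpa using h0, ?_⟩
      have := F3 0 h0
      convert this using 1
      push_cast
      ring
    | succ i ih =>
      intro hq
      obtain ⟨_, ih2⟩ := ih (by omega)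
      have h1 : InB (-(2 * ((i + 1 : ℕ) : ℤ) * r)) := by
        rcases F1 (-(2 * ((i + 1 : ℕ) : ℤ) * r)) (by
            rw [dvd_neg]; exact dvd_mul_of_dvd_right h3r _) (by
          intro h
          have h' : (2 * (q : ℤ) + 1) ∣ (2 * (i : ℤ) + 3) * r := by
            have := r9_wdvd h
            rw [← dvd_neg] at this
            have e : -(-(2 * ((i + 1 : ℕ) : ℤ) * r) - r) = (2 * (i : ℤ) + 3) * r := by
              push_cast
              ring
            rwa [e] at this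
          have h1 := hcop.dvd_of_dvd_mul_right h'
          have := Int.le_of_dvd (by omega) h1
          omega) with h | h
        · exfalso
          have h5 := F2 _ h
          refine F4 _ h5 ?_
          convert ih2 using 1
          push_cast
          ring
        · exact h
      refine ⟨h1, ?_⟩
      have := F3 _ h1
      convert this using 1
      push_cast
      ring
  intro t ht3 htw
  -- the residue modulo w
  set u : ℤ := t % (2 * (q : ℤ) + 1) with hu
  have hu0 : 0 ≤ u := Int.emod_nonneg _ (by omega)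
  have hu1 : u < 2 * (q : ℤ) + 1 := Int.emod_lt_of_pos _ (by omega)
  have htu : (2 * (q : ℤ) + 1) ∣ t - u := Int.dvd_self_sub_emod
  have hune : u ≠ 1 := by
    intro h
    apply htw
    rw [h] at htu
    exact htu
  rcases Int.even_or_odd' u with ⟨j, hj | hj⟩
  · by_cases hj0 : j = 0
    · have hq : 0 < q := by
        by_contra hq
        have hq0 : q = 0 := by omega
        apply htw
        subst hq0
        simp
      obtain ⟨h1, _⟩ := claim 0 hq
      refine F6 _ _ ?_ h1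
      apply r9_combine h3
      · simp only [Nat.cast_zero, mul_zero, zero_mul, neg_zero, zero_sub, dvd_neg]
        exact ht3
      · simp only [Nat.cast_zero, mul_zero, zero_mul, neg_zero, zero_sub, dvd_neg]
        rw [hj, hj0] at htu
        simpa using htu
    · obtain ⟨i, hi⟩ : ∃ i : ℕ, (i : ℤ) = j - 1 := ⟨(j - 1).toNat, Int.toNat_of_nonneg (by omega)⟩
      obtain ⟨_, h1⟩ := claim i (by omega)
      refine F6 _ _ ?_ h1
      apply r9_combine h3
      · exact dvd_sub (dvd_mul_of_dvd_right h3r _) ht3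
      · have h2 : 2 * ((i : ℤ) + 1) * r - t = (2 * j) * (r - 1) - (t - u) := by
          rw [hi, hj]; ring
        rw [h2]
        exact dvd_sub (dvd_mul_of_dvd_right hwr _) htu
  · obtain ⟨i, hi⟩ : ∃ i : ℕ, (i : ℤ) = q - j := ⟨((q : ℤ) - j).toNat, Int.toNat_of_nonneg (by omega)⟩
    obtain ⟨h1, _⟩ := claim i (by omega)
    refine F6 _ _ ?_ h1
    apply r9_combine h3
    · exact dvd_sub (by rw [dvd_neg]; exact dvd_mul_of_dvd_right h3r _) ht3
    · have h2 : -(2 * (i : ℤ) * r) - t = (-(2 * (i : ℤ))) * (r - 1) - (t - u) - (2 * (q : ℤ) + 1) := by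
        rw [hi, hj]; ring
      rw [h2]
      exact dvd_sub (dvd_sub (dvd_mul_of_dvd_right hwr _) htu) dvd_rfl


theorem r9_bool1 (β γ : Bool) (h : ¬ β = γ) : β = !γ := by
  cases β <;> cases γ <;> simp_all

theorem r9_bool2 (γ γ0 γ1 : Bool) (h : γ0 ≠ γ1) : γ = γ0 ∨ γ = γ1 := by
  cases γ <;> cases γ0 <;> cases γ1 <;> simp_all

theorem r9_col_none (q : ℕ) (r : ℤ) : r9_col q r none = -1 := rfl

theorem r9_col_St (q : ℕ) (r : ℤ) (u : Unit) : r9_col q r (some (Sum.inr u, true)) = 1 := rfl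

theorem r9_col_Sf (q : ℕ) (r : ℤ) (u : Unit) : r9_col q r (some (Sum.inr u, false)) = r := rfl

theorem r9_pairA (q : ℕ) (r : ℤ) (k l : Fin (2 * q)) (γ δ : Bool)
    (h : (6 * (q : ℤ) + 3) ∣ r9_col q r (some (Sum.inl (Sum.inl k), γ)) +
      r9_col q r (some (Sum.inl (Sum.inl l), δ)) - 0) : l = k ∧ δ = !γ := by
  have h3' := r9_three h
  have hk := k.2
  have hl := l.2
  cases γ <;> cases δ <;> simp only [r9_col] at h h3'
  · exfalso; omega
  · have := r9_zero h (by omega) (by omega)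
    exact ⟨Fin.ext (by omega), rfl⟩
  · have := r9_zero h (by omega) (by omega)
    exact ⟨Fin.ext (by omega), rfl⟩
  · exfalso; omega

theorem r9_pairB (q : ℕ) (r : ℤ) (k l : Fin q) (γ δ : Bool)
    (h : (6 * (q : ℤ) + 3) ∣ r9_col q r (some (Sum.inl (Sum.inr k), γ)) +
      r9_col q r (some (Sum.inl (Sum.inr l), δ)) - 2 * r) : l = k ∧ δ = !γ := by
  have hk := k.2
  have hl := l.2
  cases γ <;> cases δ <;> simp only [r9_col] at h
  · have := r9_zero h (by omega) (by omega)
    exfalso; omega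
  · have := r9_zero h (by omega) (by omega)
    exact ⟨Fin.ext (by omega), rfl⟩
  · have := r9_zero h (by omega) (by omega)
    exact ⟨Fin.ext (by omega), rfl⟩
  · have := r9_zero h (by omega) (by omega)
    exfalso; omega

theorem r9_notA (q : ℕ) (r : ℤ) (h3r : (3 : ℤ) ∣ r) (k : Fin q) (β : Bool) :
    (3 : ℤ) ∣ r9_col q r (some (Sum.inl (Sum.inr k), β)) := by
  cases β <;> simp only [r9_col] <;> omega

/-- r9: the structure of the good permutations -/
theorem r9_structure (q : ℕ) (h3 : ¬ 3 ∣ 2 * q + 1) (r : ℤ) (h3r : (3 : ℤ) ∣ r)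
    (hwr : (2 * (q : ℤ) + 1) ∣ r - 1)
    (σ : Equiv.Perm (Option (r9_I q × Bool)))
    (hσ : ∀ i, ((r9_col q r (σ (some (i, false))) + r9_col q r (σ (some (i, true))) : ℤ) :
      ZMod (2 * (3 * q + 1) + 1)) = ((r9_s q r i : ℤ) : ZMod (2 * (3 * q + 1) + 1)))
    (hS : ∃ β, σ (some (Sum.inr (), β)) = some (Sum.inr (), true)) :
    ∃ (π : Equiv.Perm (Fin (2 * q))) (ρ : Equiv.Perm (Fin q)) (ε : r9_I q → Bool),
      σ none = none ∧ ∀ i β, σ (some (i, β)) =
        some (Equiv.sumCongr (Equiv.sumCongr π ρ) (Equiv.refl Unit) i, xor β (ε i)) := by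
  set V : ℤ := 6 * (q : ℤ) + 3 with hV
  have h0 : σ none = none := by
    refine r9_hole (fun x => ((r9_col q r x : ℤ) : ZMod (2 * (3 * q + 1) + 1)))
      (fun x y h => r9_inj q r h3r x y h)
      (fun i => ((r9_s q r i : ℤ) : ZMod (2 * (3 * q + 1) + 1))) (fun i => ?_) σ (fun i => ?_)
    · rw [← Int.cast_add, r9_id]
    · rw [← Int.cast_add]; exact hσ i
  have hσ' : ∀ i, V ∣ r9_col q r (σ (some (i, false))) + r9_col q r (σ (some (i, true))) -
      r9_s q r i := fun i => r9_vdvd q _ _ (hσ i)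
  have hinj : ∀ x y, V ∣ r9_col q r x - r9_col q r y → x = y :=
    fun x y h => r9_inj q r h3r x y (r9_of_vdvd q _ _ h)
  have hsurj : ∀ t : ℤ, ∃ x, V ∣ r9_col q r (σ x) - t := by
    intro t
    obtain ⟨y, hy⟩ := (r9_bij q r h3r).2 (t : ZMod (2 * (3 * q + 1) + 1))
    obtain ⟨x, rfl⟩ := σ.surjective y
    exact ⟨x, r9_vdvd q _ _ hy⟩
  -- the special row
  have hSS : ∀ β, ∃ γ, σ (some (Sum.inr (), β)) = some (Sum.inr (), γ) := by
    obtain ⟨β₀, hβ₀⟩ := hS
    have hp : σ (some (Sum.inr (), !β₀)) = some (Sum.inr (), false) := by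
      apply hinj
      have h := hσ' (Sum.inr ())
      cases β₀
      · rw [hβ₀] at h
        simp only [r9_col_St, r9_s] at h
        simp only [Bool.not_false, r9_col_Sf]
        have e : (1 : ℤ) + r9_col q r (σ (some (Sum.inr (), true))) - (1 + r) =
          r9_col q r (σ (some (Sum.inr (), true))) - r := by ring
        rwa [e] at h
      · rw [hβ₀] at h
        simp only [r9_col_St, r9_s] at h
        simp only [Bool.not_true, r9_col_Sf]
        have e : r9_col q r (σ (some (Sum.inr (), false))) + 1 - (1 + r) =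
          r9_col q r (σ (some (Sum.inr (), false))) - r := by ring
        rwa [e] at h
    intro β
    by_cases hb : β = β₀
    · exact ⟨true, by rw [hb]; exact hβ₀⟩
    · have : β = !β₀ := r9_bool1 _ _ hb
      exact ⟨false, by rw [this]; exact hp⟩
  have hSinv : ∀ x γ, σ x = some (Sum.inr (), γ) → ∃ β, x = some (Sum.inr (), β) := by
    intro x γ hx
    obtain ⟨γ0, h1⟩ := hSS false
    obtain ⟨γ1, h2⟩ := hSS true
    have hne : γ0 ≠ γ1 := by
      intro h
      rw [h] at h1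
      have := σ.injective (h1.trans h2.symm)
      simp at this
    have : γ = γ0 ∨ γ = γ1 := r9_bool2 _ _ _ hne
    rcases this with h | h
    · exact ⟨false, σ.injective (by rw [hx, h1, h])⟩
    · exact ⟨true, σ.injective (by rw [hx, h2, h])⟩
  -- the classes
  let InA : ℤ → Prop := fun t => ∃ i β, V ∣ r9_col q r (σ (some (Sum.inl (Sum.inl i), β))) - t
  let InB : ℤ → Prop := fun t => ∃ i β, V ∣ r9_col q r (σ (some (Sum.inl (Sum.inr i), β))) - t
  have F1 : ∀ t : ℤ, 3 ∣ t → ¬ V ∣ t - r → InA t ∨ InB t := by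
    intro t ht htr
    obtain ⟨x, hx⟩ := hsurj t
    rcases x with _ | ⟨(i | i) | u, β⟩
    · exfalso
      rw [h0] at hx
      have := r9_three hx
      rw [r9_col_none] at this
      clear hx h0 hσ hσ' hinj hsurj hSS hSinv
      omega
    · exact Or.inl ⟨i, β, hx⟩
    · exact Or.inr ⟨i, β, hx⟩
    · exfalso
      obtain ⟨γ, hγ⟩ := hSS β
      have hx' : V ∣ r9_col q r (σ (some (Sum.inr (), β))) - t := hx
      rw [hγ] at hx'
      cases γ
      · apply htr
        rw [← dvd_neg]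
        rw [r9_col_Sf] at hx'
        have e : -(t - r) = r - t := by ring
        rwa [e]
      · have := r9_three hx'
        rw [r9_col_St] at this
        clear hx' hx h0 hσ hσ' hinj hsurj hSS hSinv
        omega
  have F2 : ∀ t, InA t → InA (-t) := by
    rintro t ⟨i, β, h⟩
    have h' := hσ' (Sum.inl (Sum.inl i))
    simp only [r9_s] at h'
    cases β
    · refine ⟨i, true, ?_⟩
      have := dvd_sub h' h
      have e : r9_col q r (σ (some (Sum.inl (Sum.inl i), false))) +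
        r9_col q r (σ (some (Sum.inl (Sum.inl i), true))) - 0 -
        (r9_col q r (σ (some (Sum.inl (Sum.inl i), false))) - t) =
        r9_col q r (σ (some (Sum.inl (Sum.inl i), true))) - -t := by ring
      rwa [e] at this
    · refine ⟨i, false, ?_⟩
      have := dvd_sub h' h
      have e : r9_col q r (σ (some (Sum.inl (Sum.inl i), false))) +
        r9_col q r (σ (some (Sum.inl (Sum.inl i), true))) - 0 -
        (r9_col q r (σ (some (Sum.inl (Sum.inl i), true))) - t) =
        r9_col q r (σ (some (Sum.inl (Sum.inl i), false))) - -t := by ring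
      rwa [e] at this
  have F3 : ∀ t, InB t → InB (2 * r - t) := by
    rintro t ⟨i, β, h⟩
    have h' := hσ' (Sum.inl (Sum.inr i))
    simp only [r9_s] at h'
    cases β
    · refine ⟨i, true, ?_⟩
      have := dvd_sub h' h
      have e : r9_col q r (σ (some (Sum.inl (Sum.inr i), false))) +
        r9_col q r (σ (some (Sum.inl (Sum.inr i), true))) - 2 * r -
        (r9_col q r (σ (some (Sum.inl (Sum.inr i), false))) - t) =
        r9_col q r (σ (some (Sum.inl (Sum.inr i), true))) - (2 * r - t) := by ring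
      rwa [e] at this
    · refine ⟨i, false, ?_⟩
      have := dvd_sub h' h
      have e : r9_col q r (σ (some (Sum.inl (Sum.inr i), false))) +
        r9_col q r (σ (some (Sum.inl (Sum.inr i), true))) - 2 * r -
        (r9_col q r (σ (some (Sum.inl (Sum.inr i), true))) - t) =
        r9_col q r (σ (some (Sum.inl (Sum.inr i), false))) - (2 * r - t) := by ring
      rwa [e] at this
  have F4 : ∀ t, InA t → InB t → False := by
    rintro t ⟨i, β, h1⟩ ⟨j, γ, h2⟩
    have h4 := dvd_sub h1 h2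
    rw [sub_sub_sub_cancel_right] at h4
    have := σ.injective (hinj _ _ h4)
    simp at this
  have F5 : ¬ InA 0 := by
    rintro ⟨i, β, h1⟩
    have h' := hσ' (Sum.inl (Sum.inl i))
    simp only [r9_s] at h'
    have h2 : V ∣ r9_col q r (σ (some (Sum.inl (Sum.inl i), false))) -
        r9_col q r (σ (some (Sum.inl (Sum.inl i), true))) := by
      cases β
      · have := dvd_sub (dvd_add h1 h1) h'
        have e : r9_col q r (σ (some (Sum.inl (Sum.inl i), false))) - 0 +
          (r9_col q r (σ (some (Sum.inl (Sum.inl i), false))) - 0) -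
          (r9_col q r (σ (some (Sum.inl (Sum.inl i), false))) +
            r9_col q r (σ (some (Sum.inl (Sum.inl i), true))) - 0) =
          r9_col q r (σ (some (Sum.inl (Sum.inl i), false))) -
            r9_col q r (σ (some (Sum.inl (Sum.inl i), true))) := by ring
        rwa [e] at this
      · have := dvd_sub h' (dvd_add h1 h1)
        have e : (r9_col q r (σ (some (Sum.inl (Sum.inl i), false))) +
            r9_col q r (σ (some (Sum.inl (Sum.inl i), true))) - 0) -
            (r9_col q r (σ (some (Sum.inl (Sum.inl i), true))) - 0 +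
          (r9_col q r (σ (some (Sum.inl (Sum.inl i), true))) - 0)) =
          r9_col q r (σ (some (Sum.inl (Sum.inl i), false))) -
            r9_col q r (σ (some (Sum.inl (Sum.inl i), true))) := by ring
        rwa [e] at this
    have := σ.injective (hinj _ _ h2)
    simp at this
  have F6 : ∀ s t : ℤ, V ∣ s - t → InB s → InB t := by
    rintro s t hst ⟨i, β, h1⟩
    refine ⟨i, β, ?_⟩
    have := dvd_add h1 hst
    rwa [sub_add_sub_cancel] at this
  have hB := r9_inB q h3 r h3r hwr InA InB F1 F2 F3 F4 F5 F6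
  have lB : ∀ (k : Fin q) (β : Bool), InB (r9_col q r (some (Sum.inl (Sum.inr k), β))) := by
    intro k β
    have hk := k.2
    have hc3 : IsCoprime (2 * (q : ℤ) + 1) (3 : ℤ) := by
      have h : Nat.Coprime 3 (2 * q + 1) := (Nat.Prime.coprime_iff_not_dvd Nat.prime_three).2 h3
      have := Nat.isCoprime_iff_coprime.2 h
      push_cast at this
      exact this.symm
    have hw : ¬ (2 * (q : ℤ) + 1) ∣ 3 * (((k : ℕ) : ℤ) + 1) := by
      intro h
      have h1 := hc3.dvd_of_dvd_mul_left h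
      have := Int.le_of_dvd (by omega) h1
      omega
    cases β
    · apply hB
      · simp only [r9_col]; omega
      · intro h
        apply hw
        simp only [r9_col] at h
        have := dvd_sub hwr h
        have e : r - 1 - (r - 3 * (((k : ℕ) : ℤ) + 1) - 1) = 3 * (((k : ℕ) : ℤ) + 1) := by ring
        rwa [e] at this
    · apply hB
      · simp only [r9_col]; omega
      · intro h
        apply hw
        simp only [r9_col] at h
        have := dvd_sub h hwr
        have e : r + 3 * (((k : ℕ) : ℤ) + 1) - 1 - (r - 1) = 3 * (((k : ℕ) : ℤ) + 1) := by ring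
        rwa [e] at this
  have kA : ∀ p : Fin (2 * q) × Bool, ∃ p' : Fin (2 * q) × Bool,
      σ (some (Sum.inl (Sum.inl p.1), p.2)) = some (Sum.inl (Sum.inl p'.1), p'.2) := by
    rintro ⟨i, β⟩
    have hm : InA (r9_col q r (σ (some (Sum.inl (Sum.inl i), β)))) := ⟨i, β, by simp⟩
    rcases hx : σ (some (Sum.inl (Sum.inl i), β)) with _ | ⟨(k | k) | u, t⟩
    · exfalso
      rw [← h0] at hx
      have := σ.injective hx
      simp at this
    · exact ⟨(k, t), rfl⟩
    · exfalso
      rw [hx] at hm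
      exact F4 _ hm (lB k t)
    · exfalso
      obtain ⟨β', hβ'⟩ := hSinv _ t hx
      simp at hβ'
  choose f hf using kA
  have finj : Function.Injective f := by
    intro a b hab
    have h1 := hf a
    rw [hab, ← hf b] at h1
    have := σ.injective h1
    simp only [Option.some.injEq, Prod.mk.injEq, Sum.inl.injEq] at this
    exact Prod.ext this.1 this.2
  have fsurj := Finite.surjective_of_injective finj
  have kB : ∀ (i : Fin q) (β : Bool), ∃ (k : Fin q) (γ : Bool),
      σ (some (Sum.inl (Sum.inr i), β)) = some (Sum.inl (Sum.inr k), γ) := by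
    intro i β
    rcases hx : σ (some (Sum.inl (Sum.inr i), β)) with _ | ⟨(k | k) | u, t⟩
    · exfalso
      rw [← h0] at hx
      have := σ.injective hx
      simp at this
    · exfalso
      obtain ⟨p, hp⟩ := fsurj (k, t)
      have h1 := hf p
      rw [hp, ← hx] at h1
      have := σ.injective h1
      simp at this
    · exact ⟨k, t, rfl⟩
    · exfalso
      obtain ⟨β', hβ'⟩ := hSinv _ t hx
      simp at hβ'
  have eA : ∀ i : Fin (2 * q), ∃ (k : Fin (2 * q)) (γ : Bool), ∀ β,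
      σ (some (Sum.inl (Sum.inl i), β)) = some (Sum.inl (Sum.inl k), xor β γ) := by
    intro i
    have h1 := hf (i, false)
    have h2 := hf (i, true)
    generalize f (i, false) = p1 at h1
    generalize f (i, true) = p2 at h2
    obtain ⟨k, γ⟩ := p1
    obtain ⟨l, δ⟩ := p2
    simp only at h1 h2
    have h := hσ' (Sum.inl (Sum.inl i))
    rw [h1, h2] at h
    refine ⟨k, γ, fun β => ?_⟩
    have h4 : l = k ∧ δ = !γ := r9_pairA q r k l γ δ h
    cases β
    · rw [h1]; simp
    · rw [h2, h4.1, h4.2]; simp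
  have eB : ∀ i : Fin q, ∃ (k : Fin q) (γ : Bool), ∀ β,
      σ (some (Sum.inl (Sum.inr i), β)) = some (Sum.inl (Sum.inr k), xor β γ) := by
    intro i
    obtain ⟨k, γ, h1⟩ := kB i false
    obtain ⟨l, δ, h2⟩ := kB i true
    have h := hσ' (Sum.inl (Sum.inr i))
    rw [h1, h2] at h
    refine ⟨k, γ, fun β => ?_⟩
    have h4 : l = k ∧ δ = !γ := r9_pairB q r k l γ δ h
    cases β
    · rw [h1]; simp
    · rw [h2, h4.1, h4.2]; simp
  have eS : ∃ γ : Bool, ∀ β, σ (some (Sum.inr (), β)) = some (Sum.inr (), xor β γ) := by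
    obtain ⟨γ0, h1⟩ := hSS false
    obtain ⟨γ1, h2⟩ := hSS true
    have hne : γ0 ≠ γ1 := by
      intro h
      rw [h] at h1
      have := σ.injective (h1.trans h2.symm)
      simp at this
    have hγ : γ1 = !γ0 := r9_bool1 _ _ (fun h => hne h.symm)
    refine ⟨γ0, fun β => ?_⟩
    cases β
    · rw [h1]; simp
    · rw [h2, hγ]; simp
  choose π ε hπ using eA
  choose ρ δ hρ using eB
  obtain ⟨θ, hθ⟩ := eS
  have iπ : Function.Injective π := by
    intro i j hij
    have h : σ (some (Sum.inl (Sum.inl i), false)) =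
        σ (some (Sum.inl (Sum.inl j), xor (ε i) (ε j))) := by
      rw [hπ, hπ, hij]
      cases ε i <;> cases ε j <;> rfl
    have := σ.injective h
    simp at this
    exact this.1
  have iρ : Function.Injective ρ := by
    intro i j hij
    have h : σ (some (Sum.inl (Sum.inr i), false)) =
        σ (some (Sum.inl (Sum.inr j), xor (δ i) (δ j))) := by
      rw [hρ, hρ, hij]
      cases δ i <;> cases δ j <;> rfl
    have := σ.injective h
    simp at this
    exact this.1
  refine ⟨Equiv.ofBijective π (Finite.injective_iff_bijective.1 iπ),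
    Equiv.ofBijective ρ (Finite.injective_iff_bijective.1 iρ),
    Sum.elim (Sum.elim ε δ) (fun _ => θ), h0, fun i β => ?_⟩
  rcases i with (i | i) | u
  · exact hπ i β
  · exact hρ i β
  · exact hθ β


/-- r9: the flip permutation of `Bool` -/
def r9_flip (t : Bool) : Equiv.Perm Bool := if t then Equiv.swap false true else 1

theorem r9_flip_apply (t s : Bool) : r9_flip t s = xor s t := by
  cases t <;> cases s <;> simp [r9_flip]

theorem r9_flip_sign (t : Bool) : Equiv.Perm.sign (r9_flip t) = if t then -1 else 1 := by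
  cases t
  · simp [r9_flip]
  · simp only [r9_flip, if_true]
    exact Equiv.Perm.sign_swap (by decide)

/-- r9: a permutation of the rows with flips -/
def r9_bp {ι : Type*} [DecidableEq ι] (τ : Equiv.Perm ι) (ε : ι → Bool) :
    Equiv.Perm (Option (ι × Bool)) :=
  Equiv.optionCongr ((Equiv.prodCongrLeft (fun _ : Bool => τ)) *
    (Equiv.prodCongrRight (fun i => r9_flip (ε i))) : Equiv.Perm (ι × Bool))

theorem r9_bp_none {ι : Type*} [DecidableEq ι] (τ : Equiv.Perm ι) (ε : ι → Bool) :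
    r9_bp τ ε none = none := rfl

theorem r9_bp_some {ι : Type*} [DecidableEq ι] (τ : Equiv.Perm ι) (ε : ι → Bool) (i : ι)
    (β : Bool) : r9_bp τ ε (some (i, β)) = some (τ i, xor β (ε i)) := by
  simp [r9_bp, r9_flip_apply]

theorem r9_bp_sign {ι : Type*} [Fintype ι] [DecidableEq ι] (τ : Equiv.Perm ι) (ε : ι → Bool) :
    ((Equiv.Perm.sign (r9_bp τ ε) : ℤˣ) : ℤ) = ∏ i, (if ε i then (-1 : ℤ) else 1) := by
  unfold r9_bp
  rw [Equiv.optionCongr_sign, Equiv.Perm.sign_mul, Equiv.Perm.sign_prodCongrLeft,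
    Equiv.Perm.sign_prodCongrRight]
  simp only [Fintype.prod_bool, Int.units_mul_self, one_mul, r9_flip_sign]
  push_cast
  apply Finset.prod_congr rfl
  intro i _
  split_ifs <;> simp [*]

theorem r9_zeta {K : Type*} [Field K] (v : ℕ) [NeZero v] (ζ : K) (hζ : IsPrimitiveRoot ζ v)
    (m : ℤ) : ζ ^ ((m : ZMod v)).val = ζ ^ m := by
  have h1 : (((m : ZMod v).val : ℤ)) ≡ m [ZMOD v] := by
    rw [← ZMod.intCast_eq_intCast_iff]
    simp
  have h0 : ζ ≠ 0 := hζ.ne_zero (NeZero.ne v)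
  rw [← zpow_natCast]
  obtain ⟨k, hk⟩ := (Int.modEq_iff_dvd.1 h1)
  have h2 : m = ((m : ZMod v).val : ℤ) + v * k := by linarith
  conv_rhs => rw [h2]
  rw [zpow_add₀ h0, zpow_mul, zpow_natCast ζ v, hζ.pow_eq_one, one_zpow, mul_one]

theorem r9_sum_flip {K : Type*} [Field K] {ι : Type*} [Fintype ι] [DecidableEq ι]
    (g : ι → Bool → K) :
    ∑ ε : ι → Bool, ∏ k, g k (ε k) = ∏ k, (g k true + g k false) := by
  have h := Finset.prod_univ_sum (fun _ : ι => (Finset.univ : Finset Bool)) g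
  rw [Fintype.piFinset_univ] at h
  rw [← h]
  simp

/-- r9: the term of a permutation -/
noncomputable def r9_F {K : Type*} [Field K] (q : ℕ) (r : ℤ) (ζ : K)
    (lab : r9_I q → ZMod (2 * (3 * q + 1) + 1)) (σ : Equiv.Perm (Option (r9_I q × Bool))) : K :=
  ((Equiv.Perm.sign σ : ℤ) : K) *
    ∏ i, ζ ^ (((r9_col q r (σ (some (i, true))) : ℤ) : ZMod (2 * (3 * q + 1) + 1)) * lab i).val

/-- r9: a permutation satisfying the sum conditions -/
def r9_V (q : ℕ) (r : ℤ) (σ : Equiv.Perm (Option (r9_I q × Bool))) : Prop :=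
  ∀ i, ((r9_col q r (σ (some (i, false))) : ℤ) : ZMod (2 * (3 * q + 1) + 1)) +
    ((r9_col q r (σ (some (i, true))) : ℤ) : ZMod (2 * (3 * q + 1) + 1)) =
      ((r9_s q r i : ℤ) : ZMod (2 * (3 * q + 1) + 1))

/-- r9: the element one is in the special row -/
def r9_G (q : ℕ) (σ : Equiv.Perm (Option (r9_I q × Bool))) : Prop :=
  ∃ β, σ (some (Sum.inr (), β)) = some (Sum.inr (), true)

/-- r9: the row of a point -/
def r9_row {q : ℕ} : Option (r9_I q × Bool) → r9_I q
  | none => Sum.inr ()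
  | some (i, _) => i

/-- r9: the flip of the row which contains the element one -/
def r9_inv (q : ℕ) (σ : Equiv.Perm (Option (r9_I q × Bool))) :
    Equiv.Perm (Option (r9_I q × Bool)) :=
  σ * Equiv.swap (some (r9_row (σ.symm (some (Sum.inr (), true))), false))
    (some (r9_row (σ.symm (some (Sum.inr (), true))), true))

theorem r9_bad_row (q : ℕ) (r : ℤ) (h3r : (3 : ℤ) ∣ r)
    (σ : Equiv.Perm (Option (r9_I q × Bool))) (hσ : r9_V q r σ) (hG : ¬ r9_G q σ) :
    ∃ (i : Fin q) (β : Bool), σ (some (Sum.inl (Sum.inr i), β)) = some (Sum.inr (), true) := by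
  have h0 : σ none = none := by
    refine r9_hole (fun x => ((r9_col q r x : ℤ) : ZMod (2 * (3 * q + 1) + 1)))
      (fun x y h => r9_inj q r h3r x y h)
      (fun i => ((r9_s q r i : ℤ) : ZMod (2 * (3 * q + 1) + 1))) (fun i => ?_) σ hσ
    rw [← Int.cast_add, r9_id]
  obtain ⟨x, hx⟩ := σ.surjective (some (Sum.inr (), true))
  rcases x with _ | ⟨(i | i) | u, β⟩
  · rw [h0] at hx
    simp at hx
  · exfalso
    have h := hσ (Sum.inl (Sum.inl i))
    have h1 : σ (some (Sum.inl (Sum.inl i), !β)) = none := by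
      apply r9_inj q r h3r
      cases β
      · rw [hx] at h
        simp only [r9_col_St, r9_s, r9_col_none, Bool.not_false] at h ⊢
        push_cast at h ⊢
        linear_combination h
      · rw [hx] at h
        simp only [r9_col_St, r9_s, r9_col_none, Bool.not_true] at h ⊢
        push_cast at h ⊢
        linear_combination h
    rw [← h0] at h1
    have := σ.injective h1
    simp at this
  · exact ⟨i, β, hx⟩
  · exact absurd ⟨β, hx⟩ hG

theorem r9_inv_row (q : ℕ) (σ : Equiv.Perm (Option (r9_I q × Bool))) (R : r9_I q) (β : Bool)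
    (h : σ (some (R, β)) = some (Sum.inr (), true)) :
    r9_inv q σ = σ * Equiv.swap (some (R, false)) (some (R, true)) := by
  have h1 : σ.symm (some (Sum.inr (), true)) = some (R, β) := by
    rw [Equiv.symm_apply_eq, h]
  rw [r9_inv, h1, r9_row]

theorem r9_inv_apply (q : ℕ) (σ : Equiv.Perm (Option (r9_I q × Bool))) (R : r9_I q) (β : Bool)
    (h : σ (some (R, β)) = some (Sum.inr (), true)) :
    r9_inv q σ (some (R, !β)) = some (Sum.inr (), true) := by
  rw [r9_inv_row q σ R β h, Equiv.Perm.mul_apply]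
  cases β
  · simp only [Bool.not_false, Equiv.swap_apply_right]; exact h
  · simp only [Bool.not_true, Equiv.swap_apply_left]; exact h

theorem r9_bad_sum {K : Type*} [Field K] (q : ℕ) (r : ℤ) (h3r : (3 : ℤ) ∣ r)
    (hwr : (2 * (q : ℤ) + 1) ∣ r - 1) (ζ : K) (lab : r9_I q → ℕ)
    (hlab : ∀ i : Fin q, 3 ∣ lab (Sum.inl (Sum.inr i)))
    (s : Finset (Equiv.Perm (Option (r9_I q × Bool))))
    (hs : ∀ σ, σ ∈ s ↔ r9_V q r σ ∧ ¬ r9_G q σ) :
    ∑ σ ∈ s, r9_F q r ζ (fun i => ((lab i : ℕ) : ZMod (2 * (3 * q + 1) + 1))) σ = 0 := by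
  have hval : ∀ σ, r9_V q r σ → ∀ (R : r9_I q) (i : Fin q) (β : Bool),
      R = Sum.inl (Sum.inr i) → σ (some (R, β)) = some (Sum.inr (), true) →
      ((r9_col q r (σ (some (R, true))) : ℤ) : ZMod (2 * (3 * q + 1) + 1)) * (lab R : ℕ) =
      ((r9_col q r (σ (some (R, false))) : ℤ) : ZMod (2 * (3 * q + 1) + 1)) * (lab R : ℕ) := by
    intro σ hσ R i β hR hx
    have h := hσ R
    rw [hR] at h hx ⊢
    simp only [r9_s] at h
    obtain ⟨k, hk⟩ := hlab i
    obtain ⟨l, hl⟩ := hwr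
    have hv : ((2 : ZMod (2 * (3 * q + 1) + 1)) * r - 2) *
        ((lab (Sum.inl (Sum.inr i)) : ℕ) : ZMod (2 * (3 * q + 1) + 1)) = 0 := by
      have h1 : (((2 * r - 2) * ((lab (Sum.inl (Sum.inr i)) : ℕ) : ℤ) : ℤ) :
          ZMod (2 * (3 * q + 1) + 1)) = ((0 : ℤ) : ZMod (2 * (3 * q + 1) + 1)) := by
        apply r9_of_vdvd
        refine ⟨2 * l * k, ?_⟩
        rw [hk]
        push_cast
        linear_combination (2 * 3 * (k : ℤ)) * hl
      push_cast at h1
      exact h1
    cases β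
    · rw [hx] at h ⊢
      simp only [r9_col_St] at h ⊢
      push_cast at h ⊢
      linear_combination ((lab (Sum.inl (Sum.inr i)) : ℕ) : ZMod (2 * (3 * q + 1) + 1)) * h + hv
    · rw [hx] at h ⊢
      simp only [r9_col_St] at h ⊢
      push_cast at h ⊢
      linear_combination -((lab (Sum.inl (Sum.inr i)) : ℕ) : ZMod (2 * (3 * q + 1) + 1)) * h - hv
  have hVinv : ∀ σ (R : r9_I q), r9_V q r σ →
      r9_V q r (σ * Equiv.swap (some (R, false)) (some (R, true))) := by
    intro σ R hσ i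
    by_cases hi : i = R
    · subst hi
      simp only [Equiv.Perm.mul_apply, Equiv.swap_apply_left, Equiv.swap_apply_right]
      exact (add_comm _ _).trans (hσ i)
    · rw [Equiv.Perm.mul_apply, Equiv.Perm.mul_apply,
        Equiv.swap_apply_of_ne_of_ne (by simp [hi]) (by simp [hi]),
        Equiv.swap_apply_of_ne_of_ne (by simp [hi]) (by simp [hi])]
      exact hσ i
  refine Finset.sum_involution (fun σ _ => r9_inv q σ) ?_ ?_ ?_ ?_
  · intro σ hσ
    obtain ⟨hV, hG⟩ := (hs σ).1 hσ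
    obtain ⟨i, β, hx⟩ := r9_bad_row q r h3r σ hV hG
    rw [r9_inv_row q σ _ β hx]
    have hv := hval σ hV _ i β rfl hx
    have hprod : ∏ j : r9_I q, ζ ^ (((r9_col q r ((σ * Equiv.swap
        (some ((Sum.inl (Sum.inr i) : r9_I q), false))
        (some ((Sum.inl (Sum.inr i) : r9_I q), true)) :
          Equiv.Perm (Option (r9_I q × Bool))) (some (j, true))) : ℤ) :
          ZMod (2 * (3 * q + 1) + 1)) * ((lab j : ℕ) : ZMod (2 * (3 * q + 1) + 1))).val =
        ∏ j : r9_I q, ζ ^ (((r9_col q r (σ (some (j, true))) : ℤ) :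
          ZMod (2 * (3 * q + 1) + 1)) * ((lab j : ℕ) : ZMod (2 * (3 * q + 1) + 1))).val := by
      apply Finset.prod_congr rfl
      intro j _
      by_cases hj : j = Sum.inl (Sum.inr i)
      · subst hj
        rw [Equiv.Perm.mul_apply, Equiv.swap_apply_right, hv]
      · rw [Equiv.Perm.mul_apply, Equiv.swap_apply_of_ne_of_ne (by simp [hj]) (by simp [hj])]
    unfold r9_F
    rw [hprod, Equiv.Perm.sign_mul, Equiv.Perm.sign_swap (by simp)]
    push_cast
    ring
  · intro σ hσ _ heq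
    obtain ⟨hV, hG⟩ := (hs σ).1 hσ
    obtain ⟨i, β, hx⟩ := r9_bad_row q r h3r σ hV hG
    rw [r9_inv_row q σ _ β hx] at heq
    have h1 := congrArg (fun τ : Equiv.Perm (Option (r9_I q × Bool)) =>
      τ (some (Sum.inl (Sum.inr i), false))) heq
    simp only [Equiv.Perm.mul_apply, Equiv.swap_apply_left] at h1
    have := σ.injective h1
    simp at this
  · intro σ hσ
    obtain ⟨hV, hG⟩ := (hs σ).1 hσ
    obtain ⟨i, β, hx⟩ := r9_bad_row q r h3r σ hV hG
    rw [hs]
    have hx' := r9_inv_apply q σ _ β hx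
    refine ⟨?_, ?_⟩
    · rw [r9_inv_row q σ _ β hx]
      exact hVinv σ _ hV
    · rintro ⟨γ, hγ⟩
      have := (r9_inv q σ).injective (hx'.trans hγ.symm)
      simp at this
  · intro σ hσ
    obtain ⟨hV, hG⟩ := (hs σ).1 hσ
    obtain ⟨i, β, hx⟩ := r9_bad_row q r h3r σ hV hG
    have hx' := r9_inv_apply q σ _ β hx
    rw [r9_inv_row q (r9_inv q σ) _ _ hx', r9_inv_row q σ _ β hx, mul_assoc, Equiv.swap_mul_self,
      mul_one]


/-- r9: the permutation of the rows -/
abbrev r9_tau (q : ℕ) (π : Equiv.Perm (Fin (2 * q))) (ρ : Equiv.Perm (Fin q)) :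
    Equiv.Perm (r9_I q) :=
  Equiv.sumCongr (Equiv.sumCongr π ρ) (Equiv.refl Unit)

theorem r9_good_sum {K : Type*} [Field K] (q : ℕ) (h3 : ¬ 3 ∣ 2 * q + 1) (r : ℤ)
    (h3r : (3 : ℤ) ∣ r) (hwr : (2 * (q : ℤ) + 1) ∣ r - 1) (ζ : K)
    (lab : r9_I q → ZMod (2 * (3 * q + 1) + 1))
    (s : Finset (Equiv.Perm (Option (r9_I q × Bool))))
    (hs : ∀ σ, σ ∈ s ↔ r9_V q r σ ∧ r9_G q σ) :
    ∑ σ ∈ s, r9_F q r ζ lab σ =
      ∑ p : (Equiv.Perm (Fin (2 * q)) × Equiv.Perm (Fin q)) × (r9_I q → Bool),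
        r9_F q r ζ lab (r9_bp (r9_tau q p.1.1 p.1.2) p.2) := by
  symm
  apply Finset.sum_nbij (fun p => r9_bp (r9_tau q p.1.1 p.1.2) p.2)
  · rintro ⟨⟨π, ρ⟩, ε⟩ _
    rw [hs]
    refine ⟨?_, ?_⟩
    · rintro ((k | k) | u)
      · simp only [r9_bp_some, r9_s, Equiv.sumCongr_apply, Sum.map_inl]
        cases hε : ε (Sum.inl (Sum.inl k)) <;> simp [r9_col]
      · simp only [r9_bp_some, r9_s, Equiv.sumCongr_apply, Sum.map_inl, Sum.map_inr]
        cases hε : ε (Sum.inl (Sum.inr k)) <;> (simp [r9_col]; ring)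
      · simp only [r9_bp_some, r9_s, Equiv.sumCongr_apply, Sum.map_inr]
        cases hε : ε (Sum.inr u) <;> simp [r9_col] <;> ring
    · refine ⟨!(ε (Sum.inr ())), ?_⟩
      rw [r9_bp_some]
      simp
  · rintro ⟨⟨π, ρ⟩, ε⟩ _ ⟨⟨π', ρ'⟩, ε'⟩ _ h
    simp only at h
    have h1 : ∀ i β, (some (r9_tau q π ρ i, xor β (ε i)) : Option (r9_I q × Bool)) =
        some (r9_tau q π' ρ' i, xor β (ε' i)) := by
      intro i β
      rw [← r9_bp_some, ← r9_bp_some, h]
    have h2 : ∀ i, r9_tau q π ρ i = r9_tau q π' ρ' i ∧ ε i = ε' i := by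
      intro i
      have := h1 i false
      simpa using this
    simp only [Prod.mk.injEq]
    refine ⟨⟨Equiv.ext fun k => ?_, Equiv.ext fun k => ?_⟩, funext fun i => (h2 i).2⟩
    · have := (h2 (Sum.inl (Sum.inl k))).1
      simpa using this
    · have := (h2 (Sum.inl (Sum.inr k))).1
      simpa using this
  · intro σ hσ
    rw [Finset.mem_coe, hs] at hσ
    obtain ⟨hV, hG⟩ := hσ
    obtain ⟨π, ρ, ε, h0, h⟩ := r9_structure q h3 r h3r hwr σ
      (fun i => by rw [Int.cast_add]; exact hV i) hG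
    refine ⟨⟨⟨π, ρ⟩, ε⟩, by simp, ?_⟩
    ext1 x
    rcases x with _ | ⟨i, β⟩
    · exact h0.symm
    · exact (r9_bp_some _ _ i β).trans (h i β).symm
  · rintro ⟨⟨π, ρ⟩, ε⟩ _
    rfl

theorem r9_F_bp {K : Type*} [Field K] (q : ℕ) (r : ℤ) (ζ : K)
    (hζ : IsPrimitiveRoot ζ (2 * (3 * q + 1) + 1)) (lab : r9_I q → ℕ)
    (τ : Equiv.Perm (r9_I q)) (ε : r9_I q → Bool) :
    r9_F q r ζ (fun i => ((lab i : ℕ) : ZMod (2 * (3 * q + 1) + 1))) (r9_bp τ ε) =
      ∏ i, ((if ε i then (-1 : K) else 1) * ζ ^ (r9_col q r (some (τ i, !(ε i))) * (lab i : ℤ))) := by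
  unfold r9_F
  rw [r9_bp_sign, Finset.prod_mul_distrib]
  congr 1
  · rw [Int.cast_prod]
    exact Finset.prod_congr rfl (fun i _ => by split_ifs <;> simp)
  · apply Finset.prod_congr rfl
    intro i _
    rw [r9_bp_some, Bool.true_xor]
    have e : ((r9_col q r (some (τ i, !(ε i))) : ℤ) : ZMod (2 * (3 * q + 1) + 1)) *
        ((lab i : ℕ) : ZMod (2 * (3 * q + 1) + 1)) =
        ((r9_col q r (some (τ i, !(ε i))) * (lab i : ℤ) : ℤ) : ZMod (2 * (3 * q + 1) + 1)) := by
      push_cast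
      ring
    rw [e, r9_zeta _ _ hζ]

theorem r9_eval {K : Type*} [Field K] (q : ℕ) (r : ℤ) (ζ : K)
    (hζ : IsPrimitiveRoot ζ (2 * (3 * q + 1) + 1)) (e : Fin (2 * q) → ℕ) (b : Fin q → ℕ) (d : ℕ) :
    ∑ p : (Equiv.Perm (Fin (2 * q)) × Equiv.Perm (Fin q)) × (r9_I q → Bool),
        r9_F q r ζ (fun i => (((Sum.elim (Sum.elim e b) (fun _ => d) : r9_I q → ℕ) i : ℕ) :
          ZMod (2 * (3 * q + 1) + 1))) (r9_bp (r9_tau q p.1.1 p.1.2) p.2) =
      ((∏ i, ζ ^ (r * (b i : ℤ))) * (ζ ^ (d : ℤ) - ζ ^ (r * (d : ℤ)))) *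
      ((∑ π : Equiv.Perm (Fin (2 * q)), ∏ i, (ζ ^ ((3 * ((π i : ℕ) + 1) + 1) * e i) -
        (ζ⁻¹) ^ ((3 * ((π i : ℕ) + 1) + 1) * e i))) *
      (∑ π : Equiv.Perm (Fin q), ∏ i, (ζ ^ ((3 * ((π i : ℕ) + 1)) * b i) -
        (ζ⁻¹) ^ ((3 * ((π i : ℕ) + 1)) * b i)))) := by
  have hz : ζ ≠ 0 := hζ.ne_zero (by omega)
  rw [Fintype.sum_prod_type]
  have h1 : ∀ p : Equiv.Perm (Fin (2 * q)) × Equiv.Perm (Fin q),
      ∑ ε : r9_I q → Bool, r9_F q r ζ
        (fun i => (((Sum.elim (Sum.elim e b) (fun _ => d) : r9_I q → ℕ) i : ℕ) :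
          ZMod (2 * (3 * q + 1) + 1))) (r9_bp (r9_tau q p.1 p.2) ε) =
      ((∏ i, ζ ^ (r * (b i : ℤ))) * (ζ ^ (d : ℤ) - ζ ^ (r * (d : ℤ)))) *
      ((∏ i, (ζ ^ ((3 * ((p.1 i : ℕ) + 1) + 1) * e i) -
        (ζ⁻¹) ^ ((3 * ((p.1 i : ℕ) + 1) + 1) * e i))) *
      (∏ i, (ζ ^ ((3 * ((p.2 i : ℕ) + 1)) * b i) -
        (ζ⁻¹) ^ ((3 * ((p.2 i : ℕ) + 1)) * b i)))) := by
    rintro ⟨π, ρ⟩
    simp only [r9_F_bp q r ζ hζ]
    rw [r9_sum_flip (fun (i : r9_I q) (t : Bool) => (if t then (-1 : K) else 1) *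
      ζ ^ (r9_col q r (some (r9_tau q π ρ i, !t)) *
        (((Sum.elim (Sum.elim e b) (fun _ => d) : r9_I q → ℕ) i : ℕ) : ℤ)))]
    rw [Fintype.prod_sum_type, Fintype.prod_sum_type]
    have hA : ∀ i : Fin (2 * q), (if true = true then (-1 : K) else 1) *
        ζ ^ (r9_col q r (some (r9_tau q π ρ (Sum.inl (Sum.inl i)), !true)) *
        (((Sum.elim (Sum.elim e b) (fun _ => d) : r9_I q → ℕ) (Sum.inl (Sum.inl i)) : ℕ) : ℤ)) +
        (if false = true then (-1 : K) else 1) *
        ζ ^ (r9_col q r (some (r9_tau q π ρ (Sum.inl (Sum.inl i)), !false)) *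
        (((Sum.elim (Sum.elim e b) (fun _ => d) : r9_I q → ℕ) (Sum.inl (Sum.inl i)) : ℕ) : ℤ)) =
        ζ ^ ((3 * ((π i : ℕ) + 1) + 1) * e i) - (ζ⁻¹) ^ ((3 * ((π i : ℕ) + 1) + 1) * e i) := by
      intro i
      simp only [Equiv.sumCongr_apply, Sum.map_inl, Sum.elim_inl, Bool.not_true, Bool.not_false,
        r9_col, if_true, Bool.false_eq_true, if_false, one_mul]
      rw [inv_pow, ← zpow_natCast ζ, ← zpow_neg]
      push_cast
      ring_nf
    have hB : ∀ i : Fin q, (if true = true then (-1 : K) else 1) *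
        ζ ^ (r9_col q r (some (r9_tau q π ρ (Sum.inl (Sum.inr i)), !true)) *
        (((Sum.elim (Sum.elim e b) (fun _ => d) : r9_I q → ℕ) (Sum.inl (Sum.inr i)) : ℕ) : ℤ)) +
        (if false = true then (-1 : K) else 1) *
        ζ ^ (r9_col q r (some (r9_tau q π ρ (Sum.inl (Sum.inr i)), !false)) *
        (((Sum.elim (Sum.elim e b) (fun _ => d) : r9_I q → ℕ) (Sum.inl (Sum.inr i)) : ℕ) : ℤ)) =
        ζ ^ (r * (b i : ℤ)) * (ζ ^ ((3 * ((ρ i : ℕ) + 1)) * b i) -
          (ζ⁻¹) ^ ((3 * ((ρ i : ℕ) + 1)) * b i)) := by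
      intro i
      simp only [Equiv.sumCongr_apply, Sum.map_inl, Sum.map_inr, Sum.elim_inl, Sum.elim_inr,
        Bool.not_true, Bool.not_false, r9_col, if_true, Bool.false_eq_true, if_false, one_mul]
      rw [inv_pow, ← zpow_natCast ζ, ← zpow_neg, mul_sub, ← zpow_add₀ hz, ← zpow_add₀ hz]
      push_cast
      ring_nf
    have hC : ∀ i : Unit, (if true = true then (-1 : K) else 1) *
        ζ ^ (r9_col q r (some (r9_tau q π ρ (Sum.inr i), !true)) *
        (((Sum.elim (Sum.elim e b) (fun _ => d) : r9_I q → ℕ) (Sum.inr i) : ℕ) : ℤ)) +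
        (if false = true then (-1 : K) else 1) *
        ζ ^ (r9_col q r (some (r9_tau q π ρ (Sum.inr i), !false)) *
        (((Sum.elim (Sum.elim e b) (fun _ => d) : r9_I q → ℕ) (Sum.inr i) : ℕ) : ℤ)) =
        ζ ^ (d : ℤ) - ζ ^ (r * (d : ℤ)) := by
      intro i
      simp only [Equiv.sumCongr_apply, Sum.map_inr, Sum.elim_inr,
        Bool.not_true, Bool.not_false, r9_col, if_true, Bool.false_eq_true, if_false, one_mul]
      ring_nf
    rw [Finset.prod_congr rfl (fun i _ => hA i), Finset.prod_congr rfl (fun i _ => hB i),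
      Finset.prod_congr rfl (fun i _ => hC i), Finset.prod_mul_distrib]
    simp only [Finset.univ_unique, Finset.prod_const, Finset.card_singleton, pow_one]
    ring
  rw [Finset.sum_congr rfl (fun p _ => h1 p), ← Finset.mul_sum, Fintype.sum_prod_type]
  congr 1
  rw [Finset.sum_mul_sum]

set_option synthInstance.maxSize 4000 in
theorem fold_factor {K : Type*} [Field K] (q n m : ℕ) (h3 : ¬ 3 ∣ 2 * q + 1) (hn : n = 3 * q + 1)
    (hm : m = 2 * q) (ζ : K) (hζ : IsPrimitiveRoot ζ (2 * n + 1)) (d : ℕ) (hd : ¬ 3 ∣ d)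
    (b : Fin q → ℕ) (hb : ∀ i, 3 ∣ b i) (e : Fin m → ℕ)
    (hB : ∑ π : Equiv.Perm (Fin q), ∏ i, (ζ ^ ((3 * ((π i : ℕ) + 1)) * b i) -
      (ζ⁻¹) ^ ((3 * ((π i : ℕ) + 1)) * b i)) ≠ 0)
    (hA : ∑ π : Equiv.Perm (Fin m), ∏ i, (ζ ^ ((3 * ((π i : ℕ) + 1) + 1) * e i) -
      (ζ⁻¹) ^ ((3 * ((π i : ℕ) + 1) + 1) * e i)) ≠ 0)
    (L : Multiset ℕ) (hL : ∀ x ∈ L, 1 ≤ x ∧ x ≤ n)
    (hlab : Multiset.map e (Finset.univ : Finset (Fin m)).val +
      Multiset.map b (Finset.univ : Finset (Fin q)).val + {d} = L) :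
    Realizable n L := by
  subst hn hm
  set r : ℤ := 1 - (2 * (q : ℤ) + 1) ^ 2 with hr
  have hwr : (2 * (q : ℤ) + 1) ∣ r - 1 := ⟨-(2 * (q : ℤ) + 1), by rw [hr]; ring⟩
  have h3r : (3 : ℤ) ∣ r := by
    rcases (by omega : (2 * q + 1) % 3 = 1 ∨ (2 * q + 1) % 3 = 2) with h | h
    · obtain ⟨k, hk⟩ : ∃ k : ℕ, 2 * q + 1 = 3 * k + 1 := ⟨(2 * q + 1) / 3, by omega⟩
      have hk' : 2 * (q : ℤ) + 1 = 3 * k + 1 := by exact_mod_cast hk
      exact ⟨-(3 * (k : ℤ) ^ 2 + 2 * k), by rw [hr, hk']; ring⟩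
    · obtain ⟨k, hk⟩ : ∃ k : ℕ, 2 * q + 1 = 3 * k + 2 := ⟨(2 * q + 1) / 3, by omega⟩
      have hk' : 2 * (q : ℤ) + 1 = 3 * k + 2 := by exact_mod_cast hk
      exact ⟨-(3 * (k : ℤ) ^ 2 + 4 * k + 1), by rw [hr, hk']; ring⟩
  have hz : ζ ≠ 0 := hζ.ne_zero (by omega)
  have hne : ζ ^ (d : ℤ) - ζ ^ (r * (d : ℤ)) ≠ 0 := by
    intro h
    have h1 : ζ ^ ((d : ℤ) - r * (d : ℤ)) = 1 := by
      rw [zpow_sub₀ hz, sub_eq_zero.1 h]
      exact div_self (zpow_ne_zero _ hz)
    have h2 := (hζ.zpow_eq_one_iff_dvd _).1 h1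
    have h4 : (3 : ℤ) ∣ (d : ℤ) - r * (d : ℤ) :=
      dvd_trans ⟨2 * (q : ℤ) + 1, by push_cast; ring⟩ h2
    have h5 : (3 : ℤ) ∣ (d : ℤ) := by
      have := dvd_add h4 (dvd_mul_of_dvd_left h3r (d : ℤ))
      rwa [sub_add_cancel] at this
    exact hd (by exact_mod_cast h5)
  set lab : r9_I q → ℕ := Sum.elim (Sum.elim e b) (fun _ => d) with hlabdef
  have hdV : DecidablePred (fun σ : Equiv.Perm (Option (r9_I q × Bool)) => r9_V q r σ) :=
    Classical.decPred _
  have hdG : DecidablePred (fun σ : Equiv.Perm (Option (r9_I q × Bool)) => r9_G q σ) :=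
    Classical.decPred _
  have hmain : ∃ x : r9_I q → ZMod (2 * (3 * q + 1) + 1), Function.Injective
      (fun y : Option (r9_I q × Bool) => y.elim (0 : ZMod (2 * (3 * q + 1) + 1))
        (fun z => x z.1 + if z.2 then ((lab z.1 : ℕ) : ZMod (2 * (3 * q + 1) + 1)) else 0)) := by
    refine fourier_exists (2 * (3 * q + 1) + 1) ζ hζ (Equiv.ofBijective _ (r9_bij q r h3r))
      (fun i => ((lab i : ℕ) : ZMod (2 * (3 * q + 1) + 1)))
      (fun i => ((r9_s q r i : ℤ) : ZMod (2 * (3 * q + 1) + 1))) ?_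
    have hsum : ∑ σ : Equiv.Perm (Option (r9_I q × Bool)),
        (if ∀ i, (Equiv.ofBijective _ (r9_bij q r h3r)) (σ (some (i, false))) +
            (Equiv.ofBijective _ (r9_bij q r h3r)) (σ (some (i, true))) =
            (fun i => ((r9_s q r i : ℤ) : ZMod (2 * (3 * q + 1) + 1))) i then
          ((Equiv.Perm.sign σ : ℤ) : K) *
            ∏ i, ζ ^ ((Equiv.ofBijective _ (r9_bij q r h3r)) (σ (some (i, true))) *
              (fun i => ((lab i : ℕ) : ZMod (2 * (3 * q + 1) + 1))) i).val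
        else 0) =
        ∑ σ ∈ Finset.univ.filter (fun σ => r9_V q r σ), r9_F q r ζ
          (fun i => ((lab i : ℕ) : ZMod (2 * (3 * q + 1) + 1))) σ := by
      rw [Finset.sum_filter]
      apply Finset.sum_congr rfl
      intro σ _
      by_cases h : r9_V q r σ
      · rw [if_pos h]
        exact if_pos h
      · rw [if_neg h]
        exact if_neg h
    have hbad := r9_bad_sum q r h3r hwr ζ lab hb
      ((Finset.univ.filter (fun σ => r9_V q r σ)).filter (fun σ => ¬ r9_G q σ)) (fun σ => by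
        simp only [Finset.mem_filter, Finset.mem_univ, true_and])
    have hgood := r9_good_sum q h3 r h3r hwr ζ
      (fun i => ((lab i : ℕ) : ZMod (2 * (3 * q + 1) + 1)))
      ((Finset.univ.filter (fun σ => r9_V q r σ)).filter (fun σ => r9_G q σ)) (fun σ => by
        simp only [Finset.mem_filter, Finset.mem_univ, true_and])
    rw [hsum, ← Finset.sum_filter_add_sum_filter_not _ (fun σ => r9_G q σ), hbad, add_zero,
      hgood, r9_eval q r ζ hζ e b d]
    exact mul_ne_zero (mul_ne_zero (Finset.prod_ne_zero_iff.2 fun i _ => zpow_ne_zero _ hz) hne)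
      (mul_ne_zero hA hB)
  obtain ⟨x, hx⟩ := hmain
  refine placement_to_factor (3 * q + 1) L hL (ι := r9_I q) ?_ lab ?_ x ?_
  · simp only [Fintype.card_sum, Fintype.card_fin, Fintype.card_unit]
    omega
  · rw [← hlab, ← Finset.univ_disjSum_univ, ← Finset.univ_disjSum_univ]
    simp only [Finset.val_disjSum, Multiset.disjSum, Multiset.map_add, Multiset.map_map,
      Function.comp_def, hlabdef, Sum.elim_inl, Sum.elim_inr]
    simp
  · intro a a' haa
    have := @hx (some a) (some a') haa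
    exact Option.some.inj this

end Pool.Agent.Helper805_nf
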