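import Mathlib
import Pool.Agent.Helper805_nf.Defs6
import Pool.Agent.Helper805_nf.R1
import Pool.Agent.Helper805_nf.R7
import Pool.Agent.Helper805_nf.R8
import Pool.Agent.Helper805_nf.R9

set_option autoImplicit false

namespace Pool.Agent.Helper805_nf

open Finset







theorem r15_enum (s : Multiset ℕ) (m : ℕ) (h : Multiset.card s = m) :
    ∃ f : Fin m → ℕ, Multiset.map f (Finset.univ : Finset (Fin m)).val = s := by
  subst h
  refine ⟨fun i => s.toList.get (i.cast (Multiset.length_toList s).symm), ?_⟩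
  rw [Fin.univ_val_map]
  conv_rhs => rw [← Multiset.coe_toList s]
  congr 1
  apply List.ext_getElem
  · simp
  · intro i h1 h2
    simp

theorem r15_split (T : Multiset ℕ) (q : ℕ) (h : q ≤ Multiset.card T) :
    ∃ B T' : Multiset ℕ, B + T' = T ∧ Multiset.card B = q := by
  induction T using Quotient.inductionOn with
  | h l =>
    refine ⟨(l.take q : List ℕ), (l.drop q : List ℕ), ?_, ?_⟩
    · rw [Multiset.coe_add, List.take_append_drop]; rfl
    · rw [Multiset.coe_card, List.length_take]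
      exact min_eq_left (by simpa using h)

theorem three_heavy (p q n : ℕ) (hp : p.Prime) (hq : p = 2 * q + 1) (h5 : 5 ≤ p) (hn : n = 3 * q + 1)
    (L : Multiset ℕ) (hcard : Multiset.card L = n) (hL : ∀ x ∈ L, 1 ≤ x ∧ x ≤ n)
    (hW : q ≤ Multiset.card (L.filter (fun x => 3 ∣ x)))
    (hW' : Multiset.card (L.filter (fun x => 3 ∣ x)) < 3 * q) :
    Realizable n L := by
  have hsplit : L.filter (fun x => 3 ∣ x) + L.filter (fun x => ¬ 3 ∣ x) = L :=
    Multiset.filter_add_not _ _
  set T := L.filter (fun x => 3 ∣ x) with hT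
  set U := L.filter (fun x => ¬ 3 ∣ x) with hU
  have hcTU : Multiset.card T + Multiset.card U = n := by
    rw [← Multiset.card_add, hsplit, hcard]
  have hUpos : 0 < Multiset.card U := by omega
  obtain ⟨d, hd⟩ := Multiset.card_pos_iff_exists_mem.1 hUpos
  have hdd : ¬ 3 ∣ d := (Multiset.mem_filter.1 hd).2
  obtain ⟨U', hU'⟩ := Multiset.exists_cons_of_mem hd
  have hU'pos : 0 < Multiset.card U' := by
    have : Multiset.card U = Multiset.card U' + 1 := by rw [hU', Multiset.card_cons]
    omega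
  obtain ⟨x, hx⟩ := Multiset.card_pos_iff_exists_mem.1 hU'pos
  have hxx : ¬ 3 ∣ x := by
    have : x ∈ U := by rw [hU']; exact Multiset.mem_cons_of_mem hx
    exact (Multiset.mem_filter.1 this).2
  obtain ⟨B, T', hB, hcB⟩ := r15_split T q hW
  obtain ⟨b, hb⟩ := r15_enum B q hcB
  have hcE : Multiset.card (T' + U') = 2 * q := by
    have h1 : Multiset.card U = Multiset.card U' + 1 := by rw [hU', Multiset.card_cons]
    have h2 : Multiset.card T = Multiset.card B + Multiset.card T' := by rw [← hB, Multiset.card_add]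
    rw [Multiset.card_add]
    omega
  obtain ⟨e, he⟩ := r15_enum (T' + U') (2 * q) hcE
  have hlab : Multiset.map e (Finset.univ : Finset (Fin (2 * q))).val +
      Multiset.map b (Finset.univ : Finset (Fin q)).val + {d} = L := by
    rw [he, hb, ← hsplit, ← hB, hU', ← Multiset.singleton_add]
    abel
  have hmemb : ∀ i, b i ∈ B := fun i => by
    rw [← hb]; exact Multiset.mem_map_of_mem _ (Finset.mem_univ i)
  have hBT : ∀ y ∈ B, y ∈ T := fun y hy => by rw [← hB]; exact Multiset.mem_add.2 (Or.inl hy)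
  have hb3 : ∀ i, 3 ∣ b i := fun i => (Multiset.mem_filter.1 (hBT _ (hmemb i))).2
  have hbL : ∀ i, 1 ≤ b i ∧ b i ≤ n := fun i =>
    hL _ (Multiset.mem_filter.1 (hBT _ (hmemb i))).1
  have heL : ∀ i, 1 ≤ e i ∧ e i ≤ n := fun i => by
    refine hL _ ?_
    rw [← hlab]
    exact Multiset.mem_add.2 (Or.inl (Multiset.mem_add.2 (Or.inl
      (Multiset.mem_map_of_mem _ (Finset.mem_univ i)))))
  have hex : ∃ i, ¬ 3 ∣ e i := by
    have h1 : x ∈ Multiset.map e (Finset.univ : Finset (Fin (2 * q))).val := by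
      rw [he]; exact Multiset.mem_add.2 (Or.inr hx)
    obtain ⟨i, -, hi⟩ := Multiset.mem_map.1 h1
    exact ⟨i, by rw [hi]; exact hxx⟩
  obtain ⟨K, _, _, ζ, hpn, hζ⟩ := field_exists p (2 * n + 1) hp (by omega)
  have h3 : ¬ 3 ∣ 2 * q + 1 := by
    rw [← hq]
    intro h
    have := (Nat.prime_dvd_prime_iff_eq Nat.prime_three hp).1 h
    omega
  exact fold_factor q n (2 * q) h3 hn rfl ζ hζ d hdd b hb3 e
    (fold_B_ne p q n hp hq h5 hn hpn ζ hζ b hbL hb3)
    (fold_A_ne p q n hp hq h5 hn hpn ζ hζ (2 * q) hq.symm e heL hex) L hL hlab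


end Pool.Agent.Helper805_nf
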