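import Mathlib
import Pool.Agent.Helper805_nf.Defs6
import Pool.Agent.Helper805_nf.A3
import Pool.Agent.Helper805_nf.B6

set_option autoImplicit false

namespace Pool.Agent.Helper805_nf

open Finset




theorem prime_placement (p q : ℕ) (hp : p.Prime) (hq : p = 2 * q + 1) (a : Fin q → ℕ)
    (ha : ∀ i, 1 ≤ a i ∧ a i ≤ q) :
    ∃ x : Fin q → ZMod p, Function.Injective
      (fun r : Option (Fin q × Bool) => r.elim (0 : ZMod p) (fun s => x s.1 + if s.2 then (a s.1 : ZMod p) else 0)) := by
  subst hq
  have hη : IsPrimitiveRoot (Complex.exp (2 * Real.pi * Complex.I / ((2 * q + 1 : ℕ) : ℂ))) (2 * q + 1) :=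
    Complex.isPrimitiveRoot_exp (2 * q + 1) (by omega)
  have hd : ∀ i, ¬ (2 * q + 1) ∣ a i := by
    intro i h
    have h1 := Nat.le_of_dvd (by have := (ha i).1; omega) h
    have h2 := (ha i).2
    omega
  have hA := unit_permSum_ne_zero (2 * q + 1) 1 q hp (by rw [pow_one]) _ hη a hd
  obtain ⟨x, hx⟩ := two_mode q 0 _ hη a (fun i => i.elim0) hA (by simp)
  refine ⟨fun i => x (Sum.inl i), ?_⟩
  have hf : Function.Injective (Option.map (Prod.map (Sum.inl : Fin q → Fin q ⊕ Fin 0) (id : Bool → Bool))) :=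
    Option.map_injective (Sum.inl_injective.prodMap Function.injective_id)
  have h := hx.comp hf
  intro r s hrs
  apply h
  cases r <;> cases s <;> exact hrs


end Pool.Agent.Helper805_nf
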