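import Mathlib
import Pool.Agent.Helper805_nf.Defs6
import Pool.Agent.Helper805_nf.F
import Pool.Agent.Helper805_nf.R16

set_option autoImplicit false

namespace Pool.Agent.Helper805_nf

open Finset





theorem r17_enum (s : Multiset ℕ) (m : ℕ) (h : Multiset.card s = m) :
    ∃ f : Fin m → ℕ, Multiset.map f (Finset.univ : Finset (Fin m)).val = s := by
  induction s using Quotient.inductionOn with
  | h l =>
    have hl : l.length = m := h
    subst hl
    refine ⟨fun i => l.get i, ?_⟩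
    rw [Fin.univ_val_map]
    simp

theorem r17_T_add (p v : ℕ) (hv : v = 3 * p) (u w : ZMod p) [NeZero p] :
    ((3 * (u + w).val : ℕ) : ZMod v) = ((3 * u.val : ℕ) : ZMod v) + ((3 * w.val : ℕ) : ZMod v) := by
  rw [← Nat.cast_add, ZMod.natCast_eq_natCast_iff, hv, ZMod.val_add, ← mul_add]
  exact Nat.ModEq.mul_left' 3 (Nat.mod_modEq _ _)

theorem r17_T_cast (p v : ℕ) (hv : v = 3 * p) (a : ℕ) [NeZero p] :
    ((3 * (a : ZMod p).val : ℕ) : ZMod v) = ((3 * a : ℕ) : ZMod v) := by
  rw [ZMod.natCast_eq_natCast_iff, hv, ZMod.val_natCast]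
  exact Nat.ModEq.mul_left' 3 (Nat.mod_modEq _ _)

theorem r17_T_inj (p v : ℕ) (hv : v = 3 * p) (u w : ZMod p) [NeZero p]
    (h : ((3 * u.val : ℕ) : ZMod v) = ((3 * w.val : ℕ) : ZMod v)) : u = w := by
  rw [ZMod.natCast_eq_natCast_iff, hv] at h
  have h1 := Nat.ModEq.mul_left_cancel' (by norm_num : (3:ℕ) ≠ 0) h
  have h2 : u.val = w.val := by
    have h3 := Nat.mod_eq_of_lt (ZMod.val_lt u)
    have h4 := Nat.mod_eq_of_lt (ZMod.val_lt w)
    have h5 : u.val % p = w.val % p := h1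
    rw [h3, h4] at h5
    exact h5
  exact ZMod.val_injective p h2

theorem r17_phi_inj (p v d : ℕ) (hv : v = 3 * p) (hd : ¬ 3 ∣ d) [NeZero p] :
    Function.Injective (fun r : Fin 3 × ZMod p =>
      (((r.1 : ℕ) * d : ℕ) : ZMod v) + ((3 * r.2.val : ℕ) : ZMod v)) := by
  rintro ⟨k, u⟩ ⟨k', u'⟩ h
  simp only at h
  have hk : k = k' := by
    have h1 := congrArg (ZMod.castHom (show 3 ∣ v from ⟨p, hv⟩) (ZMod 3)) h
    simp only [map_add, map_natCast] at h1
    rw [← Nat.cast_add, ← Nat.cast_add, ZMod.natCast_eq_natCast_iff] at h1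
    have h2 : (k : ℕ) * d % 3 = (k' : ℕ) * d % 3 := by
      have h3 : ((k : ℕ) * d + 3 * u.val) % 3 = ((k' : ℕ) * d + 3 * u'.val) % 3 := h1
      omega
    have h4 : d % 3 = 1 ∨ d % 3 = 2 := by omega
    have h5 : ((k : ℕ) * (d % 3)) % 3 = ((k' : ℕ) * (d % 3)) % 3 := by
      rw [Nat.mul_mod, Nat.mod_mod, ← Nat.mul_mod, h2, Nat.mul_mod, ← Nat.mod_mod d 3,
        ← Nat.mul_mod, Nat.mod_mod]
    have hk3 := k.isLt
    have hk3' := k'.isLt
    apply Fin.ext
    rcases h4 with h4 | h4 <;> rw [h4] at h5 <;> omega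
  subst hk
  have h6 := add_left_cancel h
  rw [r17_T_inj p v hv u u' h6]

theorem three_top (p q n : ℕ) (hp : p.Prime) (hq : p = 2 * q + 1) (h5 : 5 ≤ p) (hn : n = 3 * q + 1)
    (L : Multiset ℕ) (hcard : Multiset.card L = n) (hL : ∀ x ∈ L, 1 ≤ x ∧ x ≤ n)
    (hW : Multiset.card (L.filter (fun x => 3 ∣ x)) = 3 * q) :
    Realizable n L := by
  have : NeZero p := ⟨hp.ne_zero⟩
  have hv : 2 * n + 1 = 3 * p := by omega
  have hsplit := Multiset.filter_add_not (fun x => 3 ∣ x) L
  have hone : Multiset.card (L.filter (fun x => ¬ 3 ∣ x)) = 1 := by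
    have h1 := congrArg Multiset.card hsplit
    rw [Multiset.card_add, hW, hcard, hn] at h1
    omega
  obtain ⟨d, hd⟩ := Multiset.card_eq_one.mp hone
  have hd3 : ¬ 3 ∣ d := by
    have h1 : d ∈ L.filter (fun x => ¬ 3 ∣ x) := by rw [hd]; simp
    exact (Multiset.mem_filter.mp h1).2
  obtain ⟨f, hf⟩ := r17_enum _ _ hW
  have hf3 : ∀ j, ∃ a : ℕ, f j = 3 * a ∧ 1 ≤ a ∧ a ≤ q := by
    intro j
    have h1 : f j ∈ L.filter (fun x => 3 ∣ x) := by
      rw [← hf]
      exact Multiset.mem_map_of_mem _ (Finset.mem_univ j)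
    obtain ⟨h2, a, ha⟩ := Multiset.mem_filter.mp h1
    have h3 := hL _ h2
    exact ⟨a, ha, by omega, by omega⟩
  choose a ha using hf3
  let e : Fin 3 × Fin q ≃ Fin (3 * q) := finProdFinEquiv
  have hpl : ∀ k : Fin 3, ∃ x : Fin q → ZMod p, Function.Injective
      (fun r : Option (Fin q × Bool) =>
        r.elim (0 : ZMod p) (fun s => x s.1 + if s.2 then (a (e (k, s.1)) : ZMod p) else 0)) := by
    intro k
    exact prime_placement p q hp hq (fun i => a (e (k, i))) (fun i => (ha _).2)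
  choose X hX using hpl
  have hYinj : ∀ k : Fin 3, ∀ i i' : Fin q, ∀ b b' : Bool,
      X k i + (if b then (a (e (k, i)) : ZMod p) else 0)
        = X k i' + (if b' then (a (e (k, i')) : ZMod p) else 0) → i = i' ∧ b = b' := by
    intro k i i' b b' h
    have h1 := @hX k (some (i, b)) (some (i', b')) h
    simpa using h1
  have hY0 : ∀ k : Fin 3, ∀ i : Fin q, ∀ b : Bool,
      X k i + (if b then (a (e (k, i)) : ZMod p) else 0) ≠ 0 := by
    intro k i b h
    have h1 := @hX k (some (i, b)) none h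
    simp at h1
  refine placement_to_factor n L hL (ι := (Fin 3 × Fin q) ⊕ Unit) ?_
    (Sum.elim (fun r => f (e r)) (fun _ => d)) ?_
    (Sum.elim (fun r => (((r.1 : ℕ) * d : ℕ) : ZMod (2 * n + 1))
      + ((3 * (X r.1 r.2).val : ℕ) : ZMod (2 * n + 1))) (fun _ => 0)) ?_
  · simp [hn]
  · have hu : (Finset.univ : Finset ((Fin 3 × Fin q) ⊕ Unit)).val
        = Multiset.map Sum.inl (Finset.univ : Finset (Fin 3 × Fin q)).val
          + Multiset.map Sum.inr (Finset.univ : Finset Unit).val := rfl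
    rw [hu, Multiset.map_add, Multiset.map_map, Multiset.map_map]
    have h1 : Multiset.map ((Sum.elim (fun r => f (e r)) (fun _ : Unit => d)) ∘ Sum.inl)
        (Finset.univ : Finset (Fin 3 × Fin q)).val = L.filter (fun x => 3 ∣ x) := by
      rw [← hf, ← Multiset.map_univ_val_equiv e, Multiset.map_map]
      rfl
    have h2 : Multiset.map ((Sum.elim (fun r : Fin 3 × Fin q => f (e r)) (fun _ => d)) ∘ Sum.inr)
        (Finset.univ : Finset Unit).val = {d} := by
      simp
    rw [h1, h2, ← hd]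
    exact hsplit
  · have hphi := r17_phi_inj p (2 * n + 1) d hv hd3
    let Ψ : ((Fin 3 × Fin q) ⊕ Unit) × Bool → Fin 3 × ZMod p := fun r =>
      Sum.elim (fun s : Fin 3 × Fin q =>
        (s.1, X s.1 s.2 + (if r.2 then (a (e s) : ZMod p) else 0)))
        (fun _ => ((if r.2 then 1 else 0 : Fin 3), (0 : ZMod p))) r.1
    have hΨ : Function.Injective Ψ := by
      rintro ⟨r, b⟩ ⟨r', b'⟩ h
      rcases r with ⟨k, i⟩ | u <;> rcases r' with ⟨k', i'⟩ | u'
      · simp only [Ψ, Sum.elim_inl, Prod.mk.injEq] at h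
        obtain ⟨h1, h2⟩ := h
        subst h1
        obtain ⟨h3, h4⟩ := hYinj k i i' b b' h2
        rw [h3, h4]
      · simp only [Ψ, Sum.elim_inl, Sum.elim_inr, Prod.mk.injEq] at h
        exact absurd h.2 (hY0 _ _ _)
      · simp only [Ψ, Sum.elim_inl, Sum.elim_inr, Prod.mk.injEq] at h
        exact absurd h.2.symm (hY0 _ _ _)
      · simp only [Ψ, Sum.elim_inr, Prod.mk.injEq] at h
        have h1 : b = b' := by
          cases b <;> cases b' <;> simp_all
        rw [h1]
    have hcomp := hphi.comp hΨ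
    convert hcomp using 1
    funext r
    obtain ⟨r, b⟩ := r
    rcases r with ⟨k, i⟩ | u
    · simp only [Function.comp, Ψ, Sum.elim_inl]
      rw [r17_T_add p (2 * n + 1) hv, ← add_assoc]
      congr 1
      cases b
      · simp
      · simp only [if_true]
        rw [r17_T_cast p (2 * n + 1) hv, (ha _).1]
    · simp only [Function.comp, Ψ, Sum.elim_inr]
      cases b <;> simp


end Pool.Agent.Helper805_nf
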