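import Pool.Agent.Helper805_nf.Defs3
import Pool.Agent.Helper805_nf.B3

set_option autoImplicit false

namespace Pool.Agent.Helper805_nf

open Finset



/-- injections into the chosen columns -/
theorem a10_injSum_columns {K : Type*} [CommRing K] (m n : ℕ) (f : Fin m → Fin n → K)
    (κ : Fin m → Fin n) (hκ : Function.Injective κ) (B : Finset (Fin m)) :
    injSum (fun i a => f i (κ a)) B =
      injSum (fun i j => if j ∈ Finset.univ.image κ then f i j else 0) B := by
  unfold injSum
  refine Finset.sum_of_injOn (fun g : B ↪ Fin m => g.trans ⟨κ, hκ⟩) ?_ ?_ ?_ ?_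
  · intro g _ g' _ h
    ext i : 1
    have h1 : (g.trans ⟨κ, hκ⟩ : B ↪ Fin n) i = (g'.trans ⟨κ, hκ⟩ : B ↪ Fin n) i :=
      DFunLike.congr_fun h i
    exact hκ h1
  · intro g _
    simp
  · intro g _ hg
    by_contra hne
    refine hg ?_
    have h1 : ∀ i : B, g i ∈ Finset.univ.image κ := by
      intro i
      by_contra hi
      refine hne (Finset.prod_eq_zero (Finset.mem_univ i) ?_)
      beta_reduce
      rw [if_neg hi]
    have h2 : ∀ i : B, ∃ a, κ a = g i := by
      intro i
      obtain ⟨a, -, ha⟩ := Finset.mem_image.1 (h1 i)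
      exact ⟨a, ha⟩
    choose a ha using h2
    refine ⟨⟨a, ?_⟩, by simp, ?_⟩
    · intro i j hij
      have : g i = g j := by rw [← ha i, ← ha j, hij]
      exact g.injective this
    · ext i : 1
      exact ha i
  · intro g _
    refine Finset.prod_congr rfl fun i _ => ?_
    have : (g.trans ⟨κ, hκ⟩ : B ↪ Fin n) i = κ (g i) := rfl
    rw [this]
    beta_reduce
    rw [if_pos (Finset.mem_image_of_mem κ (Finset.mem_univ _))]

theorem permSum_columns {K : Type*} [Field K] (m n : ℕ) (f : Fin m → Fin n → K) (c : Fin m → K)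
    (κ : Fin m → Fin n) (hκ : Function.Injective κ) :
    ∑ π : Equiv.Perm (Fin m), ∏ i, (c i + f i (κ (π i))) =
      ∑ B : Finset (Fin m), ((m - B.card).factorial : K) * (∏ i ∈ Bᶜ, c i) *
        injSum (fun i j => if j ∈ Finset.univ.image κ then f i j else 0) B := by
  rw [permSum_expand m (fun i a => f i (κ a)) c]
  exact Finset.sum_congr rfl fun B _ => by rw [a10_injSum_columns m n f κ hκ B]

end Pool.Agent.Helper805_nf
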