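import Pool.Agent.Helper805_nf.B2

set_option autoImplicit false

namespace Pool.Agent.Helper805_nf

open Finset

theorem injSum_erase {R : Type*} [CommRing R] {ι κ : Type*} [DecidableEq ι] [Fintype κ] [DecidableEq κ]
    (f : ι → κ → R) (j : κ) (A : Finset ι) :
    injSum (fun i k => if k = j then 0 else f i k) A = ∑ S ∈ A.powerset,
      (-1 : R) ^ S.card * (S.card.factorial : R) * (∏ i ∈ S, f i j) * injSum f (A \ S) :=
  injSum_del f j A

end Pool.Agent.Helper805_nf
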