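import Pool.Agent.Helper805_nf.Defs3

set_option autoImplicit false

namespace Pool.Agent.Helper805_nf

open Finset



theorem injSum_small {K : Type*} [NormedField K] [IsUltrametricDist K] {m n : ℕ} (f : Fin m → Fin n → K)
    (B : Finset (Fin m)) :
    (∀ s : ℝ, 0 ≤ s → (∀ i ∈ B, ∀ j, ‖f i j‖ ≤ s) → ‖injSum f B‖ ≤ s ^ B.card) ∧
    (∀ C : Finset (Fin n), (∀ i ∈ B, ∀ j, j ∉ C → f i j = 0) → C.card < B.card → injSum f B = 0) ∧
    (∀ i ∈ B, (∀ j, f i j = 0) → injSum f B = 0) ∧ (B = ∅ → injSum f B = 1) := by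
  refine ⟨?_, ?_, ?_, ?_⟩
  · intro s hs h
    unfold injSum
    refine IsUltrametricDist.norm_sum_le_of_forall_le_of_nonneg (by positivity) fun g _ => ?_
    rw [norm_prod]
    calc ∏ i : B, ‖f i (g i)‖ ≤ ∏ _i : B, s :=
          Finset.prod_le_prod (fun i _ => norm_nonneg _) (fun i _ => h i i.2 _)
      _ = s ^ B.card := by rw [Finset.prod_const, Finset.card_univ, Fintype.card_coe]
  · intro C hC hcard
    unfold injSum
    refine Finset.sum_eq_zero fun g _ => ?_
    obtain ⟨i, hi⟩ : ∃ i, g i ∉ C := by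
      by_contra! hc
      have h1 : B.card ≤ C.card := by
        rw [← Fintype.card_coe B, ← Fintype.card_coe C]
        refine Fintype.card_le_of_injective (fun i => (⟨g i, hc i⟩ : C)) ?_
        intro a b hab
        exact g.injective (congrArg Subtype.val hab)
      omega
    exact Finset.prod_eq_zero (Finset.mem_univ i) (hC i i.2 _ hi)
  · intro i hi h
    unfold injSum
    exact Finset.sum_eq_zero fun g _ => Finset.prod_eq_zero (Finset.mem_univ ⟨i, hi⟩) (h _)
  · rintro rfl
    unfold injSum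
    have hE : IsEmpty {x // x ∈ (∅ : Finset (Fin m))} := ⟨fun x => absurd x.2 (Finset.notMem_empty _)⟩
    have h1 : ∀ g : {x // x ∈ (∅ : Finset (Fin m))} ↪ Fin n,
        ∏ i : {x // x ∈ (∅ : Finset (Fin m))}, f i (g i) = 1 := by
      intro g
      rw [Finset.univ_eq_empty, Finset.prod_empty]
    rw [Finset.sum_congr rfl fun g _ => h1 g, Finset.sum_const, Finset.card_univ,
      Fintype.card_embedding_eq]
    simp

end Pool.Agent.Helper805_nf
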