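import Pool.Agent.Helper805_nf.Defs3

set_option autoImplicit false

namespace Pool.Agent.Helper805_nf

open Finset


/-- the two parts of `B` -/
noncomputable def a9_equiv {m : ℕ} (B B0 : Finset (Fin m)) (h : B0 ⊆ B) :
    (B0 ⊕ (B \ B0 : Finset (Fin m))) ≃ B :=
  Equiv.ofBijective (Sum.elim (fun x => ⟨x.1, h x.2⟩) (fun x => ⟨x.1, (Finset.mem_sdiff.1 x.2).1⟩)) (by
    constructor
    · rintro (⟨x, hx⟩ | ⟨x, hx⟩) (⟨y, hy⟩ | ⟨y, hy⟩) hxy
      · simp only [Sum.elim_inl, Subtype.mk.injEq] at hxy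
        subst hxy
        rfl
      · simp only [Sum.elim_inl, Sum.elim_inr, Subtype.mk.injEq] at hxy
        subst hxy
        exact absurd hx (Finset.mem_sdiff.1 hy).2
      · simp only [Sum.elim_inl, Sum.elim_inr, Subtype.mk.injEq] at hxy
        subst hxy
        exact absurd hy (Finset.mem_sdiff.1 hx).2
      · simp only [Sum.elim_inr, Subtype.mk.injEq] at hxy
        subst hxy
        rfl
    · rintro ⟨x, hx⟩
      by_cases hx0 : x ∈ B0
      · exact ⟨Sum.inl ⟨x, hx0⟩, rfl⟩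
      · exact ⟨Sum.inr ⟨x, Finset.mem_sdiff.2 ⟨hx, hx0⟩⟩, rfl⟩)

theorem a9_split {K : Type*} [Field K] {m n : ℕ} (f0 f1 : Fin m → Fin n → K)
    (hd : ∀ j, (∀ i, f0 i j = 0) ∨ (∀ i, f1 i j = 0)) (B B0 : Finset (Fin m)) (h : B0 ⊆ B) :
    ∑ g : B ↪ Fin n, (∏ x : B0, f0 x (g ⟨x.1, h x.2⟩)) *
        ∏ x : (B \ B0 : Finset (Fin m)), f1 x (g ⟨x.1, (Finset.mem_sdiff.1 x.2).1⟩) =
      injSum f0 B0 * injSum f1 (B \ B0) := by
  classical
  rw [← Equiv.sum_comp ((a9_equiv B B0 h).embeddingCongr (Equiv.refl (Fin n)))]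
  have h1 : ∀ g : (B0 ⊕ (B \ B0 : Finset (Fin m))) ↪ Fin n,
      (∏ x : B0, f0 x (((a9_equiv B B0 h).embeddingCongr (Equiv.refl (Fin n))) g ⟨x.1, h x.2⟩)) *
        ∏ x : (B \ B0 : Finset (Fin m)), f1 x (((a9_equiv B B0 h).embeddingCongr
          (Equiv.refl (Fin n))) g ⟨x.1, (Finset.mem_sdiff.1 x.2).1⟩) =
      (∏ x : B0, f0 x (g (Sum.inl x))) * ∏ x : (B \ B0 : Finset (Fin m)), f1 x (g (Sum.inr x)) := by
    intro g
    congr 1
    · apply Finset.prod_congr rfl
      intro x _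
      congr 1
      have e1 : (a9_equiv B B0 h).symm ⟨x.1, h x.2⟩ = Sum.inl x := by
        rw [Equiv.symm_apply_eq]
        rfl
      show g ((a9_equiv B B0 h).symm ⟨x.1, h x.2⟩) = g (Sum.inl x)
      rw [e1]
    · apply Finset.prod_congr rfl
      intro x _
      congr 1
      have e1 : (a9_equiv B B0 h).symm ⟨x.1, (Finset.mem_sdiff.1 x.2).1⟩ = Sum.inr x := by
        rw [Equiv.symm_apply_eq]
        rfl
      show g ((a9_equiv B B0 h).symm ⟨x.1, (Finset.mem_sdiff.1 x.2).1⟩) = g (Sum.inr x)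
      rw [e1]
  simp only [h1]
  rw [← Equiv.sum_comp (Equiv.sumEmbeddingEquivProdEmbeddingDisjoint
    (α := B0) (β := (B \ B0 : Finset (Fin m))) (γ := Fin n)).symm]
  unfold injSum
  rw [Finset.sum_mul_sum, ← Finset.sum_product']
  have h2 : ∀ p : (B0 ↪ Fin n) × ((B \ B0 : Finset (Fin m)) ↪ Fin n),
      ¬ Disjoint (Set.range p.1) (Set.range p.2) →
      (∏ x : B0, f0 x (p.1 x)) * ∏ x : (B \ B0 : Finset (Fin m)), f1 x (p.2 x) = 0 := by
    intro p hp
    rw [Set.not_disjoint_iff] at hp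
    obtain ⟨j, ⟨x, hx⟩, ⟨y, hy⟩⟩ := hp
    rcases hd j with h3 | h3
    · rw [Finset.prod_eq_zero (Finset.mem_univ x) (by rw [hx]; exact h3 _), zero_mul]
    · rw [Finset.prod_eq_zero (Finset.mem_univ y) (by rw [hy]; exact h3 _), mul_zero]
  symm
  rw [Finset.univ_product_univ]
  rw [← Finset.sum_subset (Finset.subset_univ (Finset.univ.filter
    (fun p : (B0 ↪ Fin n) × ((B \ B0 : Finset (Fin m)) ↪ Fin n) =>
      Disjoint (Set.range p.1) (Set.range p.2)))) (by
        intro p _ hp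
        rw [Finset.mem_filter] at hp
        exact h2 p (fun hc => hp ⟨Finset.mem_univ _, hc⟩))]
  rw [Finset.sum_subtype (Finset.univ.filter
    (fun p : (B0 ↪ Fin n) × ((B \ B0 : Finset (Fin m)) ↪ Fin n) =>
      Disjoint (Set.range p.1) (Set.range p.2)))
    (p := fun p => Disjoint (Set.range p.1) (Set.range p.2)) (by
      intro p
      simp)]
  apply Finset.sum_congr rfl
  intro p _
  rfl

theorem injSum_columns {K : Type*} [Field K] {m n : ℕ} (f : Fin m → Fin n → K) (C1 C0 : Finset (Fin n))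
    (hdis : Disjoint C1 C0) (B : Finset (Fin m)) :
    injSum (fun i j => if j ∈ C1 ∪ C0 then f i j else 0) B =
      ∑ B0 ∈ B.powerset, injSum (fun i j => if j ∈ C0 then f i j else 0) B0 *
        injSum (fun i j => if j ∈ C1 then f i j else 0) (B \ B0) := by
  classical
  obtain ⟨f0, hf0⟩ : ∃ f0 : Fin m → Fin n → K, f0 = fun i j => if j ∈ C0 then f i j else 0 := ⟨_, rfl⟩
  obtain ⟨f1, hf1⟩ : ∃ f1 : Fin m → Fin n → K, f1 = fun i j => if j ∈ C1 then f i j else 0 := ⟨_, rfl⟩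
  rw [← hf0, ← hf1]
  have hadd : (fun (i : Fin m) (j : Fin n) => if j ∈ C1 ∪ C0 then f i j else 0) =
      fun i j => f0 i j + f1 i j := by
    funext i j
    rw [hf0, hf1]
    by_cases h1 : j ∈ C1
    · have h0 : j ∉ C0 := Finset.disjoint_left.1 hdis h1
      simp [h1, h0]
    · by_cases h0 : j ∈ C0
      · simp [h1, h0]
      · simp [h1, h0]
  have hd : ∀ j, (∀ i, f0 i j = 0) ∨ (∀ i, f1 i j = 0) := by
    intro j
    by_cases h1 : j ∈ C1
    · left
      intro i
      have h0 : j ∉ C0 := Finset.disjoint_left.1 hdis h1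
      rw [hf0]
      simp [h0]
    · right
      intro i
      rw [hf1]
      simp [h1]
  rw [hadd]
  have h1 : ∀ B0 ∈ B.powerset, injSum f0 B0 * injSum f1 (B \ B0) =
      ∑ g : B ↪ Fin n, (∏ i ∈ B0, (if h : i ∈ B then f0 i (g ⟨i, h⟩) else 0)) *
        ∏ i ∈ B \ B0, (if h : i ∈ B then f1 i (g ⟨i, h⟩) else 0) := by
    intro B0 hB0
    rw [Finset.mem_powerset] at hB0
    rw [← a9_split f0 f1 hd B B0 hB0]
    apply Finset.sum_congr rfl
    intro g _
    congr 1
    · rw [← Finset.prod_coe_sort B0]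
      apply Finset.prod_congr rfl
      intro x _
      rw [dif_pos (hB0 x.2)]
    · rw [← Finset.prod_coe_sort (B \ B0)]
      apply Finset.prod_congr rfl
      intro x _
      rw [dif_pos (Finset.mem_sdiff.1 x.2).1]
  rw [Finset.sum_congr rfl h1, Finset.sum_comm]
  unfold injSum
  apply Finset.sum_congr rfl
  intro g _
  rw [← Finset.prod_add]
  rw [← Finset.prod_coe_sort B]
  apply Finset.prod_congr rfl
  intro x _
  rw [dif_pos x.2, dif_pos x.2]


end Pool.Agent.Helper805_nf
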