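import Pool.Agent.Helper805_nf.Defs3
import Pool.Agent.Helper805_nf.Y8
import Pool.Agent.Helper805_nf.Y9
import Pool.Agent.Helper805_nf.Y10
import Pool.Agent.Helper805_nf.Y11g

set_option autoImplicit false

namespace Pool.Agent.Helper805_nf

open Finset








/-- The deletion sum at column j0 is the injection sum with column j0 removed. -/
theorem j6497_delSum_eq {K : Type*} [NormedField K] [IsUltrametricDist K] {m n : ℕ} (f : Fin m → Fin n → K)
    (C1 : Finset (Fin n)) (j0 : Fin n) (hj0 : j0 ∈ C1) (E : Finset (Fin m)) :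
    delSum (fun i => f i j0) (injSum (fun i j => if j ∈ C1 then f i j else 0)) E =
      injSum (fun i j => if j ∈ C1.erase j0 then f i j else 0) E := by
  have h := injSum_erase (fun (i : Fin m) (j : Fin n) => if j ∈ C1 then f i j else 0) j0 E
  have hf : (fun (i : Fin m) (j : Fin n) => if j ∈ C1.erase j0 then f i j else 0) =
      (fun (i : Fin m) (k : Fin n) => if k = j0 then 0 else (if k ∈ C1 then f i k else 0)) := by
    funext i k
    by_cases hk : k = j0
    · simp [hk]
    · simp [hk, Finset.mem_erase]
  rw [hf, h]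
  unfold delSum
  refine Finset.sum_congr rfl fun A _ => ?_
  simp only [if_pos hj0]

theorem permSum_full {K : Type*} [NormedField K] [IsUltrametricDist K] (m n : ℕ) (f : Fin m → Fin n → K)
    (c : Fin m → K) (C1 C0 : Finset (Fin n)) (j0 : Fin n) (hj0 : j0 ∈ C1) (hdis : Disjoint C1 C0)
    (κ : Fin m → Fin n) (hκ : Function.Injective κ) (hκi : Finset.univ.image κ = C1.erase j0 ∪ C0) :
    (∑ π : Equiv.Perm (Fin m), ∏ i, (c i + f i (κ (π i))) =
      ∑ B : Finset (Fin m), ((m - B.card).factorial : K) * (∏ i ∈ Bᶜ, c i) *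
        ∑ B0 ∈ B.powerset, injSum (fun i j => if j ∈ C0 then f i j else 0) B0 *
          delSum (fun i => f i j0) (injSum (fun i j => if j ∈ C1 then f i j else 0)) (B \ B0)) ∧
    ∀ E : Finset (Fin m), C1.card ≤ E.card →
      delSum (fun i => f i j0) (injSum (fun i j => if j ∈ C1 then f i j else 0)) E = 0 := by
  constructor
  · rw [permSum_columns m n f c κ hκ, hκi]
    refine Finset.sum_congr rfl fun B _ => ?_
    congr 1
    rw [injSum_columns f (C1.erase j0) C0 (hdis.mono_left (Finset.erase_subset _ _)) B]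
    refine Finset.sum_congr rfl fun B0 _ => ?_
    rw [j6497_delSum_eq f C1 j0 hj0]
  · intro E hE
    rw [j6497_delSum_eq f C1 j0 hj0]
    refine (injSum_small (fun i j => if j ∈ C1.erase j0 then f i j else 0) E).2.1 (C1.erase j0) ?_ ?_
    · intro i _ j hj
      exact if_neg hj
    · have h1 : 0 < C1.card := Finset.card_pos.mpr ⟨j0, hj0⟩
      rw [Finset.card_erase_of_mem hj0]
      omega


end Pool.Agent.Helper805_nf
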