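import Pool.Agent.Helper805_nf.Defs3
import Pool.Agent.Helper805_nf.Y1

set_option autoImplicit false

namespace Pool.Agent.Helper805_nf

open Finset


theorem nf3a13_split (y k : ℕ) : ((y + k).factorial : ℕ) = y.factorial * ∏ i ∈ range k, (y + 1 + i) := by
  induction k with
  | zero => simp
  | succ k ih =>
    rw [Finset.prod_range_succ, ← mul_assoc, ← ih, ← add_assoc, Nat.factorial_succ]
    ring

theorem nf3a13_norm_split {K : Type*} [NormedField K] (y k : ℕ) :
    ‖((y + k).factorial : K)‖ = ‖(y.factorial : K)‖ * ∏ i ∈ range k, ‖((y + 1 + i : ℕ) : K)‖ := by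
  rw [nf3a13_split, Nat.cast_mul, norm_mul, Nat.cast_prod, norm_prod]

theorem factorial_ratio {K : Type*} [NormedField K] [IsUltrametricDist K] (p q : ℕ) (hp : p.Prime)
    (hq : p = 2 * q + 1) (hpn : ‖(p : K)‖ = (p : ℝ)⁻¹) (x y : ℕ) (hxy : x + y = p * q - 1) :
    (∀ k : ℕ, ‖((y + k).factorial : K)‖ ≤ ‖(y.factorial : K)‖) ∧
    (∀ k : ℕ, x % p < k → ‖((y + k).factorial : K)‖ ≤ (p : ℝ)⁻¹ * ‖(y.factorial : K)‖) ∧
    (∀ k : ℕ, k ≤ x → x < p → ‖((y + k).factorial : K) * (x.factorial : K)‖ = ‖((p * q - 1).factorial : K)‖) := by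
  have hq1 : 1 ≤ q := by
    rcases Nat.eq_zero_or_pos q with h | h
    · subst h
      exact absurd (hq ▸ hp) (by norm_num)
    · exact h
  have hpos : 0 < p * q := Nat.mul_pos hp.pos hq1
  refine ⟨fun k => ?_, fun k hk => ?_, fun k hkx hxp => ?_⟩
  · rw [nf3a13_norm_split]
    refine mul_le_of_le_one_right (norm_nonneg _) ?_
    refine Finset.prod_le_one (fun i _ => norm_nonneg _) (fun i _ => (norm_nat_facts p hp hpn _).1)
  · rw [nf3a13_norm_split, mul_comm]
    refine mul_le_mul_of_nonneg_right ?_ (norm_nonneg _)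
    rw [← Finset.mul_prod_erase (range k) _ (Finset.mem_range.mpr hk)]
    have h1 : p ∣ (y + 1 + x % p) := by
      have hx : p * (x / p) + x % p = x := Nat.div_add_mod x p
      have h2 : y + 1 + x % p + p * (x / p) = p * q := by omega
      have h3 : p ∣ y + 1 + x % p + p * (x / p) := by rw [h2]; exact dvd_mul_right p q
      exact (Nat.dvd_add_left (dvd_mul_right p (x / p))).mp h3
    have h4 := (norm_nat_facts (K := K) p hp hpn (y + 1 + x % p)).2.2 h1
    have h5 : ∏ i ∈ (range k).erase (x % p), ‖((y + 1 + i : ℕ) : K)‖ ≤ 1 :=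
      Finset.prod_le_one (fun i _ => norm_nonneg _) (fun i _ => (norm_nat_facts p hp hpn _).1)
    calc ‖((y + 1 + x % p : ℕ) : K)‖ * ∏ i ∈ (range k).erase (x % p), ‖((y + 1 + i : ℕ) : K)‖
        ≤ (p : ℝ)⁻¹ * 1 := mul_le_mul h4 h5 (Finset.prod_nonneg (fun i _ => norm_nonneg _)) (by positivity)
      _ = (p : ℝ)⁻¹ := mul_one _
  · have hfac : ∀ i, i < x → ‖((y + 1 + i : ℕ) : K)‖ = 1 := by
      intro i hi
      refine (norm_nat_facts p hp hpn _).2.1 ?_
      intro hdvd
      have h2 : y + 1 + i + (x - i) = p * q := by omega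
      have h3 : p ∣ y + 1 + i + (x - i) := by rw [h2]; exact dvd_mul_right p q
      have h4 : p ∣ x - i := (Nat.dvd_add_right hdvd).mp h3
      have h5 : p ≤ x - i := Nat.le_of_dvd (by omega) h4
      omega
    have hx1 : ‖(x.factorial : K)‖ = 1 := by
      refine (norm_nat_facts p hp hpn _).2.1 ?_
      intro hdvd
      have := (hp.dvd_factorial).mp hdvd
      omega
    rw [norm_mul, hx1, mul_one, nf3a13_norm_split]
    have hprod : ∀ k, k ≤ x → ∏ i ∈ range k, ‖((y + 1 + i : ℕ) : K)‖ = 1 := by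
      intro k hk
      refine Finset.prod_eq_one (fun i hi => hfac i ?_)
      exact lt_of_lt_of_le (Finset.mem_range.mp hi) hk
    rw [hprod k hkx, mul_one]
    have h6 : p * q - 1 = y + x := by omega
    rw [h6, nf3a13_norm_split, hprod x le_rfl, mul_one]

end Pool.Agent.Helper805_nf
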