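import Pool.Agent.Helper805_nf.Defs3

set_option autoImplicit false

namespace Pool.Agent.Helper805_nf

open Finset

theorem exponent_ineq (p q γ W b0 b1 bA h1 hA : ℕ) (hq : p = 2 * q + 1) (hq1 : 1 ≤ q) (hW : h1 + hA = W)
    (hγ : γ ≤ q) (hcase : W ≤ γ ∨ (γ = q ∧ W < p)) (hne : ¬ (b0 = 0 ∧ bA = 0 ∧ hA = 0 ∧ b1 = γ - W)) :
    (p - 1) * W + 2 * (γ - W) < 2 * p * b0 + 2 * b1 + (p - 1) * h1 +
      (if (p - 1) * (((b1 + h1) % p + (bA + hA)) / p) < 2 * bA + (p - 1) * hA then p * (p - 1) else 0) +
      (if b0 = 0 ∧ (b1 + h1 + bA + hA) % p < γ then p * (p - 1) else 0) := by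
  subst hq
  have hp1 : 2 * q + 1 - 1 = 2 * q := by omega
  rw [hp1]
  have hm1 : (b1 + h1) % (2 * q + 1) < 2 * q + 1 := Nat.mod_lt _ (by omega)
  have hm2 : (b1 + h1) % (2 * q + 1) ≤ b1 + h1 := Nat.mod_le _ _
  have hr : (b1 + h1 + bA + hA) % (2 * q + 1)
      = ((b1 + h1) % (2 * q + 1) + (bA + hA)) % (2 * q + 1) := by
    rw [Nat.add_assoc (b1 + h1) bA hA, Nat.mod_add_mod]
  have hdm := Nat.div_add_mod ((b1 + h1) % (2 * q + 1) + (bA + hA)) (2 * q + 1)
  have hr1 : ((b1 + h1) % (2 * q + 1) + (bA + hA)) % (2 * q + 1) < 2 * q + 1 :=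
    Nat.mod_lt _ (by omega)
  rw [hr]
  generalize hmv : (b1 + h1) % (2 * q + 1) = m at *
  generalize hβv : (m + (bA + hA)) / (2 * q + 1) = β at *
  generalize hrv : (m + (bA + hA)) % (2 * q + 1) = r at *
  -- products
  have e1 : 2 * q * W = 2 * (q * h1) + 2 * (q * hA) := by rw [← hW]; ring
  have e2 : 2 * q * h1 = 2 * (q * h1) := by ring
  have e3 : 2 * q * hA = 2 * (q * hA) := by ring
  have e4 : 2 * q * β = 2 * (q * β) := by ring
  have e5 : (2 * q + 1) * β = 2 * (q * β) + β := by ring
  have e6 : (2 * q + 1) * (2 * q) = 4 * (q * q) + 2 * q := by ring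
  have e7 : 2 * (2 * q + 1) * b0 = 4 * (q * b0) + 2 * b0 := by ring
  rw [e1, e2, e3, e4, e6, e7]
  rw [e5] at hdm
  have hqq : q ≤ q * q := Nat.le_mul_of_pos_left q (by omega)
  by_cases hO : 2 * (q * β) < 2 * bA + 2 * (q * hA)
  · -- Case 1
    rw [if_pos hO]
    rcases hcase with hc | ⟨hc1, hc2⟩
    · have h5 : q * hA ≤ q * q := Nat.mul_le_mul_left q (by omega)
      omega
    · by_cases hWγ : W ≤ γ
      · have h5 : q * hA ≤ q * q := Nat.mul_le_mul_left q (by omega)
        omega
      · have h5 : q * hA ≤ q * (2 * q) := Nat.mul_le_mul_left q (by omega)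
        have h6 : q * (2 * q) = 2 * (q * q) := by ring
        omega
  · rw [if_neg hO]
    rcases Nat.eq_zero_or_pos (bA + hA) with ha | ha
    · -- Case 2
      have hbA : bA = 0 := by omega
      have hhA : hA = 0 := by omega
      subst hbA
      subst hhA
      rcases Nat.eq_zero_or_pos b0 with hb0 | hb0
      · subst hb0
        have hb1 : b1 ≠ γ - W := fun h => hne ⟨rfl, rfl, rfl, h⟩
        rcases lt_or_gt_of_ne hb1 with hlt | hgt
        · have h7 : m = b1 + h1 := by
            rw [← hmv]
            exact Nat.mod_eq_of_lt (by omega)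
          have h8 : r = m := by
            rw [← hrv]
            exact Nat.mod_eq_of_lt (by omega)
          rw [if_pos ⟨rfl, by omega⟩]
          omega
        · simp only [Nat.mul_zero]
          omega
      · have h9 : q ≤ q * b0 := Nat.le_mul_of_pos_right q hb0
        simp only [Nat.mul_zero]
        omega
    · -- Case 3
      have hβpos : 1 ≤ β := by
        by_contra h
        have h0 : β = 0 := by omega
        subst h0
        have h10 : bA + hA ≤ bA + q * hA := by
          have : hA ≤ q * hA := Nat.le_mul_of_pos_left hA (by omega)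
          omega
        simp only [Nat.mul_zero] at hO
        omega
      have h11 : 2 * (q * β) + β ≤ b1 + bA + W := by omega
      have h12 : q ≤ q * β := Nat.le_mul_of_pos_right q hβpos
      by_cases hWγ : W ≤ γ
      · omega
      · have hc : γ = q ∧ W < 2 * q + 1 := by
          rcases hcase with hc | hc
          · exact absurd hc hWγ
          · exact hc
        rcases Nat.eq_zero_or_pos b0 with hb0 | hb0
        · subst hb0
          by_cases hβ2 : 2 ≤ β
          · have h13 : q * 2 ≤ q * β := Nat.mul_le_mul_left q hβ2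
            simp only [Nat.mul_zero]
            omega
          · have hβ1 : β = 1 := by omega
            subst hβ1
            rw [Nat.mul_one] at *
            by_cases hrγ : r < γ
            · rw [if_pos ⟨rfl, hrγ⟩]
              have h5 : q * hA ≤ q * (2 * q) := Nat.mul_le_mul_left q (by omega)
              have h6 : q * (2 * q) = 2 * (q * q) := by ring
              omega
            · simp only [Nat.mul_zero]
              omega
        · have h9 : q ≤ q * b0 := Nat.le_mul_of_pos_right q hb0
          omega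

end Pool.Agent.Helper805_nf
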