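import Pool.Agent.Helper805_nf.Defs3
import Pool.Agent.Helper805_nf.Y1
import Pool.Agent.Helper805_nf.Y12
import Pool.Agent.Helper805_nf.Y13

set_option autoImplicit false

namespace Pool.Agent.Helper805_nf

open Finset





/-- factorials are nonzero -/
theorem a14_fact_pos {K : Type*} [NormedField K] [IsUltrametricDist K] (p : ℕ) (hp : p.Prime)
    (hpn : ‖(p : K)‖ = (p : ℝ)⁻¹) (n : ℕ) : 0 < ‖(n.factorial : K)‖ := by
  have h0 : ∀ a : ℕ, 1 ≤ a → (a : K) ≠ 0 := by
    intro a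
    induction a using Nat.strong_induction_on with
    | _ a ih =>
      intro ha
      by_cases hpa : p ∣ a
      · obtain ⟨b, rfl⟩ := hpa
        have hb : 1 ≤ b := by
          rcases Nat.eq_zero_or_pos b with h | h
          · rw [h, mul_zero] at ha
            omega
          · exact h
        have hlt : b < p * b := by nlinarith [hp.two_le]
        have h1 := ih b hlt hb
        have h2 : (p : K) ≠ 0 := by
          intro h
          rw [h, norm_zero] at hpn
          have : (0 : ℝ) < (p : ℝ)⁻¹ := inv_pos.2 (by exact_mod_cast hp.pos)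
          linarith
        rw [Nat.cast_mul]
        exact mul_ne_zero h2 h1
      · intro h
        have h1 := (norm_nat_facts p hp hpn a).2.1 hpa
        rw [h, norm_zero] at h1
        norm_num at h1
  rw [norm_pos_iff]
  induction n with
  | zero => simp
  | succ n ih =>
    rw [Nat.factorial_succ, Nat.cast_mul]
    exact mul_ne_zero (h0 _ (by omega)) ih

/-- products of the entries over a set -/
theorem a14_prod {K : Type*} [NormedField K] {m : ℕ} (p : ℕ) (t : ℝ)
    (H : Finset (Fin m)) (g : Fin m → K)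
    (hg : ∀ i, ‖g i‖ ≤ t ^ (if i ∈ H then p - 1 else 2)) (S : Finset (Fin m)) :
    ‖∏ i ∈ S, g i‖ ≤ t ^ (2 * (S \ H).card + (p - 1) * (S ∩ H).card) := by
  have h1 : ‖∏ i ∈ S, g i‖ ≤ ∏ i ∈ S, t ^ (if i ∈ H then p - 1 else 2) := by
    rw [norm_prod]
    exact Finset.prod_le_prod (fun _ _ => norm_nonneg _) fun i _ => hg i
  refine h1.trans (le_of_eq ?_)
  rw [Finset.prod_pow_eq_pow_sum]
  congr 1
  rw [Finset.sum_ite, Finset.sum_const, Finset.sum_const, smul_eq_mul, smul_eq_mul,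
    Finset.filter_mem_eq_inter, Finset.filter_notMem_eq_sdiff]
  ring

theorem a14_sum {m : ℕ} (p : ℕ) (H S : Finset (Fin m)) :
    ∑ i ∈ S, (if i ∈ H then p - 1 else 2) = 2 * (S \ H).card + (p - 1) * (S ∩ H).card := by
  rw [Finset.sum_ite, Finset.sum_const, Finset.sum_const, smul_eq_mul, smul_eq_mul,
    Finset.filter_mem_eq_inter, Finset.filter_notMem_eq_sdiff]
  ring

theorem term_bound {K : Type*} [NormedField K] [IsUltrametricDist K] (p q m γ W : ℕ) (hp : p.Prime)
    (hq : p = 2 * q + 1) (hpn : ‖(p : K)‖ = (p : ℝ)⁻¹) (t : ℝ) (ht0 : 0 < t) (ht1 : t < 1)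
    (htp : t ^ (p * (p - 1)) = (p : ℝ)⁻¹) (hm : m = p * q - 1 + γ) (hγ : γ ≤ q)
    (hcase : W ≤ γ ∨ (γ = q ∧ W < p)) (H : Finset (Fin m)) (hH : H.card = W) (c g : Fin m → K)
    (G J : Finset (Fin m) → K) (hc : ∀ i, ‖c i‖ ≤ 1) (hg : ∀ i, ‖g i‖ ≤ t ^ (if i ∈ H then p - 1 else 2))
    (hG : ∀ B, ‖G B‖ ≤ t ^ (2 * p * B.card)) (hGH : ∀ B, ∀ i ∈ B, i ∈ H → G B = 0)
    (hGc : ∀ B : Finset (Fin m), γ < B.card → G B = 0)
    (hJ : ∀ (A : Finset (Fin m)) (x y : ℕ), x + y + A.card = p * q - 1 →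
      ‖(x.factorial : K) * (y.factorial : K) * J A‖ ≤ ‖((p * q - 1).factorial : K)‖ ∧
      ((p - 1) * ((x % p + A.card) / p) < ∑ i ∈ A, (if i ∈ H then p - 1 else 2) →
        ‖(x.factorial : K) * (y.factorial : K) * J A‖ ≤ (p : ℝ)⁻¹ * ‖((p * q - 1).factorial : K)‖))
    (B0 A1 A : Finset (Fin m)) (hd1 : Disjoint B0 A1) (hd2 : Disjoint B0 A) (hd3 : Disjoint A1 A)
    (hHs : H ⊆ B0 ∪ A1 ∪ A) (hcard : A1.card + A.card ≤ p * q - 1)
    (hne : ¬ (B0 = ∅ ∧ A = ∅ ∧ A1.card = W + (γ - W))) :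
    ‖((m - (B0 ∪ A1 ∪ A).card).factorial : K) * (∏ i ∈ (B0 ∪ A1 ∪ A)ᶜ, c i) *
      (G B0 * ((-1 : K) ^ A1.card * (A1.card.factorial : K) * (∏ i ∈ A1, g i) * J A))‖ <
        ‖((p * q - 1).factorial : K)‖ * t ^ ((p - 1) * W + 2 * (γ - W)) := by
  have hq1 : 1 ≤ q := by
    rcases Nat.eq_zero_or_pos q with h | h
    · rw [h] at hq
      exact absurd hp (by rw [hq]; norm_num)
    · exact h
  have hF : 0 < ‖((p * q - 1).factorial : K)‖ := a14_fact_pos p hp hpn _
  have hRHS : 0 < ‖((p * q - 1).factorial : K)‖ * t ^ ((p - 1) * W + 2 * (γ - W)) :=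
    mul_pos hF (pow_pos ht0 _)
  by_cases hG0 : G B0 = 0
  · rw [hG0, zero_mul, mul_zero, norm_zero]
    exact hRHS
  have hB0H : ∀ i ∈ B0, i ∉ H := fun i hi hiH => hG0 (hGH B0 i hi hiH)
  have hb0 : B0.card ≤ γ := by
    by_contra h
    exact hG0 (hGc B0 (not_le.1 h))
  have hxcard : (A1 \ H).card + (A1 ∩ H).card = A1.card := Finset.card_sdiff_add_card_inter A1 H
  have hacard : (A \ H).card + (A ∩ H).card = A.card := Finset.card_sdiff_add_card_inter A H
  have hWcard : (A1 ∩ H).card + (A ∩ H).card = W := by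
    rw [← hH, ← Finset.card_union_of_disjoint
      (Finset.disjoint_of_subset_left Finset.inter_subset_left
        (Finset.disjoint_of_subset_right Finset.inter_subset_left hd3))]
    congr 1
    ext i
    simp only [Finset.mem_union, Finset.mem_inter]
    constructor
    · rintro (h | h)
      · exact h.2
      · exact h.2
    · intro hi
      have h1 := hHs hi
      simp only [Finset.mem_union] at h1
      rcases h1 with (h1 | h1) | h1
      · exact absurd hi (hB0H i h1)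
      · exact Or.inl ⟨h1, hi⟩
      · exact Or.inr ⟨h1, hi⟩
  have hdd : Disjoint (B0 ∪ A1) A := Finset.disjoint_union_left.2 ⟨hd2, hd3⟩
  have hU : (B0 ∪ A1 ∪ A).card = B0.card + A1.card + A.card := by
    rw [Finset.card_union_of_disjoint hdd, Finset.card_union_of_disjoint hd1]
  obtain ⟨y, hy⟩ : ∃ y, A1.card + y + A.card = p * q - 1 := ⟨p * q - 1 - (A1.card + A.card), by omega⟩
  have hmm : m - (B0 ∪ A1 ∪ A).card = y + (γ - B0.card) := by
    rw [hU]
    omega
  have hE := exponent_ineq p q γ W B0.card (A1 \ H).card (A \ H).card (A1 ∩ H).card (A ∩ H).card hq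
    hq1 hWcard hγ hcase (by
      rintro ⟨h1, h2, h3, h4⟩
      apply hne
      refine ⟨Finset.card_eq_zero.1 h1, Finset.card_eq_zero.1 (by omega), by omega⟩)
  rw [hxcard, hacard] at hE
  have hxa : A1.card + (A \ H).card + (A ∩ H).card = A1.card + A.card := by
    omega
  rw [hxa] at hE
  -- first factor
  obtain ⟨hf1, hf2, _⟩ := factorial_ratio (K := K) p q hp hq hpn (A1.card + A.card) y (by omega)
  have hN1 : ‖((m - (B0 ∪ A1 ∪ A).card).factorial : K)‖ ≤
      t ^ (if B0.card = 0 ∧ (A1.card + A.card) % p < γ then p * (p - 1) else 0) *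
        ‖(y.factorial : K)‖ := by
    rw [hmm]
    by_cases h : B0.card = 0 ∧ (A1.card + A.card) % p < γ
    · rw [if_pos h, htp]
      apply hf2
      rw [h.1]
      simpa using h.2
    · rw [if_neg h, pow_zero, one_mul]
      exact hf1 _
  -- second factor
  obtain ⟨hj1, hj2⟩ := hJ A A1.card y hy
  have hN2 : ‖(A1.card.factorial : K) * (y.factorial : K) * J A‖ ≤
      t ^ (if (p - 1) * ((A1.card % p + A.card) / p) < 2 * (A \ H).card + (p - 1) * (A ∩ H).card
        then p * (p - 1) else 0) * ‖((p * q - 1).factorial : K)‖ := by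
    by_cases h : (p - 1) * ((A1.card % p + A.card) / p) < 2 * (A \ H).card + (p - 1) * (A ∩ H).card
    · rw [if_pos h, htp]
      apply hj2
      rw [a14_sum]
      exact h
    · rw [if_neg h, pow_zero, one_mul]
      exact hj1
  have hC : ‖∏ i ∈ (B0 ∪ A1 ∪ A)ᶜ, c i‖ ≤ 1 := by
    rw [norm_prod]
    exact Finset.prod_le_one (fun _ _ => norm_nonneg _) fun i _ => hc i
  have hg1 := a14_prod p t H g hg A1
  have hG1 := hG B0
  set e1 := if B0.card = 0 ∧ (A1.card + A.card) % p < γ then p * (p - 1) else 0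
  set e2 := if (p - 1) * ((A1.card % p + A.card) / p) < 2 * (A \ H).card + (p - 1) * (A ∩ H).card
    then p * (p - 1) else 0
  have hm1 : ‖(-1 : K) ^ A1.card‖ = 1 := by
    rw [norm_pow, norm_neg, norm_one, one_pow]
  have hpt : ∀ k : ℕ, 0 ≤ t ^ k := fun k => pow_nonneg ht0.le k
  calc ‖((m - (B0 ∪ A1 ∪ A).card).factorial : K) * (∏ i ∈ (B0 ∪ A1 ∪ A)ᶜ, c i) *
      (G B0 * ((-1 : K) ^ A1.card * (A1.card.factorial : K) * (∏ i ∈ A1, g i) * J A))‖
      = ‖((m - (B0 ∪ A1 ∪ A).card).factorial : K)‖ * ‖∏ i ∈ (B0 ∪ A1 ∪ A)ᶜ, c i‖ *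
        (‖G B0‖ * (‖(A1.card.factorial : K)‖ * ‖∏ i ∈ A1, g i‖ * ‖J A‖)) := by
        rw [norm_mul, norm_mul, norm_mul, norm_mul, norm_mul, norm_mul, hm1, one_mul]
    _ ≤ (t ^ e1 * ‖(y.factorial : K)‖) * 1 *
        (t ^ (2 * p * B0.card) * (‖(A1.card.factorial : K)‖ *
          t ^ (2 * (A1 \ H).card + (p - 1) * (A1 ∩ H).card) * ‖J A‖)) := by
        have := hpt e1
        gcongr
    _ = t ^ (e1 + 2 * p * B0.card + (2 * (A1 \ H).card + (p - 1) * (A1 ∩ H).card)) *
        ‖(A1.card.factorial : K) * (y.factorial : K) * J A‖ := by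
        rw [norm_mul, norm_mul, pow_add, pow_add]
        ring
    _ ≤ t ^ (e1 + 2 * p * B0.card + (2 * (A1 \ H).card + (p - 1) * (A1 ∩ H).card)) *
        (t ^ e2 * ‖((p * q - 1).factorial : K)‖) := mul_le_mul_of_nonneg_left hN2 (hpt _)
    _ = ‖((p * q - 1).factorial : K)‖ *
        t ^ (2 * p * B0.card + 2 * (A1 \ H).card + (p - 1) * (A1 ∩ H).card + e2 + e1) := by
        rw [pow_add, pow_add, pow_add, pow_add, pow_add, pow_add, pow_add]
        ring
    _ < _ := mul_lt_mul_of_pos_left (pow_lt_pow_right_of_lt_one₀ ht0 ht1 hE) hF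

end Pool.Agent.Helper805_nf
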