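import Pool.Agent.Helper805_nf.Defs3
import Pool.Agent.Helper805_nf.Y1
import Pool.Agent.Helper805_nf.Y13
import Pool.Agent.Helper805_nf.Y14

set_option autoImplicit false

namespace Pool.Agent.Helper805_nf

open Finset






/-- sums of small terms are small -/
theorem a8_sum_lt {K ι : Type*} [NormedField K] [IsUltrametricDist K] (V : ℝ) (hV : 0 < V)
    (s : Finset ι) (f : ι → K) (h : ∀ i ∈ s, ‖f i‖ < V) : ‖∑ i ∈ s, f i‖ < V := by
  classical
  induction s using Finset.induction_on with
  | empty => simpa using hV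
  | insert a s ha ih =>
    rw [Finset.sum_insert ha]
    refine lt_of_le_of_lt (IsUltrametricDist.norm_add_le_max _ _) (max_lt ?_ ?_)
    · exact h a (Finset.mem_insert_self a s)
    · exact ih fun i hi => h i (Finset.mem_insert_of_mem hi)

theorem a8_nat_ne {K : Type*} [NormedField K] [IsUltrametricDist K] (p : ℕ) (hp : p.Prime)
    (hpn : ‖(p : K)‖ = (p : ℝ)⁻¹) : ∀ n : ℕ, 0 < n → (n : K) ≠ 0 := by
  intro n
  induction n using Nat.strong_induction_on with
  | _ n ih =>
    intro hn
    by_cases hd : p ∣ n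
    · obtain ⟨k, rfl⟩ := hd
      have hk : 0 < k := Nat.pos_of_mul_pos_left hn
      have hkn : k < p * k := by
        have := hp.two_le
        nlinarith
      have hp0 : (p : K) ≠ 0 := by
        rw [← norm_ne_zero_iff, hpn]
        have : (0 : ℝ) < p := by exact_mod_cast hp.pos
        positivity
      push_cast
      exact mul_ne_zero hp0 (ih k hkn hk)
    · have := (norm_nat_facts (K := K) p hp hpn n).2.1 hd
      rw [← norm_ne_zero_iff, this]
      norm_num

theorem a8_fact_ne {K : Type*} [NormedField K] [IsUltrametricDist K] (p : ℕ) (hp : p.Prime)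
    (hpn : ‖(p : K)‖ = (p : ℝ)⁻¹) (n : ℕ) : (n.factorial : K) ≠ 0 :=
  a8_nat_ne p hp hpn _ (Nat.factorial_pos n)

theorem total_bound {K : Type*} [NormedField K] [IsUltrametricDist K] (p q m γ W : ℕ) (hp : p.Prime)
    (hq : p = 2 * q + 1) (hpn : ‖(p : K)‖ = (p : ℝ)⁻¹) (t : ℝ) (ht0 : 0 < t) (ht1 : t < 1)
    (htp : t ^ (p * (p - 1)) = (p : ℝ)⁻¹) (hm : m = p * q - 1 + γ) (hγ : γ ≤ q)
    (hcase : W ≤ γ ∨ (γ = q ∧ W < p)) (H : Finset (Fin m)) (hH : H.card = W) (c g : Fin m → K)
    (G J : Finset (Fin m) → K) (hc : ∀ i, ‖c i‖ ≤ 1) (hcH : ∀ i ∈ H, c i = 0)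
    (hg : ∀ i, ‖g i‖ ≤ t ^ (if i ∈ H then p - 1 else 2)) (hgH : ∀ i ∈ H, ‖g i‖ = t ^ (p - 1))
    (hG : ∀ B, ‖G B‖ ≤ t ^ (2 * p * B.card)) (hG1 : G ∅ = 1) (hJ1 : J ∅ = 1)
    (hGH : ∀ B, ∀ i ∈ B, i ∈ H → G B = 0) (hGc : ∀ B : Finset (Fin m), γ < B.card → G B = 0)
    (hJ : ∀ (A : Finset (Fin m)) (x y : ℕ), x + y + A.card = p * q - 1 →
      ‖(x.factorial : K) * (y.factorial : K) * J A‖ ≤ ‖((p * q - 1).factorial : K)‖ ∧
      ((p - 1) * ((x % p + A.card) / p) < ∑ i ∈ A, (if i ∈ H then p - 1 else 2) →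
        ‖(x.factorial : K) * (y.factorial : K) * J A‖ ≤ (p : ℝ)⁻¹ * ‖((p * q - 1).factorial : K)‖))
    (hzero : ∀ E : Finset (Fin m), p * q - 1 < E.card → delSum g J E = 0)
    (hmain : ‖∑ B ∈ (Hᶜ).powersetCard (γ - W), (∏ i ∈ Hᶜ \ B, c i) * ∏ i ∈ B, g i‖ = t ^ (2 * (γ - W))) :
    ∑ B : Finset (Fin m), ((m - B.card).factorial : K) * (∏ i ∈ Bᶜ, c i) *
      ∑ B0 ∈ B.powerset, G B0 * delSum g J (B \ B0) ≠ 0 := by
  classical
  have hq1 : 1 ≤ q := by
    rcases Nat.eq_zero_or_pos q with h | h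
    · subst h; rw [hq] at hp; exact absurd hp (by norm_num)
    · exact h
  obtain ⟨N, hN⟩ : ∃ N, N = p * q - 1 := ⟨_, rfl⟩
  have hpq : p ≤ p * q := Nat.le_mul_of_pos_right _ hq1
  obtain ⟨x0, hx0⟩ : ∃ x0, x0 = W + (γ - W) := ⟨_, rfl⟩
  have hx0p : x0 < p := by rcases hcase with h | ⟨h1, h2⟩ <;> omega
  have hx0N : x0 ≤ N := by omega
  have hγx : γ ≤ x0 := by omega
  obtain ⟨V, hVdef⟩ : ∃ V : ℝ, V = ‖((p * q - 1).factorial : K)‖ * t ^ ((p - 1) * W + 2 * (γ - W)) :=
    ⟨_, rfl⟩
  have hV : 0 < V := by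
    rw [hVdef]
    exact mul_pos (norm_pos_iff.2 (a8_fact_ne p hp hpn _)) (pow_pos ht0 _)
  -- main terms
  let M : Finset (Fin m) → K := fun B => if H ⊆ B ∧ B.card = x0 then
    ((m - B.card).factorial : K) * (∏ i ∈ Bᶜ, c i) *
      (G ∅ * ((-1 : K) ^ B.card * (B.card.factorial : K) * (∏ i ∈ B, g i) * J ∅)) else 0
  have hrest : ‖(∑ B : Finset (Fin m), ((m - B.card).factorial : K) * (∏ i ∈ Bᶜ, c i) *
      ∑ B0 ∈ B.powerset, G B0 * delSum g J (B \ B0)) - ∑ B : Finset (Fin m), M B‖ < V := by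
    rw [← Finset.sum_sub_distrib]
    refine a8_sum_lt V hV _ _ fun B _ => ?_
    have e1 : ((m - B.card).factorial : K) * (∏ i ∈ Bᶜ, c i) *
        (∑ B0 ∈ B.powerset, G B0 * delSum g J (B \ B0)) - M B =
        ∑ B0 ∈ B.powerset, (((m - B.card).factorial : K) * (∏ i ∈ Bᶜ, c i) *
          (G B0 * delSum g J (B \ B0)) - (if B0 = ∅ then M B else 0)) := by
      rw [Finset.sum_sub_distrib, Finset.mul_sum, Finset.sum_ite_eq' B.powerset ∅ (fun _ => M B),
        if_pos (Finset.empty_mem_powerset B)]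
    rw [e1]
    refine a8_sum_lt V hV _ _ fun B0 hB0 => ?_
    rw [Finset.mem_powerset] at hB0
    by_cases hbig : p * q - 1 < (B \ B0).card
    · rw [hzero _ hbig, mul_zero, mul_zero]
      by_cases h0 : B0 = ∅
      · rw [if_pos h0]
        have : M B = 0 := by
          refine if_neg fun h => ?_
          rw [h0, Finset.sdiff_empty] at hbig
          omega
        rw [this]; simpa using hV
      · rw [if_neg h0]; simpa using hV
    · rw [not_lt] at hbig
      have e2 : ((m - B.card).factorial : K) * (∏ i ∈ Bᶜ, c i) *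
          (G B0 * delSum g J (B \ B0)) - (if B0 = ∅ then M B else 0) =
          ∑ A1 ∈ (B \ B0).powerset, (((m - B.card).factorial : K) * (∏ i ∈ Bᶜ, c i) *
            (G B0 * ((-1 : K) ^ A1.card * (A1.card.factorial : K) * (∏ i ∈ A1, g i) *
              J ((B \ B0) \ A1))) - (if A1 = B \ B0 then (if B0 = ∅ then M B else 0) else 0)) := by
        rw [Finset.sum_sub_distrib,
          Finset.sum_ite_eq' (B \ B0).powerset (B \ B0) (fun _ => if B0 = ∅ then M B else 0),
          if_pos (Finset.mem_powerset_self _)]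
        unfold delSum
        rw [Finset.mul_sum, Finset.mul_sum]
      rw [e2]
      refine a8_sum_lt V hV _ _ fun A1 hA1 => ?_
      rw [Finset.mem_powerset] at hA1
      by_cases hHB : H ⊆ B
      · by_cases hmn : B0 = ∅ ∧ A1 = B \ B0 ∧ B.card = x0
        · obtain ⟨h1, h2, h3⟩ := hmn
          subst h1
          rw [Finset.sdiff_empty] at h2
          subst h2
          have : M A1 = ((m - A1.card).factorial : K) * (∏ i ∈ A1ᶜ, c i) *
            (G ∅ * ((-1 : K) ^ A1.card * (A1.card.factorial : K) * (∏ i ∈ A1, g i) * J ∅)) :=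
            if_pos ⟨hHB, h3⟩
          rw [Finset.sdiff_empty, if_pos rfl, if_pos rfl, this, Finset.sdiff_self, sub_self, norm_zero]
          exact hV
        · have hz : (if A1 = B \ B0 then (if B0 = ∅ then M B else 0) else 0) = (0 : K) := by
            by_cases h1 : A1 = B \ B0
            · by_cases h2 : B0 = ∅
              · rw [if_pos h1, if_pos h2]
                exact if_neg fun h => hmn ⟨h2, h1, h.2⟩
              · rw [if_pos h1, if_neg h2]
            · rw [if_neg h1]
          rw [hz, sub_zero]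
          have hU : B0 ∪ A1 ∪ ((B \ B0) \ A1) = B := by
            rw [Finset.union_assoc, Finset.union_sdiff_of_subset hA1, Finset.union_sdiff_of_subset hB0]
          have hd1 : Disjoint B0 A1 :=
            Finset.disjoint_of_subset_right hA1 Finset.disjoint_sdiff
          have hd2 : Disjoint B0 ((B \ B0) \ A1) :=
            Finset.disjoint_of_subset_right Finset.sdiff_subset Finset.disjoint_sdiff
          have hd3 : Disjoint A1 ((B \ B0) \ A1) := Finset.disjoint_sdiff
          have hcd : A1.card + ((B \ B0) \ A1).card = (B \ B0).card := by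
            rw [Finset.card_sdiff_of_subset hA1]
            have := Finset.card_le_card hA1
            omega
          have key := term_bound p q m γ W hp hq hpn t ht0 ht1 htp hm hγ hcase H hH c g G J hc hg hG hGH
            hGc hJ B0 A1 ((B \ B0) \ A1) hd1 hd2 hd3 (by rw [hU]; exact hHB) (by rw [hcd]; exact hbig)
            (by
              rintro ⟨h1, h2, h3⟩
              refine hmn ⟨h1, ?_, ?_⟩
              · exact Finset.Subset.antisymm hA1 (Finset.sdiff_eq_empty_iff_subset.1 h2)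
              · have h4 : A1 = B \ B0 :=
                  Finset.Subset.antisymm hA1 (Finset.sdiff_eq_empty_iff_subset.1 h2)
                rw [h1, Finset.sdiff_empty] at h4
                rw [← h4, h3, hx0])
          rw [hU, ← hVdef] at key
          exact key
      · have hc0 : ∏ i ∈ Bᶜ, c i = 0 := by
          obtain ⟨i, hi, hiB⟩ := Finset.not_subset.1 hHB
          exact Finset.prod_eq_zero (Finset.mem_compl.2 hiB) (hcH i hi)
        have hM0 : M B = 0 := if_neg fun h => hHB h.1
        rw [hc0, hM0]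
        simpa using hV
  have hmainn : ‖∑ B : Finset (Fin m), M B‖ = V := by
    have e1 : ∑ B : Finset (Fin m), M B = ∑ B ∈ (Hᶜ).powersetCard (γ - W), M (H ∪ B) := by
      have hsub : ∑ B : Finset (Fin m), M B =
          ∑ B ∈ ((Hᶜ).powersetCard (γ - W)).image (fun B => H ∪ B), M B := by
        symm
        refine Finset.sum_subset (Finset.subset_univ _) fun B _ hB => if_neg fun h => hB ?_
        rw [Finset.mem_image]
        refine ⟨B \ H, ?_, Finset.union_sdiff_of_subset h.1⟩
        rw [Finset.mem_powersetCard]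
        refine ⟨?_, ?_⟩
        · intro i hi
          rw [Finset.mem_compl]
          exact (Finset.mem_sdiff.1 hi).2
        · rw [Finset.card_sdiff_of_subset h.1, h.2, hH]; omega
      rw [hsub, Finset.sum_image]
      intro B1 h1 B2 h2 h
      have h1' := (Finset.mem_powersetCard.1 h1).1
      have h2' := (Finset.mem_powersetCard.1 h2).1
      have d1 : Disjoint B1 H := by
        rw [Finset.disjoint_left]; intro i hi; exact Finset.mem_compl.1 (h1' hi)
      have d2 : Disjoint B2 H := by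
        rw [Finset.disjoint_left]; intro i hi; exact Finset.mem_compl.1 (h2' hi)
      have h3 : (H ∪ B1) \ H = (H ∪ B2) \ H := by
        have h' : H ∪ B1 = H ∪ B2 := h
        rw [h']
      rwa [Finset.union_sdiff_cancel_left d1.symm, Finset.union_sdiff_cancel_left d2.symm] at h3
    have e2 : ∑ B ∈ (Hᶜ).powersetCard (γ - W), M (H ∪ B) =
        (((m - x0).factorial : K) * (x0.factorial : K)) * (-1 : K) ^ x0 * (∏ i ∈ H, g i) *
        ∑ B ∈ (Hᶜ).powersetCard (γ - W), (∏ i ∈ Hᶜ \ B, c i) * ∏ i ∈ B, g i := by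
      rw [Finset.mul_sum]
      refine Finset.sum_congr rfl fun B hB => ?_
      obtain ⟨h1, h2⟩ := Finset.mem_powersetCard.1 hB
      have d1 : Disjoint H B := by
        rw [Finset.disjoint_right]; intro i hi; exact Finset.mem_compl.1 (h1 hi)
      have hcd : (H ∪ B).card = x0 := by
        rw [Finset.card_union_of_disjoint d1, hH, h2, hx0]
      have hM : M (H ∪ B) = ((m - (H ∪ B).card).factorial : K) * (∏ i ∈ (H ∪ B)ᶜ, c i) *
          (G ∅ * ((-1 : K) ^ (H ∪ B).card * ((H ∪ B).card.factorial : K) *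
            (∏ i ∈ (H ∪ B), g i) * J ∅)) := if_pos ⟨Finset.subset_union_left, hcd⟩
      have hcc : (H ∪ B)ᶜ = Hᶜ \ B := by
        ext i; simp [Finset.mem_sdiff, not_or]
      rw [hM, hcd, hG1, hJ1, hcc, Finset.prod_union d1]
      ring
    have e3 : ‖((m - x0).factorial : K) * (x0.factorial : K)‖ = ‖((p * q - 1).factorial : K)‖ := by
      have := (factorial_ratio (K := K) p q hp hq hpn x0 (N - x0) (by omega)).2.2 γ hγx hx0p
      rw [← this]
      congr 3
      congr 1
      omega
    have e4 : ‖∏ i ∈ H, g i‖ = t ^ ((p - 1) * W) := by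
      rw [norm_prod, Finset.prod_congr rfl hgH, Finset.prod_const, hH, ← pow_mul]
    rw [e1, e2, norm_mul, norm_mul, norm_mul, e3, e4, hmain, norm_pow, norm_neg, norm_one, one_pow,
      mul_one, hVdef, pow_add]
    ring
  intro h0
  rw [h0, zero_sub, norm_neg, hmainn] at hrest
  exact lt_irrefl _ hrest


end Pool.Agent.Helper805_nf
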