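import Pool.Agent.Helper805_nf.Defs3
import Pool.Agent.Helper805_nf.Y1

set_option autoImplicit false

namespace Pool.Agent.Helper805_nf

open Finset



theorem j6502_coeff {R ι : Type*} [CommRing R] [DecidableEq ι] (U : Finset ι) (a c : ι → R)
    (b : ℕ) :
    (∏ i ∈ U, (Polynomial.C (a i) + Polynomial.C (c i) * Polynomial.X)).coeff b
      = ∑ B ∈ U.powersetCard b, (∏ i ∈ U \ B, a i) * ∏ i ∈ B, c i := by
  have h1 : (∏ i ∈ U, (Polynomial.C (a i) + Polynomial.C (c i) * Polynomial.X))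
      = ∑ B ∈ U.powerset, Polynomial.C ((∏ i ∈ U \ B, a i) * ∏ i ∈ B, c i) *
          Polynomial.X ^ B.card := by
    rw [Finset.prod_congr rfl (fun i _ => add_comm (Polynomial.C (a i))
      (Polynomial.C (c i) * Polynomial.X)), Finset.prod_add]
    refine Finset.sum_congr rfl (fun B hB => ?_)
    rw [Finset.prod_mul_distrib, Finset.prod_const, map_mul, map_prod, map_prod]
    ring
  rw [h1, Polynomial.finsetSum_coeff, Finset.powersetCard_eq_filter, Finset.sum_filter]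
  refine Finset.sum_congr rfl (fun B hB => ?_)
  rw [Polynomial.coeff_C_mul, Polynomial.coeff_X_pow]
  by_cases h : B.card = b
  · simp [h]
  · have h' : ¬ b = B.card := fun h2 => h h2.symm
    simp [h, h']

theorem j6502_norm_le {K : Type*} [NormedField K] [IsUltrametricDist K] (g k x : K)
    (hx : ‖x‖ < 1) (hk : ‖k‖ ≤ 1) (h : ‖g - k * x‖ ≤ ‖x‖ ^ 2) : ‖g‖ ≤ ‖x‖ := by
  have h0 : g = (g - k * x) + k * x := by ring
  rw [h0]
  refine (IsUltrametricDist.norm_add_le_max _ _).trans (max_le ?_ ?_)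
  · refine h.trans ?_
    have := norm_nonneg x
    nlinarith
  · rw [norm_mul]
    have := norm_nonneg x
    nlinarith

theorem j6502_prod_le {K ι : Type*} [NormedField K] [DecidableEq ι] (B : Finset ι) (g : ι → K)
    (r : ℝ) (h : ∀ i ∈ B, ‖g i‖ ≤ r) : ‖∏ i ∈ B, g i‖ ≤ r ^ B.card := by
  rw [norm_prod, ← Finset.prod_const]
  exact Finset.prod_le_prod (fun i _ => norm_nonneg _) h

theorem j6502_prod_diff {K ι : Type*} [NormedField K] [IsUltrametricDist K] [DecidableEq ι]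
    (B : Finset ι) (g k : ι → K) (x : K) (hx : ‖x‖ < 1) (hk : ∀ i ∈ B, ‖k i‖ ≤ 1)
    (hg : ∀ i ∈ B, ‖g i - k i * x‖ ≤ ‖x‖ ^ 2) :
    ‖∏ i ∈ B, g i - (∏ i ∈ B, k i) * x ^ B.card‖ ≤ ‖x‖ ^ (B.card + 1) := by
  induction B using Finset.induction_on with
  | empty => simp
  | insert a B ha ih =>
    rw [Finset.prod_insert ha, Finset.prod_insert ha, Finset.card_insert_of_notMem ha]
    have hk' : ∀ i ∈ B, ‖k i‖ ≤ 1 := fun i hi => hk i (Finset.mem_insert_of_mem hi)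
    have hg' : ∀ i ∈ B, ‖g i - k i * x‖ ≤ ‖x‖ ^ 2 := fun i hi => hg i (Finset.mem_insert_of_mem hi)
    have ih' := ih hk' hg'
    have hka := hk a (Finset.mem_insert_self a B)
    have hga := hg a (Finset.mem_insert_self a B)
    have hG : ‖∏ i ∈ B, g i‖ ≤ ‖x‖ ^ B.card :=
      j6502_prod_le B g ‖x‖ (fun i hi => j6502_norm_le (g i) (k i) x hx (hk' i hi) (hg' i hi))
    have hsplit : g a * ∏ i ∈ B, g i - k a * (∏ i ∈ B, k i) * x ^ (B.card + 1)
        = (g a - k a * x) * ∏ i ∈ B, g i +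
          (k a * x) * (∏ i ∈ B, g i - (∏ i ∈ B, k i) * x ^ B.card) := by ring
    rw [hsplit]
    have hx0 := norm_nonneg x
    refine (IsUltrametricDist.norm_add_le_max _ _).trans (max_le ?_ ?_)
    · rw [norm_mul]
      calc ‖g a - k a * x‖ * ‖∏ i ∈ B, g i‖ ≤ ‖x‖ ^ 2 * ‖x‖ ^ B.card :=
            mul_le_mul hga hG (norm_nonneg _) (by positivity)
        _ = ‖x‖ ^ (B.card + 1 + 1) := by ring
    · rw [norm_mul, norm_mul]
      calc ‖k a‖ * ‖x‖ * ‖∏ i ∈ B, g i - (∏ i ∈ B, k i) * x ^ B.card‖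
          ≤ 1 * ‖x‖ * ‖x‖ ^ (B.card + 1) :=
            mul_le_mul (mul_le_mul_of_nonneg_right hka hx0) ih' (norm_nonneg _) (by positivity)
        _ = ‖x‖ ^ (B.card + 1 + 1) := by ring

theorem main_coeff {K : Type*} [NormedField K] [IsUltrametricDist K] (p : ℕ) (hp : p.Prime)
    (hpn : ‖(p : K)‖ = (p : ℝ)⁻¹) {ι : Type*} [DecidableEq ι] (U : Finset ι) (e : ι → ℕ) (g : ι → K) (x : K)
    (hx : ‖x‖ < 1) (hx0 : x ≠ 0)
    (hg : ∀ i ∈ U, ‖g i - (((e i + 1).choose 3 : ℕ) : K) * x‖ ≤ ‖x‖ ^ 2) (b : ℕ)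
    (hb : (∏ i ∈ U, (Polynomial.C (e i : ZMod p) +
      Polynomial.C (((e i + 1).choose 3 : ℕ) : ZMod p) * Polynomial.X)).coeff b ≠ 0) :
    ‖∑ B ∈ U.powersetCard b, (∏ i ∈ U \ B, (e i : K)) * ∏ i ∈ B, g i‖ = ‖x‖ ^ b := by
  rw [j6502_coeff] at hb
  have hnat : ∀ n : ℕ, ‖(n : K)‖ ≤ 1 := fun n => (norm_nat_facts p hp hpn n).1
  set s : ℕ := ∑ B ∈ U.powersetCard b, (∏ i ∈ U \ B, e i) * ∏ i ∈ B, (e i + 1).choose 3 with hs
  have hsz : (s : ZMod p) ≠ 0 := by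
    rw [hs]
    push_cast
    exact hb
  have hps : ¬ p ∣ s := by
    intro h
    exact hsz ((ZMod.natCast_eq_zero_iff s p).2 h)
  have hs1 : ‖(s : K)‖ = 1 := (norm_nat_facts p hp hpn s).2.1 hps
  have hxpos : 0 < ‖x‖ := norm_pos_iff.2 hx0
  have hsx : ‖(s : K) * x ^ b‖ = ‖x‖ ^ b := by rw [norm_mul, norm_pow, hs1, one_mul]
  set S : K := ∑ B ∈ U.powersetCard b, (∏ i ∈ U \ B, (e i : K)) * ∏ i ∈ B, g i with hS
  have hdiff : S - (s : K) * x ^ b = ∑ B ∈ U.powersetCard b, (∏ i ∈ U \ B, (e i : K)) *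
      (∏ i ∈ B, g i - (∏ i ∈ B, (((e i + 1).choose 3 : ℕ) : K)) * x ^ B.card) := by
    rw [hS, hs]
    push_cast
    rw [Finset.sum_mul, ← Finset.sum_sub_distrib]
    refine Finset.sum_congr rfl (fun B hB => ?_)
    rw [(Finset.mem_powersetCard.1 hB).2]
    ring
  have hle : ‖S - (s : K) * x ^ b‖ ≤ ‖x‖ ^ (b + 1) := by
    rw [hdiff]
    refine IsUltrametricDist.norm_sum_le_of_forall_le_of_nonneg (by positivity) (fun B hB => ?_)
    obtain ⟨hBU, hBb⟩ := Finset.mem_powersetCard.1 hB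
    have h1 : ‖∏ i ∈ U \ B, (e i : K)‖ ≤ 1 := by
      have := j6502_prod_le (U \ B) (fun i => (e i : K)) 1 (fun i _ => hnat (e i))
      simpa using this
    have h2 := j6502_prod_diff B g (fun i => (((e i + 1).choose 3 : ℕ) : K)) x hx
      (fun i _ => hnat _) (fun i hi => hg i (hBU hi))
    rw [norm_mul]
    rw [hBb] at h2 ⊢
    calc _ ≤ 1 * ‖x‖ ^ (b + 1) := mul_le_mul h1 h2 (norm_nonneg _) zero_le_one
      _ = ‖x‖ ^ (b + 1) := one_mul _
  have hlt : ‖x‖ ^ (b + 1) < ‖x‖ ^ b := by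
    rw [pow_succ]
    have : 0 < ‖x‖ ^ b := by positivity
    nlinarith
  have hSeq : S = (S - (s : K) * x ^ b) + (s : K) * x ^ b := by ring
  rw [hSeq, IsUltrametricDist.norm_add_eq_max_of_norm_ne_norm, hsx]
  · exact max_eq_right (hle.trans hlt.le)
  · rw [hsx]
    exact ne_of_lt (lt_of_le_of_lt hle hlt)

end Pool.Agent.Helper805_nf
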