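import Pool.Agent.Helper805_nf.Defs3
import Pool.Agent.Helper805_nf.Y1

set_option autoImplicit false

namespace Pool.Agent.Helper805_nf

open Finset



/-- In an ultrametric field the powers of an element of norm one are no further from one. -/
theorem nf3a2_pow_sub_one_le {K : Type*} [NormedField K] [IsUltrametricDist K] (x : K)
    (hx : ‖x‖ = 1) (j : ℕ) : ‖x ^ j - 1‖ ≤ ‖x - 1‖ := by
  induction j with
  | zero => simp
  | succ j ih =>
    have h : x ^ (j + 1) - 1 = x * (x ^ j - 1) + (x - 1) := by ring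
    rw [h]
    refine (IsUltrametricDist.norm_add_le_max _ _).trans (max_le ?_ le_rfl)
    rw [norm_mul, hx, one_mul]
    exact ih

theorem nf3a2_norm_one {K : Type*} [NormedField K] {N : ℕ} (hN : N ≠ 0) (x : K)
    (hx : x ^ N = 1) : ‖x‖ = 1 := by
  have h : ‖x‖ ^ N = 1 := by rw [← norm_pow, hx, norm_one]
  exact (pow_eq_one_iff_of_nonneg (norm_nonneg x) hN).1 h

/-- Coprime powers are at the same distance from one. -/
theorem nf3a2_coprime {K : Type*} [NormedField K] [IsUltrametricDist K] {N : ℕ} (hN : 1 < N)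
    (x : K) (hx : x ^ N = 1) (j : ℕ) (hj : Nat.Coprime j N) : ‖x ^ j - 1‖ = ‖x - 1‖ := by
  have h1 : ‖x‖ = 1 := nf3a2_norm_one (by omega) x hx
  refine le_antisymm (nf3a2_pow_sub_one_le x h1 j) ?_
  obtain ⟨m, -, hm⟩ := Nat.exists_mul_mod_eq_one_of_coprime hj hN
  have h2 : (x ^ j) ^ m = x := by
    rw [← pow_mul, ← Nat.div_add_mod (j * m) N, pow_add, pow_mul, hx, one_pow, one_mul]
    rw [hm, pow_one]
  have h3 : ‖x ^ j‖ = 1 := by rw [norm_pow, h1, one_pow]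
  have h4 := nf3a2_pow_sub_one_le (x ^ j) h3 m
  rwa [h2] at h4

/-- The norm of `1 - ζ` for a primitive root of unity of prime power order. -/
theorem nf3a2_prim {K : Type*} [NormedField K] [IsUltrametricDist K] (p : ℕ) (hp : p.Prime)
    (hpn : ‖(p : K)‖ = (p : ℝ)⁻¹) (k : ℕ) (x : K) (hx : IsPrimitiveRoot x (p ^ (k + 1))) :
    ‖x - 1‖ ^ (p ^ k * (p - 1)) = (p : ℝ)⁻¹ := by
  have : Fact p.Prime := ⟨hp⟩
  have hN : 1 < p ^ (k + 1) := Nat.one_lt_pow (by omega) hp.one_lt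
  have h1 : (Polynomial.cyclotomic (p ^ (k + 1)) K).eval 1 = (p : K) :=
    Polynomial.eval_one_cyclotomic_prime_pow k
  rw [Polynomial.cyclotomic_eq_prod_X_sub_primitiveRoots hx, Polynomial.eval_prod] at h1
  have h2 : ∏ μ ∈ primitiveRoots (p ^ (k + 1)) K, ‖(Polynomial.X - Polynomial.C μ).eval 1‖ =
      (p : ℝ)⁻¹ := by
    rw [← norm_prod, h1, hpn]
  have h3 : ∀ μ ∈ primitiveRoots (p ^ (k + 1)) K,
      ‖(Polynomial.X - Polynomial.C μ).eval 1‖ = ‖x - 1‖ := by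
    intro μ hμ
    rw [mem_primitiveRoots (by omega)] at hμ
    have : NeZero (p ^ (k + 1)) := ⟨by omega⟩
    obtain ⟨j, hj, hjc, rfl⟩ := hx.isPrimitiveRoot_iff.1 hμ
    simp only [Polynomial.eval_sub, Polynomial.eval_X, Polynomial.eval_C]
    rw [norm_sub_rev]
    exact nf3a2_coprime hN x hx.pow_eq_one j hjc
  rw [Finset.prod_congr rfl h3, Finset.prod_const, hx.card_primitiveRoots,
    Nat.totient_prime_pow_succ hp] at h2
  exact h2

theorem cyc_norms {K : Type*} [NormedField K] [IsUltrametricDist K] (p : ℕ) (hp : p.Prime)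
    (hpn : ‖(p : K)‖ = (p : ℝ)⁻¹) (ζ : K) (hζ : IsPrimitiveRoot ζ (p ^ 2)) :
    ∃ t : ℝ, 0 < t ∧ t < 1 ∧ t ^ (p * (p - 1)) = (p : ℝ)⁻¹ ∧
      (∀ j : ℕ, ¬ p ∣ j → ‖ζ ^ j - 1‖ = t) ∧ (∀ j : ℕ, ¬ p ∣ j → ‖ζ ^ (p * j) - 1‖ = t ^ p) := by
  have hp0 : 0 < p := hp.pos
  have hp2 : 2 ≤ p := hp.two_le
  have hpr : (1 : ℝ) < p := by exact_mod_cast hp.one_lt
  have hN : 1 < p ^ 2 := Nat.one_lt_pow (by omega) hp.one_lt
  have hw : IsPrimitiveRoot (ζ ^ p) p := hζ.pow (by omega) (by ring)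
  have ht : ‖ζ - 1‖ ^ (p * (p - 1)) = (p : ℝ)⁻¹ := by
    have h := nf3a2_prim p hp hpn 1 ζ hζ
    simpa using h
  have hs : ‖ζ ^ p - 1‖ ^ (p - 1) = (p : ℝ)⁻¹ := by
    have h := nf3a2_prim p hp hpn 0 (ζ ^ p) (by simpa using hw)
    simpa using h
  have hinv0 : (0 : ℝ) < (p : ℝ)⁻¹ := by positivity
  have hinv1 : (p : ℝ)⁻¹ < 1 := inv_lt_one_of_one_lt₀ hpr
  have hst : ‖ζ ^ p - 1‖ = ‖ζ - 1‖ ^ p := by
    rw [pow_mul] at ht
    exact (pow_left_inj₀ (norm_nonneg _) (by positivity) (by omega : p - 1 ≠ 0)).1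
      (hs.trans ht.symm)
  refine ⟨‖ζ - 1‖, ?_, ?_, ht, ?_, ?_⟩
  · rcases (norm_nonneg (ζ - 1)).lt_or_eq with h | h
    · exact h
    · exfalso
      have hne : p * (p - 1) ≠ 0 := Nat.mul_ne_zero (by omega) (by omega)
      rw [← h, zero_pow hne] at ht
      exact hinv0.ne ht
  · by_contra hcon
    rw [not_lt] at hcon
    have h := one_le_pow₀ hcon (n := p * (p - 1))
    rw [ht] at h
    exact absurd h (not_le.2 hinv1)
  · intro j hj
    refine nf3a2_coprime hN ζ hζ.pow_eq_one j ?_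
    exact Nat.Coprime.pow_right 2 ((Nat.Prime.coprime_iff_not_dvd hp).2 hj).symm
  · intro j hj
    rw [pow_mul, ← hst]
    exact nf3a2_coprime hp.one_lt (ζ ^ p) hw.pow_eq_one j
      ((Nat.Prime.coprime_iff_not_dvd hp).2 hj).symm


end Pool.Agent.Helper805_nf
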