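import Pool.Agent.Helper805_nf.Defs3
import Pool.Agent.Helper805_nf.Y1
import Pool.Agent.Helper805_nf.Y2
import Pool.Agent.Helper805_nf.Y4

set_option autoImplicit false

namespace Pool.Agent.Helper805_nf

open Finset






theorem a5_rho_inv {K : Type*} [Field K] (z : K) (d : ℕ) : rho z⁻¹ d = rho z d := by
  unfold rho
  rw [← Finset.sum_range_reflect]
  refine Finset.sum_congr rfl fun s hs => ?_
  have hs' := Finset.mem_range.1 hs
  rw [inv_zpow', ]
  congr 1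
  have h1 : ((d - 1 - s : ℕ) : ℤ) = (d : ℤ) - 1 - s := by omega
  rw [h1]
  ring

theorem a5_rho_one {K : Type*} [Field K] (d : ℕ) : rho (1 : K) d = d := by
  simp [rho]

theorem a5_rho_zero {K : Type*} [Field K] (p q : ℕ) (hq : p = 2 * q + 1) (z : K) (hz : z ^ p = 1)
    (hz1 : z ≠ 1) (d : ℕ) (hd : p ∣ d) : rho z d = 0 := by
  have hz0 : z ≠ 0 := by
    intro h
    rw [h, zero_pow (by omega)] at hz
    exact zero_ne_one hz
  have hx1 : (z ^ (-2 : ℤ)) ≠ 1 := by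
    intro h
    have h2 : z ^ 2 = 1 := by
      rw [zpow_neg, inv_eq_one] at h
      exact_mod_cast h
    apply hz1
    rw [hq, pow_succ, pow_mul, h2, one_pow, one_mul] at hz
    exact hz
  have hxd : (z ^ (-2 : ℤ)) ^ d = 1 := by
    obtain ⟨e, rfl⟩ := hd
    have h3 : (z ^ (-2 : ℤ)) ^ (p * e) = (z ^ p) ^ (-2 * (e : ℤ)) := by
      rw [← zpow_natCast (z ^ (-2 : ℤ)), ← zpow_natCast z p, ← zpow_mul, ← zpow_mul]
      congr 1
      push_cast
      ring
    rw [h3, hz, one_zpow]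
  have hg : ∑ s ∈ Finset.range d, (z ^ (-2 : ℤ)) ^ s = 0 := by
    rw [geom_sum_eq hx1, hxd, sub_self, zero_div]
  unfold rho
  have h4 : ∀ s ∈ Finset.range d, z ^ ((d : ℤ) - 1 - 2 * (s : ℤ)) =
      z ^ ((d : ℤ) - 1) * (z ^ (-2 : ℤ)) ^ s := by
    intro s _
    rw [← zpow_natCast (z ^ (-2 : ℤ)) s, ← zpow_mul, ← zpow_add₀ hz0]
    congr 1
  rw [Finset.sum_congr rfl h4, ← Finset.mul_sum, hg, mul_zero]

theorem a5_orth {K : Type*} [Field K] (N : ℕ) (ω : K) (hω : IsPrimitiveRoot ω N)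
    (hN : 0 < N) (c : ℤ) : ∃ θ : ℤ, ∑ y ∈ Finset.range N, ω ^ ((y : ℤ) * c) = (N : K) * (θ : K) := by
  have h0 : ∀ y ∈ Finset.range N, ω ^ ((y : ℤ) * c) = (ω ^ c) ^ y := by
    intro y _
    rw [← zpow_natCast (ω ^ c) y, ← zpow_mul, mul_comm]
  rw [Finset.sum_congr rfl h0]
  by_cases h : ω ^ c = 1
  · refine ⟨1, ?_⟩
    rw [h]
    simp
  · refine ⟨0, ?_⟩
    rw [geom_sum_eq h]
    have h1 : (ω ^ c) ^ N = 1 := by
      rw [← zpow_natCast (ω ^ c) N, ← zpow_mul, mul_comm, zpow_mul, zpow_natCast, hω.pow_eq_one,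
        one_zpow]
    rw [h1]
    simp

theorem a5_int {K : Type*} [Field K] (N : ℕ) (ω : K) (hω : IsPrimitiveRoot ω N)
    (hN : 0 < N) {m : ℕ} (d e : Fin m → ℕ) (S : Finset (Fin m)) : ∀ c : ℤ,
    ∃ θ : ℤ, ∑ y ∈ Finset.range N, ω ^ ((y : ℤ) * c) * ∏ i ∈ S, (rho (ω ^ y) (d i) - (e i : K)) =
      (N : K) * (θ : K) := by
  have hω0 : ω ≠ 0 := hω.ne_zero (by omega)
  induction S using Finset.induction_on with
  | empty =>
    intro c
    obtain ⟨θ, hθ⟩ := a5_orth N ω hω hN c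
    refine ⟨θ, ?_⟩
    rw [← hθ]
    refine Finset.sum_congr rfl fun y _ => ?_
    rw [Finset.prod_empty, mul_one]
  | insert a S ha ih =>
    intro c
    choose θ hθ using ih
    refine ⟨(∑ s ∈ Finset.range (d a), θ (c + ((d a : ℤ) - 1 - 2 * (s : ℤ)))) - (e a : ℤ) * θ c, ?_⟩
    have h1 : ∀ y ∈ Finset.range N, ω ^ ((y : ℤ) * c) *
        ∏ i ∈ insert a S, (rho (ω ^ y) (d i) - (e i : K)) =
        (∑ s ∈ Finset.range (d a), ω ^ ((y : ℤ) * (c + ((d a : ℤ) - 1 - 2 * (s : ℤ)))) *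
          ∏ i ∈ S, (rho (ω ^ y) (d i) - (e i : K))) -
        (e a : K) * (ω ^ ((y : ℤ) * c) * ∏ i ∈ S, (rho (ω ^ y) (d i) - (e i : K))) := by
      intro y _
      rw [Finset.prod_insert ha, ← Finset.sum_mul]
      have h2 : ∑ s ∈ Finset.range (d a), ω ^ ((y : ℤ) * (c + ((d a : ℤ) - 1 - 2 * (s : ℤ)))) =
          ω ^ ((y : ℤ) * c) * rho (ω ^ y) (d a) := by
        unfold rho
        rw [Finset.mul_sum]
        refine Finset.sum_congr rfl fun s _ => ?_
        rw [mul_add, zpow_add₀ hω0, ← zpow_natCast ω y, ← zpow_mul]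
      rw [h2]
      ring
    rw [Finset.sum_congr rfl h1, Finset.sum_sub_distrib, Finset.sum_comm, ← Finset.mul_sum, hθ c]
    have h3 : ∀ s ∈ Finset.range (d a), (∑ y ∈ Finset.range N, ω ^ ((y : ℤ) * (c + ((d a : ℤ) - 1 - 2 * (s : ℤ)))) *
          ∏ i ∈ S, (rho (ω ^ y) (d i) - (e i : K))) =
        (N : K) * (θ (c + ((d a : ℤ) - 1 - 2 * (s : ℤ))) : K) := fun s _ => hθ _
    rw [Finset.sum_congr rfl h3, ← Finset.mul_sum]
    push_cast
    ring

theorem a5_norm_int {K : Type*} [NormedField K] [IsUltrametricDist K] (p : ℕ) (hp : p.Prime)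
    (hpn : ‖(p : K)‖ = (p : ℝ)⁻¹) (a : ℤ) :
    ‖(a : K)‖ ≤ 1 ∧ (¬ (p : ℤ) ∣ a → ‖(a : K)‖ = 1) ∧ ((p : ℤ) ∣ a → ‖(a : K)‖ ≤ (p : ℝ)⁻¹) := by
  have h := norm_nat_facts p hp hpn a.natAbs
  have h1 : ‖(a : K)‖ = ‖((a.natAbs : ℕ) : K)‖ := by
    rcases Int.natAbs_eq a with h2 | h2
    · conv_lhs => rw [h2]
      rw [Int.cast_natCast]
    · conv_lhs => rw [h2]
      rw [Int.cast_neg, Int.cast_natCast, norm_neg]
  rw [h1]
  refine ⟨h.1, fun h2 => h.2.1 ?_, fun h2 => h.2.2 ?_⟩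
  · intro h3
    exact h2 (Int.natCast_dvd.2 h3)
  · exact Int.natCast_dvd.1 h2

theorem a5_multiples {K : Type*} [AddCommMonoid K] (p : ℕ) (hp : 0 < p) (f : ℕ → K) :
    ∑ y ∈ Finset.range (p ^ 2), (if p ∣ y then f y else 0) = ∑ i ∈ Finset.range p, f (p * i) := by
  rw [← Finset.sum_filter]
  have h1 : (Finset.range (p ^ 2)).filter (fun y => p ∣ y) = (Finset.range p).image (fun i => p * i) := by
    ext y
    simp only [Finset.mem_filter, Finset.mem_range, Finset.mem_image]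
    constructor
    · rintro ⟨h2, e, rfl⟩
      refine ⟨e, ?_, rfl⟩
      rw [sq] at h2
      exact Nat.lt_of_mul_lt_mul_left h2
    · rintro ⟨i, h2, rfl⟩
      refine ⟨?_, dvd_mul_right _ _⟩
      rw [sq]
      exact Nat.mul_lt_mul_of_pos_left h2 hp
  rw [h1, Finset.sum_image]
  intro x _ y _ h
  exact Nat.eq_of_mul_eq_mul_left hp h

theorem a5_half {K : Type*} [Ring K] (n : ℕ) (g : ℕ → K) (h0 : g 0 = 0)
    (hs : ∀ y, 1 ≤ y → y ≤ n → g (2 * n + 1 - y) = g y) :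
    ∑ y ∈ Finset.range (2 * n + 1), g y = 2 * ∑ j : Fin n, g ((j : ℕ) + 1) := by
  rw [Fin.sum_univ_eq_sum_range (fun j => g (j + 1)) n, Finset.sum_range_succ', h0, add_zero, two_mul n,
    Finset.sum_range_add, two_mul]
  congr 1
  rw [← Finset.sum_range_reflect]
  refine Finset.sum_congr rfl fun j hj => ?_
  have hj' := Finset.mem_range.1 hj
  rw [← hs (j + 1) (by omega) (by omega)]
  congr 1
  omega

theorem power_bounds {K : Type*} [NormedField K] [IsUltrametricDist K] (p q n : ℕ) (hp : p.Prime)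
    (hq : p = 2 * q + 1) (hn : n = p * q + q) (hpn : ‖(p : K)‖ = (p : ℝ)⁻¹) (ζ : K)
    (hζ : IsPrimitiveRoot ζ (p ^ 2)) {m : ℕ} (d : Fin m → ℕ) (S : Finset (Fin m)) :
    ‖∑ j : Fin n, if p ∣ (j : ℕ) + 1 then 0 else
        ∏ i ∈ S, (rho (ζ ^ ((j : ℕ) + 1)) (d i) - (if p ∣ d i then 0 else (d i : K)))‖ ≤ (p : ℝ)⁻¹ ∧
      (p ≤ ∑ i ∈ S, (if p ∣ d i then p - 1 else 2) →
        ‖∑ j : Fin n, if p ∣ (j : ℕ) + 1 then 0 else
          ∏ i ∈ S, (rho (ζ ^ ((j : ℕ) + 1)) (d i) - (if p ∣ d i then 0 else (d i : K)))‖ ≤ ((p : ℝ)⁻¹) ^ 2) := by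
  have hp0 : 0 < p := hp.pos
  have hp2 : 0 < p ^ 2 := by positivity
  have hpr : (0 : ℝ) < p := by exact_mod_cast hp0
  have hp1r : (1 : ℝ) < p := by exact_mod_cast hp.one_lt
  have hinv0 : (0 : ℝ) < (p : ℝ)⁻¹ := by positivity
  have hinv1 : (p : ℝ)⁻¹ < 1 := inv_lt_one_of_one_lt₀ hp1r
  have hpp : p ^ 2 = 2 * n + 1 := by
    rw [hn, hq]
    ring
  have hζ0 : ζ ≠ 0 := hζ.ne_zero (by omega)
  set e : Fin m → ℕ := fun i => if p ∣ d i then 0 else d i with he
  have hec : ∀ i, (if p ∣ d i then (0 : K) else (d i : K)) = (e i : K) := by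
    intro i
    simp only [he]
    split_ifs
    · rw [Nat.cast_zero]
    · rfl
  set F : K → K := fun z => ∏ i ∈ S, (rho z (d i) - (e i : K)) with hF
  have hFinv : ∀ z, F z⁻¹ = F z := by
    intro z
    simp only [hF, a5_rho_inv]
  set g : ℕ → K := fun y => if p ∣ y then 0 else F (ζ ^ y) with hg
  have hsum : (∑ j : Fin n, if p ∣ (j : ℕ) + 1 then 0 else
        ∏ i ∈ S, (rho (ζ ^ ((j : ℕ) + 1)) (d i) - (if p ∣ d i then 0 else (d i : K)))) =
      ∑ j : Fin n, g ((j : ℕ) + 1) := by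
    refine Finset.sum_congr rfl fun j _ => ?_
    simp only [hg, hF, hec]
  rw [hsum]
  have hhalf : ∑ y ∈ Finset.range (2 * n + 1), g y = 2 * ∑ j : Fin n, g ((j : ℕ) + 1) := by
    apply a5_half
    · simp [hg]
    · intro y hy1 hy2
      simp only [hg]
      have h1 : p ∣ 2 * n + 1 - y ↔ p ∣ y := by
        rw [← hpp]
        have hle : y ≤ p ^ 2 := by omega
        constructor
        · intro h
          have h2 : p ∣ p ^ 2 - (p ^ 2 - y) := Nat.dvd_sub (dvd_pow_self p (by norm_num)) h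
          rwa [Nat.sub_sub_self hle] at h2
        · intro h
          exact Nat.dvd_sub (dvd_pow_self p (by norm_num)) h
      have h2 : ζ ^ (2 * n + 1 - y) = (ζ ^ y)⁻¹ := by
        apply eq_inv_of_mul_eq_one_left
        rw [← hpp, ← pow_add, Nat.sub_add_cancel (by omega), hζ.pow_eq_one]
      rw [h2, hFinv]
      simp only [h1]
  -- integrality
  obtain ⟨θ1, hθ1⟩ := a5_int (p ^ 2) ζ hζ hp2 d e S 0
  have hω : IsPrimitiveRoot (ζ ^ p) p := hζ.pow hp2 (by rw [sq])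
  obtain ⟨θ0, hθ0⟩ := a5_int p (ζ ^ p) hω hp0 d e S 0
  have hS1 : ∑ y ∈ Finset.range (p ^ 2), F (ζ ^ y) = (p : K) ^ 2 * (θ1 : K) := by
    have : ((p ^ 2 : ℕ) : K) = (p : K) ^ 2 := by push_cast; rfl
    rw [← this, ← hθ1]
    refine Finset.sum_congr rfl fun y _ => ?_
    rw [mul_zero, zpow_zero, one_mul]
  have hS0 : ∑ i ∈ Finset.range p, F (ζ ^ (p * i)) = (p : K) * (θ0 : K) := by
    rw [← hθ0]
    refine Finset.sum_congr rfl fun y _ => ?_
    rw [mul_zero, zpow_zero, one_mul, pow_mul]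
  have hmain : 2 * ∑ j : Fin n, g ((j : ℕ) + 1) = (p : K) ^ 2 * (θ1 : K) - (p : K) * (θ0 : K) := by
    rw [← hhalf, ← hpp, ← hS1, ← hS0, ← a5_multiples p hp0 (fun y => F (ζ ^ y)), ← Finset.sum_sub_distrib]
    refine Finset.sum_congr rfl fun y _ => ?_
    simp only [hg]
    split_ifs
    · rw [sub_self]
    · rw [sub_zero]
  have h2n : ‖(2 : K)‖ = 1 := by
    have h := (norm_nat_facts p hp hpn 2).2.1 (by
      intro h
      have := Nat.le_of_dvd (by norm_num) h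
      have h3 := hp.two_le
      omega)
    exact_mod_cast h
  have hnorm : ‖∑ j : Fin n, g ((j : ℕ) + 1)‖ = ‖(p : K) ^ 2 * (θ1 : K) - (p : K) * (θ0 : K)‖ := by
    rw [← hmain, norm_mul, h2n, one_mul]
  rw [hnorm]
  have hA : ‖(p : K) ^ 2 * (θ1 : K)‖ ≤ ((p : ℝ)⁻¹) ^ 2 := by
    rw [norm_mul, norm_pow, hpn]
    exact mul_le_of_le_one_right (by positivity) (a5_norm_int p hp hpn θ1).1
  have hsub : ‖(p : K) ^ 2 * (θ1 : K) - (p : K) * (θ0 : K)‖ ≤
      max ‖(p : K) ^ 2 * (θ1 : K)‖ ‖(p : K) * (θ0 : K)‖ := by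
    rw [sub_eq_add_neg]
    have := IsUltrametricDist.norm_add_le_max ((p : K) ^ 2 * (θ1 : K)) (-((p : K) * (θ0 : K)))
    rwa [norm_neg] at this
  have hsq : ((p : ℝ)⁻¹) ^ 2 ≤ (p : ℝ)⁻¹ := by
    rw [sq]
    exact mul_le_of_le_one_right hinv0.le hinv1.le
  constructor
  · refine hsub.trans (max_le (hA.trans hsq) ?_)
    rw [norm_mul, hpn]
    exact mul_le_of_le_one_right hinv0.le (a5_norm_int p hp hpn θ0).1
  · intro ho
    obtain ⟨t, ht0, ht1, htp, _, ht3⟩ := cyc_norms p hp hpn ζ hζ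
    -- each factor
    have hfac : ∀ i ∈ Finset.range p, ∀ a ∈ S, ‖rho (ζ ^ (p * i)) (d a) - (e a : K)‖ ≤
        (t ^ p) ^ (if p ∣ d a then p - 1 else 2) := by
      intro i hi a _
      have hi' := Finset.mem_range.1 hi
      rcases Nat.eq_zero_or_pos i with h0 | h0
      · subst h0
        rw [mul_zero, pow_zero, a5_rho_one]
        by_cases hd : p ∣ d a
        · have hea : e a = 0 := by simp [he, hd]
          rw [hea, Nat.cast_zero, sub_zero, if_pos hd, ← pow_mul, htp]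
          exact (norm_nat_facts p hp hpn (d a)).2.2 hd
        · have hea : e a = d a := by simp [he, hd]
          rw [hea, sub_self, norm_zero]
          positivity
      · have hpi : ¬ p ∣ i := fun h => by
          have := Nat.le_of_dvd h0 h
          omega
        by_cases hd : p ∣ d a
        · have hz1 : ζ ^ (p * i) ≠ 1 := by
            intro h
            have h3 := ht3 i hpi
            rw [h, sub_self, norm_zero] at h3
            have : (0 : ℝ) < t ^ p := by positivity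
            linarith
          have hzp : (ζ ^ (p * i)) ^ p = 1 := by
            rw [← pow_mul, mul_comm p i, mul_assoc, mul_comm i, pow_mul, ← sq, hζ.pow_eq_one, one_pow]
          have hea : e a = 0 := by simp [he, hd]
          rw [a5_rho_zero p q hq _ hzp hz1 (d a) hd, hea, Nat.cast_zero, sub_zero, norm_zero]
          positivity
        · have hea : e a = d a := by simp [he, hd]
          have hzn : ‖ζ ^ (p * i)‖ = 1 := by
            have h5 : ‖ζ‖ ^ (p ^ 2) = 1 := by rw [← norm_pow, hζ.pow_eq_one, norm_one]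
            have h6 : ‖ζ‖ = 1 := (pow_eq_one_iff_of_nonneg (norm_nonneg _) (by omega)).1 h5
            rw [norm_pow, h6, one_pow]
          have h4 := (rho_taylor (ζ ^ (p * i)) hzn (d a)).1
          rw [hea, if_neg hd, ← ht3 i hpi]
          exact h4
    have hterm : ∀ i ∈ Finset.range p, ‖F (ζ ^ (p * i))‖ ≤ (t ^ p) ^ p := by
      intro i hi
      simp only [hF]
      rw [norm_prod]
      calc ∏ a ∈ S, ‖rho (ζ ^ (p * i)) (d a) - (e a : K)‖ ≤
          ∏ a ∈ S, (t ^ p) ^ (if p ∣ d a then p - 1 else 2) :=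
            Finset.prod_le_prod (fun _ _ => norm_nonneg _) (fun a ha => hfac i hi a ha)
        _ = (t ^ p) ^ (∑ a ∈ S, (if p ∣ d a then p - 1 else 2)) := Finset.prod_pow_eq_pow_sum _ _ _
        _ ≤ (t ^ p) ^ p := pow_le_pow_of_le_one (by positivity) (pow_le_one₀ ht0.le ht1.le) ho
    have hlt : (t ^ p) ^ p < (p : ℝ)⁻¹ := by
      rw [← htp, pow_mul]
      apply pow_lt_pow_right_of_lt_one₀ (by positivity) (pow_lt_one₀ ht0.le ht1 hp0.ne')
      omega
    have hSg : ‖(p : K) * (θ0 : K)‖ ≤ (t ^ p) ^ p := by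
      rw [← hS0]
      exact IsUltrametricDist.norm_sum_le_of_forall_le_of_nonneg (by positivity) hterm
    have hdvd : (p : ℤ) ∣ θ0 := by
      by_contra h
      have h1 := (a5_norm_int p hp hpn θ0).2.1 h
      rw [norm_mul, hpn, h1, mul_one] at hSg
      linarith
    refine hsub.trans (max_le hA ?_)
    rw [norm_mul, hpn, sq]
    exact mul_le_mul_of_nonneg_left ((a5_norm_int p hp hpn θ0).2.2 hdvd) hinv0.le

end Pool.Agent.Helper805_nf
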