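import Pool.Agent.Helper805_nf.Defs3
import Pool.Agent.Helper805_nf.Y1
import Pool.Agent.Helper805_nf.B2

set_option autoImplicit false

namespace Pool.Agent.Helper805_nf

open Finset





theorem a7_norm_p {K : Type*} [NormedField K] [IsUltrametricDist K] (p : ℕ) (hp : p.Prime)
    (hpn : ‖(p : K)‖ = (p : ℝ)⁻¹) (a : ℕ) (ha : 0 < a) (ha2 : a < p ^ 2) (hpa : p ∣ a) :
    ‖(a : K)‖ = (p : ℝ)⁻¹ := by
  obtain ⟨b, rfl⟩ := hpa
  have hb : b < p := by
    by_contra h
    push Not at h
    have := Nat.mul_le_mul_left p h
    rw [← pow_two] at this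
    omega
  have hb0 : 0 < b := Nat.pos_of_mul_pos_left ha |> fun h => by
    rcases Nat.eq_zero_or_pos b with h0 | h0
    · subst h0; simp at ha
    · exact h0
  have hnd : ¬ p ∣ b := Nat.not_dvd_of_pos_of_lt hb0 hb
  rw [Nat.cast_mul, norm_mul, hpn, (norm_nat_facts p hp hpn b).2.1 hnd, mul_one]

theorem a7_fact {K : Type*} [NormedField K] [IsUltrametricDist K] (p : ℕ) (hp : p.Prime)
    (hpn : ‖(p : K)‖ = (p : ℝ)⁻¹) (a : ℕ) (ha : a < p ^ 2) :
    ‖(a.factorial : K)‖ = ((p : ℝ)⁻¹) ^ (a / p) := by
  induction a with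
  | zero => simp
  | succ a ih =>
    have h1 := ih (by omega)
    rw [Nat.factorial_succ, Nat.cast_mul, norm_mul, h1, Nat.succ_div]
    by_cases h : p ∣ a + 1
    · rw [if_pos h, a7_norm_p p hp hpn (a + 1) (by omega) ha h, pow_succ]
      ring
    · rw [if_neg h, (norm_nat_facts p hp hpn (a + 1)).2.1 h, one_mul, add_zero]

theorem a7_div (p x s : ℕ) (hp : 0 < p) (hs : 1 ≤ s) :
    (x + s) / p ≤ x / p + (s - 1) / p + 1 ∧ x / p + (s - 1) / p ≤ (x + s) / p := by
  have h1 := Nat.div_add_mod x p
  have h2 := Nat.div_add_mod (s - 1) p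
  have h3 := Nat.mod_lt x hp
  have h4 := Nat.mod_lt (s - 1) hp
  constructor
  · rw [← Nat.lt_succ_iff, Nat.div_lt_iff_lt_mul hp]
    have : (x / p + (s - 1) / p + 1).succ * p = p * (x / p) + p * ((s - 1) / p) + 2 * p := by
      simp only [Nat.succ_eq_add_one]; ring
    rw [this]
    omega
  · rw [Nat.le_div_iff_mul_le hp]
    have : (x / p + (s - 1) / p) * p = p * (x / p) + p * ((s - 1) / p) := by ring
    rw [this]
    omega

theorem a7_XX {K : Type*} [NormedField K] [IsUltrametricDist K] (p : ℕ) (hp : p.Prime)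
    (hpn : ‖(p : K)‖ = (p : ℝ)⁻¹) (x s : ℕ) (hs : 1 ≤ s) (hxs : x + s < p ^ 2) :
    ‖(x.factorial : K)‖ * ‖((s - 1).factorial : K)‖ ≤ p * ‖((x + s).factorial : K)‖ := by
  rw [a7_fact p hp hpn x (by omega), a7_fact p hp hpn (s - 1) (by omega),
    a7_fact p hp hpn (x + s) hxs, ← pow_add]
  have hp0 : (0 : ℝ) < p := by exact_mod_cast hp.pos
  have hp1 : (1 : ℝ) ≤ p := by exact_mod_cast hp.one_lt.le
  have h1 := (a7_div p x s hp.pos hs).1
  have h2 : ((p : ℝ)⁻¹) ^ (x / p + (s - 1) / p + 1) ≤ ((p : ℝ)⁻¹) ^ ((x + s) / p) :=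
    pow_le_pow_of_le_one (by positivity) (inv_le_one_of_one_le₀ hp1) h1
  calc ((p : ℝ)⁻¹) ^ (x / p + (s - 1) / p)
      = p * ((p : ℝ)⁻¹) ^ (x / p + (s - 1) / p + 1) := by
        rw [pow_succ]; field_simp
    _ ≤ _ := by gcongr

theorem a7_XX' {K : Type*} [NormedField K] [IsUltrametricDist K] (p : ℕ) (hp : p.Prime)
    (hpn : ‖(p : K)‖ = (p : ℝ)⁻¹) (x s : ℕ) (hs : 1 ≤ s) (hxs : x + s < p ^ 2) (hsp : s < p)
    (hc : x % p + s < p) :
    ‖(x.factorial : K)‖ * ‖((s - 1).factorial : K)‖ = ‖((x + s).factorial : K)‖ := by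
  rw [a7_fact p hp hpn x (by omega), a7_fact p hp hpn (s - 1) (by omega),
    a7_fact p hp hpn (x + s) hxs, ← pow_add]
  have h1 : (s - 1) / p = 0 := Nat.div_eq_of_lt (by omega)
  have h2 : (x + s) / p = x / p := by
    have h3 := Nat.div_add_mod x p
    apply Nat.div_eq_of_lt_le
    · have : x / p * p = p * (x / p) := by ring
      rw [this]; omega
    · have : (x / p + 1) * p = p * (x / p) + p := by ring
      rw [this]; omega
  rw [h1, h2, add_zero]

theorem injSum_two_level {K : Type*} [NormedField K] [IsUltrametricDist K] (p q : ℕ) (hp : p.Prime)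
    (hq : p = 2 * q + 1) (hpn : ‖(p : K)‖ = (p : ℝ)⁻¹) {m n : ℕ} (f : Fin m → Fin n → K) (o : Fin m → ℕ)
    (ho : ∀ i, 2 ≤ o i)
    (h1 : ∀ S : Finset (Fin m), S.Nonempty → ‖∑ j, ∏ i ∈ S, f i j‖ ≤ (p : ℝ)⁻¹)
    (h2 : ∀ S : Finset (Fin m), p ≤ ∑ i ∈ S, o i → ‖∑ j, ∏ i ∈ S, f i j‖ ≤ ((p : ℝ)⁻¹) ^ 2)
    (A : Finset (Fin m)) (x y : ℕ) (hxy : x + y + A.card = p * q - 1) :
    ‖(x.factorial : K) * (y.factorial : K) * injSum f A‖ ≤ ‖((p * q - 1).factorial : K)‖ ∧
      ((p - 1) * ((x % p + A.card) / p) < ∑ i ∈ A, o i →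
        ‖(x.factorial : K) * (y.factorial : K) * injSum f A‖ ≤ (p : ℝ)⁻¹ * ‖((p * q - 1).factorial : K)‖) := by
  have hp0 : (0 : ℝ) < p := by exact_mod_cast hp.pos
  have hq1 : 1 ≤ q := by
    rcases Nat.eq_zero_or_pos q with h | h
    · subst h
      simp at hq
      subst hq
      exact absurd hp (by decide)
    · exact h
  have hNp : p * q - 1 < p ^ 2 := by
    have : p * q < p * p := Nat.mul_lt_mul_of_pos_left (by omega) hp.pos
    rw [← pow_two] at this
    omega
  have hpq : 1 ≤ p * q := Nat.mul_pos hp.pos hq1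
  induction A using Finset.strongInduction generalizing x y with
  | H A ih =>
    rcases A.eq_empty_or_nonempty with rfl | ⟨b, hb⟩
    · constructor
      · have hI : injSum f (∅ : Finset (Fin m)) = 1 := by
          unfold injSum
          rw [Fintype.sum_eq_single (Function.Embedding.ofIsEmpty)]
          · simp
          · intro g hg
            exact absurd (Subsingleton.elim _ _) hg
        rw [hI, mul_one, norm_mul, a7_fact p hp hpn x (by simp at hxy; omega),
          a7_fact p hp hpn y (by simp at hxy; omega), a7_fact p hp hpn _ hNp, ← pow_add]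
        simp only [Finset.card_empty, add_zero] at hxy
        apply le_of_eq
        congr 1
        -- x / p + y / p = (p q - 1) / p = q - 1
        have e1 : (p * q - 1) / p = q - 1 := by
          apply Nat.div_eq_of_lt_le
          · have : (q - 1) * p = p * q - p := by rw [Nat.sub_mul, one_mul, mul_comm]
            rw [this]; have := hp.pos; omega
          · have : (q - 1 + 1) * p = p * q := by rw [Nat.sub_add_cancel hq1, mul_comm]
            rw [this]; omega
        rw [e1]
        have d1 := Nat.div_add_mod x p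
        have d2 := Nat.div_add_mod y p
        have m1 := Nat.mod_lt x hp.pos
        have m2 := Nat.mod_lt y hp.pos
        -- p * (x/p + y/p) + (x%p + y%p) + 1 = p * q
        have e2 : p * (x / p + y / p) + (x % p + y % p + 1) = p * q := by
          rw [mul_add]; omega
        have e3 : p ∣ x % p + y % p + 1 := by
          have h3 : p ∣ p * (x / p + y / p) + (x % p + y % p + 1) := by
            rw [e2]; exact dvd_mul_right p q
          exact (Nat.dvd_add_right (dvd_mul_right p _)).1 h3
        obtain ⟨c, hc⟩ := e3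
        have hc1 : c = 1 := by
          have hlt : p * c < p * 2 := by omega
          have := Nat.lt_of_mul_lt_mul_left hlt
          rcases Nat.eq_zero_or_pos c with h | h
          · subst h; simp at hc
          · omega
        rw [hc, hc1, ← mul_add] at e2
        have := Nat.eq_of_mul_eq_mul_left hp.pos e2
        omega
      · intro h
        simp at h
    · -- the terms
      have hrec := injSum_rec f A b hb
      have hexp : (x.factorial : K) * (y.factorial : K) * injSum f A =
          ∑ S ∈ A.powerset.filter (fun S => b ∈ S),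
            (x.factorial : K) * (y.factorial : K) * ((-1 : K) ^ (S.card - 1) *
              ((S.card - 1).factorial : K) * (∑ j : Fin n, ∏ i ∈ S, f i j) * injSum f (A \ S)) := by
        rw [hrec, Finset.mul_sum]
      have hterm : ∀ S ∈ A.powerset.filter (fun S => b ∈ S),
          ‖(x.factorial : K) * (y.factorial : K) * ((-1 : K) ^ (S.card - 1) *
              ((S.card - 1).factorial : K) * (∑ j : Fin n, ∏ i ∈ S, f i j) * injSum f (A \ S))‖ ≤
            ‖((p * q - 1).factorial : K)‖ ∧
          ((p - 1) * ((x % p + A.card) / p) < ∑ i ∈ A, o i →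
            ‖(x.factorial : K) * (y.factorial : K) * ((-1 : K) ^ (S.card - 1) *
              ((S.card - 1).factorial : K) * (∑ j : Fin n, ∏ i ∈ S, f i j) * injSum f (A \ S))‖ ≤
            (p : ℝ)⁻¹ * ‖((p * q - 1).factorial : K)‖) := by
        intro S hS
        rw [Finset.mem_filter, Finset.mem_powerset] at hS
        obtain ⟨hSA, hbS⟩ := hS
        have hs1 : 1 ≤ S.card := Finset.card_pos.2 ⟨b, hbS⟩
        have hcard : (A \ S).card + S.card = A.card := Finset.card_sdiff_add_card_eq_card hSA
        have hss : A \ S ⊂ A := by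
          refine Finset.ssubset_iff_subset_ne.2 ⟨Finset.sdiff_subset, fun h => ?_⟩
          rw [h] at hcard
          omega
        obtain ⟨ih1, ih2⟩ := ih (A \ S) hss (x + S.card) y (by omega)
        have hxs : x + S.card < p ^ 2 := by omega
        have hXX := a7_XX p hp hpn x S.card hs1 hxs
        have hPS := h1 S ⟨b, hbS⟩
        set P := ∑ j : Fin n, ∏ i ∈ S, f i j with hP
        set X := ‖(x.factorial : K)‖ * ‖((S.card - 1).factorial : K)‖ with hX
        set X' := ‖((x + S.card).factorial : K)‖ with hX'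
        have hT : ‖(x.factorial : K) * (y.factorial : K) * ((-1 : K) ^ (S.card - 1) *
              ((S.card - 1).factorial : K) * P * injSum f (A \ S))‖ =
            X * ‖P‖ * (‖(y.factorial : K)‖ * ‖injSum f (A \ S)‖) := by
          simp only [norm_mul, norm_pow, norm_neg, norm_one, one_pow, one_mul, hX]
          ring
        rw [hT]
        have hJ0 : 0 ≤ ‖(y.factorial : K)‖ * ‖injSum f (A \ S)‖ := by positivity
        have hIH : ‖((x + S.card).factorial : K) * (y.factorial : K) * injSum f (A \ S)‖ =
            X' * (‖(y.factorial : K)‖ * ‖injSum f (A \ S)‖) := by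
          rw [norm_mul, norm_mul, mul_assoc]
        rw [hIH] at ih1 ih2
        set J := ‖(y.factorial : K)‖ * ‖injSum f (A \ S)‖ with hJ
        have hX0 : 0 ≤ X := by positivity
        have hX'0 : 0 ≤ X' := norm_nonneg _
        have hgen : ∀ c : ℝ, 0 ≤ c → ‖P‖ ≤ (p : ℝ)⁻¹ * c → X * ‖P‖ * J ≤ c * (X' * J) := by
          intro c hc hPc
          calc X * ‖P‖ * J ≤ (p * X') * ((p : ℝ)⁻¹ * c) * J := by gcongr
            _ = c * (X' * J) := by field_simp
        refine ⟨?_, ?_⟩
        · have := hgen 1 zero_le_one (by rwa [mul_one])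
          rw [one_mul] at this
          exact this.trans ih1
        · intro hβ
          by_cases hSo : p ≤ ∑ i ∈ S, o i
          · have h3 := h2 S hSo
            have := hgen (p : ℝ)⁻¹ (by positivity) (by rw [← pow_two]; exact h3)
            refine this.trans ?_
            gcongr
          · push Not at hSo
            have hs2 : 2 * S.card ≤ ∑ i ∈ S, o i := by
              calc 2 * S.card = ∑ i ∈ S, 2 := by rw [Finset.sum_const, smul_eq_mul, mul_comm]
                _ ≤ _ := Finset.sum_le_sum fun i _ => ho i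
            have hsp : S.card < p := by omega
            by_cases hc : x % p + S.card < p
            · have h3 := a7_XX' p hp hpn x S.card hs1 hxs hsp hc
              have h4 : X = X' := h3
              calc X * ‖P‖ * J ≤ X' * (p : ℝ)⁻¹ * J := by rw [h4]; gcongr
                _ = (p : ℝ)⁻¹ * (X' * J) := by ring
                _ ≤ _ := by gcongr
            · push Not at hc
              have hxm := Nat.mod_lt x hp.pos
              have hmod : (x + S.card) % p = x % p + S.card - p := by
                rw [Nat.add_mod, Nat.mod_eq_of_lt hsp, Nat.mod_eq_sub_mod hc,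
                  Nat.mod_eq_of_lt (by omega)]
              have hβ' : ((x + S.card) % p + (A \ S).card) / p + 1 = (x % p + A.card) / p := by
                have h3 : x % p + A.card = ((x + S.card) % p + (A \ S).card) + p := by
                  rw [hmod]; omega
                rw [h3, Nat.add_div_right _ hp.pos]
              have hsum : ∑ i ∈ A, o i = ∑ i ∈ A \ S, o i + ∑ i ∈ S, o i :=
                (Finset.sum_sdiff hSA).symm
              have hlt : (p - 1) * (((x + S.card) % p + (A \ S).card) / p) < ∑ i ∈ A \ S, o i := by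
                rw [← hβ', mul_add, mul_one] at hβ
                omega
              have h5 := ih2 hlt
              have := hgen 1 zero_le_one (by rwa [mul_one])
              rw [one_mul] at this
              exact this.trans h5
      rw [hexp]
      refine ⟨?_, fun hβ => ?_⟩
      · exact IsUltrametricDist.norm_sum_le_of_forall_le_of_nonneg (norm_nonneg _)
          fun S hS => (hterm S hS).1
      · exact IsUltrametricDist.norm_sum_le_of_forall_le_of_nonneg (by positivity)
          fun S hS => (hterm S hS).2 hβ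


end Pool.Agent.Helper805_nf
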