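import Pool.Agent.Helper805_nf.Defs3
import Pool.Agent.Helper805_nf.Y1
import Pool.Agent.Helper805_nf.Y2
import Pool.Agent.Helper805_nf.Y3
import Pool.Agent.Helper805_nf.Y4
import Pool.Agent.Helper805_nf.Y5
import Pool.Agent.Helper805_nf.Y7
import Pool.Agent.Helper805_nf.Y8
import Pool.Agent.Helper805_nf.Y11
import Pool.Agent.Helper805_nf.Y15
import Pool.Agent.Helper805_nf.Y16

set_option autoImplicit false

namespace Pool.Agent.Helper805_nf

open Finset
















theorem a17_norm_one {K : Type*} [NormedField K] (p : ℕ) (hp : p.Prime) (ζ : K)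
    (hζ : IsPrimitiveRoot ζ (p ^ 2)) : ‖ζ‖ = 1 := by
  have h := congrArg norm hζ.pow_eq_one
  rw [norm_pow, norm_one] at h
  exact (pow_eq_one_iff_of_nonneg (norm_nonneg ζ) (by have := hp.pos; positivity)).1 h

theorem a17_inv_sub {K : Type*} [NormedField K] (z : K) (hz : ‖z‖ = 1) (d : ℕ) :
    ‖z ^ d - (z⁻¹) ^ d‖ = ‖z ^ (2 * d) - 1‖ := by
  have hz0 : z ≠ 0 := by
    intro h; rw [h, norm_zero] at hz; exact zero_ne_one hz
  have h1 : z ^ (2 * d) - 1 = z ^ d * (z ^ d - (z⁻¹) ^ d) := by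
    rw [mul_sub, ← mul_pow z z⁻¹, mul_inv_cancel₀ hz0, one_pow, two_mul, pow_add]
  rw [h1, norm_mul, norm_pow, hz, one_pow, one_mul]

theorem a17_not_dvd_two_mul (p q : ℕ) (hp : p.Prime) (hq : p = 2 * q + 1) (a : ℕ) (ha : ¬ p ∣ a) :
    ¬ p ∣ 2 * a := by
  intro h
  rcases (hp.dvd_mul).1 h with h | h
  · have h2 := Nat.le_of_dvd (by norm_num) h
    have h3 := hp.two_le
    omega
  · exact ha h

/-- the norm of `z - z⁻¹` for `z = ζ ^ k` with `p ∤ k` or `k = p k'` -/
theorem a17_split (p q n : ℕ) (_hp : p.Prime) (hq : p = 2 * q + 1) (hn : n = p * q + q) (a : ℕ)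
    (h1 : 1 ≤ a) (h2 : a ≤ n) (hd : p ∣ a) : ∃ a', a = p * a' ∧ ¬ p ∣ a' := by
  obtain ⟨a', rfl⟩ := hd
  refine ⟨a', rfl, ?_⟩
  intro h
  obtain ⟨b, rfl⟩ := h
  have hb : 1 ≤ b := by
    rcases Nat.eq_zero_or_pos b with h | h
    · subst h; simp at h1
    · exact h
  have h3 : p * (p * 1) ≤ p * (p * b) := by gcongr
  have h4 : p * (p * 1) = 2 * (p * q) + p := by
    rw [mul_one]; conv_lhs => rw [hq]
    rw [hq]; ring
  omega

/-- norm of `rho` at points of the second kind -/
theorem a17_rho_H {K : Type*} [NormedField K] [IsUltrametricDist K] (p q n : ℕ) (hp : p.Prime)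
    (hq : p = 2 * q + 1) (hn : n = p * q + q) (ζ : K) (hζ1 : ‖ζ‖ = 1) (t : ℝ) (ht0 : 0 < t)
    (hζa : ∀ j : ℕ, ¬ p ∣ j → ‖ζ ^ j - 1‖ = t) (hζb : ∀ j : ℕ, ¬ p ∣ j → ‖ζ ^ (p * j) - 1‖ = t ^ p)
    (a : ℕ) (h1 : 1 ≤ a) (h2 : a ≤ n) (hd : p ∣ a) : ‖rho ζ a‖ = t ^ (p - 1) := by
  have hz0 : ζ ≠ 0 := by
    intro h; rw [h, norm_zero] at hζ1; exact zero_ne_one hζ1
  obtain ⟨a', rfl, ha'⟩ := a17_split p q n hp hq hn a h1 h2 hd
  have h3 := rho_mul ζ hz0 (p * a')
  have h4 := congrArg norm h3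
  rw [norm_mul, a17_inv_sub ζ hζ1 (p * a')] at h4
  have h5 : ‖ζ - ζ⁻¹‖ = t := by
    have h6 := a17_inv_sub ζ hζ1 1
    rw [pow_one, pow_one] at h6
    rw [h6]
    apply hζa
    have h7 : ¬ p ∣ 1 := by
      intro h; have := Nat.le_of_dvd one_pos h; have := hp.two_le; omega
    have h8 := a17_not_dvd_two_mul p q hp hq 1 h7
    exact h8
  have h6 : ‖ζ ^ (2 * (p * a')) - 1‖ = t ^ p := by
    have h7 : 2 * (p * a') = p * (2 * a') := by ring
    rw [h7]
    exact hζb _ (a17_not_dvd_two_mul p q hp hq a' ha')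
  rw [h5, h6] at h4
  have h7 : t ^ p = t * t ^ (p - 1) := by
    rw [← pow_succ']
    congr 1
    have := hp.pos; omega
  rw [h7] at h4
  exact mul_left_cancel₀ ht0.ne' h4

/-- the values on the columns of the third kind -/
theorem a17_C0 {K : Type*} [NormedField K] [IsUltrametricDist K] (p q n : ℕ) (hp : p.Prime)
    (hq : p = 2 * q + 1) (hn : n = p * q + q) (ζ : K) (hζ : IsPrimitiveRoot ζ (p ^ 2)) (hζ1 : ‖ζ‖ = 1)
    (t : ℝ) (ht0 : 0 < t) (hζb : ∀ j : ℕ, ¬ p ∣ j → ‖ζ ^ (p * j) - 1‖ = t ^ p)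
    (a : ℕ) (b : ℕ) (h1 : 1 ≤ b) (h2 : b ≤ n) (hd : p ∣ b) :
    (p ∣ a → rho (ζ ^ b) a = 0) ∧ ‖rho (ζ ^ b) a - (a : K)‖ ≤ t ^ (2 * p) := by
  obtain ⟨b', rfl, hb'⟩ := a17_split p q n hp hq hn b h1 h2 hd
  have hz1 : ‖ζ ^ (p * b')‖ = 1 := by rw [norm_pow, hζ1, one_pow]
  have hz0 : ζ ^ (p * b') ≠ 0 := by
    intro h; rw [h, norm_zero] at hz1; exact zero_ne_one hz1
  constructor
  · rintro ⟨a', rfl⟩
    have h3 := rho_mul (ζ ^ (p * b')) hz0 (p * a')
    have h4 : (ζ ^ (p * b')) ^ (p * a') = 1 := by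
      rw [← pow_mul]
      have h5 : p * b' * (p * a') = p ^ 2 * (a' * b') := by ring
      rw [h5, pow_mul, hζ.pow_eq_one, one_pow]
    have h5 : ((ζ ^ (p * b'))⁻¹) ^ (p * a') = 1 := by
      rw [inv_pow, h4, inv_one]
    rw [h4, h5, sub_self] at h3
    rcases mul_eq_zero.1 h3 with h6 | h6
    · exfalso
      have h7 := a17_inv_sub (ζ ^ (p * b')) hz1 1
      rw [pow_one, pow_one, h6, norm_zero, ← pow_mul] at h7
      have h8 : p * b' * (2 * 1) = p * (2 * b') := by ring
      rw [h8, hζb _ (a17_not_dvd_two_mul p q hp hq b' hb')] at h7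
      have h9 : 0 < t ^ p := by positivity
      exact h9.ne h7
    · exact h6
  · have h3 := (rho_taylor (ζ ^ (p * b')) hz1 a).1
    rw [hζb _ hb'] at h3
    have h4 : (t ^ p) ^ 2 = t ^ (2 * p) := by rw [← pow_mul, mul_comm]
    rw [h4] at h3
    exact h3

theorem a17_card (p q n : ℕ) (hp : p.Prime) (hq : p = 2 * q + 1) (hn : n = p * q + q) :
    (Finset.univ.filter (fun j : Fin n => ¬ p ∣ (j : ℕ) + 1)).card = p * q := by
  have h1 : (Finset.univ.filter (fun j : Fin n => p ∣ (j : ℕ) + 1)).card = q := by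
    have h2 : (Finset.univ.filter (fun j : Fin n => p ∣ (j : ℕ) + 1)).card =
        ((Finset.Ioc 0 n).filter (fun a => p ∣ a)).card := by
      apply Finset.card_bij (fun (j : Fin n) _ => (j : ℕ) + 1)
      · intro j hj
        rw [Finset.mem_filter] at hj ⊢
        exact ⟨Finset.mem_Ioc.2 ⟨by omega, by have := j.2; omega⟩, hj.2⟩
      · intro a _ b _ hab
        apply Fin.ext; omega
      · intro b hb
        rw [Finset.mem_filter, Finset.mem_Ioc] at hb
        refine ⟨⟨b - 1, by omega⟩, ?_, ?_⟩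
        · rw [Finset.mem_filter]
          refine ⟨Finset.mem_univ _, ?_⟩
          have : b - 1 + 1 = b := by omega
          simp only [this]; exact hb.2
        · simp only; omega
    rw [h2, Nat.Ioc_filter_dvd_card_eq_div]
    rw [hn]
    have hqp : q < p := by omega
    rw [Nat.mul_add_div hp.pos, Nat.div_eq_of_lt hqp, add_zero]
  have h3 := Finset.card_filter_add_card_filter_not (s := (Finset.univ : Finset (Fin n)))
    (fun j : Fin n => p ∣ (j : ℕ) + 1)
  rw [h1, Finset.card_univ, Fintype.card_fin] at h3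
  omega

theorem rho_permSum_ne_zero {K : Type*} [NormedField K] [IsUltrametricDist K] (p q n m r W : ℕ) (hp : p.Prime)
    (hq : p = 2 * q + 1) (hn : n = p * q + q) (hpn : ‖(p : K)‖ = (p : ℝ)⁻¹) (ζ : K)
    (hζ : IsPrimitiveRoot ζ (p ^ 2)) (hm : m + r = n) (hr : 1 ≤ r) (e : Fin m → ℕ)
    (he : ∀ i, 1 ≤ e i ∧ e i ≤ n) (hW : (Finset.univ.filter (fun i => p ∣ e i)).card = W)
    (hcase : (W + r ≤ q + 1 ∧ (∏ i ∈ Finset.univ.filter (fun i => ¬ p ∣ e i), (Polynomial.C (e i : ZMod p) +
      Polynomial.C (((e i + 1).choose 3 : ℕ) : ZMod p) * Polynomial.X)).coeff (q + 1 - r - W) ≠ 0) ∨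
      (r = 1 ∧ q < W ∧ W < p))
    (κ : Fin m → Fin n) (hκ : Function.Injective κ) (hκ1 : ∀ i, (κ i : ℕ) ≠ 0)
    (hκ2 : ∀ j : Fin n, ¬ p ∣ (j : ℕ) + 1 → (j : ℕ) ≠ 0 → ∃ i, κ i = j) :
    ∑ π : Equiv.Perm (Fin m), ∏ i, rho (ζ ^ ((κ (π i) : ℕ) + 1)) (e i) ≠ 0 := by
  classical
  obtain ⟨t, ht0, ht1, htp, hζa, hζb⟩ := cyc_norms p hp hpn ζ hζ
  have hζ1 : ‖ζ‖ = 1 := a17_norm_one p hp ζ hζ
  have hp3 : 3 ≤ p := by have := hp.two_le; omega
  have hq1 : 1 ≤ q := by omega
  have hpq : p ≤ p * q := Nat.le_mul_of_pos_right p hq1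
  have hn0 : 0 < n := by omega
  have hp1 : ¬ p ∣ 1 := by
    intro h; have := Nat.le_of_dvd one_pos h; omega
  -- the data
  set c : Fin m → K := fun i => if p ∣ e i then 0 else (e i : K) with hcdef
  set f : Fin m → Fin n → K := fun i j => rho (ζ ^ ((j : ℕ) + 1)) (e i) - c i with hfdef
  set C1 : Finset (Fin n) := Finset.univ.filter (fun j : Fin n => ¬ p ∣ (j : ℕ) + 1) with hC1
  set C0 : Finset (Fin n) := Finset.univ.filter
    (fun j : Fin n => p ∣ (j : ℕ) + 1 ∧ j ∈ Finset.univ.image κ) with hC0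
  set j0 : Fin n := ⟨0, hn0⟩ with hj0def
  have hj0 : j0 ∈ C1 := by
    rw [hC1, Finset.mem_filter]
    exact ⟨Finset.mem_univ _, by simpa [hj0def] using hp1⟩
  have hdis : Disjoint C1 C0 := by
    rw [Finset.disjoint_left]
    intro j h1 h2
    rw [hC1, Finset.mem_filter] at h1
    rw [hC0, Finset.mem_filter] at h2
    exact h1.2 h2.2.1
  have hκi : Finset.univ.image κ = C1.erase j0 ∪ C0 := by
    ext j
    rw [Finset.mem_union, Finset.mem_erase]
    constructor
    · intro hj
      by_cases hd : p ∣ (j : ℕ) + 1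
      · right
        rw [hC0, Finset.mem_filter]
        exact ⟨Finset.mem_univ _, hd, hj⟩
      · left
        obtain ⟨i, _, rfl⟩ := Finset.mem_image.1 hj
        refine ⟨?_, ?_⟩
        · intro h
          apply hκ1 i
          rw [h]
        · rw [hC1, Finset.mem_filter]
          exact ⟨Finset.mem_univ _, hd⟩
    · rintro (⟨h1, h2⟩ | h)
      · rw [hC1, Finset.mem_filter] at h2
        obtain ⟨i, hi⟩ := hκ2 j h2.2 (by
          intro h
          apply h1
          apply Fin.ext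
          rw [h])
        exact Finset.mem_image.2 ⟨i, Finset.mem_univ _, hi⟩
      · rw [hC0, Finset.mem_filter] at h
        exact h.2.2
  have hC1card : C1.card = p * q := a17_card p q n hp hq hn
  have hmcard : m = p * q - 1 + C0.card := by
    have h1 : (Finset.univ.image κ).card = m := by
      rw [Finset.card_image_of_injective _ hκ, Finset.card_univ, Fintype.card_fin]
    rw [hκi, Finset.card_union_of_disjoint
      (Finset.disjoint_of_subset_left (Finset.erase_subset _ _) hdis),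
      Finset.card_erase_of_mem hj0, hC1card] at h1
    exact h1.symm
  set γ := C0.card with hγdef
  have hγ1 : γ + r = q + 1 := by
    have : 1 ≤ p * q := by omega
    omega
  set H : Finset (Fin m) := Finset.univ.filter (fun i => p ∣ e i) with hHdef
  have hmemH : ∀ i, i ∈ H ↔ p ∣ e i := by
    intro i; rw [hHdef, Finset.mem_filter]; simp
  have hcomp : Hᶜ = Finset.univ.filter (fun i => ¬ p ∣ e i) := by
    ext i
    rw [Finset.mem_compl, hmemH, Finset.mem_filter]; simp
  -- the two facts of permSum_full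
  obtain ⟨hps, hzero⟩ := permSum_full m n f c C1 C0 j0 hj0 hdis κ hκ hκi
  have hsum : ∑ π : Equiv.Perm (Fin m), ∏ i, rho (ζ ^ ((κ (π i) : ℕ) + 1)) (e i) =
      ∑ π : Equiv.Perm (Fin m), ∏ i, (c i + f i (κ (π i))) := by
    apply Finset.sum_congr rfl
    intro π _
    apply Finset.prod_congr rfl
    intro i _
    rw [hfdef]; simp only; ring
  rw [hsum, hps]
  -- values of f on the columns in C0
  have hfC0 : ∀ i, ∀ j ∈ C0, ‖f i j‖ ≤ t ^ (2 * p) ∧ (i ∈ H → f i j = 0) := by
    intro i j hj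
    rw [hC0, Finset.mem_filter] at hj
    obtain ⟨h1, h2⟩ := a17_C0 p q n hp hq hn ζ hζ hζ1 t ht0 hζb (e i) ((j : ℕ) + 1) (by omega)
      (by have := j.2; omega) hj.2.1
    have h3 : i ∈ H → f i j = 0 := by
      intro hi
      rw [hmemH] at hi
      simp only [hfdef, hcdef, if_pos hi, h1 hi, sub_zero]
    refine ⟨?_, h3⟩
    by_cases hi : i ∈ H
    · rw [h3 hi, norm_zero]; positivity
    · rw [hmemH] at hi
      simp only [hfdef, hcdef, if_neg hi]
      exact h2
  have hgval : ∀ i, i ∉ H → f i j0 = rho ζ (e i) - (e i : K) := by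
    intro i hi
    rw [hmemH] at hi
    simp only [hfdef, hcdef, if_neg hi, hj0def, zero_add, pow_one]
  have hgvalH : ∀ i, i ∈ H → f i j0 = rho ζ (e i) := by
    intro i hi
    rw [hmemH] at hi
    simp only [hfdef, hcdef, if_pos hi, hj0def, zero_add, pow_one, sub_zero]
  have hζt : ‖ζ - 1‖ = t := by
    have := hζa 1 hp1
    rwa [pow_one] at this
  have hgH : ∀ i ∈ H, ‖f i j0‖ = t ^ (p - 1) := by
    intro i hi
    rw [hgvalH i hi]
    exact a17_rho_H p q n hp hq hn ζ hζ1 t ht0 hζa hζb (e i) (he i).1 (he i).2 ((hmemH i).1 hi)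
  have hfprod : ∀ S : Finset (Fin m), S.Nonempty → ∀ j : Fin n,
      ∏ i ∈ S, (if j ∈ C1 then f i j else 0) = if p ∣ (j : ℕ) + 1 then 0 else
        ∏ i ∈ S, (rho (ζ ^ ((j : ℕ) + 1)) (e i) - (if p ∣ e i then 0 else (e i : K))) := by
    intro S hS j
    by_cases hd : p ∣ (j : ℕ) + 1
    · rw [if_pos hd]
      obtain ⟨i, hi⟩ := hS
      apply Finset.prod_eq_zero hi
      rw [if_neg]
      rw [hC1, Finset.mem_filter]
      exact fun h => h.2 hd
    · rw [if_neg hd]
      have hj : j ∈ C1 := by rw [hC1, Finset.mem_filter]; exact ⟨Finset.mem_univ _, hd⟩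
      apply Finset.prod_congr rfl
      intro i _
      rw [if_pos hj]
  apply total_bound p q m γ W hp hq hpn t ht0 ht1 htp hmcard (by omega)
    (by rcases hcase with h | h
        · left; omega
        · right; omega) H hW c (fun i => f i j0)
    (injSum (fun i j => if j ∈ C0 then f i j else 0))
    (injSum (fun i j => if j ∈ C1 then f i j else 0))
  · intro i
    simp only [hcdef]
    by_cases hi : p ∣ e i
    · rw [if_pos hi, norm_zero]; norm_num
    · rw [if_neg hi]; exact (norm_nat_facts p hp hpn (e i)).1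
  · intro i hi
    rw [hmemH] at hi
    simp only [hcdef, if_pos hi]
  · intro i
    by_cases hi : i ∈ H
    · rw [if_pos hi]; exact (hgH i hi).le
    · rw [if_neg hi]
      show ‖f i j0‖ ≤ t ^ 2
      rw [hgval i hi, ← hζt]
      exact (rho_taylor ζ hζ1 (e i)).1
  · exact hgH
  · intro B
    have h1 := (injSum_small (fun i j => if j ∈ C0 then f i j else 0) B).1 (t ^ (2 * p))
      (by positivity) (by
        intro i _ j
        by_cases hj : j ∈ C0
        · rw [if_pos hj]; exact (hfC0 i j hj).1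
        · rw [if_neg hj, norm_zero]; positivity)
    rwa [← pow_mul] at h1
  · exact (injSum_small (fun i j => if j ∈ C0 then f i j else 0) ∅).2.2.2 rfl
  · exact (injSum_small (fun i j => if j ∈ C1 then f i j else 0) ∅).2.2.2 rfl
  · intro B i hiB hiH
    apply (injSum_small (fun i j => if j ∈ C0 then f i j else 0) B).2.2.1 i hiB
    intro j
    by_cases hj : j ∈ C0
    · simp only [if_pos hj]; exact (hfC0 i j hj).2 hiH
    · simp only [if_neg hj]
  · intro B hB
    apply (injSum_small (fun i j => if j ∈ C0 then f i j else 0) B).2.1 C0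
    · intro i _ j hj
      simp only [if_neg hj]
    · exact hB
  · intro A x y hxy
    apply injSum_two_level p q hp hq hpn (fun i j => if j ∈ C1 then f i j else 0)
      (fun i => if i ∈ H then p - 1 else 2)
    · intro i
      split_ifs <;> omega
    · intro S hS
      rw [Finset.sum_congr rfl (fun j _ => hfprod S hS j)]
      exact (power_bounds p q n hp hq hn hpn ζ hζ e S).1
    · intro S hS
      have hSne : S.Nonempty := by
        rw [Finset.nonempty_iff_ne_empty]
        intro h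
        rw [h, Finset.sum_empty] at hS
        omega
      rw [Finset.sum_congr rfl (fun j _ => hfprod S hSne j)]
      apply (power_bounds p q n hp hq hn hpn ζ hζ e S).2
      refine hS.trans (le_of_eq ?_)
      apply Finset.sum_congr rfl
      intro i _
      simp only [hmemH]
    · exact hxy
  · intro E hE
    apply hzero
    rw [hC1card]
    omega
  · rcases hcase with ⟨hc1, hc2⟩ | ⟨hc1, hc2, hc3⟩
    · have hxn := (rho_taylor ζ hζ1 0).2.2
      rw [hζt] at hxn
      have hb : γ - W = q + 1 - r - W := by omega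
      have hmc := main_coeff p hp hpn Hᶜ e (fun i => f i j0) (ζ + ζ⁻¹ - 2)
        (by rw [hxn]; nlinarith) (by
          intro h
          rw [h, norm_zero] at hxn
          have : 0 < t ^ 2 := by positivity
          exact this.ne hxn) (by
          intro i hi
          rw [Finset.mem_compl] at hi
          rw [hgval i hi, hxn]
          have h1 := (rho_taylor ζ hζ1 (e i)).2.1
          rw [hζt] at h1
          have h2 : (t ^ 2) ^ 2 = t ^ 4 := by ring
          rw [h2]; exact h1) (γ - W) (by rw [hcomp, hb]; exact hc2)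
      rw [hxn, ← pow_mul] at hmc
      rw [← hmc]
      congr 1
      apply Finset.sum_congr rfl
      intro B _
      congr 1
      apply Finset.prod_congr rfl
      intro i hi
      rw [Finset.mem_sdiff, Finset.mem_compl, hmemH] at hi
      simp only [hcdef, if_neg hi.1]
    · have h0 : γ - W = 0 := by omega
      rw [h0, Finset.powersetCard_zero, Finset.sum_singleton, Finset.prod_empty, mul_one,
        Finset.sdiff_empty, mul_zero, pow_zero, norm_prod]
      apply Finset.prod_eq_one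
      intro i hi
      rw [Finset.mem_compl, hmemH] at hi
      simp only [hcdef, if_neg hi]
      exact (norm_nat_facts p hp hpn (e i)).2.1 hi


end Pool.Agent.Helper805_nf
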