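import Pool.Agent.Helper805_nf.Defs3
import Pool.Agent.Helper805_nf.Y18

set_option autoImplicit false

namespace Pool.Agent.Helper805_nf

open Finset


theorem e5_fibre (p q : ℕ) (hp : p.Prime) (hq : p = 2 * q + 1) (S : Finset ℕ)
    (hS : ∀ x ∈ S, 1 ≤ x ∧ x ≤ p * q + q ∧ ¬ p ∣ x)
    (hf : ∀ x ∈ S, ∀ y ∈ S, ((x : ZMod p) ^ 2) = (y : ZMod p) ^ 2) : S.card ≤ p := by
  have : Fact p.Prime := ⟨hp⟩
  have key : ∀ x ∈ S, ∀ y ∈ S, 2 * x / p = 2 * y / p → x ≤ y → x = y := by
    intro x hx y hy hxy hle
    by_contra hne
    have hlt : x < y := lt_of_le_of_ne hle hne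
    have hx1 := hS x hx
    have hy1 := hS y hy
    have h1 := Nat.div_add_mod (2 * x) p
    have h2 := Nat.div_add_mod (2 * y) p
    have h3 := Nat.mod_lt (2 * x) hp.pos
    have h4 := Nat.mod_lt (2 * y) hp.pos
    rw [hxy] at h1
    set m := 2 * y / p with hm
    set a := 2 * x % p with ha
    set b := 2 * y % p with hb
    have hsq := hf x hx y hy
    rcases sq_eq_sq_iff_eq_or_eq_neg.mp hsq with h | h
    · have h' : (x : ZMod p) = (y : ZMod p) := h
      rw [ZMod.natCast_eq_natCast_iff] at h'
      have h5 := (Nat.modEq_iff_dvd' hle).mp h'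
      have h6 := Nat.le_of_dvd (by omega) h5
      omega
    · have h' : ((x + y : ℕ) : ZMod p) = 0 := by
        push_cast
        rw [h]; ring
      rw [ZMod.natCast_eq_zero_iff] at h'
      obtain ⟨c, hc⟩ := h'
      have h7 : 2 * (x + y) = 2 * (p * m) + (a + b) := by omega
      have h8 : p ∣ a + b := by
        have : p ∣ 2 * (p * m) + (a + b) := by
          rw [← h7, hc]; exact ⟨2 * c, by ring⟩
        exact (Nat.dvd_add_right ⟨2 * m, by ring⟩).mp this
      obtain ⟨e, he⟩ := h8
      have hab : 0 < a + b := by omega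
      have he1 : e = 1 := by
        have e1 : 0 < e := by
          rcases Nat.eq_zero_or_pos e with h0 | h0
          · subst h0; omega
          · exact h0
        have e2 : e < 2 := by
          by_contra hcon
          have : 2 ≤ e := by omega
          have : p * 2 ≤ p * e := Nat.mul_le_mul_left p this
          omega
        omega
      subst he1
      have h9 : 2 * (x + y) = 2 * (p * m) + (2 * q + 1) := by
        rw [h7, he, mul_one, ← hq]
      omega
  have h0 : S.card ≤ (Finset.range p).card := by
    apply Finset.card_le_card_of_injOn (fun x => 2 * x / p)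
    · intro x hx
      have h := hS x hx
      simp only [Finset.coe_range, Set.mem_Iio]
      rw [Nat.div_lt_iff_lt_mul hp.pos]
      have h2 : p * p = p * (2 * q + 1) := by rw [← hq]
      nlinarith [h.2.1, hp.pos]
    · intro x hx y hy hxy
      rcases le_total x y with h | h
      · exact key x hx y hy hxy h
      · exact (key y hy x hx hxy.symm h).symm
  simpa using h0

theorem e5_count (p : ℕ) {F : Type*} [DecidableEq F] (S : Finset ℕ) (R : Multiset F) (f : ℕ → F)
    (h : ∀ ρ : F, (S.filter (fun x => f x = ρ)).card ≤ p) :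
    ∑ x ∈ S, R.count (f x) ≤ p * Multiset.card R := by
  induction R using Multiset.induction_on with
  | empty => simp
  | cons a R ih =>
    have h1 : ∑ x ∈ S, (a ::ₘ R).count (f x) = ∑ x ∈ S, R.count (f x) + (S.filter (fun x => f x = a)).card := by
      rw [Finset.card_filter, ← Finset.sum_add_distrib]
      apply Finset.sum_congr rfl
      intro x _
      rw [Multiset.count_cons]
    rw [h1, Multiset.card_cons, mul_add, mul_one]
    exact Nat.add_le_add ih (h a)

theorem exists_removal (p q t : ℕ) (hp : p.Prime) (hq : p = 2 * q + 1) (ht : t ≤ q) (U : Multiset ℕ)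
    (hU : ∀ x ∈ U, 1 ≤ x ∧ x ≤ p * q + q ∧ ¬ p ∣ x) (hc : Multiset.card U = p * q + t) :
    ∃ d ∈ U, ∃ r, 1 ≤ r ∧ r ≤ t + 1 ∧ r ≤ U.count d ∧
      (((U - Multiset.replicate r d).map
        (fun x : ℕ => (Polynomial.X + Polynomial.C ((x : ZMod p) ^ 2)))).prod).coeff (p * q - 1) ≠ 0 := by
  have : Fact p.Prime := ⟨hp⟩
  have hq1 : 1 ≤ q := by
    have := hp.two_le
    omega
  have hpq : 1 ≤ p * q := Nat.mul_pos hp.pos hq1
  by_contra hcon
  push Not at hcon
  set g : ℕ → Polynomial (ZMod p) := fun x : ℕ => (Polynomial.X + Polynomial.C ((x : ZMod p) ^ 2)) with hg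
  have hmon : ∀ V : Multiset ℕ, (V.map g).prod.Monic := by
    intro V
    apply Polynomial.monic_multiset_prod_of_monic
    intro x _
    exact Polynomial.monic_X_add_C _
  have hdeg : ∀ V : Multiset ℕ, (V.map g).prod.natDegree = Multiset.card V := by
    intro V
    rw [Polynomial.natDegree_multiset_prod_of_monic]
    · rw [Multiset.map_map]
      have : (V.map (Polynomial.natDegree ∘ g)) = V.map (fun _ => 1) := by
        apply Multiset.map_congr rfl
        intro x _
        simp only [Function.comp, hg]
        exact Polynomial.natDegree_X_add_C _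
      rw [this]
      simp
    · intro f hf
      obtain ⟨x, _, rfl⟩ := Multiset.mem_map.mp hf
      exact Polynomial.monic_X_add_C _
  -- (a)
  have hcount : ∀ d ∈ U, U.count d ≤ t := by
    intro d hd
    by_contra hlt
    have hlt' : t + 1 ≤ U.count d := by omega
    have h0 := hcon d hd (t + 1) (by omega) le_rfl hlt'
    have hle : Multiset.replicate (t + 1) d ≤ U := Multiset.le_count_iff_replicate_le.mp hlt'
    have hcard : Multiset.card (U - Multiset.replicate (t + 1) d) = p * q - 1 := by
      rw [Multiset.card_sub hle, Multiset.card_replicate, hc]; omega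
    have h1 := hmon (U - Multiset.replicate (t + 1) d)
    have h2 := hdeg (U - Multiset.replicate (t + 1) d)
    rw [hcard] at h2
    have h3 : (((U - Multiset.replicate (t + 1) d).map g).prod).coeff (p * q - 1) = 1 := by
      rw [← h2]; exact h1
    rw [h3] at h0
    exact one_ne_zero h0
  -- (b)
  set Φ := (U.map g).prod with hΦ
  set T := Φ /ₘ (Polynomial.X ^ (p * q)) with hT
  have hΦdeg : Φ.natDegree = p * q + t := by rw [hΦ, hdeg, hc]
  have hTdeg : T.natDegree = t := by
    rw [hT, Polynomial.natDegree_divByMonic _ (Polynomial.monic_X_pow _), hΦdeg, Polynomial.natDegree_X_pow]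
    omega
  have hΦ0 : Φ ≠ 0 := (hmon U).ne_zero
  have hT0 : T ≠ 0 := by
    intro h
    rw [hT, Polynomial.divByMonic_eq_zero_iff (Polynomial.monic_X_pow _)] at h
    rw [Polynomial.degree_X_pow, Polynomial.degree_eq_natDegree hΦ0, hΦdeg] at h
    have : p * q + t < p * q := by exact_mod_cast h
    omega
  have hmult : ∀ d ∈ U, U.count d ≤ T.roots.count (-((d : ZMod p) ^ 2)) := by
    intro d hd
    have hle : ∀ r, r ≤ U.count d → Multiset.replicate r d ≤ U := fun r hr =>
      Multiset.le_count_iff_replicate_le.mp hr
    set μ := U.count d with hμ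
    have hsplit : ∀ r, r ≤ μ → U - Multiset.replicate r d
        = Multiset.replicate (μ - r) d + (U - Multiset.replicate μ d) := by
      intro r hr
      have e1 : U = Multiset.replicate μ d + (U - Multiset.replicate μ d) :=
        (add_tsub_cancel_of_le (hle μ le_rfl)).symm
      have e2 : Multiset.replicate μ d = Multiset.replicate r d + Multiset.replicate (μ - r) d := by
        rw [← Multiset.replicate_add]; congr 1; omega
      conv_lhs => rw [e1, e2, add_assoc]
      rw [add_tsub_cancel_left, ← e2]
    set Ψ := ((U - Multiset.replicate μ d).map g).prod with hΨ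
    have hprod : ∀ r, r ≤ μ → ((U - Multiset.replicate r d).map g).prod
        = (Polynomial.X + Polynomial.C ((d : ZMod p) ^ 2)) ^ (μ - r) * Ψ := by
      intro r hr
      rw [hsplit r hr, Multiset.map_add, Multiset.prod_add, Multiset.map_replicate, Multiset.prod_replicate]
    have hdiv := top_div (p * q) μ hpq ((d : ZMod p) ^ 2) Ψ (by
      intro r hr1 hr2
      rw [← hprod r hr2]
      exact hcon d hd r hr1 (by have := hcount d hd; omega) hr2)
    have hΦ2 : Φ = (Polynomial.X + Polynomial.C ((d : ZMod p) ^ 2)) ^ μ * Ψ := by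
      have := hprod 0 (Nat.zero_le _)
      simpa using this
    rw [← hΦ2] at hdiv
    rw [Polynomial.count_roots]
    rw [Polynomial.le_rootMultiplicity_iff hT0]
    have : Polynomial.X - Polynomial.C (-((d : ZMod p) ^ 2)) = Polynomial.X + Polynomial.C ((d : ZMod p) ^ 2) := by
      rw [Polynomial.C_neg, sub_neg_eq_add]
    rw [this]
    exact hdiv
  -- (c)
  have hsum : Multiset.card U ≤ p * Multiset.card T.roots := by
    rw [← Multiset.toFinset_sum_count_eq U]
    calc ∑ x ∈ U.toFinset, U.count x ≤ ∑ x ∈ U.toFinset, T.roots.count (-((x : ZMod p) ^ 2)) := by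
          apply Finset.sum_le_sum
          intro x hx
          exact hmult x (Multiset.mem_toFinset.mp hx)
      _ ≤ p * Multiset.card T.roots := by
          apply e5_count p U.toFinset T.roots (fun x : ℕ => -((x : ZMod p) ^ 2))
          intro ρ
          apply e5_fibre p q hp hq
          · intro x hx
            exact hU x (Multiset.mem_toFinset.mp (Finset.mem_filter.mp hx).1)
          · intro x hx y hy
            have h1 := (Finset.mem_filter.mp hx).2
            have h2 := (Finset.mem_filter.mp hy).2
            exact neg_injective (h1.trans h2.symm)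
  have hroots : Multiset.card T.roots ≤ t := by
    rw [← hTdeg]; exact Polynomial.card_roots' T
  have h1 : p * Multiset.card T.roots ≤ p * t := Nat.mul_le_mul_left p hroots
  have h2 : p * t ≤ p * q := Nat.mul_le_mul_left p ht
  have h3 : t = 0 := by omega
  rw [h3, mul_zero] at h1
  omega

end Pool.Agent.Helper805_nf
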