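import Pool.Agent.Helper805_nf.Defs3

set_option autoImplicit false

namespace Pool.Agent.Helper805_nf

open Finset

theorem a20_choose (x : ℕ) : 6 * (x + 1).choose 3 + x = x ^ 3 := by
  induction x with
  | zero => rfl
  | succ x ih =>
    have h1 : (x + 1 + 1).choose 3 = (x + 1).choose 2 + (x + 1).choose 3 := rfl
    have h2 : (x + 1).choose 2 * 2 = (x + 1) * x := by
      have := Nat.choose_succ_right_eq (x + 1) 1
      simpa using this
    rw [h1]
    have h3 : 6 * ((x + 1).choose 2 + (x + 1).choose 3) + (x + 1) =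
      3 * ((x + 1).choose 2 * 2) + (6 * (x + 1).choose 3 + x) + 1 := by ring
    rw [h3, h2, ih]
    ring

theorem a20_rel (p : ℕ) (V : Multiset ℕ) : ∀ i j : ℕ, i + j = Multiset.card V →
    (6 : ZMod p) ^ i * ((V.map (fun x : ℕ => (Polynomial.C (x : ZMod p) +
      Polynomial.C (((x + 1).choose 3 : ℕ) : ZMod p) * Polynomial.X))).prod).coeff i =
    ((V.map (fun x : ℕ => (x : ZMod p))).prod) *
      ((V.map (fun x : ℕ => (Polynomial.X + Polynomial.C ((x : ZMod p) ^ 2 - 1)))).prod).coeff j := by
  induction V using Multiset.induction_on with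
  | empty =>
    intro i j hij
    simp only [Multiset.card_zero, Nat.add_eq_zero_iff] at hij
    obtain ⟨rfl, rfl⟩ := hij
    simp
  | cons a V ih =>
    intro i j hij
    rw [Multiset.card_cons] at hij
    simp only [Multiset.map_cons, Multiset.prod_cons]
    set P := (V.map (fun x : ℕ => (Polynomial.C (x : ZMod p) +
      Polynomial.C (((x + 1).choose 3 : ℕ) : ZMod p) * Polynomial.X))).prod with hP
    set Q := (V.map (fun x : ℕ => (Polynomial.X + Polynomial.C ((x : ZMod p) ^ 2 - 1)))).prod with hQ
    set R := (V.map (fun x : ℕ => (x : ZMod p))).prod with hR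
    have hPd : ∀ m, Multiset.card V < m → P.coeff m = 0 := by
      intro m hm
      apply Polynomial.coeff_eq_zero_of_natDegree_lt
      apply lt_of_le_of_lt _ hm
      rw [hP]
      refine (Polynomial.natDegree_multiset_prod_le _).trans ?_
      rw [Multiset.map_map]
      refine (Multiset.sum_le_card_nsmul _ 1 ?_).trans (by simp)
      intro d hd
      rw [Multiset.mem_map] at hd
      obtain ⟨x, _, rfl⟩ := hd
      simp only [Function.comp]
      refine (Polynomial.natDegree_add_le _ _).trans ?_
      refine max_le (by simp) ?_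
      exact (Polynomial.natDegree_C_mul_le _ _).trans Polynomial.natDegree_X_le
    have hQd : ∀ m, Multiset.card V < m → Q.coeff m = 0 := by
      intro m hm
      apply Polynomial.coeff_eq_zero_of_natDegree_lt
      apply lt_of_le_of_lt _ hm
      rw [hQ]
      refine (Polynomial.natDegree_multiset_prod_le _).trans ?_
      rw [Multiset.map_map]
      refine (Multiset.sum_le_card_nsmul _ 1 ?_).trans (by simp)
      intro d hd
      rw [Multiset.mem_map] at hd
      obtain ⟨x, _, rfl⟩ := hd
      simp only [Function.comp]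
      refine (Polynomial.natDegree_add_le _ _).trans ?_
      exact max_le Polynomial.natDegree_X_le ((Polynomial.natDegree_C _).le.trans (Nat.zero_le 1))
    have h6 : (6 : ZMod p) * (((a + 1).choose 3 : ℕ) : ZMod p) = (a : ZMod p) * ((a : ZMod p) ^ 2 - 1) := by
      have := congrArg (fun n : ℕ => (n : ZMod p)) (a20_choose a)
      simp only [Nat.cast_add, Nat.cast_mul, Nat.cast_pow, Nat.cast_ofNat] at this
      linear_combination this
    -- coefficients
    have hci : ∀ i', ((Polynomial.C (a : ZMod p) +
        Polynomial.C (((a + 1).choose 3 : ℕ) : ZMod p) * Polynomial.X) * P).coeff (i' + 1) =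
        (a : ZMod p) * P.coeff (i' + 1) + (((a + 1).choose 3 : ℕ) : ZMod p) * P.coeff i' := by
      intro i'
      rw [add_mul, Polynomial.coeff_add, Polynomial.coeff_C_mul, mul_assoc, Polynomial.coeff_C_mul,
        Polynomial.coeff_X_mul]
    have hc0 : ((Polynomial.C (a : ZMod p) +
        Polynomial.C (((a + 1).choose 3 : ℕ) : ZMod p) * Polynomial.X) * P).coeff 0 =
        (a : ZMod p) * P.coeff 0 := by
      rw [add_mul, Polynomial.coeff_add, Polynomial.coeff_C_mul, mul_assoc, Polynomial.coeff_C_mul]
      simp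
    have hcj : ∀ j', ((Polynomial.X + Polynomial.C ((a : ZMod p) ^ 2 - 1)) * Q).coeff (j' + 1) =
        Q.coeff j' + ((a : ZMod p) ^ 2 - 1) * Q.coeff (j' + 1) := by
      intro j'
      rw [add_mul, Polynomial.coeff_add, Polynomial.coeff_C_mul, Polynomial.coeff_X_mul]
    have hcj0 : ((Polynomial.X + Polynomial.C ((a : ZMod p) ^ 2 - 1)) * Q).coeff 0 =
        ((a : ZMod p) ^ 2 - 1) * Q.coeff 0 := by
      rw [add_mul, Polynomial.coeff_add, Polynomial.coeff_C_mul]
      simp
    rcases i with _ | i
    · obtain ⟨j, rfl⟩ : ∃ j', j = j' + 1 := ⟨j - 1, by omega⟩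
      rw [hc0, hcj, hQd (j + 1) (by omega)]
      have := ih 0 j (by omega)
      linear_combination (a : ZMod p) * this
    · rcases j with _ | j
      · rw [hci, hcj0, hPd (i + 1) (by omega)]
        have := ih i 0 (by omega)
        rw [pow_succ]
        linear_combination (6 : ZMod p) * (((a + 1).choose 3 : ℕ) : ZMod p) * this + R * Q.coeff 0 * h6
      · rw [hci, hcj]
        have h1 := ih (i + 1) j (by omega)
        have h2 := ih i (j + 1) (by omega)
        rw [pow_succ] at h1 ⊢
        linear_combination (a : ZMod p) * h1 + (6 : ZMod p) * (((a + 1).choose 3 : ℕ) : ZMod p) * h2 +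
          R * Q.coeff (j + 1) * h6

theorem a20_comp (p : ℕ) (V : Multiset ℕ) :
    ((V.map (fun x : ℕ => (Polynomial.X + Polynomial.C ((x : ZMod p) ^ 2 - 1)))).prod) =
    Polynomial.taylor (-1 : ZMod p) ((V.map (fun x : ℕ => (Polynomial.X + Polynomial.C ((x : ZMod p) ^ 2)))).prod) := by
  induction V using Multiset.induction_on with
  | empty => simp
  | cons a V ih =>
    simp only [Multiset.map_cons, Multiset.prod_cons]
    rw [Polynomial.taylor_mul, ih]
    congr 1
    simp only [map_add, Polynomial.taylor_X, Polynomial.taylor_C, Polynomial.C_neg, map_sub]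
    simp only [Polynomial.C_1, map_pow]
    ring

theorem coeff_convert (p q b : ℕ) (hp : p.Prime) (hq : p = 2 * q + 1) (hp3 : 3 < p ∨ b = 0) (hb : b ≤ q)
    (V : Multiset ℕ) (hV : ∀ x ∈ V, ¬ p ∣ x) (hc : Multiset.card V = p * q - 1 + b)
    (h : ((V.map (fun x : ℕ => (Polynomial.X + Polynomial.C ((x : ZMod p) ^ 2)))).prod).coeff (p * q - 1) ≠ 0) :
    ((V.map (fun x : ℕ => (Polynomial.C (x : ZMod p) +
      Polynomial.C (((x + 1).choose 3 : ℕ) : ZMod p) * Polynomial.X))).prod).coeff b ≠ 0 := by
  have : Fact p.Prime := ⟨hp⟩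
  have hq1 : 1 ≤ q := by
    rcases Nat.eq_zero_or_pos q with h0 | h0
    · subst h0
      simp only [Nat.mul_zero, Nat.zero_add] at hq
      exact absurd hp (by rw [hq]; exact Nat.not_prime_one)
    · exact h0
  have hpq : 1 ≤ p * q := Nat.mul_pos hp.pos hq1
  have hrel := a20_rel p V b (p * q - 1) (by omega)
  intro h0
  rw [h0, mul_zero] at hrel
  have hR : ((V.map (fun x : ℕ => (x : ZMod p))).prod) ≠ 0 := by
    apply Multiset.prod_ne_zero
    intro hmem
    rw [Multiset.mem_map] at hmem
    obtain ⟨x, hx, hx0⟩ := hmem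
    exact hV x hx ((ZMod.natCast_eq_zero_iff x p).mp hx0)
  have hE := (mul_eq_zero.mp hrel.symm).resolve_left hR
  rw [a20_comp, Polynomial.taylor_coeff] at hE
  set Psi := (V.map (fun x : ℕ => (Polynomial.X + Polynomial.C ((x : ZMod p) ^ 2)))).prod with hPsi
  have hdeg : Psi.natDegree ≤ Multiset.card V := by
    rw [hPsi]
    refine (Polynomial.natDegree_multiset_prod_le _).trans ?_
    rw [Multiset.map_map]
    refine (Multiset.sum_le_card_nsmul _ 1 ?_).trans (by simp)
    intro d hd
    rw [Multiset.mem_map] at hd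
    obtain ⟨x, _, rfl⟩ := hd
    simp only [Function.comp]
    refine (Polynomial.natDegree_add_le _ _).trans ?_
    exact max_le Polynomial.natDegree_X_le (by simp)
  have hconst : Polynomial.hasseDeriv (p * q - 1) Psi = Polynomial.C (Psi.coeff (p * q - 1)) := by
    ext n
    rw [Polynomial.hasseDeriv_coeff, Polynomial.coeff_C]
    by_cases hn : n = 0
    · subst hn
      simp
    · rw [if_neg hn]
      by_cases hnb : n ≤ b
      · have hdvd : p ∣ (n + (p * q - 1)).choose (p * q - 1) := by
          have h1 : (n + (p * q - 1)).choose (p * q - 1) = (n + (p * q - 1)).choose n := by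
            rw [Nat.choose_symm_add]
          rw [h1]
          obtain ⟨e, rfl⟩ : ∃ e, n = e + 1 := ⟨n - 1, by omega⟩
          have h2 := Nat.choose_succ_right_eq (e + 1 + (p * q - 1)) e
          have h3 : e + 1 + (p * q - 1) - e = p * q := by omega
          rw [h3] at h2
          have h4 : p ∣ (e + 1 + (p * q - 1)).choose (e + 1) * (e + 1) := by
            rw [h2]
            exact (Dvd.intro q rfl : p ∣ p * q).mul_left _
          rcases (Nat.Prime.dvd_mul hp).mp h4 with h5 | h5
          · exact h5
          · exact absurd (Nat.le_of_dvd (by omega) h5) (by omega)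
        rw [(ZMod.natCast_eq_zero_iff _ p).mpr hdvd, zero_mul]
      · rw [Polynomial.coeff_eq_zero_of_natDegree_lt (by omega : Psi.natDegree < n + (p * q - 1)), mul_zero]
  rw [hconst, Polynomial.eval_C] at hE
  exact h hE

end Pool.Agent.Helper805_nf
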