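import Pool.Agent.Helper805_nf.Defs3
import Pool.Agent.Helper805_nf.Y19
import Pool.Agent.Helper805_nf.Y20

set_option autoImplicit false

namespace Pool.Agent.Helper805_nf

open Finset




theorem a21_coeff_zero (p : ℕ) (hp : p.Prime) (V : Multiset ℕ) (hV : ∀ x ∈ V, ¬ p ∣ x) :
    ((V.map (fun x : ℕ => (Polynomial.C (x : ZMod p) +
        Polynomial.C (((x + 1).choose 3 : ℕ) : ZMod p) * Polynomial.X))).prod).coeff 0 ≠ 0 := by
  have : Fact p.Prime := ⟨hp⟩
  rw [Polynomial.coeff_zero_multiset_prod, Multiset.map_map]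
  refine Multiset.prod_ne_zero ?_
  intro h
  rw [Multiset.mem_map] at h
  obtain ⟨x, hx, hx0⟩ := h
  simp only [Function.comp_apply, Polynomial.coeff_add, Polynomial.coeff_C_zero,
    Polynomial.mul_coeff_zero, Polynomial.coeff_X_zero, mul_zero, add_zero] at hx0
  exact hV x hx ((ZMod.natCast_eq_zero_iff x p).1 hx0)

theorem a21_count (U : Multiset ℕ) (hU : ∀ x ∈ U, x = 1 ∨ x = 2 ∨ x = 4)
    (hc : Multiset.card U = 4) : ∃ d ∈ U, 2 ≤ U.count d := by
  by_contra hcon
  push Not at hcon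
  have hnd : U.Nodup := by
    rw [Multiset.nodup_iff_count_le_one]
    intro a
    by_cases ha : a ∈ U
    · have := hcon a ha
      omega
    · rw [Multiset.count_eq_zero_of_notMem ha]
      omega
  have hle : U ≤ ({1, 2, 4} : Multiset ℕ) := by
    rw [Multiset.le_iff_subset hnd]
    intro x hx
    rcases hU x hx with h | h | h <;> simp [h]
  have := Multiset.card_le_card hle
  simp [hc] at this

theorem exists_good (p q t : ℕ) (hp : p.Prime) (hq : p = 2 * q + 1) (ht : t ≤ q) (U : Multiset ℕ)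
    (hU : ∀ x ∈ U, 1 ≤ x ∧ x ≤ p * q + q ∧ ¬ p ∣ x) (hc : Multiset.card U = p * q + t) :
    ∃ d ∈ U, ∃ r, 1 ≤ r ∧ r ≤ t + 1 ∧ r ≤ U.count d ∧
      (((U - Multiset.replicate r d).map (fun x : ℕ => (Polynomial.C (x : ZMod p) +
        Polynomial.C (((x + 1).choose 3 : ℕ) : ZMod p) * Polynomial.X))).prod).coeff (t + 1 - r) ≠ 0 := by
  have hp2 := hp.two_le
  have hq1 : 1 ≤ q := by omega
  have hsub : ∀ (d r : ℕ), ∀ x ∈ U - Multiset.replicate r d, ¬ p ∣ x := fun d r x hx =>
    (hU x (Multiset.mem_of_le tsub_le_self hx)).2.2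
  rcases Nat.lt_or_ge 3 p with h3 | h3
  · obtain ⟨d, hd, r, h1, h2, h4, h5⟩ := exists_removal p q t hp hq ht U hU hc
    refine ⟨d, hd, r, h1, h2, h4, ?_⟩
    refine coeff_convert p q (t + 1 - r) hp hq (Or.inl h3) (by omega) _ (hsub d r) ?_ h5
    have hle : Multiset.replicate r d ≤ U := Multiset.le_count_iff_replicate_le.1 h4
    rw [Multiset.card_sub hle, Multiset.card_replicate, hc]
    have hpq : 1 ≤ p * q := Nat.mul_pos (by omega) hq1
    generalize p * q = a at *
    omega
  · have hp3 : p = 3 := by omega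
    have hq' : q = 1 := by omega
    subst hp3
    subst hq'
    have hU' : ∀ x ∈ U, x = 1 ∨ x = 2 ∨ x = 4 := by
      intro x hx
      obtain ⟨h1, h2, h4⟩ := hU x hx
      omega
    have ht' : t = 0 ∨ t = 1 := by omega
    rcases ht' with rfl | rfl
    · have hne : U ≠ 0 := by
        intro h
        rw [h] at hc
        simp at hc
      obtain ⟨d, hd⟩ := Multiset.exists_mem_of_ne_zero hne
      refine ⟨d, hd, 1, le_rfl, by omega, Multiset.one_le_count_iff_mem.2 hd, ?_⟩
      exact a21_coeff_zero 3 hp _ (hsub d 1)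
    · obtain ⟨d, hd, h2⟩ := a21_count U hU' (by rw [hc])
      refine ⟨d, hd, 2, by omega, by omega, h2, ?_⟩
      exact a21_coeff_zero 3 hp _ (hsub d 2)


end Pool.Agent.Helper805_nf
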