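-- few_heavies proved (helpers a22_enum, a22_kappa, a22_main); only the given sorries remain
import Pool.Agent.Helper805_nf.Defs3
import Pool.Agent.Helper805_nf.Y1
import Pool.Agent.Helper805_nf.Y2
import Pool.Agent.Helper805_nf.Y3
import Pool.Agent.Helper805_nf.Y17
import Pool.Agent.Helper805_nf.Y21
import Pool.Agent.Helper805_nf.X7

set_option autoImplicit false

namespace Pool.Agent.Helper805_nf

open Finset









/-- enumeration of a multiset -/
theorem a22_enum (M : Multiset ℕ) (m : ℕ) (h : Multiset.card M = m) :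
    ∃ e : Fin m → ℕ, Multiset.map e (Finset.univ : Finset (Fin m)).val = M := by
  induction M using Quotient.inductionOn with
  | h l =>
    subst h
    refine ⟨fun i => l.get i, ?_⟩
    have h1 : (Finset.univ : Finset (Fin l.length)).val = ((List.finRange l.length : List _) :
        Multiset (Fin l.length)) := rfl
    have h2 : Multiset.card (Quotient.mk (List.isSetoid ℕ) l) = l.length := rfl
    show Multiset.map (fun i => l.get i) (Finset.univ : Finset (Fin l.length)).val = _
    rw [h1, Multiset.map_coe]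
    simp

/-- the covering injection -/
theorem a22_kappa (p q n m r : ℕ) (hp : p.Prime) (hq : p = 2 * q + 1) (hn : n = p * q + q)
    (hm : m + r = n) (hr : 1 ≤ r) (hr2 : r ≤ q + 1) :
    ∃ κ : Fin m → Fin n, Function.Injective κ ∧ (∀ i, (κ i : ℕ) ≠ 0) ∧
      ∀ j : Fin n, ¬ p ∣ (j : ℕ) + 1 → (j : ℕ) ≠ 0 → ∃ i, κ i = j := by
  classical
  have hp2 := hp.two_le
  have hq1 : 1 ≤ q := by
    rcases Nat.eq_zero_or_pos q with h | h
    · omega
    · exact h
  have hn0 : 0 < n := by
    rw [hn]
    positivity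
  let C : Finset (Fin n) := Finset.univ.filter (fun j => ¬ p ∣ (j : ℕ) + 1 ∧ (j : ℕ) ≠ 0)
  let D : Finset (Fin n) := Finset.univ.filter (fun j => (j : ℕ) ≠ 0)
  have hCD : C ⊆ D := by
    intro j hj
    simp only [C, D, Finset.mem_filter, Finset.mem_univ, true_and] at hj ⊢
    exact hj.2
  have hD : m ≤ D.card := by
    have h1 : D = Finset.univ.erase (⟨0, hn0⟩ : Fin n) := by
      ext j
      simp only [D, Finset.mem_filter, Finset.mem_univ, true_and, Finset.mem_erase, and_true]
      rw [Ne, Ne, Fin.ext_iff]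
    rw [h1, Finset.card_erase_of_mem (Finset.mem_univ _), Finset.card_univ, Fintype.card_fin]
    omega
  have hC : C.card ≤ m := by
    have h1 : C.map Fin.valEmbedding ⊆
        (((Finset.range n).filter (fun e => ¬ p ∣ e + 1)).erase 0) := by
      intro a ha
      rw [Finset.mem_map] at ha
      obtain ⟨j, hj, rfl⟩ := ha
      simp only [C, Finset.mem_filter, Finset.mem_univ, true_and] at hj
      rw [Finset.mem_erase, Finset.mem_filter, Finset.mem_range]
      exact ⟨hj.2, j.2, hj.1⟩
    have h2 := Finset.card_le_card h1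
    rw [Finset.card_map] at h2
    have h0 : 0 ∈ (Finset.range n).filter (fun e => ¬ p ∣ e + 1) := by
      rw [Finset.mem_filter, Finset.mem_range]
      refine ⟨hn0, ?_⟩
      rw [zero_add, Nat.dvd_one]
      omega
    rw [Finset.card_erase_of_mem h0] at h2
    have h3 := Finset.card_filter_add_card_filter_not (s := Finset.range n) (fun e => p ∣ e + 1)
    rw [Nat.card_multiples, Finset.card_range] at h3
    have h4 : n / p = q := by
      rw [hn, Nat.mul_add_div hp.pos, Nat.div_eq_of_lt (by omega), add_zero]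
    rw [h4] at h3
    have h5 : p * q + 1 ≤ m + 1 + 1 := by omega
    omega
  obtain ⟨S, hCS, hSD, hS⟩ := Finset.exists_subsuperset_card_eq hCD hC hD
  refine ⟨fun i => S.orderEmbOfFin hS i, (S.orderEmbOfFin hS).injective, ?_, ?_⟩
  · intro i
    have h1 := hSD (S.orderEmbOfFin_mem hS i)
    simp only [D, Finset.mem_filter, Finset.mem_univ, true_and] at h1
    exact h1
  · intro j h1 h2
    have h3 : j ∈ S := hCS (by
      simp only [C, Finset.mem_filter, Finset.mem_univ, true_and]
      exact ⟨h1, h2⟩)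
    have h4 : j ∈ Set.range (S.orderEmbOfFin hS) := by
      rw [Finset.range_orderEmbOfFin]
      exact h3
    exact h4

/-- the common part of the two cases -/
theorem a22_main (p q n : ℕ) (hp : p.Prime) (hq : p = 2 * q + 1) (hn : n = p * q + q)
    (hv : 2 * n + 1 = p ^ 2) (L : Multiset ℕ)
    (hcard : Multiset.card L = n) (hL : ∀ x ∈ L, 1 ≤ x ∧ x ≤ n) (d r : ℕ) (hd : ¬ p ∣ d)
    (hr : 1 ≤ r) (hr2 : r ≤ q + 1) (hdr : r ≤ L.count d)
    (hcase : (Multiset.card (L.filter (fun x => p ∣ x)) + r ≤ q + 1 ∧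
      ((((L.filter (fun x => ¬ p ∣ x)) - Multiset.replicate r d).map
        (fun x : ℕ => (Polynomial.C (x : ZMod p) +
        Polynomial.C (((x + 1).choose 3 : ℕ) : ZMod p) * Polynomial.X))).prod).coeff
        (q + 1 - r - Multiset.card (L.filter (fun x => p ∣ x))) ≠ 0) ∨
      (r = 1 ∧ q < Multiset.card (L.filter (fun x => p ∣ x)) ∧
        Multiset.card (L.filter (fun x => p ∣ x)) < p)) :
    ∃ g : Fin n ⊕ Fin n → Fin (2 * n + 1), Function.Injective g ∧
      Multiset.map
        (fun i : Fin n =>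
          min (Int.natAbs (((g (Sum.inl i) : ℕ) : ℤ) - ((g (Sum.inr i) : ℕ) : ℤ)))
            (2 * n + 1 - Int.natAbs (((g (Sum.inl i) : ℕ) : ℤ) - ((g (Sum.inr i) : ℕ) : ℤ))))
        (Finset.univ : Finset (Fin n)).val = L := by
  classical
  have hpF : Fact p.Prime := ⟨hp⟩
  have hle : Multiset.replicate r d ≤ L := Multiset.le_count_iff_replicate_le.mp hdr
  have hML : (L - Multiset.replicate r d) + Multiset.replicate r d = L :=
    Multiset.sub_add_cancel hle
  obtain ⟨m, hm⟩ : ∃ m, Multiset.card (L - Multiset.replicate r d) = m := ⟨_, rfl⟩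
  obtain ⟨e, he⟩ := a22_enum _ m hm
  have hmr : m + r = n := by
    have h1 := congrArg Multiset.card hML
    rw [Multiset.card_add, Multiset.card_replicate, hm, hcard] at h1
    exact h1
  rw [← he] at hML
  obtain ⟨κ, hκ, hκ1, hκ2⟩ := a22_kappa p q n m r hp hq hn hmr hr hr2
  have hp2 : 0 < p ^ 2 := by
    have := hp.pos
    positivity
  -- the field
  have hprim : ∃ ζ : PadicAlgCl p, IsPrimitiveRoot ζ (p ^ 2) := by
    have : NeZero (p ^ 2) := ⟨hp2.ne'⟩
    have : NeZero ((p ^ 2 : ℕ) : PadicAlgCl p) := ⟨by exact_mod_cast hp2.ne'⟩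
    obtain ⟨ζ, hζ⟩ := IsAlgClosed.exists_root (Polynomial.cyclotomic (p ^ 2) (PadicAlgCl p))
      (Polynomial.degree_cyclotomic_pos _ _ hp2).ne'
    exact ⟨ζ, (Polynomial.isRoot_cyclotomic_iff).mp hζ⟩
  obtain ⟨ζ, hζ⟩ := hprim
  have hpn : ‖(p : PadicAlgCl p)‖ = (p : ℝ)⁻¹ := by
    have h1 := PadicAlgCl.norm_extends p (p : ℚ_[p])
    rw [Padic.norm_p, map_natCast] at h1
    exact h1
  -- filters
  have hf1 : L.filter (fun x => p ∣ x) = (Multiset.map e Finset.univ.val).filter (fun x => p ∣ x) := by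
    conv_lhs => rw [← hML]
    have h1 : (Multiset.replicate r d).filter (fun x => p ∣ x) = 0 := by
      rw [Multiset.filter_eq_nil]
      intro a ha
      rw [Multiset.eq_of_mem_replicate ha]
      exact hd
    rw [Multiset.filter_add, h1, add_zero]
  have hf2 : (L.filter (fun x => ¬ p ∣ x)) - Multiset.replicate r d =
      (Multiset.map e Finset.univ.val).filter (fun x => ¬ p ∣ x) := by
    conv_lhs => rw [← hML]
    have h1 : (Multiset.replicate r d).filter (fun x => ¬ p ∣ x) = Multiset.replicate r d := by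
      rw [Multiset.filter_eq_self]
      intro a ha
      rw [Multiset.eq_of_mem_replicate ha]
      exact hd
    rw [Multiset.filter_add, h1, Multiset.add_sub_cancel_right]
  have hW : (Finset.univ.filter (fun i => p ∣ e i)).card =
      Multiset.card (L.filter (fun x => p ∣ x)) := by
    rw [hf1, Multiset.filter_map, Multiset.card_map]
    rfl
  have hprod : (∏ i ∈ Finset.univ.filter (fun i => ¬ p ∣ e i), (Polynomial.C (e i : ZMod p) +
      Polynomial.C (((e i + 1).choose 3 : ℕ) : ZMod p) * Polynomial.X)) =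
      (((L.filter (fun x => ¬ p ∣ x)) - Multiset.replicate r d).map
        (fun x : ℕ => (Polynomial.C (x : ZMod p) +
        Polynomial.C (((x + 1).choose 3 : ℕ) : ZMod p) * Polynomial.X))).prod := by
    rw [hf2, Multiset.filter_map, Multiset.map_map]
    rfl
  have hmem : ∀ i, e i ∈ L := by
    intro i
    rw [← hML, Multiset.mem_add]
    left
    exact Multiset.mem_map_of_mem e (Finset.mem_univ i)
  have hper := rho_permSum_ne_zero p q n m r (Multiset.card (L.filter (fun x => p ∣ x))) hp hq hn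
    hpn ζ hζ hmr hr e (fun i => hL _ (hmem i)) hW (by
      rcases hcase with h | h
      · left
        refine ⟨h.1, ?_⟩
        rw [hprod]
        exact h.2
      · right
        exact h) κ hκ hκ1 hκ2
  rw [← hv] at hζ
  have hζ0 : ζ ≠ 0 := hζ.ne_zero (by omega)
  refine exchange_factor n r m hmr ζ hζ d ?_ e κ hκ ?_ L hL hML
  · rw [hv]
    exact Nat.Coprime.pow_right 2 ((Nat.Prime.coprime_iff_not_dvd hp).mpr hd).symm
  · have hterm : ∀ π : Equiv.Perm (Fin m), ∏ b, (ζ ^ (((κ (π b) : ℕ) + 1) * e b) -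
        (ζ⁻¹) ^ (((κ (π b) : ℕ) + 1) * e b)) =
        (∏ i, (ζ ^ ((κ i : ℕ) + 1) - (ζ ^ ((κ i : ℕ) + 1))⁻¹)) *
          ∏ i, rho (ζ ^ ((κ (π i) : ℕ) + 1)) (e i) := by
      intro π
      rw [← Equiv.prod_comp π (fun i => ζ ^ ((κ i : ℕ) + 1) - (ζ ^ ((κ i : ℕ) + 1))⁻¹),
        ← Finset.prod_mul_distrib]
      refine Finset.prod_congr rfl fun b _ => ?_
      rw [rho_mul _ (pow_ne_zero _ hζ0), pow_mul, pow_mul, inv_pow]
    simp only [hterm]
    rw [← Finset.mul_sum]
    refine mul_ne_zero (Finset.prod_ne_zero_iff.mpr fun i _ => ?_) hper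
    intro h0
    have h1 : ζ ^ (2 * ((κ i : ℕ) + 1)) = 1 := by
      have h2 : ζ ^ ((κ i : ℕ) + 1) = (ζ ^ ((κ i : ℕ) + 1))⁻¹ := sub_eq_zero.mp h0
      have h3 : ζ ^ ((κ i : ℕ) + 1) ≠ 0 := pow_ne_zero _ hζ0
      rw [two_mul, pow_add]
      nth_rewrite 2 [h2]
      exact mul_inv_cancel₀ h3
    have h2 := hζ.dvd_of_pow_eq_one _ h1
    have h3 := Nat.le_of_dvd (by omega) h2
    have h4 := (κ i).2
    omega

theorem few_heavies (p n : ℕ) (hp : p.Prime) (hv : 2 * n + 1 = p ^ 2) (L : Multiset ℕ)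
    (hcard : Multiset.card L = n) (hL : ∀ x ∈ L, 1 ≤ x ∧ x ≤ n)
    (hW : Multiset.card (L.filter (fun x => p ∣ x)) < p) :
    ∃ g : Fin n ⊕ Fin n → Fin (2 * n + 1), Function.Injective g ∧
      Multiset.map
        (fun i : Fin n =>
          min (Int.natAbs (((g (Sum.inl i) : ℕ) : ℤ) - ((g (Sum.inr i) : ℕ) : ℤ)))
            (2 * n + 1 - Int.natAbs (((g (Sum.inl i) : ℕ) : ℤ) - ((g (Sum.inr i) : ℕ) : ℤ))))
        (Finset.univ : Finset (Fin n)).val = L := by
  obtain ⟨q, hq⟩ : ∃ q, p = 2 * q + 1 := by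
    rcases Nat.even_or_odd' p with ⟨k, hk | hk⟩
    · exfalso
      rw [hk] at hv
      have h1 : 2 * n + 1 = 2 * (2 * k ^ 2) := by
        rw [hv]
        ring
      omega
    · exact ⟨k, hk⟩
  have hp2 := hp.two_le
  have hq1 : 1 ≤ q := by omega
  have hn : n = p * q + q := by
    have h1 : 2 * n + 1 = 2 * (p * q + q) + 1 := by
      rw [hv, hq]
      ring
    omega
  have hUcard : Multiset.card (L.filter (fun x => ¬ p ∣ x)) +
      Multiset.card (L.filter (fun x => p ∣ x)) = n := by
    have h1 := congrArg Multiset.card (Multiset.filter_add_not (p := fun x => p ∣ x) L)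
    rw [Multiset.card_add, hcard] at h1
    omega
  have hpq : p ≤ p * q := Nat.le_mul_of_pos_right p hq1
  rcases le_or_gt (Multiset.card (L.filter (fun x => p ∣ x))) q with hc | hc
  · obtain ⟨d, hdU, r, hr1, hr2, hrc, hco⟩ := exists_good p q
      (q - Multiset.card (L.filter (fun x => p ∣ x))) hp hq (Nat.sub_le _ _)
      (L.filter (fun x => ¬ p ∣ x)) (by
        intro x hx
        rw [Multiset.mem_filter] at hx
        have h1 := hL x hx.1
        exact ⟨h1.1, by omega, hx.2⟩) (by omega)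
    rw [Multiset.mem_filter] at hdU
    have hcf : Multiset.count d (L.filter (fun x => ¬ p ∣ x)) = Multiset.count d L :=
      Multiset.count_filter_of_pos (p := fun x => ¬ p ∣ x) hdU.2
    rw [hcf] at hrc
    refine a22_main p q n hp hq hn hv L hcard hL d r hdU.2 hr1 (by omega) hrc (Or.inl ⟨by omega, ?_⟩)
    have h1 : q + 1 - r - Multiset.card (L.filter (fun x => p ∣ x)) =
        q - Multiset.card (L.filter (fun x => p ∣ x)) + 1 - r := by omega
    rw [h1]
    exact hco
  · have hU0 : 0 < Multiset.card (L.filter (fun x => ¬ p ∣ x)) := by omega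
    obtain ⟨d, hdU⟩ := Multiset.card_pos_iff_exists_mem.mp hU0
    rw [Multiset.mem_filter] at hdU
    refine a22_main p q n hp hq hn hv L hcard hL d 1 hdU.2 le_rfl (by omega)
      (Multiset.one_le_count_iff_mem.mpr hdU.1) (Or.inr ⟨rfl, hc, hW⟩)


end Pool.Agent.Helper805_nf
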