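import Mathlib
import Pool.Agent.Helper805_nf.Defs4
import Pool.Agent.Helper805_nf.Y3

set_option autoImplicit false

namespace Pool.Agent.Helper805_nf

open Finset






/-- Newton interpolation at the naturals. -/
theorem z23_newton {K : Type*} [Field K] (F : ℕ → K) (c p : ℕ) (hc : c < p) :
    ∑ l ∈ Finset.range p, (c.choose l : K) *
      (∑ i ∈ Finset.range (l + 1), (-1 : K) ^ (l - i) * (l.choose i : K) * F i) = F c := by
  have h1 := shift_eq_sum_fwdDiff_iter (h := 1) F c 0
  have hsub : Finset.range (c + 1) ⊆ Finset.range p := Finset.range_subset_range.2 hc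
  rw [← Finset.sum_subset hsub]
  · have e0 : F (0 + c • 1) = F c := by simp
    rw [← e0, h1]
    apply Finset.sum_congr rfl
    intro l _
    rw [fwdDiff_iter_eq_sum_shift, nsmul_eq_mul]
    congr 1
    apply Finset.sum_congr rfl
    intro i _
    simp [zsmul_eq_mul]
  · intro l _ hl
    have : c < l := by
      rw [Finset.mem_range] at hl
      omega
    rw [Nat.choose_eq_zero_of_lt this]
    simp

theorem z23_zero_lt {K : Type*} [Field K] (ζ : K) (m : ℕ) (hm : 0 < m)
    (hζ : IsPrimitiveRoot ζ m) (a : ℕ) : ζ ^ a ≠ 0 :=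
  pow_ne_zero _ (hζ.ne_zero hm.ne')

theorem label_row {K : Type*} [Field K] [CharZero K] (p q n : ℕ) (hp : p.Prime) (hq : p = 2 * q + 1)
    (hn : n = p * q + q) (ζ : K) (hζ : IsPrimitiveRoot ζ (p ^ 2)) (x δ : ℕ) (hx : 1 ≤ x ∧ x ≤ n)
    (hδ : 1 ≤ δ ∧ δ ≤ q) (hcl : x % p = δ ∨ x % p + δ = p) :
    cval p q x < p ∧ (∃ ε : K, (ε = 1 ∨ ε = -1) ∧ ∀ a : ℕ, 1 ≤ a → a ≤ n →
      rho (ζ ^ a) x = ε * ∑ l ∈ Finset.range p, ((cval p q x).choose l : K) * fdRow ζ p δ l a) ∧
    (∀ x' : ℕ, 1 ≤ x' → x' ≤ n → (x' % p = δ ∨ x' % p + δ = p) → cval p q x' = cval p q x → x' = x) := by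
  obtain ⟨hx1, hxn⟩ := hx
  obtain ⟨hδ1, hδq⟩ := hδ
  have hp0 : 0 < p := hp.pos
  have hdm := Nat.div_add_mod x p
  have hmod := Nat.mod_lt x hp0
  have hpp : p ^ 2 = 2 * n + 1 := by
    rw [hn, hq]
    ring
  have hxlt : x / p ≤ q := by
    by_contra hcon
    have h1 : q + 1 ≤ x / p := by omega
    have h2 : p * (q + 1) ≤ p * (x / p) := Nat.mul_le_mul_left p h1
    have h3 : p * (q + 1) = p * q + p := by ring
    omega
  have hB : x % p + δ = p → x / p + 1 ≤ q := by
    intro h
    by_contra hcon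
    have h1 : q ≤ x / p := by omega
    have h2 : p * q ≤ p * (x / p) := Nat.mul_le_mul_left p h1
    omega
  refine ⟨?_, ?_, ?_⟩
  · unfold cval
    split_ifs
    · omega
    · exact lt_of_le_of_lt (Nat.sub_le (p - 1) (x / p)) (Nat.sub_lt hp0 Nat.one_pos)
  · rcases hcl with hA | hBc
    · have hc : cval p q x = x / p := by
        unfold cval
        rw [if_pos (by omega)]
      refine ⟨1, Or.inl rfl, ?_⟩
      intro a _ _
      rw [hc, one_mul]
      unfold fdRow
      rw [z23_newton (fun i => rho (ζ ^ a) (δ + p * i)) (x / p) p (by omega)]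
      have : δ + p * (x / p) = x := by omega
      simp only [this]
    · have hB' := hB hBc
      have hc : cval p q x = p - 1 - x / p := by
        unfold cval
        rw [if_neg (by omega)]
      refine ⟨-1, Or.inr rfl, ?_⟩
      intro a ha1 han
      rw [hc]
      unfold fdRow
      rw [z23_newton (fun i => rho (ζ ^ a) (δ + p * i)) (p - 1 - x / p) p
        (lt_of_le_of_lt (Nat.sub_le (p - 1) (x / p)) (Nat.sub_lt hp0 Nat.one_pos))]
      have hkey : δ + p * (p - 1 - x / p) + x = p ^ 2 := by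
        obtain ⟨k, hk⟩ := Nat.exists_eq_add_of_le (show x / p + 1 ≤ p by omega)
        have h0 : ∀ X : ℕ, p = X + 1 + k → p - 1 - X = k := by
          intro X hX
          omega
        have h1 : p - 1 - x / p = k := h0 _ hk
        rw [h1]
        have h2 : p ^ 2 = p * (x / p + 1 + k) := by rw [← hk, sq]
        rw [h2]
        have h3 : p * (x / p + 1 + k) = p * (x / p) + p + p * k := by ring
        omega
      generalize hd : δ + p * (p - 1 - x / p) = d at hkey
      have hζ0 : ζ ^ a ≠ 0 := z23_zero_lt ζ (p ^ 2) (by positivity) hζ a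
      have hzp : (ζ ^ a) ^ (p ^ 2) = 1 := by
        rw [← pow_mul, mul_comm, pow_mul, hζ.pow_eq_one, one_pow]
      have hne : ζ ^ a - (ζ ^ a)⁻¹ ≠ 0 := by
        intro h
        have h1 : ζ ^ a = (ζ ^ a)⁻¹ := sub_eq_zero.1 h
        have h2 : ζ ^ (a + a) = 1 := by
          rw [pow_add]
          nth_rewrite 2 [h1]
          exact mul_inv_cancel₀ hζ0
        have h3 := (hζ.pow_eq_one_iff_dvd _).1 h2
        have h4 := Nat.le_of_dvd (by omega) h3
        omega
      have e1 : (ζ ^ a) ^ d = ((ζ ^ a)⁻¹) ^ x := by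
        have : (ζ ^ a) ^ d * (ζ ^ a) ^ x = 1 := by
          rw [← pow_add, hkey, hzp]
        rw [inv_pow]
        exact eq_inv_of_mul_eq_one_left this
      have e2 : ((ζ ^ a)⁻¹) ^ d = (ζ ^ a) ^ x := by
        have : (ζ ^ a) ^ x * (ζ ^ a) ^ d = 1 := by
          rw [← pow_add, add_comm, hkey, hzp]
        rw [inv_pow]
        exact (eq_inv_of_mul_eq_one_left this).symm
      have r1 := rho_mul (ζ ^ a) hζ0 x
      have r2 := rho_mul (ζ ^ a) hζ0 d
      rw [e1, e2] at r2
      apply mul_left_cancel₀ hne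
      rw [r1]
      have : (ζ ^ a - (ζ ^ a)⁻¹) * (-1 * rho (ζ ^ a) d) =
          -((ζ ^ a - (ζ ^ a)⁻¹) * rho (ζ ^ a) d) := by ring
      rw [this, r2]
      ring
  · intro x' hx'1 hx'n hcl' hcv
    have hdm' := Nat.div_add_mod x' p
    have hmod' := Nat.mod_lt x' hp0
    have hxlt' : x' / p ≤ q := by
      by_contra hcon
      have h1 : q + 1 ≤ x' / p := by omega
      have h2 : p * (q + 1) ≤ p * (x' / p) := Nat.mul_le_mul_left p h1
      have h3 : p * (q + 1) = p * q + p := by ring
      omega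
    have hB'' : x' % p + δ = p → x' / p + 1 ≤ q := by
      intro h
      by_contra hcon
      have h1 : q ≤ x' / p := by omega
      have h2 : p * q ≤ p * (x' / p) := Nat.mul_le_mul_left p h1
      omega
    unfold cval at hcv
    have hdiv : x' / p = x / p ∧ x' % p = x % p := by
      rcases hcl with hA | hBc <;> rcases hcl' with hA' | hBc'
      · rw [if_pos (by omega), if_pos (by omega)] at hcv
        exact ⟨hcv, by omega⟩
      · have := hB'' hBc'
        rw [if_neg (by omega), if_pos (by omega)] at hcv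
        omega
      · have := hB hBc
        rw [if_pos (by omega), if_neg (by omega)] at hcv
        omega
      · have := hB'' hBc'
        have := hB hBc
        rw [if_neg (by omega), if_neg (by omega)] at hcv
        exact ⟨by omega, by omega⟩
    rw [← hdm, ← hdm', hdiv.1, hdiv.2]



end Pool.Agent.Helper805_nf
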