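import Mathlib
import Pool.Agent.Helper805_nf.Defs4

set_option autoImplicit false

namespace Pool.Agent.Helper805_nf

open Finset




/-- The lower bound for the guaranteed exponent. -/
theorem z8_bound (p q O : ℕ) (hq : p = 2 * q + 1) (hq1 : 1 ≤ q) :
    (2 * q) * (2 * q) + O ≤ (2 * q) * (p * vO p O) := by
  have hp1 : p - 1 = 2 * q := by omega
  unfold vO
  split_ifs with h
  · subst hq
    have : O ≤ 2 * q := by omega
    nlinarith
  · rw [hp1]
    have hpos : 0 < p * (2 * q) := by subst hq; positivity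
    have h1 := Nat.lt_mul_div_succ (O - p) hpos
    set c := (O - p) / (p * (2 * q)) with hc
    have h2 : O < p + p * (2 * q) * (c + 1) := by omega
    have h3 : (2 * q) * (p * (2 + c)) = p * (2 * q) * (c + 1) + p * (2 * q) := by ring
    rw [h3]
    have h4 : p * (2 * q) + 1 = (2 * q) * (2 * q) + p := by subst hq; ring
    omega

/-- Division with remainder of the two summands. -/
theorem z8_div (p x s : ℕ) (hp : 0 < p) (hs : 1 ≤ s) :
    (x % p + (s - 1) % p + 1 < p → (x + s) / p - x / p - (s - 1) / p = 0) ∧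
    (p ≤ x % p + (s - 1) % p + 1 → (x + s) / p - x / p - (s - 1) / p = 1 ∧
      (x + s) % p = x % p + (s - 1) % p + 1 - p) := by
  have hx := Nat.div_add_mod x p
  have hs' := Nat.div_add_mod (s - 1) p
  have hxl := Nat.mod_lt x hp
  have hsl := Nat.mod_lt (s - 1) hp
  set x1 := x / p
  set x0 := x % p
  set s1 := (s - 1) / p
  set s0 := (s - 1) % p
  have hsum : x + s = p * (x1 + s1) + (x0 + s0 + 1) := by
    rw [Nat.mul_add]; omega
  constructor
  · intro h
    have hd : (x + s) / p = x1 + s1 := by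
      rw [hsum, Nat.mul_add_div hp, Nat.div_eq_of_lt h, Nat.add_zero]
    rw [hd]; omega
  · intro h
    have hsum2 : x + s = p * (x1 + s1 + 1) + (x0 + s0 + 1 - p) := by
      have : p * (x1 + s1 + 1) = p * (x1 + s1) + p := by ring
      omega
    have hlt : x0 + s0 + 1 - p < p := by omega
    have hd : (x + s) / p = x1 + s1 + 1 := by
      rw [hsum2, Nat.mul_add_div hp, Nat.div_eq_of_lt hlt, Nat.add_zero]
    have hm : (x + s) % p = x0 + s0 + 1 - p := by
      rw [hsum2, Nat.mul_add_mod, Nat.mod_eq_of_lt hlt]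
    exact ⟨by rw [hd]; omega, hm⟩

theorem block_arith (p q b h G x : ℕ) (hq : p = 2 * q + 1) (hq1 : 1 ≤ q) (hs : 1 ≤ b + h) (hG : h ≤ G)
    (κ O : ℕ) (hκ : κ = (x + (b + h)) / p - x / p - (b + h - 1) / p) (hO : O + h = 2 * b + p * G) :
    (κ = 0 ∨ κ = 1) ∧ (κ = 0 → G + (p - 1) ≤ p * vO p O) ∧ (κ = 1 → p + G ≤ p * vO p O + 1) ∧
    (κ = 1 → p * vO p O + 1 = p + G → x % p = p - 1 ∧ (x + (b + h)) % p = 0) ∧
    (κ = 1 → p * vO p O = p + G → p ∣ G ∧ (G < b + h → (x + (b + h)) % p < q)) ∧
    (κ = 1 → (x + (b + h)) % p ≤ x % p) := by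
  have hp0 : 0 < p := by omega
  have hp1 : p - 1 = 2 * q := by omega
  obtain ⟨hA, hB⟩ := z8_div p x (b + h) hp0 hs
  have hbd := z8_bound p q O hq hq1
  set V := p * vO p O with hV
  have hOe : O = 2 * q * G + 2 * b + (G - h) := by
    have : p * G = 2 * q * G + G := by subst hq; ring
    omega
  have hxl := Nat.mod_lt x hp0
  have hsl := Nat.mod_lt (b + h - 1) hp0
  have h2q : 0 < 2 * q := by omega
  have key : 2 * q * (2 * q + G) + (2 * b + (G - h)) ≤ 2 * q * V := by
    have : 2 * q * (2 * q + G) = 2 * q * (2 * q) + 2 * q * G := by ring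
    omega
  have hge : 2 * q + G ≤ V := by
    by_contra hcon
    push Not at hcon
    have : 2 * q * V < 2 * q * (2 * q + G) := (Nat.mul_lt_mul_left h2q).2 hcon
    omega
  rcases Nat.lt_or_ge (x % p + (b + h - 1) % p + 1) p with hlt | hle
  · have hk0 : κ = 0 := by rw [hκ]; exact hA hlt
    refine ⟨Or.inl hk0, fun _ => by omega, fun h1 => by omega, fun h1 => by omega,
      fun h1 => by omega, fun h1 => by omega⟩
  · obtain ⟨hk, hm⟩ := hB hle
    have hk1 : κ = 1 := by rw [hκ]; exact hk
    refine ⟨Or.inr hk1, fun h0 => by omega, fun _ => by omega, ?_, ?_, fun _ => by omega⟩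
    · intro _ hVe
      have hVe' : V = 2 * q + G := by omega
      rw [hVe'] at key
      have hb0 : b = 0 := by omega
      have hhG : h = G := by omega
      have hG1 : b + h - 1 = p * (vO p O - 1) := by
        have h1 : p * vO p O = 2 * q + G := by rw [← hV]; exact hVe'
        have h2 : p * (vO p O - 1) = p * vO p O - p := by rw [Nat.mul_sub, Nat.mul_one]
        rw [h2, h1]; omega
      have hs0 : (b + h - 1) % p = 0 := by rw [hG1]; exact Nat.mul_mod_right _ _
      rw [hs0] at hle hm
      constructor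
      · omega
      · rw [hm]; omega
    · intro _ hVe
      have hdvd : p ∣ G := by
        have h1 : p ∣ p + G := by rw [← hVe, hV]; exact Dvd.intro _ rfl
        exact (Nat.dvd_add_right (dvd_refl p)).1 h1
      refine ⟨hdvd, fun hGs => ?_⟩
      obtain ⟨g, hg⟩ := hdvd
      have h2 : 2 * b + (G - h) ≤ 2 * q := by
        have : 2 * q * V = 2 * q * (2 * q + G) + 2 * q := by rw [hVe, hq]; ring
        omega
      have hs0 : (b + h - 1) % p = b + h - 1 - G := by
        have h3 : b + h - 1 = p * g + (b + h - 1 - G) := by rw [← hg]; omega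
        rw [h3, Nat.mul_add_mod]
        rw [← h3]
        exact Nat.mod_eq_of_lt (by omega)
      rw [hs0] at hle hm
      rw [hm]
      omega



end Pool.Agent.Helper805_nf
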