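import Mathlib
import Pool.Agent.Helper805_nf.Defs4
import Pool.Agent.Helper805_nf.Y1

set_option autoImplicit false

namespace Pool.Agent.Helper805_nf

open Finset



theorem z9_step {K : Type*} [NormedField K] [IsUltrametricDist K] (p : ℕ) (hp : p.Prime)
    (hpn : ‖(p : K)‖ = (p : ℝ)⁻¹) (N : ℕ) (hN : N + 1 < p ^ 2) :
    ‖((N + 1 : ℕ) : K)‖ = ((p : ℝ)⁻¹) ^ ((N + 1) / p - N / p) := by
  have hp0 : 0 < p := hp.pos
  by_cases h : p ∣ N + 1
  · obtain ⟨b, hb⟩ := h
    have hb1 : 1 ≤ b := by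
      rcases Nat.eq_zero_or_pos b with h0 | h0
      · subst h0; simp at hb
      · exact h0
    have hbp : b < p := by
      have h1 : p * b < p * p := by rw [← hb, ← pow_two]; exact hN
      exact Nat.lt_of_mul_lt_mul_left h1
    have hnb : ¬ p ∣ b := fun hd => by
      have := Nat.le_of_dvd hb1 hd
      omega
    have h2 : ‖(b : K)‖ = 1 := (norm_nat_facts p hp hpn b).2.1 hnb
    have h3 : (N + 1) / p - N / p = 1 := by
      rw [Nat.succ_div, if_pos ⟨b, hb⟩]; omega
    rw [h3, pow_one, hb, Nat.cast_mul, norm_mul, hpn, h2, mul_one]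
  · have h3 : (N + 1) / p - N / p = 0 := by
      rw [Nat.succ_div, if_neg h]; omega
    rw [h3, pow_zero]
    exact (norm_nat_facts p hp hpn (N + 1)).2.1 h

theorem fact_block {K : Type*} [NormedField K] [IsUltrametricDist K] (p : ℕ) (hp : p.Prime)
    (hpn : ‖(p : K)‖ = (p : ℝ)⁻¹) :
    (∀ N : ℕ, N < p ^ 2 → ‖(N.factorial : K)‖ = ((p : ℝ)⁻¹) ^ (N / p)) ∧
    (∀ x s : ℕ, 1 ≤ s → x + s < p ^ 2 →
      ‖((s - 1).factorial : K)‖ * ‖(x.factorial : K)‖ * ((p : ℝ)⁻¹) ^ ((x + s) / p - x / p - (s - 1) / p) =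
        ‖((x + s).factorial : K)‖) := by
  have hp0 : 0 < p := hp.pos
  have h1 : ∀ N : ℕ, N < p ^ 2 → ‖(N.factorial : K)‖ = ((p : ℝ)⁻¹) ^ (N / p) := by
    intro N
    induction N with
    | zero => intro _; simp
    | succ N ih =>
      intro hN
      rw [Nat.factorial_succ, Nat.cast_mul, norm_mul, ih (by omega), z9_step p hp hpn N hN, ← pow_add]
      congr 1
      have : N / p ≤ (N + 1) / p := Nat.div_le_div_right (by omega)
      omega
  refine ⟨h1, fun x s hs hxs => ?_⟩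
  rw [h1 (s - 1) (by omega), h1 x (by omega), h1 (x + s) hxs, ← pow_add, ← pow_add]
  congr 1
  have h2 : x / p + (s - 1) / p ≤ (x + s) / p := by
    refine le_trans (Nat.add_div_le_add_div x (s - 1) p) (Nat.div_le_div_right (by omega))
  omega

end Pool.Agent.Helper805_nf
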