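import Mathlib
import Pool.Agent.Helper805_nf.Defs4
import Pool.Agent.Helper805_nf.B2
import Pool.Agent.Helper805_nf.Y1
import Pool.Agent.Helper805_nf.Y8
import Pool.Agent.Helper805_nf.Z8
import Pool.Agent.Helper805_nf.Z9

set_option autoImplicit false

namespace Pool.Agent.Helper805_nf

open Finset












theorem z10_comb (τ : ℝ) (hτ0 : 0 < τ) (hτ1 : τ < 1) (u w z VX VY : ℝ) (hu : 0 ≤ u)
    (hz : 0 ≤ z) (hVX : 0 ≤ VX) (p κ v a c G' a' GS c' : ℕ)
    (h1 : u * VX * τ ^ (p * κ) = VY) (hw : w ≤ τ ^ (p * v))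
    (hz1 : z * τ ^ a ≤ VX * τ ^ (G' + c))
    (har : GS + c' + a + p * κ ≤ p * v + c + a') :
    (u * w * z) * τ ^ a' ≤ VY * τ ^ (GS + G' + c') := by
  have hVY : 0 ≤ VY := by
    rw [← h1]
    positivity
  have hpos : 0 < τ ^ (a + p * κ) := pow_pos hτ0 _
  have e1 : w * (z * τ ^ a) ≤ τ ^ (p * v) * (VX * τ ^ (G' + c)) := by
    calc w * (z * τ ^ a) ≤ τ ^ (p * v) * (z * τ ^ a) :=
          mul_le_mul_of_nonneg_right hw (by positivity)
      _ ≤ τ ^ (p * v) * (VX * τ ^ (G' + c)) :=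
          mul_le_mul_of_nonneg_left hz1 (by positivity)
  have key : (u * w * z) * τ ^ a' * τ ^ (a + p * κ) ≤ VY * τ ^ (GS + G' + c') * τ ^ (a + p * κ) := by
    calc (u * w * z) * τ ^ a' * τ ^ (a + p * κ) = (u * τ ^ (p * κ)) * (w * (z * τ ^ a)) * τ ^ a' := by
          rw [pow_add]; ring
      _ ≤ (u * τ ^ (p * κ)) * (τ ^ (p * v) * (VX * τ ^ (G' + c))) * τ ^ a' :=
          mul_le_mul_of_nonneg_right (mul_le_mul_of_nonneg_left e1 (by positivity)) (by positivity)
      _ = VY * τ ^ (p * v + (G' + c) + a') := by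
          rw [← h1, pow_add τ (p * v + (G' + c)), pow_add τ (p * v)]; ring
      _ ≤ VY * τ ^ (GS + G' + c' + (a + p * κ)) := by
          apply mul_le_mul_of_nonneg_left _ hVY
          exact pow_le_pow_of_le_one hτ0.le hτ1.le (by omega)
      _ = _ := by rw [pow_add τ (GS + G' + c')]; ring
  exact le_of_mul_le_mul_right key hpos

theorem z10_sum {K : Type*} [NormedField K] [IsUltrametricDist K] {ι : Type*} (F : Finset ι)
    (T : ι → K) (t C : ℝ) (ht : 0 < t) (hC : 0 ≤ C) (hT : ∀ S ∈ F, ‖T S‖ * t ≤ C) :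
    ‖∑ S ∈ F, T S‖ * t ≤ C := by
  have h : ‖∑ S ∈ F, T S‖ ≤ C / t := by
    apply IsUltrametricDist.norm_sum_le_of_forall_le_of_nonneg (by positivity)
    intro S hS
    rw [le_div_iff₀ ht]
    exact hT S hS
  rwa [le_div_iff₀ ht] at h

theorem z10_count {m : ℕ} (p : ℕ) (hp : 1 ≤ p) (g : Fin m → ℕ) (S : Finset (Fin m)) :
    ∃ b h : ℕ, b + h = S.card ∧ h ≤ ∑ i ∈ S, g i ∧
      (∑ i ∈ S, oG p (g i)) + h = 2 * b + p * ∑ i ∈ S, g i := by
  classical
  induction S using Finset.induction_on with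
  | empty => exact ⟨0, 0, by simp, by simp, by simp⟩
  | insert i S hi ih =>
    obtain ⟨b, h, h1, h2, h3⟩ := ih
    rw [Finset.card_insert_of_notMem hi, Finset.sum_insert hi, Finset.sum_insert hi]
    by_cases hg : g i = 0
    · refine ⟨b + 1, h, by omega, by omega, ?_⟩
      have e : oG p (g i) = 2 := by simp [oG, hg]
      rw [e, hg, Nat.zero_add]
      omega
    · refine ⟨b, h + 1, by omega, by omega, ?_⟩
      have e : oG p (g i) = p * g i - 1 := by simp [oG, hg]
      have : 1 ≤ p * g i := Nat.one_le_iff_ne_zero.mpr (Nat.mul_ne_zero (by omega) hg)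
      rw [e, Nat.mul_add]
      omega

theorem z10_term {K : Type*} [NormedField K] [IsUltrametricDist K] (p q : ℕ) (hp : p.Prime)
    (hq : p = 2 * q + 1) (hpn : ‖(p : K)‖ = (p : ℝ)⁻¹) (τ : ℝ) (hτ0 : 0 < τ) (hτ1 : τ < 1)
    (hτ : τ ^ p = (p : ℝ)⁻¹) {m n : ℕ} (f : Fin m → Fin n → K) (g : Fin m → ℕ)
    (hP : ∀ S : Finset (Fin m), S.Nonempty →
      ‖∑ j, ∏ i ∈ S, f i j‖ ≤ ((p : ℝ)⁻¹) ^ vO p (∑ i ∈ S, oG p (g i)))
    (y : ℕ) (A S : Finset (Fin m)) (hSA : S ⊆ A) (hS : S.Nonempty) (hA : y + A.card < p ^ 2)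
    (T : K) (hT : T = (y.factorial : K) * ((-1 : K) ^ (S.card - 1) * ((S.card - 1).factorial : K) *
      (∑ j : Fin n, ∏ i ∈ S, f i j) * injSum f (A \ S))) :
    ∃ κ v : ℕ, (κ = 0 ∨ κ = 1) ∧ (κ = 0 → (∑ i ∈ S, g i) + (p - 1) ≤ p * v) ∧
      (κ = 1 → p + (∑ i ∈ S, g i) ≤ p * v + 1) ∧
      (κ = 1 → p * v + 1 = p + (∑ i ∈ S, g i) →
        (y + (A \ S).card) % p = p - 1 ∧ (y + A.card) % p = 0) ∧
      (κ = 1 → p * v = p + (∑ i ∈ S, g i) → p ∣ (∑ i ∈ S, g i) ∧
        ((∑ i ∈ S, g i) < S.card → (y + A.card) % p < q)) ∧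
      (κ = 1 → (y + A.card) % p ≤ (y + (A \ S).card) % p) ∧
      (∀ a c a' c' : ℕ, ‖(y.factorial : K) * injSum f (A \ S)‖ * τ ^ a ≤
          ‖((y + (A \ S).card).factorial : K)‖ * τ ^ (∑ i ∈ A \ S, g i + c) →
        (∑ i ∈ S, g i) + c' + a + p * κ ≤ p * v + c + a' →
        ‖T‖ * τ ^ a' ≤ ‖((y + A.card).factorial : K)‖ * τ ^ (∑ i ∈ A, g i + c')) := by
  have hp3 : 3 ≤ p := by
    have := hp.two_le
    omega
  have hq1 : 1 ≤ q := by omega
  obtain ⟨b, h, h1, h2, h3⟩ := z10_count p (by omega) g S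
  have hScard : 1 ≤ S.card := Finset.card_pos.mpr hS
  have hcard : (A \ S).card + S.card = A.card := Finset.card_sdiff_add_card_eq_card hSA
  have hY : y + (A \ S).card + S.card = y + A.card := by omega
  have hbl := block_arith p q b h (∑ i ∈ S, g i) (y + (A \ S).card) hq hq1 (by omega) h2
    ((y + (A \ S).card + (b + h)) / p - (y + (A \ S).card) / p - (b + h - 1) / p)
    (∑ i ∈ S, oG p (g i)) rfl h3
  have hfb := (fact_block (K := K) p hp hpn).2 (y + (A \ S).card) S.card hScard (by omega)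
  rw [h1, hY] at hbl
  rw [hY] at hfb
  obtain ⟨g1, g2, g3, g4, g5, g6⟩ := hbl
  refine ⟨(y + A.card) / p - (y + (A \ S).card) / p - (S.card - 1) / p,
    vO p (∑ i ∈ S, oG p (g i)), g1, g2, g3, g4, g5, g6, ?_⟩
  intro a c a' c' hz har
  have hsum : ∑ i ∈ A, g i = (∑ i ∈ S, g i) + ∑ i ∈ A \ S, g i := by
    rw [add_comm]
    exact (Finset.sum_sdiff hSA).symm
  have hTn : ‖T‖ = ‖((S.card - 1).factorial : K)‖ * ‖∑ j : Fin n, ∏ i ∈ S, f i j‖ *
      ‖(y.factorial : K) * injSum f (A \ S)‖ := by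
    rw [hT]
    simp only [norm_mul, norm_pow, norm_neg, norm_one, one_pow, one_mul]
    ring
  rw [hTn, hsum]
  apply z10_comb τ hτ0 hτ1 _ _ _ _ _ (norm_nonneg _) (norm_nonneg _) (norm_nonneg _) p _ _ a c
    (∑ i ∈ A \ S, g i) a' (∑ i ∈ S, g i) c' _ _ hz har
  · rw [← hfb, pow_mul, hτ]
  · rw [pow_mul, hτ]
    exact hP S hS

theorem lemma_N {K : Type*} [NormedField K] [IsUltrametricDist K] (p q : ℕ) (hp : p.Prime)
    (hq : p = 2 * q + 1) (hpn : ‖(p : K)‖ = (p : ℝ)⁻¹) (τ : ℝ) (hτ0 : 0 < τ) (hτ1 : τ < 1)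
    (hτ : τ ^ p = (p : ℝ)⁻¹) {m n : ℕ} (f : Fin m → Fin n → K) (g : Fin m → ℕ)
    (hP : ∀ S : Finset (Fin m), S.Nonempty →
      ‖∑ j, ∏ i ∈ S, f i j‖ ≤ ((p : ℝ)⁻¹) ^ vO p (∑ i ∈ S, oG p (g i))) :
    NBound p q τ g (injSum f) := by
  have hp3 : 3 ≤ p := by
    have := hp.two_le
    omega
  have hq1 : 1 ≤ q := by omega
  intro y A
  induction hN : A.card using Nat.strong_induction_on generalizing A with
  | _ N IH =>
  intro hA
  rcases Finset.eq_empty_or_nonempty A with hAe | ⟨b, hb⟩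
  · subst hAe
    have hN0 : N = 0 := by simpa using hN.symm
    subst hN0
    have hJ : injSum f ∅ = 1 := (injSum_small f ∅).2.2.2 rfl
    refine ⟨?_, ?_, ?_, ?_⟩
    · rw [hJ]
      simp only [mul_one, add_zero, Finset.sum_empty, pow_zero]
      exact mul_le_of_le_one_right (norm_nonneg _) hτ1.le
    · intro _
      rw [hJ]
      simp
    · intro _ h
      exact absurd ⟨by simp, by simp⟩ h
    · intro h1 h2
      exact absurd (by simpa using h1) h2
  · have hterm : ∀ S ∈ A.powerset.filter (fun S => b ∈ S), S ⊆ A ∧ S.Nonempty := by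
      intro S hS
      rw [Finset.mem_filter, Finset.mem_powerset] at hS
      exact ⟨hS.1, ⟨b, hS.2⟩⟩
    have hrec : (y.factorial : K) * injSum f A = ∑ S ∈ A.powerset.filter (fun S => b ∈ S),
        (y.factorial : K) * ((-1 : K) ^ (S.card - 1) * ((S.card - 1).factorial : K) *
          (∑ j : Fin n, ∏ i ∈ S, f i j) * injSum f (A \ S)) := by
      rw [injSum_rec f A b hb, Finset.mul_sum]
    rw [hrec]
    rw [← hN] at hA
    -- the induction hypothesis for A \ S
    have IH' : ∀ S ⊆ A, S.Nonempty → (A \ S).card + S.card = A.card ∧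
        (‖(y.factorial : K) * injSum f (A \ S)‖ * τ ^ 1 ≤
          ‖((y + (A \ S).card).factorial : K)‖ * τ ^ (∑ i ∈ A \ S, g i + 0)) ∧
        (¬ (y % p = p - 1 ∧ (y + (A \ S).card) % p = 0) →
          ‖(y.factorial : K) * injSum f (A \ S)‖ * τ ^ 0 ≤
            ‖((y + (A \ S).card).factorial : K)‖ * τ ^ (∑ i ∈ A \ S, g i + 0)) ∧
        (q ≤ (y + (A \ S).card) % p →
          ¬ (p ∣ ∑ i ∈ A \ S, g i ∧ (A \ S).card ≤ ∑ i ∈ A \ S, g i) →
          ‖(y.factorial : K) * injSum f (A \ S)‖ * τ ^ 0 ≤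
            ‖((y + (A \ S).card).factorial : K)‖ * τ ^ (∑ i ∈ A \ S, g i + 1)) ∧
        ((y + (A \ S).card) % p = p - 1 → y % p ≠ p - 1 →
          ‖(y.factorial : K) * injSum f (A \ S)‖ * τ ^ 0 ≤
            ‖((y + (A \ S).card).factorial : K)‖ * τ ^ (∑ i ∈ A \ S, g i + (p - 2))) := by
      intro S hSA hS
      have hcard : (A \ S).card + S.card = A.card := Finset.card_sdiff_add_card_eq_card hSA
      have hScard : 1 ≤ S.card := Finset.card_pos.mpr hS
      obtain ⟨i1, i2, i3, i4⟩ := IH (A \ S).card (by omega) (A \ S) rfl (by omega)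
      refine ⟨hcard, ?_, ?_, ?_, ?_⟩
      · simpa using i1
      · simpa using i2
      · simpa using i3
      · simpa using i4
    have hC : ∀ c : ℕ, 0 ≤ ‖((y + A.card).factorial : K)‖ * τ ^ (∑ i ∈ A, g i + c) := fun c =>
      mul_nonneg (norm_nonneg _) (pow_nonneg hτ0.le _)
    rw [← hN]
    refine ⟨?_, ?_, ?_, ?_⟩
    · have := z10_sum (A.powerset.filter (fun S => b ∈ S)) (fun S =>
        (y.factorial : K) * ((-1 : K) ^ (S.card - 1) * ((S.card - 1).factorial : K) *
          (∑ j : Fin n, ∏ i ∈ S, f i j) * injSum f (A \ S))) (τ ^ 1) _ (pow_pos hτ0 _) (hC 0) ?_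
      · simpa using this
      · intro S hS
        obtain ⟨hSA, hSn⟩ := hterm S hS
        obtain ⟨κ, v, k1, k2, k3, k4, k5, k6, k7⟩ := z10_term p q hp hq hpn τ hτ0 hτ1 hτ f g hP y A S
          hSA hSn hA _ rfl
        obtain ⟨hc, i1, i2, i3, i4⟩ := IH' S hSA hSn
        rcases k1 with hk | hk
        · have := k2 hk
          subst hk
          exact k7 1 0 1 0 i1 (by omega)
        · have e3 := k3 hk
          by_cases hm : p * v + 1 = p + ∑ i ∈ S, g i
          · obtain ⟨e4, e5⟩ := k4 hk hm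
            subst hk
            exact k7 0 0 1 0 (i2 (by omega)) (by omega)
          · subst hk
            exact k7 1 0 1 0 i1 (by omega)
    · intro hyp
      have := z10_sum (A.powerset.filter (fun S => b ∈ S)) (fun S =>
        (y.factorial : K) * ((-1 : K) ^ (S.card - 1) * ((S.card - 1).factorial : K) *
          (∑ j : Fin n, ∏ i ∈ S, f i j) * injSum f (A \ S))) (τ ^ 0) _ (pow_pos hτ0 _) (hC 0) ?_
      · simpa using this
      · intro S hS
        obtain ⟨hSA, hSn⟩ := hterm S hS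
        obtain ⟨κ, v, k1, k2, k3, k4, k5, k6, k7⟩ := z10_term p q hp hq hpn τ hτ0 hτ1 hτ f g hP y A S
          hSA hSn hA _ rfl
        obtain ⟨hc, i1, i2, i3, i4⟩ := IH' S hSA hSn
        rcases k1 with hk | hk
        · have := k2 hk
          subst hk
          exact k7 1 0 0 0 i1 (by omega)
        · have e3 := k3 hk
          have e6 := k6 hk
          by_cases hm : p * v + 1 = p + ∑ i ∈ S, g i
          · obtain ⟨e4, e5⟩ := k4 hk hm
            subst hk
            exact k7 0 (p - 2) 0 0 (i4 e4 (fun h => hyp ⟨h, e5⟩)) (by omega)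
          · by_cases hm2 : p * v = p + ∑ i ∈ S, g i
            · subst hk
              exact k7 0 0 0 0 (i2 (fun h => hyp ⟨h.1, by omega⟩)) (by omega)
            · subst hk
              exact k7 1 0 0 0 i1 (by omega)
    · intro hyp1 hyp2
      have := z10_sum (A.powerset.filter (fun S => b ∈ S)) (fun S =>
        (y.factorial : K) * ((-1 : K) ^ (S.card - 1) * ((S.card - 1).factorial : K) *
          (∑ j : Fin n, ∏ i ∈ S, f i j) * injSum f (A \ S))) (τ ^ 0) _ (pow_pos hτ0 _) (hC 1) ?_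
      · simpa using this
      · intro S hS
        obtain ⟨hSA, hSn⟩ := hterm S hS
        obtain ⟨κ, v, k1, k2, k3, k4, k5, k6, k7⟩ := z10_term p q hp hq hpn τ hτ0 hτ1 hτ f g hP y A S
          hSA hSn hA _ rfl
        obtain ⟨hc, i1, i2, i3, i4⟩ := IH' S hSA hSn
        have hsum : ∑ i ∈ A, g i = (∑ i ∈ S, g i) + ∑ i ∈ A \ S, g i := by
          rw [add_comm]
          exact (Finset.sum_sdiff hSA).symm
        rcases k1 with hk | hk
        · have := k2 hk
          subst hk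
          exact k7 1 0 0 1 i1 (by omega)
        · have e3 := k3 hk
          have e6 := k6 hk
          by_cases hm : p * v + 1 = p + ∑ i ∈ S, g i
          · obtain ⟨e4, e5⟩ := k4 hk hm
            omega
          · by_cases hm2 : p * v = p + ∑ i ∈ S, g i
            · obtain ⟨e7, e8⟩ := k5 hk hm2
              subst hk
              refine k7 0 1 0 1 (i3 (by omega) (fun h => hyp2 ⟨?_, ?_⟩)) (by omega)
              · rw [hsum]
                exact dvd_add e7 h.1
              · have : S.card ≤ ∑ i ∈ S, g i := by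
                  by_contra hlt
                  have := e8 (by omega)
                  omega
                have := h.2
                omega
            · subst hk
              exact k7 0 0 0 1 (i2 (by omega)) (by omega)
    · intro hyp1 hyp2
      have := z10_sum (A.powerset.filter (fun S => b ∈ S)) (fun S =>
        (y.factorial : K) * ((-1 : K) ^ (S.card - 1) * ((S.card - 1).factorial : K) *
          (∑ j : Fin n, ∏ i ∈ S, f i j) * injSum f (A \ S))) (τ ^ 0) _ (pow_pos hτ0 _) (hC (p - 2)) ?_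
      · simpa using this
      · intro S hS
        obtain ⟨hSA, hSn⟩ := hterm S hS
        obtain ⟨κ, v, k1, k2, k3, k4, k5, k6, k7⟩ := z10_term p q hp hq hpn τ hτ0 hτ1 hτ f g hP y A S
          hSA hSn hA _ rfl
        obtain ⟨hc, i1, i2, i3, i4⟩ := IH' S hSA hSn
        have hmod : (y + (A \ S).card) % p < p := Nat.mod_lt _ (by omega)
        rcases k1 with hk | hk
        · have := k2 hk
          subst hk
          exact k7 1 0 0 (p - 2) i1 (by omega)
        · have e3 := k3 hk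
          have e6 := k6 hk
          by_cases hm : p * v + 1 = p + ∑ i ∈ S, g i
          · obtain ⟨e4, e5⟩ := k4 hk hm
            omega
          · subst hk
            exact k7 0 (p - 2) 0 (p - 2) (i4 (by omega) hyp2) (by omega)


end Pool.Agent.Helper805_nf
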