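import Mathlib
import Pool.Agent.Helper805_nf.Defs4

set_option autoImplicit false

namespace Pool.Agent.Helper805_nf

open Finset


theorem z1_mul {K : Type*} [NormedField K] [IsUltrametricDist K] {Q Q' : Polynomial K}
    (h : ∀ k, ‖Q.coeff k‖ ≤ 1) (h' : ∀ k, ‖Q'.coeff k‖ ≤ 1) : ∀ k, ‖(Q * Q').coeff k‖ ≤ 1 := by
  intro k
  rw [Polynomial.coeff_mul]
  refine IsUltrametricDist.norm_sum_le_of_forall_le_of_nonneg zero_le_one fun i _ => ?_
  rw [norm_mul]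
  exact mul_le_one₀ (h _) (norm_nonneg _) (h' _)

theorem z1_add {K : Type*} [NormedField K] [IsUltrametricDist K] {Q Q' : Polynomial K}
    (h : ∀ k, ‖Q.coeff k‖ ≤ 1) (h' : ∀ k, ‖Q'.coeff k‖ ≤ 1) : ∀ k, ‖(Q + Q').coeff k‖ ≤ 1 := by
  intro k
  rw [Polynomial.coeff_add]
  exact (IsUltrametricDist.norm_add_le_max _ _).trans (max_le (h k) (h' k))

theorem z1_C {K : Type*} [NormedField K] {c : K} (hc : ‖c‖ ≤ 1) :
    ∀ k, ‖(Polynomial.C c).coeff k‖ ≤ 1 := by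
  intro k
  rw [Polynomial.coeff_C]
  split_ifs
  · exact hc
  · rw [norm_zero]; exact zero_le_one

theorem z1_X {K : Type*} [NormedField K] [IsUltrametricDist K] :
    ∀ k, ‖(Polynomial.X - 1 : Polynomial K).coeff k‖ ≤ 1 := by
  have e : (Polynomial.X - 1 : Polynomial K) = Polynomial.X + Polynomial.C (-1) := by
    rw [map_neg, map_one, sub_eq_add_neg]
  rw [e]
  refine z1_add ?_ (z1_C (by rw [norm_neg, norm_one]))
  intro k
  rw [Polynomial.coeff_X]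
  split_ifs
  · rw [norm_one]
  · rw [norm_zero]; exact zero_le_one

theorem z1_pow {K : Type*} [NormedField K] [IsUltrametricDist K] {Q : Polynomial K}
    (h : ∀ k, ‖Q.coeff k‖ ≤ 1) (n : ℕ) : ∀ k, ‖(Q ^ n).coeff k‖ ≤ 1 := by
  induction n with
  | zero =>
      rw [pow_zero, ← map_one Polynomial.C]
      exact z1_C (by rw [norm_one])
  | succ n ih =>
      rw [pow_succ]
      exact z1_mul ih h

theorem ordF_basic {K : Type*} [NormedField K] [IsUltrametricDist K] (p : ℕ) (ζ : K) :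
    (∀ (N M : ℕ) (G G' : ℕ → K), OrdF p ζ N G → OrdF p ζ M G' → OrdF p ζ (N + M) (fun j => G j * G' j)) ∧
    (∀ (N : ℕ) (G G' : ℕ → K), OrdF p ζ N G → OrdF p ζ N G' → OrdF p ζ N (fun j => G j + G' j)) ∧
    (∀ (N : ℕ) (G : ℕ → K) (c : K), ‖c‖ ≤ 1 → OrdF p ζ N G → OrdF p ζ N (fun j => c * G j)) ∧
    (∀ (N M : ℕ) (G : ℕ → K), M ≤ N → OrdF p ζ N G → OrdF p ζ M G) ∧
    (∀ Q : Polynomial K, (∀ k, ‖Q.coeff k‖ ≤ 1) → OrdF p ζ 0 (fun j => Q.eval (ζ ^ j))) ∧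
    (∀ c : K, ‖c‖ ≤ 1 → OrdF p ζ 0 (fun _ => c)) ∧
    (∀ (N : ℕ) (G G' : ℕ → K), (∀ j, ¬ p ∣ j → G j = G' j) → OrdF p ζ N G → OrdF p ζ N G') ∧
    (∀ {ι : Type} (S : Finset ι) (o : ι → ℕ) (f : ι → ℕ → K), (∀ i ∈ S, OrdF p ζ (o i) (f i)) →
      OrdF p ζ (∑ i ∈ S, o i) (fun j => ∏ i ∈ S, f i j)) := by
  have hmul : ∀ (N M : ℕ) (G G' : ℕ → K), OrdF p ζ N G → OrdF p ζ M G' →
      OrdF p ζ (N + M) (fun j => G j * G' j) := by
    rintro N M G G' ⟨Q, h1, h2⟩ ⟨Q', h1', h2'⟩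
    refine ⟨Q * Q', z1_mul h1 h1', fun j hj => ?_⟩
    simp only
    rw [h2 j hj, h2' j hj, Polynomial.eval_mul, pow_add]
    ring
  have hconst : ∀ c : K, ‖c‖ ≤ 1 → OrdF p ζ 0 (fun _ => c) := by
    intro c hc
    refine ⟨Polynomial.C c, z1_C hc, fun j _ => ?_⟩
    rw [Polynomial.eval_C, pow_zero, one_mul]
  refine ⟨hmul, ?_, ?_, ?_, ?_, hconst, ?_, ?_⟩
  · rintro N G G' ⟨Q, h1, h2⟩ ⟨Q', h1', h2'⟩
    refine ⟨Q + Q', z1_add h1 h1', fun j hj => ?_⟩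
    simp only
    rw [h2 j hj, h2' j hj, Polynomial.eval_add]
    ring
  · rintro N G c hc ⟨Q, h1, h2⟩
    refine ⟨Polynomial.C c * Q, z1_mul (z1_C hc) h1, fun j hj => ?_⟩
    simp only
    rw [h2 j hj, Polynomial.eval_mul, Polynomial.eval_C]
    ring
  · rintro N M G hMN ⟨Q, h1, h2⟩
    refine ⟨(Polynomial.X - 1) ^ (N - M) * Q, z1_mul (z1_pow z1_X _) h1, fun j hj => ?_⟩
    rw [h2 j hj, Polynomial.eval_mul, Polynomial.eval_pow, Polynomial.eval_sub,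
      Polynomial.eval_X, Polynomial.eval_one, ← mul_assoc, ← pow_add, Nat.add_sub_cancel' hMN]
  · intro Q hQ
    exact ⟨Q, hQ, fun j _ => by rw [pow_zero, one_mul]⟩
  · rintro N G G' he ⟨Q, h1, h2⟩
    exact ⟨Q, h1, fun j hj => by rw [← he j hj]; exact h2 j hj⟩
  · intro ι S o f
    classical
    induction S using Finset.induction_on with
    | empty =>
        intro _
        simp only [Finset.sum_empty, Finset.prod_empty]
        exact hconst 1 (by rw [norm_one])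
    | insert a S ha ih =>
        intro hS
        simp only [Finset.sum_insert ha, Finset.prod_insert ha]
        exact hmul _ _ _ _ (hS a (Finset.mem_insert_self a S))
          (ih fun i hi => hS i (Finset.mem_insert_of_mem hi))

end Pool.Agent.Helper805_nf
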