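import Mathlib
import Pool.Agent.Helper805_nf.Defs4
import Pool.Agent.Helper805_nf.Z1

set_option autoImplicit false

namespace Pool.Agent.Helper805_nf

open Finset




theorem z2_norm_map {K : Type*} [NormedField K] [IsUltrametricDist K] (P : Polynomial ℤ) (k : ℕ) :
    ‖(P.map (Int.castRingHom K)).coeff k‖ ≤ 1 := by
  rw [Polynomial.coeff_map, eq_intCast]
  exact IsUltrametricDist.norm_intCast_le_one _ _

theorem z2_even (p : ℕ) : Even (p * (p - 1)) := by
  rcases Nat.even_or_odd p with h | h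
  · exact h.mul_right _
  · exact (Nat.Odd.sub_odd h odd_one).mul_left _

theorem z2_V (p : ℕ) (hp : p.Prime) : ∃ V : Polynomial ℤ,
    ((Polynomial.X - 1) ^ (p * (p - 1)) : Polynomial ℤ) = Polynomial.cyclotomic (p ^ 2) ℤ + Polynomial.C (p : ℤ) * V := by
  haveI : Fact p.Prime := ⟨hp⟩
  have h1 : Polynomial.cyclotomic (p ^ 2) (ZMod p) = (Polynomial.X - 1) ^ (p * (p - 1)) := by
    have h := Polynomial.cyclotomic_mul_prime_pow_eq (ZMod p) (p := p) (m := 1) (hp.not_dvd_one) (k := 2) (by norm_num)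
    rw [mul_one, Polynomial.cyclotomic_one] at h
    rw [h]
    congr 1
    rw [Nat.mul_sub, mul_one]
    simp [pow_two]
  have h2 : Polynomial.C (p : ℤ) ∣ ((Polynomial.X - 1) ^ (p * (p - 1)) - Polynomial.cyclotomic (p ^ 2) ℤ) := by
    rw [Polynomial.C_dvd_iff_dvd_coeff]
    intro i
    have h3 : ((Polynomial.X - 1) ^ (p * (p - 1)) - Polynomial.cyclotomic (p ^ 2) ℤ : Polynomial ℤ).map (Int.castRingHom (ZMod p)) = 0 := by
      rw [Polynomial.map_sub, Polynomial.map_cyclotomic, h1, Polynomial.map_pow, Polynomial.map_sub, Polynomial.map_X,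
        Polynomial.map_one, sub_self]
    have h4 := congrArg (fun q => q.coeff i) h3
    simp only [Polynomial.coeff_map, Polynomial.coeff_zero, eq_intCast] at h4
    exact (ZMod.intCast_zmod_eq_zero_iff_dvd _ _).mp h4
  obtain ⟨V, hV⟩ := h2
  exact ⟨V, by rw [← hV]; ring⟩

theorem z2_prod {K : Type*} [Field K] (p : ℕ) (hp : p.Prime) (z : K) (hz : IsPrimitiveRoot z (p ^ 2)) :
    (p : K) = (z - 1) ^ (p * (p - 1)) *
      ∏ k ∈ (range (p ^ 2)).filter (fun k => k.Coprime (p ^ 2)), ∑ i ∈ range k, z ^ i := by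
  haveI : Fact p.Prime := ⟨hp⟩
  have h1 : (p : K) = (Polynomial.cyclotomic (p ^ 2) K).eval 1 := by
    have := Polynomial.eval_one_cyclotomic_prime_pow (R := K) (p := p) 1
    simp
  have h2 : (Polynomial.cyclotomic (p ^ 2) K).eval 1 = ∏ w ∈ primitiveRoots (p ^ 2) K, (1 - w) := by
    rw [Polynomial.cyclotomic_eq_prod_X_sub_primitiveRoots hz, Polynomial.eval_prod]
    simp
  have hpos : 0 < p ^ 2 := pow_pos hp.pos 2
  have h3 : ∏ w ∈ primitiveRoots (p ^ 2) K, (1 - w) =
      ∏ k ∈ (range (p ^ 2)).filter (fun k => k.Coprime (p ^ 2)), (1 - z ^ k) := by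
    symm
    refine Finset.prod_bij (fun k _ => z ^ k) ?_ ?_ ?_ ?_
    · intro k hk
      rw [mem_filter, mem_range] at hk
      rw [mem_primitiveRoots hpos]
      exact hz.pow_of_coprime k hk.2
    · intro a ha b hb hab
      rw [mem_filter, mem_range] at ha hb
      exact hz.pow_inj ha.1 hb.1 hab
    · intro w hw
      rw [mem_primitiveRoots hpos] at hw
      haveI : NeZero (p ^ 2) := ⟨hpos.ne'⟩
      obtain ⟨i, hi, hi2, hi3⟩ := hz.isPrimitiveRoot_iff.mp hw
      exact ⟨i, by rw [mem_filter, mem_range]; exact ⟨hi, hi2⟩, hi3⟩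
    · intro k _; rfl
  rw [h1, h2, h3]
  have h4 : ∀ k ∈ (range (p ^ 2)).filter (fun k => k.Coprime (p ^ 2)), (1 - z ^ k) = (1 - z) * ∑ i ∈ range k, z ^ i := by
    intro k _
    rw [mul_neg_geom_sum]
  rw [prod_congr rfl h4, prod_mul_distrib, prod_const]
  have h5 : ((range (p ^ 2)).filter (fun k => k.Coprime (p ^ 2))).card = p * (p - 1) := by
    have : (p ^ 2).totient = p * (p - 1) := by
      rw [Nat.totient_prime_pow hp (by norm_num)]; simp
    rw [← this, Nat.totient]
    congr 1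
    ext k
    simp [Nat.coprime_comm]
  rw [h5]
  congr 1
  rw [← neg_sub z 1, (z2_even p).neg_pow]

theorem ordF_prime {K : Type*} [NormedField K] [IsUltrametricDist K] (p : ℕ) (hp : p.Prime) (ζ : K)
    (hζ : IsPrimitiveRoot ζ (p ^ 2)) :
    OrdF p ζ (p * (p - 1)) (fun _ => (p : K)) ∧
    (∀ (a r : ℕ) (G : ℕ → K), OrdF p ζ (p * (p - 1) * a + r) G →
      ∃ G' : ℕ → K, OrdF p ζ r G' ∧ ∀ j, ¬ p ∣ j → G j = (p : K) ^ a * G' j) := by
  have hzj : ∀ j, ¬ p ∣ j → IsPrimitiveRoot (ζ ^ j) (p ^ 2) := by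
    intro j hj
    apply hζ.pow_of_coprime
    exact Nat.Coprime.pow_right 2 ((Nat.Prime.coprime_iff_not_dvd hp).mpr hj).symm
  constructor
  · refine ⟨(∏ k ∈ (range (p ^ 2)).filter (fun k => k.Coprime (p ^ 2)), ∑ i ∈ range k, (Polynomial.X : Polynomial ℤ) ^ i).map
      (Int.castRingHom K), fun k => z2_norm_map _ k, ?_⟩
    intro j hj
    have h := z2_prod p hp (ζ ^ j) (hzj j hj)
    rw [Polynomial.eval_map]
    have he : Polynomial.eval₂ (Int.castRingHom K) (ζ ^ j)
        (∏ k ∈ (range (p ^ 2)).filter (fun k => k.Coprime (p ^ 2)), ∑ i ∈ range k, (Polynomial.X : Polynomial ℤ) ^ i) =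
        ∏ k ∈ (range (p ^ 2)).filter (fun k => k.Coprime (p ^ 2)), ∑ i ∈ range k, (ζ ^ j) ^ i := by
      rw [Polynomial.eval₂_finsetProd]
      apply prod_congr rfl
      intro k _
      rw [Polynomial.eval₂_finsetSum]
      apply sum_congr rfl
      intro i _
      rw [Polynomial.eval₂_X_pow]
    rw [he]
    exact h
  · intro a r G hG
    obtain ⟨Q, hQ, hGQ⟩ := hG
    obtain ⟨V, hV⟩ := z2_V p hp
    have hVz : ∀ z : K, IsPrimitiveRoot z (p ^ 2) → (z - 1) ^ (p * (p - 1)) = (p : K) * (V.map (Int.castRingHom K)).eval z := by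
      intro z hz
      have h1 := congrArg (fun q : Polynomial ℤ => (q.map (Int.castRingHom K)).eval z) hV
      simp only [Polynomial.map_pow, Polynomial.map_sub, Polynomial.map_X, Polynomial.map_one, Polynomial.map_add,
        Polynomial.map_mul, Polynomial.map_cyclotomic, Polynomial.map_C, Polynomial.eval_pow, Polynomial.eval_sub,
        Polynomial.eval_X, Polynomial.eval_one, Polynomial.eval_add, Polynomial.eval_mul, Polynomial.eval_C] at h1
      have h2 : (Polynomial.cyclotomic (p ^ 2) K).eval z = 0 := hz.isRoot_cyclotomic (pow_pos hp.pos 2)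
      rw [h2, zero_add] at h1
      rw [h1]
      simp
    refine ⟨fun j => (ζ ^ j - 1) ^ r * ((V ^ a).map (Int.castRingHom K) * Q).eval (ζ ^ j), ⟨(V ^ a).map (Int.castRingHom K) * Q, ?_, fun j _ => rfl⟩, ?_⟩
    · intro k
      rw [Polynomial.coeff_mul]
      apply IsUltrametricDist.norm_sum_le_of_forall_le_of_nonneg zero_le_one
      intro i _
      rw [norm_mul]
      exact mul_le_one₀ (z2_norm_map _ _) (norm_nonneg _) (hQ _)
    · intro j hj
      rw [hGQ j hj, pow_add, pow_mul, hVz _ (hzj j hj)]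
      simp only [Polynomial.map_pow, Polynomial.eval_mul, Polynomial.eval_pow]
      ring


end Pool.Agent.Helper805_nf
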