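import Mathlib
import Pool.Agent.Helper805_nf.Defs4
import Pool.Agent.Helper805_nf.Y1
import Pool.Agent.Helper805_nf.Z1
import Pool.Agent.Helper805_nf.Z2

set_option autoImplicit false

namespace Pool.Agent.Helper805_nf

open Finset








/-- Sum over exponents below the square of `p` prime to `p`. -/
noncomputable def z3_T {K : Type*} [NormedField K] (p : ℕ) (g : ℕ → K) : K :=
  ∑ y ∈ range (p ^ 2), if p ∣ y then 0 else g y

theorem z3_congr {K : Type*} [NormedField K] (p : ℕ) (g g' : ℕ → K) (h : ∀ j, ¬ p ∣ j → g j = g' j) :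
    z3_T p g = z3_T p g' := by
  unfold z3_T
  refine sum_congr rfl fun y _ => ?_
  split_ifs with hy
  · rfl
  · exact h y hy

theorem z3_add {K : Type*} [NormedField K] (p : ℕ) (g g' : ℕ → K) :
    z3_T p (fun y => g y + g' y) = z3_T p g + z3_T p g' := by
  unfold z3_T
  rw [← sum_add_distrib]
  refine sum_congr rfl fun y _ => ?_
  split_ifs <;> simp

theorem z3_mul {K : Type*} [NormedField K] (p : ℕ) (g : ℕ → K) (c : K) :
    z3_T p (fun y => c * g y) = c * z3_T p g := by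
  unfold z3_T
  rw [mul_sum]
  refine sum_congr rfl fun y _ => ?_
  split_ifs <;> simp

theorem z3_sum {K : Type*} [NormedField K] (p : ℕ) {ι : Type*} (s : Finset ι) (g : ι → ℕ → K) :
    z3_T p (fun y => ∑ i ∈ s, g i y) = ∑ i ∈ s, z3_T p (g i) := by
  unfold z3_T
  rw [sum_comm]
  refine sum_congr rfl fun y _ => ?_
  split_ifs <;> simp

theorem z3_mulsum {K : Type*} [NormedField K] (p : ℕ) (hp : p.Prime) (g : ℕ → K) :
    ∑ y ∈ range (p ^ 2), (if p ∣ y then g y else 0) = ∑ i ∈ range p, g (p * i) := by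
  rw [← sum_filter]
  symm
  refine sum_bij (fun i _ => p * i) ?_ ?_ ?_ ?_
  · intro i hi
    rw [mem_range] at hi
    rw [mem_filter, mem_range]
    refine ⟨?_, dvd_mul_right _ _⟩
    rw [pow_two]
    exact Nat.mul_lt_mul_of_pos_left hi hp.pos
  · intro i _ j _ h
    exact Nat.eq_of_mul_eq_mul_left hp.pos h
  · intro y hy
    rw [mem_filter, mem_range] at hy
    obtain ⟨h1, c, rfl⟩ := hy
    refine ⟨c, ?_, rfl⟩
    rw [mem_range]
    rw [pow_two] at h1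
    exact Nat.lt_of_mul_lt_mul_left h1
  · intro i _
    rfl

theorem z3_pow {K : Type*} [NormedField K] (p : ℕ) (hp : p.Prime) (ζ : K)
    (hζ : IsPrimitiveRoot ζ (p ^ 2)) (k : ℕ) :
    z3_T p (fun y => (ζ ^ y) ^ k) =
      (if p ^ 2 ∣ k then (p : K) ^ 2 else 0) - (if p ∣ k then (p : K) else 0) := by
  have h1 : z3_T p (fun y => (ζ ^ y) ^ k) =
      ∑ y ∈ range (p ^ 2), (ζ ^ k) ^ y - ∑ i ∈ range p, (ζ ^ (p * k)) ^ i := by
    have h2 := z3_mulsum p hp (fun y => (ζ ^ k) ^ y)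
    have h3 : ∑ i ∈ range p, (ζ ^ (p * k)) ^ i = ∑ i ∈ range p, (ζ ^ k) ^ (p * i) := by
      refine sum_congr rfl fun i _ => ?_
      rw [← pow_mul, ← pow_mul]
      congr 1
      ring
    rw [h3, ← h2, ← sum_sub_distrib]
    unfold z3_T
    refine sum_congr rfl fun y _ => ?_
    split_ifs with hy
    · simp
    · show (ζ ^ y) ^ k = (ζ ^ k) ^ y - 0
      rw [sub_zero, ← pow_mul, ← pow_mul, mul_comm]
  rw [h1]
  congr 1
  · split_ifs with hk
    · have : ζ ^ k = 1 := (hζ.pow_eq_one_iff_dvd k).2 hk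
      rw [this]
      simp
    · have h4 : ζ ^ k ≠ 1 := fun h => hk ((hζ.pow_eq_one_iff_dvd k).1 h)
      have h5 : (ζ ^ k) ^ (p ^ 2) = 1 := by
        rw [← pow_mul, mul_comm, pow_mul, hζ.pow_eq_one, one_pow]
      have h6 := geom_sum_mul (ζ ^ k) (p ^ 2)
      rw [h5, sub_self] at h6
      rcases mul_eq_zero.1 h6 with h | h
      · exact h
      · exact absurd (sub_eq_zero.1 h) h4
  · split_ifs with hk
    · have : ζ ^ (p * k) = 1 := by
        rw [hζ.pow_eq_one_iff_dvd, pow_two]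
        exact Nat.mul_dvd_mul_left p hk
      rw [this]
      simp
    · have h4 : ζ ^ (p * k) ≠ 1 := by
        intro h
        rw [hζ.pow_eq_one_iff_dvd, pow_two] at h
        exact hk (Nat.dvd_of_mul_dvd_mul_left hp.pos h)
      have h5 : (ζ ^ (p * k)) ^ p = 1 := by
        rw [← pow_mul, show p * k * p = p ^ 2 * k by ring, pow_mul, hζ.pow_eq_one, one_pow]
      have h6 := geom_sum_mul (ζ ^ (p * k)) p
      rw [h5, sub_self] at h6
      rcases mul_eq_zero.1 h6 with h | h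
      · exact h
      · exact absurd (sub_eq_zero.1 h) h4

theorem z3_eval {K : Type*} [NormedField K] (p : ℕ) (ζ : K) (Q : Polynomial K) :
    z3_T p (fun y => Q.eval (ζ ^ y)) =
      ∑ k ∈ range (Q.natDegree + 1), Q.coeff k * z3_T p (fun y => (ζ ^ y) ^ k) := by
  have h : (fun y : ℕ => Q.eval (ζ ^ y)) =
      fun y => ∑ k ∈ range (Q.natDegree + 1), Q.coeff k * (ζ ^ y) ^ k := by
    funext y
    rw [Polynomial.eval_eq_sum_range]
  rw [h, z3_sum]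
  refine sum_congr rfl fun k _ => ?_
  rw [z3_mul]

theorem z3_pinv {p : ℕ} (hp : p.Prime) : (0 : ℝ) ≤ (p : ℝ)⁻¹ ∧ (p : ℝ)⁻¹ ≤ 1 := by
  have : (1 : ℝ) ≤ p := by exact_mod_cast hp.one_lt.le
  exact ⟨by positivity, inv_le_one_of_one_le₀ this⟩

theorem z3_nsub {K : Type*} [NormedField K] [IsUltrametricDist K] (a b : K) :
    ‖a - b‖ ≤ max ‖a‖ ‖b‖ := by
  have := IsUltrametricDist.norm_add_le_max a (-b)
  rwa [norm_neg, ← sub_eq_add_neg] at this

theorem z3_pow_norm {K : Type*} [NormedField K] [IsUltrametricDist K] (p : ℕ) (hp : p.Prime) (ζ : K)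
    (hpn : ‖(p : K)‖ = (p : ℝ)⁻¹) (hζ : IsPrimitiveRoot ζ (p ^ 2)) (k : ℕ) :
    ‖z3_T p (fun y => (ζ ^ y) ^ k)‖ ≤ (p : ℝ)⁻¹ := by
  obtain ⟨h0, h1⟩ := z3_pinv hp
  rw [z3_pow p hp ζ hζ k]
  have hA : ‖(if p ^ 2 ∣ k then (p : K) ^ 2 else 0)‖ ≤ (p : ℝ)⁻¹ := by
    split_ifs
    · rw [norm_pow, hpn, pow_two]
      exact mul_le_of_le_one_right h0 h1
    · simpa using h0
  have hB : ‖(if p ∣ k then (p : K) else 0)‖ ≤ (p : ℝ)⁻¹ := by
    split_ifs
    · rw [hpn]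
    · simpa using h0
  exact (z3_nsub _ _).trans (max_le hA hB)

theorem z3_pow_diff {K : Type*} [NormedField K] [IsUltrametricDist K] (p : ℕ) (hp : p.Prime) (ζ : K)
    (hpn : ‖(p : K)‖ = (p : ℝ)⁻¹) (hζ : IsPrimitiveRoot ζ (p ^ 2)) (k : ℕ) :
    ‖z3_T p (fun y => (ζ ^ y) ^ (k + p)) - z3_T p (fun y => (ζ ^ y) ^ k)‖ ≤ ((p : ℝ)⁻¹) ^ 2 := by
  obtain ⟨h0, h1⟩ := z3_pinv hp
  rw [z3_pow p hp ζ hζ k, z3_pow p hp ζ hζ (k + p)]
  have hA : ∀ k : ℕ, ‖(if p ^ 2 ∣ k then (p : K) ^ 2 else 0)‖ ≤ ((p : ℝ)⁻¹) ^ 2 := by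
    intro k
    split_ifs
    · rw [norm_pow, hpn]
    · rw [norm_zero]; positivity
  have hB : (if p ∣ k + p then (p : K) else 0) = (if p ∣ k then (p : K) else 0) := by
    simp
  rw [hB, sub_sub_sub_cancel_right]
  exact (z3_nsub _ _).trans (max_le (hA _) (hA _))

theorem z3_eval_norm {K : Type*} [NormedField K] [IsUltrametricDist K] (p : ℕ) (hp : p.Prime) (ζ : K)
    (hpn : ‖(p : K)‖ = (p : ℝ)⁻¹) (hζ : IsPrimitiveRoot ζ (p ^ 2)) (Q : Polynomial K)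
    (hQ : ∀ k, ‖Q.coeff k‖ ≤ 1) :
    ‖z3_T p (fun y => Q.eval (ζ ^ y))‖ ≤ (p : ℝ)⁻¹ := by
  obtain ⟨h0, h1⟩ := z3_pinv hp
  rw [z3_eval]
  refine IsUltrametricDist.norm_sum_le_of_forall_le_of_nonneg h0 fun k _ => ?_
  rw [norm_mul]
  calc ‖Q.coeff k‖ * ‖z3_T p (fun y => (ζ ^ y) ^ k)‖ ≤ 1 * (p : ℝ)⁻¹ :=
        mul_le_mul (hQ k) (z3_pow_norm p hp ζ hpn hζ k) (norm_nonneg _) zero_le_one
    _ = _ := one_mul _

theorem z3_eval_diff {K : Type*} [NormedField K] [IsUltrametricDist K] (p : ℕ) (hp : p.Prime) (ζ : K)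
    (hpn : ‖(p : K)‖ = (p : ℝ)⁻¹) (hζ : IsPrimitiveRoot ζ (p ^ 2)) (Q : Polynomial K)
    (hQ : ∀ k, ‖Q.coeff k‖ ≤ 1) :
    ‖z3_T p (fun y => ((ζ ^ y) ^ p - 1) * Q.eval (ζ ^ y))‖ ≤ ((p : ℝ)⁻¹) ^ 2 := by
  have h : (fun y : ℕ => ((ζ ^ y) ^ p - 1) * Q.eval (ζ ^ y)) =
      fun y => ∑ k ∈ range (Q.natDegree + 1),
        (Q.coeff k * (ζ ^ y) ^ (k + p) + (- Q.coeff k) * (ζ ^ y) ^ k) := by
    funext y
    rw [Polynomial.eval_eq_sum_range, mul_sum]
    refine sum_congr rfl fun k _ => ?_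
    rw [pow_add]
    ring
  rw [h, z3_sum]
  refine IsUltrametricDist.norm_sum_le_of_forall_le_of_nonneg (by positivity) fun k _ => ?_
  rw [z3_add, z3_mul, z3_mul, neg_mul, ← sub_eq_add_neg, ← mul_sub, norm_mul]
  calc ‖Q.coeff k‖ * _ ≤ 1 * ((p : ℝ)⁻¹) ^ 2 :=
        mul_le_mul (hQ k) (z3_pow_diff p hp ζ hpn hζ k) (norm_nonneg _) zero_le_one
    _ = _ := one_mul _

theorem z3_frob (p : ℕ) (hp : p.Prime) : ∃ h : Polynomial ℤ,
    (Polynomial.X - 1) ^ p = (Polynomial.X ^ p - 1) + Polynomial.C (p : ℤ) * h := by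
  have : Fact p.Prime := ⟨hp⟩
  have hd : Polynomial.C (p : ℤ) ∣ (((Polynomial.X - 1) ^ p - (Polynomial.X ^ p - 1)) : Polynomial ℤ) := by
    rw [Polynomial.C_dvd_iff_dvd_coeff]
    intro i
    rw [← ZMod.intCast_zmod_eq_zero_iff_dvd]
    have h1 : Polynomial.map (Int.castRingHom (ZMod p))
        (((Polynomial.X - 1) ^ p - (Polynomial.X ^ p - 1)) : Polynomial ℤ) = 0 := by
      simp only [Polynomial.map_sub, Polynomial.map_pow, Polynomial.map_X, Polynomial.map_one]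
      rw [sub_pow_char, one_pow, sub_self]
    have h2 := congrArg (fun P => Polynomial.coeff P i) h1
    simpa only [Polynomial.coeff_map, Polynomial.coeff_zero, eq_intCast] using h2
  obtain ⟨h, hh⟩ := hd
  exact ⟨h, by rw [← hh]; ring⟩

theorem z3_frob_norm {K : Type*} [NormedField K] [IsUltrametricDist K] (p : ℕ) (hp : p.Prime) (ζ : K)
    (hpn : ‖(p : K)‖ = (p : ℝ)⁻¹) (hζ : IsPrimitiveRoot ζ (p ^ 2)) (Q : Polynomial K)
    (hQ : ∀ k, ‖Q.coeff k‖ ≤ 1) :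
    ‖z3_T p (fun y => (ζ ^ y - 1) ^ p * Q.eval (ζ ^ y))‖ ≤ ((p : ℝ)⁻¹) ^ 2 := by
  obtain ⟨h, hh⟩ := z3_frob p hp
  obtain ⟨h0, h1⟩ := z3_pinv hp
  set H : Polynomial K := h.map (Int.castRingHom K) with hH
  have hHn : ∀ k, ‖H.coeff k‖ ≤ 1 := by
    intro k
    rw [hH, Polynomial.coeff_map, eq_intCast]
    exact IsUltrametricDist.norm_intCast_le_one K _
  have hz : ∀ z : K, (z - 1) ^ p = (z ^ p - 1) + (p : K) * H.eval z := by
    intro z
    have h2 := congrArg (fun P => Polynomial.eval z (Polynomial.map (Int.castRingHom K) P)) hh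
    simpa [hH] using h2
  obtain ⟨b1, _, _, _, b5, _⟩ := ordF_basic p ζ
  obtain ⟨R, hR, hR2⟩ := b1 0 0 _ _ (b5 H hHn) (b5 Q hQ)
  have e1 : z3_T p (fun y => (ζ ^ y - 1) ^ p * Q.eval (ζ ^ y)) =
      z3_T p (fun y => ((ζ ^ y) ^ p - 1) * Q.eval (ζ ^ y)) + (p : K) * z3_T p (fun y => R.eval (ζ ^ y)) := by
    rw [← z3_mul, ← z3_add]
    refine z3_congr p _ _ fun j hj => ?_
    have h3 := hR2 j hj
    simp only [add_zero, pow_zero, one_mul] at h3
    rw [← h3, hz]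
    ring
  rw [e1]
  refine (IsUltrametricDist.norm_add_le_max _ _).trans (max_le (z3_eval_diff p hp ζ hpn hζ Q hQ) ?_)
  rw [norm_mul, hpn, pow_two]
  exact mul_le_mul_of_nonneg_left (z3_eval_norm p hp ζ hpn hζ R hR) h0

theorem z3_T_norm {K : Type*} [NormedField K] [IsUltrametricDist K] (p : ℕ) (hp : p.Prime) (ζ : K)
    (hpn : ‖(p : K)‖ = (p : ℝ)⁻¹) (hζ : IsPrimitiveRoot ζ (p ^ 2)) (N : ℕ) (G : ℕ → K)
    (hG : OrdF p ζ N G) : ‖z3_T p G‖ ≤ ((p : ℝ)⁻¹) ^ vO p N := by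
  obtain ⟨_, _, _, b4, _⟩ := ordF_basic p ζ
  obtain ⟨h0, h1⟩ := z3_pinv hp
  unfold vO
  split_ifs with hN
  · obtain ⟨Q, hQ, hG0⟩ := b4 N 0 G (Nat.zero_le _) hG
    rw [z3_congr p G (fun y => Q.eval (ζ ^ y)) (fun j hj => by
      have := hG0 j hj
      simpa using this), pow_one]
    exact z3_eval_norm p hp ζ hpn hζ Q hQ
  · push Not at hN
    set a := (N - p) / (p * (p - 1)) with ha
    have hm : p * (p - 1) * a ≤ N - p := by
      rw [ha]; exact Nat.mul_div_le _ _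
    have hdec : p * (p - 1) * a + (N - p * (p - 1) * a) = N := by omega
    have hr : p ≤ N - p * (p - 1) * a := by omega
    rw [← hdec] at hG
    obtain ⟨G', hG', hGG⟩ := (ordF_prime p hp ζ hζ).2 a _ G hG
    obtain ⟨Q, hQ, hG0⟩ := b4 _ p G' hr hG'
    have e : z3_T p G = (p : K) ^ a * z3_T p (fun y => (ζ ^ y - 1) ^ p * Q.eval (ζ ^ y)) := by
      rw [← z3_mul]
      refine z3_congr p _ _ fun j hj => ?_
      rw [hGG j hj, hG0 j hj]
    rw [e, norm_mul, norm_pow, hpn, add_comm 2 a, pow_add]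
    exact mul_le_mul_of_nonneg_left (z3_frob_norm p hp ζ hpn hζ Q hQ) (by positivity)

theorem z3_half {K : Type*} [NormedField K] (p n : ℕ) (hn : p ^ 2 = 2 * n + 1) (G : ℕ → K)
    (hE : ∀ j j' : ℕ, p ^ 2 ∣ j + j' → G j = G j') :
    z3_T p G = 2 * ∑ j : Fin n, if p ∣ (j : ℕ) + 1 then 0 else G ((j : ℕ) + 1) := by
  have e0 : (∑ j : Fin n, if p ∣ (j : ℕ) + 1 then 0 else G ((j : ℕ) + 1)) =
      ∑ j ∈ range n, if p ∣ j + 1 then 0 else G (j + 1) :=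
    Fin.sum_univ_eq_sum_range (fun j => if p ∣ j + 1 then 0 else G (j + 1)) n
  rw [e0]
  unfold z3_T
  rw [hn, sum_range_succ', if_pos (dvd_zero p), add_zero, two_mul n, sum_range_add, two_mul]
  congr 1
  rw [← sum_range_reflect]
  refine sum_congr rfl fun j hj => ?_
  rw [mem_range] at hj
  have h1 : n + (n - 1 - j) + 1 + (j + 1) = p ^ 2 := by omega
  have h2 : p ∣ n + (n - 1 - j) + 1 ↔ p ∣ j + 1 := by
    have h3 : p ∣ n + (n - 1 - j) + 1 + (j + 1) := by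
      rw [h1]; exact dvd_pow_self p two_ne_zero
    constructor
    · intro h
      exact (Nat.dvd_add_right h).1 h3
    · intro h
      exact (Nat.dvd_add_left h).1 h3
  by_cases h4 : p ∣ j + 1
  · rw [if_pos h4, if_pos (h2.2 h4)]
  · rw [if_neg h4, if_neg (fun h => h4 (h2.1 h))]
    exact hE _ _ (by rw [h1])

theorem ordF_trace {K : Type*} [NormedField K] [IsUltrametricDist K] (p q n : ℕ) (hp : p.Prime)
    (hq : p = 2 * q + 1) (hn : n = p * q + q) (hpn : ‖(p : K)‖ = (p : ℝ)⁻¹) (ζ : K)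
    (hζ : IsPrimitiveRoot ζ (p ^ 2)) (N : ℕ) (G : ℕ → K) (hG : OrdF p ζ N G)
    (hE : ∀ j j' : ℕ, p ^ 2 ∣ j + j' → G j = G j') :
    ‖∑ j : Fin n, if p ∣ (j : ℕ) + 1 then 0 else G ((j : ℕ) + 1)‖ ≤ ((p : ℝ)⁻¹) ^ vO p N := by
  have hp3 : ¬ p ∣ 2 := by
    intro h
    have := Nat.le_of_dvd (by norm_num) h
    have := hp.two_le
    omega
  have hsq : p ^ 2 = 2 * n + 1 := by
    rw [hn, hq]; ring
  have h2 : ‖(2 : K)‖ = 1 := by
    have := (norm_nat_facts (K := K) p hp hpn 2).2.1 hp3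
    simpa using this
  have h := z3_T_norm p hp ζ hpn hζ N G hG
  rw [z3_half p n hsq G hE, norm_mul, h2, one_mul] at h
  exact h



end Pool.Agent.Helper805_nf
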