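import Mathlib
import Pool.Agent.Helper805_nf.Defs4
import Pool.Agent.Helper805_nf.Z1
import Pool.Agent.Helper805_nf.Z3

set_option autoImplicit false

namespace Pool.Agent.Helper805_nf

open Finset








theorem row_sums {K : Type*} [NormedField K] [IsUltrametricDist K] (p q n : ℕ) (hp : p.Prime)
    (hq : p = 2 * q + 1) (hn : n = p * q + q) (hpn : ‖(p : K)‖ = (p : ℝ)⁻¹) (ζ : K)
    (hζ : IsPrimitiveRoot ζ (p ^ 2)) (t : ℝ) {m : ℕ} (r : Fin m → ℕ → K) (c : Fin m → K) (g : Fin m → ℕ)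
    (hr : ∀ i, RowOK p ζ t (g i) (c i) (r i)) (S : Finset (Fin m)) (hS : S.Nonempty) :
    ‖∑ j : Fin n, ∏ i ∈ S, (if p ∣ (j : ℕ) + 1 then 0 else r i ((j : ℕ) + 1) - c i)‖ ≤
      ((p : ℝ)⁻¹) ^ vO p (∑ i ∈ S, oG p (g i)) := by
  classical
  have hprod : OrdF p ζ (∑ i ∈ S, oG p (g i)) (fun j => ∏ i ∈ S, (fun i j => r i j - c i) i j) := by
    obtain ⟨-, -, -, -, -, -, -, h8⟩ := ordF_basic p ζ
    exact h8 S (fun i => oG p (g i)) (fun i j => r i j - c i) (fun i _ => (hr i).2.2.1)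
  have hE : ∀ j j' : ℕ, p ^ 2 ∣ j + j' →
      (fun j => ∏ i ∈ S, (fun i j => r i j - c i) i j) j =
        (fun j => ∏ i ∈ S, (fun i j => r i j - c i) i j) j' := by
    intro j j' hj
    apply Finset.prod_congr rfl
    intro i _
    show r i j - c i = r i j' - c i
    rw [(hr i).2.2.2.1 j j' hj]
  have key := ordF_trace p q n hp hq hn hpn ζ hζ _ _ hprod hE
  have heq : ∀ j : Fin n, (∏ i ∈ S, (if p ∣ (j : ℕ) + 1 then 0 else r i ((j : ℕ) + 1) - c i)) =
      (if p ∣ (j : ℕ) + 1 then 0 else ∏ i ∈ S, (r i ((j : ℕ) + 1) - c i)) := by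
    intro j
    by_cases hj : p ∣ (j : ℕ) + 1
    · rw [if_pos hj]
      obtain ⟨i, hi⟩ := hS
      exact Finset.prod_eq_zero hi (if_pos hj)
    · rw [if_neg hj]
      apply Finset.prod_congr rfl
      intro i _
      rw [if_neg hj]
  rw [Finset.sum_congr rfl (fun j _ => heq j)]
  exact key


end Pool.Agent.Helper805_nf
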