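import Mathlib
import Pool.Agent.Helper805_nf.Defs4
import Pool.Agent.Helper805_nf.Z9

set_option autoImplicit false

namespace Pool.Agent.Helper805_nf

open Finset




theorem z11a_arith (p q x Y b0 : ℕ) (hp0 : 2 ≤ p) (hq1 : 1 ≤ q) (h : x + Y + b0 = p * q - 1 + q)
    (hb : b0 ≤ q) : q - 1 ≤ x / p + Y / p ∧ (b0 = 0 → Y % p < q → q ≤ x / p + Y / p) := by
  have hx := Nat.div_add_mod x p
  have hY := Nat.div_add_mod Y p
  have hx0 := Nat.mod_lt x (show 0 < p by omega)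
  have hY0 := Nat.mod_lt Y (show 0 < p by omega)
  generalize x / p = x1 at *
  generalize Y / p = Y1 at *
  generalize x % p = x0 at *
  generalize Y % p = Y0 at *
  have hpq : p ≤ p * q := Nat.le_mul_of_pos_right p hq1
  constructor
  · by_contra hcon
    have h1 : x1 + Y1 + 2 ≤ q := by omega
    have h2 : p * x1 + p * Y1 + 2 * p ≤ p * q := by
      have h3 := Nat.mul_le_mul_left p h1
      rw [Nat.mul_add, Nat.mul_add] at h3
      omega
    omega
  · intro hb0 hYq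
    by_contra hcon
    have h1 : x1 + Y1 + 1 ≤ q := by omega
    have h2 : p * x1 + p * Y1 + p ≤ p * q := by
      have h3 := Nat.mul_le_mul_left p h1
      rw [Nat.mul_add, Nat.mul_add] at h3
      omega
    omega

theorem fact_total {K : Type*} [NormedField K] [IsUltrametricDist K] (p q : ℕ) (hp : p.Prime)
    (hq : p = 2 * q + 1) (hpn : ‖(p : K)‖ = (p : ℝ)⁻¹) (x Y b0 : ℕ) (h : x + Y + b0 = p * q - 1 + q)
    (hb : b0 ≤ q) :
    ‖(x.factorial : K)‖ * ‖(Y.factorial : K)‖ ≤ ‖((p * q - 1).factorial : K)‖ ∧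
    (b0 = 0 → Y % p < q →
      ‖(x.factorial : K)‖ * ‖(Y.factorial : K)‖ ≤ (p : ℝ)⁻¹ * ‖((p * q - 1).factorial : K)‖) := by
  have hp2 := hp.two_le
  have hq1 : 1 ≤ q := by
    rcases Nat.eq_zero_or_pos q with h1 | h1
    · rw [h1] at hq
      omega
    · exact h1
  obtain ⟨hfb, -⟩ := fact_block (K := K) p hp hpn
  have hsq : p ^ 2 = 2 * (p * q) + p := by
    rw [sq]
    nth_rewrite 2 [hq]
    ring
  have hpq : p ≤ p * q := Nat.le_mul_of_pos_right p hq1
  have hqp : q ≤ p := by omega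
  have hx : x < p ^ 2 := by omega
  have hY : Y < p ^ 2 := by omega
  have hpq' : p * q - 1 < p ^ 2 := by omega
  rw [hfb x hx, hfb Y hY, hfb _ hpq', ← pow_add, ← pow_succ']
  have hdiv : (p * q - 1) / p = q - 1 := by
    obtain ⟨t, rfl⟩ : ∃ t, q = t + 1 := ⟨q - 1, by omega⟩
    have h1 : p * (t + 1) - 1 = (p - 1) + p * t := by
      rw [Nat.mul_add]
      omega
    rw [h1, Nat.add_mul_div_left _ _ (by omega : 0 < p), Nat.div_eq_of_lt (by omega)]
    omega
  rw [hdiv]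
  obtain ⟨h1, h2⟩ := z11a_arith p q x Y b0 hp2 hq1 h hb
  have hinv0 : (0 : ℝ) ≤ (p : ℝ)⁻¹ := by positivity
  have hinv1 : (p : ℝ)⁻¹ ≤ 1 := by
    refine inv_le_one_of_one_le₀ ?_
    exact_mod_cast (by omega : 1 ≤ p)
  refine ⟨pow_le_pow_of_le_one hinv0 hinv1 h1, fun hb0 hYq => ?_⟩
  refine pow_le_pow_of_le_one hinv0 hinv1 ?_
  have := h2 hb0 hYq
  omega

end Pool.Agent.Helper805_nf
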