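import Mathlib
import Pool.Agent.Helper805_nf.Defs4
import Pool.Agent.Helper805_nf.Z11a

set_option autoImplicit false

namespace Pool.Agent.Helper805_nf

open Finset





theorem z11b_oG (p g : ℕ) : (p - 1) * g ≤ oG p g := by
  unfold oG
  split_ifs with h
  · subst h; simp
  · have h1 : 1 ≤ g := Nat.one_le_iff_ne_zero.2 h
    rw [Nat.sub_mul, one_mul]
    omega

theorem z11b_prod {K : Type*} [NormedField K] {m : ℕ} (p : ℕ) (t : ℝ) (ht0 : 0 < t) (ht1 : t < 1)
    (gg : Fin m → K) (g : Fin m → ℕ) (hgg : ∀ i, ‖gg i‖ ≤ t ^ oG p (g i)) (A1 : Finset (Fin m)) :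
    ‖∏ i ∈ A1, gg i‖ ≤ (t ^ (p - 1)) ^ (∑ i ∈ A1, g i) := by
  rw [norm_prod, ← Finset.prod_pow_eq_pow_sum]
  refine Finset.prod_le_prod (fun i _ => norm_nonneg _) fun i _ => (hgg i).trans ?_
  rw [← pow_mul]
  exact pow_le_pow_of_le_one ht0.le ht1.le (z11b_oG p (g i))

theorem z11b_sum {m : ℕ} (g : Fin m → ℕ) (D : ℕ) (hD : ∑ i, g i = D)
    (A1 A : Finset (Fin m)) (hd : Disjoint A1 A) (hsub : ∀ i, 1 ≤ g i → i ∈ A1 ∪ A) :
    ∑ i ∈ A1, g i + ∑ i ∈ A, g i = D := by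
  rw [← Finset.sum_union hd, ← hD]
  apply Finset.sum_subset (Finset.subset_univ _)
  intro i _ hi
  by_contra h
  exact hi (hsub i (Nat.one_le_iff_ne_zero.2 h))

theorem lb_term {K : Type*} [NormedField K] [IsUltrametricDist K] (p q m : ℕ) (hp : p.Prime)
    (hq : p = 2 * q + 1) (hpn : ‖(p : K)‖ = (p : ℝ)⁻¹) (t : ℝ) (ht0 : 0 < t) (ht1 : t < 1)
    (htp : t ^ (p * (p - 1)) = (p : ℝ)⁻¹) (hm : m = p * q - 1 + q) (gg : Fin m → K) (g : Fin m → ℕ)
    (J : Finset (Fin m) → K) (hgg : ∀ i, ‖gg i‖ ≤ t ^ oG p (g i)) (hN : NBound p q (t ^ (p - 1)) g J)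
    (D : ℕ) (hD : ∑ i, g i = D)
    (A1 A : Finset (Fin m)) (hd : Disjoint A1 A) (hsub : ∀ i, 1 ≤ g i → i ∈ A1 ∪ A)
    (hcard : A1.card + A.card ≤ p * q - 1) (b0 : ℕ) (hb0 : b0 ≤ q) :
    ‖((m - (b0 + A1.card + A.card)).factorial : K)‖ * t ^ (2 * p * b0) *
      ‖(A1.card.factorial : K) * (∏ i ∈ A1, gg i) * J A‖ ≤
        ‖((p * q - 1).factorial : K)‖ * t ^ ((p - 1) * D) := by
  have hp2 := hp.two_le
  have hq1 : 1 ≤ q := by omega
  have hpq : 1 ≤ p * q := Nat.mul_pos (by omega) (by omega)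
  have hpqp : p * q < p ^ 2 := by
    rw [sq]
    exact Nat.mul_lt_mul_of_pos_left (by omega) (by omega)
  have hsum := z11b_sum g D hD A1 A hd hsub
  have hprod := z11b_prod p t ht0 ht1 gg g hgg A1
  set τ : ℝ := t ^ (p - 1) with hτ
  have hτ0 : 0 < τ := pow_pos ht0 _
  have hx : (m - (b0 + A1.card + A.card)) + (A1.card + A.card) + b0 = p * q - 1 + q := by omega
  set x := m - (b0 + A1.card + A.card) with hxdef
  obtain ⟨f1, f2⟩ := fact_total (K := K) p q hp hq hpn x (A1.card + A.card) b0 hx hb0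
  obtain ⟨n1, n2, -, -⟩ := hN A1.card A (by omega)
  have hgoal : ‖((p * q - 1).factorial : K)‖ * t ^ ((p - 1) * D) =
      (‖((p * q - 1).factorial : K)‖ * τ ^ (∑ i ∈ A, g i)) * τ ^ (∑ i ∈ A1, g i) := by
    rw [pow_mul, ← hτ, ← hsum, pow_add]
    ring
  have hnorm : ‖(A1.card.factorial : K) * (∏ i ∈ A1, gg i) * J A‖ =
      ‖(A1.card.factorial : K) * J A‖ * ‖∏ i ∈ A1, gg i‖ := by
    rw [← norm_mul]
    congr 1
    ring
  rw [hgoal, hnorm, ← mul_assoc]
  have hS0 : 0 ≤ τ ^ (∑ i ∈ A, g i) := pow_nonneg hτ0.le _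
  have key : ‖(x.factorial : K)‖ * t ^ (2 * p * b0) * ‖(A1.card.factorial : K) * J A‖ ≤
      ‖((p * q - 1).factorial : K)‖ * τ ^ (∑ i ∈ A, g i) := by
    rcases Nat.eq_zero_or_pos b0 with hb | hb
    · subst hb
      rw [Nat.mul_zero, pow_zero, mul_one]
      by_cases hY : (A1.card + A.card) % p < q
      · have h1 := f2 rfl hY
        have h2 : (p : ℝ)⁻¹ ≤ τ := by
          rw [← htp, hτ]
          exact pow_le_pow_of_le_one ht0.le ht1.le (Nat.le_mul_of_pos_left _ (by omega))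
        have h3 : ‖(x.factorial : K)‖ * ‖(A1.card.factorial : K) * J A‖ * τ ≤
            ‖((p * q - 1).factorial : K)‖ * τ ^ (∑ i ∈ A, g i) * τ := by
          calc ‖(x.factorial : K)‖ * ‖(A1.card.factorial : K) * J A‖ * τ
              = ‖(x.factorial : K)‖ * (‖(A1.card.factorial : K) * J A‖ * τ) := by ring
            _ ≤ ‖(x.factorial : K)‖ * (‖((A1.card + A.card).factorial : K)‖ *
                  τ ^ (∑ i ∈ A, g i)) := mul_le_mul_of_nonneg_left n1 (norm_nonneg _)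
            _ = (‖(x.factorial : K)‖ * ‖((A1.card + A.card).factorial : K)‖) *
                  τ ^ (∑ i ∈ A, g i) := by ring
            _ ≤ ((p : ℝ)⁻¹ * ‖((p * q - 1).factorial : K)‖) * τ ^ (∑ i ∈ A, g i) :=
                mul_le_mul_of_nonneg_right h1 hS0
            _ ≤ (τ * ‖((p * q - 1).factorial : K)‖) * τ ^ (∑ i ∈ A, g i) :=
                mul_le_mul_of_nonneg_right (mul_le_mul_of_nonneg_right h2 (norm_nonneg _)) hS0
            _ = _ := by ring
        exact le_of_mul_le_mul_right h3 hτ0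
      · have h1 : ¬ (A1.card % p = p - 1 ∧ (A1.card + A.card) % p = 0) := by
          rintro ⟨-, h⟩
          omega
        have h2 := n2 h1
        calc ‖(x.factorial : K)‖ * ‖(A1.card.factorial : K) * J A‖
            ≤ ‖(x.factorial : K)‖ * (‖((A1.card + A.card).factorial : K)‖ *
                τ ^ (∑ i ∈ A, g i)) := mul_le_mul_of_nonneg_left h2 (norm_nonneg _)
          _ = (‖(x.factorial : K)‖ * ‖((A1.card + A.card).factorial : K)‖) *
                τ ^ (∑ i ∈ A, g i) := by ring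
          _ ≤ _ := mul_le_mul_of_nonneg_right f1 hS0
    · have h2 : t ^ (2 * p * b0) ≤ τ := by
        rw [hτ]
        refine pow_le_pow_of_le_one ht0.le ht1.le ?_
        have : 2 * p * 1 ≤ 2 * p * b0 := Nat.mul_le_mul_left _ hb
        omega
      calc ‖(x.factorial : K)‖ * t ^ (2 * p * b0) * ‖(A1.card.factorial : K) * J A‖
          ≤ ‖(x.factorial : K)‖ * τ * ‖(A1.card.factorial : K) * J A‖ :=
            mul_le_mul_of_nonneg_right (mul_le_mul_of_nonneg_left h2 (norm_nonneg _))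
              (norm_nonneg _)
        _ = ‖(x.factorial : K)‖ * (‖(A1.card.factorial : K) * J A‖ * τ) := by ring
        _ ≤ ‖(x.factorial : K)‖ * (‖((A1.card + A.card).factorial : K)‖ *
              τ ^ (∑ i ∈ A, g i)) := mul_le_mul_of_nonneg_left n1 (norm_nonneg _)
        _ = (‖(x.factorial : K)‖ * ‖((A1.card + A.card).factorial : K)‖) *
              τ ^ (∑ i ∈ A, g i) := by ring
        _ ≤ _ := mul_le_mul_of_nonneg_right f1 hS0
  exact mul_le_mul key hprod (norm_nonneg _) (mul_nonneg (norm_nonneg _) hS0)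

end Pool.Agent.Helper805_nf
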