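import Mathlib
import Pool.Agent.Helper805_nf.Defs4
import Pool.Agent.Helper805_nf.Z11b

set_option autoImplicit false

namespace Pool.Agent.Helper805_nf

open Finset






theorem lb_total {K : Type*} [NormedField K] [IsUltrametricDist K] (p q m : ℕ) (hp : p.Prime)
    (hq : p = 2 * q + 1) (hpn : ‖(p : K)‖ = (p : ℝ)⁻¹) (t : ℝ) (ht0 : 0 < t) (ht1 : t < 1)
    (htp : t ^ (p * (p - 1)) = (p : ℝ)⁻¹) (hm : m = p * q - 1 + q) (c gg : Fin m → K) (g : Fin m → ℕ)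
    (G J : Finset (Fin m) → K) (hc : ∀ i, ‖c i‖ ≤ 1) (hcg : ∀ i, 1 ≤ g i → c i = 0)
    (hgg : ∀ i, ‖gg i‖ ≤ t ^ oG p (g i)) (hG : ∀ B, ‖G B‖ ≤ t ^ (2 * p * B.card))
    (hGg : ∀ B, ∀ i ∈ B, 1 ≤ g i → G B = 0) (hGc : ∀ B : Finset (Fin m), q < B.card → G B = 0)
    (hN : NBound p q (t ^ (p - 1)) g J) (hzero : ∀ E : Finset (Fin m), p * q - 1 < E.card → delSum gg J E = 0)
    (D : ℕ) (hD : ∑ i, g i = D) :
    ‖∑ B : Finset (Fin m), ((m - B.card).factorial : K) * (∏ i ∈ Bᶜ, c i) *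
      ∑ B0 ∈ B.powerset, G B0 * delSum gg J (B \ B0)‖ ≤
        ‖((p * q - 1).factorial : K)‖ * t ^ ((p - 1) * D) := by
  have hR : 0 ≤ ‖((p * q - 1).factorial : K)‖ * t ^ ((p - 1) * D) :=
    mul_nonneg (norm_nonneg _) (pow_nonneg ht0.le _)
  refine IsUltrametricDist.norm_sum_le_of_forall_le_of_nonneg hR fun B _ => ?_
  rw [Finset.mul_sum]
  refine IsUltrametricDist.norm_sum_le_of_forall_le_of_nonneg hR fun B0 hB0 => ?_
  rw [Finset.mem_powerset] at hB0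
  by_cases hE : p * q - 1 < (B \ B0).card
  · rw [hzero _ hE, mul_zero, mul_zero, norm_zero]
    exact hR
  unfold delSum
  rw [Finset.mul_sum, Finset.mul_sum]
  refine IsUltrametricDist.norm_sum_le_of_forall_le_of_nonneg hR fun A1 hA1 => ?_
  rw [Finset.mem_powerset] at hA1
  by_cases h1 : ∀ i, 1 ≤ g i → i ∈ B
  swap
  · push Not at h1
    obtain ⟨i, hi, hiB⟩ := h1
    rw [Finset.prod_eq_zero (Finset.mem_compl.2 hiB) (hcg i hi), mul_zero, zero_mul, norm_zero]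
    exact hR
  by_cases h2 : ∃ i ∈ B0, 1 ≤ g i
  · obtain ⟨i, hi, hgi⟩ := h2
    rw [hGg B0 i hi hgi, zero_mul, mul_zero, norm_zero]
    exact hR
  by_cases h3 : q < B0.card
  · rw [hGc B0 h3, zero_mul, mul_zero, norm_zero]
    exact hR
  have hcardE : (B \ B0).card = B.card - B0.card := Finset.card_sdiff_of_subset hB0
  have hcardA : ((B \ B0) \ A1).card = (B \ B0).card - A1.card := Finset.card_sdiff_of_subset hA1
  have hle1 : B0.card ≤ B.card := Finset.card_le_card hB0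
  have hle2 : A1.card ≤ (B \ B0).card := Finset.card_le_card hA1
  have hB : B.card = B0.card + A1.card + ((B \ B0) \ A1).card := by omega
  have hsub : ∀ i, 1 ≤ g i → i ∈ A1 ∪ ((B \ B0) \ A1) := by
    intro i hi
    rw [Finset.union_sdiff_of_subset hA1, Finset.mem_sdiff]
    exact ⟨h1 i hi, fun h => h2 ⟨i, h, hi⟩⟩
  have key := lb_term p q m hp hq hpn t ht0 ht1 htp hm gg g J hgg hN D hD A1 ((B \ B0) \ A1)
    Finset.disjoint_sdiff hsub (by omega) B0.card (by omega)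
  rw [← hB] at key
  refine le_trans ?_ key
  have hprod : ‖∏ i ∈ Bᶜ, c i‖ ≤ 1 := by
    rw [norm_prod]
    exact Finset.prod_le_one (fun i _ => norm_nonneg _) fun i _ => hc i
  have hsign : ‖((-1 : K) ^ A1.card)‖ = 1 := by
    rw [norm_pow, norm_neg, norm_one, one_pow]
  have heq : ((m - B.card).factorial : K) * (∏ i ∈ Bᶜ, c i) * (G B0 *
      ((-1 : K) ^ A1.card * (A1.card.factorial : K) * (∏ i ∈ A1, gg i) * J ((B \ B0) \ A1))) =
      (((-1 : K) ^ A1.card * (∏ i ∈ Bᶜ, c i)) * (((m - B.card).factorial : K) * G B0)) *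
        ((A1.card.factorial : K) * (∏ i ∈ A1, gg i) * J ((B \ B0) \ A1)) := by ring
  rw [heq, norm_mul]
  refine mul_le_mul_of_nonneg_right ?_ (norm_nonneg _)
  rw [norm_mul, norm_mul, norm_mul, hsign, one_mul]
  calc ‖∏ i ∈ Bᶜ, c i‖ * (‖((m - B.card).factorial : K)‖ * ‖G B0‖)
      ≤ 1 * (‖((m - B.card).factorial : K)‖ * ‖G B0‖) :=
        mul_le_mul_of_nonneg_right hprod (mul_nonneg (norm_nonneg _) (norm_nonneg _))
    _ = ‖((m - B.card).factorial : K)‖ * ‖G B0‖ := one_mul _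
    _ ≤ ‖((m - B.card).factorial : K)‖ * t ^ (2 * p * B0.card) :=
        mul_le_mul_of_nonneg_left (hG B0) (norm_nonneg _)

end Pool.Agent.Helper805_nf
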