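import Mathlib
import Pool.Agent.Helper805_nf.Defs4
import Pool.Agent.Helper805_nf.Y11
import Pool.Agent.Helper805_nf.Y8

set_option autoImplicit false

namespace Pool.Agent.Helper805_nf

open Finset











lemma z11d_card (p q n : ℕ) (hq : p = 2 * q + 1) (hn : n = p * q + q) (hq1 : 1 ≤ q) :
    (univ.filter (fun j : Fin n => p ∣ (j : ℕ) + 1)).card = q := by
  have h1 : ((univ.filter (fun j : Fin n => p ∣ (j : ℕ) + 1)).map Fin.valEmbedding) =
      (range n).filter (fun j => p ∣ j + 1) := by
    ext x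
    simp only [mem_map, mem_filter, mem_univ, true_and, Fin.valEmbedding_apply, mem_range]
    constructor
    · rintro ⟨y, hy, rfl⟩
      exact ⟨y.2, hy⟩
    · rintro ⟨hx, hd⟩
      exact ⟨⟨x, hx⟩, hd, rfl⟩
  rw [← card_map Fin.valEmbedding, h1, Nat.card_multiples, hn]
  have hp : 0 < p := by omega
  rw [Nat.mul_add_div hp, Nat.div_eq_of_lt (by omega)]
  rfl

lemma z11d_eval {K : Type*} [NormedField K] [IsUltrametricDist K] (Q : Polynomial K) (hQ : ∀ k, ‖Q.coeff k‖ ≤ 1)
    (ζ : K) (hζ : ‖ζ‖ = 1) : ‖Q.eval ζ‖ ≤ 1 := by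
  rw [Polynomial.eval_eq_sum_range]
  refine IsUltrametricDist.norm_sum_le_of_forall_le_of_nonneg zero_le_one fun i _ => ?_
  rw [norm_mul, norm_pow, hζ, one_pow, mul_one]
  exact hQ i

theorem perT_expand {K : Type*} [NormedField K] [IsUltrametricDist K] (p q n m : ℕ) (hp : p.Prime)
    (hq : p = 2 * q + 1) (hn : n = p * q + q) (hm : m = p * q - 1 + q) (ζ : K) (t : ℝ) (ht0 : 0 < t)
    (h1 : ∀ j : ℕ, ¬ p ∣ j → ‖ζ ^ j - 1‖ = t) (r : Fin m → ℕ → K) (c : Fin m → K)
    (g : Fin m → ℕ) (hr : ∀ i, RowOK p ζ t (g i) (c i) (r i)) (hζ : ‖ζ‖ = 1) :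
    ∃ G : Finset (Fin m) → K,
      (∀ B, ‖G B‖ ≤ t ^ (2 * p * B.card)) ∧ (∀ B, ∀ i ∈ B, 1 ≤ g i → G B = 0) ∧
      (∀ B : Finset (Fin m), q < B.card → G B = 0) ∧ G ∅ = 1 ∧
      (∀ i, ‖r i 1 - c i‖ ≤ t ^ oG p (g i)) ∧
      (∀ E : Finset (Fin m), p * q - 1 < E.card →
        delSum (fun i => r i 1 - c i)
          (injSum (fun (i : Fin m) (j : Fin n) => if p ∣ (j : ℕ) + 1 then 0 else r i ((j : ℕ) + 1) - c i)) E = 0) ∧
      perT r = ∑ B : Finset (Fin m), ((m - B.card).factorial : K) * (∏ i ∈ Bᶜ, c i) *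
        ∑ B0 ∈ B.powerset, G B0 * delSum (fun i => r i 1 - c i)
          (injSum (fun (i : Fin m) (j : Fin n) => if p ∣ (j : ℕ) + 1 then 0 else r i ((j : ℕ) + 1) - c i)) (B \ B0) := by
  have hq1 : 1 ≤ q := by
    rcases Nat.eq_zero_or_pos q with h | h
    · exfalso
      rw [h] at hq
      simp at hq
      exact hp.ne_one hq
    · exact h
  have hpq : 1 ≤ p * q := Nat.one_le_iff_ne_zero.mpr (Nat.mul_ne_zero hp.ne_zero (by omega))
  have hnm : n = m + 1 := by omega
  have hp3 : 3 ≤ p := by omega
  have hnp : n < p ^ 2 := by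
    rw [hn]
    have : p ^ 2 = p * q + (p * q + p) := by
      rw [pow_two]
      conv_lhs => rw [hq]
      rw [hq]
      ring
    rw [this]
    have : q ≤ p * q := Nat.le_mul_of_pos_left q (by omega)
    omega
  set f : Fin m → Fin n → K := fun i j => r i ((j : ℕ) + 1) - c i with hf
  set C1 : Finset (Fin n) := univ.filter (fun j : Fin n => ¬ p ∣ (j : ℕ) + 1) with hC1
  set C0 : Finset (Fin n) := univ.filter (fun j : Fin n => p ∣ (j : ℕ) + 1) with hC0
  have hc0 : C0.card = q := z11d_card p q n hq hn hq1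
  have hc1 : C1.card = p * q := by
    have h2 : C0.card + C1.card = n := by
      have := Finset.card_filter_add_card_filter_not (s := (univ : Finset (Fin n))) (fun j : Fin n => p ∣ (j : ℕ) + 1)
      rw [card_univ, Fintype.card_fin] at this
      exact this
    omega
  let j0 : Fin n := ⟨0, by omega⟩
  have hj0 : j0 ∈ C1 := by
    simp only [hC1, mem_filter, mem_univ, true_and, j0]
    intro h
    have := Nat.le_of_dvd (by norm_num) h
    omega
  have hdis : Disjoint C1 C0 := by
    rw [Finset.disjoint_left]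
    intro x hx hx'
    simp only [hC1, mem_filter, mem_univ, true_and] at hx
    simp only [hC0, mem_filter, mem_univ, true_and] at hx'
    exact hx hx'
  let κ : Fin m → Fin n := fun i => ⟨(i : ℕ) + 1, by omega⟩
  have hκ : Function.Injective κ := by
    intro x y hxy
    simp only [κ, Fin.mk.injEq] at hxy
    exact Fin.ext (by omega)
  have hκi : Finset.univ.image κ = C1.erase j0 ∪ C0 := by
    ext j
    simp only [mem_image, mem_univ, true_and, mem_union, mem_erase]
    constructor
    · rintro ⟨i, rfl⟩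
      by_cases hd : p ∣ ((κ i : Fin n) : ℕ) + 1
      · right
        simp only [hC0, mem_filter, mem_univ, true_and]
        exact hd
      · left
        refine ⟨?_, ?_⟩
        · intro h
          have := congrArg Fin.val h
          simp [κ, j0] at this
        · simp only [hC1, mem_filter, mem_univ, true_and]
          exact hd
    · intro h
      have hj : (j : ℕ) ≠ 0 := by
        rcases h with ⟨h, _⟩ | h
        · intro h0
          exact h (Fin.ext h0)
        · simp only [hC0, mem_filter, mem_univ, true_and] at h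
          intro h0
          rw [h0] at h
          have := Nat.le_of_dvd (by norm_num) h
          omega
      have hj2 := j.2
      exact ⟨⟨(j : ℕ) - 1, by omega⟩, Fin.ext (by simp only [κ]; omega)⟩
  obtain ⟨key, hz⟩ := permSum_full m n f c C1 C0 j0 hj0 hdis κ hκ hκi
  have hsame : (fun (i : Fin m) (j : Fin n) => if j ∈ C1 then f i j else 0) =
      (fun (i : Fin m) (j : Fin n) => if p ∣ (j : ℕ) + 1 then 0 else r i ((j : ℕ) + 1) - c i) := by
    funext i j
    by_cases hd : p ∣ (j : ℕ) + 1
    · rw [if_neg (by simp only [hC1, mem_filter, mem_univ, true_and, not_not]; exact hd), if_pos hd]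
    · rw [if_pos (by simp only [hC1, mem_filter, mem_univ, true_and]; exact hd), if_neg hd]
  have hg1 : (fun i => f i j0) = (fun i => r i 1 - c i) := by
    funext i
    simp [hf, j0]
  rw [hsame, hg1] at hz key
  refine ⟨fun B => injSum (fun i j => if j ∈ C0 then f i j else 0) B, ?_, ?_, ?_, ?_, ?_, ?_, ?_⟩
  · intro B
    rw [pow_mul]
    apply (injSum_small _ B).1 (t ^ (2 * p)) (by positivity)
    intro i _ j
    by_cases hj : j ∈ C0
    · rw [if_pos hj]
      simp only [hC0, mem_filter, mem_univ, true_and] at hj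
      have hnd : ¬ p ^ 2 ∣ (j : ℕ) + 1 := by
        intro h
        have := Nat.le_of_dvd (by omega) h
        have := j.2
        omega
      exact ((hr i).2.2.2.2 _ hj hnd).1
    · rw [if_neg hj, norm_zero]
      positivity
  · intro B i hi hgi
    apply (injSum_small _ B).2.2.1 i hi
    intro j
    by_cases hj : j ∈ C0
    · rw [if_pos hj]
      simp only [hC0, mem_filter, mem_univ, true_and] at hj
      have hnd : ¬ p ^ 2 ∣ (j : ℕ) + 1 := by
        intro h
        have := Nat.le_of_dvd (by omega) h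
        have := j.2
        omega
      rw [hf]
      simp only
      rw [((hr i).2.2.2.2 _ hj hnd).2 hgi, (hr i).2.1 hgi, sub_zero]
    · rw [if_neg hj]
  · intro B hB
    apply (injSum_small _ B).2.1 C0
    · intro i _ j hj
      rw [if_neg hj]
    · omega
  · exact (injSum_small _ ∅).2.2.2 rfl
  · intro i
    obtain ⟨Q, hQ, hQ2⟩ := (hr i).2.2.1
    have h3 : ¬ p ∣ 1 := by
      intro h
      have := Nat.le_of_dvd (by norm_num) h
      omega
    have h4 := hQ2 1 h3
    simp only at h4
    rw [h4, norm_mul, norm_pow, h1 1 h3, pow_one]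
    exact mul_le_of_le_one_right (by positivity) (z11d_eval Q hQ ζ hζ)
  · intro E hE
    apply hz
    omega
  · rw [← key]
    unfold perT
    refine Finset.sum_congr rfl fun π _ => Finset.prod_congr rfl fun i _ => ?_
    simp only [hf, κ]
    ring_nf



end Pool.Agent.Helper805_nf
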