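import Mathlib
import Pool.Agent.Helper805_nf.Defs4
import Pool.Agent.Helper805_nf.Y1
import Pool.Agent.Helper805_nf.Z10
import Pool.Agent.Helper805_nf.Z10c
import Pool.Agent.Helper805_nf.Z11c
import Pool.Agent.Helper805_nf.Z11d

set_option autoImplicit false

namespace Pool.Agent.Helper805_nf

open Finset















theorem perT_le {K : Type*} [NormedField K] [IsUltrametricDist K] (p q m : ℕ) (hp : p.Prime)
    (hq : p = 2 * q + 1) (hpn : ‖(p : K)‖ = (p : ℝ)⁻¹) (ζ : K) (hζ : IsPrimitiveRoot ζ (p ^ 2)) (t : ℝ)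
    (ht0 : 0 < t) (ht1 : t < 1) (htp : t ^ (p * (p - 1)) = (p : ℝ)⁻¹)
    (h1 : ∀ j : ℕ, ¬ p ∣ j → ‖ζ ^ j - 1‖ = t) (hm : m = p * q - 1 + q) (r : Fin m → ℕ → K) (c : Fin m → K)
    (g : Fin m → ℕ) (hr : ∀ i, RowOK p ζ t (g i) (c i) (r i)) (D : ℕ)
    (hD : ∑ i, g i = D) :
    ‖perT r‖ ≤ ‖((p * q - 1).factorial : K)‖ * t ^ ((p - 1) * D) := by
  have hp2 : 2 ≤ p := hp.two_le
  have hζ1 : ‖ζ‖ = 1 := by
    have h : ζ ^ (p ^ 2) = 1 := hζ.pow_eq_one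
    have h2 : ‖ζ‖ ^ (p ^ 2) = 1 := by rw [← norm_pow, h, norm_one]
    exact (pow_eq_one_iff_of_nonneg (norm_nonneg ζ) (by positivity)).1 h2
  obtain ⟨G, hG, hGg, hGc, -, hgg, hzero, hexp⟩ :=
    perT_expand p q (p * q + q) m hp hq rfl hm ζ t ht0 h1 r c g hr hζ1
  rw [hexp]
  have hτ0 : 0 < t ^ (p - 1) := pow_pos ht0 _
  have hτ1 : t ^ (p - 1) < 1 := pow_lt_one₀ ht0.le ht1 (by omega)
  have hτ : (t ^ (p - 1)) ^ p = (p : ℝ)⁻¹ := by
    rw [← pow_mul, mul_comm, htp]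
  have hN : NBound p q (t ^ (p - 1)) g
      (injSum (fun (i : Fin m) (j : Fin (p * q + q)) =>
        if p ∣ (j : ℕ) + 1 then 0 else r i ((j : ℕ) + 1) - c i)) :=
    lemma_N p q hp hq hpn (t ^ (p - 1)) hτ0 hτ1 hτ _ g
      (fun S hS => row_sums p q (p * q + q) hp hq rfl hpn ζ hζ t r c g hr S hS)
  exact lb_total p q m hp hq hpn t ht0 ht1 htp hm c (fun i => r i 1 - c i) g G _
    (fun i => (hr i).1) (fun i => (hr i).2.1) hgg hG hGg hGc hN hzero D hD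


end Pool.Agent.Helper805_nf
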