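import Mathlib
import Pool.Agent.Helper805_nf.Defs4

set_option autoImplicit false

namespace Pool.Agent.Helper805_nf

open Finset


/-- transport of the sum over injections along a bijection of the labels which preserves the rows -/
theorem z12a_transport {R : Type*} [CommRing R] {ι κ : Type*} [DecidableEq ι] [Fintype κ]
    [DecidableEq κ] (f : ι → κ → R) (A A' : Finset ι) (e : A ≃ A')
    (he : ∀ i : A, f (e i : ι) = f (i : ι)) : injSum f A = injSum f A' := by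
  unfold injSum
  refine Fintype.sum_equiv (Equiv.embeddingCongr e (Equiv.refl κ)) _ _ fun g => ?_
  refine Fintype.prod_equiv e _ _ fun i => ?_
  rw [he i]
  simp [Equiv.embeddingCongr]

/-- the bijection -/
theorem z12a_equiv {ι : Type*} [DecidableEq ι] (H A A' : Finset ι) (h1 : A \ H = A' \ H)
    (h2 : (A ∩ H).card = (A' ∩ H).card) :
    ∃ e : A ≃ A', ∀ i : A, ((i : ι) ∉ H ∧ (e i : ι) = i) ∨ ((i : ι) ∈ H ∧ (e i : ι) ∈ H) := by
  let e0 : {x // x ∈ A ∩ H} ≃ {x // x ∈ A' ∩ H} := Finset.equivOfCardEq h2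
  have k1 : ∀ i, i ∈ A → i ∉ H → i ∈ A' := by
    intro i hi hH
    have : i ∈ A' \ H := by
      rw [← h1]
      exact Finset.mem_sdiff.2 ⟨hi, hH⟩
    exact (Finset.mem_sdiff.1 this).1
  have k2 : ∀ i, i ∈ A' → i ∉ H → i ∈ A := by
    intro i hi hH
    have : i ∈ A \ H := by
      rw [h1]
      exact Finset.mem_sdiff.2 ⟨hi, hH⟩
    exact (Finset.mem_sdiff.1 this).1
  refine ⟨⟨fun i => if h : (i : ι) ∈ H then
      ⟨(e0 ⟨i, Finset.mem_inter.2 ⟨i.2, h⟩⟩ : ι), (Finset.mem_inter.1 (e0 _).2).1⟩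
      else ⟨i, k1 i i.2 h⟩,
    fun i => if h : (i : ι) ∈ H then
      ⟨(e0.symm ⟨i, Finset.mem_inter.2 ⟨i.2, h⟩⟩ : ι), (Finset.mem_inter.1 (e0.symm _).2).1⟩
      else ⟨i, k2 i i.2 h⟩, ?_, ?_⟩, ?_⟩
  · intro i
    by_cases h : (i : ι) ∈ H
    · have h3 : (e0 ⟨i, Finset.mem_inter.2 ⟨i.2, h⟩⟩ : ι) ∈ H := (Finset.mem_inter.1 (e0 _).2).2
      simp [h, h3]
    · simp [h]
  · intro i
    by_cases h : (i : ι) ∈ H
    · have h3 : (e0.symm ⟨i, Finset.mem_inter.2 ⟨i.2, h⟩⟩ : ι) ∈ H :=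
        (Finset.mem_inter.1 (e0.symm _).2).2
      simp [h, h3]
    · simp [h]
  · intro i
    by_cases h : (i : ι) ∈ H
    · right
      have h3 : (e0 ⟨i, Finset.mem_inter.2 ⟨i.2, h⟩⟩ : ι) ∈ H := (Finset.mem_inter.1 (e0 _).2).2
      simp [h, h3]
    · left
      simp [h]

theorem injSum_ident {R : Type*} [CommRing R] {m n : ℕ} (f : Fin m → Fin n → R) (H : Finset (Fin m))
    (φ : Fin n → R) (hφ : ∀ i ∈ H, f i = φ) (A A' : Finset (Fin m)) (h1 : A \ H = A' \ H)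
    (h2 : (A ∩ H).card = (A' ∩ H).card) : injSum f A = injSum f A' := by
  obtain ⟨e, he⟩ := z12a_equiv H A A' h1 h2
  refine z12a_transport f A A' e fun i => ?_
  rcases he i with ⟨-, h⟩ | ⟨h, h'⟩
  · rw [h]
  · rw [hφ _ h, hφ _ h']

end Pool.Agent.Helper805_nf
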