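import Mathlib
import Pool.Agent.Helper805_nf.Defs4

set_option autoImplicit false

namespace Pool.Agent.Helper805_nf

open Finset


theorem choose_lucas {K : Type*} [NormedField K] [IsUltrametricDist K] (p : ℕ) (hp : p.Prime)
    (hpn : ‖(p : K)‖ = (p : ℝ)⁻¹) (W a : ℕ) (h : W % p < a % p) : ‖(W.choose a : K)‖ ≤ (p : ℝ)⁻¹ := by
  haveI := Fact.mk hp
  have h1 : p ∣ W.choose a := by
    have h2 := Choose.choose_modEq_choose_mod_mul_choose_div_nat (n := W) (k := a) (p := p)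
    rw [Nat.choose_eq_zero_of_lt h, Nat.zero_mul] at h2
    exact (Nat.modEq_zero_iff_dvd).1 h2
  obtain ⟨k, hk⟩ := h1
  rw [hk, Nat.cast_mul, norm_mul, hpn]
  have h3 : ‖(k : K)‖ ≤ 1 := IsUltrametricDist.norm_natCast_le_one K k
  calc (p : ℝ)⁻¹ * ‖(k : K)‖ ≤ (p : ℝ)⁻¹ * 1 := mul_le_mul_of_nonneg_left h3 (by positivity)
    _ = (p : ℝ)⁻¹ := mul_one _

end Pool.Agent.Helper805_nf
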