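import Mathlib
import Pool.Agent.Helper805_nf.Defs4
import Pool.Agent.Helper805_nf.B2
import Pool.Agent.Helper805_nf.Y1
import Pool.Agent.Helper805_nf.Y8
import Pool.Agent.Helper805_nf.Z10
import Pool.Agent.Helper805_nf.Z12a
import Pool.Agent.Helper805_nf.Z12p
import Pool.Agent.Helper805_nf.Z8
import Pool.Agent.Helper805_nf.Z9

set_option autoImplicit false

namespace Pool.Agent.Helper805_nf

open Finset














theorem z12b_counts (p : ℕ) (hp : 1 ≤ p) {m : ℕ} (g : Fin m → ℕ) (S : Finset (Fin m)) :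
    (S.filter (fun i => g i = 0)).card + (S.filter (fun i => ¬ g i = 0)).card = S.card ∧
    (S.filter (fun i => ¬ g i = 0)).card ≤ ∑ i ∈ S, g i ∧
    (∑ i ∈ S, oG p (g i)) + (S.filter (fun i => ¬ g i = 0)).card =
      2 * (S.filter (fun i => g i = 0)).card + p * ∑ i ∈ S, g i := by
  refine ⟨Finset.card_filter_add_card_filter_not _, ?_, ?_⟩
  · rw [Finset.card_filter]
    apply Finset.sum_le_sum
    intro i _
    split_ifs with h
    · omega
    · omega
  · rw [Finset.card_filter, Finset.card_filter, Finset.mul_sum, Finset.mul_sum, ← Finset.sum_add_distrib,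
      ← Finset.sum_add_distrib]
    apply Finset.sum_congr rfl
    intro i _
    unfold oG
    by_cases h : g i = 0
    · simp [h]
    · have h1 : 1 ≤ p * g i := Nat.mul_pos (by omega) (by omega)
      simp only [h, if_false, not_false_eq_true, if_true]
      omega

theorem z12b_term {K : Type*} [NormedField K] [IsUltrametricDist K] (p q : ℕ) (hp : p.Prime)
    (hq : p = 2 * q + 1) (hpn : ‖(p : K)‖ = (p : ℝ)⁻¹) (τ : ℝ) (hτ0 : 0 < τ) (hτ1 : τ < 1)
    (hτ : τ ^ p = (p : ℝ)⁻¹) {m n : ℕ} (f : Fin m → Fin n → K) (g : Fin m → ℕ)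
    (hP : ∀ S : Finset (Fin m), S.Nonempty →
      ‖∑ j, ∏ i ∈ S, f i j‖ ≤ ((p : ℝ)⁻¹) ^ vO p (∑ i ∈ S, oG p (g i)))
    (H : Finset (Fin m)) (hgH : ∀ i ∈ H, g i = 1)
    (W D : ℕ) (hD : ∑ i ∈ Hᶜ, g i = D) (hwD : W % p + D < p)
    (y : ℕ) (A : Finset (Fin m)) (hy : y + A.card < p ^ 2) (hx : q ≤ (y + A.card) % p)
    (S : Finset (Fin m)) (hSA : S ⊆ A) (b : Fin m) (hbS : b ∈ S) (hbH : b ∉ H) :
    ‖(W.choose (S ∩ H).card : K)‖ * (‖((S.card - 1).factorial : K)‖ * ‖∑ j, ∏ i ∈ S, f i j‖ *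
      ‖(y.factorial : K) * injSum f (A \ S)‖) ≤
      ‖((y + A.card).factorial : K)‖ * τ ^ (∑ i ∈ A, g i + 1) := by
  have hq1 : 1 ≤ q := by
    rcases Nat.eq_zero_or_pos q with h | h
    · subst h
      exact absurd hp (by rw [hq]; norm_num)
    · exact h
  have hp3 : 3 ≤ p := by omega
  have hSne : S.Nonempty := ⟨b, hbS⟩
  have hs1 : 1 ≤ S.card := hSne.card_pos
  have hcardA : (A \ S).card + S.card = A.card := Finset.card_sdiff_add_card_eq_card hSA
  have hsumA : ∑ i ∈ A \ S, g i + ∑ i ∈ S, g i = ∑ i ∈ A, g i := Finset.sum_sdiff hSA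
  obtain ⟨N1, N2, -, -⟩ := lemma_N p q hp hq hpn τ hτ0 hτ1 hτ f g hP y (A \ S) (by omega)
  obtain ⟨c1, c2, c3⟩ := z12b_counts p (by omega) g S
  have hXs : y + (A \ S).card + S.card = y + A.card := by omega
  have hfb := (fact_block p hp hpn).2 (y + (A \ S).card) S.card hs1 (by omega)
  have hPS := hP S hSne
  rw [← hτ] at hfb
  rw [← hτ, ← pow_mul] at hPS
  have hba := block_arith p q (S.filter (fun i => g i = 0)).card (S.filter (fun i => ¬ g i = 0)).card
    (∑ i ∈ S, g i) (y + (A \ S).card) hq hq1 (by omega) c2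
    ((y + (A \ S).card + S.card) / p - (y + (A \ S).card) / p - (S.card - 1) / p)
    (∑ i ∈ S, oG p (g i)) (by rw [c1]) c3
  rw [c1] at hba
  obtain ⟨b0, b1, b2, b3, b4, b5⟩ := hba
  rw [hXs] at hfb b0 b1 b2 b3 b4 b5
  have hC1 : ‖(W.choose (S ∩ H).card : K)‖ ≤ 1 := (norm_nat_facts p hp hpn _).1
  have hC0 : 0 ≤ ‖(W.choose (S ∩ H).card : K)‖ := norm_nonneg _
  have hFs : 0 ≤ ‖((S.card - 1).factorial : K)‖ := norm_nonneg _
  have hFX : 0 ≤ ‖((y + (A \ S).card).factorial : K)‖ := norm_nonneg _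
  have hPn : 0 ≤ ‖∑ j, ∏ i ∈ S, f i j‖ := norm_nonneg _
  have hJn : 0 ≤ ‖(y.factorial : K) * injSum f (A \ S)‖ := norm_nonneg _
  set C := ‖(W.choose (S ∩ H).card : K)‖ with hCdef
  set Fs := ‖((S.card - 1).factorial : K)‖
  set FX := ‖((y + (A \ S).card).factorial : K)‖
  set FY := ‖((y + A.card).factorial : K)‖
  set P := ‖∑ j, ∏ i ∈ S, f i j‖
  set J := ‖(y.factorial : K) * injSum f (A \ S)‖
  set v := vO p (∑ i ∈ S, oG p (g i))
  set G := ∑ i ∈ S, g i with hG
  set g' := ∑ i ∈ A \ S, g i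
  rw [← hsumA]
  rcases b0 with hk | hk
  · -- κ = 0
    rw [hk, pow_zero, mul_one] at hfb
    have h1 := b1 hk
    have h2 : P ≤ τ ^ (G + 2) := hPS.trans (pow_le_pow_of_le_one hτ0.le hτ1.le (by omega))
    calc C * (Fs * P * J) ≤ 1 * (Fs * P * J) := by
          apply mul_le_mul_of_nonneg_right hC1 (by positivity)
      _ = Fs * J * P := by ring
      _ ≤ Fs * J * τ ^ (G + 2) := by
          apply mul_le_mul_of_nonneg_left h2 (by positivity)
      _ = Fs * τ ^ (G + 1) * (J * τ) := by ring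
      _ ≤ Fs * τ ^ (G + 1) * (FX * τ ^ g') := by
          apply mul_le_mul_of_nonneg_left N1 (by positivity)
      _ = (Fs * FX) * τ ^ (g' + G + 1) := by ring
      _ = FY * τ ^ (g' + G + 1) := by rw [hfb]
  · -- κ = 1
    rw [hk, pow_one] at hfb
    have h1 := b2 hk
    have h5 := b5 hk
    have hX0 : (y + (A \ S).card) % p ≠ 0 := by omega
    have hJ := N2 (fun h => hX0 h.2)
    have h3 : ¬ (p * v + 1 = p + G) := by
      intro h
      have := (b3 hk h).2
      omega
    by_cases h6 : p * v = p + G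
    · -- the boundary case
      obtain ⟨hdvd, hlt⟩ := b4 hk h6
      have hsG : S.card ≤ G := by
        by_contra hcon
        have := hlt (by omega)
        omega
      -- G = a' + D_S
      have hsplit : G = (S ∩ H).card + ∑ i ∈ S \ H, g i := by
        have e1 : ∑ i ∈ S ∩ H, g i + ∑ i ∈ S \ H, g i = ∑ i ∈ S, g i := Finset.sum_inter_add_sum_sdiff S H g
        have e2 : ∑ i ∈ S ∩ H, g i = (S ∩ H).card := by
          rw [Finset.card_eq_sum_ones]
          apply Finset.sum_congr rfl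
          intro i hi
          exact hgH i (Finset.mem_inter.1 hi).2
        omega
      have hcs : (S ∩ H).card + (S \ H).card = S.card := Finset.card_inter_add_card_sdiff S H
      have hbmem : b ∈ S \ H := Finset.mem_sdiff.2 ⟨hbS, hbH⟩
      have hpos : 1 ≤ (S \ H).card := Finset.card_pos.2 ⟨b, hbmem⟩
      have hDS : ∑ i ∈ S \ H, g i ≤ D := by
        rw [← hD]
        apply Finset.sum_le_sum_of_subset
        intro i hi
        rw [Finset.mem_compl]
        exact (Finset.mem_sdiff.1 hi).2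
      have hDS1 : 1 ≤ ∑ i ∈ S \ H, g i := by omega
      have hmod : W % p < (S ∩ H).card % p := by
        obtain ⟨k, hk'⟩ := hdvd
        have hlt2 : ∑ i ∈ S \ H, g i < p := by omega
        have hk1 : 1 ≤ k := by
          rcases Nat.eq_zero_or_pos k with h0 | h0
          · subst h0
            omega
          · exact h0
        obtain ⟨k', rfl⟩ : ∃ k', k = k' + 1 := ⟨k - 1, by omega⟩
        have e3 : (S ∩ H).card = (p - ∑ i ∈ S \ H, g i) + p * k' := by
          have : p * (k' + 1) = p * k' + p := by ring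
          omega
        have e4 : (S ∩ H).card % p = p - ∑ i ∈ S \ H, g i := by
          rw [e3, Nat.add_mul_mod_self_left]
          exact Nat.mod_eq_of_lt (by omega)
        omega
      have hCp : C ≤ τ := by
        have h7 : C ≤ (p : ℝ)⁻¹ := choose_lucas p hp hpn W _ hmod
        rw [← hτ] at h7
        refine h7.trans ?_
        calc τ ^ p ≤ τ ^ 1 := pow_le_pow_of_le_one hτ0.le hτ1.le (by omega)
          _ = τ := pow_one τ
      have h2 : P ≤ τ ^ (p + G) := by rw [← h6]; exact hPS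
      calc C * (Fs * P * J) ≤ τ * (Fs * P * J) := by
            apply mul_le_mul_of_nonneg_right hCp (by positivity)
        _ = τ * Fs * J * P := by ring
        _ ≤ τ * Fs * J * τ ^ (p + G) := by
            apply mul_le_mul_of_nonneg_left h2 (by positivity)
        _ = Fs * τ ^ (p + G + 1) * J := by ring
        _ ≤ Fs * τ ^ (p + G + 1) * (FX * τ ^ g') := by
            apply mul_le_mul_of_nonneg_left hJ (by positivity)
        _ = (Fs * FX * τ ^ p) * τ ^ (g' + G + 1) := by ring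
        _ = FY * τ ^ (g' + G + 1) := by rw [hfb]
    · have h2 : P ≤ τ ^ (p + G + 1) := hPS.trans (pow_le_pow_of_le_one hτ0.le hτ1.le (by omega))
      calc C * (Fs * P * J) ≤ 1 * (Fs * P * J) := by
            apply mul_le_mul_of_nonneg_right hC1 (by positivity)
        _ = Fs * J * P := by ring
        _ ≤ Fs * J * τ ^ (p + G + 1) := by
            apply mul_le_mul_of_nonneg_left h2 (by positivity)
        _ = Fs * τ ^ (p + G + 1) * J := by ring
        _ ≤ Fs * τ ^ (p + G + 1) * (FX * τ ^ g') := by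
            apply mul_le_mul_of_nonneg_left hJ (by positivity)
        _ = (Fs * FX * τ ^ p) * τ ^ (g' + G + 1) := by ring
        _ = FY * τ ^ (g' + G + 1) := by rw [hfb]

theorem z12b_fiber {m : ℕ} (H A S0 : Finset (Fin m)) (b : Fin m) (hbH : b ∉ H) (hS0 : S0 ⊆ A) (hb0 : b ∈ S0) :
    ((A.powerset.filter (fun S => b ∈ S)).filter
      (fun S => (S \ H, (S ∩ H).card) = (S0 \ H, (S0 ∩ H).card))).card =
      (A ∩ H).card.choose (S0 ∩ H).card := by
  rw [← Finset.card_powersetCard]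
  apply Finset.card_nbij' (fun S => S ∩ H) (fun U => (S0 \ H) ∪ U)
  · intro S hS
    simp only [Finset.coe_filter, Finset.mem_filter, Finset.mem_powerset, Set.mem_setOf_eq, Prod.mk.injEq] at hS
    simp only [Finset.mem_coe, Finset.mem_powersetCard]
    exact ⟨Finset.inter_subset_inter_right hS.1.1, hS.2.2⟩
  · intro U hU
    simp only [Finset.mem_coe, Finset.mem_powersetCard] at hU
    have hUH : U ⊆ H := fun x hx => (Finset.mem_inter.1 (hU.1 hx)).2
    have hUA : U ⊆ A := fun x hx => (Finset.mem_inter.1 (hU.1 hx)).1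
    simp only [Finset.coe_filter, Finset.mem_filter, Finset.mem_powerset, Set.mem_setOf_eq, Prod.mk.injEq]
    have e1 : (S0 \ H ∪ U) ∩ H = U := by
      ext x
      simp only [Finset.mem_inter, Finset.mem_union, Finset.mem_sdiff]
      constructor
      · rintro ⟨h1 | h1, h2⟩
        · exact absurd h2 h1.2
        · exact h1
      · intro h1
        exact ⟨Or.inr h1, hUH h1⟩
    refine ⟨⟨?_, ?_⟩, ?_, ?_⟩
    · intro x hx
      rcases Finset.mem_union.1 hx with h1 | h1
      · exact hS0 (Finset.mem_sdiff.1 h1).1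
      · exact hUA h1
    · exact Finset.mem_union_left _ (Finset.mem_sdiff.2 ⟨hb0, hbH⟩)
    · ext x
      simp only [Finset.mem_union, Finset.mem_sdiff]
      constructor
      · rintro ⟨h1 | h1, h2⟩
        · exact h1
        · exact absurd (hUH h1) h2
      · intro h1
        exact ⟨Or.inl h1, h1.2⟩
    · rw [e1]; exact hU.2
  · intro S hS
    simp only [Finset.coe_filter, Finset.mem_filter, Finset.mem_powerset, Set.mem_setOf_eq, Prod.mk.injEq] at hS
    show S0 \ H ∪ S ∩ H = S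
    rw [← hS.2.1]
    exact Finset.sdiff_union_inter S H
  · intro U hU
    simp only [Finset.mem_coe, Finset.mem_powersetCard] at hU
    have hUH : U ⊆ H := fun x hx => (Finset.mem_inter.1 (hU.1 hx)).2
    show (S0 \ H ∪ U) ∩ H = U
    ext x
    simp only [Finset.mem_inter, Finset.mem_union, Finset.mem_sdiff]
    constructor
    · rintro ⟨h1 | h1, h2⟩
      · exact absurd h2 h1.2
      · exact h1
    · intro h1
      exact ⟨Or.inr h1, hUH h1⟩

theorem z12b_const {R : Type*} [CommRing R] {m n : ℕ} (f : Fin m → Fin n → R) (H : Finset (Fin m))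
    (φ : Fin n → R) (hφ : ∀ i ∈ H, f i = φ) (A S S0 : Finset (Fin m)) (hS : S ⊆ A) (hS0 : S0 ⊆ A)
    (h1 : S \ H = S0 \ H) (h2 : (S ∩ H).card = (S0 ∩ H).card) :
    (-1 : R) ^ (S.card - 1) * ((S.card - 1).factorial : R) * (∑ j : Fin n, ∏ i ∈ S, f i j) * injSum f (A \ S) =
    (-1 : R) ^ (S0.card - 1) * ((S0.card - 1).factorial : R) * (∑ j : Fin n, ∏ i ∈ S0, f i j) *
      injSum f (A \ S0) := by
  have hc : S.card = S0.card := by
    have a1 := Finset.card_inter_add_card_sdiff S H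
    have a2 := Finset.card_inter_add_card_sdiff S0 H
    rw [h1] at a1
    omega
  have hprod : ∀ T : Finset (Fin m), ∀ j : Fin n, ∏ i ∈ T, f i j = φ j ^ (T ∩ H).card * ∏ i ∈ T \ H, f i j := by
    intro T j
    rw [← Finset.prod_inter_mul_prod_diff T H (fun i => f i j)]
    congr 1
    apply Finset.prod_eq_pow_card
    intro i hi
    rw [hφ i (Finset.mem_inter.1 hi).2]
  have hP : ∑ j : Fin n, ∏ i ∈ S, f i j = ∑ j : Fin n, ∏ i ∈ S0, f i j := by
    apply Finset.sum_congr rfl
    intro j _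
    rw [hprod S j, hprod S0 j, h1, h2]
  have hI : injSum f (A \ S) = injSum f (A \ S0) := by
    apply injSum_ident f H φ hφ
    · ext x
      have := congrArg (fun T => x ∈ T) h1
      simp only [Finset.mem_sdiff, eq_iff_iff] at this ⊢
      tauto
    · have e : ∀ T : Finset (Fin m), T ⊆ A → ((A \ T) ∩ H).card + (T ∩ H).card = (A ∩ H).card := by
        intro T hT
        rw [← Finset.card_sdiff_add_card_eq_card (Finset.inter_subset_inter_right (u := H) hT)]
        congr 2
        ext x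
        simp only [Finset.mem_inter, Finset.mem_sdiff]
        tauto
      have a1 := e S hS
      have a2 := e S0 hS0
      omega
  rw [hc, hP, hI]

theorem lemma_SC {K : Type*} [NormedField K] [IsUltrametricDist K] (p q : ℕ) (hp : p.Prime)
    (hq : p = 2 * q + 1) (hpn : ‖(p : K)‖ = (p : ℝ)⁻¹) (τ : ℝ) (hτ0 : 0 < τ) (hτ1 : τ < 1)
    (hτ : τ ^ p = (p : ℝ)⁻¹) {m n : ℕ} (f : Fin m → Fin n → K) (g : Fin m → ℕ)
    (hP : ∀ S : Finset (Fin m), S.Nonempty →
      ‖∑ j, ∏ i ∈ S, f i j‖ ≤ ((p : ℝ)⁻¹) ^ vO p (∑ i ∈ S, oG p (g i)))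
    (H : Finset (Fin m)) (φ : Fin n → K) (hφ : ∀ i ∈ H, f i = φ) (hgH : ∀ i ∈ H, g i = 1)
    (W D : ℕ) (hW : H.card = W) (hD : ∑ i ∈ Hᶜ, g i = D) (hwD : W % p + D < p) (hWp : W < p ^ 2)
    (y : ℕ) (A : Finset (Fin m)) (hy : y + A.card < p ^ 2) (hA : ¬ A ⊆ H) (hx : q ≤ (y + A.card) % p) :
    ‖(W.choose (A ∩ H).card : K) * ((y.factorial : K) * injSum f A)‖ ≤
      ‖((y + A.card).factorial : K)‖ * τ ^ (∑ i ∈ A, g i + 1) := by
  obtain ⟨b, hbA, hbH⟩ := Finset.not_subset.1 hA
  rw [injSum_rec f A b hbA]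
  rw [← Finset.sum_fiberwise_of_maps_to (s := A.powerset.filter (fun S => b ∈ S))
    (t := (A.powerset.filter (fun S => b ∈ S)).image (fun S => (S \ H, (S ∩ H).card)))
    (g := fun S => (S \ H, (S ∩ H).card)) (fun S hS => Finset.mem_image_of_mem _ hS)]
  rw [Finset.mul_sum, Finset.mul_sum]
  apply IsUltrametricDist.norm_sum_le_of_forall_le_of_nonneg (by positivity)
  intro k hk
  obtain ⟨S0, hS0, rfl⟩ := Finset.mem_image.1 hk
  have hS0A : S0 ⊆ A := Finset.mem_powerset.1 (Finset.mem_filter.1 hS0).1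
  have hb0 : b ∈ S0 := (Finset.mem_filter.1 hS0).2
  rw [Finset.sum_congr rfl (g := fun _ => (-1 : K) ^ (S0.card - 1) * ((S0.card - 1).factorial : K) *
    (∑ j : Fin n, ∏ i ∈ S0, f i j) * injSum f (A \ S0))]
  · rw [Finset.sum_const, z12b_fiber H A S0 b hbH hS0A hb0, nsmul_eq_mul]
    have ha : (A ∩ H).card ≤ W := hW ▸ Finset.card_le_card Finset.inter_subset_right
    have ha' : (S0 ∩ H).card ≤ (A ∩ H).card := Finset.card_le_card (Finset.inter_subset_inter_right hS0A)
    have hch : (W.choose (A ∩ H).card : K) * ((A ∩ H).card.choose (S0 ∩ H).card : K) =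
        (W.choose (S0 ∩ H).card : K) * ((W - (S0 ∩ H).card).choose ((A ∩ H).card - (S0 ∩ H).card) : K) := by
      rw [← Nat.cast_mul, Nat.choose_mul (n := W) ha', Nat.cast_mul]
    have hre : (W.choose (A ∩ H).card : K) * ((y.factorial : K) * (((A ∩ H).card.choose (S0 ∩ H).card : K) *
        ((-1 : K) ^ (S0.card - 1) * ((S0.card - 1).factorial : K) *
        (∑ j : Fin n, ∏ i ∈ S0, f i j) * injSum f (A \ S0)))) =
        ((W.choose (S0 ∩ H).card : K) * ((W - (S0 ∩ H).card).choose ((A ∩ H).card - (S0 ∩ H).card) : K)) *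
        ((-1 : K) ^ (S0.card - 1) * (((S0.card - 1).factorial : K) *
        (∑ j : Fin n, ∏ i ∈ S0, f i j) * ((y.factorial : K) * injSum f (A \ S0)))) := by
      rw [← hch]
      ring
    rw [hre, norm_mul, norm_mul, norm_mul ((-1 : K) ^ (S0.card - 1)), norm_pow, norm_neg, norm_one, one_pow, one_mul,
      norm_mul, norm_mul ((S0.card - 1).factorial : K)]
    have hterm := z12b_term p q hp hq hpn τ hτ0 hτ1 hτ f g hP H hgH W D hD hwD y A hy hx S0 hS0A b hb0 hbH
    have h1 : ‖((W - (S0 ∩ H).card).choose ((A ∩ H).card - (S0 ∩ H).card) : K)‖ ≤ 1 :=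
      (norm_nat_facts p hp hpn _).1
    refine le_trans ?_ hterm
    apply mul_le_mul_of_nonneg_right _ (by positivity)
    exact mul_le_of_le_one_right (norm_nonneg _) h1
  · intro S hS
    have hS' := Finset.mem_filter.1 hS
    have hSA : S ⊆ A := Finset.mem_powerset.1 (Finset.mem_filter.1 hS'.1).1
    have h2 := Prod.mk.inj hS'.2
    exact z12b_const f H φ hφ A S S0 hSA hS0A h2.1 h2.2


end Pool.Agent.Helper805_nf
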