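import Mathlib
import Pool.Agent.Helper805_nf.Defs4

set_option autoImplicit false

namespace Pool.Agent.Helper805_nf

open Finset

theorem z13a_step (α : ℕ) :
    (α + 1) * (2 * (α + 1)).choose (α + 1) = 2 * (2 * α + 1) * (2 * α).choose α := by
  have h := Nat.succ_mul_centralBinom_succ α
  simpa [Nat.centralBinom] using h

theorem z13a_T (α : ℕ) :
    ∑ β ∈ Finset.range (α + 1), 4 ^ (α - β) * (2 * β).choose β =
      (2 * α + 1) * (2 * α).choose α := by
  induction α with
  | zero => simp
  | succ α ih =>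
    rw [Finset.sum_range_succ]
    have h1 : ∑ β ∈ Finset.range (α + 1), 4 ^ (α + 1 - β) * (2 * β).choose β =
        4 * ∑ β ∈ Finset.range (α + 1), 4 ^ (α - β) * (2 * β).choose β := by
      rw [Finset.mul_sum]
      refine Finset.sum_congr rfl fun β hβ => ?_
      have hb : β ≤ α := Nat.lt_succ_iff.1 (Finset.mem_range.1 hβ)
      rw [Nat.succ_sub hb, pow_succ]
      ring
    rw [h1, ih, Nat.sub_self, pow_zero, one_mul]
    have h := z13a_step α
    calc 4 * ((2 * α + 1) * (2 * α).choose α) + (2 * (α + 1)).choose (α + 1)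
        = 2 * (2 * (2 * α + 1) * (2 * α).choose α) + (2 * (α + 1)).choose (α + 1) := by ring
      _ = 2 * ((α + 1) * (2 * (α + 1)).choose (α + 1)) + (2 * (α + 1)).choose (α + 1) := by rw [h]
      _ = (2 * (α + 1) + 1) * (2 * (α + 1)).choose (α + 1) := by ring

theorem central_sums (α : ℕ) :
    (∑ β ∈ Finset.range α, 4 ^ (β + 1) * (2 * (α - 1 - β)).choose (α - 1 - β) = 2 * α * (2 * α).choose α) ∧
    (∑ β ∈ Finset.range (α + 1), 4 ^ (α - β) * (2 * β).choose β = (2 * α + 1) * (2 * α).choose α) := by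
  refine ⟨?_, z13a_T α⟩
  cases α with
  | zero => simp
  | succ α =>
    have h1 : ∑ β ∈ Finset.range (α + 1), 4 ^ (β + 1) *
        (2 * (α + 1 - 1 - β)).choose (α + 1 - 1 - β) =
        ∑ β ∈ Finset.range (α + 1), 4 * (4 ^ (α - β) * (2 * β).choose β) := by
      rw [← Finset.sum_range_reflect]
      refine Finset.sum_congr rfl fun β hβ => ?_
      have hb : β ≤ α := Nat.lt_succ_iff.1 (Finset.mem_range.1 hβ)
      have e1 : α + 1 - 1 - (α + 1 - 1 - β) = β := by omega
      have e2 : α + 1 - 1 - β = α - β := by omega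
      rw [e1, e2, pow_succ]
      ring
    rw [h1, ← Finset.mul_sum, z13a_T]
    have h := z13a_step α
    calc 4 * ((2 * α + 1) * (2 * α).choose α)
        = 2 * (2 * (2 * α + 1) * (2 * α).choose α) := by ring
      _ = 2 * ((α + 1) * (2 * (α + 1)).choose (α + 1)) := by rw [h]
      _ = 2 * (α + 1) * (2 * (α + 1)).choose (α + 1) := by ring

end Pool.Agent.Helper805_nf
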