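import Mathlib
import Pool.Agent.Helper805_nf.Defs4
import Pool.Agent.Helper805_nf.B2
import Pool.Agent.Helper805_nf.Y1
import Pool.Agent.Helper805_nf.Y8
import Pool.Agent.Helper805_nf.Z12a
import Pool.Agent.Helper805_nf.Z12p
import Pool.Agent.Helper805_nf.Z13a
import Pool.Agent.Helper805_nf.Z8
import Pool.Agent.Helper805_nf.Z9

set_option autoImplicit false

namespace Pool.Agent.Helper805_nf

open Finset















theorem z13_sum_lt {K : Type*} [NormedField K] [IsUltrametricDist K] {ι : Type*} (s : Finset ι)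
    (F : ι → K) (B : ℝ) (hB : 0 < B) (h : ∀ i ∈ s, ‖F i‖ < B) : ‖∑ i ∈ s, F i‖ < B := by
  classical
  induction s using Finset.induction_on with
  | empty => simpa using hB
  | insert a s ha ih =>
    rw [Finset.sum_insert ha]
    exact lt_of_le_of_lt (IsUltrametricDist.norm_add_le_max _ _)
      (max_lt (h a (Finset.mem_insert_self _ _))
        (ih fun i hi => h i (Finset.mem_insert_of_mem hi)))

theorem z13_group {K : Type*} [NormedField K] {m n : ℕ} (f : Fin m → Fin n → K)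
    (A : Finset (Fin m)) (N : ℕ) (hN : 1 ≤ N) (hc : A.card = N) (P I : ℕ → K)
    (hP : ∀ S ⊆ A, (∑ j, ∏ i ∈ S, f i j) = P S.card)
    (hI : ∀ B ⊆ A, injSum f B = I B.card) :
    injSum f A = ∑ k ∈ Finset.range N, ((N - 1).choose k : K) *
      ((-1) ^ k * (k.factorial : K) * P (k + 1) * I (N - 1 - k)) := by
  classical
  have hne : A.Nonempty := by
    rw [← Finset.card_pos]; omega
  obtain ⟨b, hb⟩ := hne
  have hce : (A.erase b).card = N - 1 := by rw [Finset.card_erase_of_mem hb, hc]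
  rw [injSum_rec f A b hb]
  have key : ∑ S ∈ A.powerset.filter (fun S => b ∈ S),
      (-1 : K) ^ (S.card - 1) * ((S.card - 1).factorial : K) * (∑ j : Fin n, ∏ i ∈ S, f i j) *
        injSum f (A \ S) =
      ∑ S ∈ (A.erase b).powerset, (fun k : ℕ => (-1 : K) ^ k * (k.factorial : K) * P (k + 1) *
        I (N - 1 - k)) S.card := by
    refine Finset.sum_bij' (fun S _ => S.erase b) (fun S _ => insert b S) ?_ ?_ ?_ ?_ ?_
    · intro S hS
      rw [Finset.mem_filter, Finset.mem_powerset] at hS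
      rw [Finset.mem_powerset]
      exact Finset.erase_subset_erase _ hS.1
    · intro S hS
      rw [Finset.mem_powerset] at hS
      rw [Finset.mem_filter, Finset.mem_powerset]
      refine ⟨?_, Finset.mem_insert_self _ _⟩
      intro x hx
      rcases Finset.mem_insert.1 hx with rfl | hx
      · exact hb
      · exact Finset.mem_of_mem_erase (hS hx)
    · intro S hS
      rw [Finset.mem_filter] at hS
      exact Finset.insert_erase hS.2
    · intro S hS
      rw [Finset.mem_powerset] at hS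
      exact Finset.erase_insert (fun h => Finset.notMem_erase b A (hS h))
    · intro S hS
      rw [Finset.mem_filter, Finset.mem_powerset] at hS
      have hS1 : 1 ≤ S.card := Finset.card_pos.2 ⟨b, hS.2⟩
      have hSA : S.card ≤ N := by rw [← hc]; exact Finset.card_le_card hS.1
      have e1 : (S.erase b).card = S.card - 1 := Finset.card_erase_of_mem hS.2
      have e2 : (A \ S).card = N - S.card := by
        rw [Finset.card_sdiff_of_subset hS.1, hc]
      simp only [e1]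
      rw [hP S hS.1, hI (A \ S) Finset.sdiff_subset, e2]
      have e3 : S.card - 1 + 1 = S.card := by omega
      have e4 : N - 1 - (S.card - 1) = N - S.card := by omega
      rw [e3, e4]
  rw [key, Finset.sum_powerset_apply_card (fun k : ℕ => (-1 : K) ^ k * (k.factorial : K) *
    P (k + 1) * I (N - 1 - k)), hce]
  have : N - 1 + 1 = N := by omega
  rw [this]
  refine Finset.sum_congr rfl (fun k _ => ?_)
  rw [nsmul_eq_mul]


/-- terms with `p ∤ s` -/
theorem z13_term1 {K : Type*} [NormedField K] [IsUltrametricDist K] (p q : ℕ) (hp : p.Prime)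
    (hq : p = 2 * q + 1) (h5 : 5 ≤ p) (hpn : ‖(p : K)‖ = (p : ℝ)⁻¹) (τ : ℝ) (hτ0 : 0 < τ) (hτ1 : τ < 1)
    (hτ : τ ^ p = (p : ℝ)⁻¹) (N k : ℕ) (hN : N < p ^ 2) (hk : k < N) (hkp : ¬ p ∣ k + 1)
    (Pk Ik : K) (hPk : ‖Pk‖ ≤ ((p : ℝ)⁻¹) ^ vO p ((p - 1) * (k + 1)))
    (hI1 : ‖Ik‖ ≤ ‖((N - 1 - k).factorial : K)‖ * τ ^ (N - 1 - k))
    (hI2 : (N - 1 - k) % p = p - 1 →
      ‖Ik‖ ≤ ‖((N - 1 - k).factorial : K)‖ * τ ^ (N - 1 - k + (p - 2))) :
    ‖(k.factorial : K) * Pk * Ik‖ ≤ ‖(N.factorial : K)‖ * τ ^ (N + 1) := by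
  obtain ⟨X, hX⟩ : ∃ X, X = N - 1 - k := ⟨_, rfl⟩
  have hXN : X + (k + 1) = N := by omega
  rw [← hX] at hI1 hI2
  have hfb := (fact_block (K := K) p hp hpn).2 X (k + 1) (by omega) (by rw [hXN]; exact hN)
  have hba := block_arith p q 0 (k + 1) (k + 1) X hq (by omega) (by omega) le_rfl
    ((X + (0 + (k + 1))) / p - X / p - (0 + (k + 1) - 1) / p) ((p - 1) * (k + 1)) rfl
    (by
      obtain ⟨r, rfl⟩ : ∃ r, p = r + 1 := ⟨p - 1, by omega⟩
      simp; ring)
  simp only [zero_add, Nat.add_sub_cancel] at hba hfb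
  rw [hXN] at hba hfb
  obtain ⟨κ, hκ⟩ : ∃ κ, κ = N / p - X / p - k / p := ⟨_, rfl⟩
  rw [← hκ] at hba hfb
  obtain ⟨v, hv⟩ : ∃ v, v = vO p ((p - 1) * (k + 1)) := ⟨_, rfl⟩
  rw [← hv] at hba hPk
  obtain ⟨hb0, hb1, hb2, hb3, hb4, -⟩ := hba
  have hτκ : ((p : ℝ)⁻¹) ^ κ = τ ^ (p * κ) := by rw [pow_mul, hτ]
  have hτv : ((p : ℝ)⁻¹) ^ v = τ ^ (p * v) := by rw [pow_mul, hτ]
  -- main comparison
  have main : ∀ c : ℕ, ‖Ik‖ ≤ ‖(X.factorial : K)‖ * τ ^ (X + c) →
      p * κ + (k + 1) + 1 ≤ p * v + c →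
      ‖(k.factorial : K) * Pk * Ik‖ ≤ ‖(N.factorial : K)‖ * τ ^ (N + 1) := by
    intro c hc hle
    have hpos : 0 < τ ^ (p * κ) := pow_pos hτ0 _
    rw [← mul_le_mul_iff_left₀ hpos]
    calc ‖(k.factorial : K) * Pk * Ik‖ * τ ^ (p * κ)
        = ‖(k.factorial : K)‖ * ‖Pk‖ * ‖Ik‖ * τ ^ (p * κ) := by rw [norm_mul, norm_mul]
      _ ≤ ‖(k.factorial : K)‖ * τ ^ (p * v) * (‖(X.factorial : K)‖ * τ ^ (X + c)) *
          τ ^ (p * κ) := by
          gcongr
          rw [← hτv]; exact hPk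
      _ = (‖(k.factorial : K)‖ * ‖(X.factorial : K)‖ * τ ^ (p * κ)) * τ ^ (p * v + (X + c)) := by
          rw [pow_add]; ring
      _ = ‖(N.factorial : K)‖ * τ ^ (p * v + (X + c)) := by rw [← hτκ, hfb]
      _ ≤ ‖(N.factorial : K)‖ * τ ^ (N + 1 + p * κ) := by
          gcongr ?_ * ?_
          apply pow_le_pow_of_le_one hτ0.le hτ1.le
          omega
      _ = ‖(N.factorial : K)‖ * τ ^ (N + 1) * τ ^ (p * κ) := by rw [pow_add]; ring
  rcases hb0 with h0 | h1
  · refine main 0 (by simpa using hI1) ?_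
    have := hb1 h0
    rw [h0]
    omega
  · have h2 := hb2 h1
    by_cases h3 : p * v + 1 = p + (k + 1)
    · have h4 := (hb3 h1 h3).1
      refine main (p - 2) (hI2 h4) ?_
      rw [h1]
      omega
    · refine main 0 (by simpa using hI1) ?_
      have h5' : p * v ≠ p + (k + 1) := fun h => hkp (hb4 h1 h).1
      rw [h1]
      omega

/-- terms with `s = p β` -/
theorem z13_term2 {K : Type*} [NormedField K] [IsUltrametricDist K] (p : ℕ) (hp : p.Prime)
    (h5 : 5 ≤ p) (hpn : ‖(p : K)‖ = (p : ℝ)⁻¹) (τ : ℝ) (hτ0 : 0 < τ)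
    (α β : ℕ) (hα : α < p) (hβ : 1 ≤ β) (hβα : β ≤ α) (s : K) (hs : ‖s‖ = τ) (Pb Ib : K)
    (hP : ‖2 * Pb + (p : K) * s ^ (p * β)‖ < (p : ℝ)⁻¹ * τ ^ (p * β))
    (hI : ‖(4 : K) ^ (α - β) * Ib - (-1) ^ (α - β) * ((2 * (α - β)).choose (α - β) : K) *
      ((p * (α - β)).factorial : K) * s ^ (p * (α - β))‖ <
        ‖((p * (α - β)).factorial : K)‖ * τ ^ (p * (α - β))) :
    ‖2 * 4 ^ α * (((p * α - 1).choose (p * β - 1) : K) *
        ((-1) ^ (p * β - 1) * ((p * β - 1).factorial : K) * Pb * Ib)) -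
      (-1) ^ α * 4 ^ β * ((2 * (α - β)).choose (α - β) : K) * (p : K) *
        ((p * α - 1).factorial : K) * s ^ (p * α)‖ < ‖((p * α).factorial : K)‖ * τ ^ (p * α) := by
  obtain ⟨γ, hγ⟩ : ∃ γ, γ = α - β := ⟨_, rfl⟩
  rw [← hγ] at hI ⊢
  have hαβ : α = β + γ := by omega
  have hp0 : 0 < p := hp.pos
  have hpβ : 1 ≤ p * β := Nat.mul_pos hp0 hβ
  have hpα : 1 ≤ p * α := Nat.mul_pos hp0 (by omega)
  have hpαβ : p * α = p * β + p * γ := by rw [hαβ]; ring
  have hN2 : p * α < p ^ 2 := by rw [pow_two]; exact Nat.mul_lt_mul_of_pos_left hα hp0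
  have hodd : Odd p := hp.odd_of_ne_two (by omega)
  -- nonvanishing
  have hpR : (0 : ℝ) < (p : ℝ)⁻¹ := inv_pos.2 (by exact_mod_cast hp0)
  have hN1 : ‖((p * α - 1).factorial : K)‖ ≠ 0 := by
    rw [(fact_block (K := K) p hp hpn).1 (p * α - 1) (by omega)]
    exact (pow_pos hpR _).ne'
  -- coefficient
  have hchoose : ((p * α - 1).choose (p * β - 1) : K) * ((p * β - 1).factorial : K) *
      ((p * γ).factorial : K) = ((p * α - 1).factorial : K) := by
    have := Nat.choose_mul_factorial_mul_factorial (n := p * α - 1) (k := p * β - 1) (by omega)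
    have e : p * α - 1 - (p * β - 1) = p * γ := by omega
    rw [e] at this
    rw [← this]
    push_cast
    rfl
  obtain ⟨c, hc⟩ : ∃ c : K, c = ((p * α - 1).choose (p * β - 1) : K) *
    ((p * β - 1).factorial : K) := ⟨_, rfl⟩
  rw [← hc] at hchoose
  have hcn : ‖c‖ * ‖((p * γ).factorial : K)‖ = ‖((p * α - 1).factorial : K)‖ := by
    rw [← norm_mul, hchoose]
  have hc0 : 0 < ‖c‖ := by
    rcases (norm_nonneg c).lt_or_eq with h | h
    · exact h
    · exfalso; rw [← h, zero_mul] at hcn; exact hN1 hcn.symm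
  have h4 : ‖(4 : K)‖ = 1 := by
    have h := (norm_nat_facts (K := K) p hp hpn 4).2.1 (by
      intro h
      have := Nat.le_of_dvd (by norm_num) h
      omega)
    exact_mod_cast h
  have hαn : ‖(α : K)‖ = 1 := (norm_nat_facts (K := K) p hp hpn α).2.1 (by
      intro h
      have := Nat.le_of_dvd (by omega) h
      omega)
  have hNf : ((p * α).factorial : K) = (p : K) * (α : K) * ((p * α - 1).factorial : K) := by
    have : (p * α).factorial = (p * α) * (p * α - 1).factorial := by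
      rw [Nat.mul_factorial_pred (by omega)]
    rw [this]; push_cast; ring
  have hNn : ‖((p * α).factorial : K)‖ = (p : ℝ)⁻¹ * ‖((p * α - 1).factorial : K)‖ := by
    rw [hNf, norm_mul, norm_mul, hpn, hαn, mul_one]
  -- the two factors
  obtain ⟨e1, he1⟩ : ∃ e1 : K, e1 = 2 * Pb + (p : K) * s ^ (p * β) := ⟨_, rfl⟩
  obtain ⟨M2, hM2⟩ : ∃ M2 : K, M2 = (-1) ^ γ * ((2 * γ).choose γ : K) *
      ((p * γ).factorial : K) * s ^ (p * γ) := ⟨_, rfl⟩
  obtain ⟨e2, he2⟩ : ∃ e2 : K, e2 = (4 : K) ^ γ * Ib - M2 := ⟨_, rfl⟩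
  rw [← hM2, ← he2] at hI
  rw [← he1] at hP
  have hPb : 2 * Pb = e1 - (p : K) * s ^ (p * β) := by rw [he1]; ring
  have hIb : (4 : K) ^ γ * Ib = M2 + e2 := by rw [he2]; ring
  have hs1 : (-1 : K) ^ (p * β - 1) = - (-1) ^ β := by
    have h : (-1 : K) ^ (p * β) = (-1) ^ β := by
      rw [pow_mul, hodd.neg_one_pow]
    have h2 : (-1 : K) ^ (p * β) = (-1) ^ (p * β - 1) * (-1) := by
      rw [← pow_succ]; congr 1; omega
    rw [h] at h2
    rw [h2]; ring
  have hsα : (-1 : K) ^ α = (-1) ^ β * (-1) ^ γ := by rw [hαβ, pow_add]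
  have hsp : s ^ (p * α) = s ^ (p * β) * s ^ (p * γ) := by rw [hpαβ, pow_add]
  -- the error
  obtain ⟨E, hE⟩ : ∃ E : K, E = e1 * (M2 + e2) - (p : K) * s ^ (p * β) * e2 := ⟨_, rfl⟩
  have hident : 2 * 4 ^ α * (((p * α - 1).choose (p * β - 1) : K) *
        ((-1) ^ (p * β - 1) * ((p * β - 1).factorial : K) * Pb * Ib)) -
      (-1) ^ α * 4 ^ β * ((2 * γ).choose γ : K) * (p : K) *
        ((p * α - 1).factorial : K) * s ^ (p * α) = - (-1) ^ β * 4 ^ β * c * E := by
    have h4α : (4 : K) ^ α = 4 ^ β * 4 ^ γ := by rw [hαβ, pow_add]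
    have hL : 2 * 4 ^ α * (((p * α - 1).choose (p * β - 1) : K) *
        ((-1) ^ (p * β - 1) * ((p * β - 1).factorial : K) * Pb * Ib)) =
        - (-1) ^ β * 4 ^ β * c * ((2 * Pb) * (4 ^ γ * Ib)) := by
      rw [h4α, hs1, hc]; ring
    rw [hL, hPb, hIb, ← hchoose, hsα, hsp, hE, hM2]
    ring
  rw [hident, norm_mul, norm_mul, norm_mul, norm_neg, norm_pow, norm_pow, norm_neg, norm_one,
    one_pow, one_mul, h4, one_pow, one_mul, hNn]
  have hF0 : 0 < ‖((p * γ).factorial : K)‖ := by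
    rcases (norm_nonneg ((p * γ).factorial : K)).lt_or_eq with h | h
    · exact h
    · exfalso; rw [← h, mul_zero] at hcn; exact hN1 hcn.symm
  have hM2n : ‖M2‖ ≤ ‖((p * γ).factorial : K)‖ * τ ^ (p * γ) := by
    rw [hM2, norm_mul, norm_mul, norm_mul, norm_pow, norm_pow, norm_neg, norm_one, one_pow,
      one_mul, hs]
    have h1 := (norm_nat_facts (K := K) p hp hpn ((2 * γ).choose γ)).1
    calc ‖((2 * γ).choose γ : K)‖ * ‖((p * γ).factorial : K)‖ * τ ^ (p * γ)
        ≤ 1 * ‖((p * γ).factorial : K)‖ * τ ^ (p * γ) := by gcongr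
      _ = _ := by rw [one_mul]
  have hEn : ‖E‖ < (p : ℝ)⁻¹ * (‖((p * γ).factorial : K)‖ * τ ^ (p * α)) := by
    have hτ1 : τ ^ (p * α) = τ ^ (p * β) * τ ^ (p * γ) := by rw [hpαβ, pow_add]
    have hsum : ‖M2 + e2‖ ≤ ‖((p * γ).factorial : K)‖ * τ ^ (p * γ) :=
      (IsUltrametricDist.norm_add_le_max _ _).trans (max_le hM2n hI.le)
    have hA : ‖e1 * (M2 + e2)‖ < (p : ℝ)⁻¹ * (‖((p * γ).factorial : K)‖ * τ ^ (p * α)) := by
      rw [norm_mul]
      have hpos : 0 < ‖((p * γ).factorial : K)‖ * τ ^ (p * γ) := mul_pos hF0 (pow_pos hτ0 _)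
      calc ‖e1‖ * ‖M2 + e2‖ ≤ ‖e1‖ * (‖((p * γ).factorial : K)‖ * τ ^ (p * γ)) := by
            gcongr
        _ < ((p : ℝ)⁻¹ * τ ^ (p * β)) * (‖((p * γ).factorial : K)‖ * τ ^ (p * γ)) := by
            exact mul_lt_mul_of_pos_right hP hpos
        _ = _ := by rw [hτ1]; ring
    have hB : ‖(p : K) * s ^ (p * β) * e2‖ <
        (p : ℝ)⁻¹ * (‖((p * γ).factorial : K)‖ * τ ^ (p * α)) := by
      rw [norm_mul, norm_mul, norm_pow, hpn, hs]
      have hpos : 0 < (p : ℝ)⁻¹ * τ ^ (p * β) := mul_pos hpR (pow_pos hτ0 _)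
      calc (p : ℝ)⁻¹ * τ ^ (p * β) * ‖e2‖
          < (p : ℝ)⁻¹ * τ ^ (p * β) * (‖((p * γ).factorial : K)‖ * τ ^ (p * γ)) :=
            mul_lt_mul_of_pos_left hI hpos
        _ = _ := by rw [hτ1]; ring
    rw [hE, sub_eq_add_neg]
    refine lt_of_le_of_lt (IsUltrametricDist.norm_add_le_max _ _) (max_lt hA ?_)
    rw [norm_neg]; exact hB
  calc ‖c‖ * ‖E‖ < ‖c‖ * ((p : ℝ)⁻¹ * (‖((p * γ).factorial : K)‖ * τ ^ (p * α))) :=
        mul_lt_mul_of_pos_left hEn hc0
    _ = (p : ℝ)⁻¹ * ‖((p * α - 1).factorial : K)‖ * τ ^ (p * α) := by rw [← hcn]; ring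

theorem lemma_P4 {K : Type*} [NormedField K] [IsUltrametricDist K] (p q : ℕ) (hp : p.Prime)
    (hq : p = 2 * q + 1) (h5 : 5 ≤ p) (hpn : ‖(p : K)‖ = (p : ℝ)⁻¹) (τ : ℝ) (hτ0 : 0 < τ) (hτ1 : τ < 1)
    (hτ : τ ^ p = (p : ℝ)⁻¹) {m n : ℕ} (f : Fin m → Fin n → K) (g : Fin m → ℕ)
    (hP : ∀ S : Finset (Fin m), S.Nonempty →
      ‖∑ j, ∏ i ∈ S, f i j‖ ≤ ((p : ℝ)⁻¹) ^ vO p (∑ i ∈ S, oG p (g i)))
    (hN : NBound p q τ g (injSum f))
    (H : Finset (Fin m)) (φ : Fin n → K) (hφ : ∀ i ∈ H, f i = φ) (hgH : ∀ i ∈ H, g i = 1)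
    (s : K) (hs : ‖s‖ = τ)
    (hpow : ∀ β : ℕ, 1 ≤ β → ‖2 * (∑ j, φ j ^ (p * β)) + (p : K) * s ^ (p * β)‖ < (p : ℝ)⁻¹ * τ ^ (p * β))
    (α : ℕ) (hα : α < p) (A : Finset (Fin m)) (hA : A ⊆ H) (hc : A.card = p * α) :
    ‖(4 : K) ^ α * injSum f A - (-1) ^ α * ((2 * α).choose α : K) * ((p * α).factorial : K) * s ^ (p * α)‖ <
      ‖((p * α).factorial : K)‖ * τ ^ (p * α) := by
  classical
  induction α using Nat.strong_induction_on generalizing A with
  | _ α ih =>
  rcases Nat.eq_zero_or_pos α with h0 | hα1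
  · subst h0
    have hA0 : A = ∅ := by rw [← Finset.card_eq_zero, hc, mul_zero]
    have hI := (injSum_small f A).2.2.2 hA0
    rw [hI]
    simp
  have hp0 : 0 < p := hp.pos
  have hN1 : 1 ≤ p * α := Nat.mul_pos hp0 hα1
  have hN2 : p * α < p ^ 2 := by rw [pow_two]; exact Nat.mul_lt_mul_of_pos_left hα hp0
  -- representatives
  have hrep : ∀ x : ℕ, ∃ B ⊆ A, x ≤ A.card → B.card = x := by
    intro x
    by_cases hx : x ≤ A.card
    · obtain ⟨B, hB, hBc⟩ := Finset.exists_subset_card_eq hx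
      exact ⟨B, hB, fun _ => hBc⟩
    · exact ⟨∅, Finset.empty_subset _, fun h => absurd h hx⟩
  choose Bx hBx hBxc using hrep
  have hIB : ∀ B ⊆ A, injSum f B = injSum f (Bx B.card) := by
    intro B hB
    have h1 : B ⊆ H := hB.trans hA
    have h2 : Bx B.card ⊆ H := (hBx _).trans hA
    apply injSum_ident f H φ hφ
    · rw [Finset.sdiff_eq_empty_iff_subset.2 h1, Finset.sdiff_eq_empty_iff_subset.2 h2]
    · rw [Finset.inter_eq_left.2 h1, Finset.inter_eq_left.2 h2,
        hBxc _ (Finset.card_le_card hB)]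
  have hPS : ∀ S ⊆ A, (∑ j, ∏ i ∈ S, f i j) = (fun t => ∑ j, φ j ^ t) S.card := by
    intro S hS
    refine Finset.sum_congr rfl (fun j _ => ?_)
    rw [Finset.prod_congr rfl (fun i hi => by rw [hφ i (hA (hS hi))]), Finset.prod_const]
  have hgrp := z13_group f A (p * α) hN1 hc (fun t => ∑ j, φ j ^ t)
    (fun x => injSum f (Bx x)) hPS hIB
  -- bounds
  have hg : ∀ B ⊆ A, ∑ i ∈ B, g i = B.card := by
    intro B hB
    rw [Finset.sum_congr rfl (fun i hi => hgH i (hA (hB hi)))]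
    simp
  have hoG : ∀ B ⊆ A, ∑ i ∈ B, oG p (g i) = (p - 1) * B.card := by
    intro B hB
    rw [Finset.sum_congr rfl (fun i hi => by rw [hgH i (hA (hB hi))])]
    simp [oG, mul_comm]
  have h0p : (0 : ℕ) % p ≠ p - 1 := by rw [Nat.zero_mod]; omega
  obtain ⟨T, hT⟩ : ∃ T : ℕ → K, T = fun k => ((p * α - 1).choose k : K) *
      ((-1) ^ k * (k.factorial : K) * (∑ j, φ j ^ (k + 1)) * injSum f (Bx (p * α - 1 - k))) :=
    ⟨_, rfl⟩
  obtain ⟨M, hM⟩ : ∃ M : ℕ → K, M = fun β => (-1) ^ α * 4 ^ β *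
      ((2 * (α - β)).choose (α - β) : K) * (p : K) *
        ((p * α - 1).factorial : K) * s ^ (p * α) := ⟨_, rfl⟩
  have hsumT : injSum f A = ∑ k ∈ Finset.range (p * α), T k := by
    rw [hgrp, hT]
  have hbound : 0 < ‖((p * α).factorial : K)‖ * τ ^ (p * α) := by
    rw [(fact_block (K := K) p hp hpn).1 (p * α) hN2]
    have hpR : (0 : ℝ) < (p : ℝ)⁻¹ := inv_pos.2 (by exact_mod_cast hp0)
    positivity
  have hterm : ∀ k ∈ Finset.range (p * α),
      ‖2 * 4 ^ α * T k - (if p ∣ k + 1 then M ((k + 1) / p) else 0)‖ <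
        ‖((p * α).factorial : K)‖ * τ ^ (p * α) := by
    intro k hk
    rw [Finset.mem_range] at hk
    by_cases hkp : p ∣ k + 1
    · rw [if_pos hkp]
      obtain ⟨β, hβ⟩ := hkp
      have hβ1 : 1 ≤ β := by
        rcases Nat.eq_zero_or_pos β with h | h
        · rw [h] at hβ; omega
        · exact h
      have hβα : β ≤ α := by
        have : p * β ≤ p * α := by omega
        exact Nat.le_of_mul_le_mul_left this hp0
      have hdiv : (k + 1) / p = β := by rw [hβ]; exact Nat.mul_div_cancel_left _ hp0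
      have hk' : k = p * β - 1 := by omega
      have hX : p * α - 1 - k = p * (α - β) := by
        rw [Nat.mul_sub]; omega
      have hle : p * (α - β) ≤ A.card := by rw [hc]; exact Nat.mul_le_mul_left _ (Nat.sub_le _ _)
      have hih := ih (α - β) (by omega) (by omega) (Bx (p * (α - β))) ((hBx _).trans hA)
        (hBxc _ hle)
      have := z13_term2 p hp h5 hpn τ hτ0 α β hα hβ1 hβα s hs (∑ j, φ j ^ (p * β))
        (injSum f (Bx (p * (α - β)))) (hpow β hβ1) hih
      rw [hdiv, hT, hM]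
      simp only
      rw [hX, hβ, hk']
      exact this
    · rw [if_neg hkp, sub_zero]
      have hXle : p * α - 1 - k ≤ A.card := by omega
      have hXc := hBxc _ hXle
      have hXA := hBx (p * α - 1 - k)
      obtain ⟨S, hS, hSc⟩ := Finset.exists_subset_card_eq (s := A) (n := k + 1) (by omega)
      have hSne : S.Nonempty := by rw [← Finset.card_pos]; omega
      have hP1 := hP S hSne
      rw [hPS S hS, hoG S hS, hSc] at hP1
      have hNB := hN 0 (Bx (p * α - 1 - k)) (by rw [hXc]; omega)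
      rw [hg _ hXA, hXc] at hNB
      obtain ⟨-, hNB2, -, hNB4⟩ := hNB
      simp only [zero_add, Nat.factorial_zero, Nat.cast_one, one_mul] at hNB2 hNB4
      have hI1 := hNB2 (fun h => h0p h.1)
      have hI2 := fun h => hNB4 h h0p
      have h1 := z13_term1 p q hp hq h5 hpn τ hτ0 hτ1 hτ (p * α) k hN2 hk hkp
        (∑ j, φ j ^ (k + 1)) (injSum f (Bx (p * α - 1 - k))) hP1 hI1 hI2
      rw [hT]
      simp only
      have hnat := fun a : ℕ => (norm_nat_facts (K := K) p hp hpn a).1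
      have h4n : ‖(2 * 4 ^ α : K)‖ ≤ 1 := by
        have := hnat (2 * 4 ^ α)
        push_cast at this
        exact this
      calc ‖2 * 4 ^ α * (((p * α - 1).choose k : K) *
            ((-1) ^ k * (k.factorial : K) * (∑ j, φ j ^ (k + 1)) *
              injSum f (Bx (p * α - 1 - k))))‖
          = ‖(2 * 4 ^ α : K)‖ * (‖((p * α - 1).choose k : K)‖ *
            ‖(k.factorial : K) * (∑ j, φ j ^ (k + 1)) * injSum f (Bx (p * α - 1 - k))‖) := by
            have hneg : ∀ z : K, ‖(-1 : K) ^ k * z‖ = ‖z‖ := fun z => by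
              rw [norm_mul, norm_pow, norm_neg, norm_one, one_pow, one_mul]
            rw [show (-1 : K) ^ k * (k.factorial : K) *
              (∑ j, φ j ^ (k + 1)) *
              injSum f (Bx (p * α - 1 - k)) = (-1 : K) ^ k * ((k.factorial : K) *
              (∑ j, φ j ^ (k + 1)) * injSum f (Bx (p * α - 1 - k))) by ring,
              norm_mul (2 * 4 ^ α : K), norm_mul ((p * α - 1).choose k : K), hneg]
        _ ≤ 1 * (1 * (‖((p * α).factorial : K)‖ * τ ^ (p * α + 1))) := by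
            have := hnat ((p * α - 1).choose k)
            gcongr
        _ = ‖((p * α).factorial : K)‖ * τ ^ (p * α) * τ := by rw [pow_succ]; ring
        _ < ‖((p * α).factorial : K)‖ * τ ^ (p * α) * 1 :=
            mul_lt_mul_of_pos_left hτ1 hbound
        _ = _ := mul_one _
  have hsum := z13_sum_lt _ _ _ hbound hterm
  rw [Finset.sum_sub_distrib, ← Finset.mul_sum, ← hsumT, ← Finset.sum_filter] at hsum
  have hMsum : ∑ k ∈ (Finset.range (p * α)).filter (fun k => p ∣ k + 1), M ((k + 1) / p) =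
      ∑ β ∈ Finset.range α, M (β + 1) := by
    refine Finset.sum_bij' (fun k _ => (k + 1) / p - 1) (fun β _ => p * (β + 1) - 1)
      ?_ ?_ ?_ ?_ ?_
    · intro k hk
      rw [Finset.mem_filter, Finset.mem_range] at hk
      obtain ⟨hk, β, hβ⟩ := hk
      have hdiv : (k + 1) / p = β := by rw [hβ]; exact Nat.mul_div_cancel_left _ hp0
      have hβα : β ≤ α := by
        have : p * β ≤ p * α := by omega
        exact Nat.le_of_mul_le_mul_left this hp0
      rw [Finset.mem_range, hdiv]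
      omega
    · intro β hβ
      rw [Finset.mem_range] at hβ
      rw [Finset.mem_filter, Finset.mem_range]
      have h1 : p * (β + 1) ≤ p * α := Nat.mul_le_mul_left _ hβ
      have h2 : 1 ≤ p * (β + 1) := Nat.mul_pos hp0 (by omega)
      refine ⟨by omega, β + 1, by omega⟩
    · intro k hk
      rw [Finset.mem_filter, Finset.mem_range] at hk
      obtain ⟨hk, β, hβ⟩ := hk
      have hdiv : (k + 1) / p = β := by rw [hβ]; exact Nat.mul_div_cancel_left _ hp0
      have hβ1 : 1 ≤ β := by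
        rcases Nat.eq_zero_or_pos β with h | h
        · rw [h] at hβ; omega
        · exact h
      rw [hdiv, Nat.sub_add_cancel hβ1]
      omega
    · intro β hβ
      have h2 : 1 ≤ p * (β + 1) := Nat.mul_pos hp0 (by omega)
      rw [Nat.sub_add_cancel h2, Nat.mul_div_cancel_left _ hp0]
      omega
    · intro k hk
      rw [Finset.mem_filter, Finset.mem_range] at hk
      obtain ⟨hk, β, hβ⟩ := hk
      have hdiv : (k + 1) / p = β := by rw [hβ]; exact Nat.mul_div_cancel_left _ hp0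
      have hβ1 : 1 ≤ β := by
        rcases Nat.eq_zero_or_pos β with h | h
        · rw [h] at hβ; omega
        · exact h
      rw [hdiv, Nat.sub_add_cancel hβ1]
  have hNf : ((p * α).factorial : K) = (p : K) * (α : K) * ((p * α - 1).factorial : K) := by
    have : (p * α).factorial = (p * α) * (p * α - 1).factorial := by
      rw [Nat.mul_factorial_pred (by omega)]
    rw [this]; push_cast; ring
  have hcs : ∑ β ∈ Finset.range α, M (β + 1) =
      2 * ((-1) ^ α * ((2 * α).choose α : K) * ((p * α).factorial : K) * s ^ (p * α)) := by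
    have h1 := (central_sums α).1
    have h2 : (∑ β ∈ Finset.range α, (4 : K) ^ (β + 1) *
        ((2 * (α - 1 - β)).choose (α - 1 - β) : K)) = 2 * (α : K) * ((2 * α).choose α : K) := by
      have := congrArg (Nat.cast : ℕ → K) h1
      push_cast at this
      exact this
    have h3 : ∀ β ∈ Finset.range α, M (β + 1) = ((-1) ^ α * (p : K) *
        ((p * α - 1).factorial : K) * s ^ (p * α)) * ((4 : K) ^ (β + 1) *
        ((2 * (α - 1 - β)).choose (α - 1 - β) : K)) := by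
      intro β _
      have e : α - (β + 1) = α - 1 - β := by omega
      rw [hM]
      simp only
      rw [e]
      ring
    rw [Finset.sum_congr rfl h3, ← Finset.mul_sum, h2, hNf]
    ring
  rw [hMsum, hcs, mul_assoc, ← mul_sub, norm_mul] at hsum
  have h2n : ‖(2 : K)‖ = 1 := by
    have h := (norm_nat_facts (K := K) p hp hpn 2).2.1 (by
      intro h
      have := Nat.le_of_dvd (by norm_num) h
      omega)
    exact_mod_cast h
  rw [h2n, one_mul] at hsum
  exact hsum

end Pool.Agent.Helper805_nf
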