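import Mathlib
import Pool.Agent.Helper805_nf.Defs4

set_option autoImplicit false

namespace Pool.Agent.Helper805_nf

open Finset



theorem delSum_group {K : Type*} [CommRing K] {m : ℕ} (s : K) (gg : Fin m → K) (J : Finset (Fin m) → K)
    (H E' : Finset (Fin m)) (hd : Disjoint H E') (hs : ∀ i ∈ H, gg i = s) (Jh : ℕ → Finset (Fin m) → K)
    (hJ : ∀ As A', As ⊆ H → A' ⊆ E' → J (As ∪ A') = Jh As.card A') :
    delSum gg J (H ∪ E') = ∑ A' ∈ E'.powerset, ∑ a ∈ Finset.range (H.card + 1), (H.card.choose a : K) *
      ((-1) ^ (H.card - a + (E' \ A').card) * ((H.card - a + (E' \ A').card).factorial : K) *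
        s ^ (H.card - a) * (∏ i ∈ E' \ A', gg i) * Jh a A') := by
  have h1 : ∀ A' ∈ E'.powerset, ∑ a ∈ Finset.range (H.card + 1), (H.card.choose a : K) *
      ((-1) ^ (H.card - a + (E' \ A').card) * ((H.card - a + (E' \ A').card).factorial : K) *
        s ^ (H.card - a) * (∏ i ∈ E' \ A', gg i) * Jh a A') =
      ∑ As ∈ H.powerset, ((-1) ^ (H.card - As.card + (E' \ A').card) *
        ((H.card - As.card + (E' \ A').card).factorial : K) *
        s ^ (H.card - As.card) * (∏ i ∈ E' \ A', gg i) * Jh As.card A') := by
    intro A' _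
    rw [Finset.sum_powerset_apply_card (fun a => (-1) ^ (H.card - a + (E' \ A').card) *
        ((H.card - a + (E' \ A').card).factorial : K) *
        s ^ (H.card - a) * (∏ i ∈ E' \ A', gg i) * Jh a A')]
    simp only [nsmul_eq_mul]
  rw [Finset.sum_congr rfl h1, ← Finset.sum_product', delSum]
  refine Finset.sum_nbij' (fun A => (E' \ A, H \ A)) (fun p => (H \ p.2) ∪ (E' \ p.1)) ?_ ?_ ?_ ?_ ?_
  · intro A _
    simp only [Finset.mem_product, Finset.mem_powerset]
    exact ⟨Finset.sdiff_subset, Finset.sdiff_subset⟩
  · intro p _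
    simp only [Finset.mem_powerset]
    exact Finset.union_subset_union Finset.sdiff_subset Finset.sdiff_subset
  · intro A hA
    rw [Finset.mem_powerset] at hA
    ext x
    have := @hA x
    simp only [Finset.mem_union, Finset.mem_sdiff] at this ⊢
    tauto
  · rintro ⟨p1, p2⟩ hp
    simp only [Finset.mem_product, Finset.mem_powerset] at hp
    have hd' := Finset.disjoint_left.1 hd
    ext x
    · have a1 := @hp.1 x
      have a3 := @hd' x
      simp only [Finset.mem_union, Finset.mem_sdiff] at a1 a3 ⊢
      tauto
    · have a1 := @hp.2 x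
      have a3 := @hd' x
      simp only [Finset.mem_union, Finset.mem_sdiff] at a1 a3 ⊢
      tauto
  · intro A hA
    rw [Finset.mem_powerset] at hA
    have hd' := Finset.disjoint_left.1 hd
    have e1 : A = (A ∩ H) ∪ (A ∩ E') := by
      ext x
      have := @hA x
      simp only [Finset.mem_union, Finset.mem_inter] at this ⊢
      tauto
    have e2 : (H ∪ E') \ A = (H \ A) ∪ (E' \ A) := Finset.union_sdiff_distrib _ _ _
    have e3 : E' \ (E' \ A) = A ∩ E' := by
      ext x
      simp only [Finset.mem_sdiff, Finset.mem_inter]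
      tauto
    have hdj : Disjoint (A ∩ H) (A ∩ E') :=
      Finset.disjoint_of_subset_left Finset.inter_subset_right
        (Finset.disjoint_of_subset_right Finset.inter_subset_right hd)
    have e4 : H.card - (H \ A).card = (A ∩ H).card := by
      have := Finset.card_sdiff_add_card_inter H A
      rw [Finset.inter_comm] at this
      omega
    have e5 : A.card = (A ∩ H).card + (A ∩ E').card := by
      conv_lhs => rw [e1]
      exact Finset.card_union_of_disjoint hdj
    have e6 : (∏ i ∈ A, gg i) = s ^ (A ∩ H).card * ∏ i ∈ A ∩ E', gg i := by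
      conv_lhs => rw [e1]
      rw [Finset.prod_union hdj]
      congr 1
      rw [Finset.prod_congr rfl (fun i hi => hs i (Finset.mem_inter.1 hi).2), Finset.prod_const]
    simp only [e3, e4, ← e5]
    rw [e2, hJ _ _ Finset.sdiff_subset Finset.sdiff_subset, e6]
    ring


end Pool.Agent.Helper805_nf
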