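import Mathlib
import Pool.Agent.Helper805_nf.Defs4

set_option autoImplicit false

namespace Pool.Agent.Helper805_nf

open Finset


theorem outer_group {K : Type*} [CommRing K] {m : ℕ} (c : Fin m → K) (G Δ : Finset (Fin m) → K)
    (Q : Finset (Fin m)) (hc : ∀ i ∈ Q, c i = 0) (hG : ∀ B, ∀ i ∈ B, i ∈ Q → G B = 0) :
    ∑ B : Finset (Fin m), ((m - B.card).factorial : K) * (∏ i ∈ Bᶜ, c i) *
        ∑ B0 ∈ B.powerset, G B0 * Δ (B \ B0) =
      ∑ U1 ∈ Qᶜ.powerset, ∑ B0 ∈ (Qᶜ \ U1).powerset,
        ((m - (Q.card + U1.card + B0.card)).factorial : K) * (∏ i ∈ (Qᶜ \ U1) \ B0, c i) * G B0 *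
          Δ (Q ∪ U1) := by
  have hL : ∀ B : Finset (Fin m), ((m - B.card).factorial : K) * (∏ i ∈ Bᶜ, c i) *
        ∑ B0 ∈ B.powerset, G B0 * Δ (B \ B0) =
      ∑ B0 ∈ B.powerset, ((m - B.card).factorial : K) * (∏ i ∈ Bᶜ, c i) *
        (G B0 * Δ (B \ B0)) := fun B => by rw [Finset.mul_sum]
  rw [Finset.sum_congr rfl fun B _ => hL B, Finset.sum_sigma', Finset.sum_sigma']
  symm
  refine Finset.sum_of_injOn
    (e := fun x : (_ : Finset (Fin m)) × Finset (Fin m) => ⟨Q ∪ x.1 ∪ x.2, x.2⟩) ?_ ?_ ?_ ?_
  · rintro ⟨U1, B0⟩ h1 ⟨U2, B1⟩ h2 h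
    simp only [Finset.coe_sigma, Set.mem_sigma_iff, Finset.mem_coe, Finset.mem_powerset] at h1 h2
    simp only [Sigma.mk.injEq, heq_eq_eq] at h
    obtain ⟨h3, h4⟩ := h
    subst h4
    have : U1 = U2 := by
      ext i
      have e1 := Finset.ext_iff.1 h3 i
      simp only [Finset.mem_union] at e1
      constructor
      · intro hi
        have a1 : i ∉ Q := by simpa using h1.1 hi
        have a2 : i ∉ B0 := fun hb => by
          have := h1.2 hb
          simp only [Finset.mem_sdiff] at this
          exact this.2 hi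
        tauto
      · intro hi
        have a1 : i ∉ Q := by simpa using h2.1 hi
        have a2 : i ∉ B0 := fun hb => by
          have := h2.2 hb
          simp only [Finset.mem_sdiff] at this
          exact this.2 hi
        tauto
    rw [this]
  · rintro ⟨U1, B0⟩ _
    simp only [Finset.coe_sigma, Set.mem_sigma_iff, Finset.mem_coe, Finset.mem_powerset,
      Finset.mem_univ, true_and]
    exact Finset.subset_union_right
  · rintro ⟨B, B0⟩ h1 h2
    simp only [Finset.mem_sigma, Finset.mem_univ, true_and, Finset.mem_powerset] at h1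
    show ((m - B.card).factorial : K) * (∏ i ∈ Bᶜ, c i) * (G B0 * Δ (B \ B0)) = 0
    by_cases hQ : Q ⊆ B
    · by_cases hd : ∃ i, i ∈ B0 ∧ i ∈ Q
      · obtain ⟨i, hi, hi'⟩ := hd
        rw [hG B0 i hi hi']
        ring
      · exfalso
        push Not at hd
        apply h2
        refine ⟨⟨(B \ Q) \ B0, B0⟩, ?_, ?_⟩
        · simp only [Finset.coe_sigma, Set.mem_sigma_iff, Finset.mem_coe, Finset.mem_powerset]
          constructor
          · intro i hi
            simp only [Finset.mem_sdiff] at hi
            simp only [Finset.mem_compl]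
            exact hi.1.2
          · intro i hi
            simp only [Finset.mem_sdiff, Finset.mem_compl]
            exact ⟨hd i hi, fun h => h.2 hi⟩
        · simp only [Sigma.mk.injEq, heq_eq_eq, and_true]
          ext i
          simp only [Finset.mem_union, Finset.mem_sdiff]
          constructor
          · rintro ((h | h) | h)
            · exact hQ h
            · exact h.1.1
            · exact h1 h
          · intro h
            by_cases a : i ∈ Q
            · exact Or.inl (Or.inl a)
            · by_cases b : i ∈ B0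
              · exact Or.inr b
              · exact Or.inl (Or.inr ⟨⟨h, a⟩, b⟩)
    · obtain ⟨i, hi, hi'⟩ := Finset.not_subset.1 hQ
      rw [Finset.prod_eq_zero (i := i) (by simpa using hi') (hc i hi)]
      ring
  · rintro ⟨U1, B0⟩ h1
    simp only [Finset.mem_sigma, Finset.mem_powerset] at h1
    obtain ⟨h1, h2⟩ := h1
    have d1 : Disjoint Q U1 := by
      rw [Finset.disjoint_left]
      intro i hi hi'
      have := h1 hi'
      simp only [Finset.mem_compl] at this
      exact this hi
    have d2 : Disjoint (Q ∪ U1) B0 := by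
      rw [Finset.disjoint_left]
      intro i hi hi'
      have := h2 hi'
      simp only [Finset.mem_sdiff, Finset.mem_compl] at this
      rw [Finset.mem_union] at hi
      tauto
    have e1 : (Q ∪ U1 ∪ B0).card = Q.card + U1.card + B0.card := by
      rw [Finset.card_union_of_disjoint d2, Finset.card_union_of_disjoint d1]
    have e2 : (Q ∪ U1 ∪ B0)ᶜ = (Qᶜ \ U1) \ B0 := by
      ext i
      simp only [Finset.mem_compl, Finset.mem_union, Finset.mem_sdiff]
      tauto
    have e3 : (Q ∪ U1 ∪ B0) \ B0 = Q ∪ U1 := by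
      rw [Finset.union_sdiff_right, Finset.sdiff_eq_self_of_disjoint d2]
    show ((m - (Q.card + U1.card + B0.card)).factorial : K) * (∏ i ∈ (Qᶜ \ U1) \ B0, c i) *
        G B0 * Δ (Q ∪ U1) = ((m - (Q ∪ U1 ∪ B0).card).factorial : K) *
        (∏ i ∈ (Q ∪ U1 ∪ B0)ᶜ, c i) * (G B0 * Δ ((Q ∪ U1 ∪ B0) \ B0))
    rw [e1, e2, e3]
    ring


end Pool.Agent.Helper805_nf
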