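-- job 7792 done by helper586; statement unchanged, helpers have names starting z14c_
import Mathlib
import Pool.Agent.Helper805_nf.Defs4
import Pool.Agent.Helper805_nf.Y1
import Pool.Agent.Helper805_nf.Z11a

set_option autoImplicit false

namespace Pool.Agent.Helper805_nf

open Finset





theorem z14c_pos {K : Type*} [NormedField K] [IsUltrametricDist K] (p : ℕ) (hp : p.Prime)
    (hpn : ‖(p : K)‖ = (p : ℝ)⁻¹) (n : ℕ) (hn : n ≠ 0) : 0 < ‖(n : K)‖ := by
  obtain ⟨e, n', hn', rfl⟩ := Nat.exists_eq_pow_mul_and_not_dvd hn p hp.ne_one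
  have hp0 : (0 : ℝ) < p := by exact_mod_cast hp.pos
  push_cast
  rw [norm_mul, norm_pow, hpn, (norm_nat_facts p hp hpn n').2.1 hn', mul_one]
  positivity

theorem z14c_oG_ge (p g : ℕ) : (p - 1) * g ≤ oG p g := by
  unfold oG
  split_ifs with h
  · subst h; simp
  · have h1 : 1 ≤ g := Nat.pos_of_ne_zero h
    rw [Nat.sub_mul, one_mul]
    omega

theorem z14c_fin (t : ℝ) (ht0 : 0 < t) (ht1 : t < 1) (V : ℝ) (hV : 0 < V) (e R : ℕ) (h : R < e)
    (N : ℝ) (hN : N ≤ V * t ^ e) : N < V * t ^ R :=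
  lt_of_le_of_lt hN (mul_lt_mul_of_pos_left (pow_lt_pow_right_of_lt_one₀ ht0 ht1 h) hV)

theorem z14c_fin2 (t : ℝ) (ht0 : 0 < t) (ht1 : t < 1) (V : ℝ) (hV : 0 < V) (e R r : ℕ)
    (h : R + r < e) (N : ℝ) (hN : N * t ^ r ≤ V * t ^ e) : N < V * t ^ R := by
  have h1 := z14c_fin t ht0 ht1 V hV e (R + r) h _ hN
  rw [pow_add, ← mul_assoc] at h1
  exact lt_of_mul_lt_mul_right h1 (pow_nonneg ht0.le r)

/-- The norm of the grouped term. -/
theorem z14c_norm {K : Type*} [NormedField K] [IsUltrametricDist K] (p m : ℕ) (t : ℝ) (ht0 : 0 < t)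
    (c gg : Fin m → K) (g : Fin m → ℕ) (GB : K) (s : K) (hs : ‖s‖ = t ^ (p - 1))
    (hc : ∀ i, ‖c i‖ ≤ 1) (hgg : ∀ i, ‖gg i‖ ≤ t ^ oG p (g i)) (b : ℕ)
    (hG : ‖GB‖ ≤ t ^ (2 * p * b)) (X Cc y J : K) (Z F : Finset (Fin m)) (e d : ℕ) :
    ‖X * (∏ i ∈ Z, c i) * GB * (Cc * ((-1) ^ e * y * s ^ d * (∏ i ∈ F, gg i) * J))‖ ≤
      ‖X‖ * t ^ (2 * p * b) * (‖Cc * (y * J)‖ * ((t ^ (p - 1)) ^ d * t ^ (∑ i ∈ F, oG p (g i)))) := by
  have h1 : ‖∏ i ∈ Z, c i‖ ≤ 1 := by
    rw [norm_prod]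
    exact Finset.prod_le_one (fun i _ => norm_nonneg _) (fun i _ => hc i)
  have h2 : ‖∏ i ∈ F, gg i‖ ≤ t ^ (∑ i ∈ F, oG p (g i)) := by
    rw [norm_prod, ← Finset.prod_pow_eq_pow_sum]
    exact Finset.prod_le_prod (fun i _ => norm_nonneg _) (fun i _ => hgg i)
  have h3 : ‖X * (∏ i ∈ Z, c i) * GB * (Cc * ((-1) ^ e * y * s ^ d * (∏ i ∈ F, gg i) * J))‖ =
      (‖X‖ * ‖∏ i ∈ Z, c i‖ * ‖GB‖) *
        (‖Cc * (y * J)‖ * ((t ^ (p - 1)) ^ d * ‖∏ i ∈ F, gg i‖)) := by
    simp only [norm_mul, norm_pow, norm_neg, norm_one, one_pow, hs]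
    ring
  rw [h3]
  have h4 : ‖X‖ * ‖∏ i ∈ Z, c i‖ * ‖GB‖ ≤ ‖X‖ * t ^ (2 * p * b) := by
    have h5 : ‖X‖ * ‖∏ i ∈ Z, c i‖ ≤ ‖X‖ := by
      calc ‖X‖ * ‖∏ i ∈ Z, c i‖ ≤ ‖X‖ * 1 := mul_le_mul_of_nonneg_left h1 (norm_nonneg _)
        _ = ‖X‖ := mul_one _
    exact mul_le_mul h5 hG (norm_nonneg _) (norm_nonneg _)
  have h6 : ‖Cc * (y * J)‖ * ((t ^ (p - 1)) ^ d * ‖∏ i ∈ F, gg i‖) ≤
      ‖Cc * (y * J)‖ * ((t ^ (p - 1)) ^ d * t ^ (∑ i ∈ F, oG p (g i))) := by
    apply mul_le_mul_of_nonneg_left _ (norm_nonneg _)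
    exact mul_le_mul_of_nonneg_left h2 (by positivity)
  exact mul_le_mul h4 h6 (by positivity) (by positivity)

/-- The final arithmetic in the last case. -/
theorem z14c_arith (p q W j w k D b Y : ℕ) (hq : p = 2 * q + 1) (hWj : W = j * p + w)
    (hkD : k ≤ D) (hcase : (1 ≤ w ∧ w + D ≤ q) ∨ (D = 0 ∧ q ≤ w)) (hY : Y = W + k + b)
    (hYq : q ≤ Y % p) (hne : ¬ (b = q - (w + k) ∧ k = D)) :
    2 * (q - (w + D)) + k < D + 2 * b := by
  by_contra hcon
  push Not at hcon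
  have h1 : Y % p = (w + k + b) % p := by
    rw [hY, hWj]
    have : j * p + w + k + b = j * p + (w + k + b) := by ring
    rw [this, Nat.mul_add_mod']
  by_cases h2 : w + k + b < q
  · rw [h1, Nat.mod_eq_of_lt (by omega)] at hYq
    omega
  · apply hne
    rcases hcase with ⟨h3, h4⟩ | ⟨h3, h4⟩
    · omega
    · omega

theorem ident_term {K : Type*} [NormedField K] [IsUltrametricDist K] (p q m : ℕ) (hp : p.Prime)
    (hq : p = 2 * q + 1) (h5 : 5 ≤ p) (hpn : ‖(p : K)‖ = (p : ℝ)⁻¹) (t : ℝ) (ht0 : 0 < t) (ht1 : t < 1)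
    (htp : t ^ (p * (p - 1)) = (p : ℝ)⁻¹) (hm : m = p * q - 1 + q) (c gg : Fin m → K) (g : Fin m → ℕ)
    (G : Finset (Fin m) → K) (Jh : ℕ → Finset (Fin m) → K) (H T : Finset (Fin m)) (hHT : Disjoint H T)
    (s : K) (hs : ‖s‖ = t ^ (p - 1)) (hgT : ∀ i ∈ T, 1 ≤ g i) (hgU : ∀ i, i ∉ H → i ∉ T → g i = 0)
    (hc : ∀ i, ‖c i‖ ≤ 1) (hgg : ∀ i, ‖gg i‖ ≤ t ^ oG p (g i)) (hG : ∀ B, ‖G B‖ ≤ t ^ (2 * p * B.card))
    (W j w k D : ℕ) (hW : H.card = W) (hWj : W = j * p + w) (hwp : w < p) (hk : T.card = k)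
    (hD : ∑ i ∈ T, g i = D) (hcase : (1 ≤ w ∧ w + D ≤ q) ∨ (D = 0 ∧ q ≤ w))
    (hJ1 : ∀ (y a : ℕ) (A' : Finset (Fin m)), a ≤ W → Disjoint A' H → y + a + A'.card < p ^ 2 →
      (‖(y.factorial : K) * Jh a A'‖ * t ^ (p - 1) ≤
        ‖((y + a + A'.card).factorial : K)‖ * (t ^ (p - 1)) ^ (a + ∑ i ∈ A', g i)) ∧
      (¬ (y % p = p - 1 ∧ (y + a + A'.card) % p = 0) → ‖(y.factorial : K) * Jh a A'‖ ≤
        ‖((y + a + A'.card).factorial : K)‖ * (t ^ (p - 1)) ^ (a + ∑ i ∈ A', g i)) ∧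
      (q ≤ (y + a + A'.card) % p → (A'.Nonempty ∨ ¬ p ∣ a) →
        ‖(W.choose a : K) * ((y.factorial : K) * Jh a A')‖ ≤
          ‖((y + a + A'.card).factorial : K)‖ * (t ^ (p - 1)) ^ (a + ∑ i ∈ A', g i + 1)))
    (U1 B0 A' : Finset (Fin m)) (a : ℕ) (hU1 : Disjoint U1 (H ∪ T)) (hB0 : Disjoint B0 (H ∪ T))
    (hd : Disjoint U1 B0) (hA' : A' ⊆ T ∪ U1) (ha : a ≤ W) (hY : W + k + U1.card ≤ p * q - 1)
    (hb0 : B0.card ≤ q)
    (hne : ¬ (B0 = ∅ ∧ A' = ∅ ∧ p ∣ a ∧ U1.card = q - (w + k) ∧ k = D)) :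
    ‖((m - (W + k + U1.card + B0.card)).factorial : K) * (∏ i ∈ ((H ∪ T)ᶜ \ U1) \ B0, c i) * G B0 *
      ((W.choose a : K) * ((-1) ^ (W - a + ((T ∪ U1) \ A').card) *
        ((W - a + ((T ∪ U1) \ A').card).factorial : K) * s ^ (W - a) *
          (∏ i ∈ (T ∪ U1) \ A', gg i) * Jh a A'))‖ <
      ‖((p * q - 1).factorial : K)‖ * t ^ ((p - 1) * (W + D) + 2 * (q - (w + D))) := by
  set F := (T ∪ U1) \ A' with hF
  set b := U1.card with hb
  set y := W - a + F.card with hy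
  have hTU : Disjoint T U1 := by
    rw [Finset.disjoint_union_right] at hU1
    exact hU1.2.symm
  have hcTU : (T ∪ U1).card = k + b := by
    rw [Finset.card_union_of_disjoint hTU, hk]
  have hFc : F.card + A'.card = k + b := by
    rw [hF, Finset.card_sdiff_add_card_eq_card hA', hcTU]
  have hYe : y + a + A'.card = W + k + b := by omega
  have hA'H : Disjoint A' H := by
    apply Finset.disjoint_of_subset_left hA'
    rw [Finset.disjoint_union_left]
    rw [Finset.disjoint_union_right] at hU1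
    exact ⟨hHT.symm, hU1.1⟩
  have hp2 : y + a + A'.card < p ^ 2 := by
    rw [hYe]
    have h1 : p * q < p ^ 2 := by
      rw [pow_two]
      exact Nat.mul_lt_mul_of_pos_left (by omega) (by omega)
    omega
  obtain ⟨hJa, hJb, hJc⟩ := hJ1 y a A' ha hA'H hp2
  rw [hYe] at hJa hJb hJc
  have hgU1 : ∀ i ∈ U1, g i = 0 := by
    intro i hi
    rw [Finset.disjoint_union_right] at hU1
    exact hgU i (fun h => Finset.disjoint_left.mp hU1.1 hi h)
      (fun h => Finset.disjoint_left.mp hU1.2 hi h)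
  have hsg : ∑ i ∈ F, g i + ∑ i ∈ A', g i = D := by
    rw [hF, Finset.sum_sdiff hA', Finset.sum_union hTU, hD, Finset.sum_eq_zero hgU1, add_zero]
  have hkD : k ≤ D := by
    rw [← hk, ← hD, Finset.card_eq_sum_ones]
    exact Finset.sum_le_sum hgT
  have hEge : (p - 1) * ∑ i ∈ F, g i ≤ ∑ i ∈ F, oG p (g i) := by
    rw [Finset.mul_sum]
    exact Finset.sum_le_sum (fun i _ => z14c_oG_ge p (g i))
  have hV : 0 < ‖((p * q - 1).factorial : K)‖ :=
    z14c_pos p hp hpn _ (Nat.factorial_ne_zero _)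
  set V := ‖((p * q - 1).factorial : K)‖ with hVd
  set x := m - (W + k + b + B0.card) with hx
  have hpq : q ≤ p * q - 1 := by
    have : 5 * q ≤ p * q := Nat.mul_le_mul_right q h5
    omega
  have hxY : x + (W + k + b) + B0.card = p * q - 1 + q := by omega
  obtain ⟨hft1, hft2⟩ := fact_total p q hp hq hpn x (W + k + b) B0.card hxY hb0
  have hCW : ‖((W.choose a : ℕ) : K)‖ ≤ 1 := (norm_nat_facts p hp hpn _).1
  have hN := z14c_norm p m t ht0 c gg g (G B0) s hs hc hgg B0.card (hG B0)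
    ((x.factorial : ℕ) : K) ((W.choose a : ℕ) : K) ((y.factorial : ℕ) : K) (Jh a A')
    (((H ∪ T)ᶜ \ U1) \ B0) F (W - a + F.card) (W - a)
  set E := ∑ i ∈ F, oG p (g i) with hE
  set X := ‖((x.factorial : ℕ) : K)‖ with hXd
  have hX0 : 0 ≤ X := norm_nonneg _
  set J := ‖((W.choose a : ℕ) : K) * (((y.factorial : ℕ) : K) * Jh a A')‖ with hJd
  have hJ0 : 0 ≤ J := norm_nonneg _
  set J' := ‖((y.factorial : ℕ) : K) * Jh a A'‖ with hJ'd
  have hJ'0 : 0 ≤ J' := norm_nonneg _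
  have hJJ' : J ≤ J' := by
    rw [hJd, norm_mul]
    calc _ ≤ 1 * J' := mul_le_mul_of_nonneg_right hCW hJ'0
      _ = J' := one_mul _
  set YY := ‖(((W + k + b).factorial : ℕ) : K)‖ with hYYd
  have hYY0 : 0 ≤ YY := norm_nonneg _
  set SA := ∑ i ∈ A', g i with hSA
  -- exponents
  have hp1 : p - 1 = 2 * q := by omega
  have hexp : (p - 1) * (W + D) ≤ (p - 1) * (a + SA) + ((p - 1) * (W - a) + E) := by
    have h1 : (p - 1) * (W + D) = (p - 1) * (a + SA) + ((p - 1) * (W - a) +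
        (p - 1) * ∑ i ∈ F, g i) := by
      rw [← Nat.mul_add, ← Nat.mul_add]
      congr 1
      omega
    rw [h1]
    omega
  have hsmall : 2 * (q - (w + D)) < 2 * q := by
    rcases hcase with ⟨h1, h2⟩ | ⟨h1, h2⟩ <;> omega
  refine lt_of_le_of_lt hN ?_
  by_cases hB : B0 = ∅
  · have hB1 : B0.card = 0 := by rw [hB]; simp
    by_cases hYp : (W + k + b) % p < q
    · -- case (ii)
      have hft := hft2 hB1 hYp
      apply z14c_fin2 t ht0 ht1 V hV (p * (p - 1) + (p - 1) * (W + D)) _ (p - 1)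
      · have h1 : 5 * (p - 1) ≤ p * (p - 1) := Nat.mul_le_mul_right _ h5
        omega
      · have e1 : X * t ^ (2 * p * B0.card) * (J * ((t ^ (p - 1)) ^ (W - a) * t ^ E)) * t ^ (p - 1) =
            X * (J * t ^ (p - 1)) * ((t ^ (p - 1)) ^ (W - a) * t ^ E) := by
          rw [hB1]; ring
        have e2 : J * t ^ (p - 1) ≤ YY * (t ^ (p - 1)) ^ (a + SA) :=
          le_trans (mul_le_mul_of_nonneg_right hJJ' (by positivity)) hJa
        rw [e1]
        calc X * (J * t ^ (p - 1)) * ((t ^ (p - 1)) ^ (W - a) * t ^ E)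
            ≤ X * (YY * (t ^ (p - 1)) ^ (a + SA)) * ((t ^ (p - 1)) ^ (W - a) * t ^ E) :=
              mul_le_mul_of_nonneg_right (mul_le_mul_of_nonneg_left e2 hX0) (by positivity)
          _ = (X * YY) * ((t ^ (p - 1)) ^ (a + SA) * ((t ^ (p - 1)) ^ (W - a) * t ^ E)) := by ring
          _ ≤ ((p : ℝ)⁻¹ * V) * ((t ^ (p - 1)) ^ (a + SA) * ((t ^ (p - 1)) ^ (W - a) * t ^ E)) :=
              mul_le_mul_of_nonneg_right hft (by positivity)
          _ = V * t ^ (p * (p - 1) + ((p - 1) * (a + SA) + ((p - 1) * (W - a) + E))) := by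
              rw [← htp, ← pow_mul, ← pow_mul, ← pow_add, ← pow_add, pow_add t (p * (p - 1))]
              ring
          _ ≤ V * t ^ (p * (p - 1) + (p - 1) * (W + D)) := by
              apply mul_le_mul_of_nonneg_left _ hV.le
              exact pow_le_pow_of_le_one ht0.le ht1.le (by omega)
    · push Not at hYp
      by_cases hA : A'.Nonempty ∨ ¬ p ∣ a
      · -- case (iii)
        have hJ3 := hJc hYp hA
        apply z14c_fin t ht0 ht1 V hV ((p - 1) * (W + D) + (p - 1)) _ (by omega)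
        have e1 : X * t ^ (2 * p * B0.card) * (J * ((t ^ (p - 1)) ^ (W - a) * t ^ E)) =
            X * J * ((t ^ (p - 1)) ^ (W - a) * t ^ E) := by
          rw [hB1]; ring
        rw [e1]
        calc X * J * ((t ^ (p - 1)) ^ (W - a) * t ^ E)
            ≤ X * (YY * (t ^ (p - 1)) ^ (a + SA + 1)) * ((t ^ (p - 1)) ^ (W - a) * t ^ E) :=
              mul_le_mul_of_nonneg_right (mul_le_mul_of_nonneg_left hJ3 hX0) (by positivity)
          _ = (X * YY) * ((t ^ (p - 1)) ^ (a + SA + 1) * ((t ^ (p - 1)) ^ (W - a) * t ^ E)) := by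
              ring
          _ ≤ V * ((t ^ (p - 1)) ^ (a + SA + 1) * ((t ^ (p - 1)) ^ (W - a) * t ^ E)) :=
              mul_le_mul_of_nonneg_right hft1 (by positivity)
          _ = V * t ^ ((p - 1) * (a + SA) + ((p - 1) * (W - a) + E) + (p - 1)) := by
              rw [pow_succ, ← pow_mul, ← pow_mul, pow_add, pow_add, pow_add]
              ring
          _ ≤ V * t ^ ((p - 1) * (W + D) + (p - 1)) := by
              apply mul_le_mul_of_nonneg_left _ hV.le
              exact pow_le_pow_of_le_one ht0.le ht1.le (by omega)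
      · -- case (iv)
        push Not at hA
        obtain ⟨hA1, hA2⟩ := hA
        have hJ2 := hJb (fun h => by omega)
        have hSA0 : SA = 0 := by rw [hSA, hA1]; simp
        have hFe : F = T ∪ U1 := by rw [hF, hA1]; simp
        have hET : ∑ i ∈ T, oG p (g i) + k = p * D := by
          rw [← hk, ← hD, Finset.card_eq_sum_ones, ← Finset.sum_add_distrib, Finset.mul_sum]
          apply Finset.sum_congr rfl
          intro i hi
          have h1 := hgT i hi
          have h2 : oG p (g i) = p * g i - 1 := by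
            unfold oG
            rw [if_neg (by omega)]
          rw [h2]
          have h3 : 1 ≤ p * g i := Nat.mul_pos hp.pos h1
          omega
        have hEU : ∑ i ∈ U1, oG p (g i) = 2 * b := by
          rw [Finset.sum_congr rfl (fun i hi => by rw [hgU1 i hi] : ∀ i ∈ U1, oG p (g i) = oG p 0)]
          simp [oG, hb, mul_comm]
        have hEe : E + k = p * D + 2 * b := by
          rw [hE, hFe, Finset.sum_union hTU, hEU]
          omega
        have hpD : p * D = (p - 1) * D + D := by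
          have : p = (p - 1) + 1 := by omega
          conv_lhs => rw [this]
          ring
        have har := z14c_arith p q W j w k D b (W + k + b) hq hWj hkD hcase rfl hYp
          (fun h => hne ⟨hB, hA1, hA2, h.1, h.2⟩)
        apply z14c_fin t ht0 ht1 V hV ((p - 1) * W + E) _
        · rw [Nat.mul_add]
          omega
        have e1 : X * t ^ (2 * p * B0.card) * (J * ((t ^ (p - 1)) ^ (W - a) * t ^ E)) =
            X * J * ((t ^ (p - 1)) ^ (W - a) * t ^ E) := by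
          rw [hB1]; ring
        rw [e1]
        calc X * J * ((t ^ (p - 1)) ^ (W - a) * t ^ E)
            ≤ X * (YY * (t ^ (p - 1)) ^ (a + SA)) * ((t ^ (p - 1)) ^ (W - a) * t ^ E) :=
              mul_le_mul_of_nonneg_right
                (mul_le_mul_of_nonneg_left (le_trans hJJ' hJ2) hX0) (by positivity)
          _ = (X * YY) * ((t ^ (p - 1)) ^ (a + SA) * ((t ^ (p - 1)) ^ (W - a) * t ^ E)) := by
              ring
          _ ≤ V * ((t ^ (p - 1)) ^ (a + SA) * ((t ^ (p - 1)) ^ (W - a) * t ^ E)) :=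
              mul_le_mul_of_nonneg_right hft1 (by positivity)
          _ = V * t ^ ((p - 1) * a + (p - 1) * (W - a) + E) := by
              rw [hSA0, add_zero, ← pow_mul, ← pow_mul, pow_add, pow_add]
              ring
          _ = V * t ^ ((p - 1) * W + E) := by
              rw [← Nat.mul_add]
              congr 4
              omega
  · -- case (i)
    have hB1 : 1 ≤ B0.card := Finset.card_pos.mpr (Finset.nonempty_iff_ne_empty.mpr hB)
    apply z14c_fin2 t ht0 ht1 V hV (2 * p + (p - 1) * (W + D)) _ (p - 1)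
    · omega
    · have e1 : X * t ^ (2 * p * B0.card) * (J * ((t ^ (p - 1)) ^ (W - a) * t ^ E)) * t ^ (p - 1) =
          X * (J * t ^ (p - 1)) * (t ^ (2 * p * B0.card) * ((t ^ (p - 1)) ^ (W - a) * t ^ E)) := by
        ring
      have e2 : J * t ^ (p - 1) ≤ YY * (t ^ (p - 1)) ^ (a + SA) :=
        le_trans (mul_le_mul_of_nonneg_right hJJ' (by positivity)) hJa
      have e3 : 2 * p * 1 ≤ 2 * p * B0.card := Nat.mul_le_mul_left _ hB1
      rw [e1]
      calc X * (J * t ^ (p - 1)) * (t ^ (2 * p * B0.card) * ((t ^ (p - 1)) ^ (W - a) * t ^ E))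
          ≤ X * (YY * (t ^ (p - 1)) ^ (a + SA)) *
            (t ^ (2 * p * B0.card) * ((t ^ (p - 1)) ^ (W - a) * t ^ E)) :=
            mul_le_mul_of_nonneg_right (mul_le_mul_of_nonneg_left e2 hX0) (by positivity)
        _ = (X * YY) * ((t ^ (p - 1)) ^ (a + SA) *
            (t ^ (2 * p * B0.card) * ((t ^ (p - 1)) ^ (W - a) * t ^ E))) := by ring
        _ ≤ V * ((t ^ (p - 1)) ^ (a + SA) *
            (t ^ (2 * p * B0.card) * ((t ^ (p - 1)) ^ (W - a) * t ^ E))) :=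
            mul_le_mul_of_nonneg_right hft1 (by positivity)
        _ = V * t ^ (2 * p * B0.card + ((p - 1) * (a + SA) + ((p - 1) * (W - a) + E))) := by
            rw [← pow_mul, ← pow_mul, pow_add t (2 * p * B0.card), pow_add t ((p - 1) * (a + SA)),
              pow_add t ((p - 1) * (W - a))]
            ring
        _ ≤ V * t ^ (2 * p + (p - 1) * (W + D)) := by
            apply mul_le_mul_of_nonneg_left _ hV.le
            exact pow_le_pow_of_le_one ht0.le ht1.le (by omega)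


end Pool.Agent.Helper805_nf
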