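import Mathlib
import Pool.Agent.Helper805_nf.Defs4
import Pool.Agent.Helper805_nf.Y1
import Pool.Agent.Helper805_nf.Z13a
import Pool.Agent.Helper805_nf.Z9

set_option autoImplicit false

namespace Pool.Agent.Helper805_nf

open Finset





theorem z14d_asc (p a b k : ℕ) (h : a ≡ b [MOD p]) :
    a.ascFactorial k ≡ b.ascFactorial k [MOD p] := by
  induction k with
  | zero => exact Nat.ModEq.refl _
  | succ k ih =>
    rw [Nat.ascFactorial_succ, Nat.ascFactorial_succ]
    exact Nat.ModEq.mul (Nat.ModEq.add_right k h) ih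

theorem z14d_modsum (p j R : ℕ) (f g : ℕ → ℕ) (h : ∀ α ∈ Finset.range (j + 1), g α ≡ R [MOD p]) :
    ∑ α ∈ Finset.range (j + 1), f α * g α ≡ R * ∑ α ∈ Finset.range (j + 1), f α [MOD p] := by
  have h1 : ∀ S : Finset ℕ, (∀ α ∈ S, g α ≡ R [MOD p]) →
      ∑ α ∈ S, f α * g α ≡ R * ∑ α ∈ S, f α [MOD p] := by
    intro S
    classical
    induction S using Finset.induction_on with
    | empty => intro _; exact Nat.ModEq.refl _
    | insert a S ha ih =>
      intro hS
      rw [Finset.sum_insert ha, Finset.sum_insert ha, mul_add]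
      apply Nat.ModEq.add
      · rw [mul_comm R]
        exact Nat.ModEq.mul_left _ (hS a (Finset.mem_insert_self _ _))
      · exact ih (fun α hα => hS α (Finset.mem_insert_of_mem hα))
  exact h1 _ h

theorem alpha_sum {K : Type*} [NormedField K] [IsUltrametricDist K] (p q : ℕ) (hp : p.Prime)
    (hq : p = 2 * q + 1) (h5 : 5 ≤ p) (hpn : ‖(p : K)‖ = (p : ℝ)⁻¹) (τ : ℝ) (hτ0 : 0 < τ) (hτ1 : τ < 1)
    (hτ : τ ^ p = (p : ℝ)⁻¹) (W j w K0 : ℕ) (hWj : W = j * p + w) (hj : j + 1 ≤ q)
    (hw : (w + K0 = q) ∨ (K0 = 0 ∧ q ≤ w ∧ w < p)) (s : K) (hs : ‖s‖ = τ) (Jv : ℕ → K)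
    (hJv : ∀ α : ℕ, α ≤ j → ‖(4 : K) ^ α * Jv α - (-1) ^ α * ((2 * α).choose α : K) * ((p * α).factorial : K) *
      s ^ (p * α)‖ < ‖((p * α).factorial : K)‖ * τ ^ (p * α)) :
    ‖((p * q - 1 + q - (W + K0)).factorial : K) * ∑ α ∈ Finset.range (j + 1), (W.choose (p * α) : K) *
      ((-1) ^ (W - p * α + K0) * ((W - p * α + K0).factorial : K) * s ^ (W - p * α) * Jv α)‖ =
      ‖((p * q - 1).factorial : K)‖ * τ ^ W := by
  classical
  have hp0 : 0 < p := hp.pos
  have hp1 : (1 : ℝ) < p := by exact_mod_cast hp.one_lt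
  have hpinv : (0 : ℝ) < (p : ℝ)⁻¹ := by positivity
  obtain ⟨hfb, -⟩ := fact_block (K := K) p hp hpn
  have hwp : w < p := by omega
  have hqp : q * p + p ≤ p ^ 2 := by
    rw [pow_two]
    nlinarith
  have hjq : j * p + p ≤ q * p := by nlinarith
  have hWlt : W < p ^ 2 := by omega
  have hWK : W + K0 ≤ j * p + p := by omega
  have hWdiv : W / p = j := by
    rw [hWj]
    rw [show j * p + w = w + p * j by ring, Nat.add_mul_div_left _ _ hp0, Nat.div_eq_of_lt hwp, zero_add]
  -- step 1
  have hstep1 : ‖((p * q - 1 + q - (W + K0)).factorial : K)‖ * ‖(W.factorial : K)‖ =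
      ‖((p * q - 1).factorial : K)‖ := by
    obtain ⟨i, hi⟩ : ∃ i, q = j + 1 + i := ⟨q - (j + 1), by omega⟩
    obtain ⟨v, hv1, hv2⟩ : ∃ v, v < p ∧ p * q - 1 + q - (W + K0) = p * i + v := by
      rcases hw with hA | ⟨hB, hB1, hB2⟩
      · refine ⟨p - 1, by omega, ?_⟩
        have e1 : p * q = p * j + p + p * i := by rw [hi]; ring
        have e2 : j * p = p * j := mul_comm _ _
        omega
      · refine ⟨p - 1 - (w - q), by omega, ?_⟩
        have e1 : p * q = p * j + p + p * i := by rw [hi]; ring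
        have e2 : j * p = p * j := mul_comm _ _
        omega
    have hX : (p * q - 1 + q - (W + K0)) / p = i := by
      rw [hv2, Nat.mul_add_div hp0, Nat.div_eq_of_lt hv1, add_zero]
    have hXlt : p * q - 1 + q - (W + K0) < p ^ 2 := by
      rw [hv2]
      have e1 : q * p = p * j + p + p * i := by rw [hi]; ring
      have e3 : 0 ≤ p * j := Nat.zero_le _
      omega
    have hY : (p * q - 1) / p = q - 1 := by
      have e1 : p * q - 1 = p * (q - 1) + (p - 1) := by
        have e2 : p * q = p * (q - 1) + p := by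
          have : q = (q - 1) + 1 := by omega
          calc p * q = p * ((q - 1) + 1) := by rw [← this]
            _ = p * (q - 1) + p := by ring
        omega
      rw [e1, Nat.mul_add_div hp0, Nat.div_eq_of_lt (by omega), add_zero]
    have hYlt : p * q - 1 < p ^ 2 := by
      have e1 : p * q = q * p := mul_comm _ _
      omega
    rw [hfb _ hXlt, hfb _ hWlt, hfb _ hYlt, hX, hWdiv, hY, ← pow_add]
    congr 1
    omega
  -- step 2
  have hno := norm_nat_facts (K := K) p hp hpn
  have h4 : ‖(4 : K)‖ = 1 := by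
    have h := (hno 4).2.1 (by
      intro hd
      have := Nat.le_of_dvd (by norm_num) hd
      omega)
    simpa using h
  have hW0 : (0 : ℝ) < ‖(W.factorial : K)‖ := by
    rw [hfb _ hWlt]
    positivity
  set R : ℕ → ℕ := fun α => (W - p * α + 1).ascFactorial K0 with hR
  set e : ℕ → K := fun α => (4 : K) ^ α * Jv α - (-1) ^ α * ((2 * α).choose α : K) *
    ((p * α).factorial : K) * s ^ (p * α) with he
  set Cc : ℕ → ℕ := fun α => 4 ^ (j - α) * (2 * α).choose α with hCc
  have hpα : ∀ α ∈ Finset.range (j + 1), p * α ≤ W := by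
    intro α hα
    rw [Finset.mem_range] at hα
    have : p * α ≤ p * j := Nat.mul_le_mul_left p (by omega)
    have e2 : j * p = p * j := mul_comm _ _
    omega
  -- factorial identity
  have hfacN : ∀ α ∈ Finset.range (j + 1), W.choose (p * α) * (p * α).factorial *
      (W - p * α + K0).factorial = W.factorial * R α := by
    intro α hα
    have h1 := Nat.choose_mul_factorial_mul_factorial (hpα α hα)
    have h2 : (W - p * α).factorial * (W - p * α + 1).ascFactorial K0 = (W - p * α + K0).factorial :=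
      Nat.factorial_mul_ascFactorial _ _
    rw [← h2, hR]
    show _ = W.factorial * (W - p * α + 1).ascFactorial K0
    rw [← h1]
    ring
  have hfac : ∀ α ∈ Finset.range (j + 1), (W.choose (p * α) : K) * ((p * α).factorial : K) *
      ((W - p * α + K0).factorial : K) = (W.factorial : K) * (R α : K) := by
    intro α hα
    have := congrArg (Nat.cast : ℕ → K) (hfacN α hα)
    push_cast at this
    exact this
  have hodd : ∀ α : ℕ, ((-1 : K)) ^ (p * α) = (-1) ^ α := by
    intro α
    rw [pow_mul]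
    congr 1
    apply Odd.neg_one_pow
    exact ⟨q, hq⟩
  have hsgn : ∀ α ∈ Finset.range (j + 1), ((-1 : K)) ^ (W - p * α + K0) * (-1) ^ α =
      (-1) ^ (W + K0) := by
    intro α hα
    rw [← hodd α, ← pow_add]
    congr 1
    have := hpα α hα
    omega
  have hspow : ∀ α ∈ Finset.range (j + 1), s ^ (W - p * α) * s ^ (p * α) = s ^ W := by
    intro α hα
    rw [← pow_add]
    congr 1
    have := hpα α hα
    omega
  set T : ℕ → K := fun α => (W.choose (p * α) : K) *
      ((-1) ^ (W - p * α + K0) * ((W - p * α + K0).factorial : K) * s ^ (W - p * α) * Jv α) with hT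
  set err : ℕ → K := fun α => (4 : K) ^ (j - α) * (W.choose (p * α) : K) *
      ((-1) ^ (W - p * α + K0) * ((W - p * α + K0).factorial : K) * s ^ (W - p * α)) * e α with herr
  have hsplit : ∀ α ∈ Finset.range (j + 1), (4 : K) ^ j * T α =
      (-1) ^ (W + K0) * (W.factorial : K) * s ^ W * ((Cc α * R α : ℕ) : K) + err α := by
    intro α hα
    have hαj : α ≤ j := by
      rw [Finset.mem_range] at hα
      omega
    have h4j : (4 : K) ^ j = 4 ^ (j - α) * 4 ^ α := by
      rw [← pow_add]
      congr 1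
      omega
    have hJ : (4 : K) ^ α * Jv α = e α + (-1) ^ α * ((2 * α).choose α : K) *
        ((p * α).factorial : K) * s ^ (p * α) := by
      rw [he]
      ring
    have hcast : ((Cc α * R α : ℕ) : K) = 4 ^ (j - α) * ((2 * α).choose α : K) * (R α : K) := by
      rw [hCc]
      push_cast
      ring
    rw [hcast, h4j, hT, herr]
    show 4 ^ (j - α) * 4 ^ α * ((W.choose (p * α) : K) *
      ((-1) ^ (W - p * α + K0) * ((W - p * α + K0).factorial : K) * s ^ (W - p * α) * Jv α)) = _ +
      (4 : K) ^ (j - α) * (W.choose (p * α) : K) *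
      ((-1) ^ (W - p * α + K0) * ((W - p * α + K0).factorial : K) * s ^ (W - p * α)) * e α
    calc 4 ^ (j - α) * 4 ^ α * ((W.choose (p * α) : K) *
      ((-1) ^ (W - p * α + K0) * ((W - p * α + K0).factorial : K) * s ^ (W - p * α) * Jv α))
        = 4 ^ (j - α) * (W.choose (p * α) : K) * ((-1) ^ (W - p * α + K0) *
          ((W - p * α + K0).factorial : K) * s ^ (W - p * α)) * (4 ^ α * Jv α) := by ring
      _ = 4 ^ (j - α) * ((2 * α).choose α : K) * ((W.choose (p * α) : K) * ((p * α).factorial : K) *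
          ((W - p * α + K0).factorial : K)) * ((-1) ^ (W - p * α + K0) * (-1) ^ α) *
          (s ^ (W - p * α) * s ^ (p * α)) + (4 : K) ^ (j - α) * (W.choose (p * α) : K) *
          ((-1) ^ (W - p * α + K0) * ((W - p * α + K0).factorial : K) * s ^ (W - p * α)) * e α := by
          rw [hJ]
          ring
      _ = _ := by
          rw [hfac α hα, hsgn α hα, hspow α hα]
          ring
  -- the main factor
  set M : ℕ := ∑ α ∈ Finset.range (j + 1), Cc α * R α with hM
  have hMnd : ¬ p ∣ M := by
    have hRmod : ∀ α ∈ Finset.range (j + 1), R α ≡ (w + 1).ascFactorial K0 [MOD p] := by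
      intro α hα
      apply z14d_asc
      have h1 : W - p * α + 1 = p * (j - α) + (w + 1) := by
        rw [Finset.mem_range] at hα
        obtain ⟨i, hi⟩ : ∃ i, j = α + i := ⟨j - α, by omega⟩
        have e1 : j - α = i := by omega
        have e2 : j * p = p * α + p * i := by rw [hi]; ring
        rw [e1]
        omega
      rw [h1]
      unfold Nat.ModEq
      rw [Nat.mul_add_mod]
    have hmod := z14d_modsum p j ((w + 1).ascFactorial K0) Cc R hRmod
    have hcs := (central_sums j).2
    have hsumC : ∑ α ∈ Finset.range (j + 1), Cc α = (2 * j + 1) * (2 * j).choose j := by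
      rw [hCc]
      exact hcs
    rw [hsumC] at hmod
    intro hd
    have h0 : (w + 1).ascFactorial K0 * ((2 * j + 1) * (2 * j).choose j) ≡ 0 [MOD p] :=
      hmod.symm.trans ((Nat.modEq_zero_iff_dvd).mpr hd)
    rw [Nat.modEq_zero_iff_dvd] at h0
    rcases (hp.dvd_mul).mp h0 with h1 | h1
    · rcases hw with hA | ⟨hB, hB1, hB2⟩
      · have h2 : p ∣ (w + K0).factorial := by
          rw [← Nat.factorial_mul_ascFactorial]
          exact Dvd.dvd.mul_left h1 _
        rw [hA, hp.dvd_factorial] at h2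
        omega
      · rw [hB, Nat.ascFactorial_zero] at h1
        have := Nat.le_of_dvd one_pos h1
        omega
    · rcases (hp.dvd_mul).mp h1 with h2 | h2
      · have := Nat.le_of_dvd (by omega) h2
        omega
      · have h3 : p ∣ (2 * j).factorial := by
          rw [← Nat.choose_mul_factorial_mul_factorial (show j ≤ 2 * j by omega)]
          exact Dvd.dvd.mul_right (Dvd.dvd.mul_right h2 _) _
        rw [hp.dvd_factorial] at h3
        omega
  have hMnorm : ‖(M : K)‖ = 1 := (hno M).2.1 hMnd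
  have hmain : (4 : K) ^ j * ∑ α ∈ Finset.range (j + 1), T α =
      (-1) ^ (W + K0) * (W.factorial : K) * s ^ W * (M : K) + ∑ α ∈ Finset.range (j + 1), err α := by
    rw [Finset.mul_sum, Finset.sum_congr rfl hsplit, Finset.sum_add_distrib, ← Finset.mul_sum, hM,
      Nat.cast_sum]
  have hmn : ‖(-1 : K) ^ (W + K0) * (W.factorial : K) * s ^ W * (M : K)‖ =
      ‖(W.factorial : K)‖ * τ ^ W := by
    rw [norm_mul, norm_mul, norm_mul, norm_pow, norm_neg, norm_one, one_pow, one_mul, norm_pow, hs,
      hMnorm, mul_one]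
  have herrlt : ∀ α ∈ Finset.range (j + 1), ‖err α‖ < ‖(W.factorial : K)‖ * τ ^ W := by
    intro α hα
    have hαj : α ≤ j := by
      rw [Finset.mem_range] at hα
      omega
    have hle := hJv α hαj
    have hFlt : W - p * α + K0 < p ^ 2 := by omega
    have hF0 : (0 : ℝ) < ‖((W - p * α + K0).factorial : K)‖ := by
      rw [hfb _ hFlt]
      positivity
    have hC0 : (0 : ℝ) < ‖(W.choose (p * α) : K)‖ := by
      rw [norm_pos_iff]
      intro h
      have h1 := congrArg (Nat.cast : ℕ → K) (Nat.choose_mul_factorial_mul_factorial (hpα α hα))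
      push_cast at h1
      rw [h, zero_mul, zero_mul] at h1
      rw [← h1, norm_zero] at hW0
      exact lt_irrefl _ hW0
    have hτpow : τ ^ (W - p * α) * τ ^ (p * α) = τ ^ W := by
      rw [← pow_add]
      congr 1
      have := hpα α hα
      omega
    have hA : ‖err α‖ = ‖(W.choose (p * α) : K)‖ * ‖((W - p * α + K0).factorial : K)‖ *
        τ ^ (W - p * α) * ‖e α‖ := by
      rw [herr]
      show ‖(4 : K) ^ (j - α) * (W.choose (p * α) : K) *
        ((-1) ^ (W - p * α + K0) * ((W - p * α + K0).factorial : K) * s ^ (W - p * α)) * e α‖ = _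
      simp only [norm_mul, norm_pow, norm_neg, norm_one, one_pow, h4, hs, one_mul]
      ring
    rw [hA]
    have hpos : 0 < ‖(W.choose (p * α) : K)‖ * ‖((W - p * α + K0).factorial : K)‖ *
        τ ^ (W - p * α) := by positivity
    have hnf : ‖(W.choose (p * α) : K)‖ * ‖((p * α).factorial : K)‖ *
        ‖((W - p * α + K0).factorial : K)‖ = ‖(W.factorial : K)‖ * ‖(R α : K)‖ := by
      rw [← norm_mul, ← norm_mul, ← norm_mul, hfac α hα]
    calc ‖(W.choose (p * α) : K)‖ * ‖((W - p * α + K0).factorial : K)‖ * τ ^ (W - p * α) * ‖e α‖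
        < ‖(W.choose (p * α) : K)‖ * ‖((W - p * α + K0).factorial : K)‖ * τ ^ (W - p * α) *
          (‖((p * α).factorial : K)‖ * τ ^ (p * α)) := mul_lt_mul_of_pos_left hle hpos
      _ = (‖(W.choose (p * α) : K)‖ * ‖((p * α).factorial : K)‖ *
          ‖((W - p * α + K0).factorial : K)‖) * (τ ^ (W - p * α) * τ ^ (p * α)) := by ring
      _ = ‖(W.factorial : K)‖ * ‖(R α : K)‖ * τ ^ W := by rw [hnf, hτpow]
      _ ≤ ‖(W.factorial : K)‖ * 1 * τ ^ W := by
          have := (hno (R α)).1
          gcongr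
      _ = ‖(W.factorial : K)‖ * τ ^ W := by ring
  have herrsum : ‖∑ α ∈ Finset.range (j + 1), err α‖ < ‖(W.factorial : K)‖ * τ ^ W := by
    obtain ⟨i, hi, hle⟩ := IsUltrametricDist.exists_norm_finsetSum_le_of_nonempty
      (t := Finset.range (j + 1)) ⟨0, by simp⟩ err
    exact lt_of_le_of_lt hle (herrlt i hi)
  have hSig : ‖∑ α ∈ Finset.range (j + 1), T α‖ = ‖(W.factorial : K)‖ * τ ^ W := by
    have h1 : ‖(4 : K) ^ j * ∑ α ∈ Finset.range (j + 1), T α‖ = ‖(W.factorial : K)‖ * τ ^ W := by
      rw [hmain]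
      rw [IsUltrametricDist.norm_add_eq_max_of_norm_ne_norm (by rw [hmn]; exact herrsum.ne'), hmn]
      exact max_eq_left herrsum.le
    rwa [norm_mul, norm_pow, h4, one_pow, one_mul] at h1
  rw [norm_mul, hSig, ← mul_assoc, hstep1]


end Pool.Agent.Helper805_nf
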