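import Mathlib
import Pool.Agent.Helper805_nf.Defs4
import Pool.Agent.Helper805_nf.Y1
import Pool.Agent.Helper805_nf.Z14a
import Pool.Agent.Helper805_nf.Z14b
import Pool.Agent.Helper805_nf.Z14c
import Pool.Agent.Helper805_nf.Z14d

set_option autoImplicit false

namespace Pool.Agent.Helper805_nf

open Finset










/-- A finite ultrametric sum of terms smaller than `V` is smaller than `V`. -/
theorem z14e_sum_lt {K : Type*} [NormedField K] [IsUltrametricDist K] {ι : Type*} (S : Finset ι)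
    (f : ι → K) (V : ℝ) (hV : 0 < V) (h : ∀ i ∈ S, ‖f i‖ < V) : ‖∑ i ∈ S, f i‖ < V := by
  classical
  induction S using Finset.induction_on with
  | empty => simpa using hV
  | insert a S ha ih =>
    rw [Finset.sum_insert ha]
    refine lt_of_le_of_lt (IsUltrametricDist.norm_add_le_max _ _) (max_lt ?_ ?_)
    · exact h a (Finset.mem_insert_self _ _)
    · exact ih (fun i hi => h i (Finset.mem_insert_of_mem hi))

/-- Sum of a difference. -/
theorem z14e_sum_sub_lt {K : Type*} [NormedField K] [IsUltrametricDist K] {ι : Type*} (S : Finset ι)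
    (f g : ι → K) (V : ℝ) (hV : 0 < V) (h : ∀ i ∈ S, ‖f i - g i‖ < V) :
    ‖∑ i ∈ S, f i - ∑ i ∈ S, g i‖ < V := by
  rw [← Finset.sum_sub_distrib]
  exact z14e_sum_lt S _ V hV h

/-- The multiples of `p` in the range. -/
theorem z14e_mult {M : Type*} [AddCommMonoid M] (p W j w : ℕ) (hp : 0 < p) (hW : W = j * p + w)
    (hw : w < p) (F : ℕ → M) :
    ∑ a ∈ (Finset.range (W + 1)).filter (fun a => p ∣ a), F a =
      ∑ α ∈ Finset.range (j + 1), F (p * α) := by
  symm
  refine Finset.sum_bij (fun α _ => p * α) ?_ ?_ ?_ ?_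
  · intro α hα
    rw [Finset.mem_filter, Finset.mem_range]
    rw [Finset.mem_range] at hα
    refine ⟨?_, dvd_mul_right _ _⟩
    have : p * α ≤ p * j := Nat.mul_le_mul_left _ (by omega)
    rw [hW, mul_comm j p]
    omega
  · intro a _ b _ hab
    exact Nat.eq_of_mul_eq_mul_left hp hab
  · intro b hb
    rw [Finset.mem_filter, Finset.mem_range] at hb
    obtain ⟨hb1, α, rfl⟩ := hb
    refine ⟨α, ?_, rfl⟩
    rw [Finset.mem_range]
    by_contra hcon
    have h1 : p * (j + 1) ≤ p * α := Nat.mul_le_mul_left _ (by omega)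
    rw [hW, mul_comm j p] at hb1
    rw [mul_add, mul_one] at h1
    omega
  · intro a _
    rfl

/-- One group of terms: all terms except the exceptional ones are small. -/
theorem z14e_group {K : Type*} [NormedField K] [IsUltrametricDist K] {m : ℕ} (P : Finset (Finset (Fin m)))
    (hP : ∅ ∈ P) (p W j w : ℕ) (hp : 0 < p) (hW : W = j * p + w) (hw : w < p)
    (F : Finset (Fin m) → ℕ → K) (V : ℝ) (hV : 0 < V)
    (h : ∀ A' ∈ P, ∀ a ≤ W, ¬ (A' = ∅ ∧ p ∣ a) → ‖F A' a‖ < V) :
    ‖∑ A' ∈ P, ∑ a ∈ Finset.range (W + 1), F A' a - ∑ α ∈ Finset.range (j + 1), F ∅ (p * α)‖ < V := by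
  classical
  have e1 : ∑ A' ∈ P, ∑ a ∈ Finset.range (W + 1), F A' a =
      ∑ a ∈ Finset.range (W + 1), F ∅ a + ∑ A' ∈ P.erase ∅, ∑ a ∈ Finset.range (W + 1), F A' a :=
    (Finset.add_sum_erase P _ hP).symm
  have e2 : ∑ a ∈ Finset.range (W + 1), F ∅ a =
      ∑ α ∈ Finset.range (j + 1), F ∅ (p * α) +
        ∑ a ∈ (Finset.range (W + 1)).filter (fun a => ¬ p ∣ a), F ∅ a := by
    rw [← z14e_mult p W j w hp hW hw (F ∅)]
    exact (Finset.sum_filter_add_sum_filter_not _ _ _).symm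
  have e3 : ∑ A' ∈ P, ∑ a ∈ Finset.range (W + 1), F A' a - ∑ α ∈ Finset.range (j + 1), F ∅ (p * α) =
      ∑ a ∈ (Finset.range (W + 1)).filter (fun a => ¬ p ∣ a), F ∅ a +
        ∑ A' ∈ P.erase ∅, ∑ a ∈ Finset.range (W + 1), F A' a := by
    rw [e1, e2]; ring
  rw [e3]
  refine lt_of_le_of_lt (IsUltrametricDist.norm_add_le_max _ _) (max_lt ?_ ?_)
  · refine z14e_sum_lt _ _ V hV ?_
    intro a ha
    rw [Finset.mem_filter, Finset.mem_range] at ha
    exact h ∅ hP a (by omega) (fun hh => ha.2 hh.2)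
  · refine z14e_sum_lt _ _ V hV ?_
    intro A' hA'
    rw [Finset.mem_erase] at hA'
    refine z14e_sum_lt _ _ V hV ?_
    intro a ha
    rw [Finset.mem_range] at ha
    exact h A' hA'.2 a (by omega) (fun hh => hA'.1 hh.1)

/-- Sums over the power set with a condition. -/
theorem z14e_pow {M : Type*} [AddCommMonoid M] {m : ℕ} (Qc : Finset (Fin m)) (t0 : ℕ)
    (F : Finset (Fin m) → M) :
    ∑ U1 ∈ Qc.powerset, ∑ B0 ∈ (Qc \ U1).powerset, (if B0 = ∅ ∧ U1.card = t0 then F U1 else 0) =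
      ∑ U1 ∈ Qc.powersetCard t0, F U1 := by
  classical
  have e1 : ∀ U1 ∈ Qc.powerset, ∑ B0 ∈ (Qc \ U1).powerset, (if B0 = ∅ ∧ U1.card = t0 then F U1 else 0) =
      if U1.card = t0 then F U1 else 0 := by
    intro U1 _
    rw [Finset.sum_eq_single ∅]
    · simp
    · intro B0 _ hne
      rw [if_neg]
      exact fun hh => hne hh.1
    · intro hh
      exact absurd (Finset.empty_mem_powerset _) hh
  rw [Finset.sum_congr rfl e1, ← Finset.sum_filter]
  refine Finset.sum_congr ?_ (fun _ _ => rfl)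
  ext U
  rw [Finset.mem_filter, Finset.mem_powerset, Finset.mem_powersetCard]


/-- Norms of nearby elements agree. -/
theorem z14e_norm_eq {K : Type*} [NormedField K] [IsUltrametricDist K] (x y : K) (h : ‖x - y‖ < ‖y‖) :
    ‖x‖ = ‖y‖ := by
  have h1 : x = (x - y) + y := by ring
  have h2 := IsUltrametricDist.norm_add_eq_max_of_norm_ne_norm (x := x - y) (y := y) (ne_of_lt h)
  rw [← h1] at h2
  rw [h2]
  exact max_eq_right h.le

theorem ident_total {K : Type*} [NormedField K] [IsUltrametricDist K] (p q m : ℕ) (hp : p.Prime)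
    (hq : p = 2 * q + 1) (h5 : 5 ≤ p) (hpn : ‖(p : K)‖ = (p : ℝ)⁻¹) (t : ℝ) (ht0 : 0 < t) (ht1 : t < 1)
    (htp : t ^ (p * (p - 1)) = (p : ℝ)⁻¹) (hm : m = p * q - 1 + q) (c gg : Fin m → K) (g : Fin m → ℕ)
    (G J : Finset (Fin m) → K) (Jh : ℕ → Finset (Fin m) → K) (H T : Finset (Fin m)) (hHT : Disjoint H T)
    (s : K) (hs : ‖s‖ = t ^ (p - 1)) (hsH : ∀ i ∈ H, gg i = s) (hcH : ∀ i ∈ H ∪ T, c i = 0)
    (hgT : ∀ i ∈ T, 1 ≤ g i) (hgU : ∀ i, i ∉ H → i ∉ T → g i = 0)
    (hc : ∀ i, ‖c i‖ ≤ 1) (hgg : ∀ i, ‖gg i‖ ≤ t ^ oG p (g i)) (hG : ∀ B, ‖G B‖ ≤ t ^ (2 * p * B.card))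
    (hG0 : G ∅ = 1) (hGg : ∀ B, ∀ i ∈ B, i ∈ H ∪ T → G B = 0)
    (hGc : ∀ B : Finset (Fin m), q < B.card → G B = 0)
    (hzero : ∀ E : Finset (Fin m), p * q - 1 < E.card → delSum gg J E = 0)
    (hJ : ∀ As A', As ⊆ H → Disjoint A' H → J (As ∪ A') = Jh As.card A')
    (W j w k D : ℕ) (hW : H.card = W) (hWj : W = j * p + w) (hwp : w < p) (hj : j + 1 ≤ q) (hk : T.card = k)
    (hD : ∑ i ∈ T, g i = D) (hcase : (1 ≤ w ∧ w + D ≤ q) ∨ (D = 0 ∧ q ≤ w))
    (hJ1 : ∀ (y a : ℕ) (A' : Finset (Fin m)), a ≤ W → Disjoint A' H → y + a + A'.card < p ^ 2 →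
      (‖(y.factorial : K) * Jh a A'‖ * t ^ (p - 1) ≤
        ‖((y + a + A'.card).factorial : K)‖ * (t ^ (p - 1)) ^ (a + ∑ i ∈ A', g i)) ∧
      (¬ (y % p = p - 1 ∧ (y + a + A'.card) % p = 0) → ‖(y.factorial : K) * Jh a A'‖ ≤
        ‖((y + a + A'.card).factorial : K)‖ * (t ^ (p - 1)) ^ (a + ∑ i ∈ A', g i)) ∧
      (q ≤ (y + a + A'.card) % p → (A'.Nonempty ∨ ¬ p ∣ a) →
        ‖(W.choose a : K) * ((y.factorial : K) * Jh a A')‖ ≤
          ‖((y + a + A'.card).factorial : K)‖ * (t ^ (p - 1)) ^ (a + ∑ i ∈ A', g i + 1)))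
    (hJv : ∀ α : ℕ, α ≤ j → ‖(4 : K) ^ α * Jh (p * α) ∅ -
      (-1) ^ α * ((2 * α).choose α : K) * ((p * α).factorial : K) * s ^ (p * α)‖ <
        ‖((p * α).factorial : K)‖ * (t ^ (p - 1)) ^ (p * α)) :
    (k < D → ‖∑ B : Finset (Fin m), ((m - B.card).factorial : K) * (∏ i ∈ Bᶜ, c i) *
      ∑ B0 ∈ B.powerset, G B0 * delSum gg J (B \ B0)‖ <
        ‖((p * q - 1).factorial : K)‖ * t ^ ((p - 1) * (W + D) + 2 * (q - (w + D)))) ∧
    (k = D → (∀ i ∈ T, ‖gg i‖ = t ^ (p - 1)) →
      ‖∑ B ∈ (H ∪ T)ᶜ.powersetCard (q - (w + D)), (∏ i ∈ (H ∪ T)ᶜ \ B, c i) * ∏ i ∈ B, gg i‖ =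
        t ^ (2 * (q - (w + D))) →
      ‖∑ B : Finset (Fin m), ((m - B.card).factorial : K) * (∏ i ∈ Bᶜ, c i) *
        ∑ B0 ∈ B.powerset, G B0 * delSum gg J (B \ B0)‖ =
        ‖((p * q - 1).factorial : K)‖ * t ^ ((p - 1) * (W + D) + 2 * (q - (w + D)))) := by
  classical
  set V : ℝ := ‖((p * q - 1).factorial : K)‖ * t ^ ((p - 1) * (W + D) + 2 * (q - (w + D))) with hVdef
  have hp2 : 2 ≤ p := hp.two_le
  have hp0 : 0 < p := hp.pos
  have hpK : (p : K) ≠ 0 := by
    intro h0
    rw [h0, norm_zero] at hpn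
    have : (0 : ℝ) < (p : ℝ)⁻¹ := by positivity
    linarith
  have hnat : ∀ n : ℕ, n ≠ 0 → (n : K) ≠ 0 := by
    intro n hn h0
    obtain ⟨e, n', hn', rfl⟩ := Nat.exists_eq_pow_mul_and_not_dvd hn p hp.ne_one
    rw [Nat.cast_mul, Nat.cast_pow, mul_eq_zero] at h0
    rcases h0 with h0 | h0
    · exact pow_ne_zero e hpK h0
    · have h1 := (norm_nat_facts (K := K) p hp hpn n').2.1 hn'
      rw [h0, norm_zero] at h1
      exact zero_ne_one h1
  have hV : 0 < V := by
    rw [hVdef]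
    refine mul_pos ?_ (pow_pos ht0 _)
    rw [norm_pos_iff]
    exact hnat _ (Nat.factorial_ne_zero _)
  -- the coefficient
  set Q : Finset (Fin m) := H ∪ T with hQ
  have hQc : Q.card = W + k := by
    rw [hQ, Finset.card_union_of_disjoint hHT, hW, hk]
  have hout := outer_group c G (fun E => delSum gg J E) Q hcH hGg
  -- the general term
  let f : Finset (Fin m) → Finset (Fin m) → Finset (Fin m) → ℕ → K := fun U1 B0 A' a =>
    ((m - (W + k + U1.card + B0.card)).factorial : K) * (∏ i ∈ (Qᶜ \ U1) \ B0, c i) * G B0 *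
      ((W.choose a : K) * ((-1) ^ (W - a + ((T ∪ U1) \ A').card) *
        ((W - a + ((T ∪ U1) \ A').card).factorial : K) * s ^ (W - a) *
          (∏ i ∈ (T ∪ U1) \ A', gg i) * Jh a A'))
  have hexp : ∀ U1 B0 : Finset (Fin m), U1 ⊆ Qᶜ →
      ((m - (Q.card + U1.card + B0.card)).factorial : K) * (∏ i ∈ (Qᶜ \ U1) \ B0, c i) * G B0 *
        delSum gg J (Q ∪ U1) = ∑ A' ∈ (T ∪ U1).powerset, ∑ a ∈ Finset.range (W + 1), f U1 B0 A' a := by
    intro U1 B0 hU1
    have hdU : Disjoint H (T ∪ U1) := by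
      rw [Finset.disjoint_union_right]
      refine ⟨hHT, ?_⟩
      rw [Finset.disjoint_left]
      intro i hi hi'
      have := hU1 hi'
      rw [Finset.mem_compl, hQ, Finset.mem_union] at this
      exact this (Or.inl hi)
    have hassoc : Q ∪ U1 = H ∪ (T ∪ U1) := by
      rw [hQ, Finset.union_assoc]
    rw [hassoc, delSum_group s gg J H (T ∪ U1) hdU hsH Jh
      (fun As A' hAs hA' => hJ As A' hAs (Finset.disjoint_of_subset_left hA' hdU.symm)), hQc, hW,
      Finset.mul_sum]
    refine Finset.sum_congr rfl (fun A' _ => ?_)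
    rw [Finset.mul_sum]
  -- the exceptional part
  let E : Finset (Fin m) → K := fun U1 => ∑ α ∈ Finset.range (j + 1), f U1 ∅ ∅ (p * α)
  have hidt : ∀ (U1 B0 A' : Finset (Fin m)) (a : ℕ), U1 ⊆ Qᶜ → B0 ⊆ Qᶜ \ U1 → A' ⊆ T ∪ U1 → a ≤ W →
      W + k + U1.card ≤ p * q - 1 → B0.card ≤ q →
      ¬ (B0 = ∅ ∧ A' = ∅ ∧ p ∣ a ∧ U1.card = q - (w + k) ∧ k = D) → ‖f U1 B0 A' a‖ < V := by
    intro U1 B0 A' a hU1 hB0 hA' ha hY hb0 hne
    refine ident_term p q m hp hq h5 hpn t ht0 ht1 htp hm c gg g G Jh H T hHT s hs hgT hgU hc hgg hG W j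
      w k D hW hWj hwp hk hD hcase hJ1 U1 B0 A' a ?_ ?_ ?_ hA' ha hY hb0 hne
    · rw [Finset.disjoint_left]
      intro i hi hi'
      have := hU1 hi
      rw [Finset.mem_compl] at this
      exact this hi'
    · rw [Finset.disjoint_left]
      intro i hi hi'
      have := hB0 hi
      rw [Finset.mem_sdiff, Finset.mem_compl] at this
      exact this.1 hi'
    · rw [Finset.disjoint_left]
      intro i hi hi'
      have := hB0 hi'
      rw [Finset.mem_sdiff] at this
      exact this.2 hi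
  -- the range of the exceptional terms
  have hrange : k = D → W + k + (q - (w + k)) ≤ p * q - 1 := by
    intro hkD
    obtain ⟨q', rfl⟩ : ∃ q', q = j + 1 + q' := ⟨q - (j + 1), by omega⟩
    have h1 : p * (j + 1 + q') = j * p + p + p * q' := by ring
    rcases hcase with ⟨hw1, hw2⟩ | ⟨hD0, hw1⟩
    · rw [h1, hWj]
      omega
    · rw [h1, hWj]
      omega
  have hpart : ∀ U1 ∈ Qᶜ.powerset, ∀ B0 ∈ (Qᶜ \ U1).powerset,
      ‖((m - (Q.card + U1.card + B0.card)).factorial : K) * (∏ i ∈ (Qᶜ \ U1) \ B0, c i) * G B0 *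
        delSum gg J (Q ∪ U1) - (if B0 = ∅ ∧ U1.card = q - (w + k) then (if k = D then E U1 else 0)
          else 0)‖ < V := by
    intro U1 hU1 B0 hB0
    rw [Finset.mem_powerset] at hU1 hB0
    by_cases h1 : p * q - 1 < W + k + U1.card
    · have hcard : (Q ∪ U1).card = W + k + U1.card := by
        rw [Finset.card_union_of_disjoint, hQc]
        rw [Finset.disjoint_left]
        intro i hi hi'
        have := hU1 hi'
        rw [Finset.mem_compl] at this
        exact this hi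
      rw [hzero (Q ∪ U1) (by rw [hcard]; exact h1), mul_zero]
      have h2 : (if B0 = ∅ ∧ U1.card = q - (w + k) then (if k = D then E U1 else 0) else 0) = 0 := by
        by_cases hc1 : B0 = ∅ ∧ U1.card = q - (w + k)
        · rw [if_pos hc1]
          by_cases hkD : k = D
          · exfalso
            have := hrange hkD
            rw [← hc1.2] at this
            omega
          · rw [if_neg hkD]
        · rw [if_neg hc1]
      rw [h2, sub_zero, norm_zero]
      exact hV
    · by_cases h2 : q < B0.card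
      · rw [hGc B0 h2, mul_zero, zero_mul]
        have h3 : ¬ (B0 = ∅ ∧ U1.card = q - (w + k)) := by
          intro hh
          rw [hh.1, Finset.card_empty] at h2
          omega
        rw [if_neg h3, sub_zero, norm_zero]
        exact hV
      · rw [hexp U1 B0 hU1]
        by_cases h3 : B0 = ∅ ∧ U1.card = q - (w + k)
        · rw [if_pos h3]
          obtain ⟨h3a, h3b⟩ := h3
          subst h3a
          by_cases hkD : k = D
          · rw [if_pos hkD]
            refine z14e_group (T ∪ U1).powerset (Finset.empty_mem_powerset _) p W j w hp0 hWj hwp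
              (fun A' a => f U1 ∅ A' a) V hV ?_
            intro A' hA' a ha hne
            rw [Finset.mem_powerset] at hA'
            refine hidt U1 ∅ A' a hU1 (Finset.empty_subset _) hA' ha (by omega) (by simp) ?_
            rintro ⟨-, x1, x2, -, -⟩
            exact hne ⟨x1, x2⟩
          · rw [if_neg hkD, sub_zero]
            refine z14e_sum_lt _ _ V hV (fun A' hA' => z14e_sum_lt _ _ V hV (fun a ha => ?_))
            rw [Finset.mem_powerset] at hA'
            rw [Finset.mem_range] at ha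
            refine hidt U1 ∅ A' a hU1 (Finset.empty_subset _) hA' (by omega) (by omega) (by simp) ?_
            rintro ⟨-, -, -, -, x1⟩
            exact hkD x1
        · rw [if_neg h3, sub_zero]
          refine z14e_sum_lt _ _ V hV (fun A' hA' => z14e_sum_lt _ _ V hV (fun a ha => ?_))
          rw [Finset.mem_powerset] at hA'
          rw [Finset.mem_range] at ha
          refine hidt U1 B0 A' a hU1 hB0 hA' (by omega) (by omega) (by omega) ?_
          rintro ⟨x1, -, -, x2, -⟩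
          exact h3 ⟨x1, x2⟩
  have htot : ‖(∑ B : Finset (Fin m), ((m - B.card).factorial : K) * (∏ i ∈ Bᶜ, c i) *
      ∑ B0 ∈ B.powerset, G B0 * delSum gg J (B \ B0)) -
        ∑ U1 ∈ Qᶜ.powersetCard (q - (w + k)), (if k = D then E U1 else 0)‖ < V := by
    rw [hout, ← z14e_pow]
    refine z14e_sum_sub_lt _ _ _ V hV (fun U1 hU1 => z14e_sum_sub_lt _ _ _ V hV (fun B0 hB0 => ?_))
    exact hpart U1 hU1 B0 hB0
  refine ⟨?_, ?_⟩
  · intro hkD
    have h0 : ∑ U1 ∈ Qᶜ.powersetCard (q - (w + k)), (if k = D then E U1 else 0) = 0 := by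
      refine Finset.sum_eq_zero (fun U1 _ => ?_)
      rw [if_neg (by omega)]
    rw [h0, sub_zero] at htot
    exact htot
  · intro hkD hggT hsum
    subst hkD
    have hmain : ‖∑ U1 ∈ Qᶜ.powersetCard (q - (w + k)), (if k = k then E U1 else 0)‖ = V := by
      -- factorise
      have hfac : ∑ U1 ∈ Qᶜ.powersetCard (q - (w + k)), (if k = k then E U1 else 0) =
          (∏ i ∈ T, gg i) *
          (∑ B ∈ Qᶜ.powersetCard (q - (w + k)), (∏ i ∈ Qᶜ \ B, c i) * ∏ i ∈ B, gg i) *
          (((p * q - 1 + q - (W + (k + (q - (w + k))))).factorial : K) *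
            ∑ α ∈ Finset.range (j + 1), (W.choose (p * α) : K) *
            ((-1) ^ (W - p * α + (k + (q - (w + k)))) *
              ((W - p * α + (k + (q - (w + k)))).factorial : K) * s ^ (W - p * α) * Jh (p * α) ∅)) := by
        rw [Finset.mul_sum (Qᶜ.powersetCard (q - (w + k))), Finset.sum_mul]
        refine Finset.sum_congr rfl (fun U1 hU1 => ?_)
        rw [Finset.mem_powersetCard] at hU1
        rw [if_pos rfl]
        show ∑ α ∈ Finset.range (j + 1), f U1 ∅ ∅ (p * α) = _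
        rw [Finset.mul_sum, Finset.mul_sum]
        refine Finset.sum_congr rfl (fun α _ => ?_)
        show ((m - (W + k + U1.card + (∅ : Finset (Fin m)).card)).factorial : K) *
          (∏ i ∈ (Qᶜ \ U1) \ ∅, c i) * G ∅ *
          ((W.choose (p * α) : K) * ((-1) ^ (W - p * α + ((T ∪ U1) \ ∅).card) *
          ((W - p * α + ((T ∪ U1) \ ∅).card).factorial : K) * s ^ (W - p * α) *
          (∏ i ∈ (T ∪ U1) \ ∅, gg i) * Jh (p * α) ∅)) = _
        have hTU : Disjoint T U1 := by
          rw [Finset.disjoint_left]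
          intro i hi hi'
          have := hU1.1 hi'
          rw [Finset.mem_compl, hQ, Finset.mem_union] at this
          exact this (Or.inr hi)
        rw [Finset.sdiff_empty, Finset.sdiff_empty, Finset.card_union_of_disjoint hTU,
          Finset.prod_union hTU, hk, hU1.2, Finset.card_empty, hG0]
        have hx : m - (W + k + (q - (w + k)) + 0) = p * q - 1 + q - (W + (k + (q - (w + k)))) := by
          omega
        rw [hx]
        ring
      rw [hfac, norm_mul, norm_mul, hsum, norm_prod, Finset.prod_congr rfl hggT, Finset.prod_const, hk]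
      have hal := alpha_sum (K := K) p q hp hq h5 hpn (t ^ (p - 1)) (pow_pos ht0 _)
        (pow_lt_one₀ ht0.le ht1 (by omega)) (by rw [← pow_mul, mul_comm (p - 1) p]; exact htp) W j w
        (k + (q - (w + k))) hWj hj (by
          rcases hcase with ⟨hw1, hw2⟩ | ⟨hD0, hw1⟩
          · left; omega
          · right
            refine ⟨by omega, hw1, hwp⟩) s hs (fun α => Jh (p * α) ∅) hJv
      rw [hal, hVdef]
      rw [← pow_mul, ← pow_mul]
      have : t ^ ((p - 1) * (W + k) + 2 * (q - (w + k))) =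
          t ^ ((p - 1) * k) * t ^ (2 * (q - (w + k))) * t ^ ((p - 1) * W) := by
        rw [← pow_add, ← pow_add]
        congr 1
        ring
      rw [this]
      ring
    have hfin := htot
    rw [← hmain] at hfin ⊢
    exact z14e_norm_eq _ _ hfin


end Pool.Agent.Helper805_nf
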