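import Mathlib
import Pool.Agent.Helper805_nf.Defs4
import Pool.Agent.Helper805_nf.Y3
import Pool.Agent.Helper805_nf.Y4

set_option autoImplicit false

namespace Pool.Agent.Helper805_nf

open Finset






theorem z5_norm_one {K : Type*} [NormedField K] {n : ℕ} (hn : n ≠ 0) {ζ : K} (h : ζ ^ n = 1) :
    ‖ζ‖ = 1 := by
  have h1 : ‖ζ‖ ^ n = 1 := by rw [← norm_pow, h, norm_one]
  exact (pow_eq_one_iff_of_nonneg (norm_nonneg _) hn).1 h1

theorem z5_sub {K : Type*} [NormedField K] [IsUltrametricDist K] {ζ : K} (hz : ‖ζ‖ = 1) (a : ℕ) :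
    ‖ζ ^ a - 1‖ ≤ ‖ζ - 1‖ := by
  induction a with
  | zero => simp
  | succ a ih =>
    have h1 : ζ ^ (a + 1) - 1 = ζ * (ζ ^ a - 1) + (ζ - 1) := by ring
    rw [h1]
    refine (IsUltrametricDist.norm_add_le_max _ _).trans (max_le ?_ le_rfl)
    rw [norm_mul, hz, one_mul]
    exact ih

theorem z5_two {K : Type*} [NormedField K] [IsUltrametricDist K] (p q : ℕ) (hp : p.Prime)
    (hq : p = 2 * q + 1) (hpn : ‖(p : K)‖ = (p : ℝ)⁻¹) : ‖(2 : K)‖ = 1 := by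
  have h1 : ‖(2 : K)‖ ≤ 1 := by
    have := IsUltrametricDist.norm_natCast_le_one K 2
    exact_mod_cast this
  refine le_antisymm h1 ?_
  by_contra hlt
  push Not at hlt
  have h2 : (1 : K) = (p : K) - 2 * (q : K) := by
    rw [hq]
    push_cast
    ring
  have h3 : ‖(1 : K)‖ < 1 := by
    rw [h2]
    have hq1 : ‖(q : K)‖ ≤ 1 := IsUltrametricDist.norm_natCast_le_one K q
    have h4 : ‖(2 : K) * (q : K)‖ < 1 := by
      rw [norm_mul]
      nlinarith [norm_nonneg (q : K), norm_nonneg (2 : K)]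
    have h5 : ‖(p : K)‖ < 1 := by
      rw [hpn]
      exact inv_lt_one_of_one_lt₀ (by exact_mod_cast hp.one_lt)
    rw [sub_eq_add_neg]
    refine lt_of_le_of_lt (IsUltrametricDist.norm_add_le_max _ _) (max_lt h5 ?_)
    rwa [norm_neg]
  rw [norm_one] at h3
  exact lt_irrefl _ h3

/-- the norm of `z ^ n - z ^ (-n)` -/
theorem z5_pm {K : Type*} [NormedField K] {z : K} (hz : ‖z‖ = 1) (n : ℕ) :
    ‖z ^ n - (z⁻¹) ^ n‖ = ‖z ^ (2 * n) - 1‖ := by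
  have hz0 : z ≠ 0 := by
    rintro rfl
    simp at hz
  have h1 : z ^ (2 * n) - 1 = z ^ n * (z ^ n - (z⁻¹) ^ n) := by
    rw [mul_sub, ← mul_pow z z⁻¹, mul_inv_cancel₀ hz0, one_pow, two_mul, pow_add]
  rw [h1, norm_mul, norm_pow, hz, one_pow, one_mul]

theorem z5_alt {K : Type*} [Field K] (l : ℕ) (hl : 1 ≤ l) :
    ∑ i ∈ Finset.range (l + 1), (-1 : K) ^ (l - i) * (l.choose i : K) = 0 := by
  have h := add_pow (1 : K) (-1) l
  rw [add_neg_cancel, zero_pow (by omega)] at h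
  rw [h]
  refine Finset.sum_congr rfl fun i _ => ?_
  rw [one_pow, one_mul]

theorem rows_val {K : Type*} [NormedField K] [IsUltrametricDist K] (p q : ℕ) (hp : p.Prime)
    (hq : p = 2 * q + 1) (hpn : ‖(p : K)‖ = (p : ℝ)⁻¹) (ζ : K) (hζ : IsPrimitiveRoot ζ (p ^ 2)) (t : ℝ)
    (h1 : ∀ j : ℕ, ¬ p ∣ j → ‖ζ ^ j - 1‖ = t) (h2 : ∀ j : ℕ, ¬ p ∣ j → ‖ζ ^ (p * j) - 1‖ = t ^ p) (ht0 : 0 < t)
    (ht1 : t < 1) :
    (∀ j : ℕ, p ∣ j → ¬ p ^ 2 ∣ j → (∀ d : ℕ, ‖rho (ζ ^ j) d - (d : K)‖ ≤ t ^ (2 * p)) ∧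
      (∀ m : ℕ, rho (ζ ^ j) (p * m) = 0) ∧ (∀ δ l : ℕ, 1 ≤ l → fdRow ζ p δ l j = 0)) ∧
    ‖rho ζ p‖ = t ^ (p - 1) ∧ (∀ m : ℕ, ¬ p ∣ m → ‖rho ζ (p * m)‖ = t ^ (p - 1)) ∧
    (∀ δ : ℕ, ‖fdRow ζ p δ 1 1‖ = t ^ (p - 1)) := by
  have hp0 := hp.pos
  have hp2 : p ≠ 2 := by omega
  have hζ1 : ζ ^ (p ^ 2) = 1 := hζ.pow_eq_one
  have hn : ‖ζ‖ = 1 := z5_norm_one (by positivity) hζ1
  have hζ0 : ζ ≠ 0 := by
    rintro rfl
    simp at hn
  have hnd1 : ¬ p ∣ 1 := by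
    rw [Nat.dvd_one]
    exact hp.one_lt.ne'
  have hnd2 : ∀ m : ℕ, ¬ p ∣ m → ¬ p ∣ 2 * m := by
    intro m hm h
    rcases hp.dvd_mul.1 h with h | h
    · exact hp2 ((Nat.prime_dvd_prime_iff_eq hp Nat.prime_two).1 h)
    · exact hm h
  have ht : ‖ζ - 1‖ = t := by
    have := h1 1 hnd1
    rwa [pow_one] at this
  have hzz : ‖ζ - ζ⁻¹‖ = t := by
    have h3 := z5_pm hn 1
    rw [pow_one, pow_one] at h3
    rw [h3]
    exact h1 _ (hnd2 1 hnd1)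
  have hdiv : ∀ x : K, ‖(ζ - ζ⁻¹) * x‖ = t ^ p → ‖x‖ = t ^ (p - 1) := by
    intro x hx
    rw [norm_mul, hzz] at hx
    have h3 : t ^ p = t * t ^ (p - 1) := by
      rw [← pow_succ']
      congr 1
      omega
    rw [h3] at hx
    exact mul_left_cancel₀ ht0.ne' hx
  have hsecond : ∀ m : ℕ, ¬ p ∣ m → ‖rho ζ (p * m)‖ = t ^ (p - 1) := by
    intro m hm
    apply hdiv
    rw [rho_mul ζ hζ0, z5_pm hn, show 2 * (p * m) = p * (2 * m) by ring]
    rw [h2 _ (hnd2 m hm)]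
  refine ⟨?_, ?_, hsecond, ?_⟩
  · intro j hj hj2
    obtain ⟨j', rfl⟩ := hj
    have hj' : ¬ p ∣ j' := by
      intro h
      exact hj2 (by rw [pow_two]; exact mul_dvd_mul_left p h)
    set z := ζ ^ (p * j') with hz
    have hzp : z ^ p = 1 := by
      rw [hz, ← pow_mul, show p * j' * p = p ^ 2 * j' by ring, pow_mul, hζ1, one_pow]
    have hzn : ‖z‖ = 1 := z5_norm_one hp0.ne' hzp
    have hz0 : z ≠ 0 := by
      intro h
      rw [h, norm_zero] at hzn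
      exact zero_ne_one hzn
    have hz1 : ‖z - 1‖ = t ^ p := h2 _ hj'
    have hzi : z - z⁻¹ ≠ 0 := by
      rw [← norm_pos_iff]
      have h3 := z5_pm hzn 1
      rw [pow_one, pow_one, hz, ← pow_mul, show p * j' * (2 * 1) = p * (2 * j') by ring,
        h2 _ (hnd2 j' hj')] at h3
      rw [hz, h3]
      positivity
    have hzip : z⁻¹ ^ p = 1 := by rw [inv_pow, hzp, inv_one]
    refine ⟨?_, ?_, ?_⟩
    · intro d
      have h3 := (rho_taylor z hzn d).1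
      rw [hz1, ← pow_mul, mul_comm p 2] at h3
      exact h3
    · intro m
      have h3 := rho_mul z hz0 (p * m)
      rw [pow_mul, pow_mul, hzp, hzip, sub_self] at h3
      exact (mul_eq_zero.1 h3).resolve_left hzi
    · intro δ l hl
      have hper : ∀ i : ℕ, rho z (δ + p * i) = rho z δ := by
        intro i
        apply mul_left_cancel₀ hzi
        rw [rho_mul z hz0, rho_mul z hz0, pow_add, pow_add, pow_mul, pow_mul, hzp, hzip, one_pow,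
          mul_one, mul_one]
      unfold fdRow
      have h4 : ∀ i ∈ Finset.range (l + 1), (-1 : K) ^ (l - i) * (l.choose i : K) *
          rho z (δ + p * i) = (-1 : K) ^ (l - i) * (l.choose i : K) * rho z δ := by
        intro i _
        rw [hper]
      rw [Finset.sum_congr rfl h4, ← Finset.sum_mul, z5_alt l hl, zero_mul]
  · have h3 := hsecond 1 hnd1
    rwa [mul_one] at h3
  · intro δ
    apply hdiv
    have h3 : fdRow ζ p δ 1 1 = rho ζ (δ + p) - rho ζ δ := by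
      unfold fdRow
      rw [Finset.sum_range_succ, Finset.sum_range_one]
      simp
      ring
    rw [h3, mul_sub, rho_mul ζ hζ0, rho_mul ζ hζ0]
    have hi : ζ * ζ⁻¹ = 1 := mul_inv_cancel₀ hζ0
    have h4 : ζ ^ (δ + p) - ζ⁻¹ ^ (δ + p) - (ζ ^ δ - ζ⁻¹ ^ δ) =
        (ζ ^ p - 1) * (ζ⁻¹ ^ (δ + p) * ((ζ ^ (2 * δ + p) - 1) + 2)) := by
      have h5 : ζ⁻¹ ^ (δ + p) * ζ ^ (2 * δ + p) = ζ ^ δ := by
        have : ζ ^ (2 * δ + p) = ζ ^ (δ + p) * ζ ^ δ := by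
          rw [← pow_add]
          congr 1
          ring
        rw [this, ← mul_assoc, ← mul_pow, mul_comm ζ⁻¹ ζ, hi, one_pow, one_mul]
      have h6 : ζ ^ p * ζ⁻¹ ^ (δ + p) = ζ⁻¹ ^ δ := by
        rw [pow_add, mul_comm (ζ⁻¹ ^ δ), ← mul_assoc, ← mul_pow, hi, one_pow, one_mul]
      have h7 : (ζ ^ p - 1) * (ζ⁻¹ ^ (δ + p) * ((ζ ^ (2 * δ + p) - 1) + 2)) =
          (ζ ^ p - 1) * (ζ⁻¹ ^ (δ + p) * ζ ^ (2 * δ + p)) + ζ ^ p * ζ⁻¹ ^ (δ + p) -
            ζ⁻¹ ^ (δ + p) := by ring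
      rw [h7, h5, h6, pow_add]
      ring
    rw [h4, norm_mul, norm_mul, norm_pow, norm_inv, hn, inv_one, one_pow, one_mul]
    have h8 : ‖ζ ^ p - 1‖ = t ^ p := by
      have := h2 1 hnd1
      rwa [mul_one] at this
    have h9 : ‖ζ ^ (2 * δ + p) - 1‖ < ‖(2 : K)‖ := by
      rw [z5_two p q hp hq hpn]
      refine lt_of_le_of_lt (z5_sub hn _) ?_
      rw [ht]
      exact ht1
    rw [h8, IsUltrametricDist.norm_add_eq_max_of_norm_ne_norm h9.ne, max_eq_right h9.le,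
      z5_two p q hp hq hpn, mul_one]


end Pool.Agent.Helper805_nf
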