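import Mathlib
import Pool.Agent.Helper805_nf.Defs4
import Pool.Agent.Helper805_nf.Y3
import Pool.Agent.Helper805_nf.Z1
import Pool.Agent.Helper805_nf.Z2

set_option autoImplicit false

namespace Pool.Agent.Helper805_nf

open Finset









theorem z4_rho_rec {K : Type*} [Field K] (z : K) (hz : z ≠ 0) (d : ℕ) :
    rho z (d + 2) = (z + z⁻¹) * rho z (d + 1) - rho z d := by
  have e1 : rho z (d + 2) = z * rho z (d + 1) + z ^ (-(d : ℤ) - 1) := by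
    unfold rho
    rw [Finset.sum_range_succ, Finset.mul_sum]
    congr 1
    · refine Finset.sum_congr rfl fun s _ => ?_
      rw [← zpow_one_add₀ hz]
      congr 1
      push_cast
      ring
    · congr 1
      push_cast
      ring
  have e2 : z⁻¹ * rho z (d + 1) = rho z d + z ^ (-(d : ℤ) - 1) := by
    unfold rho
    rw [Finset.mul_sum, Finset.sum_range_succ]
    congr 1
    · refine Finset.sum_congr rfl fun s _ => ?_
      rw [← zpow_neg_one, ← zpow_add₀ hz]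
      congr 1
      push_cast
      ring
    · rw [← zpow_neg_one, ← zpow_add₀ hz]
      congr 1
      push_cast
      ring
  rw [e1, add_mul, e2]
  ring

theorem z4_rho_inv {K : Type*} [Field K] (z : K) (d : ℕ) : rho z⁻¹ d = rho z d := by
  unfold rho
  rw [← Finset.sum_range_reflect]
  refine Finset.sum_congr rfl fun s hs => ?_
  rw [inv_zpow, ← zpow_neg]
  congr 1
  have hs' : s < d := Finset.mem_range.1 hs
  have h1 : ((d - 1 - s : ℕ) : ℤ) = (d : ℤ) - 1 - s := by omega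
  rw [h1]
  ring

section z4
variable {K : Type*} [NormedField K] [IsUltrametricDist K] {p : ℕ} {ζ : K}

theorem z4_mul {N M : ℕ} {G G' : ℕ → K} (h : OrdF p ζ N G) (h' : OrdF p ζ M G') :
    OrdF p ζ (N + M) (fun j => G j * G' j) := (ordF_basic p ζ).1 N M G G' h h'

theorem z4_add {N : ℕ} {G G' : ℕ → K} (h : OrdF p ζ N G) (h' : OrdF p ζ N G') :
    OrdF p ζ N (fun j => G j + G' j) := (ordF_basic p ζ).2.1 N G G' h h'

theorem z4_smul {N : ℕ} {G : ℕ → K} (c : K) (hc : ‖c‖ ≤ 1) (h : OrdF p ζ N G) :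
    OrdF p ζ N (fun j => c * G j) := (ordF_basic p ζ).2.2.1 N G c hc h

theorem z4_mono {N M : ℕ} {G : ℕ → K} (hM : M ≤ N) (h : OrdF p ζ N G) : OrdF p ζ M G :=
  (ordF_basic p ζ).2.2.2.1 N M G hM h

theorem z4_poly {Q : Polynomial K} (hQ : ∀ k, ‖Q.coeff k‖ ≤ 1) :
    OrdF p ζ 0 (fun j => Q.eval (ζ ^ j)) := (ordF_basic p ζ).2.2.2.2.1 Q hQ

theorem z4_const {c : K} (hc : ‖c‖ ≤ 1) : OrdF p ζ 0 (fun _ => c) :=
  (ordF_basic p ζ).2.2.2.2.2.1 c hc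

theorem z4_congr {N : ℕ} {G G' : ℕ → K} (h : ∀ j, ¬ p ∣ j → G j = G' j) (hG : OrdF p ζ N G) :
    OrdF p ζ N G' := (ordF_basic p ζ).2.2.2.2.2.2.1 N G G' h hG

theorem z4_natnorm (n : ℕ) : ‖(n : K)‖ ≤ 1 := IsUltrametricDist.norm_natCast_le_one K n

theorem z4_zero (N : ℕ) : OrdF p ζ N (fun _ => (0 : K)) :=
  ⟨0, fun k => by simp, fun j _ => by simp⟩

theorem z4_neg {N : ℕ} {G : ℕ → K} (h : OrdF p ζ N G) : OrdF p ζ N (fun j => -G j) := by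
  have h1 := z4_smul (-1 : K) (by simp) h
  exact z4_congr (fun j _ => by ring) h1

theorem z4_sub {N : ℕ} {G G' : ℕ → K} (h : OrdF p ζ N G) (h' : OrdF p ζ N G') :
    OrdF p ζ N (fun j => G j - G' j) :=
  z4_congr (fun j _ => by ring) (z4_add h (z4_neg h'))

theorem z4_sum {ι : Type*} (S : Finset ι) {N : ℕ} {f : ι → ℕ → K}
    (h : ∀ i ∈ S, OrdF p ζ N (f i)) : OrdF p ζ N (fun j => ∑ i ∈ S, f i j) := by
  classical
  induction S using Finset.induction_on with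
  | empty => simpa using z4_zero (p := p) (ζ := ζ) N
  | insert a S ha ih =>
    have h1 := z4_add (h a (Finset.mem_insert_self a S))
      (ih fun i hi => h i (Finset.mem_insert_of_mem hi))
    exact z4_congr (fun j _ => by rw [Finset.sum_insert ha]) h1

theorem z4_pow {N : ℕ} {G : ℕ → K} (h : OrdF p ζ N G) (l : ℕ) :
    OrdF p ζ (N * l) (fun j => G j ^ l) := by
  induction l with
  | zero => simpa using z4_const (p := p) (ζ := ζ) (c := (1 : K)) (by simp)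
  | succ l ih =>
    have h1 := z4_mul ih h
    rw [Nat.mul_succ]
    exact z4_congr (fun j _ => (pow_succ _ _).symm) h1

theorem z4_mul0 {N : ℕ} {G G' : ℕ → K} (h : OrdF p ζ 0 G) (h' : OrdF p ζ N G') :
    OrdF p ζ N (fun j => G j * G' j) := by
  have := z4_mul h h'
  rwa [Nat.zero_add] at this

theorem z4_X : OrdF p ζ 0 (fun j => ζ ^ j) := by
  have h := z4_poly (p := p) (ζ := ζ) (Q := (Polynomial.X : Polynomial K)) (fun k => by
    rw [Polynomial.coeff_X]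
    split_ifs <;> simp)
  exact z4_congr (fun j _ => by simp) h

theorem z4_X1 : OrdF p ζ 1 (fun j => ζ ^ j - 1) :=
  ⟨1, fun k => by rw [Polynomial.coeff_one]; split_ifs <;> simp, fun j _ => by simp⟩

end z4

section z4b
variable {K : Type*} [NormedField K] [IsUltrametricDist K] {p : ℕ} {ζ : K}

theorem z4_pp (hζ : IsPrimitiveRoot ζ (p ^ 2)) (j : ℕ) : (ζ ^ j) ^ (p ^ 2) = 1 := by
  rw [← pow_mul, mul_comm, pow_mul, hζ.pow_eq_one, one_pow]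

theorem z4_ne0 (hp : p.Prime) (hζ : IsPrimitiveRoot ζ (p ^ 2)) (j : ℕ) : ζ ^ j ≠ 0 := by
  apply pow_ne_zero
  apply hζ.ne_zero
  exact (pow_pos hp.pos 2).ne'

theorem z4_prim (hp : p.Prime) (hζ : IsPrimitiveRoot ζ (p ^ 2)) {j : ℕ} (hj : ¬ p ∣ j) :
    IsPrimitiveRoot (ζ ^ j) (p ^ 2) := by
  refine hζ.pow_of_coprime j ?_
  exact Nat.Coprime.pow_right 2 ((hp.coprime_iff_not_dvd.2 hj).symm)

theorem z4_ne1 (hp : p.Prime) (hζ : IsPrimitiveRoot ζ (p ^ 2)) {j : ℕ} (hj : ¬ p ∣ j) :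
    ζ ^ j - 1 ≠ 0 := by
  intro h
  have h1 : ζ ^ j = 1 := sub_eq_zero.1 h
  have h2 := (z4_prim hp hζ hj).dvd_of_pow_eq_one 1 (by rw [pow_one, h1])
  have h3 := Nat.le_of_dvd one_pos h2
  have h4 : 2 ^ 2 ≤ p ^ 2 := Nat.pow_le_pow_left hp.two_le 2
  omega

theorem z4_ne2 {q : ℕ} (hp : p.Prime) (hq : p = 2 * q + 1) (hζ : IsPrimitiveRoot ζ (p ^ 2)) {j : ℕ}
    (hj : ¬ p ∣ j) : ζ ^ j + 1 ≠ 0 := by
  intro h
  have h1 : (ζ ^ j) ^ 2 = 1 := by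
    have : ζ ^ j = -1 := eq_neg_of_add_eq_zero_left h
    rw [this]
    norm_num
  have h2 := (z4_prim hp hζ hj).dvd_of_pow_eq_one 2 h1
  have h3 := Nat.le_of_dvd two_pos h2
  have h4 : 2 ^ 2 ≤ p ^ 2 := Nat.pow_le_pow_left hp.two_le 2
  omega

theorem z4_inv (hp : p.Prime) (hζ : IsPrimitiveRoot ζ (p ^ 2)) :
    OrdF p ζ 0 (fun j => (ζ ^ j)⁻¹) := by
  have h := z4_pow (z4_X (p := p) (ζ := ζ)) (p ^ 2 - 1)
  rw [Nat.zero_mul] at h
  refine z4_congr (fun j _ => ?_) h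
  have h0 := z4_ne0 hp hζ j
  have h1 := z4_pp hζ j
  have h2 : 1 ≤ p ^ 2 := Nat.one_le_pow _ _ hp.pos
  apply eq_inv_of_mul_eq_one_left
  rw [← pow_succ, Nat.sub_add_cancel h2, h1]

theorem z4_pow0 {G : ℕ → K} (h : OrdF p ζ 0 G) (l : ℕ) : OrdF p ζ 0 (fun j => G j ^ l) := by
  have := z4_pow h l
  rwa [Nat.zero_mul] at this

theorem z4_zpow (hp : p.Prime) (hζ : IsPrimitiveRoot ζ (p ^ 2)) (k : ℤ) :
    OrdF p ζ 0 (fun j => (ζ ^ j) ^ k) := by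
  obtain ⟨n, rfl | rfl⟩ := k.eq_nat_or_neg
  · exact z4_congr (fun j _ => (zpow_natCast _ _).symm) (z4_pow0 z4_X n)
  · refine z4_congr (fun j _ => ?_) (z4_pow0 (z4_inv hp hζ) n)
    rw [zpow_neg, zpow_natCast, inv_pow]

theorem z4_rho0 (hp : p.Prime) (hζ : IsPrimitiveRoot ζ (p ^ 2)) (d : ℕ) :
    OrdF p ζ 0 (fun j => rho (ζ ^ j) d) := by
  unfold rho
  exact z4_sum _ fun s _ => z4_zpow hp hζ _

/-- the inverse of `ζ ^ j + 1` -/
theorem z4_invadd {q : ℕ} (hp : p.Prime) (hq : p = 2 * q + 1) (hζ : IsPrimitiveRoot ζ (p ^ 2)) :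
    OrdF p ζ 0 (fun j => (ζ ^ j + 1)⁻¹) := by
  have hM : ∃ M, 2 * M = p ^ 2 + 1 := by
    refine ⟨2 * q ^ 2 + 2 * q + 1, ?_⟩
    rw [hq]
    ring
  obtain ⟨M, hM⟩ := hM
  have h : OrdF p ζ 0 (fun j => ∑ i ∈ Finset.range M, (ζ ^ j) ^ (2 * i)) :=
    z4_sum _ fun i _ => z4_pow0 z4_X _
  refine z4_congr (fun j hj => ?_) h
  have h1 := z4_ne1 hp hζ hj
  have h2 := z4_ne2 hp hq hζ hj
  have h3 := z4_pp hζ j
  apply eq_inv_of_mul_eq_one_left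
  have h4 : (∑ i ∈ Finset.range M, (ζ ^ j) ^ (2 * i)) * ((ζ ^ j) ^ 2 - 1) = ζ ^ j - 1 := by
    have h5 := geom_sum_mul ((ζ ^ j) ^ 2) M
    have e : (ζ ^ j) ^ (p ^ 2 + 1) = ζ ^ j := by rw [pow_succ, h3, one_mul]
    rw [← pow_mul (ζ ^ j) 2 M, hM, e] at h5
    rw [← h5]
    congr 1
    exact Finset.sum_congr rfl fun i _ => pow_mul _ _ _
  have h6 : (∑ i ∈ Finset.range M, (ζ ^ j) ^ (2 * i)) * (ζ ^ j + 1) * (ζ ^ j - 1)
      = 1 * (ζ ^ j - 1) := by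
    rw [one_mul, mul_assoc, show (ζ ^ j + 1) * (ζ ^ j - 1) = (ζ ^ j) ^ 2 - 1 by ring]
    exact h4
  exact mul_right_cancel₀ h1 h6

/-- cancelling a factor `ζ ^ j - 1` -/
theorem z4_cancel (hp : p.Prime) (hζ : IsPrimitiveRoot ζ (p ^ 2)) {N : ℕ} {G H : ℕ → K}
    (h : OrdF p ζ (N + 1) H) (hGH : ∀ j, ¬ p ∣ j → G j * (ζ ^ j - 1) = H j) : OrdF p ζ N G := by
  obtain ⟨Q, hQ, hH⟩ := h
  refine ⟨Q, hQ, fun j hj => ?_⟩
  have h1 := z4_ne1 hp hζ hj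
  have h2 := hGH j hj
  rw [hH j hj] at h2
  refine mul_right_cancel₀ h1 ?_
  rw [h2, pow_succ]
  ring

/-- dividing by `ζ ^ j - ζ ^ (-j)` -/
theorem z4_div {q : ℕ} (hp : p.Prime) (hq : p = 2 * q + 1) (hζ : IsPrimitiveRoot ζ (p ^ 2))
    {N M : ℕ} (hNM : N + 1 = M) {G H : ℕ → K} (h : OrdF p ζ M H)
    (hGH : ∀ j, ¬ p ∣ j → (ζ ^ j - (ζ ^ j)⁻¹) * G j = H j) : OrdF p ζ N G := by
  subst hNM
  have h1 : OrdF p ζ (N + 1) (fun j => (ζ ^ j * (ζ ^ j + 1)⁻¹) * H j) :=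
    z4_mul0 (z4_mul0 z4_X (z4_invadd hp hq hζ)) h
  refine z4_cancel hp hζ h1 fun j hj => ?_
  have h2 := z4_ne2 hp hq hζ hj
  have h3 := z4_ne0 hp hζ j
  rw [← hGH j hj]
  field_simp
  ring

/-- `z ^ p - 1` is of order `p` -/
theorem z4_zp (hp : p.Prime) (hζ : IsPrimitiveRoot ζ (p ^ 2)) :
    OrdF p ζ p (fun j => (ζ ^ j) ^ p - 1) := by
  have hterm : ∀ k ∈ Finset.range p,
      OrdF p ζ p (fun j => ((p.choose (k + 1) : ℕ) : K) * (ζ ^ j - 1) ^ (k + 1)) := by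
    intro k hk
    have hk' : k < p := Finset.mem_range.1 hk
    rcases Nat.lt_or_ge (k + 1) p with h | h
    · obtain ⟨c, hc⟩ := hp.dvd_choose_self (Nat.succ_ne_zero k) h
      have h1 : OrdF p ζ (p * (p - 1)) (fun _ => (p : K)) := (ordF_prime p hp ζ hζ).1
      have h2 : OrdF p ζ p (fun _ => (p : K)) := by
        refine z4_mono ?_ h1
        have : 1 ≤ p - 1 := by have := hp.two_le; omega
        exact Nat.le_mul_of_pos_right p this
      have h3 : OrdF p ζ 0 (fun j => (c : K) * (ζ ^ j - 1) ^ (k + 1)) :=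
        z4_mono (Nat.zero_le _) (z4_smul (c : K) (z4_natnorm c) (z4_pow z4_X1 (k + 1)))
      refine z4_congr (fun j _ => ?_) (z4_mul0 h3 h2)
      rw [hc]
      push_cast
      ring
    · have hk2 : k + 1 = p := by omega
      rw [hk2, Nat.choose_self]
      have h1 := z4_pow (z4_X1 (p := p) (ζ := ζ)) p
      rw [Nat.one_mul] at h1
      refine z4_congr (fun j _ => ?_) h1
      push_cast
      ring
  refine z4_congr (fun j _ => ?_) (z4_sum _ hterm)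
  have h1 : (ζ ^ j) ^ p = ((ζ ^ j - 1) + 1) ^ p := by ring
  rw [h1, add_pow, Finset.sum_range_succ']
  simp only [one_pow, mul_one, pow_zero, Nat.choose_zero_right, Nat.cast_one,
    add_sub_cancel_right]
  exact Finset.sum_congr rfl fun k _ => mul_comm _ _

theorem z4_zp' (hp : p.Prime) (hζ : IsPrimitiveRoot ζ (p ^ 2)) :
    OrdF p ζ p (fun j => ((ζ ^ j)⁻¹) ^ p - 1) := by
  have h1 : OrdF p ζ p (fun j => (-1 * ((ζ ^ j)⁻¹) ^ p) * ((ζ ^ j) ^ p - 1)) := by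
    refine z4_mul0 (z4_smul (-1 : K) (by simp) (z4_pow0 (z4_inv hp hζ) p)) (z4_zp hp hζ)
  refine z4_congr (fun j _ => ?_) h1
  have h0 := z4_ne0 hp hζ j
  have h2 : (ζ ^ j)⁻¹ ^ p * (ζ ^ j) ^ p = 1 := by
    rw [← mul_pow, inv_mul_cancel₀ h0, one_pow]
  linear_combination (-1 : K) * h2

theorem z4_b {q : ℕ} (hp : p.Prime) (hq : p = 2 * q + 1) (hζ : IsPrimitiveRoot ζ (p ^ 2)) (m : ℕ) :
    OrdF p ζ (p - 1) (fun j => rho (ζ ^ j) (p * m)) := by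
  have hp1 : p - 1 + 1 = p := Nat.sub_add_cancel hp.one_le
  have h1 : OrdF p ζ p (fun j => (∑ i ∈ Finset.range m, ((ζ ^ j) ^ p) ^ i) * ((ζ ^ j) ^ p - 1)) :=
    z4_mul0 (z4_sum _ fun i _ => z4_pow0 (z4_pow0 z4_X p) i) (z4_zp hp hζ)
  have h2 : OrdF p ζ p (fun j => (∑ i ∈ Finset.range m, (((ζ ^ j)⁻¹) ^ p) ^ i)
      * (((ζ ^ j)⁻¹) ^ p - 1)) :=
    z4_mul0 (z4_sum _ fun i _ => z4_pow0 (z4_pow0 (z4_inv hp hζ) p) i) (z4_zp' hp hζ)
  have h3 := z4_sub h1 h2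
  refine z4_div hp hq hζ hp1 ?_ (fun j hj => rho_mul (ζ ^ j) (z4_ne0 hp hζ j) (p * m))
  refine z4_congr (fun j _ => ?_) h3
  rw [geom_sum_mul, geom_sum_mul, ← pow_mul, ← pow_mul]
  ring

theorem z4_rhop (hp : p.Prime) {q : ℕ} (hq : p = 2 * q + 1) (hζ : IsPrimitiveRoot ζ (p ^ 2)) (m : ℕ)
    (j : ℕ) (hj : ¬ p ∣ j) :
    rho (ζ ^ j) (p * m) = rho (ζ ^ j) p * rho ((ζ ^ j) ^ p) m := by
  have h0 := z4_ne0 hp hζ j
  have h1 := z4_ne1 hp hζ hj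
  have h2 := z4_ne2 hp hq hζ hj
  have h3 : ζ ^ j - (ζ ^ j)⁻¹ ≠ 0 := by
    intro h
    have h4 : (ζ ^ j - (ζ ^ j)⁻¹) * ζ ^ j = (ζ ^ j - 1) * (ζ ^ j + 1) := by
      rw [sub_mul, inv_mul_cancel₀ h0]
      ring
    rw [h, zero_mul] at h4
    exact (mul_ne_zero h1 h2) h4.symm
  refine mul_left_cancel₀ h3 ?_
  rw [rho_mul _ h0, ← mul_assoc, rho_mul _ h0]
  have h5 := rho_mul ((ζ ^ j) ^ p) (pow_ne_zero _ h0) m
  rw [← inv_pow] at h5
  rw [h5, ← pow_mul (ζ ^ j) p m, ← pow_mul (ζ ^ j)⁻¹ p m]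

end z4b

theorem rows_ord {K : Type*} [NormedField K] [IsUltrametricDist K] (p q : ℕ) (hp : p.Prime)
    (hq : p = 2 * q + 1) (ζ : K) (hζ : IsPrimitiveRoot ζ (p ^ 2)) :
    (∀ d : ℕ, OrdF p ζ 2 (fun j => rho (ζ ^ j) d - (d : K))) ∧
    (∀ m : ℕ, OrdF p ζ (p - 1) (fun j => rho (ζ ^ j) (p * m))) ∧
    (∀ m : ℕ, OrdF p ζ (3 * p - 1) (fun j => rho (ζ ^ j) (p * m) - (m : K) * rho (ζ ^ j) p)) ∧
    (∀ δ l : ℕ, 1 ≤ l → OrdF p ζ (p * l - 1) (fdRow ζ p δ l)) ∧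
    (∀ d j j' : ℕ, p ^ 2 ∣ j + j' → rho (ζ ^ j) d = rho (ζ ^ j') d) := by
  refine ⟨?_, z4_b hp hq hζ, ?_, ?_, ?_⟩
  · have hsq : OrdF p ζ 2 (fun j => (ζ ^ j)⁻¹ * (ζ ^ j - 1) ^ 2) :=
      z4_mul0 (z4_inv hp hζ) (z4_pow z4_X1 2)
    have key : ∀ d : ℕ, OrdF p ζ 2 (fun j => rho (ζ ^ j) d - (d : K)) ∧
        OrdF p ζ 2 (fun j => rho (ζ ^ j) (d + 1) - ((d + 1 : ℕ) : K)) := by
      intro d
      induction d with
      | zero =>
        constructor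
        · refine z4_congr (fun j _ => ?_) (z4_zero 2)
          simp [rho]
        · refine z4_congr (fun j _ => ?_) (z4_zero 2)
          simp [rho]
      | succ d ih =>
        refine ⟨ih.2, ?_⟩
        have h1 : OrdF p ζ 2 (fun j => rho (ζ ^ j) (d + 1) * ((ζ ^ j)⁻¹ * (ζ ^ j - 1) ^ 2)) :=
          z4_mul0 (z4_rho0 hp hζ (d + 1)) hsq
        have h2 := z4_add (z4_sub (z4_smul (((2 : ℕ) : K)) (z4_natnorm 2) ih.2) ih.1) h1
        refine z4_congr (fun j _ => ?_) h2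
        have h0 := z4_ne0 hp hζ j
        rw [z4_rho_rec (ζ ^ j) h0 d]
        push_cast
        have h3 : (ζ ^ j)⁻¹ * (ζ ^ j - 1) ^ 2 = ζ ^ j + (ζ ^ j)⁻¹ - 2 := by
          have h4 : (ζ ^ j)⁻¹ * ζ ^ j = 1 := inv_mul_cancel₀ h0
          linear_combination (ζ ^ j - 2) * h4
        rw [h3]
        ring
    exact fun d => (key d).1
  · intro m
    have hsq : OrdF p ζ (2 * p) (fun j => ((ζ ^ j)⁻¹) ^ p * ((ζ ^ j) ^ p - 1) ^ 2) := by
      have h := z4_mul0 (z4_pow0 (z4_inv hp hζ) p) (z4_pow (z4_zp hp hζ) 2)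
      rwa [Nat.mul_comm p 2] at h
    have hrho : ∀ d, OrdF p ζ 0 (fun j => rho ((ζ ^ j) ^ p) d) := by
      intro d
      unfold rho
      refine z4_sum _ fun s _ => ?_
      refine z4_congr (fun j _ => ?_) (z4_zpow hp hζ ((p : ℤ) * ((d : ℤ) - 1 - 2 * (s : ℤ))))
      rw [zpow_mul, zpow_natCast]
    have key : ∀ d : ℕ, OrdF p ζ (2 * p) (fun j => rho ((ζ ^ j) ^ p) d - (d : K)) ∧
        OrdF p ζ (2 * p) (fun j => rho ((ζ ^ j) ^ p) (d + 1) - ((d + 1 : ℕ) : K)) := by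
      intro d
      induction d with
      | zero =>
        constructor
        · refine z4_congr (fun j _ => ?_) (z4_zero (2 * p))
          simp [rho]
        · refine z4_congr (fun j _ => ?_) (z4_zero (2 * p))
          simp [rho]
      | succ d ih =>
        refine ⟨ih.2, ?_⟩
        have h1 : OrdF p ζ (2 * p) (fun j => rho ((ζ ^ j) ^ p) (d + 1)
            * (((ζ ^ j)⁻¹) ^ p * ((ζ ^ j) ^ p - 1) ^ 2)) :=
          z4_mul0 (hrho (d + 1)) hsq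
        have h2 := z4_add (z4_sub (z4_smul (((2 : ℕ) : K)) (z4_natnorm 2) ih.2) ih.1) h1
        refine z4_congr (fun j _ => ?_) h2
        have h0 : (ζ ^ j) ^ p ≠ 0 := pow_ne_zero _ (z4_ne0 hp hζ j)
        rw [z4_rho_rec ((ζ ^ j) ^ p) h0 d]
        push_cast
        have h3 : ((ζ ^ j)⁻¹) ^ p * ((ζ ^ j) ^ p - 1) ^ 2 = (ζ ^ j) ^ p + ((ζ ^ j) ^ p)⁻¹ - 2 := by
          have h4 : ((ζ ^ j) ^ p)⁻¹ * (ζ ^ j) ^ p = 1 := inv_mul_cancel₀ h0
          rw [inv_pow]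
          linear_combination ((ζ ^ j) ^ p - 2) * h4
        rw [h3]
        ring
    have hb := z4_b hp hq hζ 1
    rw [Nat.mul_one] at hb
    have h5 := z4_mul hb (key m).1
    have h6 : p - 1 + 2 * p = 3 * p - 1 := by
      have := hp.one_le
      omega
    rw [h6] at h5
    refine z4_congr (fun j hj => ?_) h5
    rw [z4_rhop hp hq hζ m j hj]
    ring
  · intro δ l hl
    have hpl : p * l - 1 + 1 = p * l := Nat.sub_add_cancel (Nat.mul_pos hp.pos hl)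
    have h1 : OrdF p ζ (p * l) (fun j => (ζ ^ j) ^ δ * ((ζ ^ j) ^ p - 1) ^ l) :=
      z4_mul0 (z4_pow0 z4_X δ) (z4_pow (z4_zp hp hζ) l)
    have h2 : OrdF p ζ (p * l) (fun j => ((ζ ^ j)⁻¹) ^ δ * (((ζ ^ j)⁻¹) ^ p - 1) ^ l) :=
      z4_mul0 (z4_pow0 (z4_inv hp hζ) δ) (z4_pow (z4_zp' hp hζ) l)
    have h3 := z4_sub h1 h2
    refine z4_div hp hq hζ hpl h3 fun j hj => ?_
    have h0 := z4_ne0 hp hζ j
    have hbin : ∀ w : K, w ^ δ * (w ^ p - 1) ^ l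
        = ∑ i ∈ Finset.range (l + 1), (-1 : K) ^ (l - i) * (l.choose i : K) * w ^ (δ + p * i) := by
      intro w
      rw [sub_eq_add_neg, add_pow, Finset.mul_sum]
      refine Finset.sum_congr rfl fun i _ => ?_
      rw [pow_add, pow_mul]
      ring
    rw [hbin, hbin, fdRow, Finset.mul_sum, ← Finset.sum_sub_distrib]
    refine Finset.sum_congr rfl fun i _ => ?_
    have h4 := rho_mul (ζ ^ j) h0 (δ + p * i)
    linear_combination ((-1 : K) ^ (l - i) * (l.choose i : K)) * h4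
  · intro d j j' hjj
    have h0 := z4_ne0 hp hζ j
    have h1 : ζ ^ j * ζ ^ j' = 1 := by
      rw [← pow_add]
      exact (hζ.pow_eq_one_iff_dvd _).2 hjj
    have h2 : ζ ^ j' = (ζ ^ j)⁻¹ := eq_inv_of_mul_eq_one_right h1
    rw [h2, z4_rho_inv]


end Pool.Agent.Helper805_nf
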