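import Mathlib
import Pool.Agent.Helper805_nf.Defs4
import Pool.Agent.Helper805_nf.Y3
import Pool.Agent.Helper805_nf.Z1
import Pool.Agent.Helper805_nf.Z2

set_option autoImplicit false

namespace Pool.Agent.Helper805_nf

open Finset







/-- The subring of functions of order zero. -/
def z6_A {K : Type*} [NormedField K] [IsUltrametricDist K] (p : ℕ) (ζ : K) : Subring (ℕ → K) where
  carrier := {G | OrdF p ζ 0 G}
  mul_mem' := by
    intro a b ha hb
    exact (ordF_basic p ζ).1 0 0 a b ha hb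
  add_mem' := by
    intro a b ha hb
    exact (ordF_basic p ζ).2.1 0 a b ha hb
  one_mem' := (ordF_basic p ζ).2.2.2.2.2.1 1 (by simp)
  zero_mem' := (ordF_basic p ζ).2.2.2.2.2.1 0 (by simp)
  neg_mem' := by
    intro a ha
    have := (ordF_basic p ζ).2.2.1 0 a (-1) (by simp) ha
    have h2 : (fun j => (-1 : K) * a j) = -a := by funext j; simp
    rw [h2] at this
    exact this

section
variable {K : Type*} [NormedField K] [IsUltrametricDist K] {p : ℕ} {ζ : K}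

/-- order at least `N` -/
def z6_I (N : ℕ) (G : z6_A p ζ) : Prop := OrdF p ζ N (G : ℕ → K)

theorem z6_mul {N M : ℕ} {a b : z6_A p ζ} (ha : z6_I N a) (hb : z6_I M b) : z6_I (N + M) (a * b) := by
  have := (ordF_basic p ζ).1 N M _ _ ha hb
  exact this

theorem z6_mono {N M : ℕ} {a : z6_A p ζ} (h : M ≤ N) (ha : z6_I N a) : z6_I M a :=
  (ordF_basic p ζ).2.2.2.1 N M _ h ha

theorem z6_zero (a : z6_A p ζ) : z6_I 0 a := a.2

theorem z6_mulr {N : ℕ} {a : z6_A p ζ} (ha : z6_I N a) (b : z6_A p ζ) : z6_I N (a * b) := by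
  simpa using z6_mul ha (z6_zero b)

theorem z6_mull {N : ℕ} {a : z6_A p ζ} (b : z6_A p ζ) (ha : z6_I N a) : z6_I N (b * a) := by
  simpa using z6_mul (z6_zero b) ha

theorem z6_add {N : ℕ} {a b : z6_A p ζ} (ha : z6_I N a) (hb : z6_I N b) : z6_I N (a + b) := by
  have := (ordF_basic p ζ).2.1 N _ _ ha hb
  exact this

theorem z6_neg {N : ℕ} {a : z6_A p ζ} (ha : z6_I N a) : z6_I N (-a) := by
  have := z6_mull (-1) ha
  simpa using this

theorem z6_sub {N : ℕ} {a b : z6_A p ζ} (ha : z6_I N a) (hb : z6_I N b) : z6_I N (a - b) := by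
  rw [sub_eq_add_neg]; exact z6_add ha (z6_neg hb)

theorem z6_I_zero (N : ℕ) : z6_I N (0 : z6_A p ζ) := by
  refine ⟨0, by simp, fun j _ => by simp⟩

theorem z6_sum {ι : Type*} (S : Finset ι) {N : ℕ} (f : ι → z6_A p ζ) (h : ∀ i ∈ S, z6_I N (f i)) :
    z6_I N (∑ i ∈ S, f i) := by
  classical
  induction S using Finset.induction_on with
  | empty => simpa using z6_I_zero N
  | insert a S ha ih =>
    rw [Finset.sum_insert ha]
    exact z6_add (h a (by simp)) (ih (fun i hi => h i (by simp [hi])))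

theorem z6_pow {N : ℕ} {a : z6_A p ζ} (ha : z6_I N a) (k : ℕ) : z6_I (k * N) (a ^ k) := by
  induction k with
  | zero =>
    have := z6_zero (a ^ 0)
    rw [Nat.zero_mul]
    exact this
  | succ k ih =>
    rw [pow_succ, Nat.succ_mul]
    exact z6_mul ih ha

/-- the function `ζ ^ j` -/
def z6_z : z6_A p ζ := ⟨fun j => ζ ^ j, by
  have := (ordF_basic p ζ).2.2.2.2.1 Polynomial.X (by
    intro k
    rw [Polynomial.coeff_X]
    split_ifs <;> simp)
  simp only [Polynomial.eval_X] at this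
  exact this⟩

theorem z6_z_apply (j : ℕ) : ((z6_z : z6_A p ζ) : ℕ → K) j = ζ ^ j := rfl

theorem z6_zm1 : z6_I 1 ((z6_z : z6_A p ζ) - 1) := by
  refine ⟨1, ?_, ?_⟩
  · intro k
    rw [Polynomial.coeff_one]
    split_ifs <;> simp
  · intro j _
    simp [z6_z]

/-- binomial numbers of `p - 1` -/
theorem z6_choose (hp : p.Prime) (s : ℕ) (hs : s < p) :
    ∃ h : ℤ, (p : ℤ) * h = 1 - (-1) ^ s * ((p - 1).choose s : ℤ) := by
  induction s with
  | zero => exact ⟨0, by simp⟩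
  | succ s ih =>
    obtain ⟨h, hh⟩ := ih (by omega)
    have h1 : p.choose (s + 1) = (p - 1).choose s + (p - 1).choose (s + 1) := by
      have : p = (p - 1) + 1 := by have := hp.pos; omega
      conv_lhs => rw [this]
      exact Nat.choose_succ_succ _ _
    obtain ⟨c, hc⟩ := hp.dvd_choose_self (by omega : s + 1 ≠ 0) hs
    have h2 : ((p - 1).choose (s + 1) : ℤ) = p * c - (p - 1).choose s := by
      have : (p.choose (s + 1) : ℤ) = (p - 1).choose s + (p - 1).choose (s + 1) := by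
        exact_mod_cast h1
      rw [hc] at this
      push_cast at this
      linarith
    refine ⟨h + (-1) ^ s * c, ?_⟩
    rw [h2, mul_add, hh, pow_succ]
    ring

end

theorem z6_rho_eq {K : Type*} [Field K] (p : ℕ) (hp : p.Prime) (h : ℕ → ℤ)
    (hh : ∀ s, s < p → (p : ℤ) * h s = 1 - (-1) ^ s * ((p - 1).choose s : ℤ)) (w : K) (hw : w ≠ 0) :
    rho w p = (w - w⁻¹) ^ (p - 1) +
      (p : K) * ∑ s ∈ Finset.range p, (h s : K) * w ^ ((p : ℤ) - 1 - 2 * (s : ℤ)) := by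
  have hp1 : p - 1 + 1 = p := Nat.sub_add_cancel hp.pos
  have h1 : (w - w⁻¹) ^ (p - 1) =
      ∑ s ∈ Finset.range p, ((-1) ^ s * ((p - 1).choose s : K)) * w ^ ((p : ℤ) - 1 - 2 * (s : ℤ)) := by
    have : w - w⁻¹ = -w⁻¹ + w := by ring
    rw [this, add_pow, hp1]
    refine Finset.sum_congr rfl fun s hs => ?_
    have hs' : s < p := Finset.mem_range.1 hs
    have e1 : (-w⁻¹ : K) ^ s = (-1) ^ s * w ^ (-(s : ℤ)) := by
      rw [neg_pow, inv_pow, zpow_neg, zpow_natCast]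
    have e2 : w ^ (p - 1 - s) = w ^ ((p : ℤ) - 1 - s) := by
      rw [← zpow_natCast]
      congr 1
      omega
    rw [e1, e2]
    have e3 : w ^ ((p : ℤ) - 1 - 2 * (s : ℤ)) = w ^ (-(s : ℤ)) * w ^ ((p : ℤ) - 1 - s) := by
      rw [← zpow_add₀ hw]
      congr 1
      ring
    rw [e3]
    ring
  rw [h1, rho, Finset.mul_sum, ← Finset.sum_add_distrib]
  refine Finset.sum_congr rfl fun s hs => ?_
  have hs' : s < p := Finset.mem_range.1 hs
  have e : ((p : K)) * (h s : K) = 1 - (-1) ^ s * ((p - 1).choose s : K) := by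
    have := congrArg (fun t : ℤ => (t : K)) (hh s hs')
    push_cast at this
    exact this
  rw [← mul_assoc, e]
  ring

theorem z6_hsum (p : ℕ) (hp : p.Prime) (hp2 : 2 < p) (h : ℕ → ℤ)
    (hh : ∀ s, s < p → (p : ℤ) * h s = 1 - (-1) ^ s * ((p - 1).choose s : ℤ)) :
    ∑ s ∈ Finset.range p, h s = 1 := by
  have h1 : (p : ℤ) * ∑ s ∈ Finset.range p, h s = p := by
    rw [Finset.mul_sum, Finset.sum_congr rfl (fun s hs => hh s (Finset.mem_range.1 hs)),
      Finset.sum_sub_distrib]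
    have := Int.alternating_sum_range_choose_of_ne (n := p - 1) (by omega)
    rw [Nat.sub_add_cancel hp.pos] at this
    rw [this]
    simp
  have hp0 : (p : ℤ) ≠ 0 := by exact_mod_cast hp.ne_zero
  have : (p : ℤ) * ∑ s ∈ Finset.range p, h s = p * 1 := by rw [h1, mul_one]
  exact mul_left_cancel₀ hp0 this


theorem z6_zpow_mod {K : Type*} [Field K] (N : ℕ) (hN : 0 < N) (w : K) (hw : w ≠ 0) (h1 : w ^ N = 1)
    (k : ℤ) : w ^ k = w ^ ((k % (N : ℤ)).toNat) := by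
  have hN' : (N : ℤ) ≠ 0 := by exact_mod_cast hN.ne'
  have h2 : (((k % (N : ℤ)).toNat : ℕ) : ℤ) = k % (N : ℤ) := Int.toNat_of_nonneg (Int.emod_nonneg _ hN')
  rw [← zpow_natCast w ((k % (N : ℤ)).toNat), h2]
  conv_lhs => rw [← Int.emod_add_mul_ediv k (N : ℤ)]
  rw [zpow_add₀ hw, zpow_mul, zpow_natCast, h1, one_zpow, mul_one]

theorem sigma_pow {K : Type*} [NormedField K] [IsUltrametricDist K] (p q : ℕ) (hp : p.Prime)
    (hq : p = 2 * q + 1) (ζ : K) (hζ : IsPrimitiveRoot ζ (p ^ 2)) :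
    OrdF p ζ (p ^ 2) (fun j => (rho (ζ ^ j) p) ^ p + (p : K)) := by
  have hp2 : 3 ≤ p := by have := hp.two_le; omega
  obtain ⟨h, hh⟩ : ∃ h : ℕ → ℤ, ∀ s, s < p →
      (p : ℤ) * h s = 1 - (-1) ^ s * ((p - 1).choose s : ℤ) := by
    choose! h hh using (fun s (hs : s < p) => z6_choose hp s hs)
    exact ⟨h, hh⟩
  have hsum := z6_hsum p hp (by omega) h hh
  have hζ1 : ζ ^ (p ^ 2) = 1 := hζ.pow_eq_one
  have hpos : 0 < p ^ 2 := pow_pos hp.pos _
  have hζ0 : ζ ≠ 0 := hζ.ne_zero hpos.ne'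
  have hz0 : ∀ j : ℕ, ζ ^ j ≠ 0 := fun j => pow_ne_zero _ hζ0
  have hz1 : ∀ j : ℕ, (ζ ^ j) ^ (p ^ 2) = 1 := fun j => by
    rw [← pow_mul, mul_comm, pow_mul, hζ1, one_pow]
  have hzz1 : ∀ j : ℕ, ((ζ ^ j) ^ p) ^ (p ^ 2) = 1 := fun j => by
    rw [← pow_mul, mul_comm p, pow_mul, hz1, one_pow]
  -- the elements of the subring
  set z : z6_A p ζ := z6_z with hzdef
  have hzv : ∀ j, (z : ℕ → K) j = ζ ^ j := fun j => rfl
  set e : ℤ → ℕ := fun k => (k % ((p ^ 2 : ℕ) : ℤ)).toNat with hedef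
  have hev : ∀ (k : ℤ) (j : ℕ), (ζ ^ j) ^ k = (ζ ^ j) ^ (e k) := fun k j =>
    z6_zpow_mod (p ^ 2) hpos _ (hz0 j) (hz1 j) k
  have hev2 : ∀ (k : ℤ) (j : ℕ), ((ζ ^ j) ^ p) ^ k = ((ζ ^ j) ^ p) ^ (e k) := fun k j =>
    z6_zpow_mod (p ^ 2) hpos _ (pow_ne_zero _ (hz0 j)) (hzz1 j) k
  set y : z6_A p ζ := z ^ (p ^ 2 - 1) with hydef
  have hyv : ∀ j, (y : ℕ → K) j = (ζ ^ j)⁻¹ := by
    intro j
    have e1 : (y : ℕ → K) j = (ζ ^ j) ^ (p ^ 2 - 1) := by simp [hydef, hzv]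
    rw [e1]
    apply eq_inv_of_mul_eq_one_left
    rw [← pow_succ, Nat.sub_add_cancel hpos, hz1]
  have hyz : y * z = 1 := by
    apply Subtype.ext
    funext j
    have : ((y * z : z6_A p ζ) : ℕ → K) j = (y : ℕ → K) j * (z : ℕ → K) j := rfl
    rw [this, hyv, hzv, inv_mul_cancel₀ (hz0 j)]
    rfl
  -- the prime
  have hP : z6_I (p * (p - 1)) ((p : ℕ) : z6_A p ζ) := (ordF_prime p hp ζ hζ).1
  have hpp1 : p ≤ p * (p - 1) := Nat.le_mul_of_pos_right p (by omega)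
  have hz1' : z6_I 1 (z - 1) := z6_zm1
  -- order of `ω - 1`
  have hw1 : z6_I p (z ^ p - 1) := by
    obtain ⟨r, hr⟩ := exists_add_pow_prime_eq hp z (-1 : z6_A p ζ)
    have hodd : (-1 : z6_A p ζ) ^ p = -1 := Odd.neg_one_pow ⟨q, hq⟩
    rw [hodd] at hr
    have e1 : z ^ p - 1 = (z - 1) ^ p + ((p : ℕ) : z6_A p ζ) * (z * r) := by
      rw [sub_eq_add_neg z 1, hr]; ring
    rw [e1]
    refine z6_add ?_ ?_
    · have := z6_pow hz1' p
      rwa [mul_one] at this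
    · exact z6_mono hpp1 (z6_mulr hP _)
  have hwn : ∀ n : ℕ, z6_I p ((z ^ p) ^ n - 1) := by
    intro n
    rw [← mul_geom_sum]
    exact z6_mulr hw1 _
  -- the order of `u`
  set u : z6_A p ζ := z - y with hudef
  have hu1 : z6_I 1 u := by
    have : u = (z - 1) * (y * (z + 1)) := by
      have e1 : (z - 1) * (y * (z + 1)) = (y * z) * z - y := by ring
      rw [e1, hyz, one_mul]
    rw [this]
    exact z6_mulr hz1' _
  set U : z6_A p ζ := z ^ p - y ^ p with hUdef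
  have hUp : z6_I p U := by
    have : U = ((z ^ p) ^ 2 - 1) * y ^ p := by
      have e1 : ((z ^ p) ^ 2 - 1) * y ^ p = (y * z) ^ p * z ^ p - y ^ p := by ring
      rw [e1, hyz, one_pow, one_mul]
    rw [this]
    exact z6_mulr (hwn 2) _
  set σ : z6_A p ζ := ∑ s ∈ Finset.range p, z ^ (e ((p : ℤ) - 1 - 2 * (s : ℤ))) with hσdef
  have hσv : ∀ j, (σ : ℕ → K) j = rho (ζ ^ j) p := by
    intro j
    rw [hσdef, rho, AddSubmonoidClass.coe_finsetSum, Finset.sum_apply]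
    refine Finset.sum_congr rfl fun s _ => ?_
    rw [hev]
    rfl
  set H : z6_A p ζ := ∑ s ∈ Finset.range p, ((h s : ℤ) : z6_A p ζ) * z ^ (e ((p : ℤ) - 1 - 2 * (s : ℤ)))
    with hHdef
  have hHv : ∀ j, (H : ℕ → K) j =
      ∑ s ∈ Finset.range p, (h s : K) * (ζ ^ j) ^ ((p : ℤ) - 1 - 2 * (s : ℤ)) := by
    intro j
    rw [hHdef, AddSubmonoidClass.coe_finsetSum, Finset.sum_apply]
    refine Finset.sum_congr rfl fun s _ => ?_
    rw [hev]
    rfl
  set W : z6_A p ζ := ∑ s ∈ Finset.range p,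
    ((h s : ℤ) : z6_A p ζ) * (z ^ p) ^ (e ((p : ℤ) - 1 - 2 * (s : ℤ))) with hWdef
  have hWv : ∀ j, (W : ℕ → K) j =
      ∑ s ∈ Finset.range p, (h s : K) * ((ζ ^ j) ^ p) ^ ((p : ℤ) - 1 - 2 * (s : ℤ)) := by
    intro j
    rw [hWdef, AddSubmonoidClass.coe_finsetSum, Finset.sum_apply]
    refine Finset.sum_congr rfl fun s _ => ?_
    rw [hev2]
    rfl
  have hW1 : z6_I p (W - 1) := by
    have e1 : W - 1 = ∑ s ∈ Finset.range p,
        ((h s : ℤ) : z6_A p ζ) * ((z ^ p) ^ (e ((p : ℤ) - 1 - 2 * (s : ℤ))) - 1) := by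
      have e2 : (1 : z6_A p ζ) = ∑ s ∈ Finset.range p, ((h s : ℤ) : z6_A p ζ) := by
        rw [← Int.cast_sum, hsum, Int.cast_one]
      conv_lhs => rw [e2]
      rw [hWdef, ← Finset.sum_sub_distrib]
      refine Finset.sum_congr rfl fun s _ => ?_
      ring
    rw [e1]
    exact z6_sum _ _ (fun s _ => z6_mull _ (hwn _))
  have hσu : σ = u ^ (p - 1) + ((p : ℕ) : z6_A p ζ) * H := by
    apply Subtype.ext
    funext j
    have e1 : ((u ^ (p - 1) + ((p : ℕ) : z6_A p ζ) * H : z6_A p ζ) : ℕ → K) j =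
        ((z : ℕ → K) j - (y : ℕ → K) j) ^ (p - 1) + (p : K) * (H : ℕ → K) j := rfl
    rw [e1, hσv, hHv, hzv, hyv, z6_rho_eq p hp h hh _ (hz0 j)]
  have hU : U = u * σ := by
    apply Subtype.ext
    funext j
    have e1 : ((u * σ : z6_A p ζ) : ℕ → K) j =
        ((z : ℕ → K) j - (y : ℕ → K) j) * (σ : ℕ → K) j := rfl
    have e2 : (U : ℕ → K) j = ((z : ℕ → K) j) ^ p - ((y : ℕ → K) j) ^ p := rfl
    rw [e1, e2, hσv, hzv, hyv, rho_mul _ (hz0 j)]
  -- the last step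
  have hC : z6_I (p ^ 2) (U ^ (p - 1) + ((p : ℕ) : z6_A p ζ)) := by
    have h1 : z6_I (p * (p - 1) + p) (-(((p : ℕ) : z6_A p ζ) * (W - 1))) := z6_neg (z6_mul hP hW1)
    have h2 : p * (p - 1) + p = p ^ 2 := by
      obtain ⟨m, rfl⟩ : ∃ m, p = m + 1 := ⟨p - 1, by omega⟩
      simp only [Nat.add_sub_cancel]; ring
    rw [h2] at h1
    refine (ordF_basic p ζ).2.2.2.2.2.2.1 (p ^ 2) _ _ (fun j hj => ?_) h1
    have e1 : ((U ^ (p - 1) + ((p : ℕ) : z6_A p ζ) : z6_A p ζ) : ℕ → K) j =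
        (((z : ℕ → K) j) ^ p - ((y : ℕ → K) j) ^ p) ^ (p - 1) + (p : K) := rfl
    have e2 : ((-(((p : ℕ) : z6_A p ζ) * (W - 1)) : z6_A p ζ) : ℕ → K) j =
        -((p : K) * ((W : ℕ → K) j - 1)) := rfl
    rw [e1, e2, hzv, hyv, hWv, inv_pow]
    have hω0 : (ζ ^ j) ^ p ≠ 0 := pow_ne_zero _ (hz0 j)
    have h3 := z6_rho_eq p hp h hh _ hω0
    have hωp : ((ζ ^ j) ^ p) ^ p = 1 := by
      rw [← pow_mul, ← sq, hz1]
    have h4 : rho ((ζ ^ j) ^ p) p = 0 := by
      have h5 := rho_mul _ hω0 p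
      rw [inv_pow, hωp, inv_one, sub_self] at h5
      rcases mul_eq_zero.1 h5 with h6 | h6
      · exfalso
        have h7 : ((ζ ^ j) ^ p) ^ 2 = 1 := by
          have : (ζ ^ j) ^ p = ((ζ ^ j) ^ p)⁻¹ := sub_eq_zero.1 h6
          rw [sq]
          nth_rw 2 [this]
          exact mul_inv_cancel₀ hω0
        have h8 : ζ ^ (j * p * 2) = 1 := by rw [pow_mul, pow_mul]; exact h7
        have h9 : p ^ 2 ∣ j * p * 2 := (hζ.pow_eq_one_iff_dvd _).1 h8
        have h10 : p ∣ j * 2 := by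
          have : p * p ∣ p * (j * 2) := by
            have e : p * (j * 2) = j * p * 2 := by ring
            rw [e, ← sq]; exact h9
          exact Nat.dvd_of_mul_dvd_mul_left hp.pos this
        rcases (Nat.Prime.dvd_mul hp).1 h10 with h11 | h11
        · exact hj h11
        · have := Nat.le_of_dvd (by norm_num) h11
          omega
      · exact h6
    rw [h4] at h3
    linear_combination h3
  -- the middle step
  have hB : z6_I (p ^ 2) (u ^ (p * (p - 1)) - U ^ (p - 1)) := by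
    have e1 : u ^ p - U = -(((p : ℕ) : z6_A p ζ) * u * H) := by
      have : u ^ p = u * u ^ (p - 1) := by
        rw [← pow_succ', Nat.sub_add_cancel hp.pos]
      rw [hU, hσu, this]; ring
    have h1 : z6_I (p * (p - 1) + 1) (u ^ p - U) := by
      rw [e1]
      exact z6_neg (z6_mulr (z6_mul hP hu1) _)
    have h2 : z6_I p (u ^ p) := by
      have := z6_pow hu1 p
      rwa [mul_one] at this
    have e2 : u ^ (p * (p - 1)) - U ^ (p - 1) =
        (∑ i ∈ Finset.range (p - 1), (u ^ p) ^ i * U ^ (p - 1 - 1 - i)) * (u ^ p - U) := by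
      rw [geom_sum₂_mul, pow_mul]
    rw [e2]
    have h3 : z6_I ((p - 2) * p) (∑ i ∈ Finset.range (p - 1), (u ^ p) ^ i * U ^ (p - 1 - 1 - i)) := by
      refine z6_sum _ _ (fun i hi => ?_)
      have hi' : i < p - 1 := Finset.mem_range.1 hi
      have h4 := z6_mul (z6_pow h2 i) (z6_pow hUp (p - 1 - 1 - i))
      have e3 : i * p + (p - 1 - 1 - i) * p = (p - 2) * p := by
        rw [← add_mul]
        congr 1
        omega
      rwa [e3] at h4
    refine z6_mono ?_ (z6_mul h3 h1)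
    obtain ⟨m, rfl⟩ : ∃ m, p = m + 3 := ⟨p - 3, by omega⟩
    have e4 : m + 3 - 2 = m + 1 := by omega
    have e5 : m + 3 - 1 = m + 2 := by omega
    rw [e4, e5]
    nlinarith
  have hA : z6_I (p ^ 2) (σ ^ p - u ^ (p * (p - 1))) := by
    obtain ⟨r, hr⟩ := exists_add_pow_prime_eq hp (u ^ (p - 1)) (((p : ℕ) : z6_A p ζ) * H)
    have e1 : σ ^ p - u ^ (p * (p - 1)) = ((p : ℕ) : z6_A p ζ) * ((p : ℕ) : z6_A p ζ) *
        (((p : ℕ) : z6_A p ζ) ^ (p - 2) * H ^ p + u ^ (p - 1) * H * r) := by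
      rw [hσu, hr, ← pow_mul, mul_comm (p - 1) p]
      have e2 : (((p : ℕ) : z6_A p ζ) * H) ^ p =
          ((p : ℕ) : z6_A p ζ) * ((p : ℕ) : z6_A p ζ) * (((p : ℕ) : z6_A p ζ) ^ (p - 2) * H ^ p) := by
        rw [mul_pow]
        have : ((p : ℕ) : z6_A p ζ) ^ p =
            ((p : ℕ) : z6_A p ζ) * ((p : ℕ) : z6_A p ζ) * ((p : ℕ) : z6_A p ζ) ^ (p - 2) := by
          rw [← sq, ← pow_add]
          congr 1
          omega
        rw [this]
        ring
      rw [e2]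
      ring
    rw [e1]
    refine z6_mono ?_ (z6_mulr (z6_mul hP hP) _)
    obtain ⟨m, rfl⟩ : ∃ m, p = m + 3 := ⟨p - 3, by omega⟩
    have e5 : m + 3 - 1 = m + 2 := by omega
    rw [e5]
    nlinarith
  have hfin : z6_I (p ^ 2) (σ ^ p + ((p : ℕ) : z6_A p ζ)) := by
    have e1 : σ ^ p + ((p : ℕ) : z6_A p ζ) = (σ ^ p - u ^ (p * (p - 1))) +
        (u ^ (p * (p - 1)) - U ^ (p - 1)) + (U ^ (p - 1) + ((p : ℕ) : z6_A p ζ)) := by ring
    rw [e1]
    exact z6_add (z6_add hA hB) hC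
  have hfun : ((σ ^ p + ((p : ℕ) : z6_A p ζ) : z6_A p ζ) : ℕ → K) =
      fun j => (rho (ζ ^ j) p) ^ p + (p : K) := by
    funext j
    have e1 : ((σ ^ p + ((p : ℕ) : z6_A p ζ) : z6_A p ζ) : ℕ → K) j =
        ((σ : ℕ → K) j) ^ p + (p : K) := rfl
    rw [e1, hσv]
  have := hfin
  unfold z6_I at this
  rw [hfun] at this
  exact this


end Pool.Agent.Helper805_nf
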