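import Mathlib
import Pool.Agent.Helper805_nf.Defs4
import Pool.Agent.Helper805_nf.Y1
import Pool.Agent.Helper805_nf.Y3
import Pool.Agent.Helper805_nf.Z1
import Pool.Agent.Helper805_nf.Z2
import Pool.Agent.Helper805_nf.Z3
import Pool.Agent.Helper805_nf.Z4
import Pool.Agent.Helper805_nf.Z6

set_option autoImplicit false

namespace Pool.Agent.Helper805_nf

open Finset














/-- The order of the powers of `-p`. -/
theorem z7_negp_pow {K : Type*} [NormedField K] [IsUltrametricDist K] (p : ℕ) (hp : p.Prime) (ζ : K)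
    (hζ : IsPrimitiveRoot ζ (p ^ 2)) (β : ℕ) :
    OrdF p ζ (p * (p - 1) * β) (fun _ => (-(p : K)) ^ β) := by
  obtain ⟨hmul, -, hsmul, -, -, hconst, hcongr, -⟩ := ordF_basic (K := K) p ζ
  induction β with
  | zero => simpa using hconst 1 (by simp)
  | succ β ih =>
    have h1 := hsmul (p * (p - 1)) (fun _ => (p : K)) (-1) (by simp) (ordF_prime p hp ζ hζ).1
    have h2 := hmul _ _ _ _ ih h1
    have e : p * (p - 1) * (β + 1) = p * (p - 1) * β + p * (p - 1) := by ring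
    rw [e]
    refine hcongr _ _ _ (fun j _ => ?_) h2
    ring

/-- The order of `σ ^ (p β) - (-p) ^ β`. -/
theorem z7_E {K : Type*} [NormedField K] [IsUltrametricDist K] (p q : ℕ) (hp : p.Prime)
    (hq : p = 2 * q + 1) (ζ : K) (hζ : IsPrimitiveRoot ζ (p ^ 2)) (β : ℕ) :
    OrdF p ζ (p * (p - 1) * β + p ^ 2)
      (fun j => (rho (ζ ^ j) p) ^ (p * (β + 1)) - (-(p : K)) ^ (β + 1)) := by
  obtain ⟨hmul, hadd, hsmul, hmono, -, hconst, hcongr, -⟩ := ordF_basic (K := K) p ζ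
  have hη := sigma_pow p q hp hq ζ hζ
  induction β with
  | zero =>
    refine hcongr _ _ _ (fun j _ => ?_) (by simpa using hη)
    simp
  | succ β ih =>
    have hp2 : p * (p - 1) ≤ p ^ 2 := by
      rw [pow_two]; exact Nat.mul_le_mul_left _ (Nat.sub_le _ _)
    have hσ : OrdF p ζ (p * (p - 1)) (fun j => (rho (ζ ^ j) p) ^ p) := by
      have h1 := hmono _ _ _ hp2 hη
      have h2 := hsmul (p * (p - 1)) (fun _ => (p : K)) (-1) (by simp) (ordF_prime p hp ζ hζ).1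
      refine hcongr _ _ _ (fun j _ => ?_) (hadd _ _ _ h1 h2)
      simp
    have hA := hmul _ _ _ _ hσ ih
    have hB := hmul _ _ _ _ hη (z7_negp_pow p hp ζ hζ (β + 1))
    have e1 : p * (p - 1) + (p * (p - 1) * β + p ^ 2) = p * (p - 1) * (β + 1) + p ^ 2 := by ring
    have e2 : p ^ 2 + p * (p - 1) * (β + 1) = p * (p - 1) * (β + 1) + p ^ 2 := by ring
    rw [e1] at hA
    rw [e2] at hB
    refine hcongr _ _ _ (fun j _ => ?_) (hadd _ _ _ hA hB)
    have e3 : (rho (ζ ^ j) p) ^ (p * (β + 1 + 1)) =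
        (rho (ζ ^ j) p) ^ p * (rho (ζ ^ j) p) ^ (p * (β + 1)) := by
      rw [← pow_add]; congr 1; ring
    rw [e3, pow_succ (-(p : K)) (β + 1)]
    ring

/-- The number of `j : Fin n` with `p ∤ j + 1`. -/
theorem z7_count {K : Type*} [Field K] (p q n : ℕ) (hq : p = 2 * q + 1) (hn : n = p * q + q)
    (c : K) (hp : 0 < p) :
    (∑ j : Fin n, if p ∣ (j : ℕ) + 1 then 0 else c) = ((p * q : ℕ) : K) * c := by
  have h1 : (∑ j : Fin n, if p ∣ (j : ℕ) + 1 then (0 : K) else c) =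
      ∑ j ∈ Finset.range n, if p ∣ j + 1 then (0 : K) else c :=
    Fin.sum_univ_eq_sum_range (fun j => if p ∣ j + 1 then (0 : K) else c) n
  rw [h1]
  have h2 : (∑ j ∈ Finset.range n, if p ∣ j + 1 then (0 : K) else c) =
      ∑ j ∈ Finset.range n, (c - if p ∣ j + 1 then c else 0) := by
    refine Finset.sum_congr rfl (fun j _ => ?_)
    split_ifs <;> simp
  rw [h2, Finset.sum_sub_distrib, Finset.sum_const, Finset.card_range, ← Finset.sum_filter,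
    Finset.sum_const]
  have h3 : (Finset.filter (fun j => p ∣ j + 1) (Finset.range n)).card = q := by
    have := Nat.card_multiples n p
    rw [this, hn, Nat.mul_add_div hp, Nat.div_eq_of_lt (by omega), Nat.add_zero]
  rw [h3, nsmul_eq_mul, nsmul_eq_mul, hn]
  push_cast
  ring

theorem sigma_sums {K : Type*} [NormedField K] [IsUltrametricDist K] (p q n : ℕ) (hp : p.Prime)
    (hq : p = 2 * q + 1) (hn : n = p * q + q) (hpn : ‖(p : K)‖ = (p : ℝ)⁻¹) (ζ : K)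
    (hζ : IsPrimitiveRoot ζ (p ^ 2)) (t : ℝ) (ht0 : 0 < t) (ht1 : t < 1) (htp : t ^ (p * (p - 1)) = (p : ℝ)⁻¹)
    (h1 : ∀ j : ℕ, ¬ p ∣ j → ‖ζ ^ j - 1‖ = t) (β : ℕ) (hβ : 1 ≤ β) :
    ‖2 * (∑ j : Fin n, if p ∣ (j : ℕ) + 1 then 0 else (rho (ζ ^ ((j : ℕ) + 1)) p) ^ (p * β)) +
      (p : K) * (rho ζ p) ^ (p * β)‖ < (p : ℝ)⁻¹ * (t ^ (p - 1)) ^ (p * β) := by
  obtain ⟨β, rfl⟩ : ∃ b, β = b + 1 := ⟨β - 1, by omega⟩
  have hp0 : 0 < p := hp.pos
  have hp2 : 2 ≤ p := hp.two_le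
  have hp1 : (1 : ℝ) < p := by exact_mod_cast hp.one_lt
  have hpR : (0 : ℝ) < p := by positivity
  have hE := z7_E p q hp hq ζ hζ β
  set E : ℕ → K := fun j => (rho (ζ ^ j) p) ^ (p * (β + 1)) - (-(p : K)) ^ (β + 1) with hEdef
  have hEeven : ∀ j j' : ℕ, p ^ 2 ∣ j + j' → E j = E j' := by
    intro j j' h
    simp only [hEdef]
    rw [(rows_ord p q hp hq ζ hζ).2.2.2.2 p j j' h]
  have htr := ordF_trace p q n hp hq hn hpn ζ hζ _ E hE hEeven
  have hv : vO p (p * (p - 1) * β + p ^ 2) = β + 3 := by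
    unfold vO
    have h1 : ¬ p * (p - 1) * β + p ^ 2 < p := by
      have : p ≤ p ^ 2 := by nlinarith
      omega
    rw [if_neg h1]
    have hpp : 0 < p * (p - 1) := Nat.mul_pos hp0 (by omega)
    have h2 : p * (p - 1) * β + p ^ 2 - p = p * (p - 1) * (β + 1) := by
      have h3 : p ^ 2 = p * (p - 1) + p := by
        obtain ⟨r, rfl⟩ : ∃ r, p = r + 1 := ⟨p - 1, by omega⟩
        simp only [Nat.add_sub_cancel]; ring
      rw [h3, Nat.mul_add (p * (p - 1)) β 1, Nat.mul_one]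
      omega
    rw [h2, Nat.mul_div_cancel_left _ hpp]
    omega
  rw [hv] at htr
  -- norms
  have hζ1 : ‖ζ‖ = 1 := by
    have h := hζ.pow_eq_one
    have h2 : ‖ζ‖ ^ (p ^ 2) = 1 := by rw [← norm_pow, h, norm_one]
    exact (pow_eq_one_iff_of_nonneg (norm_nonneg _) (by positivity)).1 h2
  have hE1 : ‖E 1‖ ≤ t ^ (p * (p - 1) * β + p ^ 2) := by
    obtain ⟨Q, hQ, hG⟩ := hE
    have hnd : ¬ p ∣ 1 := by
      intro h; exact absurd (Nat.le_of_dvd one_pos h) (by omega)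
    rw [hG 1 hnd, norm_mul, norm_pow, h1 1 hnd]
    have hQ1 : ‖Q.eval (ζ ^ 1)‖ ≤ 1 := by
      rw [Polynomial.eval_eq_sum_range]
      refine IsUltrametricDist.norm_sum_le_of_forall_le_of_nonneg zero_le_one (fun i _ => ?_)
      rw [norm_mul, norm_pow, norm_pow, hζ1]
      simpa using hQ i
    calc t ^ (p * (p - 1) * β + p ^ 2) * ‖Q.eval (ζ ^ 1)‖
        ≤ t ^ (p * (p - 1) * β + p ^ 2) * 1 := by gcongr
      _ = _ := mul_one _
  have htN : t ^ (p * (p - 1) * β + p ^ 2) < ((p : ℝ)⁻¹) ^ (β + 1) := by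
    have e1 : p * (p - 1) * β + p ^ 2 = p * (p - 1) * (β + 1) + p := by
      have h3 : p ^ 2 = p * (p - 1) + p := by
        obtain ⟨r, rfl⟩ : ∃ r, p = r + 1 := ⟨p - 1, by omega⟩
        simp only [Nat.add_sub_cancel]; ring
      rw [h3, Nat.mul_add (p * (p - 1)) β 1, Nat.mul_one]
      omega
    rw [e1, pow_add, pow_mul, htp]
    have h3 : t ^ p < 1 := pow_lt_one₀ ht0.le ht1 (by omega)
    have h4 : 0 < ((p : ℝ)⁻¹) ^ (β + 1) := by positivity
    nlinarith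
  have hRHS : (p : ℝ)⁻¹ * (t ^ (p - 1)) ^ (p * (β + 1)) = ((p : ℝ)⁻¹) ^ (β + 2) := by
    have : (t ^ (p - 1)) ^ (p * (β + 1)) = ((p : ℝ)⁻¹) ^ (β + 1) := by
      rw [← pow_mul, ← htp, ← pow_mul]
      congr 1
      ring
    rw [this, pow_succ' _ (β + 1)]
  have hlt : ((p : ℝ)⁻¹) ^ (β + 3) < ((p : ℝ)⁻¹) ^ (β + 2) :=
    pow_lt_pow_right_of_lt_one₀ (by positivity) (inv_lt_one_of_one_lt₀ hp1) (by omega)
  -- the sum
  have hsum : (∑ j : Fin n, if p ∣ (j : ℕ) + 1 then 0 else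
      (rho (ζ ^ ((j : ℕ) + 1)) p) ^ (p * (β + 1))) =
      (∑ j : Fin n, if p ∣ (j : ℕ) + 1 then 0 else E ((j : ℕ) + 1)) +
        ((p * q : ℕ) : K) * (-(p : K)) ^ (β + 1) := by
    rw [← z7_count p q n hq hn _ hp0, ← Finset.sum_add_distrib]
    refine Finset.sum_congr rfl (fun j _ => ?_)
    split_ifs
    · simp
    · simp [hEdef]
  have hσ1 : (rho ζ p) ^ (p * (β + 1)) = E 1 + (-(p : K)) ^ (β + 1) := by
    simp [hEdef]
  rw [hsum, hσ1, hRHS]
  set SE := ∑ j : Fin n, if p ∣ (j : ℕ) + 1 then 0 else E ((j : ℕ) + 1) with hSE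
  have hqK : (2 : K) * (q : K) + 1 = (p : K) := by rw [hq]; push_cast; ring
  have hre : 2 * (SE + ((p * q : ℕ) : K) * (-(p : K)) ^ (β + 1)) +
      (p : K) * (E 1 + (-(p : K)) ^ (β + 1)) =
      (2 * SE + (p : K) ^ 2 * (-(p : K)) ^ (β + 1)) + (p : K) * E 1 := by
    have : (2 : K) * (p : K) * (q : K) + (p : K) = (p : K) ^ 2 := by
      calc (2 : K) * (p : K) * (q : K) + (p : K) = (p : K) * (2 * (q : K) + 1) := by ring
        _ = (p : K) ^ 2 := by rw [hqK]; ring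
    push_cast
    rw [← this]
    ring
  rw [hre]
  have hn2 : ‖(2 : K)‖ ≤ 1 := by
    have := (norm_nat_facts p hp hpn 2).1
    simpa using this
  have hA1 : ‖2 * SE‖ < ((p : ℝ)⁻¹) ^ (β + 2) := by
    rw [norm_mul]
    calc ‖(2 : K)‖ * ‖SE‖ ≤ 1 * ((p : ℝ)⁻¹) ^ (β + 3) := by gcongr
      _ = ((p : ℝ)⁻¹) ^ (β + 3) := one_mul _
      _ < _ := hlt
  have hA2 : ‖(p : K) ^ 2 * (-(p : K)) ^ (β + 1)‖ < ((p : ℝ)⁻¹) ^ (β + 2) := by
    rw [norm_mul, norm_pow, norm_pow, norm_neg, hpn, ← pow_add]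
    calc ((p : ℝ)⁻¹) ^ (2 + (β + 1)) = ((p : ℝ)⁻¹) ^ (β + 3) := by congr 1; omega
      _ < _ := hlt
  have hA3 : ‖(p : K) * E 1‖ < ((p : ℝ)⁻¹) ^ (β + 2) := by
    rw [norm_mul, hpn, pow_succ' _ (β + 1)]
    have : ‖E 1‖ < ((p : ℝ)⁻¹) ^ (β + 1) := lt_of_le_of_lt hE1 htN
    gcongr
  calc ‖(2 * SE + (p : K) ^ 2 * (-(p : K)) ^ (β + 1)) + (p : K) * E 1‖
      ≤ max ‖2 * SE + (p : K) ^ 2 * (-(p : K)) ^ (β + 1)‖ ‖(p : K) * E 1‖ :=
        IsUltrametricDist.norm_add_le_max _ _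
    _ ≤ max (max ‖2 * SE‖ ‖(p : K) ^ 2 * (-(p : K)) ^ (β + 1)‖) ‖(p : K) * E 1‖ :=
        max_le_max (IsUltrametricDist.norm_add_le_max _ _) le_rfl
    _ < ((p : ℝ)⁻¹) ^ (β + 2) := max_lt (max_lt hA1 hA2) hA3



end Pool.Agent.Helper805_nf
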