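import Mathlib
import Pool.Agent.Helper805_nf.Defs4
import Pool.Agent.Helper805_nf.Y1
import Pool.Agent.Helper805_nf.Y16
import Pool.Agent.Helper805_nf.Y4
import Pool.Agent.Helper805_nf.Z10
import Pool.Agent.Helper805_nf.Z10c
import Pool.Agent.Helper805_nf.Z11d
import Pool.Agent.Helper805_nf.Z12a
import Pool.Agent.Helper805_nf.Z12b
import Pool.Agent.Helper805_nf.Z13
import Pool.Agent.Helper805_nf.Z14e
import Pool.Agent.Helper805_nf.Z5
import Pool.Agent.Helper805_nf.Z5b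
import Pool.Agent.Helper805_nf.Z7

set_option autoImplicit false

namespace Pool.Agent.Helper805_nf

open Finset

























theorem perT_ident {K : Type*} [NormedField K] [IsUltrametricDist K] (p q m : ℕ) (hp : p.Prime)
    (hq : p = 2 * q + 1) (h5 : 5 ≤ p) (hpn : ‖(p : K)‖ = (p : ℝ)⁻¹) (ζ : K) (hζ : IsPrimitiveRoot ζ (p ^ 2))
    (t : ℝ) (ht0 : 0 < t) (ht1 : t < 1) (htp : t ^ (p * (p - 1)) = (p : ℝ)⁻¹)
    (h1 : ∀ j : ℕ, ¬ p ∣ j → ‖ζ ^ j - 1‖ = t) (h2 : ∀ j : ℕ, ¬ p ∣ j → ‖ζ ^ (p * j) - 1‖ = t ^ p)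
    (hm : m = p * q - 1 + q) (T H : Finset (Fin m))
    (hHT : Disjoint H T) (lab l : Fin m → ℕ) (hlab : ∀ i, i ∉ H → i ∉ T → ¬ p ∣ lab i) (δ : ℕ)
    (hl : ∀ i ∈ T, 1 ≤ l i) (W j w D : ℕ) (hW : H.card = W) (hWj : W = j * p + w) (hj : j + 1 ≤ q)
    (hwp : w < p) (hD : ∑ i ∈ T, l i = D) (hcase : (1 ≤ w ∧ w + D ≤ q) ∨ (D = 0 ∧ q ≤ w))
    (r : Fin m → ℕ → K) (hrT : ∀ i ∈ T, r i = fdRow ζ p δ (l i)) (hrH : ∀ i ∈ H, r i = fun a => rho (ζ ^ a) p)
    (hr : ∀ i, i ∉ H → i ∉ T → r i = fun a => rho (ζ ^ a) (lab i)) :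
    (T.card < D → ‖perT r‖ <
      ‖((p * q - 1).factorial : K)‖ * t ^ ((p - 1) * (W + D) + 2 * (q - (w + D)))) ∧
    (T.card = D → (∏ i ∈ (H ∪ T)ᶜ, (Polynomial.C (lab i : ZMod p) +
        Polynomial.C (((lab i + 1).choose 3 : ℕ) : ZMod p) * Polynomial.X)).coeff (q - (w + D)) ≠ 0 →
      ‖perT r‖ = ‖((p * q - 1).factorial : K)‖ * t ^ ((p - 1) * (W + D) + 2 * (q - (w + D)))) := by
  classical
  have hppos : 0 < p := hp.pos
  have hp1 : 1 ≤ p - 1 := by omega
  have hτ0 : 0 < t ^ (p - 1) := by positivity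
  have hτ1 : t ^ (p - 1) < 1 := pow_lt_one₀ ht0.le ht1 (by omega)
  have hτ : (t ^ (p - 1)) ^ p = (p : ℝ)⁻¹ := by
    rw [← pow_mul, Nat.mul_comm (p - 1) p]; exact htp
  have hζ1 : ‖ζ‖ = 1 := by
    have h := hζ.pow_eq_one
    have h' : ‖ζ‖ ^ (p ^ 2) = 1 := by rw [← norm_pow, h, norm_one]
    exact (pow_eq_one_iff_of_nonneg (norm_nonneg ζ) (by positivity)).1 h'
  obtain ⟨R1, R2, -, R4⟩ := rowOK_inst (K := K) p q hp hq hpn ζ hζ t h1 h2 ht0 ht1
  obtain ⟨-, V1, -, V3⟩ := rows_val (K := K) p q hp hq hpn ζ hζ t h1 h2 ht0 ht1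
  have hTH : ∀ i ∈ T, i ∉ H := fun i hi hi' => (Finset.disjoint_left.1 hHT hi') hi
  obtain ⟨c, hcdef⟩ : ∃ c : Fin m → K, c = fun i => if i ∈ H ∪ T then 0 else (lab i : K) := ⟨_, rfl⟩
  obtain ⟨g, hgdef⟩ : ∃ g : Fin m → ℕ, g = fun i => if i ∈ H then 1 else if i ∈ T then l i else 0 := ⟨_, rfl⟩
  have hcHT : ∀ i ∈ H ∪ T, c i = 0 := fun i hi => by rw [hcdef]; simp only; rw [if_pos hi]
  have hcU : ∀ i, i ∉ H ∪ T → c i = (lab i : K) := fun i hi => by rw [hcdef]; simp only; rw [if_neg hi]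
  have hgH : ∀ i ∈ H, g i = 1 := fun i hi => by rw [hgdef]; simp only; rw [if_pos hi]
  have hgT : ∀ i ∈ T, g i = l i := fun i hi => by
    rw [hgdef]; simp only; rw [if_neg (hTH i hi), if_pos hi]
  have hgU : ∀ i, i ∉ H → i ∉ T → g i = 0 := fun i hi hi' => by
    rw [hgdef]; simp only; rw [if_neg hi, if_neg hi']
  have hr' : ∀ i, RowOK p ζ t (g i) (c i) (r i) := by
    intro i
    by_cases hiH : i ∈ H
    · rw [hgH i hiH, hcHT i (Finset.mem_union_left _ hiH), hrH i hiH]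
      have := R2 1 1 (by simp)
      simpa using this
    · by_cases hiT : i ∈ T
      · rw [hgT i hiT, hcHT i (Finset.mem_union_right _ hiT), hrT i hiT]
        exact R4 δ (l i) (hl i hiT)
      · rw [hgU i hiH hiT, hcU i (by simp [hiH, hiT]), hr i hiH hiT]
        exact R1 (lab i)
  obtain ⟨n, hn⟩ : ∃ n : ℕ, n = p * q + q := ⟨_, rfl⟩
  obtain ⟨G, hG, hGg0, hGc, hG0, hgg, hzero, hexp⟩ :=
    perT_expand (K := K) p q n m hp hq hn hm ζ t ht0 h1 r c g hr' hζ1
  obtain ⟨F, hF⟩ : ∃ F : Fin m → Fin n → K,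
    F = fun (i : Fin m) (j : Fin n) => if p ∣ (j : ℕ) + 1 then 0 else r i ((j : ℕ) + 1) - c i := ⟨_, rfl⟩
  have hP : ∀ S : Finset (Fin m), S.Nonempty →
      ‖∑ j, ∏ i ∈ S, F i j‖ ≤ ((p : ℝ)⁻¹) ^ vO p (∑ i ∈ S, oG p (g i)) := by
    intro S hS
    rw [hF]
    exact row_sums (K := K) p q n hp hq hn hpn ζ hζ t r c g hr' S hS
  rw [← hF] at hzero hexp
  have hN : NBound p q (t ^ (p - 1)) g (injSum F) :=
    lemma_N (K := K) p q hp hq hpn (t ^ (p - 1)) hτ0 hτ1 hτ F g hP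
  obtain ⟨φ, hφdef⟩ : ∃ φ : Fin n → K,
    φ = fun (j : Fin n) => if p ∣ (j : ℕ) + 1 then 0 else rho (ζ ^ ((j : ℕ) + 1)) p := ⟨_, rfl⟩
  have hφ : ∀ i ∈ H, F i = φ := by
    intro i hi
    rw [hF, hφdef]
    funext j
    simp only
    rw [hrH i hi, hcHT i (Finset.mem_union_left _ hi), sub_zero]
  have hsH : ∀ i ∈ H, r i 1 - c i = rho ζ p := by
    intro i hi
    rw [hrH i hi, hcHT i (Finset.mem_union_left _ hi), sub_zero]
    simp only [pow_one]
  -- the chosen subsets of H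
  obtain ⟨Ha, hHa⟩ : ∃ Ha : ℕ → Finset (Fin m), ∀ a, a ≤ W → Ha a ⊆ H ∧ (Ha a).card = a := by
    have : ∀ a : ℕ, ∃ B : Finset (Fin m), a ≤ W → B ⊆ H ∧ B.card = a := by
      intro a
      by_cases ha : a ≤ W
      · obtain ⟨B, hB1, hB2⟩ := Finset.exists_subset_card_eq (s := H) (n := a) (by rw [hW]; exact ha)
        exact ⟨B, fun _ => ⟨hB1, hB2⟩⟩
      · exact ⟨∅, fun h => absurd h ha⟩
    choose Ha hHa using this
    exact ⟨Ha, hHa⟩
  have hdisj : ∀ (As A' : Finset (Fin m)), As ⊆ H → Disjoint A' H → Disjoint As A' :=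
    fun As A' h h' => (h'.mono_right h).symm
  have hinterH : ∀ (As A' : Finset (Fin m)), As ⊆ H → Disjoint A' H → (As ∪ A') ∩ H = As := by
    intro As A' h h'
    ext x
    simp only [Finset.mem_inter, Finset.mem_union]
    constructor
    · rintro ⟨h1 | h1, h2⟩
      · exact h1
      · exact absurd h2 (Finset.disjoint_left.1 h' h1)
    · intro hx
      exact ⟨Or.inl hx, h hx⟩
  have hsdiffH : ∀ (As A' : Finset (Fin m)), As ⊆ H → Disjoint A' H → (As ∪ A') \ H = A' := by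
    intro As A' h h'
    ext x
    simp only [Finset.mem_sdiff, Finset.mem_union]
    constructor
    · rintro ⟨h1 | h1, h2⟩
      · exact absurd (h h1) h2
      · exact h1
    · intro hx
      exact ⟨Or.inr hx, Finset.disjoint_left.1 h' hx⟩
  have hJ : ∀ As A', As ⊆ H → Disjoint A' H →
      injSum F (As ∪ A') = (fun (a : ℕ) (A' : Finset (Fin m)) => injSum F (Ha a ∪ A')) As.card A' := by
    intro As A' h h'
    have hcard : As.card ≤ W := by rw [← hW]; exact Finset.card_le_card h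
    obtain ⟨e1, e2⟩ := hHa As.card hcard
    refine injSum_ident F H φ hφ _ _ ?_ ?_
    · rw [hsdiffH _ _ h h', hsdiffH _ _ e1 h']
    · rw [hinterH _ _ h h', hinterH _ _ e1 h', e2]
  have hwlt : W % p = w := by
    rw [hWj, Nat.mul_add_mod_self_right, Nat.mod_eq_of_lt hwp]
  have hqp : q < p := by omega
  have hwD : W % p + D < p := by
    rw [hwlt]
    rcases hcase with h | h
    · omega
    · rw [h.1]; omega
  have hWp : W < p ^ 2 := by
    have h3 : (j + 1) * p ≤ q * p := Nat.mul_le_mul_right p hj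
    have h4 : q * p < p * p := Nat.mul_lt_mul_of_pos_right hqp hppos
    have h5' : W < (j + 1) * p := by rw [hWj]; nlinarith
    calc W < (j + 1) * p := h5'
      _ ≤ q * p := h3
      _ < p * p := h4
      _ = p ^ 2 := by ring
  have hDc : ∑ i ∈ Hᶜ, g i = D := by
    rw [← hD]
    have hsub : T ⊆ Hᶜ := fun i hi => Finset.mem_compl.2 (hTH i hi)
    rw [← Finset.sum_subset hsub (f := g) (fun i hi hi' => hgU i (Finset.mem_compl.1 hi) hi')]
    exact Finset.sum_congr rfl hgT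
  have hDT : ∑ i ∈ T, g i = D := by
    rw [← hD]
    exact Finset.sum_congr rfl hgT
  have hJ1 : ∀ (y a : ℕ) (A' : Finset (Fin m)), a ≤ W → Disjoint A' H → y + a + A'.card < p ^ 2 →
      (‖(y.factorial : K) * (fun (a : ℕ) (A' : Finset (Fin m)) => injSum F (Ha a ∪ A')) a A'‖ * t ^ (p - 1) ≤
        ‖((y + a + A'.card).factorial : K)‖ * (t ^ (p - 1)) ^ (a + ∑ i ∈ A', g i)) ∧
      (¬ (y % p = p - 1 ∧ (y + a + A'.card) % p = 0) →
        ‖(y.factorial : K) * (fun (a : ℕ) (A' : Finset (Fin m)) => injSum F (Ha a ∪ A')) a A'‖ ≤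
        ‖((y + a + A'.card).factorial : K)‖ * (t ^ (p - 1)) ^ (a + ∑ i ∈ A', g i)) ∧
      (q ≤ (y + a + A'.card) % p → (A'.Nonempty ∨ ¬ p ∣ a) →
        ‖(W.choose a : K) * ((y.factorial : K) *
            (fun (a : ℕ) (A' : Finset (Fin m)) => injSum F (Ha a ∪ A')) a A')‖ ≤
          ‖((y + a + A'.card).factorial : K)‖ * (t ^ (p - 1)) ^ (a + ∑ i ∈ A', g i + 1)) := by
    intro y a A' ha hA' hy
    obtain ⟨e1, e2⟩ := hHa a ha
    have hdj := hdisj _ _ e1 hA'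
    have hcard : (Ha a ∪ A').card = a + A'.card := by
      rw [Finset.card_union_of_disjoint hdj, e2]
    have hsum : ∑ i ∈ Ha a ∪ A', g i = a + ∑ i ∈ A', g i := by
      rw [Finset.sum_union hdj]
      congr 1
      rw [Finset.sum_congr rfl (fun i hi => hgH i (e1 hi)), Finset.sum_const, smul_eq_mul, mul_one, e2]
    have hy' : y + (Ha a ∪ A').card < p ^ 2 := by rw [hcard]; omega
    have hya : y + (Ha a ∪ A').card = y + a + A'.card := by rw [hcard]; omega
    obtain ⟨n1, n2, n3, -⟩ := hN y (Ha a ∪ A') hy'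
    rw [hya, hsum] at n1 n2 n3
    refine ⟨n1, n2, ?_⟩
    intro hq1 hor
    by_cases hne : A'.Nonempty
    · have hnsub : ¬ (Ha a ∪ A') ⊆ H := by
        intro hsub
        obtain ⟨x, hx⟩ := hne
        exact Finset.disjoint_left.1 hA' hx (hsub (Finset.mem_union_right _ hx))
      have key := lemma_SC (K := K) p q hp hq hpn (t ^ (p - 1)) hτ0 hτ1 hτ F g hP H φ hφ hgH W D hW hDc hwD hWp
        y (Ha a ∪ A') hy' hnsub (by rw [hya]; exact hq1)
      rw [hinterH _ _ e1 hA', e2, hya, hsum] at key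
      exact key
    · have hA0 : A' = ∅ := Finset.not_nonempty_iff_eq_empty.1 hne
      have hpa : ¬ p ∣ a := hor.resolve_left hne
      have key := n3 hq1 (by
        intro h
        apply hpa
        have := h.1
        rw [hA0, Finset.sum_empty, add_zero] at this
        exact this)
      have hch : ‖(W.choose a : K)‖ ≤ 1 := (norm_nat_facts (K := K) p hp hpn (W.choose a)).1
      calc ‖(W.choose a : K) * ((y.factorial : K) * injSum F (Ha a ∪ A'))‖
          = ‖(W.choose a : K)‖ * ‖(y.factorial : K) * injSum F (Ha a ∪ A')‖ := norm_mul _ _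
        _ ≤ 1 * ‖(y.factorial : K) * injSum F (Ha a ∪ A')‖ :=
            mul_le_mul_of_nonneg_right hch (norm_nonneg _)
        _ = ‖(y.factorial : K) * injSum F (Ha a ∪ A')‖ := one_mul _
        _ ≤ _ := key
  have hpow : ∀ β : ℕ, 1 ≤ β → ‖2 * (∑ j, φ j ^ (p * β)) + (p : K) * (rho ζ p) ^ (p * β)‖ <
      (p : ℝ)⁻¹ * (t ^ (p - 1)) ^ (p * β) := by
    intro β hβ
    have key := sigma_sums (K := K) p q n hp hq hn hpn ζ hζ t ht0 ht1 htp h1 β hβ
    have e : ∀ j : Fin n, φ j ^ (p * β) =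
        if p ∣ (j : ℕ) + 1 then 0 else (rho (ζ ^ ((j : ℕ) + 1)) p) ^ (p * β) := by
      intro j
      rw [hφdef]
      simp only
      have hpb : p * β ≠ 0 := Nat.mul_ne_zero hppos.ne' (by omega)
      split_ifs
      · exact zero_pow hpb
      · rfl
    rw [Finset.sum_congr rfl (fun j _ => e j)]
    exact key
  have hJv : ∀ α : ℕ, α ≤ j → ‖(4 : K) ^ α *
      (fun (a : ℕ) (A' : Finset (Fin m)) => injSum F (Ha a ∪ A')) (p * α) ∅ -
      (-1) ^ α * ((2 * α).choose α : K) * ((p * α).factorial : K) * (rho ζ p) ^ (p * α)‖ <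
        ‖((p * α).factorial : K)‖ * (t ^ (p - 1)) ^ (p * α) := by
    intro α hα
    have hle : p * α ≤ W := by
      rw [hWj]
      calc p * α ≤ p * j := Nat.mul_le_mul_left p hα
        _ = j * p := Nat.mul_comm _ _
        _ ≤ j * p + w := Nat.le_add_right _ _
    obtain ⟨e1, e2⟩ := hHa (p * α) hle
    have key := lemma_P4 (K := K) p q hp hq h5 hpn (t ^ (p - 1)) hτ0 hτ1 hτ F g hP hN H φ hφ hgH (rho ζ p) V1
      hpow α (by omega) (Ha (p * α)) e1 e2
    simpa only [Finset.union_empty] using key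
  have hgU' : ∀ i, i ∉ H → i ∉ T → g i = 0 := hgU
  have hcnorm : ∀ i, ‖c i‖ ≤ 1 := fun i => (hr' i).1
  have hGg : ∀ B, ∀ i ∈ B, i ∈ H ∪ T → G B = 0 := by
    intro B i hiB hi
    apply hGg0 B i hiB
    rcases Finset.mem_union.1 hi with h | h
    · rw [hgH i h]
    · rw [hgT i h]; exact hl i h
  have hgT1 : ∀ i ∈ T, 1 ≤ g i := fun i hi => by rw [hgT i hi]; exact hl i hi
  obtain ⟨I1, I2⟩ := ident_total (K := K) p q m hp hq h5 hpn t ht0 ht1 htp hm c (fun i => r i 1 - c i) g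
    G (injSum F) (fun (a : ℕ) (A' : Finset (Fin m)) => injSum F (Ha a ∪ A')) H T hHT (rho ζ p) V1 hsH hcHT
    hgT1 hgU' hcnorm hgg hG hG0 hGg hGc hzero hJ W j w T.card D hW hWj hwp hj rfl hDT hcase hJ1 hJv
  rw [hexp]
  refine ⟨I1, fun hTD hco => ?_⟩
  have hl1 : ∀ i ∈ T, l i = 1 := by
    have hsum : ∑ i ∈ T, 1 = ∑ i ∈ T, l i := by
      rw [hD, Finset.sum_const, smul_eq_mul, mul_one, hTD]
    intro i hi
    exact ((Finset.sum_eq_sum_iff_of_le hl).1 hsum i hi).symm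
  refine I2 hTD ?_ ?_
  · intro i hi
    show ‖r i 1 - c i‖ = t ^ (p - 1)
    rw [hrT i hi, hcHT i (Finset.mem_union_right _ hi), sub_zero, hl1 i hi]
    exact V3 δ
  · have hz1 : ‖ζ - 1‖ = t := by
      have := h1 1 (by
        intro h
        have := Nat.le_of_dvd one_pos h
        omega)
      simpa using this
    have hxn : ‖ζ + ζ⁻¹ - 2‖ = t ^ 2 := by
      rw [(rho_taylor (K := K) ζ hζ1 0).2.2, hz1]
    have hx : ‖ζ + ζ⁻¹ - 2‖ < 1 := by
      rw [hxn]; exact pow_lt_one₀ ht0.le ht1 (by norm_num)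
    have hx0 : ζ + ζ⁻¹ - 2 ≠ 0 := by
      intro h
      rw [h, norm_zero] at hxn
      have : 0 < t ^ 2 := by positivity
      linarith
    have key := main_coeff (K := K) p hp hpn ((H ∪ T)ᶜ) lab (fun i => r i 1 - c i) (ζ + ζ⁻¹ - 2) hx hx0
      (by
        intro i hi
        have hi' : i ∉ H ∪ T := Finset.mem_compl.1 hi
        have hiH : i ∉ H := fun h => hi' (Finset.mem_union_left _ h)
        have hiT : i ∉ T := fun h => hi' (Finset.mem_union_right _ h)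
        have h3 := (rho_taylor (K := K) ζ hζ1 (lab i)).2.1
        show ‖r i 1 - c i - (((lab i + 1).choose 3 : ℕ) : K) * (ζ + ζ⁻¹ - 2)‖ ≤ ‖ζ + ζ⁻¹ - 2‖ ^ 2
        rw [hr i hiH hiT, hcU i hi', hxn, ← pow_mul]
        simp only [pow_one]
        rw [hz1] at h3
        exact h3) (q - (w + D)) hco
    rw [hxn, ← pow_mul] at key
    rw [← key]
    congr 1
    refine Finset.sum_congr rfl fun B hB => ?_
    congr 1
    refine Finset.prod_congr rfl fun i hi => ?_
    exact hcU i (Finset.mem_compl.1 (Finset.mem_sdiff.1 hi).1)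



end Pool.Agent.Helper805_nf
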