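import Mathlib
import Pool.Agent.Helper805_nf.Defs4

set_option autoImplicit false

namespace Pool.Agent.Helper805_nf

open Finset


theorem z15a_lin {K : Type*} [CommRing K] {m : ℕ} (r1 r2 r3 : Fin m → ℕ → K) (i0 : Fin m)
    (h12 : ∀ i, i ≠ i0 → r1 i = r2 i) (h13 : ∀ i, i ≠ i0 → r1 i = r3 i)
    (h0 : ∀ a, r3 i0 a = r1 i0 a - r2 i0 a) :
    perT r1 - perT r2 = perT r3 := by
  unfold perT
  rw [← Finset.sum_sub_distrib]
  apply Finset.sum_congr rfl
  intro π _
  rw [← Finset.mul_prod_erase Finset.univ (fun i => r1 i ((π i : ℕ) + 2)) (Finset.mem_univ i0),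
    ← Finset.mul_prod_erase Finset.univ (fun i => r2 i ((π i : ℕ) + 2)) (Finset.mem_univ i0),
    ← Finset.mul_prod_erase Finset.univ (fun i => r3 i ((π i : ℕ) + 2)) (Finset.mem_univ i0)]
  have e2 : ∏ i ∈ Finset.univ.erase i0, r2 i ((π i : ℕ) + 2) =
      ∏ i ∈ Finset.univ.erase i0, r1 i ((π i : ℕ) + 2) := by
    apply Finset.prod_congr rfl
    intro i hi
    rw [h12 i (Finset.ne_of_mem_erase hi)]
  have e3 : ∏ i ∈ Finset.univ.erase i0, r3 i ((π i : ℕ) + 2) =
      ∏ i ∈ Finset.univ.erase i0, r1 i ((π i : ℕ) + 2) := by
    apply Finset.prod_congr rfl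
    intro i hi
    rw [h13 i (Finset.ne_of_mem_erase hi)]
  rw [e2, e3, h0]
  ring

theorem z15a_scale {K : Type*} [CommRing K] {m : ℕ} (s : Fin m → ℕ → K) (c : Fin m → K) :
    perT (fun i a => c i * s i a) = (∏ i, c i) * perT s := by
  unfold perT
  rw [Finset.mul_sum]
  apply Finset.sum_congr rfl
  intro π _
  rw [Finset.prod_mul_distrib]

theorem perT_swap {K : Type*} [NormedField K] [IsUltrametricDist K] {m : ℕ} (H : Finset (Fin m))
    (r s : Fin m → ℕ → K) (x : Fin m → K) (V : ℝ) (hV : 0 < V) (hout : ∀ i, i ∉ H → r i = s i)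
    (hx : ∀ i ∈ H, ‖x i‖ = 1)
    (hdiff : ∀ (i0 : Fin m) (r' : Fin m → ℕ → K), i0 ∈ H →
      (r' i0 = fun a => r i0 a - x i0 * s i0 a) →
      (∀ i, i ∉ H → r' i = r i) →
      (∀ i ∈ H, i ≠ i0 → r' i = r i ∨ r' i = fun a => x i * s i a) → ‖perT r'‖ < V) :
    (‖perT s‖ < V → ‖perT r‖ < V) ∧ (‖perT s‖ = V → ‖perT r‖ = V) := by
  classical
  have main : ∀ H1 : Finset (Fin m), H1 ⊆ H →
      ‖perT r - perT (fun i => if i ∈ H1 then (fun a => x i * s i a) else r i)‖ < V := by
    intro H1
    induction H1 using Finset.induction_on with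
    | empty =>
      intro _
      simp only [Finset.notMem_empty, if_false, sub_self, norm_zero]
      exact hV
    | insert i0 H1 hi0 ih =>
      intro hsub
      have hi0H : i0 ∈ H := hsub (Finset.mem_insert_self _ _)
      have hH1 : H1 ⊆ H := fun i hi => hsub (Finset.mem_insert_of_mem hi)
      have h1 := ih hH1
      have h2 : perT (fun i => if i ∈ H1 then (fun a => x i * s i a) else r i) -
          perT (fun i => if i ∈ insert i0 H1 then (fun a => x i * s i a) else r i) =
          perT (fun i => if i = i0 then (fun a => r i0 a - x i0 * s i0 a) else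
            if i ∈ H1 then (fun a => x i * s i a) else r i) := by
        apply z15a_lin _ _ _ i0
        · intro i hi
          have : i ∈ insert i0 H1 ↔ i ∈ H1 := by
            rw [Finset.mem_insert]
            exact ⟨fun h => h.resolve_left hi, Or.inr⟩
          by_cases h : i ∈ H1
          · simp only [h, this, if_true]
          · simp only [h, this, if_false]
        · intro i hi
          simp only [hi, if_false]
        · intro a
          simp only [if_true, hi0, if_false, Finset.mem_insert_self]
      have h3 : ‖perT (fun i => if i = i0 then (fun a => r i0 a - x i0 * s i0 a) else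
            if i ∈ H1 then (fun a => x i * s i a) else r i)‖ < V := by
        apply hdiff i0 _ hi0H
        · simp only [if_true]
        · intro i hi
          have h4 : i ≠ i0 := fun h => hi (h ▸ hi0H)
          have h5 : i ∉ H1 := fun h => hi (hH1 h)
          simp only [h4, h5, if_false]
        · intro i _ hi
          by_cases h : i ∈ H1
          · right
            simp only [hi, h, if_false, if_true]
          · left
            simp only [hi, h, if_false]
      rw [← h2] at h3
      have h4 := IsUltrametricDist.norm_add_le_max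
        (perT r - perT (fun i => if i ∈ H1 then (fun a => x i * s i a) else r i))
        (perT (fun i => if i ∈ H1 then (fun a => x i * s i a) else r i) -
          perT (fun i => if i ∈ insert i0 H1 then (fun a => x i * s i a) else r i))
      rw [sub_add_sub_cancel] at h4
      exact lt_of_le_of_lt h4 (max_lt h1 h3)
  have hmain := main H (Finset.Subset.refl H)
  have hq : (fun i => if i ∈ H then (fun a => x i * s i a) else r i) =
      (fun i a => (if i ∈ H then x i else 1) * s i a) := by
    funext i
    by_cases h : i ∈ H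
    · simp only [h, if_true]
    · simp only [h, if_false, one_mul]
      exact hout i h
  rw [hq, z15a_scale] at hmain
  have hprod : ‖∏ i : Fin m, (if i ∈ H then x i else 1)‖ = 1 := by
    rw [norm_prod]
    apply Finset.prod_eq_one
    intro i _
    by_cases h : i ∈ H
    · simp only [h, if_true]
      exact hx i h
    · simp only [h, if_false, norm_one]
  have hb : ‖(∏ i : Fin m, (if i ∈ H then x i else 1)) * perT s‖ = ‖perT s‖ := by
    rw [norm_mul, hprod, one_mul]
  constructor
  · intro h
    rw [← hb] at h
    have h4 := IsUltrametricDist.norm_add_le_max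
      (perT r - (∏ i : Fin m, (if i ∈ H then x i else 1)) * perT s)
      ((∏ i : Fin m, (if i ∈ H then x i else 1)) * perT s)
    rw [sub_add_cancel] at h4
    exact lt_of_le_of_lt h4 (max_lt hmain h)
  · intro h
    rw [← hb] at h
    have h4 := IsUltrametricDist.norm_add_eq_max_of_norm_ne_norm
      (x := perT r - (∏ i : Fin m, (if i ∈ H then x i else 1)) * perT s)
      (y := (∏ i : Fin m, (if i ∈ H then x i else 1)) * perT s) (by
        rw [h]
        exact hmain.ne)
    rw [sub_add_cancel, h] at h4
    rw [h4]
    exact max_eq_right hmain.le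

end Pool.Agent.Helper805_nf

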