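import Mathlib
import Pool.Agent.Helper805_nf.Defs4
import Pool.Agent.Helper805_nf.Y1
import Pool.Agent.Helper805_nf.Z1
import Pool.Agent.Helper805_nf.Z4
import Pool.Agent.Helper805_nf.Z5

set_option autoImplicit false

namespace Pool.Agent.Helper805_nf

open Finset











theorem rowOK_inst {K : Type*} [NormedField K] [IsUltrametricDist K] (p q : ℕ) (hp : p.Prime)
    (hq : p = 2 * q + 1) (hpn : ‖(p : K)‖ = (p : ℝ)⁻¹) (ζ : K) (hζ : IsPrimitiveRoot ζ (p ^ 2)) (t : ℝ)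
    (h1 : ∀ j : ℕ, ¬ p ∣ j → ‖ζ ^ j - 1‖ = t) (h2 : ∀ j : ℕ, ¬ p ∣ j → ‖ζ ^ (p * j) - 1‖ = t ^ p) (ht0 : 0 < t)
    (ht1 : t < 1) :
    (∀ d : ℕ, RowOK p ζ t 0 (d : K) (fun j => rho (ζ ^ j) d)) ∧
    (∀ (m : ℕ) (x : K), ‖x‖ ≤ 1 → RowOK p ζ t 1 0 (fun j => x * rho (ζ ^ j) (p * m))) ∧
    (∀ m : ℕ, RowOK p ζ t 3 0 (fun j => rho (ζ ^ j) (p * m) - (m : K) * rho (ζ ^ j) p)) ∧
    (∀ δ l : ℕ, 1 ≤ l → RowOK p ζ t l 0 (fdRow ζ p δ l)) := by
  obtain ⟨hmul, hadd, hsmul, hmono, hpoly, hconst, hcongr, hprod⟩ := ordF_basic (K := K) p ζ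
  obtain ⟨ro1, ro2, ro3, ro4, ro5⟩ := rows_ord (K := K) p q hp hq ζ hζ
  obtain ⟨rv, -, -, -⟩ := rows_val (K := K) p q hp hq hpn ζ hζ t h1 h2 ht0 ht1
  have hN : ∀ a : ℕ, ‖(a : K)‖ ≤ 1 := fun a => (norm_nat_facts (K := K) p hp hpn a).1
  have htp : (0 : ℝ) ≤ t ^ (2 * p) := by positivity
  refine ⟨?_, ?_, ?_, ?_⟩
  · intro d
    refine ⟨hN d, fun h => absurd h (by norm_num), ?_, ?_, ?_⟩
    · simpa [oG] using ro1 d
    · intro j j' h
      exact ro5 d j j' h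
    · intro j hj hj2
      exact ⟨(rv j hj hj2).1 d, fun h => absurd h (by norm_num)⟩
  · intro m x hx
    refine ⟨by simp, fun _ => rfl, ?_, ?_, ?_⟩
    · have := hsmul (p - 1) (fun j => rho (ζ ^ j) (p * m)) x hx (ro2 m)
      simpa [oG] using this
    · intro j j' h
      show x * rho (ζ ^ j) (p * m) = x * rho (ζ ^ j') (p * m)
      rw [ro5 (p * m) j j' h]
    · intro j hj hj2
      have h0 := (rv j hj hj2).2.1 m
      refine ⟨?_, fun _ => ?_⟩
      · show ‖x * rho (ζ ^ j) (p * m) - 0‖ ≤ t ^ (2 * p)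
        rw [h0]; simpa using htp
      · show x * rho (ζ ^ j) (p * m) = 0
        rw [h0, mul_zero]
  · intro m
    refine ⟨by simp, fun _ => rfl, ?_, ?_, ?_⟩
    · have := ro3 m
      have e : oG p 3 = 3 * p - 1 := by simp [oG, Nat.mul_comm]
      rw [e]
      simpa using this
    · intro j j' h
      show rho (ζ ^ j) (p * m) - (m : K) * rho (ζ ^ j) p = rho (ζ ^ j') (p * m) - (m : K) * rho (ζ ^ j') p
      rw [ro5 (p * m) j j' h, ro5 p j j' h]
    · intro j hj hj2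
      have h0 := (rv j hj hj2).2.1 m
      have h1' : rho (ζ ^ j) p = 0 := by
        have := (rv j hj hj2).2.1 1
        simpa using this
      refine ⟨?_, fun _ => ?_⟩
      · show ‖rho (ζ ^ j) (p * m) - (m : K) * rho (ζ ^ j) p - 0‖ ≤ t ^ (2 * p)
        rw [h0, h1']; simpa using htp
      · show rho (ζ ^ j) (p * m) - (m : K) * rho (ζ ^ j) p = 0
        rw [h0, h1', mul_zero, sub_zero]
  · intro δ l hl
    refine ⟨by simp, fun _ => rfl, ?_, ?_, ?_⟩
    · have := ro4 δ l hl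
      have e : oG p l = p * l - 1 := by
        have : l ≠ 0 := by omega
        simp [oG, this]
      rw [e]
      simpa using this
    · intro j j' h
      show fdRow ζ p δ l j = fdRow ζ p δ l j'
      unfold fdRow
      refine Finset.sum_congr rfl fun i _ => ?_
      rw [ro5 _ j j' h]
    · intro j hj hj2
      have h0 := (rv j hj hj2).2.2 δ l hl
      refine ⟨?_, fun _ => h0⟩
      rw [h0]; simpa using htp


end Pool.Agent.Helper805_nf
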