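import Mathlib
import Pool.Agent.Helper805_nf.Defs4
import Pool.Agent.Helper805_nf.Y1
import Pool.Agent.Helper805_nf.Z11e
import Pool.Agent.Helper805_nf.Z14f
import Pool.Agent.Helper805_nf.Z15a
import Pool.Agent.Helper805_nf.Z5b

set_option autoImplicit false

namespace Pool.Agent.Helper805_nf

open Finset













theorem z15b_natne {K : Type*} [NormedField K] [IsUltrametricDist K] (p : ℕ) (hp : p.Prime)
    (hpn : ‖(p : K)‖ = (p : ℝ)⁻¹) (a : ℕ) (ha : a ≠ 0) : (a : K) ≠ 0 := by
  obtain ⟨v, u, hu, rfl⟩ := Nat.exists_eq_pow_mul_and_not_dvd ha p hp.one_lt.ne'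
  have h1 : ‖(u : K)‖ = 1 := (norm_nat_facts p hp hpn u).2.1 hu
  have h2 : (u : K) ≠ 0 := by
    intro h
    rw [h, norm_zero] at h1
    exact zero_ne_one h1
  have h3 : (p : K) ≠ 0 := by
    intro h
    rw [h, norm_zero] at hpn
    have : (0 : ℝ) < (p : ℝ)⁻¹ := inv_pos.2 (Nat.cast_pos.2 hp.pos)
    rw [← hpn] at this
    exact lt_irrefl _ this
  rw [Nat.cast_mul, Nat.cast_pow]
  exact mul_ne_zero (pow_ne_zero _ h3) h2

theorem perT_main {K : Type*} [NormedField K] [IsUltrametricDist K] (p q m : ℕ) (hp : p.Prime)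
    (hq : p = 2 * q + 1) (h5 : 5 ≤ p) (hpn : ‖(p : K)‖ = (p : ℝ)⁻¹) (ζ : K) (hζ : IsPrimitiveRoot ζ (p ^ 2))
    (t : ℝ) (ht0 : 0 < t) (ht1 : t < 1) (htp : t ^ (p * (p - 1)) = (p : ℝ)⁻¹)
    (h1 : ∀ j : ℕ, ¬ p ∣ j → ‖ζ ^ j - 1‖ = t) (h2 : ∀ j : ℕ, ¬ p ∣ j → ‖ζ ^ (p * j) - 1‖ = t ^ p)
    (hm : m = p * q - 1 + q) (T H : Finset (Fin m))
    (hHT : Disjoint H T) (lab l : Fin m → ℕ) (hlab : ∀ i, i ∉ T → 1 ≤ lab i ∧ lab i ≤ p * q + q)
    (hH : ∀ i, i ∉ T → (i ∈ H ↔ p ∣ lab i)) (δ : ℕ)
    (hl : ∀ i ∈ T, 1 ≤ l i) (W j w D : ℕ) (hW : H.card = W) (hWj : W = j * p + w) (hj : j + 1 ≤ q)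
    (hwp : w < p) (hD : ∑ i ∈ T, l i = D) (hcase : (1 ≤ w ∧ w + D ≤ q) ∨ (D = 0 ∧ q ≤ w))
    (r : Fin m → ℕ → K) (hrT : ∀ i ∈ T, r i = fdRow ζ p δ (l i))
    (hr : ∀ i, i ∉ T → r i = fun a => rho (ζ ^ a) (lab i)) :
    (T.card < D → ‖perT r‖ <
      ‖((p * q - 1).factorial : K)‖ * t ^ ((p - 1) * (W + D) + 2 * (q - (w + D)))) ∧
    (T.card = D → (∏ i ∈ (H ∪ T)ᶜ, (Polynomial.C (lab i : ZMod p) +
        Polynomial.C (((lab i + 1).choose 3 : ℕ) : ZMod p) * Polynomial.X)).coeff (q - (w + D)) ≠ 0 →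
      ‖perT r‖ = ‖((p * q - 1).factorial : K)‖ * t ^ ((p - 1) * (W + D) + 2 * (q - (w + D)))) := by
  classical
  have hqpos : 2 ≤ q := by omega
  have hmu : ∀ i ∈ H, i ∉ T ∧ lab i = p * (lab i / p) ∧ ¬ p ∣ lab i / p := by
    intro i hi
    have hiT : i ∉ T := fun h => Finset.disjoint_left.1 hHT hi h
    have hd : p ∣ lab i := (hH i hiT).1 hi
    have he : lab i = p * (lab i / p) := (Nat.mul_div_cancel' hd).symm
    refine ⟨hiT, he, ?_⟩
    obtain ⟨hl1, hl2⟩ := hlab i hiT
    have hpos : 0 < lab i / p := Nat.div_pos (Nat.le_of_dvd hl1 hd) hp.pos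
    have hlt : lab i / p < p := by
      rw [Nat.div_lt_iff_lt_mul hp.pos]
      have : p * q + q < p * p := by
        have h3 : q < p := by omega
        nlinarith
      omega
    exact fun h => absurd (Nat.le_of_dvd hpos h) (not_le.2 hlt)
  set s : Fin m → ℕ → K := fun i => if i ∈ H then (fun a => rho (ζ ^ a) p) else r i with hs
  set V0 : ℝ := ‖((p * q - 1).factorial : K)‖ * t ^ ((p - 1) * (W + D) + 2 * (q - (w + D)))
    with hV0
  have hfac : 0 < ‖((p * q - 1).factorial : K)‖ :=
    norm_pos_iff.2 (z15b_natne p hp hpn _ (Nat.factorial_ne_zero _))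
  have hV : 0 < V0 := mul_pos hfac (pow_pos ht0 _)
  have hsH : ∀ i ∈ H, s i = fun a => rho (ζ ^ a) p := by
    intro i hi
    simp only [hs, if_pos hi]
  have hsN : ∀ i, i ∉ H → s i = r i := by
    intro i hi
    simp only [hs, if_neg hi]
  obtain ⟨k1, k2, k3, k4⟩ := rowOK_inst p q hp hq hpn ζ hζ t h1 h2 ht0 ht1
  have hswap := perT_swap H r s (fun i => ((lab i / p : ℕ) : K)) V0 hV
    (fun i hi => (hsN i hi).symm)
    (fun i hi => (norm_nat_facts p hp hpn _).2.1 (hmu i hi).2.2)
    (by
      intro i0 r' hi0 hr0 hrN hrH'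
      set g : Fin m → ℕ := fun i => if i = i0 then 3 else if i ∈ H then 1 else
        if i ∈ T then l i else 0 with hg
      set c : Fin m → K := fun i => if i ∈ H ∨ i ∈ T then 0 else (lab i : K) with hc
      have hrow : ∀ i, RowOK p ζ t (g i) (c i) (r' i) := by
        intro i
        by_cases hi0' : i = i0
        · subst hi0'
          have e1 : g i = 3 := by simp only [hg, if_pos rfl]
          have e2 : c i = 0 := by simp only [hc, if_pos (Or.inl hi0)]
          rw [e1, e2, hr0, hr i (hmu i hi0).1, hsH i hi0]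
          have h := k3 (lab i / p)
          rw [← (hmu i hi0).2.1] at h
          exact h
        · by_cases hiH : i ∈ H
          · have e1 : g i = 1 := by simp only [hg, if_neg hi0', if_pos hiH]
            have e2 : c i = 0 := by simp only [hc, if_pos (Or.inl hiH)]
            rw [e1, e2]
            rcases hrH' i hiH hi0' with h | h
            · rw [h, hr i (hmu i hiH).1]
              have h' := k2 (lab i / p) 1 (by simp)
              rw [← (hmu i hiH).2.1] at h'
              simp only [one_mul] at h'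
              exact h'
            · rw [h, hsH i hiH]
              have h' := k2 1 ((lab i / p : ℕ) : K) (norm_nat_facts p hp hpn _).1
              rw [mul_one] at h'
              exact h'
          · rw [hrN i hiH]
            by_cases hiT : i ∈ T
            · have e1 : g i = l i := by simp only [hg, if_neg hi0', if_neg hiH, if_pos hiT]
              have e2 : c i = 0 := by simp only [hc, if_pos (Or.inr hiT)]
              rw [e1, e2, hrT i hiT]
              exact k4 δ (l i) (hl i hiT)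
            · have e1 : g i = 0 := by simp only [hg, if_neg hi0', if_neg hiH, if_neg hiT]
              have e2 : c i = (lab i : K) := by
                simp only [hc, if_neg (not_or.2 ⟨hiH, hiT⟩)]
              rw [e1, e2, hr i hiT]
              exact k1 (lab i)
      have hgsum : ∑ i, g i = W + 2 + D := by
        have e : ∀ i, g i = (if i = i0 then 2 else 0) + ((if i ∈ H then 1 else 0) +
            (if i ∈ T then l i else 0)) := by
          intro i
          by_cases hi0' : i = i0
          · subst hi0'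
            simp only [hg, if_pos hi0, if_neg (hmu i hi0).1, if_true]
          · by_cases hiH : i ∈ H
            · simp only [hg, if_neg hi0', if_pos hiH, if_neg (hmu i hiH).1]
            · simp only [hg, if_neg hi0', if_neg hiH, zero_add]
        rw [Finset.sum_congr rfl (fun i _ => e i), Finset.sum_add_distrib,
          Finset.sum_add_distrib]
        have a1 : ∑ i, (if i = i0 then 2 else 0) = 2 := by
          rw [Finset.sum_ite_eq' Finset.univ i0 (fun _ => 2), if_pos (Finset.mem_univ _)]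
        have a2 : ∑ i : Fin m, (if i ∈ H then 1 else 0) = W := by
          rw [Finset.sum_ite_mem, Finset.univ_inter, Finset.sum_const, smul_eq_mul, mul_one, hW]
        have a3 : ∑ i : Fin m, (if i ∈ T then l i else 0) = D := by
          rw [Finset.sum_ite_mem, Finset.univ_inter, hD]
        rw [a1, a2, a3]
        omega
      have hle := perT_le p q m hp hq hpn ζ hζ t ht0 ht1 htp h1 hm r' c g hrow (W + 2 + D) hgsum
      refine lt_of_le_of_lt hle ?_
      rw [hV0]
      refine mul_lt_mul_of_pos_left ?_ hfac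
      refine pow_lt_pow_right_of_lt_one₀ ht0 ht1 ?_
      have e3 : (p - 1) * (W + 2 + D) = (p - 1) * (W + D) + 2 * (p - 1) := by ring
      rw [e3]
      omega)
  obtain ⟨hA, hB⟩ := perT_ident p q m hp hq h5 hpn ζ hζ t ht0 ht1 htp h1 h2 hm T H hHT lab l
    (fun i hi hiT h => hi ((hH i hiT).2 h)) δ hl W j w D hW hWj hj hwp hD hcase s
    (fun i hi => by
      rw [hsN i (fun h => Finset.disjoint_left.1 hHT h hi)]
      exact hrT i hi)
    hsH
    (fun i hi hiT => by
      rw [hsN i hi]
      exact hr i hiT)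
  exact ⟨fun h => hswap.1 (hA h), fun h h' => hswap.2 (hB h h')⟩


end Pool.Agent.Helper805_nf
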