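import Mathlib
import Pool.Agent.Helper805_nf.Defs4
import Pool.Agent.Helper805_nf.Y1

set_option autoImplicit false

namespace Pool.Agent.Helper805_nf

open Finset


open Polynomial in
/-- Remainders modulo a product of linear factors and modulo the product with one factor more. -/
theorem z16_rem {K : Type*} [Field K] (β : K[X]) (s : Finset ℕ) (f : ℕ → K) (a : K)
    (hs : 0 < #s) :
    (β %ₘ ∏ i ∈ s, (X - C (f i))).coeff (#s - 1) =
      (β %ₘ ((∏ i ∈ s, (X - C (f i))) * (X - C a))).coeff (#s - 1)
        + (β %ₘ ((∏ i ∈ s, (X - C (f i))) * (X - C a))).coeff #s * ∑ i ∈ s, f i := by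
  set P : K[X] := ∏ i ∈ s, (X - C (f i)) with hP
  have hPm : P.Monic := monic_prod_X_sub_C f s
  have hPd : P.natDegree = #s := by
    rw [hP, natDegree_finsetProd_X_sub_C_eq_card]
  have hQm : (P * (X - C a)).Monic := hPm.mul (monic_X_sub_C a)
  have hQd : (P * (X - C a)).natDegree = #s + 1 := by
    rw [hPm.natDegree_mul (monic_X_sub_C a), hPd, natDegree_X_sub_C]
  set R : K[X] := β %ₘ (P * (X - C a)) with hR
  set δ : K := R.coeff #s with hδ
  have hRd : ∀ m, #s + 1 ≤ m → R.coeff m = 0 := by
    apply (degree_lt_iff_coeff_zero R (#s + 1)).1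
    have h1 := degree_modByMonic_lt β hQm
    rw [degree_eq_natDegree hQm.ne_zero, hQd] at h1
    exact h1
  have hPc : P.coeff #s = 1 := by
    have h1 := hPm.coeff_natDegree
    rwa [hPd] at h1
  have hPc0 : ∀ m, #s + 1 ≤ m → P.coeff m = 0 := by
    intro m hm
    exact coeff_eq_zero_of_natDegree_lt (by omega)
  have h2 : β %ₘ P = R - C δ * P := by
    refine (div_modByMonic_unique ((X - C a) * (β /ₘ (P * (X - C a))) + C δ) (R - C δ * P) hPm
      ⟨?_, ?_⟩).2
    · have h3 := modByMonic_add_div β (P * (X - C a))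
      rw [← hR] at h3
      linear_combination h3
    · rw [degree_eq_natDegree hPm.ne_zero, hPd]
      apply (degree_lt_iff_coeff_zero _ _).2
      intro m hm
      rw [coeff_sub, coeff_C_mul]
      rcases Nat.eq_or_lt_of_le hm with h | h
      · rw [← h, hPc, mul_one, sub_self]
      · rw [hRd m h, hPc0 m h, mul_zero, sub_zero]
  have h4 : P.coeff (#s - 1) = - ∑ i ∈ s, f i := prod_X_sub_C_coeff_card_pred s f hs
  rw [h2, coeff_sub, coeff_C_mul, h4]
  ring

/-- Nonzero naturals are nonzero in K. -/
theorem z16_ne_zero {K : Type*} [NormedField K] [IsUltrametricDist K] (p : ℕ) (hp : p.Prime)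
    (hpn : ‖(p : K)‖ = (p : ℝ)⁻¹) (a : ℕ) (ha : a ≠ 0) : (a : K) ≠ 0 := by
  obtain ⟨n, m, hm, rfl⟩ := Nat.exists_eq_pow_mul_and_not_dvd ha p hp.ne_one
  have h1 := (norm_nat_facts (K := K) p hp hpn m).2.1 hm
  have hp0 : (p : K) ≠ 0 := by
    intro h
    rw [h, norm_zero] at hpn
    have : (0 : ℝ) < (p : ℝ)⁻¹ := inv_pos.2 (by exact_mod_cast hp.pos)
    linarith
  have hm0 : (m : K) ≠ 0 := by
    intro h
    rw [h, norm_zero] at h1
    exact zero_ne_one h1
  push_cast
  exact mul_ne_zero (pow_ne_zero _ hp0) hm0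

/-- The unit ball of an ultrametric normed field. -/
def z16_ball (K : Type*) [NormedField K] [IsUltrametricDist K] : Subring K where
  carrier := {x | ‖x‖ ≤ 1}
  mul_mem' := by
    intro a b ha hb
    simp only [Set.mem_ofPred_eq] at *
    rw [norm_mul]
    exact mul_le_one₀ ha (norm_nonneg _) hb
  one_mem' := by simp
  add_mem' := by
    intro a b ha hb
    simp only [Set.mem_ofPred_eq] at *
    exact (IsUltrametricDist.norm_add_le_max a b).trans (max_le ha hb)
  zero_mem' := by simp
  neg_mem' := by
    intro a ha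
    simpa using ha

open Polynomial in
/-- The binomial polynomial. -/
noncomputable def z16_beta (K : Type*) [Field K] (l : ℕ) : K[X] :=
  C ((l.factorial : K)⁻¹) * descPochhammer K l

theorem dd_coeffs {K : Type*} [NormedField K] [IsUltrametricDist K] (p : ℕ) (hp : p.Prime)
    (hpn : ‖(p : K)‖ = (p : ℝ)⁻¹) (c : ℕ → ℕ) :
    ∃ dd : ℕ → ℕ → ℕ → K,
      (∀ l i, dd l i i = ((c i).choose l : K)) ∧
      (∀ l i j, i < j → ((c i : K) - (c j : K)) * dd l i j = dd l i (j - 1) - dd l (i + 1) j) ∧
      (∀ l i j, l < p → i ≤ j → ‖dd l i j‖ ≤ 1) ∧ (∀ l i j, i ≤ j → l < j - i → dd l i j = 0) ∧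
      (∀ i, dd 1 i (i + 1) = 1) := by
  classical
  open Polynomial in
  refine ⟨fun l i j => (z16_beta K l %ₘ ∏ a ∈ Finset.Icc i j, (X - C (c a : K))).coeff (j - i),
    ?_, ?_, ?_, ?_, ?_⟩
  · intro l i
    simp only [Finset.Icc_self, Finset.prod_singleton, Nat.sub_self]
    rw [Polynomial.modByMonic_X_sub_C_eq_C_eval, Polynomial.coeff_C_zero, z16_beta,
      Polynomial.eval_mul, Polynomial.eval_C, descPochhammer_eval_eq_descFactorial,
      Nat.descFactorial_eq_factorial_mul_choose]
    push_cast
    have := z16_ne_zero (K := K) p hp hpn l.factorial l.factorial_ne_zero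
    field_simp
  · intro l i j hij
    have e1 := z16_rem (z16_beta K l) (Finset.Icc i (j - 1)) (fun a => (c a : K)) (c j : K)
      (by rw [Nat.card_Icc]; omega)
    have e2 := z16_rem (z16_beta K l) (Finset.Icc (i + 1) j) (fun a => (c a : K)) (c i : K)
      (by rw [Nat.card_Icc]; omega)
    have hp1 : (∏ a ∈ Finset.Icc i (j - 1), (Polynomial.X - Polynomial.C (c a : K)))
        * (Polynomial.X - Polynomial.C (c j : K))
        = ∏ a ∈ Finset.Icc i j, (Polynomial.X - Polynomial.C (c a : K)) := by
      have : Finset.Icc i j = insert j (Finset.Icc i (j - 1)) := by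
        ext a; simp only [Finset.mem_Icc, Finset.mem_insert]; omega
      rw [this, Finset.prod_insert (by simp; omega)]
      ring
    have hp2 : (∏ a ∈ Finset.Icc (i + 1) j, (Polynomial.X - Polynomial.C (c a : K)))
        * (Polynomial.X - Polynomial.C (c i : K))
        = ∏ a ∈ Finset.Icc i j, (Polynomial.X - Polynomial.C (c a : K)) := by
      have : Finset.Icc i j = insert i (Finset.Icc (i + 1) j) := by
        ext a; simp only [Finset.mem_Icc, Finset.mem_insert]; omega
      rw [this, Finset.prod_insert (by simp)]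
      ring
    have hc1 : #(Finset.Icc i (j - 1)) = j - i := by rw [Nat.card_Icc]; omega
    have hc2 : #(Finset.Icc (i + 1) j) = j - i := by rw [Nat.card_Icc]; omega
    rw [hp1, hc1] at e1
    rw [hp2, hc2] at e2
    have hs1 : (∑ a ∈ Finset.Icc i (j - 1), (c a : K)) + (c j : K)
        = ∑ a ∈ Finset.Icc i j, (c a : K) := by
      have : Finset.Icc i j = insert j (Finset.Icc i (j - 1)) := by
        ext a; simp only [Finset.mem_Icc, Finset.mem_insert]; omega
      rw [this, Finset.sum_insert (by simp; omega)]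
      ring
    have hs2 : (∑ a ∈ Finset.Icc (i + 1) j, (c a : K)) + (c i : K)
        = ∑ a ∈ Finset.Icc i j, (c a : K) := by
      have : Finset.Icc i j = insert i (Finset.Icc (i + 1) j) := by
        ext a; simp only [Finset.mem_Icc, Finset.mem_insert]; omega
      rw [this, Finset.sum_insert (by simp)]
      ring
    have hj1 : j - 1 - i = j - i - 1 := by omega
    have hj2 : j - (i + 1) = j - i - 1 := by omega
    simp only [hj1, hj2]
    rw [e1, e2]
    linear_combination ((z16_beta K l %ₘ ∏ a ∈ Finset.Icc i j,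
      (Polynomial.X - Polynomial.C (c a : K))).coeff (j - i)) * (hs2 - hs1)
  · intro l i j hl hij
    have hl1 : ‖(l.factorial : K)‖ = 1 := by
      apply (norm_nat_facts (K := K) p hp hpn l.factorial).2.1
      intro h
      exact absurd ((hp.dvd_factorial).1 h) (by omega)
    have hu : (l.factorial : K)⁻¹ ∈ z16_ball K := by
      change ‖(l.factorial : K)⁻¹‖ ≤ 1
      rw [norm_inv, hl1, inv_one]
    have hmap : z16_beta K l = (Polynomial.C (⟨(l.factorial : K)⁻¹, hu⟩ : z16_ball K)
        * descPochhammer (z16_ball K) l).map (z16_ball K).subtype := by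
      rw [Polynomial.map_mul, Polynomial.map_C, descPochhammer_map]
      rfl
    have hmapP : (∏ a ∈ Finset.Icc i j, (Polynomial.X - Polynomial.C (c a : K)))
        = (∏ a ∈ Finset.Icc i j, (Polynomial.X - Polynomial.C (c a : z16_ball K))).map
          (z16_ball K).subtype := by
      rw [Polynomial.map_prod]
      refine Finset.prod_congr rfl fun a _ => ?_
      simp
    have hmon : (∏ a ∈ Finset.Icc i j, (Polynomial.X - Polynomial.C (c a : z16_ball K))).Monic :=
      Polynomial.monic_prod_of_monic _ _ fun a _ => Polynomial.monic_X_sub_C _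
    simp only [hmap, hmapP]
    rw [← Polynomial.map_modByMonic _ hmon, Polynomial.coeff_map]
    exact (((Polynomial.C (⟨(l.factorial : K)⁻¹, hu⟩ : z16_ball K)
        * descPochhammer (z16_ball K) l) %ₘ ∏ a ∈ Finset.Icc i j,
        (Polynomial.X - Polynomial.C (c a : z16_ball K))).coeff (j - i)).2
  · intro l i j hij hl
    have hbd : (z16_beta K l).natDegree ≤ l := by
      unfold z16_beta
      refine (Polynomial.natDegree_C_mul_le _ _).trans ?_
      rw [descPochhammer_natDegree]
    have hmon : (∏ a ∈ Finset.Icc i j, (Polynomial.X - Polynomial.C (c a : K))).Monic :=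
      Polynomial.monic_prod_of_monic _ _ fun a _ => Polynomial.monic_X_sub_C _
    have hnd : (∏ a ∈ Finset.Icc i j, (Polynomial.X - Polynomial.C (c a : K))).natDegree
        = j + 1 - i := by
      rw [Polynomial.natDegree_finsetProd_X_sub_C_eq_card, Nat.card_Icc]
    have h1 : z16_beta K l %ₘ ∏ a ∈ Finset.Icc i j, (Polynomial.X - Polynomial.C (c a : K))
        = z16_beta K l := by
      rw [Polynomial.modByMonic_eq_self_iff hmon]
      apply Polynomial.degree_lt_degree
      omega
    simp only [h1]
    exact Polynomial.coeff_eq_zero_of_natDegree_lt (by omega)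
  · intro i
    have hb : z16_beta K 1 = Polynomial.X := by
      unfold z16_beta
      simp
    have hmon : (∏ a ∈ Finset.Icc i (i + 1), (Polynomial.X - Polynomial.C (c a : K))).Monic :=
      Polynomial.monic_prod_of_monic _ _ fun a _ => Polynomial.monic_X_sub_C _
    have hnd : (∏ a ∈ Finset.Icc i (i + 1), (Polynomial.X - Polynomial.C (c a : K))).natDegree
        = 2 := by
      rw [Polynomial.natDegree_finsetProd_X_sub_C_eq_card, Nat.card_Icc]
      omega
    have h1 : (Polynomial.X : Polynomial K) %ₘ
        ∏ a ∈ Finset.Icc i (i + 1), (Polynomial.X - Polynomial.C (c a : K))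
        = Polynomial.X := by
      rw [Polynomial.modByMonic_eq_self_iff hmon]
      apply Polynomial.degree_lt_degree
      rw [hnd, Polynomial.natDegree_X]
      omega
    simp only [hb, h1, Nat.add_sub_cancel_left]
    exact Polynomial.coeff_X_one

end Pool.Agent.Helper805_nf
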