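import Mathlib
import Pool.Agent.Helper805_nf.Defs4

set_option autoImplicit false

namespace Pool.Agent.Helper805_nf

open Finset

/-- The recursion for the polynomials theta. -/
noncomputable def z17_theta {B : Type*} [CommRing B] (D : ℕ → ℕ → B) (i j : ℕ) : B :=
  if i = j then 1 else
    - ∑ k ∈ (Finset.Ioc i j).attach, D i k.1 * (∏ a ∈ Finset.Ioo i k.1, D a a) * z17_theta D k.1 j
termination_by j - i
decreasing_by
  have hk := k.2
  rw [Finset.mem_Ioc] at hk
  omega

theorem theta_exists {B : Type*} [CommRing B] (D : ℕ → ℕ → B) :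
    ∃ θ : ℕ → ℕ → B, (∀ i, θ i i = 1) ∧
      (∀ i j, i < j → θ i j = - ∑ k ∈ Finset.Ioc i j, D i k * (∏ a ∈ Finset.Ioo i k, D a a) * θ k j) := by
  refine ⟨z17_theta D, ?_, ?_⟩
  · intro i
    rw [z17_theta, if_pos rfl]
  · intro i j hij
    rw [z17_theta, if_neg (by omega)]
    rw [Finset.sum_attach (Finset.Ioc i j)
      (fun k => D i k * (∏ a ∈ Finset.Ioo i k, D a a) * z17_theta D k j)]

theorem z17_prod_succ {B : Type*} [CommRing B] (D : ℕ → ℕ → B) (i k : ℕ) (h : i < k) :
    (∏ a ∈ Finset.Ioo i (k + 1), D a a) = (∏ a ∈ Finset.Ioo i k, D a a) * D k k := by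
  have h1 : Finset.Ioo i (k + 1) = insert k (Finset.Ioo i k) := by
    ext a
    simp only [Finset.mem_Ioo, Finset.mem_insert]
    omega
  rw [h1, Finset.prod_insert (by simp)]
  ring

theorem z17_prod_first {B : Type*} [CommRing B] (D : ℕ → ℕ → B) (i k : ℕ) (h : i + 1 < k) :
    (∏ a ∈ Finset.Ioo i k, D a a) = D (i + 1) (i + 1) * (∏ a ∈ Finset.Ioo (i + 1) k, D a a) := by
  have h1 : Finset.Ioo i k = insert (i + 1) (Finset.Ioo (i + 1) k) := by
    ext a
    simp only [Finset.mem_Ioo, Finset.mem_insert]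
    omega
  rw [h1, Finset.prod_insert (by simp)]

theorem z17_Ioc_first (i j : ℕ) (h : i < j) :
    Finset.Ioc i j = insert (i + 1) (Finset.Ioc (i + 1) j) := by
  ext a
  simp only [Finset.mem_Ioc, Finset.mem_insert]
  omega

theorem z17_Ioc_last (i j : ℕ) (h : i < j) :
    Finset.Ioc i j = insert j (Finset.Ioc i (j - 1)) := by
  ext a
  simp only [Finset.mem_Ioc, Finset.mem_insert]
  omega

theorem z17_sum_shift {B : Type*} [CommRing B] (f : ℕ → B) (i j : ℕ) (h : i < j) :
    ∑ k ∈ Finset.Ioc (i + 1) j, f k = ∑ k ∈ Finset.Ioc i (j - 1), f (k + 1) := by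
  have h1 : Finset.Ioc (i + 1) j = (Finset.Ioc i (j - 1)).map (addRightEmbedding 1) := by
    rw [Finset.map_add_right_Ioc]
    congr 1
    omega
  rw [h1, Finset.sum_map]
  rfl

theorem theta_two {B : Type*} [CommRing B] (x : ℕ → B) (D θ : ℕ → ℕ → B)
    (hD : ∀ i j, i < j → (x i - x j) * D i j = D i (j - 1) - D (i + 1) j)
    (h0 : ∀ i, θ i i = 1)
    (h1 : ∀ i j, i < j → θ i j = - ∑ k ∈ Finset.Ioc i j, D i k * (∏ a ∈ Finset.Ioo i k, D a a) * θ k j)
    (i j : ℕ) (hij : i < j) :
    (x i - x j) * θ i j = D j j * θ i (j - 1) - D i i * θ (i + 1) j := by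
  induction hn : j - i using Nat.strong_induction_on generalizing i with
  | _ n ih =>
    subst hn
    have key : (x i - x j) * θ i j =
        - ((∑ k ∈ Finset.Ioc i j, D i (k - 1) * (∏ a ∈ Finset.Ioo i k, D a a) * θ k j)
          - ∑ k ∈ Finset.Ioc i j, D (i + 1) k * (∏ a ∈ Finset.Ioo i k, D a a) * θ k j)
        - ∑ k ∈ Finset.Ioc i j, D i k * (∏ a ∈ Finset.Ioo i k, D a a) * ((x k - x j) * θ k j) := by
      rw [h1 i j hij, ← Finset.sum_sub_distrib, mul_neg, Finset.mul_sum, ← neg_add',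
        ← Finset.sum_add_distrib]
      congr 1
      refine Finset.sum_congr rfl fun k hk => ?_
      have hk' := Finset.mem_Ioc.1 hk
      have e := hD i k hk'.1
      linear_combination ((∏ a ∈ Finset.Ioo i k, D a a) * θ k j) * e
    have hC : ∑ k ∈ Finset.Ioc i j, D i k * (∏ a ∈ Finset.Ioo i k, D a a) * ((x k - x j) * θ k j)
        = D j j * (∑ k ∈ Finset.Ioc i (j - 1), D i k * (∏ a ∈ Finset.Ioo i k, D a a) * θ k (j - 1))
          - ∑ k ∈ Finset.Ioc i (j - 1),
            D i k * (∏ a ∈ Finset.Ioo i (k + 1), D a a) * θ (k + 1) j := by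
      rw [z17_Ioc_last i j hij, Finset.sum_insert (by simp; omega), sub_self, zero_mul, mul_zero,
        zero_add, Finset.mul_sum, ← Finset.sum_sub_distrib]
      refine Finset.sum_congr rfl fun k hk => ?_
      have hk' := Finset.mem_Ioc.1 hk
      rw [ih (j - k) (by omega) k (by omega) rfl, z17_prod_succ D i k hk'.1]
      ring
    have hA : ∑ k ∈ Finset.Ioc i j, D i (k - 1) * (∏ a ∈ Finset.Ioo i k, D a a) * θ k j
        = D i i * θ (i + 1) j + ∑ k ∈ Finset.Ioc i (j - 1),
            D i k * (∏ a ∈ Finset.Ioo i (k + 1), D a a) * θ (k + 1) j := by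
      rw [z17_Ioc_first i j hij, Finset.sum_insert (by simp),
        z17_sum_shift (fun k => D i (k - 1) * (∏ a ∈ Finset.Ioo i k, D a a) * θ k j) i j hij]
      have e : Finset.Ioo i (i + 1) = ∅ := by
        ext a; simp only [Finset.mem_Ioo, Finset.notMem_empty, iff_false]; omega
      rw [e]
      simp
    have hB : ∑ k ∈ Finset.Ioc i j, D (i + 1) k * (∏ a ∈ Finset.Ioo i k, D a a) * θ k j
        = D (i + 1) (i + 1) * (θ (i + 1) j + ∑ k ∈ Finset.Ioc (i + 1) j,
          D (i + 1) k * (∏ a ∈ Finset.Ioo (i + 1) k, D a a) * θ k j) := by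
      rw [z17_Ioc_first i j hij, Finset.sum_insert (by simp)]
      have e : Finset.Ioo i (i + 1) = ∅ := by
        ext a; simp only [Finset.mem_Ioo, Finset.notMem_empty, iff_false]; omega
      rw [e, Finset.prod_empty, mul_one, mul_add, Finset.mul_sum]
      congr 1
      refine Finset.sum_congr rfl fun k hk => ?_
      have hk' := Finset.mem_Ioc.1 hk
      rw [z17_prod_first D i k hk'.1]
      ring
    rw [key, hA, hB, hC]
    rcases Nat.lt_or_ge (i + 1) j with h | h
    · have e1 := h1 (i + 1) j h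
      have e2 := h1 i (j - 1) (by omega)
      rw [← neg_eq_iff_eq_neg.2 e1, ← neg_eq_iff_eq_neg.2 e2]
      ring
    · have hj : j = i + 1 := by omega
      subst hj
      simp only [Nat.add_sub_cancel, Finset.Ioc_self, Finset.sum_empty, h0]
      ring

end Pool.Agent.Helper805_nf
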