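import Mathlib
import Pool.Agent.Helper805_nf.Defs4

set_option autoImplicit false

namespace Pool.Agent.Helper805_nf

open Finset


theorem z18_gen {K : Type*} [Field K] [CharZero K] {B : Type*} [CommRing B] [Algebra K B] (c : ℕ → ℕ)
    (D θ : ℕ → ℕ → B)
    (htwo : ∀ i j, i < j → (algebraMap K B ((c i : K) - (c j : K))) * θ i j = D j j * θ i (j - 1) - D i i * θ (i + 1) j)
    (r : ℕ) (hc : ∀ i j, i ≤ j → j ≤ r → c i ≤ c j) (n : ℕ) :
    ∀ i j, j - i = n → i ≤ j → j ≤ r → ∀ Ψ : B →ₗ[K] K,
      (∀ a ∈ Finset.Icc i j, ∀ P : B,
        Ψ ((∏ b ∈ (Finset.Icc i j).filter (fun b => c b ≠ c a), D b b) * P) = 0) →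
      Ψ (θ i j) = 0 := by
  induction n with
  | zero =>
    intro i j hn hij hjr Ψ h
    have hj : j = i := by omega
    subst hj
    have h1 := h j (by simp) (θ j j)
    have h2 : (Finset.Icc j j).filter (fun b => c b ≠ c j) = ∅ := by
      apply Finset.filter_eq_empty_iff.mpr
      intro b hb
      rw [Finset.mem_Icc] at hb
      have : b = j := by omega
      rw [this]
      simp
    rw [h2, Finset.prod_empty, one_mul] at h1
    exact h1
  | succ m ih =>
    intro i j hn hij hjr Ψ h
    by_cases hcc : c i = c j
    · have h1 := h i (by rw [Finset.mem_Icc]; omega) (θ i j)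
      have h2 : (Finset.Icc i j).filter (fun b => c b ≠ c i) = ∅ := by
        apply Finset.filter_eq_empty_iff.mpr
        intro b hb
        rw [Finset.mem_Icc] at hb
        have h3 := hc i b hb.1 (by omega)
        have h4 := hc b j hb.2 hjr
        have : c b = c i := by omega
        simp [this]
      rw [h2, Finset.prod_empty, one_mul] at h1
      exact h1
    · have hlt : i < j := by omega
      have hq : ((c i : K) - (c j : K)) ≠ 0 := by
        intro h0
        apply hcc
        have := sub_eq_zero.mp h0
        exact_mod_cast this
      have hA : Ψ (D j j * θ i (j - 1)) = 0 := by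
        have := ih i (j - 1) (by omega) (by omega) (by omega) (Ψ ∘ₗ LinearMap.mulLeft K (D j j)) ?_
        · simpa using this
        · intro a ha P
          rw [Finset.mem_Icc] at ha
          have h1 := h a (by rw [Finset.mem_Icc]; omega)
          simp only [LinearMap.coe_comp, Function.comp_apply, LinearMap.mulLeft_apply]
          by_cases hja : c j = c a
          · have h2 : (Finset.Icc i j).filter (fun b => c b ≠ c a) =
                (Finset.Icc i (j - 1)).filter (fun b => c b ≠ c a) := by
              ext b
              simp only [Finset.mem_filter, Finset.mem_Icc]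
              constructor
              · rintro ⟨⟨hb1, hb2⟩, hb3⟩
                have : b ≠ j := by
                  rintro rfl
                  exact hb3 hja
                exact ⟨⟨hb1, by omega⟩, hb3⟩
              · rintro ⟨⟨hb1, hb2⟩, hb3⟩
                exact ⟨⟨hb1, by omega⟩, hb3⟩
            have h3 := h1 (D j j * P)
            rw [h2] at h3
            rw [← h3]
            congr 1
            ring
          · have h2 : (Finset.Icc i j).filter (fun b => c b ≠ c a) =
                insert j ((Finset.Icc i (j - 1)).filter (fun b => c b ≠ c a)) := by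
              ext b
              simp only [Finset.mem_filter, Finset.mem_Icc, Finset.mem_insert]
              constructor
              · rintro ⟨⟨hb1, hb2⟩, hb3⟩
                by_cases hb : b = j
                · exact Or.inl hb
                · exact Or.inr ⟨⟨hb1, by omega⟩, hb3⟩
              · rintro (rfl | ⟨⟨hb1, hb2⟩, hb3⟩)
                · exact ⟨⟨by omega, le_refl _⟩, hja⟩
                · exact ⟨⟨hb1, by omega⟩, hb3⟩
            have h3 := h1 P
            rw [h2, Finset.prod_insert (by simp; omega)] at h3
            rw [← h3]
            congr 1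
            ring
      have hB : Ψ (D i i * θ (i + 1) j) = 0 := by
        have := ih (i + 1) j (by omega) (by omega) (by omega) (Ψ ∘ₗ LinearMap.mulLeft K (D i i)) ?_
        · simpa using this
        · intro a ha P
          rw [Finset.mem_Icc] at ha
          have h1 := h a (by rw [Finset.mem_Icc]; omega)
          simp only [LinearMap.coe_comp, Function.comp_apply, LinearMap.mulLeft_apply]
          by_cases hja : c i = c a
          · have h2 : (Finset.Icc i j).filter (fun b => c b ≠ c a) =
                (Finset.Icc (i + 1) j).filter (fun b => c b ≠ c a) := by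
              ext b
              simp only [Finset.mem_filter, Finset.mem_Icc]
              constructor
              · rintro ⟨⟨hb1, hb2⟩, hb3⟩
                have : b ≠ i := by
                  rintro rfl
                  exact hb3 hja
                exact ⟨⟨by omega, by omega⟩, hb3⟩
              · rintro ⟨⟨hb1, hb2⟩, hb3⟩
                exact ⟨⟨by omega, by omega⟩, hb3⟩
            have h3 := h1 (D i i * P)
            rw [h2] at h3
            rw [← h3]
            congr 1
            ring
          · have h2 : (Finset.Icc i j).filter (fun b => c b ≠ c a) =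
                insert i ((Finset.Icc (i + 1) j).filter (fun b => c b ≠ c a)) := by
              ext b
              simp only [Finset.mem_filter, Finset.mem_Icc, Finset.mem_insert]
              constructor
              · rintro ⟨⟨hb1, hb2⟩, hb3⟩
                by_cases hb : b = i
                · exact Or.inl hb
                · exact Or.inr ⟨⟨by omega, by omega⟩, hb3⟩
              · rintro (rfl | ⟨⟨hb1, hb2⟩, hb3⟩)
                · exact ⟨⟨le_refl _, by omega⟩, hja⟩
                · exact ⟨⟨by omega, by omega⟩, hb3⟩
            have h3 := h1 P
            rw [h2, Finset.prod_insert (by simp)] at h3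
            rw [← h3]
            congr 1
            ring
      have h5 := congrArg Ψ (htwo i j hlt)
      rw [← Algebra.smul_def, map_smul, map_sub, hA, hB, sub_zero, smul_eq_mul] at h5
      rcases mul_eq_zero.mp h5 with h6 | h6
      · exact absurd h6 hq
      · exact h6

theorem theta_vanish {K : Type*} [Field K] [CharZero K] {B : Type*} [CommRing B] [Algebra K B] (c : ℕ → ℕ)
    (D θ : ℕ → ℕ → B)
    (htwo : ∀ i j, i < j → (algebraMap K B ((c i : K) - (c j : K))) * θ i j = D j j * θ i (j - 1) - D i i * θ (i + 1) j)
    (r : ℕ) (hc : ∀ i j, i ≤ j → j ≤ r → c i ≤ c j) (Ψ : B →ₗ[K] K)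
    (hVP : ∀ a, a ≤ r → ∀ P : B, Ψ ((∏ b ∈ (Finset.range (r + 1)).filter (fun b => c b ≠ c a), D b b) * P) = 0) :
    Ψ (θ 0 r) = 0 := by
  have hR : Finset.range (r + 1) = Finset.Icc 0 r := by
    ext b
    simp only [Finset.mem_range, Finset.mem_Icc]
    omega
  rw [hR] at hVP
  refine z18_gen c D θ htwo r hc (r - 0) 0 r rfl (Nat.zero_le r) le_rfl Ψ ?_
  intro a ha P
  rw [Finset.mem_Icc] at ha
  exact hVP a ha.2 P


end Pool.Agent.Helper805_nf
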