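import Mathlib
import Pool.Agent.Helper805_nf.Defs4

set_option autoImplicit false

namespace Pool.Agent.Helper805_nf

open Finset


/-- membership tested on functionals -/
def z19_Mem {K : Type*} [NormedField K] {B : Type*} [CommRing B] [Algebra K B] (F : ℕ → B) {r : ℕ}
    (P : (Fin r → ℕ) → Prop) (x : B) : Prop :=
  ∀ (Ψ : B →ₗ[K] K) (V : ℝ), 0 < V → (∀ l : Fin r → ℕ, P l → ‖Ψ (∏ k, F (l k))‖ < V) → ‖Ψ x‖ < V

theorem z19_zero {K : Type*} [NormedField K] {B : Type*} [CommRing B] [Algebra K B] (F : ℕ → B) {r : ℕ}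
    (P : (Fin r → ℕ) → Prop) : z19_Mem (K := K) F P 0 := by
  intro Ψ V hV _
  simpa using hV

theorem z19_add {K : Type*} [NormedField K] [IsUltrametricDist K] {B : Type*} [CommRing B] [Algebra K B]
    (F : ℕ → B) {r : ℕ}
    (P : (Fin r → ℕ) → Prop) {x y : B} (hx : z19_Mem (K := K) F P x) (hy : z19_Mem (K := K) F P y) :
    z19_Mem (K := K) F P (x + y) := by
  intro Ψ V hV h
  rw [map_add]
  exact (IsUltrametricDist.norm_add_le_max _ _).trans_lt (max_lt (hx Ψ V hV h) (hy Ψ V hV h))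

theorem z19_neg {K : Type*} [NormedField K] {B : Type*} [CommRing B] [Algebra K B]
    (F : ℕ → B) {r : ℕ}
    (P : (Fin r → ℕ) → Prop) {x : B} (hx : z19_Mem (K := K) F P x) :
    z19_Mem (K := K) F P (-x) := by
  intro Ψ V hV h
  rw [map_neg, norm_neg]
  exact hx Ψ V hV h

theorem z19_smul {K : Type*} [NormedField K] {B : Type*} [CommRing B] [Algebra K B]
    (F : ℕ → B) {r : ℕ}
    (P : (Fin r → ℕ) → Prop) {x : B} (c : K) (hc : ‖c‖ ≤ 1) (hx : z19_Mem (K := K) F P x) :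
    z19_Mem (K := K) F P (c • x) := by
  intro Ψ V hV h
  rw [map_smul, smul_eq_mul, norm_mul]
  have h1 := hx Ψ V hV h
  have h2 : ‖c‖ * ‖Ψ x‖ ≤ 1 * ‖Ψ x‖ := mul_le_mul_of_nonneg_right hc (norm_nonneg _)
  linarith

theorem z19_sum {K : Type*} [NormedField K] [IsUltrametricDist K] {B : Type*} [CommRing B] [Algebra K B]
    (F : ℕ → B) {r : ℕ} (P : (Fin r → ℕ) → Prop) {ι : Type*} (s : Finset ι) (f : ι → B)
    (h : ∀ i ∈ s, z19_Mem (K := K) F P (f i)) : z19_Mem (K := K) F P (∑ i ∈ s, f i) := by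
  classical
  induction s using Finset.induction_on with
  | empty => simpa using z19_zero (K := K) F P
  | insert a s ha ih =>
    rw [Finset.sum_insert ha]
    exact z19_add F P (h a (Finset.mem_insert_self a s))
      (ih fun i hi => h i (Finset.mem_insert_of_mem hi))

theorem z19_mul {K : Type*} [NormedField K] {B : Type*} [CommRing B] [Algebra K B]
    (F : ℕ → B) {r r' : ℕ} (P : (Fin r → ℕ) → Prop) (P' : (Fin r' → ℕ) → Prop)
    (Q : (Fin (r + r') → ℕ) → Prop) (hQ : ∀ l l', P l → P' l' → Q (Fin.append l l'))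
    {x y : B} (hx : z19_Mem (K := K) F P x) (hy : z19_Mem (K := K) F P' y) :
    z19_Mem (K := K) F Q (x * y) := by
  intro Ψ V hV h
  refine hy (Ψ.comp (LinearMap.mulLeft K x)) V hV ?_
  intro l' hl'
  have h1 := hx (Ψ.comp (LinearMap.mulRight K (∏ k, F (l' k)))) V hV ?_
  · simpa using h1
  · intro l hl
    have h2 := h (Fin.append l l') (hQ l l' hl hl')
    rw [Fin.prod_univ_add] at h2
    simpa using h2

/-- long products -/
def z19_M (p r s : ℕ) (l : Fin r → ℕ) : Prop := (∀ k, l k < p) ∧ s ≤ ∑ k, l k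

/-- long products which are not the product of ones -/
def z19_N (p r : ℕ) (l : Fin r → ℕ) : Prop := (∀ k, l k < p) ∧ r ≤ ∑ k, l k ∧ ¬ ∀ k, l k = 1

theorem z19_append_lt {r r' p : ℕ} {l : Fin r → ℕ} {l' : Fin r' → ℕ} (h : ∀ k, l k < p)
    (h' : ∀ k, l' k < p) : ∀ k, Fin.append l l' k < p := by
  intro k
  refine Fin.addCases (fun i => ?_) (fun i => ?_) k
  · rw [Fin.append_left]; exact h i
  · rw [Fin.append_right]; exact h' i

theorem z19_append_sum {r r' : ℕ} (l : Fin r → ℕ) (l' : Fin r' → ℕ) :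
    ∑ k, Fin.append l l' k = ∑ k, l k + ∑ k, l' k := by
  rw [Fin.sum_univ_add]
  simp

theorem z19_mulM {K : Type*} [NormedField K] {B : Type*} [CommRing B] [Algebra K B]
    (F : ℕ → B) {p r r' s s' : ℕ} {x y : B} (hx : z19_Mem (K := K) F (z19_M p r s) x)
    (hy : z19_Mem (K := K) F (z19_M p r' s') y) :
    z19_Mem (K := K) F (z19_M p (r + r') (s + s')) (x * y) := by
  refine z19_mul F _ _ _ ?_ hx hy
  intro l l' hl hl'
  refine ⟨z19_append_lt hl.1 hl'.1, ?_⟩
  rw [z19_append_sum]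
  exact Nat.add_le_add hl.2 hl'.2

theorem z19_mulN {K : Type*} [NormedField K] {B : Type*} [CommRing B] [Algebra K B]
    (F : ℕ → B) {p r a s : ℕ} {x y : B} (ha : 2 ≤ a) (has : 1 + r ≤ a + s)
    (hx : z19_Mem (K := K) F (z19_M p 1 a) x)
    (hy : z19_Mem (K := K) F (z19_M p r s) y) :
    z19_Mem (K := K) F (z19_N p (1 + r)) (x * y) := by
  refine z19_mul F _ _ _ ?_ hx hy
  intro l l' hl hl'
  refine ⟨z19_append_lt hl.1 hl'.1, ?_, ?_⟩
  · rw [z19_append_sum]
    exact has.trans (Nat.add_le_add hl.2 hl'.2)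
  · intro hall
    have h1 := hall (Fin.castAdd r 0)
    rw [Fin.append_left] at h1
    have h2 := hl.2
    simp at h2
    omega

theorem z19_mulF1 {K : Type*} [NormedField K] {B : Type*} [CommRing B] [Algebra K B]
    (F : ℕ → B) {p r : ℕ} (hp : 2 ≤ p) {y : B}
    (hy : z19_Mem (K := K) F (z19_N p r) y) :
    z19_Mem (K := K) F (z19_N p (1 + r)) (F 1 * y) := by
  have hx : z19_Mem (K := K) F (fun l : Fin 1 → ℕ => l 0 = 1) (F 1) := by
    intro Ψ V hV h
    have := h (fun _ => 1) rfl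
    simpa using this
  refine z19_mul F _ _ _ ?_ hx hy
  intro l l' hl hl'
  have hl0 : ∀ k, l k = 1 := by
    intro k
    rw [Subsingleton.elim k 0]
    exact hl
  refine ⟨z19_append_lt (fun k => by rw [hl0 k]; omega) hl'.1, ?_, ?_⟩
  · rw [z19_append_sum]
    have h1 : ∑ k, l k = 1 := by simp [hl0]
    have h2 := hl'.2.1
    omega
  · intro hall
    apply hl'.2.2
    intro k
    have h1 := hall (Fin.natAdd 1 k)
    rwa [Fin.append_right] at h1

theorem z19_one {K : Type*} [NormedField K] {B : Type*} [CommRing B] [Algebra K B]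
    (F : ℕ → B) (p : ℕ) : z19_Mem (K := K) F (z19_M p 0 0) (1 : B) := by
  intro Ψ V hV h
  have := h (fun _ => 0) ⟨fun k => k.elim0, Nat.zero_le _⟩
  simpa using this

theorem z19_single {K : Type*} [NormedField K] {B : Type*} [CommRing B] [Algebra K B]
    (F : ℕ → B) (p s l : ℕ) (hl : l < p) (hs : s ≤ l) :
    z19_Mem (K := K) F (z19_M p 1 s) (F l) := by
  intro Ψ V hV h
  have := h (fun _ => l) ⟨fun _ => hl, by simpa using hs⟩
  simpa using this

theorem z19_D {K : Type*} [NormedField K] [IsUltrametricDist K] {B : Type*} [CommRing B] [Algebra K B]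
    (p : ℕ) (F : ℕ → B) (dd : ℕ → ℕ → ℕ → K) (D : ℕ → ℕ → B)
    (hD : ∀ i j, D i j = ∑ l ∈ Finset.range p, dd l i j • F l)
    (hdn : ∀ l i j, l < p → i ≤ j → ‖dd l i j‖ ≤ 1) (hd0 : ∀ l i j, i ≤ j → l < j - i → dd l i j = 0)
    (i j : ℕ) (hij : i ≤ j) : z19_Mem (K := K) F (z19_M p 1 (j - i)) (D i j) := by
  rw [hD]
  refine z19_sum F _ _ _ ?_
  intro l hl
  rw [Finset.mem_range] at hl
  by_cases h : l < j - i
  · rw [hd0 l i j hij h, zero_smul]
    exact z19_zero F _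
  · exact z19_smul F _ _ (hdn l i j hl hij) (z19_single F p _ l hl (not_lt.1 h))

theorem z19_D1 {K : Type*} [NormedField K] [IsUltrametricDist K] {B : Type*} [CommRing B] [Algebra K B]
    (p : ℕ) (hp2 : 2 ≤ p) (F : ℕ → B) (dd : ℕ → ℕ → ℕ → K) (D : ℕ → ℕ → B)
    (hD : ∀ i j, D i j = ∑ l ∈ Finset.range p, dd l i j • F l)
    (hdn : ∀ l i j, l < p → i ≤ j → ‖dd l i j‖ ≤ 1) (hd0 : ∀ l i j, i ≤ j → l < j - i → dd l i j = 0)
    (hd1 : ∀ i, dd 1 i (i + 1) = 1)
    (i : ℕ) : z19_Mem (K := K) F (z19_M p 1 2) (D i (i + 1) - F 1) := by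
  have h1 : D i (i + 1) - F 1 = ∑ l ∈ (Finset.range p).erase 1, dd l i (i + 1) • F l := by
    rw [hD, ← Finset.add_sum_erase (Finset.range p) _ (Finset.mem_range.2 (by omega : 1 < p)), hd1 i,
      one_smul]
    ring
  rw [h1]
  refine z19_sum F _ _ _ ?_
  intro l hl
  rw [Finset.mem_erase, Finset.mem_range] at hl
  by_cases h : l < 1
  · rw [hd0 l i (i + 1) (by omega) (by omega), zero_smul]
    exact z19_zero F _
  · exact z19_smul F _ _ (hdn l i (i + 1) hl.2 (by omega)) (z19_single F p _ l hl.2 (by omega))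

theorem z19_prod {K : Type*} [NormedField K] {B : Type*} [CommRing B] [Algebra K B]
    (p : ℕ) (F : ℕ → B) (D : ℕ → ℕ → B)
    (hDd : ∀ a, z19_Mem (K := K) F (z19_M p 1 0) (D a a)) (s : Finset ℕ) :
    z19_Mem (K := K) F (z19_M p s.card 0) (∏ a ∈ s, D a a) := by
  classical
  induction s using Finset.induction_on with
  | empty => simpa using z19_one (K := K) F p
  | insert a s ha ih =>
    rw [Finset.prod_insert ha, Finset.card_insert_of_notMem ha]
    have h := z19_mulM F (hDd a) ih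
    rwa [add_comm 1 s.card, add_zero] at h

theorem z19_theta {K : Type*} [NormedField K] [IsUltrametricDist K] {B : Type*} [CommRing B] [Algebra K B]
    (p : ℕ) (F : ℕ → B) (D θ : ℕ → ℕ → B)
    (hDM : ∀ i j, i ≤ j → z19_Mem (K := K) F (z19_M p 1 (j - i)) (D i j))
    (h0 : ∀ i, θ i i = 1)
    (h1 : ∀ i j, i < j → θ i j = - ∑ k ∈ Finset.Ioc i j, D i k * (∏ a ∈ Finset.Ioo i k, D a a) * θ k j) :
    ∀ r i, z19_Mem (K := K) F (z19_M p r r) (θ i (i + r)) := by
  intro r
  induction r using Nat.strong_induction_on with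
  | _ r ih =>
    intro i
    rcases Nat.eq_zero_or_pos r with hr | hr
    · subst hr
      rw [add_zero, h0]
      exact z19_one F p
    · rw [h1 i (i + r) (by omega)]
      refine z19_neg F _ (z19_sum F _ _ _ ?_)
      intro k hk
      rw [Finset.mem_Ioc] at hk
      have a1 := hDM i k (by omega)
      have a2 := z19_prod (K := K) p F D (fun a => by simpa using hDM a a le_rfl) (Finset.Ioo i k)
      rw [Nat.card_Ioo] at a2
      have a3 := ih (i + r - k) (by omega) k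
      rw [show k + (i + r - k) = i + r by omega] at a3
      have a4 := z19_mulM F (z19_mulM F a1 a2) a3
      rwa [show 1 + (k - i - 1) + (i + r - k) = r by omega,
        show k - i + 0 + (i + r - k) = r by omega] at a4

theorem z19_claim {K : Type*} [NormedField K] [IsUltrametricDist K] {B : Type*} [CommRing B] [Algebra K B]
    (p : ℕ) (hp2 : 2 ≤ p) (F : ℕ → B) (D θ : ℕ → ℕ → B)
    (hDM : ∀ i j, i ≤ j → z19_Mem (K := K) F (z19_M p 1 (j - i)) (D i j))
    (hD1 : ∀ i, z19_Mem (K := K) F (z19_M p 1 2) (D i (i + 1) - F 1))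
    (h0 : ∀ i, θ i i = 1)
    (h1 : ∀ i j, i < j → θ i j = - ∑ k ∈ Finset.Ioc i j, D i k * (∏ a ∈ Finset.Ioo i k, D a a) * θ k j) :
    ∀ r i, z19_Mem (K := K) F (z19_N p r) (θ i (i + r) - (-1) ^ r * F 1 ^ r) := by
  have hθ := z19_theta (K := K) p F D θ hDM h0 h1
  intro r
  induction r with
  | zero =>
    intro i
    have : θ i (i + 0) - (-1) ^ 0 * F 1 ^ 0 = 0 := by
      rw [add_zero, h0]; simp
    rw [this]
    exact z19_zero F _
  | succ r ih =>
    intro i
    have hmem : i + 1 ∈ Finset.Ioc i (i + (r + 1)) := by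
      rw [Finset.mem_Ioc]; omega
    have e1 : θ i (i + (r + 1)) - (-1) ^ (r + 1) * F 1 ^ (r + 1) =
        -(∑ k ∈ (Finset.Ioc i (i + (r + 1))).erase (i + 1),
            D i k * ((∏ a ∈ Finset.Ioo i k, D a a) * θ k (i + (r + 1)))) +
          (-((D i (i + 1) - F 1) * θ (i + 1) (i + 1 + r)) +
            -(F 1 * (θ (i + 1) (i + 1 + r) - (-1) ^ r * F 1 ^ r))) := by
      rw [h1 i (i + (r + 1)) (by omega), ← Finset.add_sum_erase _ _ hmem,
        show Finset.Ioo i (i + 1) = ∅ by ext x; simp, Finset.prod_empty,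
        show i + (r + 1) = i + 1 + r by omega]
      simp only [mul_assoc]
      ring
    rw [e1, show z19_N p (r + 1) = z19_N p (r + 1) from rfl]
    refine z19_add F _ (z19_neg F _ (z19_sum F _ _ _ ?_)) (z19_add F _ (z19_neg F _ ?_) (z19_neg F _ ?_))
    · intro k hk
      rw [Finset.mem_erase, Finset.mem_Ioc] at hk
      have a1 := hDM i k (by omega)
      have a2 := z19_prod (K := K) p F D (fun a => by simpa using hDM a a le_rfl) (Finset.Ioo i k)
      rw [Nat.card_Ioo] at a2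
      have a3 := hθ (i + (r + 1) - k) k
      rw [show k + (i + (r + 1) - k) = i + (r + 1) by omega] at a3
      have a4 := z19_mulM F a2 a3
      have a5 := z19_mulN F (by omega) (by omega) a1 a4
      rwa [show 1 + (k - i - 1 + (i + (r + 1) - k)) = r + 1 by omega] at a5
    · have a5 := z19_mulN F le_rfl (by omega) (hD1 i) (hθ r (i + 1))
      rwa [add_comm 1 r] at a5
    · have a5 := z19_mulF1 F hp2 (ih (i + 1))
      rwa [add_comm 1 r] at a5

theorem theta_struct {K : Type*} [NormedField K] [IsUltrametricDist K] {B : Type*} [CommRing B] [Algebra K B]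
    (p : ℕ) (hp2 : 2 ≤ p) (F : ℕ → B) (dd : ℕ → ℕ → ℕ → K) (D θ : ℕ → ℕ → B)
    (hD : ∀ i j, D i j = ∑ l ∈ Finset.range p, dd l i j • F l)
    (hdn : ∀ l i j, l < p → i ≤ j → ‖dd l i j‖ ≤ 1) (hd0 : ∀ l i j, i ≤ j → l < j - i → dd l i j = 0)
    (hd1 : ∀ i, dd 1 i (i + 1) = 1)
    (h0 : ∀ i, θ i i = 1)
    (h1 : ∀ i j, i < j → θ i j = - ∑ k ∈ Finset.Ioc i j, D i k * (∏ a ∈ Finset.Ioo i k, D a a) * θ k j)
    (i r : ℕ) (Ψ : B →ₗ[K] K) (V0 : ℝ) (hV0 : 0 < V0)
    (hF : ∀ l : Fin r → ℕ, (∀ k, l k < p) → r ≤ ∑ k, l k → (¬ ∀ k, l k = 1) → ‖Ψ (∏ k, F (l k))‖ < V0) :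
    ‖Ψ (θ i (i + r) - (-1) ^ r * F 1 ^ r)‖ < V0 := by
  have hDM := z19_D (K := K) p F dd D hD hdn hd0
  have hD1 := z19_D1 (K := K) p hp2 F dd D hD hdn hd0 hd1
  exact z19_claim (K := K) p hp2 F D θ hDM hD1 h0 h1 r i Ψ V0 hV0 (fun l hl => hF l hl.1 hl.2.1 hl.2.2)


end Pool.Agent.Helper805_nf
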