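import Mathlib
import Pool.Agent.Helper805_nf.Defs4
import Pool.Agent.Helper805_nf.Y1
import Pool.Agent.Helper805_nf.Z16
import Pool.Agent.Helper805_nf.Z17
import Pool.Agent.Helper805_nf.Z18
import Pool.Agent.Helper805_nf.Z19

set_option autoImplicit false

namespace Pool.Agent.Helper805_nf

open Finset








theorem theta_bound {K : Type*} [NormedField K] [IsUltrametricDist K] (p : ℕ) (hp : p.Prime)
    (hpn : ‖(p : K)‖ = (p : ℝ)⁻¹) {B : Type*} [CommRing B] [Algebra K B]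
    (c : ℕ → ℕ) (F : ℕ → B) (r : ℕ) (hc : ∀ i j, i ≤ j → j ≤ r → c i ≤ c j) (Ψ : B →ₗ[K] K)
    (hVP : ∀ a, a ≤ r → ∀ P : B, Ψ ((∏ b ∈ (Finset.range (r + 1)).filter (fun b => c b ≠ c a),
      ∑ l ∈ Finset.range p, ((c b).choose l : K) • F l) * P) = 0)
    (V0 : ℝ) (hV0 : 0 < V0)
    (hF : ∀ l : Fin r → ℕ, (∀ k, l k < p) → r ≤ ∑ k, l k → (¬ ∀ k, l k = 1) → ‖Ψ (∏ k, F (l k))‖ < V0) :
    ‖Ψ (F 1 ^ r)‖ < V0 := by
  have hp0 : (0 : ℝ) < p := by exact_mod_cast hp.pos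
  have hnz : ∀ a : ℕ, (a : K) = 0 → a = 0 := by
    intro a ha
    by_contra h0
    obtain ⟨k, a', ha', rfl⟩ := Nat.exists_eq_pow_mul_and_not_dvd h0 p hp.ne_one
    have h1 := (norm_nat_facts (K := K) p hp hpn a').2.1 ha'
    have h2 : ‖((p ^ k * a' : ℕ) : K)‖ = (p : ℝ)⁻¹ ^ k := by
      push_cast
      rw [norm_mul, norm_pow, hpn, h1, mul_one]
    rw [ha, norm_zero] at h2
    have h3 : (0 : ℝ) < (p : ℝ)⁻¹ ^ k := by positivity
    linarith
  haveI : CharZero K := charZero_of_inj_zero hnz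
  obtain ⟨dd, hdd0, hdd1, hdd2, hdd3, hdd4⟩ := dd_coeffs (K := K) p hp hpn c
  obtain ⟨D, hD⟩ : ∃ D : ℕ → ℕ → B, ∀ i j, D i j = ∑ l ∈ Finset.range p, dd l i j • F l :=
    ⟨_, fun _ _ => rfl⟩
  obtain ⟨θ, hθ0, hθ1⟩ := theta_exists D
  have hrel : ∀ i j, i < j → (algebraMap K B (c i) - algebraMap K B (c j)) * D i j =
      D i (j - 1) - D (i + 1) j := by
    intro i j hij
    rw [hD, hD, hD, Finset.mul_sum, ← Finset.sum_sub_distrib]
    refine Finset.sum_congr rfl fun l _ => ?_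
    rw [← map_sub, ← Algebra.smul_def, smul_smul, hdd1 l i j hij, sub_smul]
  have htwo := theta_two (fun i => algebraMap K B (c i)) D θ hrel hθ0 hθ1
  have hv : Ψ (θ 0 r) = 0 := by
    refine theta_vanish c D θ (fun i j hij => ?_) r hc Ψ fun a ha P => ?_
    · rw [map_sub]; exact htwo i j hij
    · have h5 : ∀ b, D b b = ∑ l ∈ Finset.range p, ((c b).choose l : K) • F l := by
        intro b
        rw [hD]
        exact Finset.sum_congr rfl fun l _ => by rw [hdd0]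
      simp_rw [h5]
      exact hVP a ha P
  have hs := theta_struct p hp.two_le F dd D θ hD hdd2 hdd3 hdd4 hθ0 hθ1 0 r Ψ V0 hV0 hF
  rw [zero_add, map_sub, hv, zero_sub, norm_neg] at hs
  have h6 : ((-1 : B) ^ r * F 1 ^ r) = ((-1 : K) ^ r) • F 1 ^ r := by
    rw [Algebra.smul_def, map_pow, map_neg, map_one]
  rw [h6, map_smul, norm_smul, norm_pow, norm_neg, norm_one, one_pow, one_mul] at hs
  exact hs


end Pool.Agent.Helper805_nf
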