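import Mathlib
import Pool.Agent.Helper805_nf.Defs4

set_option autoImplicit false

namespace Pool.Agent.Helper805_nf

open Finset



theorem z21_exp_apply {m : ℕ} (φ : Fin m → Fin m) (j : Fin m) :
    (∑ i, Finsupp.single (φ i) 1 : Fin m →₀ ℕ) j = (univ.filter (fun i => φ i = j)).card := by
  rw [Finsupp.finsetSum_apply, Finset.card_filter]
  refine Finset.sum_congr rfl fun i _ => ?_
  rw [Finsupp.single_apply]

theorem z21_exp_eq {m : ℕ} (φ : Fin m → Fin m) :
    (∑ i, Finsupp.single (φ i) 1 : Fin m →₀ ℕ) = Finsupp.equivFunOnFinite.symm (fun _ => 1) ↔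
      Function.Bijective φ := by
  constructor
  · intro h
    refine Finite.injective_iff_bijective.1 ?_
    intro a b hab
    have h1 := DFunLike.congr_fun h (φ a)
    rw [z21_exp_apply, Finsupp.equivFunOnFinite_symm_apply_apply] at h1
    obtain ⟨c, hc⟩ := Finset.card_eq_one.1 h1
    have ha : a ∈ univ.filter (fun i => φ i = φ a) := by simp
    have hb : b ∈ univ.filter (fun i => φ i = φ a) := by simp [hab]
    rw [hc, Finset.mem_singleton] at ha hb
    rw [ha, hb]
  · intro h
    ext j
    rw [z21_exp_apply, Finsupp.equivFunOnFinite_symm_apply_apply, Finset.card_eq_one]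
    obtain ⟨a, ha⟩ := h.2 j
    refine ⟨a, ?_⟩
    ext b
    simp only [Finset.mem_filter, Finset.mem_univ, true_and, Finset.mem_singleton]
    constructor
    · intro hb
      exact h.1 (hb.trans ha.symm)
    · rintro rfl
      exact ha

theorem z21_prod {K : Type*} [CommRing K] {m : ℕ} (r : Fin m → ℕ → K) (φ : Fin m → Fin m) :
    MvPolynomial.coeff (Finsupp.equivFunOnFinite.symm (fun _ => 1))
      (∏ i, (MvPolynomial.C (r i ((φ i : ℕ) + 2)) * MvPolynomial.X (φ i)) :
        MvPolynomial (Fin m) K) =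
      if Function.Bijective φ then ∏ i, r i ((φ i : ℕ) + 2) else 0 := by
  have h1 : (∏ i, (MvPolynomial.C (r i ((φ i : ℕ) + 2)) * MvPolynomial.X (φ i)) :
      MvPolynomial (Fin m) K) = MvPolynomial.C (∏ i, r i ((φ i : ℕ) + 2)) *
      MvPolynomial.monomial (∑ i, Finsupp.single (φ i) 1) 1 := by
    rw [Finset.prod_mul_distrib, map_prod, MvPolynomial.monomial_sum_one]
    rfl
  rw [h1, MvPolynomial.coeff_C_mul, MvPolynomial.coeff_monomial]
  by_cases h : Function.Bijective φ
  · rw [if_pos h, if_pos ((z21_exp_eq φ).2 h), mul_one]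
  · rw [if_neg h, if_neg (fun h2 => h ((z21_exp_eq φ).1 h2)), mul_zero]

theorem coeff_perT {K : Type*} [CommRing K] {m : ℕ} (r : Fin m → ℕ → K) :
    MvPolynomial.coeff (Finsupp.equivFunOnFinite.symm (fun _ => 1)) (∏ i, linF m (r i)) = perT r := by
  unfold linF perT
  rw [Finset.prod_univ_sum, Fintype.piFinset_univ, MvPolynomial.coeff_sum]
  rw [Finset.sum_congr rfl (fun φ _ => z21_prod r φ), ← Finset.sum_filter]
  refine Finset.sum_bij (fun φ hφ => Equiv.ofBijective φ (Finset.mem_filter.1 hφ).2) ?_ ?_ ?_ ?_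
  · intro φ _
    exact Finset.mem_univ _
  · intro φ hφ ψ hψ h
    funext i
    have := congrArg (fun σ : Equiv.Perm (Fin m) => σ i) h
    simpa using this
  · intro π _
    refine ⟨π, Finset.mem_filter.2 ⟨Finset.mem_univ _, π.bijective⟩, ?_⟩
    ext i
    simp
  · intro φ hφ
    rfl

end Pool.Agent.Helper805_nf
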