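import Mathlib
import Pool.Agent.Helper805_nf.Defs4
import Pool.Agent.Helper805_nf.X7
import Pool.Agent.Helper805_nf.Y3

set_option autoImplicit false

namespace Pool.Agent.Helper805_nf

open Finset







theorem z22_pow_ne {K : Type*} [Field K] (n a : ℕ) (ζ : K)
    (hζ : IsPrimitiveRoot ζ (2 * n + 1)) (h1 : 1 ≤ a) (h2 : a ≤ n) :
    ζ ^ a - (ζ ^ a)⁻¹ ≠ 0 := by
  have hz0 : ζ ≠ 0 := hζ.ne_zero (by omega)
  intro h
  have h3 : ζ ^ a = (ζ ^ a)⁻¹ := sub_eq_zero.1 h
  have h4 : ζ ^ (2 * a) = 1 := by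
    rw [two_mul, pow_add]
    nth_rewrite 2 [h3]
    exact mul_inv_cancel₀ (pow_ne_zero _ hz0)
  have h5 : 2 * n + 1 ∣ 2 * a := (hζ.pow_eq_one_iff_dvd _).1 h4
  obtain ⟨c, hc⟩ := h5
  rcases c with _ | _ | c
  · omega
  · omega
  · have : (2 * n + 1) * (c + 1 + 1) ≥ (2 * n + 1) * 2 := Nat.mul_le_mul_left _ (by omega)
    omega

theorem z22_perm {K : Type*} [Field K] (n m m' r : ℕ) (hn : m' + r = n)
    (hm : m + 1 = n) (ζ : K)
    (hζ : IsPrimitiveRoot ζ (2 * n + 1)) (d : ℕ) (hd : Nat.Coprime d (2 * n + 1)) (e : Fin m' → ℕ)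
    (L : Multiset ℕ) (hL : ∀ x ∈ L, 1 ≤ x ∧ x ≤ n)
    (hlab : Multiset.map e (Finset.univ : Finset (Fin m')).val + Multiset.replicate r d = L)
    (hnot : ¬ Realizable n L) (k0 : Fin m' → Fin m) (hk0 : Function.Injective k0) :
    ∑ π : Equiv.Perm (Fin m'), ∏ b, rho (ζ ^ ((k0 (π b) : ℕ) + 2)) (e b) = 0 := by
  by_contra hne
  apply hnot
  have hz0 : ζ ≠ 0 := hζ.ne_zero (by omega)
  refine exchange_factor n r m' hn ζ hζ d hd e (fun b => ⟨(k0 b : ℕ) + 1, by
    have := (k0 b).2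
    omega⟩) ?_ ?_ L hL hlab
  · intro a b hab
    apply hk0
    apply Fin.ext
    have := congrArg Fin.val hab
    simp only at this
    omega
  · have h1 : ∀ π : Equiv.Perm (Fin m'),
        ∏ b, (ζ ^ (((k0 (π b) : ℕ) + 1 + 1) * e b) - (ζ⁻¹) ^ (((k0 (π b) : ℕ) + 1 + 1) * e b)) =
        (∏ b, (ζ ^ ((k0 b : ℕ) + 2) - (ζ ^ ((k0 b : ℕ) + 2))⁻¹)) *
          ∏ b, rho (ζ ^ ((k0 (π b) : ℕ) + 2)) (e b) := by
      intro π
      rw [← Equiv.prod_comp π (fun b => ζ ^ ((k0 b : ℕ) + 2) - (ζ ^ ((k0 b : ℕ) + 2))⁻¹),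
        ← Finset.prod_mul_distrib]
      refine Finset.prod_congr rfl fun b _ => ?_
      rw [rho_mul _ (pow_ne_zero _ hz0), pow_mul, pow_mul, inv_pow]
    simp only
    rw [Finset.sum_congr rfl (fun π _ => h1 π), ← Finset.mul_sum]
    refine mul_ne_zero ?_ hne
    refine Finset.prod_ne_zero_iff.2 fun b _ => ?_
    exact z22_pow_ne n _ ζ hζ (by omega) (by
      have := (k0 b).2
      omega)

/-- The exponent of a product of variables. -/
noncomputable def z22_mon {m m' : ℕ} (φ : Fin m' → Fin m) : Fin m →₀ ℕ :=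
  ∑ b, Finsupp.single (φ b) 1

theorem z22_mon_apply {m m' : ℕ} (φ : Fin m' → Fin m) (j : Fin m) :
    z22_mon φ j = (Finset.univ.filter (fun b => φ b = j)).card := by
  rw [z22_mon, Finsupp.finsetSum_apply, Finset.card_filter]
  refine Finset.sum_congr rfl fun b _ => ?_
  rw [Finsupp.single_apply]

theorem z22_mon_inj {m m' : ℕ} (φ : Fin m' → Fin m) (h : ∀ j, z22_mon φ j ≤ 1) :
    Function.Injective φ := by
  intro a b hab
  have h1 := h (φ b)
  rw [z22_mon_apply] at h1
  exact Finset.card_le_one.1 h1 a (by simp [hab]) b (by simp)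

theorem z22_mon_mem {m m' : ℕ} (φ ψ : Fin m' → Fin m) (h : z22_mon φ = z22_mon ψ) (b : Fin m') :
    ∃ b', ψ b' = φ b := by
  have h1 : 0 < z22_mon φ (φ b) := by
    rw [z22_mon_apply]
    exact Finset.card_pos.2 ⟨b, by simp⟩
  rw [h, z22_mon_apply] at h1
  obtain ⟨b', hb'⟩ := Finset.card_pos.1 h1
  exact ⟨b', (Finset.mem_filter.1 hb').2⟩

theorem z22_set {m m' : ℕ} (k0 : Fin m' → Fin m) (hk0 : Function.Injective k0) (hk1 : ∀ j, z22_mon k0 j ≤ 1) :
    (Finset.univ.filter (fun φ : Fin m' → Fin m => z22_mon k0 = z22_mon φ)) =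
      (Finset.univ : Finset (Equiv.Perm (Fin m'))).image (fun π => fun b => k0 (π b)) := by
  ext φ
  simp only [Finset.mem_filter, Finset.mem_univ, true_and, Finset.mem_image]
  constructor
  · intro h
    have hφ : Function.Injective φ := z22_mon_inj φ (by rw [← h]; exact hk1)
    choose π hπ using z22_mon_mem φ k0 h.symm
    have hinj : Function.Injective π := by
      intro a b hab
      apply hφ
      rw [← hπ a, ← hπ b, hab]
    refine ⟨Equiv.ofBijective π (Finite.injective_iff_bijective.1 hinj), ?_⟩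
    funext b
    exact hπ b
  · rintro ⟨π, rfl⟩
    rw [z22_mon, z22_mon]
    exact (Equiv.sum_comp π (fun b => Finsupp.single (k0 b) 1)).symm

theorem z22_term {K : Type*} [Field K] {m m' : ℕ} (g : Fin m' → Fin m → K) (φ : Fin m' → Fin m) :
    ∏ b, (MvPolynomial.C (g b (φ b)) * MvPolynomial.X (φ b) : MvPolynomial (Fin m) K) =
      MvPolynomial.monomial (z22_mon φ) (∏ b, g b (φ b)) := by
  have key : ∀ s : Finset (Fin m'),
      ∏ b ∈ s, (MvPolynomial.C (g b (φ b)) * MvPolynomial.X (φ b) : MvPolynomial (Fin m) K) =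
      MvPolynomial.monomial (∑ b ∈ s, Finsupp.single (φ b) 1) (∏ b ∈ s, g b (φ b)) := by
    classical
    intro s
    induction s using Finset.induction_on with
    | empty => simp
    | insert a s ha ih =>
      rw [Finset.prod_insert ha, Finset.sum_insert ha, Finset.prod_insert ha, ih,
        ← MvPolynomial.monomial_mul]
      congr 1
      rw [MvPolynomial.X, MvPolynomial.C_mul_monomial, mul_one]
  exact key Finset.univ

theorem ex_vanish {K : Type*} [Field K] (n m m' r : ℕ) (hn : m' + r = n) (hr : 1 ≤ r) (hm : m + 1 = n) (ζ : K)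
    (hζ : IsPrimitiveRoot ζ (2 * n + 1)) (d : ℕ) (hd : Nat.Coprime d (2 * n + 1)) (e : Fin m' → ℕ)
    (L : Multiset ℕ) (hL : ∀ x ∈ L, 1 ≤ x ∧ x ≤ n)
    (hlab : Multiset.map e (Finset.univ : Finset (Fin m')).val + Multiset.replicate r d = L)
    (hnot : ¬ Realizable n L) (P : MvPolynomial (Fin m) K) :
    MvPolynomial.coeff (Finsupp.equivFunOnFinite.symm (fun _ => 1))
      ((∏ b, linF m (fun a => rho (ζ ^ a) (e b))) * P) = 0 := by
  classical
  rw [MvPolynomial.coeff_mul]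
  refine Finset.sum_eq_zero fun uv huv => ?_
  replace huv := Finset.HasAntidiagonal.mem_antidiagonal.1 huv
  have hu1 : ∀ j, uv.1 j ≤ 1 := by
    intro j
    have := DFunLike.congr_fun huv j
    simp only [Finsupp.add_apply, Finsupp.equivFunOnFinite_symm_apply_apply] at this
    omega
  have hA : MvPolynomial.coeff uv.1 (∏ b, linF m (fun a => rho (ζ ^ a) (e b))) = 0 := by
    have h1 : (∏ b, linF m (fun a => rho (ζ ^ a) (e b)) : MvPolynomial (Fin m) K) =
        ∑ φ : Fin m' → Fin m, MvPolynomial.monomial (z22_mon φ)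
          (∏ b, rho (ζ ^ ((φ b : ℕ) + 2)) (e b)) := by
      simp only [linF]
      rw [Finset.prod_univ_sum, Fintype.piFinset_univ]
      exact Finset.sum_congr rfl fun φ _ =>
        z22_term (fun b j => rho (ζ ^ ((j : ℕ) + 2)) (e b)) φ
    rw [h1, MvPolynomial.coeff_sum]
    simp only [MvPolynomial.coeff_monomial]
    by_cases hex : ∃ k0 : Fin m' → Fin m, z22_mon k0 = uv.1
    · obtain ⟨k0, hk0⟩ := hex
      have hk1 : ∀ j, z22_mon k0 j ≤ 1 := by rw [hk0]; exact hu1
      have hinj := z22_mon_inj k0 hk1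
      rw [← hk0]
      have h2 : ∀ φ : Fin m' → Fin m, (if z22_mon φ = z22_mon k0 then
          (∏ b, rho (ζ ^ ((φ b : ℕ) + 2)) (e b)) else 0) =
          (if z22_mon k0 = z22_mon φ then (∏ b, rho (ζ ^ ((φ b : ℕ) + 2)) (e b)) else 0) := by
        intro φ
        simp only [eq_comm]
      rw [Finset.sum_congr rfl (fun φ _ => h2 φ), ← Finset.sum_filter, z22_set k0 hinj hk1,
        Finset.sum_image]
      · exact z22_perm n m m' r hn hm ζ hζ d hd e L hL hlab hnot k0 hinj
      · intro π _ π' _ h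
        apply Equiv.ext
        intro b
        exact hinj (congrFun h b)
    · refine Finset.sum_eq_zero fun φ _ => ?_
      rw [if_neg]
      exact fun h => hex ⟨φ, h⟩
  rw [hA, zero_mul]


end Pool.Agent.Helper805_nf
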