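import Mathlib
import Pool.Agent.Helper805_nf.Defs4
import Pool.Agent.Helper805_nf.Y1
import Pool.Agent.Helper805_nf.Y2
import Pool.Agent.Helper805_nf.Z11e
import Pool.Agent.Helper805_nf.Z15b
import Pool.Agent.Helper805_nf.Z20
import Pool.Agent.Helper805_nf.Z21
import Pool.Agent.Helper805_nf.Z22
import Pool.Agent.Helper805_nf.Z23
import Pool.Agent.Helper805_nf.Z5b

set_option autoImplicit false

namespace Pool.Agent.Helper805_nf

open Finset





















theorem z24_charZero {K : Type*} [NormedField K] [IsUltrametricDist K] (p : ℕ) (hp : p.Prime)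
    (hpn : ‖(p : K)‖ = (p : ℝ)⁻¹) : CharZero K := by
  apply charZero_of_inj_zero
  intro a
  induction a using Nat.strong_induction_on with
  | _ a ih =>
    intro h0
    by_contra ha
    by_cases hpa : p ∣ a
    · obtain ⟨b, rfl⟩ := hpa
      have hb : b ≠ 0 := by rintro rfl; exact ha (by simp)
      have hp0 : (p : K) ≠ 0 := by
        intro h1
        rw [h1, norm_zero] at hpn
        have : (p : ℝ)⁻¹ ≠ 0 := inv_ne_zero (by exact_mod_cast hp.ne_zero)
        exact this hpn.symm
      rw [Nat.cast_mul] at h0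
      rcases mul_eq_zero.1 h0 with h1 | h1
      · exact hp0 h1
      · have hlt : b < p * b := by
          have := hp.two_le
          nlinarith [Nat.pos_of_ne_zero hb]
        exact hb (ih b hlt h1)
    · have := (norm_nat_facts (K := K) p hp hpn a).2.1 hpa
      rw [h0, norm_zero] at this
      exact zero_ne_one this

theorem z24_fdRow_zero {K : Type*} [Field K] (ζ : K) (p δ : ℕ) :
    fdRow ζ p δ 0 = fun a => rho (ζ ^ a) δ := by
  funext a
  simp [fdRow]

theorem z24_psi {K : Type*} [Field K] {m' r : ℕ} (R : Fin m' → ℕ → K) (S : Fin r → ℕ → K) :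
    MvPolynomial.coeff (Finsupp.equivFunOnFinite.symm (fun _ => 1))
      ((∏ b, linF (m' + r) (R b)) * ∏ k, linF (m' + r) (S k)) = perT (Fin.append R S) := by
  rw [← coeff_perT, Fin.prod_univ_add]
  simp only [Fin.append_left, Fin.append_right]

theorem z24_linF_label {K : Type*} [Field K] (m n p δ : ℕ) (hm : m + 1 = n) (ζ : K) (x c : ℕ) (ε : K)
    (hε : ε = 1 ∨ ε = -1)
    (h : ∀ a : ℕ, 1 ≤ a → a ≤ n →
      rho (ζ ^ a) x = ε * ∑ l ∈ Finset.range p, (c.choose l : K) * fdRow ζ p δ l a) :
    (∑ l ∈ Finset.range p, (c.choose l : K) • linF m (fdRow ζ p δ l)) =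
      ε • linF m (fun a => rho (ζ ^ a) x) := by
  have hεε : ε * ε = 1 := by
    rcases hε with rfl | rfl <;> ring
  unfold linF
  simp only [Finset.smul_sum]
  rw [Finset.sum_comm]
  apply Finset.sum_congr rfl
  intro j _
  have hj := h ((j : ℕ) + 2) (by omega) (by have := j.isLt; omega)
  rw [hj]
  simp only [MvPolynomial.smul_eq_C_mul, ← mul_assoc, ← MvPolynomial.C_mul]
  rw [hεε, one_mul, map_sum, Finset.sum_mul]

theorem z24_card {m' r : ℕ} (l : Fin r → ℕ) :
    (((Finset.univ : Finset (Fin r)).filter (fun k => 1 ≤ l k)).map (Fin.natAddEmb m')).card ≤ r := by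
  rw [Finset.card_map]
  exact (Finset.card_le_univ _).trans (by simp)

theorem z24_sum {m' r : ℕ} (l : Fin r → ℕ) :
    ∑ i ∈ ((Finset.univ : Finset (Fin r)).filter (fun k => 1 ≤ l k)).map (Fin.natAddEmb m'),
      (Fin.append (fun _ : Fin m' => 0) l : Fin (m' + r) → ℕ) i = ∑ k, l k := by
  rw [Finset.sum_map]
  simp only [Fin.natAddEmb_apply, Fin.append_right]
  rw [Finset.sum_filter]
  apply Finset.sum_congr rfl
  intro k _
  split_ifs with h
  · rfl
  · omega

theorem z24_H {m' r p : ℕ} (e : Fin m' → ℕ) (δ : ℕ) (hδ : ¬ p ∣ δ) :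
    ((Finset.univ : Finset (Fin (m' + r))).filter (fun i => p ∣ (Fin.append e (fun _ : Fin r => δ)) i)) =
      ((Finset.univ : Finset (Fin m')).filter (fun i => p ∣ e i)).map (Fin.castAddEmb r) := by
  ext i
  refine Fin.addCases (fun b => ?_) (fun k => ?_) i
  · simp only [Finset.mem_filter, Finset.mem_univ, true_and, Fin.append_left, Finset.mem_map]
    constructor
    · intro h; exact ⟨b, h, rfl⟩
    · rintro ⟨b', h, hb⟩
      have : b' = b := Fin.castAdd_injective _ _ hb
      rw [← this]; exact h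
  · simp only [Finset.mem_filter, Finset.mem_univ, true_and, Fin.append_right, Finset.mem_map]
    constructor
    · intro h; exact absurd h hδ
    · rintro ⟨b', _, hb⟩
      exfalso
      have h1 : ((Fin.castAddEmb r) b' : ℕ) = (Fin.natAdd m' k : ℕ) := by rw [hb]
      have h2 : ((Fin.castAddEmb r) b' : ℕ) = (b' : ℕ) := rfl
      have h3 : (Fin.natAdd m' k : ℕ) = m' + (k : ℕ) := rfl
      have := b'.isLt
      omega

theorem z24_caseA {K : Type*} [NormedField K] [IsUltrametricDist K] (p q n : ℕ) (hp : p.Prime)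
    (hq : p = 2 * q + 1) (h5 : 5 ≤ p) (hn : n = p * q + q) (hpn : ‖(p : K)‖ = (p : ℝ)⁻¹) (ζ : K)
    (hζ : IsPrimitiveRoot ζ (p ^ 2)) (t : ℝ) (ht0 : 0 < t) (ht1 : t < 1) (htp : t ^ (p * (p - 1)) = (p : ℝ)⁻¹)
    (h1 : ∀ j : ℕ, ¬ p ∣ j → ‖ζ ^ j - 1‖ = t) (h2 : ∀ j : ℕ, ¬ p ∣ j → ‖ζ ^ (p * j) - 1‖ = t ^ p)
    (m' r : ℕ) (hr : m' + (r + 1) = n) (e : Fin m' → ℕ) (he : ∀ b, 1 ≤ e b ∧ e b ≤ n)
    (δ : ℕ) (hδ : 1 ≤ δ ∧ δ ≤ q)
    (W j w : ℕ) (hW : (Finset.univ.filter (fun i => p ∣ e i)).card = W) (hWj : W = j * p + w) (hj : j + 1 ≤ q)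
    (hw : 1 ≤ w) (hwr : w + r ≤ q) (l : Fin r → ℕ) (hl : ∑ k, l k = r) :
    (((Finset.univ : Finset (Fin r)).filter (fun k => 1 ≤ l k)).card < r →
      ‖perT (Fin.append (fun b a => rho (ζ ^ a) (e b)) (fun k => fdRow ζ p δ (l k)) : Fin (m' + r) → ℕ → K)‖ <
      ‖((p * q - 1).factorial : K)‖ * t ^ ((p - 1) * (W + r) + 2 * (q - (w + r)))) ∧
    (((Finset.univ : Finset (Fin r)).filter (fun k => 1 ≤ l k)).card = r →
      (∏ i ∈ Finset.univ.filter (fun i => ¬ p ∣ e i), (Polynomial.C (e i : ZMod p) +
        Polynomial.C (((e i + 1).choose 3 : ℕ) : ZMod p) * Polynomial.X)).coeff (q - (w + r)) ≠ 0 →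
      ‖perT (Fin.append (fun b a => rho (ζ ^ a) (e b)) (fun k => fdRow ζ p δ (l k)) : Fin (m' + r) → ℕ → K)‖ =
      ‖((p * q - 1).factorial : K)‖ * t ^ ((p - 1) * (W + r) + 2 * (q - (w + r)))) := by
  have hpδ : ¬ p ∣ δ := by
    intro h; exact absurd (Nat.le_of_dvd (by omega) h) (by omega)
  have hpq : 1 ≤ p * q := Nat.mul_pos hp.pos (by omega)
  have hmm : m' + r = p * q - 1 + q := by omega
  obtain ⟨T, hTdef⟩ : ∃ T : Finset (Fin (m' + r)), T =
      ((Finset.univ : Finset (Fin r)).filter (fun k => 1 ≤ l k)).map (Fin.natAddEmb m') := ⟨_, rfl⟩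
  obtain ⟨H, hHdef⟩ : ∃ H : Finset (Fin (m' + r)), H =
      (Finset.univ : Finset (Fin (m' + r))).filter (fun i => p ∣ (Fin.append e (fun _ : Fin r => δ)) i) := ⟨_, rfl⟩
  have memT1 : ∀ b : Fin m', Fin.castAdd r b ∉ T := by
    intro b hb
    rw [hTdef, Finset.mem_map] at hb
    obtain ⟨k, _, hk⟩ := hb
    have h1 : ((Fin.natAddEmb m') k : ℕ) = (Fin.castAdd r b : ℕ) := by rw [hk]
    have h2 : ((Fin.natAddEmb m') k : ℕ) = m' + (k : ℕ) := rfl
    have h3 : (Fin.castAdd r b : ℕ) = (b : ℕ) := rfl
    have := b.isLt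
    omega
  have memT2 : ∀ k : Fin r, Fin.natAdd m' k ∈ T ↔ 1 ≤ l k := by
    intro k
    rw [hTdef, Finset.mem_map]
    constructor
    · rintro ⟨k', hk', hk⟩
      have : k' = k := Fin.natAdd_injective _ _ hk
      rw [← this]; simpa using hk'
    · intro h
      exact ⟨k, by simpa using h, rfl⟩
  have hTcard : T.card = ((Finset.univ : Finset (Fin r)).filter (fun k => 1 ≤ l k)).card := by
    rw [hTdef, Finset.card_map]
  have hHcard : H.card = W := by
    rw [hHdef, z24_H e δ hpδ, Finset.card_map, hW]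
  have hdisj : Disjoint H T := by
    rw [Finset.disjoint_left]
    intro i
    refine Fin.addCases (fun b => ?_) (fun k => ?_) i
    · intro _ hb; exact memT1 b hb
    · intro hH _
      rw [hHdef, Finset.mem_filter, Fin.append_right] at hH
      exact hpδ hH.2
  have hsum : ∑ i ∈ T, (Fin.append (fun _ : Fin m' => 0) l : Fin (m' + r) → ℕ) i = r := by
    rw [hTdef, z24_sum, hl]
  have hcompl : ∀ f : ℕ → Polynomial (ZMod p), T.card = r →
      (∏ i ∈ (H ∪ T)ᶜ, f ((Fin.append e (fun _ : Fin r => δ) : Fin (m' + r) → ℕ) i)) =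
      ∏ i ∈ Finset.univ.filter (fun i => ¬ p ∣ e i), f (e i) := by
    intro f hTr
    have hall : ∀ k : Fin r, 1 ≤ l k := by
      have h3 : ((Finset.univ : Finset (Fin r)).filter (fun k => 1 ≤ l k)) = Finset.univ := by
        apply Finset.eq_univ_of_card
        rw [← hTcard, hTr]; simp
      intro k
      have : k ∈ ((Finset.univ : Finset (Fin r)).filter (fun k => 1 ≤ l k)) := by rw [h3]; simp
      simpa using this
    have h4 : (H ∪ T)ᶜ = ((Finset.univ : Finset (Fin m')).filter (fun i => ¬ p ∣ e i)).map (Fin.castAddEmb r) := by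
      ext i
      rw [Finset.mem_compl, Finset.mem_union]
      refine Fin.addCases (fun b => ?_) (fun k => ?_) i
      · rw [hHdef, Finset.mem_filter, Fin.append_left, Finset.mem_map]
        constructor
        · intro h
          refine ⟨b, ?_, rfl⟩
          rw [Finset.mem_filter]
          refine ⟨Finset.mem_univ _, ?_⟩
          intro hb
          exact h (Or.inl ⟨Finset.mem_univ _, hb⟩)
        · rintro ⟨b', hb', hb⟩ h
          have hbb : b' = b := Fin.castAdd_injective _ _ hb
          rw [hbb, Finset.mem_filter] at hb'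
          rcases h with h | h
          · exact hb'.2 h.2
          · exact memT1 b h
      · constructor
        · intro h
          exact absurd (Or.inr ((memT2 k).2 (hall k))) h
        · intro h
          rw [Finset.mem_map] at h
          obtain ⟨b', _, hb⟩ := h
          exfalso
          have h1 : ((Fin.castAddEmb r) b' : ℕ) = (Fin.natAdd m' k : ℕ) := by rw [hb]
          have h2 : ((Fin.castAddEmb r) b' : ℕ) = (b' : ℕ) := rfl
          have h3 : (Fin.natAdd m' k : ℕ) = m' + (k : ℕ) := rfl
          have := b'.isLt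
          omega
    rw [h4, Finset.prod_map]
    apply Finset.prod_congr rfl
    intro b _
    rw [Fin.castAddEmb_apply, Fin.append_left]
  have main := perT_main (K := K) p q (m' + r) hp hq h5 hpn ζ hζ t ht0 ht1 htp h1 h2 hmm T H hdisj
    (Fin.append e (fun _ : Fin r => δ)) (Fin.append (fun _ : Fin m' => 0) l)
    (by
      intro i
      refine Fin.addCases (fun b => ?_) (fun k => ?_) i
      · intro _; rw [Fin.append_left]; have := he b; omega
      · intro _; rw [Fin.append_right]; omega)
    (by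
      intro i _
      rw [hHdef, Finset.mem_filter]; simp)
    δ
    (by
      intro i
      refine Fin.addCases (fun b => ?_) (fun k => ?_) i
      · intro h; exact absurd h (memT1 b)
      · intro h; rw [Fin.append_right]; exact (memT2 k).1 h)
    W j w r hHcard hWj hj (by omega) hsum (Or.inl ⟨hw, hwr⟩)
    (Fin.append (fun b a => rho (ζ ^ a) (e b)) (fun k => fdRow ζ p δ (l k)))
    (by
      intro i
      refine Fin.addCases (fun b => ?_) (fun k => ?_) i
      · intro h; exact absurd h (memT1 b)
      · intro _; rw [Fin.append_right, Fin.append_right])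
    (by
      intro i
      refine Fin.addCases (fun b => ?_) (fun k => ?_) i
      · intro _; rw [Fin.append_left, Fin.append_left]
      · intro h
        rw [Fin.append_right, Fin.append_right]
        have : l k = 0 := by
          by_contra h0
          exact h ((memT2 k).2 (by omega))
        rw [this, z24_fdRow_zero])
  refine ⟨fun h => main.1 (by rw [hTcard]; exact h), fun h hc => main.2 (by rw [hTcard]; exact h) ?_⟩
  rw [hcompl (fun x => (Polynomial.C (x : ZMod p) +
        Polynomial.C (((x + 1).choose 3 : ℕ) : ZMod p) * Polynomial.X)) (by rw [hTcard]; exact h)]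
  exact hc

theorem z24_caseB {K : Type*} [NormedField K] [IsUltrametricDist K] (p q n : ℕ) (hp : p.Prime)
    (hq : p = 2 * q + 1) (hn : n = p * q + q) (hpn : ‖(p : K)‖ = (p : ℝ)⁻¹) (ζ : K)
    (hζ : IsPrimitiveRoot ζ (p ^ 2)) (t : ℝ) (ht0 : 0 < t) (ht1 : t < 1) (htp : t ^ (p * (p - 1)) = (p : ℝ)⁻¹)
    (h1 : ∀ j : ℕ, ¬ p ∣ j → ‖ζ ^ j - 1‖ = t) (h2 : ∀ j : ℕ, ¬ p ∣ j → ‖ζ ^ (p * j) - 1‖ = t ^ p)
    (hfac : 0 < ‖((p * q - 1).factorial : K)‖)
    (m' r : ℕ) (hr : m' + (r + 1) = n) (e : Fin m' → ℕ)
    (δ : ℕ) 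
    (W w : ℕ) (hW : (Finset.univ.filter (fun i => p ∣ e i)).card = W)
    (hw : 1 ≤ w) (hwr : w + r ≤ q) (l : Fin r → ℕ) (hl : r < ∑ k, l k) :
      ‖perT (Fin.append (fun b a => rho (ζ ^ a) (e b)) (fun k => fdRow ζ p δ (l k)) : Fin (m' + r) → ℕ → K)‖ <
      ‖((p * q - 1).factorial : K)‖ * t ^ ((p - 1) * (W + r) + 2 * (q - (w + r))) := by
  have hq1 : 1 ≤ q := by omega
  have hpq : 1 ≤ p * q := Nat.mul_pos hp.pos hq1
  have hmm : m' + r = p * q - 1 + q := by omega
  have inst := rowOK_inst (K := K) p q hp hq hpn ζ hζ t h1 h2 ht0 ht1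
  have hle := perT_le (K := K) p q (m' + r) hp hq hpn ζ hζ t ht0 ht1 htp h1 hmm
    (Fin.append (fun b a => rho (ζ ^ a) (e b)) (fun k => fdRow ζ p δ (l k)))
    (Fin.append (fun b => if p ∣ e b then 0 else (e b : K)) (fun k => if l k = 0 then (δ : K) else 0))
    (Fin.append (fun b => if p ∣ e b then 1 else 0) l)
    (by
      intro i
      refine Fin.addCases (fun b => ?_) (fun k => ?_) i
      · simp only [Fin.append_left]
        by_cases hb : p ∣ e b
        · rw [if_pos hb, if_pos hb]
          obtain ⟨M, hM⟩ := hb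
          have := inst.2.1 M 1 (by simp)
          simp only [one_mul] at this
          rw [hM]
          exact this
        · rw [if_neg hb, if_neg hb]
          exact inst.1 (e b)
      · simp only [Fin.append_right]
        by_cases hk : l k = 0
        · rw [if_pos hk, hk, z24_fdRow_zero]
          exact inst.1 δ
        · rw [if_neg hk]
          exact inst.2.2.2 δ (l k) (by omega))
    (W + ∑ k, l k)
    (by
      rw [Fin.sum_univ_add]
      simp only [Fin.append_left, Fin.append_right]
      rw [← hW, Finset.card_filter])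
  refine lt_of_le_of_lt hle ?_
  apply mul_lt_mul_of_pos_left _ hfac
  apply pow_lt_pow_right_of_lt_one₀ ht0 ht1
  have h3 : (p - 1) * (W + r) + (p - 1) ≤ (p - 1) * (W + ∑ k, l k) := by
    have : (p - 1) * (W + r) + (p - 1) = (p - 1) * (W + r + 1) := by ring
    rw [this]
    exact Nat.mul_le_mul_left _ (by omega)
  omega

theorem class_argument {K : Type*} [NormedField K] [IsUltrametricDist K] (p q n : ℕ) (hp : p.Prime)
    (hq : p = 2 * q + 1) (h5 : 5 ≤ p) (hn : n = p * q + q) (hpn : ‖(p : K)‖ = (p : ℝ)⁻¹) (ζ : K)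
    (hζ : IsPrimitiveRoot ζ (p ^ 2)) (L : Multiset ℕ) (hL : ∀ x ∈ L, 1 ≤ x ∧ x ≤ n)
    (hnot : ¬ Realizable n L) (m' r : ℕ) (hr : m' + (r + 1) = n) (e : Fin m' → ℕ) (v : ℕ → ℕ)
    (hlab : Multiset.map e (Finset.univ : Finset (Fin m')).val + Multiset.map v (Multiset.range (r + 1)) = L)
    (δ : ℕ) (hδ : 1 ≤ δ ∧ δ ≤ q) (hcl : ∀ i, i ≤ r → (v i % p = δ ∨ v i % p + δ = p))
    (hmono : ∀ i j, i ≤ j → j ≤ r → cval p q (v i) ≤ cval p q (v j))
    (W j w : ℕ) (hW : (Finset.univ.filter (fun i => p ∣ e i)).card = W) (hWj : W = j * p + w) (hj : j + 1 ≤ q)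
    (hw : 1 ≤ w) (hwr : w + r ≤ q) :
    (∏ i ∈ Finset.univ.filter (fun i => ¬ p ∣ e i), (Polynomial.C (e i : ZMod p) +
        Polynomial.C (((e i + 1).choose 3 : ℕ) : ZMod p) * Polynomial.X)).coeff (q - (w + r)) = 0 := by
  have : CharZero K := z24_charZero p hp hpn
  have hq1 : 1 ≤ q := by omega
  have hpq : 1 ≤ p * q := Nat.mul_pos hp.pos hq1
  have h2n : 2 * n + 1 = p ^ 2 := by
    rw [hn, hq]; ring
  have hm1 : m' + r + 1 = n := by omega
  obtain ⟨t, ht0, ht1, htp, h1, h2⟩ := cyc_norms (K := K) p hp hpn ζ hζ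
  have hfac : 0 < ‖((p * q - 1).factorial : K)‖ :=
    norm_pos_iff.2 (Nat.cast_ne_zero.2 (Nat.factorial_ne_zero _))
  have hV0 : 0 < ‖((p * q - 1).factorial : K)‖ * t ^ ((p - 1) * (W + r) + 2 * (q - (w + r))) :=
    mul_pos hfac (pow_pos ht0 _)
  have he : ∀ b, 1 ≤ e b ∧ e b ≤ n := by
    intro b
    apply hL
    rw [← hlab, Multiset.mem_add]
    left
    exact Multiset.mem_map.2 ⟨b, Finset.mem_univ_val b, rfl⟩
  have hv : ∀ i, i ≤ r → 1 ≤ v i ∧ v i ≤ n := by
    intro i hi
    apply hL
    rw [← hlab, Multiset.mem_add]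
    right
    exact Multiset.mem_map.2 ⟨i, Multiset.mem_range.2 (by omega), rfl⟩
  by_contra hcoef
  -- the functional
  let A : MvPolynomial (Fin (m' + r)) K := ∏ b, linF (m' + r) (fun a => rho (ζ ^ a) (e b))
  let Ψ : MvPolynomial (Fin (m' + r)) K →ₗ[K] K :=
    { toFun := fun P => MvPolynomial.coeff (Finsupp.equivFunOnFinite.symm (fun _ => 1)) (A * P)
      map_add' := by intro x y; rw [mul_add, MvPolynomial.coeff_add]
      map_smul' := by intro c x; rw [mul_smul_comm, MvPolynomial.coeff_smul]; rfl }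
  have hΨ : ∀ P, Ψ P = MvPolynomial.coeff (Finsupp.equivFunOnFinite.symm (fun _ => 1)) (A * P) := fun P => rfl
  have hΨF : ∀ l : Fin r → ℕ, Ψ (∏ k, linF (m' + r) (fdRow ζ p δ (l k))) =
      perT (Fin.append (fun b a => rho (ζ ^ a) (e b)) (fun k => fdRow ζ p δ (l k)) : Fin (m' + r) → ℕ → K) := by
    intro l
    rw [hΨ, z24_psi]
  have hone : Ψ ((linF (m' + r) (fdRow ζ p δ 1)) ^ r) =
      perT (Fin.append (fun b a => rho (ζ ^ a) (e b)) (fun k : Fin r => fdRow ζ p δ ((fun _ => 1) k)) :
        Fin (m' + r) → ℕ → K) := by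
    rw [← hΨF (fun _ => 1)]
    simp
  have hval : ‖Ψ ((linF (m' + r) (fdRow ζ p δ 1)) ^ r)‖ =
      ‖((p * q - 1).factorial : K)‖ * t ^ ((p - 1) * (W + r) + 2 * (q - (w + r))) := by
    rw [hone]
    exact (z24_caseA p q n hp hq h5 hn hpn ζ hζ t ht0 ht1 htp h1 h2 m' r hr e he δ hδ W j w hW hWj hj hw hwr
      (fun _ => 1) (by simp)).2 (by simp) hcoef
  have hlr : ∀ b, b ≤ r → cval p q (v b) < p ∧ (∃ ε : K, (ε = 1 ∨ ε = -1) ∧ ∀ a : ℕ, 1 ≤ a → a ≤ n →
      rho (ζ ^ a) (v b) = ε * ∑ l ∈ Finset.range p, ((cval p q (v b)).choose l : K) * fdRow ζ p δ l a) ∧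
      (∀ x' : ℕ, 1 ≤ x' → x' ≤ n → (x' % p = δ ∨ x' % p + δ = p) → cval p q x' = cval p q (v b) → x' = v b) :=
    fun b hb => label_row p q n hp hq hn ζ hζ (v b) δ (hv b hb) hδ (hcl b hb)
  have hlt : ‖Ψ ((linF (m' + r) (fdRow ζ p δ 1)) ^ r)‖ <
      ‖((p * q - 1).factorial : K)‖ * t ^ ((p - 1) * (W + r) + 2 * (q - (w + r))) := by
    apply theta_bound (K := K) p hp hpn (fun i => cval p q (v i)) (fun l => linF (m' + r) (fdRow ζ p δ l)) r
      hmono Ψ _ _ hV0
    · -- hF
      intro l _ hrl hnot1
      rw [hΨF l]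
      rcases Nat.eq_or_lt_of_le hrl with heq | hlt
      · have hcard : ((Finset.univ : Finset (Fin r)).filter (fun k => 1 ≤ l k)).card < r := by
          by_contra hge
          have hle : ((Finset.univ : Finset (Fin r)).filter (fun k => 1 ≤ l k)).card ≤ r :=
            (Finset.card_le_univ _).trans (by simp)
          have h3 : ((Finset.univ : Finset (Fin r)).filter (fun k => 1 ≤ l k)) = Finset.univ := by
            apply Finset.eq_univ_of_card
            rw [Fintype.card_fin]; omega
          have hall : ∀ k : Fin r, 1 ≤ l k := by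
            intro k
            have : k ∈ ((Finset.univ : Finset (Fin r)).filter (fun k => 1 ≤ l k)) := by rw [h3]; simp
            simpa using this
          apply hnot1
          have h4 : ∑ k : Fin r, (1 : ℕ) = ∑ k, l k := by simp [← heq]
          have h5 := (Finset.sum_eq_sum_iff_of_le (fun k _ => hall k)).1 h4
          intro k
          exact (h5 k (Finset.mem_univ k)).symm
        exact (z24_caseA p q n hp hq h5 hn hpn ζ hζ t ht0 ht1 htp h1 h2 m' r hr e he δ hδ W j w hW hWj hj hw hwr
          l heq.symm).1 hcard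
      · exact z24_caseB p q n hp hq hn hpn ζ hζ t ht0 ht1 htp h1 h2 hfac m' r hr e δ W w hW hw hwr l hlt
    · -- hVP
      intro a ha P
      obtain ⟨S, hS⟩ : ∃ S : Finset ℕ, S = (Finset.range (r + 1)).filter
        (fun b => cval p q (v b) ≠ cval p q (v a)) := ⟨_, rfl⟩
      have hSle : ∀ b ∈ S, b ≤ r := by
        intro b hb
        rw [hS, Finset.mem_filter, Finset.mem_range] at hb
        omega
      choose! ε hε using fun b (hb : b ≤ r) => (hlr b hb).2.1
      have hprod : (∏ b ∈ S, ∑ l ∈ Finset.range p,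
          ((cval p q (v b)).choose l : K) • linF (m' + r) (fdRow ζ p δ l)) =
          (∏ b ∈ S, ε b) • ∏ b ∈ S, linF (m' + r) (fun y => rho (ζ ^ y) (v b)) := by
        rw [← Finset.prod_smul]
        apply Finset.prod_congr rfl
        intro b hb
        exact z24_linF_label (m' + r) n p δ hm1 ζ (v b) (cval p q (v b)) (ε b) (hε b (hSle b hb)).1
          (hε b (hSle b hb)).2
      have hgoal : Ψ ((∏ b ∈ S, ∑ l ∈ Finset.range p,
          ((cval p q (v b)).choose l : K) • linF (m' + r) (fdRow ζ p δ l)) * P) = 0 := by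
        rw [hprod, smul_mul_assoc, map_smul, hΨ]
        have hlen : S.toList.length = S.card := Finset.length_toList S
        have hva : ¬ p ∣ v a := by
          intro hd
          have h3 := Nat.mod_eq_zero_of_dvd hd
          have h4 := hcl a ha
          omega
        obtain ⟨ν, hν⟩ : ∃ ν, ν = ((Finset.range (r + 1)).filter
          (fun b => cval p q (v b) = cval p q (v a))).card := ⟨_, rfl⟩
        have hνS : S.card + ν = r + 1 := by
          have h3 := Finset.card_filter_add_card_filter_not (s := Finset.range (r + 1))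
            (fun b => cval p q (v b) = cval p q (v a))
          rw [Finset.card_range] at h3
          have h5 : S.card = ((Finset.range (r + 1)).filter
            (fun b => ¬ cval p q (v b) = cval p q (v a))).card := by rw [hS]
          rw [h5, hν]
          omega
        have hν1 : 1 ≤ ν := by
          rw [hν]
          apply Finset.card_pos.2
          exact ⟨a, Finset.mem_filter.2 ⟨Finset.mem_range.2 (by omega), rfl⟩⟩
        have hvS : Multiset.map v (Multiset.range (r + 1)) =
            Multiset.map v S.val + Multiset.replicate ν (v a) := by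
          have h3 : Multiset.range (r + 1) = S.val + ((Finset.range (r + 1)).filter
              (fun b => cval p q (v b) = cval p q (v a))).val := by
            rw [hS, Finset.filter_val, Finset.filter_val, Finset.range_val]
            exact (Multiset.filter_add_not (fun b => cval p q (v b) = cval p q (v a)) _).symm.trans
              (add_comm _ _)
          rw [h3, Multiset.map_add]
          congr 1
          rw [Multiset.eq_replicate]
          constructor
          · rw [Multiset.card_map, hν]; rfl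
          · intro x hx
            rw [Multiset.mem_map] at hx
            obtain ⟨b, hb, rfl⟩ := hx
            rw [Finset.mem_val, Finset.mem_filter, Finset.mem_range] at hb
            exact (hlr a ha).2.2 (v b) (hv b (by omega)).1 (hv b (by omega)).2 (hcl b (by omega)) hb.2
        have hex := ex_vanish (K := K) n (m' + r) (m' + S.toList.length) ν (by omega) hν1 hm1 ζ
          (by rw [h2n]; exact hζ) (v a)
          (by rw [h2n]; exact Nat.Coprime.pow_right 2 ((Nat.Prime.coprime_iff_not_dvd hp).2 hva).symm)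
          (Fin.append e (fun i : Fin S.toList.length => v (S.toList.get i))) L hL
          (by
            rw [Fin.univ_val_map, List.ofFn_fin_append, ← Multiset.coe_add, ← Fin.univ_val_map]
            rw [← hlab, hvS, add_assoc]
            congr 2
            have h3 : List.ofFn (fun i : Fin S.toList.length => v (S.toList.get i)) = S.toList.map v := by
              have : (fun i : Fin S.toList.length => v (S.toList.get i)) = v ∘ S.toList.get := rfl
              rw [this, ← List.map_ofFn, List.ofFn_get]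
            rw [h3, ← Multiset.map_coe, Finset.coe_toList])
          hnot P
        have hprod2 : (∏ b : Fin (m' + S.toList.length), linF (m' + r)
            (fun a => rho (ζ ^ a) ((Fin.append e (fun i : Fin S.toList.length => v (S.toList.get i))) b))) =
            A * ∏ b ∈ S, linF (m' + r) (fun y => rho (ζ ^ y) (v b)) := by
          rw [Fin.prod_univ_add]
          simp only [Fin.append_left, Fin.append_right]
          congr 1
          rw [← Finset.prod_map_toList S (fun b => linF (m' + r) (fun y => rho (ζ ^ y) (v b))),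
            ← List.prod_ofFn]
          congr 1
          have : (fun i : Fin S.toList.length => linF (m' + r) (fun a => rho (ζ ^ a) (v (S.toList.get i)))) =
            (fun b => linF (m' + r) (fun y => rho (ζ ^ y) (v b))) ∘ S.toList.get := rfl
          rw [this, ← List.map_ofFn, List.ofFn_get]
        rw [hprod2, mul_assoc] at hex
        rw [hex, smul_zero]
      rw [hS] at hgoal
      exact hgoal
  exact absurd hval (ne_of_lt hlt)


end Pool.Agent.Helper805_nf
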