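import Mathlib
import Pool.Agent.Helper805_nf.Defs4
import Pool.Agent.Helper805_nf.Y18

set_option autoImplicit false

namespace Pool.Agent.Helper805_nf

open Finset



theorem z25_coprime {F : Type*} [Field F] {s s' : F} (h : s ≠ s') :
    IsCoprime (Polynomial.X + Polynomial.C s) (Polynomial.X + Polynomial.C s') := by
  refine ⟨Polynomial.C ((s - s')⁻¹), -Polynomial.C ((s - s')⁻¹), ?_⟩
  have h1 : s - s' ≠ 0 := sub_ne_zero.2 h
  have h2 : Polynomial.C ((s - s')⁻¹) * (Polynomial.X + Polynomial.C s) +
      -Polynomial.C ((s - s')⁻¹) * (Polynomial.X + Polynomial.C s') =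
      Polynomial.C ((s - s')⁻¹ * (s - s')) := by
    simp only [Polynomial.C_mul, Polynomial.C_sub]
    ring
  rw [h2, inv_mul_cancel₀ h1, Polynomial.C_1]

theorem z25_deg {F : Type*} [Field F] (U : Multiset ℕ) (g : ℕ → F) :
    ((U.map (fun x : ℕ => (Polynomial.X + Polynomial.C (g x)))).prod).Monic ∧
    ((U.map (fun x : ℕ => (Polynomial.X + Polynomial.C (g x)))).prod).natDegree = Multiset.card U := by
  induction U using Multiset.induction_on with
  | empty => simp
  | cons a U ih =>
    rw [Multiset.map_cons, Multiset.prod_cons]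
    refine ⟨(Polynomial.monic_X_add_C _).mul ih.1, ?_⟩
    rw [(Polynomial.monic_X_add_C _).natDegree_mul ih.1, Polynomial.natDegree_X_add_C, ih.2,
      Multiset.card_cons, add_comm]

theorem exists_removal2 (p t : ℕ) (hp : p.Prime) (U : Multiset ℕ) (hc : t < Multiset.card U) :
    ∃ d ∈ U, ∃ r, 1 ≤ r ∧ r ≤ t + 1 ∧
      r ≤ Multiset.card (U.filter (fun x : ℕ => (x : ZMod p) ^ 2 = (d : ZMod p) ^ 2)) ∧
      ∀ V : Multiset ℕ, V ≤ U.filter (fun x : ℕ => (x : ZMod p) ^ 2 = (d : ZMod p) ^ 2) →
        Multiset.card V = r →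
        (((U - V).map
          (fun x : ℕ => (Polynomial.X + Polynomial.C ((x : ZMod p) ^ 2)))).prod).coeff
            (Multiset.card U - t - 1) ≠ 0 := by
  haveI : Fact p.Prime := ⟨hp⟩
  classical
  by_contra hcon
  push Not at hcon
  set sq : ℕ → ZMod p := fun x => (x : ZMod p) ^ 2 with hsq
  set L : ℕ → Polynomial (ZMod p) := fun x => Polynomial.X + Polynomial.C (sq x) with hL
  set Φ := (U.map L).prod with hΦ
  have hΦm : Φ.Monic := (z25_deg U sq).1
  have hΦd : Φ.natDegree = Multiset.card U := (z25_deg U sq).2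
  set M := Multiset.card U - t with hM
  have hM1 : 1 ≤ M := by omega
  have hXM : (Polynomial.X ^ M : Polynomial (ZMod p)).Monic := Polynomial.monic_X_pow M
  set T := Φ /ₘ (Polynomial.X ^ M : Polynomial (ZMod p)) with hT
  have hTd : T.natDegree = t := by
    rw [hT, Polynomial.natDegree_divByMonic _ hXM, hΦd, Polynomial.natDegree_X_pow]
    omega
  have hT0 : T ≠ 0 := by
    intro h0
    rw [hT, Polynomial.divByMonic_eq_zero_iff hXM] at h0
    have := Polynomial.natDegree_lt_natDegree hΦm.ne_zero h0
    rw [hΦd, Polynomial.natDegree_X_pow] at this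
    omega
  have key : ∀ d ∈ U, (Polynomial.X + Polynomial.C (sq d)) ^
      (min (t + 1) (Multiset.card (U.filter (fun x : ℕ => sq x = sq d)))) ∣ T := by
    intro d hd
    set cl := U.filter (fun x : ℕ => sq x = sq d) with hcl
    set co := U.filter (fun x : ℕ => ¬ sq x = sq d) with hco
    have hU : cl + co = U := Multiset.filter_add_not _ _
    have hclL : ∀ V : Multiset ℕ, V ≤ cl →
        (V.map L).prod = (Polynomial.X + Polynomial.C (sq d)) ^ Multiset.card V := by
      intro V hV
      have h1 : V.map L = V.map (fun _ => Polynomial.X + Polynomial.C (sq d)) := by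
        apply Multiset.map_congr rfl
        intro x hx
        have h2 := Multiset.mem_of_le hV hx
        rw [hcl, Multiset.mem_filter] at h2
        simp only [hL, h2.2]
      rw [h1, Multiset.map_const', Multiset.prod_replicate]
    set μ := min (t + 1) (Multiset.card cl) with hμ
    have hμ1 : μ ≤ Multiset.card cl := min_le_right _ _
    have hμ2 : μ ≤ t + 1 := min_le_left _ _
    set Ψ0 := (co.map L).prod with hΨ0
    have hΦ2 : Φ = (Polynomial.X + Polynomial.C (sq d)) ^ Multiset.card cl * Ψ0 := by
      rw [hΦ, ← hU, Multiset.map_add, Multiset.prod_add, hclL cl le_rfl]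
    have h3 := top_div M μ hM1 (sq d) ((Polynomial.X + Polynomial.C (sq d)) ^ (Multiset.card cl - μ) * Ψ0) ?_
    · rw [← mul_assoc, ← pow_add, Nat.add_sub_cancel' hμ1, ← hΦ2] at h3
      exact h3
    · intro r hr1 hr2
      obtain ⟨V, hV1, hV2, hV3⟩ := hcon d hd r hr1 (hr2.trans hμ2) (hr2.trans hμ1)
      rw [← mul_assoc, ← pow_add]
      have h4 : μ - r + (Multiset.card cl - μ) = Multiset.card cl - r := by omega
      rw [h4]
      have h5 : U - V = (cl - V) + co := by
        rw [← hU]
        exact (tsub_add_eq_add_tsub hV1).symm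
      have h6 : ((U - V).map (fun x : ℕ => (Polynomial.X + Polynomial.C ((x : ZMod p) ^ 2)))).prod =
          (Polynomial.X + Polynomial.C (sq d)) ^ (Multiset.card cl - r) * Ψ0 := by
        have h7 : ((U - V).map L).prod =
          (Polynomial.X + Polynomial.C (sq d)) ^ (Multiset.card cl - r) * Ψ0 := by
          rw [h5, Multiset.map_add, Multiset.prod_add, hclL (cl - V) (tsub_le_self),
            Multiset.card_sub hV1, hV2]
        exact h7
      rw [h6] at hV3
      exact hV3
  have hsmall : ∀ d ∈ U, (Polynomial.X + Polynomial.C (sq d)) ^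
      (Multiset.card (U.filter (fun x : ℕ => sq x = sq d))) ∣ T := by
    intro d hd
    have h1 := key d hd
    rcases le_or_gt (t + 1) (Multiset.card (U.filter (fun x : ℕ => sq x = sq d))) with h2 | h2
    · exfalso
      rw [min_eq_left h2] at h1
      have h3 := Polynomial.natDegree_le_of_dvd h1 hT0
      rw [(Polynomial.monic_X_add_C (sq d)).natDegree_pow, Polynomial.natDegree_X_add_C, hTd] at h3
      omega
    · rwa [min_eq_right h2.le] at h1
  have hΦ3 : Φ = ∏ s ∈ (U.map sq).toFinset, (Polynomial.X + Polynomial.C s) ^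
      (Multiset.count s (U.map sq)) := by
    rw [← Finset.prod_multiset_map_count, Multiset.map_map]
    rfl
  have hdvd : Φ ∣ T := by
    rw [hΦ3]
    apply Finset.prod_dvd_of_coprime
    · intro s _ s' _ hne
      exact (z25_coprime hne).pow
    · intro s hs
      rw [Multiset.mem_toFinset, Multiset.mem_map] at hs
      obtain ⟨d, hd, rfl⟩ := hs
      have h1 := hsmall d hd
      rw [Multiset.count_map]
      have h2 : U.filter (fun a => sq d = sq a) = U.filter (fun x => sq x = sq d) := by
        apply Multiset.filter_congr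
        intro x _
        exact eq_comm
      rw [h2]
      exact h1
  have h8 := Polynomial.natDegree_le_of_dvd hdvd hT0
  rw [hΦd, hTd] at h8
  omega


end Pool.Agent.Helper805_nf
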