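import Mathlib
import Pool.Agent.Helper805_nf.Defs4

set_option autoImplicit false

namespace Pool.Agent.Helper805_nf

open Finset



theorem z26_choose (p : ℕ) (x : ℕ) : (6 : ZMod p) * (((x + 1).choose 3 : ℕ) : ZMod p) = (x : ZMod p) * ((x : ZMod p) ^ 2 - 1) := by
  have h : (x + 1).descFactorial 3 = Nat.factorial 3 * (x + 1).choose 3 :=
    Nat.descFactorial_eq_factorial_mul_choose _ _
  have h2 : ((x + 1).descFactorial 3 : ZMod p) = (x : ZMod p) * ((x : ZMod p) ^ 2 - 1) := by
    cases x with
    | zero => simp [Nat.descFactorial]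
    | succ y =>
      simp only [Nat.descFactorial, Nat.cast_mul, Nat.cast_add, Nat.cast_one, Nat.sub_zero,
        Nat.add_sub_cancel]
      have e1 : y + 1 + 1 - 2 = y := by omega
      rw [e1]
      push_cast
      ring
  rw [← h2, h]
  push_cast [Nat.factorial]
  ring

theorem z26_binom (p N i : ℕ) (hp : p.Prime) (hN : 1 ≤ N) (hi : 1 ≤ i) (hip : i < p) :
    p ∣ (i + (p * N - 1)).choose (p * N - 1) := by
  have hpN : 1 ≤ p * N := Nat.mul_pos hp.pos hN
  obtain ⟨k, rfl⟩ : ∃ k, i = k + 1 := ⟨i - 1, by omega⟩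
  have h1 : (k + 1 + (p * N - 1)).choose (p * N - 1) = (k + 1 + (p * N - 1)).choose (k + 1) := by
    rw [Nat.choose_symm_add]
  rw [h1]
  have h2 := Nat.choose_succ_right_eq (k + 1 + (p * N - 1)) k
  have h3 : k + 1 + (p * N - 1) - k = p * N := by omega
  rw [h3] at h2
  have h4 : p ∣ (k + 1 + (p * N - 1)).choose (k + 1) * (k + 1) := by
    rw [h2]; exact Dvd.dvd.mul_left (Dvd.intro _ rfl) _
  rcases (Nat.Prime.dvd_mul hp).1 h4 with h5 | h5
  · exact h5
  · exact absurd (Nat.le_of_dvd (by omega) h5) (by omega)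

open Polynomial in
theorem z26_natDegree {F : Type*} [Field F] (f : ℕ → F) (V : Multiset ℕ) :
    ((V.map (fun x : ℕ => (X + C (f x)))).prod).natDegree = Multiset.card V := by
  induction V using Multiset.induction_on with
  | empty => simp
  | cons a s ih =>
    rw [Multiset.map_cons, Multiset.prod_cons, natDegree_mul, ih, natDegree_X_add_C,
      Multiset.card_cons, add_comm]
    · exact X_add_C_ne_zero _
    · intro h0
      rw [Multiset.prod_eq_zero_iff, Multiset.mem_map] at h0
      obtain ⟨x, _, hx⟩ := h0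
      exact X_add_C_ne_zero _ hx

open Polynomial in
theorem z26_comp {F : Type*} [Field F] (f : ℕ → F) (V : Multiset ℕ) :
    (V.map (fun x : ℕ => (X + C (f x - 1)))).prod = taylor (-1 : F) ((V.map (fun x : ℕ => (X + C (f x)))).prod) := by
  induction V using Multiset.induction_on with
  | empty => simp
  | cons a s ih =>
    rw [Multiset.map_cons, Multiset.prod_cons, Multiset.map_cons, Multiset.prod_cons, taylor_mul, ih]
    congr 1
    simp [taylor_apply]
    ring

open Polynomial in
theorem z26_reflect {F : Type*} [Field F] (w : ℕ → F) (c : F) (V : Multiset ℕ) (b : ℕ) (hb : b ≤ Multiset.card V) :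
    ((V.map (fun x : ℕ => (C c + C (w x) * X))).prod).coeff b =
      c ^ (Multiset.card V - b) * ((V.map (fun x : ℕ => (X + C (w x)))).prod).coeff (Multiset.card V - b) := by
  induction V using Multiset.induction_on generalizing b with
  | empty => simp at hb; subst hb; simp
  | cons a s ih =>
    rw [Multiset.map_cons, Multiset.prod_cons, Multiset.map_cons, Multiset.prod_cons, Multiset.card_cons]
    rw [Multiset.card_cons] at hb
    rw [add_mul, add_mul, coeff_add, coeff_add, coeff_C_mul, coeff_C_mul, mul_assoc, coeff_C_mul]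
    have hdeg : ((s.map (fun x : ℕ => (C c + C (w x) * X))).prod).natDegree ≤ Multiset.card s := by
      have := natDegree_multiset_prod_le (s.map (fun x : ℕ => (C c + C (w x) * X)))
      refine this.trans ?_
      rw [Multiset.map_map]
      have h2 : ((s.map (natDegree ∘ fun x : ℕ => (C c + C (w x) * X))).sum) ≤ Multiset.card (s.map (natDegree ∘ fun x : ℕ => (C c + C (w x) * X))) • 1 := by
        apply Multiset.sum_le_card_nsmul
        intro y hy
        rw [Multiset.mem_map] at hy
        obtain ⟨x, _, rfl⟩ := hy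
        simp only [Function.comp]
        rw [add_comm]
        exact natDegree_linear_le
      simpa using h2
    cases b with
    | zero =>
      rw [coeff_X_mul_zero, ih 0 (Nat.zero_le _)]
      have hd : ((s.map (fun x : ℕ => (X + C (w x)))).prod).natDegree = Multiset.card s := z26_natDegree w s
      have hz : ((s.map (fun x : ℕ => (X + C (w x)))).prod).coeff (Multiset.card s + 1) = 0 :=
        coeff_eq_zero_of_natDegree_lt (by rw [hd]; omega)
      simp only [Nat.sub_zero]
      rw [coeff_X_mul, hz]
      ring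
    | succ b =>
      rw [coeff_X_mul]
      have e1 : Multiset.card s + 1 - (b + 1) = Multiset.card s - b := by omega
      rw [e1, ih b (by omega)]
      by_cases hbs : b + 1 ≤ Multiset.card s
      · rw [ih (b + 1) hbs]
        obtain ⟨k, hk⟩ : ∃ k, Multiset.card s - b = k + 1 := ⟨Multiset.card s - b - 1, by omega⟩
        have e2 : Multiset.card s - (b + 1) = k := by omega
        rw [hk, e2, coeff_X_mul]
        ring
      · have e3 : Multiset.card s - b = 0 := by omega
        rw [e3, coeff_X_mul_zero, coeff_eq_zero_of_natDegree_lt (by omega)]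
        ring

open Polynomial in
theorem z26_scale (p : ℕ) (V : Multiset ℕ) :
    C ((6 : ZMod p) ^ Multiset.card V) * ((V.map (fun x : ℕ => (C (x : ZMod p) +
      C (((x + 1).choose 3 : ℕ) : ZMod p) * X))).prod) =
    C ((V.map (fun x : ℕ => (x : ZMod p))).prod) *
      (V.map (fun x : ℕ => (C (6 : ZMod p) + C ((x : ZMod p) ^ 2 - 1) * X))).prod := by
  induction V using Multiset.induction_on with
  | empty => simp
  | cons a s ih =>
    rw [Multiset.map_cons, Multiset.prod_cons, Multiset.map_cons, Multiset.prod_cons, Multiset.map_cons,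
      Multiset.prod_cons, Multiset.card_cons, pow_succ, C_mul, C_mul]
    have h1 : C (6 : ZMod p) * (C (a : ZMod p) + C (((a + 1).choose 3 : ℕ) : ZMod p) * X) =
        C (a : ZMod p) * (C (6 : ZMod p) + C ((a : ZMod p) ^ 2 - 1) * X) := by
      have h2 := z26_choose p a
      have h3 : C (6 : ZMod p) * C (((a + 1).choose 3 : ℕ) : ZMod p) = C (a : ZMod p) * C ((a : ZMod p) ^ 2 - 1) := by
        rw [← C_mul, ← C_mul, h2]
      linear_combination X * h3
    calc C ((6 : ZMod p) ^ Multiset.card s) * C 6 * ((C (a : ZMod p) + C (((a + 1).choose 3 : ℕ) : ZMod p) * X) *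
          (s.map (fun x : ℕ => (C (x : ZMod p) + C (((x + 1).choose 3 : ℕ) : ZMod p) * X))).prod)
        = (C (6 : ZMod p) * (C (a : ZMod p) + C (((a + 1).choose 3 : ℕ) : ZMod p) * X)) *
          (C ((6 : ZMod p) ^ Multiset.card s) *
            (s.map (fun x : ℕ => (C (x : ZMod p) + C (((x + 1).choose 3 : ℕ) : ZMod p) * X))).prod) := by ring
      _ = _ := by rw [h1, ih]; ring

theorem coeff_convert2 (p N b : ℕ) (hp : p.Prime) (hp3 : 3 < p) (hN : 1 ≤ N) (hb : b < p)
    (V : Multiset ℕ) (hV : ∀ x ∈ V, ¬ p ∣ x) (hc : Multiset.card V = p * N - 1 + b)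
    (h : ((V.map (fun x : ℕ => (Polynomial.X + Polynomial.C ((x : ZMod p) ^ 2)))).prod).coeff (p * N - 1) ≠ 0) :
    ((V.map (fun x : ℕ => (Polynomial.C (x : ZMod p) +
      Polynomial.C (((x + 1).choose 3 : ℕ) : ZMod p) * Polynomial.X))).prod).coeff b ≠ 0 := by
  haveI : Fact p.Prime := ⟨hp⟩
  have h6 : (6 : ZMod p) ≠ 0 := by
    intro h0
    have h1 : ((6 : ℕ) : ZMod p) = 0 := by exact_mod_cast h0
    rw [ZMod.natCast_eq_zero_iff] at h1
    have h2 : p ∣ 2 * 3 := h1
    rcases (Nat.Prime.dvd_mul hp).1 h2 with h3 | h3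
    · exact absurd (Nat.le_of_dvd (by norm_num) h3) (by omega)
    · exact absurd (Nat.le_of_dvd (by norm_num) h3) (by omega)
  have hprod : ((V.map (fun x : ℕ => (x : ZMod p))).prod) ≠ 0 := by
    intro h0
    rw [Multiset.prod_eq_zero_iff, Multiset.mem_map] at h0
    obtain ⟨x, hx, hx0⟩ := h0
    exact hV x hx ((ZMod.natCast_eq_zero_iff x p).1 hx0)
  have hbV : b ≤ Multiset.card V := by omega
  have hcb : Multiset.card V - b = p * N - 1 := by omega
  -- the value of the coefficient
  have key : ((V.map (fun x : ℕ => (Polynomial.X + Polynomial.C ((x : ZMod p) ^ 2 - 1)))).prod).coeff (p * N - 1) =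
      ((V.map (fun x : ℕ => (Polynomial.X + Polynomial.C ((x : ZMod p) ^ 2)))).prod).coeff (p * N - 1) := by
    rw [z26_comp (fun x : ℕ => (x : ZMod p) ^ 2) V, Polynomial.taylor_coeff]
    have hh : (Polynomial.hasseDeriv (p * N - 1))
        ((V.map (fun x : ℕ => (Polynomial.X + Polynomial.C ((x : ZMod p) ^ 2)))).prod) =
        Polynomial.C (((V.map (fun x : ℕ => (Polynomial.X + Polynomial.C ((x : ZMod p) ^ 2)))).prod).coeff (p * N - 1)) := by
      ext i
      rw [Polynomial.hasseDeriv_coeff, Polynomial.coeff_C]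
      by_cases hi : i = 0
      · subst hi; simp
      · rw [if_neg hi]
        by_cases hib : i ≤ b
        · have := z26_binom p N i hp hN (by omega) (by omega)
          rw [(ZMod.natCast_eq_zero_iff _ p).2 this, zero_mul]
        · rw [Polynomial.coeff_eq_zero_of_natDegree_lt, mul_zero]
          rw [z26_natDegree (fun x : ℕ => (x : ZMod p) ^ 2) V]
          omega
    rw [hh, Polynomial.eval_C]
  intro h0
  have hs := z26_scale p V
  have hs2 := congrArg (fun P => Polynomial.coeff P b) hs
  simp only [Polynomial.coeff_C_mul] at hs2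
  rw [h0, mul_zero, z26_reflect (fun x : ℕ => (x : ZMod p) ^ 2 - 1) 6 V b hbV, hcb, key] at hs2
  have := mul_ne_zero hprod (mul_ne_zero (pow_ne_zero (p * N - 1) h6) h)
  exact this hs2.symm


end Pool.Agent.Helper805_nf
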