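import Mathlib
import Pool.Agent.Helper805_nf.Defs4
import Pool.Agent.Helper805_nf.Y1
import Pool.Agent.Helper805_nf.Y2
import Pool.Agent.Helper805_nf.Z23
import Pool.Agent.Helper805_nf.Z24
import Pool.Agent.Helper805_nf.Z25
import Pool.Agent.Helper805_nf.Z26

set_option autoImplicit false

namespace Pool.Agent.Helper805_nf

open Finset












theorem z27a_norm (p : ℕ) [Fact p.Prime] : ‖(p : PadicAlgCl p)‖ = (p : ℝ)⁻¹ := by
  have h := PadicAlgCl.norm_extends p (p : ℚ_[p])
  rw [Padic.norm_p] at h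
  rw [← h]
  simp

theorem z27a_root (p : ℕ) [hp : Fact p.Prime] : ∃ ζ : PadicAlgCl p, IsPrimitiveRoot ζ (p ^ 2) := by
  have h0 : ((p ^ 2 : ℕ) : PadicAlgCl p) ≠ 0 := by
    exact_mod_cast pow_ne_zero 2 hp.out.ne_zero
  have : NeZero ((p ^ 2 : ℕ) : PadicAlgCl p) := ⟨h0⟩
  have hpos : 0 < p ^ 2 := pow_pos hp.out.pos 2
  obtain ⟨ζ, hζ⟩ := IsAlgClosed.exists_root (Polynomial.cyclotomic (p ^ 2) (PadicAlgCl p))
    (by
      rw [Polynomial.degree_cyclotomic]
      exact_mod_cast (Nat.totient_pos.2 hpos).ne')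
  exact ⟨ζ, Polynomial.isRoot_cyclotomic_iff.1 hζ⟩

/-- sorting a multiset by a function -/
theorem z27a_sort (c : ℕ → ℕ) (V : Multiset ℕ) (r : ℕ) (hV : Multiset.card V = r + 1) :
    ∃ v : ℕ → ℕ, Multiset.map v (Multiset.range (r + 1)) = V ∧
      ∀ i j, i ≤ j → j ≤ r → c (v i) ≤ c (v j) := by
  classical
  let R : ℕ → ℕ → Prop := fun x y => c x ≤ c y
  have hT : Std.Total R := ⟨fun a b => le_total (c a) (c b)⟩
  have hTr : IsTrans ℕ R := ⟨fun a b d h1 h2 => le_trans h1 h2⟩
  let l := V.toList.insertionSort R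
  have hlV : (l : Multiset ℕ) = V := by
    rw [Multiset.coe_eq_coe.2 (List.perm_insertionSort R V.toList), Multiset.coe_toList]
  have hlen : l.length = r + 1 := by
    rw [← Multiset.coe_card, hlV, hV]
  have hp : l.Pairwise R := List.pairwise_insertionSort R _
  refine ⟨fun i => l.getD i 0, ?_, ?_⟩
  · have h1 : List.map (fun i => l.getD i 0) (List.range (r + 1)) = l := by
      apply List.ext_getElem
      · simp [hlen]
      · intro n h1 h2
        simp [h2]
    rw [← Multiset.coe_range, Multiset.map_coe, h1, hlV]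
  · intro i j hij hj
    have hi' : i < l.length := by omega
    have hj' : j < l.length := by omega
    have e1 : l.getD i 0 = l[i] := by simp [hi']
    have e2 : l.getD j 0 = l[j] := by simp [hj']
    simp only [e1, e2]
    rcases hij.lt_or_eq with h | h
    · exact List.pairwise_iff_getElem.1 hp i j hi' hj' h
    · subst h
      exact le_refl _

/-- enumerating a multiset -/
theorem z27a_enum (M : Multiset ℕ) (m : ℕ) (hM : Multiset.card M = m) :
    ∃ e : Fin m → ℕ, Multiset.map e (Finset.univ : Finset (Fin m)).val = M := by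
  subst hM
  have h1 : M.toList.length = Multiset.card M := by simp
  rw [← h1]
  refine ⟨M.toList.get, ?_⟩
  rw [Fin.univ_val_map, List.ofFn_get, Multiset.coe_toList]

/-- submultiset of given cardinality -/
theorem z27a_sub (M : Multiset ℕ) (r : ℕ) (hr : r ≤ Multiset.card M) :
    ∃ V ≤ M, Multiset.card V = r := by
  refine ⟨(M.toList.take r : List ℕ), ?_, ?_⟩
  · conv_rhs => rw [← Multiset.coe_toList M]
    exact Multiset.coe_le.2 (List.take_sublist _ _).subperm
  · rw [Multiset.coe_card, List.length_take, Multiset.length_toList]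
    omega

/-- the class of a label -/
theorem z27a_class (p q d : ℕ) (hp : p.Prime) (hq : p = 2 * q + 1) (hd : ¬ p ∣ d) :
    ∃ δ, 1 ≤ δ ∧ δ ≤ q ∧ ∀ x : ℕ, (x : ZMod p) ^ 2 = (d : ZMod p) ^ 2 →
      (x % p = δ ∨ x % p + δ = p) := by
  have : Fact p.Prime := ⟨hp⟩
  have hd0 : d % p ≠ 0 := fun h => hd (Nat.dvd_of_mod_eq_zero h)
  have hdlt : d % p < p := Nat.mod_lt _ hp.pos
  have key : ∀ x : ℕ, (x : ZMod p) ^ 2 = (d : ZMod p) ^ 2 → (x % p = d % p ∨ x % p + d % p = p) := by
    intro x hx
    have hxlt : x % p < p := Nat.mod_lt _ hp.pos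
    rcases sq_eq_sq_iff_eq_or_eq_neg.1 hx with h | h
    · left
      exact (ZMod.natCast_eq_natCast_iff' x d p).1 h
    · right
      have h1 : ((x + d : ℕ) : ZMod p) = 0 := by
        push_cast
        rw [h]
        ring
      rw [ZMod.natCast_eq_zero_iff] at h1
      have h2 : (x % p + d % p) % p = 0 := by
        rw [← Nat.add_mod]
        exact Nat.mod_eq_zero_of_dvd h1
      obtain ⟨k, hk⟩ := Nat.dvd_of_mod_eq_zero h2
      have hk1 : k = 1 := by
        rcases Nat.lt_or_ge k 1 with h3 | h3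
        · have : k = 0 := by omega
          subst this
          omega
        · rcases Nat.lt_or_ge k 2 with h4 | h4
          · omega
          · exfalso
            have : p * 2 ≤ p * k := Nat.mul_le_mul_left p h4
            omega
      subst hk1
      omega
  by_cases h : d % p ≤ q
  · exact ⟨d % p, by omega, h, key⟩
  · refine ⟨p - d % p, by omega, by omega, fun x hx => ?_⟩
    have hxlt : x % p < p := Nat.mod_lt _ hp.pos
    rcases key x hx with h1 | h1
    · right; omega
    · left; omega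

theorem case_class (p q n : ℕ) (hp : p.Prime) (hq : p = 2 * q + 1) (h5 : 5 ≤ p) (hn : n = p * q + q)
    (L : Multiset ℕ) (hcard : Multiset.card L = n) (hL : ∀ x ∈ L, 1 ≤ x ∧ x ≤ n) (j w : ℕ)
    (hW : Multiset.card (L.filter (fun x => p ∣ x)) = j * p + w) (hj : j + 1 ≤ q) (hw : 1 ≤ w) (hwq : w < q) :
    Realizable n L := by
  classical
  by_contra hnot
  have : Fact p.Prime := ⟨hp⟩
  obtain ⟨ζ, hζ⟩ := z27a_root p
  have hpn := z27a_norm p
  set U : Multiset ℕ := L.filter (fun x => ¬ p ∣ x) with hU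
  have hcU : Multiset.card U + (j * p + w) = n := by
    rw [← hcard, ← hW, hU, ← Multiset.card_add, add_comm, Multiset.filter_add_not]
  obtain ⟨N, hN⟩ : ∃ N, q = j + N := ⟨q - j, by omega⟩
  have hpN : p * q = p * j + p * N := by rw [hN]; ring
  have hpj : p * j = j * p := by ring
  have hN1 : 1 ≤ N := by omega
  have hpN1 : p ≤ p * N := Nat.le_mul_of_pos_right p hN1
  have hcU' : Multiset.card U = p * N + (q - w) := by omega
  obtain ⟨d, hdU, r0, hr1, hr2, hr3, hrem⟩ := exists_removal2 p (q - w) hp U (by omega)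
  have hdU' := hdU
  rw [hU, Multiset.mem_filter] at hdU'
  obtain ⟨δ, hδ1, hδ2, hcls⟩ := z27a_class p q d hp hq hdU'.2
  obtain ⟨V, hVle, hVc⟩ := z27a_sub _ r0 hr3
  have hVU : V ≤ U := hVle.trans (Multiset.filter_le _ _)
  have hUL : U ≤ L := Multiset.filter_le _ _
  have hVL : V ≤ L := hVU.trans hUL
  obtain ⟨r, rfl⟩ : ∃ r, r0 = r + 1 := ⟨r0 - 1, by omega⟩
  obtain ⟨v, hv, hmono⟩ := z27a_sort (cval p q) V r hVc
  have hcLV : Multiset.card (L - V) = n - (r + 1) := by
    rw [Multiset.card_sub hVL, hcard, hVc]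
  obtain ⟨e, he⟩ := z27a_enum (L - V) (n - (r + 1)) hcLV
  have hVmem : ∀ x ∈ V, (x % p = δ ∨ x % p + δ = p) := by
    intro x hx
    have := Multiset.mem_of_le hVle hx
    exact hcls x (Multiset.mem_filter.1 this).2
  have hVnd : ∀ x ∈ V, ¬ p ∣ x := fun x hx => (Multiset.mem_filter.1 (Multiset.mem_of_le hVU hx)).2
  have hfil : V.filter (fun x => p ∣ x) = 0 := by
    rw [Multiset.filter_eq_nil]
    exact hVnd
  have hfilsub : (L - V).filter (fun x => p ∣ x) = L.filter (fun x => p ∣ x) := by
    rw [Multiset.filter_sub, hfil, Multiset.sub_zero]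
  have hfilsub2 : (L - V).filter (fun x => ¬ p ∣ x) = U - V := by
    rw [Multiset.filter_sub, ← hU]
    congr 1
    exact Multiset.filter_eq_self.2 hVnd
  have hcardfil : ∀ (P : ℕ → Prop) [DecidablePred P], (Finset.univ.filter (fun i => P (e i))).card =
      Multiset.card ((L - V).filter P) := by
    intro P _
    rw [← he, Multiset.filter_map, Multiset.card_map]
    rfl
  have hprod : ∀ (P : ℕ → Prop) [DecidablePred P] (g : ℕ → Polynomial (ZMod p)),
      ∏ i ∈ Finset.univ.filter (fun i => P (e i)), g (e i) = (((L - V).filter P).map g).prod := by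
    intro P _ g
    rw [← he, Multiset.filter_map, Multiset.map_map]
    rfl
  have hcl := class_argument p q n hp hq h5 hn hpn ζ hζ L hL hnot (n - (r + 1)) r (by omega) e v
    (by rw [he, hv]; exact tsub_add_cancel_of_le hVL) δ ⟨hδ1, hδ2⟩
    (by
      intro i hi
      apply hVmem
      rw [← hv, Multiset.mem_map]
      exact ⟨i, Multiset.mem_range.2 (by omega), rfl⟩)
    hmono (j * p + w) j w (by rw [hcardfil (fun x => p ∣ x), hfilsub, hW]) rfl hj hw (by omega)
  rw [hprod (fun x => ¬ p ∣ x) (fun x => Polynomial.C (x : ZMod p) +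
    Polynomial.C (((x + 1).choose 3 : ℕ) : ZMod p) * Polynomial.X), hfilsub2] at hcl
  have hcUV : Multiset.card (U - V) = p * N - 1 + (q - (w + r)) := by
    rw [Multiset.card_sub hVU, hcU', hVc]
    omega
  refine coeff_convert2 p N (q - (w + r)) hp (by omega) hN1 (by omega) (U - V) ?_ hcUV ?_ hcl
  · intro x hx
    exact (Multiset.mem_filter.1 (Multiset.mem_of_le (Multiset.sub_le_self U V) hx)).2
  · have h1 := hrem V hVle hVc
    have h2 : Multiset.card U - (q - w) - 1 = p * N - 1 := by omega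
    rwa [h2] at h1

end Pool.Agent.Helper805_nf
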