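import Mathlib
import Pool.Agent.Helper805_nf.Defs4
import Pool.Agent.Helper805_nf.X7
import Pool.Agent.Helper805_nf.Y1
import Pool.Agent.Helper805_nf.Y2
import Pool.Agent.Helper805_nf.Y3
import Pool.Agent.Helper805_nf.Z15b

set_option autoImplicit false

namespace Pool.Agent.Helper805_nf

open Finset











theorem z27b_enum (s : Multiset ℕ) (m : ℕ) (h : Multiset.card s = m) :
    ∃ e : Fin m → ℕ, Multiset.map e (Finset.univ : Finset (Fin m)).val = s := by
  subst h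
  induction s using Quotient.inductionOn with
  | h l =>
    refine ⟨fun i => l.get (Fin.cast (by simp) i), ?_⟩
    rw [Fin.univ_val_map]
    refine congrArg _ ?_
    apply List.ext_get
    · simp
    · intro k h1 h2
      simp

theorem z27b_root (p : ℕ) [Fact p.Prime] (N : ℕ) (hN : 0 < N) :
    ∃ ζ : PadicAlgCl p, IsPrimitiveRoot ζ N := by
  have : NeZero ((N : ℕ) : PadicAlgCl p) := ⟨by exact_mod_cast hN.ne'⟩
  have hd : (Polynomial.cyclotomic N (PadicAlgCl p)).degree ≠ 0 := by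
    rw [Polynomial.degree_cyclotomic]
    have := Nat.totient_pos.mpr hN
    exact_mod_cast this.ne'
  obtain ⟨ζ, hζ⟩ := IsAlgClosed.exists_root _ hd
  exact ⟨ζ, Polynomial.isRoot_cyclotomic_iff.mp hζ⟩

theorem z27b_perm {K : Type*} [Field K] (m n : ℕ) (hmn : m + 1 = n) (ζ : K)
    (hζ : IsPrimitiveRoot ζ (2 * n + 1)) (e : Fin m → ℕ) (κ : Fin m → Fin n)
    (hκ : ∀ i, ((κ i : Fin n) : ℕ) = (i : ℕ) + 1)
    (hper : perT (fun i a => rho (ζ ^ a) (e i)) ≠ 0) :
    ∑ π : Equiv.Perm (Fin m), ∏ b, (ζ ^ (((κ (π b) : ℕ) + 1) * e b) -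
      (ζ⁻¹) ^ (((κ (π b) : ℕ) + 1) * e b)) ≠ 0 := by
  have hζ0 : ζ ≠ 0 := hζ.ne_zero (by omega)
  have key : ∑ π : Equiv.Perm (Fin m), ∏ b, (ζ ^ (((κ (π b) : ℕ) + 1) * e b) -
      (ζ⁻¹) ^ (((κ (π b) : ℕ) + 1) * e b)) =
      (∏ i : Fin m, (ζ ^ ((i : ℕ) + 2) - (ζ ^ ((i : ℕ) + 2))⁻¹)) *
        perT (fun i a => rho (ζ ^ a) (e i)) := by
    unfold perT
    rw [Finset.mul_sum]
    refine Finset.sum_congr rfl fun π _ => ?_
    rw [← Equiv.prod_comp π (fun i : Fin m => (ζ ^ ((i : ℕ) + 2) - (ζ ^ ((i : ℕ) + 2))⁻¹)),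
      ← Finset.prod_mul_distrib]
    refine Finset.prod_congr rfl fun b _ => ?_
    rw [rho_mul _ (pow_ne_zero _ hζ0), hκ, pow_mul, pow_mul, inv_pow]
  rw [key]
  refine mul_ne_zero ?_ hper
  rw [Finset.prod_ne_zero_iff]
  intro i _ h0
  have hz : ζ ^ ((i : ℕ) + 2) ≠ 0 := pow_ne_zero _ hζ0
  have h1 : ζ ^ ((i : ℕ) + 2) = (ζ ^ ((i : ℕ) + 2))⁻¹ := sub_eq_zero.mp h0
  have h2 : ζ ^ (((i : ℕ) + 2) * 2) = 1 := by
    rw [pow_mul, pow_two]
    nth_rw 2 [h1]
    exact mul_inv_cancel₀ hz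
  have h3 := (hζ.pow_eq_one_iff_dvd _).mp h2
  have h4 := Nat.le_of_dvd (by omega) h3
  have := i.2
  omega

theorem case_unit (p q n : ℕ) (hp : p.Prime) (hq : p = 2 * q + 1) (h5 : 5 ≤ p) (hn : n = p * q + q)
    (L : Multiset ℕ) (hcard : Multiset.card L = n) (hL : ∀ x ∈ L, 1 ≤ x ∧ x ≤ n) (j w : ℕ)
    (hW : Multiset.card (L.filter (fun x => p ∣ x)) = j * p + w) (hj : j + 1 ≤ q) (hw : q ≤ w) (hwp : w < p) :
    Realizable n L := by
  have : Fact p.Prime := ⟨hp⟩
  have hjp : j * p + p ≤ q * p := by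
    have := Nat.mul_le_mul_right p hj
    rw [add_mul, one_mul] at this
    exact this
  have hqp : q * p = p * q := mul_comm _ _
  -- pick d
  have hd : ∃ d ∈ L, ¬ p ∣ d := by
    by_contra hcon
    push Not at hcon
    have : L.filter (fun x => p ∣ x) = L := Multiset.filter_eq_self.mpr hcon
    rw [this, hcard] at hW
    omega
  obtain ⟨d, hdL, hpd⟩ := hd
  have hLe : d ::ₘ L.erase d = L := Multiset.cons_erase hdL
  have hcardE : Multiset.card (L.erase d) = p * q - 1 + q := by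
    have h := Multiset.card_erase_of_mem hdL
    rw [h, hcard, hn]
    have : 1 ≤ p * q := Nat.mul_pos (by omega) (by omega)
    simp only [Nat.pred_eq_sub_one]
    omega
  obtain ⟨e, he⟩ := z27b_enum (L.erase d) (p * q - 1 + q) hcardE
  have hpq : 1 ≤ p * q := Nat.mul_pos (by omega) (by omega)
  have hmem : ∀ i, e i ∈ L := by
    intro i
    apply Multiset.mem_of_mem_erase (a := e i) (b := d)
    rw [← he]
    exact Multiset.mem_map_of_mem e (Finset.mem_univ_val i)
  have hsq : 2 * n + 1 = p ^ 2 := by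
    rw [hn, hq]; ring
  -- the field
  have hpn : ‖(p : PadicAlgCl p)‖ = (p : ℝ)⁻¹ := by
    rw [← map_natCast (algebraMap ℚ_[p] (PadicAlgCl p)), PadicAlgCl.norm_extends]
    exact Padic.norm_p
  obtain ⟨ζ, hζ⟩ := z27b_root p (p ^ 2) (pow_pos hp.pos 2)
  obtain ⟨t, ht0, ht1, htp, h1, h2⟩ := cyc_norms p hp hpn ζ hζ
  set H : Finset (Fin (p * q - 1 + q)) := Finset.univ.filter (fun i => p ∣ e i) with hH
  have hHcard : H.card = j * p + w := by
    rw [← hW, ← hLe, Multiset.filter_cons_of_neg _ hpd, ← he, Multiset.filter_map,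
      Multiset.card_map, hH, Finset.card_def, Finset.filter_val]
    rfl
  have hmain := (perT_main p q (p * q - 1 + q) hp hq h5 hpn ζ hζ t ht0 ht1 htp h1 h2 rfl ∅ H
    (Finset.disjoint_empty_right _) e (fun _ => 0) (fun i _ => hn ▸ hL _ (hmem i))
    (fun i _ => by simp [hH]) 0 (by simp) (j * p + w) j w 0 hHcard rfl hj hwp (by simp)
    (Or.inr ⟨rfl, hw⟩) (fun i a => rho (ζ ^ a) (e i)) (by simp) (fun i _ => rfl)).2
    (by simp) (by
      have h0 : q - (w + 0) = 0 := by omega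
      rw [h0, Polynomial.coeff_zero_eq_eval_zero, Polynomial.eval_prod, Finset.prod_ne_zero_iff]
      intro i hi
      simp only [Polynomial.eval_add, Polynomial.eval_C, Polynomial.eval_mul, Polynomial.eval_X,
        mul_zero, add_zero]
      intro hz
      rw [ZMod.natCast_eq_zero_iff] at hz
      simp only [Finset.union_empty, Finset.mem_compl, hH, Finset.mem_filter,
        Finset.mem_univ, true_and] at hi
      exact hi hz)
  have hper : perT (fun i a => rho (ζ ^ a) (e i)) ≠ 0 := by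
    rw [← norm_ne_zero_iff, hmain]
    refine mul_ne_zero ?_ (pow_ne_zero _ ht0.ne')
    rw [norm_ne_zero_iff]
    exact_mod_cast Nat.factorial_ne_zero _
  have hmn : (p * q - 1 + q) + 1 = n := by omega
  have hζ' : IsPrimitiveRoot ζ (2 * n + 1) := by rw [hsq]; exact hζ
  have hκb : ∀ i : Fin (p * q - 1 + q), (i : ℕ) + 1 < n := fun i => by
    have := i.2
    omega
  have hsum := z27b_perm (p * q - 1 + q) n hmn ζ hζ' e (fun i => ⟨(i : ℕ) + 1, hκb i⟩)
    (fun i => rfl) hper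
  have hcop : Nat.Coprime d (2 * n + 1) := by
    rw [hsq]
    exact Nat.Coprime.pow_right 2 ((Nat.Prime.coprime_iff_not_dvd hp).mpr hpd).symm
  have hinj : Function.Injective (fun i : Fin (p * q - 1 + q) => (⟨(i : ℕ) + 1, hκb i⟩ : Fin n)) := by
    intro a b hab
    have h := congrArg Fin.val hab
    simp only [Nat.add_right_cancel_iff] at h
    exact Fin.ext h
  have hlast : Multiset.map e (Finset.univ : Finset (Fin (p * q - 1 + q))).val +
      Multiset.replicate 1 d = L := by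
    rw [he, Multiset.replicate_one, add_comm, Multiset.singleton_add]
    exact hLe
  exact exchange_factor n 1 (p * q - 1 + q) hmn ζ hζ' d hcop e
    (fun i => ⟨(i : ℕ) + 1, hκb i⟩) hinj hsum L hL hlast

end Pool.Agent.Helper805_nf
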