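import Mathlib
import Pool.Agent.Helper805_nf.Defs4
import Pool.Agent.Helper805_nf.T
import Pool.Agent.Helper805_nf.Y1
import Pool.Agent.Helper805_nf.Y17
import Pool.Agent.Helper805_nf.Y2
import Pool.Agent.Helper805_nf.Y3
import Pool.Agent.Helper805_nf.Z15b

set_option autoImplicit false

namespace Pool.Agent.Helper805_nf

open Finset













theorem z27c_enum (m : ℕ) (L : Multiset ℕ) (h : Multiset.card L = m) :
    ∃ e : Fin m → ℕ, Multiset.map e (Finset.univ : Finset (Fin m)).val = L := by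
  subst h
  refine ⟨fun i => L.toList.get (Fin.cast (Multiset.length_toList L).symm i), ?_⟩
  have h1 : List.ofFn (fun i : Fin (Multiset.card L) =>
      L.toList.get (Fin.cast (Multiset.length_toList L).symm i)) = L.toList := by
    apply List.ext_get
    · simp
    · intro k h1 h2
      simp
  have h2 : Multiset.map (fun i : Fin (Multiset.card L) =>
      L.toList.get (Fin.cast (Multiset.length_toList L).symm i))
      (Finset.univ : Finset (Fin (Multiset.card L))).val = (List.ofFn (fun i : Fin (Multiset.card L) =>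
      L.toList.get (Fin.cast (Multiset.length_toList L).symm i)) : Multiset ℕ) := by
    rw [Fin.univ_val_map]
  rw [h2, h1, Multiset.coe_toList]

theorem z27c_norm_p (p : ℕ) [Fact p.Prime] : ‖(p : PadicAlgCl p)‖ = (p : ℝ)⁻¹ := by
  have h := PadicAlgCl.norm_extends p (p : ℚ_[p])
  rw [Padic.norm_p] at h
  rw [← h]
  congr 1

theorem case_heavy (p q n : ℕ) (hp : p.Prime) (hq : p = 2 * q + 1) (hn : n = p * q + q)
    (L : Multiset ℕ) (hcard : Multiset.card L = n) (hL : ∀ x ∈ L, 1 ≤ x ∧ x ≤ n) (j : ℕ)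
    (hW : Multiset.card (L.filter (fun x => p ∣ x)) = j * p) (hj : 1 ≤ j) (hjq : j ≤ q) :
    Realizable n L := by
  classical
  have : Fact p.Prime := ⟨hp⟩
  have hp1 : 1 ≤ p := hp.one_le
  have hq1 : 1 ≤ q := le_trans hj hjq
  have hn2 : 2 * n + 1 = p ^ 2 := by rw [hn, hq]; ring
  have hjp : 1 ≤ j * p := Nat.mul_pos hj hp.pos
  -- the chosen label
  obtain ⟨h, hh⟩ : ∃ h, h ∈ L.filter (fun x => p ∣ x) := by
    apply Multiset.exists_mem_of_ne_zero
    intro h0
    rw [h0] at hW
    simp at hW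
    omega
  obtain ⟨hhL, hph⟩ := Multiset.mem_filter.1 hh
  obtain ⟨hh1, hhn⟩ := hL h hhL
  have hn1 : 1 ≤ n := le_trans hh1 hhn
  obtain ⟨m, hm⟩ : ∃ m, n = m + 1 := ⟨n - 1, by omega⟩
  obtain ⟨e, he⟩ := z27c_enum m (L.erase h) (by rw [Multiset.card_erase_of_mem hhL, hcard, Nat.pred_eq_sub_one]; omega)
  have heL : ∀ i, 1 ≤ e i ∧ e i ≤ n := by
    intro i
    apply hL
    have h1 : e i ∈ L.erase h := by
      rw [← he]
      exact Multiset.mem_map_of_mem e (Finset.mem_univ i)
    exact Multiset.mem_of_mem_erase h1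
  have hWe : (Finset.univ.filter (fun i => p ∣ e i)).card = j * p - 1 := by
    have h1 : Multiset.card ((L.erase h).filter (fun x => p ∣ x)) = j * p - 1 := by
      have h2 : Multiset.card (L.filter (fun x => p ∣ x)) =
          Multiset.card ((h ::ₘ L.erase h).filter (fun x => p ∣ x)) := by
        rw [Multiset.cons_erase hhL]
      rw [hW, Multiset.filter_cons_of_pos _ hph, Multiset.card_cons] at h2
      exact Nat.eq_sub_of_add_eq h2.symm
    rw [← h1, ← he, Multiset.filter_map, Multiset.card_map]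
    rfl
  -- the field
  have hpn := z27c_norm_p p
  have hp2 : p ^ 2 ≠ 0 := pow_ne_zero _ hp.ne_zero
  have : NeZero ((p ^ 2 : ℕ) : PadicAlgCl p) := ⟨by exact_mod_cast hp2⟩
  have : NeZero (p ^ 2) := ⟨hp2⟩
  obtain ⟨ζ, hζ⟩ := HasEnoughRootsOfUnity.exists_primitiveRoot (PadicAlgCl p) (p ^ 2)
  obtain ⟨t, ht0, ht1, htp, h1, h2⟩ := cyc_norms p hp hpn ζ hζ
  have hS0 : ∑ π : Equiv.Perm (Fin m), ∏ i, rho (ζ ^ ((π i : ℕ) + 2)) (e i) ≠ 0 := by
    by_cases hj1 : j = 1
    · subst hj1
      have h3 := rho_permSum_ne_zero p q n m 1 (1 * p - 1) hp hq hn hpn ζ hζ (by omega) le_rfl e heL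
        hWe (Or.inr ⟨rfl, by omega, by omega⟩) (fun i => ⟨(i : ℕ) + 1, by omega⟩)
        (by
          intro a b hab
          simp only [Fin.mk.injEq] at hab
          apply Fin.ext
          omega)
        (by intro i; simp)
        (by
          intro k _ hk
          refine ⟨⟨(k : ℕ) - 1, by omega⟩, ?_⟩
          apply Fin.ext
          simp only
          omega)
      exact h3
    · have h5 : 5 ≤ p := by omega
      have hmain := (perT_main p q m hp hq h5 hpn ζ hζ t ht0 ht1 htp h1 h2 (by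
          have : 1 ≤ p * q := Nat.mul_pos hp1 hq1
          omega) ∅ (Finset.univ.filter (fun i => p ∣ e i)) (by simp) e (fun _ => 1)
          (fun i _ => by rw [← hn]; exact heL i) (by intro i _; simp) 0 (by simp) (j * p - 1)
          (j - 1) (p - 1) 0 hWe (by
            obtain ⟨j', rfl⟩ : ∃ j', j = j' + 1 := ⟨j - 1, by omega⟩
            rw [Nat.add_mul, Nat.add_sub_cancel]
            omega) (by omega) (by omega) (by simp) (Or.inr ⟨rfl, by omega⟩)
          (fun i a => rho (ζ ^ a) (e i)) (by simp) (fun i _ => rfl)).2 (by simp) (by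
            rw [show q - (p - 1 + 0) = 0 by omega, Polynomial.coeff_zero_eq_eval_zero,
              Polynomial.eval_prod, Finset.prod_ne_zero_iff]
            intro i hi
            simp only [Finset.union_empty, Finset.mem_compl, Finset.mem_filter,
              Finset.mem_univ, true_and] at hi
            simp only [Polynomial.eval_add, Polynomial.eval_C, Polynomial.eval_mul,
              Polynomial.eval_X, mul_zero, add_zero]
            rw [Ne, ZMod.natCast_eq_zero_iff]
            exact hi)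
      have hpos : perT (fun (i : Fin m) a => rho (ζ ^ a) (e i)) ≠ 0 := by
        rw [← norm_pos_iff, hmain]
        refine mul_pos (norm_pos_iff.2 ?_) (pow_pos ht0 _)
        exact_mod_cast Nat.factorial_ne_zero _
      exact hpos
  -- the two modes
  have hodd : 2 * ((p ^ 2 + 1) / 2) = p ^ 2 + 1 := by omega
  have hcop : Nat.Coprime ((p ^ 2 + 1) / 2) (p ^ 2) := by
    rw [← Nat.isCoprime_iff_coprime]
    refine ⟨2, -1, ?_⟩
    have : (2 : ℤ) * (((p ^ 2 + 1) / 2 : ℕ) : ℤ) = ((p ^ 2 + 1 : ℕ) : ℤ) := by exact_mod_cast hodd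
    push_cast at this ⊢
    linarith
  obtain ⟨η, hη⟩ : ∃ η, η = ζ ^ ((p ^ 2 + 1) / 2) := ⟨_, rfl⟩
  have hηprim : IsPrimitiveRoot η (2 * n + 1) := by
    rw [hn2, hη]
    exact hζ.pow_of_coprime _ hcop
  have hη2 : η ^ 2 = ζ := by
    rw [hη, ← pow_mul, mul_comm, hodd, pow_succ, hζ.pow_eq_one, one_mul]
  have hζ0 : ζ ≠ 0 := hζ.ne_zero hp2
  have hη0 : η ≠ 0 := by rw [hη]; exact pow_ne_zero _ hζ0
  have hηodd : ∀ s : ℕ, s < m → η ^ (2 * s + 1) = (ζ ^ (n - s))⁻¹ := by
    intro s hs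
    apply eq_inv_of_mul_eq_one_left
    rw [← hη2, ← pow_mul, ← pow_add,
      show 2 * s + 1 + 2 * (n - s) = 2 * n + 1 by omega, hηprim.pow_eq_one]
  have hzne : ∀ s : ℕ, s < m → -(ζ ^ (n - s) - (ζ ^ (n - s))⁻¹) ≠ 0 := by
    intro s hs h0
    rw [neg_eq_zero, sub_eq_zero] at h0
    have h0' : ζ ^ ((n - s) + (n - s)) = 1 := by
      rw [pow_add]
      nth_rewrite 1 [h0]
      exact inv_mul_cancel₀ (pow_ne_zero _ hζ0)
    have := (hζ.pow_eq_one_iff_dvd _).1 h0'
    have h3 := Nat.le_of_dvd (by omega) this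
    omega
  refine two_mode_factor m 1 n hm.symm η hηprim e (fun _ => h) ?_ ?_ L hL ?_
  · have e1 : ∀ σ : Equiv.Perm (Fin m), ∏ i, (η ^ ((2 * (σ i : ℕ) + 1) * e i) -
        (η⁻¹) ^ ((2 * (σ i : ℕ) + 1) * e i)) =
        (∏ s : Fin m, -(ζ ^ (n - (s : ℕ)) - (ζ ^ (n - (s : ℕ)))⁻¹)) *
          ∏ i, rho (ζ ^ (n - (σ i : ℕ))) (e i) := by
      intro σ
      rw [← Equiv.prod_comp σ (fun s : Fin m => -(ζ ^ (n - (s : ℕ)) - (ζ ^ (n - (s : ℕ)))⁻¹)),
        ← Finset.prod_mul_distrib]
      refine Finset.prod_congr rfl fun i _ => ?_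
      rw [pow_mul, pow_mul, inv_pow η, hηodd _ (σ i).2, inv_inv, neg_mul,
        rho_mul _ (pow_ne_zero _ hζ0), neg_sub]
    rw [Finset.sum_congr rfl fun σ _ => e1 σ, ← Finset.mul_sum]
    refine mul_ne_zero (Finset.prod_ne_zero_iff.2 fun s _ => hzne s s.2) ?_
    have e2 : ∑ σ : Equiv.Perm (Fin m), ∏ i, rho (ζ ^ (n - (σ i : ℕ))) (e i) =
        ∑ π : Equiv.Perm (Fin m), ∏ i, rho (ζ ^ ((π i : ℕ) + 2)) (e i) := by
      rw [← Equiv.sum_comp (Equiv.mulLeft (Fin.revPerm : Equiv.Perm (Fin m)))]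
      refine Finset.sum_congr rfl fun σ _ => Finset.prod_congr rfl fun i _ => ?_
      congr 2
      simp only [Equiv.coe_mulLeft, Equiv.Perm.coe_mul, Function.comp_apply, Fin.revPerm_apply,
        Fin.val_rev]
      have := (σ i).2
      omega
    rw [e2]
    exact hS0
  · rw [Fintype.sum_unique]
    simp only [Finset.univ_unique, Finset.prod_singleton]
    have h0 : ((default : Equiv.Perm (Fin 1)) default : Fin 1) = 0 := Subsingleton.elim _ _
    rw [h0]
    simp only [Fin.isValue, Fin.coe_ofNat_eq_mod, Nat.zero_mod, mul_zero, zero_add, one_mul]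
    intro h3
    rw [sub_eq_zero, inv_pow] at h3
    have h3' : η ^ (h + h) = 1 := by
      rw [pow_add]
      nth_rewrite 1 [h3]
      exact inv_mul_cancel₀ (pow_ne_zero _ hη0)
    have h4 := (hηprim.pow_eq_one_iff_dvd _).1 h3'
    have h5 := Nat.le_of_dvd (by omega) h4
    omega
  · rw [he]
    simp only [Finset.univ_unique, Finset.singleton_val, Multiset.map_singleton]
    rw [add_comm, Multiset.singleton_add, Multiset.cons_erase hhL]

end Pool.Agent.Helper805_nf
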