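import Mathlib
import Pool.Agent.Helper805_nf.Defs4
import Pool.Agent.Helper805_nf.Y22
import Pool.Agent.Helper805_nf.Z27a
import Pool.Agent.Helper805_nf.Z27b
import Pool.Agent.Helper805_nf.Z27c

set_option autoImplicit false

namespace Pool.Agent.Helper805_nf

open Finset







theorem prime_square (p n : ℕ) (hp : p.Prime) (hv : 2 * n + 1 = p ^ 2) (L : Multiset ℕ)
    (hcard : Multiset.card L = n) (hL : ∀ x ∈ L, 1 ≤ x ∧ x ≤ n)
    (hW : 2 * Multiset.card (L.filter (fun x => p ∣ x)) ≤ p ^ 2 - p) :
    Realizable n L := by
  have hodd : Odd p := by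
    have h : Odd (p ^ 2) := ⟨n, by omega⟩
    exact (Nat.odd_pow_iff (by norm_num)).1 h
  obtain ⟨q, hq⟩ := hodd
  have hp2 := hp.two_le
  have hq1 : 1 ≤ q := by omega
  have hsq : p ^ 2 = 2 * (p * q) + p := by
    rw [hq]; ring
  have hn : n = p * q + q := by
    omega
  have hW2 : Multiset.card (L.filter (fun x => p ∣ x)) ≤ p * q := by omega
  by_cases hlt : Multiset.card (L.filter (fun x => p ∣ x)) < p
  · exact few_heavies p n hp hv L hcard hL hlt
  · have hdm := Nat.div_add_mod (Multiset.card (L.filter (fun x => p ∣ x))) p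
    have hmod : Multiset.card (L.filter (fun x => p ∣ x)) % p < p := Nat.mod_lt _ hp.pos
    have hj1 : 1 ≤ Multiset.card (L.filter (fun x => p ∣ x)) / p :=
      (Nat.one_le_div_iff hp.pos).2 (by omega)
    generalize hWd : Multiset.card (L.filter (fun x => p ∣ x)) = W at *
    generalize hjd : W / p = j at *
    generalize hwd : W % p = w at *
    have hjp : W = j * p + w := by rw [mul_comm j p]; omega
    rcases Nat.eq_zero_or_pos w with h0 | h0
    · have hjq : j ≤ q := by
        by_contra hcon
        have h1 : (q + 1) * p ≤ j * p := Nat.mul_le_mul_right p (by omega)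
        have h2 : (q + 1) * p = p * q + p := by ring
        omega
      exact case_heavy p q n hp hq hn L hcard hL j (by rw [hWd, hjp, h0, add_zero]) hj1 hjq
    · have hjq : j + 1 ≤ q := by
        by_contra hcon
        have h1 : q * p ≤ j * p := Nat.mul_le_mul_right p (by omega)
        have h2 : q * p = p * q := by ring
        omega
      have h5 : 5 ≤ p := by omega
      rcases Nat.lt_or_ge w q with h | h
      · exact case_class p q n hp hq h5 hn L hcard hL j w (by rw [hWd, hjp]) hjq h0 h
      · exact case_unit p q n hp hq h5 hn L hcard hL j w (by rw [hWd, hjp]) hjq h hmod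


end Pool.Agent.Helper805_nf
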