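import Mathlib
import Pool.Agent.Helper805_nf.Defs6
import Pool.Agent.Helper805_nf.R14
import Pool.Agent.Helper805_nf.R15
import Pool.Agent.Helper805_nf.R17
import Pool.Agent.Helper805_nf.Z28

set_option autoImplicit false

namespace Pool.Agent.Helper805_nf

open Finset







theorem three_prime (p n : ℕ) (hp : p.Prime) (hv : 2 * n + 1 = 3 * p) (L : Multiset ℕ)
    (hcard : Multiset.card L = n) (hL : ∀ x ∈ L, 1 ≤ x ∧ x ≤ n)
    (hW : 2 * Multiset.card (L.filter (fun x => 3 ∣ x)) ≤ 3 * p - 3)
    (hM : 2 * Multiset.card (L.filter (fun x => p ∣ x)) ≤ 3 * p - p) :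
    Realizable n L := by
  have hp2 : p ≠ 2 := by
    rintro rfl
    omega
  by_cases h3 : p = 3
  · subst h3
    exact prime_square 3 n hp (by omega) L hcard hL (by norm_num at hW ⊢; omega)
  · have hodd : p % 2 = 1 := by
      rcases hp.eq_two_or_odd with h | h
      · exact absurd h hp2
      · exact h
    obtain ⟨q, hq⟩ : ∃ q, p = 2 * q + 1 := ⟨p / 2, by omega⟩
    have hge := hp.two_le
    have h5 : 5 ≤ p := by omega
    have hn : n = 3 * q + 1 := by omega
    by_cases hA : Multiset.card (L.filter (fun x => 3 ∣ x)) ≤ q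
    · exact three_light p q n hp hq h5 hn L hcard hL hA (by omega)
    · by_cases hB : Multiset.card (L.filter (fun x => 3 ∣ x)) < 3 * q
      · exact three_heavy p q n hp hq h5 hn L hcard hL (by omega) hB
      · exact three_top p q n hp hq h5 hn L hcard hL (by omega)



end Pool.Agent.Helper805_nf
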