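import Pool.Agent.Helper805_nf.Defs2

set_option autoImplicit false

namespace Pool.Agent.Helper805_nf

open Finset


theorem poly_count {K : Type*} [Field K] (n q : ℕ) (ζ : K) (hζ : IsPrimitiveRoot ζ (2 * n + 1)) (S : Finset K)
    (hS : S.card = 2 * q) (h1 : (1 : K) ∉ S) (Q : Polynomial K) (hdeg : Q.natDegree ≤ 2 * n + 2 * q + 2)
    (hQ1 : (Polynomial.X - Polynomial.C (1 : K)) ^ 3 ∣ Q)
    (hQS : ∀ b ∈ S, (Polynomial.X - Polynomial.C b) ^ 2 ∣ Q)
    (hQ : ∀ j : ℕ, Q.eval (ζ ^ j) = 0) : Q = 0 := by
  classical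
  by_contra hQ0
  set B : Finset K := (Finset.range (2 * n + 1)).image fun j => ζ ^ j with hB
  set A : Finset K := B ∪ S with hA
  have hBcard : B.card = 2 * n + 1 := by
    rw [hB, Finset.card_image_of_injOn, Finset.card_range]
    intro i hi j hj hij
    rw [Finset.mem_coe, Finset.mem_range] at hi hj
    exact hζ.pow_inj hi hj hij
  have hAcard : 2 * n + 1 ≤ A.card := by
    rw [← hBcard]
    exact Finset.card_le_card Finset.subset_union_left
  have h1A : (1 : K) ∈ A := by
    apply Finset.mem_union_left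
    rw [hB, Finset.mem_image]
    exact ⟨0, Finset.mem_range.2 (by omega), pow_zero _⟩
  have hw : ∀ x ∈ A, 1 + (if x ∈ S then 1 else 0) + (if x = 1 then 2 else 0) ≤
      Q.rootMultiplicity x := by
    intro x hx
    rw [Polynomial.le_rootMultiplicity_iff hQ0]
    by_cases hxS : x ∈ S
    · have hx1 : x ≠ 1 := fun h => h1 (h ▸ hxS)
      rw [if_pos hxS, if_neg hx1]
      exact hQS x hxS
    · rw [if_neg hxS]
      by_cases hx1 : x = 1
      · subst hx1
        rw [if_pos rfl]
        exact hQ1
      · rw [if_neg hx1]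
        rcases Finset.mem_union.1 hx with h | h
        · rw [hB, Finset.mem_image] at h
          obtain ⟨j, -, rfl⟩ := h
          rw [add_zero, add_zero, pow_one, Polynomial.dvd_iff_isRoot]
          exact hQ j
        · exact absurd h hxS
  have hsum : ∑ x ∈ A, (1 + (if x ∈ S then 1 else 0) + (if x = 1 then 2 else 0)) =
      A.card + S.card + 2 := by
    rw [Finset.sum_add_distrib, Finset.sum_add_distrib, Finset.sum_const, smul_eq_mul, mul_one]
    congr 1
    · congr 1
      rw [Finset.sum_ite_mem, Finset.sum_const, smul_eq_mul, mul_one,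
        Finset.inter_eq_right.2 Finset.subset_union_right]
    · rw [Finset.sum_ite_eq', if_pos h1A]
  have hle : ∑ x ∈ A, Q.rootMultiplicity x ≤ Q.natDegree := by
    calc ∑ x ∈ A, Q.rootMultiplicity x ≤ ∑ x ∈ A ∪ Q.roots.toFinset, Q.rootMultiplicity x :=
          Finset.sum_le_sum_of_subset Finset.subset_union_left
      _ = ∑ x ∈ A ∪ Q.roots.toFinset, Q.roots.count x :=
          Finset.sum_congr rfl fun x _ => (Polynomial.count_roots Q).symm
      _ = Multiset.card Q.roots := Multiset.sum_count_eq_card fun a ha =>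
          Finset.mem_union_right _ (Multiset.mem_toFinset.2 ha)
      _ ≤ Q.natDegree := Polynomial.card_roots' Q
  have h3 := Finset.sum_le_sum hw
  rw [hsum, hS] at h3
  omega


end Pool.Agent.Helper805_nf
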