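import Pool.Agent.Helper805_nf.X9

set_option autoImplicit false

namespace Pool.Agent.Helper805_nf

open Finset



theorem nf10_reindex {n m : ℕ} (K : Finset (Fin n)) (hK : K.card = m) :
    ∃ κ : Fin m → Fin n, Function.Injective κ ∧
      ∀ f : Fin n → Polynomial ℝ, ∏ i, f (κ i) = ∏ j ∈ K, f j := by
  refine ⟨K.orderEmbOfFin hK, (K.orderEmbOfFin hK).injective, fun f => ?_⟩
  conv_rhs => rw [← Finset.map_orderEmbOfFin_univ K hK]
  rw [Finset.prod_map]
  rfl

theorem nf10_choose (n b c : ℕ) (α β : Fin n → ℝ)
    (hα : b ≤ (Finset.univ.filter (fun j => α j ≠ 0)).card)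
    (hβ : c ≤ (Finset.univ.filter (fun j => β j ≠ 0)).card)
    (hαβ : b + c + 1 ≤ (Finset.univ.filter (fun j => α j ≠ 0 ∨ β j ≠ 0)).card) :
    ∃ K : Finset (Fin n), K.card = b + c + 1 ∧ (∀ j ∈ K, α j ≠ 0 ∨ β j ≠ 0) ∧
      (K.filter (fun j => β j = 0)).card ≤ b + 1 ∧ (K.filter (fun j => α j = 0)).card ≤ c + 1 := by
  classical
  set U0 := Finset.univ.filter (fun j : Fin n => α j ≠ 0 ∧ β j ≠ 0) with hU0
  set U1 := Finset.univ.filter (fun j : Fin n => α j ≠ 0 ∧ β j = 0) with hU1
  set U2 := Finset.univ.filter (fun j : Fin n => α j = 0 ∧ β j ≠ 0) with hU2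
  have d01 : Disjoint U0 U1 := by
    rw [Finset.disjoint_left]
    intro x hx hy
    simp only [hU0, hU1, Finset.mem_filter, Finset.mem_univ, true_and] at hx hy
    exact hx.2 hy.2
  have d02 : Disjoint U0 U2 := by
    rw [Finset.disjoint_left]
    intro x hx hy
    simp only [hU0, hU2, Finset.mem_filter, Finset.mem_univ, true_and] at hx hy
    exact hx.1 hy.1
  have d12 : Disjoint U1 U2 := by
    rw [Finset.disjoint_left]
    intro x hx hy
    simp only [hU1, hU2, Finset.mem_filter, Finset.mem_univ, true_and] at hx hy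
    exact hx.1 hy.1
  have e1 : (Finset.univ.filter (fun j => α j ≠ 0)) = U0 ∪ U1 := by
    ext x
    simp only [hU0, hU1, Finset.mem_filter, Finset.mem_univ, true_and, Finset.mem_union]
    tauto
  have e2 : (Finset.univ.filter (fun j => β j ≠ 0)) = U0 ∪ U2 := by
    ext x
    simp only [hU0, hU2, Finset.mem_filter, Finset.mem_univ, true_and, Finset.mem_union]
    tauto
  have e3 : (Finset.univ.filter (fun j => α j ≠ 0 ∨ β j ≠ 0)) = (U0 ∪ U1) ∪ U2 := by
    ext x
    simp only [hU0, hU1, hU2, Finset.mem_filter, Finset.mem_univ, true_and, Finset.mem_union]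
    tauto
  rw [e1, Finset.card_union_of_disjoint d01] at hα
  rw [e2, Finset.card_union_of_disjoint d02] at hβ
  rw [e3, Finset.card_union_of_disjoint (Finset.disjoint_union_left.2 ⟨d02, d12⟩),
    Finset.card_union_of_disjoint d01] at hαβ
  obtain ⟨T1, hT1, hc1⟩ := Finset.exists_subset_card_eq (show min U1.card (b + 1) ≤ U1.card from min_le_left _ _)
  obtain ⟨T2, hT2, hc2⟩ := Finset.exists_subset_card_eq (show min U2.card (c + 1) ≤ U2.card from min_le_left _ _)
  have hc : (U0 ∪ T1 ∪ T2).card = U0.card + T1.card + T2.card := by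
    rw [Finset.card_union_of_disjoint, Finset.card_union_of_disjoint]
    · exact Finset.disjoint_of_subset_right hT1 d01
    · rw [Finset.disjoint_union_left]
      exact ⟨Finset.disjoint_of_subset_right hT2 d02,
        Finset.disjoint_of_subset_left hT1 (Finset.disjoint_of_subset_right hT2 d12)⟩
  have hge : b + c + 1 ≤ (U0 ∪ T1 ∪ T2).card := by
    rw [hc, hc1, hc2]
    omega
  obtain ⟨K, hK, hKc⟩ := Finset.exists_subset_card_eq hge
  have hmem : ∀ j ∈ K, (j ∈ U0 ∨ j ∈ T1) ∨ j ∈ T2 := by
    intro j hj
    have := hK hj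
    simpa only [Finset.mem_union] using this
  refine ⟨K, hKc, ?_, ?_, ?_⟩
  · intro j hj
    rcases hmem j hj with (h | h) | h
    · simp only [hU0, Finset.mem_filter] at h
      exact Or.inl h.2.1
    · have := hT1 h
      simp only [hU1, Finset.mem_filter] at this
      exact Or.inl this.2.1
    · have := hT2 h
      simp only [hU2, Finset.mem_filter] at this
      exact Or.inr this.2.2
  · have : K.filter (fun j => β j = 0) ⊆ T1 := by
      intro j hj
      rw [Finset.mem_filter] at hj
      rcases hmem j hj.1 with (h | h) | h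
      · simp only [hU0, Finset.mem_filter] at h
        exact absurd hj.2 h.2.2
      · exact h
      · have := hT2 h
        simp only [hU2, Finset.mem_filter] at this
        exact absurd hj.2 this.2.2
    refine (Finset.card_le_card this).trans ?_
    omega
  · have : K.filter (fun j => α j = 0) ⊆ T2 := by
      intro j hj
      rw [Finset.mem_filter] at hj
      rcases hmem j hj.1 with (h | h) | h
      · simp only [hU0, Finset.mem_filter] at h
        exact absurd hj.2 h.2.1
      · have := hT1 h
        simp only [hU1, Finset.mem_filter] at this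
        exact absurd hj.2 this.2.1
      · exact h
    refine (Finset.card_le_card this).trans ?_
    omega

/-- the lowest coefficient -/
theorem nf10_low {n : ℕ} (α β : Fin n → ℝ) (K : Finset (Fin n)) (hK : ∀ j ∈ K, α j ≠ 0 ∨ β j ≠ 0) :
    (∏ j ∈ K, (Polynomial.C (α j) * Polynomial.X + Polynomial.C (β j))).coeff
      (K.filter (fun j => β j = 0)).card ≠ 0 := by
  classical
  rw [← Finset.prod_filter_mul_prod_filter_not K (fun j => β j = 0)]
  have h1 : ∏ j ∈ K.filter (fun j => β j = 0), (Polynomial.C (α j) * Polynomial.X + Polynomial.C (β j)) =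
      Polynomial.C (∏ j ∈ K.filter (fun j => β j = 0), α j) *
        Polynomial.X ^ (K.filter (fun j => β j = 0)).card := by
    rw [map_prod, ← Finset.prod_const, ← Finset.prod_mul_distrib]
    refine Finset.prod_congr rfl fun j hj => ?_
    rw [(Finset.mem_filter.1 hj).2, map_zero, add_zero]
  rw [h1, mul_assoc, Polynomial.coeff_C_mul, Polynomial.coeff_X_pow_mul']
  rw [if_pos le_rfl, Nat.sub_self, Polynomial.coeff_zero_eq_eval_zero, Polynomial.eval_prod]
  apply mul_ne_zero
  · rw [Finset.prod_ne_zero_iff]
    intro j hj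
    rw [Finset.mem_filter] at hj
    rcases hK j hj.1 with h | h
    · exact h
    · exact absurd hj.2 h
  · rw [Finset.prod_ne_zero_iff]
    intro j hj
    rw [Finset.mem_filter] at hj
    simpa using hj.2

/-- the highest coefficient -/
theorem nf10_high {n : ℕ} (α β : Fin n → ℝ) (K : Finset (Fin n)) (hK : ∀ j ∈ K, α j ≠ 0 ∨ β j ≠ 0) :
    (∏ j ∈ K, (Polynomial.C (α j) * Polynomial.X + Polynomial.C (β j))).coeff
      (K.card - (K.filter (fun j => α j = 0)).card) ≠ 0 := by
  classical
  have hcard : K.card - (K.filter (fun j => α j = 0)).card = (K.filter (fun j => ¬ α j = 0)).card := by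
    have := Finset.card_filter_add_card_filter_not (s := K) (fun j => α j = 0)
    omega
  rw [hcard, ← Finset.prod_filter_mul_prod_filter_not K (fun j => α j = 0)]
  have h1 : ∏ j ∈ K.filter (fun j => α j = 0), (Polynomial.C (α j) * Polynomial.X + Polynomial.C (β j)) =
      Polynomial.C (∏ j ∈ K.filter (fun j => α j = 0), β j) := by
    rw [map_prod]
    refine Finset.prod_congr rfl fun j hj => ?_
    rw [(Finset.mem_filter.1 hj).2, map_zero, zero_mul, zero_add]
  rw [h1, Polynomial.coeff_C_mul]
  apply mul_ne_zero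
  · rw [Finset.prod_ne_zero_iff]
    intro j hj
    rw [Finset.mem_filter] at hj
    rcases hK j hj.1 with h | h
    · exact absurd hj.2 h
    · exact h
  · have h2 := Polynomial.coeff_prod_of_natDegree_le (K.filter (fun j => ¬ α j = 0))
      (fun j => Polynomial.C (α j) * Polynomial.X + Polynomial.C (β j)) 1
      (fun j _ => Polynomial.natDegree_linear_le)
    rw [mul_one] at h2
    rw [h2, Finset.prod_ne_zero_iff]
    intro j hj
    rw [Finset.mem_filter] at hj
    simpa [Polynomial.coeff_C_succ] using hj.2

theorem exists_columns (n b c : ℕ) (α β : Fin n → ℝ)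
    (hα : b ≤ (Finset.univ.filter (fun j => α j ≠ 0)).card)
    (hβ : c ≤ (Finset.univ.filter (fun j => β j ≠ 0)).card)
    (hαβ : b + c + 1 ≤ (Finset.univ.filter (fun j => α j ≠ 0 ∨ β j ≠ 0)).card) :
    ∃ κ : Fin (b + c) → Fin n, Function.Injective κ ∧
      (∏ i, (Polynomial.C (α (κ i)) * Polynomial.X + Polynomial.C (β (κ i)))).coeff b ≠ 0 := by
  classical
  obtain ⟨K, hKc, hK, hk1, hk2⟩ := nf10_choose n b c α β hα hβ hαβ
  by_contra hcon
  push Not at hcon
  set f : Fin n → Polynomial ℝ := fun j => Polynomial.C (α j) * Polynomial.X + Polynomial.C (β j) with hf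
  -- all coefficients of the products over `K \ j` vanish
  have hj : ∀ j ∈ K, (∏ i ∈ K.erase j, f i).coeff b = 0 := by
    intro j hj
    obtain ⟨κ, hκ, hκf⟩ := nf10_reindex (K.erase j) (m := b + c) (by
      rw [Finset.card_erase_of_mem hj, hKc]; omega)
    rw [← hκf f]
    exact hcon κ hκ
  set P := ∏ j ∈ K, f j with hP
  have hder : Polynomial.derivative P = ∑ j ∈ K, (∏ i ∈ K.erase j, f i) * Polynomial.C (α j) := by
    rw [hP, Polynomial.derivative_prod_finset]
    refine Finset.sum_congr rfl fun j _ => ?_
    congr 1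
    simp [hf]
  have h1 : P.coeff (b + 1) = 0 := by
    have h2 : (Polynomial.derivative P).coeff b = 0 := by
      rw [hder, Polynomial.finsetSum_coeff]
      refine Finset.sum_eq_zero fun j hj' => ?_
      rw [Polynomial.coeff_mul_C, hj j hj', zero_mul]
    rw [Polynomial.coeff_derivative] at h2
    have h3 : ((b : ℝ) + 1) ≠ 0 := by positivity
    exact (mul_eq_zero.1 h2).resolve_right h3
  have h0 : P.coeff b = 0 := by
    have h2 : (K.card : ℝ) * P.coeff b = ((Polynomial.derivative P) * Polynomial.X).coeff b := by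
      have h3 : ∀ j ∈ K, P.coeff b =
          (((∏ i ∈ K.erase j, f i) * Polynomial.C (α j)) * Polynomial.X).coeff b := by
        intro j hj'
        have h4 : P = ((∏ i ∈ K.erase j, f i) * Polynomial.C (α j)) * Polynomial.X +
            (∏ i ∈ K.erase j, f i) * Polynomial.C (β j) := by
          rw [hP, ← Finset.prod_erase_mul K f hj']
          simp only [hf]
          ring
        rw [h4, Polynomial.coeff_add, Polynomial.coeff_mul_C _ b (β j), hj j hj', zero_mul, add_zero]
      rw [hder, Finset.sum_mul, Polynomial.finsetSum_coeff, ← Finset.sum_congr rfl h3, Finset.sum_const,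
        nsmul_eq_mul]
    have h5 : ((Polynomial.derivative P) * Polynomial.X).coeff b = (b : ℝ) * P.coeff b := by
      rcases Nat.eq_zero_or_pos b with hb | hb
      · subst hb
        simp
      · obtain ⟨b', rfl⟩ : ∃ b', b = b' + 1 := ⟨b - 1, by omega⟩
        rw [Polynomial.coeff_mul_X, Polynomial.coeff_derivative]
        push_cast
        ring
    rw [h5, hKc] at h2
    push_cast at h2
    have h6 : ((c : ℝ) + 1) * P.coeff b = 0 := by linarith
    have h7 : ((c : ℝ) + 1) ≠ 0 := by positivity
    exact (mul_eq_zero.1 h6).resolve_left h7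
  have hlow := nf10_low α β K hK
  have hhigh := nf10_high α β K hK
  obtain ⟨κ, -, hκf⟩ := nf10_reindex K hKc
  have hκP : ∏ i, (Polynomial.C (α (κ i)) * Polynomial.X + Polynomial.C (β (κ i))) = P := hκf f
  have hlt : (K.filter (fun j => β j = 0)).card < b := by
    have n1 : (K.filter (fun j => β j = 0)).card ≠ b := by
      intro h
      rw [h] at hlow
      exact hlow h0
    have n2 : (K.filter (fun j => β j = 0)).card ≠ b + 1 := by
      intro h
      rw [h] at hlow
      exact hlow h1
    omega
  have hgt : b + 1 < K.card - (K.filter (fun j => α j = 0)).card := by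
    have n1 : K.card - (K.filter (fun j => α j = 0)).card ≠ b := by
      intro h
      rw [h] at hhigh
      exact hhigh h0
    have n2 : K.card - (K.filter (fun j => α j = 0)).card ≠ b + 1 := by
      intro h
      rw [h] at hhigh
      exact hhigh h1
    omega
  refine real_rooted_gap (b + c + 1) (fun i => α (κ i)) (fun i => β (κ i)) b ?_ ?_ ⟨_, hlt, ?_⟩ ⟨_, hgt, ?_⟩
  · rw [hκP]; exact h0
  · rw [hκP]; exact h1
  · rw [hκP]; exact hlow
  · rw [hκP]; exact hhigh

end Pool.Agent.Helper805_nf
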