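import Pool.Agent.Helper805_nf.Defs2

set_option autoImplicit false

namespace Pool.Agent.Helper805_nf

open Finset

/-- A permutation carrying one finset onto another of the same size. -/
theorem ptt_exists_perm {T : Type*} [Fintype T] [DecidableEq T] (A S : Finset T)
    (h : A.card = S.card) : ∃ σ : Equiv.Perm T, A.map σ.toEmbedding = S := by
  classical
  let e : {x // x ∈ A} ≃ {x // x ∈ S} := Finset.equivOfCardEq h
  refine ⟨Equiv.extendSubtype (p := fun x => x ∈ A) (q := fun x => x ∈ S) e, ?_⟩
  apply Finset.eq_of_subset_of_card_le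
  · intro x hx
    rw [Finset.mem_map] at hx
    obtain ⟨a, ha, rfl⟩ := hx
    exact Equiv.extendSubtype_mem (p := fun x => x ∈ A) (q := fun x => x ∈ S) e a ha
  · rw [Finset.card_map]
    exact h.ge

/-- The number of permutations carrying A onto S is the same for all S of the same size. -/
theorem ptt_fiber_const {T : Type*} [Fintype T] [DecidableEq T] (A S S' : Finset T)
    (h : S.card = S'.card) :
    (Finset.univ.filter (fun π : Equiv.Perm T => A.map π.toEmbedding = S)).card =
      (Finset.univ.filter (fun π : Equiv.Perm T => A.map π.toEmbedding = S')).card := by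
  obtain ⟨σ, hσ⟩ := ptt_exists_perm S S' h
  refine Finset.card_bij (fun π _ => π.trans σ) ?_ ?_ ?_
  · intro π hπ
    rw [Finset.mem_filter] at hπ ⊢
    refine ⟨Finset.mem_univ _, ?_⟩
    rw [← hσ, ← hπ.2, Finset.map_map]
    rfl
  · intro π₁ _ π₂ _ h12
    ext x
    have := congrArg (fun τ : Equiv.Perm T => τ x) h12
    simpa using this
  · intro π hπ
    rw [Finset.mem_filter] at hπ
    refine ⟨π.trans σ.symm, ?_, ?_⟩
    · rw [Finset.mem_filter]
      refine ⟨Finset.mem_univ _, ?_⟩
      have h1 : A.map (π.trans σ.symm).toEmbedding = (A.map π.toEmbedding).map σ.symm.toEmbedding := by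
        rw [Finset.map_map]; rfl
      rw [h1, hπ.2, ← hσ, Finset.map_map]
      ext x
      simp
    · ext x
      simp

/-- The number of permutations carrying A onto S. -/
theorem ptt_fiber_card (b c : ℕ) (A S : Finset (Fin (b + c))) (hA : A.card = b) (hS : S.card = b) :
    (Finset.univ.filter (fun π : Equiv.Perm (Fin (b + c)) => A.map π.toEmbedding = S)).card =
      b.factorial * c.factorial := by
  have h1 : (Finset.univ : Finset (Equiv.Perm (Fin (b + c)))).card =
      ∑ S' ∈ (Finset.univ : Finset (Fin (b + c))).powersetCard b,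
        (Finset.univ.filter (fun π : Equiv.Perm (Fin (b + c)) => A.map π.toEmbedding = S')).card := by
    apply Finset.card_eq_sum_card_fiberwise
    intro π _
    rw [Finset.mem_coe, Finset.mem_powersetCard]
    exact ⟨Finset.subset_univ _, by rw [Finset.card_map]; exact hA⟩
  rw [Finset.card_univ, Fintype.card_perm, Fintype.card_fin] at h1
  rw [Finset.sum_congr rfl (fun S' hS' => ptt_fiber_const A S' S
    ((Finset.mem_powersetCard.mp hS').2.trans hS.symm)), Finset.sum_const,
    Finset.card_powersetCard, Finset.card_univ, Fintype.card_fin, smul_eq_mul] at h1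
  have h2 : (b + c).choose b * b.factorial * c.factorial = (b + c).factorial := by
    have := Nat.choose_mul_factorial_mul_factorial (Nat.le_add_right b c)
    rwa [Nat.add_sub_cancel_left] at this
  have h3 : 0 < (b + c).choose b := Nat.choose_pos (Nat.le_add_right b c)
  apply Nat.eq_of_mul_eq_mul_left h3
  rw [← h1, ← h2, mul_assoc]

/-- Coefficient of a product of linear polynomials. -/
theorem ptt_coeff {R : Type*} [CommRing R] {T : Type*} [Fintype T] [DecidableEq T] (b : ℕ) (α β : T → R) :
    (∏ i, (Polynomial.C (α i) * Polynomial.X + Polynomial.C (β i))).coeff b =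
      ∑ S ∈ (Finset.univ : Finset T).powersetCard b, (∏ i ∈ S, α i) * ∏ i ∈ Sᶜ, β i := by
  rw [Finset.prod_add, Polynomial.finsetSum_coeff]
  have h1 : ∀ S ∈ (Finset.univ : Finset T).powerset,
      ((∏ i ∈ S, (Polynomial.C (α i) * Polynomial.X)) *
        ∏ i ∈ Finset.univ \ S, Polynomial.C (β i)).coeff b =
      if S.card = b then (∏ i ∈ S, α i) * ∏ i ∈ Sᶜ, β i else 0 := by
    intro S _
    rw [Finset.prod_mul_distrib, Finset.prod_const, ← map_prod, ← map_prod,
      Polynomial.coeff_mul_C, Polynomial.coeff_C_mul, Polynomial.coeff_X_pow,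
      ← Finset.compl_eq_univ_sdiff]
    by_cases h : S.card = b
    · rw [if_pos h, if_pos h.symm, mul_one]
    · rw [if_neg h, if_neg (fun h' => h h'.symm), mul_zero, zero_mul]
  rw [Finset.sum_congr rfl h1, ← Finset.sum_filter]
  apply Finset.sum_congr
  · ext S
    simp [Finset.mem_powersetCard]
  · intro S _
    rfl

theorem perm_two_types {R : Type*} [CommRing R] (b c : ℕ) (α β : Fin (b + c) → R) :
    ∑ π : Equiv.Perm (Fin (b + c)), ∏ i : Fin (b + c), (if (i : ℕ) < b then α (π i) else β (π i)) =
      ((b.factorial * c.factorial : ℕ) : R) *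
        (∏ i, (Polynomial.C (α i) * Polynomial.X + Polynomial.C (β i))).coeff b := by
  classical
  set A : Finset (Fin (b + c)) := Finset.univ.filter (fun i => (i : ℕ) < b) with hAdef
  have hA : A.card = b := by
    rw [hAdef, Fin.card_filter_val_lt]
    omega
  set f : Finset (Fin (b + c)) → R := fun S => (∏ i ∈ S, α i) * ∏ i ∈ Sᶜ, β i with hf
  have h1 : ∀ π : Equiv.Perm (Fin (b + c)),
      ∏ i : Fin (b + c), (if (i : ℕ) < b then α (π i) else β (π i)) = f (A.map π.toEmbedding) := by
    intro π
    rw [hf]
    dsimp only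
    rw [Finset.prod_ite, Finset.prod_map]
    congr 1
    have h2 : (A.map π.toEmbedding)ᶜ =
        (Finset.univ.filter (fun i : Fin (b + c) => ¬ (i : ℕ) < b)).map π.toEmbedding := by
      ext x
      rw [Finset.mem_compl, Finset.mem_map, Finset.mem_map]
      constructor
      · intro h
        refine ⟨π.symm x, ?_, by simp⟩
        rw [Finset.mem_filter]
        refine ⟨Finset.mem_univ _, fun hlt => h ⟨π.symm x, ?_, by simp⟩⟩
        rw [hAdef, Finset.mem_filter]
        exact ⟨Finset.mem_univ _, hlt⟩
      · rintro ⟨i, hi, rfl⟩ ⟨j, hj, hji⟩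
        rw [hAdef, Finset.mem_filter] at hj
        rw [Finset.mem_filter] at hi
        have : j = i := π.injective hji
        subst this
        exact hi.2 hj.2
    rw [h2, Finset.prod_map]
    rfl
  rw [Finset.sum_congr rfl (fun π _ => h1 π), ptt_coeff, Finset.mul_sum]
  have h3 : ∑ π : Equiv.Perm (Fin (b + c)), f (A.map π.toEmbedding) =
      ∑ S ∈ (Finset.univ : Finset (Fin (b + c))).powersetCard b,
        ∑ π ∈ Finset.univ.filter (fun π : Equiv.Perm (Fin (b + c)) => A.map π.toEmbedding = S),
          f (A.map π.toEmbedding) := by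
    symm
    apply Finset.sum_fiberwise_of_maps_to
    intro π _
    rw [Finset.mem_powersetCard]
    exact ⟨Finset.subset_univ _, by rw [Finset.card_map]; exact hA⟩
  rw [h3]
  apply Finset.sum_congr rfl
  intro S hS
  rw [Finset.mem_powersetCard] at hS
  rw [Finset.sum_congr rfl (fun π hπ => by rw [(Finset.mem_filter.mp hπ).2]), Finset.sum_const,
    ptt_fiber_card b c A S hA hS.2, nsmul_eq_mul]

end Pool.Agent.Helper805_nf
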