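import Pool.Agent.Helper805_nf.Defs2

set_option autoImplicit false

namespace Pool.Agent.Helper805_nf

open Finset



theorem fin_range_card (n : ℕ) (P : ℕ → Prop) [DecidablePred P] :
    (Finset.univ.filter (fun j : Fin n => P (j : ℕ))).card = ((range n).filter P).card := by
  rw [card_filter, card_filter, Finset.sum_range (fun k => if P k then 1 else 0)]

theorem gw_aux (n y : ℕ) : ∃ h e : ℕ, Nat.gcd y (2 * n + 1) = 2 * h + 1 ∧
    (2 * n + 1) = (2 * h + 1) * (2 * e + 1) ∧ n = h * (2 * e + 1) + e ∧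
    ∀ k, ((2 * n + 1) ∣ k * y ↔ (2 * e + 1) ∣ k) := by
  set g := Nat.gcd y (2 * n + 1) with hg
  have hgpos : 0 < g := Nat.gcd_pos_of_pos_right _ (by omega)
  obtain ⟨w, hw⟩ : g ∣ 2 * n + 1 := Nat.gcd_dvd_right _ _
  obtain ⟨y', hy'⟩ : g ∣ y := Nat.gcd_dvd_left _ _
  have hodd : Odd (g * w) := by rw [← hw]; exact ⟨n, rfl⟩
  obtain ⟨⟨h, hh⟩, ⟨e, he⟩⟩ := Nat.odd_mul.1 hodd
  have hcop : Nat.Coprime w y' := by
    have h1 : Nat.gcd (g * y') (g * w) = g := by rw [← hy', ← hw]
    rw [Nat.gcd_mul_left] at h1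
    have h2 : Nat.gcd y' w = 1 := Nat.eq_of_mul_eq_mul_left hgpos (by rw [h1, mul_one])
    exact Nat.Coprime.symm h2
  refine ⟨h, e, hh, by rw [hw, hh, he], ?_, fun k => ?_⟩
  · have h3 : 2 * n + 1 = (2 * h + 1) * (2 * e + 1) := by rw [hw, hh, he]
    nlinarith
  · rw [← he, hw]
    have h4 : k * y = g * (k * y') := by rw [hy']; ring
    rw [h4, Nat.mul_dvd_mul_iff_left hgpos]
    exact ⟨fun h5 => hcop.dvd_of_dvd_mul_right h5, fun h5 => h5.mul_right _⟩

theorem zero_count (n y : ℕ) :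
    (Finset.univ.filter (fun j : Fin n => (2 * n + 1) ∣ ((j : ℕ) + 1) * y)).card = (Nat.gcd y (2 * n + 1) - 1) / 2 := by
  obtain ⟨h, e, hg, hv, hn, hk⟩ := gw_aux n y
  rw [fin_range_card n (fun j => (2 * n + 1) ∣ (j + 1) * y)]
  rw [filter_congr (fun j _ => hk (j + 1)), Nat.card_multiples, hg]
  have h1 : n / (2 * e + 1) = h := by
    rw [Nat.div_eq_iff (by omega)]
    constructor
    · omega
    · rw [hn]
      have : 2 * e + 1 ≤ 2 * e + 1 := le_rfl
      omega
  rw [h1]
  omega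

theorem zero_count_odd (n y : ℕ) (hn : 1 ≤ n) (hy1 : 1 ≤ y) (hy : y ≤ n) :
    (Finset.univ.filter (fun j : Fin (n - 1) => (2 * n + 1) ∣ (2 * (j : ℕ) + 1) * y)).card =
      (Nat.gcd y (2 * n + 1) - 1) / 2 := by
  obtain ⟨h, e, hg, hv, hn', hk⟩ := gw_aux n y
  rw [fin_range_card (n - 1) (fun j => (2 * n + 1) ∣ (2 * j + 1) * y)]
  rw [filter_congr (fun j _ => hk (2 * j + 1)), hg]
  have he : 1 ≤ e := by
    rcases Nat.eq_zero_or_pos e with h0 | h0
    · exfalso
      subst h0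
      have h1 := (hk 1).2 (by simp)
      rw [one_mul] at h1
      have := Nat.le_of_dvd (by omega) h1
      omega
    · exact h0
  have himg : (range (n - 1)).filter (fun j => (2 * e + 1) ∣ (2 * j + 1)) =
      (range h).image (fun s => (2 * e + 1) * s + e) := by
    ext j
    rw [mem_filter, mem_range, mem_image]
    constructor
    · rintro ⟨hj, t, ht⟩
      have hodd : Odd ((2 * e + 1) * t) := by rw [← ht]; exact ⟨j, rfl⟩
      obtain ⟨-, ⟨s, hs⟩⟩ := Nat.odd_mul.1 hodd
      refine ⟨s, ?_, ?_⟩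
      · rw [mem_range]
        by_contra hc
        have h2 : h ≤ s := not_lt.1 hc
        have h3 : (2 * e + 1) * h ≤ (2 * e + 1) * s := Nat.mul_le_mul_left _ h2
        have h4 : (2 * e + 1) * t = 2 * ((2 * e + 1) * s) + (2 * e + 1) := by rw [hs]; ring
        have h5 : h * (2 * e + 1) = (2 * e + 1) * h := mul_comm _ _
        omega
      · have h4 : (2 * e + 1) * t = 2 * ((2 * e + 1) * s) + (2 * e + 1) := by rw [hs]; ring
        show (2 * e + 1) * s + e = j
        omega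
    · rintro ⟨s, hs, rfl⟩
      rw [mem_range] at hs
      refine ⟨?_, 2 * s + 1, by ring⟩
      have h3 : (2 * e + 1) * (s + 1) ≤ (2 * e + 1) * h := Nat.mul_le_mul_left _ hs
      have h4 : (2 * e + 1) * (s + 1) = (2 * e + 1) * s + (2 * e + 1) := by ring
      have h5 : h * (2 * e + 1) = (2 * e + 1) * h := mul_comm _ _
      omega
  rw [himg, card_image_of_injective, card_range]
  · omega
  · intro a b hab
    have h1 : (2 * e + 1) * a + e = (2 * e + 1) * b + e := hab
    have h2 : (2 * e + 1) * a = (2 * e + 1) * b := by omega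
    exact Nat.eq_of_mul_eq_mul_left (by omega) h2


end Pool.Agent.Helper805_nf
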