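import Pool.Agent.Helper805_nf.X9a

set_option autoImplicit false

namespace Pool.Agent.Helper805_nf

open Finset



theorem splits_deriv (f : Polynomial ℝ) (hf : f.Splits) : f.derivative.Splits := by
  rw [Polynomial.splits_iff_card_roots]
  rw [Polynomial.splits_iff_card_roots] at hf
  have h1 := Polynomial.card_roots_le_derivative f
  have h2 := Polynomial.card_roots' f.derivative
  have h3 := Polynomial.natDegree_derivative_le f
  omega

theorem splits_iter (f : Polynomial ℝ) (hf : f.Splits) (n : ℕ) :
    (Polynomial.derivative^[n] f).Splits := by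
  induction n with
  | zero => exact hf
  | succ n ih => rw [Function.iterate_succ_apply']; exact splits_deriv _ ih

theorem real_rooted_gap (N : ℕ) (α β : Fin N → ℝ) (k : ℕ)
    (h1 : (∏ i, (Polynomial.C (α i) * Polynomial.X + Polynomial.C (β i))).coeff k = 0)
    (h2 : (∏ i, (Polynomial.C (α i) * Polynomial.X + Polynomial.C (β i))).coeff (k + 1) = 0)
    (h3 : ∃ i < k, (∏ i, (Polynomial.C (α i) * Polynomial.X + Polynomial.C (β i))).coeff i ≠ 0)
    (h4 : ∃ i > k + 1, (∏ i, (Polynomial.C (α i) * Polynomial.X + Polynomial.C (β i))).coeff i ≠ 0) : False := by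
  set P : Polynomial ℝ := ∏ i, (Polynomial.C (α i) * Polynomial.X + Polynomial.C (β i)) with hP
  have hs : P.Splits := by
    rw [hP]
    refine Polynomial.Splits.prod fun i _ => ?_
    exact Polynomial.Splits.of_degree_le_one Polynomial.degree_linear_le
  obtain ⟨m, hm, hm0⟩ := h4
  have hne : ∀ i, i ≤ k → Polynomial.derivative^[i] P ≠ 0 := by
    intro i hi h0
    have h5 := Polynomial.coeff_iterate_derivative (k := i) P (m - i)
    rw [h0, Polynomial.coeff_zero, Nat.sub_add_cancel (by omega)] at h5
    have h6 : (m.descFactorial i : ℝ) ≠ 0 := by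
      have : m.descFactorial i ≠ 0 := by
        rw [Ne, Nat.descFactorial_eq_zero_iff_lt]; omega
      exact_mod_cast this
    rw [nsmul_eq_mul] at h5
    exact mul_ne_zero h6 hm0 h5.symm
  have hc0 : ∀ i, (Polynomial.derivative^[i] P).eval 0 = (i.factorial : ℝ) * P.coeff i := by
    intro i
    rw [← Polynomial.coeff_zero_eq_eval_zero, Polynomial.coeff_iterate_derivative, nsmul_eq_mul,
      zero_add, Nat.descFactorial_self]
  have key : ∀ d, d ≤ k → 1 < (Polynomial.derivative^[k - d] P).rootMultiplicity 0 := by
    intro d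
    induction d with
    | zero =>
      intro _
      rw [Nat.sub_zero, Polynomial.one_lt_rootMultiplicity_iff_isRoot (hne k le_rfl)]
      refine ⟨?_, ?_⟩
      · rw [Polynomial.IsRoot.def, hc0, h1, mul_zero]
      · rw [Polynomial.IsRoot.def, ← Function.iterate_succ_apply' (⇑Polynomial.derivative), hc0, h2, mul_zero]
    | succ d ih =>
      intro hd
      have h5 := ih (by omega)
      have h6 : k - d = (k - (d + 1)) + 1 := by omega
      rw [h6, Function.iterate_succ_apply'] at h5
      have h7 := real_split_mult _ (splits_iter P hs (k - (d + 1))) (hne _ (by omega)) 0 h5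
      rw [Polynomial.one_lt_rootMultiplicity_iff_isRoot (hne _ (by omega))]
      refine ⟨h7, ?_⟩
      have h8 : Polynomial.derivative (Polynomial.derivative^[k - (d + 1)] P) ≠ 0 := by
        rw [← Function.iterate_succ_apply' (⇑Polynomial.derivative)]
        exact hne _ (by omega)
      exact (Polynomial.rootMultiplicity_pos h8).mp (by omega)
  obtain ⟨i, hi, hi0⟩ := h3
  have h5 := key (k - i) (by omega)
  have h6 : k - (k - i) = i := by omega
  rw [h6] at h5
  have h7 := (Polynomial.rootMultiplicity_pos (hne i hi.le)).mp (lt_trans Nat.zero_lt_one h5)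
  rw [Polynomial.IsRoot.def, hc0] at h7
  have h8 : (i.factorial : ℝ) ≠ 0 := by exact_mod_cast i.factorial_ne_zero
  exact mul_ne_zero h8 hi0 h7


end Pool.Agent.Helper805_nf
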