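import Pool.Agent.Helper805_nf.A3
import Pool.Agent.Helper805_nf.X9
import Pool.Agent.Helper805_nf.X10b
import Pool.Agent.Helper805_nf.X11

set_option autoImplicit false

namespace Pool.Agent.Helper805_nf

open Finset





theorem tl_sin (v k : ℕ) (hv : v ≠ 0) :
    Complex.exp (2 * Real.pi * Complex.I / v) ^ k -
      ((Complex.exp (2 * Real.pi * Complex.I / v))⁻¹) ^ k
      = 2 * Complex.I * ((Real.sin (2 * Real.pi * k / v) : ℝ) : ℂ) := by
  have hv' : (v : ℂ) ≠ 0 := by exact_mod_cast hv
  rw [← Complex.exp_neg, ← Complex.exp_nat_mul, ← Complex.exp_nat_mul,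
    Complex.ofReal_sin, Complex.sin]
  have e1 : (k : ℂ) * (2 * Real.pi * Complex.I / v) =
      (((2 * Real.pi * k / v : ℝ)) : ℂ) * Complex.I := by
    push_cast
    field_simp
  have e2 : (k : ℂ) * (-(2 * Real.pi * Complex.I / v)) =
      -(((2 * Real.pi * k / v : ℝ)) : ℂ) * Complex.I := by
    push_cast
    field_simp
  rw [e1, e2]
  have hI : Complex.I * Complex.I = -1 := Complex.I_mul_I
  linear_combination (-(Complex.exp (-(((2 * Real.pi * k / v : ℝ)) : ℂ) * Complex.I) -
    Complex.exp ((((2 * Real.pi * k / v : ℝ)) : ℂ) * Complex.I))) * hI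

theorem tl_zero (n k : ℕ) :
    Real.sin (2 * Real.pi * k / ((2 * n + 1 : ℕ) : ℝ)) = 0 ↔ (2 * n + 1) ∣ k := by
  have hv : (2 * n + 1) ≠ 0 := by omega
  have hprim := Complex.isPrimitiveRoot_exp (2 * n + 1) hv
  set η := Complex.exp (2 * Real.pi * Complex.I / ((2 * n + 1 : ℕ) : ℂ)) with hη
  have hη0 : η ≠ 0 := Complex.exp_ne_zero _
  have key := tl_sin (2 * n + 1) k hv
  rw [← hη] at key
  have h1 : Real.sin (2 * Real.pi * k / ((2 * n + 1 : ℕ) : ℝ)) = 0 ↔ η ^ k - η⁻¹ ^ k = 0 := by
    rw [key]
    constructor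
    · intro h
      rw [h]
      simp
    · intro h
      have h2 : (2 * Complex.I : ℂ) ≠ 0 := by simp
      have h3 := (mul_eq_zero.mp h).resolve_left h2
      exact_mod_cast h3
  rw [h1]
  have h4 : η ^ k - η⁻¹ ^ k = 0 ↔ η ^ (2 * k) = 1 := by
    rw [sub_eq_zero, inv_pow, two_mul, pow_add]
    constructor
    · intro h
      nth_rewrite 1 [h]
      exact inv_mul_cancel₀ (pow_ne_zero _ hη0)
    · intro h
      exact eq_inv_of_mul_eq_one_left h
  rw [h4, hprim.pow_eq_one_iff_dvd]
  constructor
  · intro h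
    have hc : Nat.Coprime (2 * n + 1) 2 := by
      rw [Nat.coprime_comm]
      simp [Nat.coprime_mul_left_add_right]
    exact hc.dvd_of_dvd_mul_left h
  · intro h
    exact Dvd.dvd.mul_left h 2

/-- the lowest coefficient -/
theorem tl_low (N : ℕ) (α β : Fin N → ℝ) (h : ∀ j, ¬ (α j = 0 ∧ β j = 0)) :
    (∏ i, (Polynomial.C (α i) * Polynomial.X + Polynomial.C (β i))).coeff
      (Finset.univ.filter (fun j => β j = 0)).card ≠ 0 := by
  classical
  rw [← Finset.prod_filter_mul_prod_filter_not Finset.univ (fun j => β j = 0)]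
  have e1 : ∏ i ∈ Finset.univ.filter (fun j => β j = 0),
      (Polynomial.C (α i) * Polynomial.X + Polynomial.C (β i)) =
      Polynomial.X ^ (Finset.univ.filter (fun j => β j = 0)).card *
        Polynomial.C (∏ i ∈ Finset.univ.filter (fun j => β j = 0), α i) := by
    rw [map_prod, ← Finset.prod_const, ← Finset.prod_mul_distrib]
    refine Finset.prod_congr rfl (fun i hi => ?_)
    rw [(Finset.mem_filter.mp hi).2, Polynomial.C_0, add_zero, mul_comm]
  rw [e1, mul_assoc]
  have e2 := Polynomial.coeff_X_pow_mul (Polynomial.C (∏ i ∈ Finset.univ.filter (fun j => β j = 0), α i) *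
    ∏ i ∈ Finset.univ.filter (fun j => ¬ β j = 0),
      (Polynomial.C (α i) * Polynomial.X + Polynomial.C (β i)))
    (Finset.univ.filter (fun j => β j = 0)).card 0
  rw [zero_add] at e2
  rw [e2, Polynomial.coeff_C_mul, Polynomial.coeff_zero_prod]
  refine mul_ne_zero ?_ ?_
  · refine Finset.prod_ne_zero_iff.mpr (fun i hi h0 => ?_)
    exact h i ⟨h0, (Finset.mem_filter.mp hi).2⟩
  · refine Finset.prod_ne_zero_iff.mpr (fun i hi => ?_)
    simpa using (Finset.mem_filter.mp hi).2

theorem tl_high (N : ℕ) (α β : Fin N → ℝ) (h : ∀ j, ¬ (α j = 0 ∧ β j = 0)) :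
    (∏ i, (Polynomial.C (α i) * Polynomial.X + Polynomial.C (β i))).coeff
      (N - (Finset.univ.filter (fun j => α j = 0)).card) ≠ 0 := by
  classical
  have hcard : N - (Finset.univ.filter (fun j => α j = 0)).card =
      (Finset.univ.filter (fun j => ¬ α j = 0)).card := by
    have := Finset.card_filter_add_card_filter_not (s := (Finset.univ : Finset (Fin N))) (fun j => α j = 0)
    rw [Finset.card_univ, Fintype.card_fin] at this
    omega
  rw [hcard, ← Finset.prod_filter_mul_prod_filter_not Finset.univ (fun j => α j = 0)]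
  have e1 : ∏ i ∈ Finset.univ.filter (fun j => α j = 0),
      (Polynomial.C (α i) * Polynomial.X + Polynomial.C (β i)) =
        Polynomial.C (∏ i ∈ Finset.univ.filter (fun j => α j = 0), β i) := by
    rw [map_prod]
    refine Finset.prod_congr rfl (fun i hi => ?_)
    rw [(Finset.mem_filter.mp hi).2]
    simp
  rw [e1, Polynomial.coeff_C_mul]
  have e2 := Polynomial.coeff_prod_of_natDegree_le (s := Finset.univ.filter (fun j => ¬ α j = 0))
    (f := fun i => (Polynomial.C (α i) * Polynomial.X + Polynomial.C (β i))) 1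
    (fun p _ => Polynomial.natDegree_linear_le)
  rw [mul_one] at e2
  rw [e2]
  refine mul_ne_zero ?_ ?_
  · refine Finset.prod_ne_zero_iff.mpr (fun i hi h0 => ?_)
    exact h i ⟨(Finset.mem_filter.mp hi).2, h0⟩
  · refine Finset.prod_ne_zero_iff.mpr (fun i hi => ?_)
    simpa using (Finset.mem_filter.mp hi).2

/-- change of index set -/
theorem tl_reindex {ι κ : Type*} (v : ℕ) (L : ι → ℕ) (L' : κ → ℕ) (φ : κ → ι)
    (hφ : Function.Injective φ) (hL : ∀ k, L (φ k) = L' k) (x : ι → ZMod v)
    (hx : Function.Injective (fun r : Option (ι × Bool) => r.elim (0 : ZMod v)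
        (fun q => x q.1 + if q.2 then ((L q.1 : ℕ) : ZMod v) else 0))) :
    Function.Injective (fun r : Option (κ × Bool) => r.elim (0 : ZMod v)
        (fun q => (x (φ q.1)) + if q.2 then ((L' q.1 : ℕ) : ZMod v) else 0)) := by
  have h1 : (fun r : Option (κ × Bool) => r.elim (0 : ZMod v)
        (fun q => (x (φ q.1)) + if q.2 then ((L' q.1 : ℕ) : ZMod v) else 0)) =
      (fun r : Option (ι × Bool) => r.elim (0 : ZMod v)
        (fun q => x q.1 + if q.2 then ((L q.1 : ℕ) : ZMod v) else 0)) ∘
        (Option.map (Prod.map φ id)) := by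
    funext r
    cases r with
    | none => rfl
    | some q => simp [hL]
  rw [h1]
  refine hx.comp (Option.map_injective ?_)
  exact hφ.prodMap Function.injective_id

/-- the complex form of the permanent -/
theorem tl_permC (N b c v y z : ℕ) (hv : v ≠ 0) (hN : N = b + c)
    (hP : (∏ i : Fin N, (Polynomial.C (Real.sin (2 * Real.pi * (((2 * (i : ℕ) + 1) * y : ℕ) : ℝ) / v)) * Polynomial.X +
      Polynomial.C (Real.sin (2 * Real.pi * (((2 * (i : ℕ) + 1) * z : ℕ) : ℝ) / v)))).coeff b ≠ 0) :
    ∑ σ : Equiv.Perm (Fin (b + c)), ∏ i : Fin (b + c),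
      ((Complex.exp (2 * Real.pi * Complex.I / v)) ^ ((2 * (σ i : ℕ) + 1) * (if (i : ℕ) < b then y else z)) -
        ((Complex.exp (2 * Real.pi * Complex.I / v))⁻¹) ^ ((2 * (σ i : ℕ) + 1) * (if (i : ℕ) < b then y else z))) ≠ 0 := by
  subst hN
  have e1 : ∀ σ : Equiv.Perm (Fin (b + c)), ∏ i : Fin (b + c),
      ((Complex.exp (2 * Real.pi * Complex.I / v)) ^ ((2 * (σ i : ℕ) + 1) * (if (i : ℕ) < b then y else z)) -
        ((Complex.exp (2 * Real.pi * Complex.I / v))⁻¹) ^ ((2 * (σ i : ℕ) + 1) * (if (i : ℕ) < b then y else z))) =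
      (2 * Complex.I) ^ (b + c) * ((∏ i : Fin (b + c), (if (i : ℕ) < b then
        Real.sin (2 * Real.pi * (((2 * ((σ i : Fin (b + c)) : ℕ) + 1) * y : ℕ) : ℝ) / v) else
        Real.sin (2 * Real.pi * (((2 * ((σ i : Fin (b + c)) : ℕ) + 1) * z : ℕ) : ℝ) / v)) : ℝ) : ℂ) := by
    intro σ
    rw [Complex.ofReal_prod]
    have : (2 * Complex.I) ^ (b + c) = ∏ _i : Fin (b + c), (2 * Complex.I) := by simp
    rw [this, ← Finset.prod_mul_distrib]
    refine Finset.prod_congr rfl (fun i _ => ?_)
    rw [tl_sin v _ hv]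
    by_cases hi : (i : ℕ) < b
    · simp only [hi, if_true]
    · simp only [hi, if_false]
  rw [Finset.sum_congr rfl (fun σ _ => e1 σ), ← Finset.mul_sum, ← Complex.ofReal_sum]
  have e2 := perm_two_types b c
    (fun i : Fin (b + c) => Real.sin (2 * Real.pi * (((2 * (i : ℕ) + 1) * y : ℕ) : ℝ) / v))
    (fun i : Fin (b + c) => Real.sin (2 * Real.pi * (((2 * (i : ℕ) + 1) * z : ℕ) : ℝ) / v))
  rw [e2]
  refine mul_ne_zero (pow_ne_zero _ (by simp)) ?_
  rw [Complex.ofReal_ne_zero]
  refine mul_ne_zero ?_ hP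
  have : b.factorial * c.factorial ≠ 0 := mul_ne_zero (Nat.factorial_ne_zero _) (Nat.factorial_ne_zero _)
  exact_mod_cast this

/-- one extra position with label `w` -/
theorem tl_core (v b c y z w : ℕ) (hv : v = 2 * (1 + (b + c)) + 1)
    (hw : ¬ v ∣ w)
    (hP : (∏ i : Fin (b + c), (Polynomial.C (Real.sin (2 * Real.pi * (((2 * (i : ℕ) + 1) * y : ℕ) : ℝ) / v)) * Polynomial.X +
      Polynomial.C (Real.sin (2 * Real.pi * (((2 * (i : ℕ) + 1) * z : ℕ) : ℝ) / v)))).coeff b ≠ 0) :
    ∃ x : Fin 1 ⊕ Fin (b + c) → ZMod v, Function.Injective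
      (fun r : Option ((Fin 1 ⊕ Fin (b + c)) × Bool) => r.elim (0 : ZMod v)
        (fun q => x q.1 + if q.2 then ((Sum.elim (fun _ => w) (fun i : Fin (b + c) => if (i : ℕ) < b then y else z) q.1 : ℕ) : ZMod v) else 0)) := by
  have hv0 : v ≠ 0 := by omega
  have hB := tl_permC (b + c) b c v y z hv0 rfl hP
  have hprim := Complex.isPrimitiveRoot_exp v hv0
  have hs := tl_sin v w hv0
  subst hv
  refine two_mode 1 (b + c) (Complex.exp (2 * Real.pi * Complex.I / ((2 * (1 + (b + c)) + 1 : ℕ) : ℂ))) hprim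
    (fun _ => w) (fun i : Fin (b + c) => if (i : ℕ) < b then y else z) ?_ hB
  have h0 : Real.sin (2 * Real.pi * w / ((2 * (1 + (b + c)) + 1 : ℕ) : ℝ)) ≠ 0 := by
    intro h
    exact hw ((tl_zero (1 + (b + c)) w).mp h)
  rw [Fintype.sum_unique]
  simp only [Finset.univ_unique, Finset.prod_singleton, Fin.default_eq_zero, Fin.isValue]
  have : ((default : Equiv.Perm (Fin 1)) 0 : ℕ) = 0 := by simp
  rw [this]
  norm_num only [mul_zero, zero_add, one_mul]
  rw [hs]
  refine mul_ne_zero (by simp) ?_
  exact_mod_cast h0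

theorem two_lengths (n b c y z : ℕ) (hbc : b + c = n) (hy1 : 1 ≤ y) (hy : y ≤ n) (hz1 : 1 ≤ z) (hz : z ≤ n)
    (hg : Nat.gcd (Nat.gcd y z) (2 * n + 1) = 1) (hb : 2 * b + Nat.gcd y (2 * n + 1) ≤ 2 * n + 1)
    (hc : 2 * c + Nat.gcd z (2 * n + 1) ≤ 2 * n + 1) :
    ∃ x : Fin b ⊕ Fin c → ZMod (2 * n + 1), Function.Injective
      (fun q : Option ((Fin b ⊕ Fin c) × Bool) => q.elim (0 : ZMod (2 * n + 1)) (fun q => x q.1 +
        if q.2 then ((Sum.elim (fun _ => y) (fun _ => z) q.1 : ℕ) : ZMod (2 * n + 1)) else 0)) := by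
  have hn : 1 ≤ n := le_trans hy1 hy
  -- the two families of sines
  set α : Fin (n - 1) → ℝ := fun i =>
    Real.sin (2 * Real.pi * (((2 * (i : ℕ) + 1) * y : ℕ) : ℝ) / ((2 * n + 1 : ℕ) : ℝ)) with hα
  set β : Fin (n - 1) → ℝ := fun i =>
    Real.sin (2 * Real.pi * (((2 * (i : ℕ) + 1) * z : ℕ) : ℝ) / ((2 * n + 1 : ℕ) : ℝ)) with hβ
  have hα0 : ∀ j, α j = 0 ↔ (2 * n + 1) ∣ (2 * (j : ℕ) + 1) * y := fun j => tl_zero n _
  have hβ0 : ∀ j, β j = 0 ↔ (2 * n + 1) ∣ (2 * (j : ℕ) + 1) * z := fun j => tl_zero n _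
  have hnot : ∀ j, ¬ (α j = 0 ∧ β j = 0) := by
    rintro j ⟨h1, h2⟩
    rw [hα0] at h1
    rw [hβ0] at h2
    have h3 : (2 * n + 1) ∣ (2 * (j : ℕ) + 1) * Nat.gcd y z := by
      rw [← Nat.gcd_mul_left]
      exact Nat.dvd_gcd h1 h2
    have h4 : Nat.Coprime (2 * n + 1) (Nat.gcd y z) := by
      rw [Nat.coprime_comm]
      exact hg
    have h5 := h4.dvd_of_dvd_mul_right h3
    have h6 := Nat.le_of_dvd (by omega) h5
    have := j.2
    omega
  set k1 := (Finset.univ.filter (fun j => β j = 0)).card with hk1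
  set k2 := (Finset.univ.filter (fun j => α j = 0)).card with hk2
  have hk1' : k1 = (Nat.gcd z (2 * n + 1) - 1) / 2 := by
    rw [← zero_count_odd n z hn hz1 hz, hk1]
    congr 1
    exact Finset.filter_congr (fun j _ => hβ0 j)
  have hk2' : k2 = (Nat.gcd y (2 * n + 1) - 1) / 2 := by
    rw [← zero_count_odd n y hn hy1 hy, hk2]
    congr 1
    exact Finset.filter_congr (fun j _ => hα0 j)
  have hlow := tl_low (n - 1) α β hnot
  have hhigh := tl_high (n - 1) α β hnot
  rw [← hk1] at hlow
  rw [← hk2] at hhigh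
  have hgy : 1 ≤ Nat.gcd y (2 * n + 1) := Nat.gcd_pos_of_pos_left _ hy1
  have hgz : 1 ≤ Nat.gcd z (2 * n + 1) := Nat.gcd_pos_of_pos_left _ hz1
  set P := ∏ i, (Polynomial.C (α i) * Polynomial.X + Polynomial.C (β i)) with hP
  have claim : (1 ≤ b ∧ P.coeff (b - 1) ≠ 0) ∨ (1 ≤ c ∧ P.coeff b ≠ 0) := by
    by_contra hcon
    push Not at hcon
    obtain ⟨hc1, hc2⟩ := hcon
    rcases Nat.eq_zero_or_pos b with hb0 | hbpos
    · have : k1 = 0 := by omega
      rw [this] at hlow
      exact hlow (by rw [← hb0]; exact hc2 (by omega))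
    · rcases Nat.eq_zero_or_pos c with hc0 | hcpos
      · have h1 : k2 = 0 := by omega
        have h2 : n - 1 - k2 = b - 1 := by omega
        rw [h2] at hhigh
        exact hhigh (hc1 hbpos)
      · have e1 := hc1 hbpos
        have e2 := hc2 hcpos
        have hk1b : k1 < b - 1 := by
          have h1 : k1 ≤ b := by omega
          have h2 : k1 ≠ b := by
            intro h
            rw [h] at hlow
            exact hlow e2
          have h3 : k1 ≠ b - 1 := by
            intro h
            rw [h] at hlow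
            exact hlow e1
          omega
        have hk2b : n - 1 - k2 > b := by
          have h1 : b - 1 ≤ n - 1 - k2 := by omega
          have h2 : n - 1 - k2 ≠ b := by
            intro h
            rw [h] at hhigh
            exact hhigh e2
          have h3 : n - 1 - k2 ≠ b - 1 := by
            intro h
            rw [h] at hhigh
            exact hhigh e1
          omega
        refine real_rooted_gap (n - 1) α β (b - 1) e1 ?_ ⟨k1, hk1b, hlow⟩
          ⟨n - 1 - k2, by omega, hhigh⟩
        rw [Nat.sub_add_cancel hbpos]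
        exact e2
  rcases claim with ⟨hb1, hcoef⟩ | ⟨hc1, hcoef⟩
  · obtain ⟨b', rfl⟩ : ∃ b', b = b' + 1 := ⟨b - 1, by omega⟩
    rw [Nat.add_sub_cancel] at hcoef
    have hn1 : n - 1 = b' + c := by omega
    have hw : ¬ (2 * n + 1) ∣ y := by
      intro h
      have := Nat.le_of_dvd hy1 h
      omega
    have hcoef2 : (∏ i : Fin (b' + c), (Polynomial.C (Real.sin (2 * Real.pi * (((2 * (i : ℕ) + 1) * y : ℕ) : ℝ) / ((2 * n + 1 : ℕ) : ℝ))) * Polynomial.X +
      Polynomial.C (Real.sin (2 * Real.pi * (((2 * (i : ℕ) + 1) * z : ℕ) : ℝ) / ((2 * n + 1 : ℕ) : ℝ))))).coeff b' ≠ 0 := by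
      rw [hP, hα, hβ, hn1] at hcoef
      exact hcoef
    obtain ⟨x, hx⟩ := tl_core (2 * n + 1) b' c y z y (by omega) hw hcoef2
    let φ : Fin (b' + 1) ⊕ Fin c → Fin 1 ⊕ Fin (b' + c) :=
      Sum.elim (fun i => Fin.cases (Sum.inl 0) (fun j => Sum.inr (Fin.castAdd c j)) i)
        (fun j => Sum.inr (Fin.natAdd b' j))
    refine ⟨fun q => x (φ q), ?_⟩
    refine tl_reindex (2 * n + 1) _ _ φ ?_ ?_ x hx
    · rintro (i | i) (j | j) h
      · refine Fin.cases ?_ (fun i' => ?_) i h
        · intro h
          refine Fin.cases ?_ (fun j' => ?_) j h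
          · intro _
            rfl
          · intro h
            simp [φ] at h
        · intro h
          revert h
          refine Fin.cases ?_ (fun j' => ?_) j
          · intro h
            simp [φ] at h
          · intro h
            simp only [φ, Sum.elim_inl, Fin.cases_succ, Sum.inr.injEq] at h
            have := Fin.castAdd_injective _ _ h
            rw [this]
      · revert h
        refine Fin.cases ?_ (fun i' => ?_) i
        · intro h
          simp [φ] at h
        · intro h
          simp only [φ, Sum.elim_inl, Fin.cases_succ, Sum.elim_inr, Sum.inr.injEq] at h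
          have h2 := congrArg Fin.val h
          simp only [Fin.val_castAdd, Fin.val_natAdd] at h2
          have := i'.2
          omega
      · revert h
        refine Fin.cases ?_ (fun i' => ?_) j
        · intro h
          simp [φ] at h
        · intro h
          simp only [φ, Sum.elim_inl, Fin.cases_succ, Sum.elim_inr, Sum.inr.injEq] at h
          have h2 := congrArg Fin.val h
          simp only [Fin.val_castAdd, Fin.val_natAdd] at h2
          have := i'.2
          omega
      · simp only [φ, Sum.elim_inr, Sum.inr.injEq] at h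
        have h2 := congrArg Fin.val h
        simp only [Fin.val_natAdd] at h2
        have : i = j := Fin.ext (by omega)
        rw [this]
    · rintro (i | i)
      · refine Fin.cases ?_ (fun i' => ?_) i
        · simp [φ]
        · simp [φ]
      · simp [φ]
  · obtain ⟨c', rfl⟩ : ∃ c', c = c' + 1 := ⟨c - 1, by omega⟩
    have hn1 : n - 1 = b + c' := by omega
    have hw : ¬ (2 * n + 1) ∣ z := by
      intro h
      have := Nat.le_of_dvd hz1 h
      omega
    have hcoef2 : (∏ i : Fin (b + c'), (Polynomial.C (Real.sin (2 * Real.pi * (((2 * (i : ℕ) + 1) * y : ℕ) : ℝ) / ((2 * n + 1 : ℕ) : ℝ))) * Polynomial.X +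
      Polynomial.C (Real.sin (2 * Real.pi * (((2 * (i : ℕ) + 1) * z : ℕ) : ℝ) / ((2 * n + 1 : ℕ) : ℝ))))).coeff b ≠ 0 := by
      rw [hP, hα, hβ, hn1] at hcoef
      exact hcoef
    obtain ⟨x, hx⟩ := tl_core (2 * n + 1) b c' y z z (by omega) hw hcoef2
    let φ : Fin b ⊕ Fin (c' + 1) → Fin 1 ⊕ Fin (b + c') :=
      Sum.elim (fun i => Sum.inr (Fin.castAdd c' i))
        (fun j => Fin.cases (Sum.inl 0) (fun j => Sum.inr (Fin.natAdd b j)) j)
    refine ⟨fun q => x (φ q), ?_⟩
    refine tl_reindex (2 * n + 1) _ _ φ ?_ ?_ x hx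
    · rintro (i | i) (j | j) h
      · simp only [φ, Sum.elim_inl, Sum.inr.injEq] at h
        have := Fin.castAdd_injective _ _ h
        rw [this]
      · revert h
        refine Fin.cases ?_ (fun i' => ?_) j
        · intro h
          simp [φ] at h
        · intro h
          simp only [φ, Sum.elim_inl, Fin.cases_succ, Sum.elim_inr, Sum.inr.injEq] at h
          have h2 := congrArg Fin.val h
          simp only [Fin.val_castAdd, Fin.val_natAdd] at h2
          have := i.2
          omega
      · revert h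
        refine Fin.cases ?_ (fun i' => ?_) i
        · intro h
          simp [φ] at h
        · intro h
          simp only [φ, Sum.elim_inl, Fin.cases_succ, Sum.elim_inr, Sum.inr.injEq] at h
          have h2 := congrArg Fin.val h
          simp only [Fin.val_castAdd, Fin.val_natAdd] at h2
          have := j.2
          omega
      · revert h
        refine Fin.cases ?_ (fun i' => ?_) i
        · refine Fin.cases ?_ (fun j' => ?_) j
          · intro _
            rfl
          · intro h
            simp [φ] at h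
        · refine Fin.cases ?_ (fun j' => ?_) j
          · intro h
            simp [φ] at h
          · intro h
            simp only [φ, Sum.elim_inr, Fin.cases_succ, Sum.inr.injEq] at h
            have h2 := congrArg Fin.val h
            simp only [Fin.val_natAdd] at h2
            have : i' = j' := Fin.ext (by omega)
            rw [this]
    · rintro (i | i)
      · simp [φ]
      · refine Fin.cases ?_ (fun i' => ?_) i
        · simp [φ]
        · simp [φ]

end Pool.Agent.Helper805_nf
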