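import Pool.Agent.Helper805_nf.X12
import Pool.Agent.Helper805_nf.F

set_option autoImplicit false

namespace Pool.Agent.Helper805_nf

open Finset




theorem s13_dist (q lo hi : ℕ) (h : lo ≤ hi) : ∀ b : ℕ, q * lo ≤ b → b ≤ q * hi →
    ∃ β : Fin q → ℕ, (∀ i, lo ≤ β i ∧ β i ≤ hi) ∧ ∑ i, β i = b := by
  induction q with
  | zero =>
    intro b _ h2
    refine ⟨fun _ => 0, fun i => i.elim0, ?_⟩
    simp at h2
    simp [h2]
  | succ q ih =>
    intro b h1 h2
    rw [Nat.succ_mul] at h1 h2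
    have hle : q * lo ≤ q * hi := Nat.mul_le_mul_left q h
    obtain ⟨β, hβ, hs⟩ := ih (b - max lo (b - q * hi)) (by omega) (by omega)
    refine ⟨Fin.cons (max lo (b - q * hi)) β, ?_, ?_⟩
    · intro i
      refine Fin.cases ?_ (fun j => ?_) i
      · simp only [Fin.cons_zero]
        omega
      · simp only [Fin.cons_succ]
        exact hβ j
    · rw [Fin.sum_univ_succ]
      simp only [Fin.cons_zero, Fin.cons_succ]
      rw [hs]
      omega

/-- the embedding of the classes -/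
def s13_psi (n n' q d : ℕ) (i : ℕ) (u : ZMod (2 * n' + 1)) : ZMod (2 * n + 1) :=
  ((i * d + q * u.val : ℕ) : ZMod (2 * n + 1))

theorem s13_psi_add (n n' q d : ℕ) (hv : 2 * n + 1 = q * (2 * n' + 1)) (i : ℕ)
    (u : ZMod (2 * n' + 1)) (w : ℕ) :
    s13_psi n n' q d i u + ((q * w : ℕ) : ZMod (2 * n + 1)) = s13_psi n n' q d i (u + w) := by
  unfold s13_psi
  rw [← Nat.cast_add, ZMod.natCast_eq_natCast_iff, hv]
  have h1 : u.val + w ≡ (u + (w : ZMod (2 * n' + 1))).val [MOD (2 * n' + 1)] := by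
    rw [← ZMod.natCast_eq_natCast_iff]
    push_cast
    rw [ZMod.natCast_zmod_val, ZMod.natCast_zmod_val]
  have h2 := Nat.ModEq.mul_left' q h1
  rw [mul_add q u.val w] at h2
  rw [add_assoc]
  exact Nat.ModEq.add_left _ h2

theorem s13_psi_inj (n n' q d : ℕ) (hv : 2 * n + 1 = q * (2 * n' + 1))
    (hd : Nat.Coprime d (2 * n + 1)) {i j : ℕ} (hi : i < q) (hj : j < q)
    {u w : ZMod (2 * n' + 1)} (h : s13_psi n n' q d i u = s13_psi n n' q d j w) :
    i = j ∧ u = w := by
  unfold s13_psi at h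
  rw [ZMod.natCast_eq_natCast_iff, hv] at h
  have h1 : i * d + q * u.val ≡ j * d + q * w.val [MOD q] := Nat.ModEq.of_mul_right _ h
  have h2 : i * d ≡ j * d [MOD q] := by
    unfold Nat.ModEq at h1 ⊢
    rw [Nat.add_mul_mod_self_left, Nat.add_mul_mod_self_left] at h1
    exact h1
  have hdq : Nat.gcd q d = 1 := by
    have h3 : Nat.Coprime d q := Nat.Coprime.coprime_dvd_right ⟨2 * n' + 1, hv⟩ hd
    exact h3.symm
  have h4 : i ≡ j [MOD q] := Nat.ModEq.cancel_right_of_coprime hdq h2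
  have h5 : i = j := Nat.ModEq.eq_of_lt_of_lt h4 hi hj
  subst h5
  refine ⟨rfl, ?_⟩
  have h6 : q * u.val ≡ q * w.val [MOD q * (2 * n' + 1)] := Nat.ModEq.add_left_cancel' _ h
  have h7 : u.val ≡ w.val [MOD (2 * n' + 1)] :=
    Nat.ModEq.mul_left_cancel' (by omega) h6
  have h8 : u.val = w.val :=
    Nat.ModEq.eq_of_lt_of_lt h7 (ZMod.val_lt u) (ZMod.val_lt w)
  exact ZMod.val_injective _ h8

theorem s13_map {ι : Type*} [Fintype ι] (lab : ι → ℕ) :
    Multiset.map lab (Finset.univ : Finset ι).val = ∑ x : ι, ({lab x} : Multiset ℕ) := by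
  rw [Finset.sum_eq_multiset_sum, ← Multiset.sum_map_singleton (Multiset.map lab _),
    Multiset.map_map]
  rfl

theorem extremal_factor (n n' q b c y z d : ℕ) (hv : 2 * n + 1 = q * (2 * n' + 1)) (hbc : b + c = q * n')
    (hy1 : 1 ≤ y) (hy : y ≤ n') (hz1 : 1 ≤ z) (hz : z ≤ n')
    (hg : Nat.gcd (Nat.gcd y z) (2 * n' + 1) = 1) (hb : 2 * b + q * Nat.gcd y (2 * n' + 1) ≤ q * (2 * n' + 1))
    (hc : 2 * c + q * Nat.gcd z (2 * n' + 1) ≤ q * (2 * n' + 1))
    (hd1 : 1 ≤ d) (hdn : d ≤ n) (hd : Nat.Coprime d (2 * n + 1)) :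
    ∃ g : Fin n ⊕ Fin n → Fin (2 * n + 1), Function.Injective g ∧
      Multiset.map
        (fun i : Fin n =>
          min (Int.natAbs (((g (Sum.inl i) : ℕ) : ℤ) - ((g (Sum.inr i) : ℕ) : ℤ)))
            (2 * n + 1 - Int.natAbs (((g (Sum.inl i) : ℕ) : ℤ) - ((g (Sum.inr i) : ℕ) : ℤ))))
        (Finset.univ : Finset (Fin n)).val = 
          Multiset.replicate b (q * y) + Multiset.replicate c (q * z) + Multiset.replicate ((q - 1) / 2) d := by
  have hq : 0 < q := by
    rcases Nat.eq_zero_or_pos q with h | h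
    · subst h
      omega
    · exact h
  have hvn : 2 * n + 1 = 2 * (q * n') + q := by
    rw [hv]
    ring
  have hn : q * n' + (q - 1) / 2 = n := by omega
  have hgy : Nat.gcd y (2 * n' + 1) % 2 = 1 := by
    have h1 : Nat.gcd y (2 * n' + 1) ∣ 2 * n' + 1 := Nat.gcd_dvd_right _ _
    obtain ⟨k, hk⟩ := h1
    rcases Nat.mod_two_eq_zero_or_one (Nat.gcd y (2 * n' + 1)) with h | h
    · exfalso
      have h2 : (Nat.gcd y (2 * n' + 1) * k) % 2 = 0 := by
        rw [Nat.mul_mod, h]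
        simp
      omega
    · exact h
  have hgz : Nat.gcd z (2 * n' + 1) % 2 = 1 := by
    have h1 : Nat.gcd z (2 * n' + 1) ∣ 2 * n' + 1 := Nat.gcd_dvd_right _ _
    obtain ⟨k, hk⟩ := h1
    rcases Nat.mod_two_eq_zero_or_one (Nat.gcd z (2 * n' + 1)) with h | h
    · exfalso
      have h2 : (Nat.gcd z (2 * n' + 1) * k) % 2 = 0 := by
        rw [Nat.mul_mod, h]
        simp
      omega
    · exact h
  have hgyle : Nat.gcd y (2 * n' + 1) ≤ 2 * n' + 1 := Nat.gcd_le_right _ (by omega)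
  have hgzle : Nat.gcd z (2 * n' + 1) ≤ 2 * n' + 1 := Nat.gcd_le_right _ (by omega)
  obtain ⟨lo, hlo⟩ : ∃ lo, Nat.gcd z (2 * n' + 1) = 2 * lo + 1 :=
    ⟨(Nat.gcd z (2 * n' + 1) - 1) / 2, by omega⟩
  obtain ⟨hi, hhi⟩ : ∃ hi, 2 * n' + 1 = Nat.gcd y (2 * n' + 1) + 2 * hi :=
    ⟨(2 * n' + 1 - Nat.gcd y (2 * n' + 1)) / 2, by omega⟩
  have hb1 : b ≤ q * hi := by
    have e1 : q * (2 * n' + 1) = q * Nat.gcd y (2 * n' + 1) + 2 * (q * hi) := by
      calc q * (2 * n' + 1) = q * (Nat.gcd y (2 * n' + 1) + 2 * hi) := by rw [← hhi]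
        _ = _ := by ring
    omega
  have hb2 : q * lo ≤ b := by
    have e1 : q * Nat.gcd z (2 * n' + 1) = 2 * (q * lo) + q := by
      rw [hlo]
      ring
    have e2 : q * (2 * n' + 1) = 2 * (q * n') + q := by ring
    omega
  have hlohi : lo ≤ hi := Nat.le_of_mul_le_mul_left (hb2.trans hb1) hq
  obtain ⟨β, hβ, hβs⟩ := s13_dist q lo hi hlohi b hb2 hb1
  have hβn : ∀ i, β i ≤ n' := fun i => by
    have := (hβ i).2
    omega
  have hγs : ∑ i, (n' - β i) = c := by
    have h1 : ∑ i, (n' - β i) + ∑ i, β i = q * n' := by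
      rw [← Finset.sum_add_distrib]
      rw [Finset.sum_congr rfl (fun i _ => Nat.sub_add_cancel (hβn i))]
      simp
    omega
  have hx : ∀ i : Fin q, ∃ x : Fin (β i) ⊕ Fin (n' - β i) → ZMod (2 * n' + 1),
      Function.Injective
      (fun r : Option ((Fin (β i) ⊕ Fin (n' - β i)) × Bool) =>
        r.elim (0 : ZMod (2 * n' + 1)) (fun r => x r.1 +
        if r.2 then ((Sum.elim (fun _ => y) (fun _ => z) r.1 : ℕ) : ZMod (2 * n' + 1)) else 0)) := by
    intro i
    refine two_lengths n' (β i) (n' - β i) y z (by have := hβn i; omega) hy1 hy hz1 hz hg ?_ ?_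
    · have := (hβ i).2
      omega
    · have := (hβ i).1
      have := hβn i
      omega
  choose x hx using hx
  let lab : ((Σ i : Fin q, Fin (β i) ⊕ Fin (n' - β i)) ⊕ Fin ((q - 1) / 2)) → ℕ :=
    Sum.elim (fun p => Sum.elim (fun _ => q * y) (fun _ => q * z) p.2) (fun _ => d)
  let X : ((Σ i : Fin q, Fin (β i) ⊕ Fin (n' - β i)) ⊕ Fin ((q - 1) / 2)) → ZMod (2 * n + 1) :=
    Sum.elim (fun p => s13_psi n n' q d p.1 (x p.1 p.2)) (fun t => s13_psi n n' q d (2 * t.1) 0)
  let Φ1 : ((Σ i : Fin q, Fin (β i) ⊕ Fin (n' - β i)) ⊕ Fin ((q - 1) / 2)) × Bool → ℕ :=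
    fun r => Sum.elim (fun p => (p.1 : ℕ)) (fun t => 2 * t.1 + if r.2 then 1 else 0) r.1
  let Φ2 : ((Σ i : Fin q, Fin (β i) ⊕ Fin (n' - β i)) ⊕ Fin ((q - 1) / 2)) × Bool →
      ZMod (2 * n' + 1) :=
    fun r => Sum.elim (fun p => x p.1 p.2 +
      if r.2 then ((Sum.elim (fun _ => y) (fun _ => z) p.2 : ℕ) : ZMod (2 * n' + 1)) else 0)
      (fun _ => 0) r.1
  have hΦ1 : ∀ r, Φ1 r < q := by
    rintro ⟨p | t, e⟩
    · exact p.1.2
    · have h1 := t.2
      show 2 * t.1 + (if e then 1 else 0) < q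
      split_ifs <;> omega
  have hΦ : ∀ r : ((Σ i : Fin q, Fin (β i) ⊕ Fin (n' - β i)) ⊕ Fin ((q - 1) / 2)) × Bool,
      (X r.1 + if r.2 then ((lab r.1 : ℕ) : ZMod (2 * n + 1)) else 0) =
        s13_psi n n' q d (Φ1 r) (Φ2 r) := by
    rintro ⟨⟨i, k | k⟩ | t, e⟩
    · cases e
      · show s13_psi n n' q d i (x i (Sum.inl k)) + (if false = true then _ else 0) =
          s13_psi n n' q d i (x i (Sum.inl k) + if false = true then _ else 0)
        simp
      · show s13_psi n n' q d i (x i (Sum.inl k)) + ((q * y : ℕ) : ZMod (2 * n + 1)) =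
          s13_psi n n' q d i (x i (Sum.inl k) + ((y : ℕ) : ZMod (2 * n' + 1)))
        exact s13_psi_add n n' q d hv i _ y
    · cases e
      · show s13_psi n n' q d i (x i (Sum.inr k)) + (if false = true then _ else 0) =
          s13_psi n n' q d i (x i (Sum.inr k) + if false = true then _ else 0)
        simp
      · show s13_psi n n' q d i (x i (Sum.inr k)) + ((q * z : ℕ) : ZMod (2 * n + 1)) =
          s13_psi n n' q d i (x i (Sum.inr k) + ((z : ℕ) : ZMod (2 * n' + 1)))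
        exact s13_psi_add n n' q d hv i _ z
    · cases e
      · show s13_psi n n' q d (2 * t.1) 0 + (if false = true then _ else 0) =
          s13_psi n n' q d (2 * t.1 + 0) 0
        simp
      · show s13_psi n n' q d (2 * t.1) 0 + ((d : ℕ) : ZMod (2 * n + 1)) =
          s13_psi n n' q d (2 * t.1 + 1) 0
        unfold s13_psi
        rw [← Nat.cast_add]
        congr 1
        simp only [ZMod.val_zero]
        ring
  have hinj : ∀ r s : ((Σ i : Fin q, Fin (β i) ⊕ Fin (n' - β i)) ⊕ Fin ((q - 1) / 2)) × Bool,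
      Φ1 r = Φ1 s → Φ2 r = Φ2 s → r = s := by
    rintro ⟨⟨i, k⟩ | t, e⟩ ⟨⟨j, l⟩ | s, f⟩ h1 h2
    · have hij : i = j := Fin.ext h1
      subst hij
      have h3 := @hx i (some (k, e)) (some (l, f)) h2
      rw [Option.some_inj, Prod.mk.injEq] at h3
      rw [h3.1, h3.2]
    · exfalso
      have h3 := @hx i (some (k, e)) none h2
      exact absurd h3 (by simp)
    · exfalso
      have h3 := @hx j (some (l, f)) none h2.symm
      exact absurd h3 (by simp)
    · have h3 : 2 * t.1 + (if e then 1 else 0) = 2 * s.1 + (if f then 1 else 0) := h1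
      have h4 : t = s := by
        apply Fin.ext
        split_ifs at h3 <;> omega
      subst h4
      have h5 : e = f := by
        cases e <;> cases f
        · rfl
        · exfalso
          have h6 : 2 * t.1 + 0 = 2 * t.1 + 1 := h3
          omega
        · exfalso
          have h6 : 2 * t.1 + 1 = 2 * t.1 + 0 := h3
          omega
        · rfl
      rw [h5]
  have hcard : Fintype.card ((Σ i : Fin q, Fin (β i) ⊕ Fin (n' - β i)) ⊕ Fin ((q - 1) / 2)) = n := by
    rw [Fintype.card_sum, Fintype.card_sigma, Fintype.card_fin]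
    simp only [Fintype.card_sum, Fintype.card_fin]
    rw [Finset.sum_add_distrib, hβs, hγs, hbc, hn]
  have hlab : Multiset.map lab (Finset.univ : Finset _).val =
      Multiset.replicate b (q * y) + Multiset.replicate c (q * z) +
        Multiset.replicate ((q - 1) / 2) d := by
    rw [s13_map, Fintype.sum_sum_type]
    congr 1
    · rw [Fintype.sum_sigma]
      have h1 : ∀ i : Fin q, ∑ k : Fin (β i) ⊕ Fin (n' - β i),
          ({lab (Sum.inl ⟨i, k⟩)} : Multiset ℕ) =
          β i • ({q * y} : Multiset ℕ) + (n' - β i) • ({q * z} : Multiset ℕ) := by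
        intro i
        rw [Fintype.sum_sum_type]
        congr 1
        · show ∑ _k : Fin (β i), ({q * y} : Multiset ℕ) = _
          simp
        · show ∑ _k : Fin (n' - β i), ({q * z} : Multiset ℕ) = _
          simp
      rw [Finset.sum_congr rfl (fun i _ => h1 i), Finset.sum_add_distrib, ← Finset.sum_smul,
        ← Finset.sum_smul, hβs, hγs, Multiset.nsmul_singleton, Multiset.nsmul_singleton]
    · show ∑ _k : Fin ((q - 1) / 2), ({d} : Multiset ℕ) = _
      rw [Finset.sum_const, Finset.card_univ, Fintype.card_fin, Multiset.nsmul_singleton]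
  have hqn : q * n' ≤ n := by omega
  refine placement_to_factor n _ ?_ hcard lab hlab X ?_
  · intro a ha
    rw [Multiset.mem_add, Multiset.mem_add] at ha
    rcases ha with (ha | ha) | ha
    · rw [Multiset.eq_of_mem_replicate ha]
      exact ⟨Nat.mul_pos hq hy1, (Nat.mul_le_mul_left q hy).trans hqn⟩
    · rw [Multiset.eq_of_mem_replicate ha]
      exact ⟨Nat.mul_pos hq hz1, (Nat.mul_le_mul_left q hz).trans hqn⟩
    · rw [Multiset.eq_of_mem_replicate ha]
      exact ⟨hd1, hdn⟩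
  · intro r s hrs
    simp only at hrs
    rw [hΦ r, hΦ s] at hrs
    obtain ⟨h1, h2⟩ := s13_psi_inj n n' q d hv hd (hΦ1 r) (hΦ1 s) hrs
    exact hinj r s h1 h2


end Pool.Agent.Helper805_nf
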