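import Pool.Agent.Helper805_nf.X7
import Pool.Agent.Helper805_nf.X10
import Pool.Agent.Helper805_nf.X10b
import Pool.Agent.Helper805_nf.X11
import Pool.Agent.Helper805_nf.X13

set_option autoImplicit false

namespace Pool.Agent.Helper805_nf

open Finset







theorem tl_root (v : ℕ) (k : ℕ) :
    Complex.exp (2 * Real.pi * Complex.I / v) ^ k - (Complex.exp (2 * Real.pi * Complex.I / v))⁻¹ ^ k =
      2 * Complex.I * ((Real.sin (2 * Real.pi * k / v) : ℝ) : ℂ) := by
  rw [← Complex.exp_neg, ← Complex.exp_nat_mul, ← Complex.exp_nat_mul, Complex.ofReal_sin,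
    Complex.sin]
  have h1 : (k : ℂ) * (2 * Real.pi * Complex.I / v) =
      ((2 * Real.pi * k / v : ℝ) : ℂ) * Complex.I := by
    push_cast
    ring
  have h2 : (k : ℂ) * -(2 * Real.pi * Complex.I / v) =
      -((2 * Real.pi * k / v : ℝ) : ℂ) * Complex.I := by
    push_cast
    ring
  rw [h1, h2]
  have h3 : Complex.I * Complex.I = -1 := Complex.I_mul_I
  linear_combination (Complex.exp (((2 * Real.pi * k / v : ℝ) : ℂ) * Complex.I) -
    Complex.exp (-((2 * Real.pi * k / v : ℝ) : ℂ) * Complex.I)) * h3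

theorem tl14_zero (n k : ℕ) :
    Real.sin (2 * Real.pi * k / ((2 * n + 1 : ℕ) : ℝ)) = 0 ↔ (2 * n + 1) ∣ k := by
  have hζ := Complex.isPrimitiveRoot_exp (2 * n + 1) (by omega)
  have h1 := tl_root (2 * n + 1) k
  have hz : Complex.exp (2 * Real.pi * Complex.I / ((2 * n + 1 : ℕ) : ℂ)) ≠ 0 := Complex.exp_ne_zero _
  set ζ := Complex.exp (2 * Real.pi * Complex.I / ((2 * n + 1 : ℕ) : ℂ)) with hζd
  have h2 : ζ ^ k - ζ⁻¹ ^ k = 0 ↔ ζ ^ (2 * k) = 1 := by
    rw [inv_pow, two_mul, pow_add]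
    have hk : ζ ^ k ≠ 0 := pow_ne_zero _ hz
    constructor
    · intro h
      have h3 : ζ ^ k = (ζ ^ k)⁻¹ := sub_eq_zero.1 h
      calc ζ ^ k * ζ ^ k = ζ ^ k * (ζ ^ k)⁻¹ := by rw [← h3]
        _ = 1 := mul_inv_cancel₀ hk
    · intro h
      rw [sub_eq_zero]
      exact eq_inv_of_mul_eq_one_left h
  have h3 : Real.sin (2 * Real.pi * k / ((2 * n + 1 : ℕ) : ℝ)) = 0 ↔ ζ ^ k - ζ⁻¹ ^ k = 0 := by
    rw [h1]
    constructor
    · intro h
      rw [h]
      simp
    · intro h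
      rcases mul_eq_zero.1 h with h4 | h4
      · exfalso
        revert h4
        simp
      · exact_mod_cast h4
  rw [h3, h2, hζ.pow_eq_one_iff_dvd]
  constructor
  · intro h
    exact Nat.Coprime.dvd_of_dvd_mul_left (by
      rw [Nat.coprime_comm]
      simp) h
  · intro h
    exact Dvd.dvd.mul_left h 2

theorem tl_count (n y : ℕ) (P : Fin n → Prop) [DecidablePred P]
    (hP : ∀ j, P j ↔ ¬ (2 * n + 1) ∣ ((j : ℕ) + 1) * y) :
    (Finset.univ.filter P).card + (Nat.gcd y (2 * n + 1) - 1) / 2 = n := by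
  rw [← zero_count n y]
  have h1 : Finset.univ.filter P =
      Finset.univ.filter (fun j : Fin n => ¬ (2 * n + 1) ∣ ((j : ℕ) + 1) * y) := by
    apply Finset.filter_congr
    intro j _
    exact hP j
  rw [h1, add_comm, Finset.card_filter_add_card_filter_not]
  simp

theorem tl_odd_gcd (n y : ℕ) : Odd (Nat.gcd y (2 * n + 1)) := by
  apply Odd.of_dvd_nat (n := 2 * n + 1) ⟨n, rfl⟩ (Nat.gcd_dvd_right _ _)

theorem tl_map (b c y z : ℕ) :
    Multiset.map (fun i : Fin (b + c) => if (i : ℕ) < b then y else z)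
      (Finset.univ : Finset (Fin (b + c))).val = Multiset.replicate b y + Multiset.replicate c z := by
  rw [Fin.univ_val_map, List.ofFn_add]
  have h1 : (List.ofFn fun i : Fin b =>
      if ((Fin.castLE (Nat.le_add_right b c) i : Fin (b + c)) : ℕ) < b then y else z) =
      List.replicate b y := by
    rw [← List.ofFn_const]
    congr 1
    funext i
    simp
  have h2 : (List.ofFn fun j : Fin c => if ((Fin.natAdd b j : Fin (b + c)) : ℕ) < b then y else z) =
      List.replicate c z := by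
    rw [← List.ofFn_const]
    congr 1
    funext i
    simp
  rw [h1, h2]
  rfl

theorem tl_caseB (n a b c d y z : ℕ) (habc : a + b + c = n) (ha : 1 ≤ a)
    (hd1 : 1 ≤ d) (hdn : d ≤ n) (hd : Nat.Coprime d (2 * n + 1))
    (hy1 : 1 ≤ y) (hy : y ≤ n) (hz1 : 1 ≤ z) (hz : z ≤ n)
    (hb : 2 * b + Nat.gcd y (2 * n + 1) ≤ 2 * n + 1)
    (hc : 2 * c + Nat.gcd z (2 * n + 1) ≤ 2 * n + 1)
    (hbc : 2 * (b + c) + Nat.gcd (Nat.gcd y z) (2 * n + 1) = 2 * n + 1) :
    ∃ g : Fin n ⊕ Fin n → Fin (2 * n + 1), Function.Injective g ∧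
      Multiset.map
        (fun i : Fin n =>
          min (Int.natAbs (((g (Sum.inl i) : ℕ) : ℤ) - ((g (Sum.inr i) : ℕ) : ℤ)))
            (2 * n + 1 - Int.natAbs (((g (Sum.inl i) : ℕ) : ℤ) - ((g (Sum.inr i) : ℕ) : ℤ))))
        (Finset.univ : Finset (Fin n)).val =
          Multiset.replicate b y + Multiset.replicate c z + Multiset.replicate a d := by
  obtain ⟨h, hh⟩ : ∃ h, h = Nat.gcd (Nat.gcd y z) (2 * n + 1) := ⟨_, rfl⟩
  rw [← hh] at hbc
  have hh1 : h = 2 * a + 1 := by omega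
  have hh0 : 0 < h := by omega
  have hdy : h ∣ y := by
    rw [hh]
    exact (Nat.gcd_dvd_left _ _).trans (Nat.gcd_dvd_left _ _)
  have hdz : h ∣ z := by
    rw [hh]
    exact (Nat.gcd_dvd_left _ _).trans (Nat.gcd_dvd_right _ _)
  have hdv : h ∣ 2 * n + 1 := by
    rw [hh]
    exact Nat.gcd_dvd_right _ _
  obtain ⟨y', rfl⟩ := hdy
  obtain ⟨z', rfl⟩ := hdz
  obtain ⟨v', hv'⟩ := hdv
  have hv'o : Odd v' := by
    apply Odd.of_dvd_nat (n := 2 * n + 1) ⟨n, rfl⟩
    rw [hv']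
    exact Dvd.intro_left h rfl
  obtain ⟨n', hn'⟩ := hv'o
  subst hn'
  have hle : ∀ x, h * x ≤ n → x ≤ n' := by
    intro x hx
    by_contra hcon
    have h1 : n' + 1 ≤ x := by omega
    have h2 := Nat.mul_le_mul_left h h1
    nlinarith
  have hpos : ∀ x, 1 ≤ h * x → 1 ≤ x := by
    intro x hx
    rcases Nat.eq_zero_or_pos x with rfl | hx0
    · simp at hx
    · exact hx0
  have hg : Nat.gcd (Nat.gcd y' z') (2 * n' + 1) = 1 := by
    rw [hv', Nat.gcd_mul_left, Nat.gcd_mul_left] at hh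
    exact Nat.eq_of_mul_eq_mul_left hh0 (by rw [mul_one]; exact hh.symm)
  have key := extremal_factor n n' h b c y' z' d hv' (by
      have h1 : 2 * (b + c) + h = h * (2 * n' + 1) := by omega
      have h2 : 2 * (b + c) = 2 * (h * n') := by
        have h3 : h * (2 * n' + 1) = 2 * (h * n') + h := by ring
        omega
      omega) (hpos y' hy1) (hle y' hy) (hpos z' hz1) (hle z' hz) hg (by
      rw [hv', Nat.gcd_mul_left] at hb
      exact hb) (by
      rw [hv', Nat.gcd_mul_left] at hc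
      exact hc) hd1 hdn hd
  have hha : (h - 1) / 2 = a := by omega
  rw [hha] at key
  exact key

theorem tl_caseA (n a b c d y z : ℕ) (habc : a + b + c = n)
    (hd1 : 1 ≤ d) (hdn : d ≤ n) (hd : Nat.Coprime d (2 * n + 1))
    (hy1 : 1 ≤ y) (hy : y ≤ n) (hz1 : 1 ≤ z) (hz : z ≤ n)
    (hb : 2 * b + Nat.gcd y (2 * n + 1) ≤ 2 * n + 1)
    (hc : 2 * c + Nat.gcd z (2 * n + 1) ≤ 2 * n + 1)
    (hbc : 2 * (b + c) + Nat.gcd (Nat.gcd y z) (2 * n + 1) < 2 * n + 1) :
    ∃ g : Fin n ⊕ Fin n → Fin (2 * n + 1), Function.Injective g ∧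
      Multiset.map
        (fun i : Fin n =>
          min (Int.natAbs (((g (Sum.inl i) : ℕ) : ℤ) - ((g (Sum.inr i) : ℕ) : ℤ)))
            (2 * n + 1 - Int.natAbs (((g (Sum.inl i) : ℕ) : ℤ) - ((g (Sum.inr i) : ℕ) : ℤ))))
        (Finset.univ : Finset (Fin n)).val =
          Multiset.replicate b y + Multiset.replicate c z + Multiset.replicate a d := by
  classical
  have hζ := Complex.isPrimitiveRoot_exp (2 * n + 1) (by omega)
  have hroot := tl_root (2 * n + 1)
  set ζ := Complex.exp (2 * Real.pi * Complex.I / ((2 * n + 1 : ℕ) : ℂ)) with hζd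
  set α : Fin n → ℝ := fun j => Real.sin (2 * Real.pi * ((((j : ℕ) + 1) * y : ℕ) : ℝ) /
    ((2 * n + 1 : ℕ) : ℝ)) with hα
  set β : Fin n → ℝ := fun j => Real.sin (2 * Real.pi * ((((j : ℕ) + 1) * z : ℕ) : ℝ) /
    ((2 * n + 1 : ℕ) : ℝ)) with hβ
  have cα := tl_count n y (fun j => α j ≠ 0) (fun j => not_congr (tl14_zero n _))
  have cβ := tl_count n z (fun j => β j ≠ 0) (fun j => not_congr (tl14_zero n _))
  have cαβ := tl_count n (Nat.gcd y z) (fun j => α j ≠ 0 ∨ β j ≠ 0) (by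
    intro j
    rw [← not_and_or]
    apply not_congr
    rw [tl14_zero n _, tl14_zero n _, ← Nat.gcd_mul_left]
    exact Nat.dvd_gcd_iff.symm)
  obtain ⟨gy, hgy⟩ := tl_odd_gcd n y
  obtain ⟨gz, hgz⟩ := tl_odd_gcd n z
  obtain ⟨gh, hgh⟩ := tl_odd_gcd n (Nat.gcd y z)
  rw [hgy] at hb cα
  rw [hgz] at hc cβ
  rw [hgh] at hbc cαβ
  obtain ⟨κ, hκ1, hκ2⟩ := exists_columns n b c α β (by omega) (by omega) (by omega)
  refine exchange_factor n a (b + c) (by omega) ζ hζ d hd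
    (fun i => if (i : ℕ) < b then y else z) κ hκ1 ?_ _ ?_ ?_
  · have hterm : ∀ (π : Equiv.Perm (Fin (b + c))), ∏ i : Fin (b + c),
        (ζ ^ (((κ (π i) : ℕ) + 1) * (if (i : ℕ) < b then y else z)) -
          ζ⁻¹ ^ (((κ (π i) : ℕ) + 1) * (if (i : ℕ) < b then y else z))) =
        (2 * Complex.I) ^ (b + c) * ((∏ i : Fin (b + c),
          (if (i : ℕ) < b then α (κ (π i)) else β (κ (π i))) : ℝ) : ℂ) := by
      intro π
      have h1 : ∀ i : Fin (b + c), (ζ ^ (((κ (π i) : ℕ) + 1) * (if (i : ℕ) < b then y else z)) -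
          ζ⁻¹ ^ (((κ (π i) : ℕ) + 1) * (if (i : ℕ) < b then y else z))) =
          (2 * Complex.I) * (((if (i : ℕ) < b then α (κ (π i)) else β (κ (π i))) : ℝ) : ℂ) := by
        intro i
        rw [hroot]
        split_ifs <;> rfl
      rw [Finset.prod_congr rfl fun i _ => h1 i, Finset.prod_mul_distrib, Finset.prod_const,
        Finset.card_univ, Fintype.card_fin, Complex.ofReal_prod]
    rw [Finset.sum_congr rfl fun π _ => hterm π, ← Finset.mul_sum, ← Complex.ofReal_sum]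
    have h2 := perm_two_types b c (fun i => α (κ i)) (fun i => β (κ i))
    rw [h2]
    refine mul_ne_zero (pow_ne_zero _ (by simp)) ?_
    rw [Complex.ofReal_ne_zero]
    refine mul_ne_zero ?_ hκ2
    exact_mod_cast (Nat.mul_pos (Nat.factorial_pos b) (Nat.factorial_pos c)).ne'
  · intro x hx
    simp only [Multiset.mem_add, Multiset.mem_replicate] at hx
    rcases hx with (hx | hx) | hx
    · rw [hx.2]
      exact ⟨hy1, hy⟩
    · rw [hx.2]
      exact ⟨hz1, hz⟩
    · rw [hx.2]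
      exact ⟨hd1, hdn⟩
  · rw [tl_map]

theorem three_lengths (n a b c d y z : ℕ) (habc : a + b + c = n) (ha : 1 ≤ a)
    (hd1 : 1 ≤ d) (hdn : d ≤ n) (hd : Nat.Coprime d (2 * n + 1))
    (hy1 : 1 ≤ y) (hy : y ≤ n) (hz1 : 1 ≤ z) (hz : z ≤ n)
    (hb : 2 * b + Nat.gcd y (2 * n + 1) ≤ 2 * n + 1)
    (hc : 2 * c + Nat.gcd z (2 * n + 1) ≤ 2 * n + 1)
    (hbc : 2 * (b + c) + Nat.gcd (Nat.gcd y z) (2 * n + 1) ≤ 2 * n + 1) :
    ∃ g : Fin n ⊕ Fin n → Fin (2 * n + 1), Function.Injective g ∧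
      Multiset.map
        (fun i : Fin n =>
          min (Int.natAbs (((g (Sum.inl i) : ℕ) : ℤ) - ((g (Sum.inr i) : ℕ) : ℤ)))
            (2 * n + 1 - Int.natAbs (((g (Sum.inl i) : ℕ) : ℤ) - ((g (Sum.inr i) : ℕ) : ℤ))))
        (Finset.univ : Finset (Fin n)).val = 
          Multiset.replicate b y + Multiset.replicate c z + Multiset.replicate a d := by
  rcases Nat.lt_or_eq_of_le hbc with h | h
  · exact tl_caseA n a b c d y z habc hd1 hdn hd hy1 hy hz1 hz hb hc h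
  · exact tl_caseB n a b c d y z habc ha hd1 hdn hd hy1 hy hz1 hz hb hc h



end Pool.Agent.Helper805_nf
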