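import Pool.Agent.Helper805_nf.X14

set_option autoImplicit false

namespace Pool.Agent.Helper805_nf

open Finset




theorem tl_decomp (L : Multiset ℕ) (d : ℕ) (hdL : d ∈ L) (h3 : L.toFinset.card ≤ 3) :
    ∃ a b c y z : ℕ, y ∈ L ∧ z ∈ L ∧ 1 ≤ a ∧
      L = Multiset.replicate b y + Multiset.replicate c z + Multiset.replicate a d := by
  classical
  have hdT : d ∈ L.toFinset := by simpa using hdL
  have hT : (L.toFinset.erase d).card ≤ 2 := by
    rw [Finset.card_erase_of_mem hdT]; omega
  have hcd : 1 ≤ Multiset.count d L := Multiset.one_le_count_iff_mem.mpr hdL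
  have hmem : ∀ x, x ∈ L.toFinset.erase d ↔ x ≠ d ∧ x ∈ L := by
    intro x; simp
  have hc : (L.toFinset.erase d).card = 0 ∨ (L.toFinset.erase d).card = 1 ∨
      (L.toFinset.erase d).card = 2 := by omega
  rcases hc with h | h | h
  · rw [Finset.card_eq_zero] at h
    refine ⟨Multiset.count d L, 0, 0, d, d, hdL, hdL, hcd, ?_⟩
    ext x
    by_cases hx : x = d
    · subst hx; simp
    · have : x ∉ L := by
        intro hxL
        have := (hmem x).mpr ⟨hx, hxL⟩
        rw [h] at this
        simp at this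
      rw [Multiset.count_eq_zero_of_notMem this]
      simp [Multiset.count_replicate, Ne.symm hx]
  · rw [Finset.card_eq_one] at h
    obtain ⟨y, h⟩ := h
    have hy : y ≠ d ∧ y ∈ L := (hmem y).mp (by rw [h]; simp)
    refine ⟨Multiset.count d L, Multiset.count y L, 0, y, d, hy.2, hdL, hcd, ?_⟩
    ext x
    by_cases hx : x = d
    · subst hx; simp [Multiset.count_replicate, hy.1]
    · by_cases hxy : x = y
      · subst hxy; simp [Multiset.count_replicate, Ne.symm hx]
      · have : x ∉ L := by
          intro hxL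
          have := (hmem x).mpr ⟨hx, hxL⟩
          rw [h] at this
          simp at this
          exact hxy this
        rw [Multiset.count_eq_zero_of_notMem this]
        simp [Multiset.count_replicate, Ne.symm hx, Ne.symm hxy]
  · rw [Finset.card_eq_two] at h
    obtain ⟨y, z, hyz, h⟩ := h
    have hy : y ≠ d ∧ y ∈ L := (hmem y).mp (by rw [h]; simp)
    have hz : z ≠ d ∧ z ∈ L := (hmem z).mp (by rw [h]; simp)
    refine ⟨Multiset.count d L, Multiset.count y L, Multiset.count z L, y, z, hy.2, hz.2, hcd, ?_⟩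
    ext x
    by_cases hx : x = d
    · subst hx; simp [Multiset.count_replicate, hy.1, hz.1]
    · by_cases hxy : x = y
      · subst hxy; simp [Multiset.count_replicate, Ne.symm hx, Ne.symm hyz]
      · by_cases hxz : x = z
        · subst hxz; simp [Multiset.count_replicate, Ne.symm hx, hyz]
        · have : x ∉ L := by
            intro hxL
            have := (hmem x).mpr ⟨hx, hxL⟩
            rw [h] at this
            simp at this
            rcases this with h1 | h1
            · exact hxy h1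
            · exact hxz h1
          rw [Multiset.count_eq_zero_of_notMem this]
          simp [Multiset.count_replicate, Ne.symm hx, Ne.symm hxy, Ne.symm hxz]

theorem tl_filter (p : ℕ → Prop) [DecidablePred p] (b y : ℕ) (h : p y) :
    Multiset.card ((Multiset.replicate b y).filter p) = b := by
  rw [Multiset.filter_eq_self.mpr]
  · simp
  · intro x hx
    rw [Multiset.eq_of_mem_replicate hx]; exact h

theorem three_lengths_final (n : ℕ) (L : Multiset ℕ) (hcard : Multiset.card L = n)
    (hL : ∀ x ∈ L, 1 ≤ x ∧ x ≤ n) (h3 : L.toFinset.card ≤ 3) (hu : ∃ d ∈ L, Nat.Coprime d (2 * n + 1))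
    (hdiv : ∀ g : ℕ, g ∣ 2 * n + 1 → 2 * Multiset.card (L.filter (fun x => g ∣ x)) ≤ 2 * n + 1 - g) :
    ∃ g : Fin n ⊕ Fin n → Fin (2 * n + 1), Function.Injective g ∧
      Multiset.map
        (fun i : Fin n =>
          min (Int.natAbs (((g (Sum.inl i) : ℕ) : ℤ) - ((g (Sum.inr i) : ℕ) : ℤ)))
            (2 * n + 1 - Int.natAbs (((g (Sum.inl i) : ℕ) : ℤ) - ((g (Sum.inr i) : ℕ) : ℤ))))
        (Finset.univ : Finset (Fin n)).val = L := by
  classical
  obtain ⟨d, hdL, hd⟩ := hu
  obtain ⟨a, b, c, y, z, hyL, hzL, ha, hLe⟩ := tl_decomp L d hdL h3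
  have habc : a + b + c = n := by
    rw [← hcard, hLe]; simp; omega
  have key : ∀ g k : ℕ, g ∣ 2 * n + 1 → k ≤ Multiset.card (L.filter (fun x => g ∣ x)) →
      2 * k + g ≤ 2 * n + 1 := by
    intro g k hg hk
    have h1 := hdiv g hg
    have h2 := Nat.le_of_dvd (by omega) hg
    omega
  have hb : 2 * b + Nat.gcd y (2 * n + 1) ≤ 2 * n + 1 := by
    refine key _ _ (Nat.gcd_dvd_right _ _) ?_
    rw [hLe, Multiset.filter_add, Multiset.filter_add, Multiset.card_add, Multiset.card_add,
      tl_filter (fun x => Nat.gcd y (2 * n + 1) ∣ x) b y (Nat.gcd_dvd_left _ _)]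
    omega
  have hc : 2 * c + Nat.gcd z (2 * n + 1) ≤ 2 * n + 1 := by
    refine key _ _ (Nat.gcd_dvd_right _ _) ?_
    rw [hLe, Multiset.filter_add, Multiset.filter_add, Multiset.card_add, Multiset.card_add,
      tl_filter (fun x => Nat.gcd z (2 * n + 1) ∣ x) c z (Nat.gcd_dvd_left _ _)]
    omega
  have hbc : 2 * (b + c) + Nat.gcd (Nat.gcd y z) (2 * n + 1) ≤ 2 * n + 1 := by
    refine key _ _ (Nat.gcd_dvd_right _ _) ?_
    rw [hLe, Multiset.filter_add, Multiset.filter_add, Multiset.card_add, Multiset.card_add,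
      tl_filter (fun x => Nat.gcd (Nat.gcd y z) (2 * n + 1) ∣ x) b y
        ((Nat.gcd_dvd_left _ _).trans (Nat.gcd_dvd_left _ _)),
      tl_filter (fun x => Nat.gcd (Nat.gcd y z) (2 * n + 1) ∣ x) c z
        ((Nat.gcd_dvd_left _ _).trans (Nat.gcd_dvd_right _ _))]
    omega
  obtain ⟨g, hg, hgm⟩ := three_lengths n a b c d y z habc ha (hL d hdL).1 (hL d hdL).2 hd
    (hL y hyL).1 (hL y hyL).2 (hL z hzL).1 (hL z hzL).2 hb hc hbc
  exact ⟨g, hg, by rw [hgm, ← hLe]⟩



end Pool.Agent.Helper805_nf
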