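import Pool.Agent.Helper805_nf.Defs2

set_option autoImplicit false

namespace Pool.Agent.Helper805_nf

open Finset


lemma lop_iter_zero {K : Type*} [Field K] {ι : Type*} [DecidableEq ι] (c : ι → K) (k : ℕ) :
    (lop c)^[k] (fun _ => (0 : K)) = fun _ => (0 : K) := by
  induction k with
  | zero => rfl
  | succ k ih =>
    rw [Function.iterate_succ_apply', ih]
    funext A
    simp [lop]

lemma lop_iter_F {K : Type*} [Field K] {ι : Type*} [DecidableEq ι] (c : ι → K) (s : ι)
    (f : Finset ι → K) (k : ℕ) (A : Finset ι) (hA : s ∉ A) :
    ((lop c)^[k] f) A = ((lop c)^[k] (fun B => if s ∈ B then 0 else f B)) A := by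
  induction k generalizing A with
  | zero => simp [hA]
  | succ k ih =>
    rw [Function.iterate_succ_apply', Function.iterate_succ_apply']
    unfold lop
    apply Finset.sum_congr rfl
    intro j hj
    have h1 : s ∉ A.erase j := fun h => hA (Finset.mem_of_mem_erase h)
    have h2 := ih (A.erase j) h1
    unfold lop at h2
    rw [h2]

lemma lop_iter_G {K : Type*} [Field K] {ι : Type*} [DecidableEq ι] (c : ι → K) (s : ι)
    (f : Finset ι → K) (k : ℕ) (A : Finset ι) (hA : s ∉ A) :
    ((lop c)^[k] f) (insert s A) = ((lop c)^[k] (fun B => if s ∈ B then 0 else f (insert s B))) A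
      + k * c s * ((lop c)^[k-1] (fun B => if s ∈ B then 0 else f B)) A := by
  induction k generalizing A with
  | zero => simp [hA]
  | succ k ih =>
    rw [Function.iterate_succ_apply', Function.iterate_succ_apply']
    have e1 : lop c ((lop c)^[k] f) (insert s A) = c s * ((lop c)^[k] f) A
        + ∑ j ∈ A, c j * ((lop c)^[k] f) (insert s (A.erase j)) := by
      show ∑ j ∈ insert s A, c j * ((lop c)^[k] f) ((insert s A).erase j) = _
      rw [Finset.sum_insert hA, Finset.erase_insert hA]
      congr 1
      apply Finset.sum_congr rfl
      intro j hj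
      have hjs : j ≠ s := fun h => hA (h ▸ hj)
      rw [Finset.erase_insert_of_ne hjs.symm]
    rw [e1, lop_iter_F c s f k A hA]
    have e2 : ∑ j ∈ A, c j * ((lop c)^[k] f) (insert s (A.erase j))
        = lop c ((lop c)^[k] (fun B => if s ∈ B then 0 else f (insert s B))) A
          + k * c s * ∑ j ∈ A, c j * ((lop c)^[k-1] (fun B => if s ∈ B then 0 else f B)) (A.erase j) := by
      show _ = ∑ j ∈ A, c j * ((lop c)^[k] (fun B => if s ∈ B then 0 else f (insert s B))) (A.erase j) + _
      rw [Finset.mul_sum, ← Finset.sum_add_distrib]
      apply Finset.sum_congr rfl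
      intro j hj
      have h1 : s ∉ A.erase j := fun h => hA (Finset.mem_of_mem_erase h)
      rw [ih (A.erase j) h1]
      ring
    rw [e2]
    rcases Nat.eq_zero_or_pos k with hk | hk
    · subst hk
      simp
      ring
    · obtain ⟨m, rfl⟩ : ∃ m, k = m + 1 := ⟨k - 1, by omega⟩
      have e3 : ∑ j ∈ A, c j * ((lop c)^[m+1-1] (fun B => if s ∈ B then 0 else f B)) (A.erase j)
          = ((lop c)^[m+1] (fun B => if s ∈ B then 0 else f B)) A := by
        rw [Function.iterate_succ_apply']
        rfl
      rw [e3]
      have e4 : m + 1 + 1 - 1 = m + 1 := by omega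
      rw [e4]
      push_cast
      ring

theorem slp {K : Type*} [Field K] [CharZero K] {ι : Type*} [DecidableEq ι] (S : Finset ι) (c : ι → K)
    (hc : ∀ j ∈ S, c j ≠ 0) (a b : ℕ) (hab : a + 2 * b ≤ S.card) (f : Finset ι → K)
    (hf : ∀ A, f A ≠ 0 → A ⊆ S ∧ A.card = b) (h : ∀ A, A ⊆ S → ((lop c)^[a] f) A = 0) : ∀ A, f A = 0 := by
  induction S using Finset.induction_on generalizing a b f with
  | empty =>
    intro A
    by_contra hA
    obtain ⟨h1, -⟩ := hf A hA
    have h2 : A = ∅ := Finset.subset_empty.mp h1
    subst h2
    have ha : a = 0 := by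
      simp at hab
      omega
    subst ha
    exact hA (h ∅ (Finset.Subset.refl _))
  | insert s S' hs ih =>
    rcases Nat.eq_zero_or_pos a with ha | ha
    · subst ha
      intro A
      by_contra hA
      exact hA (h A (hf A hA).1)
    · obtain ⟨m, rfl⟩ : ∃ m, a = m + 1 := ⟨a - 1, by omega⟩
      rw [Finset.card_insert_of_notMem hs] at hab
      have hcs : c s ≠ 0 := hc s (Finset.mem_insert_self _ _)
      have hc' : ∀ j ∈ S', c j ≠ 0 := fun j hj => hc j (Finset.mem_insert_of_mem hj)
      have ih' := ih hc'
      set F : Finset ι → K := fun B => if s ∈ B then 0 else f B with hF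
      set G : Finset ι → K := fun B => if s ∈ B then 0 else f (insert s B) with hG
      have hi : ∀ A, A ⊆ S' → ((lop c)^[m+1] F) A = 0 := by
        intro A hA
        have hsA : s ∉ A := fun hh => hs (hA hh)
        rw [← lop_iter_F c s f (m+1) A hsA]
        exact h A (hA.trans (Finset.subset_insert _ _))
      have hii : ∀ A, A ⊆ S' → ((lop c)^[m+1] G) A + ((m+1 : ℕ) : K) * c s * ((lop c)^[m] F) A = 0 := by
        intro A hA
        have hsA : s ∉ A := fun hh => hs (hA hh)
        have h1 := lop_iter_G c s f (m+1) A hsA
        rw [h (insert s A) (Finset.insert_subset_insert _ hA)] at h1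
        exact h1.symm
      have hiii : ∀ A, A ⊆ S' → ((lop c)^[m+1+1] G) A = 0 := by
        intro A hA
        rw [Function.iterate_succ_apply']
        show ∑ j ∈ A, c j * ((lop c)^[m+1] G) (A.erase j) = 0
        have h1 : ∑ j ∈ A, c j * ((lop c)^[m+1] G) (A.erase j)
            = - (((m+1 : ℕ) : K) * c s) * ∑ j ∈ A, c j * ((lop c)^[m] F) (A.erase j) := by
          rw [Finset.mul_sum]
          apply Finset.sum_congr rfl
          intro j hj
          have h2 := hii (A.erase j) ((Finset.erase_subset _ _).trans hA)
          have h3 : ((lop c)^[m+1] G) (A.erase j)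
            = - (((m+1 : ℕ) : K) * c s * ((lop c)^[m] F) (A.erase j)) := eq_neg_of_add_eq_zero_left h2
          rw [h3]
          ring
        rw [h1]
        have h4 : ∑ j ∈ A, c j * ((lop c)^[m] F) (A.erase j) = ((lop c)^[m+1] F) A := by
          rw [Function.iterate_succ_apply']
          rfl
        rw [h4, hi A hA, mul_zero]
      have hG0 : ∀ A, G A = 0 := by
        rcases Nat.eq_zero_or_pos b with hb | hb
        · intro A
          by_contra hA
          by_cases hsA : s ∈ A
          · exact hA (by simp [hG, hsA])
          · have h1 : f (insert s A) ≠ 0 := by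
              intro h2
              exact hA (by simp [hG, hsA, h2])
            have h3 := (hf _ h1).2
            rw [Finset.card_insert_of_notMem hsA] at h3
            omega
        · apply ih' (m+1+1) (b-1) (by omega) G
          · intro A hA
            by_cases hsA : s ∈ A
            · exact absurd (by simp [hG, hsA]) hA
            · have h1 : f (insert s A) ≠ 0 := by
                intro h2
                exact hA (by simp [hG, hsA, h2])
              obtain ⟨h3, h4⟩ := hf _ h1
              rw [Finset.card_insert_of_notMem hsA] at h4
              refine ⟨?_, by omega⟩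
              intro x hx
              have hx1 := h3 (Finset.mem_insert_of_mem hx)
              rcases Finset.mem_insert.mp hx1 with hx2 | hx2
              · exact absurd (hx2 ▸ hx) hsA
              · exact hx2
          · exact hiii
      have hGf : G = fun _ => (0 : K) := funext hG0
      have hF0 : ∀ A, F A = 0 := by
        apply ih' m b (by omega) F
        · intro A hA
          by_cases hsA : s ∈ A
          · exact absurd (by simp [hF, hsA]) hA
          · have h1 : f A ≠ 0 := by
              intro h2
              exact hA (by simp [hF, hsA, h2])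
            obtain ⟨h3, h4⟩ := hf _ h1
            refine ⟨?_, h4⟩
            intro x hx
            rcases Finset.mem_insert.mp (h3 hx) with hx2 | hx2
            · exact absurd (hx2 ▸ hx) hsA
            · exact hx2
        · intro A hA
          have h1 := hii A hA
          rw [hGf, lop_iter_zero] at h1
          simp only [zero_add] at h1
          have hm : ((m+1 : ℕ) : K) ≠ 0 := Nat.cast_ne_zero.mpr (by omega)
          rcases mul_eq_zero.mp h1 with h2 | h2
          · rcases mul_eq_zero.mp h2 with h3 | h3
            · exact absurd h3 hm
            · exact absurd h3 hcs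
          · exact h2
      intro A
      by_cases hsA : s ∈ A
      · have h1 := hG0 (A.erase s)
        have h2 : s ∉ A.erase s := Finset.notMem_erase s A
        simp only [hG, h2, if_false] at h1
        rwa [Finset.insert_erase hsA] at h1
      · have h1 := hF0 A
        simp only [hF, hsA, if_false] at h1
        exact h1


end Pool.Agent.Helper805_nf
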