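import Pool.Agent.Helper805_nf.X16

set_option autoImplicit false

namespace Pool.Agent.Helper805_nf

open Finset




theorem wlp {K : Type*} [Field K] [DecidableEq K] [CharZero K] (n i : ℕ) (c : Fin n → K)
    (hc : 2 * i + 1 ≤ (Finset.univ.filter (fun j => c j ≠ 0)).card) (f : Finset (Fin n) → K)
    (hf : ∀ A, f A ≠ 0 → A.card = i) (h : ∀ A, lop c f A = 0) : ∀ A, f A = 0 := by
  classical
  intro A0
  by_contra hA0
  have hi : A0.card = i := hf A0 hA0
  obtain ⟨U, hU⟩ : ∃ U : Finset (Fin n), U = Finset.univ.filter (fun j => c j ≠ 0) := ⟨_, rfl⟩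
  rw [← hU] at hc
  have hcU : ∀ j, j ∈ U ↔ c j ≠ 0 := by
    intro j
    rw [hU, mem_filter]
    exact ⟨fun h => h.2, fun h => ⟨mem_univ _, h⟩⟩
  obtain ⟨B, hB⟩ : ∃ B : Finset (Fin n), B = A0 \ U := ⟨_, rfl⟩
  have hdisj : Disjoint B U := by
    rw [hB]
    exact sdiff_disjoint
  have hBle : B.card ≤ i := by
    rw [← hi, hB]
    exact card_le_card sdiff_subset
  have key := slp U c (fun j hj => (hcU j).mp hj) 1 (i - B.card) (by omega)
    (fun A => if A ⊆ U then f (A ∪ B) else 0) ?_ ?_
  · have h1 := key (A0 ∩ U)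
    have e : A0 ∩ U ∪ B = A0 := by
      ext x
      rw [hB, mem_union, mem_inter, mem_sdiff]
      tauto
    simp only [inter_subset_right, if_true, e] at h1
    exact hA0 h1
  · intro A hA
    by_cases hAU : A ⊆ U
    · simp only [hAU, if_true] at hA
      have h2 := hf _ hA
      rw [card_union_of_disjoint (hdisj.symm.mono_left hAU)] at h2
      exact ⟨hAU, by omega⟩
    · simp only [hAU, if_false, ne_eq, not_true_eq_false] at hA
  · intro A hAU
    have hAB : Disjoint A B := hdisj.symm.mono_left hAU
    have h1 := h (A ∪ B)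
    unfold lop at h1
    rw [sum_union hAB] at h1
    have h2 : ∑ j ∈ B, c j * f ((A ∪ B).erase j) = 0 := by
      apply sum_eq_zero
      intro j hj
      have hjU : j ∉ U := fun hj' => (disjoint_left.mp hdisj) hj hj'
      have : c j = 0 := by
        by_contra h3
        exact hjU ((hcU j).mpr h3)
      rw [this, zero_mul]
    rw [h2, add_zero] at h1
    rw [Function.iterate_one]
    unfold lop
    rw [← h1]
    apply sum_congr rfl
    intro j hj
    have hjB : j ∉ B := fun hj' => (disjoint_left.mp hAB) hj hj'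
    have hsub : A.erase j ⊆ U := (erase_subset _ _).trans hAU
    have e2 : A.erase j ∪ B = (A ∪ B).erase j := by
      rw [erase_union_distrib, erase_eq_of_notMem hjB]
    simp only [hsub, if_true, e2]


end Pool.Agent.Helper805_nf
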