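import Pool.Agent.Helper805_nf.Defs2

set_option autoImplicit false

namespace Pool.Agent.Helper805_nf

open Finset


/-- the image of `Fin.cons j h` -/
theorem lop_perm_image {n m : ℕ} (j : Fin n) (h : Fin m → Fin n) :
    univ.image (Fin.cons (α := fun _ => Fin n) j h : Fin (m + 1) → Fin n)
      = insert j (univ.image h) := by
  ext x
  simp only [mem_image, mem_univ, true_and, mem_insert]
  constructor
  · rintro ⟨i, rfl⟩
    refine Fin.cases ?_ (fun i => ?_) i
    · left; simp
    · right; exact ⟨i, by simp⟩
  · rintro (rfl | ⟨i, rfl⟩)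
    · exact ⟨0, by simp⟩
    · exact ⟨i.succ, by simp⟩

/-- the condition on `Fin.cons j h` -/
theorem lop_perm_iff {n m : ℕ} (A : Finset (Fin n)) (hA : A.card = m + 1) (j : Fin n)
    (h : Fin m → Fin n) :
    insert j (univ.image h) = A ↔ j ∈ A ∧ univ.image h = A.erase j := by
  have hc : (univ.image h).card ≤ m := by
    refine card_image_le.trans ?_
    simp
  constructor
  · intro hi
    have hj : j ∈ A := by
      rw [← hi]
      exact mem_insert_self _ _
    refine ⟨hj, ?_⟩
    have hn : j ∉ univ.image h := by
      intro hm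
      rw [insert_eq_of_mem hm] at hi
      rw [hi] at hc
      omega
    rw [← hi, erase_insert hn]
  · rintro ⟨hj, hi⟩
    rw [hi, insert_erase hj]

/-- the version with functions -/
theorem lop_perm_fun {K : Type*} [Field K] (n m : ℕ) (τ : Fin m → Fin n → K) (A : Finset (Fin n))
    (hA : A.card = m) :
    ((List.ofFn τ).foldr (fun c f => lop c f) (fun B => if B = ∅ then (1 : K) else 0)) A =
      ∑ g : Fin m → Fin n, if univ.image g = A then ∏ b, τ b (g b) else 0 := by
  induction m generalizing A with
  | zero =>
    have hA0 : A = ∅ := card_eq_zero.1 hA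
    subst hA0
    simp
  | succ m ih =>
    rw [List.ofFn_succ, List.foldr_cons]
    change ∑ j ∈ A, τ 0 j * _ = _
    have h1 : ∀ j ∈ A, τ 0 j *
        ((List.ofFn fun i : Fin m => τ i.succ).foldr (fun c f => lop c f)
          (fun B => if B = ∅ then (1 : K) else 0)) (A.erase j)
        = τ 0 j * ∑ h : Fin m → Fin n,
          if univ.image h = A.erase j then ∏ b, τ (Fin.succ b) (h b) else 0 := by
      intro j hj
      rw [ih (fun i => τ i.succ) (A.erase j) (by rw [card_erase_of_mem hj, hA]; rfl)]
    rw [sum_congr rfl h1, ← (Fin.consEquiv (fun _ : Fin (m + 1) => Fin n)).sum_comp,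
      Fintype.sum_prod_type]
    rw [← sum_subset (subset_univ A)]
    · refine sum_congr rfl fun j hj => ?_
      rw [mul_sum]
      refine sum_congr rfl fun h _ => ?_
      change _ = if univ.image (Fin.cons (α := fun _ => Fin n) j h : Fin (m + 1) → Fin n) = A
        then ∏ b, τ b ((Fin.cons (α := fun _ => Fin n) j h : Fin (m + 1) → Fin n) b) else 0
      rw [lop_perm_image]
      by_cases hc : univ.image h = A.erase j
      · rw [if_pos hc, if_pos ((lop_perm_iff A hA j h).2 ⟨hj, hc⟩), Fin.prod_univ_succ]
        simp
      · rw [if_neg hc, if_neg (fun h' => hc ((lop_perm_iff A hA j h).1 h').2), mul_zero]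
    · intro j _ hj
      refine sum_eq_zero fun h _ => ?_
      change (if univ.image (Fin.cons (α := fun _ => Fin n) j h : Fin (m + 1) → Fin n) = A
        then ∏ b, τ b ((Fin.cons (α := fun _ => Fin n) j h : Fin (m + 1) → Fin n) b) else 0) = 0
      rw [lop_perm_image, if_neg (fun h' => hj ((lop_perm_iff A hA j h).1 h').1)]

theorem lop_perm {K : Type*} [Field K] (n m : ℕ) (τ : Fin m → Fin n → K) (A : Finset (Fin n)) (hA : A.card = m) :
    ((List.ofFn τ).foldr (fun c f => lop c f) (fun B => if B = ∅ then (1 : K) else 0)) A =
      ∑ π : Equiv.Perm (Fin m), ∏ b, τ b (A.orderEmbOfFin hA (π b)) := by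
  rw [lop_perm_fun n m τ A hA, ← sum_filter]
  symm
  refine sum_bij (fun π _ => fun b => A.orderEmbOfFin hA (π b)) ?_ ?_ ?_ ?_
  · intro π _
    simp only [mem_filter, mem_univ, true_and]
    ext x
    simp only [mem_image, mem_univ, true_and]
    constructor
    · rintro ⟨b, rfl⟩
      exact orderEmbOfFin_mem A hA _
    · intro hx
      have h1 : x ∈ Set.range (A.orderEmbOfFin hA) := by
        rw [range_orderEmbOfFin]
        exact hx
      obtain ⟨i, rfl⟩ := h1
      exact ⟨π.symm i, by simp⟩
  · intro π _ π' _ h
    ext b
    have h1 := congrFun h b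
    have h2 := (A.orderEmbOfFin hA).injective h1
    rw [h2]
  · intro g hg
    simp only [mem_filter, mem_univ, true_and] at hg
    have hinj : Function.Injective g := by
      have h1 : (univ.image g).card = (univ : Finset (Fin m)).card := by
        rw [hg, hA]
        simp
      have h2 := card_image_iff.1 h1
      intro x y hxy
      exact h2 (by simp) (by simp) hxy
    have hr : ∀ b, ∃ i, A.orderEmbOfFin hA i = g b := by
      intro b
      have h1 : g b ∈ Set.range (A.orderEmbOfFin hA) := by
        rw [range_orderEmbOfFin, ← hg]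
        simp
      exact h1
    choose p hp using hr
    have hpi : Function.Injective p := by
      intro x y hxy
      apply hinj
      rw [← hp x, ← hp y, hxy]
    refine ⟨Equiv.ofBijective p (Finite.injective_iff_bijective.1 hpi), mem_univ _, ?_⟩
    funext b
    exact hp b
  · intro π _
    rfl


end Pool.Agent.Helper805_nf
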