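import Pool.Agent.Helper805_nf.X7
import Pool.Agent.Helper805_nf.X16
import Pool.Agent.Helper805_nf.X17
import Pool.Agent.Helper805_nf.X18

set_option autoImplicit false

namespace Pool.Agent.Helper805_nf

open Finset








/-- the linear form attached to x -/
noncomputable def tauF {K : Type*} [Field K] (n : ℕ) (ζ : K) (x : ℕ) : Fin n → K :=
  fun j => ζ ^ (((j : ℕ) + 1) * x) - (ζ⁻¹) ^ (((j : ℕ) + 1) * x)

theorem tauF_eq_zero_iff {K : Type*} [Field K] (n : ℕ) (ζ : K) (hζ : IsPrimitiveRoot ζ (2 * n + 1)) (x : ℕ)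
    (j : Fin n) : tauF n ζ x j = 0 ↔ 2 * n + 1 ∣ ((j : ℕ) + 1) * x := by
  have hne : ζ ≠ 0 := hζ.ne_zero (by omega)
  unfold tauF
  set m := ((j : ℕ) + 1) * x with hm
  rw [sub_eq_zero, inv_pow, ← mul_eq_one_iff_eq_inv₀ (pow_ne_zero _ hne), ← pow_add,
    hζ.pow_eq_one_iff_dvd]
  constructor
  · intro h
    have h2 : 2 * n + 1 ∣ 2 * m := by
      have h3 : m + m = 2 * m := by ring
      rw [← h3]; exact h
    have hc : Nat.Coprime (2 * n + 1) 2 := by
      rw [Nat.coprime_two_right] 
      exact ⟨n, rfl⟩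
    exact hc.dvd_of_dvd_mul_left h2
  · intro h
    exact dvd_add h h

theorem card_mult (n w : ℕ) :
    (Finset.univ.filter (fun j : Fin n => w ∣ (j : ℕ) + 1)).card = n / w := by
  rw [← Nat.card_multiples n w]
  apply Finset.card_bij (fun (j : Fin n) _ => (j : ℕ))
  · intro j hj
    simp at hj ⊢
    exact hj
  · intro a _ b _ h
    exact Fin.ext h
  · intro b hb
    simp at hb
    exact ⟨⟨b, hb.1⟩, by simp [hb.2], rfl⟩

theorem card_tauF {K : Type*} [Field K] [DecidableEq K] (n : ℕ) (ζ : K) (hζ : IsPrimitiveRoot ζ (2 * n + 1)) (x : ℕ) :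
    2 * n + 1 ≤ 2 * (Finset.univ.filter (fun j => tauF n ζ x j ≠ 0)).card + Nat.gcd x (2 * n + 1) := by
  set v := 2 * n + 1 with hv
  set g := Nat.gcd x v with hg
  have hvpos : 0 < v := by omega
  have hgpos : 0 < g := Nat.gcd_pos_of_pos_right _ hvpos
  obtain ⟨w, hw⟩ : g ∣ v := Nat.gcd_dvd_right _ _
  have hwpos : 0 < w := by
    rcases Nat.eq_zero_or_pos w with h | h
    · subst h; omega
    · exact h
  have hwv : w = v / g := by
    rw [hw, Nat.mul_div_cancel_left _ hgpos]
  have hz : Finset.univ.filter (fun j : Fin n => ¬ (tauF n ζ x j ≠ 0)) =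
      Finset.univ.filter (fun j : Fin n => w ∣ (j : ℕ) + 1) := by
    apply Finset.filter_congr
    intro j _
    rw [not_not, tauF_eq_zero_iff n ζ hζ x j, hwv]
    rw [Nat.div_dvd_iff_dvd_mul (Nat.gcd_dvd_right _ _) hgpos]
    constructor
    · intro h
      have h1 : v ∣ Nat.gcd (((j : ℕ) + 1) * x) (((j : ℕ) + 1) * v) :=
        Nat.dvd_gcd h (Dvd.intro_left _ rfl)
      rw [Nat.gcd_mul_left] at h1
      rw [mul_comm]
      exact h1
    · intro h
      rw [mul_comm] at h
      exact h.trans (Nat.mul_dvd_mul_left _ (Nat.gcd_dvd_left _ _))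
  have hsum := Finset.card_filter_add_card_filter_not (s := (Finset.univ : Finset (Fin n)))
    (fun j => tauF n ζ x j ≠ 0)
  rw [hz, card_mult] at hsum
  simp only [Finset.card_univ, Fintype.card_fin] at hsum
  have h1 : n / w * w ≤ n := Nat.div_mul_le_self n w
  have h2 : 2 * (n / w) < g := by
    by_contra hcon
    push Not at hcon
    have : g * w ≤ 2 * (n / w) * w := Nat.mul_le_mul_right _ hcon
    have h3 : 2 * (n / w) * w = 2 * (n / w * w) := by ring
    omega
  omega

theorem lop_supp {K : Type*} [Field K] {ι : Type*} [DecidableEq ι] (c : ι → K) (f : Finset ι → K) (b : ℕ)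
    (hf : ∀ A, f A ≠ 0 → A.card = b) : ∀ A, lop c f A ≠ 0 → A.card = b + 1 := by
  intro A hA
  obtain ⟨j, hj, hne⟩ := Finset.exists_ne_zero_of_sum_ne_zero hA
  have h1 : f (A.erase j) ≠ 0 := right_ne_zero_of_mul hne
  have h2 := hf _ h1
  rw [Finset.card_erase_of_mem hj] at h2
  have h3 : 0 < A.card := Finset.card_pos.2 ⟨j, hj⟩
  omega

/-- product of the forms attached to the list -/
noncomputable def prodF {K : Type*} [Field K] (n : ℕ) (ζ : K) (l : List ℕ) : Finset (Fin n) → K :=
  (l.map (tauF n ζ)).foldr (fun c f => lop c f) (fun B => if B = ∅ then (1 : K) else 0)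

theorem prodF_cons {K : Type*} [Field K] (n : ℕ) (ζ : K) (x : ℕ) (l : List ℕ) :
    prodF n ζ (x :: l) = lop (tauF n ζ x) (prodF n ζ l) := rfl

theorem prodF_supp {K : Type*} [Field K] (n : ℕ) (ζ : K) (l : List ℕ) :
    ∀ A, prodF n ζ l A ≠ 0 → A.card = l.length := by
  induction l with
  | nil =>
    intro A hA
    simp only [prodF, List.map_nil, List.foldr_nil] at hA
    by_cases h : A = ∅
    · simp [h]
    · simp [h] at hA
  | cons x l ih =>
    rw [prodF_cons]
    intro A hA
    rw [List.length_cons]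
    exact lop_supp _ _ _ ih A hA

theorem prodF_ne {K : Type*} [Field K] [CharZero K] (n : ℕ) (ζ : K) (hζ : IsPrimitiveRoot ζ (2 * n + 1))
    (l : List ℕ) (hs : l.Pairwise (fun x y => Nat.gcd x (2 * n + 1) ≤ Nat.gcd y (2 * n + 1)))
    (hl : 2 * l.length ≤ n)
    (hN : ∀ g : ℕ, g ∣ 2 * n + 1 → 1 < g →
      4 * (l.filter (fun x => g ≤ Nat.gcd x (2 * n + 1))).length ≤ 2 * n + 1 - g + 2) :
    ∃ A, prodF n ζ l A ≠ 0 := by
  classical
  induction l with
  | nil => exact ⟨∅, by simp [prodF]⟩
  | cons x l ih =>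
    rw [List.pairwise_cons] at hs
    rw [List.length_cons] at hl
    have ih' := ih hs.2 (by omega) (by
      intro g hg h1
      refine le_trans ?_ (hN g hg h1)
      apply Nat.mul_le_mul_left
      apply List.Sublist.length_le
      exact List.Sublist.filter _ (List.sublist_cons_self x l))
    rw [prodF_cons]
    by_contra hcon
    push Not at hcon
    have hcard := card_tauF n ζ hζ x
    have hg1 : Nat.gcd x (2 * n + 1) ∣ 2 * n + 1 := Nat.gcd_dvd_right _ _
    have hgle : Nat.gcd x (2 * n + 1) ≤ 2 * n + 1 := Nat.le_of_dvd (by omega) hg1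
    have hgpos : 0 < Nat.gcd x (2 * n + 1) := Nat.gcd_pos_of_pos_right _ (by omega)
    have hmain : 2 * l.length + 1 ≤ (Finset.univ.filter (fun j => tauF n ζ x j ≠ 0)).card := by
      rcases Nat.lt_or_ge 1 (Nat.gcd x (2 * n + 1)) with h1 | h1
      · have h2 := hN _ hg1 h1
        have h3 : ((x :: l).filter (fun y => Nat.gcd x (2 * n + 1) ≤ Nat.gcd y (2 * n + 1))) = x :: l := by
          apply List.filter_eq_self.2
          intro y hy
          rw [List.mem_cons] at hy
          rcases hy with rfl | hy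
          · simp
          · simpa using hs.1 y hy
        rw [h3, List.length_cons] at h2
        omega
      · omega
    have hz := wlp n l.length (tauF n ζ x) hmain (prodF n ζ l) (prodF_supp n ζ l) hcon
    obtain ⟨A, hA⟩ := ih'
    exact hA (hz A)

theorem prodF_replicate {K : Type*} [Field K] (n : ℕ) (ζ : K) (e a : ℕ) (l : List ℕ) :
    prodF n ζ (List.replicate a e ++ l) = (lop (tauF n ζ e))^[a] (prodF n ζ l) := by
  induction a with
  | zero => rfl
  | succ a ih =>
    rw [Function.iterate_succ', Function.comp_apply, ← ih]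
    rfl

theorem dominated (n r a : ℕ) (N : Multiset ℕ) (d e : ℕ) (hcard : r + a + Multiset.card N = n)
    (hd : Nat.Coprime d (2 * n + 1)) (he : Nat.Coprime e (2 * n + 1))
    (hL : ∀ x ∈ Multiset.replicate r d + Multiset.replicate a e + N, 1 ≤ x ∧ x ≤ n)
    (hNr : Multiset.card N ≤ r)
    (hN : ∀ g : ℕ, g ∣ 2 * n + 1 → 1 < g →
      4 * Multiset.card (N.filter (fun x => g ≤ Nat.gcd x (2 * n + 1))) ≤ 2 * n + 1 - g + 2) :
    ∃ g : Fin n ⊕ Fin n → Fin (2 * n + 1), Function.Injective g ∧
      Multiset.map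
        (fun i : Fin n =>
          min (Int.natAbs (((g (Sum.inl i) : ℕ) : ℤ) - ((g (Sum.inr i) : ℕ) : ℤ)))
            (2 * n + 1 - Int.natAbs (((g (Sum.inl i) : ℕ) : ℤ) - ((g (Sum.inr i) : ℕ) : ℤ))))
        (Finset.univ : Finset (Fin n)).val = 
          Multiset.replicate r d + Multiset.replicate a e + N := by
  classical
  have hζ := Complex.isPrimitiveRoot_exp (2 * n + 1) (by omega)
  generalize Complex.exp (2 * (Real.pi : ℂ) * Complex.I / ((2 * n + 1 : ℕ) : ℂ)) = ζ at hζ
  let rel : ℕ → ℕ → Prop := fun x y => Nat.gcd x (2 * n + 1) ≤ Nat.gcd y (2 * n + 1)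
  let inst1 : DecidableRel rel := fun x y => Nat.decLe _ _
  have : IsTrans ℕ rel := ⟨fun a b c hab hbc => le_trans hab hbc⟩
  have : Std.Total rel := ⟨fun a b => le_total _ _⟩
  set l : List ℕ := List.insertionSort rel N.toList with hl
  have hlN : (l : Multiset ℕ) = N := by
    rw [← Multiset.coe_toList N]
    rw [Multiset.coe_eq_coe]
    exact List.perm_insertionSort rel _
  have hlen : l.length = Multiset.card N := by
    rw [← hlN, Multiset.coe_card]
  have hsort : l.Pairwise (fun x y => Nat.gcd x (2 * n + 1) ≤ Nat.gcd y (2 * n + 1)) :=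
    List.pairwise_insertionSort rel _
  have hne := prodF_ne n ζ hζ l hsort (by omega) (by
    intro g hg h1
    have := hN g hg h1
    rw [← hlN, Multiset.filter_coe, Multiset.coe_card] at this
    exact this)
  have htau : ∀ j ∈ (Finset.univ : Finset (Fin n)), tauF n ζ e j ≠ 0 := by
    intro j _ h0
    rw [tauF_eq_zero_iff n ζ hζ] at h0
    have h1 : 2 * n + 1 ∣ (j : ℕ) + 1 := he.symm.dvd_of_dvd_mul_right h0
    have h2 := Nat.le_of_dvd (by omega) h1
    have := j.2
    omega
  have hne2 : ∃ A, prodF n ζ (List.replicate a e ++ l) A ≠ 0 := by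
    by_contra hcon
    push Not at hcon
    have := slp (Finset.univ : Finset (Fin n)) (tauF n ζ e) htau a l.length
      (by simp only [Finset.card_univ, Fintype.card_fin]; omega) (prodF n ζ l)
      (fun A hA => ⟨Finset.subset_univ _, prodF_supp n ζ l A hA⟩)
      (fun A _ => by rw [← prodF_replicate]; exact hcon A)
    obtain ⟨A, hA⟩ := hne
    exact hA (this A)
  obtain ⟨A, hA⟩ := hne2
  set l2 := List.replicate a e ++ l with hl2
  have hAc := prodF_supp n ζ l2 A hA
  have hper : ((List.ofFn (fun b : Fin l2.length => tauF n ζ (l2.get b))).foldr (fun c f => lop c f)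
      (fun B => if B = ∅ then (1 : ℂ) else 0)) A ≠ 0 := by
    have h1 : List.ofFn (fun b : Fin l2.length => tauF n ζ (l2.get b)) = l2.map (tauF n ζ) := by
      rw [← List.ofFn_get (l2.map (tauF n ζ))]
      apply List.ext_get
      · simp
      · intro k h1 h2
        simp
    rw [h1]
    exact hA
  rw [lop_perm n l2.length (fun b => tauF n ζ (l2.get b)) A hAc] at hper
  have hl2len : l2.length = a + Multiset.card N := by
    rw [hl2, List.length_append, List.length_replicate, hlen]
  refine exchange_factor n r l2.length (by omega) ζ hζ d hd (fun b => l2.get b) (fun b => A.orderEmbOfFin hAc b)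
    (fun a b h => (A.orderEmbOfFin hAc).injective h) ?_ _ hL ?_
  · exact hper
  · rw [Fin.univ_val_map]
    have : List.ofFn (fun b : Fin l2.length => l2.get b) = l2 := List.ofFn_get l2
    rw [this, hl2, ← Multiset.coe_add, hlN, Multiset.coe_replicate]
    abel

end Pool.Agent.Helper805_nf
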