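import Pool.Agent.Helper805_nf.Defs2

set_option autoImplicit false

namespace Pool.Agent.Helper805_nf

open Finset




section aux

variable {ι : Type*} [DecidableEq ι] [Fintype ι] {R : Type*} [CommRing R]

/-- Determinant with two rows replaced. -/
def det2 (B : Matrix ι ι R) (p q : ι) (u w : ι → R) : R := ((B.updateRow p u).updateRow q w).det

omit [Fintype ι] [CommRing R] in
theorem upd_comm (B : Matrix ι ι R) {p q : ι} (hpq : p ≠ q) (u w : ι → R) :
    (B.updateRow p u).updateRow q w = (B.updateRow q w).updateRow p u := by
  ext i j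
  by_cases h1 : i = p
  · subst h1
    rw [Matrix.updateRow_ne hpq]
    simp
  · by_cases h2 : i = q
    · subst h2
      rw [Matrix.updateRow_ne h1]
      simp
    · rw [Matrix.updateRow_ne h2, Matrix.updateRow_ne h1, Matrix.updateRow_ne h1, Matrix.updateRow_ne h2]

theorem det2_w (B : Matrix ι ι R) {p q k : ι} (hkp : k ≠ p) (hkq : k ≠ q) (u w : ι → R) (c s : R) :
    det2 B p q u (c • B k + s • w) = s * det2 B p q u w := by
  unfold det2
  rw [Matrix.det_updateRow_add, Matrix.det_updateRow_smul, Matrix.det_updateRow_smul]
  have : ((B.updateRow p u).updateRow q (B k)).det = 0 := by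
    apply Matrix.det_zero_of_row_eq hkq
    ext j
    rw [Matrix.updateRow_ne hkq, Matrix.updateRow_ne hkp, Matrix.updateRow_self]
  rw [this, mul_zero, zero_add]

theorem det2_u (B : Matrix ι ι R) {p q k : ι} (hpq : p ≠ q) (hkp : k ≠ p) (hkq : k ≠ q) (u w : ι → R) (c s : R) :
    det2 B p q (c • B k + s • u) w = s * det2 B p q u w := by
  have h := det2_w B hkq hkp w u c s
  unfold det2 at h ⊢
  rw [upd_comm B hpq, upd_comm B hpq u w]
  exact h

/-- If `u + w` is a multiple of another row then the determinant vanishes. -/
theorem det2_zero (B : Matrix ι ι R) {p q k : ι} (hpq : p ≠ q) (hkp : k ≠ p) (hkq : k ≠ q) (u w : ι → R) (c : R)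
    (h : u + w = c • B k) : det2 B p q u w = 0 := by
  have hw : w = c • B k + (-1 : R) • u := by
    rw [← h]; ext j; simp
  rw [hw, det2_w B hkp hkq u u c (-1)]
  have : det2 B p q u u = 0 := by
    unfold det2
    apply Matrix.det_zero_of_row_eq hpq
    ext j
    rw [Matrix.updateRow_ne hpq]
    simp
  rw [this, mul_zero]

end aux

section pol

variable {K : Type*} [Field K] {ι : Type*} [DecidableEq ι] [Fintype ι]

open Polynomial

/-- Quotient of `X^m - β^m` by `X - β`. -/
noncomputable def gq (β : K) (m : ℕ) : K[X] := ∑ i ∈ range m, (X : K[X]) ^ i * (C β) ^ (m - 1 - i)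

theorem gq_mul (β : K) (m : ℕ) : (X : K[X]) ^ m = C (β ^ m) + (X - C β) * gq β m := by
  have h := (Commute.all (X : K[X]) (C β)).geom_sum₂_mul m
  unfold gq
  rw [mul_comm, h, C_pow]
  ring

theorem gq_eval_one (m : ℕ) : (gq (1 : K) m).eval 1 = m := by
  unfold gq
  simp [Polynomial.eval_finsetSum]

/-- Extraction of two factors. -/
theorem det2_factor (B : Matrix ι ι K[X]) {p q k₁ k₂ : ι} (hpq : p ≠ q) (h1p : k₁ ≠ p) (h1q : k₁ ≠ q)
    (h2p : k₂ ≠ p) (h2q : k₂ ≠ q) (z : ι → ℕ) (N : ℕ) (β γ : K)
    (hB1 : ∀ b, B k₁ b = C (β ^ z b)) (hB2 : ∀ b, C (β ^ (N - z b)) = C γ * B k₂ b) :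
    det2 B p q (fun b => X ^ z b) (fun b => X ^ (N - z b)) =
      (X - C β) ^ 2 * det2 B p q (fun b => gq β (z b)) (fun b => gq β (N - z b)) := by
  have e1 : (fun b => (X : K[X]) ^ z b) = (1 : K[X]) • B k₁ + (X - C β) • (fun b => gq β (z b)) := by
    funext b
    simp only [Pi.add_apply, Pi.smul_apply, smul_eq_mul, one_mul, hB1]
    exact gq_mul β (z b)
  have e2 : (fun b => (X : K[X]) ^ (N - z b)) = (C γ) • B k₂ + (X - C β) • (fun b => gq β (N - z b)) := by
    funext b
    simp only [Pi.add_apply, Pi.smul_apply, smul_eq_mul, ← hB2]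
    exact gq_mul β (N - z b)
  rw [e1, e2, det2_u B hpq h1p h1q, det2_w B h2p h2q]
  ring

end pol

open Polynomial in
theorem dim_poly {K : Type*} [Field K] (n r : ℕ) (t : Fin r → K) (i0 : Fin r) (h0 : ∀ k, k ≠ i0 → t k ≠ 0)
    (c : (Fin r ↪o Fin n) → K) :
    ∃ Q : Polynomial K, Q.natDegree ≤ 2 * (n + r) ∧
      (∀ x : K, x ≠ 0 → Q.eval x = x ^ (n + r) * ∑ y : Fin r ↪o Fin n, c y * dimDet (Function.update t i0 x) y) ∧
      (Polynomial.X - Polynomial.C (1 : K)) ^ 3 ∣ Q ∧
      ∀ k, k ≠ i0 → (Polynomial.X - Polynomial.C (t k)) ^ 2 ∣ Q ∧ (Polynomial.X - Polynomial.C (t k)⁻¹) ^ 2 ∣ Q := by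
  classical
  set N := n + r with hN
  have hz : ∀ (y : Fin r ↪o Fin n) b, colPos y b ≤ N := by
    intro y b
    rcases b with _ | ⟨i, _ | _⟩
    · simp [colPos]
    · have h1 := (y i).2; have h2 := i.2
      simp only [colPos]; omega
    · have h1 := (y i).2; have h2 := i.2
      simp only [colPos]; omega
  let p : Option (Fin r × Bool) := some (i0, false)
  let q : Option (Fin r × Bool) := some (i0, true)
  have hpq : p ≠ q := by simp [p, q]
  let B : (Fin r ↪o Fin n) → Matrix (Option (Fin r × Bool)) (Option (Fin r × Bool)) K[X] := fun y =>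
    Matrix.of fun a b => C (rowVal t a ^ colPos y b)
  let D : (Fin r ↪o Fin n) → K[X] := fun y =>
    det2 (B y) p q (fun b => X ^ colPos y b) (fun b => X ^ (N - colPos y b))
  refine ⟨∑ y, C (c y) * D y, ?_, ?_, ?_, ?_⟩
  · -- degree
    apply Polynomial.natDegree_sum_le_of_forall_le
    intro y _
    refine (Polynomial.natDegree_C_mul_le _ _).trans ?_
    simp only [D, det2]
    rw [Matrix.det_apply]
    apply Polynomial.natDegree_sum_le_of_forall_le
    intro σ _
    refine (Polynomial.natDegree_smul_le _ _).trans ?_
    refine (Polynomial.natDegree_prod_le _ _).trans ?_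
    rw [← Equiv.sum_comp σ⁻¹]
    have hb : ∀ a, ((((B y).updateRow p fun b => X ^ colPos y b).updateRow q fun b => X ^ (N - colPos y b))
        (σ (σ⁻¹ a)) (σ⁻¹ a)).natDegree ≤ (if a = p then N else 0) + (if a = q then N else 0) := by
      intro a
      rw [show σ (σ⁻¹ a) = a from σ.apply_symm_apply a]
      by_cases h2 : a = q
      · rw [h2, Matrix.updateRow_self]
        have : ((X : K[X]) ^ (N - colPos y (σ⁻¹ q))).natDegree ≤ N := by
          rw [Polynomial.natDegree_X_pow]; omega
        simp only [if_true]
        omega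
      · rw [Matrix.updateRow_ne h2]
        by_cases h1 : a = p
        · rw [h1, Matrix.updateRow_self]
          have : ((X : K[X]) ^ (colPos y (σ⁻¹ p))).natDegree ≤ N := by
            rw [Polynomial.natDegree_X_pow]; exact hz y _
          simp only [if_true]
          omega
        · rw [Matrix.updateRow_ne h1]
          simp [B]
    refine (Finset.sum_le_sum fun a _ => hb a).trans ?_
    rw [Finset.sum_add_distrib, Finset.sum_ite_eq' , Finset.sum_ite_eq']
    simp
    omega
  · -- evaluation
    intro x hx
    rw [Polynomial.eval_finsetSum, Finset.mul_sum]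
    apply Finset.sum_congr rfl
    intro y _
    rw [Polynomial.eval_mul, Polynomial.eval_C]
    have key : (D y).eval x = x ^ N * dimDet (Function.update t i0 x) y := by
      have h1 : (D y).eval x = ((((B y).updateRow p fun b => X ^ colPos y b).updateRow q
          fun b => X ^ (N - colPos y b)).map (Polynomial.eval x)).det := by
        have := RingHom.map_det (Polynomial.evalRingHom x) (((B y).updateRow p fun b => X ^ colPos y b).updateRow q
          fun b => X ^ (N - colPos y b))
        simpa [D, det2] using this
      rw [h1]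
      have h2 : (((B y).updateRow p fun b => X ^ colPos y b).updateRow q
          fun b => X ^ (N - colPos y b)).map (Polynomial.eval x) =
          (Matrix.of fun a b : Option (Fin r × Bool) => rowVal (Function.update t i0 x) a ^ colPos y b).updateRow q
            (x ^ N • (Matrix.of fun a b : Option (Fin r × Bool) =>
              rowVal (Function.update t i0 x) a ^ colPos y b) q) := by
        ext a b
        rw [Matrix.map_apply]
        by_cases h2 : a = q
        · rw [h2, Matrix.updateRow_self, Matrix.updateRow_self]
          simp only [Polynomial.eval_pow, Polynomial.eval_X, Pi.smul_apply, Matrix.of_apply, smul_eq_mul, q, rowVal,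
            Function.update_self]
          rw [inv_pow, pow_sub₀ x hx (hz y b)]
        · rw [Matrix.updateRow_ne h2, Matrix.updateRow_ne h2]
          by_cases h1 : a = p
          · rw [h1, Matrix.updateRow_self]
            simp only [Polynomial.eval_pow, Polynomial.eval_X, Matrix.of_apply, p, rowVal,
              Function.update_self]
          · rw [Matrix.updateRow_ne h1]
            simp only [B, Matrix.of_apply, Polynomial.eval_C]
            congr 1
            rcases a with _ | ⟨i, _ | _⟩
            · rfl
            · have : i ≠ i0 := by rintro rfl; exact h1 rfl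
              simp [rowVal, Function.update_of_ne this]
            · have : i ≠ i0 := by rintro rfl; exact h2 rfl
              simp [rowVal, Function.update_of_ne this]
      rw [h2, Matrix.det_updateRow_smul, Matrix.updateRow_eq_self]
      rfl
    rw [key]
    ring
  · -- (X - 1)^3
    apply Finset.dvd_sum
    intro y _
    apply Dvd.dvd.mul_left
    have hnp : (none : Option (Fin r × Bool)) ≠ p := by simp [p]
    have hnq : (none : Option (Fin r × Bool)) ≠ q := by simp [q]
    have hf := det2_factor (B y) hpq hnp hnq hnp hnq (fun b => colPos y b) N (1 : K) 1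
      (by intro b; simp [B, rowVal]) (by intro b; simp [B, rowVal])
    simp only [D]
    rw [hf]
    have hdv : (X - C (1 : K)) ∣ det2 (B y) p q (fun b => gq (1 : K) (colPos y b))
        (fun b => gq (1 : K) (N - colPos y b)) := by
      rw [Polynomial.dvd_iff_isRoot, Polynomial.IsRoot.def]
      have h1 : (det2 (B y) p q (fun b => gq (1 : K) (colPos y b))
        (fun b => gq (1 : K) (N - colPos y b))).eval 1 =
          det2 ((B y).map (Polynomial.eval 1)) p q (fun b => ((colPos y b : ℕ) : K))
            (fun b => ((N - colPos y b : ℕ) : K)) := by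
        have := RingHom.map_det (Polynomial.evalRingHom (1 : K))
          (((B y).updateRow p (fun b => gq (1 : K) (colPos y b))).updateRow q (fun b => gq (1 : K) (N - colPos y b)))
        unfold det2
        rw [Polynomial.coe_evalRingHom] at this
        rw [this]
        congr 1
        ext a b
        rw [RingHom.mapMatrix_apply, Matrix.map_apply]
        by_cases h2 : a = q
        · rw [h2, Matrix.updateRow_self, Matrix.updateRow_self, Polynomial.coe_evalRingHom, gq_eval_one]
        · rw [Matrix.updateRow_ne h2, Matrix.updateRow_ne h2]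
          by_cases h1 : a = p
          · rw [h1, Matrix.updateRow_self, Matrix.updateRow_self, Polynomial.coe_evalRingHom, gq_eval_one]
          · rw [Matrix.updateRow_ne h1, Matrix.updateRow_ne h1, Matrix.map_apply, Polynomial.coe_evalRingHom]
      rw [h1]
      apply det2_zero _ hpq hnp hnq _ _ (N : K)
      funext b
      simp only [Pi.add_apply, Pi.smul_apply, Matrix.map_apply, smul_eq_mul]
      have : (B y none b).eval 1 = 1 := by simp [B, rowVal]
      rw [this, mul_one, ← Nat.cast_add, Nat.add_sub_cancel' (hz y b)]
    obtain ⟨w, hw⟩ := hdv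
    rw [hw]
    exact ⟨w, by ring⟩
  · -- other roots
    intro k hk
    have hkfp : (some (k, false) : Option (Fin r × Bool)) ≠ p := by simp [p, hk]
    have hkfq : (some (k, false) : Option (Fin r × Bool)) ≠ q := by simp [q]
    have hktp : (some (k, true) : Option (Fin r × Bool)) ≠ p := by simp [p]
    have hktq : (some (k, true) : Option (Fin r × Bool)) ≠ q := by simp [q, hk]
    have hk0 := h0 k hk
    constructor
    · apply Finset.dvd_sum
      intro y _
      apply Dvd.dvd.mul_left
      simp only [D]
      rw [det2_factor (B y) hpq hkfp hkfq hktp hktq (fun b => colPos y b) N (t k) (t k ^ N)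
        (by intro b; simp [B, rowVal]) ?_]
      · exact Dvd.intro _ rfl
      · intro b
        simp only [B, Matrix.of_apply, rowVal]
        rw [← C_mul, inv_pow, pow_sub₀ _ hk0 (hz y b)]
    · apply Finset.dvd_sum
      intro y _
      apply Dvd.dvd.mul_left
      simp only [D]
      rw [det2_factor (B y) hpq hktp hktq hkfp hkfq (fun b => colPos y b) N ((t k)⁻¹) ((t k)⁻¹ ^ N)
        (by intro b; rfl) ?_]
      · exact Dvd.intro _ rfl
      · intro b
        simp only [B, Matrix.of_apply, rowVal]
        rw [← C_mul, pow_sub₀ _ (inv_ne_zero hk0) (hz y b), ← inv_pow (t k)⁻¹, inv_inv]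


end Pool.Agent.Helper805_nf
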