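import Pool.Agent.Helper805_nf.X1
import Pool.Agent.Helper805_nf.X2a

set_option autoImplicit false

namespace Pool.Agent.Helper805_nf

open Finset







theorem dim_extend {K : Type*} [Field K] (n r : ℕ) (ζ : K) (hζ : IsPrimitiveRoot ζ (2 * n + 1)) (t : Fin r → K)
    (i0 : Fin r) (h0 : ∀ k, k ≠ i0 → t k ≠ 0) (h1 : ∀ k, k ≠ i0 → t k ≠ 1) (h2 : ∀ k, k ≠ i0 → t k * t k ≠ 1)
    (h3 : ∀ k l, k ≠ i0 → l ≠ i0 → k ≠ l → t k ≠ t l ∧ t k * t l ≠ 1)
    (c : (Fin r ↪o Fin n) → K)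
    (hvan : ∀ j : ℕ, ∑ y : Fin r ↪o Fin n, c y * dimDet (Function.update t i0 (ζ ^ j)) y = 0)
    (x : K) (hx : x ≠ 0) : ∑ y : Fin r ↪o Fin n, c y * dimDet (Function.update t i0 x) y = 0 := by
  classical
  obtain ⟨Q, hdeg, hev, hQ1, hQt⟩ := dim_poly n r t i0 h0 c
  set T : Finset (Fin r) := Finset.univ.erase i0 with hT
  have hmem : ∀ k, k ∈ T ↔ k ≠ i0 := by
    intro k
    simp [hT]
  have hTc : T.card = r - 1 := by
    rw [hT, Finset.card_erase_of_mem (Finset.mem_univ _), Finset.card_univ, Fintype.card_fin]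
  have hr : 1 ≤ r := by
    have := i0.2
    omega
  set S1 : Finset K := T.image t with hS1
  set S2 : Finset K := T.image (fun k => (t k)⁻¹) with hS2
  have inj1 : Set.InjOn t (T : Set (Fin r)) := by
    intro k hk l hl e
    by_contra hkl
    exact (h3 k l ((hmem k).1 hk) ((hmem l).1 hl) hkl).1 e
  have inj2 : Set.InjOn (fun k => (t k)⁻¹) (T : Set (Fin r)) := by
    intro k hk l hl e
    exact inj1 hk hl (inv_injective e)
  have hdisj : Disjoint S1 S2 := by
    rw [Finset.disjoint_left]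
    intro b hb1 hb2
    rw [hS1, Finset.mem_image] at hb1
    rw [hS2, Finset.mem_image] at hb2
    obtain ⟨k, hk, rfl⟩ := hb1
    obtain ⟨l, hl, he⟩ := hb2
    have hl0 := h0 l ((hmem l).1 hl)
    have e : t k * t l = 1 := by
      rw [← he, inv_mul_cancel₀ hl0]
    by_cases hkl : k = l
    · subst hkl
      exact h2 k ((hmem k).1 hk) e
    · exact (h3 k l ((hmem k).1 hk) ((hmem l).1 hl) hkl).2 e
  have hcard : (S1 ∪ S2).card = 2 * (r - 1) := by
    rw [Finset.card_union_of_disjoint hdisj, hS1, hS2, Finset.card_image_of_injOn inj1,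
      Finset.card_image_of_injOn inj2, hTc, two_mul]
  have h1S : (1 : K) ∉ S1 ∪ S2 := by
    rw [Finset.mem_union]
    rintro (h | h)
    · rw [hS1, Finset.mem_image] at h
      obtain ⟨k, hk, he⟩ := h
      exact h1 k ((hmem k).1 hk) he
    · rw [hS2, Finset.mem_image] at h
      obtain ⟨k, hk, he⟩ := h
      exact h1 k ((hmem k).1 hk) (inv_eq_one.1 he)
  have hQS : ∀ b ∈ S1 ∪ S2, (Polynomial.X - Polynomial.C b) ^ 2 ∣ Q := by
    intro b hb
    rw [Finset.mem_union] at hb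
    rcases hb with h | h
    · rw [hS1, Finset.mem_image] at h
      obtain ⟨k, hk, rfl⟩ := h
      exact (hQt k ((hmem k).1 hk)).1
    · rw [hS2, Finset.mem_image] at h
      obtain ⟨k, hk, rfl⟩ := h
      exact (hQt k ((hmem k).1 hk)).2
  have hζ0 : ζ ≠ 0 := hζ.ne_zero (by omega)
  have hQ : Q = 0 := by
    refine poly_count n (r - 1) ζ hζ (S1 ∪ S2) hcard h1S Q (by omega) hQ1 hQS ?_
    intro j
    rw [hev _ (pow_ne_zero _ hζ0), hvan j, mul_zero]
  have h := hev x hx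
  rw [hQ, Polynomial.eval_zero] at h
  exact (mul_eq_zero.1 h.symm).resolve_left (pow_ne_zero _ hx)


end Pool.Agent.Helper805_nf
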