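import Pool.Agent.Helper805_nf.Defs2

set_option autoImplicit false

namespace Pool.Agent.Helper805_nf

open Finset






theorem dimDet_perm {K : Type*} [Field K] {r n : ℕ} (t t' : Fin r → K) (y : Fin r → Fin n)
    (P : Equiv.Perm (Option (Fin r × Bool))) (h : ∀ a, rowVal t a = rowVal t' (P a)) :
    dimDet t y = (Equiv.Perm.sign P : K) * dimDet t' y := by
  classical
  unfold dimDet
  have h1 : (Matrix.of fun a b : Option (Fin r × Bool) => rowVal t a ^ colPos y b)
      = (Matrix.of fun a b : Option (Fin r × Bool) => rowVal t' a ^ colPos y b).submatrix P id := by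
    ext a b
    simp [h a]
  rw [h1, Matrix.det_permute]

theorem dimDet_eq_rows {K : Type*} [Field K] {r n : ℕ} (t : Fin r → K) (y : Fin r → Fin n)
    (a b : Option (Fin r × Bool)) (hab : a ≠ b) (h : rowVal t a = rowVal t b) :
    dimDet t y = 0 := by
  classical
  unfold dimDet
  apply Matrix.det_zero_of_row_eq hab
  funext c
  simp [h]

theorem exists_kappa {K : Type*} [Field K] (n : ℕ) (ζ : K) (hζ : IsPrimitiveRoot ζ (2 * n + 1)) (m : ℕ)
    (hm : m % (2 * n + 1) ≠ 0) :
    ∃ (k : Fin n) (s : Bool), ζ ^ m = if s then (ζ ^ ((k : ℕ) + 1))⁻¹ else ζ ^ ((k : ℕ) + 1) := by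
  have h1 : ζ ^ (2 * n + 1) = 1 := hζ.pow_eq_one
  have hlt : m % (2 * n + 1) < 2 * n + 1 := Nat.mod_lt _ (by omega)
  have hz : ζ ^ m = ζ ^ (m % (2 * n + 1)) := by
    conv_lhs => rw [← Nat.div_add_mod m (2 * n + 1)]
    rw [pow_add, pow_mul, h1, one_pow, one_mul]
  set ρ := m % (2 * n + 1) with hρ
  by_cases hle : ρ ≤ n
  · refine ⟨⟨ρ - 1, by omega⟩, false, ?_⟩
    have : ρ - 1 + 1 = ρ := by omega
    simp [hz, this]
  · refine ⟨⟨2 * n - ρ, by omega⟩, true, ?_⟩
    have hne : ζ ≠ 0 := hζ.ne_zero (by omega)
    simp only [if_true]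
    rw [hz]
    apply eq_inv_of_mul_eq_one_left
    rw [← pow_add]
    have : ρ + (2 * n - ρ + 1) = 2 * n + 1 := by omega
    rw [this, h1]

theorem dim_base {K : Type*} [Field K] (n r : ℕ) (ζ : K) (hζ : IsPrimitiveRoot ζ (2 * n + 1)) (j : Fin r → ℕ)
    (c : (Fin r ↪o Fin n) → K)
    (hvan : ∀ J : Fin r ↪o Fin n, ∑ y : Fin r ↪o Fin n, c y * dimDet (fun i => ζ ^ ((J i : ℕ) + 1)) y = 0) :
    ∑ y : Fin r ↪o Fin n, c y * dimDet (fun i => ζ ^ (j i)) y = 0 := by
  classical
  by_cases h0 : ∃ i, j i % (2 * n + 1) = 0
  · obtain ⟨i, hi⟩ := h0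
    apply Finset.sum_eq_zero
    intro y _
    have h1 : ζ ^ (j i) = 1 := (hζ.pow_eq_one_iff_dvd _).2 (Nat.dvd_of_mod_eq_zero hi)
    rw [dimDet_eq_rows (fun i => ζ ^ (j i)) y none (some (i, false)) (by simp) (by simp [rowVal, h1]),
      mul_zero]
  · push Not at h0
    have hκ : ∀ i, ∃ (k : Fin n) (s : Bool),
        ζ ^ (j i) = if s then (ζ ^ ((k : ℕ) + 1))⁻¹ else ζ ^ ((k : ℕ) + 1) :=
      fun i => exists_kappa n ζ hζ (j i) (h0 i)
    choose κ s hs using hκ
    by_cases hinj : Function.Injective κ
    · have hcard : (Finset.univ.image κ).card = r := by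
        rw [Finset.card_image_of_injective _ hinj]
        simp
      let J : Fin r ↪o Fin n := (Finset.univ.image κ).orderEmbOfFin hcard
      have hex : ∀ i, ∃ k, J k = κ i := by
        intro i
        have : κ i ∈ Set.range J := by
          rw [show Set.range J = ((Finset.univ.image κ : Finset (Fin n)) : Set (Fin n)) from
            Finset.range_orderEmbOfFin _ hcard]
          simp
        exact this
      choose π hπ using hex
      have hπinj : Function.Injective π := by
        intro a b hab
        apply hinj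
        rw [← hπ a, ← hπ b, hab]
      let πe : Equiv.Perm (Fin r) := Equiv.ofBijective π (Finite.injective_iff_bijective.1 hπinj)
      have hπe : ∀ i, πe i = π i := fun i => rfl
      let Q : Equiv.Perm (Fin r × Bool) :=
        { toFun := fun p => (πe p.1, xor p.2 (s p.1))
          invFun := fun p => (πe.symm p.1, xor p.2 (s (πe.symm p.1)))
          left_inv := by
            rintro ⟨i, b⟩
            simp
          right_inv := by
            rintro ⟨i, b⟩
            simp }
      let P : Equiv.Perm (Option (Fin r × Bool)) := Equiv.optionCongr Q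
      have hP : ∀ a, rowVal (fun i => ζ ^ (j i)) a = rowVal (fun i => ζ ^ ((J i : ℕ) + 1)) (P a) := by
        intro a
        rcases a with _ | ⟨i, b⟩
        · simp [P, rowVal]
        · have hJ : J (πe i) = κ i := hπ i
          have hsi := hs i
          have hPa : P (some (i, b)) = some (πe i, xor b (s i)) := by
            simp [P, Q]
          rw [hPa]
          cases b <;> cases hb : s i <;> simp [rowVal, hJ, hsi, hb]
      have hsum : ∀ y : Fin r ↪o Fin n, c y * dimDet (fun i => ζ ^ (j i)) y
          = (Equiv.Perm.sign P : K) * (c y * dimDet (fun i => ζ ^ ((J i : ℕ) + 1)) y) := by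
        intro y
        rw [dimDet_perm _ _ _ P hP]
        ring
      rw [Finset.sum_congr rfl (fun y _ => hsum y), ← Finset.mul_sum, hvan J, mul_zero]
    · obtain ⟨i, k, hik, hne⟩ : ∃ i k, κ i = κ k ∧ i ≠ k := by
        simp only [Function.Injective] at hinj
        push Not at hinj
        obtain ⟨i, k, h1, h2⟩ := hinj
        exact ⟨i, k, h1, h2⟩
      apply Finset.sum_eq_zero
      intro y _
      have hz : dimDet (fun i => ζ ^ (j i)) y = 0 := by
        have hsi := hs i
        have hsk := hs k
        cases hbi : s i <;> cases hbk : s k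
        · apply dimDet_eq_rows _ y (some (i, false)) (some (k, false))
          · simp [hne]
          · simp [rowVal, hsi, hsk, hbi, hbk, hik]
        · apply dimDet_eq_rows _ y (some (i, false)) (some (k, true))
          · simp
          · simp [rowVal, hsi, hsk, hbi, hbk, hik]
        · apply dimDet_eq_rows _ y (some (i, false)) (some (k, true))
          · simp
          · simp [rowVal, hsi, hsk, hbi, hbk, hik]
        · apply dimDet_eq_rows _ y (some (i, false)) (some (k, false))
          · simp [hne]
          · simp [rowVal, hsi, hsk, hbi, hbk, hik]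
      rw [hz, mul_zero]

end Pool.Agent.Helper805_nf
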