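import Pool.Agent.Helper805_nf.X2
import Pool.Agent.Helper805_nf.X3b

set_option autoImplicit false

namespace Pool.Agent.Helper805_nf

open Finset







/-- Two equal row values make the determinant vanish. -/
theorem dimDet_eq_zero {K : Type*} [Field K] {r n : ℕ} (t : Fin r → K) (y : Fin r → Fin n)
    (h : ¬ Function.Injective (rowVal t)) : dimDet t y = 0 := by
  unfold Function.Injective at h
  push Not at h
  obtain ⟨a, b, hab, hne⟩ := h
  unfold dimDet
  refine Matrix.det_zero_of_row_eq hne ?_
  ext x
  simp only [Matrix.of_apply, hab]

theorem dim_generic {K : Type*} [Field K] (n r : ℕ) (ζ : K) (hζ : IsPrimitiveRoot ζ (2 * n + 1)) (T : Fin r → K)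
    (h0 : ∀ k, T k ≠ 0) (h1 : ∀ k, T k ^ (2 * n + 1) ≠ 1) (h2 : ∀ k, T k * T k ≠ 1)
    (h3 : ∀ k l, k ≠ l → T k ≠ T l ∧ T k * T l ≠ 1) (c : (Fin r ↪o Fin n) → K)
    (hvan : ∀ J : Fin r ↪o Fin n, ∑ y : Fin r ↪o Fin n, c y * dimDet (fun i => ζ ^ ((J i : ℕ) + 1)) y = 0) :
    ∑ y : Fin r ↪o Fin n, c y * dimDet T y = 0 := by
  classical
  have hζ0 : ζ ≠ 0 := hζ.ne_zero (by omega)
  have key : ∀ (A : Finset (Fin r)) (j : Fin r → ℕ),
      ∑ y : Fin r ↪o Fin n, c y * dimDet (fun i => if i ∈ A then T i else ζ ^ (j i)) y = 0 := by
    intro A
    induction A using Finset.induction_on with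
    | empty =>
      intro j
      simpa using dim_base n r ζ hζ j c hvan
    | insert i0 A hi0 ih =>
      intro j
      set t : Fin r → K := fun i => if i ∈ insert i0 A then T i else ζ ^ (j i) with ht
      by_cases hinj : Function.Injective (rowVal t)
      · have hu : t = Function.update t i0 (T i0) := by
          funext i
          by_cases hi : i = i0
          · subst hi
            simp [ht]
          · simp [Function.update_of_ne hi]
        rw [hu]
        refine dim_extend n r ζ hζ t i0 ?_ ?_ ?_ ?_ c ?_ (T i0) (h0 i0)
        · intro k _
          simp only [ht]
          split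
          · exact h0 k
          · exact pow_ne_zero _ hζ0
        · intro k _ hk
          have := @hinj (some (k, false)) none (by simp [rowVal, hk])
          simp at this
        · intro k _ hk
          have := @hinj (some (k, false)) (some (k, true))
            (by simp only [rowVal]; exact eq_inv_of_mul_eq_one_left hk)
          simp at this
        · intro k l _ _ hkl
          constructor
          · intro hk
            have := @hinj (some (k, false)) (some (l, false)) (by simp only [rowVal]; exact hk)
            simp at this
            exact hkl this
          · intro hk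
            have := @hinj (some (k, false)) (some (l, true))
              (by simp only [rowVal]; exact eq_inv_of_mul_eq_one_left hk)
            simp at this
        · intro j'
          have e : Function.update t i0 (ζ ^ j') =
              fun i => if i ∈ A then T i else ζ ^ (Function.update j i0 j' i) := by
            funext i
            by_cases hi : i = i0
            · subst hi
              simp [hi0]
            · simp [Function.update_of_ne hi, ht, Finset.mem_insert, hi]
          rw [e]
          exact ih _
      · apply Finset.sum_eq_zero
        intro y _
        rw [dimDet_eq_zero t y hinj, mul_zero]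
  have := key Finset.univ (fun _ => 0)
  simpa using this



end Pool.Agent.Helper805_nf
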