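import Pool.Agent.Helper805_nf.X4a

set_option autoImplicit false

namespace Pool.Agent.Helper805_nf

open Finset







lemma zpow_sum_eq {K : Type*} [Field K] {ι : Type*} (s : Finset ι) (f : ι → ℤ) :
    (RatFunc.X : RatFunc K) ^ (∑ i ∈ s, f i) = ∏ i ∈ s, (RatFunc.X : RatFunc K) ^ (f i) := by
  classical
  induction s using Finset.induction_on with
  | empty => simp
  | insert a s ha ih =>
    rw [Finset.sum_insert ha, Finset.prod_insert ha, zpow_add₀ RatFunc.X_ne_zero, ih]


/-- Base `B` digits are unique. -/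
lemma digits_unique (B : ℤ) (hB : 0 < B) : ∀ (r : ℕ) (v v' : ℕ → ℤ),
    (∀ j, j < r → 0 ≤ v j ∧ v j < B) → (∀ j, j < r → 0 ≤ v' j ∧ v' j < B) →
    (∑ j ∈ range r, B ^ j * v j = ∑ j ∈ range r, B ^ j * v' j) → ∀ j, j < r → v j = v' j := by
  intro r
  induction r with
  | zero => intro v v' _ _ _ j hj; omega
  | succ r ih =>
    intro v v' hv hv' h j hj
    rw [Finset.sum_range_succ', Finset.sum_range_succ'] at h
    have e1 : ∀ w : ℕ → ℤ, ∑ k ∈ range r, B ^ (k + 1) * w (k + 1) =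
        B * ∑ k ∈ range r, B ^ k * w (k + 1) := by
      intro w
      rw [Finset.mul_sum]
      exact Finset.sum_congr rfl fun k _ => by ring
    rw [e1, e1] at h
    simp only [pow_zero, one_mul] at h
    have h0 : v 0 = v' 0 := by
      have a1 := (hv 0 (by omega))
      have a2 := (hv' 0 (by omega))
      have b1 : (B * ∑ k ∈ range r, B ^ k * v (k + 1) + v 0) % B = v 0 := by
        rw [Int.add_emod, Int.mul_emod_right, zero_add, Int.emod_emod, Int.emod_eq_of_lt a1.1 a1.2]
      have b2 : (B * ∑ k ∈ range r, B ^ k * v' (k + 1) + v' 0) % B = v' 0 := by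
        rw [Int.add_emod, Int.mul_emod_right, zero_add, Int.emod_emod, Int.emod_eq_of_lt a2.1 a2.2]
      rw [← b1, ← b2, h]
    rw [h0] at h
    have h1 : ∑ k ∈ range r, B ^ k * v (k + 1) = ∑ k ∈ range r, B ^ k * v' (k + 1) := by
      have := add_right_cancel h
      exact mul_left_cancel₀ (ne_of_gt hB) this
    cases j with
    | zero => exact h0
    | succ j =>
      exact ih (fun k => v (k + 1)) (fun k => v' (k + 1)) (fun k hk => hv (k + 1) (by omega))
        (fun k hk => hv' (k + 1) (by omega)) h1 j (by omega)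

/-- In a vanishing combination of integer powers of `X` an isolated exponent has coefficient `0`. -/
lemma coeff_isolated {K : Type*} [Field K] {J : Type*} [Fintype J] (a : J → K) (e : J → ℤ)
    (h : ∑ j, RatFunc.C (a j) * (RatFunc.X : RatFunc K) ^ (e j) = 0) (j0 : J)
    (hj0 : ∀ j, j ≠ j0 → e j = e j0 → a j = 0) : a j0 = 0 := by
  classical
  set M : ℤ := ∑ j, |e j| with hM
  have hpos : ∀ j, 0 ≤ e j + M := by
    intro j
    have h1 : |e j| ≤ M := Finset.single_le_sum (f := fun j => |e j|) (fun i _ => abs_nonneg _)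
      (Finset.mem_univ j)
    have h2 := neg_abs_le (e j)
    linarith
  have hX : (RatFunc.X : RatFunc K) ≠ 0 := RatFunc.X_ne_zero
  have h1 : ∑ j, RatFunc.C (a j) * (RatFunc.X : RatFunc K) ^ ((e j + M).toNat) = 0 := by
    have h2 : ∀ j, (RatFunc.X : RatFunc K) ^ ((e j + M).toNat) =
        (RatFunc.X : RatFunc K) ^ (e j) * (RatFunc.X : RatFunc K) ^ M := by
      intro j
      rw [← zpow_add₀ hX, ← zpow_natCast, Int.toNat_of_nonneg (hpos j)]
    simp_rw [h2, ← mul_assoc]
    rw [← Finset.sum_mul, h, zero_mul]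
  have h3 : algebraMap (Polynomial K) (RatFunc K)
      (∑ j, Polynomial.C (a j) * Polynomial.X ^ ((e j + M).toNat)) = 0 := by
    rw [map_sum, ← h1]
    refine Finset.sum_congr rfl fun j _ => ?_
    rw [map_mul, map_pow, RatFunc.algebraMap_C, RatFunc.algebraMap_X]
  have h4 : (∑ j, Polynomial.C (a j) * Polynomial.X ^ ((e j + M).toNat)) = 0 :=
    (map_eq_zero_iff _ (RatFunc.algebraMap_injective K)).1 h3
  have h5 := congrArg (fun P => Polynomial.coeff P ((e j0 + M).toNat)) h4
  simp only [Polynomial.finsetSum_coeff, Polynomial.coeff_C_mul, Polynomial.coeff_X_pow,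
    Polynomial.coeff_zero] at h5
  rw [Finset.sum_eq_single j0] at h5
  · simpa using h5
  · intro j _ hj
    by_cases he : e j = e j0
    · rw [hj0 j hj he, zero_mul]
    · have : (e j0 + M).toNat ≠ (e j + M).toNat := by
        intro hc
        have h6 := hpos j
        have h7 := hpos j0
        apply he
        omega
      rw [if_neg this, mul_zero]
  · intro hj
    exact absurd (Finset.mem_univ _) hj

/-- Rearrangement with strictly monotone sequences. -/
lemma rearr {m : ℕ} (u z : Fin m → ℤ) (hu : StrictMono u) (hz : StrictMono z)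
    (τ : Equiv.Perm (Fin m)) (hτ : τ ≠ 1) : ∑ q, u (τ q) * z q < ∑ q, u q * z q := by
  have hm : Monovary u z := by
    intro i j hij
    exact (hu.monotone (hz.lt_iff_lt.1 hij).le)
  refine (hm.sum_comp_perm_mul_lt_sum_mul_iff (σ := τ)).2 ?_
  intro hcon
  apply hτ
  have hmono : StrictMono τ := by
    intro i j hij
    have h1 : u (τ i) ≤ u (τ j) := hcon (hz hij)
    have h2 : τ i ≤ τ j := hu.le_iff_le.1 h1
    exact lt_of_le_of_ne h2 (fun hc => (ne_of_lt hij) (τ.injective hc))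
  let o : Fin m ≃o Fin m := hmono.orderIsoOfSurjective τ τ.surjective
  have ho : o = OrderIso.refl _ := Subsingleton.elim _ _
  ext q
  have h1 : o q = q := by rw [ho]; rfl
  have h2 : o q = τ q := rfl
  rw [← h2, h1]
  rfl

/-- The number of the column. -/
def ec (r : ℕ) (q : Fin (2 * r + 1)) : Option (Fin r × Bool) :=
  if h : (q : ℕ) = 0 then none
  else some (⟨((q : ℕ) - 1) / 2, by have := q.2; omega⟩, decide ((q : ℕ) % 2 = 0))

/-- The number of the row. -/
def er (r : ℕ) (p : Fin (2 * r + 1)) : Option (Fin r × Bool) :=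
  if h : (p : ℕ) < r then some (⟨p, h⟩, true)
  else if h' : (p : ℕ) = r then none
  else some (⟨2 * r - p, by have := p.2; omega⟩, false)

lemma card_ι (r : ℕ) : Fintype.card (Fin (2 * r + 1)) = Fintype.card (Option (Fin r × Bool)) := by
  simp [Fintype.card_option, mul_comm]

lemma ec_inj (r : ℕ) : Function.Injective (ec r) := by
  intro q q' h
  unfold ec at h
  apply Fin.ext
  split_ifs at h with h1 h2 h2
  · omega
  · simp only [Option.some.injEq, Prod.mk.injEq, Fin.mk.injEq, decide_eq_decide] at h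
    omega

lemma er_inj (r : ℕ) : Function.Injective (er r) := by
  intro q q' h
  unfold er at h
  apply Fin.ext
  have := q.2
  have := q'.2
  split_ifs at h with h1 h2 h2 h3 h4 h5 h6
  all_goals
    first
    | (simp only [Option.some.injEq, Prod.mk.injEq, Fin.mk.injEq] at h; omega)
    | omega
    | (simp at h)

/-- The columns in increasing order. -/
noncomputable def ecE (r : ℕ) : Fin (2 * r + 1) ≃ Option (Fin r × Bool) :=
  Equiv.ofBijective (ec r) ((Fintype.bijective_iff_injective_and_card _).2 ⟨ec_inj r, card_ι r⟩)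

/-- The rows in increasing order. -/
noncomputable def erE (r : ℕ) : Fin (2 * r + 1) ≃ Option (Fin r × Bool) :=
  Equiv.ofBijective (er r) ((Fintype.bijective_iff_injective_and_card _).2 ⟨er_inj r, card_ι r⟩)

/-- Exponents of the rows. -/
def U (B : ℤ) (r : ℕ) (p : ℕ) : ℤ :=
  if p < r then - B ^ (r - 1 - p) else if p = r then 0 else B ^ (p - r - 1)

/-- Positions of the columns. -/
def Z {n r : ℕ} (y : Fin r ↪o Fin n) (q : ℕ) : ℤ :=
  (∑ k : Fin r, if (k : ℕ) + 1 = (q + 1) / 2 then ((y k : ℕ) : ℤ) else 0) +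
    (if q = 0 then 0 else ((q / 2 + 1 : ℕ) : ℤ))

lemma Z_zero {n r : ℕ} (y : Fin r ↪o Fin n) : Z y 0 = 0 := by
  unfold Z
  simp

lemma Z_val {n r : ℕ} (y : Fin r ↪o Fin n) (q : ℕ) (h0 : q ≠ 0) (hq : (q - 1) / 2 < r) :
    Z y q = ((y ⟨(q - 1) / 2, hq⟩ : ℕ) : ℤ) + ((q / 2 + 1 : ℕ) : ℤ) := by
  unfold Z
  rw [if_neg h0]
  congr 1
  rw [Finset.sum_eq_single (⟨(q - 1) / 2, hq⟩ : Fin r)]
  · rw [if_pos]
    show (q - 1) / 2 + 1 = (q + 1) / 2
    omega
  · intro k _ hk
    rw [if_neg]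
    intro hc
    apply hk
    apply Fin.ext
    show (k : ℕ) = (q - 1) / 2
    omega
  · intro h
    exact absurd (Finset.mem_univ _) h

lemma colPos_ec {n r : ℕ} (y : Fin r ↪o Fin n) (q : Fin (2 * r + 1)) :
    ((colPos (⇑y) (ec r q) : ℕ) : ℤ) = Z y q := by
  unfold ec
  split_ifs with h
  · rw [h, Z_zero]; rfl
  · have hq : ((q : ℕ) - 1) / 2 < r := by have := q.2; omega
    rw [Z_val y q h hq]
    by_cases h2 : (q : ℕ) % 2 = 0
    · rw [decide_eq_true h2]
      show (((y ⟨((q : ℕ) - 1) / 2, hq⟩ : ℕ) + ((q : ℕ) - 1) / 2 + 2 : ℕ) : ℤ) = _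
      have : ((q : ℕ) - 1) / 2 + 2 = (q : ℕ) / 2 + 1 := by omega
      rw [add_assoc, this]
      push_cast
      ring
    · rw [decide_eq_false h2]
      show (((y ⟨((q : ℕ) - 1) / 2, hq⟩ : ℕ) + ((q : ℕ) - 1) / 2 + 1 : ℕ) : ℤ) = _
      have : ((q : ℕ) - 1) / 2 + 1 = (q : ℕ) / 2 + 1 := by omega
      rw [add_assoc, this]
      push_cast
      ring

lemma Z_step {n r : ℕ} (y : Fin r ↪o Fin n) (q : ℕ) (hq : q < 2 * r) : Z y q < Z y (q + 1) := by
  by_cases h0 : q = 0
  · subst h0
    rw [Z_zero, Z_val y (0 + 1) (by omega) (by omega)]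
    positivity
  · rw [Z_val y q h0 (by omega), Z_val y (q + 1) (by omega) (by omega)]
    by_cases h2 : q % 2 = 0
    · have h3 : (⟨(q - 1) / 2, by omega⟩ : Fin r) < ⟨(q + 1 - 1) / 2, by omega⟩ := by
        show (q - 1) / 2 < (q + 1 - 1) / 2
        omega
      have h4 : (y ⟨(q - 1) / 2, by omega⟩ : ℕ) < (y ⟨(q + 1 - 1) / 2, by omega⟩ : ℕ) :=
        y.strictMono h3
      have h5 : (q + 1) / 2 = q / 2 := by omega
      rw [h5]
      have h6 : ((y ⟨(q - 1) / 2, by omega⟩ : ℕ) : ℤ) < ((y ⟨(q + 1 - 1) / 2, by omega⟩ : ℕ) : ℤ) := by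
        exact_mod_cast h4
      linarith
    · have h3 : (⟨(q - 1) / 2, by omega⟩ : Fin r) = ⟨(q + 1 - 1) / 2, by omega⟩ := by
        apply Fin.ext
        show (q - 1) / 2 = (q + 1 - 1) / 2
        omega
      rw [h3]
      have h5 : (q + 1) / 2 = q / 2 + 1 := by omega
      rw [h5]
      push_cast
      linarith

lemma Z_lt {n r : ℕ} (y : Fin r ↪o Fin n) (q q' : ℕ) (h : q < q') (hq : q' ≤ 2 * r) :
    Z y q < Z y q' := by
  induction q', h using Nat.le_induction with
  | base => exact Z_step y q (by omega)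
  | succ k hk ih => exact (ih (by omega)).trans (Z_step y k (by omega))

lemma Z_nonneg {n r : ℕ} (y : Fin r ↪o Fin n) (q : ℕ) : 0 ≤ Z y q := by
  unfold Z
  have h1 : 0 ≤ ∑ k : Fin r, if (k : ℕ) + 1 = (q + 1) / 2 then ((y k : ℕ) : ℤ) else 0 :=
    Finset.sum_nonneg fun k _ => by split_ifs <;> positivity
  have h2 : (0 : ℤ) ≤ (if q = 0 then 0 else ((q / 2 + 1 : ℕ) : ℤ)) := by split_ifs <;> positivity
  linarith

lemma Z_le {n r : ℕ} (y : Fin r ↪o Fin n) (q : ℕ) (hq : q ≤ 2 * r) : Z y q ≤ n + r := by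
  by_cases h0 : q = 0
  · subst h0; rw [Z_zero]; positivity
  · rw [Z_val y q h0 (by omega)]
    have h1 := (y ⟨(q - 1) / 2, by omega⟩).2
    have h2 : (((y ⟨(q - 1) / 2, by omega⟩ : ℕ) + (q / 2 + 1) : ℕ) : ℤ) ≤ ((n + r : ℕ) : ℤ) := by
      have : (y ⟨(q - 1) / 2, by omega⟩ : ℕ) + (q / 2 + 1) ≤ n + r := by omega
      exact_mod_cast this
    push_cast at h2 ⊢
    linarith

lemma U_strict (B : ℤ) (hB : 1 < B) (r : ℕ) :
    StrictMono fun p : Fin (2 * r + 1) => U B r p := by
  intro p p' h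
  have h' : (p : ℕ) < p' := h
  have hB0 : (0 : ℤ) < B := by linarith
  have hp : ∀ k : ℕ, 0 < B ^ k := fun k => pow_pos hB0 k
  show U B r p < U B r p'
  unfold U
  split_ifs with h1 h2 h3 h4 h5 h6 <;> try omega
  · have : B ^ (r - 1 - (p' : ℕ)) < B ^ (r - 1 - (p : ℕ)) := pow_lt_pow_right₀ hB (by omega)
    linarith
  · have := hp (r - 1 - (p : ℕ)); linarith
  · have := hp (r - 1 - (p : ℕ)); have := hp ((p' : ℕ) - r - 1); linarith
  · exact hp _
  · exact pow_lt_pow_right₀ hB (by omega)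

lemma E_formula {n r : ℕ} (B : ℤ) (y : Fin r ↪o Fin n) :
    ∑ q : Fin (2 * r + 1), U B r q * Z y q =
      ∑ j ∈ range r, B ^ j * (Z y (r + 1 + j) - Z y (r - 1 - j)) := by
  rw [Fin.sum_univ_eq_sum_range (fun q => U B r q * Z y q) (2 * r + 1)]
  rw [show 2 * r + 1 = (r + 1) + r by ring, Finset.sum_range_add, Finset.sum_range_succ]
  have h1 : U B r r = 0 := by unfold U; simp
  have h2 : ∑ x ∈ range r, U B r x * Z y x = - ∑ j ∈ range r, B ^ j * Z y (r - 1 - j) := by
    rw [← Finset.sum_range_reflect (fun j => B ^ j * Z y (r - 1 - j)), ← Finset.sum_neg_distrib]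
    refine Finset.sum_congr rfl fun x hx => ?_
    have hx' := Finset.mem_range.1 hx
    have h3 : r - 1 - (r - 1 - x) = x := by omega
    rw [h3]
    unfold U
    rw [if_pos hx']
    ring
  have h3 : ∑ x ∈ range r, U B r (r + 1 + x) * Z y (r + 1 + x) =
      ∑ j ∈ range r, B ^ j * Z y (r + 1 + j) := by
    refine Finset.sum_congr rfl fun x hx => ?_
    have : U B r (r + 1 + x) = B ^ x := by
      unfold U
      rw [if_neg (by omega), if_neg (by omega)]
      congr 1
      omega
    rw [this]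
  rw [h2, h1, h3, zero_mul, add_zero, neg_add_eq_sub, ← Finset.sum_sub_distrib]
  exact Finset.sum_congr rfl fun j _ => by ring

lemma E_inj {n r : ℕ} (y y' : Fin r ↪o Fin n)
    (h : ∑ q : Fin (2 * r + 1), U ((n + r + 1 : ℕ) : ℤ) r q * Z y q =
      ∑ q : Fin (2 * r + 1), U ((n + r + 1 : ℕ) : ℤ) r q * Z y' q) : y = y' := by
  rw [E_formula, E_formula] at h
  have hb : ∀ (w : Fin r ↪o Fin n) (j : ℕ), j < r →
      0 ≤ Z w (r + 1 + j) - Z w (r - 1 - j) ∧ Z w (r + 1 + j) - Z w (r - 1 - j) <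
        ((n + r + 1 : ℕ) : ℤ) := by
    intro w j hj
    have h1 := Z_lt w (r - 1 - j) (r + 1 + j) (by omega) (by omega)
    have h2 := Z_le w (r + 1 + j) (by omega)
    have h3 := Z_nonneg w (r - 1 - j)
    push_cast
    constructor <;> linarith
  have key := digits_unique ((n + r + 1 : ℕ) : ℤ) (by positivity) r _ _ (hb y) (hb y') h
  apply widths_inj n r y y'
  intro i hi
  have h1 := key (r - 1 - i) (by omega)
  have e1 : r + 1 + (r - 1 - i) = 2 * r - i := by omega
  have e2 : r - 1 - (r - 1 - i) = i := by omega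
  simp only [e1, e2] at h1
  unfold Z at h1
  have e3 : (2 * r - i + 1) / 2 = r - i / 2 := by omega
  rw [e3] at h1
  rw [Finset.sum_sub_distrib, Finset.sum_sub_distrib]
  linarith

lemma rowVal_er {K : Type*} [Field K] (B r : ℕ) (p : Fin (2 * r + 1)) (z : ℕ) :
    rowVal (fun i : Fin r => (RatFunc.X : RatFunc K) ^ (B ^ (r - 1 - (i : ℕ)))) (er r p) ^ z =
      (RatFunc.X : RatFunc K) ^ (U (B : ℤ) r p * (z : ℤ)) := by
  unfold er U
  split_ifs with h1 h2
  · show ((RatFunc.X ^ (B ^ (r - 1 - (p : ℕ))))⁻¹ : RatFunc K) ^ z = _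
    rw [zpow_mul, zpow_natCast, zpow_neg]
    congr 2
  · show (1 : RatFunc K) ^ z = _
    rw [zero_mul, zpow_zero, one_pow]
  · show (RatFunc.X ^ (B ^ (r - 1 - (2 * r - (p : ℕ)))) : RatFunc K) ^ z = _
    rw [zpow_mul, zpow_natCast]
    congr 1
    rw [← zpow_natCast]
    push_cast
    congr 2
    have := p.2
    omega

lemma dimDet_eq {K : Type*} [Field K] (n r : ℕ) (y : Fin r ↪o Fin n) :
    dimDet (fun i : Fin r => (RatFunc.X : RatFunc K) ^ ((n + r + 1) ^ (r - 1 - (i : ℕ)))) y =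
      ((Equiv.Perm.sign ((ecE r).trans (erE r).symm) : ℤ) : RatFunc K) *
        ∑ τ : Equiv.Perm (Fin (2 * r + 1)), ((Equiv.Perm.sign τ : ℤ) : RatFunc K) *
          (RatFunc.X : RatFunc K) ^ (∑ q, U ((n + r + 1 : ℕ) : ℤ) r (τ q) * Z y q) := by
  set t : Fin r → RatFunc K := fun i => (RatFunc.X : RatFunc K) ^ ((n + r + 1) ^ (r - 1 - (i : ℕ)))
    with ht
  set M : Matrix (Option (Fin r × Bool)) (Option (Fin r × Bool)) (RatFunc K) :=
    Matrix.of fun a b => rowVal t a ^ colPos (⇑y) b with hM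
  have h1 : dimDet t y = M.det := rfl
  have h2 : (M.submatrix (erE r) (ecE r)).det =
      ((Equiv.Perm.sign ((ecE r).trans (erE r).symm) : ℤ) : RatFunc K) * M.det := by
    have h3 : M.submatrix (erE r) (ecE r) =
        (M.submatrix (erE r) (erE r)).submatrix id ((ecE r).trans (erE r).symm) := by
      ext p q
      simp [Matrix.submatrix_apply]
    rw [h3, Matrix.det_permute', Matrix.det_submatrix_equiv_self]
  have h4 : M.det = ((Equiv.Perm.sign ((ecE r).trans (erE r).symm) : ℤ) : RatFunc K) *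
      (M.submatrix (erE r) (ecE r)).det := by
    rw [h2, ← mul_assoc]
    have : ((Equiv.Perm.sign ((ecE r).trans (erE r).symm) : ℤ) : RatFunc K) *
        ((Equiv.Perm.sign ((ecE r).trans (erE r).symm) : ℤ) : RatFunc K) = 1 := by
      rw [← Int.cast_mul]
      rcases Int.units_eq_one_or (Equiv.Perm.sign ((ecE r).trans (erE r).symm)) with h | h <;>
        rw [h] <;> simp
    rw [this, one_mul]
  rw [h1, h4, Matrix.det_apply']
  congr 1
  refine Finset.sum_congr rfl fun τ _ => ?_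
  congr 1
  rw [zpow_sum_eq]
  refine Finset.prod_congr rfl fun q _ => ?_
  show rowVal t (er r (τ q)) ^ colPos (⇑y) (ec r q) = _
  rw [ht, rowVal_er (n + r + 1) r (τ q), colPos_ec]

theorem dim_leading {K : Type*} [Field K] (n r : ℕ) (c : (Fin r ↪o Fin n) → K)
    (h : ∑ y : Fin r ↪o Fin n, RatFunc.C (c y) *
      dimDet (fun i : Fin r => (RatFunc.X : RatFunc K) ^ ((n + r + 1) ^ (r - 1 - (i : ℕ)))) y = 0) :
    ∀ y, c y = 0 := by
  classical
  set B : ℤ := ((n + r + 1 : ℕ) : ℤ) with hBdef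
  simp_rw [dimDet_eq] at h
  set s : RatFunc K := ((Equiv.Perm.sign ((ecE r).trans (erE r).symm) : ℤ) : RatFunc K) with hs
  have hs0 : s * s = 1 := by
    rw [hs, ← Int.cast_mul]
    rcases Int.units_eq_one_or (Equiv.Perm.sign ((ecE r).trans (erE r).symm)) with h | h <;>
      rw [h] <;> simp
  by_contra hcon
  push Not at hcon
  let S : Finset (Fin r ↪o Fin n) := Finset.univ.filter fun y => c y ≠ 0
  have hS : S.Nonempty := by
    obtain ⟨y, hy⟩ := hcon
    exact ⟨y, by simp [S, hy]⟩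
  obtain ⟨y0, hy0, hmax⟩ := Finset.exists_max_image S
    (fun y => ∑ q : Fin (2 * r + 1), U B r q * Z y q) hS
  have hy0' : c y0 ≠ 0 := by simpa [S] using hy0
  have hB1 : (1 : ℤ) < B ∨ r = 0 := by
    by_cases hr : r = 0
    · exact Or.inr hr
    · left
      rw [hBdef]
      push_cast
      have : (1 : ℤ) ≤ r := by exact_mod_cast Nat.one_le_iff_ne_zero.2 hr
      have : (0 : ℤ) ≤ n := by positivity
      linarith
  have hrear : ∀ (y : Fin r ↪o Fin n) (τ : Equiv.Perm (Fin (2 * r + 1))), τ ≠ 1 →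
      ∑ q : Fin (2 * r + 1), U B r (τ q) * Z y q < ∑ q : Fin (2 * r + 1), U B r q * Z y q := by
    intro y τ hτ
    rcases hB1 with hB1 | hr
    · refine rearr (fun q : Fin (2 * r + 1) => U B r q) (fun q : Fin (2 * r + 1) => Z y q)
        (U_strict B hB1 r) ?_ τ hτ
      intro q q' hqq
      exact Z_lt y q q' hqq (by have := q'.2; omega)
    · exfalso
      subst hr
      apply hτ
      ext q
      have h1 := (τ q).2
      have h2 := q.2
      simp only [Equiv.Perm.coe_one, id_eq]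
      omega
  let a : (Fin r ↪o Fin n) × Equiv.Perm (Fin (2 * r + 1)) → K :=
    fun j => c j.1 * ((Equiv.Perm.sign j.2 : ℤ) : K)
  let e : (Fin r ↪o Fin n) × Equiv.Perm (Fin (2 * r + 1)) → ℤ :=
    fun j => ∑ q : Fin (2 * r + 1), U B r (j.2 q) * Z j.1 q
  have h1 : ∑ j, RatFunc.C (a j) * (RatFunc.X : RatFunc K) ^ (e j) = 0 := by
    rw [Fintype.sum_prod_type]
    have h2 : s * ∑ y : Fin r ↪o Fin n, ∑ τ : Equiv.Perm (Fin (2 * r + 1)),
        RatFunc.C (a (y, τ)) * (RatFunc.X : RatFunc K) ^ (e (y, τ)) = 0 := by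
      rw [← h, Finset.mul_sum]
      refine Finset.sum_congr rfl fun y _ => ?_
      rw [Finset.mul_sum, Finset.mul_sum, Finset.mul_sum]
      refine Finset.sum_congr rfl fun τ _ => ?_
      simp only [a, e, map_mul, map_intCast]
      ring
    have h3 := congrArg (fun x => s * x) h2
    simp only [mul_zero] at h3
    rw [← mul_assoc, hs0, one_mul] at h3
    exact h3
  have h2 : a (y0, 1) = 0 := by
    refine coeff_isolated a e h1 (y0, 1) ?_
    rintro ⟨y, τ⟩ hne heq
    by_contra ha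
    have hcy : c y ≠ 0 := by
      intro hc
      apply ha
      show c y * _ = 0
      rw [hc, zero_mul]
    have hyS : y ∈ S := by simp [S, hcy]
    have h3 := hmax y hyS
    have h4 : e (y0, 1) = ∑ q : Fin (2 * r + 1), U B r q * Z y0 q := rfl
    by_cases hτ : τ = 1
    · subst hτ
      apply hne
      have h5 : y = y0 := E_inj y y0 (by
        have h6 : e (y, 1) = ∑ q : Fin (2 * r + 1), U B r q * Z y q := rfl
        rw [← hBdef, ← h6, heq, h4])
      rw [h5]
    · have h5 := hrear y τ hτ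
      have h6 : e (y, τ) = ∑ q : Fin (2 * r + 1), U B r (τ q) * Z y q := rfl
      have h7 : e (y, τ) < e (y0, 1) := by
        rw [h6, h4]
        exact lt_of_lt_of_le h5 h3
      exact (ne_of_lt h7) heq
  apply hy0'
  simpa [a] using h2

end Pool.Agent.Helper805_nf
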