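import Pool.Agent.Helper805_nf.Defs2

set_option autoImplicit false

namespace Pool.Agent.Helper805_nf

open Finset

/-- the sum picks the entry of index `j - 1` -/
theorem wi_pick (n r : ℕ) (y : Fin r ↪o Fin n) (k : Fin r) :
    (∑ l : Fin r, (if (l : ℕ) + 1 = (k : ℕ) + 1 then ((y l : ℕ) : ℤ) else 0)) = ((y k : ℕ) : ℤ) := by
  rw [Finset.sum_eq_single k]
  · simp
  · intro b _ hb
    rw [if_neg]
    intro h
    apply hb
    apply Fin.ext
    omega
  · intro h
    exact absurd (Finset.mem_univ k) h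

theorem wi_zero (n r : ℕ) (y : Fin r ↪o Fin n) :
    (∑ l : Fin r, (if (l : ℕ) + 1 = 0 then ((y l : ℕ) : ℤ) else 0)) = 0 := by
  apply Finset.sum_eq_zero
  intro l _
  rw [if_neg (by omega)]

theorem widths_inj (n r : ℕ) (y y' : Fin r ↪o Fin n)
    (h : ∀ i : ℕ, i < r →
      (∑ k : Fin r, ((if (k : ℕ) + 1 = r - i / 2 then ((y k : ℕ) : ℤ) else 0) -
        (if (k : ℕ) + 1 = (i + 1) / 2 then ((y k : ℕ) : ℤ) else 0))) =
      (∑ k : Fin r, ((if (k : ℕ) + 1 = r - i / 2 then ((y' k : ℕ) : ℤ) else 0) -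
        (if (k : ℕ) + 1 = (i + 1) / 2 then ((y' k : ℕ) : ℤ) else 0)))) : y = y' := by
  have h' : ∀ i : ℕ, i < r →
      (∑ k : Fin r, (if (k : ℕ) + 1 = r - i / 2 then ((y k : ℕ) : ℤ) else 0)) -
        (∑ k : Fin r, (if (k : ℕ) + 1 = (i + 1) / 2 then ((y k : ℕ) : ℤ) else 0)) =
      (∑ k : Fin r, (if (k : ℕ) + 1 = r - i / 2 then ((y' k : ℕ) : ℤ) else 0)) -
        (∑ k : Fin r, (if (k : ℕ) + 1 = (i + 1) / 2 then ((y' k : ℕ) : ℤ) else 0)) := by
    intro i hi
    have := h i hi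
    rwa [Finset.sum_sub_distrib, Finset.sum_sub_distrib] at this
  have key : ∀ i : ℕ, i < r →
      (∑ k : Fin r, (if (k : ℕ) + 1 = r - i / 2 then ((y k : ℕ) : ℤ) else 0)) =
        (∑ k : Fin r, (if (k : ℕ) + 1 = r - i / 2 then ((y' k : ℕ) : ℤ) else 0)) ∧
      (∑ k : Fin r, (if (k : ℕ) + 1 = (i + 1) / 2 then ((y k : ℕ) : ℤ) else 0)) =
        (∑ k : Fin r, (if (k : ℕ) + 1 = (i + 1) / 2 then ((y' k : ℕ) : ℤ) else 0)) := by
    intro i
    induction i with
    | zero =>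
      intro hi
      have h0 := h' 0 hi
      have e : (0 + 1) / 2 = 0 := rfl
      rw [e, wi_zero, wi_zero] at h0
      rw [e, wi_zero, wi_zero]
      refine ⟨?_, rfl⟩
      linarith
    | succ i ih =>
      intro hi
      obtain ⟨i1, i2⟩ := ih (by omega)
      have h0 := h' (i + 1) hi
      rcases Nat.even_or_odd i with ⟨c, hc⟩ | ⟨c, hc⟩
      · have e : r - (i + 1) / 2 = r - i / 2 := by omega
        rw [e] at h0 ⊢
        refine ⟨i1, ?_⟩
        linarith
      · have e : (i + 1 + 1) / 2 = (i + 1) / 2 := by omega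
        rw [e] at h0 ⊢
        refine ⟨?_, i2⟩
        linarith
  apply DFunLike.ext
  intro k
  have hk := k.isLt
  have hfin : ((y k : ℕ) : ℤ) = ((y' k : ℕ) : ℤ) := by
    by_cases hc : 2 * (k : ℕ) + 1 < r
    · have h1 := (key (2 * (k : ℕ) + 1) hc).2
      have e : (2 * (k : ℕ) + 1 + 1) / 2 = (k : ℕ) + 1 := by omega
      rw [e, wi_pick, wi_pick] at h1
      exact h1
    · have h1 := (key (2 * (r - 1 - (k : ℕ))) (by omega)).1
      have e : r - 2 * (r - 1 - (k : ℕ)) / 2 = (k : ℕ) + 1 := by omega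
      rw [e, wi_pick, wi_pick] at h1
      exact h1
  apply Fin.ext
  exact_mod_cast hfin

end Pool.Agent.Helper805_nf
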