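import Pool.Agent.Helper805_nf.X3
import Pool.Agent.Helper805_nf.X4

set_option autoImplicit false

namespace Pool.Agent.Helper805_nf

open Finset







/-- The dimer determinant commutes with ring homomorphisms. -/
theorem dimDet_map {K L : Type*} [Field K] [Field L] (φ : K →+* L) {r n : ℕ} (t : Fin r → K)
    (y : Fin r → Fin n) : dimDet (fun i => φ (t i)) y = φ (dimDet t y) := by
  unfold dimDet
  rw [RingHom.map_det]
  congr 1
  ext a b
  rcases a with _ | ⟨i, _ | _⟩ <;> simp [rowVal]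

/-- Powers of the variable are different. -/
theorem ratX_pow_inj {K : Type*} [Field K] {a b : ℕ}
    (h : (RatFunc.X : RatFunc K) ^ a = RatFunc.X ^ b) : a = b := by
  rw [← RatFunc.algebraMap_X, ← map_pow, ← map_pow] at h
  have h2 := RatFunc.algebraMap_injective K h
  have h3 := congrArg Polynomial.natDegree h2
  simpa using h3

/-- The dimer matrix has trivial right kernel. -/
theorem dim_right_kernel {K : Type*} [Field K] (n r : ℕ) (ζ : K) (hζ : IsPrimitiveRoot ζ (2 * n + 1))
    (c : (Fin r ↪o Fin n) → K)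
    (h : ∀ J : Fin r ↪o Fin n, ∑ y : Fin r ↪o Fin n, c y * dimDet (fun i => ζ ^ ((J i : ℕ) + 1)) y = 0) :
    ∀ y, c y = 0 := by
  apply dim_leading n r c
  have hB : ∀ k : Fin r, 0 < (n + r + 1) ^ (r - 1 - (k : ℕ)) := fun k => Nat.pow_pos (by omega)
  refine dim_generic n r (RatFunc.C ζ : RatFunc K) (hζ.map_of_injective (RatFunc.C_injective))
    (fun i : Fin r => (RatFunc.X : RatFunc K) ^ ((n + r + 1) ^ (r - 1 - (i : ℕ)))) ?_ ?_ ?_ ?_
    (fun y => RatFunc.C (c y)) ?_
  · intro k
    exact pow_ne_zero _ RatFunc.X_ne_zero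
  · intro k hk
    have hk2 : (RatFunc.X : RatFunc K) ^ ((n + r + 1) ^ (r - 1 - (k : ℕ)) * (2 * n + 1)) = RatFunc.X ^ 0 := by
      rw [pow_mul, pow_zero]; exact hk
    have h3 := ratX_pow_inj hk2
    have h4 := Nat.mul_pos (hB k) (show 0 < 2 * n + 1 by omega)
    omega
  · intro k hk
    have hk2 : (RatFunc.X : RatFunc K) ^ ((n + r + 1) ^ (r - 1 - (k : ℕ)) + (n + r + 1) ^ (r - 1 - (k : ℕ)))
        = RatFunc.X ^ 0 := by
      rw [pow_add, pow_zero]; exact hk
    have h3 := ratX_pow_inj hk2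
    have h4 := hB k
    omega
  · intro k l hkl
    constructor
    · intro hk
      have h3 := ratX_pow_inj hk
      have h4 : r - 1 - (k : ℕ) = r - 1 - (l : ℕ) :=
        Nat.pow_right_injective (show 2 ≤ n + r + 1 by have := k.2; omega) h3
      apply hkl
      ext
      have := k.2
      have := l.2
      omega
    · intro hk
      have hk2 : (RatFunc.X : RatFunc K) ^ ((n + r + 1) ^ (r - 1 - (k : ℕ)) + (n + r + 1) ^ (r - 1 - (l : ℕ)))
          = RatFunc.X ^ 0 := by
        rw [pow_add, pow_zero]; exact hk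
      have h3 := ratX_pow_inj hk2
      have h4 := hB k
      omega
  · intro J
    have h5 := congrArg (RatFunc.C : K →+* RatFunc K) (h J)
    rw [map_sum, map_zero] at h5
    rw [← h5]
    refine Finset.sum_congr rfl (fun y _ => ?_)
    rw [map_mul, ← dimDet_map]
    simp only [map_pow]

theorem dim_left_kernel {K : Type*} [Field K] (n r : ℕ) (ζ : K) (hζ : IsPrimitiveRoot ζ (2 * n + 1))
    (c : (Fin r ↪o Fin n) → K)
    (h : ∀ y : Fin r ↪o Fin n, ∑ J : Fin r ↪o Fin n, c J * dimDet (fun i => ζ ^ ((J i : ℕ) + 1)) y = 0) :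
    ∀ J, c J = 0 := by
  classical
  set D : Matrix (Fin r ↪o Fin n) (Fin r ↪o Fin n) K :=
    Matrix.of fun J y => dimDet (fun i => ζ ^ ((J i : ℕ) + 1)) y with hD
  have hdet : D.det ≠ 0 := by
    intro h0
    obtain ⟨v, hv, hv0⟩ := Matrix.exists_mulVec_eq_zero_iff.mpr h0
    apply hv
    funext y
    refine dim_right_kernel n r ζ hζ v (fun J => ?_) y
    have h1 := congrFun hv0 J
    simp only [Matrix.mulVec, dotProduct, hD, Matrix.of_apply, Pi.zero_apply] at h1
    rw [← h1]
    exact Finset.sum_congr rfl (fun y _ => mul_comm _ _)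
  by_contra hne
  push Not at hne
  obtain ⟨J, hJ⟩ := hne
  apply hdet
  refine Matrix.exists_vecMul_eq_zero_iff.mp ⟨c, fun h0 => hJ (congrFun h0 J), ?_⟩
  funext y
  simp only [Matrix.vecMul, dotProduct, hD, Matrix.of_apply, Pi.zero_apply]
  exact h y


end Pool.Agent.Helper805_nf
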