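import Pool.Agent.Helper805_nf.Defs2

set_option autoImplicit false

namespace Pool.Agent.Helper805_nf

open Finset


section

variable {n r m : ℕ}

/-- The indexing map. -/
def phi0 (J : Fin r ↪o Fin n) (g : Fin m ↪ Fin n) :
    (Fin m × Bool) ⊕ Option (Fin r × Bool) → ZMod (2 * n + 1)
  | Sum.inl (b, false) => -(((g b : ℕ) + 1 : ℕ) : ZMod (2 * n + 1))
  | Sum.inl (b, true) => (((g b : ℕ) + 1 : ℕ) : ZMod (2 * n + 1))
  | Sum.inr none => 0
  | Sum.inr (some (i, false)) => (((J i : ℕ) + 1 : ℕ) : ZMod (2 * n + 1))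
  | Sum.inr (some (i, true)) => -(((J i : ℕ) + 1 : ℕ) : ZMod (2 * n + 1))

theorem nat_inj {x y : ℕ} (hx : x < 2 * n + 1) (hy : y < 2 * n + 1)
    (h : (x : ZMod (2 * n + 1)) = (y : ZMod (2 * n + 1))) : x = y := by
  have := (ZMod.natCast_eq_natCast_iff' x y (2 * n + 1)).1 h
  rwa [Nat.mod_eq_of_lt hx, Nat.mod_eq_of_lt hy] at this

theorem neg_eq_nat (x : ℕ) (hx : x ≤ 2 * n + 1) :
    -(x : ZMod (2 * n + 1)) = ((2 * n + 1 - x : ℕ) : ZMod (2 * n + 1)) := by
  rw [Nat.cast_sub hx]
  simp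

/-- Natural representative of the values. -/
def rep (J : Fin r ↪o Fin n) (g : Fin m ↪ Fin n) :
    (Fin m × Bool) ⊕ Option (Fin r × Bool) → ℕ
  | Sum.inl (b, false) => 2 * n - g b
  | Sum.inl (b, true) => (g b : ℕ) + 1
  | Sum.inr none => 0
  | Sum.inr (some (i, false)) => (J i : ℕ) + 1
  | Sum.inr (some (i, true)) => 2 * n - J i

theorem rep_lt (J : Fin r ↪o Fin n) (g : Fin m ↪ Fin n) (x) : rep J g x < 2 * n + 1 := by
  rcases x with ⟨b, (_ | _)⟩ | (_ | ⟨i, (_ | _)⟩) <;> simp only [rep] <;> omega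

theorem rep_cast (J : Fin r ↪o Fin n) (g : Fin m ↪ Fin n) (x) :
    phi0 J g x = (rep J g x : ZMod (2 * n + 1)) := by
  rcases x with ⟨b, (_ | _)⟩ | (_ | ⟨i, (_ | _)⟩) <;> simp only [rep, phi0]
  · rw [neg_eq_nat _ (by omega)]
    congr 1
    omega
  · simp
  · rw [neg_eq_nat _ (by omega)]
    congr 1
    omega

theorem rep_inj (J : Fin r ↪o Fin n) (g : Fin m ↪ Fin n) (hd : ∀ b i, g b ≠ J i) :
    Function.Injective (rep J g) := by
  have hg : ∀ b b', (g b : ℕ) = g b' → b = b' := fun b b' h => g.injective (Fin.ext h)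
  have hJ : ∀ b b', (J b : ℕ) = J b' → b = b' := fun b b' h => J.injective (Fin.ext h)
  have hd' : ∀ b i, (g b : ℕ) ≠ J i := fun b i h => hd b i (Fin.ext h)
  intro x y h
  rcases x with ⟨b, (_ | _)⟩ | (_ | ⟨i, (_ | _)⟩) <;>
    rcases y with ⟨b', (_ | _)⟩ | (_ | ⟨i', (_ | _)⟩) <;> simp only [rep] at h
  all_goals first
    | rfl
    | (have := hg b b' (by omega); subst this; rfl)
    | (have := hJ i i' (by omega); subst this; rfl)
    | (exfalso; have := hd' b i'; omega)
    | (exfalso; have := hd' b' i; omega)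
    | (exfalso; omega)

theorem phi0_inj (J : Fin r ↪o Fin n) (g : Fin m ↪ Fin n) (hd : ∀ b i, g b ≠ J i) :
    Function.Injective (phi0 J g) := by
  intro x y h
  rw [rep_cast, rep_cast] at h
  exact rep_inj J g hd (nat_inj (rep_lt J g x) (rep_lt J g y) h)

theorem card_eq (hn : m + r = n) :
    Fintype.card ((Fin m × Bool) ⊕ Option (Fin r × Bool)) = Fintype.card (ZMod (2 * n + 1)) := by
  rw [ZMod.card]
  simp
  omega

/-- The indexing equivalence. -/
noncomputable def phi (hn : m + r = n) (J : Fin r ↪o Fin n) (g : Fin m ↪ Fin n)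
    (hd : ∀ b i, g b ≠ J i) : (Fin m × Bool) ⊕ Option (Fin r × Bool) ≃ ZMod (2 * n + 1) :=
  Equiv.ofBijective (phi0 J g)
    ((Fintype.bijective_iff_injective_and_card _).2 ⟨phi0_inj J g hd, card_eq hn⟩)

/-- Two complements have the same range. -/
theorem exists_perm (hn : m + r = n) (J : Fin r ↪o Fin n) (g g' : Fin m ↪ Fin n)
    (hd : ∀ b i, g b ≠ J i) (hd' : ∀ b i, g' b ≠ J i) :
    ∃ π : Equiv.Perm (Fin m), ∀ b, g' b = g (π b) := by
  have hr : ∀ k : Fin m ↪ Fin n, (∀ b i, k b ≠ J i) →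
      univ.map k = (univ.map J.toEmbedding)ᶜ := by
    intro k hk
    apply Finset.eq_of_subset_of_card_le
    · intro x hx
      rw [Finset.mem_map] at hx
      obtain ⟨b, -, rfl⟩ := hx
      rw [Finset.mem_compl, Finset.mem_map]
      rintro ⟨i, -, hi⟩
      exact hk b i hi.symm
    · rw [Finset.card_compl, Finset.card_map, Finset.card_map]
      simp
      omega
  have h1 : ∀ b, ∃ c, g c = g' b := by
    intro b
    have : g' b ∈ univ.map g := by
      rw [hr g hd, ← hr g' hd']
      exact Finset.mem_map_of_mem _ (Finset.mem_univ b)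
    rw [Finset.mem_map] at this
    obtain ⟨c, -, hc⟩ := this
    exact ⟨c, hc⟩
  choose f hf using h1
  have hinj : Function.Injective f := by
    intro b b' h
    apply g'.injective
    rw [← hf, ← hf, h]
  exact ⟨Equiv.ofBijective f (Finite.injective_iff_bijective.1 hinj), fun b => (hf b).symm⟩

theorem sign_aux (π : Equiv.Perm (Fin m)) :
    Equiv.Perm.sign (Equiv.sumCongr (Equiv.prodCongrLeft (fun _ : Bool => π))
      (Equiv.refl (Option (Fin r × Bool)))) = 1 := by
  have h1 : Equiv.sumCongr (Equiv.prodCongrLeft (fun _ : Bool => π))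
      (Equiv.refl (Option (Fin r × Bool))) =
      Equiv.Perm.sumCongr (Equiv.prodCongrLeft (fun _ : Bool => π)) 1 := rfl
  rw [h1, Equiv.Perm.sign_sumCongr, Equiv.Perm.sign_prodCongrLeft]
  simp

end

theorem block_det {K : Type*} [Field K] (n r m : ℕ) (hn : m + r = n) (ζ : K)
    (hζ : IsPrimitiveRoot ζ (2 * n + 1)) (c : (Fin m × Bool) ⊕ Option (Fin r × Bool) ≃ ZMod (2 * n + 1)) :
    ∃ ε : (Fin r ↪o Fin n) → K, (∀ J, ε J ≠ 0) ∧ ∀ (J : Fin r ↪o Fin n) (g : Fin m ↪ Fin n)
      (_ : ∀ b i, g b ≠ J i) (z : Option (Fin r × Bool) → ZMod (2 * n + 1)),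
      Matrix.det (Matrix.of fun (a b : (Fin m × Bool) ⊕ Option (Fin r × Bool)) =>
          Sum.elim (fun q : Fin m × Bool =>
              if c b = (if q.2 then (((g q.1 : ℕ) + 1 : ℕ) : ZMod (2 * n + 1))
                else -(((g q.1 : ℕ) + 1 : ℕ) : ZMod (2 * n + 1))) then (1 : K) else 0)
            (fun o => ζ ^ (c b * z o).val) a) =
        ε J * Matrix.det (Matrix.of fun a b : Option (Fin r × Bool) =>
          rowVal (fun i => ζ ^ ((J i : ℕ) + 1)) a ^ (z b).val) := by
  classical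
  refine ⟨fun J => if h : ∃ g : Fin m ↪ Fin n, ∀ b i, g b ≠ J i then
    (((Equiv.Perm.sign ((phi hn J h.choose h.choose_spec).trans c.symm) : ℤˣ) : ℤ) : K) else 1,
    fun J => ?_, fun J g hd z => ?_⟩
  · dsimp only
    split_ifs with h
    · rcases Int.units_eq_one_or (Equiv.Perm.sign ((phi hn J h.choose h.choose_spec).trans c.symm))
        with h1 | h1 <;> rw [h1] <;> simp
    · exact one_ne_zero
  have hex : ∃ g : Fin m ↪ Fin n, ∀ b i, g b ≠ J i := ⟨g, hd⟩
  dsimp only
  rw [dif_pos hex]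
  -- the sign does not depend on the choice
  have hsign : Equiv.Perm.sign ((phi hn J hex.choose hex.choose_spec).trans c.symm) =
      Equiv.Perm.sign ((phi hn J g hd).trans c.symm) := by
    obtain ⟨π, hπ⟩ := exists_perm hn J g hex.choose hd hex.choose_spec
    have h1 : (phi hn J hex.choose hex.choose_spec).trans c.symm =
        ((phi hn J g hd).trans c.symm) * (Equiv.sumCongr (Equiv.prodCongrLeft (fun _ : Bool => π))
          (Equiv.refl (Option (Fin r × Bool)))) := by
      ext x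
      simp only [Equiv.trans_apply, Equiv.Perm.coe_mul, Function.comp_apply]
      congr 1
      have hp : ∀ (g0 : Fin m ↪ Fin n) (h0 : ∀ b i, g0 b ≠ J i) y, phi hn J g0 h0 y = phi0 J g0 y :=
        fun _ _ _ => rfl
      rw [hp, hp]
      rcases x with ⟨b, (_ | _)⟩ | (_ | ⟨i, (_ | _)⟩)
      · simp [phi0, hπ]
      · simp [phi0, hπ]
      · rfl
      · rfl
      · rfl
    rw [h1, map_mul, sign_aux, mul_one]
  rw [hsign]
  set σ := (phi hn J g hd).trans c.symm with hσ
  set M := (Matrix.of fun (a b : (Fin m × Bool) ⊕ Option (Fin r × Bool)) =>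
          Sum.elim (fun q : Fin m × Bool =>
              if c b = (if q.2 then (((g q.1 : ℕ) + 1 : ℕ) : ZMod (2 * n + 1))
                else -(((g q.1 : ℕ) + 1 : ℕ) : ZMod (2 * n + 1))) then (1 : K) else 0)
            (fun o => ζ ^ (c b * z o).val) a) with hM
  have hdet := Matrix.det_permute' σ M
  have hcs : ∀ b, c (σ b) = phi0 J g b := by
    intro b
    rw [hσ]
    simp only [Equiv.trans_apply, Equiv.apply_symm_apply]
    rfl
  have hq : ∀ q : Fin m × Bool, (if q.2 then (((g q.1 : ℕ) + 1 : ℕ) : ZMod (2 * n + 1))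
                else -(((g q.1 : ℕ) + 1 : ℕ) : ZMod (2 * n + 1))) = phi0 J g (Sum.inl q) := by
    rintro ⟨b, (_ | _)⟩ <;> simp [phi0]
  have hblock : M.submatrix id σ = Matrix.fromBlocks 1 0
      (Matrix.of fun (o : Option (Fin r × Bool)) (q : Fin m × Bool) =>
        ζ ^ (phi0 J g (Sum.inl q) * z o).val)
      (Matrix.of fun (o o' : Option (Fin r × Bool)) =>
        ζ ^ (phi0 J g (Sum.inr o') * z o).val) := by
    ext a b
    rw [Matrix.submatrix_apply, hM]
    simp only [Matrix.of_apply, id_eq, hcs, hq]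
    rcases a with q | o <;> rcases b with q' | o'
    · simp only [Sum.elim_inl, Matrix.fromBlocks_apply₁₁, Matrix.one_apply]
      by_cases h : q = q'
      · subst h
        simp
      · rw [if_neg h, if_neg]
        intro h1
        exact h (Sum.inl_injective ((phi0_inj J g hd) h1)).symm
    · simp only [Sum.elim_inl, Matrix.fromBlocks_apply₁₂, Matrix.zero_apply]
      rw [if_neg]
      intro h1
      exact absurd ((phi0_inj J g hd) h1) (by simp)
    · simp
    · simp
  have hdet2 : Matrix.det (M.submatrix id σ) = Matrix.det (Matrix.of fun a b : Option (Fin r × Bool) =>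
          rowVal (fun i => ζ ^ ((J i : ℕ) + 1)) a ^ (z b).val) := by
    rw [hblock, Matrix.det_fromBlocks_zero₁₂, Matrix.det_one, one_mul, ← Matrix.det_transpose]
    congr 1
    ext o o'
    simp only [Matrix.transpose_apply, Matrix.of_apply]
    have hz1 : ζ ^ (2 * n + 1) = 1 := hζ.pow_eq_one
    have hmod : ∀ x y : ℕ, (x : ZMod (2 * n + 1)) = (y : ZMod (2 * n + 1)) → ζ ^ x = ζ ^ y := by
      intro x y h
      have h2 := (ZMod.natCast_eq_natCast_iff' x y (2 * n + 1)).1 h
      rw [← Nat.mod_add_div x (2 * n + 1), ← Nat.mod_add_div y (2 * n + 1), h2, pow_add, pow_add,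
        pow_mul, pow_mul, hz1, one_pow, one_pow]
    rcases o with _ | ⟨i, (_ | _)⟩
    · simp [phi0, rowVal]
    · simp only [rowVal, phi0]
      rw [← pow_mul]
      apply hmod
      rw [ZMod.natCast_val, ZMod.cast_id']
      push_cast
      rw [ZMod.natCast_val, ZMod.cast_id']
      simp
    · simp only [rowVal, phi0]
      have hne : ζ ^ ((J i : ℕ) + 1) ≠ 0 := pow_ne_zero _ (hζ.ne_zero (by omega))
      rw [inv_pow, ← pow_mul]
      symm
      apply inv_eq_of_mul_eq_one_left
      rw [← pow_add]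
      rw [show (1 : K) = ζ ^ 0 from (pow_zero ζ).symm]
      apply hmod
      push_cast
      rw [ZMod.natCast_val, ZMod.cast_id', ZMod.natCast_val, ZMod.cast_id']
      simp only [id_eq]
      ring
  rw [← hdet2, hdet]
  rw [← mul_assoc]
  rcases Int.units_eq_one_or (Equiv.Perm.sign σ) with h1 | h1 <;> rw [h1] <;> simp

end Pool.Agent.Helper805_nf
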