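import Pool.Agent.Helper805_nf.X6b
import Pool.Agent.Helper805_nf.X6c

set_option autoImplicit false

namespace Pool.Agent.Helper805_nf

open Finset





/-- Every embedding of `Fin m` in `Fin n` is avoided by exactly one increasing map of `Fin r`. -/
theorem sum_avoid {K : Type*} [Field K] (n r m : ℕ) (hn : m + r = n) (g : Fin m ↪ Fin n) (x : K) :
    x = ∑ J : Fin r ↪o Fin n, if (∀ b i, g b ≠ J i) then x else 0 := by
  classical
  set s : Finset (Fin n) := (Finset.univ.map g)ᶜ with hs
  have hcard : s.card = r := by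
    rw [hs, Finset.card_compl, Finset.card_map]
    simp
    omega
  rw [Fintype.sum_eq_single (s.orderEmbOfFin hcard)]
  · rw [if_pos]
    intro b i h
    have h2 : s.orderEmbOfFin hcard i ∈ s := Finset.orderEmbOfFin_mem s hcard i
    rw [← h, hs, Finset.mem_compl, Finset.mem_map] at h2
    exact h2 ⟨b, Finset.mem_univ b, rfl⟩
  · intro J hJ
    rw [if_neg]
    intro h
    apply hJ
    apply Finset.orderEmbOfFin_unique' hcard
    intro i
    rw [hs, Finset.mem_compl, Finset.mem_map]
    rintro ⟨b, _, hb⟩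
    exact h b i hb

theorem laplace_zero {K : Type*} [Field K] (n r m : ℕ) (hn : m + r = n) (ζ : K)
    (hζ : IsPrimitiveRoot ζ (2 * n + 1)) :
    ∃ ε : (Fin r ↪o Fin n) → K, (∀ J, ε J ≠ 0) ∧
      ∀ (e : Fin m → ZMod (2 * n + 1)) (z : Option (Fin r × Bool) → ZMod (2 * n + 1)),
      (∀ x : Fin m → ZMod (2 * n + 1), ¬ Function.Injective
        (Sum.elim (fun q : Fin m × Bool => x q.1 + if q.2 then e q.1 else 0) z)) →
      ∑ J : Fin r ↪o Fin n, ε J * subPer ζ (fun b => (e b).val) J *
        Matrix.det (Matrix.of fun a b : Option (Fin r × Bool) =>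
          rowVal (fun i => ζ ^ ((J i : ℕ) + 1)) a ^ (z b).val) = 0 := by
  classical
  have hc : Fintype.card ((Fin m × Bool) ⊕ Option (Fin r × Bool)) = Fintype.card (ZMod (2 * n + 1)) := by
    rw [ZMod.card]
    simp
    omega
  let c := Fintype.equivOfCardEq hc
  obtain ⟨ε, hε, hb⟩ := block_det n r m hn ζ hζ c
  refine ⟨ε, hε, fun e z hz => ?_⟩
  have h1 := full_expand n m ζ hζ c e z
  rw [Finset.sum_eq_zero] at h1
  swap
  · intro x _
    have h := hz x
    simp only [Function.Injective, not_forall] at h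
    obtain ⟨a, a', haa, hne⟩ := h
    apply Matrix.det_zero_of_row_eq hne
    ext b
    simp only [Matrix.of_apply]
    rw [haa]
  have hv : ((2 * n + 1 : ℕ) : K) ^ m ≠ 0 := by
    have := hζ.neZero'
    exact pow_ne_zero _ (NeZero.ne _)
  have h2 := (mul_eq_zero.mp h1.symm).resolve_left hv
  clear h1
  rw [← Fintype.sum_of_injective (fun g : Fin m ↪ Fin n => (g : Fin m → Fin n)) DFunLike.coe_injective
    (fun g : Fin m ↪ Fin n => 
        (∏ b, (ζ ^ (((g b : ℕ) + 1) * (e b).val) - (ζ⁻¹) ^ (((g b : ℕ) + 1) * (e b).val))) *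
        Matrix.det (Matrix.of fun (a b : (Fin m × Bool) ⊕ Option (Fin r × Bool)) =>
          Sum.elim (fun q : Fin m × Bool =>
              if c b = (if q.2 then (((g q.1 : ℕ) + 1 : ℕ) : ZMod (2 * n + 1))
                else -(((g q.1 : ℕ) + 1 : ℕ) : ZMod (2 * n + 1))) then (1 : K) else 0)
            (fun o => ζ ^ (c b * z o).val) a)) _ ?_ (fun g => rfl)] at h2
  swap
  · intro g hg
    have hni : ¬ Function.Injective g := fun h => hg ⟨⟨g, h⟩, rfl⟩
    simp only [Function.Injective, not_forall] at hni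
    obtain ⟨b, b', hbb, hne⟩ := hni
    rw [mul_eq_zero]
    right
    apply Matrix.det_zero_of_row_eq (i := Sum.inl (b, true)) (j := Sum.inl (b', true))
    · intro h
      apply hne
      simpa using h
    · ext d
      simp only [Matrix.of_apply, Sum.elim_inl]
      rw [hbb]
  rw [← h2]
  rw [Finset.sum_congr rfl (fun g _ => sum_avoid n r m hn g _), Finset.sum_comm]
  apply Finset.sum_congr rfl
  intro J _
  rw [subPer, Finset.mul_sum, Finset.sum_mul]
  apply Finset.sum_congr rfl
  intro g _
  split_ifs with hg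
  · rw [hb J g hg z]
    ring
  · simp

end Pool.Agent.Helper805_nf
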