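import Pool.Agent.Helper805_nf.Defs2

set_option autoImplicit false

namespace Pool.Agent.Helper805_nf

open Finset

/-- Leibniz sum with a kernel for each pair of rows. -/
def phi791 {K : Type*} [Field K] {m : ℕ} {O : Type*} [Fintype O] [DecidableEq O]
    (w : O → ((Fin m × Bool) ⊕ O) → K)
    (H : Fin m → ((Fin m × Bool) ⊕ O) → ((Fin m × Bool) ⊕ O) → K) : K :=
  ∑ σ : Equiv.Perm ((Fin m × Bool) ⊕ O), ((Equiv.Perm.sign σ : ℤ) : K) *
    ((∏ b : Fin m, H b (σ (Sum.inl (b, false))) (σ (Sum.inl (b, true)))) *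
      ∏ o : O, w o (σ (Sum.inr o)))

theorem det_pairs791 {K : Type*} [Field K] {m : ℕ} {O : Type*} [Fintype O] [DecidableEq O]
    (w : O → ((Fin m × Bool) ⊕ O) → K) (R : Fin m × Bool → ((Fin m × Bool) ⊕ O) → K) :
    Matrix.det (Matrix.of fun (a b : (Fin m × Bool) ⊕ O) =>
      Sum.elim (fun q : Fin m × Bool => R q b) (fun o => w o b) a) =
      phi791 w (fun b p q => R (b, false) p * R (b, true) q) := by
  rw [← Matrix.det_transpose, Matrix.det_apply']
  unfold phi791
  refine Finset.sum_congr rfl fun σ _ => ?_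
  congr 1
  rw [Fintype.prod_sum_type, Fintype.prod_prod_type]
  congr 1
  refine Finset.prod_congr rfl fun b _ => ?_
  rw [Fintype.prod_bool]
  simp [Matrix.transpose_apply, Matrix.of_apply, mul_comm]

theorem sum_phi791 {K : Type*} [Field K] {m : ℕ} {O : Type*} [Fintype O] [DecidableEq O]
    {α : Type*} [Fintype α] [DecidableEq α]
    (w : O → ((Fin m × Bool) ⊕ O) → K)
    (G : Fin m → α → ((Fin m × Bool) ⊕ O) → ((Fin m × Bool) ⊕ O) → K) :
    ∑ x : Fin m → α, phi791 w (fun b => G b (x b)) =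
      phi791 w (fun b p q => ∑ y : α, G b y p q) := by
  unfold phi791
  rw [Finset.sum_comm]
  refine Finset.sum_congr rfl fun σ _ => ?_
  rw [← Finset.mul_sum, ← Finset.sum_mul, Finset.prod_univ_sum, Fintype.piFinset_univ]

theorem smul_phi791 {K : Type*} [Field K] {m : ℕ} {O : Type*} [Fintype O] [DecidableEq O]
    (w : O → ((Fin m × Bool) ⊕ O) → K) (s : Fin m → K)
    (H : Fin m → ((Fin m × Bool) ⊕ O) → ((Fin m × Bool) ⊕ O) → K) :
    (∏ b, s b) * phi791 w H = phi791 w (fun b p q => s b * H b p q) := by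
  unfold phi791
  rw [Finset.mul_sum]
  refine Finset.sum_congr rfl fun σ _ => ?_
  rw [Finset.prod_mul_distrib]
  ring

theorem one_step791 {K : Type*} [Field K] {m : ℕ} {O : Type*} [Fintype O] [DecidableEq O]
    (w : O → ((Fin m × Bool) ⊕ O) → K)
    (H : Fin m → ((Fin m × Bool) ⊕ O) → ((Fin m × Bool) ⊕ O) → K) (b0 : Fin m)
    (K' : ((Fin m × Bool) ⊕ O) → ((Fin m × Bool) ⊕ O) → K)
    (h : ∀ p q, p ≠ q → H b0 p q - H b0 q p = K' p q - K' q p) :
    phi791 w (Function.update H b0 K') = phi791 w H := by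
  rw [← sub_eq_zero]
  unfold phi791
  rw [← Finset.sum_sub_distrib]
  have hterm : ∀ σ : Equiv.Perm ((Fin m × Bool) ⊕ O),
      ((Equiv.Perm.sign σ : ℤ) : K) *
        ((∏ b : Fin m, (Function.update H b0 K') b (σ (Sum.inl (b, false)))
          (σ (Sum.inl (b, true)))) * ∏ o : O, w o (σ (Sum.inr o))) -
      ((Equiv.Perm.sign σ : ℤ) : K) *
        ((∏ b : Fin m, H b (σ (Sum.inl (b, false))) (σ (Sum.inl (b, true)))) *
          ∏ o : O, w o (σ (Sum.inr o))) =
      ((Equiv.Perm.sign σ : ℤ) : K) *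
        ((K' (σ (Sum.inl (b0, false))) (σ (Sum.inl (b0, true))) -
          H b0 (σ (Sum.inl (b0, false))) (σ (Sum.inl (b0, true)))) *
        ((∏ b ∈ Finset.univ.erase b0, H b (σ (Sum.inl (b, false))) (σ (Sum.inl (b, true)))) *
          ∏ o : O, w o (σ (Sum.inr o)))) := by
    intro σ
    rw [← Finset.mul_prod_erase Finset.univ _ (Finset.mem_univ b0),
      ← Finset.mul_prod_erase Finset.univ
        (fun b => H b (σ (Sum.inl (b, false))) (σ (Sum.inl (b, true)))) (Finset.mem_univ b0)]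
    have h1 : ∏ b ∈ Finset.univ.erase b0, (Function.update H b0 K') b (σ (Sum.inl (b, false)))
        (σ (Sum.inl (b, true))) =
        ∏ b ∈ Finset.univ.erase b0, H b (σ (Sum.inl (b, false))) (σ (Sum.inl (b, true))) := by
      refine Finset.prod_congr rfl fun b hb => ?_
      rw [Function.update_of_ne (Finset.ne_of_mem_erase hb)]
    rw [h1, Function.update_self]
    ring
  rw [Finset.sum_congr rfl fun σ _ => hterm σ]
  set s : Equiv.Perm ((Fin m × Bool) ⊕ O) :=
    Equiv.swap (Sum.inl (b0, false)) (Sum.inl (b0, true)) with hs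
  have hne : (Sum.inl (b0, false) : (Fin m × Bool) ⊕ O) ≠ Sum.inl (b0, true) := by simp
  have hsf : s (Sum.inl (b0, false)) = Sum.inl (b0, true) := by
    rw [hs, Equiv.swap_apply_left]
  have hst : s (Sum.inl (b0, true)) = Sum.inl (b0, false) := by
    rw [hs, Equiv.swap_apply_right]
  have hso : ∀ o : O, s (Sum.inr o) = Sum.inr o := by
    intro o; rw [hs, Equiv.swap_apply_of_ne_of_ne] <;> simp
  have hsb : ∀ b : Fin m, b ≠ b0 → ∀ u : Bool, s (Sum.inl (b, u)) = Sum.inl (b, u) := by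
    intro b hb u; rw [hs, Equiv.swap_apply_of_ne_of_ne] <;> simp [hb]
  refine Finset.sum_involution (fun σ _ => σ * s) ?_ ?_ ?_ ?_
  · intro σ _
    have h2 : ∏ b ∈ Finset.univ.erase b0, H b ((σ * s) (Sum.inl (b, false)))
        ((σ * s) (Sum.inl (b, true))) =
        ∏ b ∈ Finset.univ.erase b0, H b (σ (Sum.inl (b, false))) (σ (Sum.inl (b, true))) := by
      refine Finset.prod_congr rfl fun b hb => ?_
      rw [Equiv.Perm.mul_apply, Equiv.Perm.mul_apply, hsb b (Finset.ne_of_mem_erase hb),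
        hsb b (Finset.ne_of_mem_erase hb)]
    have h3 : ∏ o : O, w o ((σ * s) (Sum.inr o)) = ∏ o : O, w o (σ (Sum.inr o)) := by
      refine Finset.prod_congr rfl fun o _ => ?_
      rw [Equiv.Perm.mul_apply, hso]
    have h4 : ((Equiv.Perm.sign (σ * s) : ℤ) : K) = - ((Equiv.Perm.sign σ : ℤ) : K) := by
      rw [Equiv.Perm.sign_mul, hs, Equiv.Perm.sign_swap hne]
      simp
    rw [h2, h3, h4, Equiv.Perm.mul_apply, Equiv.Perm.mul_apply, hsf, hst]
    have h5 := h (σ (Sum.inl (b0, false))) (σ (Sum.inl (b0, true)))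
      (fun hh => hne (σ.injective hh))
    linear_combination (-((Equiv.Perm.sign σ : ℤ) : K) *
      ((∏ b ∈ Finset.univ.erase b0, H b (σ (Sum.inl (b, false))) (σ (Sum.inl (b, true)))) *
          ∏ o : O, w o (σ (Sum.inr o)))) * h5
  · intro σ _ _ hh
    have h6 : s = 1 := by
      have := congrArg (fun τ => σ⁻¹ * τ) hh
      simpa using this
    rw [h6] at hsf
    exact hne hsf
  · intro σ _
    exact Finset.mem_univ _
  · intro σ _
    show σ * s * s = σ
    rw [mul_assoc, hs, Equiv.swap_mul_self, mul_one]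

theorem all_steps791 {K : Type*} [Field K] {m : ℕ} {O : Type*} [Fintype O] [DecidableEq O]
    (w : O → ((Fin m × Bool) ⊕ O) → K)
    (H H' : Fin m → ((Fin m × Bool) ⊕ O) → ((Fin m × Bool) ⊕ O) → K)
    (h : ∀ b p q, p ≠ q → H b p q - H b q p = H' b p q - H' b q p) :
    phi791 w H' = phi791 w H := by
  have key : ∀ S : Finset (Fin m), phi791 w (fun b => if b ∈ S then H' b else H b) =
      phi791 w H := by
    intro S
    induction S using Finset.induction_on with
    | empty => simp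
    | insert b0 S hb ih =>
      have h1 : (fun b => if b ∈ insert b0 S then H' b else H b) =
          Function.update (fun b => if b ∈ S then H' b else H b) b0 (H' b0) := by
        funext b
        by_cases hbb : b = b0
        · subst hbb; simp
        · rw [Function.update_of_ne hbb]
          simp [Finset.mem_insert, hbb]
      rw [h1, one_step791, ih]
      intro p q hpq
      simp only [if_neg hb]
      exact h b0 p q hpq
  have := key Finset.univ
  simpa using this

theorem full_expand {K : Type*} [Field K] (n m : ℕ) {O : Type*} [Fintype O] [DecidableEq O] (ζ : K)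
    (hζ : IsPrimitiveRoot ζ (2 * n + 1)) (c : (Fin m × Bool) ⊕ O ≃ ZMod (2 * n + 1))
    (e : Fin m → ZMod (2 * n + 1)) (z : O → ZMod (2 * n + 1)) :
    ∑ x : Fin m → ZMod (2 * n + 1), Matrix.det (Matrix.of fun (a b : (Fin m × Bool) ⊕ O) =>
        ζ ^ (c b * Sum.elim (fun q : Fin m × Bool => x q.1 + if q.2 then e q.1 else 0) z a).val) =
      ((2 * n + 1 : ℕ) : K) ^ m * ∑ g : Fin m → Fin n,
        (∏ b, (ζ ^ (((g b : ℕ) + 1) * (e b).val) - (ζ⁻¹) ^ (((g b : ℕ) + 1) * (e b).val))) *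
        Matrix.det (Matrix.of fun (a b : (Fin m × Bool) ⊕ O) =>
          Sum.elim (fun q : Fin m × Bool =>
              if c b = (if q.2 then (((g q.1 : ℕ) + 1 : ℕ) : ZMod (2 * n + 1))
                else -(((g q.1 : ℕ) + 1 : ℕ) : ZMod (2 * n + 1))) then (1 : K) else 0)
            (fun o => ζ ^ (c b * z o).val) a) := by
  have : NeZero (2 * n + 1) := ⟨by omega⟩
  set ψ : AddChar (ZMod (2 * n + 1)) K := AddChar.zmodChar (2 * n + 1) hζ.pow_eq_one with hψ
  have hψv : ∀ a : ZMod (2 * n + 1), ζ ^ a.val = ψ a := by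
    intro a; rw [hψ, AddChar.zmodChar_apply]
  have hprim : ψ.IsPrimitive := AddChar.zmodChar_primitive_of_primitive_root (2 * n + 1) hζ
  have hneg : ∀ a : ZMod (2 * n + 1), ψ (-a) = (ψ a)⁻¹ := by
    intro a
    apply eq_inv_of_mul_eq_one_left
    rw [← AddChar.map_add_eq_mul, neg_add_cancel, AddChar.map_zero_eq_one]
  have hk : ∀ (k : ℕ) (a : ZMod (2 * n + 1)), ζ ^ (k * a.val) = ψ ((k : ZMod (2 * n + 1)) * a) := by
    intro k a
    rw [mul_comm k, pow_mul, hψv, ← AddChar.map_nsmul_eq_pow, nsmul_eq_mul]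
  have hk' : ∀ (k : ℕ) (a : ZMod (2 * n + 1)),
      (ζ⁻¹) ^ (k * a.val) = ψ (-((k : ZMod (2 * n + 1)) * a)) := by
    intro k a
    rw [inv_pow, hk, hneg]
  -- left side
  have hL : ∀ x : Fin m → ZMod (2 * n + 1),
      Matrix.det (Matrix.of fun (a b : (Fin m × Bool) ⊕ O) =>
        ζ ^ (c b * Sum.elim (fun q : Fin m × Bool => x q.1 + if q.2 then e q.1 else 0) z a).val) =
      phi791 (fun o b => ψ (c b * z o)) (fun b => (fun (b : Fin m) (y : ZMod (2 * n + 1)) p q =>
        ψ (c p * y) * ψ (c q * (y + e b))) b (x b)) := by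
    intro x
    have h1 := det_pairs791 (fun (o : O) b => ψ (c b * z o))
      (fun (q : Fin m × Bool) b => ψ (c b * (x q.1 + if q.2 then e q.1 else 0)))
    have h2 : (Matrix.of fun (a b : (Fin m × Bool) ⊕ O) =>
        ζ ^ (c b * Sum.elim (fun q : Fin m × Bool => x q.1 + if q.2 then e q.1 else 0) z a).val) =
        Matrix.of fun (a b : (Fin m × Bool) ⊕ O) =>
          Sum.elim (fun q : Fin m × Bool => ψ (c b * (x q.1 + if q.2 then e q.1 else 0)))
            (fun o => ψ (c b * z o)) a := by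
      ext a b
      rcases a with a | a
      · simp only [Matrix.of_apply, Sum.elim_inl, hψv]
      · simp only [Matrix.of_apply, Sum.elim_inr, hψv]
    rw [h2, h1]
    simp
  rw [Finset.sum_congr rfl fun x _ => hL x,
    sum_phi791 (fun (o : O) b => ψ (c b * z o)) (fun (b : Fin m) (y : ZMod (2 * n + 1)) p q =>
        ψ (c p * y) * ψ (c q * (y + e b)))]
  -- right side
  have hR : ∀ g : Fin m → Fin n,
      (∏ b, (ζ ^ (((g b : ℕ) + 1) * (e b).val) - (ζ⁻¹) ^ (((g b : ℕ) + 1) * (e b).val))) *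
        Matrix.det (Matrix.of fun (a b : (Fin m × Bool) ⊕ O) =>
          Sum.elim (fun q : Fin m × Bool =>
              if c b = (if q.2 then (((g q.1 : ℕ) + 1 : ℕ) : ZMod (2 * n + 1))
                else -(((g q.1 : ℕ) + 1 : ℕ) : ZMod (2 * n + 1))) then (1 : K) else 0)
            (fun o => ζ ^ (c b * z o).val) a) =
      phi791 (fun o b => ψ (c b * z o)) (fun b => (fun (b : Fin m) (j : Fin n) p q =>
        (ψ ((((j : ℕ) + 1 : ℕ) : ZMod (2 * n + 1)) * e b) -
          ψ (-((((j : ℕ) + 1 : ℕ) : ZMod (2 * n + 1)) * e b))) *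
        ((if c p = -(((j : ℕ) + 1 : ℕ) : ZMod (2 * n + 1)) then (1 : K) else 0) *
          (if c q = (((j : ℕ) + 1 : ℕ) : ZMod (2 * n + 1)) then (1 : K) else 0))) b (g b)) := by
    intro g
    have h1 := det_pairs791 (fun (o : O) b => ψ (c b * z o))
      (fun (q : Fin m × Bool) b =>
        if c b = (if q.2 then (((g q.1 : ℕ) + 1 : ℕ) : ZMod (2 * n + 1))
                else -(((g q.1 : ℕ) + 1 : ℕ) : ZMod (2 * n + 1))) then (1 : K) else 0)
    simp only [hψv, hk, hk']
    rw [h1, smul_phi791]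
    simp
  rw [Finset.sum_congr rfl fun x _ => hR x,
    sum_phi791 (fun (o : O) b => ψ (c b * z o)) (fun (b : Fin m) (j : Fin n) p q =>
        (ψ ((((j : ℕ) + 1 : ℕ) : ZMod (2 * n + 1)) * e b) -
          ψ (-((((j : ℕ) + 1 : ℕ) : ZMod (2 * n + 1)) * e b))) *
        ((if c p = -(((j : ℕ) + 1 : ℕ) : ZMod (2 * n + 1)) then (1 : K) else 0) *
          (if c q = (((j : ℕ) + 1 : ℕ) : ZMod (2 * n + 1)) then (1 : K) else 0)))]
  have hv : ((2 * n + 1 : ℕ) : K) ^ m = ∏ _b : Fin m, ((2 * n + 1 : ℕ) : K) := by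
    rw [Finset.prod_const, Finset.card_univ, Fintype.card_fin]
  rw [hv, smul_phi791]
  symm
  apply all_steps791
  intro b p q hpq
  have hsum : ∀ p q : (Fin m × Bool) ⊕ O, ∑ y : ZMod (2 * n + 1), ψ (c p * y) * ψ (c q * (y + e b)) =
      if c p + c q = 0 then ((2 * n + 1 : ℕ) : K) * ψ (c q * e b) else 0 := by
    intro p q
    have h1 : ∀ y : ZMod (2 * n + 1), ψ (c p * y) * ψ (c q * (y + e b)) =
        ψ (y * (c p + c q)) * ψ (c q * e b) := by
      intro y
      rw [← AddChar.map_add_eq_mul, ← AddChar.map_add_eq_mul]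
      congr 1; ring
    rw [Finset.sum_congr rfl fun y _ => h1 y, ← Finset.sum_mul, AddChar.sum_mulShift _ hprim,
      ZMod.card]
    split_ifs <;> simp
  rw [hsum, hsum]
  -- indicator form
  set τ : Fin n → K := fun j => ψ ((((j : ℕ) + 1 : ℕ) : ZMod (2 * n + 1)) * e b) -
          ψ (-((((j : ℕ) + 1 : ℕ) : ZMod (2 * n + 1)) * e b)) with hτ
  by_cases h0 : c p + c q = 0
  · have h0' : c q + c p = 0 := (add_comm (c q) (c p)).trans h0
    rw [if_pos h0, if_pos h0']
    have hp : c p = - c q := eq_neg_of_add_eq_zero_left h0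
    obtain ⟨t, ht⟩ : ∃ t, c q = t := ⟨_, rfl⟩
    have ht0 : t ≠ 0 := by
      intro h
      rw [h] at ht
      rw [ht, neg_zero] at hp
      exact hpq (c.injective (hp.trans ht.symm))
    rw [hp, ht]
    have hA : ∀ j : Fin n, (-t = -(((j : ℕ) + 1 : ℕ) : ZMod (2 * n + 1))) ↔
        t = (((j : ℕ) + 1 : ℕ) : ZMod (2 * n + 1)) := fun j => neg_inj
    have hB : ∀ j : Fin n, (-t = (((j : ℕ) + 1 : ℕ) : ZMod (2 * n + 1))) ↔
        t = -(((j : ℕ) + 1 : ℕ) : ZMod (2 * n + 1)) := fun j => neg_eq_iff_eq_neg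
    have hsum2 : ((2 * n + 1 : ℕ) : K) * ∑ j : Fin n, τ j *
        ((if -t = -(((j : ℕ) + 1 : ℕ) : ZMod (2 * n + 1)) then (1 : K) else 0) *
          (if t = (((j : ℕ) + 1 : ℕ) : ZMod (2 * n + 1)) then (1 : K) else 0)) -
      ((2 * n + 1 : ℕ) : K) * ∑ j : Fin n, τ j *
        ((if t = -(((j : ℕ) + 1 : ℕ) : ZMod (2 * n + 1)) then (1 : K) else 0) *
          (if -t = (((j : ℕ) + 1 : ℕ) : ZMod (2 * n + 1)) then (1 : K) else 0)) =
      ((2 * n + 1 : ℕ) : K) * ∑ j : Fin n, (τ j *
        (if t = (((j : ℕ) + 1 : ℕ) : ZMod (2 * n + 1)) then (1 : K) else 0) - τ j *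
        (if t = -(((j : ℕ) + 1 : ℕ) : ZMod (2 * n + 1)) then (1 : K) else 0)) := by
      rw [← mul_sub, ← Finset.sum_sub_distrib]
      congr 1
      refine Finset.sum_congr rfl fun j _ => ?_
      simp only [hA, hB]
      split_ifs <;> simp
    rw [hsum2, ← mul_sub]
    congr 1
    have hcast : ∀ k : ℕ, 0 < k → k ≤ 2 * n → ((k : ℕ) : ZMod (2 * n + 1)) ≠ 0 := by
      intro k hk0 hk1 h
      rw [ZMod.natCast_eq_zero_iff] at h
      have := Nat.le_of_dvd hk0 h
      omega
    have hinj : ∀ j j' : Fin n, (((j : ℕ) + 1 : ℕ) : ZMod (2 * n + 1)) =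
        (((j' : ℕ) + 1 : ℕ) : ZMod (2 * n + 1)) → j = j' := by
      intro j j' h
      rw [ZMod.natCast_eq_natCast_iff'] at h
      have h1 := j.2
      have h2 := j'.2
      rw [Nat.mod_eq_of_lt (by omega), Nat.mod_eq_of_lt (by omega)] at h
      exact Fin.ext (by omega)
    have hdis : ∀ j j' : Fin n, (((j : ℕ) + 1 : ℕ) : ZMod (2 * n + 1)) ≠
        -(((j' : ℕ) + 1 : ℕ) : ZMod (2 * n + 1)) := by
      intro j j' h
      have h1 := j.2
      have h2 := j'.2
      apply hcast ((j : ℕ) + 1 + ((j' : ℕ) + 1)) (by omega) (by omega)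
      rw [Nat.cast_add, h, neg_add_cancel]
    have htv : t.val < 2 * n + 1 := ZMod.val_lt t
    have htv0 : 0 < t.val := by
      rcases Nat.eq_zero_or_pos t.val with h | h
      · exact absurd ((ZMod.val_eq_zero t).mp h) ht0
      · exact h
    have htc : ((t.val : ℕ) : ZMod (2 * n + 1)) = t := ZMod.natCast_zmod_val t
    by_cases hle : t.val ≤ n
    · obtain ⟨j0, hj0⟩ : ∃ j0 : Fin n, (((j0 : ℕ) + 1 : ℕ) : ZMod (2 * n + 1)) = t := by
        refine ⟨⟨t.val - 1, by omega⟩, ?_⟩
        show ((t.val - 1 + 1 : ℕ) : ZMod (2 * n + 1)) = t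
        rw [Nat.sub_add_cancel htv0, htc]
      rw [← hj0]
      rw [Finset.sum_eq_single j0]
      · rw [if_pos rfl, if_neg (hdis j0 j0), hτ]
        simp only [mul_one, mul_zero, sub_zero]
        congr 2
        ring
      · intro j _ hj
        rw [if_neg, if_neg (hdis j0 j)]
        · ring
        · intro h; exact hj (hinj _ _ h).symm
      · intro h; exact absurd (Finset.mem_univ _) h
    · obtain ⟨j0, hj0⟩ : ∃ j0 : Fin n, t = -(((j0 : ℕ) + 1 : ℕ) : ZMod (2 * n + 1)) := by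
        refine ⟨⟨2 * n + 1 - t.val - 1, by omega⟩, ?_⟩
        show t = -((2 * n + 1 - t.val - 1 + 1 : ℕ) : ZMod (2 * n + 1))
        rw [Nat.sub_add_cancel (by omega), Nat.cast_sub htv.le, htc]
        simp
      rw [hj0]
      rw [Finset.sum_eq_single j0]
      · rw [if_pos rfl, if_neg (fun h => hdis j0 j0 h.symm), hτ]
        simp only [mul_one, mul_zero, zero_sub, neg_sub, neg_neg]
        congr 2
        ring
      · intro j _ hj
        rw [if_neg (fun h => hdis j j0 h.symm), if_neg]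
        · ring
        · intro h; exact hj (hinj _ _ (neg_injective h)).symm
      · intro h; exact absurd (Finset.mem_univ _) h
  · have h0' : ¬ (c q + c p = 0) := fun h => h0 ((add_comm (c p) (c q)).trans h)
    rw [if_neg h0, if_neg h0']
    have hz : ∀ p q : (Fin m × Bool) ⊕ O, c p + c q ≠ 0 → ∑ j : Fin n, τ j *
        ((if c p = -(((j : ℕ) + 1 : ℕ) : ZMod (2 * n + 1)) then (1 : K) else 0) *
          (if c q = (((j : ℕ) + 1 : ℕ) : ZMod (2 * n + 1)) then (1 : K) else 0)) = 0 := by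
      intro p q hpq0
      apply Finset.sum_eq_zero
      intro j _
      by_cases h1 : c p = -(((j : ℕ) + 1 : ℕ) : ZMod (2 * n + 1))
      · by_cases h2 : c q = (((j : ℕ) + 1 : ℕ) : ZMod (2 * n + 1))
        · exfalso; apply hpq0; rw [h1, h2, neg_add_cancel]
        · rw [if_neg h2]; ring
      · rw [if_neg h1]; ring
    rw [hz p q h0, hz q p h0']
    ring

end Pool.Agent.Helper805_nf
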