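import Pool.Agent.Helper805_nf.X5
import Pool.Agent.Helper805_nf.X6

set_option autoImplicit false

namespace Pool.Agent.Helper805_nf

open Finset








theorem exchange_one {K : Type*} [Field K] (n r m : ℕ) (hn : m + r = n) (ζ : K)
    (hζ : IsPrimitiveRoot ζ (2 * n + 1)) (e : Fin m → ZMod (2 * n + 1)) (J : Fin r ↪o Fin n)
    (hP : subPer ζ (fun b => (e b).val) J ≠ 0) :
    ∃ (x : Fin m → ZMod (2 * n + 1)) (y : Fin r ↪o Fin n), Function.Injective
      (Sum.elim (fun q : Fin m × Bool => x q.1 + if q.2 then e q.1 else 0)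
        (fun a => ((colPos y a : ℕ) : ZMod (2 * n + 1)))) := by
  by_contra hcon
  push Not at hcon
  obtain ⟨ε, hε0, hε⟩ := laplace_zero n r m hn ζ hζ
  have hpos : ∀ (y : Fin r ↪o Fin n) (b : Option (Fin r × Bool)), colPos y b < 2 * n + 1 := by
    intro y b
    rcases b with _ | ⟨i, _ | _⟩
    · simp [colPos]
    · have h1 := (y i).2
      have h2 := i.2
      simp only [colPos]
      omega
    · have h1 := (y i).2
      have h2 := i.2
      simp only [colPos]
      omega
  have hc : ∀ J' : Fin r ↪o Fin n, ε J' * subPer ζ (fun b => (e b).val) J' = 0 := by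
    apply dim_left_kernel n r ζ hζ
    intro y
    have h1 := hε e (fun a => ((colPos y a : ℕ) : ZMod (2 * n + 1))) (fun x => hcon x y)
    rw [← h1]
    refine Finset.sum_congr rfl fun J' _ => ?_
    congr 1
    unfold dimDet
    congr 1
    ext a b
    simp only [Matrix.of_apply]
    rw [ZMod.val_natCast_of_lt (hpos y b)]
  rcases mul_eq_zero.mp (hc J) with h | h
  · exact hε0 J h
  · exact hP h


end Pool.Agent.Helper805_nf
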