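import Pool.Agent.Helper805_nf.Defs2

set_option autoImplicit false

namespace Pool.Agent.Helper805_nf

open Finset


theorem real_split_mult (f : Polynomial ℝ) (hf : f.Splits) (hf0 : f ≠ 0) (a : ℝ)
    (ha : 2 ≤ f.derivative.rootMultiplicity a) : f.eval a = 0 := by
  classical
  by_contra hfa
  have hd : f.derivative ≠ 0 := by
    intro h
    rw [h, Polynomial.rootMultiplicity_zero] at ha
    omega
  set R := f.roots.toFinset with hR
  set T := f.derivative.roots.toFinset \ R with hT
  have h1 : ∑ b ∈ R, f.rootMultiplicity b = f.natDegree := by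
    have h2 := Multiset.toFinset_sum_count_eq f.roots
    simp only [Polynomial.count_roots] at h2
    rw [h2, hf.natDegree_eq_card_roots]
  have h2 : ∑ b ∈ R, f.derivative.rootMultiplicity b + R.card = f.natDegree := by
    rw [← h1, Finset.card_eq_sum_ones, ← Finset.sum_add_distrib]
    refine Finset.sum_congr rfl fun b hb => ?_
    rw [hR, Multiset.mem_toFinset, Polynomial.mem_roots hf0] at hb
    rw [Polynomial.derivative_rootMultiplicity_of_root hb]
    have h3 : 0 < f.rootMultiplicity b := (Polynomial.rootMultiplicity_pos hf0).2 hb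
    omega
  have h3 : ∑ b ∈ R, f.derivative.rootMultiplicity b + ∑ b ∈ T, f.derivative.rootMultiplicity b ≤
      f.derivative.natDegree := by
    rw [← Finset.sum_union Finset.disjoint_sdiff]
    have h4 := Multiset.sum_count_eq_card (s := R ∪ T) (m := f.derivative.roots) (fun b hb => by
      rw [hT, Finset.union_sdiff_self_eq_union, Finset.mem_union]
      exact Or.inr (Multiset.mem_toFinset.2 hb))
    simp only [Polynomial.count_roots] at h4
    rw [h4]
    exact Polynomial.card_roots' _
  have h4 : f.derivative.natDegree ≤ f.natDegree - 1 := Polynomial.natDegree_derivative_le f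
  have h5 := Polynomial.card_roots_toFinset_le_card_roots_derivative_sdiff_roots_succ f
  have h6 : 1 ≤ f.natDegree := by
    by_contra h7
    have h8 : f.natDegree = 0 := by omega
    exact hd (Polynomial.derivative_of_natDegree_zero h8)
  have haT : a ∈ T := by
    rw [hT, Finset.mem_sdiff, hR, Multiset.mem_toFinset, Multiset.mem_toFinset,
      Polynomial.mem_roots hd, Polynomial.mem_roots hf0]
    refine ⟨?_, hfa⟩
    exact (Polynomial.rootMultiplicity_pos hd).1 (by omega)
  have h7 : T.card + 1 ≤ ∑ b ∈ T, f.derivative.rootMultiplicity b := by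
    rw [← Finset.add_sum_erase T _ haT, ← Finset.card_erase_add_one haT]
    have h8 : (T.erase a).card ≤ ∑ b ∈ T.erase a, f.derivative.rootMultiplicity b := by
      rw [Finset.card_eq_sum_ones]
      refine Finset.sum_le_sum fun b hb => ?_
      have h9 := Finset.mem_of_mem_erase hb
      rw [hT, Finset.mem_sdiff, Multiset.mem_toFinset, Polynomial.mem_roots hd] at h9
      exact (Polynomial.rootMultiplicity_pos hd).2 h9.1
    omega
  have h8 : R.card ≤ T.card + 1 := h5
  omega


end Pool.Agent.Helper805_nf
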