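import Mathlib
import Pool.Agent.Helper805_nf.Defs4

set_option autoImplicit false

namespace Pool.Agent.Helper805_nf

open Finset


theorem z29_class (d k c : ℕ) (S : Finset ℕ) (hS : ∀ x ∈ S, x < d * k ∧ x % d = c) :
    S.card ≤ k := by
  have h : S.card ≤ (Finset.range k).card := by
    refine Finset.card_le_card_of_injOn (fun x => x / d) (fun x hx => ?_) (fun x hx y hy h => ?_)
    · have := (hS x hx).1
      simp only [Finset.coe_range, Set.mem_Iio]
      exact Nat.div_lt_of_lt_mul this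
    · have hx' := (hS x hx).2
      have hy' := (hS y hy).2
      simp only at h
      rw [← Nat.div_add_mod x d, ← Nat.div_add_mod y d, h, hx', hy']
  simpa using h

theorem z29_mod (v d x y : ℕ) (hdv : d ∣ v) (hx : x < v) (hy : y < v)
    (h : d ∣ min (Int.natAbs ((x : ℤ) - (y : ℤ))) (v - Int.natAbs ((x : ℤ) - (y : ℤ)))) :
    x % d = y % d := by
  have h1 : d ∣ Int.natAbs ((x : ℤ) - (y : ℤ)) := by
    rcases min_choice (Int.natAbs ((x : ℤ) - (y : ℤ))) (v - Int.natAbs ((x : ℤ) - (y : ℤ)))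
      with h2 | h2
    · rwa [h2] at h
    · rw [h2] at h
      have hle : Int.natAbs ((x : ℤ) - (y : ℤ)) ≤ v := by omega
      have h3 := Nat.dvd_sub hdv h
      rwa [Nat.sub_sub_self hle] at h3
  have h2 : (d : ℤ) ∣ (x : ℤ) - (y : ℤ) := Int.natCast_dvd.2 h1
  have h3 : (y : ℤ) ≡ (x : ℤ) [ZMOD (d : ℤ)] := (Int.modEq_iff_dvd).2 h2
  have h4 : y ≡ x [MOD d] := (Int.natCast_modEq_iff).1 h3
  exact h4.symm

theorem necessity (n d : ℕ) (hd : d ∣ 2 * n + 1) (L : Multiset ℕ) (hR : Realizable n L) :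
    2 * Multiset.card (L.filter (fun x => d ∣ x)) ≤ 2 * n + 1 - d := by
  classical
  obtain ⟨g, hg, rfl⟩ := hR
  obtain ⟨k, hk⟩ := hd
  have hd0 : 0 < d := by
    rcases Nat.eq_zero_or_pos d with h | h
    · subst h; omega
    · exact h
  have hk1 : k % 2 = 1 := by
    rcases Nat.mod_two_eq_zero_or_one k with h | h
    · exfalso
      obtain ⟨m, hm⟩ := Nat.dvd_of_mod_eq_zero h
      have : 2 * n + 1 = 2 * (d * m) := by rw [hk, hm]; ring
      omega
    · exact h
  set ℓ : Fin n → ℕ := fun i =>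
    min (Int.natAbs (((g (Sum.inl i) : ℕ) : ℤ) - ((g (Sum.inr i) : ℕ) : ℤ)))
      (2 * n + 1 - Int.natAbs (((g (Sum.inl i) : ℕ) : ℤ) - ((g (Sum.inr i) : ℕ) : ℤ))) with hℓ
  have hcard : Multiset.card ((Multiset.map ℓ (Finset.univ : Finset (Fin n)).val).filter
      (fun x => d ∣ x)) = (Finset.univ.filter (fun i : Fin n => d ∣ ℓ i)).card := by
    rw [Multiset.filter_map, Multiset.card_map]
    rfl
  rw [hcard]
  set I : Finset (Fin n) := Finset.univ.filter (fun i : Fin n => d ∣ ℓ i) with hI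
  have hmod : ∀ i ∈ I, (g (Sum.inl i) : ℕ) % d = (g (Sum.inr i) : ℕ) % d := by
    intro i hi
    have h1 : d ∣ ℓ i := by
      rw [hI, Finset.mem_filter] at hi
      exact hi.2
    exact z29_mod (2 * n + 1) d _ _ ⟨k, hk⟩ (g (Sum.inl i)).2 (g (Sum.inr i)).2 h1
  have hfib : I.card = ∑ c ∈ Finset.range d,
      (I.filter (fun i => (g (Sum.inl i) : ℕ) % d = c)).card := by
    refine Finset.card_eq_sum_card_fiberwise (fun i hi => ?_)
    simp only [Finset.coe_range, Set.mem_Iio]
    exact Nat.mod_lt _ hd0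
  have hone : ∀ c ∈ Finset.range d,
      2 * (I.filter (fun i => (g (Sum.inl i) : ℕ) % d = c)).card ≤ k - 1 := by
    intro c _
    set A := I.filter (fun i => (g (Sum.inl i) : ℕ) % d = c) with hA
    have hAm : ∀ i ∈ A, (g (Sum.inl i) : ℕ) % d = c ∧ (g (Sum.inr i) : ℕ) % d = c := by
      intro i hi
      rw [hA, Finset.mem_filter] at hi
      exact ⟨hi.2, by rw [← hmod i hi.1]; exact hi.2⟩
    have hinl : (A.image (fun i => (g (Sum.inl i) : ℕ))).card = A.card := by
      refine Finset.card_image_of_injective _ (fun i j hij => ?_)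
      have := hg (Fin.ext hij)
      exact Sum.inl_injective this
    have hinr : (A.image (fun i => (g (Sum.inr i) : ℕ))).card = A.card := by
      refine Finset.card_image_of_injective _ (fun i j hij => ?_)
      have := hg (Fin.ext hij)
      exact Sum.inr_injective this
    have hdisj : Disjoint (A.image (fun i => (g (Sum.inl i) : ℕ)))
        (A.image (fun i => (g (Sum.inr i) : ℕ))) := by
      rw [Finset.disjoint_left]
      intro x hx hy
      obtain ⟨i, _, hi⟩ := Finset.mem_image.1 hx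
      obtain ⟨j, _, hj⟩ := Finset.mem_image.1 hy
      have : g (Sum.inl i) = g (Sum.inr j) := Fin.ext (by rw [hi, hj])
      have := hg this
      simp at this
    have hle : 2 * A.card ≤ k := by
      have h1 : ((A.image (fun i => (g (Sum.inl i) : ℕ))) ∪
          (A.image (fun i => (g (Sum.inr i) : ℕ)))).card ≤ k := by
        refine z29_class d k c _ (fun x hx => ?_)
        rw [Finset.mem_union] at hx
        rcases hx with hx | hx
        · obtain ⟨i, hi, rfl⟩ := Finset.mem_image.1 hx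
          exact ⟨by rw [← hk]; exact (g (Sum.inl i)).2, (hAm i hi).1⟩
        · obtain ⟨i, hi, rfl⟩ := Finset.mem_image.1 hx
          exact ⟨by rw [← hk]; exact (g (Sum.inr i)).2, (hAm i hi).2⟩
      rw [Finset.card_union_of_disjoint hdisj, hinl, hinr] at h1
      omega
    omega
  rw [hfib, Finset.mul_sum]
  calc ∑ c ∈ Finset.range d, 2 * (I.filter (fun i => (g (Sum.inl i) : ℕ) % d = c)).card
      ≤ ∑ _c ∈ Finset.range d, (k - 1) := Finset.sum_le_sum hone
    _ = d * (k - 1) := by simp
    _ = 2 * n + 1 - d := by rw [hk, Nat.mul_sub, Nat.mul_one]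

end Pool.Agent.Helper805_nf
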